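import Mathlib

/-!
# Absorption lemmas and `ℓ²` estimates

Abstract lemmas over a set `Γ` with a summable nonnegative weight `e`.
-/

set_option autoImplicit false

namespace Pool.Agent.DL

open Finset Filter Topology

section

variable {Γ : Type} (e : Γ → ℝ)

/-- The weight outside of `F`. -/
noncomputable def offF (F : Finset Γ) (y : Γ) : ℝ := Set.indicator ((F : Set Γ)ᶜ) e y

theorem offF_of_mem {F : Finset Γ} {y : Γ} (h : y ∈ F) : offF e F y = 0 := by
  unfold offF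
  exact Set.indicator_of_notMem (by simpa using h) _

theorem offF_of_notMem {F : Finset Γ} {y : Γ} (h : y ∉ F) : offF e F y = e y := by
  unfold offF
  exact Set.indicator_of_mem (by simpa using h) _

theorem offF_nonneg (he0 : ∀ y, 0 ≤ e y) (F : Finset Γ) (y : Γ) : 0 ≤ offF e F y := by
  by_cases h : y ∈ F
  · rw [offF_of_mem e h]
  · rw [offF_of_notMem e h]
    exact he0 y

theorem offF_le (he0 : ∀ y, 0 ≤ e y) (F : Finset Γ) (y : Γ) : offF e F y ≤ e y := by
  by_cases h : y ∈ F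
  · rw [offF_of_mem e h]
    exact he0 y
  · rw [offF_of_notMem e h]

theorem summable_offF (he : Summable e) (F : Finset Γ) : Summable (offF e F) := he.indicator _

/-- The part of the weight outside of a finite set is small. -/
theorem exists_tail (he : Summable e) (ε : ℝ) (hε : 0 < ε) : ∃ F : Finset Γ,
    ∑' y, offF e F y ≤ ε := by
  have h1 : Tendsto (fun F : Finset Γ => ∑ y ∈ F, e y) atTop (𝓝 (∑' y, e y)) := he.hasSum
  obtain ⟨F, hF⟩ := (h1.eventually (Metric.ball_mem_nhds _ hε)).exists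
  refine ⟨F, ?_⟩
  have h3 : |∑ y ∈ F, e y - ∑' y, e y| < ε := by
    rwa [Real.dist_eq] at hF
  have h4 : ∑' y, offF e F y = ∑' y, e y - ∑ y ∈ F, e y := by
    have h5 : ∑' y, e y = ∑' y, (Set.indicator (F : Set Γ) e y + offF e F y) := by
      refine tsum_congr fun y => ?_
      have := congrFun (Set.indicator_self_add_compl (F : Set Γ) e) y
      exact this.symm
    have h6 : ∑' y, Set.indicator (F : Set Γ) e y = ∑ y ∈ F, e y := by
      rw [tsum_eq_sum (s := F)]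
      · exact Finset.sum_congr rfl fun y hy => Set.indicator_of_mem (by simpa using hy) _
      · intro y hy
        exact Set.indicator_of_notMem (by simpa using hy) _
    rw [h5, (he.indicator _).tsum_add (summable_offF e he F), h6]
    ring
  rw [h4]
  have := (abs_lt.1 h3).1
  linarith

/-- A double sum of a kernel that is at most `k` on `F × F` and at most `k + M` off `F × F`. -/
theorem double_sum_le (he : Summable e) (he0 : ∀ y, 0 ≤ e y) (F : Finset Γ) (T : Γ → Γ → ℝ)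
    (k M : ℝ) (hM : 0 ≤ M) (h0 : ∀ y y', 0 ≤ T y y') (hk : ∀ y ∈ F, ∀ y' ∈ F, T y y' ≤ k)
    (hkM : ∀ y y', T y y' ≤ k + M) :
    ∑' y, e y * ∑' y', T y y' * e y' ≤
      k * (∑' y, e y) ^ 2 + 2 * M * (∑' y, e y) * ∑' y, offF e F y := by
  set W := ∑' y, e y with hW
  set ε := ∑' y, offF e F y with hε
  have hW0 : 0 ≤ W := tsum_nonneg he0
  have hso := summable_offF e he F
  have hε0 : 0 ≤ ε := tsum_nonneg (offF_nonneg e he0 F)
  have hsT : ∀ y, Summable fun y' => T y y' * e y' := fun y =>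
    Summable.of_nonneg_of_le (fun y' => mul_nonneg (h0 y y') (he0 y'))
      (fun y' => mul_le_mul_of_nonneg_right (hkM y y') (he0 y')) (he.mul_left (k + M))
  have h1 : ∀ y ∈ F, ∑' y', T y y' * e y' ≤ k * W + M * ε := by
    intro y hy
    rw [hW, hε, ← tsum_mul_left, ← tsum_mul_left, ← (he.mul_left k).tsum_add (hso.mul_left M)]
    refine (hsT y).tsum_le_tsum (fun y' => ?_) ((he.mul_left k).add (hso.mul_left M))
    by_cases hy' : y' ∈ F
    · rw [offF_of_mem e hy']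
      have := mul_le_mul_of_nonneg_right (hk y hy y' hy') (he0 y')
      linarith
    · rw [offF_of_notMem e hy']
      have := mul_le_mul_of_nonneg_right (hkM y y') (he0 y')
      linarith
  have h2 : ∀ y, ∑' y', T y y' * e y' ≤ (k + M) * W := by
    intro y
    rw [hW, ← tsum_mul_left]
    exact (hsT y).tsum_le_tsum (fun y' => mul_le_mul_of_nonneg_right (hkM y y') (he0 y'))
      (he.mul_left _)
  have h3 : ∀ y, e y * ∑' y', T y y' * e y' ≤ (k * W + M * ε) * e y + M * W * offF e F y := by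
    intro y
    by_cases hy : y ∈ F
    · rw [offF_of_mem e hy]
      have := mul_le_mul_of_nonneg_left (h1 y hy) (he0 y)
      linarith
    · rw [offF_of_notMem e hy]
      have h4 := mul_le_mul_of_nonneg_left (h2 y) (he0 y)
      have h5 : 0 ≤ M * ε * e y := mul_nonneg (mul_nonneg hM hε0) (he0 y)
      linarith
  have h4 : Summable fun y => e y * ∑' y', T y y' * e y' :=
    Summable.of_nonneg_of_le
      (fun y => mul_nonneg (he0 y) (tsum_nonneg fun y' => mul_nonneg (h0 y y') (he0 y')))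
      (fun y => mul_le_mul_of_nonneg_left (h2 y) (he0 y)) (he.mul_right _)
  calc ∑' y, e y * ∑' y', T y y' * e y'
      ≤ ∑' y, ((k * W + M * ε) * e y + M * W * offF e F y) :=
        h4.tsum_le_tsum h3 ((he.mul_left _).add (hso.mul_left _))
    _ = (k * W + M * ε) * W + M * W * ε := by
        rw [(he.mul_left _).tsum_add (hso.mul_left _), tsum_mul_left, tsum_mul_left]
    _ = k * W ^ 2 + 2 * M * W * ε := by ring

/-- Absorption: a symmetric bounded kernel that is controlled by its values near the centre. -/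
theorem absorb (he : Summable e) (he0 : ∀ y, 0 ≤ e y) (C : ℝ) (hC : 0 ≤ C)
    (K : Finset Γ → ℝ) : ∃ C' : ℝ, 0 < C' ∧ ∀ (S : Γ → Γ → ℝ) (s B : ℝ), 1 ≤ s →
      (∀ u w, 0 ≤ S u w) → (∀ u w, S u w ≤ B) → (∀ u w, S u w = S w u) →
      (∀ u w, S u w ≤ C + C * ∑' y, S u y * e y) →
      (∀ F : Finset Γ, ∀ y ∈ F, ∀ y' ∈ F, S y y' ≤ K F * s) → ∀ u w, S u w ≤ C' * s := by
  set W := ∑' y, e y with hW
  have hW0 : 0 ≤ W := tsum_nonneg he0
  obtain ⟨F, hF⟩ := exists_tail e he (1 / (4 * (C ^ 2 * W + 1))) (by positivity)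
  set ε := ∑' y, offF e F y with hε
  have hε0 : 0 ≤ ε := tsum_nonneg (offF_nonneg e he0 F)
  set C1 := C + C ^ 2 * W with hC1
  have hC10 : 0 ≤ C1 := by positivity
  refine ⟨2 * (C1 + C ^ 2 * (|K F| * W ^ 2)) + 1, by positivity, ?_⟩
  intro S s B hs h0 hB hsym h1 h2
  have hsS : ∀ y, Summable fun y' => S y y' * e y' := fun y =>
    Summable.of_nonneg_of_le (fun y' => mul_nonneg (h0 y y') (he0 y'))
      (fun y' => mul_le_mul_of_nonneg_right (hB y y') (he0 y')) (he.mul_left B)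
  have hB0 : 0 ≤ B ∨ IsEmpty Γ := by
    rcases isEmpty_or_nonempty Γ with h | ⟨⟨y⟩⟩
    · exact Or.inr h
    · exact Or.inl ((h0 y y).trans (hB y y))
  rcases hB0 with hB0 | hemp
  swap
  · intro u
    exact (hemp.false u).elim
  have ha : ∀ y, ∑' y', S y y' * e y' ≤ B * W := by
    intro y
    rw [hW, ← tsum_mul_left]
    exact (hsS y).tsum_le_tsum (fun y' => mul_le_mul_of_nonneg_right (hB y y') (he0 y'))
      (he.mul_left _)
  have ha0 : ∀ y, 0 ≤ ∑' y', S y y' * e y' := fun y =>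
    tsum_nonneg fun y' => mul_nonneg (h0 y y') (he0 y')
  set X := ∑' y, e y * ∑' y', S y y' * e y' with hX
  have hsX : Summable fun y => e y * ∑' y', S y y' * e y' :=
    Summable.of_nonneg_of_le (fun y => mul_nonneg (he0 y) (ha0 y))
      (fun y => mul_le_mul_of_nonneg_left (ha y) (he0 y)) (he.mul_right _)
  have hX0 : 0 ≤ X := tsum_nonneg fun y => mul_nonneg (he0 y) (ha0 y)
  -- the kernel is at most `C1 + C² X`
  have h3 : ∀ u w, S u w ≤ C1 + C ^ 2 * X := by
    intro u w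
    have h4 : ∑' y, S u y * e y ≤ C * W + C * X := by
      rw [hW, hX, ← tsum_mul_left, ← tsum_mul_left, ← (he.mul_left C).tsum_add (hsX.mul_left C)]
      refine (hsS u).tsum_le_tsum (fun y => ?_) ((he.mul_left C).add (hsX.mul_left C))
      rw [hsym u y]
      have := mul_le_mul_of_nonneg_right (h1 y u) (he0 y)
      linarith
    have h5 := h1 u w
    have h6 := mul_le_mul_of_nonneg_left h4 hC
    rw [hC1]
    nlinarith
  set M := C1 + C ^ 2 * X with hM
  have hM0 : 0 ≤ M := by positivity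
  have h4 : X ≤ |K F| * s * W ^ 2 + 2 * M * W * ε := by
    refine double_sum_le e he he0 F S (|K F| * s) M hM0 h0 ?_ ?_
    · intro y hy y' hy'
      exact (h2 F y hy y' hy').trans (mul_le_mul_of_nonneg_right (le_abs_self _) (by linarith))
    · intro y y'
      have h5 : 0 ≤ |K F| * s := by positivity
      linarith [h3 y y']
  have h5 : C ^ 2 * (2 * M * W * ε) ≤ M / 2 := by
    have h6 : C ^ 2 * W * ε ≤ 1 / 4 := by
      have h7 : 0 ≤ C ^ 2 * W := by positivity
      calc C ^ 2 * W * ε ≤ C ^ 2 * W * (1 / (4 * (C ^ 2 * W + 1))) :=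
            mul_le_mul_of_nonneg_left hF h7
        _ ≤ 1 / 4 := by
            rw [mul_one_div, div_le_div_iff₀ (by positivity) (by norm_num)]
            linarith
    nlinarith
  have h6 : M ≤ 2 * (C1 + C ^ 2 * (|K F| * W ^ 2)) * s := by
    have h7 : C ^ 2 * X ≤ C ^ 2 * (|K F| * s * W ^ 2) + M / 2 := by
      have := mul_le_mul_of_nonneg_left h4 (sq_nonneg C)
      linarith
    have h8 : C1 ≤ C1 * s := by nlinarith
    nlinarith
  intro u w
  have h7 := h3 u w
  nlinarith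

/-- Absorption for a lower bound: `s ≤ C + C ∑ e T e` with `T` controlled by `t` near the centre
and by `s` elsewhere. -/
theorem absorb_lower (he : Summable e) (he0 : ∀ y, 0 ≤ e y) (C c : ℝ) (hC : 0 ≤ C) (hc : 0 < c)
    (K : Finset Γ → ℝ) : ∃ c' : ℝ, 0 < c' ∧ ∀ (T : Γ → Γ → ℝ) (s t : ℝ), 0 ≤ s → c ≤ t →
      (∀ u w, 0 ≤ T u w) → (∀ u w, T u w ≤ C * s) →
      s ≤ C + C * ∑' y, e y * ∑' y', T y y' * e y' →
      (∀ F : Finset Γ, ∀ y ∈ F, ∀ y' ∈ F, T y y' ≤ K F * t) → c' * s ≤ t := by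
  set W := ∑' y, e y with hW
  have hW0 : 0 ≤ W := tsum_nonneg he0
  obtain ⟨F, hF⟩ := exists_tail e he (1 / (4 * (C ^ 2 * W + 1))) (by positivity)
  set ε := ∑' y, offF e F y with hε
  have hε0 : 0 ≤ ε := tsum_nonneg (offF_nonneg e he0 F)
  refine ⟨(2 * (C / c + C * |K F| * W ^ 2) + 1)⁻¹, by positivity, ?_⟩
  intro T s t hs ht h0 hT h1 h2
  have ht0 : 0 < t := hc.trans_le ht
  have h4 : ∑' y, e y * ∑' y', T y y' * e y' ≤ |K F| * t * W ^ 2 + 2 * (C * s) * W * ε := by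
    refine double_sum_le e he he0 F T (|K F| * t) (C * s) (by positivity) h0 ?_ ?_
    · intro y hy y' hy'
      exact (h2 F y hy y' hy').trans (mul_le_mul_of_nonneg_right (le_abs_self _) ht0.le)
    · intro y y'
      have h5 : 0 ≤ |K F| * t := by positivity
      linarith [hT y y']
  have h6 : C ^ 2 * W * ε ≤ 1 / 4 := by
    have h7 : 0 ≤ C ^ 2 * W := by positivity
    calc C ^ 2 * W * ε ≤ C ^ 2 * W * (1 / (4 * (C ^ 2 * W + 1))) :=
          mul_le_mul_of_nonneg_left hF h7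
      _ ≤ 1 / 4 := by
          rw [mul_one_div, div_le_div_iff₀ (by positivity) (by norm_num)]
          linarith
  have h7 : s ≤ 2 * (C + C * |K F| * W ^ 2 * t) := by
    have h8 := mul_le_mul_of_nonneg_left h4 hC
    have h9 : C * (2 * (C * s) * W * ε) ≤ s / 2 := by nlinarith
    nlinarith
  have h8 : C ≤ C / c * t := by
    rw [div_mul_eq_mul_div, le_div_iff₀ hc]
    exact mul_le_mul_of_nonneg_left ht hC
  rw [inv_mul_le_iff₀ (by positivity)]
  nlinarith

/-- The inequality of Cauchy and Schwarz with the weight `e`. -/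
theorem sq_tsum_le (he : Summable e) (he0 : ∀ y, 0 ≤ e y) (x : Γ → ℝ)
    (hx2 : Summable fun y => e y * x y ^ 2) :
    (Summable fun y => e y * x y) ∧
      (∑' y, e y * x y) ^ 2 ≤ (∑' y, e y) * ∑' y, e y * x y ^ 2 := by
  have h1 : Summable fun y => e y * x y := by
    refine Summable.of_norm_bounded (g := fun y => e y + e y * x y ^ 2) (he.add hx2) fun y => ?_
    rw [Real.norm_eq_abs, abs_mul, abs_of_nonneg (he0 y)]
    have h2 : |x y| ≤ 1 + x y ^ 2 := by
      rw [← sq_abs]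
      nlinarith [abs_nonneg (x y), sq_nonneg (|x y| - 1)]
    have := mul_le_mul_of_nonneg_left h2 (he0 y)
    linarith
  refine ⟨h1, ?_⟩
  set W := ∑' y, e y with hW
  set A := ∑' y, e y * x y with hA
  set Q := ∑' y, e y * x y ^ 2 with hQ
  have hW0 : 0 ≤ W := tsum_nonneg he0
  have h2 : ∀ t : ℝ, 0 ≤ Q - 2 * t * A + t ^ 2 * W := by
    intro t
    have h3 : ∑' y, (e y * x y ^ 2 - (2 * t) * (e y * x y) + t ^ 2 * e y) =
        Q - 2 * t * A + t ^ 2 * W := by
      rw [(hx2.sub (h1.mul_left _)).tsum_add (he.mul_left _), hx2.tsum_sub (h1.mul_left _),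
        tsum_mul_left, tsum_mul_left]
    rw [← h3]
    refine tsum_nonneg fun y => ?_
    have : e y * x y ^ 2 - (2 * t) * (e y * x y) + t ^ 2 * e y = e y * (x y - t) ^ 2 := by ring
    rw [this]
    exact mul_nonneg (he0 y) (sq_nonneg _)
  rcases hW0.eq_or_lt with h0 | h0
  · have h3 := h2 ((Q + 1) / (2 * A))
    rw [← h0] at h3 ⊢
    by_contra hne
    have hA0 : A ≠ 0 := by
      rintro h4
      rw [h4] at hne
      simp at hne
    have h5 : 2 * ((Q + 1) / (2 * A)) * A = Q + 1 := by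
      field_simp
    rw [h5] at h3
    linarith
  · have h3 := h2 (A / W)
    have h4 : Q - 2 * (A / W) * A + (A / W) ^ 2 * W = Q - A ^ 2 / W := by
      field_simp
      ring
    rw [h4, sub_nonneg, div_le_iff₀ h0] at h3
    linarith

/-- Convolution with a summable weight does not increase the `ℓ²` norm (up to the total weight). -/
theorem l2_conv (he : Summable e) (he0 : ∀ y, 0 ≤ e y) (S : Γ → Γ → ℝ) (Ψ : ℝ)
    (hS : ∀ y, Summable fun w => S y w ^ 2) (hΨ : ∀ y, ∑' w, S y w ^ 2 ≤ Ψ) :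
    (Summable fun w => (∑' y, e y * S y w) ^ 2) ∧
      ∑' w, (∑' y, e y * S y w) ^ 2 ≤ (∑' y, e y) ^ 2 * Ψ := by
  set W := ∑' y, e y with hW
  have hW0 : 0 ≤ W := tsum_nonneg he0
  have hb : ∀ y w, S y w ^ 2 ≤ Ψ := fun y w =>
    ((hS y).le_tsum w fun v _ => sq_nonneg _).trans (hΨ y)
  have hs : ∀ w, Summable fun y => e y * S y w ^ 2 := fun w =>
    Summable.of_nonneg_of_le (fun y => mul_nonneg (he0 y) (sq_nonneg _))
      (fun y => mul_le_mul_of_nonneg_left (hb y w) (he0 y)) (he.mul_right Ψ)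
  have key : ∀ F : Finset Γ, ∑ w ∈ F, (∑' y, e y * S y w) ^ 2 ≤ W ^ 2 * Ψ := by
    intro F
    calc ∑ w ∈ F, (∑' y, e y * S y w) ^ 2 ≤ ∑ w ∈ F, W * ∑' y, e y * S y w ^ 2 :=
          Finset.sum_le_sum fun w _ => (sq_tsum_le e he he0 (fun y => S y w) (hs w)).2
      _ = W * ∑' y, ∑ w ∈ F, e y * S y w ^ 2 := by
          rw [← Finset.mul_sum, Summable.tsum_finsetSum fun w _ => hs w]
      _ ≤ W * ∑' y, e y * Ψ := by
          refine mul_le_mul_of_nonneg_left ?_ hW0
          refine Summable.tsum_le_tsum (fun y => ?_) (summable_sum fun w _ => hs w)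
            (he.mul_right Ψ)
          rw [← Finset.mul_sum]
          exact mul_le_mul_of_nonneg_left
            (((hS y).sum_le_tsum F fun w _ => sq_nonneg _).trans (hΨ y)) (he0 y)
      _ = W ^ 2 * Ψ := by
          rw [tsum_mul_right]
          ring
  have h0 : 0 ≤ fun w => (∑' y, e y * S y w) ^ 2 := fun w => sq_nonneg _
  exact ⟨summable_of_sum_le h0 key, Real.tsum_le_of_sum_le h0 key⟩

/-- The inequality of Cauchy and Schwarz. -/
theorem tsum_mul_sq_le (f g : Γ → ℝ) (hf : Summable fun y => f y ^ 2)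
    (hg : Summable fun y => g y ^ 2) :
    (Summable fun y => f y * g y) ∧
      (∑' y, f y * g y) ^ 2 ≤ (∑' y, f y ^ 2) * ∑' y, g y ^ 2 := by
  have h1 : Summable fun y => f y * g y := by
    refine Summable.of_norm_bounded (g := fun y => f y ^ 2 + g y ^ 2) (hf.add hg) fun y => ?_
    rw [Real.norm_eq_abs, abs_mul, ← sq_abs (f y), ← sq_abs (g y)]
    nlinarith [sq_nonneg (|f y| - |g y|), sq_nonneg (|f y| + |g y|), abs_nonneg (f y),
      abs_nonneg (g y)]
  refine ⟨h1, ?_⟩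
  set A := ∑' y, f y * g y with hA
  set P := ∑' y, f y ^ 2 with hP
  set Q := ∑' y, g y ^ 2 with hQ
  have hP0 : 0 ≤ P := tsum_nonneg fun y => sq_nonneg _
  have h2 : ∀ t : ℝ, 0 ≤ Q - 2 * t * A + t ^ 2 * P := by
    intro t
    have h3 : ∑' y, (g y ^ 2 - (2 * t) * (f y * g y) + t ^ 2 * f y ^ 2) =
        Q - 2 * t * A + t ^ 2 * P := by
      rw [(hg.sub (h1.mul_left _)).tsum_add (hf.mul_left _), hg.tsum_sub (h1.mul_left _),
        tsum_mul_left, tsum_mul_left]
    rw [← h3]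
    refine tsum_nonneg fun y => ?_
    have : g y ^ 2 - (2 * t) * (f y * g y) + t ^ 2 * f y ^ 2 = (g y - t * f y) ^ 2 := by ring
    rw [this]
    exact sq_nonneg _
  rcases hP0.eq_or_lt with h0 | h0
  · have h3 := h2 ((Q + 1) / (2 * A))
    rw [← h0] at h3 ⊢
    by_contra hne
    have hA0 : A ≠ 0 := by
      rintro h4
      rw [h4] at hne
      simp at hne
    have h5 : 2 * ((Q + 1) / (2 * A)) * A = Q + 1 := by
      field_simp
    rw [h5] at h3
    linarith
  · have h3 := h2 (A / P)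
    have h4 : Q - 2 * (A / P) * A + (A / P) ^ 2 * P = Q - A ^ 2 / P := by
      field_simp
      ring
    rw [h4, sub_nonneg, div_le_iff₀ h0] at h3
    linarith

/-- The `ℓ²` norm of a function bounded by a weight, a kernel and the smeared kernel. -/
theorem l2_of_le (he : Summable e) (he0 : ∀ y, 0 ≤ e y) (S : Γ → Γ → ℝ) (Ψ : ℝ)
    (hS0 : ∀ y w, 0 ≤ S y w) (hS : ∀ y, Summable fun w => S y w ^ 2)
    (hΨ : ∀ y, ∑' w, S y w ^ 2 ≤ Ψ) (f : Γ → ℝ) (o : Γ) (A : ℝ) (hA : 0 ≤ A)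
    (hf0 : ∀ w, 0 ≤ f w) (hf : ∀ w, f w ≤ A * (e w + S o w + ∑' y, e y * S y w)) :
    (Summable fun w => f w ^ 2) ∧
      ∑' w, f w ^ 2 ≤ 3 * A ^ 2 * (((∑' y, e y) ^ 2 + 1) * (1 + Ψ)) := by
  set W := ∑' y, e y with hW
  have hW0 : 0 ≤ W := tsum_nonneg he0
  obtain ⟨h1, h2⟩ := l2_conv e he he0 S Ψ hS hΨ
  have hsq : ∀ F : Finset Γ, ∑ y ∈ F, e y ^ 2 ≤ W ^ 2 := by
    intro F
    calc ∑ y ∈ F, e y ^ 2 ≤ ∑ y ∈ F, W * e y := by
          refine Finset.sum_le_sum fun y _ => ?_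
          rw [sq]
          exact mul_le_mul_of_nonneg_right (he.le_tsum y fun v _ => he0 v) (he0 y)
      _ = W * ∑ y ∈ F, e y := by rw [Finset.mul_sum]
      _ ≤ W * W := mul_le_mul_of_nonneg_left (he.sum_le_tsum F fun v _ => he0 v) hW0
      _ = W ^ 2 := by ring
  have h3 : Summable fun y => e y ^ 2 := summable_of_sum_le (fun y => sq_nonneg _) hsq
  have h4 : ∑' y, e y ^ 2 ≤ W ^ 2 := Real.tsum_le_of_sum_le (fun y => sq_nonneg _) hsq
  have h5 : ∀ w, f w ^ 2 ≤ 3 * A ^ 2 * (e w ^ 2 + S o w ^ 2 + (∑' y, e y * S y w) ^ 2) := by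
    intro w
    have h6 : f w ^ 2 ≤ (A * (e w + S o w + ∑' y, e y * S y w)) ^ 2 :=
      pow_le_pow_left₀ (hf0 w) (hf w) 2
    have h7 : (e w + S o w + ∑' y, e y * S y w) ^ 2 ≤
        3 * (e w ^ 2 + S o w ^ 2 + (∑' y, e y * S y w) ^ 2) := by
      nlinarith [sq_nonneg (e w - S o w), sq_nonneg (e w - ∑' y, e y * S y w),
        sq_nonneg (S o w - ∑' y, e y * S y w)]
    have h8 := mul_le_mul_of_nonneg_left h7 (sq_nonneg A)
    rw [mul_pow] at h6
    linarith
  have h6 : Summable fun w =>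
      3 * A ^ 2 * (e w ^ 2 + S o w ^ 2 + (∑' y, e y * S y w) ^ 2) :=
    ((h3.add (hS o)).add h1).mul_left _
  have h7 : Summable fun w => f w ^ 2 :=
    Summable.of_nonneg_of_le (fun w => sq_nonneg _) h5 h6
  refine ⟨h7, (h7.tsum_le_tsum h5 h6).trans ?_⟩
  rw [tsum_mul_left, (h3.add (hS o)).tsum_add h1, h3.tsum_add (hS o)]
  have h8 : 0 ≤ Ψ := (tsum_nonneg fun w => sq_nonneg _).trans (hΨ o)
  refine mul_le_mul_of_nonneg_left ?_ (by positivity)
  nlinarith [hΨ o]

/-- The `ℓ²` trick: a function that differs from `T` by a small smeared kernel has a large `ℓ²`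
norm. -/
theorem l2_trick (he : Summable e) (he0 : ∀ y, 0 ≤ e y) (C c : ℝ) (hC : 0 < C) (hc : 0 < c) :
    ∃ N0 : ℝ, 0 < N0 ∧ ∀ (S : Γ → Γ → ℝ) (T TN : Γ → ℝ) (Ψ N : ℝ), N0 ≤ N → 0 < Ψ →
      (∀ y, Summable fun w => S y w ^ 2) → (∀ y, ∑' w, S y w ^ 2 ≤ C * Ψ) →
      (∀ w, 0 ≤ TN w) → (∀ w, TN w ≤ T w) → (Summable fun w => T w ^ 2) →
      ∑' w, T w ^ 2 ≤ C * Ψ → c * Ψ ≤ ∑' w, T w ^ 2 →
      (∀ w, T w - TN w ≤ C / N * ∑' y, e y * S y w) →
      (Summable fun w => TN w ^ 2) ∧ c ^ 2 / (4 * C) * Ψ ≤ ∑' w, TN w ^ 2 := by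
  set W := ∑' y, e y with hW
  have hW0 : 0 ≤ W := tsum_nonneg he0
  refine ⟨2 * C ^ 2 * (W + 1) / c, by positivity, ?_⟩
  intro S T TN Ψ N hN hΨ hS hSΨ hTN0 hTN hT hTC hTc hd
  have hN0 : 0 < N := lt_of_lt_of_le (by positivity) hN
  obtain ⟨h1, h2⟩ := l2_conv e he he0 S (C * Ψ) hS hSΨ
  have hT0 : ∀ w, 0 ≤ T w := fun w => (hTN0 w).trans (hTN w)
  have h3 : Summable fun w => TN w ^ 2 :=
    Summable.of_nonneg_of_le (fun w => sq_nonneg _)
      (fun w => pow_le_pow_left₀ (hTN0 w) (hTN w) 2) hT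
  refine ⟨h3, ?_⟩
  obtain ⟨h4, h5⟩ := tsum_mul_sq_le (fun w => ∑' y, e y * S y w) T h1 hT
  obtain ⟨h6, h7⟩ := tsum_mul_sq_le TN T h3 hT
  set I := ∑' w, (∑' y, e y * S y w) * T w with hI
  set P := ∑' w, TN w * T w with hP
  set Q := ∑' w, TN w ^ 2 with hQ
  set R := ∑' w, T w ^ 2 with hR
  have h8 : I ≤ (W + 1) * (C * Ψ) := by
    have h9 : I ^ 2 ≤ ((W + 1) * (C * Ψ)) ^ 2 := by
      calc I ^ 2 ≤ (∑' w, (∑' y, e y * S y w) ^ 2) * R := h5
        _ ≤ (W ^ 2 * (C * Ψ)) * (C * Ψ) := by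
            refine mul_le_mul h2 hTC (tsum_nonneg fun w => sq_nonneg _) (by positivity)
        _ ≤ ((W + 1) * (C * Ψ)) ^ 2 := by
            have : W ^ 2 ≤ (W + 1) ^ 2 := by nlinarith
            calc W ^ 2 * (C * Ψ) * (C * Ψ) = W ^ 2 * (C * Ψ) ^ 2 := by ring
              _ ≤ (W + 1) ^ 2 * (C * Ψ) ^ 2 := mul_le_mul_of_nonneg_right this (sq_nonneg _)
              _ = _ := by ring
    exact le_of_sq_le_sq h9 (by positivity)
  have h9 : R ≤ P + C / N * I := by
    rw [hR, hP, hI, ← tsum_mul_left, ← h6.tsum_add (h4.mul_left _)]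
    refine hT.tsum_le_tsum (fun w => ?_) (h6.add (h4.mul_left _))
    have := mul_le_mul_of_nonneg_right (hd w) (hT0 w)
    calc T w ^ 2 = TN w * T w + (T w - TN w) * T w := by ring
      _ ≤ TN w * T w + C / N * (∑' y, e y * S y w) * T w := by linarith
      _ = _ := by ring
  have h10 : C / N * I ≤ c / 2 * Ψ := by
    calc C / N * I ≤ C / N * ((W + 1) * (C * Ψ)) := mul_le_mul_of_nonneg_left h8 (by positivity)
      _ = C ^ 2 * (W + 1) * Ψ / N := by ring
      _ ≤ c / 2 * Ψ := by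
          rw [div_le_iff₀ hN0]
          have h11 : 2 * C ^ 2 * (W + 1) ≤ N * c := (div_le_iff₀ hc).1 hN
          nlinarith
  have h11 : c / 2 * Ψ ≤ P := by linarith
  have h12 : (c / 2 * Ψ) ^ 2 ≤ Q * (C * Ψ) := by
    calc (c / 2 * Ψ) ^ 2 ≤ P ^ 2 := pow_le_pow_left₀ (by positivity) h11 2
      _ ≤ Q * R := h7
      _ ≤ Q * (C * Ψ) := mul_le_mul_of_nonneg_left hTC (tsum_nonneg fun w => sq_nonneg _)
  have h13 : c ^ 2 / (4 * C) * Ψ * (C * Ψ) ≤ Q * (C * Ψ) := by
    refine le_trans (le_of_eq ?_) h12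
    field_simp
    ring
  exact le_of_mul_le_mul_right h13 (by positivity)
where
  le_of_sq_le_sq {a b : ℝ} (h : a ^ 2 ≤ b ^ 2) (hb : 0 ≤ b) : a ≤ b :=
    (le_abs_self a).trans ((abs_le_of_sq_le_sq h hb))

end

end Pool.Agent.DL
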