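import Pool.Agent.DLS.Bridge

/-!
# Bad blocks are exponentially unlikely

A block is bad if one of its points is connected to distance `R`. The probability that all blocks
of a family of far apart blocks which do not meet the line are bad is at most the product of the
probabilities for the wired boundary condition.
-/

set_option autoImplicit false
set_option linter.unusedSectionVars false

namespace Pool.Agent.DL

open Finset
open Pool.Agent.DLS (co co_add co_dir mem_box_co sphE crn mem_edg t_eq co_t sph_coord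
  not_box_of_coord crn_mem sph_conn br_mem_te edg_split sph_disj first_exit zero_mem_box br_exit
  br_sum0 latH wsp ex_rch_mono)

section abstract

variable {V ι : Type} [DecidableEq V] [DecidableEq ι] (G : Gr V ι)

/-- Splitting of the configurations. -/
theorem s1_split (Ed T : Finset ι) (f : Finset ι → ℝ) :
    ∑ ω ∈ Ed.powerset, f ω = ∑ η ∈ (Ed \ T).powerset, ∑ a ∈ (Ed ∩ T).powerset, f (η ∪ a) := by
  rw [← sum_product']
  refine sum_nbij' (fun ω => (ω \ T, ω ∩ T)) (fun p => p.1 ∪ p.2) ?_ ?_ ?_ ?_ ?_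
  · intro ω hω
    rw [mem_powerset] at hω
    rw [mem_product, mem_powerset, mem_powerset]
    exact ⟨sdiff_subset_sdiff hω (Subset.refl _), inter_subset_inter_right hω⟩
  · intro p hp
    rw [mem_product, mem_powerset, mem_powerset] at hp
    rw [mem_powerset]
    exact union_subset (hp.1.trans sdiff_subset) (hp.2.trans inter_subset_left)
  · intro ω _
    exact sdiff_union_inter ω T
  · intro p hp
    rw [mem_product, mem_powerset, mem_powerset] at hp
    refine Prod.ext ?_ ?_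
    · ext e
      simp only [mem_sdiff, mem_union]
      constructor
      · rintro ⟨h | h, h'⟩
        · exact h
        · exact absurd (mem_inter.1 (hp.2 h)).2 h'
      · intro h
        exact ⟨Or.inl h, (mem_sdiff.1 (hp.1 h)).2⟩
    · ext e
      simp only [mem_inter, mem_union]
      constructor
      · rintro ⟨h | h, h'⟩
        · exact absurd h' (mem_sdiff.1 (hp.1 h)).2
        · exact h
      · intro h
        exact ⟨Or.inr h, (mem_inter.1 (hp.2 h)).2⟩
  · intro ω _
    rw [sdiff_union_inter]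

/-- A form of the probability. -/
theorem s1_pr_eq (q : ℝ) (u : ι → ℝ) (Ed : Finset ι) (A : Finset ι → Prop) [DecidablePred A] :
    G.pr q u Ed A = (∑ ω ∈ Ed.powerset, if A ω then G.wt q u ω else 0) / G.zz q u Ed := by
  classical
  unfold Gr.pr
  rw [← sum_filter]
  congr 1
  refine sum_congr ?_ fun _ _ => rfl
  ext ω
  simp only [mem_filter]

theorem s1_wt_nonneg {q : ℝ} (hq : 0 < q) {u : ι → ℝ} (hu : ∀ e, 0 ≤ u e) (ω : Finset ι) :
    0 ≤ G.wt q u ω := by
  unfold Gr.wt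
  exact mul_nonneg (prod_nonneg fun e _ => hu e) (pow_nonneg (inv_nonneg.2 hq.le) _)

theorem s1_zz_pos {q : ℝ} (hq : 0 < q) {u : ι → ℝ} (hu : ∀ e, 0 ≤ u e) (Ed : Finset ι) :
    0 < G.zz q u Ed := by
  unfold Gr.zz
  refine sum_pos' (fun ω _ => s1_wt_nonneg G hq hu ω) ⟨∅, empty_mem_powerset _, ?_⟩
  unfold Gr.wt
  rw [prod_empty, one_mul]
  exact pow_pos (inv_pos.2 hq) _

theorem s1_union (q : ℝ) (hq : 0 < q) (u : ι → ℝ) (hu : ∀ e, 0 ≤ u e) (Ed : Finset ι)
    {κ : Type} (X : Finset κ) (P : κ → Finset ι → Prop) (B : Finset ι → Prop) :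
    G.pr q u Ed (fun ω => (∃ x ∈ X, P x ω) ∧ B ω) ≤
      ∑ x ∈ X, G.pr q u Ed fun ω => P x ω ∧ B ω := by
  classical
  have hz := s1_zz_pos G hq hu Ed
  simp only [s1_pr_eq]
  rw [← sum_div, div_le_div_iff_of_pos_right hz, sum_comm]
  refine sum_le_sum fun ω _ => ?_
  have hn : ∀ x ∈ X, (0 : ℝ) ≤ if P x ω ∧ B ω then G.wt q u ω else 0 := by
    intro x _
    split_ifs
    · exact s1_wt_nonneg G hq hu ω
    · exact le_refl _
  by_cases h : (∃ x ∈ X, P x ω) ∧ B ω
  · obtain ⟨⟨x, hx, hP⟩, hB⟩ := h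
    rw [if_pos ⟨⟨x, hx, hP⟩, hB⟩]
    have h1 := single_le_sum hn hx
    rwa [if_pos ⟨hP, hB⟩] at h1
  · rw [if_neg h]
    exact sum_nonneg hn

theorem s1_pr_le_one (q : ℝ) (hq : 0 < q) (u : ι → ℝ) (hu : ∀ e, 0 ≤ u e) (Ed : Finset ι)
    (A : Finset ι → Prop) : G.pr q u Ed A ≤ 1 := by
  classical
  have hz := s1_zz_pos G hq hu Ed
  rw [s1_pr_eq, div_le_one hz]
  unfold Gr.zz
  refine sum_le_sum fun ω _ => ?_
  split_ifs
  · exact le_refl _
  · exact s1_wt_nonneg G hq hu ω

/-- The rank is invariant under automorphisms. -/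
theorem s1_rk_map (φ : V ≃ V) (τ : ι ≃ ι) (hs : ∀ e, G.s (τ e) = φ (G.s e))
    (ht : ∀ e, G.t (τ e) = φ (G.t e)) (ω : Finset ι) :
    G.rk (ω.map τ.toEmbedding) = G.rk ω := by
  have h1 : G.spn (ω.map τ.toEmbedding) =
      (G.spn ω).map (Finsupp.domLCongr φ : (V →₀ ℚ) ≃ₗ[ℚ] (V →₀ ℚ)).toLinearMap := by
    unfold Gr.spn
    rw [Submodule.map_span]
    congr 1
    ext z
    simp only [Set.mem_image, mem_coe, mem_map]
    constructor
    · rintro ⟨e, ⟨f, hf, rfl⟩, rfl⟩
      refine ⟨G.vec f, ⟨f, hf, rfl⟩, ?_⟩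
      change Finsupp.domLCongr φ (G.vec f) = G.vec (τ f)
      unfold Gr.vec
      rw [map_sub, Finsupp.domLCongr_single, Finsupp.domLCongr_single, hs, ht]
    · rintro ⟨_, ⟨f, hf, rfl⟩, rfl⟩
      refine ⟨τ f, ⟨f, hf, rfl⟩, ?_⟩
      change G.vec (τ f) = Finsupp.domLCongr φ (G.vec f)
      unfold Gr.vec
      rw [map_sub, Finsupp.domLCongr_single, Finsupp.domLCongr_single, hs, ht]
  unfold Gr.rk
  rw [h1]
  exact LinearEquiv.finrank_map_eq _ _

theorem s1_wt_map (φ : V ≃ V) (τ : ι ≃ ι) (hs : ∀ e, G.s (τ e) = φ (G.s e))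
    (ht : ∀ e, G.t (τ e) = φ (G.t e)) (q : ℝ) (u : ι → ℝ) (ω : Finset ι) :
    G.wt q u (ω.map τ.toEmbedding) = G.wt q (u ∘ τ) ω := by
  unfold Gr.wt
  rw [s1_rk_map G φ τ hs ht, prod_map]
  rfl

theorem s1_sum_map (τ : ι ≃ ι) (Ed : Finset ι) (f : Finset ι → ℝ) :
    ∑ ω ∈ (Ed.map τ.toEmbedding).powerset, f ω =
      ∑ ω ∈ Ed.powerset, f (ω.map τ.toEmbedding) := by
  symm
  refine sum_nbij' (fun ω => ω.map τ.toEmbedding) (fun ω => ω.map τ.symm.toEmbedding)
    ?_ ?_ ?_ ?_ ?_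
  · intro ω hω
    rw [mem_powerset] at hω ⊢
    exact map_subset_map.2 hω
  · intro ω hω
    rw [mem_powerset] at hω ⊢
    intro e he
    rw [mem_map] at he
    obtain ⟨f, hf, rfl⟩ := he
    obtain ⟨g, hg, hgf⟩ := mem_map.1 (hω hf)
    rw [← hgf]
    simpa using hg
  · intro ω _
    rw [map_map]
    ext e
    simp
  · intro ω _
    rw [map_map]
    ext e
    simp
  · intro ω _
    rfl

/-- The probabilities are invariant under automorphisms. -/
theorem s1_pr_map (φ : V ≃ V) (τ : ι ≃ ι) (hs : ∀ e, G.s (τ e) = φ (G.s e))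
    (ht : ∀ e, G.t (τ e) = φ (G.t e)) (q : ℝ) (u : ι → ℝ) (Ed : Finset ι)
    (A : Finset ι → Prop) :
    G.pr q u (Ed.map τ.toEmbedding) A =
      G.pr q (u ∘ τ) Ed fun ω => A (ω.map τ.toEmbedding) := by
  classical
  rw [s1_pr_eq, s1_pr_eq]
  unfold Gr.zz
  rw [s1_sum_map, s1_sum_map]
  simp only [s1_wt_map G φ τ hs ht]

theorem s1_rch_map (φ : V ≃ V) (τ : ι ≃ ι) (hs : ∀ e, G.s (τ e) = φ (G.s e))
    (ht : ∀ e, G.t (τ e) = φ (G.t e)) {ω : Finset ι} {x y : V} (h : G.Rch ω x y) :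
    G.Rch (ω.map τ.toEmbedding) (φ x) (φ y) := by
  induction h with
  | refl => exact Relation.ReflTransGen.refl
  | tail _ h2 ih =>
    obtain ⟨e, he, hh⟩ := h2
    refine ih.tail ⟨τ e, mem_map_of_mem τ.toEmbedding he, ?_⟩
    rw [hs, ht]
    rcases hh with ⟨h3, h4⟩ | ⟨h3, h4⟩
    · exact Or.inl ⟨by rw [h3], by rw [h4]⟩
    · exact Or.inr ⟨by rw [h3], by rw [h4]⟩

end abstract

section origin

variable {D : ℕ}

/-- The edges which touch the box `[-(R-1), R-1]^(D+1)`. -/
noncomputable def tin (D R : ℕ) : Finset (Edge D) := (latH D).te (SB.box D (R - 1))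

theorem mem_tin {R : ℕ} (e : Edge D) : e ∈ tin D R ↔
    e.1 ∈ SB.box D (R - 1) ∨ (lat D).t e ∈ SB.box D (R - 1) := br_mem_te e

/-- The rank inequality for the comparison with the wired boundary condition. -/
theorem s1_rk (hD : 1 ≤ D) {R : ℕ} (hR : 1 ≤ R) {η a b : Finset (Edge D)}
    (hη : Disjoint η (tin D R)) (ha : a ⊆ tin D R) (hb : b ⊆ tin D R) :
    (lat D).rk (η ∪ (a ∩ b)) + (lat D).rk (sphE D R ∪ (a ∪ b)) ≤
      (lat D).rk (η ∪ a) + (lat D).rk (sphE D R ∪ b) := by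
  set K : Set (Site D) := {x | x ∈ SB.box D R ∧ x ∉ SB.box D (R - 1)} with hKdef
  set A : Set (Site D) := {x | x ∈ SB.box D (R - 1)} with hAdef
  have hK : ∀ x ∈ K, ∀ y ∈ K, (lat D).Rch (sphE D R) x y := fun x hx y hy =>
    sph_conn hD hR hx.1 hx.2 hy.1 hy.2
  have hF : ∀ e ∈ sphE D R, ((lat D).s e ∈ K ∧ (lat D).t e ∈ K) ∨
      ((lat D).s e ∉ A ∧ (lat D).t e ∉ A ∧ (lat D).s e ∉ K ∧ (lat D).t e ∉ K) := by
    intro e he
    have h1 := mem_filter.1 he
    have h2 := (mem_edg e).1 h1.1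
    exact Or.inl ⟨⟨h2.1, h1.2.1⟩, ⟨h2.2, h1.2.2⟩⟩
  have hT : ∀ e ∈ tin D R, ((lat D).s e ∈ A ∨ (lat D).s e ∈ K) ∧
      ((lat D).t e ∈ A ∨ (lat D).t e ∈ K) := by
    intro e he
    have h1 := (mem_edg e).1 ((edg_split hR e).2 (Or.inr he))
    constructor
    · by_cases h : (lat D).s e ∈ A
      · exact Or.inl h
      · exact Or.inr ⟨h1.1, h⟩
    · by_cases h : (lat D).t e ∈ A
      · exact Or.inl h
      · exact Or.inr ⟨h1.2, h⟩
  have hηA : ∀ e ∈ η, (lat D).s e ∉ A ∧ (lat D).t e ∉ A := by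
    intro e he
    have h1 : e ∉ tin D R := disjoint_left.1 hη he
    rw [mem_tin] at h1
    push Not at h1
    exact h1
  have hAK : Disjoint A K := by
    rw [Set.disjoint_left]
    exact fun x hx hx' => hx'.2 hx
  have hg : ∀ c : Finset (Edge D), c ⊆ tin D R →
      (lat D).rk (sphE D R ∪ c ∪ η) + (lat D).rk (sphE D R) =
        (lat D).rk (sphE D R ∪ c) + (lat D).rk (sphE D R ∪ η) := fun c hc =>
    (lat D).rk_glue (sphE D R) c η K A hK hF (fun e he => hT e (hc he)) hηA hAK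
  have h1 := hg (a ∪ b) (union_subset ha hb)
  have h2 := hg b hb
  have h3 := (lat D).rk_submod (η ∪ a) (sphE D R ∪ b ∪ η)
  have h4 : η ∪ a ∪ (sphE D R ∪ b ∪ η) = sphE D R ∪ (a ∪ b) ∪ η := by
    ext e
    simp only [mem_union]
    tauto
  have h5 : η ∪ (a ∩ b) ⊆ (η ∪ a) ∩ (sphE D R ∪ b ∪ η) := by
    intro e
    simp only [mem_union, mem_inter]
    tauto
  have h6 := (lat D).rk_mono h5
  rw [h4] at h3
  omega

/-- The inequality of weights. -/
theorem s1_wt (hD : 1 ≤ D) {R : ℕ} (hR : 1 ≤ R) {q : ℝ} (hq : 1 ≤ q) {v : ℝ} (hv : 0 ≤ v)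
    {u : Edge D → ℝ} (hu : ∀ e, 0 ≤ u e) (huv : ∀ e ∈ tin D R, u e = v)
    {η a b : Finset (Edge D)} (hη : Disjoint η (tin D R)) (ha : a ⊆ tin D R)
    (hb : b ⊆ tin D R) :
    (lat D).wt q u (η ∪ a) * (lat D).wt q (fun _ => v) (sphE D R ∪ b) ≤
      (lat D).wt q u (η ∪ (a ∩ b)) * (lat D).wt q (fun _ => v) (sphE D R ∪ (a ∪ b)) := by
  have hdη : ∀ c : Finset (Edge D), c ⊆ tin D R → ∏ e ∈ η ∪ c, u e = (∏ e ∈ η, u e) * v ^ c.card := by
    intro c hc
    rw [prod_union (disjoint_of_subset_right hc hη)]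
    congr 1
    rw [prod_congr rfl fun e he => huv e (hc he), prod_const]
  have hdF : ∀ c : Finset (Edge D), c ⊆ tin D R →
      ∏ e ∈ sphE D R ∪ c, (fun _ : Edge D => v) e = v ^ (sphE D R).card * v ^ c.card := by
    intro c hc
    rw [prod_const, card_union_of_disjoint (disjoint_of_subset_right hc sph_disj), pow_add]
  have hab : a ∩ b ⊆ tin D R := inter_subset_left.trans ha
  have hab' : a ∪ b ⊆ tin D R := union_subset ha hb
  unfold Gr.wt
  rw [hdη a ha, hdF b hb, hdη _ hab, hdF _ hab']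
  have h1 : v ^ a.card * v ^ b.card = v ^ (a ∩ b).card * v ^ (a ∪ b).card := by
    rw [← pow_add, ← pow_add, ← card_union_add_card_inter a b, add_comm]
  have h2 : (q⁻¹) ^ (lat D).rk (η ∪ a) * (q⁻¹) ^ (lat D).rk (sphE D R ∪ b) ≤
      (q⁻¹) ^ (lat D).rk (η ∪ (a ∩ b)) * (q⁻¹) ^ (lat D).rk (sphE D R ∪ (a ∪ b)) := by
    rw [← pow_add, ← pow_add]
    exact pow_le_pow_of_le_one (inv_nonneg.2 (by linarith)) (inv_le_one_of_one_le₀ hq)
      (s1_rk hD hR hη ha hb)
  have h3 : 0 ≤ (∏ e ∈ η, u e) * v ^ (sphE D R).card :=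
    mul_nonneg (prod_nonneg fun e _ => hu e) (pow_nonneg hv _)
  calc (∏ e ∈ η, u e) * v ^ a.card * (q⁻¹) ^ (lat D).rk (η ∪ a) *
        (v ^ (sphE D R).card * v ^ b.card * (q⁻¹) ^ (lat D).rk (sphE D R ∪ b))
      = ((∏ e ∈ η, u e) * v ^ (sphE D R).card) * (v ^ a.card * v ^ b.card) *
          ((q⁻¹) ^ (lat D).rk (η ∪ a) * (q⁻¹) ^ (lat D).rk (sphE D R ∪ b)) := by ring
    _ ≤ ((∏ e ∈ η, u e) * v ^ (sphE D R).card) * (v ^ a.card * v ^ b.card) *
          ((q⁻¹) ^ (lat D).rk (η ∪ (a ∩ b)) * (q⁻¹) ^ (lat D).rk (sphE D R ∪ (a ∪ b))) :=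
        mul_le_mul_of_nonneg_left h2 (mul_nonneg h3 (by positivity))
    _ = _ := by
        rw [h1]
        ring

/-- The event that `x` is connected to a point at distance at least `R`. -/
def Far (D R : ℕ) (x : Site D) (ω : Finset (Edge D)) : Prop :=
  ∃ y, y - x ∉ SB.box D (R - 1) ∧ (lat D).Rch ω x y

theorem Far.mono {R : ℕ} {x : Site D} {a b : Finset (Edge D)} (hab : a ⊆ b) (h : Far D R x a) :
    Far D R x b := by
  obtain ⟨y, hy, hr⟩ := h
  exact ⟨y, hy, ex_rch_mono hab hr⟩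

theorem far_zero {R : ℕ} (ω : Finset (Edge D)) : Far D R 0 ω ↔
    ∃ y, y ∉ SB.box D (R - 1) ∧ (lat D).Rch ω 0 y := by
  unfold Far
  simp only [sub_zero]

theorem far_loc {R : ℕ} {ω a : Finset (Edge D)} (h : ω ∩ tin D R ⊆ a) (hF : Far D R 0 ω) :
    Far D R 0 a := by
  rw [far_zero] at hF ⊢
  obtain ⟨y, hy, hr⟩ := hF
  rcases first_exit (zero_mem_box (R - 1)) hr with ⟨-, h2⟩ | ⟨y', hy', h2⟩
  · exact absurd h2 hy
  · exact ⟨y', hy', ex_rch_mono h h2⟩

open Classical in
theorem s1_wsp {R : ℕ} (hR : 1 ≤ R) {q : ℝ} (hq : 0 < q) {v : ℝ} (hv : 0 < v) :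
    wsp D q v R = (∑ b ∈ (tin D R).powerset,
        if Far D R 0 b then (lat D).wt q (fun _ => v) (sphE D R ∪ b) else 0) /
      ∑ b ∈ (tin D R).powerset, (lat D).wt q (fun _ => v) (sphE D R ∪ b) := by
  have hz := s1_zz_pos (lat D) hq (u := fun _ => v) (fun _ => hv.le) (edg (SB.box D R))
  have h1 := br_sum0 (D := D) hR ((lat D).wt q fun _ => v)
    (fun ω => ∃ y, y ∉ SB.box D (R - 1) ∧ (lat D).Rch ω 0 y)
    (fun ω => ∃ y, y ∉ SB.box D (R - 1) ∧ (lat D).Rch ω 0 y) fun ω hω => br_exit hω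
  have h2 := br_sum0 (D := D) hR ((lat D).wt q fun _ => v) (fun _ => True) (fun _ => True)
    fun ω hω => Iff.rfl
  unfold wsp Gr.pr
  rw [div_div_div_cancel_right₀ hz.ne']
  have h4 : ∀ a b c d : ℝ, a = c → b = d → a / b = c / d := fun a b c d hac hbd => by rw [hac, hbd]
  refine h4 _ _ _ _ (Eq.trans ?_ (h1.trans ?_)) (Eq.trans ?_ (h2.trans ?_))
  · refine sum_congr ?_ fun _ _ => rfl
    ext ω
    simp only [mem_filter]
  · rw [sum_filter]
    refine sum_congr rfl fun ω _ => ?_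
    simp only [far_zero]
  · refine sum_congr ?_ fun _ _ => rfl
    ext ω
    simp only [mem_filter, and_true]
  · refine sum_congr ?_ fun _ _ => rfl
    ext ω
    simp only [mem_filter, and_true]
    rfl

open Classical in
theorem s1_fiber (hD : 1 ≤ D) {R : ℕ} (hR : 1 ≤ R) {q : ℝ} (hq : 1 ≤ q) {v : ℝ} (hv : 0 < v)
    {u : Edge D → ℝ} (hu : ∀ e, 0 ≤ u e) (huv : ∀ e ∈ tin D R, u e = v) (Ed : Finset (Edge D))
    {η : Finset (Edge D)} (hη : Disjoint η (tin D R)) :
    (∑ a ∈ (Ed ∩ tin D R).powerset, if Far D R 0 a then (lat D).wt q u (η ∪ a) else 0) ≤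
      wsp D q v R * ∑ a ∈ (Ed ∩ tin D R).powerset, (lat D).wt q u (η ∪ a) := by
  have hq0 : 0 < q := by linarith
  have hpow : ∀ f : Finset (Edge D) → ℝ, ∑ a ∈ (Ed ∩ tin D R).powerset, f a =
      ∑ a ∈ (tin D R).powerset, if a ⊆ Ed then f a else 0 := by
    intro f
    rw [← sum_filter]
    refine sum_congr ?_ fun _ _ => rfl
    ext a
    simp only [mem_filter, mem_powerset, subset_inter_iff]
    tauto
  have hW := s1_wt_nonneg (lat D) hq0 hu
  have hWv := s1_wt_nonneg (lat D) hq0 (u := fun _ => v) fun _ => hv.le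
  have hS2 : 0 < ∑ b ∈ (tin D R).powerset, (lat D).wt q (fun _ => v) (sphE D R ∪ b) := by
    refine sum_pos (fun b _ => ?_) ⟨∅, empty_mem_powerset _⟩
    unfold Gr.wt
    rw [prod_const]
    positivity
  rw [s1_wsp hR hq0 hv, hpow, hpow, div_mul_eq_mul_div, le_div_iff₀ hS2]
  have h4 := DLS.four (tin D R)
    (f₁ := fun a => if a ⊆ Ed then (if Far D R 0 a then (lat D).wt q u (η ∪ a) else 0) else 0)
    (f₂ := fun b => (lat D).wt q (fun _ => v) (sphE D R ∪ b))
    (f₃ := fun a => if a ⊆ Ed then (lat D).wt q u (η ∪ a) else 0)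
    (f₄ := fun b => if Far D R 0 b then (lat D).wt q (fun _ => v) (sphE D R ∪ b) else 0)
    (fun a => by
      split_ifs
      · exact hW _
      · exact le_refl _
      · exact le_refl _)
    (fun b => hWv _)
    (fun a => by
      split_ifs
      · exact hW _
      · exact le_refl _)
    (fun b => by
      split_ifs
      · exact hWv _
      · exact le_refl _)
    (fun a ha b hb => by
      have hn3 : 0 ≤ if a ∩ b ⊆ Ed then (lat D).wt q u (η ∪ (a ∩ b)) else 0 := by
        split_ifs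
        · exact hW _
        · exact le_refl _
      have hn4 : 0 ≤ if Far D R 0 (a ∪ b) then
          (lat D).wt q (fun _ => v) (sphE D R ∪ (a ∪ b)) else 0 := by
        split_ifs
        · exact hWv _
        · exact le_refl _
      by_cases h1 : a ⊆ Ed
      · by_cases h2 : Far D R 0 a
        · rw [if_pos h1, if_pos h2, if_pos (inter_subset_left.trans h1),
            if_pos (h2.mono subset_union_left)]
          exact s1_wt hD hR hq hv.le hu huv hη ha hb
        · rw [if_pos h1, if_neg h2, zero_mul]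
          exact mul_nonneg hn3 hn4
      · rw [if_neg h1, zero_mul]
        exact mul_nonneg hn3 hn4)
  linarith [mul_comm (∑ a ∈ (tin D R).powerset, if a ⊆ Ed then (lat D).wt q u (η ∪ a) else 0)
    (∑ b ∈ (tin D R).powerset,
      if Far D R 0 b then (lat D).wt q (fun _ => v) (sphE D R ∪ b) else 0)]

/-- **One connection**, at the origin: given any event which does not depend on the edges touching
the box, the probability of `Far` is at most the one for the wired boundary condition. -/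
theorem s1_origin (hD : 1 ≤ D) {R : ℕ} (hR : 1 ≤ R) {q : ℝ} (hq : 1 ≤ q) {v : ℝ} (hv : 0 < v)
    {u : Edge D → ℝ} (hu : ∀ e, 0 ≤ u e) (huv : ∀ e ∈ tin D R, u e = v) (Ed : Finset (Edge D))
    (B : Finset (Edge D) → Prop) (hB : ∀ ω, B ω ↔ B (ω \ tin D R)) :
    (lat D).pr q u Ed (fun ω => Far D R 0 ω ∧ B ω) ≤ wsp D q v R * (lat D).pr q u Ed B := by
  classical
  have hq0 : 0 < q := by linarith
  have hz := s1_zz_pos (lat D) hq0 hu Ed
  rw [s1_pr_eq, s1_pr_eq, ← mul_div_assoc, div_le_div_iff_of_pos_right hz,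
    s1_split Ed (tin D R), s1_split Ed (tin D R), mul_sum]
  refine sum_le_sum fun η hη => ?_
  rw [mem_powerset] at hη
  have hdis : Disjoint η (tin D R) := disjoint_left.2 fun e he => (mem_sdiff.1 (hη he)).2
  have hsd : ∀ a : Finset (Edge D), a ⊆ Ed ∩ tin D R → (η ∪ a) \ tin D R = η := by
    intro a ha
    ext e
    simp only [mem_sdiff, mem_union]
    constructor
    · rintro ⟨h | h, h'⟩
      · exact h
      · exact absurd (mem_inter.1 (ha h)).2 h'
    · intro h
      exact ⟨Or.inl h, disjoint_left.1 hdis h⟩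
  have hBa : ∀ a : Finset (Edge D), a ⊆ Ed ∩ tin D R → (B (η ∪ a) ↔ B η) := by
    intro a ha
    rw [hB (η ∪ a), hsd a ha]
  have hFa : ∀ a : Finset (Edge D), a ⊆ Ed ∩ tin D R → (Far D R 0 (η ∪ a) ↔ Far D R 0 a) := by
    intro a ha
    refine ⟨fun h => far_loc ?_ h, fun h => h.mono subset_union_right⟩
    intro e he
    rcases mem_union.1 (mem_inter.1 he).1 with h1 | h1
    · exact absurd (mem_inter.1 he).2 (disjoint_left.1 hdis h1)
    · exact h1
  by_cases hBη : B η
  · have h1 := s1_fiber hD hR hq hv hu huv Ed hdis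
    have h2 : (∑ a ∈ (Ed ∩ tin D R).powerset,
        if Far D R 0 (η ∪ a) ∧ B (η ∪ a) then (lat D).wt q u (η ∪ a) else 0) =
        ∑ a ∈ (Ed ∩ tin D R).powerset, if Far D R 0 a then (lat D).wt q u (η ∪ a) else 0 := by
      refine sum_congr rfl fun a ha => ?_
      rw [mem_powerset] at ha
      simp only [hBa a ha, hFa a ha, hBη, and_true]
    have h3 : (∑ a ∈ (Ed ∩ tin D R).powerset,
        if B (η ∪ a) then (lat D).wt q u (η ∪ a) else 0) =
        ∑ a ∈ (Ed ∩ tin D R).powerset, (lat D).wt q u (η ∪ a) := by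
      refine sum_congr rfl fun a ha => ?_
      rw [mem_powerset] at ha
      rw [if_pos ((hBa a ha).2 hBη)]
    rw [h2, h3]
    exact h1
  · have h2 : (∑ a ∈ (Ed ∩ tin D R).powerset,
        if Far D R 0 (η ∪ a) ∧ B (η ∪ a) then (lat D).wt q u (η ∪ a) else 0) = 0 := by
      refine sum_eq_zero fun a ha => ?_
      rw [mem_powerset] at ha
      rw [if_neg]
      rintro ⟨-, h⟩
      exact hBη ((hBa a ha).1 h)
    have h3 : (∑ a ∈ (Ed ∩ tin D R).powerset,
        if B (η ∪ a) then (lat D).wt q u (η ∪ a) else 0) = 0 := by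
      refine sum_eq_zero fun a ha => ?_
      rw [mem_powerset] at ha
      rw [if_neg fun h => hBη ((hBa a ha).1 h)]
    rw [h2, h3, mul_zero]

end origin

section translation

variable {D : ℕ}

/-- The translation of the edges. -/
def shE (x : Site D) : Edge D ≃ Edge D := (Equiv.addRight x).prodCongr (Equiv.refl _)

theorem shE_s (x : Site D) (e : Edge D) :
    (lat D).s (shE x e) = Equiv.addRight x ((lat D).s e) := rfl

theorem shE_t (x : Site D) (e : Edge D) :
    (lat D).t (shE x e) = Equiv.addRight x ((lat D).t e) := by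
  change e.1 + x + SB.dir (e.2, true) = e.1 + SB.dir (e.2, true) + x
  abel

theorem shE_symm (x : Site D) : (shE x).symm = shE (-x) := by
  ext1 e
  change (e.1 + -x, e.2) = (e.1 + -x, e.2)
  rfl

/-- The box with centre `x`. -/
noncomputable def bxc (D R : ℕ) (x : Site D) : Finset (Site D) :=
  (SB.box D (R - 1)).map (Equiv.addRight x).toEmbedding

theorem mem_bxc {R : ℕ} (x y : Site D) : y ∈ bxc D R x ↔ y - x ∈ SB.box D (R - 1) := by
  unfold bxc
  rw [mem_map]
  constructor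
  · rintro ⟨z, hz, rfl⟩
    change z + x - x ∈ _
    rwa [add_sub_cancel_right]
  · intro h
    exact ⟨y - x, h, sub_add_cancel y x⟩

/-- The edges which touch the box with centre `x`. -/
noncomputable def tinx (D R : ℕ) (x : Site D) : Finset (Edge D) := (latH D).te (bxc D R x)

theorem mem_tinx {R : ℕ} (x : Site D) (e : Edge D) : e ∈ tinx D R x ↔
    e.1 - x ∈ SB.box D (R - 1) ∨ (lat D).t e - x ∈ SB.box D (R - 1) := by
  unfold tinx
  rw [br_mem_te, mem_bxc, mem_bxc]

theorem tin_map {R : ℕ} (x : Site D) : (tin D R).map (shE x).toEmbedding = tinx D R x := by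
  ext e
  rw [mem_map_equiv, mem_tin, mem_tinx, shE_symm]
  have h1 : (lat D).t (shE (-x) e) = (lat D).t e - x := by
    rw [shE_t]
    exact (sub_eq_add_neg _ _).symm
  rw [h1]
  have h2 : (shE (-x) e).1 = e.1 - x := (sub_eq_add_neg _ _).symm
  rw [h2]

theorem far_locx {R : ℕ} {x : Site D} {ω a : Finset (Edge D)} (h : ω ∩ tinx D R x ⊆ a)
    (hF : Far D R x ω) : Far D R x a := by
  obtain ⟨y, hy, hr⟩ := hF
  have hx : x ∈ bxc D R x := by
    rw [mem_bxc, sub_self]
    exact zero_mem_box _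
  rcases first_exit hx hr with ⟨-, h2⟩ | ⟨y', hy', h2⟩
  · exact absurd ((mem_bxc x y).1 h2) hy
  · exact ⟨y', fun h3 => hy' ((mem_bxc x y').2 h3), ex_rch_mono h h2⟩

theorem far_map {R : ℕ} (x : Site D) (ω : Finset (Edge D)) :
    Far D R x (ω.map (shE x).toEmbedding) ↔ Far D R 0 ω := by
  constructor
  · rintro ⟨y, hy, hr⟩
    have h1 := s1_rch_map (lat D) (Equiv.addRight (-x)) (shE (-x)) (shE_s (-x)) (shE_t (-x)) hr
    have h2 : (ω.map (shE x).toEmbedding).map (shE (-x)).toEmbedding = ω := by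
      rw [map_map, ← shE_symm]
      ext e
      simp
    rw [h2] at h1
    refine ⟨y - x, by rwa [sub_zero], ?_⟩
    have h3 : Equiv.addRight (-x) x = 0 := add_neg_cancel x
    have h4 : Equiv.addRight (-x) y = y - x := (sub_eq_add_neg _ _).symm
    rwa [h3, h4] at h1
  · rintro ⟨y, hy, hr⟩
    have h1 := s1_rch_map (lat D) (Equiv.addRight x) (shE x) (shE_s x) (shE_t x) hr
    have h3 : Equiv.addRight x 0 = x := zero_add x
    have h4 : Equiv.addRight x y = y + x := rfl
    rw [h3, h4] at h1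
    exact ⟨y + x, by rwa [add_sub_cancel_right, ← sub_zero y], h1⟩

/-- **One connection** with any centre. -/
theorem s1_at (hD : 1 ≤ D) {R : ℕ} (hR : 1 ≤ R) {q : ℝ} (hq : 1 ≤ q) {v : ℝ} (hv : 0 < v)
    {u : Edge D → ℝ} (hu : ∀ e, 0 ≤ u e) (x : Site D) (huv : ∀ e ∈ tinx D R x, u e = v)
    (Ed : Finset (Edge D)) (B : Finset (Edge D) → Prop) (hB : ∀ ω, B ω ↔ B (ω \ tinx D R x)) :
    (lat D).pr q u Ed (fun ω => Far D R x ω ∧ B ω) ≤ wsp D q v R * (lat D).pr q u Ed B := by
  have hEd : (Ed.map (shE (-x)).toEmbedding).map (shE x).toEmbedding = Ed := by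
    rw [map_map]
    have : ((shE (-x)).toEmbedding.trans (shE x).toEmbedding) = Function.Embedding.refl _ := by
      ext1 e
      change shE x (shE (-x) e) = e
      rw [← shE_symm]
      exact (shE x).apply_symm_apply e
    rw [this, map_refl]
  rw [← hEd, s1_pr_map (lat D) (Equiv.addRight x) (shE x) (shE_s x) (shE_t x),
    s1_pr_map (lat D) (Equiv.addRight x) (shE x) (shE_s x) (shE_t x)]
  simp only [far_map]
  refine s1_origin hD hR hq hv (fun e => hu _) (fun e he => huv _ ?_) _ _ fun ω => ?_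
  · rw [← tin_map]
    exact mem_map_of_mem _ he
  · rw [hB, ← tin_map, ← Finset.map_sdiff]

end translation

section blocks

variable {D : ℕ}

/-- The block with number `j`. -/
noncomputable def blk (D R : ℕ) (j : Site D) : Finset (Site D) :=
  Finset.Ico ((R : ℤ) * j.1) (R * j.1 + R) ×ˢ
    Fintype.piFinset fun i => Finset.Ico ((R : ℤ) * j.2 i) (R * j.2 i + R)

theorem mem_blk {R : ℕ} (j x : Site D) :
    x ∈ blk D R j ↔ ∀ k, (R : ℤ) * co j k ≤ co x k ∧ co x k < R * co j k + R := by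
  unfold blk
  rw [mem_product, mem_Ico, Fintype.mem_piFinset]
  simp only [mem_Ico]
  constructor
  · rintro ⟨h1, h2⟩ k
    cases k with
    | none => exact h1
    | some i => exact h2 i
  · intro h
    exact ⟨h none, fun i => h (some i)⟩

theorem card_blk (R : ℕ) (j : Site D) : (blk D R j).card = R ^ (D + 1) := by
  unfold blk
  rw [card_product, Int.card_Ico, Fintype.card_piFinset]
  simp only [Int.card_Ico]
  have h1 : ∀ a : ℤ, ((R : ℤ) * a + R - R * a).toNat = R := by
    intro a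
    rw [add_sub_cancel_left, Int.toNat_natCast]
  simp only [h1, prod_const, card_univ, Fintype.card_fin]
  rw [pow_succ']

/-- The block is bad: one of its points is connected to distance `R`. -/
def Bad (D R : ℕ) (j : Site D) (ω : Finset (Edge D)) : Prop := ∃ x ∈ blk D R j, Far D R x ω

theorem near_edge {R : ℕ} (hR : 1 ≤ R) {x : Site D} {e : Edge D} (he : e ∈ tinx D R x)
    (k : Option (Fin D)) : (∃ c : ℤ, (c = co e.1 k ∨ c = co e.1 k + 1) ∧
      -(R : ℤ) + 1 ≤ c - co x k ∧ c - co x k ≤ R - 1) := by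
  have hsub : ∀ y : Site D, co (y - x) k = co y k - co x k := by
    intro y
    cases k <;> rfl
  rw [mem_tinx] at he
  rcases he with h | h
  · have h1 := (mem_box_co _).1 h k
    rw [hsub] at h1
    exact ⟨co e.1 k, Or.inl rfl, by omega, by omega⟩
  · have h1 := (mem_box_co _).1 h k
    rw [hsub] at h1
    refine ⟨co ((lat D).t e) k, ?_, by omega, by omega⟩
    rw [co_t]
    split_ifs
    · exact Or.inr rfl
    · exact Or.inl (add_zero _)

theorem tinx_disj {R : ℕ} (hR : 1 ≤ R) {i j x y : Site D} (hx : x ∈ blk D R i)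
    (hy : y ∈ blk D R j) (h : ∃ k, 3 ≤ (co i k - co j k).natAbs) :
    Disjoint (tinx D R x) (tinx D R y) := by
  obtain ⟨k, hk⟩ := h
  rw [disjoint_left]
  intro e h1 h2
  obtain ⟨c, hc, hc1, hc2⟩ := near_edge hR h1 k
  obtain ⟨c', hc', hc1', hc2'⟩ := near_edge hR h2 k
  have h3 := (mem_blk i x).1 hx k
  have h4 := (mem_blk j y).1 hy k
  have hR' : (1 : ℤ) ≤ R := by exact_mod_cast hR
  rcases le_total (co i k) (co j k) with h5 | h5
  · have h6 : co i k + 3 ≤ co j k := by omega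
    have h7 : (R : ℤ) * (co i k + 3) ≤ R * co j k := mul_le_mul_of_nonneg_left h6 (by omega)
    have h8 : (R : ℤ) * (co i k + 3) = R * co i k + 3 * R := by ring
    omega
  · have h6 : co j k + 3 ≤ co i k := by omega
    have h7 : (R : ℤ) * (co j k + 3) ≤ R * co i k := mul_le_mul_of_nonneg_left h6 (by omega)
    have h8 : (R : ℤ) * (co j k + 3) = R * co j k + 3 * R := by ring
    omega

theorem not_onL {R : ℕ} (hR : 1 ≤ R) {j x : Site D} (hx : x ∈ blk D R j)
    (h : ∃ i : Fin D, 2 ≤ (j.2 i).natAbs) {e : Edge D} (he : e ∈ tinx D R x) : ¬ OnL e := by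
  rintro ⟨h1, h2⟩
  obtain ⟨i, hi⟩ := h
  have h3 := (mem_blk j x).1 hx (some i)
  have hR' : (1 : ℤ) ≤ R := by exact_mod_cast hR
  have hsub : ∀ y : Site D, co (y - x) (some i) = co y (some i) - co x (some i) := fun _ => rfl
  have h4 : co e.1 (some i) = 0 := congrFun h2 i
  have h5 : co ((lat D).t e) (some i) = 0 := by
    rw [co_t, h4, h1]
    simp
  have h6 : (co x (some i)).natAbs ≤ R - 1 := by
    rw [mem_tinx] at he
    rcases he with h | h
    · have h7 := (mem_box_co _).1 h (some i)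
      rw [hsub, h4] at h7
      omega
    · have h7 := (mem_box_co _).1 h (some i)
      rw [hsub, h5] at h7
      omega
  have hj : co j (some i) = j.2 i := rfl
  rw [hj] at h3
  rcases le_total 0 (j.2 i) with h7 | h7
  · have h8 : 2 ≤ j.2 i := by omega
    have h9 : (R : ℤ) * 2 ≤ R * j.2 i := mul_le_mul_of_nonneg_left h8 (by omega)
    omega
  · have h8 : j.2 i ≤ -2 := by omega
    have h9 : (R : ℤ) * j.2 i ≤ R * -2 := mul_le_mul_of_nonneg_left h8 (by omega)
    omega

theorem bad_loc {R : ℕ} (hR : 1 ≤ R) {i j x : Site D} (hx : x ∈ blk D R j)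
    (h : ∃ k, 3 ≤ (co i k - co j k).natAbs) (ω : Finset (Edge D)) :
    Bad D R i ω ↔ Bad D R i (ω \ tinx D R x) := by
  constructor
  · rintro ⟨y, hy, hF⟩
    refine ⟨y, hy, far_locx ?_ hF⟩
    intro e he
    exact mem_sdiff.2 ⟨(mem_inter.1 he).1,
      disjoint_left.1 (tinx_disj hR hy hx h) (mem_inter.1 he).2⟩
  · rintro ⟨y, hy, hF⟩
    exact ⟨y, hy, hF.mono sdiff_subset⟩

/-- **Bad blocks.** If the blocks with numbers in `S` are far apart and do not meet the
neighbourhood of the line, the probability that they are all bad is at most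
`(R ^ (D + 1) * wsp D q v R) ^ |S|`. -/
theorem sz1 (hD : 1 ≤ D) {R : ℕ} (hR : 1 ≤ R) {q : ℝ} (hq : 1 ≤ q) {v : ℝ} (hv : 0 < v)
    {u : Edge D → ℝ} (hu : ∀ e, 0 ≤ u e) (huv : ∀ e, ¬ OnL e → u e = v) (Ed : Finset (Edge D))
    (S : Finset (Site D)) (hfar : ∀ i ∈ S, ∀ j ∈ S, i ≠ j → ∃ k, 3 ≤ (co i k - co j k).natAbs)
    (hline : ∀ j ∈ S, ∃ i : Fin D, 2 ≤ (j.2 i).natAbs) :
    (lat D).pr q u Ed (fun ω => ∀ j ∈ S, Bad D R j ω) ≤
      ((R : ℝ) ^ (D + 1) * wsp D q v R) ^ S.card := by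
  classical
  have hq0 : 0 < q := by linarith
  induction S using Finset.induction_on with
  | empty =>
    rw [card_empty, pow_zero]
    exact s1_pr_le_one (lat D) q hq0 u hu Ed _
  | insert j S hj ih =>
    have ih' := ih (fun i hi j hj => hfar i (mem_insert_of_mem hi) j (mem_insert_of_mem hj))
      fun i hi => hline i (mem_insert_of_mem hi)
    have h1 : (fun ω => ∀ i ∈ insert j S, Bad D R i ω) =
        fun ω => (∃ x ∈ blk D R j, Far D R x ω) ∧ ∀ i ∈ S, Bad D R i ω := by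
      funext ω
      rw [forall_mem_insert]
      rfl
    have h2 : ∀ x ∈ blk D R j, (lat D).pr q u Ed (fun ω => Far D R x ω ∧ ∀ i ∈ S, Bad D R i ω) ≤
        wsp D q v R * (lat D).pr q u Ed (fun ω => ∀ i ∈ S, Bad D R i ω) := by
      intro x hx
      refine s1_at hD hR hq hv hu x (fun e he => huv e ?_) Ed _ fun ω => ?_
      · exact not_onL hR hx (hline j (mem_insert_self _ _)) he
      · refine forall_congr' fun i => forall_congr' fun hi => ?_
        refine bad_loc hR hx (hfar i (mem_insert_of_mem hi) j (mem_insert_self _ _) ?_) ω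
        rintro rfl
        exact hj hi
    have hw : 0 ≤ wsp D q v R := by
      rw [s1_wsp hR hq0 hv]
      have hW := s1_wt_nonneg (lat D) hq0 (u := fun _ => v) fun _ => hv.le
      refine div_nonneg (sum_nonneg fun b _ => ?_) (sum_nonneg fun b _ => hW _)
      split_ifs
      · exact hW _
      · exact le_refl _
    rw [h1, card_insert_of_notMem hj, pow_succ']
    calc (lat D).pr q u Ed (fun ω => (∃ x ∈ blk D R j, Far D R x ω) ∧ ∀ i ∈ S, Bad D R i ω)
        ≤ ∑ x ∈ blk D R j, (lat D).pr q u Ed fun ω => Far D R x ω ∧ ∀ i ∈ S, Bad D R i ω :=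
          s1_union (lat D) q hq0 u hu Ed _ _ _
      _ ≤ ∑ _x ∈ blk D R j, wsp D q v R *
            (lat D).pr q u Ed (fun ω => ∀ i ∈ S, Bad D R i ω) := sum_le_sum h2
      _ = ((R : ℝ) ^ (D + 1) * wsp D q v R) *
            (lat D).pr q u Ed (fun ω => ∀ i ∈ S, Bad D R i ω) := by
          rw [sum_const, card_blk, nsmul_eq_mul]
          push_cast
          ring
      _ ≤ _ := mul_le_mul_of_nonneg_left ih' (by positivity)

/-- A large cluster makes the blocks it touches bad. -/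
theorem bad_of_card {R : ℕ} {j x z : Site D} {ω : Finset (Edge D)} (hx : x ∈ blk D R j)
    {A : Finset (Site D)} (hA : ∀ y ∈ A, (lat D).Rch ω z y) (hxA : x ∈ A)
    (hc : (SB.box D (R - 1)).card < A.card) : Bad D R j ω := by
  by_contra h
  have h1 : A ⊆ bxc D R x := by
    intro y hy
    by_contra h2
    refine h ⟨x, hx, y, fun h3 => h2 ((mem_bxc x y).2 h3), ?_⟩
    exact (DLS.ex_rch_symm (hA x hxA)).trans (hA y hy)
  have h2 := card_le_card h1
  unfold bxc at h2
  rw [card_map] at h2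
  omega

end blocks

end Pool.Agent.DL
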