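import Pool.Agent.DL.Defs

/-!
# Rank and connectivity
-/

set_option autoImplicit false
set_option linter.unusedSectionVars false

namespace Pool.Agent.DL

open Finset

namespace Gr

variable {V ι : Type} [DecidableEq V] [DecidableEq ι] (G : Gr V ι)

theorem step_symm {ω : Finset ι} {x y : V} (h : G.Step ω x y) : G.Step ω y x := by
  obtain ⟨e, he, h⟩ := h
  exact ⟨e, he, h.symm⟩

theorem rch_refl (ω : Finset ι) (x : V) : G.Rch ω x x := Relation.ReflTransGen.refl

theorem rch_symm {ω : Finset ι} {x y : V} (h : G.Rch ω x y) : G.Rch ω y x := by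
  induction h with
  | refl => exact Relation.ReflTransGen.refl
  | tail _ h2 ih => exact Relation.ReflTransGen.head (G.step_symm h2) ih

theorem rch_trans {ω : Finset ι} {x y z : V} (h : G.Rch ω x y) (h' : G.Rch ω y z) :
    G.Rch ω x z := Relation.ReflTransGen.trans h h'

theorem rch_mono {a b : Finset ι} (h : a ⊆ b) {x y : V} (h' : G.Rch a x y) : G.Rch b x y := by
  induction h' with
  | refl => exact Relation.ReflTransGen.refl
  | tail _ h2 ih =>
    obtain ⟨e, he, h1⟩ := h2
    exact Relation.ReflTransGen.tail ih ⟨e, h he, h1⟩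

theorem rch_edge {ω : Finset ι} {e : ι} (h : e ∈ ω) : G.Rch ω (G.s e) (G.t e) :=
  Relation.ReflTransGen.single ⟨e, h, Or.inl ⟨rfl, rfl⟩⟩

theorem vec_mem {ω : Finset ι} {e : ι} (h : e ∈ ω) : G.vec e ∈ G.spn ω :=
  Submodule.subset_span ⟨e, h, rfl⟩

theorem spn_mono {a b : Finset ι} (h : a ⊆ b) : G.spn a ≤ G.spn b :=
  Submodule.span_mono (Set.image_mono (Finset.coe_subset.2 h))

theorem spn_le {ω : Finset ι} {S : Submodule ℚ (V →₀ ℚ)} (h : ∀ e ∈ ω, G.vec e ∈ S) :
    G.spn ω ≤ S := by
  refine Submodule.span_le.2 ?_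
  rintro _ ⟨e, he, rfl⟩
  exact h e he

theorem spn_union (a b : Finset ι) : G.spn (a ∪ b) = G.spn a ⊔ G.spn b := by
  unfold spn
  rw [Finset.coe_union, Set.image_union, Submodule.span_union]

instance (ω : Finset ι) : Module.Finite ℚ (G.spn ω) := by
  unfold spn
  exact FiniteDimensional.span_of_finite ℚ (ω.finite_toSet.image _)

theorem rch_iff (ω : Finset ι) (x y : V) :
    G.Rch ω x y ↔ (Finsupp.single x (1 : ℚ) - Finsupp.single y 1) ∈ G.spn ω := by
  classical
  constructor
  · intro h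
    induction h with
    | refl =>
      rw [sub_self]
      exact Submodule.zero_mem _
    | @tail b c _ h2 ih =>
      have h3 : Finsupp.single b (1 : ℚ) - Finsupp.single c 1 ∈ G.spn ω := by
        obtain ⟨e, he, ⟨rfl, rfl⟩ | ⟨rfl, rfl⟩⟩ := h2
        · exact G.vec_mem he
        · have h4 := Submodule.neg_mem _ (G.vec_mem he)
          rwa [vec, neg_sub] at h4
      have h4 := Submodule.add_mem _ ih h3
      rwa [sub_add_sub_cancel] at h4
  · intro h
    let φ : (V →₀ ℚ) →ₗ[ℚ] ℚ :=
      Finsupp.linearCombination ℚ fun z => if G.Rch ω x z then (1 : ℚ) else 0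
    have h1 : G.spn ω ≤ LinearMap.ker φ := by
      refine G.spn_le fun e he => ?_
      rw [LinearMap.mem_ker]
      simp only [vec, map_sub, φ, Finsupp.linearCombination_single, one_smul]
      have h2 : G.Rch ω x (G.s e) ↔ G.Rch ω x (G.t e) :=
        ⟨fun h => G.rch_trans h (G.rch_edge he), fun h => G.rch_trans h (G.rch_symm (G.rch_edge he))⟩
      simp only [h2, sub_self]
    have h2 := LinearMap.mem_ker.1 (h1 h)
    simp only [map_sub, φ, Finsupp.linearCombination_single, one_smul] at h2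
    rw [if_pos (G.rch_refl ω x)] at h2
    by_contra h3
    rw [if_neg h3] at h2
    norm_num at h2

theorem rk_empty : G.rk ∅ = 0 := by
  unfold rk spn
  rw [Finset.coe_empty, Set.image_empty, Submodule.span_empty, finrank_bot]

theorem rk_mono {a b : Finset ι} (h : a ⊆ b) : G.rk a ≤ G.rk b :=
  Submodule.finrank_mono (G.spn_mono h)

theorem rk_submod (a b : Finset ι) : G.rk (a ∪ b) + G.rk (a ∩ b) ≤ G.rk a + G.rk b := by
  have h1 := Submodule.finrank_sup_add_finrank_inf_eq (G.spn a) (G.spn b)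
  have h2 : G.spn (a ∩ b) ≤ G.spn a ⊓ G.spn b :=
    le_inf (G.spn_mono Finset.inter_subset_left) (G.spn_mono Finset.inter_subset_right)
  have h3 : Module.finrank ℚ (G.spn (a ∩ b)) ≤ Module.finrank ℚ (G.spn a ⊓ G.spn b : Submodule ℚ _) :=
    Submodule.finrank_mono h2
  unfold rk
  rw [spn_union]
  omega

theorem spn_insert (e : ι) (ω : Finset ι) : G.spn (insert e ω) = Submodule.span ℚ {G.vec e} ⊔ G.spn ω := by
  unfold spn
  rw [Finset.coe_insert, Set.image_insert_eq, Submodule.span_insert]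

theorem rk_insert_of_rch {ω : Finset ι} {e : ι} (h : G.Rch ω (G.s e) (G.t e)) :
    G.rk (insert e ω) = G.rk ω := by
  have h1 : G.spn (insert e ω) = G.spn ω := by
    rw [spn_insert, sup_eq_right, Submodule.span_singleton_le_iff_mem]
    exact (G.rch_iff _ _ _).1 h
  unfold rk
  rw [h1]

theorem rk_insert_of_not {ω : Finset ι} {e : ι} (h : ¬ G.Rch ω (G.s e) (G.t e)) :
    G.rk (insert e ω) = G.rk ω + 1 := by
  rw [rch_iff] at h
  have h0 : G.vec e ≠ 0 := by
    intro h1
    apply h
    have : (Finsupp.single (G.s e) (1 : ℚ) - Finsupp.single (G.t e) 1) = 0 := h1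
    rw [this]
    exact Submodule.zero_mem _
  have h1 := Submodule.finrank_sup_add_finrank_inf_eq (Submodule.span ℚ {G.vec e}) (G.spn ω)
  have h2 : Submodule.span ℚ {G.vec e} ⊓ G.spn ω = ⊥ := by
    rw [eq_bot_iff]
    rintro z ⟨hz1, hz2⟩
    obtain ⟨c, rfl⟩ := Submodule.mem_span_singleton.1 hz1
    by_cases hc : c = 0
    · rw [hc, zero_smul]
      exact Submodule.zero_mem _
    · exact absurd ((Submodule.smul_mem_iff _ hc).1 hz2) h
  rw [h2, finrank_bot, finrank_span_singleton h0] at h1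
  unfold rk
  rw [spn_insert]
  omega

theorem spn_le_supported {a : Finset ι} {A : Set V} (ha : ∀ e ∈ a, G.s e ∈ A ∧ G.t e ∈ A) :
    G.spn a ≤ Finsupp.supported ℚ ℚ A :=
  G.spn_le fun e he => Submodule.sub_mem _ (Finsupp.single_mem_supported ℚ _ (ha e he).1)
    (Finsupp.single_mem_supported ℚ _ (ha e he).2)

/-- Additivity for edge sets with disjoint vertex sets. -/
theorem rk_union (A : Set V) (a b : Finset ι) (ha : ∀ e ∈ a, G.s e ∈ A ∧ G.t e ∈ A)
    (hb : ∀ e ∈ b, G.s e ∉ A ∧ G.t e ∉ A) : G.rk (a ∪ b) = G.rk a + G.rk b := by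
  have h1 := Submodule.finrank_sup_add_finrank_inf_eq (G.spn a) (G.spn b)
  have h2 : G.spn a ⊓ G.spn b = ⊥ := by
    rw [eq_bot_iff]
    have h3 : Disjoint (Finsupp.supported ℚ ℚ A) (Finsupp.supported ℚ ℚ Aᶜ) :=
      Finsupp.disjoint_supported_supported disjoint_compl_right
    exact (inf_le_inf (G.spn_le_supported ha) (G.spn_le_supported (A := Aᶜ) hb)).trans
      (disjoint_iff_inf_le.1 h3)
  rw [h2, finrank_bot] at h1
  unfold rk
  rw [spn_union]
  omega

/-- The sum of the coordinates vanishes on the span. -/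
theorem sum_eq_zero {ω : Finset ι} {w : V →₀ ℚ} (hw : w ∈ G.spn ω) :
    Finsupp.linearCombination ℚ (fun _ : V => (1 : ℚ)) w = 0 := by
  have h1 : G.spn ω ≤ LinearMap.ker (Finsupp.linearCombination ℚ (fun _ : V => (1 : ℚ))) := by
    refine G.spn_le fun e _ => ?_
    rw [LinearMap.mem_ker]
    simp [vec]
  exact LinearMap.mem_ker.1 (h1 hw)

theorem mem_spn_of_supported {F : Finset ι} {K : Set V} (hK : ∀ x ∈ K, ∀ y ∈ K, G.Rch F x y)
    {w : V →₀ ℚ} (hw : w ∈ Finsupp.supported ℚ ℚ K)
    (h0 : Finsupp.linearCombination ℚ (fun _ : V => (1 : ℚ)) w = 0) : w ∈ G.spn F := by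
  classical
  by_cases hne : K.Nonempty
  · obtain ⟨x0, hx0⟩ := hne
    have h1 : w = w.sum fun x c => c • (Finsupp.single x (1 : ℚ) - Finsupp.single x0 1) := by
      have h2 : (w.sum fun x c => c • (Finsupp.single x (1 : ℚ) - Finsupp.single x0 1)) =
          (w.sum fun x c => Finsupp.single x c) -
            (Finsupp.linearCombination ℚ (fun _ : V => (1 : ℚ)) w) • Finsupp.single x0 (1 : ℚ) := by
        rw [Finsupp.linearCombination_apply, Finsupp.sum, Finsupp.sum, Finsupp.sum,
          Finset.sum_smul, ← Finset.sum_sub_distrib]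
        refine Finset.sum_congr rfl fun x _ => ?_
        rw [smul_sub, Finsupp.smul_single, smul_eq_mul, mul_one]
      rw [h2, h0, zero_smul, sub_zero, Finsupp.sum_single]
    rw [h1]
    refine Submodule.sum_mem _ fun x hx => Submodule.smul_mem _ _ ?_
    exact (G.rch_iff _ _ _).1 (hK x (hw hx) x0 hx0)
  · rw [Set.not_nonempty_iff_eq_empty] at hne
    subst hne
    have : w = 0 := by
      have h3 : (w.support : Set V) ⊆ ∅ := hw
      rw [Set.subset_empty_iff, Finset.coe_eq_empty, Finsupp.support_eq_empty] at h3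
      exact h3
    rw [this]
    exact Submodule.zero_mem _

theorem rk_isCl {A : Finset V} {E : Finset ι} (h : G.IsCl A E) : G.rk E = A.card - 1 := by
  classical
  obtain ⟨⟨x0, hx0⟩, h1, h2⟩ := h
  let u : ↥(A.erase x0) → (V →₀ ℚ) := fun y =>
    Finsupp.single (y : V) (1 : ℚ) - Finsupp.single x0 1
  have hli : LinearIndependent ℚ u := by
    rw [Fintype.linearIndependent_iff]
    intro g hg y
    have h3 := DFunLike.congr_fun hg (y : V)
    rw [Finsupp.finsetSum_apply] at h3
    have h4 : ∀ z : ↥(A.erase x0), (g z • u z) (y : V) = if z = y then g z else 0 := by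
      intro z
      have hy : (x0 : V) ≠ y := fun h => (Finset.mem_erase.1 y.2).1 h.symm
      simp only [u, Finsupp.smul_apply, Finsupp.sub_apply, Finsupp.single_apply, smul_eq_mul,
        if_neg hy, sub_zero]
      by_cases hz : z = y
      · simp [hz]
      · have : (z : V) ≠ y := fun h => hz (Subtype.ext h)
        simp [hz, this]
    rw [Finset.sum_congr rfl fun z _ => h4 z, Finset.sum_ite_eq' Finset.univ y] at h3
    simpa using h3
  have hsp : G.spn E = Submodule.span ℚ (Set.range u) := by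
    apply le_antisymm
    · refine G.spn_le fun e he => ?_
      have h5 : ∀ y ∈ A, Finsupp.single y (1 : ℚ) - Finsupp.single x0 1 ∈
          Submodule.span ℚ (Set.range u) := by
        intro y hy
        by_cases hyx : y = x0
        · rw [hyx, sub_self]
          exact Submodule.zero_mem _
        · exact Submodule.subset_span ⟨⟨y, Finset.mem_erase.2 ⟨hyx, hy⟩⟩, rfl⟩
      have h6 := Submodule.sub_mem _ (h5 _ (h1 e he).1) (h5 _ (h1 e he).2)
      rwa [sub_sub_sub_cancel_right] at h6
    · rw [Submodule.span_le]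
      rintro _ ⟨y, rfl⟩
      exact (G.rch_iff _ _ _).1 (h2 y (Finset.mem_of_mem_erase y.2) x0 hx0)
  unfold rk
  rw [hsp, finrank_span_eq_card hli, Fintype.card_coe, Finset.card_erase_of_mem hx0]

/-- If `F` is contained in both sets and the vertex sets of `a`, `b` outside an `F`-connected set
`K` are disjoint, the rank increments over `F` add. -/
theorem rk_glue (F a b : Finset ι) (K A : Set V) (hK : ∀ x ∈ K, ∀ y ∈ K, G.Rch F x y)
    (hF : ∀ e ∈ F, (G.s e ∈ K ∧ G.t e ∈ K) ∨ (G.s e ∉ A ∧ G.t e ∉ A ∧ G.s e ∉ K ∧ G.t e ∉ K))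
    (ha : ∀ e ∈ a, (G.s e ∈ A ∨ G.s e ∈ K) ∧ (G.t e ∈ A ∨ G.t e ∈ K))
    (hb : ∀ e ∈ b, G.s e ∉ A ∧ G.t e ∉ A) (hAK : Disjoint A K) :
    G.rk (F ∪ a ∪ b) + G.rk F = G.rk (F ∪ a) + G.rk (F ∪ b) := by
  have h1 := Submodule.finrank_sup_add_finrank_inf_eq (G.spn (F ∪ a)) (G.spn (F ∪ b))
  have hFA : ∀ e ∈ F, G.s e ∈ Aᶜ ∧ G.t e ∈ Aᶜ := by
    intro e he
    rcases hF e he with h | h
    · exact ⟨fun h' => (Set.disjoint_left.1 hAK) h' h.1, fun h' => (Set.disjoint_left.1 hAK) h' h.2⟩
    · exact ⟨h.1, h.2.1⟩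
  have h2 : G.spn (F ∪ a) ⊓ G.spn (F ∪ b) = G.spn F := by
    apply le_antisymm
    · rintro w ⟨hw1, hw2⟩
      rw [SetLike.mem_coe, spn_union, Submodule.mem_sup] at hw1
      obtain ⟨f, hf, α, hα, rfl⟩ := hw1
      have h3 : f + α ∈ Finsupp.supported ℚ ℚ (Aᶜ : Set V) := by
        refine (G.spn_le_supported (a := F ∪ b) fun e he => ?_) hw2
        rcases Finset.mem_union.1 he with h | h
        · exact hFA e h
        · exact hb e h
      have h4 : f ∈ Finsupp.supported ℚ ℚ (Aᶜ : Set V) := G.spn_le_supported hFA hf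
      have h5 : α ∈ Finsupp.supported ℚ ℚ (Aᶜ : Set V) := by
        have := Submodule.sub_mem _ h3 h4
        rwa [add_sub_cancel_left] at this
      have h6 : α ∈ Finsupp.supported ℚ ℚ (A ∪ K : Set V) :=
        G.spn_le_supported (fun e he => ha e he) hα
      have h7 : α ∈ Finsupp.supported ℚ ℚ (K : Set V) := by
        intro x hx
        rcases h6 hx with h | h
        · exact absurd h (h5 hx)
        · exact h
      exact Submodule.add_mem _ hf (G.mem_spn_of_supported hK h7 (G.sum_eq_zero hα))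
    · exact le_inf (G.spn_mono Finset.subset_union_left) (G.spn_mono Finset.subset_union_left)
  rw [h2] at h1
  have h3 : F ∪ a ∪ b = (F ∪ a) ∪ (F ∪ b) := by
    ext e
    simp only [Finset.mem_union]
    tauto
  unfold rk
  rw [h3, spn_union G (F ∪ a)]
  omega

end Gr

end Pool.Agent.DL
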