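import Pool.Agent.DL.Defs2
import Pool.Agent.DL.FKA

/-!
# Automorphisms of the weighted lattice
-/

set_option autoImplicit false
set_option linter.unusedSectionVars false

namespace Pool.Agent.DL

open Finset

/-- A symmetry of the weighted lattice. -/
structure Sy (D : ℕ) (β J : ℝ) where
  σ : Site D ≃ Site D
  τ : Edge D ≃ Edge D
  h : ∀ e, ((lat D).s (τ e) = σ ((lat D).s e) ∧ (lat D).t (τ e) = σ ((lat D).t e)) ∨
    ((lat D).s (τ e) = σ ((lat D).t e) ∧ (lat D).t (τ e) = σ ((lat D).s e))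
  hv : ∀ e, vJ β J (τ e) = vJ β J e

namespace Sy

variable {D : ℕ} {β J : ℝ} (S : Sy D β J)

/-- The image of a volume. -/
def im (A : Finset (Site D)) : Finset (Site D) := A.map S.σ.toEmbedding

/-- The image of a set of edges. -/
def ime (E : Finset (Edge D)) : Finset (Edge D) := E.map S.τ.toEmbedding

theorem mem_im {A : Finset (Site D)} {x : Site D} : S.σ x ∈ S.im A ↔ x ∈ A := by
  simp [im]

theorem mem_ime {E : Finset (Edge D)} {e : Edge D} : S.τ e ∈ S.ime E ↔ e ∈ E := by
  simp [ime]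

theorem mem_im' {A : Finset (Site D)} {x : Site D} : x ∈ S.im A ↔ S.σ.symm x ∈ A := by
  obtain ⟨x, rfl⟩ := S.σ.surjective x
  rw [S.mem_im, Equiv.symm_apply_apply]

theorem mem_ime' {E : Finset (Edge D)} {e : Edge D} : e ∈ S.ime E ↔ S.τ.symm e ∈ E := by
  obtain ⟨e, rfl⟩ := S.τ.surjective e
  rw [S.mem_ime, Equiv.symm_apply_apply]

theorem mem_edg' {Λ : Finset (Site D)} {e : Edge D} :
    e ∈ edg Λ ↔ (lat D).s e ∈ Λ ∧ (lat D).t e ∈ Λ := by
  unfold edg lat
  rw [Finset.mem_filter, Finset.mem_product]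
  simp

theorem ends_iff (P : Site D → Prop) (e : Edge D) :
    (P ((lat D).s (S.τ e)) ∧ P ((lat D).t (S.τ e))) ↔
      (P (S.σ ((lat D).s e)) ∧ P (S.σ ((lat D).t e))) := by
  rcases S.h e with ⟨h1, h2⟩ | ⟨h1, h2⟩
  · rw [h1, h2]
  · rw [h1, h2, and_comm]

theorem ime_edg (Λ : Finset (Site D)) : S.ime (edg Λ) = edg (S.im Λ) := by
  ext e
  obtain ⟨e, rfl⟩ := S.τ.surjective e
  rw [S.mem_ime, mem_edg', mem_edg', S.ends_iff (fun x => x ∈ S.im Λ) e]
  simp only [S.mem_im]

theorem step {ω : Finset (Edge D)} {x y : Site D} (h : (lat D).Step ω x y) :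
    (lat D).Step (S.ime ω) (S.σ x) (S.σ y) := by
  obtain ⟨e, he, h⟩ := h
  refine ⟨S.τ e, S.mem_ime.2 he, ?_⟩
  rcases S.h e with ⟨h1, h2⟩ | ⟨h1, h2⟩ <;> rcases h with ⟨h3, h4⟩ | ⟨h3, h4⟩ <;>
    rw [h1, h2, h3, h4] <;> simp

theorem step' {ω : Finset (Edge D)} {x y : Site D} (h : (lat D).Step (S.ime ω) (S.σ x) (S.σ y)) :
    (lat D).Step ω x y := by
  obtain ⟨e, he, h⟩ := h
  obtain ⟨e, rfl⟩ := S.τ.surjective e
  refine ⟨e, S.mem_ime.1 he, ?_⟩
  rcases S.h e with ⟨h1, h2⟩ | ⟨h1, h2⟩ <;> rcases h with ⟨h3, h4⟩ | ⟨h3, h4⟩ <;>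
    rw [h1] at h3 <;> rw [h2] at h4
  · exact Or.inl ⟨S.σ.injective h3, S.σ.injective h4⟩
  · exact Or.inr ⟨S.σ.injective h3, S.σ.injective h4⟩
  · exact Or.inr ⟨S.σ.injective h4, S.σ.injective h3⟩
  · exact Or.inl ⟨S.σ.injective h4, S.σ.injective h3⟩

theorem rch (ω : Finset (Edge D)) (x y : Site D) :
    (lat D).Rch (S.ime ω) (S.σ x) (S.σ y) ↔ (lat D).Rch ω x y := by
  constructor
  · intro h
    have key : ∀ a b : Site D, (lat D).Rch (S.ime ω) a b →
        (lat D).Rch ω (S.σ.symm a) (S.σ.symm b) := by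
      intro a b hab
      induction hab with
      | refl => exact (lat D).rch_refl _ _
      | @tail b c _ h2 ih =>
        refine Relation.ReflTransGen.tail ih ?_
        apply S.step'
        simpa using h2
    have := key _ _ h
    simpa using this
  · intro h
    induction h with
    | refl => exact (lat D).rch_refl _ _
    | tail _ h2 ih => exact Relation.ReflTransGen.tail ih (S.step h2)

theorem isCl (A : Finset (Site D)) (E : Finset (Edge D)) :
    (lat D).IsCl (S.im A) (S.ime E) ↔ (lat D).IsCl A E := by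
  unfold Gr.IsCl
  refine and_congr ?_ (and_congr ?_ ?_)
  · simp [im]
  · constructor
    · intro h e he
      have h1 := h (S.τ e) (S.mem_ime.2 he)
      rw [S.ends_iff (fun x => x ∈ S.im A) e] at h1
      simpa only [S.mem_im] using h1
    · intro h e he
      obtain ⟨e, rfl⟩ := S.τ.surjective e
      rw [S.ends_iff (fun x => x ∈ S.im A) e]
      simpa only [S.mem_im] using h e (S.mem_ime.1 he)
  · constructor
    · intro h x hx y hy
      exact (S.rch _ _ _).1 (h _ (S.mem_im.2 hx) _ (S.mem_im.2 hy))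
    · intro h x hx y hy
      obtain ⟨x, rfl⟩ := S.σ.surjective x
      obtain ⟨y, rfl⟩ := S.σ.surjective y
      exact (S.rch _ _ _).2 (h _ (S.mem_im.1 hx) _ (S.mem_im.1 hy))

theorem prod_ime (E : Finset (Edge D)) :
    ∏ e ∈ S.ime E, vJ β J e = ∏ e ∈ E, vJ β J e := by
  unfold ime
  rw [Finset.prod_map]
  exact Finset.prod_congr rfl fun e _ => S.hv e

theorem card_im (A : Finset (Site D)) : (S.im A).card = A.card := by
  simp [im]

theorem card_ime (A : Finset (Edge D)) : (S.ime A).card = A.card := by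
  simp [ime]

theorem WW_im (q : ℝ) (A : Finset (Site D)) (E : Finset (Edge D)) :
    WW D q β J (S.im A) (S.ime E) = WW D q β J A E := by
  unfold WW Gr.cw
  rw [S.prod_ime, S.card_im]

/-- The linear map of the vertices. -/
noncomputable def lin : (Site D →₀ ℚ) ≃ₗ[ℚ] (Site D →₀ ℚ) := Finsupp.domLCongr S.σ

theorem lin_single (x : Site D) (a : ℚ) :
    S.lin (Finsupp.single x a) = Finsupp.single (S.σ x) a := by
  simp [lin]

theorem vec_tau (e : Edge D) :
    (lat D).vec (S.τ e) = S.lin ((lat D).vec e) ∨ (lat D).vec (S.τ e) = - S.lin ((lat D).vec e) := by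
  unfold Gr.vec
  rw [map_sub, S.lin_single, S.lin_single]
  rcases S.h e with ⟨h1, h2⟩ | ⟨h1, h2⟩
  · left; rw [h1, h2]
  · right; rw [h1, h2, neg_sub]

theorem spn_ime (ω : Finset (Edge D)) :
    (lat D).spn (S.ime ω) = ((lat D).spn ω).map (S.lin : (Site D →₀ ℚ) →ₗ[ℚ] (Site D →₀ ℚ)) := by
  apply le_antisymm
  · apply (lat D).spn_le
    intro e he
    obtain ⟨e, rfl⟩ := S.τ.surjective e
    have he' : e ∈ ω := S.mem_ime.1 he
    have h1 : S.lin ((lat D).vec e) ∈
        ((lat D).spn ω).map (S.lin : (Site D →₀ ℚ) →ₗ[ℚ] (Site D →₀ ℚ)) :=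
      Submodule.mem_map_of_mem ((lat D).vec_mem he')
    rcases S.vec_tau e with h | h
    · rw [h]; exact h1
    · rw [h]; exact Submodule.neg_mem _ h1
  · rw [Submodule.map_le_iff_le_comap]
    apply (lat D).spn_le
    intro e he
    rw [Submodule.mem_comap]
    have h1 : (lat D).vec (S.τ e) ∈ (lat D).spn (S.ime ω) := (lat D).vec_mem (S.mem_ime.2 he)
    rcases S.vec_tau e with h | h
    · rw [h] at h1; exact h1
    · rw [h] at h1
      have := Submodule.neg_mem _ h1
      rw [neg_neg] at this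
      exact this

theorem rk_ime (ω : Finset (Edge D)) : (lat D).rk (S.ime ω) = (lat D).rk ω := by
  unfold Gr.rk
  rw [S.spn_ime]
  exact LinearEquiv.finrank_map_eq S.lin _

theorem wt_ime (q : ℝ) (ω : Finset (Edge D)) :
    (lat D).wt q (vJ β J) (S.ime ω) = (lat D).wt q (vJ β J) ω := by
  unfold Gr.wt
  rw [S.prod_ime, S.rk_ime]

theorem sum_ime (Ed : Finset (Edge D)) (f : Finset (Edge D) → ℝ) :
    ∑ ω ∈ (S.ime Ed).powerset, f ω = ∑ ω ∈ Ed.powerset, f (S.ime ω) := by
  symm
  refine Finset.sum_bij (fun ω _ => S.ime ω) ?_ ?_ ?_ ?_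
  · intro ω hω
    rw [Finset.mem_powerset] at hω ⊢
    exact Finset.map_subset_map.2 hω
  · intro a _ b _ hab
    exact Finset.map_injective _ hab
  · intro b hb
    rw [Finset.mem_powerset] at hb
    refine ⟨b.map S.τ.symm.toEmbedding, ?_, ?_⟩
    · rw [Finset.mem_powerset]
      intro e he
      rw [Finset.mem_map_equiv] at he
      have := hb he
      rw [S.mem_ime'] at this
      simpa using this
    · unfold ime
      rw [Finset.map_map]
      have : S.τ.symm.toEmbedding.trans S.τ.toEmbedding = Function.Embedding.refl _ := by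
        ext e : 1
        simp
      rw [this, Finset.map_refl]
  · intro _ _
    rfl

theorem zz_ime (q : ℝ) (Ed : Finset (Edge D)) :
    (lat D).zz q (vJ β J) (S.ime Ed) = (lat D).zz q (vJ β J) Ed := by
  unfold Gr.zz
  rw [S.sum_ime]
  exact Finset.sum_congr rfl fun ω _ => S.wt_ime q ω

theorem del_ime (A : Finset (Site D)) (Ed : Finset (Edge D)) :
    (lat D).del (S.im A) (S.ime Ed) = S.ime ((lat D).del A Ed) := by
  ext e
  obtain ⟨e, rfl⟩ := S.τ.surjective e
  unfold Gr.del
  rw [S.mem_ime, Finset.mem_filter, Finset.mem_filter, S.mem_ime,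
    S.ends_iff (fun x => x ∉ S.im A) e]
  simp only [S.mem_im]

theorem tch_ime (A : Finset (Site D)) (Ed : Finset (Edge D)) :
    (lat D).tch (S.im A) (S.ime Ed) = S.ime ((lat D).tch A Ed) := by
  ext e
  obtain ⟨e, rfl⟩ := S.τ.surjective e
  unfold Gr.tch
  rw [S.mem_ime, Finset.mem_filter, Finset.mem_filter, S.mem_ime]
  refine and_congr_right fun _ => ?_
  have := S.ends_iff (fun x => x ∉ S.im A) e
  rw [← not_iff_not, not_or, not_or]
  rw [this]
  simp only [S.mem_im]

theorem ZZ_im (q : ℝ) (Λ A : Finset (Site D)) : ZZ D q β J (S.im Λ) (S.im A) = ZZ D q β J Λ A := by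
  unfold ZZ Gr.ze
  rw [← S.ime_edg, S.del_ime, S.zz_ime, S.zz_ime]

theorem pr_ime (q : ℝ) (Ed : Finset (Edge D)) (A : Finset (Edge D) → Prop) :
    (lat D).pr q (vJ β J) (S.ime Ed) A =
      (lat D).pr q (vJ β J) Ed (fun ω => A (S.ime ω)) := by
  classical
  unfold Gr.pr
  rw [S.zz_ime, Finset.sum_filter, Finset.sum_filter, S.sum_ime]
  congr 1
  refine Finset.sum_congr rfl fun ω _ => ?_
  rw [S.wt_ime]

theorem PP_im (q : ℝ) (Λ : Finset (Site D)) (A : Finset (Edge D) → Prop) :
    PP D q β J (S.im Λ) A = PP D q β J Λ (fun ω => A (S.ime ω)) := by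
  unfold PP
  rw [← S.ime_edg, S.pr_ime]

theorem TT_im (q : ℝ) (Λ : Finset (Site D)) (x y : Site D) :
    TT D q β J (S.im Λ) (S.σ x) (S.σ y) = TT D q β J Λ x y := by
  unfold TT Gr.tp
  rw [← S.ime_edg, S.pr_ime]
  simp only [S.rch]

theorem im_surj : Function.Surjective S.im := by
  intro B
  refine ⟨B.map S.σ.symm.toEmbedding, ?_⟩
  unfold im
  rw [Finset.map_map]
  have : S.σ.symm.toEmbedding.trans S.σ.toEmbedding = Function.Embedding.refl _ := by
    ext e : 1
    simp
  rw [this, Finset.map_refl]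

theorem GG_im (q : ℝ) (x y : Site D) : GG D q β J (S.σ x) (S.σ y) = GG D q β J x y := by
  unfold GG
  rw [← S.im_surj.iSup_comp]
  simp only [S.TT_im]

/-- Translation of the height. -/
def tr (D : ℕ) (β J : ℝ) (m : ℤ) : Sy D β J where
  σ := ⟨fun x => (x.1 + m, x.2), fun x => (x.1 - m, x.2), fun x => by simp, fun x => by simp⟩
  τ := ⟨fun e => ((e.1.1 + m, e.1.2), e.2), fun e => ((e.1.1 - m, e.1.2), e.2), fun e => by simp,
    fun e => by simp⟩
  h := by
    rintro ⟨x, o⟩
    left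
    refine ⟨rfl, ?_⟩
    cases o with
    | none => simp [lat, SB.dir]; ring
    | some i => simp [lat, SB.dir]
  hv := by
    rintro ⟨x, o⟩
    rfl

theorem rf_inv {D : ℕ} (m : ℤ) (e : Edge D) :
    ((m - (m - e.1.1 - (if e.2 = none then 1 else 0)) - (if e.2 = none then 1 else 0), e.1.2),
      e.2) = e := by
  obtain ⟨x, o⟩ := e
  refine Prod.ext (Prod.ext ?_ rfl) rfl
  simp only
  ring

/-- Reflection of the height: `x.1` to `m - x.1`. -/
def rf (D : ℕ) (β J : ℝ) (m : ℤ) : Sy D β J where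
  σ := ⟨fun x => (m - x.1, x.2), fun x => (m - x.1, x.2), fun x => by simp, fun x => by simp⟩
  τ := ⟨fun e => ((m - e.1.1 - (if e.2 = none then 1 else 0), e.1.2), e.2),
    fun e => ((m - e.1.1 - (if e.2 = none then 1 else 0), e.1.2), e.2),
    fun e => rf_inv m e, fun e => rf_inv m e⟩
  h := by
    rintro ⟨x, o⟩
    cases o with
    | none =>
      right
      constructor
      · simp [lat, SB.dir]
        ring
      · simp [lat, SB.dir]
    | some i => left; constructor <;> simp [lat, SB.dir]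
  hv := by
    rintro ⟨x, o⟩
    rfl

/-- The reflection `x.2` to `- x.2`. -/
def ng (D : ℕ) (β J : ℝ) : Sy D β J where
  σ := ⟨fun x => (x.1, -x.2), fun x => (x.1, -x.2), fun x => by simp, fun x => by simp⟩
  τ := ⟨fun e => (match e.2 with
      | none => (e.1.1, -e.1.2)
      | some i => (e.1.1, -e.1.2 - Pi.single i 1), e.2),
    fun e => (match e.2 with
      | none => (e.1.1, -e.1.2)
      | some i => (e.1.1, -e.1.2 - Pi.single i 1), e.2),
    fun e => by rcases e with ⟨x, o⟩; cases o <;> simp, fun e => by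
      rcases e with ⟨x, o⟩; cases o <;> simp⟩
  h := by
    rintro ⟨x, o⟩
    cases o with
    | none => left; constructor <;> simp [lat, SB.dir]
    | some i =>
      right
      constructor
      · simp [lat, SB.dir]; abel
      · simp [lat, SB.dir]
  hv := by
    rintro ⟨x, o⟩
    cases o <;> simp [vJ, OnL]

/-- Translations of the lattice without defect. -/
def tx (D : ℕ) (β : ℝ) (a : Site D) : Sy D β 1 where
  σ := ⟨fun x => x + a, fun x => x - a, fun x => by simp, fun x => by simp⟩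
  τ := ⟨fun e => (e.1 + a, e.2), fun e => (e.1 - a, e.2), fun e => by simp, fun e => by simp⟩
  h := by
    rintro ⟨x, o⟩
    left
    refine ⟨rfl, ?_⟩
    simp only [lat, Equiv.coe_fn_mk]
    abel
  hv := by
    rintro ⟨x, o⟩
    simp [vJ]

end Sy

end Pool.Agent.DL
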