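import Pool.Agent.DL.FKC
import Pool.Agent.DL.Sym
import Pool.Agent.DL.Bad

/-!
# The two-point function in infinite volume: rates and the pointwise bound
-/

set_option autoImplicit false
set_option linter.unusedSectionVars false

namespace Pool.Agent.DL

open Finset Filter Topology

section basic

variable {D : ℕ} {q β J : ℝ}

theorem pw_vJ_nonneg (hβ : 0 ≤ β) (hJ : 0 ≤ J) (e : Edge D) : 0 ≤ vJ β J e := by
  unfold vJ
  split_ifs
  · exact sub_nonneg.2 (Real.one_le_exp (mul_nonneg hβ hJ))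
  · exact sub_nonneg.2 (Real.one_le_exp hβ)

theorem pw_vJ_ge (hβ : 0 ≤ β) (hJ : 1 ≤ J) (e : Edge D) : Real.exp β - 1 ≤ vJ β J e := by
  unfold vJ
  split_ifs
  · have : β ≤ β * J := le_mul_of_one_le_right hβ hJ
    linarith [Real.exp_le_exp.2 this]
  · exact le_rfl

theorem pw_vJ_mono {J' : ℝ} (hβ : 0 ≤ β) (hJ : J ≤ J') (e : Edge D) : vJ β J e ≤ vJ β J' e := by
  unfold vJ
  split_ifs
  · have : β * J ≤ β * J' := mul_le_mul_of_nonneg_left hJ hβ
    linarith [Real.exp_le_exp.2 this]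
  · exact le_rfl

theorem pw_edg_mono {Λ Λ' : Finset (Site D)} (h : Λ ⊆ Λ') : edg Λ ⊆ edg Λ' := by
  intro e he
  rw [DLS.mem_edg] at he ⊢
  exact ⟨h he.1, h he.2⟩

theorem pw_TT_nonneg (h : Bas D q β) (hJ : 0 ≤ J) (Λ : Finset (Site D)) (x y : Site D) :
    0 ≤ TT D q β J Λ x y :=
  (lat D).tp_nonneg q _ (by linarith [h.hq]) (pw_vJ_nonneg h.hβ.le hJ) _ _ _

theorem pw_TT_le_one (h : Bas D q β) (hJ : 0 ≤ J) (Λ : Finset (Site D)) (x y : Site D) :
    TT D q β J Λ x y ≤ 1 :=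
  (lat D).tp_le_one q _ (by linarith [h.hq]) (pw_vJ_nonneg h.hβ.le hJ) _ _ _

theorem pw_TT_mono (h : Bas D q β) (hJ : 0 ≤ J) {Λ Λ' : Finset (Site D)} (hΛ : Λ ⊆ Λ')
    (x y : Site D) : TT D q β J Λ x y ≤ TT D q β J Λ' x y :=
  (lat D).tp_mono_edges q _ h.hq (pw_vJ_nonneg h.hβ.le hJ) (pw_edg_mono hΛ) x y

theorem pw_bdd (h : Bas D q β) (hJ : 0 ≤ J) (x y : Site D) :
    BddAbove (Set.range fun Λ : Finset (Site D) => TT D q β J Λ x y) :=
  ⟨1, by rintro _ ⟨Λ, rfl⟩; exact pw_TT_le_one h hJ Λ x y⟩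

theorem TT_le_GG (h : Bas D q β) (hJ : 0 ≤ J) (Λ : Finset (Site D))
    (x y : Site D) : TT D q β J Λ x y ≤ GG D q β J x y :=
  le_ciSup (pw_bdd h hJ x y) Λ

theorem GG_le_one (h : Bas D q β) (hJ : 0 ≤ J) (x y : Site D) :
    GG D q β J x y ≤ 1 :=
  ciSup_le fun Λ => pw_TT_le_one h hJ Λ x y

theorem pw_GG_nonneg (h : Bas D q β) (hJ : 0 ≤ J) (x y : Site D) : 0 ≤ GG D q β J x y :=
  (pw_TT_nonneg h hJ ∅ x y).trans (TT_le_GG h hJ ∅ x y)

theorem GG_mul_le (h : Bas D q β) (hJ : 0 ≤ J) (x y z : Site D) :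
    GG D q β J x y * GG D q β J y z ≤ GG D q β J x z := by
  have h1 : ∀ Λ, TT D q β J Λ x y * GG D q β J y z ≤ GG D q β J x z := by
    intro Λ
    unfold GG
    rw [Real.mul_iSup_of_nonneg (pw_TT_nonneg h hJ Λ x y)]
    refine ciSup_le fun Λ' => ?_
    calc TT D q β J Λ x y * TT D q β J Λ' y z
        ≤ TT D q β J (Λ ∪ Λ') x y * TT D q β J (Λ ∪ Λ') y z :=
          mul_le_mul (pw_TT_mono h hJ subset_union_left x y)
            (pw_TT_mono h hJ subset_union_right y z) (pw_TT_nonneg h hJ _ _ _)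
            (pw_TT_nonneg h hJ _ _ _)
      _ ≤ TT D q β J (Λ ∪ Λ') x z :=
          (lat D).tp_mul_le q _ h.hq (pw_vJ_nonneg h.hβ.le hJ) _ x y z
      _ ≤ _ := TT_le_GG h hJ _ x z
  have h2 : GG D q β J x y * GG D q β J y z =
      ⨆ Λ : Finset (Site D), TT D q β J Λ x y * GG D q β J y z := by
    rw [← Real.iSup_mul_of_nonneg (pw_GG_nonneg h hJ y z)]
    rfl
  rw [h2]
  exact ciSup_le h1

theorem GG_comm (x y : Site D) : GG D q β J x y = GG D q β J y x := by
  unfold GG TT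
  exact iSup_congr fun Λ => (lat D).tp_comm q _ _ x y

theorem pw_GG_self (h : Bas D q β) (hJ : 0 ≤ J) (x : Site D) : GG D q β J x x = 1 := by
  refine le_antisymm (GG_le_one h hJ x x) ?_
  refine le_trans (le_of_eq ?_) (TT_le_GG h hJ ∅ x x)
  have h1 : (fun ω : Finset (Edge D) => (lat D).Rch ω x x) = fun _ => True := by
    funext ω
    exact eq_true ((lat D).rch_refl ω x)
  unfold TT Gr.tp
  rw [h1, (lat D).pr_true q _ (by linarith [h.hq]) (pw_vJ_nonneg h.hβ.le hJ)]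

/-- Neighbouring sites. -/
theorem pw_GG_edge (h : Bas D q β) (hJ : 1 ≤ J) (e : Edge D) :
    (Real.exp β - 1) / (Real.exp β - 1 + q) ≤ GG D q β J ((lat D).s e) ((lat D).t e) := by
  have hJ0 : 0 ≤ J := by linarith
  have hq := h.hq
  have hv0 : 0 < Real.exp β - 1 := sub_pos.2 (Real.one_lt_exp_iff.2 h.hβ)
  have hv := pw_vJ_ge h.hβ.le hJ e
  set Λ : Finset (Site D) := {(lat D).s e, (lat D).t e} with hΛ
  have he : e ∈ edg Λ := by
    rw [DLS.mem_edg, hΛ, mem_insert, mem_insert, mem_singleton, mem_singleton]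
    exact ⟨Or.inl rfl, Or.inr rfl⟩
  refine le_trans ?_ (TT_le_GG h hJ0 Λ _ _)
  refine le_trans ?_ (le_trans ((lat D).pr_open_ge q (vJ β J) hq (pw_vJ_nonneg h.hβ.le hJ0)
    (edg Λ) e he) ((lat D).pr_le q _ (by linarith) (pw_vJ_nonneg h.hβ.le hJ0) _ _ _
      fun ω _ hω => (lat D).rch_edge hω))
  rw [div_le_div_iff₀ (by linarith) (by linarith)]
  nlinarith

theorem pw_GG_dir (h : Bas D q β) (hJ : 1 ≤ J) (x : Site D) (d : Option (Fin D) × Bool) :
    (Real.exp β - 1) / (Real.exp β - 1 + q) ≤ GG D q β J x (x + SB.dir d) := by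
  obtain ⟨k, b⟩ := d
  cases b with
  | true => exact pw_GG_edge h hJ (x, k)
  | false =>
    have h1 := pw_GG_edge h hJ (x + SB.dir (k, false), k)
    have h2 : (lat D).t (x + SB.dir (k, false), k) = x := by
      change x + SB.dir (k, false) + SB.dir (k, true) = x
      cases k with
      | none => simp [SB.dir, add_assoc]
      | some i =>
        rw [add_assoc]
        have : (SB.dir (some i, false) + SB.dir (some i, true) : Site D) = 0 := by
          refine Prod.ext (by simp [SB.dir]) ?_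
          funext j
          simp only [SB.dir, Prod.snd_add, Pi.add_apply, Prod.snd_zero, Pi.zero_apply]
          by_cases hj : j = i
          · subst hj; simp
          · simp [Pi.single_eq_of_ne hj]
        rw [this, add_zero]
    rw [h2] at h1
    rw [GG_comm]
    exact h1

/-- A step towards `y`. -/
theorem pw_step (x y : Site D) (hxy : x ≠ y) :
    ∃ d : Option (Fin D) × Bool, SB.dist1 (x + SB.dir d) y + 1 = SB.dist1 x y := by
  by_cases h1 : x.1 = y.1
  · have h2 : x.2 ≠ y.2 := fun h2 => hxy (Prod.ext h1 h2)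
    obtain ⟨i, hi⟩ := Function.ne_iff.1 h2
    have hsum : ∀ s : ℤ, (∑ j, (((x.2 + Pi.single i s : Fin D → ℤ) j) - y.2 j).natAbs) +
        (x.2 i - y.2 i).natAbs = (∑ j, (x.2 j - y.2 j).natAbs) + (x.2 i + s - y.2 i).natAbs := by
      intro s
      rw [← Finset.add_sum_erase univ _ (mem_univ i), ← Finset.add_sum_erase univ
        (fun j => (x.2 j - y.2 j).natAbs) (mem_univ i)]
      have : ∑ j ∈ univ.erase i, (((x.2 + Pi.single i s : Fin D → ℤ) j) - y.2 j).natAbs =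
          ∑ j ∈ univ.erase i, (x.2 j - y.2 j).natAbs := by
        refine sum_congr rfl fun j hj => ?_
        rw [Pi.add_apply, Pi.single_eq_of_ne (ne_of_mem_erase hj), add_zero]
      rw [this, Pi.add_apply, Pi.single_eq_same]
      ring
    rcases lt_or_gt_of_ne hi with h3 | h3
    · refine ⟨(some i, true), ?_⟩
      have h4 := hsum 1
      unfold SB.dist1 SB.dir
      simp only [Prod.fst_add, Prod.snd_add, add_zero]
      omega
    · refine ⟨(some i, false), ?_⟩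
      have h4 := hsum (-1)
      unfold SB.dist1 SB.dir
      simp only [Prod.fst_add, Prod.snd_add, add_zero]
      omega
  · rcases lt_or_gt_of_ne h1 with h3 | h3
    · refine ⟨(none, true), ?_⟩
      unfold SB.dist1 SB.dir
      simp only [Prod.fst_add, Prod.snd_add, add_zero]
      omega
    · refine ⟨(none, false), ?_⟩
      unfold SB.dist1 SB.dir
      simp only [Prod.fst_add, Prod.snd_add, add_zero]
      omega

/-- Connecting two sites costs at most a constant for each step. -/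
theorem GG_ge (h : Bas D q β) (hJ : 1 ≤ J) (x y : Site D) :
    ((Real.exp β - 1) / (Real.exp β - 1 + q)) ^ SB.dist1 x y ≤ GG D q β J x y := by
  have hJ0 : 0 ≤ J := by linarith
  have hv0 : 0 < Real.exp β - 1 := sub_pos.2 (Real.one_lt_exp_iff.2 h.hβ)
  have hc : 0 ≤ (Real.exp β - 1) / (Real.exp β - 1 + q) :=
    div_nonneg hv0.le (by linarith [h.hq])
  induction hn : SB.dist1 x y generalizing x with
  | zero =>
    rw [pow_zero]
    by_cases hxy : x = y
    · rw [hxy, pw_GG_self h hJ0]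
    · obtain ⟨d, hd⟩ := pw_step x y hxy
      omega
  | succ n ih =>
    have hxy : x ≠ y := by
      rintro rfl
      simp [SB.dist1] at hn
    obtain ⟨d, hd⟩ := pw_step x y hxy
    have h1 := ih (x + SB.dir d) (by omega)
    have h2 := pw_GG_dir h hJ x d
    rw [pow_succ']
    exact (mul_le_mul h2 h1 (pow_nonneg hc n) (pw_GG_nonneg h hJ0 _ _)).trans
      (GG_mul_le h hJ0 _ _ _)

theorem pw_GG_pos (h : Bas D q β) (hJ : 1 ≤ J) (x y : Site D) : 0 < GG D q β J x y := by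
  have hv0 : 0 < Real.exp β - 1 := sub_pos.2 (Real.one_lt_exp_iff.2 h.hβ)
  exact lt_of_lt_of_le (pow_pos (div_pos hv0 (by linarith [h.hq])) _) (GG_ge h hJ x y)

theorem pw_term_nonneg (h : Bas D q β) (hJ : 1 ≤ J) (n : ℕ) :
    0 ≤ -Real.log (GG D q β J 0 ((n : ℤ) + 1, 0)) / ((n : ℝ) + 1) := by
  refine div_nonneg (neg_nonneg.2 (Real.log_nonpos (pw_GG_pos h hJ _ _).le
    (GG_le_one h (by linarith) _ _))) (by positivity)

theorem pw_xi_bdd (h : Bas D q β) (hJ : 1 ≤ J) : BddBelow (Set.range fun n : ℕ =>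
    -Real.log (GG D q β J 0 ((n : ℤ) + 1, 0)) / ((n : ℝ) + 1)) :=
  ⟨0, by rintro _ ⟨n, rfl⟩; exact pw_term_nonneg h hJ n⟩

theorem xiR_nonneg (h : Bas D q β) (hJ : 1 ≤ J) : 0 ≤ xiR D q β J :=
  le_ciInf fun n => pw_term_nonneg h hJ n

theorem xiR_le (h : Bas D q β) (hJ : 1 ≤ J) :
    xiR D q β J ≤ Real.log ((Real.exp β - 1 + q) / (Real.exp β - 1)) := by
  have hv0 : 0 < Real.exp β - 1 := sub_pos.2 (Real.one_lt_exp_iff.2 h.hβ)
  have h1 := GG_ge h hJ (0 : Site D) ((0 : ℤ) + 1, 0)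
  have h2 : SB.dist1 (0 : Site D) ((0 : ℤ) + 1, 0) = 1 := by simp [SB.dist1]
  rw [h2, pow_one] at h1
  refine (ciInf_le (pw_xi_bdd h hJ) 0).trans ?_
  simp only [Nat.cast_zero, zero_add, div_one] at h1 ⊢
  rw [show (Real.exp β - 1 + q) / (Real.exp β - 1) = ((Real.exp β - 1) / (Real.exp β - 1 + q))⁻¹ by
    rw [inv_div], Real.log_inv]
  exact neg_le_neg (Real.log_le_log (div_pos hv0 (by linarith [h.hq])) h1)

theorem pw_GG_mono {J' : ℝ} (h : Bas D q β) (hJ : 0 ≤ J) (hJJ : J ≤ J') (x y : Site D) :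
    GG D q β J x y ≤ GG D q β J' x y := by
  refine ciSup_le fun Λ => le_trans ?_ (TT_le_GG h (hJ.trans hJJ) Λ x y)
  exact (lat D).pr_mono_v q _ _ h.hq (pw_vJ_nonneg h.hβ.le hJ) (pw_vJ_mono h.hβ.le hJJ) _ _
    ((lat D).inc_rch x y)

theorem xiR_anti {J' : ℝ} (h : Bas D q β) (hJ : 1 ≤ J) (hJJ : J ≤ J') :
    xiR D q β J' ≤ xiR D q β J := by
  refine ciInf_mono (pw_xi_bdd h (hJ.trans hJJ)) fun n => ?_
  refine div_le_div_of_nonneg_right (neg_le_neg (Real.log_le_log (pw_GG_pos h hJ _ _)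
    (pw_GG_mono h (by linarith) hJJ _ _))) (by positivity)

/-- The bound by the rate for all `n`. -/
theorem pw_GG_line (h : Bas D q β) (hJ : 1 ≤ J) (n : ℕ) :
    GG D q β J 0 ((n : ℤ), 0) ≤ Real.exp (-(xiR D q β J * n)) := by
  rcases Nat.eq_zero_or_pos n with rfl | hn
  · simp only [Nat.cast_zero, mul_zero, neg_zero, Real.exp_zero]
    exact GG_le_one h (by linarith) _ _
  · obtain ⟨m, rfl⟩ := Nat.exists_eq_succ_of_ne_zero hn.ne'
    have h1 : xiR D q β J ≤ -Real.log (GG D q β J 0 ((m : ℤ) + 1, 0)) / ((m : ℝ) + 1) :=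
      ciInf_le (pw_xi_bdd h hJ) m
    have h2 : (0 : ℝ) < (m : ℝ) + 1 := by positivity
    rw [le_div_iff₀ h2] at h1
    have h3 : Real.log (GG D q β J 0 (((m + 1 : ℕ) : ℤ), 0)) ≤
        -(xiR D q β J * ((m + 1 : ℕ) : ℝ)) := by
      push_cast
      linarith
    exact (Real.log_le_iff_le_exp (pw_GG_pos h hJ _ _)).1 h3

/-- The wired probability decays. -/
theorem pw_wsp_le (h : Bas D q β) : ∃ C c : ℝ, 0 < c ∧ ∀ N : ℕ, 1 ≤ N →
    DLS.wsp D q (Real.exp β - 1) N ≤ C * Real.exp (-(c * N)) := by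
  obtain ⟨C, c, hc, hW⟩ := h.wd
  refine ⟨C, c, hc, fun N hN => ?_⟩
  have hq0 : 0 < q := by linarith [h.hq]
  have hv0 : 0 < Real.exp β - 1 := sub_pos.2 (Real.one_lt_exp_iff.2 h.hβ)
  have hv : vJ (D := D) β 1 = fun _ => Real.exp β - 1 := by
    funext e
    unfold vJ
    rw [mul_one, ite_self]
  have hsph : ∀ x : Site D, x ∈ sph D N ↔ x ∈ SB.box D N ∧ x ∉ SB.box D (N - 1) := by
    intro x
    unfold sph
    rw [mem_filter]
    refine and_congr_right fun hx => ?_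
    constructor
    · rintro (h1 | h1 | ⟨i, h1 | h1⟩)
      · exact DLS.not_box_of_coord hN (k := none) (by change (x.1).natAbs = N; omega)
      · exact DLS.not_box_of_coord hN (k := none) (by change (x.1).natAbs = N; omega)
      · exact DLS.not_box_of_coord hN (k := some i) (by change (x.2 i).natAbs = N; omega)
      · exact DLS.not_box_of_coord hN (k := some i) (by change (x.2 i).natAbs = N; omega)
    · intro h1
      obtain ⟨k, hk⟩ := DLS.sph_coord hN hx h1
      cases k with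
      | none =>
        change (x.1).natAbs = N at hk
        omega
      | some i =>
        change (x.2 i).natAbs = N at hk
        right; right
        exact ⟨i, by omega⟩
  have hE : edg (sph D N) = DLS.sphE D N := by
    ext e
    unfold DLS.sphE
    rw [mem_filter, DLS.mem_edg, DLS.mem_edg, hsph, hsph]
    tauto
  have hpos : 0 < (lat D).pr q (fun _ => Real.exp β - 1) (edg (SB.box D N))
      (fun ω => DLS.sphE D N ⊆ ω) := by
    refine lt_of_lt_of_le ?_ ((lat D).pr_le q _ hq0 (fun _ => hv0.le) _ (fun ω => ω = edg (SB.box D N))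
      _ fun ω _ hω => ?_)
    · unfold Gr.pr
      refine div_pos ?_ ((lat D).zz_pos q _ hq0 (fun _ => hv0.le) _)
      refine sum_pos' (fun ω _ => (lat D).wt_nonneg q _ hq0 (fun _ => hv0.le) ω)
        ⟨edg (SB.box D N), (@Finset.mem_filter _ _ (_) _ _).2 ⟨mem_powerset_self _, rfl⟩, ?_⟩
      unfold Gr.wt
      exact mul_pos (prod_pos fun e _ => hv0) (pow_pos (inv_pos.2 hq0) _)
    · rw [hω]
      exact filter_subset _ _
  unfold DLS.wsp
  rw [div_le_iff₀ hpos]
  have h1 := hW N hN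
  unfold PP at h1
  rw [hE, hv] at h1
  refine le_trans ((lat D).pr_le q _ hq0 (fun _ => hv0.le) _ _ _ fun ω hω h2 => ?_) h1
  refine ⟨h2.1, ?_⟩
  obtain ⟨y, hy, hr⟩ := h2.2
  refine ⟨y, (hsph y).2 ⟨?_, hy⟩, hr⟩
  -- `y` is in the box
  rcases Relation.ReflTransGen.cases_tail hr with h3 | ⟨z, -, e, he, h3⟩
  · rw [h3]
    exact (DLS.mem_box_co _).2 fun k => by cases k <;> simp [DLS.co]
  · have h4 := (DLS.mem_edg e).1 (hω he)
    rcases h3 with h3 | h3
    · rw [← h3.2]; exact h4.2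
    · rw [← h3.1]; exact h4.1

theorem pw_subadd (h : Bas D q β) (hJ : 1 ≤ J) :
    Subadditive fun n : ℕ => -Real.log (GG D q β J 0 ((n : ℤ), 0)) := by
  intro m n
  have hJ0 : 0 ≤ J := by linarith
  have h1 : GG D q β J 0 ((n : ℤ), 0) = GG D q β J ((m : ℤ), 0) (((m + n : ℕ) : ℤ), 0) := by
    rw [← (Sy.tr D β J (m : ℤ)).GG_im q 0 ((n : ℤ), 0)]
    change GG D q β J ((0 : ℤ) + m, 0) ((n : ℤ) + m, 0) = _
    rw [zero_add, Nat.cast_add, add_comm (n : ℤ)]
  have h2 := GG_mul_le h hJ0 (0 : Site D) ((m : ℤ), 0) (((m + n : ℕ) : ℤ), 0)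
  rw [← h1] at h2
  have h3 := Real.log_le_log (mul_pos (pw_GG_pos h hJ _ _) (pw_GG_pos h hJ _ _)) h2
  rw [Real.log_mul (pw_GG_pos h hJ _ _).ne' (pw_GG_pos h hJ _ _).ne'] at h3
  simp only
  linarith

/-- The rate is a limit. -/
theorem tendsto_xiR (h : Bas D q β) (hJ : 1 ≤ J) :
    Filter.Tendsto (fun n : ℕ => -Real.log (GG D q β J 0 ((n : ℤ), 0)) / n) Filter.atTop
      (nhds (xiR D q β J)) := by
  have h0 : ∀ n : ℕ, 0 ≤ -Real.log (GG D q β J 0 ((n : ℤ), 0)) / n := fun n =>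
    div_nonneg (neg_nonneg.2 (Real.log_nonpos (pw_GG_pos h hJ _ _).le
      (GG_le_one h (by linarith) _ _))) (by positivity)
  have h1 := (pw_subadd h hJ).tendsto_lim ⟨0, by rintro _ ⟨n, rfl⟩; exact h0 n⟩
  convert h1 using 2
  unfold xiR Subadditive.lim iInf
  congr 1
  ext r
  simp only [Set.mem_range, Set.mem_image, Set.mem_Ici]
  constructor
  · rintro ⟨n, rfl⟩
    exact ⟨n + 1, by omega, by push_cast; rfl⟩
  · rintro ⟨n, hn, rfl⟩
    obtain ⟨m, rfl⟩ := Nat.exists_eq_succ_of_ne_zero (Nat.one_le_iff_ne_zero.1 hn)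
    exact ⟨m, by push_cast; rfl⟩

theorem xiR_one_pos (h : Bas D q β) : 0 < xiR D q β 1 := by
  obtain ⟨C, c, hc, hW⟩ := pw_wsp_le h
  have hq0 : 0 < q := by linarith [h.hq]
  have hv0 : 0 < Real.exp β - 1 := sub_pos.2 (Real.one_lt_exp_iff.2 h.hβ)
  have hv : vJ (D := D) β 1 = fun _ => Real.exp β - 1 := by
    funext e
    unfold vJ
    rw [mul_one, ite_self]
  have h1 : ∀ N : ℕ, 1 ≤ N → GG D q β 1 0 ((N : ℤ), 0) ≤ C * Real.exp (-(c * N)) := by
    intro N hN
    refine (ciSup_le fun Λ => ?_).trans (hW N hN)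
    have h2 := s1_origin h.hD hN h.hq hv0 (u := fun _ : Edge D => Real.exp β - 1)
      (fun _ => hv0.le) (fun _ _ => rfl) (edg Λ) (fun _ => True) fun _ => Iff.rfl
    have h3 : (lat D).pr q (fun _ : Edge D => Real.exp β - 1) (edg Λ) (fun _ => True) = 1 :=
      (lat D).pr_true q _ hq0 (fun _ => hv0.le) _
    rw [h3, mul_one] at h2
    refine le_trans ?_ h2
    unfold TT Gr.tp
    rw [hv]
    refine (lat D).pr_le q _ hq0 (fun _ => hv0.le) _ _ _ fun ω _ hω => ⟨?_, trivial⟩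
    refine ⟨((N : ℤ), 0), ?_, hω⟩
    rw [sub_zero]
    exact DLS.not_box_of_coord hN (k := none) (by change ((N : ℤ)).natAbs = N; omega)
  have hC : 0 < C := by
    have h2 := (pw_GG_pos h (le_refl (1 : ℝ)) 0 (((1 : ℕ) : ℤ), 0)).trans_le (h1 1 le_rfl)
    exact pos_of_mul_pos_left h2 (Real.exp_pos _).le
  have h2 : Tendsto (fun n : ℕ => c - Real.log C / n) atTop (𝓝 (c - 0)) :=
    tendsto_const_nhds.sub (tendsto_const_div_atTop_nhds_zero_nat (Real.log C))
  rw [sub_zero] at h2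
  refine hc.trans_le (le_of_tendsto_of_tendsto h2 (tendsto_xiR h le_rfl) ?_)
  filter_upwards [eventually_ge_atTop 1] with n hn
  have hn0 : (0 : ℝ) < n := by exact_mod_cast hn
  have h3 := Real.log_le_log (pw_GG_pos h (le_refl (1 : ℝ)) _ _) (h1 n hn)
  rw [Real.log_mul hC.ne' (Real.exp_pos _).ne', Real.log_exp] at h3
  rw [le_div_iff₀ hn0, sub_mul, div_mul_cancel₀ _ hn0.ne']
  linarith

theorem pw_pow_le {g C r : ℝ} (hr : 0 < r) (h : ∀ i : ℕ, g ^ i ≤ C * r ^ i) :
    g ≤ r := by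
  by_contra hgr
  have h1 : 1 < g / r := by
    rw [one_lt_div hr]
    exact not_le.1 hgr
  obtain ⟨i, hi⟩ := pow_unbounded_of_one_lt C h1
  have h2 := h i
  rw [div_pow, lt_div_iff₀ (pow_pos hr i)] at hi
  linarith

theorem pointwise (h : Bas D q β) (hJ : 1 ≤ J) (u w : Site D) :
    GG D q β J u w ≤ Real.exp (-(xiR D q β J * |(u.1 : ℝ) - w.1|)) := by
  have hJ0 : 0 ≤ J := by linarith
  -- the reflected point
  set k : ℤ := 2 * (w.1 - u.1) with hk
  have h1 : GG D q β J w (u.1 + k, u.2) = GG D q β J u w := by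
    rw [GG_comm u w, ← (Sy.rf D β J (2 * w.1)).GG_im q w u]
    change _ = GG D q β J (2 * w.1 - w.1, w.2) (2 * w.1 - u.1, u.2)
    rw [show (2 * w.1 - w.1, w.2) = w from Prod.ext (by simp; ring) rfl,
      show 2 * w.1 - u.1 = u.1 + k by rw [hk]; ring]
  have h2 : GG D q β J u w ^ 2 ≤ GG D q β J u (u.1 + k, u.2) := by
    rw [sq]
    nth_rewrite 2 [← h1]
    exact GG_mul_le h hJ0 _ _ _
  -- powers
  have h3 : ∀ i : ℕ, GG D q β J u (u.1 + k, u.2) ^ i ≤ GG D q β J u (u.1 + i * k, u.2) := by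
    intro i
    induction i with
    | zero =>
      rw [pow_zero, Nat.cast_zero, zero_mul, add_zero, pw_GG_self h hJ0]
    | succ i ih =>
      have h4 : GG D q β J u (u.1 + k, u.2) =
          GG D q β J (u.1 + i * k, u.2) (u.1 + (i + 1 : ℕ) * k, u.2) := by
        rw [← (Sy.tr D β J (i * k)).GG_im q u (u.1 + k, u.2)]
        change GG D q β J (u.1 + i * k, u.2) (u.1 + k + i * k, u.2) = _
        congr 2
        push_cast
        ring
      rw [pow_succ]
      nth_rewrite 2 [h4]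
      exact (mul_le_mul_of_nonneg_right ih (pw_GG_nonneg h hJ0 _ _)).trans (GG_mul_le h hJ0 _ _ _)
  -- comparison with the line
  have hline : ∀ n : ℤ, GG D q β J 0 (n, 0) ≤ Real.exp (-(xiR D q β J * |(n : ℝ)|)) := by
    intro n
    rcases le_total 0 n with hn | hn
    · obtain ⟨m, rfl⟩ := Int.eq_ofNat_of_zero_le hn
      have := pw_GG_line h hJ m
      rw [abs_of_nonneg (by positivity)]
      exact_mod_cast this
    · obtain ⟨m, hm⟩ := Int.eq_ofNat_of_zero_le (neg_nonneg.2 hn)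
      have h5 := pw_GG_line h hJ m
      have h6 : GG D q β J 0 (n, 0) = GG D q β J 0 ((m : ℤ), 0) := by
        rw [← (Sy.rf D β J 0).GG_im q 0 (n, 0)]
        change GG D q β J ((0 : ℤ) - 0, 0) (0 - n, 0) = _
        rw [sub_zero, zero_sub, hm]
        rfl
      rw [h6, abs_of_nonpos (by exact_mod_cast hn), show -(n : ℝ) = (m : ℝ) by exact_mod_cast hm]
      exact h5
  have hpos := pw_GG_pos h hJ (0 : Site D) u
  have h4 : ∀ i : ℕ, GG D q β J u (u.1 + k, u.2) ^ i ≤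
      (GG D q β J 0 u ^ 2)⁻¹ * Real.exp (-(xiR D q β J * |(k : ℝ)|)) ^ i := by
    intro i
    have h5 : GG D q β J (u.1 + i * k, u.2) (i * k, 0) = GG D q β J 0 u := by
      rw [GG_comm 0 u, ← (Sy.tr D β J (i * k)).GG_im q u 0]
      change _ = GG D q β J (u.1 + i * k, u.2) ((0 : ℤ) + i * k, 0)
      rw [zero_add]
    have h6 : GG D q β J 0 u * GG D q β J u (u.1 + i * k, u.2) * GG D q β J 0 u ≤
        GG D q β J 0 (i * k, 0) := by
      nth_rewrite 2 [← h5]
      exact (mul_le_mul_of_nonneg_right (GG_mul_le h hJ0 _ _ _) (pw_GG_nonneg h hJ0 _ _)).trans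
        (GG_mul_le h hJ0 _ _ _)
    have h7 := hline (i * k)
    have h8 : Real.exp (-(xiR D q β J * |((i * k : ℤ) : ℝ)|)) =
        Real.exp (-(xiR D q β J * |(k : ℝ)|)) ^ i := by
      rw [← Real.exp_nat_mul]
      congr 1
      push_cast
      rw [abs_mul, Nat.abs_cast]
      ring
    rw [h8] at h7
    rw [inv_mul_eq_div, le_div_iff₀ (pow_pos hpos 2)]
    calc GG D q β J u (u.1 + k, u.2) ^ i * GG D q β J 0 u ^ 2
        ≤ GG D q β J u (u.1 + i * k, u.2) * GG D q β J 0 u ^ 2 :=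
          mul_le_mul_of_nonneg_right (h3 i) (by positivity)
      _ = GG D q β J 0 u * GG D q β J u (u.1 + i * k, u.2) * GG D q β J 0 u := by ring
      _ ≤ _ := h6.trans h7
  have h5 := pw_pow_le (Real.exp_pos _) h4
  have h6 : GG D q β J u w ^ 2 ≤ Real.exp (-(xiR D q β J * |(u.1 : ℝ) - w.1|)) ^ 2 := by
    refine h2.trans (h5.trans (le_of_eq ?_))
    rw [← Real.exp_nat_mul]
    congr 1
    rw [hk]
    push_cast
    rw [abs_mul, abs_two, abs_sub_comm (w.1 : ℝ)]
    ring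
  exact le_of_sq_le_sq h6 (Real.exp_pos _).le

end basic

end Pool.Agent.DL
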