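import Mathlib

/-!
# Counting connected sets

In a graph in which every vertex has at most `Δ` neighbours, at most `Δ ^ (2 (m - 1))` connected
sets with `m` vertices contain a given vertex: such a set is the set of the vertices visited by a
walk with `2 (m - 1)` steps.
-/

set_option autoImplicit false

namespace Pool.Agent.DL

open Finset

section

variable {V : Type} [DecidableEq V]

/-- All points of `A` can be reached from `x` inside `A`. -/
def Cnn (nb : V → Finset V) (A : Finset V) (x : V) : Prop :=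
  x ∈ A ∧ ∀ y ∈ A, Relation.ReflTransGen (fun a b => b ∈ A ∧ b ∈ nb a) x y

/-- The end of the walk which starts at `x` and follows the word `w`. -/
def wgo {κ : Type} (f : V → κ → V) : V → List κ → V
  | x, [] => x
  | x, i :: w => wgo f (f x i) w

/-- The set of the vertices visited by the walk. -/
def wvis {κ : Type} (f : V → κ → V) : V → List κ → Finset V
  | x, [] => {x}
  | x, i :: w => insert x (wvis f (f x i) w)

theorem wvis_start {κ : Type} (f : V → κ → V) (x : V) (w : List κ) : x ∈ wvis f x w := by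
  cases w with
  | nil => exact mem_singleton_self x
  | cons i w => exact mem_insert_self _ _

theorem wvis_append {κ : Type} (f : V → κ → V) (x : V) (w w' : List κ) :
    wvis f x (w ++ w') = wvis f x w ∪ wvis f (wgo f x w) w' := by
  induction w generalizing x with
  | nil =>
    rw [List.nil_append]
    change wvis f x w' = {x} ∪ wvis f x w'
    rw [eq_comm, union_eq_right, singleton_subset_iff]
    exact wvis_start f x w'
  | cons i w ih =>
    rw [List.cons_append]
    change insert x (wvis f (f x i) (w ++ w')) = insert x (wvis f (f x i) w) ∪ _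
    rw [ih, insert_union]
    rfl

theorem wvis_split {κ : Type} (f : V → κ → V) (x : V) (w : List κ) {b : V}
    (hb : b ∈ wvis f x w) : ∃ w1 w2, w = w1 ++ w2 ∧ wgo f x w1 = b := by
  induction w generalizing x with
  | nil =>
    have h : b = x := mem_singleton.1 hb
    exact ⟨[], [], rfl, h.symm⟩
  | cons i w ih =>
    rcases mem_insert.1 hb with rfl | hb
    · exact ⟨[], i :: w, rfl, rfl⟩
    · obtain ⟨w1, w2, h1, h2⟩ := ih (f x i) hb
      exact ⟨i :: w1, w2, by rw [h1]; rfl, h2⟩

/-- A connected set is the set of the vertices visited by a walk. -/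
theorem exists_walk {κ : Type} (f : V → κ → V) {nb : V → Finset V}
    (hf : ∀ a, ∀ b ∈ nb a, ∃ i, f a i = b) (hs : ∀ a, ∀ b ∈ nb a, a ∈ nb b)
    {A : Finset V} {x : V} (h : Cnn nb A x) :
    ∃ w : List κ, w.length = 2 * (A.card - 1) ∧ wvis f x w = A := by
  have key : ∀ n : ℕ, n + 1 ≤ A.card →
      ∃ w : List κ, w.length = 2 * n ∧ wvis f x w ⊆ A ∧ (wvis f x w).card = n + 1 := by
    intro n
    induction n with
    | zero =>
      intro _
      exact ⟨[], rfl, singleton_subset_iff.2 h.1, card_singleton x⟩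
    | succ n ih =>
      intro hn
      obtain ⟨w, h1, h2, h3⟩ := ih (by omega)
      have h4 : ∃ a b, b ∈ wvis f x w ∧ a ∈ A ∧ a ∉ wvis f x w ∧ a ∈ nb b := by
        by_contra hcon
        push Not at hcon
        have h5 : ∀ y ∈ A, y ∈ wvis f x w := by
          intro y hy
          have h6 := h.2 y hy
          induction h6 with
          | refl => exact wvis_start f x w
          | tail _ h8 ih2 =>
            by_contra h9
            rename_i b c h7
            have hb : b ∈ A := by
              rcases Relation.ReflTransGen.cases_tail h7 with h10 | ⟨_, _, h10⟩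
              · exact h10 ▸ h.1
              · exact h10.1
            exact hcon c b (ih2 hb) h8.1 h9 h8.2
        have h6 : A ⊆ wvis f x w := h5
        have h7 := card_le_card h6
        omega
      obtain ⟨a, b, hb, haA, han, hab⟩ := h4
      obtain ⟨w1, w2, hw, hgo⟩ := wvis_split f x w hb
      obtain ⟨i, hi⟩ := hf b a hab
      obtain ⟨j, hj⟩ := hf a b (hs b a hab)
      have hv : wvis f x (w1 ++ (i :: j :: w2)) = insert a (wvis f x w) := by
        rw [wvis_append, hw, wvis_append, hgo]
        change wvis f x w1 ∪ insert b (insert (f b i) (wvis f (f (f b i) j) w2)) =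
          insert a (wvis f x w1 ∪ wvis f b w2)
        rw [hi, hj]
        have hb2 : b ∈ wvis f b w2 := wvis_start f b w2
        ext z
        simp only [mem_union, mem_insert]
        constructor
        · rintro (h | h | h | h)
          · exact Or.inr (Or.inl h)
          · exact Or.inr (Or.inr (h ▸ hb2))
          · exact Or.inl h
          · exact Or.inr (Or.inr h)
        · rintro (h | h | h)
          · exact Or.inr (Or.inr (Or.inl h))
          · exact Or.inl h
          · exact Or.inr (Or.inr (Or.inr h))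
      refine ⟨w1 ++ (i :: j :: w2), ?_, ?_, ?_⟩
      · have : (w1 ++ w2).length = 2 * n := by rw [← hw]; exact h1
        rw [List.length_append] at this
        rw [List.length_append, List.length_cons, List.length_cons]
        omega
      · rw [hv]
        exact insert_subset haA h2
      · rw [hv, card_insert_of_notMem han, h3]
  have hpos : 0 < A.card := card_pos.2 ⟨x, h.1⟩
  obtain ⟨w, h1, h2, h3⟩ := key (A.card - 1) (by omega)
  exact ⟨w, h1, eq_of_subset_of_card_le h2 (by omega)⟩

/-- **Number of connected sets.** -/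
theorem card_cnn {nb : V → Finset V} (hs : ∀ a, ∀ b ∈ nb a, a ∈ nb b) {Δ : ℕ}
    (hΔ : ∀ a, (nb a).card ≤ Δ) (x : V) (m : ℕ) (S : Finset (Finset V))
    (hS : ∀ A ∈ S, A.card = m ∧ Cnn nb A x) : S.card ≤ Δ ^ (2 * (m - 1)) := by
  rcases Nat.eq_zero_or_pos Δ with h0 | hpos
  · subst h0
    have hnb : ∀ a, nb a = ∅ := fun a => card_eq_zero.1 (Nat.le_zero.1 (hΔ a))
    have h1 : ∀ A ∈ S, A = {x} := by
      intro A hA
      obtain ⟨-, hxA, h2⟩ := hS A hA
      refine eq_singleton_iff_unique_mem.2 ⟨hxA, fun y hy => ?_⟩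
      rcases Relation.ReflTransGen.cases_tail (h2 y hy) with h3 | ⟨b, _, h4⟩
      · exact h3
      · rw [hnb] at h4
        exact absurd h4.2 (notMem_empty _)
    rcases S.eq_empty_or_nonempty with rfl | ⟨A, hA⟩
    · simp
    · have h2 : S ⊆ {{x}} := fun B hB => mem_singleton.2 (h1 B hB)
      have h3 : m = 1 := by
        rw [← (hS A hA).1, h1 A hA, card_singleton]
      subst h3
      simpa using card_le_card h2
  · have hex : ∀ a, ∃ g : Fin Δ → V, ∀ b ∈ nb a, ∃ i, g i = b := by
      intro a
      let l := (nb a).toList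
      refine ⟨fun i => l.getD i x, fun b hb => ?_⟩
      have hb' : b ∈ l := mem_toList.2 hb
      obtain ⟨i, hi, hbi⟩ := List.mem_iff_getElem.1 hb'
      have hlen : l.length = (nb a).card := length_toList _
      refine ⟨⟨i, by have := hΔ a; omega⟩, ?_⟩
      change l.getD i x = b
      rw [List.getD_eq_getElem _ _ hi, hbi]
    choose f hf using hex
    have hw : ∀ A ∈ S, ∃ w : List.Vector (Fin Δ) (2 * (m - 1)), wvis f x w.1 = A := by
      intro A hA
      obtain ⟨w, h1, h2⟩ := exists_walk f hf hs (hS A hA).2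
      exact ⟨⟨w, by rw [h1, (hS A hA).1]⟩, h2⟩
    have : Nonempty (List.Vector (Fin Δ) (2 * (m - 1))) :=
      ⟨List.Vector.replicate _ ⟨0, hpos⟩⟩
    choose! g hg using hw
    have hinj : Set.InjOn g S := by
      intro A hA B hB h
      rw [← hg A hA, ← hg B hB, h]
    calc S.card ≤ (univ : Finset (List.Vector (Fin Δ) (2 * (m - 1)))).card :=
          card_le_card_of_injOn g (fun _ _ => mem_univ _) hinj
      _ = Δ ^ (2 * (m - 1)) := by rw [card_univ, card_vector, Fintype.card_fin]

/-- The finite set of the connected sets with `m` points containing `x`. -/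
theorem finite_cnn {nb : V → Finset V} (hs : ∀ a, ∀ b ∈ nb a, a ∈ nb b) (x : V) (m : ℕ) {Δ : ℕ}
    (hΔ : ∀ a, (nb a).card ≤ Δ) : {A : Finset V | A.card = m ∧ Cnn nb A x}.Finite := by
  by_contra h
  obtain ⟨S, hS, hc⟩ := Set.Infinite.exists_subset_card_eq h (Δ ^ (2 * (m - 1)) + 1)
  have := card_cnn hs hΔ x m S fun A hA => hS hA
  omega

/-- Weighted sums over connected sets. -/
theorem sum_cnn_le {nb : V → Finset V} (hs : ∀ a, ∀ b ∈ nb a, a ∈ nb b) {Δ : ℕ}
    (hΔ : ∀ a, (nb a).card ≤ Δ) (x : V) (S : Finset (Finset V))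
    (hS : ∀ A ∈ S, Cnn nb A x) {θ : ℝ} (hθ : 0 ≤ θ) (hθΔ : (Δ : ℝ) ^ 2 * θ ≤ 1 / 2) (m : ℕ)
    (hm : ∀ A ∈ S, m ≤ A.card) :
    ∑ A ∈ S, θ ^ A.card ≤ 2 * θ * (1 / 2) ^ (m - 1) := by
  have hpos : ∀ A ∈ S, 1 ≤ A.card := fun A hA => card_pos.2 ⟨x, (hS A hA).1⟩
  obtain ⟨M, hM⟩ : ∃ M, ∀ A ∈ S, A.card ≤ M := ⟨S.sup card, fun A hA => le_sup hA⟩
  have h1 : ∑ A ∈ S, θ ^ A.card =
      ∑ k ∈ Icc (max m 1) (max M (max m 1)), ∑ A ∈ S with A.card = k, θ ^ A.card := by
    rw [sum_fiberwise_of_maps_to]
    intro A hA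
    rw [mem_Icc]
    exact ⟨max_le (hm A hA) (hpos A hA), le_max_of_le_left (hM A hA)⟩
  have h2 : ∀ k, 1 ≤ k → ∑ A ∈ S with A.card = k, θ ^ A.card ≤ θ * (1 / 2) ^ (k - 1) := by
    intro k hk
    have h3 : ∑ A ∈ S with A.card = k, θ ^ A.card =
        ((S.filter fun A => A.card = k).card : ℝ) * θ ^ k := by
      rw [sum_congr rfl (g := fun _ => θ ^ k) fun A hA => by rw [(mem_filter.1 hA).2], sum_const,
        nsmul_eq_mul]
    have h4 := card_cnn hs hΔ x k (S.filter fun A => A.card = k) fun A hA =>
      ⟨(mem_filter.1 hA).2, hS A (mem_filter.1 hA).1⟩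
    have h5 : ((S.filter fun A => A.card = k).card : ℝ) ≤ (Δ : ℝ) ^ (2 * (k - 1)) := by
      exact_mod_cast h4
    have h6 : θ ^ k = θ * θ ^ (k - 1) := by
      rw [← pow_succ', Nat.sub_add_cancel hk]
    calc ∑ A ∈ S with A.card = k, θ ^ A.card
        = ((S.filter fun A => A.card = k).card : ℝ) * θ ^ k := h3
      _ ≤ (Δ : ℝ) ^ (2 * (k - 1)) * θ ^ k := mul_le_mul_of_nonneg_right h5 (pow_nonneg hθ k)
      _ = θ * ((Δ : ℝ) ^ 2 * θ) ^ (k - 1) := by rw [h6, pow_mul, mul_pow]; ring
      _ ≤ θ * (1 / 2) ^ (k - 1) := by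
          refine mul_le_mul_of_nonneg_left ?_ hθ
          exact pow_le_pow_left₀ (by positivity) hθΔ _
  have h7 : ∀ a b : ℕ, 1 ≤ a → ∑ k ∈ Icc a b, θ * (1 / 2 : ℝ) ^ (k - 1) ≤
      2 * θ * (1 / 2) ^ (a - 1) := by
    intro a b ha
    have h8 : ∀ n : ℕ, ∑ k ∈ Finset.range n, θ * (1 / 2 : ℝ) ^ (a + k - 1) ≤
        2 * θ * (1 / 2) ^ (a - 1) - 2 * θ * (1 / 2) ^ (a + n - 1) := by
      intro n
      induction n with
      | zero => simp
      | succ n ih =>
        rw [sum_range_succ]
        have h9 : (1 / 2 : ℝ) ^ (a + (n + 1) - 1) = (1 / 2) ^ (a + n - 1) * (1 / 2) := by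
          rw [← pow_succ]
          congr 1
          omega
        rw [h9]
        linarith
    have h10 : Icc a b = (Finset.range (b + 1 - a)).image fun k => a + k := by
      ext z
      simp only [mem_Icc, mem_image, mem_range]
      constructor
      · intro h
        exact ⟨z - a, by omega, by omega⟩
      · rintro ⟨k, hk, rfl⟩
        omega
    rw [h10, sum_image (fun _ _ _ _ h => Nat.add_left_cancel h)]
    refine (h8 _).trans ?_
    have : 0 ≤ 2 * θ * (1 / 2 : ℝ) ^ (a + (b + 1 - a) - 1) := by positivity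
    linarith
  rw [h1]
  refine (sum_le_sum fun k hk => h2 k ?_).trans ((h7 (max m 1) _ (le_max_right _ _)).trans ?_)
  · exact (le_max_right m 1).trans (mem_Icc.1 hk).1
  · refine mul_le_mul_of_nonneg_left ?_ (by positivity)
    refine pow_le_pow_of_le_one (by norm_num) (by norm_num) ?_
    have := le_max_left m 1
    omega

end

end Pool.Agent.DL
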