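import Pool.Agent.DL.Wd

/-!
# Bad blocks
-/

set_option autoImplicit false
set_option linter.unusedSectionVars false

namespace Pool.Agent.DL

open Finset
open Pool.Agent.DLS (co mem_box_co wsp)

/-- The enlarged block `R j + [-R, 2R)^(D+1)`. -/
def bst {D : ℕ} (R : ℕ) (j x : Site D) : Prop :=
  ((R : ℤ) * j.1 - R ≤ x.1 ∧ x.1 < R * j.1 + 2 * R) ∧
    ∀ i, (R : ℤ) * j.2 i - R ≤ x.2 i ∧ x.2 i < R * j.2 i + 2 * R

/-- The block `R j + [0, R)^(D+1)`. -/
def bin {D : ℕ} (R : ℕ) (j x : Site D) : Prop :=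
  ((R : ℤ) * j.1 ≤ x.1 ∧ x.1 < R * j.1 + R) ∧
    ∀ i, (R : ℤ) * j.2 i ≤ x.2 i ∧ x.2 i < R * j.2 i + R

/-- There is a path inside the enlarged block from the block to the boundary of the enlarged
block. -/
def bad {D : ℕ} (R : ℕ) (j : Site D) (ω : Finset (Edge D)) : Prop :=
  ∃ x y, bin R j x ∧ bst R j y ∧
    (y.1 = R * j.1 - R ∨ y.1 = R * j.1 + 2 * R - 1 ∨
      ∃ i, y.2 i = R * j.2 i - R ∨ y.2 i = R * j.2 i + 2 * R - 1) ∧
    ∃ ω' ⊆ ω, (∀ e ∈ ω', bst R j ((lat D).s e) ∧ bst R j ((lat D).t e)) ∧ (lat D).Rch ω' x y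

variable {D : ℕ}

theorem bin_co {R : ℕ} (j x : Site D) : bin R j x ↔ x ∈ blk D R j := by
  rw [mem_blk]
  unfold bin
  constructor
  · rintro ⟨h1, h2⟩ k
    cases k with
    | none => exact h1
    | some i => exact h2 i
  · intro h
    exact ⟨h none, fun i => h (some i)⟩

theorem bst_co {R : ℕ} (j x : Site D) : bst R j x ↔
    ∀ k, (R : ℤ) * co j k - R ≤ co x k ∧ co x k < R * co j k + 2 * R := by
  unfold bst
  constructor
  · rintro ⟨h1, h2⟩ k
    cases k with
    | none => exact h1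
    | some i => exact h2 i
  · intro h
    exact ⟨h none, fun i => h (some i)⟩

theorem Bad_of_bad {R : ℕ} (hR : 1 ≤ R) {j : Site D} {ω : Finset (Edge D)} (h : bad R j ω) :
    Bad D R j ω := by
  obtain ⟨x, y, hx, hy, hbd, ω', hω, -, hr⟩ := h
  refine ⟨x, (bin_co j x).1 hx, y, ?_, DLS.ex_rch_mono hω hr⟩
  have h1 : ∃ k, co y k = R * co j k - R ∨ co y k = R * co j k + 2 * R - 1 := by
    rcases hbd with h | h | ⟨i, h⟩
    · exact ⟨none, Or.inl h⟩
    · exact ⟨none, Or.inr h⟩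
    · exact ⟨some i, h⟩
  obtain ⟨k, hk⟩ := h1
  have h2 := (mem_blk j x).1 ((bin_co j x).1 hx) k
  rw [mem_box_co]
  push Not
  refine ⟨k, ?_⟩
  have hsub : co (y - x) k = co y k - co x k := by
    cases k <;> rfl
  rw [hsub]
  omega

/-- Blocks with disjoint enlarged blocks which do not meet the line are bad with small
probability. -/
theorem bad_prod {D : ℕ} {q β : ℝ} (h : Bas D q β) :
    ∃ C c : ℝ, 0 < C ∧ 0 < c ∧ ∀ R : ℕ, 2 ≤ R → ∀ (J : ℝ), 0 ≤ J → ∀ (Λ : Finset (Site D))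
      (S : Finset (Site D)), (∀ j ∈ S, ∀ j' ∈ S, j ≠ j' → ∀ x, ¬ (bst R j x ∧ bst R j' x)) →
      (∀ j ∈ S, ∀ x, bst R j x → x.2 ≠ 0) →
      PP D q β J Λ (fun ω => ∀ j ∈ S, bad R j ω) ≤ (C * R ^ (D + 1) * Real.exp (-(c * R))) ^ S.card := by
  have hq0 : 0 < q := lt_of_lt_of_le one_pos h.hq
  obtain ⟨C, c, hc, hw⟩ := (WD_iff hq0 h.hβ).1 h.wd
  have hv : 0 < Real.exp β - 1 := by
    have := Real.add_one_lt_exp h.hβ.ne'
    linarith [h.hβ]
  refine ⟨|C| + 1, c, by positivity, hc, fun R hR J hJ Λ S hS hline => ?_⟩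
  have hu : ∀ e : Edge D, 0 ≤ vJ β J e := by
    intro e
    unfold vJ
    split_ifs
    · have := Real.one_le_exp (mul_nonneg h.hβ.le hJ)
      linarith
    · exact hv.le
  have huv : ∀ e : Edge D, ¬ OnL e → vJ β J e = Real.exp β - 1 := by
    intro e he
    unfold vJ
    rw [if_neg he]
  have hR1 : (1 : ℤ) ≤ R := by omega
  have hfar : ∀ i ∈ S, ∀ j ∈ S, i ≠ j → ∃ k, 3 ≤ (co i k - co j k).natAbs := by
    intro i hi j hj hij
    by_contra hcon
    push Not at hcon
    let x : Site D := ((R : ℤ) * max (co i none) (co j none) - R,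
      fun k => (R : ℤ) * max (co i (some k)) (co j (some k)) - R)
    have hx : ∀ k, co x k = (R : ℤ) * max (co i k) (co j k) - R := by
      intro k
      cases k <;> rfl
    refine hS i hi j hj hij x ⟨(bst_co i x).2 fun k => ?_, (bst_co j x).2 fun k => ?_⟩
    · rw [hx]
      have h1 := hcon k
      rcases le_total (co i k) (co j k) with h2 | h2
      · rw [max_eq_right h2]
        have h3 : (R : ℤ) * co i k ≤ R * co j k := mul_le_mul_of_nonneg_left h2 (by omega)
        have h4 : (R : ℤ) * co j k ≤ R * (co i k + 2) :=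
          mul_le_mul_of_nonneg_left (by omega) (by omega)
        have h5 : (R : ℤ) * (co i k + 2) = R * co i k + 2 * R := by ring
        omega
      · rw [max_eq_left h2]
        omega
    · rw [hx]
      have h1 := hcon k
      rcases le_total (co i k) (co j k) with h2 | h2
      · rw [max_eq_right h2]
        omega
      · rw [max_eq_left h2]
        have h3 : (R : ℤ) * co j k ≤ R * co i k := mul_le_mul_of_nonneg_left h2 (by omega)
        have h4 : (R : ℤ) * co i k ≤ R * (co j k + 2) :=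
          mul_le_mul_of_nonneg_left (by omega) (by omega)
        have h5 : (R : ℤ) * (co j k + 2) = R * co j k + 2 * R := by ring
        omega
  have hl : ∀ j ∈ S, ∃ i : Fin D, 2 ≤ (j.2 i).natAbs := by
    intro j hj
    by_contra hcon
    push Not at hcon
    refine hline j hj ((R : ℤ) * j.1, 0) ⟨⟨by dsimp only; omega, by dsimp only; omega⟩,
      fun i => ?_⟩ rfl
    have h1 := hcon i
    change (R : ℤ) * j.2 i - R ≤ 0 ∧ (0 : ℤ) < R * j.2 i + 2 * R
    have h2 : (R : ℤ) * j.2 i ≤ R * 1 := mul_le_mul_of_nonneg_left (by omega) (by omega)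
    have h3 : (R : ℤ) * (-1) ≤ R * j.2 i := mul_le_mul_of_nonneg_left (by omega) (by omega)
    omega
  have h1 := sz1 h.hD (R := R) (by omega) h.hq hv hu huv (edg Λ) S hfar hl
  have h2 : PP D q β J Λ (fun ω => ∀ j ∈ S, bad R j ω) ≤
      (lat D).pr q (vJ β J) (edg Λ) (fun ω => ∀ j ∈ S, Bad D R j ω) := by
    classical
    unfold PP
    rw [s1_pr_eq, s1_pr_eq, div_le_div_iff_of_pos_right (s1_zz_pos (lat D) hq0 hu _)]
    refine sum_le_sum fun ω _ => ?_
    by_cases hb : ∀ j ∈ S, bad R j ω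
    · rw [if_pos hb, if_pos fun j hj => Bad_of_bad (by omega) (hb j hj)]
    · rw [if_neg hb]
      split_ifs
      · exact s1_wt_nonneg (lat D) hq0 hu ω
      · exact le_refl _
  refine (h2.trans h1).trans (pow_le_pow_left₀ ?_ ?_ _)
  · have hw0 : 0 ≤ wsp D q (Real.exp β - 1) R := by
      have hW := s1_wt_nonneg (lat D) hq0 (u := fun _ => Real.exp β - 1) fun _ => hv.le
      unfold wsp Gr.pr
      exact div_nonneg (div_nonneg (sum_nonneg fun _ _ => hW _)
        (s1_zz_pos (lat D) hq0 (u := fun _ => Real.exp β - 1) (fun _ => hv.le) _).le)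
        (div_nonneg (sum_nonneg fun _ _ => hW _)
        (s1_zz_pos (lat D) hq0 (u := fun _ => Real.exp β - 1) (fun _ => hv.le) _).le)
    positivity
  · have h3 := hw R (by omega)
    have h4 : C * Real.exp (-(c * R)) ≤ (|C| + 1) * Real.exp (-(c * R)) :=
      mul_le_mul_of_nonneg_right (by linarith [le_abs_self C]) (Real.exp_pos _).le
    calc (R : ℝ) ^ (D + 1) * wsp D q (Real.exp β - 1) R
        ≤ (R : ℝ) ^ (D + 1) * ((|C| + 1) * Real.exp (-(c * R))) :=
          mul_le_mul_of_nonneg_left (h3.trans h4) (by positivity)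
      _ = (|C| + 1) * R ^ (D + 1) * Real.exp (-(c * R)) := by ring

end Pool.Agent.DL
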