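import Pool.Agent.DL.FKB
import Pool.Agent.DL.Anim
import Pool.Agent.DL.Sz1

/-!
# The size of clusters in a slab

If the probability that all the blocks of a separated family are bad is at most `δ ^ (number)`, with
a small `δ`, for the blocks away from the line, then the size of a cluster in a slab with `s + 1`
heights has an exponential tail beyond a multiple of `s + 1`.
-/

set_option autoImplicit false
set_option linter.unusedSectionVars false

namespace Pool.Agent.DL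

open Finset

namespace Sz2

/-! ### Blocks -/

/-- The block of a site. -/
def ix {D : ℕ} (R : ℕ) (x : Site D) : Site D := (x.1 / (R : ℤ), fun i => x.2 i / (R : ℤ))

/-- The enlarged block. -/
noncomputable def star {D : ℕ} (R : ℕ) (j : Site D) : Finset (Site D) :=
  Finset.Icc ((R : ℤ) * (j.1 - 1)) ((R : ℤ) * (j.1 + 2) - 1) ×ˢ
    Finset.Icc (fun i => (R : ℤ) * (j.2 i - 1)) (fun i => (R : ℤ) * (j.2 i + 2) - 1)

/-! ### Geometry -/

section Geo

variable {D : ℕ}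

theorem mem_star {R : ℕ} {j x : Site D} : x ∈ star R j ↔
    ((R : ℤ) * (j.1 - 1) ≤ x.1 ∧ x.1 ≤ (R : ℤ) * (j.1 + 2) - 1) ∧
      ∀ i, (R : ℤ) * (j.2 i - 1) ≤ x.2 i ∧ x.2 i ≤ (R : ℤ) * (j.2 i + 2) - 1 := by
  unfold star
  rw [mem_product, mem_Icc, mem_Icc, Pi.le_def, Pi.le_def]
  constructor
  · rintro ⟨h1, h2, h3⟩
    exact ⟨h1, fun i => ⟨h2 i, h3 i⟩⟩
  · rintro ⟨h1, h2⟩
    exact ⟨h1, fun i => (h2 i).1, fun i => (h2 i).2⟩

theorem ediv_bounds {R : ℕ} (hR : 0 < R) (m : ℤ) :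
    (R : ℤ) * (m / R) ≤ m ∧ m ≤ (R : ℤ) * (m / R + 1) - 1 := by
  have hR' : (0 : ℤ) < R := by exact_mod_cast hR
  have h1 := Int.mul_ediv_add_emod m R
  have h2 := Int.emod_nonneg m hR'.ne'
  have h3 := Int.emod_lt_of_pos m hR'
  constructor
  · linarith
  · rw [mul_add, mul_one]
    linarith

theorem mem_star_ix {R : ℕ} (hR : 0 < R) (x : Site D) : x ∈ star R (ix R x) := by
  have hR' : (0 : ℤ) < R := by exact_mod_cast hR
  rw [mem_star]
  constructor
  · obtain ⟨h1, h2⟩ := ediv_bounds hR x.1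
    change (R : ℤ) * (x.1 / R - 1) ≤ x.1 ∧ x.1 ≤ (R : ℤ) * (x.1 / R + 2) - 1
    constructor <;> nlinarith
  · intro i
    obtain ⟨h1, h2⟩ := ediv_bounds hR (x.2 i)
    change (R : ℤ) * (x.2 i / R - 1) ≤ x.2 i ∧ x.2 i ≤ (R : ℤ) * (x.2 i / R + 2) - 1
    constructor <;> nlinarith

theorem dist1_dir (y : Site D) (k : Option (Fin D)) : SB.dist1 y (y + SB.dir (k, true)) = 1 := by
  unfold SB.dist1
  rcases k with _ | i
  · simp [SB.dir]
  · simp only [SB.dir, Prod.fst_add, Prod.snd_add, add_zero, sub_self, Int.natAbs_zero, zero_add,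
      Pi.add_apply, sub_add_cancel_left, Int.natAbs_neg]
    rw [Finset.sum_eq_single i]
    · simp
    · intro b _ hb
      rw [Pi.single_eq_of_ne hb]
      rfl
    · intro h
      exact absurd (mem_univ _) h

theorem dist1_symm (x y : Site D) : SB.dist1 x y = SB.dist1 y x := by
  unfold SB.dist1
  congr 1
  · omega
  · exact Finset.sum_congr rfl fun i _ => by omega

theorem dist1_step {ω : Finset (Edge D)} {y z : Site D} (h : (lat D).Step ω y z) :
    SB.dist1 y z = 1 := by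
  obtain ⟨e, _, ⟨h1, h2⟩ | ⟨h1, h2⟩⟩ := h
  · rw [← h1, ← h2]
    exact dist1_dir _ _
  · rw [← h1, ← h2, dist1_symm]
    exact dist1_dir _ _

theorem mem_star_iff {R : ℕ} {j x : Site D} : x ∈ star R j ↔ bst R j x := by
  rw [mem_star]
  unfold bst
  constructor
  · rintro ⟨⟨h1, h2⟩, h3⟩
    exact ⟨⟨by linarith, by linarith⟩, fun i => ⟨by linarith [(h3 i).1], by linarith [(h3 i).2]⟩⟩
  · rintro ⟨⟨h1, h2⟩, h3⟩
    refine ⟨⟨by linarith, ?_⟩, fun i => ⟨by linarith [(h3 i).1], ?_⟩⟩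
    · have h4 : x.1 + 1 ≤ (R : ℤ) * j.1 + 2 * R := h2
      linarith
    · have h4 : x.2 i + 1 ≤ (R : ℤ) * j.2 i + 2 * R := (h3 i).2
      linarith

theorem bin_ix {R : ℕ} (hR : 0 < R) (x : Site D) : bin R (ix R x) x := by
  have key : ∀ m : ℤ, (R : ℤ) * (m / R) ≤ m ∧ m < R * (m / R) + R := by
    intro m
    obtain ⟨h1, h2⟩ := ediv_bounds hR m
    refine ⟨h1, ?_⟩
    rw [mul_add, mul_one] at h2
    linarith
  exact ⟨key x.1, fun i => key (x.2 i)⟩

theorem near_of_step {ω : Finset (Edge D)} {y z : Site D} (h : (lat D).Step ω y z) :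
    (y.1 - z.1).natAbs ≤ 1 ∧ ∀ i, (y.2 i - z.2 i).natAbs ≤ 1 := by
  have h1 := dist1_step h
  unfold SB.dist1 at h1
  refine ⟨by omega, fun i => ?_⟩
  have h2 : (y.2 i - z.2 i).natAbs ≤ ∑ i, (y.2 i - z.2 i).natAbs :=
    Finset.single_le_sum (f := fun i => (y.2 i - z.2 i).natAbs) (fun _ _ => Nat.zero_le _)
      (mem_univ i)
  omega

theorem bdry_of {R : ℕ} {j a b : Site D} (ha : a ∈ star R j) (hb : b ∉ star R j)
    (h : (a.1 - b.1).natAbs ≤ 1 ∧ ∀ i, (a.2 i - b.2 i).natAbs ≤ 1) :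
    a.1 = R * j.1 - R ∨ a.1 = R * j.1 + 2 * R - 1 ∨
      ∃ i, a.2 i = R * j.2 i - R ∨ a.2 i = R * j.2 i + 2 * R - 1 := by
  rw [mem_star_iff] at ha hb
  by_contra hc
  rw [not_or, not_or] at hc
  obtain ⟨h1, h2, h3⟩ := hc
  refine hb ⟨⟨?_, ?_⟩, fun i => ?_⟩
  · have := ha.1.1
    have := h.1
    omega
  · have := ha.1.2
    have := h.1
    omega
  · have h4 := ha.2 i
    have h5 := h.2 i
    have h6 : ¬ (a.2 i = R * j.2 i - R ∨ a.2 i = R * j.2 i + 2 * R - 1) := fun h7 => h3 ⟨i, h7⟩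
    constructor <;> omega

theorem bad_of {R : ℕ} (hR : 0 < R) {ω : Finset (Edge D)} {x y : Site D} (h : (lat D).Rch ω x y)
    (hy : y ∉ star R (ix R x)) : bad R (ix R x) ω := by
  set F := ω.filter fun e => (lat D).s e ∈ star R (ix R x) ∧ (lat D).t e ∈ star R (ix R x) with hF
  by_contra hb
  have key : ∀ z, (lat D).Rch ω x z → z ∈ star R (ix R x) ∧ (lat D).Rch F x z := by
    intro z hz
    induction hz with
    | refl => exact ⟨mem_star_ix hR x, Relation.ReflTransGen.refl⟩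
    | @tail a b _ hab ih =>
      obtain ⟨h1, h2⟩ := ih
      have h3 : b ∈ star R (ix R x) := by
        by_contra h4
        refine hb ⟨x, a, bin_ix hR x, mem_star_iff.1 h1, bdry_of h1 h4 (near_of_step hab), F,
          filter_subset _ _, fun e he => ?_, h2⟩
        have h5 := (mem_filter.1 he).2
        exact ⟨mem_star_iff.1 h5.1, mem_star_iff.1 h5.2⟩
      refine ⟨h3, h2.tail ?_⟩
      obtain ⟨e, he, hc⟩ := hab
      refine ⟨e, ?_, hc⟩
      rw [hF, mem_filter]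
      rcases hc with ⟨h5, h6⟩ | ⟨h5, h6⟩
      · rw [h5, h6]
        exact ⟨he, h1, h3⟩
      · rw [h5, h6]
        exact ⟨he, h3, h1⟩
  exact hy (key y h).1

theorem nb_symm' (a b : Site D) (h : b ∈ SB.nb a) : a ∈ SB.nb b := by
  unfold SB.nb at h ⊢
  rw [mem_image] at h ⊢
  obtain ⟨⟨k, s⟩, -, rfl⟩ := h
  refine ⟨(k, !s), mem_univ _, ?_⟩
  have h1 : SB.dir (k, s) + SB.dir (k, !s) = (0 : Site D) := by
    rcases k with _ | i <;> rcases s with _ | _ <;>
      simp [SB.dir, ← Pi.single_add]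
  rw [add_assoc, h1, add_zero]

theorem nb_card' (a : Site D) : (SB.nb a).card ≤ 2 * (D + 1) := by
  unfold SB.nb
  refine card_image_le.trans ?_
  rw [card_univ, Fintype.card_prod, Fintype.card_option, Fintype.card_fin, Fintype.card_bool]
  omega

theorem ediv_succ {R : ℕ} (hR : 0 < R) (m : ℤ) : (m + 1) / (R : ℤ) = m / R ∨
    (m + 1) / (R : ℤ) = m / R + 1 := by
  obtain ⟨h1, h2⟩ := ediv_bounds hR m
  obtain ⟨h3, h4⟩ := ediv_bounds hR (m + 1)
  have hR' : (0 : ℤ) < R := by exact_mod_cast hR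
  have h5 : m / (R : ℤ) ≤ (m + 1) / (R : ℤ) := Int.ediv_le_ediv hR' (by omega)
  have h6 : (m + 1) / (R : ℤ) < m / R + 2 := by
    by_contra h7
    rw [not_lt] at h7
    nlinarith
  omega

theorem ix_dir {R : ℕ} (hR : 0 < R) (y : Site D) (k : Option (Fin D)) :
    ix R (y + SB.dir (k, true)) = ix R y ∨
      ix R (y + SB.dir (k, true)) = ix R y + SB.dir (k, true) := by
  rcases k with _ | i
  · have h0 : ∀ c : ℤ, ix R (y + SB.dir (none, true)) = ((y.1 + 1) / (R : ℤ), (ix R y).2) := by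
      intro _
      unfold ix SB.dir
      refine Prod.ext ?_ ?_
      · rfl
      · funext i
        simp
    rcases ediv_succ hR y.1 with h | h
    · left
      rw [h0 0, h]
      rfl
    · right
      rw [h0 0, h]
      refine Prod.ext rfl ?_
      funext i
      simp [SB.dir]
  · rcases ediv_succ hR (y.2 i) with h | h
    · left
      refine Prod.ext ?_ ?_
      · simp [ix, SB.dir]
      · funext j
        change (y.2 j + Pi.single (M := fun _ => ℤ) i 1 j) / (R : ℤ) = y.2 j / R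
        by_cases hj : j = i
        · subst hj
          rw [Pi.single_eq_same, h]
        · rw [Pi.single_eq_of_ne hj, add_zero]
    · right
      refine Prod.ext ?_ ?_
      · simp [ix, SB.dir]
      · funext j
        change (y.2 j + Pi.single (M := fun _ => ℤ) i 1 j) / (R : ℤ) =
          y.2 j / R + Pi.single (M := fun _ => ℤ) i 1 j
        by_cases hj : j = i
        · subst hj
          rw [Pi.single_eq_same, h]
        · rw [Pi.single_eq_of_ne hj, add_zero, add_zero]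

theorem ix_step {R : ℕ} (hR : 0 < R) {ω : Finset (Edge D)} {y z : Site D}
    (h : (lat D).Step ω y z) : ix R z = ix R y ∨ ix R z ∈ SB.nb (ix R y) := by
  have key : ∀ (y : Site D) (k : Option (Fin D)), ix R (y + SB.dir (k, true)) = ix R y ∨
      ix R (y + SB.dir (k, true)) ∈ SB.nb (ix R y) := by
    intro y k
    rcases ix_dir hR y k with h | h
    · exact Or.inl h
    · right
      rw [h]
      exact mem_image_of_mem _ (mem_univ _)
  obtain ⟨e, _, ⟨h1, h2⟩ | ⟨h1, h2⟩⟩ := h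
  · rw [← h1, ← h2]
    exact key _ _
  · rw [← h1, ← h2]
    rcases key e.1 e.2 with h3 | h3
    · exact Or.inl h3.symm
    · exact Or.inr (nb_symm' _ _ h3)

theorem card_ico (R : ℕ) (a : Site D) (c : ℕ) :
    (Finset.Icc a.1 (a.1 + c * R - 1) ×ˢ Finset.Icc a.2 (fun i => a.2 i + c * R - 1)).card =
      (c * R) ^ (D + 1) := by
  rw [card_product, Int.card_Icc, Pi.card_Icc]
  have h1 : ∀ m : ℤ, (m + c * R - 1 + 1 - m).toNat = c * R := by
    intro m
    have : m + c * R - 1 + 1 - m = ((c * R : ℕ) : ℤ) := by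
      push_cast
      ring
    rw [this, Int.toNat_natCast]
  rw [h1, Finset.prod_congr rfl fun i _ => by rw [Int.card_Icc, h1], Finset.prod_const, card_univ,
    Fintype.card_fin, pow_succ, mul_comm]

theorem card_star (R : ℕ) (j : Site D) : (star R j).card = (3 * R) ^ (D + 1) := by
  have h := card_ico R ((R : ℤ) * (j.1 - 1), fun i => (R : ℤ) * (j.2 i - 1)) 3
  rw [← h]
  unfold star
  congr 3
  · push_cast
    ring
  · funext i
    push_cast
    ring

theorem card_fiber {R : ℕ} (hR : 0 < R) (S : Finset (Site D)) (j : Site D) :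
    (S.filter fun x => ix R x = j).card ≤ R ^ (D + 1) := by
  have h := card_ico R ((R : ℤ) * j.1, fun i => (R : ℤ) * j.2 i) 1
  rw [one_mul] at h
  rw [← h]
  refine card_le_card fun x hx => ?_
  obtain ⟨-, hx⟩ := mem_filter.1 hx
  rw [mem_product, mem_Icc, mem_Icc, Pi.le_def, Pi.le_def]
  rw [← hx]
  obtain ⟨h1, h2⟩ := ediv_bounds hR x.1
  have h3 : ∀ i, (R : ℤ) * (x.2 i / R) ≤ x.2 i ∧ x.2 i ≤ (R : ℤ) * (x.2 i / R + 1) - 1 :=
    fun i => ediv_bounds hR (x.2 i)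
  refine ⟨⟨h1, ?_⟩, fun i => (h3 i).1, fun i => ?_⟩
  · change x.1 ≤ (R : ℤ) * (x.1 / R) + (1 : ℕ) * R - 1
    push_cast
    linarith
  · change x.2 i ≤ (R : ℤ) * (x.2 i / R) + (1 : ℕ) * R - 1
    push_cast
    linarith [(h3 i).2]


/-- The block is at distance at least `2` from the line of blocks. -/
def Off (j : Site D) : Prop := ∃ i, 1 < (j.2 i).natAbs

theorem off_star {R : ℕ} (hR : 0 < R) {j x : Site D} (hj : Off j) (hx : x ∈ star R j) :
    x.2 ≠ 0 := by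
  obtain ⟨i, hi⟩ := hj
  intro h0
  have h1 := (mem_star.1 hx).2 i
  rw [h0, Pi.zero_apply] at h1
  have hR' : (0 : ℤ) < R := by exact_mod_cast hR
  have h2 : 2 ≤ j.2 i ∨ j.2 i ≤ -2 := by omega
  rcases h2 with h2 | h2
  · nlinarith [h1.1]
  · nlinarith [h1.2]

/-- The residue class of a block. -/
def cls3 (j : Site D) : ZMod 3 × (Fin D → ZMod 3) := ((j.1 : ZMod 3), fun i => (j.2 i : ZMod 3))

theorem far3 {R : ℕ} {a b u : ℤ} (h : ((a : ℤ) : ZMod 3) = (b : ZMod 3)) (hab : a ≠ b)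
    (h1 : (R : ℤ) * (a - 1) ≤ u ∧ u ≤ (R : ℤ) * (a + 2) - 1)
    (h2 : (R : ℤ) * (b - 1) ≤ u ∧ u ≤ (R : ℤ) * (b + 2) - 1) : False := by
  have h3 : (3 : ℤ) ∣ a - b := by
    have h4 := (ZMod.intCast_eq_intCast_iff_dvd_sub b a 3).1 h.symm
    exact_mod_cast h4
  have hR' : (0 : ℤ) ≤ R := by positivity
  obtain ⟨c, hc⟩ := h3
  have h5 : c ≤ -1 ∨ 1 ≤ c := by
    rcases lt_trichotomy c 0 with h6 | h6 | h6
    · left; omega
    · subst h6
      exact absurd (by omega : a = b) hab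
    · right; omega
  rcases h5 with h5 | h5
  · have h6 : a + 2 ≤ b - 1 := by omega
    nlinarith [mul_le_mul_of_nonneg_left h6 hR', h1.2, h2.1]
  · have h6 : b + 2 ≤ a - 1 := by omega
    nlinarith [mul_le_mul_of_nonneg_left h6 hR', h1.1, h2.2]

theorem disj_star {R : ℕ} {a b : Site D} (h : cls3 a = cls3 b) (hab : a ≠ b) :
    Disjoint (star R a) (star R b) := by
  rw [Finset.disjoint_left]
  intro u hu hu'
  rw [mem_star] at hu hu'
  have h1 : (a.1 : ZMod 3) = (b.1 : ZMod 3) := congrArg Prod.fst h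
  have h2 : ∀ i, (a.2 i : ZMod 3) = (b.2 i : ZMod 3) := fun i => congrFun (congrArg Prod.snd h) i
  by_cases h3 : a.1 = b.1
  · have h4 : ∃ i, a.2 i ≠ b.2 i := by
      by_contra h5
      refine hab (Prod.ext h3 (funext fun i => ?_))
      by_contra h6
      exact h5 ⟨i, h6⟩
    obtain ⟨i, hi⟩ := h4
    exact far3 (h2 i) hi (hu.2 i) (hu'.2 i)
  · exact far3 h1 h3 hu.1 hu'.1

theorem exists_class (S : Finset (Site D)) : ∃ c : ZMod 3 × (Fin D → ZMod 3),
    S.card ≤ 3 ^ (D + 1) * (S.filter fun j => cls3 j = c).card := by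
  classical
  obtain ⟨c, -, hc⟩ := Finset.exists_max_image (univ : Finset (ZMod 3 × (Fin D → ZMod 3)))
    (fun c => (S.filter fun j => cls3 j = c).card) univ_nonempty
  refine ⟨c, ?_⟩
  have h1 := Finset.card_eq_sum_card_fiberwise (f := cls3) (s := S)
    (t := (univ : Finset (ZMod 3 × (Fin D → ZMod 3)))) (fun _ _ => mem_coe.2 (mem_univ _))
  have h2 := Finset.sum_le_card_nsmul (univ : Finset (ZMod 3 × (Fin D → ZMod 3)))
    (fun c => (S.filter fun j => cls3 j = c).card) _ hc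
  rw [h1]
  refine h2.trans (le_of_eq ?_)
  rw [card_univ, Fintype.card_prod, Fintype.card_fun, ZMod.card, Fintype.card_fin, smul_eq_mul,
    pow_succ]
  ring

theorem card_near {R : ℕ} (hR : 0 < R) (a : ℤ) (s : ℕ) (T : Finset (Site D))
    (hT : ∀ j ∈ T, a / (R : ℤ) ≤ j.1 ∧ j.1 ≤ (a + s) / (R : ℤ)) (hn : ∀ j ∈ T, ¬ Off j) :
    T.card ≤ 3 ^ D * (s + 1) := by
  have hR' : (0 : ℤ) < R := by exact_mod_cast hR
  have h1 : T ⊆ Finset.Icc (a / (R : ℤ)) (a / (R : ℤ) + s) ×ˢ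
      Finset.Icc (fun _ => (-1 : ℤ)) (fun _ => (1 : ℤ)) := by
    intro j hj
    have h2 := hT j hj
    have h3 : (a + s) / (R : ℤ) ≤ a / R + s := by
      have h4 : (a + s) / (R : ℤ) ≤ (a + s * R) / (R : ℤ) :=
        Int.ediv_le_ediv hR' (by nlinarith [Int.natCast_nonneg s])
      rwa [Int.add_mul_ediv_right _ _ hR'.ne'] at h4
    rw [mem_product, mem_Icc, mem_Icc, Pi.le_def, Pi.le_def]
    have h5 : ∀ i, (j.2 i).natAbs ≤ 1 := fun i => by
      by_contra h6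
      exact hn j hj ⟨i, not_le.1 h6⟩
    exact ⟨⟨h2.1, h2.2.trans h3⟩, fun i => by have := h5 i; omega, fun i => by
      have := h5 i; omega⟩
  refine (card_le_card h1).trans (le_of_eq ?_)
  rw [card_product, Int.card_Icc, Pi.card_Icc]
  have h6 : (a / (R : ℤ) + s + 1 - a / (R : ℤ)).toNat = s + 1 := by omega
  rw [h6, Finset.prod_congr rfl fun i _ => by rw [Int.card_Icc], Finset.prod_const, card_univ,
    Fintype.card_fin]
  have h7 : (1 + 1 - -1 : ℤ).toNat = 3 := rfl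
  rw [h7, mul_comm]

theorem mem_edg {Λ : Finset (Site D)} {e : Edge D} :
    e ∈ edg Λ ↔ (lat D).s e ∈ Λ ∧ (lat D).t e ∈ Λ := by
  unfold edg
  rw [mem_filter, mem_product]
  exact ⟨fun h => ⟨h.1.1, h.2⟩, fun h => ⟨⟨h.1, mem_univ _⟩, h.2⟩⟩

theorem step_mem {Λ : Finset (Site D)} {ω : Finset (Edge D)} (hω : ω ⊆ edg Λ) {y z : Site D}
    (h : (lat D).Step ω y z) : y ∈ Λ ∧ z ∈ Λ := by
  obtain ⟨e, he, ⟨h1, h2⟩ | ⟨h1, h2⟩⟩ := h
  · rw [← h1, ← h2]
    exact mem_edg.1 (hω he)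
  · rw [← h1, ← h2]
    exact (mem_edg.1 (hω he)).symm

theorem rch_mem_of {Λ : Finset (Site D)} {ω : Finset (Edge D)} (hω : ω ⊆ edg Λ) {x y : Site D}
    (hx : x ∈ Λ) (h : (lat D).Rch ω x y) : y ∈ Λ := by
  rcases Relation.ReflTransGen.cases_tail h with h1 | ⟨z, _, h2⟩
  · rw [h1]
    exact hx
  · exact (step_mem hω h2).2

theorem start_mem {Λ : Finset (Site D)} {ω : Finset (Edge D)} (hω : ω ⊆ edg Λ) {x y : Site D}
    (hxy : y ≠ x) (h : (lat D).Rch ω x y) : x ∈ Λ := by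
  rcases Relation.ReflTransGen.cases_head h with h1 | ⟨z, h2, _⟩
  · exact absurd h1.symm hxy
  · exact (step_mem hω h2).1

end Geo

section Size

variable {D : ℕ}

theorem sz_vJ_nonneg {β J : ℝ} (hβ : 0 ≤ β) (hJ : 0 ≤ J) (e : Edge D) : 0 ≤ vJ β J e := by
  unfold vJ
  split_ifs
  · have := Real.add_one_le_exp (β * J)
    have := mul_nonneg hβ hJ
    linarith
  · have := Real.add_one_le_exp β
    linarith

/-- All the blocks of a family are bad. -/
theorem pr_animal {q β : ℝ} (h : Bas D q β) {R : ℕ} (hR : 0 < R) {θ : ℝ} (hθ0 : 0 < θ)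
    (hθ1 : θ ≤ 1) {δ : ℝ} (hδ0 : 0 ≤ δ) (hδ : δ ≤ θ ^ (3 ^ (D + 1)))
    (hbad : ∀ (J : ℝ), 0 ≤ J → ∀ (Λ S : Finset (Site D)),
      (∀ j ∈ S, ∀ j' ∈ S, j ≠ j' → ∀ x, ¬ (bst R j x ∧ bst R j' x)) →
      (∀ j ∈ S, ∀ x, bst R j x → x.2 ≠ 0) →
      PP D q β J Λ (fun ω => ∀ j ∈ S, bad R j ω) ≤ δ ^ S.card)
    {J : ℝ} (hJ : 0 ≤ J) (Λ : Finset (Site D)) (a : ℤ) (s : ℕ) (T : Finset (Site D))
    (hT : ∀ j ∈ T, a / (R : ℤ) ≤ j.1 ∧ j.1 ≤ (a + s) / (R : ℤ)) :
    PP D q β J Λ (fun ω => ∀ j ∈ T, bad R j ω) ≤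
      (θ⁻¹) ^ (3 ^ D * (s + 1)) * θ ^ T.card := by
  classical
  have hq : 0 < q := lt_of_lt_of_le one_pos h.hq
  obtain ⟨c, hc⟩ := exists_class (T.filter Off)
  have h1 : PP D q β J Λ (fun ω => ∀ j ∈ T, bad R j ω) ≤
      PP D q β J Λ (fun ω => ∀ j ∈ (T.filter Off).filter fun j => cls3 j = c, bad R j ω) :=
    (lat D).pr_le q _ hq (sz_vJ_nonneg h.hβ.le hJ) _ _ _ fun ω _ h2 j hj =>
      h2 j (mem_filter.1 (mem_filter.1 hj).1).1
  have h2 := hbad J hJ Λ ((T.filter Off).filter fun j => cls3 j = c)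
    (fun j hj j' hj' hne x hx => by
      have h3 := (mem_filter.1 hj).2.trans (mem_filter.1 hj').2.symm
      exact Finset.disjoint_left.1 (disj_star h3 hne) (mem_star_iff.2 hx.1) (mem_star_iff.2 hx.2))
    (fun j hj x hx => off_star hR (mem_filter.1 (mem_filter.1 hj).1).2 (mem_star_iff.2 hx))
  have h3 : δ ^ ((T.filter Off).filter fun j => cls3 j = c).card ≤
      θ ^ (3 ^ (D + 1) * ((T.filter Off).filter fun j => cls3 j = c).card) := by
    rw [pow_mul]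
    exact pow_le_pow_left₀ hδ0 hδ _
  have h4 := pow_le_pow_of_le_one hθ0.le hθ1 hc
  have h5 : T.card ≤ (T.filter Off).card + 3 ^ D * (s + 1) := by
    rw [← card_filter_add_card_filter_not (s := T) Off]
    exact Nat.add_le_add_left (card_near hR a s _ (fun j hj => hT j (mem_filter.1 hj).1)
      fun j hj => (mem_filter.1 hj).2) _
  have h6 : θ ^ (T.filter Off).card = (θ⁻¹) ^ (3 ^ D * (s + 1)) *
      θ ^ ((T.filter Off).card + 3 ^ D * (s + 1)) := by
    rw [pow_add, inv_pow]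
    field_simp
  refine (h1.trans (h2.trans (h3.trans h4))).trans ?_
  rw [h6]
  exact mul_le_mul_of_nonneg_left (pow_le_pow_of_le_one hθ0.le hθ1 h5) (by positivity)

/-- A large cluster: all the blocks which it touches are bad. -/
theorem big_blocks {R : ℕ} (hR : 0 < R) {Λ : Finset (Site D)} {a : ℤ} {s : ℕ}
    (hΛ : ∀ x ∈ Λ, a ≤ x.1 ∧ x.1 ≤ a + s) {ω : Finset (Edge D)} (hω : ω ⊆ edg Λ) {x : Site D}
    {k : ℕ} (hk : (3 * R) ^ (D + 1) < k) (h : (lat D).big ω x k) :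
    ∃ T ∈ (Λ.image (ix R)).powerset, (Cnn SB.nb T (ix R x) ∧ k ≤ R ^ (D + 1) * T.card ∧
      ∀ j ∈ T, a / (R : ℤ) ≤ j.1 ∧ j.1 ≤ (a + s) / (R : ℤ)) ∧ ∀ j ∈ T, bad R j ω := by
  classical
  have hR' : (0 : ℤ) < R := by exact_mod_cast hR
  obtain ⟨A, hA1, hA2⟩ := h
  have h0 : 1 < A.card := by
    have : 1 ≤ (3 * R) ^ (D + 1) := Nat.one_le_pow _ _ (by omega)
    omega
  have hx : x ∈ Λ := by
    obtain ⟨y, hy, hne⟩ := Finset.exists_mem_ne h0 x
    exact start_mem hω hne (hA2 y hy)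
  have hcl : ∀ y, (lat D).Rch ω x y → y ∈ Λ := fun y hy => rch_mem_of hω hx hy
  set U := Λ.filter fun y => (lat D).Rch ω x y with hU
  have hAU : A ⊆ U := fun y hy => mem_filter.2 ⟨hcl y (hA2 y hy), hA2 y hy⟩
  refine ⟨U.image (ix R), ?_, ⟨?_, ?_, ?_⟩, ?_⟩
  · rw [mem_powerset]
    exact image_subset_image (filter_subset _ _)
  · refine ⟨mem_image_of_mem _ (mem_filter.2 ⟨hx, Relation.ReflTransGen.refl⟩), ?_⟩
    intro j hj
    obtain ⟨y, hy, rfl⟩ := mem_image.1 hj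
    have h1 := (mem_filter.1 hy).2
    clear hy hj
    induction h1 with
    | refl => exact Relation.ReflTransGen.refl
    | @tail b c hb hbc ih =>
      rcases ix_step hR hbc with h2 | h2
      · rw [h2]
        exact ih
      · refine ih.tail ⟨mem_image_of_mem _ (mem_filter.2 ⟨hcl c (hb.tail hbc), hb.tail hbc⟩), h2⟩
  · refine hA1.trans ((card_le_card hAU).trans ?_)
    have h1 := Finset.card_le_mul_card_image (f := ix R) U (R ^ (D + 1)) fun j _ =>
      card_fiber hR U j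
    exact h1
  · intro j hj
    obtain ⟨y, hy, rfl⟩ := mem_image.1 hj
    have h1 := hΛ y (mem_filter.1 hy).1
    exact ⟨Int.ediv_le_ediv hR' h1.1, Int.ediv_le_ediv hR' h1.2⟩
  · intro j hj
    obtain ⟨y, hy, rfl⟩ := mem_image.1 hj
    have h1 : ∃ z ∈ A, z ∉ star R (ix R y) := by
      by_contra h2
      have h3 : A ⊆ star R (ix R y) := by
        intro z hz
        by_contra h4
        exact h2 ⟨z, hz, h4⟩
      have h4 := card_le_card h3
      rw [card_star] at h4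
      omega
    obtain ⟨z, hz, hzs⟩ := h1
    refine bad_of hR (y := z) ?_ hzs
    exact (lat D).rch_trans ((lat D).rch_symm (mem_filter.1 hy).2) (hA2 z hz)

theorem exists_scale (C : ℝ) {c ε : ℝ} (hc : 0 < c) (hε : 0 < ε) (n : ℕ) :
    ∃ R : ℕ, 2 ≤ R ∧ C * R ^ n * Real.exp (-(c * R)) ≤ ε := by
  have h1 : Filter.Tendsto (fun R : ℕ => c * (R : ℝ)) Filter.atTop Filter.atTop :=
    Filter.Tendsto.const_mul_atTop hc tendsto_natCast_atTop_atTop
  have h2 := ((Real.tendsto_pow_mul_exp_neg_atTop_nhds_zero n).comp h1).const_mul (C / c ^ n)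
  rw [mul_zero] at h2
  have h3 := h2.eventually (gt_mem_nhds hε)
  obtain ⟨R, hR1, hR2⟩ := (h3.and (Filter.eventually_ge_atTop 2)).exists
  refine ⟨R, hR2, le_of_eq_of_le ?_ hR1.le⟩
  change _ = C / c ^ n * ((c * (R : ℝ)) ^ n * Real.exp (-(c * R)))
  rw [mul_pow]
  field_simp

end Size

end Sz2

open Sz2

/-- **The size of clusters in a slab.** -/
theorem size_slab {D : ℕ} {q β : ℝ} (h : Bas D q β) (Jm : ℝ) :
    ∃ C c : ℝ, 0 < C ∧ 0 < c ∧ ∀ (J : ℝ), 0 ≤ J → J ≤ Jm → ∀ (Λ : Finset (Site D)) (a : ℤ) (s : ℕ),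
      (∀ x ∈ Λ, a ≤ x.1 ∧ x.1 ≤ a + s) → ∀ (x : Site D) (k : ℕ),
      PP D q β J Λ (fun ω => (lat D).big ω x k) ≤ Real.exp (C * (s + 1) - c * k) := by
  classical
  have hq : 0 < q := lt_of_lt_of_le one_pos h.hq
  obtain ⟨C0, c0, hC0, hc0, hbad⟩ := bad_prod h
  set θ : ℝ := 1 / (8 * ((D : ℝ) + 1) ^ 2) with hθ
  have hD1 : (1 : ℝ) ≤ (D : ℝ) + 1 := by
    have : (0 : ℝ) ≤ D := Nat.cast_nonneg D
    linarith
  have hθ0 : 0 < θ := by
    rw [hθ]
    positivity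
  have hθ8 : θ ≤ 1 / 8 := by
    rw [hθ]
    refine one_div_le_one_div_of_le (by norm_num) ?_
    nlinarith
  have hθΔ : ((2 * (D + 1) : ℕ) : ℝ) ^ 2 * θ ≤ 1 / 2 := by
    rw [hθ]
    push_cast
    have h1 : (0 : ℝ) < (D : ℝ) + 1 := by linarith
    refine le_of_eq ?_
    field_simp
    norm_num
  obtain ⟨R, hR2, hRε⟩ := exists_scale C0 hc0 (pow_pos hθ0 (3 ^ (D + 1))) (D + 1)
  have hR : 0 < R := by omega
  have hRr : (0 : ℝ) < R := by exact_mod_cast hR
  set δ := C0 * (R : ℝ) ^ (D + 1) * Real.exp (-(c0 * R)) with hδ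
  have hδ0 : 0 ≤ δ := by
    rw [hδ]
    positivity
  set L := Real.log θ⁻¹ with hL
  have hL0 : 0 ≤ L := by
    refine Real.log_nonneg ?_
    rw [one_le_inv₀ hθ0]
    linarith
  have hl2 : 0 < Real.log 2 := Real.log_pos one_lt_two
  refine ⟨3 ^ D * L + 3 ^ (D + 1) * Real.log 2, Real.log 2 / R ^ (D + 1), by positivity,
    by positivity, ?_⟩
  intro J hJ _ Λ a s hΛ x k
  have hv := sz_vJ_nonneg (D := D) h.hβ.le hJ
  rcases Nat.lt_or_ge ((3 * R) ^ (D + 1)) k with hk | hk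
  · set 𝒯 := (Λ.image (ix R)).powerset.filter fun T => Cnn SB.nb T (ix R x) ∧
      k ≤ R ^ (D + 1) * T.card ∧ ∀ j ∈ T, a / (R : ℤ) ≤ j.1 ∧ j.1 ≤ (a + s) / (R : ℤ) with hT
    have h1 : PP D q β J Λ (fun ω => (lat D).big ω x k) ≤
        ∑ T ∈ 𝒯, PP D q β J Λ (fun ω => ∀ j ∈ T, bad R j ω) := by
      refine (lat D).pr_sum q _ hq hv _ _ 𝒯 (fun T ω => ∀ j ∈ T, bad R j ω) ?_
      intro ω hω hb
      obtain ⟨T, hT1, hT2, hT3⟩ := big_blocks hR hΛ hω hk hb
      exact ⟨T, mem_filter.2 ⟨hT1, hT2⟩, hT3⟩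
    have h2 : ∀ T ∈ 𝒯, PP D q β J Λ (fun ω => ∀ j ∈ T, bad R j ω) ≤
        (θ⁻¹) ^ (3 ^ D * (s + 1)) * θ ^ T.card := fun T hT' =>
      pr_animal h hR hθ0 (by linarith) hδ0 hRε (fun J hJ Λ S h3 h4 => hbad R hR2 J hJ Λ S h3 h4)
        hJ Λ a s T (mem_filter.1 hT').2.2.2
    set m := ⌈(k : ℝ) / R ^ (D + 1)⌉₊ with hm
    have h3 : ∑ T ∈ 𝒯, θ ^ T.card ≤ 2 * θ * (1 / 2) ^ (m - 1) := by
      refine sum_cnn_le (fun a b hb => nb_symm' a b hb) nb_card' (ix R x) 𝒯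
        (fun T hT' => (mem_filter.1 hT').2.1) hθ0.le hθΔ m fun T hT' => ?_
      rw [hm, Nat.ceil_le, div_le_iff₀ (by positivity), mul_comm]
      exact_mod_cast (mem_filter.1 hT').2.2.1
    have hk0 : 0 < k := by omega
    have hm1 : 1 ≤ m := by
      rw [hm, Nat.one_le_ceil_iff]
      have : (0 : ℝ) < k := by exact_mod_cast hk0
      positivity
    have h4 : 2 * θ * (1 / 2 : ℝ) ^ (m - 1) ≤ (1 / 2) ^ m := by
      have h5 : (1 / 2 : ℝ) ^ m = (1 / 2) ^ (m - 1) * (1 / 2) := by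
        rw [← pow_succ, Nat.sub_add_cancel hm1]
      rw [h5, mul_comm]
      exact mul_le_mul_of_nonneg_left (by linarith) (by positivity)
    have h6 : (θ⁻¹ : ℝ) ^ (3 ^ D * (s + 1)) = Real.exp (3 ^ D * L * (s + 1)) := by
      have h7 : (3 ^ D * L * ((s : ℝ) + 1)) = ((3 ^ D * (s + 1) : ℕ) : ℝ) * L := by
        push_cast
        ring
      rw [h7, Real.exp_nat_mul, hL, Real.exp_log (by positivity)]
    have h8 : (1 / 2 : ℝ) ^ m ≤ Real.exp (-(Real.log 2 / R ^ (D + 1) * k)) := by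
      have h9 : (1 / 2 : ℝ) ^ m = Real.exp (-((m : ℝ) * Real.log 2)) := by
        rw [Real.exp_neg, Real.exp_nat_mul, Real.exp_log two_pos, one_div, inv_pow]
      rw [h9, Real.exp_le_exp, neg_le_neg_iff]
      have h10 : (k : ℝ) / R ^ (D + 1) ≤ m := Nat.le_ceil _
      calc Real.log 2 / R ^ (D + 1) * k = (k : ℝ) / R ^ (D + 1) * Real.log 2 := by ring
        _ ≤ m * Real.log 2 := mul_le_mul_of_nonneg_right h10 hl2.le
    calc PP D q β J Λ (fun ω => (lat D).big ω x k)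
        ≤ ∑ T ∈ 𝒯, PP D q β J Λ (fun ω => ∀ j ∈ T, bad R j ω) := h1
      _ ≤ ∑ T ∈ 𝒯, (θ⁻¹) ^ (3 ^ D * (s + 1)) * θ ^ T.card := Finset.sum_le_sum h2
      _ = (θ⁻¹) ^ (3 ^ D * (s + 1)) * ∑ T ∈ 𝒯, θ ^ T.card := by rw [mul_sum]
      _ ≤ (θ⁻¹) ^ (3 ^ D * (s + 1)) * (1 / 2) ^ m :=
          mul_le_mul_of_nonneg_left (h3.trans h4) (by positivity)
      _ ≤ Real.exp (3 ^ D * L * (s + 1)) * Real.exp (-(Real.log 2 / R ^ (D + 1) * k)) := by
          rw [h6]
          exact mul_le_mul_of_nonneg_left h8 (Real.exp_pos _).le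
      _ = Real.exp (3 ^ D * L * (s + 1) - Real.log 2 / R ^ (D + 1) * k) := by
          rw [← Real.exp_add, sub_eq_add_neg]
      _ ≤ Real.exp ((3 ^ D * L + 3 ^ (D + 1) * Real.log 2) * (s + 1) -
            Real.log 2 / R ^ (D + 1) * k) := by
          rw [Real.exp_le_exp]
          have h11 : 0 ≤ 3 ^ (D + 1) * Real.log 2 * ((s : ℝ) + 1) := by positivity
          nlinarith
  · have h1 : PP D q β J Λ (fun ω => (lat D).big ω x k) ≤ 1 :=
      (lat D).pr_le_one q _ hq hv _ _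
    refine h1.trans (Real.one_le_exp ?_)
    have h2 : Real.log 2 / (R : ℝ) ^ (D + 1) * k ≤ 3 ^ (D + 1) * Real.log 2 := by
      have h3 : (k : ℝ) ≤ 3 ^ (D + 1) * (R : ℝ) ^ (D + 1) := by
        rw [← mul_pow]
        exact_mod_cast hk
      calc Real.log 2 / (R : ℝ) ^ (D + 1) * k
          ≤ Real.log 2 / (R : ℝ) ^ (D + 1) * (3 ^ (D + 1) * (R : ℝ) ^ (D + 1)) :=
            mul_le_mul_of_nonneg_left h3 (by positivity)
        _ = 3 ^ (D + 1) * Real.log 2 := by field_simp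
    have h4 : 0 ≤ 3 ^ D * L * ((s : ℝ) + 1) := by positivity
    have h5 : 3 ^ (D + 1) * Real.log 2 ≤ 3 ^ (D + 1) * Real.log 2 * ((s : ℝ) + 1) := by
      refine le_mul_of_one_le_right (by positivity) ?_
      have : (0 : ℝ) ≤ s := Nat.cast_nonneg s
      linarith
    nlinarith

end Pool.Agent.DL
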