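import Pool.Agent.DL.Csp
import Pool.Agent.DL.Pw
import Pool.Agent.DL.Sz2
import Pool.Agent.SB.KSa
import Pool.Agent.SB.Inv

/-!
# Decay in all directions
-/

set_option autoImplicit false
set_option linter.unusedSectionVars false

namespace Pool.Agent.DL

open Finset

/-! ### Distance and number of sites -/

theorem ad_step_dist1 {D : ℕ} {ω : Finset (Edge D)} {a b : Site D} (h : (lat D).Step ω a b) :
    SB.dist1 a b = 1 := by
  obtain ⟨e, -, ⟨h1, h2⟩ | ⟨h1, h2⟩⟩ := h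
  · rw [← h1, ← h2, SB.dist1_comm]
    exact SB.dist1_add_dir e.1 (e.2, true)
  · rw [← h1, ← h2]
    exact SB.dist1_add_dir e.1 (e.2, true)

theorem ad_rch_exists {D : ℕ} {ω : Finset (Edge D)} {x y : Site D}
    (h : (lat D).Rch ω x y) : ∀ m ≤ SB.dist1 x y, ∃ z, (lat D).Rch ω x z ∧ SB.dist1 x z = m := by
  unfold Gr.Rch at h
  induction h with
  | refl =>
    intro m hm
    refine ⟨x, Relation.ReflTransGen.refl, ?_⟩
    rw [SB.dist1_self] at hm ⊢
    omega
  | @tail b c hab hbc ih =>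
    intro m hm
    by_cases h : m ≤ SB.dist1 x b
    · exact ih m h
    · have h1 := SB.dist1_tri x b c
      rw [ad_step_dist1 hbc] at h1
      exact ⟨c, hab.tail hbc, by omega⟩

/-- A connected set of sites is larger than its diameter. -/
theorem dist1_lt_card {D : ℕ} {A : Finset (Site D)} {E : Finset (Edge D)}
    (h : (lat D).IsCl A E) {x y : Site D} (hx : x ∈ A) (hy : y ∈ A) : SB.dist1 x y < A.card := by
  have hmem : ∀ z, (lat D).Rch E x z → z ∈ A := by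
    intro z hz
    unfold Gr.Rch at hz
    induction hz with
    | refl => exact hx
    | tail _ hbc ih =>
      obtain ⟨e, he, ⟨_, h2⟩ | ⟨h1, _⟩⟩ := hbc
      · rw [← h2]; exact (h.2.1 e he).2
      · rw [← h1]; exact (h.2.1 e he).1
  have h1 : range (SB.dist1 x y + 1) ⊆ A.image (SB.dist1 x) := by
    intro m hm
    rw [mem_range] at hm
    obtain ⟨z, hz, hd⟩ := ad_rch_exists (h.2.2 x hx y hy) m (by omega)
    exact mem_image.2 ⟨z, hmem z hz, hd⟩
  have h2 := (card_le_card h1).trans card_image_le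
  rw [card_range] at h2
  omega

/-! ### Sums over clusters -/

theorem ad_cs_or {D : ℕ} {q β J : ℝ} (h : Bas D q β) (hJ : 0 ≤ J) (Λ : Finset (Site D))
    (P P1 P2 : Finset (Site D) → Finset (Edge D) → Prop)
    (hP : ∀ A E, A ⊆ Λ → E ⊆ edg Λ → (lat D).IsCl A E → P A E → P1 A E ∨ P2 A E) :
    cs D q β J Λ P ≤ cs D q β J Λ P1 + cs D q β J Λ P2 := by
  have h1 := cs_union h hJ Λ P (univ : Finset Bool) (fun b => if b then P1 else P2)
    (fun A E hA hE hc hp => by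
      rcases hP A E hA hE hc hp with h2 | h2
      · exact ⟨true, mem_univ _, by simpa using h2⟩
      · exact ⟨false, mem_univ _, by simpa using h2⟩)
  simpa using h1

/-- Large clusters in a slab. -/
theorem ad_cs_slab {D : ℕ} {q β J : ℝ} (h : Bas D q β) (hJ : 0 ≤ J) (C c : ℝ)
    (hs : ∀ (Λ : Finset (Site D)) (a : ℤ) (s : ℕ), (∀ x ∈ Λ, a ≤ x.1 ∧ x.1 ≤ a + s) →
      ∀ (x : Site D) (k : ℕ),
      PP D q β J Λ (fun ω => (lat D).big ω x k) ≤ Real.exp (C * (s + 1) - c * k))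
    (Λ : Finset (Site D)) (x : Site D) (hx : x ∈ Λ) (r k : ℕ) :
    cs D q β J Λ (fun A _ => x ∈ A ∧ (∀ z ∈ A, (z.1 - x.1).natAbs ≤ r) ∧ k ≤ A.card) ≤
      Real.exp (C * (2 * r + 1) - c * k) := by
  classical
  set Λ' : Finset (Site D) := Λ.filter fun z => (z.1 - x.1).natAbs ≤ r with hΛ'
  have hq0 : 0 < q := by linarith [h.hq]
  have hx' : x ∈ Λ' := by
    rw [hΛ', mem_filter]
    exact ⟨hx, by simp⟩
  have h0 : cs D q β J Λ (fun A _ => x ∈ A ∧ (∀ z ∈ A, (z.1 - x.1).natAbs ≤ r) ∧ k ≤ A.card) ≤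
      cs D q β J Λ (fun A _ => A ⊆ Λ' ∧ x ∈ A ∧ k ≤ A.card) := by
    refine cs_mono h hJ Λ _ _ ?_
    rintro A E hA - - ⟨h1, h2, h3⟩
    refine ⟨?_, h1, h3⟩
    intro z hz
    rw [hΛ', mem_filter]
    exact ⟨hA hz, h2 z hz⟩
  have h1 : cs D q β J Λ (fun A _ => A ⊆ Λ' ∧ x ∈ A ∧ k ≤ A.card) ≤
      cs D q β J Λ' (fun A _ => x ∈ A ∧ k ≤ A.card) :=
    cs_restrict h hJ Λ Λ' (filter_subset _ _) (fun A _ => x ∈ A ∧ k ≤ A.card)
  have h2 : cs D q β J Λ' (fun A _ => x ∈ A ∧ k ≤ A.card) =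
      PP D q β J Λ' (fun ω => ∃ A E, (lat D).Cls ω x A E ∧ k ≤ A.card) :=
    cs_eq_PP h hJ Λ' x hx' (fun A _ => k ≤ A.card)
  have h3 : PP D q β J Λ' (fun ω => ∃ A E, (lat D).Cls ω x A E ∧ k ≤ A.card) ≤
      PP D q β J Λ' (fun ω => (lat D).big ω x k) := by
    refine (lat D).pr_le q (vJ β J) hq0 (vJ_nonneg h.hβ.le hJ) _ _ _ ?_
    rintro ω - ⟨A, E, hc, hk⟩
    exact ⟨A, hk, fun y hy => ((lat D).cls_iff hc y).1 hy⟩
  have h4 := hs Λ' (x.1 - r) (2 * r) (by
    intro z hz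
    rw [hΛ', mem_filter] at hz
    push_cast
    omega) x k
  have h5 : C * (((2 * r : ℕ) : ℝ) + 1) - c * k = C * (2 * r + 1) - c * k := by push_cast; ring
  rw [h5] at h4
  linarith

theorem ad_card_box (D L : ℕ) : (SB.box D L).card = (2 * L + 1) ^ (D + 1) := by
  unfold SB.box
  rw [card_product, Int.card_Icc, Pi.card_Icc]
  simp only [Int.card_Icc, prod_const, card_univ, Fintype.card_fin]
  rw [pow_succ, mul_comm]
  congr 1
  · congr 1
    omega
  · omega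

theorem ad_mem_box {D : ℕ} {x y : Site D} {k : ℕ} (h : SB.dist1 x y ≤ k) :
    y - x ∈ SB.box D k := by
  unfold SB.dist1 at h
  have h2 : ∀ i, (x.2 i - y.2 i).natAbs ≤ ∑ i, (x.2 i - y.2 i).natAbs := fun i =>
    single_le_sum (f := fun i => (x.2 i - y.2 i).natAbs) (fun _ _ => Nat.zero_le _) (mem_univ i)
  unfold SB.box
  rw [mem_product, mem_Icc, mem_Icc]
  refine ⟨⟨?_, ?_⟩, ?_, ?_⟩
  · rw [Prod.fst_sub]; omega
  · rw [Prod.fst_sub]; omega
  · intro i
    have := h2 i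
    show -(k : ℤ) ≤ y.2 i - x.2 i
    omega
  · intro i
    have := h2 i
    show y.2 i - x.2 i ≤ (k : ℤ)
    omega

/-- Clusters of bounded size which reach the height distance `r`. -/
theorem ad_cs_reach {D : ℕ} {q β J : ℝ} (h : Bas D q β) (hJ : 1 ≤ J) (Λ : Finset (Site D))
    (x : Site D) (r k : ℕ) :
    cs D q β J Λ (fun A _ => x ∈ A ∧ (∃ y ∈ A, (y.1 - x.1).natAbs = r) ∧ A.card ≤ k) ≤
      (2 * k + 1) ^ (D + 1) * Real.exp (-(xiR D q β J * r)) := by
  classical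
  have hJ0 : 0 ≤ J := by linarith
  set S : Finset (Site D) := ((SB.box D k).image fun z => x + z).filter
    fun y => (y.1 - x.1).natAbs = r with hS
  have h1 : cs D q β J Λ (fun A _ => x ∈ A ∧ (∃ y ∈ A, (y.1 - x.1).natAbs = r) ∧ A.card ≤ k) ≤
      ∑ y ∈ S, cs D q β J Λ (fun A _ => x ∈ A ∧ y ∈ A ∧ True) := by
    refine cs_union h hJ0 Λ _ S _ ?_
    rintro A E - - hc ⟨hx, ⟨y, hy, hr⟩, hk⟩
    refine ⟨y, ?_, hx, hy, trivial⟩
    rw [hS, mem_filter, mem_image]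
    refine ⟨⟨y - x, ad_mem_box ?_, by abel⟩, hr⟩
    have := dist1_lt_card hc hx hy
    omega
  have h2 : ∀ y ∈ S, cs D q β J Λ (fun A _ => x ∈ A ∧ y ∈ A ∧ True) ≤
      Real.exp (-(xiR D q β J * r)) := by
    intro y hy
    rw [hS, mem_filter] at hy
    refine (cs_le_TT h hJ0 Λ x y (fun _ _ => True)).trans
      ((TT_le_GG h hJ0 Λ x y).trans ((pointwise h hJ x y).trans (le_of_eq ?_)))
    have h3 : |(x.1 : ℝ) - y.1| = r := by
      rw [← hy.2, Nat.cast_natAbs, abs_sub_comm]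
      push_cast
      rfl
    rw [h3]
  have h3 : (S.card : ℝ) ≤ (2 * k + 1) ^ (D + 1) := by
    have h4 : S.card ≤ (2 * k + 1) ^ (D + 1) := by
      rw [← ad_card_box]
      exact (card_filter_le _ _).trans card_image_le
    exact_mod_cast h4
  calc _ ≤ ∑ y ∈ S, cs D q β J Λ (fun A _ => x ∈ A ∧ y ∈ A ∧ True) := h1
    _ ≤ ∑ _y ∈ S, Real.exp (-(xiR D q β J * r)) := sum_le_sum h2
    _ = S.card * Real.exp (-(xiR D q β J * r)) := by rw [sum_const, nsmul_eq_mul]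
    _ ≤ _ := mul_le_mul_of_nonneg_right h3 (Real.exp_pos _).le

/-- A polynomial is bounded by an exponential. -/
theorem ad_poly_exp (K n : ℕ) {a : ℝ} (ha : 0 < a) :
    ∃ M : ℝ, 0 < M ∧ ∀ r : ℕ, (2 * (K * (r + 1) : ℕ) + 1 : ℝ) ^ n ≤ M * Real.exp (a * r) := by
  set δ : ℝ := a / (2 * K + 1) with hδ
  have hK : (0 : ℝ) < 2 * K + 1 := by positivity
  have hδ0 : 0 < δ := div_pos ha hK
  have hδ1 : δ * (2 * K + 1) = a := by rw [hδ]; field_simp
  refine ⟨n.factorial / δ ^ n * Real.exp a, by positivity, fun r => ?_⟩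
  have hx : (0 : ℝ) ≤ δ * (2 * (K * (r + 1) : ℕ) + 1) := by positivity
  have h1 := Real.pow_div_factorial_le_exp _ hx n
  have hf : (0 : ℝ) < n.factorial := by positivity
  rw [div_le_iff₀ hf, mul_pow] at h1
  have h2 : δ * (2 * (K * (r + 1) : ℕ) + 1) ≤ a + a * r := by
    rw [← hδ1]
    push_cast
    nlinarith [mul_nonneg hδ0.le (Nat.cast_nonneg (α := ℝ) r)]
  have h3 : Real.exp (δ * (2 * (K * (r + 1) : ℕ) + 1)) ≤ Real.exp a * Real.exp (a * r) := by
    rw [← Real.exp_add]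
    exact Real.exp_le_exp.2 h2
  have h4 : (0 : ℝ) < δ ^ n := by positivity
  calc (2 * (K * (r + 1) : ℕ) + 1 : ℝ) ^ n
      = (δ ^ n * (2 * (K * (r + 1) : ℕ) + 1 : ℝ) ^ n) / δ ^ n := by field_simp
    _ ≤ (Real.exp (δ * (2 * (K * (r + 1) : ℕ) + 1)) * n.factorial) / δ ^ n :=
        div_le_div_of_nonneg_right h1 h4.le
    _ ≤ (Real.exp a * Real.exp (a * r) * n.factorial) / δ ^ n :=
        div_le_div_of_nonneg_right (mul_le_mul_of_nonneg_right h3 hf.le) h4.le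
    _ = _ := by ring

/-- Decay of the two-point function in all directions. -/
theorem all_dir {D : ℕ} {q β J1 : ℝ} (h : Reg D q β J1) :
    ∃ C c : ℝ, 0 < C ∧ 0 < c ∧ ∀ J, 1 ≤ J → J ≤ J1 → ∀ x y : Site D,
      GG D q β J x y ≤ C * Real.exp (-(c * SB.dist1 x y)) := by
  classical
  have hb : Bas D q β := h.toBas
  have hq0 : 0 < q := by linarith [hb.hq]
  obtain ⟨x0, hx0, hxi⟩ := h.xi
  obtain ⟨C, c, hC, hc, hS⟩ := size_slab hb J1
  obtain ⟨K, hK⟩ := exists_nat_ge ((2 * C + x0) / c)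
  have hK1 : 2 * C + x0 ≤ c * K := by
    rw [div_le_iff₀ hc] at hK
    linarith
  obtain ⟨M, hM, hpoly⟩ := ad_poly_exp K (D + 1) (half_pos hx0)
  set ρ : ℝ := Real.exp (-(x0 / 2)) with hρ
  have hρ0 : 0 < ρ := Real.exp_pos _
  have hρ1 : ρ < 1 := by
    rw [hρ, Real.exp_lt_one_iff]
    linarith
  have hρ2 : 0 < 1 - ρ := by linarith
  set ε : ℝ := c / (4 * C) with hε
  have hε0 : 0 < ε := by positivity
  have hε1 : 4 * C * ε = c := by rw [hε]; field_simp
  refine ⟨Real.exp C + (1 + M) * Real.exp (x0 / 2) / (1 - ρ), min (c / 2) (x0 / 2 * ε),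
    by positivity, by positivity, ?_⟩
  intro J hJ hJ1 x y
  have hJ0 : 0 ≤ J := by linarith
  have hxiJ := hxi J hJ hJ1
  have hSJ := hS J hJ0 hJ1
  -- the bound in the volume `Λ`, if `x` is in `Λ`
  have main : ∀ Λ : Finset (Site D), x ∈ Λ → TT D q β J Λ x y ≤
      (Real.exp C + (1 + M) * Real.exp (x0 / 2) / (1 - ρ)) *
        Real.exp (-(min (c / 2) (x0 / 2 * ε) * SB.dist1 x y)) := by
    intro Λ hx
    set N : ℕ := SB.dist1 x y with hN
    set s : ℕ := ⌊ε * N⌋₊ with hs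
    have hs1 : (s : ℝ) ≤ ε * N := Nat.floor_le (by positivity)
    have hs2 : ε * N < s + 1 := Nat.lt_floor_add_one _
    set ex : Finset (Site D) → ℕ := fun A => A.sup fun z => (z.1 - x.1).natAbs with hex
    have hexle : ∀ A z, z ∈ A → (z.1 - x.1).natAbs ≤ ex A := fun A z hz =>
      le_sup (f := fun z : Site D => (z.1 - x.1).natAbs) hz
    set R : ℕ := ex Λ with hR
    -- splitting according to the extent
    have e1 : cs D q β J Λ (fun A _ => x ∈ A ∧ y ∈ A) ≤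
        cs D q β J Λ (fun A _ => x ∈ A ∧ (∀ z ∈ A, (z.1 - x.1).natAbs ≤ s) ∧ N ≤ A.card) +
        cs D q β J Λ (fun A _ => x ∈ A ∧ s ≤ ex A) := by
      refine ad_cs_or hb hJ0 Λ _ _ _ ?_
      rintro A E - - hcl ⟨hxA, hyA⟩
      by_cases hsx : s ≤ ex A
      · exact Or.inr ⟨hxA, hsx⟩
      · refine Or.inl ⟨hxA, fun z hz => ?_, (dist1_lt_card hcl hxA hyA).le⟩
        have := hexle A z hz
        omega
    have e2 : cs D q β J Λ (fun A _ => x ∈ A ∧ s ≤ ex A) ≤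
        ∑ r ∈ Ico s (R + 1), cs D q β J Λ (fun A _ => x ∈ A ∧ ex A = r) := by
      refine cs_union hb hJ0 Λ _ _ (fun r A _ => x ∈ A ∧ ex A = r) ?_
      rintro A E hA - - ⟨hxA, hsx⟩
      refine ⟨ex A, ?_, hxA, rfl⟩
      rw [mem_Ico]
      refine ⟨hsx, Nat.lt_succ_of_le ?_⟩
      exact sup_mono hA
    have e3 : ∀ r : ℕ, cs D q β J Λ (fun A _ => x ∈ A ∧ ex A = r) ≤ (1 + M) * ρ ^ r := by
      intro r
      have e4 : cs D q β J Λ (fun A _ => x ∈ A ∧ ex A = r) ≤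
          cs D q β J Λ (fun A _ => x ∈ A ∧ (∀ z ∈ A, (z.1 - x.1).natAbs ≤ r) ∧
            K * (r + 1) ≤ A.card) +
          cs D q β J Λ (fun A _ => x ∈ A ∧ (∃ y ∈ A, (y.1 - x.1).natAbs = r) ∧
            A.card ≤ K * (r + 1)) := by
        refine ad_cs_or hb hJ0 Λ _ _ _ ?_
        rintro A E - - hcl ⟨hxA, hr⟩
        rcases le_total (K * (r + 1)) A.card with h1 | h1
        · refine Or.inl ⟨hxA, fun z hz => ?_, h1⟩
          rw [← hr]
          exact hexle A z hz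
        · refine Or.inr ⟨hxA, ?_, h1⟩
          obtain ⟨z, hz, hzr⟩ := exists_mem_eq_sup A ⟨x, hxA⟩ (fun z : Site D => (z.1 - x.1).natAbs)
          exact ⟨z, hz, by rw [← hzr]; exact hr⟩
      have e5 := ad_cs_slab hb hJ0 C c hSJ Λ x hx r (K * (r + 1))
      have e6 := ad_cs_reach hb hJ Λ x r (K * (r + 1))
      have hρr : ρ ^ r = Real.exp (-(x0 / 2) * r) := by
        rw [hρ, ← Real.exp_nat_mul]
        congr 1
        ring
      have e7 : Real.exp (C * (2 * r + 1) - c * (K * (r + 1) : ℕ)) ≤ ρ ^ r := by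
        rw [hρr]
        refine Real.exp_le_exp.2 ?_
        push_cast
        have hr0 : (0 : ℝ) ≤ r := Nat.cast_nonneg r
        have h8 : (2 * C + x0) * (r + 1) ≤ c * (K * (r + 1)) := by
          rw [← mul_assoc]
          exact mul_le_mul_of_nonneg_right hK1 (by linarith)
        nlinarith [mul_nonneg hx0.le hr0]
      have e8 : (2 * (K * (r + 1) : ℕ) + 1 : ℝ) ^ (D + 1) * Real.exp (-(xiR D q β J * r)) ≤
          M * ρ ^ r := by
        have h9 : Real.exp (-(xiR D q β J * r)) ≤ Real.exp (-(x0 * r)) := by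
          refine Real.exp_le_exp.2 (neg_le_neg ?_)
          exact mul_le_mul_of_nonneg_right hxiJ (Nat.cast_nonneg r)
        calc _ ≤ (M * Real.exp (x0 / 2 * r)) * Real.exp (-(x0 * r)) :=
              mul_le_mul (hpoly r) h9 (Real.exp_pos _).le (by positivity)
          _ = M * ρ ^ r := by
              rw [hρr, mul_assoc, ← Real.exp_add]
              congr 2
              ring
      calc _ ≤ _ := e4
        _ ≤ ρ ^ r + M * ρ ^ r := add_le_add (e5.trans e7) (e6.trans e8)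
        _ = _ := by ring
    have e9 : ∑ r ∈ Ico s (R + 1), cs D q β J Λ (fun A _ => x ∈ A ∧ ex A = r) ≤
        (1 + M) * (ρ ^ s / (1 - ρ)) := by
      calc _ ≤ ∑ r ∈ Ico s (R + 1), (1 + M) * ρ ^ r := sum_le_sum fun r _ => e3 r
        _ = (1 + M) * ∑ r ∈ Ico s (R + 1), ρ ^ r := by rw [mul_sum]
        _ ≤ _ := mul_le_mul_of_nonneg_left (geom_sum_Ico_le_of_lt_one hρ0.le hρ1) (by linarith)
    have e10 := ad_cs_slab hb hJ0 C c hSJ Λ x hx s N
    have hN0 : (0 : ℝ) ≤ N := Nat.cast_nonneg N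
    have e11 : Real.exp (C * (2 * s + 1) - c * N) ≤
        Real.exp C * Real.exp (-(min (c / 2) (x0 / 2 * ε) * N)) := by
      rw [← Real.exp_add]
      refine Real.exp_le_exp.2 ?_
      have h1 : min (c / 2) (x0 / 2 * ε) * N ≤ c / 2 * N :=
        mul_le_mul_of_nonneg_right (min_le_left _ _) hN0
      have h2 : C * s ≤ C * (ε * N) := mul_le_mul_of_nonneg_left hs1 hC.le
      have h3 : C * (ε * N) = c / 4 * N := by rw [← hε1]; ring
      linarith
    have e12 : ρ ^ s ≤ Real.exp (x0 / 2) * Real.exp (-(min (c / 2) (x0 / 2 * ε) * N)) := by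
      have hρs : ρ ^ s = Real.exp (-(x0 / 2) * s) := by
        rw [hρ, ← Real.exp_nat_mul]
        congr 1
        ring
      rw [hρs, ← Real.exp_add]
      refine Real.exp_le_exp.2 ?_
      have h1 : min (c / 2) (x0 / 2 * ε) * N ≤ x0 / 2 * ε * N :=
        mul_le_mul_of_nonneg_right (min_le_right _ _) hN0
      have h2 : x0 / 2 * (ε * N) ≤ x0 / 2 * (s + 1) :=
        mul_le_mul_of_nonneg_left hs2.le (by linarith)
      linarith
    have e13 : (1 + M) * (ρ ^ s / (1 - ρ)) ≤ (1 + M) * Real.exp (x0 / 2) / (1 - ρ) *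
        Real.exp (-(min (c / 2) (x0 / 2 * ε) * N)) := by
      calc (1 + M) * (ρ ^ s / (1 - ρ)) ≤ (1 + M) * ((Real.exp (x0 / 2) *
            Real.exp (-(min (c / 2) (x0 / 2 * ε) * N))) / (1 - ρ)) :=
            mul_le_mul_of_nonneg_left (div_le_div_of_nonneg_right e12 hρ2.le) (by linarith)
        _ = _ := by ring
    rw [← cs_eq_TT hb hJ0 Λ x y hx, add_mul]
    linarith
  unfold GG
  refine ciSup_le fun Λ => ?_
  refine le_trans ?_ (main (insert x Λ) (mem_insert_self x Λ))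
  refine (lat D).tp_mono_edges q (vJ β J) hb.hq (vJ_nonneg hb.hβ.le hJ0) ?_ x y
  intro e he
  unfold edg at he ⊢
  rw [mem_filter, mem_product] at he ⊢
  exact ⟨⟨mem_insert_of_mem he.1.1, he.1.2⟩, mem_insert_of_mem he.2⟩

end Pool.Agent.DL
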