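import Pool.Agent.DL.AnG

/-!
# Renewal kernels on the lattice: the square sum of the Green function
-/

set_option autoImplicit false

namespace Pool.Agent.DL.An

open MeasureTheory Set UnitAddTorus

attribute [local instance] instMeasureSpaceUnitAddCircle
attribute [local instance] instIsAddHaarMeasureUnitAddCircleVolume
attribute [local instance] instIsProbabilityMeasureUnitAddCircleVolume

variable {D : ℕ}

/-- The character. -/
noncomputable def ch (x : Fin D → ℤ) (s : Fin D → ℝ) : ℂ :=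
  Complex.exp ((2 * Real.pi * ∑ j, (x j : ℝ) * s j : ℝ) * Complex.I)

theorem ch_norm (x : Fin D → ℤ) (s : Fin D → ℝ) : ‖ch x s‖ = 1 := by
  unfold ch
  exact Complex.norm_exp_ofReal_mul_I _

theorem ch_add (x y : Fin D → ℤ) (s : Fin D → ℝ) : ch (x + y) s = ch x s * ch y s := by
  unfold ch
  rw [← Complex.exp_add, ← add_mul, ← Complex.ofReal_add, ← mul_add, ← Finset.sum_add_distrib]
  congr 5
  funext j
  simp only [Pi.add_apply, Int.cast_add]
  ring

theorem ch_zero (s : Fin D → ℝ) : ch (0 : Fin D → ℤ) s = 1 := by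
  simp [ch]

theorem ch_re (x : Fin D → ℤ) (s : Fin D → ℝ) :
    (ch x s).re = Real.cos (2 * Real.pi * ∑ j, (x j : ℝ) * s j) := by
  unfold ch
  exact Complex.exp_ofReal_mul_I_re _

theorem ch_im (x : Fin D → ℤ) (s : Fin D → ℝ) :
    (ch x s).im = Real.sin (2 * Real.pi * ∑ j, (x j : ℝ) * s j) := by
  unfold ch
  exact Complex.exp_ofReal_mul_I_im _

theorem mFourier_coe (x : Fin D → ℤ) (s : Fin D → ℝ) :
    mFourier x (fun i => ((s i : ℝ) : UnitAddCircle)) = ch x s := by
  unfold mFourier ch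
  simp only [ContinuousMap.coe_mk]
  have h : ∀ i, fourier (x i) ((s i : ℝ) : UnitAddCircle) =
      Complex.exp ((2 * Real.pi * ((x i : ℝ) * s i) : ℝ) * Complex.I) := by
    intro i
    rw [fourier_coe_apply]
    congr 1
    push_cast
    ring
  rw [Finset.prod_congr rfl (fun i _ => h i), ← Complex.exp_sum, ← Finset.sum_mul,
    ← Complex.ofReal_sum, ← Finset.mul_sum]

/-- The Fourier series as a continuous function on the torus. -/
noncomputable def fh (f : (Fin D → ℤ) → ℝ) : C(UnitAddTorus (Fin D), ℂ) :=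
  ∑' x, (f x : ℂ) • mFourier x

theorem fh_hasSum {f : (Fin D → ℤ) → ℝ} (hf : Summable f) :
    HasSum (fun x => (f x : ℂ) • (mFourier x : C(UnitAddTorus (Fin D), ℂ))) (fh f) := by
  refine Summable.hasSum (Summable.of_norm ?_)
  have h : ∀ x : Fin D → ℤ, ‖(f x : ℂ) • (mFourier x : C(UnitAddTorus (Fin D), ℂ))‖ = |f x| := by
    intro x
    rw [norm_smul, mFourier_norm, mul_one, Complex.norm_real, Real.norm_eq_abs]
  simp only [h]
  exact hf.abs

theorem coeff_eq_inner (F : C(UnitAddTorus (Fin D), ℂ)) (n : Fin D → ℤ) :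
    mFourierCoeff F n = inner ℂ (mFourierLp 2 n) (ContinuousMap.toLp 2 volume ℂ F) := by
  rw [← mFourierCoeff_toLp, ← mFourierBasis_repr, HilbertBasis.repr_apply_apply, coe_mFourierBasis]

theorem coeff_fh {f : (Fin D → ℤ) → ℝ} (hf : Summable f) (n : Fin D → ℤ) :
    mFourierCoeff (fh f) n = f n := by
  rw [coeff_eq_inner]
  have h1 := ((innerSL ℂ (mFourierLp (d := Fin D) 2 n)).comp
    (ContinuousMap.toLp (E := ℂ) 2 volume ℂ)).hasSum (fh_hasSum hf)
  simp only [ContinuousLinearMap.comp_apply, innerSL_apply_apply, map_smul] at h1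
  have h2 : ∀ x : Fin D → ℤ, (f x : ℂ) • inner ℂ (mFourierLp (d := Fin D) 2 n)
      (ContinuousMap.toLp (E := ℂ) 2 volume ℂ (mFourier x)) = if x = n then (f n : ℂ) else 0 := by
    intro x
    have h3 := orthonormal_iff_ite.1 (orthonormal_mFourier (d := Fin D)) n x
    rw [h3]
    by_cases hx : x = n
    · subst hx
      simp
    · rw [if_neg hx, if_neg (fun h => hx h.symm), smul_zero]
  simp only [h2] at h1
  exact h1.unique (hasSum_ite_eq n (f n : ℂ))

theorem fh_coe {f : (Fin D → ℤ) → ℝ} (hf : Summable f) (s : Fin D → ℝ) :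
    HasSum (fun x => (f x : ℂ) * ch x s) (fh f (fun i => ((s i : ℝ) : UnitAddCircle))) := by
  have h := (ContinuousMap.evalCLM ℂ (fun i => ((s i : ℝ) : UnitAddCircle) :
    UnitAddTorus (Fin D))).hasSum (fh_hasSum hf)
  have e : (fun x => (ContinuousMap.evalCLM ℂ (fun i => ((s i : ℝ) : UnitAddCircle) :
      UnitAddTorus (Fin D))) ((f x : ℂ) • (mFourier x : C(UnitAddTorus (Fin D), ℂ)))) =
      fun x => (f x : ℂ) * ch x s := by
    funext x
    simp only [map_smul, smul_eq_mul]
    rw [← mFourier_coe]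
    rfl
  rw [e] at h
  exact h

/-- The Fourier series on the cube. -/
noncomputable def fs (f : (Fin D → ℤ) → ℝ) (s : Fin D → ℝ) : ℂ :=
  fh f (fun i => ((s i : ℝ) : UnitAddCircle))

theorem fs_continuous (f : (Fin D → ℤ) → ℝ) : Continuous (fs f) := by
  unfold fs
  refine (fh f).continuous.comp ?_
  refine continuous_pi (fun i => ?_)
  exact (AddCircle.continuous_mk' (1 : ℝ)).comp (continuous_apply i)

theorem parseval {f : (Fin D → ℤ) → ℝ} (hf : Summable f) :
    HasSum (fun x => f x ^ 2) (∫ s in cube D, ‖fs f s‖ ^ 2) := by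
  have h := hasSum_sq_mFourierCoeff (ContinuousMap.toLp (E := ℂ) 2 volume ℂ (fh f))
  have e1 : ∀ x, ‖mFourierCoeff (ContinuousMap.toLp (E := ℂ) 2 volume ℂ (fh f)) x‖ ^ 2 =
      f x ^ 2 := by
    intro x
    rw [mFourierCoeff_toLp, coeff_fh hf, Complex.norm_real, Real.norm_eq_abs, sq_abs]
  simp only [e1] at h
  have e2 : ∫ t, ‖(ContinuousMap.toLp (E := ℂ) 2 (volume : Measure (UnitAddTorus (Fin D))) ℂ
      (fh f)) t‖ ^ 2 = ∫ t : UnitAddTorus (Fin D), ‖fh f t‖ ^ 2 := by
    refine integral_congr_ae ?_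
    filter_upwards [(fh f).coeFn_toLp (p := 2) (𝕜 := ℂ) (volume : Measure (UnitAddTorus (Fin D)))]
      with t ht
    rw [ht]
  rw [e2, integral_preimage (fun t => ‖fh f t‖ ^ 2) (fun _ => -(1 / 2))] at h
  exact h

theorem fs_hasSum {f : (Fin D → ℤ) → ℝ} (hf : Summable f) (s : Fin D → ℝ) :
    HasSum (fun x => (f x : ℂ) * ch x s) (fs f s) := fh_coe hf s

theorem fs_summable {f : (Fin D → ℤ) → ℝ} (hf : Summable f) (s : Fin D → ℝ) :
    Summable (fun x => ‖(f x : ℂ) * ch x s‖) := by
  have h : ∀ x : Fin D → ℤ, ‖(f x : ℂ) * ch x s‖ = |f x| := by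
    intro x
    rw [norm_mul, ch_norm, mul_one, Complex.norm_real, Real.norm_eq_abs]
  simp only [h]
  exact hf.abs

/-- The change of variables of the convolution. -/
def cv (D : ℕ) : (Fin D → ℤ) × (Fin D → ℤ) ≃ (Fin D → ℤ) × (Fin D → ℤ) where
  toFun z := (z.2, z.1 - z.2)
  invFun z := (z.1 + z.2, z.1)
  left_inv z := by
    refine Prod.ext ?_ rfl
    change z.2 + (z.1 - z.2) = z.1
    abel
  right_inv z := by
    refine Prod.ext rfl ?_
    change z.1 + z.2 - z.1 = z.2
    abel

/-- The renewal equation in Fourier space. -/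
theorem fs_renewal {b R : (Fin D → ℤ) → ℝ} (hb : Summable b) (hR : Summable R)
    (h : ∀ x, R x = (if x = 0 then 1 else 0) + ∑' y, b y * R (x - y)) (s : Fin D → ℝ) :
    fs R s = 1 + fs b s * fs R s := by
  have hsum : Summable (fun z : (Fin D → ℤ) × (Fin D → ℤ) =>
      ((b z.1 : ℂ) * ch z.1 s) * ((R z.2 : ℂ) * ch z.2 s)) := by
    refine Summable.of_norm ?_
    have := (fs_summable hb s).mul_of_nonneg (fs_summable hR s) (fun _ => norm_nonneg _)
      (fun _ => norm_nonneg _)
    refine this.congr ?_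
    intro z
    exact (norm_mul _ _).symm
  have hprod : HasSum (fun z : (Fin D → ℤ) × (Fin D → ℤ) =>
      ((b z.1 : ℂ) * ch z.1 s) * ((R z.2 : ℂ) * ch z.2 s)) (fs b s * fs R s) := by
    have h0 := hsum.hasSum
    rw [← tsum_mul_tsum_of_summable_norm (fs_summable hb s) (fs_summable hR s),
      (fs_hasSum hb s).tsum_eq, (fs_hasSum hR s).tsum_eq] at h0
    exact h0
  have h2 : HasSum (fun z : (Fin D → ℤ) × (Fin D → ℤ) =>
      ((b z.2 * R (z.1 - z.2) : ℝ) : ℂ) * ch z.1 s) (fs b s * fs R s) := by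
    have h20 := (Equiv.hasSum_iff (cv D)).2 hprod
    convert h20 using 1
    funext z
    rw [Function.comp_apply]
    change _ = ((b z.2 : ℂ) * ch z.2 s) * ((R (z.1 - z.2) : ℂ) * ch (z.1 - z.2) s)
    have h7 : ch z.1 s = ch z.2 s * ch (z.1 - z.2) s := by
      rw [← ch_add]
      congr 1
      abel
    rw [h7]
    push_cast
    ring
  have h3 : HasSum (fun x => ∑' y, ((b y * R (x - y) : ℝ) : ℂ) * ch x s) (fs b s * fs R s) :=
    h2.prod_fiberwise (fun x => (h2.summable.prod_factor x).hasSum)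
  have h5 : ∀ x, ∑' y, ((b y * R (x - y) : ℝ) : ℂ) * ch x s =
      ((∑' y, b y * R (x - y) : ℝ) : ℂ) * ch x s := by
    intro x
    rw [tsum_mul_right, Complex.ofReal_tsum]
  simp only [h5] at h3
  have h8 : HasSum (fun x : Fin D → ℤ => (((if x = 0 then 1 else 0 : ℝ)) : ℂ) * ch x s) 1 := by
    have h9 := hasSum_single (f := fun x : Fin D → ℤ =>
      (((if x = 0 then 1 else 0 : ℝ)) : ℂ) * ch x s) (0 : Fin D → ℤ) (by
        intro x hx
        rw [if_neg hx, Complex.ofReal_zero, zero_mul])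
    rw [if_pos rfl, Complex.ofReal_one, one_mul, ch_zero] at h9
    exact h9
  have h10 := h8.add h3
  have h11 : (fun x : Fin D → ℤ => (((if x = 0 then 1 else 0 : ℝ)) : ℂ) * ch x s +
      ((∑' y, b y * R (x - y) : ℝ) : ℂ) * ch x s) = fun x => (R x : ℂ) * ch x s := by
    funext x
    rw [h x, Complex.ofReal_add, add_mul]
  rw [h11] at h10
  exact (fs_hasSum hR s).unique h10

/-- The real form of the Fourier series of a symmetric function. -/
theorem fs_symm {b : (Fin D → ℤ) → ℝ} (hb : Summable b) (hsym : ∀ x, b (-x) = b x)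
    (s : Fin D → ℝ) :
    fs b s = ((∑' x, b x * Real.cos (2 * Real.pi * ∑ j, (x j : ℝ) * s j) : ℝ) : ℂ) := by
  have h1 := fs_hasSum hb s
  have h2 : HasSum (fun x => (b x : ℂ) * ch (-x) s) (fs b s) := by
    have h3 := (Equiv.hasSum_iff (Equiv.neg (Fin D → ℤ))).2 h1
    convert h3 using 1
    funext x
    rw [Function.comp_apply, Equiv.neg_apply, hsym]
  have h4 : ∀ x : Fin D → ℤ, ch x s + ch (-x) s =
      2 * ((Real.cos (2 * Real.pi * ∑ j, (x j : ℝ) * s j) : ℝ) : ℂ) := by
    intro x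
    apply Complex.ext
    · rw [Complex.add_re, ch_re, ch_re]
      have : (2 * Real.pi * ∑ j, ((-x) j : ℝ) * s j) =
          -(2 * Real.pi * ∑ j, (x j : ℝ) * s j) := by
        rw [← mul_neg, ← Finset.sum_neg_distrib]
        congr 1
        refine Finset.sum_congr rfl (fun j _ => ?_)
        simp only [Pi.neg_apply, Int.cast_neg]
        ring
      rw [this, Real.cos_neg, Complex.mul_re, Complex.ofReal_re, Complex.ofReal_im]
      simp only [Complex.re_ofNat, Complex.im_ofNat, zero_mul, sub_zero]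
      ring
    · rw [Complex.add_im, ch_im, ch_im]
      have : (2 * Real.pi * ∑ j, ((-x) j : ℝ) * s j) =
          -(2 * Real.pi * ∑ j, (x j : ℝ) * s j) := by
        rw [← mul_neg, ← Finset.sum_neg_distrib]
        congr 1
        refine Finset.sum_congr rfl (fun j _ => ?_)
        simp only [Pi.neg_apply, Int.cast_neg]
        ring
      rw [this, Real.sin_neg, Complex.mul_im, Complex.ofReal_re, Complex.ofReal_im]
      simp only [Complex.im_ofNat, zero_mul, mul_zero, add_zero, add_neg_cancel]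
  have h5 := h1.add h2
  have h6 : (fun x => (b x : ℂ) * ch x s + (b x : ℂ) * ch (-x) s) =
      fun x => 2 * (((b x * Real.cos (2 * Real.pi * ∑ j, (x j : ℝ) * s j) : ℝ)) : ℂ) := by
    funext x
    rw [← mul_add, h4]
    push_cast
    ring
  rw [h6] at h5
  have h7 := h5.tsum_eq
  rw [tsum_mul_left, ← Complex.ofReal_tsum] at h7
  have h8 : (2 : ℂ) * ((∑' x, b x * Real.cos (2 * Real.pi * ∑ j, (x j : ℝ) * s j) : ℝ) : ℂ) =
      2 * fs b s := by
    rw [h7]
    ring
  exact (mul_left_cancel₀ two_ne_zero h8).symm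

end Pool.Agent.DL.An
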