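import Mathlib

/-!
# The integral of `(ε + c |s|^2)^(-2)` over the unit cube
-/

set_option autoImplicit false

namespace Pool.Agent.DL.An

open MeasureTheory Set

/-- The truncated Gaussian integral. -/
noncomputable def gI (τ : ℝ) : ℝ :=
  ∫ u in Ioc (-(1 / 2) : ℝ) (-(1 / 2) + 1), Real.exp (-τ * u ^ 2)

theorem gI_int (τ : ℝ) (a b : ℝ) :
    IntegrableOn (fun u : ℝ => Real.exp (-τ * u ^ 2)) (Ioc a b) := by
  refine (Continuous.integrableOn_Icc ?_).mono_set Ioc_subset_Icc_self
  fun_prop

theorem gI_nonneg (τ : ℝ) : 0 ≤ gI τ :=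
  setIntegral_nonneg measurableSet_Ioc (fun _ _ => (Real.exp_pos _).le)

theorem gI_le_one {τ : ℝ} (h : 0 ≤ τ) : gI τ ≤ 1 := by
  unfold gI
  have h1 : ∫ u in Ioc (-(1 / 2) : ℝ) (-(1 / 2) + 1), Real.exp (-τ * u ^ 2) ≤
      ∫ _ in Ioc (-(1 / 2) : ℝ) (-(1 / 2) + 1), (1 : ℝ) := by
    refine setIntegral_mono_on (gI_int τ _ _) ?_ measurableSet_Ioc ?_
    · exact (continuous_const.integrableOn_Icc).mono_set Ioc_subset_Icc_self
    · intro u _
      rw [Real.exp_le_one_iff]
      have := mul_nonneg h (sq_nonneg u)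
      linarith
  refine h1.trans ?_
  simp

theorem gI_le_gauss {τ : ℝ} (h : 0 < τ) : gI τ ≤ √(Real.pi / τ) := by
  unfold gI
  rw [← integral_gaussian τ]
  exact setIntegral_le_integral (integrable_exp_neg_mul_sq h)
    (Filter.Eventually.of_forall fun _ => (Real.exp_pos _).le)

theorem gI_le {τ : ℝ} (h : 0 ≤ τ) : gI τ ≤ 3 / √(1 + τ) := by
  have h1 : 0 < √(1 + τ) := Real.sqrt_pos.2 (by linarith)
  rcases le_or_gt τ 1 with h2 | h2
  · refine (gI_le_one h).trans ?_
    rw [le_div_iff₀ h1, one_mul]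
    refine Real.sqrt_le_iff.2 ⟨by norm_num, by linarith⟩
  · refine (gI_le_gauss (by linarith)).trans ?_
    rw [le_div_iff₀ h1, ← Real.sqrt_mul (by positivity)]
    refine Real.sqrt_le_iff.2 ⟨by norm_num, ?_⟩
    rw [div_mul_eq_mul_div, div_le_iff₀ (by linarith)]
    nlinarith [Real.pi_lt_d2]

theorem gI_ge {τ : ℝ} (h : 0 ≤ τ) : Real.exp (-(1 / 4)) / √(1 + τ) ≤ gI τ := by
  have h1 : 0 < √(1 + τ) := Real.sqrt_pos.2 (by linarith)
  set a : ℝ := 1 / (2 * √(1 + τ)) with ha
  have ha0 : 0 < a := by positivity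
  have h2 : 1 ≤ √(1 + τ) := Real.one_le_sqrt.2 (by linarith)
  have ha1 : a ≤ 1 / 2 := by
    rw [ha]
    apply one_div_le_one_div_of_le (by norm_num)
    linarith
  have hsub : Ioc (-a) a ⊆ Ioc (-(1 / 2) : ℝ) (-(1 / 2) + 1) := by
    intro u hu
    exact ⟨by linarith [hu.1], by linarith [hu.2]⟩
  have h3 : ∫ u in Ioc (-a) a, Real.exp (-τ * u ^ 2) ≤ gI τ :=
    setIntegral_mono_set (gI_int τ _ _) (Filter.Eventually.of_forall fun _ => (Real.exp_pos _).le)
      (Filter.Eventually.of_forall hsub)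
  refine le_trans ?_ h3
  have h4 : ∫ _ in Ioc (-a) a, Real.exp (-(1 / 4)) ≤
      ∫ u in Ioc (-a) a, Real.exp (-τ * u ^ 2) := by
    refine setIntegral_mono_on ?_ (gI_int τ _ _) measurableSet_Ioc ?_
    · exact (continuous_const.integrableOn_Icc).mono_set Ioc_subset_Icc_self
    · intro u hu
      apply Real.exp_le_exp.2
      have h5 : u ^ 2 ≤ a ^ 2 := by
        exact sq_le_sq' hu.1.le hu.2
      have h6 : a ^ 2 * (1 + τ) = 1 / 4 := by
        rw [ha, div_pow, mul_pow, Real.sq_sqrt (by linarith)]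
        field_simp
        norm_num
      have h7 : τ * u ^ 2 ≤ τ * a ^ 2 := mul_le_mul_of_nonneg_left h5 h
      nlinarith [sq_nonneg a]
  refine le_trans (le_of_eq ?_) h4
  rw [setIntegral_const, smul_eq_mul]
  simp only [Measure.real, Real.volume_Ioc]
  rw [ENNReal.toReal_ofReal (by linarith), ha]
  field_simp
  ring

/-- The cube. -/
def cube (D : ℕ) : Set (Fin D → ℝ) := {s | ∀ i, s i ∈ Ioc (-(1 / 2) : ℝ) (-(1 / 2) + 1)}

theorem cube_eq (D : ℕ) :
    cube D = Set.pi univ (fun _ => Ioc (-(1 / 2) : ℝ) (-(1 / 2) + 1)) := by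
  ext s
  simp [cube]

theorem measurableSet_cube (D : ℕ) : MeasurableSet (cube D) := by
  rw [cube_eq]
  exact MeasurableSet.univ_pi (fun _ => measurableSet_Ioc)

theorem restrict_cube (D : ℕ) : (volume : Measure (Fin D → ℝ)).restrict (cube D) =
    Measure.pi (fun _ => (volume : Measure ℝ).restrict (Ioc (-(1 / 2) : ℝ) (-(1 / 2) + 1))) := by
  rw [cube_eq]
  exact Measure.restrict_pi_pi (fun _ => volume) (fun _ => Ioc (-(1 / 2) : ℝ) (-(1 / 2) + 1))

instance (D : ℕ) : IsFiniteMeasure ((volume : Measure (Fin D → ℝ)).restrict (cube D)) := by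
  rw [restrict_cube]
  infer_instance

theorem gauss_cube (D : ℕ) (τ : ℝ) :
    ∫ s in cube D, Real.exp (-τ * ∑ i, s i ^ 2) = gI τ ^ D := by
  rw [restrict_cube]
  have h := integral_fintype_prod_eq_pow (𝕜 := ℝ) (ι := Fin D)
    (μ := (volume : Measure ℝ).restrict (Ioc (-(1 / 2) : ℝ) (-(1 / 2) + 1)))
    (fun u : ℝ => Real.exp (-τ * u ^ 2))
  rw [Fintype.card_fin] at h
  rw [show gI τ = ∫ u in Ioc (-(1 / 2) : ℝ) (-(1 / 2) + 1), Real.exp (-τ * u ^ 2) from rfl, ← h]
  congr 1
  funext s
  rw [Finset.mul_sum, Real.exp_sum]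

/-- The integral over the cube. -/
noncomputable def IC (D : ℕ) (ε c : ℝ) : ℝ := ∫ s in cube D, 1 / (ε + c * ∑ i, s i ^ 2) ^ 2

theorem laplace {a : ℝ} (ha : 0 < a) : ∫ τ in Ioi (0 : ℝ), τ * Real.exp (-(a * τ)) = 1 / a ^ 2 := by
  have h := Real.integral_rpow_mul_exp_neg_mul_Ioi (a := 2) (r := a) (by norm_num) ha
  rw [show (2 : ℝ) - 1 = 1 by norm_num] at h
  simp only [Real.rpow_one] at h
  rw [h]
  have h2 : Real.Gamma 2 = 1 := Real.Gamma_two
  rw [h2, mul_one]
  rw [show (2 : ℝ) = ((2 : ℕ) : ℝ) by norm_num, Real.rpow_natCast, div_pow, one_pow]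

theorem laplace_int {a : ℝ} (ha : 0 < a) :
    IntegrableOn (fun τ : ℝ => τ * Real.exp (-(a * τ))) (Ioi (0 : ℝ)) := by
  by_contra hc
  have h := laplace ha
  rw [integral_undef hc] at h
  have : 0 < 1 / a ^ 2 := by positivity
  linarith

theorem IC_eq (D : ℕ) {ε c : ℝ} (hε : 0 < ε) (hc : 0 ≤ c) :
    IC D ε c = ∫ τ in Ioi (0 : ℝ), τ * Real.exp (-(ε * τ)) * gI (c * τ) ^ D := by
  have h1 : IC D ε c = ∫ s in cube D, ∫ τ in Ioi (0 : ℝ),
      τ * Real.exp (-((ε + c * ∑ i, s i ^ 2) * τ)) := by
    unfold IC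
    congr 1
    funext s
    rw [laplace]
    have : 0 ≤ ∑ i, s i ^ 2 := Finset.sum_nonneg (fun i _ => sq_nonneg _)
    have := mul_nonneg hc this
    linarith
  rw [h1, integral_integral_swap]
  · refine setIntegral_congr_fun measurableSet_Ioi ?_
    intro τ _
    simp only
    rw [← gauss_cube, ← integral_const_mul]
    congr 1
    funext s
    rw [mul_assoc, ← Real.exp_add]
    congr 2
    ring
  · have hb : Integrable (fun z : (Fin D → ℝ) × ℝ => (1 : ℝ) * (z.2 * Real.exp (-(ε * z.2))))
        ((volume.restrict (cube D)).prod (volume.restrict (Ioi (0 : ℝ)))) :=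
      Integrable.mul_prod (integrable_const (1 : ℝ)) (laplace_int hε)
    refine Integrable.mono hb ?_ ?_
    · apply Continuous.aestronglyMeasurable
      fun_prop
    · have hae : ∀ᵐ z ∂((volume.restrict (cube D)).prod (volume.restrict (Ioi (0 : ℝ)))),
          z.2 ∈ Ioi (0 : ℝ) := by
        have h3 : ∀ᵐ τ ∂(volume.restrict (Ioi (0 : ℝ))), τ ∈ Ioi (0 : ℝ) :=
          ae_restrict_mem measurableSet_Ioi
        exact Measure.quasiMeasurePreserving_snd.ae h3
      filter_upwards [hae] with z hz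
      simp only [Function.uncurry, one_mul, Real.norm_eq_abs, abs_mul, Real.abs_exp]
      refine mul_le_mul_of_nonneg_left ?_ (abs_nonneg _)
      apply Real.exp_le_exp.2
      have h2 : 0 ≤ c * ∑ i, z.1 i ^ 2 :=
        mul_nonneg hc (Finset.sum_nonneg (fun i _ => sq_nonneg _))
      have h4 : 0 ≤ (c * ∑ i, z.1 i ^ 2) * z.2 := mul_nonneg h2 (le_of_lt hz)
      nlinarith

/-! ### The one-dimensional integrals -/

/-- The integrand. -/
noncomputable def jf (D : ℕ) (ε τ : ℝ) : ℝ := τ * Real.exp (-(ε * τ)) * (1 / √(1 + τ)) ^ D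

theorem jf_nonneg (D : ℕ) (ε : ℝ) {τ : ℝ} (h : 0 ≤ τ) : 0 ≤ jf D ε τ := by
  unfold jf
  positivity

theorem inv_sqrt_le_one {τ : ℝ} (h : 0 ≤ τ) : 1 / √(1 + τ) ≤ 1 := by
  have h2 : 1 ≤ √(1 + τ) := Real.one_le_sqrt.2 (by linarith)
  rw [div_le_one (by linarith)]
  exact h2

theorem inv_sqrt_nonneg (τ : ℝ) : 0 ≤ 1 / √(1 + τ) := by positivity

theorem jf_int (D : ℕ) {ε : ℝ} (hε : 0 < ε) : IntegrableOn (jf D ε) (Ioi (0 : ℝ)) := by
  refine Integrable.mono' (laplace_int hε) ?_ ?_
  · refine Measurable.aestronglyMeasurable ?_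
    unfold jf
    fun_prop
  · filter_upwards [ae_restrict_mem measurableSet_Ioi] with τ hτ
    have hτ' : 0 < τ := hτ
    rw [Real.norm_of_nonneg (jf_nonneg D ε hτ'.le)]
    unfold jf
    have h1 : (1 / √(1 + τ)) ^ D ≤ 1 :=
      pow_le_one₀ (inv_sqrt_nonneg τ) (inv_sqrt_le_one hτ'.le)
    have h2 : 0 ≤ τ * Real.exp (-(ε * τ)) := by positivity
    nlinarith

/-- The one-dimensional integral. -/
noncomputable def JI (D : ℕ) (ε : ℝ) : ℝ := ∫ τ in Ioi (0 : ℝ), jf D ε τ

theorem IC_le (D : ℕ) {ε c : ℝ} (hε : 0 < ε) (hc : 0 < c) :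
    IC D ε c ≤ (3 / √(min 1 c)) ^ D * JI D ε := by
  rw [IC_eq D hε hc.le]
  unfold JI
  rw [← integral_const_mul]
  have hm : 0 < min 1 c := lt_min one_pos hc
  refine setIntegral_mono_on ?_ ((jf_int D hε).const_mul _) measurableSet_Ioi ?_
  · refine Integrable.mono' (laplace_int hε) ?_ ?_
    · refine AEStronglyMeasurable.mul ?_ ?_
      · refine Measurable.aestronglyMeasurable ?_
        fun_prop
      · refine Measurable.aestronglyMeasurable ?_
        have hg : Antitone gI := by
          intro a b hab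
          unfold gI
          refine setIntegral_mono_on (gI_int b _ _) (gI_int a _ _) measurableSet_Ioc ?_
          intro u _
          apply Real.exp_le_exp.2
          have := mul_le_mul_of_nonneg_right hab (sq_nonneg u)
          linarith
        have h1 : Antitone (fun τ => gI (c * τ)) := fun a b hab =>
          hg (mul_le_mul_of_nonneg_left hab hc.le)
        exact h1.measurable.pow_const D
    · filter_upwards [ae_restrict_mem measurableSet_Ioi] with τ hτ
      have hτ' : 0 < τ := hτ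
      have h1 : gI (c * τ) ^ D ≤ 1 := pow_le_one₀ (gI_nonneg _) (gI_le_one (by positivity))
      have h3 : 0 ≤ gI (c * τ) ^ D := pow_nonneg (gI_nonneg _) _
      have h2 : 0 ≤ τ * Real.exp (-(ε * τ)) := by positivity
      rw [Real.norm_of_nonneg (mul_nonneg h2 h3)]
      nlinarith
  · intro τ hτ
    have hτ' : 0 < τ := hτ
    unfold jf
    have h2 : 0 ≤ τ * Real.exp (-(ε * τ)) := by positivity
    have h1 : gI (c * τ) ≤ 3 / √(min 1 c) * (1 / √(1 + τ)) := by
      refine (gI_le (by positivity)).trans ?_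
      rw [div_mul_div_comm, mul_one]
      refine div_le_div_of_nonneg_left (by norm_num) ?_ ?_
      · positivity
      · rw [← Real.sqrt_mul hm.le]
        apply Real.sqrt_le_sqrt
        have h4 : min 1 c ≤ 1 := min_le_left _ _
        have h5 : min 1 c ≤ c := min_le_right _ _
        nlinarith
    calc τ * Real.exp (-(ε * τ)) * gI (c * τ) ^ D
        ≤ τ * Real.exp (-(ε * τ)) * (3 / √(min 1 c) * (1 / √(1 + τ))) ^ D :=
          mul_le_mul_of_nonneg_left (pow_le_pow_left₀ (gI_nonneg _) h1 D) h2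
      _ = _ := by rw [mul_pow]; ring

theorem IC_ge (D : ℕ) {ε c : ℝ} (hε : 0 < ε) (hc : 0 < c) :
    (Real.exp (-(1 / 4)) / √(max 1 c)) ^ D * JI D ε ≤ IC D ε c := by
  rw [IC_eq D hε hc.le]
  unfold JI
  rw [← integral_const_mul]
  have hm : 1 ≤ max 1 c := le_max_left _ _
  refine setIntegral_mono_on ((jf_int D hε).const_mul _) ?_ measurableSet_Ioi ?_
  · refine Integrable.mono' (laplace_int hε) ?_ ?_
    · refine AEStronglyMeasurable.mul ?_ ?_
      · refine Measurable.aestronglyMeasurable ?_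
        fun_prop
      · refine Measurable.aestronglyMeasurable ?_
        have hg : Antitone gI := by
          intro a b hab
          unfold gI
          refine setIntegral_mono_on (gI_int b _ _) (gI_int a _ _) measurableSet_Ioc ?_
          intro u _
          apply Real.exp_le_exp.2
          have := mul_le_mul_of_nonneg_right hab (sq_nonneg u)
          linarith
        have h1 : Antitone (fun τ => gI (c * τ)) := fun a b hab =>
          hg (mul_le_mul_of_nonneg_left hab hc.le)
        exact h1.measurable.pow_const D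
    · filter_upwards [ae_restrict_mem measurableSet_Ioi] with τ hτ
      have hτ' : 0 < τ := hτ
      have h1 : gI (c * τ) ^ D ≤ 1 := pow_le_one₀ (gI_nonneg _) (gI_le_one (by positivity))
      have h3 : 0 ≤ gI (c * τ) ^ D := pow_nonneg (gI_nonneg _) _
      have h2 : 0 ≤ τ * Real.exp (-(ε * τ)) := by positivity
      rw [Real.norm_of_nonneg (mul_nonneg h2 h3)]
      nlinarith
  · intro τ hτ
    have hτ' : 0 < τ := hτ
    unfold jf
    have h2 : 0 ≤ τ * Real.exp (-(ε * τ)) := by positivity
    have h0 : 0 < √(max 1 c) := Real.sqrt_pos.2 (by linarith)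
    have h00 : 0 < √(1 + τ) := Real.sqrt_pos.2 (by linarith)
    have h1 : Real.exp (-(1 / 4)) / √(max 1 c) * (1 / √(1 + τ)) ≤ gI (c * τ) := by
      refine le_trans ?_ (gI_ge (by positivity))
      rw [div_mul_div_comm, mul_one]
      refine div_le_div_of_nonneg_left (Real.exp_pos _).le ?_ ?_
      · exact Real.sqrt_pos.2 (by positivity)
      · rw [← Real.sqrt_mul (by linarith)]
        apply Real.sqrt_le_sqrt
        have h5 : c ≤ max 1 c := le_max_right _ _
        nlinarith
    calc (Real.exp (-(1 / 4)) / √(max 1 c)) ^ D * (τ * Real.exp (-(ε * τ)) * (1 / √(1 + τ)) ^ D)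
        = τ * Real.exp (-(ε * τ)) * (Real.exp (-(1 / 4)) / √(max 1 c) * (1 / √(1 + τ))) ^ D := by
          rw [mul_pow]; ring
      _ ≤ _ := mul_le_mul_of_nonneg_left (pow_le_pow_left₀ (by positivity) h1 D) h2

/-- The function in the theorem. -/
noncomputable def phi (D : ℕ) (ε : ℝ) : ℝ :=
  if D = 3 then 1 / √ε else if D = 4 then 1 + Real.log (1 / ε) else 1

theorem JI_ge_part (D : ℕ) {ε : ℝ} (hε : 0 < ε) {a b : ℝ} (ha : 0 ≤ a) {f : ℝ → ℝ}
    (hf : IntegrableOn f (Ioc a b)) (h : ∀ τ ∈ Ioc a b, f τ ≤ jf D ε τ) :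
    ∫ τ in Ioc a b, f τ ≤ JI D ε := by
  have hsub : Ioc a b ⊆ Ioi (0 : ℝ) := fun τ hτ => lt_of_le_of_lt ha hτ.1
  refine (setIntegral_mono_on hf ((jf_int D hε).mono_set hsub) measurableSet_Ioc h).trans ?_
  unfold JI
  refine setIntegral_mono_set (jf_int D hε) ?_ (Filter.Eventually.of_forall hsub)
  filter_upwards [ae_restrict_mem measurableSet_Ioi] with τ hτ
  exact jf_nonneg D ε (le_of_lt hτ)

theorem JI_ge (D : ℕ) (hD : 3 ≤ D) : ∃ c > 0, ∀ ε : ℝ, 0 < ε → ε ≤ 1 → c * phi D ε ≤ JI D ε := by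
  have e1 : (0 : ℝ) < Real.exp (-1) := Real.exp_pos _
  rcases Nat.lt_or_ge D 5 with h5 | h5
  · rcases Nat.lt_or_ge D 4 with h4 | h4
    · obtain rfl : D = 3 := by omega
      refine ⟨Real.exp (-2) / (√3) ^ 3, by positivity, ?_⟩
      intro ε hε hε1
      have hpos : 0 < √ε := Real.sqrt_pos.2 hε
      set k : ℝ := (1 / ε) * Real.exp (-2) * (√ε / √3) ^ 3 with hk
      have h1 := JI_ge_part 3 hε (a := 1 / ε) (b := 2 / ε) (f := fun _ => k) (by positivity)
        (by
          exact (continuous_const.integrableOn_Icc).mono_set Ioc_subset_Icc_self) (by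
          intro τ hτ
          have hτ0 : 0 < τ := lt_trans (by positivity) hτ.1
          unfold jf
          rw [hk]
          refine mul_le_mul (mul_le_mul hτ.1.le ?_ (by positivity) hτ0.le) ?_ (by positivity)
            (by positivity)
          · apply Real.exp_le_exp.2
            have h3 := mul_le_mul_of_nonneg_left hτ.2 hε.le
            have h4 : ε * (2 / ε) = 2 := by field_simp
            linarith
          · refine pow_le_pow_left₀ (by positivity) ?_ 3
            rw [div_le_div_iff₀ (by positivity) (Real.sqrt_pos.2 (by linarith)), one_mul,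
              ← Real.sqrt_mul hε.le]
            apply Real.sqrt_le_sqrt
            have h3 := mul_le_mul_of_nonneg_left hτ.2 hε.le
            have h4 : ε * (2 / ε) = 2 := by field_simp
            nlinarith)
      refine le_trans (le_of_eq ?_) h1
      rw [setIntegral_const, smul_eq_mul]
      simp only [Measure.real, Real.volume_Ioc]
      rw [ENNReal.toReal_ofReal (by rw [sub_nonneg]; gcongr; norm_num), hk]
      unfold phi
      rw [if_pos rfl]
      have h6 : √ε ^ 2 = ε := Real.sq_sqrt hε.le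
      have h7 : (2 / ε - 1 / ε) = 1 / ε := by ring
      rw [h7, div_pow]
      have h8 : √ε ^ 3 = ε * √ε := by rw [pow_succ, h6]
      rw [h8]
      have h9 : (1 : ℝ) / ε * (1 / ε * Real.exp (-2) * (ε * √ε / √3 ^ 3)) =
          Real.exp (-2) / √3 ^ 3 * (√ε / ε) := by
        field_simp
      rw [h9]
      congr 1
      rw [div_eq_div_iff (by positivity) hε.ne', one_mul, ← sq, h6]
    · obtain rfl : D = 4 := by omega
      refine ⟨Real.exp (-1) / 8, by positivity, ?_⟩
      intro ε hε hε1
      have hT : 1 ≤ 1 / ε := by rw [le_div_iff₀ hε]; linarith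
      have hsq : ∀ τ : ℝ, 0 ≤ τ → (1 / √(1 + τ)) ^ 4 = 1 / (1 + τ) ^ 2 := by
        intro τ hτ
        rw [div_pow, one_pow, show (4 : ℕ) = 2 * 2 from rfl, pow_mul,
          Real.sq_sqrt (by linarith)]
      have hexp : ∀ τ : ℝ, τ ≤ 1 / ε → Real.exp (-1) ≤ Real.exp (-(ε * τ)) := by
        intro τ hτ
        apply Real.exp_le_exp.2
        have h3 := mul_le_mul_of_nonneg_left hτ hε.le
        have h4 : ε * (1 / ε) = 1 := by field_simp
        linarith
      -- the whole interval
      set f : ℝ → ℝ := fun τ => if τ ≤ 1 then Real.exp (-1) * (τ / 4)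
        else Real.exp (-1) * (1 / 4 * τ⁻¹) with hf
      have hfi1 : IntegrableOn f (Ioc 0 1) := by
        refine IntegrableOn.congr_fun (f := fun τ : ℝ => Real.exp (-1) * (τ / 4)) ?_ ?_
          measurableSet_Ioc
        · refine (Continuous.integrableOn_Icc ?_).mono_set Ioc_subset_Icc_self
          fun_prop
        · intro τ hτ
          simp only [hf]
          rw [if_pos hτ.2]
      have hfi2 : IntegrableOn f (Ioc 1 (1 / ε)) := by
        refine IntegrableOn.congr_fun (f := fun τ : ℝ => Real.exp (-1) * (1 / 4 * τ⁻¹)) ?_ ?_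
          measurableSet_Ioc
        · refine (ContinuousOn.integrableOn_Icc ?_).mono_set Ioc_subset_Icc_self
          refine ContinuousOn.mul continuousOn_const (ContinuousOn.mul continuousOn_const ?_)
          refine ContinuousOn.inv₀ continuousOn_id ?_
          intro τ hτ
          have : (1 : ℝ) ≤ τ := hτ.1
          linarith
        · intro τ hτ
          simp only [hf]
          rw [if_neg (not_le.2 hτ.1)]
      have hun : Ioc (0 : ℝ) 1 ∪ Ioc 1 (1 / ε) = Ioc 0 (1 / ε) :=
        Ioc_union_Ioc_eq_Ioc zero_le_one hT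
      have hfi : IntegrableOn f (Ioc 0 (1 / ε)) := by
        rw [← hun]
        exact hfi1.union hfi2
      have h1 := JI_ge_part 4 hε (a := 0) (b := 1 / ε) (f := f) le_rfl hfi (by
        intro τ hτ
        have hτ0 : 0 < τ := hτ.1
        unfold jf
        rw [hsq τ hτ0.le]
        have h2 := hexp τ hτ.2
        simp only [hf]
        split_ifs with h3
        · have h4 : τ / 4 ≤ τ * (1 / (1 + τ) ^ 2) := by
            rw [mul_one_div]
            refine div_le_div_of_nonneg_left hτ0.le (by positivity) ?_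
            nlinarith
          calc Real.exp (-1) * (τ / 4) ≤ Real.exp (-(ε * τ)) * (τ * (1 / (1 + τ) ^ 2)) :=
                mul_le_mul h2 h4 (by positivity) (Real.exp_pos _).le
            _ = _ := by ring
        · have h4 : 1 / 4 * τ⁻¹ ≤ τ * (1 / (1 + τ) ^ 2) := by
            rw [mul_one_div, ← div_eq_mul_inv, div_div, div_le_div_iff₀ (by positivity)
              (by positivity)]
            nlinarith
          calc Real.exp (-1) * (1 / 4 * τ⁻¹) ≤ Real.exp (-(ε * τ)) * (τ * (1 / (1 + τ) ^ 2)) :=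
                mul_le_mul h2 h4 (by positivity) (Real.exp_pos _).le
            _ = _ := by ring)
      refine le_trans ?_ h1
      rw [← hun, setIntegral_union (by
        rw [Set.disjoint_left]
        intro τ h1 h2
        exact absurd h2.1 (not_lt.2 h1.2)) measurableSet_Ioc hfi1 hfi2]
      have e2 : ∫ τ in Ioc (0 : ℝ) 1, f τ = Real.exp (-1) / 8 := by
        rw [setIntegral_congr_fun (g := fun τ : ℝ => Real.exp (-1) * (τ / 4)) measurableSet_Ioc
          (fun τ hτ => by simp only [hf]; rw [if_pos hτ.2])]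
        rw [← intervalIntegral.integral_of_le zero_le_one, intervalIntegral.integral_const_mul,
          intervalIntegral.integral_div, integral_id]
        ring
      have e3 : ∫ τ in Ioc (1 : ℝ) (1 / ε), f τ = Real.exp (-1) / 4 * Real.log (1 / ε) := by
        rw [setIntegral_congr_fun (g := fun τ : ℝ => Real.exp (-1) * (1 / 4 * τ⁻¹))
          measurableSet_Ioc (fun τ hτ => by simp only [hf]; rw [if_neg (not_le.2 hτ.1)])]
        rw [← intervalIntegral.integral_of_le hT, intervalIntegral.integral_const_mul,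
          intervalIntegral.integral_const_mul, integral_inv_of_pos one_pos (by positivity), div_one]
        ring
      rw [e2, e3]
      unfold phi
      rw [if_neg (by norm_num), if_pos rfl]
      have hl : 0 ≤ Real.log (1 / ε) := Real.log_nonneg hT
      nlinarith [mul_nonneg e1.le hl]
  · refine ⟨Real.exp (-1) * (1 / √2) ^ D / 2, by positivity, ?_⟩
    intro ε hε hε1
    have h1 := JI_ge_part D hε (a := 0) (b := 1)
      (f := fun τ => Real.exp (-1) * (1 / √2) ^ D * τ) le_rfl
      ((Continuous.integrableOn_Icc (by fun_prop)).mono_set Ioc_subset_Icc_self) (by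
      intro τ hτ
      have hτ0 : 0 < τ := hτ.1
      have hτ1 : τ ≤ 1 := hτ.2
      unfold jf
      have h2 : Real.exp (-1) ≤ Real.exp (-(ε * τ)) := by
        apply Real.exp_le_exp.2
        nlinarith
      have h3 : (1 / √2) ^ D ≤ (1 / √(1 + τ)) ^ D := by
        refine pow_le_pow_left₀ (by positivity) ?_ D
        refine one_div_le_one_div_of_le (Real.sqrt_pos.2 (by linarith)) ?_
        exact Real.sqrt_le_sqrt (by linarith)
      calc Real.exp (-1) * (1 / √2) ^ D * τ
          ≤ Real.exp (-(ε * τ)) * (1 / √(1 + τ)) ^ D * τ :=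
            mul_le_mul_of_nonneg_right (mul_le_mul h2 h3 (by positivity) (Real.exp_pos _).le) hτ0.le
        _ = _ := by ring)
    refine le_trans (le_of_eq ?_) h1
    rw [← intervalIntegral.integral_of_le zero_le_one, intervalIntegral.integral_const_mul,
      integral_id]
    unfold phi
    rw [if_neg (by omega), if_neg (by omega)]
    ring

theorem JI_le (D : ℕ) (hD : 3 ≤ D) : ∃ C > 0, ∀ ε : ℝ, 0 < ε → ε ≤ 1 → JI D ε ≤ C * phi D ε := by
  rcases Nat.lt_or_ge D 5 with h5 | h5
  · rcases Nat.lt_or_ge D 4 with h4 | h4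
    · obtain rfl : D = 3 := by omega
      refine ⟨Real.Gamma (1 / 2), Real.Gamma_pos_of_pos (by norm_num), ?_⟩
      intro ε hε _
      have h := Real.integral_rpow_mul_exp_neg_mul_Ioi (a := 1 / 2) (r := ε) (by norm_num) hε
      have h2 : IntegrableOn (fun t : ℝ => t ^ ((1 : ℝ) / 2 - 1) * Real.exp (-(ε * t)))
          (Ioi (0 : ℝ)) := by
        by_contra hc
        rw [integral_undef hc] at h
        have h3 : 0 < (1 / ε) ^ ((1 : ℝ) / 2) * Real.Gamma (1 / 2) :=
          mul_pos (Real.rpow_pos_of_pos (by positivity) _) (Real.Gamma_pos_of_pos (by norm_num))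
        linarith
      have h3 : JI 3 ε ≤ ∫ t in Ioi (0 : ℝ), t ^ ((1 : ℝ) / 2 - 1) * Real.exp (-(ε * t)) := by
        unfold JI
        refine setIntegral_mono_on (jf_int 3 hε) h2 measurableSet_Ioi ?_
        intro τ hτ
        have hτ' : 0 < τ := hτ
        unfold jf
        have h6 : √(1 + τ) ^ 2 = 1 + τ := Real.sq_sqrt (by linarith)
        have h7 : √τ ^ 2 = τ := Real.sq_sqrt hτ'.le
        have h8 : √τ ≤ √(1 + τ) := Real.sqrt_le_sqrt (by linarith)
        have h9 : 0 < √τ := Real.sqrt_pos.2 hτ'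
        have h4 : τ * (1 / √(1 + τ)) ^ 3 ≤ τ ^ ((1 : ℝ) / 2 - 1) := by
          have h10 : τ ^ ((1 : ℝ) / 2 - 1) = 1 / √τ := by
            rw [Real.rpow_sub hτ', Real.rpow_one, ← Real.sqrt_eq_rpow, div_eq_div_iff hτ'.ne' h9.ne',
              one_mul, ← sq, h7]
          rw [h10, div_pow, one_pow, mul_one_div, div_le_div_iff₀ (by positivity) h9, one_mul,
            pow_succ, h6]
          have h11 : τ * √τ ≤ (1 + τ) * √(1 + τ) :=
            mul_le_mul (by linarith) h8 h9.le (by linarith)
          exact h11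
        calc τ * Real.exp (-(ε * τ)) * (1 / √(1 + τ)) ^ 3
            = τ * (1 / √(1 + τ)) ^ 3 * Real.exp (-(ε * τ)) := by ring
          _ ≤ _ := mul_le_mul_of_nonneg_right h4 (Real.exp_pos _).le
      refine h3.trans (le_of_eq ?_)
      rw [h]
      unfold phi
      rw [if_pos rfl, ← Real.sqrt_eq_rpow, Real.sqrt_div zero_le_one, Real.sqrt_one]
      ring
    · obtain rfl : D = 4 := by omega
      refine ⟨2, by norm_num, ?_⟩
      intro ε hε hε1
      have hT : 1 ≤ 1 / ε := by rw [le_div_iff₀ hε]; linarith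
      have hT0 : 0 < 1 / ε := by positivity
      have hsq : ∀ τ : ℝ, 0 ≤ τ → (1 / √(1 + τ)) ^ 4 = 1 / (1 + τ) ^ 2 := by
        intro τ hτ
        rw [div_pow, one_pow, show (4 : ℕ) = 2 * 2 from rfl, pow_mul,
          Real.sq_sqrt (by linarith)]
      have hb : ∀ τ : ℝ, 0 < τ → jf 4 ε τ ≤ (1 + τ)⁻¹ * Real.exp (-(ε * τ)) := by
        intro τ hτ
        unfold jf
        rw [hsq τ hτ.le]
        have h4 : τ * (1 / (1 + τ) ^ 2) ≤ (1 + τ)⁻¹ := by
          rw [mul_one_div, inv_eq_one_div, div_le_div_iff₀ (by positivity) (by positivity)]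
          nlinarith
        calc τ * Real.exp (-(ε * τ)) * (1 / (1 + τ) ^ 2)
            = τ * (1 / (1 + τ) ^ 2) * Real.exp (-(ε * τ)) := by ring
          _ ≤ _ := mul_le_mul_of_nonneg_right h4 (Real.exp_pos _).le
      have hun : Ioc (0 : ℝ) (1 / ε) ∪ Ioi (1 / ε) = Ioi 0 := Ioc_union_Ioi_eq_Ioi hT0.le
      have hd : Disjoint (Ioc (0 : ℝ) (1 / ε)) (Ioi (1 / ε)) := by
        rw [Set.disjoint_left]
        intro τ h1 h2
        exact absurd h2 (not_lt.2 h1.2)
      have hji := jf_int 4 hε
      unfold JI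
      rw [← hun] at hji ⊢
      rw [setIntegral_union hd measurableSet_Ioi (hji.mono_set subset_union_left)
        (hji.mono_set subset_union_right)]
      have e1 : ∫ τ in Ioc (0 : ℝ) (1 / ε), jf 4 ε τ ≤ Real.log (1 + 1 / ε) := by
        have h1 : ∫ τ in Ioc (0 : ℝ) (1 / ε), jf 4 ε τ ≤
            ∫ τ in Ioc (0 : ℝ) (1 / ε), (τ + 1)⁻¹ := by
          refine setIntegral_mono_on (hji.mono_set subset_union_left) ?_ measurableSet_Ioc ?_
          · refine (ContinuousOn.integrableOn_Icc ?_).mono_set Ioc_subset_Icc_self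
            refine ContinuousOn.inv₀ (by fun_prop) ?_
            intro τ hτ
            have : (0 : ℝ) ≤ τ := hτ.1
            linarith
          · intro τ hτ
            refine (hb τ hτ.1).trans ?_
            have h2 : Real.exp (-(ε * τ)) ≤ 1 := by
              rw [Real.exp_le_one_iff]
              have := mul_pos hε hτ.1
              linarith
            have h3 : 0 < (1 + τ)⁻¹ := by
              have : 0 < τ := hτ.1
              positivity
            rw [add_comm τ 1]
            nlinarith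
        refine h1.trans (le_of_eq ?_)
        rw [← intervalIntegral.integral_of_le hT0.le,
          intervalIntegral.integral_comp_add_right (fun x : ℝ => x⁻¹) 1,
          integral_inv_of_pos (by norm_num) (by positivity)]
        congr 1
        ring
      have e2 : ∫ τ in Ioi (1 / ε), jf 4 ε τ ≤ 1 := by
        have hexpi : IntegrableOn (fun τ : ℝ => ε * Real.exp (-ε * τ)) (Ioi (1 / ε)) :=
          (integrableOn_exp_mul_Ioi (by linarith) _).const_mul _
        have h1 : ∫ τ in Ioi (1 / ε), jf 4 ε τ ≤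
            ∫ τ in Ioi (1 / ε), ε * Real.exp (-ε * τ) := by
          refine setIntegral_mono_on (hji.mono_set subset_union_right) hexpi measurableSet_Ioi ?_
          intro τ hτ
          have hτ0 : 0 < τ := lt_trans hT0 hτ
          refine (hb τ hτ0).trans ?_
          rw [neg_mul]
          refine mul_le_mul_of_nonneg_right ?_ (Real.exp_pos _).le
          rw [inv_le_comm₀ (by positivity) hε]
          have : 1 / ε < τ := hτ
          rw [inv_eq_one_div]
          linarith
        refine h1.trans ?_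
        rw [integral_const_mul, integral_exp_mul_Ioi (by linarith)]
        have h3 : -ε * (1 / ε) = -1 := by field_simp
        rw [h3]
        have h4 : ε * (-Real.exp (-1) / -ε) = Real.exp (-1) := by field_simp
        rw [h4, Real.exp_le_one_iff]
        norm_num
      have e3 : Real.log (1 + 1 / ε) ≤ Real.log 2 + Real.log (1 / ε) := by
        rw [← Real.log_mul (by norm_num) hT0.ne']
        apply Real.log_le_log (by positivity)
        linarith
      have e4 : Real.log 2 ≤ 1 := by
        have := Real.log_two_lt_d9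
        linarith
      have hl : 0 ≤ Real.log (1 / ε) := Real.log_nonneg hT
      unfold phi
      rw [if_neg (by norm_num), if_pos rfl]
      linarith
  · refine ⟨2, by norm_num, ?_⟩
    intro ε hε _
    have hi : IntegrableOn (fun τ : ℝ => (τ + 1) ^ (-(3 / 2) : ℝ)) (Ioi 0) := by
      have h1 := integrableOn_Ioi_rpow_of_lt (a := -(3 / 2)) (c := 1) (by norm_num) one_pos
      have h2 := (MeasurePreserving.integrableOn_comp_preimage
        (measurePreserving_add_right volume (1 : ℝ))
        (MeasurableEquiv.addRight (1 : ℝ)).measurableEmbedding (f := fun t : ℝ => t ^ (-(3 / 2) : ℝ))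
        (s := Ioi 1)).2 h1
      have h3 : (fun x : ℝ => x + 1) ⁻¹' Ioi 1 = Ioi 0 := by
        ext x
        simp
      rw [h3] at h2
      exact h2
    have h3 : JI D ε ≤ ∫ τ in Ioi (0 : ℝ), (τ + 1) ^ (-(3 / 2) : ℝ) := by
      unfold JI
      refine setIntegral_mono_on (jf_int D hε) hi measurableSet_Ioi ?_
      intro τ hτ
      have hτ' : 0 < τ := hτ
      unfold jf
      have h6 : √(1 + τ) ^ 2 = 1 + τ := Real.sq_sqrt (by linarith)
      have h7 : 0 < √(1 + τ) := Real.sqrt_pos.2 (by linarith)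
      have h1 : (1 / √(1 + τ)) ^ D ≤ (1 / √(1 + τ)) ^ 5 :=
        pow_le_pow_of_le_one (inv_sqrt_nonneg τ) (inv_sqrt_le_one hτ'.le) h5
      have h2 : Real.exp (-(ε * τ)) ≤ 1 := by
        rw [Real.exp_le_one_iff]
        have := mul_pos hε hτ'
        linarith
      have h8 : (τ + 1) ^ (-(3 / 2) : ℝ) = (1 + τ) * (1 / √(1 + τ)) ^ 5 := by
        rw [add_comm τ 1, show (-(3 / 2) : ℝ) = 1 + (-(1 / 2)) * ((5 : ℕ) : ℝ) by norm_num,
          Real.rpow_add (by linarith), Real.rpow_one, Real.rpow_mul (by linarith),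
          Real.rpow_natCast, Real.rpow_neg (by linarith), ← Real.sqrt_eq_rpow, one_div]
      rw [h8]
      have h9 : τ * Real.exp (-(ε * τ)) ≤ 1 + τ := by nlinarith
      exact mul_le_mul h9 h1 (pow_nonneg (inv_sqrt_nonneg τ) _) (by linarith)
    have h4 : ∫ τ in Ioi (0 : ℝ), (τ + 1) ^ (-(3 / 2) : ℝ) = 2 := by
      have h5 := (measurePreserving_add_right volume (1 : ℝ)).setIntegral_preimage_emb
        (MeasurableEquiv.addRight (1 : ℝ)).measurableEmbedding
        (fun t : ℝ => t ^ (-(3 / 2) : ℝ)) (Ioi 1)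
      have h6 : (fun x : ℝ => x + 1) ⁻¹' Ioi 1 = Ioi 0 := by
        ext x
        simp
      rw [h6] at h5
      rw [h5, integral_Ioi_rpow_of_lt (by norm_num) one_pos]
      norm_num
    rw [h4] at h3
    unfold phi
    rw [if_neg (by omega), if_neg (by omega)]
    linarith

theorem phi_pos (D : ℕ) {ε : ℝ} (hε : 0 < ε) (hε1 : ε ≤ 1) : 0 < phi D ε := by
  unfold phi
  have hT : 1 ≤ 1 / ε := by rw [le_div_iff₀ hε]; linarith
  have hl : 0 ≤ Real.log (1 / ε) := Real.log_nonneg hT
  split_ifs
  · positivity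
  · linarith
  · exact one_pos

end Pool.Agent.DL.An
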