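import Pool.Agent.DL.AnF

/-!
# Renewal kernels on the lattice: the size of the square sum of the Green function
-/

set_option autoImplicit false

namespace Pool.Agent.DL.An

open MeasureTheory Set

variable {D : ℕ}

theorem sq_dot_le (x : Fin D → ℤ) (s : Fin D → ℝ) :
    (∑ j, (x j : ℝ) * s j) ^ 2 ≤ (∑ j, (x j : ℝ) ^ 2) * ∑ j, s j ^ 2 :=
  Finset.sum_mul_sq_le_sq_mul_sq _ _ _

theorem one_sub_cos_le (x : Fin D → ℤ) (s : Fin D → ℝ) :
    1 - Real.cos (2 * Real.pi * ∑ j, (x j : ℝ) * s j) ≤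
      2 * Real.pi ^ 2 * (∑ j, (x j : ℝ) ^ 2) * ∑ j, s j ^ 2 := by
  have h1 := Real.one_sub_sq_div_two_le_cos (x := 2 * Real.pi * ∑ j, (x j : ℝ) * s j)
  have h2 := sq_dot_le x s
  have h3 : (0 : ℝ) ≤ 2 * Real.pi ^ 2 := by positivity
  have h4 := mul_le_mul_of_nonneg_left h2 h3
  nlinarith

theorem cos_le_quad {u : ℝ} (h : |u| ≤ Real.pi) : Real.cos u ≤ 1 - 2 / Real.pi ^ 2 * u ^ 2 := by
  have h1 := Real.mul_le_sin (x := |u| / 2) (by positivity) (by linarith)
  have h2 : Real.cos u = 1 - 2 * Real.sin (|u| / 2) ^ 2 := by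
    have h3 := Real.cos_two_mul (|u| / 2)
    have h4 := Real.sin_sq_add_cos_sq (|u| / 2)
    rw [show 2 * (|u| / 2) = |u| by ring, Real.cos_abs] at h3
    linarith
  have h5 : (2 / Real.pi * (|u| / 2)) ^ 2 ≤ Real.sin (|u| / 2) ^ 2 :=
    pow_le_pow_left₀ (by positivity) h1 2
  have h6 : 2 * (2 / Real.pi * (|u| / 2)) ^ 2 = 2 / Real.pi ^ 2 * u ^ 2 := by
    rw [← sq_abs u]
    field_simp
  rw [h2, ← h6]
  linarith

theorem one_sub_cos_single_ge (j : Fin D) (s : Fin D → ℝ) (hs : s ∈ cube D) :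
    8 * s j ^ 2 ≤
      1 - Real.cos (2 * Real.pi * ∑ i, ((Pi.single j 1 : Fin D → ℤ) i : ℝ) * s i) := by
  have h0 : ∑ i, ((Pi.single j 1 : Fin D → ℤ) i : ℝ) * s i = s j := by
    rw [Finset.sum_eq_single j]
    · simp
    · intro i _ hi
      rw [Pi.single_eq_of_ne hi]
      simp
    · intro h
      exact absurd (Finset.mem_univ j) h
  rw [h0]
  have h1 : |2 * Real.pi * s j| ≤ Real.pi := by
    rw [abs_mul, abs_of_pos (by positivity : (0 : ℝ) < 2 * Real.pi)]
    have h2 := hs j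
    have h3 : |s j| ≤ 1 / 2 := abs_le.2 ⟨by linarith [h2.1], by linarith [h2.2]⟩
    have h4 := mul_le_mul_of_nonneg_left h3 (by positivity : (0 : ℝ) ≤ 2 * Real.pi)
    linarith
  have h2 := cos_le_quad h1
  have h3 : 2 / Real.pi ^ 2 * (2 * Real.pi * s j) ^ 2 = 8 * s j ^ 2 := by
    field_simp
    ring
  linarith

/-- The increment function. -/
noncomputable def tt (b : (Fin D → ℤ) → ℝ) (s : Fin D → ℝ) : ℝ :=
  ∑' x, b x * (1 - Real.cos (2 * Real.pi * ∑ j, (x j : ℝ) * s j))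

theorem tt_summable {b : (Fin D → ℤ) → ℝ} (hb : Summable b) (s : Fin D → ℝ) :
    Summable (fun x => b x * (1 - Real.cos (2 * Real.pi * ∑ j, (x j : ℝ) * s j))) := by
  refine Summable.of_norm_bounded (hb.abs.mul_right 2) ?_
  intro x
  rw [Real.norm_eq_abs, abs_mul]
  refine mul_le_mul_of_nonneg_left ?_ (abs_nonneg _)
  have h1 := Real.neg_one_le_cos (2 * Real.pi * ∑ j, (x j : ℝ) * s j)
  have h2 := Real.cos_le_one (2 * Real.pi * ∑ j, (x j : ℝ) * s j)
  rw [abs_le]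
  constructor <;> linarith

theorem tt_le {b : (Fin D → ℤ) → ℝ} {C2 : ℝ} (hb0 : ∀ x, 0 ≤ b x) (hb : Summable b)
    (h2 : Summable (fun x => b x * ∑ j, (x j : ℝ) ^ 2))
    (h2' : ∑' x, b x * ∑ j, (x j : ℝ) ^ 2 ≤ C2) (s : Fin D → ℝ) :
    tt b s ≤ 2 * Real.pi ^ 2 * C2 * ∑ j, s j ^ 2 := by
  have h3 : tt b s ≤ ∑' x, (b x * ∑ j, (x j : ℝ) ^ 2) * (2 * Real.pi ^ 2 * ∑ j, s j ^ 2) := by
    refine (tt_summable hb s).tsum_le_tsum ?_ (h2.mul_right _)
    intro x
    have := mul_le_mul_of_nonneg_left (one_sub_cos_le x s) (hb0 x)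
    refine this.trans (le_of_eq ?_)
    ring
  refine h3.trans ?_
  rw [tsum_mul_right]
  have h4 : 0 ≤ 2 * Real.pi ^ 2 * ∑ j, s j ^ 2 :=
    mul_nonneg (by positivity) (Finset.sum_nonneg (fun j _ => sq_nonneg _))
  have := mul_le_mul_of_nonneg_right h2' h4
  refine this.trans (le_of_eq ?_)
  ring

theorem tt_ge {b : (Fin D → ℤ) → ℝ} {c0 : ℝ} (hb0 : ∀ x, 0 ≤ b x) (hb : Summable b)
    (h1 : ∀ j, c0 ≤ b (Pi.single j 1)) {s : Fin D → ℝ} (hs : s ∈ cube D) :
    8 * c0 * ∑ j, s j ^ 2 ≤ tt b s := by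
  classical
  have hnn : ∀ x : Fin D → ℤ,
      0 ≤ b x * (1 - Real.cos (2 * Real.pi * ∑ j, (x j : ℝ) * s j)) := by
    intro x
    refine mul_nonneg (hb0 x) ?_
    have := Real.cos_le_one (2 * Real.pi * ∑ j, (x j : ℝ) * s j)
    linarith
  have hinj : Function.Injective (fun j : Fin D => (Pi.single j 1 : Fin D → ℤ)) := by
    intro i j h
    by_contra hne
    have h2 := congrFun h i
    simp only at h2
    rw [Pi.single_eq_same, Pi.single_eq_of_ne hne] at h2
    exact one_ne_zero h2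
  have h3 := (tt_summable hb s).sum_le_tsum
    (Finset.univ.image (fun j : Fin D => (Pi.single j 1 : Fin D → ℤ))) (fun x _ => hnn x)
  rw [Finset.sum_image (fun i _ j _ h => hinj h)] at h3
  refine le_trans ?_ h3
  rw [Finset.mul_sum]
  refine Finset.sum_le_sum (fun j _ => ?_)
  have h4 := one_sub_cos_single_ge j s hs
  have h5 : 0 ≤ 8 * s j ^ 2 := by positivity
  calc 8 * c0 * s j ^ 2 = c0 * (8 * s j ^ 2) := by ring
    _ ≤ b (Pi.single j 1) * (8 * s j ^ 2) := mul_le_mul_of_nonneg_right (h1 j) h5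
    _ ≤ _ := mul_le_mul_of_nonneg_left h4 (hb0 _)

theorem tt_nonneg {b : (Fin D → ℤ) → ℝ} (hb0 : ∀ x, 0 ≤ b x) (s : Fin D → ℝ) : 0 ≤ tt b s := by
  refine tsum_nonneg ?_
  intro x
  refine mul_nonneg (hb0 x) ?_
  have := Real.cos_le_one (2 * Real.pi * ∑ j, (x j : ℝ) * s j)
  linarith

theorem norm_fs {b R : (Fin D → ℤ) → ℝ} {ε : ℝ} (hε : 0 < ε) (hb0 : ∀ x, 0 ≤ b x)
    (hb : HasSum b (1 - ε)) (hsym : ∀ x, b (-x) = b x) (hR : Summable R)
    (h : ∀ x, R x = (if x = 0 then 1 else 0) + ∑' y, b y * R (x - y)) (s : Fin D → ℝ) :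
    ‖fs R s‖ = 1 / (ε + tt b s) := by
  have h1 := fs_renewal hb.summable hR h s
  have h2 := fs_symm hb.summable hsym s
  have h3 : ∑' x, b x * Real.cos (2 * Real.pi * ∑ j, (x j : ℝ) * s j) = 1 - (ε + tt b s) := by
    have h4 : (fun x => b x * Real.cos (2 * Real.pi * ∑ j, (x j : ℝ) * s j)) =
        fun x => b x - b x * (1 - Real.cos (2 * Real.pi * ∑ j, (x j : ℝ) * s j)) := by
      funext x
      ring
    rw [h4, hb.summable.tsum_sub (tt_summable hb.summable s), hb.tsum_eq]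
    unfold tt
    ring
  rw [h3] at h2
  have h5 : 0 < ε + tt b s := by
    have := tt_nonneg hb0 s
    linarith
  have h6 : ((ε + tt b s : ℝ) : ℂ) * fs R s = 1 := by
    have h7 : fs R s - fs b s * fs R s = 1 := by
      rw [sub_eq_iff_eq_add]
      exact h1
    rw [← h7, h2]
    push_cast
    ring
  have h8 := congrArg (fun z => ‖z‖) h6
  simp only [norm_mul, Complex.norm_real, Real.norm_eq_abs, abs_of_pos h5, norm_one] at h8
  rw [eq_div_iff h5.ne', mul_comm]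
  exact h8

theorem sum_sq_eq {b R : (Fin D → ℤ) → ℝ} {ε : ℝ} (hε : 0 < ε) (hb0 : ∀ x, 0 ≤ b x)
    (hb : HasSum b (1 - ε)) (hsym : ∀ x, b (-x) = b x) (hR : Summable R)
    (h : ∀ x, R x = (if x = 0 then 1 else 0) + ∑' y, b y * R (x - y)) :
    ∑' x, R x ^ 2 = ∫ s in cube D, 1 / (ε + tt b s) ^ 2 := by
  rw [(parseval hR).tsum_eq]
  congr 1
  funext s
  rw [norm_fs hε hb0 hb hsym hR h, div_pow, one_pow]

theorem integrableOn_cube {g : (Fin D → ℝ) → ℝ} (hg : Continuous g) :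
    IntegrableOn g (cube D) := by
  have h1 : cube D ⊆ Icc (fun _ => -(1 / 2) : Fin D → ℝ) (fun _ => 1 / 2) := by
    intro s hs
    constructor
    · intro i
      exact (hs i).1.le
    · intro i
      have := (hs i).2
      linarith
  exact (hg.continuousOn.integrableOn_compact isCompact_Icc).mono_set h1

theorem continuous_den {ε c : ℝ} (hε : 0 < ε) (hc : 0 ≤ c) :
    Continuous (fun s : Fin D → ℝ => 1 / (ε + c * ∑ i, s i ^ 2) ^ 2) := by
  refine Continuous.div continuous_const (by fun_prop) ?_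
  intro s
  have h1 : 0 ≤ c * ∑ i, s i ^ 2 := mul_nonneg hc (Finset.sum_nonneg (fun i _ => sq_nonneg _))
  positivity

/-- **The square sum of the Green function** of a symmetric kernel of mass `1 - ε`. -/
theorem green_sq (hD : 3 ≤ D) {C2 c0 : ℝ} (hC : 0 < C2) (hc : 0 < c0) :
    ∃ c > 0, ∃ C > 0, ∀ (ε : ℝ) (b R : (Fin D → ℤ) → ℝ), 0 < ε → ε ≤ 1 → (∀ x, 0 ≤ b x) →
      HasSum b (1 - ε) → (∀ x, b (-x) = b x) → Summable (fun x => b x * ∑ j, (x j : ℝ) ^ 2) →
      ∑' x, b x * ∑ j, (x j : ℝ) ^ 2 ≤ C2 → (∀ j, c0 ≤ b (Pi.single j 1)) → Summable R →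
      (∀ x, R x = (if x = 0 then 1 else 0) + ∑' y, b y * R (x - y)) →
      c * phi D ε ≤ ∑' x, R x ^ 2 ∧ ∑' x, R x ^ 2 ≤ C * phi D ε := by
  obtain ⟨c1, hc1, h1⟩ := JI_ge D hD
  obtain ⟨C1, hC1, h2⟩ := JI_le D hD
  set K1 : ℝ := 2 * Real.pi ^ 2 * C2 with hK1
  have hK1p : 0 < K1 := by positivity
  set A : ℝ := (Real.exp (-(1 / 4)) / √(max 1 K1)) ^ D with hA
  set B : ℝ := (3 / √(min 1 (8 * c0))) ^ D with hB
  have hA0 : 0 < A := by
    have : 0 < max 1 K1 := lt_of_lt_of_le one_pos (le_max_left _ _)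
    positivity
  have hB0 : 0 < B := by
    have : 0 < min 1 (8 * c0) := lt_min one_pos (by positivity)
    positivity
  refine ⟨A * c1, by positivity, B * C1, by positivity, ?_⟩
  intro ε b R hε hε1 hb0 hb hsym hm hm2 hb1 hR hren
  have hint : IntegrableOn (fun s => 1 / (ε + tt b s) ^ 2) (cube D) := by
    have h3 : (fun s => 1 / (ε + tt b s) ^ 2) = fun s => ‖fs R s‖ ^ 2 := by
      funext s
      rw [norm_fs hε hb0 hb hsym hR hren, div_pow, one_pow]
    rw [h3]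
    exact integrableOn_cube ((fs_continuous R).norm.pow 2)
  rw [sum_sq_eq hε hb0 hb hsym hR hren]
  constructor
  · have h3 : IC D ε K1 ≤ ∫ s in cube D, 1 / (ε + tt b s) ^ 2 := by
      unfold IC
      refine setIntegral_mono_on (integrableOn_cube (continuous_den hε hK1p.le)) hint
        (measurableSet_cube D) ?_
      intro s _
      have h4 := tt_le hb0 hb.summable hm hm2 s
      have h5 := tt_nonneg hb0 s
      refine one_div_le_one_div_of_le (by positivity) ?_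
      refine pow_le_pow_left₀ (by positivity) ?_ 2
      linarith
    have h4 := IC_ge D hε hK1p
    have h5 := mul_le_mul_of_nonneg_left (h1 ε hε hε1) hA0.le
    calc A * c1 * phi D ε = A * (c1 * phi D ε) := by ring
      _ ≤ A * JI D ε := h5
      _ ≤ IC D ε K1 := h4
      _ ≤ _ := h3
  · have h3 : ∫ s in cube D, 1 / (ε + tt b s) ^ 2 ≤ IC D ε (8 * c0) := by
      unfold IC
      refine setIntegral_mono_on hint (integrableOn_cube (continuous_den hε (by positivity)))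
        (measurableSet_cube D) ?_
      intro s hs
      have h4 := tt_ge hb0 hb.summable hb1 hs
      have h5 : 0 ≤ 8 * c0 * ∑ j, s j ^ 2 :=
        mul_nonneg (by positivity) (Finset.sum_nonneg (fun j _ => sq_nonneg _))
      refine one_div_le_one_div_of_le (by positivity) ?_
      refine pow_le_pow_left₀ (by positivity) ?_ 2
      linarith
    have h4 := IC_le D hε (c := 8 * c0) (by positivity)
    have h5 := mul_le_mul_of_nonneg_left (h2 ε hε hε1) hB0.le
    calc _ ≤ IC D ε (8 * c0) := h3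
      _ ≤ B * JI D ε := h4
      _ ≤ B * (C1 * phi D ε) := h5
      _ = _ := by ring

end Pool.Agent.DL.An
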