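import Pool.Agent.DL.AnR

/-!
# Renewal kernels on the lattice: the Green function is bounded
-/

set_option autoImplicit false

namespace Pool.Agent.DL.An

open MeasureTheory Set UnitAddTorus

attribute [local instance] instMeasureSpaceUnitAddCircle
attribute [local instance] instIsAddHaarMeasureUnitAddCircleVolume
attribute [local instance] instIsProbabilityMeasureUnitAddCircleVolume

variable {D : ℕ}

theorem gI_antitone : Antitone gI := by
  intro a b hab
  unfold gI
  refine setIntegral_mono_on (gI_int b _ _) (gI_int a _ _) measurableSet_Ioc ?_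
  intro u _
  apply Real.exp_le_exp.2
  have := mul_le_mul_of_nonneg_right hab (sq_nonneg u)
  linarith

theorem laplace1 {a : ℝ} (ha : 0 < a) : ∫ τ in Ioi (0 : ℝ), Real.exp (-a * τ) = 1 / a := by
  have h := integral_exp_mul_Ioi (a := -a) (by linarith) 0
  rw [h, mul_zero, Real.exp_zero]
  field_simp

theorem I1_eq (D : ℕ) {ε c : ℝ} (hε : 0 < ε) (hc : 0 ≤ c) :
    ∫ s in cube D, 1 / (ε + c * ∑ i, s i ^ 2) =
      ∫ τ in Ioi (0 : ℝ), Real.exp (-ε * τ) * gI (c * τ) ^ D := by
  have h1 : ∫ s in cube D, 1 / (ε + c * ∑ i, s i ^ 2) = ∫ s in cube D, ∫ τ in Ioi (0 : ℝ),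
      Real.exp (-(ε + c * ∑ i, s i ^ 2) * τ) := by
    congr 1
    funext s
    rw [laplace1]
    have : 0 ≤ ∑ i, s i ^ 2 := Finset.sum_nonneg (fun i _ => sq_nonneg _)
    have := mul_nonneg hc this
    linarith
  rw [h1, integral_integral_swap]
  · refine setIntegral_congr_fun measurableSet_Ioi ?_
    intro τ _
    simp only
    rw [← gauss_cube, ← integral_const_mul]
    congr 1
    funext s
    rw [← Real.exp_add]
    congr 1
    ring
  · have hb : Integrable (fun z : (Fin D → ℝ) × ℝ => (1 : ℝ) * Real.exp (-ε * z.2))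
        ((volume.restrict (cube D)).prod (volume.restrict (Ioi (0 : ℝ)))) :=
      Integrable.mul_prod (integrable_const (1 : ℝ)) (integrableOn_exp_mul_Ioi (by linarith) 0)
    refine Integrable.mono hb ?_ ?_
    · apply Continuous.aestronglyMeasurable
      fun_prop
    · have hae : ∀ᵐ z ∂((volume.restrict (cube D)).prod (volume.restrict (Ioi (0 : ℝ)))),
          z.2 ∈ Ioi (0 : ℝ) := by
        have h3 : ∀ᵐ τ ∂(volume.restrict (Ioi (0 : ℝ))), τ ∈ Ioi (0 : ℝ) :=
          ae_restrict_mem measurableSet_Ioi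
        exact Measure.quasiMeasurePreserving_snd.ae h3
      filter_upwards [hae] with z hz
      simp only [Function.uncurry, one_mul, Real.norm_eq_abs, Real.abs_exp]
      apply Real.exp_le_exp.2
      have h2 : 0 ≤ c * ∑ i, z.1 i ^ 2 :=
        mul_nonneg hc (Finset.sum_nonneg (fun i _ => sq_nonneg _))
      have h4 : 0 ≤ (c * ∑ i, z.1 i ^ 2) * z.2 := mul_nonneg h2 (le_of_lt hz)
      nlinarith

theorem int_three_halves : IntegrableOn (fun τ : ℝ => (τ + 1) ^ (-(3 / 2) : ℝ)) (Ioi 0) ∧
    ∫ τ in Ioi (0 : ℝ), (τ + 1) ^ (-(3 / 2) : ℝ) = 2 := by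
  have h6 : (fun x : ℝ => x + 1) ⁻¹' Ioi 1 = Ioi 0 := by
    ext x
    simp
  constructor
  · have h1 := integrableOn_Ioi_rpow_of_lt (a := -(3 / 2)) (c := 1) (by norm_num) one_pos
    have h2 := (MeasurePreserving.integrableOn_comp_preimage
      (measurePreserving_add_right volume (1 : ℝ))
      (MeasurableEquiv.addRight (1 : ℝ)).measurableEmbedding (f := fun t : ℝ => t ^ (-(3 / 2) : ℝ))
      (s := Ioi 1)).2 h1
    rw [h6] at h2
    exact h2
  · have h5 := (measurePreserving_add_right volume (1 : ℝ)).setIntegral_preimage_emb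
      (MeasurableEquiv.addRight (1 : ℝ)).measurableEmbedding
      (fun t : ℝ => t ^ (-(3 / 2) : ℝ)) (Ioi 1)
    rw [h6] at h5
    rw [h5, integral_Ioi_rpow_of_lt (by norm_num) one_pos]
    norm_num

theorem I1_le (hD : 3 ≤ D) {ε c : ℝ} (hε : 0 < ε) (hc : 0 < c) :
    ∫ s in cube D, 1 / (ε + c * ∑ i, s i ^ 2) ≤ (3 / √(min 1 c)) ^ 3 * 2 := by
  rw [I1_eq D hε hc.le, ← int_three_halves.2, ← integral_const_mul]
  have hm : 0 < min 1 c := lt_min one_pos hc
  refine setIntegral_mono_on ?_ (int_three_halves.1.const_mul _) measurableSet_Ioi ?_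
  · refine Integrable.mono' (integrableOn_exp_mul_Ioi (a := -ε) (by linarith) 0) ?_ ?_
    · refine AEStronglyMeasurable.mul ?_ ?_
      · refine Measurable.aestronglyMeasurable ?_
        fun_prop
      · refine Measurable.aestronglyMeasurable ?_
        have h1 : Antitone (fun τ => gI (c * τ)) := fun a b hab =>
          gI_antitone (mul_le_mul_of_nonneg_left hab hc.le)
        exact h1.measurable.pow_const D
    · filter_upwards [ae_restrict_mem measurableSet_Ioi] with τ hτ
      have hτ' : 0 < τ := hτ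
      have h1 : gI (c * τ) ^ D ≤ 1 := pow_le_one₀ (gI_nonneg _) (gI_le_one (by positivity))
      have h3 : 0 ≤ gI (c * τ) ^ D := pow_nonneg (gI_nonneg _) _
      have h2 : 0 ≤ Real.exp (-ε * τ) := (Real.exp_pos _).le
      rw [Real.norm_of_nonneg (mul_nonneg h2 h3)]
      nlinarith
  · intro τ hτ
    have hτ' : 0 < τ := hτ
    have h0 : Real.exp (-ε * τ) ≤ 1 := by
      rw [Real.exp_le_one_iff]
      have := mul_pos hε hτ'
      linarith
    have h1 : gI (c * τ) ≤ 3 / √(min 1 c) * (1 / √(1 + τ)) := by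
      refine (gI_le (by positivity)).trans ?_
      rw [div_mul_div_comm, mul_one]
      refine div_le_div_of_nonneg_left (by norm_num) ?_ ?_
      · positivity
      · rw [← Real.sqrt_mul hm.le]
        apply Real.sqrt_le_sqrt
        have h4 : min 1 c ≤ 1 := min_le_left _ _
        have h5 : min 1 c ≤ c := min_le_right _ _
        nlinarith
    have h2 : gI (c * τ) ^ D ≤ gI (c * τ) ^ 3 :=
      pow_le_pow_of_le_one (gI_nonneg _) (gI_le_one (by positivity)) hD
    have h8 : (τ + 1) ^ (-(3 / 2) : ℝ) = (1 / √(1 + τ)) ^ 3 := by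
      rw [add_comm τ 1, show (-(3 / 2) : ℝ) = (-(1 / 2)) * ((3 : ℕ) : ℝ) by norm_num,
        Real.rpow_mul (by linarith), Real.rpow_natCast, Real.rpow_neg (by linarith),
        ← Real.sqrt_eq_rpow, one_div]
    rw [h8]
    calc Real.exp (-ε * τ) * gI (c * τ) ^ D ≤ 1 * gI (c * τ) ^ 3 :=
          mul_le_mul h0 h2 (pow_nonneg (gI_nonneg _) _) zero_le_one
      _ ≤ (3 / √(min 1 c) * (1 / √(1 + τ))) ^ 3 := by
          rw [one_mul]
          exact pow_le_pow_left₀ (gI_nonneg _) h1 3
      _ = _ := by rw [mul_pow]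

theorem abs_coeff_le {f : (Fin D → ℤ) → ℝ} (hf : Summable f) (n : Fin D → ℤ) :
    |f n| ≤ ∫ s in cube D, ‖fs f s‖ := by
  have h1 := coeff_fh hf n
  have h2 : ‖mFourierCoeff (fh f) n‖ ≤ ∫ t : UnitAddTorus (Fin D), ‖fh f t‖ := by
    unfold mFourierCoeff
    refine (norm_integral_le_integral_norm _).trans (le_of_eq ?_)
    congr 1
    funext t
    rw [norm_smul]
    have h3 : ‖(mFourier (-n) : C(UnitAddTorus (Fin D), ℂ)) t‖ = 1 := by
      unfold mFourier
      simp only [ContinuousMap.coe_mk, norm_prod]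
      refine Finset.prod_eq_one (fun i _ => ?_)
      rw [fourier_apply]
      exact Circle.norm_coe _
    rw [h3, one_mul]
  rw [h1, Complex.norm_real, Real.norm_eq_abs,
    integral_preimage (fun t => ‖fh f t‖) (fun _ => -(1 / 2))] at h2
  exact h2

/-- **The Green function is bounded** in dimension at least three. -/
theorem green_sup (hD : 3 ≤ D) {c0 ε : ℝ} (hc : 0 < c0) {b R : (Fin D → ℤ) → ℝ} (hε : 0 < ε)
    (hb0 : ∀ x, 0 ≤ b x) (hb : HasSum b (1 - ε)) (hsym : ∀ x, b (-x) = b x)
    (hb1 : ∀ j, c0 ≤ b (Pi.single j 1)) (hR : Summable R)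
    (hren : ∀ x, R x = (if x = 0 then 1 else 0) + ∑' y, b y * R (x - y)) (x : Fin D → ℤ) :
    |R x| ≤ (3 / √(min 1 (8 * c0))) ^ 3 * 2 := by
  refine (abs_coeff_le hR x).trans ?_
  refine le_trans ?_ (I1_le hD hε (c := 8 * c0) (by positivity))
  refine setIntegral_mono_on (integrableOn_cube (fs_continuous R).norm) ?_
    (measurableSet_cube D) ?_
  · refine integrableOn_cube (Continuous.div continuous_const (by fun_prop) ?_)
    intro s
    have h1 : 0 ≤ 8 * c0 * ∑ i, s i ^ 2 :=
      mul_nonneg (by positivity) (Finset.sum_nonneg (fun i _ => sq_nonneg _))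
    linarith
  · intro s hs
    rw [norm_fs hε hb0 hb hsym hR hren]
    have h4 := tt_ge hb0 hb.summable hb1 hs
    have h5 : 0 ≤ 8 * c0 * ∑ j, s j ^ 2 :=
      mul_nonneg (by positivity) (Finset.sum_nonneg (fun j _ => sq_nonneg _))
    refine one_div_le_one_div_of_le (by positivity) ?_
    linarith

end Pool.Agent.DL.An
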