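import Pool.Agent.SB.Defs

/-!
# The Potts model with a defect line and a boundary condition
-/

set_option autoImplicit false
set_option linter.unusedSectionVars false

namespace Pool.Agent.DL

open Finset

/-- The colour at `x`: given by `s` in `Λ` and by `η` outside. -/
def bx {D q : ℕ} {Λ : Finset (SB.Site D)} (η : SB.Site D → ZMod q) (s : Λ → ZMod q)
    (x : SB.Site D) : ZMod q := if h : x ∈ Λ then s ⟨x, h⟩ else η x

/-- The sum of the couplings over the unordered nearest neighbour pairs with equal colours and at
least one site in `Λ`, for the boundary condition `η`. -/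
noncomputable def enB {D q : ℕ} (J : ℝ) (Λ : Finset (SB.Site D)) (η : SB.Site D → ZMod q)
    (s : Λ → ZMod q) : ℝ :=
  (1 / 2) * ∑ x ∈ Λ, ∑ y ∈ Λ,
      (if SB.dist1 x y = 1 ∧ bx η s x = bx η s y then SB.coup J x y else 0) +
    ∑ x ∈ Λ, ∑ y ∈ SB.nb x \ Λ, if bx η s x = bx η s y then SB.coup J x y else 0

/-- The probability that `x` and `y` have the same colour, for the boundary condition `η`. -/
noncomputable def sameB (D q : ℕ) [NeZero q] (β J : ℝ) (Λ : Finset (SB.Site D))
    (η : SB.Site D → ZMod q) (x y : SB.Site D) : ℝ :=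
  (∑ s : Λ → ZMod q, if bx η s x = bx η s y then Real.exp (β * enB J Λ η s) else 0) /
    ∑ s : Λ → ZMod q, Real.exp (β * enB J Λ η s)

end Pool.Agent.DL
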