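import Pool.Agent.DL.AnG

/-!
# The conclusion: from the function `F` to the asymptotics of the correlation length
-/

set_option autoImplicit false

namespace Pool.Agent.DL.An

open Set Filter Topology

/-- The primitive of `phi`. -/
noncomputable def Phi (D : ℕ) (δ : ℝ) : ℝ :=
  if D = 3 then 2 * √δ else if D = 4 then δ * (2 - Real.log δ) else δ

/-- The order of magnitude in the theorem. -/
noncomputable def thf (D : ℕ) (h : ℝ) : ℝ :=
  if D = 3 then h ^ 2 else if D = 4 then h / |Real.log h| else h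

theorem Phi_hasDerivAt {D : ℕ} {δ : ℝ} (hδ : 0 < δ) : HasDerivAt (Phi D) (phi D δ) δ := by
  unfold phi
  by_cases h3 : D = 3
  · have h1 : HasDerivAt (fun x : ℝ => 2 * √x) (2 * (1 / (2 * √δ))) δ :=
      (Real.hasDerivAt_sqrt hδ.ne').const_mul 2
    rw [if_pos h3]
    have h2 : Phi D = fun x : ℝ => 2 * √x := by
      funext x
      unfold Phi
      rw [if_pos h3]
    rw [h2]
    convert h1 using 1
    have : √δ ≠ 0 := (Real.sqrt_pos.2 hδ).ne'
    field_simp
  · rw [if_neg h3]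
    by_cases h4 : D = 4
    · rw [if_pos h4]
      have h2 : Phi D = fun x : ℝ => x * (2 - Real.log x) := by
        funext x
        unfold Phi
        rw [if_neg h3, if_pos h4]
      rw [h2]
      have h1 : HasDerivAt (fun x : ℝ => x * (2 - Real.log x)) (1 * (2 - Real.log δ) +
          δ * (0 - δ⁻¹)) δ :=
        (hasDerivAt_id' δ).mul ((hasDerivAt_const δ (2 : ℝ)).sub (Real.hasDerivAt_log hδ.ne'))
      convert h1 using 1
      rw [one_div, Real.log_inv]
      field_simp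
      ring
    · rw [if_neg h4]
      have h2 : Phi D = fun x : ℝ => x := by
        funext x
        unfold Phi
        rw [if_neg h3, if_neg h4]
      rw [h2]
      exact hasDerivAt_id' δ

theorem Phi_tendsto (D : ℕ) : Tendsto (Phi D) (𝓝[>] 0) (𝓝 0) := by
  by_cases h3 : D = 3
  · have h2 : Phi D = fun x : ℝ => 2 * √x := by
      funext x
      unfold Phi
      rw [if_pos h3]
    rw [h2]
    have h1 : Continuous (fun x : ℝ => 2 * √x) := by fun_prop
    have h4 := (h1.tendsto 0).mono_left (nhdsWithin_le_nhds (s := Ioi (0 : ℝ)))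
    simpa using h4
  · by_cases h4 : D = 4
    · have h2 : Phi D = fun x : ℝ => 2 * x - Real.log x * x := by
        funext x
        unfold Phi
        rw [if_neg h3, if_pos h4]
        ring
      rw [h2]
      have h1 : Tendsto (fun x : ℝ => Real.log x * x) (𝓝[>] 0) (𝓝 0) := by
        simpa only [Real.rpow_one] using tendsto_log_mul_rpow_nhdsGT_zero zero_lt_one
      have h5 : Tendsto (fun x : ℝ => 2 * x) (𝓝[>] 0) (𝓝 (2 * 0)) :=
        ((continuous_const.mul continuous_id).tendsto 0).mono_left nhdsWithin_le_nhds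
      have h6 := h5.sub h1
      simpa using h6
    · have h2 : Phi D = fun x : ℝ => x := by
        funext x
        unfold Phi
        rw [if_neg h3, if_neg h4]
      rw [h2]
      exact (continuous_id.tendsto 0).mono_left nhdsWithin_le_nhds

/-- A function on an interval with non-positive derivative and limit `0` at the right end is
non-negative. -/
theorem nonneg_of_deriv {a b : ℝ} {G G' : ℝ → ℝ} (hG : ∀ z ∈ Ioo a b, HasDerivAt G (G' z) z)
    (hG' : ∀ z ∈ Ioo a b, G' z ≤ 0) (hl : Tendsto G (𝓝[<] b) (𝓝 0)) {z : ℝ} (hz : z ∈ Ioo a b) :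
    0 ≤ G z := by
  have hanti : AntitoneOn G (Ioo a b) := by
    refine antitoneOn_of_deriv_nonpos (convex_Ioo a b) ?_ ?_ ?_
    · exact fun x hx => (hG x hx).continuousAt.continuousWithinAt
    · rw [interior_Ioo]
      exact fun x hx => (hG x hx).differentiableAt.differentiableWithinAt
    · rw [interior_Ioo]
      intro x hx
      rw [(hG x hx).deriv]
      exact hG' x hx
  refine le_of_tendsto hl ?_
  have h1 : ∀ᶠ w in 𝓝[<] b, w ∈ Ioo z b := Ioo_mem_nhdsLT hz.2
  filter_upwards [h1] with w hw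
  exact hanti hz ⟨hz.1.trans hw.1, hw.2⟩ hw.1.le

/-- Comparison of a function with the primitive of `phi`. -/
theorem F_comp {D : ℕ} {F F' : ℝ → ℝ} {a b c C : ℝ}
    (hF : ∀ z ∈ Ioo a b, HasDerivAt F (F' z) z)
    (h1 : ∀ z ∈ Ioo a b, c * phi D (b - z) ≤ -F' z) (h2 : ∀ z ∈ Ioo a b, -F' z ≤ C * phi D (b - z))
    (hl : Tendsto F (𝓝[<] b) (𝓝 0)) {z : ℝ} (hz : z ∈ Ioo a b) :
    c * Phi D (b - z) ≤ F z ∧ F z ≤ C * Phi D (b - z) := by
  have hP : ∀ z ∈ Ioo a b, HasDerivAt (fun z => Phi D (b - z)) (-phi D (b - z)) z := by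
    intro z hz
    have h3 := Phi_hasDerivAt (D := D) (δ := b - z) (by linarith [hz.2])
    have h4 : HasDerivAt (fun z : ℝ => b - z) (-1) z := by
      simpa using (hasDerivAt_id' z).const_sub b
    have h5 := h3.comp z h4
    rw [mul_neg_one] at h5
    exact h5
  have hPl : Tendsto (fun z => Phi D (b - z)) (𝓝[<] b) (𝓝 0) := by
    refine (Phi_tendsto D).comp ?_
    refine tendsto_nhdsWithin_iff.2 ⟨?_, ?_⟩
    · have h5 : Continuous (fun z : ℝ => b - z) := by fun_prop
      have h6 := (h5.tendsto b).mono_left (nhdsWithin_le_nhds (s := Iio b))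
      simpa using h6
    · filter_upwards [self_mem_nhdsWithin] with w hw
      have : w < b := hw
      simpa using this
  constructor
  · have h3 := nonneg_of_deriv (G := fun z => F z - c * Phi D (b - z))
      (G' := fun z => F' z - c * (-phi D (b - z)))
      (fun z hz => (hF z hz).sub ((hP z hz).const_mul c)) (by
        intro z hz
        have := h1 z hz
        linarith) (by simpa using hl.sub (hPl.const_mul c)) hz
    linarith
  · have h3 := nonneg_of_deriv (G := fun z => C * Phi D (b - z) - F z)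
      (G' := fun z => C * (-phi D (b - z)) - F' z)
      (fun z hz => ((hP z hz).const_mul C).sub (hF z hz)) (by
        intro z hz
        have := h2 z hz
        linarith) (by simpa using (hPl.const_mul C).sub hl) hz
    linarith

theorem Phi_continuousAt {D : ℕ} {δ : ℝ} (hδ : 0 < δ) : ContinuousAt (Phi D) δ :=
  (Phi_hasDerivAt hδ).continuousAt

/-- Inversion of `Phi`. -/
theorem Phi_inv (D : ℕ) {c C : ℝ} (hc : 0 < c) (hC : 0 < C) : ∃ c' > 0, ∃ C' > 0, ∃ e > 0,
    ∀ h δ : ℝ, 0 < h → h < e → 0 < δ → δ ≤ 1 → c * h ≤ Phi D δ → Phi D δ ≤ C * h →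
      c' * thf D h ≤ δ ∧ δ ≤ C' * thf D h := by
  by_cases h3 : D = 3
  · refine ⟨c ^ 2 / 4, by positivity, C ^ 2 / 4, by positivity, 1, one_pos, ?_⟩
    intro h δ hh _ hδ _ h1 h2
    unfold Phi at h1 h2
    unfold thf
    rw [if_pos h3] at h1 h2 ⊢
    have h4 : √δ ^ 2 = δ := Real.sq_sqrt hδ.le
    have h5 : 0 ≤ √δ := Real.sqrt_nonneg _
    constructor
    · have h6 : (c * h) ^ 2 ≤ (2 * √δ) ^ 2 := pow_le_pow_left₀ (by positivity) h1 2
      nlinarith
    · have h6 : (2 * √δ) ^ 2 ≤ (C * h) ^ 2 := pow_le_pow_left₀ (by positivity) h2 2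
      nlinarith
  · by_cases h4 : D = 4
    · -- the logarithmic case
      set e1 : ℝ := Real.exp (-(1 + 2 * |Real.log (C / 2)|)) with he1
      set e2 : ℝ := Real.exp (-(2 + 2 * |Real.log (2 / c)|)) with he2
      refine ⟨c / 3, by positivity, 2 * C, by positivity, min e1 e2,
        lt_min (Real.exp_pos _) (Real.exp_pos _), ?_⟩
      intro h δ hh hhe hδ hδ1 h1 h2
      unfold Phi at h1 h2
      unfold thf
      rw [if_neg h3, if_pos h4] at h1 h2 ⊢
      have hh1 : h < e1 := lt_of_lt_of_le hhe (min_le_left _ _)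
      have hh2 : h < e2 := lt_of_lt_of_le hhe (min_le_right _ _)
      have hl1 : Real.log h < -(1 + 2 * |Real.log (C / 2)|) := by
        rw [← Real.log_exp (-(1 + 2 * |Real.log (C / 2)|))]
        exact Real.log_lt_log hh hh1
      have hl2 : Real.log h < -(2 + 2 * |Real.log (2 / c)|) := by
        rw [← Real.log_exp (-(2 + 2 * |Real.log (2 / c)|))]
        exact Real.log_lt_log hh hh2
      have ha1 := abs_nonneg (Real.log (C / 2))
      have ha2 := abs_nonneg (Real.log (2 / c))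
      have hL0 : Real.log h < 0 := by linarith
      have hL : |Real.log h| = -Real.log h := abs_of_neg hL0
      have hLp : 0 < |Real.log h| := by rw [hL]; linarith
      have hlδ : Real.log δ ≤ 0 := Real.log_nonpos hδ.le hδ1
      constructor
      · -- lower bound
        have h5 : δ * (2 - Real.log δ) ≤ 2 * √δ := by
          have h6 : √δ ^ 2 = δ := Real.sq_sqrt hδ.le
          have h7 : 0 < √δ := Real.sqrt_pos.2 hδ
          have h8 : -Real.log δ ≤ 2 * (1 / √δ - 1) := by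
            have h9 : -Real.log δ = 2 * Real.log (1 / √δ) := by
              rw [one_div, Real.log_inv, Real.log_sqrt hδ.le]
              ring
            rw [h9]
            have := Real.log_le_sub_one_of_pos (x := 1 / √δ) (by positivity)
            linarith
          have h10 : δ * (2 - Real.log δ) ≤ δ * (2 * (1 / √δ)) :=
            mul_le_mul_of_nonneg_left (by linarith) hδ.le
          refine h10.trans (le_of_eq ?_)
          rw [← h6]
          field_simp
          rw [Real.sqrt_sq h7.le]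
        have h11 : c * h / 2 ≤ √δ := by linarith
        have h12 : Real.log (c * h / 2) ≤ Real.log √δ := Real.log_le_log (by positivity) h11
        have h13 : Real.log (c * h / 2) = Real.log h - Real.log (2 / c) := by
          rw [← Real.log_div hh.ne' (by positivity)]
          congr 1
          field_simp
        rw [Real.log_sqrt hδ.le, h13] at h12
        have h14 : Real.log (2 / c) ≤ |Real.log (2 / c)| := le_abs_self _
        have h15 : 2 - Real.log δ ≤ 3 * |Real.log h| := by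
          rw [hL]
          linarith
        have h16 : c * h ≤ δ * (3 * |Real.log h|) :=
          h1.trans (mul_le_mul_of_nonneg_left h15 hδ.le)
        rw [← mul_div_assoc, div_le_iff₀ hLp]
        linarith
      · -- upper bound
        have h5 : δ ≤ C / 2 * h := by
          have h6 : δ * 2 ≤ δ * (2 - Real.log δ) := mul_le_mul_of_nonneg_left (by linarith) hδ.le
          linarith
        have h7 : Real.log δ ≤ Real.log (C / 2) + Real.log h := by
          rw [← Real.log_mul (by positivity) hh.ne']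
          exact Real.log_le_log hδ h5
        have h8 : Real.log (C / 2) ≤ |Real.log (C / 2)| := le_abs_self _
        have h9 : |Real.log h| / 2 ≤ 2 - Real.log δ := by
          rw [hL]
          linarith
        have h10 : δ * (|Real.log h| / 2) ≤ C * h :=
          (mul_le_mul_of_nonneg_left h9 hδ.le).trans h2
        rw [← mul_div_assoc, le_div_iff₀ hLp]
        linarith
    · refine ⟨c, hc, C, hC, 1, one_pos, ?_⟩
      intro h δ _ _ _ _ h1 h2
      unfold Phi at h1 h2
      unfold thf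
      rw [if_neg h3, if_neg h4] at h1 h2 ⊢
      exact ⟨h1, h2⟩

/-- **The conclusion**, with the comparison of `F` and `Phi` as a hypothesis. -/
theorem conclusion_core (D : ℕ) (ξ : ℝ → ℝ) (F : ℝ → ℝ → ℝ) {Jc J1 c C δ0 : ℝ}
    (hJ : Jc < J1) (hc : 0 < c) (hC : 0 < C) (hδ0 : 0 < δ0)
    (hξ : ∀ J ∈ Ioo Jc J1, ξ J < ξ Jc)
    (hlip : ∀ J ∈ Ioo Jc J1, ξ Jc - ξ J ≤ C * (J - Jc))
    (hF0 : ∀ J ∈ Ioo Jc J1, ∀ z, Real.exp (ξ J) < z → z < Real.exp (ξ Jc) → F z J = 0)
    (hE1 : ∀ J ∈ Ioo Jc J1, ∀ z, Real.exp (ξ J) < z → z < Real.exp (ξ Jc) →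
      F z Jc - F z J ≤ C * (J - Jc))
    (hFn : ∀ J ∈ Ioo Jc J1, ∀ z, Real.exp (ξ Jc) - δ0 < z → z < Real.exp (ξ J) → 0 ≤ F z J)
    (hE2 : ∀ J ∈ Ioo Jc J1, ∀ z, Real.exp (ξ Jc) - δ0 < z → z < Real.exp (ξ J) →
      c * (J - Jc) ≤ F z Jc - F z J)
    (hFc : ∀ z ∈ Ioo (Real.exp (ξ Jc) - δ0) (Real.exp (ξ Jc)),
      c * Phi D (Real.exp (ξ Jc) - z) ≤ F z Jc ∧ F z Jc ≤ C * Phi D (Real.exp (ξ Jc) - z)) :
    ∃ c' > 0, ∃ C' > 0, ∃ e > 0, ∀ J ∈ Ioo Jc (Jc + e),
      c' * thf D (J - Jc) ≤ ξ Jc - ξ J ∧ ξ Jc - ξ J ≤ C' * thf D (J - Jc) := by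
  set zc : ℝ := Real.exp (ξ Jc) with hzc
  have hzc0 : 0 < zc := Real.exp_pos _
  obtain ⟨c1, hc1, C1, hC1, e0, he0, hinv⟩ := Phi_inv D (c := c / C) (C := C / c)
    (by positivity) (by positivity)
  set m : ℝ := min (1 / 2) (min (δ0 / (2 * zc)) (1 / (2 * zc))) with hm
  have hm0 : 0 < m := by
    refine lt_min (by norm_num) (lt_min ?_ ?_) <;> positivity
  set e : ℝ := min e0 (min (J1 - Jc) (m / C)) with he
  have he' : 0 < e := by
    refine lt_min he0 (lt_min ?_ ?_)
    · linarith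
    · positivity
  refine ⟨c1 / zc, by positivity, 2 * C1 / zc, by positivity, e, he', ?_⟩
  intro J hJJ
  have hJe0 : J - Jc < e0 := by
    have := hJJ.2
    have h3 : e ≤ e0 := min_le_left _ _
    linarith
  have hJ1 : J ∈ Ioo Jc J1 := by
    refine ⟨hJJ.1, ?_⟩
    have := hJJ.2
    have h3 : e ≤ J1 - Jc := (min_le_right _ _).trans (min_le_left _ _)
    linarith
  have hJm : C * (J - Jc) < m := by
    have := hJJ.2
    have h3 : e ≤ m / C := (min_le_right _ _).trans (min_le_right _ _)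
    have h4 : J - Jc < m / C := by linarith
    rw [lt_div_iff₀ hC] at h4
    linarith
  have hh : 0 < J - Jc := by linarith [hJJ.1]
  set g : ℝ := ξ Jc - ξ J with hg
  have hg0 : 0 < g := by linarith [hξ J hJ1]
  have hgm : g < m := lt_of_le_of_lt (hlip J hJ1) hJm
  have hg1 : g < 1 / 2 := lt_of_lt_of_le hgm (min_le_left _ _)
  -- the point `z_J`
  set zJ : ℝ := Real.exp (ξ J) with hzJ
  have hzJ' : zJ = zc * Real.exp (-g) := by
    rw [hzJ, hzc, ← Real.exp_add]
    congr 1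
    rw [hg]
    ring
  have hd1 : zc - zJ ≤ zc * g := by
    rw [hzJ']
    have := Real.add_one_le_exp (-g)
    nlinarith
  have hd2 : zc * g ≤ 2 * (zc - zJ) := by
    rw [hzJ']
    have h3 : Real.exp (-g) ≤ 1 - g / 2 := by
      have h4 := Real.add_one_le_exp g
      have h5 : Real.exp (-g) * Real.exp g = 1 := by
        rw [← Real.exp_add, neg_add_cancel, Real.exp_zero]
      have h6 : 0 < Real.exp (-g) := Real.exp_pos _
      have h7 : Real.exp (-g) * (g + 1) ≤ Real.exp (-g) * Real.exp g :=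
        mul_le_mul_of_nonneg_left h4 h6.le
      rw [h5] at h7
      have h8 : 1 ≤ (1 - g / 2) * (g + 1) := by nlinarith
      by_contra hcon
      have hcon' : 1 - g / 2 < Real.exp (-g) := not_le.1 hcon
      have h9 : (1 - g / 2) * (g + 1) < Real.exp (-g) * (g + 1) :=
        mul_lt_mul_of_pos_right hcon' (by linarith)
      linarith
    nlinarith
  set δ : ℝ := zc - zJ with hδ
  have hδp : 0 < δ := by nlinarith
  have hδδ0 : δ < δ0 := by
    have h3 : m ≤ δ0 / (2 * zc) := (min_le_right _ _).trans (min_le_left _ _)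
    have h4 : zc * (δ0 / (2 * zc)) = δ0 / 2 := by field_simp
    have h5 : zc * g < zc * (δ0 / (2 * zc)) := mul_lt_mul_of_pos_left (by linarith) hzc0
    linarith
  have hδ1 : δ ≤ 1 := by
    have h3 : m ≤ 1 / (2 * zc) := (min_le_right _ _).trans (min_le_right _ _)
    have h4 : zc * (1 / (2 * zc)) = 1 / 2 := by field_simp
    have h5 : zc * g < zc * (1 / (2 * zc)) := mul_lt_mul_of_pos_left (by linarith) hzc0
    linarith
  have hcont : Tendsto (fun z => Phi D (zc - z)) (𝓝 zJ) (𝓝 (Phi D δ)) := by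
    have h3 : ContinuousAt (fun z : ℝ => Phi D (zc - z)) zJ := by
      refine ContinuousAt.comp (g := Phi D) (f := fun z : ℝ => zc - z) (Phi_continuousAt hδp) ?_
      fun_prop
    exact h3
  have hlow : c / C * (J - Jc) ≤ Phi D δ := by
    have h3 : ∀ᶠ z in 𝓝[<] zJ, c / C * (J - Jc) ≤ Phi D (zc - z) := by
      have h4 : ∀ᶠ z in 𝓝[<] zJ, z ∈ Ioo (zc - δ0) zJ := Ioo_mem_nhdsLT (by linarith)
      filter_upwards [h4] with z hz
      have h5 := hE2 J hJ1 z hz.1 hz.2
      have h6 := hFn J hJ1 z hz.1 hz.2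
      have h7 := (hFc z ⟨hz.1, by linarith [hz.2]⟩).2
      rw [div_mul_eq_mul_div, div_le_iff₀ hC]
      linarith
    exact ge_of_tendsto (hcont.mono_left nhdsWithin_le_nhds) h3
  have hup : Phi D δ ≤ C / c * (J - Jc) := by
    have h3 : ∀ᶠ z in 𝓝[>] zJ, Phi D (zc - z) ≤ C / c * (J - Jc) := by
      have h4 : ∀ᶠ z in 𝓝[>] zJ, z ∈ Ioo zJ zc := Ioo_mem_nhdsGT (by linarith)
      filter_upwards [h4] with z hz
      have h5 := hE1 J hJ1 z hz.1 hz.2
      have h6 := hF0 J hJ1 z hz.1 hz.2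
      have h7 := (hFc z ⟨by linarith [hz.1], hz.2⟩).1
      rw [div_mul_eq_mul_div, le_div_iff₀ hc]
      linarith
    exact le_of_tendsto (hcont.mono_left nhdsWithin_le_nhds) h3
  obtain ⟨h3, h4⟩ := hinv (J - Jc) δ hh hJe0 hδp hδ1 hlow hup
  constructor
  · rw [div_mul_eq_mul_div, div_le_iff₀ hzc0]
    linarith
  · rw [div_mul_eq_mul_div, le_div_iff₀ hzc0]
    linarith

/-- **The conclusion**. -/
theorem conclusion (D : ℕ) (ξ : ℝ → ℝ) (F : ℝ → ℝ → ℝ) (F' : ℝ → ℝ) {Jc J1 c C δ0 : ℝ}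
    (hJ : Jc < J1) (hc : 0 < c) (hC : 0 < C) (hδ0 : 0 < δ0)
    (hξ : ∀ J ∈ Ioo Jc J1, ξ J < ξ Jc)
    (hlip : ∀ J ∈ Ioo Jc J1, ξ Jc - ξ J ≤ C * (J - Jc))
    (hF0 : ∀ J ∈ Ioo Jc J1, ∀ z, Real.exp (ξ J) < z → z < Real.exp (ξ Jc) → F z J = 0)
    (hE1 : ∀ J ∈ Ioo Jc J1, ∀ z, Real.exp (ξ J) < z → z < Real.exp (ξ Jc) →
      F z Jc - F z J ≤ C * (J - Jc))
    (hFn : ∀ J ∈ Ioo Jc J1, ∀ z, Real.exp (ξ Jc) - δ0 < z → z < Real.exp (ξ J) → 0 ≤ F z J)
    (hE2 : ∀ J ∈ Ioo Jc J1, ∀ z, Real.exp (ξ Jc) - δ0 < z → z < Real.exp (ξ J) →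
      c * (J - Jc) ≤ F z Jc - F z J)
    (hder : ∀ z ∈ Ioo (Real.exp (ξ Jc) - δ0) (Real.exp (ξ Jc)),
      HasDerivAt (fun z => F z Jc) (F' z) z)
    (h1 : ∀ z ∈ Ioo (Real.exp (ξ Jc) - δ0) (Real.exp (ξ Jc)),
      c * phi D (Real.exp (ξ Jc) - z) ≤ -F' z)
    (h2 : ∀ z ∈ Ioo (Real.exp (ξ Jc) - δ0) (Real.exp (ξ Jc)),
      -F' z ≤ C * phi D (Real.exp (ξ Jc) - z))
    (hl : Tendsto (fun z => F z Jc) (𝓝[<] (Real.exp (ξ Jc))) (𝓝 0)) :
    ∃ c' > 0, ∃ C' > 0, ∃ e > 0, ∀ J ∈ Ioo Jc (Jc + e),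
      c' * thf D (J - Jc) ≤ ξ Jc - ξ J ∧ ξ Jc - ξ J ≤ C' * thf D (J - Jc) :=
  conclusion_core D ξ F hJ hc hC hδ0 hξ hlip hF0 hE1 hFn hE2
    (fun _ hz => F_comp hder h1 h2 hl hz)

theorem phi_anti (D : ℕ) {a b : ℝ} (ha : 0 < a) (hab : a ≤ b) : phi D b ≤ phi D a := by
  have hb : 0 < b := by linarith
  unfold phi
  by_cases h3 : D = 3
  · rw [if_pos h3, if_pos h3]
    exact one_div_le_one_div_of_le (Real.sqrt_pos.2 ha) (Real.sqrt_le_sqrt hab)
  · rw [if_neg h3, if_neg h3]
    by_cases h4 : D = 4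
    · rw [if_pos h4, if_pos h4]
      have h5 : Real.log (1 / b) ≤ Real.log (1 / a) :=
        Real.log_le_log (by positivity) (one_div_le_one_div_of_le ha hab)
      linarith
    · rw [if_neg h4, if_neg h4]

theorem phi_continuousOn (D : ℕ) : ContinuousOn (phi D) (Ioi 0) := by
  by_cases h3 : D = 3
  · have h2 : phi D = fun x : ℝ => 1 / √x := by
      funext x
      unfold phi
      rw [if_pos h3]
    rw [h2]
    refine ContinuousOn.div continuousOn_const (by fun_prop) ?_
    intro x hx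
    exact (Real.sqrt_pos.2 hx).ne'
  · by_cases h4 : D = 4
    · have h2 : phi D = fun x : ℝ => 1 + Real.log (1 / x) := by
        funext x
        unfold phi
        rw [if_neg h3, if_pos h4]
      rw [h2]
      refine ContinuousOn.add continuousOn_const ?_
      refine ContinuousOn.log ?_ ?_
      · refine ContinuousOn.div continuousOn_const continuousOn_id ?_
        intro x hx
        exact (ne_of_gt hx)
      · intro x hx
        exact one_div_ne_zero (ne_of_gt hx)
    · have h2 : phi D = fun _ : ℝ => 1 := by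
        funext x
        unfold phi
        rw [if_neg h3, if_neg h4]
      rw [h2]
      exact continuousOn_const

/-- The integral of `phi`. -/
theorem integral_phi (D : ℕ) {x y b : ℝ} (hxy : x ≤ y) (hy : y < b) :
    ∫ z in x..y, phi D (b - z) = Phi D (b - x) - Phi D (b - y) := by
  have hP : ∀ z ∈ uIcc x y, HasDerivAt (fun z => -Phi D (b - z)) (phi D (b - z)) z := by
    intro z hz
    rw [uIcc_of_le hxy] at hz
    have h3 := Phi_hasDerivAt (D := D) (δ := b - z) (by linarith [hz.2])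
    have h4 : HasDerivAt (fun z : ℝ => b - z) (-1) z := by
      simpa using (hasDerivAt_id' z).const_sub b
    have h5 := (h3.comp z h4).neg
    rw [mul_neg_one, neg_neg] at h5
    exact h5
  rw [intervalIntegral.integral_eq_sub_of_hasDerivAt hP ?_]
  · ring
  · refine ContinuousOn.intervalIntegrable ?_
    rw [uIcc_of_le hxy]
    refine (phi_continuousOn D).comp (by fun_prop) ?_
    intro z hz
    have : z ≤ y := hz.2
    have h6 : 0 < b - z := by linarith
    exact h6

/-- Comparison with the primitive of `phi`, difference form. -/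
theorem F_comp_diff {D : ℕ} {F : ℝ → ℝ} {a b c C : ℝ}
    (h1 : ∀ x y, a < x → x ≤ y → y < b → c * (Phi D (b - x) - Phi D (b - y)) ≤ F x - F y)
    (h2 : ∀ x y, a < x → x ≤ y → y < b → F x - F y ≤ C * (Phi D (b - x) - Phi D (b - y)))
    (hl : Tendsto F (𝓝[<] b) (𝓝 0)) {z : ℝ} (hz : z ∈ Ioo a b) :
    c * Phi D (b - z) ≤ F z ∧ F z ≤ C * Phi D (b - z) := by
  have hPl : Tendsto (fun z => Phi D (b - z)) (𝓝[<] b) (𝓝 0) := by
    refine (Phi_tendsto D).comp ?_
    refine tendsto_nhdsWithin_iff.2 ⟨?_, ?_⟩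
    · have h5 : Continuous (fun z : ℝ => b - z) := by fun_prop
      have h6 := (h5.tendsto b).mono_left (nhdsWithin_le_nhds (s := Iio b))
      simpa using h6
    · filter_upwards [self_mem_nhdsWithin] with w hw
      have : w < b := hw
      simpa using this
  have hev : ∀ᶠ w in 𝓝[<] b, w ∈ Ioo z b := Ioo_mem_nhdsLT hz.2
  constructor
  · have h3 : Tendsto (fun w => (F z - F w) - c * (Phi D (b - z) - Phi D (b - w))) (𝓝[<] b)
        (𝓝 ((F z - 0) - c * (Phi D (b - z) - 0))) :=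
      (tendsto_const_nhds.sub hl).sub ((tendsto_const_nhds.sub hPl).const_mul c)
    have h4 : 0 ≤ (F z - 0) - c * (Phi D (b - z) - 0) := by
      refine ge_of_tendsto h3 ?_
      filter_upwards [hev] with w hw
      have := h1 z w hz.1 hw.1.le hw.2
      linarith
    linarith
  · have h3 : Tendsto (fun w => C * (Phi D (b - z) - Phi D (b - w)) - (F z - F w)) (𝓝[<] b)
        (𝓝 (C * (Phi D (b - z) - 0) - (F z - 0))) :=
      ((tendsto_const_nhds.sub hPl).const_mul C).sub (tendsto_const_nhds.sub hl)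
    have h4 : 0 ≤ C * (Phi D (b - z) - 0) - (F z - 0) := by
      refine ge_of_tendsto h3 ?_
      filter_upwards [hev] with w hw
      have := h2 z w hz.1 hw.1.le hw.2
      linarith
    linarith

/-- **The conclusion**, difference form. -/
theorem conclusion_diff (D : ℕ) (ξ : ℝ → ℝ) (F : ℝ → ℝ → ℝ) {Jc J1 c C δ0 : ℝ}
    (hJ : Jc < J1) (hc : 0 < c) (hC : 0 < C) (hδ0 : 0 < δ0)
    (hξ : ∀ J ∈ Ioo Jc J1, ξ J < ξ Jc)
    (hlip : ∀ J ∈ Ioo Jc J1, ξ Jc - ξ J ≤ C * (J - Jc))
    (hF0 : ∀ J ∈ Ioo Jc J1, ∀ z, Real.exp (ξ J) < z → z < Real.exp (ξ Jc) → F z J = 0)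
    (hE1 : ∀ J ∈ Ioo Jc J1, ∀ z, Real.exp (ξ J) < z → z < Real.exp (ξ Jc) →
      F z Jc - F z J ≤ C * (J - Jc))
    (hFn : ∀ J ∈ Ioo Jc J1, ∀ z, Real.exp (ξ Jc) - δ0 < z → z < Real.exp (ξ J) → 0 ≤ F z J)
    (hE2 : ∀ J ∈ Ioo Jc J1, ∀ z, Real.exp (ξ Jc) - δ0 < z → z < Real.exp (ξ J) →
      c * (J - Jc) ≤ F z Jc - F z J)
    (h1 : ∀ x y, Real.exp (ξ Jc) - δ0 < x → x ≤ y → y < Real.exp (ξ Jc) →
      c * ∫ z in x..y, phi D (Real.exp (ξ Jc) - z) ≤ F x Jc - F y Jc)
    (h2 : ∀ x y, Real.exp (ξ Jc) - δ0 < x → x ≤ y → y < Real.exp (ξ Jc) →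
      F x Jc - F y Jc ≤ C * ∫ z in x..y, phi D (Real.exp (ξ Jc) - z))
    (hl : Tendsto (fun z => F z Jc) (𝓝[<] (Real.exp (ξ Jc))) (𝓝 0)) :
    ∃ c' > 0, ∃ C' > 0, ∃ e > 0, ∀ J ∈ Ioo Jc (Jc + e),
      c' * thf D (J - Jc) ≤ ξ Jc - ξ J ∧ ξ Jc - ξ J ≤ C' * thf D (J - Jc) := by
  refine conclusion_core D ξ F hJ hc hC hδ0 hξ hlip hF0 hE1 hFn hE2 (fun z hz => ?_)
  refine F_comp_diff (F := fun z => F z Jc) ?_ ?_ hl hz
  · intro x y hx hxy hy
    have := h1 x y hx hxy hy
    rwa [integral_phi D hxy hy] at this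
  · intro x y hx hxy hy
    have := h2 x y hx hxy hy
    rwa [integral_phi D hxy hy] at this

end Pool.Agent.DL.An
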