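import Pool.Agent.DL.Defs

/-!
# The defect line for all subcritical temperatures: further definitions
-/

set_option autoImplicit false
set_option linter.unusedSectionVars false

namespace Pool.Agent.DL

open Finset

/-- Increasing events. -/
def Gr.Inc {ι : Type} (A : Finset ι → Prop) : Prop := ∀ a b, a ⊆ b → A a → A b

/-- `(A, E)` is the cluster of `x` in `ω`. -/
def Gr.Cls {V ι : Type} [DecidableEq V] [DecidableEq ι] (G : Gr V ι) (ω : Finset ι) (x : V)
    (A : Finset V) (E : Finset ι) : Prop :=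
  G.IsCl A E ∧ x ∈ A ∧ G.tch A ω = E

/-- At least `k` sites are connected to `x`. -/
def Gr.big {V ι : Type} (G : Gr V ι) (ω : Finset ι) (x : V) (k : ℕ) : Prop :=
  ∃ A : Finset V, k ≤ A.card ∧ ∀ y ∈ A, G.Rch ω x y

/-- The probability of `A` in the volume `Λ`. -/
noncomputable def PP (D : ℕ) (q β J : ℝ) (Λ : Finset (Site D)) (A : Finset (Edge D) → Prop) : ℝ :=
  (lat D).pr q (vJ β J) (edg Λ) A

/-- The two-point function in the volume `Λ`. -/
noncomputable def TT (D : ℕ) (q β J : ℝ) (Λ : Finset (Site D)) (x y : Site D) : ℝ :=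
  (lat D).tp q (vJ β J) (edg Λ) x y

/-- The isolation probability of `A` in the volume `Λ`. -/
noncomputable def ZZ (D : ℕ) (q β J : ℝ) (Λ A : Finset (Site D)) : ℝ :=
  (lat D).ze q (vJ β J) (edg Λ) A

/-- The weight of a cluster. -/
noncomputable def WW (D : ℕ) (q β J : ℝ) (A : Finset (Site D)) (E : Finset (Edge D)) : ℝ :=
  Gr.cw q (vJ β J) A E

/-- The two-point function in infinite volume. -/
noncomputable def GG (D : ℕ) (q β J : ℝ) (x y : Site D) : ℝ :=
  ⨆ Λ : Finset (Site D), TT D q β J Λ x y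

/-- The rate of decay along the line. -/
noncomputable def xiR (D : ℕ) (q β J : ℝ) : ℝ :=
  ⨅ n : ℕ, -Real.log (GG D q β J 0 ((n : ℤ) + 1, 0)) / ((n : ℝ) + 1)

/-- The two-point function in the slab of the heights `0, ..., n`. -/
noncomputable def sn (D : ℕ) (q β J : ℝ) (n : ℕ) (x y : Fin D → ℤ) : ℝ :=
  ⨆ Λ : {Λ : Finset (Site D) // ∀ z ∈ Λ, 0 ≤ z.1 ∧ z.1 ≤ n}, TT D q β J Λ.1 (0, x) ((n : ℤ), y)

/-- The rate of decay of the slab function. -/
noncomputable def xs (D : ℕ) (q β J : ℝ) : ℝ :=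
  ⨅ n : ℕ, -Real.log (sn D q β J (n + 1) 0 0) / ((n : ℝ) + 1)

/-- The sites of the box with maximal norm `N`. -/
noncomputable def sph (D N : ℕ) : Finset (Site D) :=
  (SB.box D N).filter fun x => x.1 = N ∨ x.1 = -(N : ℤ) ∨ ∃ i, x.2 i = N ∨ x.2 i = -(N : ℤ)

/-- Exponential decay with the wired boundary condition, without defect. -/
def WD (D : ℕ) (q β : ℝ) : Prop :=
  ∃ C c : ℝ, 0 < c ∧ ∀ N : ℕ, 1 ≤ N →
    PP D q β 1 (SB.box D N) (fun ω => edg (sph D N) ⊆ ω ∧ ∃ y ∈ sph D N, (lat D).Rch ω 0 y) ≤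
      C * Real.exp (-(c * N)) * PP D q β 1 (SB.box D N) (fun ω => edg (sph D N) ⊆ ω)

/-- The standing assumptions. -/
structure Bas (D : ℕ) (q β : ℝ) : Prop where
  hD : 1 ≤ D
  hq : 1 ≤ q
  hβ : 0 < β
  wd : WD D q β

/-- The standing assumptions with a range of the couplings of the line. -/
structure Reg (D : ℕ) (q β J1 : ℝ) : Prop extends Bas D q β where
  hJ : 1 ≤ J1
  xi : ∃ x0 : ℝ, 0 < x0 ∧ ∀ J, 1 ≤ J → J ≤ J1 → x0 ≤ xiR D q β J

/-! ### Clusters -/

open Classical in
/-- Sum over the clusters in the volume `Λ`. -/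
noncomputable def cs (D : ℕ) (q β J : ℝ) (Λ : Finset (Site D))
    (P : Finset (Site D) → Finset (Edge D) → Prop) : ℝ :=
  ∑ A ∈ Λ.powerset, ∑ E ∈ (edg Λ).powerset,
    if (lat D).IsCl A E ∧ P A E then WW D q β J A E * ZZ D q β J Λ A else 0

open Classical in
/-- Weighted sum over the clusters in the volume `Λ`. -/
noncomputable def csf (D : ℕ) (q β J : ℝ) (Λ : Finset (Site D))
    (P : Finset (Site D) → Finset (Edge D) → Prop)
    (F : Finset (Site D) → Finset (Edge D) → ℝ) : ℝ :=
  ∑ A ∈ Λ.powerset, ∑ E ∈ (edg Λ).powerset,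
    if (lat D).IsCl A E ∧ P A E then WW D q β J A E * ZZ D q β J Λ A * F A E else 0

/-- The number of the sites of height `m`. -/
def hgt {D : ℕ} (A : Finset (Site D)) (m : ℤ) : ℕ := (A.filter fun x => x.1 = m).card

/-- The edges from height `m` to height `m + 1`. -/
def upE {D : ℕ} (E : Finset (Edge D)) (m : ℤ) : Finset (Edge D) :=
  E.filter fun e => e.2 = none ∧ e.1.1 = m

/-- The cuts below height `ℓ`. -/
def cuts {D : ℕ} (E : Finset (Edge D)) (ℓ : ℕ) : Finset ℕ :=
  (range ℓ).filter fun m => (upE E m).card = 1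

/-- The edges strictly between the heights `a` and `b`. -/
def inE {D : ℕ} (E : Finset (Edge D)) (a b : ℤ) : Finset (Edge D) :=
  E.filter fun e => a < ((lat D).s e).1 ∧ ((lat D).t e).1 < b

/-- `x` and `y` are the ends of a crossing of the slab strictly between `a` and `b`. -/
def Cross {D : ℕ} (E : Finset (Edge D)) (a b : ℤ) (x y : Site D) : Prop :=
  x.1 = a + 1 ∧ y.1 = b - 1 ∧ (((a, x.2), none) : Edge D) ∈ E ∧ ((y, none) : Edge D) ∈ E ∧
    (lat D).Rch (inE E a b) x y

/-- There are two different crossings. -/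
def Two {D : ℕ} (E : Finset (Edge D)) (a b : ℤ) : Prop :=
  ∃ x y x' y', Cross E a b x y ∧ Cross E a b x' y' ∧ ¬ (lat D).Rch (inE E a b) x x'

/-- The sites of the window `i` (heights `4 r i, ..., 4 r (i + 1) - 1`). -/
def win {D : ℕ} (r : ℕ) (A : Finset (Site D)) (i : ℕ) : Finset (Site D) :=
  A.filter fun x => (4 * r * i : ℤ) ≤ x.1 ∧ x.1 < 4 * r * (i + 1)

open Classical in
/-- The least height in `[s, s + r)` with at most `M` sites. -/
noncomputable def sel {D : ℕ} (M r : ℕ) (A : Finset (Site D)) (s : ℤ) : ℤ :=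
  if h : ∃ j : ℕ, j < r ∧ hgt A (s + j) ≤ M then s + (Nat.find h : ℤ) else s

/-- The lower selected height of the window `i`. -/
noncomputable def sel1 {D : ℕ} (M r : ℕ) (A : Finset (Site D)) (i : ℕ) : ℤ :=
  sel M r A (4 * r * i)

/-- The upper selected height of the window `i`. -/
noncomputable def sel2 {D : ℕ} (M r : ℕ) (A : Finset (Site D)) (i : ℕ) : ℤ :=
  sel M r A (4 * r * i + 2 * r)

open Classical in
/-- The light windows (`K` is the bound of the density). -/
noncomputable def lgt {D : ℕ} (K r W : ℕ) (A : Finset (Site D)) : Finset ℕ :=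
  (range W).filter fun i => (win r A i).card ≤ 1024 * K * r

open Classical in
/-- The light windows with two crossings. -/
noncomputable def dbl {D : ℕ} (K r W : ℕ) (A : Finset (Site D)) (E : Finset (Edge D)) :
    Finset ℕ :=
  (lgt K r W A).filter fun i => Two E (sel1 (1024 * K) r A i) (sel2 (1024 * K) r A i)

open Classical in
/-- The light windows with one crossing. -/
noncomputable def gd {D : ℕ} (K r W : ℕ) (A : Finset (Site D)) (E : Finset (Edge D)) :
    Finset ℕ :=
  (lgt K r W A).filter fun i => ¬ Two E (sel1 (1024 * K) r A i) (sel2 (1024 * K) r A i)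

/-- The windows with a cut at the height `4 r i + r`. -/
def ct {D : ℕ} (r W : ℕ) (E : Finset (Edge D)) : Finset ℕ :=
  (range W).filter fun i => (upE E (4 * r * i + r)).card = 1

/-- The volume of the heights `0, ..., ℓ` over `T`. -/
noncomputable def hb {D : ℕ} (ℓ : ℕ) (T : Finset (Fin D → ℤ)) : Finset (Site D) :=
  Finset.Icc (0 : ℤ) ℓ ×ˢ T

end Pool.Agent.DL
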