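import Pool.Agent.DL.FKA
import Pool.Agent.DL.Defs2

/-!
# Positive association and monotonicity of the random-cluster measures

The basic tool is `sm_mul_le`, a form of the four functions theorem for the unnormalised measures.
-/

set_option autoImplicit false
set_option linter.unusedSectionVars false

namespace Pool.Agent.DL

open Finset
open scoped FinsetFamily

namespace Gr

variable {V ι : Type} [DecidableEq V] [DecidableEq ι] (G : Gr V ι)

section B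

variable (q : ℝ) (v v' : ι → ℝ)

theorem wt_nonneg (hq : 0 < q) (hv : ∀ e, 0 ≤ v e) (ω : Finset ι) : 0 ≤ G.wt q v ω :=
  mul_nonneg (prod_nonneg fun e _ => hv e) (pow_nonneg (inv_nonneg.2 hq.le) _)

theorem zz_pos (hq : 0 < q) (hv : ∀ e, 0 ≤ v e) (Ed : Finset ι) : 0 < G.zz q v Ed := by
  have h0 : 0 < G.wt q v ∅ := by
    rw [wt, prod_empty, one_mul]
    exact pow_pos (inv_pos.2 hq) _
  exact lt_of_lt_of_le h0 (single_le_sum (f := fun ω => G.wt q v ω)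
    (fun ω _ => G.wt_nonneg q v hq hv ω) (empty_mem_powerset Ed))

theorem wt_mul_le (hq : 1 ≤ q) (hv : ∀ e, 0 ≤ v e) (h : ∀ e, v e ≤ v' e) (a b : Finset ι) :
    G.wt q v a * G.wt q v' b ≤ G.wt q v (a ∩ b) * G.wt q v' (a ∪ b) := by
  have hq0 : 0 < q := by linarith
  have h1 : (∏ e ∈ a, v e) * ∏ e ∈ b, v' e ≤ (∏ e ∈ a ∩ b, v e) * ∏ e ∈ a ∪ b, v' e := by
    have e1 : (∏ e ∈ a, v e) = (∏ e ∈ a ∩ b, v e) * ∏ e ∈ a \ b, v e :=
      (prod_inter_mul_prod_sdiff a b v).symm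
    have e2 : (∏ e ∈ a ∪ b, v' e) = (∏ e ∈ a \ b, v' e) * ∏ e ∈ b, v' e := by
      rw [← sdiff_union_self_eq_union, prod_union sdiff_disjoint]
    rw [e1, e2]
    have h2 : ∏ e ∈ a \ b, v e ≤ ∏ e ∈ a \ b, v' e :=
      prod_le_prod (fun e _ => hv e) fun e _ => h e
    have h3 : 0 ≤ ∏ e ∈ b, v' e := prod_nonneg fun e _ => (hv e).trans (h e)
    have h4 : 0 ≤ ∏ e ∈ a ∩ b, v e := prod_nonneg fun e _ => hv e
    calc (∏ e ∈ a ∩ b, v e) * (∏ e ∈ a \ b, v e) * ∏ e ∈ b, v' e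
        = (∏ e ∈ a ∩ b, v e) * ((∏ e ∈ a \ b, v e) * ∏ e ∈ b, v' e) := by ring
      _ ≤ (∏ e ∈ a ∩ b, v e) * ((∏ e ∈ a \ b, v' e) * ∏ e ∈ b, v' e) := by gcongr
  have h5 : (q⁻¹) ^ G.rk a * (q⁻¹) ^ G.rk b ≤ (q⁻¹) ^ G.rk (a ∩ b) * (q⁻¹) ^ G.rk (a ∪ b) := by
    rw [← pow_add, ← pow_add]
    apply pow_le_pow_of_le_one (inv_nonneg.2 hq0.le) (inv_le_one_of_one_le₀ hq)
    have := G.rk_submod a b
    omega
  have h6 : 0 ≤ (∏ e ∈ a ∩ b, v e) * ∏ e ∈ a ∪ b, v' e :=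
    mul_nonneg (prod_nonneg fun e _ => hv e) (prod_nonneg fun e _ => (hv e).trans (h e))
  have h7 : 0 ≤ (q⁻¹) ^ G.rk a * (q⁻¹) ^ G.rk b :=
    mul_nonneg (pow_nonneg (inv_nonneg.2 hq0.le) _) (pow_nonneg (inv_nonneg.2 hq0.le) _)
  unfold wt
  calc (∏ e ∈ a, v e) * (q⁻¹) ^ G.rk a * ((∏ e ∈ b, v' e) * (q⁻¹) ^ G.rk b)
      = ((∏ e ∈ a, v e) * ∏ e ∈ b, v' e) * ((q⁻¹) ^ G.rk a * (q⁻¹) ^ G.rk b) := by ring
    _ ≤ ((∏ e ∈ a ∩ b, v e) * ∏ e ∈ a ∪ b, v' e) *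
        ((q⁻¹) ^ G.rk (a ∩ b) * (q⁻¹) ^ G.rk (a ∪ b)) := mul_le_mul h1 h5 h7 h6
    _ = _ := by ring

/-! ### Unnormalised measures -/

open Classical in
/-- The total weight of an event. -/
noncomputable def sm (Ed : Finset ι) (A : Finset ι → Prop) : ℝ :=
  ∑ ω ∈ Ed.powerset.filter A, G.wt q v ω

open Classical in
theorem mem_ev {Ed ω : Finset ι} {A : Finset ι → Prop} :
    ω ∈ Ed.powerset.filter A ↔ ω ⊆ Ed ∧ A ω := by
  rw [mem_filter, mem_powerset]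

theorem pr_eq_sm (Ed : Finset ι) (A : Finset ι → Prop) :
    G.pr q v Ed A = G.sm q v Ed A / G.zz q v Ed := rfl

theorem sm_true (Ed : Finset ι) : G.sm q v Ed (fun _ => True) = G.zz q v Ed := by
  unfold sm zz
  rw [filter_true]

theorem sm_congr {Ed Ed' : Finset ι} {A B : Finset ι → Prop}
    (h : ∀ ω, (ω ⊆ Ed ∧ A ω ↔ ω ⊆ Ed' ∧ B ω)) : G.sm q v Ed A = G.sm q v Ed' B := by
  unfold sm
  apply sum_congr _ fun _ _ => rfl
  ext ω
  rw [mem_ev, mem_ev]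
  exact h ω

theorem sm_nonneg (hq : 0 < q) (hv : ∀ e, 0 ≤ v e) (Ed : Finset ι) (A : Finset ι → Prop) :
    0 ≤ G.sm q v Ed A :=
  sum_nonneg fun ω _ => G.wt_nonneg q v hq hv ω

theorem sm_le (hq : 0 < q) (hv : ∀ e, 0 ≤ v e) {Ed Ed' : Finset ι} (A B : Finset ι → Prop)
    (h : ∀ ω ⊆ Ed, A ω → ω ⊆ Ed' ∧ B ω) : G.sm q v Ed A ≤ G.sm q v Ed' B := by
  unfold sm
  apply sum_le_sum_of_subset_of_nonneg
  · intro ω hω
    rw [mem_ev] at hω ⊢
    exact h ω hω.1 hω.2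
  · intro ω _ _
    exact G.wt_nonneg q v hq hv ω

theorem sm_add (Ed : Finset ι) (A B : Finset ι → Prop) :
    G.sm q v Ed A = G.sm q v Ed (fun ω => A ω ∧ B ω) + G.sm q v Ed (fun ω => A ω ∧ ¬ B ω) := by
  classical
  have h1 : G.sm q v Ed (fun ω => A ω ∧ B ω) = ∑ ω ∈ (Ed.powerset.filter A).filter B,
      G.wt q v ω := by
    unfold sm
    apply sum_congr _ fun _ _ => rfl
    ext ω
    simp only [mem_filter, mem_powerset]
    tauto
  have h2 : G.sm q v Ed (fun ω => A ω ∧ ¬ B ω) = ∑ ω ∈ (Ed.powerset.filter A).filter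
      (fun ω => ¬ B ω), G.wt q v ω := by
    unfold sm
    apply sum_congr _ fun _ _ => rfl
    ext ω
    simp only [mem_filter, mem_powerset]
    tauto
  rw [h1, h2, sum_filter_add_sum_filter_not]
  unfold sm
  apply sum_congr _ fun _ _ => rfl
  ext ω
  simp only [mem_filter, mem_powerset]

/-- The four functions theorem for the unnormalised measures. -/
theorem sm_mul_le (hq : 1 ≤ q) (hv : ∀ e, 0 ≤ v e) (h : ∀ e, v e ≤ v' e) (E₁ E₂ E₃ E₄ : Finset ι)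
    (A₁ A₂ A₃ A₄ : Finset ι → Prop)
    (H : ∀ a ⊆ E₁, A₁ a → ∀ b ⊆ E₂, A₂ b → (a ∩ b ⊆ E₃ ∧ A₃ (a ∩ b)) ∧
      (a ∪ b ⊆ E₄ ∧ A₄ (a ∪ b))) :
    G.sm q v E₁ A₁ * G.sm q v' E₂ A₂ ≤ G.sm q v E₃ A₃ * G.sm q v' E₄ A₄ := by
  classical
  have hq0 : 0 < q := by linarith
  have hv' : ∀ e, 0 ≤ v' e := fun e => (hv e).trans (h e)
  have h1 : (0 : Finset ι → ℝ) ≤ fun ω => G.wt q v ω := fun ω => G.wt_nonneg q v hq0 hv ω
  have h2 : (0 : Finset ι → ℝ) ≤ fun ω => G.wt q v' ω := fun ω => G.wt_nonneg q v' hq0 hv' ω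
  have h3 := four_functions_theorem (fun ω => G.wt q v ω) (fun ω => G.wt q v' ω)
    (fun ω => G.wt q v ω) (fun ω => G.wt q v' ω) h1 h2 h1 h2
    (fun a b => G.wt_mul_le q v v' hq hv h a b) (E₁.powerset.filter A₁) (E₂.powerset.filter A₂)
  have h4 : ∑ ω ∈ (E₁.powerset.filter A₁) ⊼ (E₂.powerset.filter A₂), G.wt q v ω ≤
      G.sm q v E₃ A₃ := by
    unfold sm
    apply sum_le_sum_of_subset_of_nonneg
    · intro ω hω
      obtain ⟨a, ha, b, hb, rfl⟩ := mem_infs.1 hω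
      rw [mem_ev] at ha hb ⊢
      exact (H a ha.1 ha.2 b hb.1 hb.2).1
    · intro ω _ _
      exact h1 ω
  have h5 : ∑ ω ∈ (E₁.powerset.filter A₁) ⊻ (E₂.powerset.filter A₂), G.wt q v' ω ≤
      G.sm q v' E₄ A₄ := by
    unfold sm
    apply sum_le_sum_of_subset_of_nonneg
    · intro ω hω
      obtain ⟨a, ha, b, hb, rfl⟩ := mem_sups.1 hω
      rw [mem_ev] at ha hb ⊢
      exact (H a ha.1 ha.2 b hb.1 hb.2).2
    · intro ω _ _
      exact h2 ω
  have h6 : G.sm q v E₁ A₁ * G.sm q v' E₂ A₂ ≤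
      (∑ ω ∈ (E₁.powerset.filter A₁) ⊼ (E₂.powerset.filter A₂), G.wt q v ω) *
        ∑ ω ∈ (E₁.powerset.filter A₁) ⊻ (E₂.powerset.filter A₂), G.wt q v' ω := by
    unfold sm
    exact h3
  exact h6.trans (mul_le_mul h4 h5 (sum_nonneg fun ω _ => h2 ω)
    (G.sm_nonneg q v hq0 hv E₃ A₃))

/-- Normalised form of `sm_mul_le`. -/
theorem pr_mul_pr_le (hq : 1 ≤ q) (hv : ∀ e, 0 ≤ v e) (h : ∀ e, v e ≤ v' e) (Ed Ed' : Finset ι)
    (A₁ A₂ A₃ A₄ : Finset ι → Prop)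
    (H : ∀ a ⊆ Ed, A₁ a → ∀ b ⊆ Ed', A₂ b → (a ∩ b ⊆ Ed ∧ A₃ (a ∩ b)) ∧
      (a ∪ b ⊆ Ed' ∧ A₄ (a ∪ b))) :
    G.pr q v Ed A₁ * G.pr q v' Ed' A₂ ≤ G.pr q v Ed A₃ * G.pr q v' Ed' A₄ := by
  have hq0 : 0 < q := by linarith
  have hv' : ∀ e, 0 ≤ v' e := fun e => (hv e).trans (h e)
  have hz := G.zz_pos q v hq0 hv Ed
  have hz' := G.zz_pos q v' hq0 hv' Ed'
  simp only [pr_eq_sm]
  rw [div_mul_div_comm, div_mul_div_comm]
  exact div_le_div_of_nonneg_right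
    (G.sm_mul_le q v v' hq hv h Ed Ed' Ed Ed' A₁ A₂ A₃ A₄ H) (mul_pos hz hz').le

/-! ### Elementary properties -/

theorem pr_nonneg (hq : 0 < q) (hv : ∀ e, 0 ≤ v e) (Ed : Finset ι) (A : Finset ι → Prop) :
    0 ≤ G.pr q v Ed A :=
  div_nonneg (G.sm_nonneg q v hq hv Ed A) (G.zz_pos q v hq hv Ed).le

theorem pr_le (hq : 0 < q) (hv : ∀ e, 0 ≤ v e) (Ed : Finset ι) (A B : Finset ι → Prop)
    (h : ∀ ω ⊆ Ed, A ω → B ω) : G.pr q v Ed A ≤ G.pr q v Ed B :=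
  div_le_div_of_nonneg_right (G.sm_le q v hq hv A B fun ω h1 h2 => ⟨h1, h ω h1 h2⟩)
    (G.zz_pos q v hq hv Ed).le

theorem pr_true (hq : 0 < q) (hv : ∀ e, 0 ≤ v e) (Ed : Finset ι) :
    G.pr q v Ed (fun _ => True) = 1 := by
  rw [pr_eq_sm, sm_true, div_self (G.zz_pos q v hq hv Ed).ne']

theorem pr_le_one (hq : 0 < q) (hv : ∀ e, 0 ≤ v e) (Ed : Finset ι) (A : Finset ι → Prop) :
    G.pr q v Ed A ≤ 1 := by
  rw [← G.pr_true q v hq hv Ed]
  exact G.pr_le q v hq hv Ed _ _ fun _ _ _ => trivial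

/-- The probability depends only on the values of the event on the subsets of `Ed`. -/
theorem pr_congr (Ed : Finset ι) {A B : Finset ι → Prop} (h : ∀ ω ⊆ Ed, (A ω ↔ B ω)) :
    G.pr q v Ed A = G.pr q v Ed B := by
  rw [pr_eq_sm, pr_eq_sm, G.sm_congr q v fun ω => and_congr_right fun h1 => h ω h1]

theorem pr_add (Ed : Finset ι) (A B : Finset ι → Prop) :
    G.pr q v Ed A = G.pr q v Ed (fun ω => A ω ∧ B ω) + G.pr q v Ed (fun ω => A ω ∧ ¬ B ω) := by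
  simp only [pr_eq_sm]
  rw [G.sm_add q v Ed A B, add_div]

theorem pr_or_le (hq : 0 < q) (hv : ∀ e, 0 ≤ v e) (Ed : Finset ι) (A B : Finset ι → Prop) :
    G.pr q v Ed (fun ω => A ω ∨ B ω) ≤ G.pr q v Ed A + G.pr q v Ed B := by
  rw [G.pr_add q v Ed (fun ω => A ω ∨ B ω) A]
  apply add_le_add
  · exact G.pr_le q v hq hv Ed _ _ fun ω _ h => h.2
  · exact G.pr_le q v hq hv Ed _ _ fun ω _ h => h.1.resolve_left h.2

theorem pr_bot (Ed : Finset ι) : G.pr q v Ed (fun _ => False) = 0 := by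
  rw [pr_eq_sm]
  unfold sm
  rw [filter_false, sum_empty, zero_div]

theorem pr_compl (hq : 0 < q) (hv : ∀ e, 0 ≤ v e) (Ed : Finset ι) (A : Finset ι → Prop) :
    G.pr q v Ed A + G.pr q v Ed (fun ω => ¬ A ω) = 1 := by
  rw [← G.pr_true q v hq hv Ed, G.pr_add q v Ed (fun _ => True) A]
  congr 1
  · exact G.pr_congr q v Ed fun ω _ => by simp
  · exact G.pr_congr q v Ed fun ω _ => by simp

theorem pr_sum {κ : Type} (hq : 0 < q) (hv : ∀ e, 0 ≤ v e) (Ed : Finset ι) (A : Finset ι → Prop)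
    (S : Finset κ) (B : κ → Finset ι → Prop) (h : ∀ ω ⊆ Ed, A ω → ∃ k ∈ S, B k ω) :
    G.pr q v Ed A ≤ ∑ k ∈ S, G.pr q v Ed (B k) := by
  classical
  induction S using Finset.induction generalizing A with
  | empty =>
    rw [sum_empty, ← G.pr_bot q v Ed]
    apply G.pr_le q v hq hv
    intro ω h1 h2
    obtain ⟨k, hk, -⟩ := h ω h1 h2
    exact absurd hk (notMem_empty k)
  | insert a S ha ih =>
    rw [sum_insert ha]
    have h1 : G.pr q v Ed (fun ω => A ω ∧ ¬ B a ω) ≤ ∑ k ∈ S, G.pr q v Ed (B k) := by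
      apply ih
      intro ω hω hA
      obtain ⟨k, hk, hB⟩ := h ω hω hA.1
      rcases mem_insert.1 hk with rfl | hk
      · exact absurd hB hA.2
      · exact ⟨k, hk, hB⟩
    have h2 : G.pr q v Ed (fun ω => A ω ∧ B a ω) ≤ G.pr q v Ed (B a) :=
      G.pr_le q v hq hv Ed _ _ fun ω _ h => h.2
    rw [G.pr_add q v Ed A (B a)]
    linarith

/-! ### Positive association and monotonicity -/

/-- The inequality of Fortuin, Kasteleyn and Ginibre. -/
theorem pr_mul_le (hq : 1 ≤ q) (hv : ∀ e, 0 ≤ v e) (Ed : Finset ι) (A B : Finset ι → Prop)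
    (hA : Inc A) (hB : Inc B) :
    G.pr q v Ed A * G.pr q v Ed B ≤ G.pr q v Ed (fun ω => A ω ∧ B ω) := by
  have hq0 : 0 < q := by linarith
  have h := G.pr_mul_pr_le q v v hq hv (fun _ => le_rfl) Ed Ed A B (fun _ => True)
    (fun ω => A ω ∧ B ω) (fun a ha hAa b hb hBb => ⟨⟨inter_subset_left.trans ha, trivial⟩,
      union_subset ha hb, hA _ _ subset_union_left hAa, hB _ _ subset_union_right hBb⟩)
  rwa [G.pr_true q v hq0 hv, one_mul] at h

theorem pr_mono_v (hq : 1 ≤ q) (hv : ∀ e, 0 ≤ v e) (h : ∀ e, v e ≤ v' e) (Ed : Finset ι)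
    (A : Finset ι → Prop) (hA : Inc A) : G.pr q v Ed A ≤ G.pr q v' Ed A := by
  have hq0 : 0 < q := by linarith
  have hv' : ∀ e, 0 ≤ v' e := fun e => (hv e).trans (h e)
  have h1 := G.pr_mul_pr_le q v v' hq hv h Ed Ed A (fun _ => True) (fun _ => True) A
    (fun a ha hAa b hb _ => ⟨⟨inter_subset_left.trans ha, trivial⟩, union_subset ha hb,
      hA _ _ subset_union_left hAa⟩)
  rwa [G.pr_true q v hq0 hv, G.pr_true q v' hq0 hv', one_mul, mul_one] at h1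

/-- The conditional measures given `F ⊆ ω` increase with the weights, the edge set and `F`. -/
theorem pr_cond_mono_v (hq : 1 ≤ q) (hv : ∀ e, 0 ≤ v e) (hvv : ∀ e, v e ≤ v' e)
    {Ed Ed' F F' : Finset ι} (h : Ed ⊆ Ed') (hF : F ⊆ F') (A : Finset ι → Prop) (hA : Inc A) :
    G.pr q v Ed (fun ω => F ⊆ ω ∧ A ω) * G.pr q v' Ed' (fun ω => F' ⊆ ω) ≤
      G.pr q v' Ed' (fun ω => F' ⊆ ω ∧ A ω) * G.pr q v Ed (fun ω => F ⊆ ω) := by
  rw [mul_comm (G.pr q v' Ed' _) (G.pr q v Ed _)]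
  exact G.pr_mul_pr_le q v v' hq hv hvv Ed Ed' _ _ _ _
    (fun a ha hAa b hb hFb => ⟨⟨inter_subset_left.trans ha,
      subset_inter hAa.1 (hF.trans hFb)⟩, union_subset (ha.trans h) hb,
        hFb.trans subset_union_right, hA _ _ subset_union_left hAa.2⟩)

/-- The conditional measures given `F ⊆ ω` increase with the edge set and with `F`. -/
theorem pr_cond_mono (hq : 1 ≤ q) (hv : ∀ e, 0 ≤ v e) {Ed Ed' F F' : Finset ι} (h : Ed ⊆ Ed')
    (hF : F ⊆ F') (A : Finset ι → Prop) (hA : Inc A) :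
    G.pr q v Ed (fun ω => F ⊆ ω ∧ A ω) * G.pr q v Ed' (fun ω => F' ⊆ ω) ≤
      G.pr q v Ed' (fun ω => F' ⊆ ω ∧ A ω) * G.pr q v Ed (fun ω => F ⊆ ω) :=
  G.pr_cond_mono_v q v v hq hv (fun _ => le_rfl) h hF A hA

theorem pr_mono_edges (hq : 1 ≤ q) (hv : ∀ e, 0 ≤ v e) {Ed Ed' : Finset ι} (h : Ed ⊆ Ed')
    (A : Finset ι → Prop) (hA : Inc A) : G.pr q v Ed A ≤ G.pr q v Ed' A := by
  have hq0 : 0 < q := by linarith
  have h1 := G.pr_mul_pr_le q v v hq hv (fun _ => le_rfl) Ed Ed' A (fun _ => True)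
    (fun _ => True) A
    (fun a ha hAa b hb _ => ⟨⟨inter_subset_left.trans ha, trivial⟩, union_subset (ha.trans h) hb,
      hA _ _ subset_union_left hAa⟩)
  rwa [G.pr_true q v hq0 hv, G.pr_true q v hq0 hv, one_mul, mul_one] at h1

/-- Monotonicity in the weights and the edge set at the same time. -/
theorem pr_mono (hq : 1 ≤ q) (hv : ∀ e, 0 ≤ v e) (hvv : ∀ e, v e ≤ v' e) {Ed Ed' : Finset ι}
    (h : Ed ⊆ Ed') (A : Finset ι → Prop) (hA : Inc A) : G.pr q v Ed A ≤ G.pr q v' Ed' A :=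
  (G.pr_mono_edges q v hq hv h A hA).trans (G.pr_mono_v q v v' hq hv hvv Ed' A hA)

/-! ### Closing and opening edges -/

/-- The conditional measure given that the edges of `F` are closed. -/
theorem pr_closed (hq : 0 < q) (hv : ∀ e, 0 ≤ v e) (Ed F : Finset ι) (A : Finset ι → Prop) :
    G.pr q v Ed (fun ω => A ω ∧ Disjoint ω F) =
      G.zz q v (Ed \ F) / G.zz q v Ed * G.pr q v (Ed \ F) A := by
  have h1 : G.sm q v Ed (fun ω => A ω ∧ Disjoint ω F) = G.sm q v (Ed \ F) A := by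
    apply G.sm_congr q v
    intro ω
    rw [subset_sdiff]
    tauto
  have hz := (G.zz_pos q v hq hv Ed).ne'
  have hz' := (G.zz_pos q v hq hv (Ed \ F)).ne'
  rw [pr_eq_sm, pr_eq_sm, h1]
  field_simp

theorem zz_le_zz (hq : 0 < q) (hv : ∀ e, 0 ≤ v e) {Ed Ed' : Finset ι} (h : Ed ⊆ Ed') :
    G.zz q v Ed ≤ G.zz q v Ed' := by
  rw [← G.sm_true q v Ed, ← G.sm_true q v Ed']
  exact G.sm_le q v hq hv _ _ fun ω h1 _ => ⟨h1.trans h, trivial⟩

/-- The weight of a union. -/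
theorem wt_union_le (hq : 1 ≤ q) (hv : ∀ e, 0 ≤ v e) (a b : Finset ι) (hab : Disjoint a b) :
    G.wt q v (a ∪ b) ≤ G.wt q v a * ∏ e ∈ b, v e := by
  have hq0 : 0 < q := by linarith
  unfold wt
  rw [prod_union hab]
  have h1 : (q⁻¹) ^ G.rk (a ∪ b) ≤ (q⁻¹) ^ G.rk a :=
    pow_le_pow_of_le_one (inv_nonneg.2 hq0.le) (inv_le_one_of_one_le₀ hq)
      (G.rk_mono subset_union_left)
  have h2 : 0 ≤ (∏ e ∈ a, v e) * ∏ e ∈ b, v e :=
    mul_nonneg (prod_nonneg fun e _ => hv e) (prod_nonneg fun e _ => hv e)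
  calc (∏ e ∈ a, v e) * (∏ e ∈ b, v e) * (q⁻¹) ^ G.rk (a ∪ b)
      ≤ (∏ e ∈ a, v e) * (∏ e ∈ b, v e) * (q⁻¹) ^ G.rk a := by gcongr
    _ = _ := by ring

/-- Closing the edges of `F` costs at most a constant for each edge. -/
theorem pr_le_close (hq : 1 ≤ q) (vm : ℝ) (hv : ∀ e, 0 ≤ v e) (hvm : ∀ e, v e ≤ vm)
    (Ed F : Finset ι) (A A' : Finset ι → Prop) (h : ∀ ω ⊆ Ed, A ω → A' (ω \ F)) :
    G.pr q v Ed A ≤ (1 + vm) ^ F.card * G.pr q v (Ed \ F) A' := by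
  classical
  have hq0 : 0 < q := by linarith
  have h1 : G.sm q v Ed A ≤ (∏ e ∈ F, (v e + 1)) * G.sm q v (Ed \ F) A' := by
    unfold sm
    rw [prod_add_one, sum_mul_sum]
    rw [← sum_product']
    have hinj : Set.InjOn (fun ω : Finset ι => (ω ∩ F, ω \ F))
        ((Ed.powerset.filter A : Finset (Finset ι)) : Set (Finset ι)) := by
      intro a _ b _ hab
      have h2 := (Prod.mk.inj hab).1
      have h3 := (Prod.mk.inj hab).2
      rw [← sdiff_union_inter a F, ← sdiff_union_inter b F, h2, h3]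
    have hsub : (Ed.powerset.filter A).image (fun ω : Finset ι => (ω ∩ F, ω \ F)) ⊆
        F.powerset ×ˢ ((Ed \ F).powerset.filter A') := by
      intro p hp
      obtain ⟨ω, hω, rfl⟩ := mem_image.1 hp
      rw [mem_filter, mem_powerset] at hω
      rw [mem_product, mem_powerset, mem_filter, mem_powerset]
      exact ⟨inter_subset_right, sdiff_subset_sdiff hω.1 le_rfl, h ω hω.1 hω.2⟩
    calc ∑ ω ∈ Ed.powerset.filter A, G.wt q v ω
        ≤ ∑ ω ∈ Ed.powerset.filter A, (∏ e ∈ ω ∩ F, v e) * G.wt q v (ω \ F) := by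
          apply sum_le_sum
          intro ω _
          have h4 := G.wt_union_le q v hq hv (ω \ F) (ω ∩ F) (disjoint_sdiff_inter ω F)
          rw [sdiff_union_inter] at h4
          linarith [mul_comm (G.wt q v (ω \ F)) (∏ e ∈ ω ∩ F, v e)]
      _ = ∑ p ∈ (Ed.powerset.filter A).image (fun ω : Finset ι => (ω ∩ F, ω \ F)),
            (∏ e ∈ p.1, v e) * G.wt q v p.2 := by
          rw [sum_image hinj]
      _ ≤ ∑ p ∈ F.powerset ×ˢ ((Ed \ F).powerset.filter A'),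
            (∏ e ∈ p.1, v e) * G.wt q v p.2 := by
          apply sum_le_sum_of_subset_of_nonneg hsub
          intro p _ _
          exact mul_nonneg (prod_nonneg fun e _ => hv e) (G.wt_nonneg q v hq0 hv _)
  have h2 : ∏ e ∈ F, (v e + 1) ≤ (1 + vm) ^ F.card := by
    rw [← prod_const]
    apply prod_le_prod
    · intro e _
      linarith [hv e]
    · intro e _
      linarith [hvm e]
  have h3 : (0 : ℝ) ≤ ∏ e ∈ F, (v e + 1) := prod_nonneg fun e _ => by linarith [hv e]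
  have hz := G.zz_pos q v hq0 hv Ed
  have hz' := G.zz_pos q v hq0 hv (Ed \ F)
  have hs := G.sm_nonneg q v hq0 hv (Ed \ F) A'
  rw [pr_eq_sm, pr_eq_sm, div_le_iff₀ hz]
  have h4 : G.zz q v (Ed \ F) ≤ G.zz q v Ed := G.zz_le_zz q v hq0 hv sdiff_subset
  have h5 : G.sm q v (Ed \ F) A' ≤ G.sm q v (Ed \ F) A' / G.zz q v (Ed \ F) * G.zz q v Ed := by
    rw [div_mul_eq_mul_div, le_div_iff₀ hz']
    exact mul_le_mul_of_nonneg_left h4 hs
  calc G.sm q v Ed A ≤ (∏ e ∈ F, (v e + 1)) * G.sm q v (Ed \ F) A' := h1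
    _ ≤ (1 + vm) ^ F.card * G.sm q v (Ed \ F) A' := mul_le_mul_of_nonneg_right h2 hs
    _ ≤ (1 + vm) ^ F.card * (G.sm q v (Ed \ F) A' / G.zz q v (Ed \ F) * G.zz q v Ed) :=
        mul_le_mul_of_nonneg_left h5 (h3.trans h2)
    _ = _ := by ring

theorem rk_insert_le (ω : Finset ι) (e : ι) : G.rk (insert e ω) ≤ G.rk ω + 1 := by
  by_cases h : G.Rch ω (G.s e) (G.t e)
  · rw [G.rk_insert_of_rch h]
    omega
  · rw [G.rk_insert_of_not h]

/-- Splitting according to the state of the edge `e`. -/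
theorem sm_mem_eq (Ed : Finset ι) (e : ι) (he : e ∈ Ed) :
    G.sm q v Ed (fun ω => e ∈ ω) = ∑ η ∈ (Ed.erase e).powerset, G.wt q v (insert e η) := by
  classical
  unfold sm
  rw [← sum_image (f := fun ω => G.wt q v ω) (g := fun η => insert e η)
    (s := (Ed.erase e).powerset)]
  · apply sum_congr _ fun _ _ => rfl
    ext ω
    rw [mem_ev, mem_image]
    constructor
    · rintro ⟨h1, h2⟩
      exact ⟨ω.erase e, mem_powerset.2 (erase_subset_erase e h1), insert_erase h2⟩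
    · rintro ⟨η, h1, rfl⟩
      rw [mem_powerset] at h1
      exact ⟨insert_subset he (h1.trans (erase_subset e Ed)), mem_insert_self e η⟩
  · intro a ha b hb hab
    rw [mem_coe, mem_powerset] at ha hb
    have h1 : e ∉ a := fun h => notMem_erase e Ed (ha h)
    have h2 : e ∉ b := fun h => notMem_erase e Ed (hb h)
    simp only at hab
    rw [← erase_insert h1, ← erase_insert h2, hab]

theorem sm_notMem_eq (Ed : Finset ι) (e : ι) :
    G.sm q v Ed (fun ω => e ∉ ω) = ∑ η ∈ (Ed.erase e).powerset, G.wt q v η := by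
  unfold sm
  apply sum_congr _ fun _ _ => rfl
  ext ω
  rw [mem_ev, mem_powerset, subset_erase]

theorem zz_split (Ed : Finset ι) (e : ι) :
    G.zz q v Ed = G.sm q v Ed (fun ω => e ∈ ω) + G.sm q v Ed (fun ω => e ∉ ω) := by
  rw [← G.sm_true q v Ed, G.sm_add q v Ed (fun _ => True) (fun ω => e ∈ ω)]
  congr 1
  · exact G.sm_congr q v fun ω => by simp
  · exact G.sm_congr q v fun ω => by simp

theorem pr_open_ge (hq : 1 ≤ q) (hv : ∀ e, 0 ≤ v e) (Ed : Finset ι) (e : ι) (he : e ∈ Ed) :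
    v e / (v e + q) ≤ G.pr q v Ed (fun ω => e ∈ ω) := by
  have hq0 : 0 < q := by linarith
  have hz := G.zz_pos q v hq0 hv Ed
  have h1 : v e / q * G.sm q v Ed (fun ω => e ∉ ω) ≤ G.sm q v Ed (fun ω => e ∈ ω) := by
    rw [G.sm_mem_eq q v Ed e he, G.sm_notMem_eq q v Ed e, mul_sum]
    apply sum_le_sum
    intro η hη
    rw [mem_powerset] at hη
    have h2 : e ∉ η := fun h => notMem_erase e Ed (hη h)
    unfold wt
    rw [prod_insert h2]
    have h3 : (q⁻¹) ^ (G.rk η + 1) ≤ (q⁻¹) ^ G.rk (insert e η) :=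
      pow_le_pow_of_le_one (inv_nonneg.2 hq0.le) (inv_le_one_of_one_le₀ hq) (G.rk_insert_le η e)
    have h4 : 0 ≤ v e * ∏ x ∈ η, v x := mul_nonneg (hv e) (prod_nonneg fun x _ => hv x)
    calc v e / q * ((∏ x ∈ η, v x) * (q⁻¹) ^ G.rk η)
        = v e * (∏ x ∈ η, v x) * (q⁻¹) ^ (G.rk η + 1) := by
          rw [pow_succ]
          ring
      _ ≤ _ := mul_le_mul_of_nonneg_left h3 h4
  rw [pr_eq_sm, div_le_div_iff₀ (by linarith [hv e]) hz, G.zz_split q v Ed e]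
  have h5 : v e * G.sm q v Ed (fun ω => e ∉ ω) ≤ q * G.sm q v Ed (fun ω => e ∈ ω) := by
    calc v e * G.sm q v Ed (fun ω => e ∉ ω) = q * (v e / q * G.sm q v Ed (fun ω => e ∉ ω)) := by
          field_simp
      _ ≤ _ := mul_le_mul_of_nonneg_left h1 hq0.le
  nlinarith

theorem pr_closed_ge (hq : 1 ≤ q) (hv : ∀ e, 0 ≤ v e) (Ed : Finset ι) (e : ι) :
    (1 + v e)⁻¹ ≤ G.pr q v Ed (fun ω => e ∉ ω) := by
  have hq0 : 0 < q := by linarith
  have hz := G.zz_pos q v hq0 hv Ed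
  have hn := G.sm_nonneg q v hq0 hv Ed (fun ω => e ∉ ω)
  have h1 : G.sm q v Ed (fun ω => e ∈ ω) ≤ v e * G.sm q v Ed (fun ω => e ∉ ω) := by
    by_cases he : e ∈ Ed
    · rw [G.sm_mem_eq q v Ed e he, G.sm_notMem_eq q v Ed e, mul_sum]
      apply sum_le_sum
      intro η hη
      rw [mem_powerset] at hη
      have h2 : e ∉ η := fun h => notMem_erase e Ed (hη h)
      unfold wt
      rw [prod_insert h2]
      have h3 : (q⁻¹) ^ G.rk (insert e η) ≤ (q⁻¹) ^ G.rk η :=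
        pow_le_pow_of_le_one (inv_nonneg.2 hq0.le) (inv_le_one_of_one_le₀ hq)
          (G.rk_mono (subset_insert e η))
      have h4 : 0 ≤ v e * ∏ x ∈ η, v x := mul_nonneg (hv e) (prod_nonneg fun x _ => hv x)
      calc v e * (∏ x ∈ η, v x) * (q⁻¹) ^ G.rk (insert e η)
          ≤ v e * (∏ x ∈ η, v x) * (q⁻¹) ^ G.rk η := mul_le_mul_of_nonneg_left h3 h4
        _ = _ := by ring
    · have h2 : G.sm q v Ed (fun ω => e ∈ ω) ≤ G.sm q v Ed (fun _ => False) :=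
        G.sm_le q v hq0 hv _ _ fun ω h3 h4 => absurd (h3 h4) he
      have h3 : G.sm q v Ed (fun _ => False) = 0 := by
        unfold sm
        rw [filter_false, sum_empty]
      have h4 := mul_nonneg (hv e) hn
      linarith
  rw [pr_eq_sm, inv_eq_one_div, div_le_div_iff₀ (by linarith [hv e]) hz, G.zz_split q v Ed e]
  linarith

end B

end Gr

end Pool.Agent.DL
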