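import Pool.Agent.DL.FKA
import Pool.Agent.DL.FKB

/-!
# Clusters of the finite random-cluster measure
-/

set_option autoImplicit false
set_option linter.unusedSectionVars false

namespace Pool.Agent.DL

open Finset

namespace Gr

variable {V ι : Type} [DecidableEq V] [DecidableEq ι] (G : Gr V ι)

section C

variable (q : ℝ) (v : ι → ℝ)

theorem mem_del {A : Finset V} {Ed : Finset ι} {e : ι} :
    e ∈ G.del A Ed ↔ e ∈ Ed ∧ G.s e ∉ A ∧ G.t e ∉ A := by
  simp [del]

theorem mem_tch {A : Finset V} {Ed : Finset ι} {e : ι} :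
    e ∈ G.tch A Ed ↔ e ∈ Ed ∧ (G.s e ∈ A ∨ G.t e ∈ A) := by
  simp [tch]

theorem del_subset (A : Finset V) (Ed : Finset ι) : G.del A Ed ⊆ Ed := Finset.filter_subset _ _

theorem tch_subset (A : Finset V) (Ed : Finset ι) : G.tch A Ed ⊆ Ed := Finset.filter_subset _ _

theorem tch_union_del (A : Finset V) (Ed : Finset ι) : G.tch A Ed ∪ G.del A Ed = Ed := by
  ext e
  simp only [Finset.mem_union, mem_tch, mem_del]
  tauto

theorem tch_eq_empty_iff {A : Finset V} {ω : Finset ι} : G.tch A ω = ∅ ↔ G.del A ω = ω := by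
  constructor
  · intro h
    have := G.tch_union_del A ω
    rwa [h, Finset.empty_union] at this
  · intro h
    ext e
    simp only [mem_tch, Finset.notMem_empty, iff_false]
    rintro ⟨he, h1⟩
    rw [← h, mem_del] at he
    tauto

theorem del_mono (A : Finset V) {a b : Finset ι} (h : a ⊆ b) : G.del A a ⊆ G.del A b := by
  intro e he
  rw [mem_del] at he ⊢
  exact ⟨h he.1, he.2⟩

theorem del_del (A B : Finset V) (Ed : Finset ι) :
    G.del B (G.del A Ed) = G.del (A ∪ B) Ed := by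
  ext e
  simp only [mem_del, Finset.mem_union]
  tauto

theorem zz_mono (hq : 0 < q) (hv : ∀ e, 0 ≤ v e) {a b : Finset ι} (h : a ⊆ b) :
    G.zz q v a ≤ G.zz q v b := by
  unfold zz
  refine Finset.sum_le_sum_of_subset_of_nonneg (Finset.powerset_mono.2 h) ?_
  intro ω _ _
  exact G.wt_nonneg q v hq hv ω

theorem ze_pos (hq : 0 < q) (hv : ∀ e, 0 ≤ v e) (Ed : Finset ι) (A : Finset V) :
    0 < G.ze q v Ed A := div_pos (G.zz_pos q v hq hv _) (G.zz_pos q v hq hv _)

theorem ze_le_one (hq : 0 < q) (hv : ∀ e, 0 ≤ v e) (Ed : Finset ι) (A : Finset V) :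
    G.ze q v Ed A ≤ 1 := by
  unfold ze
  rw [div_le_one (G.zz_pos q v hq hv _)]
  exact G.zz_mono q v hq hv (G.del_subset A Ed)

theorem ze_eq_pr (_hq : 0 < q) (_hv : ∀ e, 0 ≤ v e) (Ed : Finset ι) (A : Finset V) :
    G.ze q v Ed A = G.pr q v Ed (fun ω => G.tch A ω = ∅) := by
  classical
  unfold ze pr
  congr 1
  unfold zz
  refine Finset.sum_congr ?_ (fun _ _ => rfl)
  ext ω
  simp only [Finset.mem_powerset, Finset.mem_filter]
  rw [tch_eq_empty_iff]
  constructor
  · intro h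
    refine ⟨h.trans (G.del_subset A Ed), ?_⟩
    ext e
    rw [mem_del]
    constructor
    · exact fun h' => h'.1
    · exact fun h' => ⟨h', ((G.mem_del).1 (h h')).2⟩
  · rintro ⟨h1, h2⟩
    rw [← h2]
    exact G.del_mono A h1

theorem ze_union_eq (hq : 0 < q) (hv : ∀ e, 0 ≤ v e) (Ed : Finset ι) (A B : Finset V) :
    G.ze q v Ed (A ∪ B) = G.ze q v Ed A * G.ze q v (G.del A Ed) B := by
  have h := (G.zz_pos q v hq hv (G.del A Ed)).ne'
  have h' := (G.zz_pos q v hq hv Ed).ne'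
  unfold ze
  rw [del_del]
  field_simp

theorem ze_eq_one_sub (hq : 0 < q) (hv : ∀ e, 0 ≤ v e) (Ed : Finset ι) (A : Finset V) :
    G.ze q v Ed A = 1 - G.pr q v Ed (fun ω => ¬ G.tch A ω = ∅) := by
  have h1 := G.pr_add q v Ed (fun _ => True) (fun ω => G.tch A ω = ∅)
  rw [G.pr_true q v hq hv] at h1
  simp only [true_and] at h1
  rw [ze_eq_pr G q v hq hv]
  linarith

theorem inc_tch (A : Finset V) : Inc (fun ω : Finset ι => ¬ G.tch A ω = ∅) := by
  intro a b hab h h'
  apply h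
  rw [← Finset.subset_empty, ← h']
  intro e he
  rw [mem_tch] at he ⊢
  exact ⟨hab he.1, he.2⟩

theorem ze_anti (hq : 1 ≤ q) (hv : ∀ e, 0 ≤ v e) {Ed Ed' : Finset ι} (h : Ed ⊆ Ed')
    (A : Finset V) : G.ze q v Ed' A ≤ G.ze q v Ed A := by
  have hq0 : 0 < q := by linarith
  rw [ze_eq_one_sub G q v hq0 hv, ze_eq_one_sub G q v hq0 hv]
  have := G.pr_mono_edges q v hq hv h _ (G.inc_tch A)
  linarith

theorem ze_mul_le (hq : 1 ≤ q) (hv : ∀ e, 0 ≤ v e) (Ed : Finset ι) (A B : Finset V) :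
    G.ze q v Ed A * G.ze q v Ed B ≤ G.ze q v Ed (A ∪ B) := by
  have hq0 : 0 < q := by linarith
  rw [ze_union_eq G q v hq0 hv]
  exact mul_le_mul_of_nonneg_left (ze_anti G q v hq hv (G.del_subset A Ed) B)
    (ze_pos G q v hq0 hv _ _).le

theorem zz_erase_le (hq : 1 ≤ q) (hv : ∀ e, 0 ≤ v e) (Ed : Finset ι) (e : ι) :
    G.zz q v Ed ≤ (1 + v e) * G.zz q v (Ed \ {e}) := by
  have hq0 : 0 < q := by linarith
  have h1 := G.pr_closed_ge q v hq hv Ed e
  have h2 := G.pr_closed q v hq0 hv Ed {e} (fun _ => True)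
  rw [G.pr_true q v hq0 hv, mul_one] at h2
  have h3 : G.pr q v Ed (fun ω => True ∧ Disjoint ω {e}) = G.pr q v Ed (fun ω => e ∉ ω) := by
    congr 1
    funext ω
    simp
  rw [h3] at h2
  rw [h2] at h1
  have hz := G.zz_pos q v hq0 hv Ed
  have h4 : 0 < 1 + v e := by have := hv e; linarith
  rw [le_div_iff₀ hz, inv_mul_eq_div, div_le_iff₀ h4] at h1
  linarith

theorem zz_sdiff_le (hq : 1 ≤ q) (vm : ℝ) (hv : ∀ e, 0 ≤ v e) (hvm : ∀ e, v e ≤ vm)
    (Ed F : Finset ι) : G.zz q v Ed ≤ (1 + vm) ^ F.card * G.zz q v (Ed \ F) := by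
  have hq0 : 0 < q := by linarith
  induction F using Finset.induction_on with
  | empty => simp
  | insert e F he ih =>
    have h1 := G.zz_erase_le q v hq hv (Ed \ F) e
    have h2 : (Ed \ F) \ {e} = Ed \ insert e F := by
      ext x
      simp only [Finset.mem_sdiff, Finset.mem_singleton, Finset.mem_insert]
      tauto
    rw [h2] at h1
    rw [Finset.card_insert_of_notMem he, pow_succ]
    have h3 : 0 ≤ (1 + vm) ^ F.card := by
      have h5 := hv e
      have h6 := hvm e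
      exact pow_nonneg (by linarith) _
    have h4 : (1 + v e) * G.zz q v (Ed \ insert e F) ≤ (1 + vm) * G.zz q v (Ed \ insert e F) :=
      mul_le_mul_of_nonneg_right (by have := hvm e; linarith) (G.zz_pos q v hq0 hv _).le
    calc G.zz q v Ed ≤ (1 + vm) ^ F.card * G.zz q v (Ed \ F) := ih
      _ ≤ (1 + vm) ^ F.card * ((1 + vm) * G.zz q v (Ed \ insert e F)) :=
          mul_le_mul_of_nonneg_left (h1.trans h4) h3
      _ = _ := by ring

theorem sdiff_tch (A : Finset V) (Ed : Finset ι) : Ed \ G.tch A Ed = G.del A Ed := by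
  ext e
  simp only [Finset.mem_sdiff, mem_tch, mem_del]
  tauto

theorem ze_ge (hq : 1 ≤ q) (vm : ℝ) (hv : ∀ e, 0 ≤ v e) (hvm : ∀ e, v e ≤ vm) (Ed : Finset ι)
    (A : Finset V) : ((1 + vm) ^ (G.tch A Ed).card)⁻¹ ≤ G.ze q v Ed A := by
  have hq0 : 0 < q := by linarith
  have h := G.zz_sdiff_le q v hq vm hv hvm Ed (G.tch A Ed)
  rw [sdiff_tch] at h
  have hz := G.zz_pos q v hq0 hv Ed
  have hz' := G.zz_pos q v hq0 hv (G.del A Ed)
  have hp : 0 < (1 + vm) ^ (G.tch A Ed).card := by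
    by_contra hc
    have : (1 + vm) ^ (G.tch A Ed).card * G.zz q v (G.del A Ed) ≤ 0 :=
      mul_nonpos_of_nonpos_of_nonneg (not_lt.1 hc) hz'.le
    linarith
  unfold ze
  rw [le_div_iff₀ hz, inv_mul_eq_div, div_le_iff₀ hp]
  linarith

/-! ### The weight of a configuration with a given cluster -/

theorem wt_cl {A : Finset V} {E : Finset ι} (h : G.IsCl A E) {ω : Finset ι}
    (hω : ∀ e ∈ ω, G.s e ∉ A ∧ G.t e ∉ A) : G.wt q v (E ∪ ω) = cw q v A E * G.wt q v ω := by
  have hd : Disjoint E ω := by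
    rw [Finset.disjoint_left]
    intro e he he'
    exact (hω e he').1 (h.2.1 e he).1
  unfold wt cw
  rw [Finset.prod_union hd, G.rk_union (A : Set V) E ω (fun e he => by simpa using h.2.1 e he)
    (fun e he => by simpa using hω e he), G.rk_isCl h, pow_add]
  ring

theorem tch_of_cl {A : Finset V} {E : Finset ι} (h : G.IsCl A E) {ω : Finset ι}
    (hω : ∀ e ∈ ω, G.s e ∉ A ∧ G.t e ∉ A) : G.tch A (E ∪ ω) = E := by
  ext e
  simp only [mem_tch, Finset.mem_union]
  constructor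
  · rintro ⟨h1 | h1, h2⟩
    · exact h1
    · have := hω e h1
      tauto
  · intro he
    exact ⟨Or.inl he, Or.inl (h.2.1 e he).1⟩

theorem del_of_cl {A : Finset V} {E : Finset ι} (h : G.IsCl A E) {ω : Finset ι}
    (hω : ∀ e ∈ ω, G.s e ∉ A ∧ G.t e ∉ A) : G.del A (E ∪ ω) = ω := by
  ext e
  simp only [mem_del, Finset.mem_union]
  constructor
  · rintro ⟨h1 | h1, h2⟩
    · exact absurd (h.2.1 e h1).1 h2.1
    · exact h1
  · intro he
    exact ⟨Or.inr he, hω e he⟩

open Classical in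
theorem sum_cl {A : Finset V} {E Ed : Finset ι} (h : G.IsCl A E) (hE : E ⊆ Ed)
    (B : Finset ι → Prop) :
    (∑ ω ∈ Ed.powerset.filter (fun ω => G.tch A ω = E ∧ B (G.del A ω)), G.wt q v ω) =
      cw q v A E * ∑ ω ∈ (G.del A Ed).powerset.filter B, G.wt q v ω := by
  rw [Finset.mul_sum]
  refine Finset.sum_bij' (fun ω _ => G.del A ω) (fun ω _ => E ∪ ω) ?_ ?_ ?_ ?_ ?_
  · intro ω hω
    rw [Finset.mem_filter, Finset.mem_powerset] at hω ⊢
    exact ⟨G.del_mono A hω.1, hω.2.2⟩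
  · intro ω hω
    rw [Finset.mem_filter, Finset.mem_powerset] at hω
    have h1 : ∀ e ∈ ω, G.s e ∉ A ∧ G.t e ∉ A := fun e he => ((G.mem_del).1 (hω.1 he)).2
    rw [Finset.mem_filter, Finset.mem_powerset]
    refine ⟨Finset.union_subset hE (hω.1.trans (G.del_subset A Ed)), G.tch_of_cl h h1, ?_⟩
    rw [G.del_of_cl h h1]
    exact hω.2
  · intro ω hω
    rw [Finset.mem_filter, Finset.mem_powerset] at hω
    have := G.tch_union_del A ω
    rw [hω.2.1] at this
    exact this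
  · intro ω hω
    rw [Finset.mem_filter, Finset.mem_powerset] at hω
    have h1 : ∀ e ∈ ω, G.s e ∉ A ∧ G.t e ∉ A := fun e he => ((G.mem_del).1 (hω.1 he)).2
    exact G.del_of_cl h h1
  · intro ω hω
    rw [Finset.mem_filter, Finset.mem_powerset] at hω
    have h1 : ∀ e ∈ G.del A ω, G.s e ∉ A ∧ G.t e ∉ A := fun e he => ((G.mem_del).1 he).2
    have h2 := G.wt_cl q v h h1
    rw [← h2]
    congr 1
    have := G.tch_union_del A ω
    rw [hω.2.1] at this
    exact this.symm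

open Classical in
/-- Given the cluster `(A, E)` of `x`, the rest is the measure on the edges not touching `A`. -/
theorem pr_cls_and (hq : 0 < q) (hv : ∀ e, 0 ≤ v e) (Ed : Finset ι) {A : Finset V} {E : Finset ι}
    (h : G.IsCl A E) (hE : E ⊆ Ed) (B : Finset ι → Prop) :
    G.pr q v Ed (fun ω => G.tch A ω = E ∧ B (G.del A ω)) =
      cw q v A E * G.ze q v Ed A * G.pr q v (G.del A Ed) B := by
  have h1 := G.sum_cl q v h hE B
  have hz := (G.zz_pos q v hq hv (G.del A Ed)).ne'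
  have hz' := (G.zz_pos q v hq hv Ed).ne'
  have h2 : G.pr q v Ed (fun ω => G.tch A ω = E ∧ B (G.del A ω)) =
      (cw q v A E * ∑ ω ∈ (G.del A Ed).powerset.filter B, G.wt q v ω) / G.zz q v Ed := by
    unfold pr
    congr 1
    convert h1
  rw [h2]
  unfold pr ze
  field_simp

/-- The probability that the open edges touching `A` are those of the connected graph `(A, E)`. -/
theorem pr_cl (hq : 0 < q) (hv : ∀ e, 0 ≤ v e) (Ed : Finset ι) {A : Finset V} {E : Finset ι}
    (h : G.IsCl A E) (hE : E ⊆ Ed) :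
    G.pr q v Ed (fun ω => G.tch A ω = E) = cw q v A E * G.ze q v Ed A := by
  have h1 := G.pr_cls_and q v hq hv Ed h hE (fun _ => True)
  rw [G.pr_true q v hq hv, mul_one] at h1
  simpa using h1

open Classical in
theorem pr_false (Ed : Finset ι) (B : Finset ι → Prop) (h : ∀ ω ⊆ Ed, ¬ B ω) :
    G.pr q v Ed B = 0 := by
  unfold pr
  refine div_eq_zero_iff.2 (Or.inl (Finset.sum_eq_zero ?_))
  intro ω hω
  rw [Finset.mem_filter, Finset.mem_powerset] at hω
  exact absurd hω.2 (h ω hω.1)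

theorem step_mem {ω : Finset ι} {A : Finset V} {E : Finset ι} (h : G.IsCl A E)
    (hA : G.tch A ω = E) {y z : V} (hy : y ∈ A) (hs : G.Step ω y z) : z ∈ A := by
  obtain ⟨e, he, h1⟩ := hs
  have h2 : e ∈ E := by
    rw [← hA, mem_tch]
    refine ⟨he, ?_⟩
    rcases h1 with ⟨h1, _⟩ | ⟨_, h1⟩
    · left; rw [h1]; exact hy
    · right; rw [h1]; exact hy
  have h3 := h.2.1 e h2
  rcases h1 with ⟨_, h1⟩ | ⟨h1, _⟩
  · rw [← h1]; exact h3.2
  · rw [← h1]; exact h3.1

theorem rch_mem {ω : Finset ι} {A : Finset V} {E : Finset ι} (h : G.IsCl A E)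
    (hA : G.tch A ω = E) {y z : V} (hy : y ∈ A) (hs : G.Rch ω y z) : z ∈ A := by
  unfold Rch at hs
  induction hs with
  | refl => exact hy
  | tail _ h2 ih => exact G.step_mem h hA ih h2

theorem cls_iff {ω : Finset ι} {x : V} {A : Finset V} {E : Finset ι} (h : G.Cls ω x A E) (y : V) :
    y ∈ A ↔ G.Rch ω x y := by
  obtain ⟨h1, h2, h3⟩ := h
  constructor
  · intro hy
    refine G.rch_mono ?_ (h1.2.2 x h2 y hy)
    rw [← h3]
    exact G.tch_subset A ω
  · intro hy
    exact G.rch_mem h1 h3 h2 hy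

theorem cls_unique {ω : Finset ι} {x : V} {A A' : Finset V} {E E' : Finset ι}
    (h : G.Cls ω x A E) (h' : G.Cls ω x A' E') : A = A' ∧ E = E' := by
  have h1 : A = A' := by
    ext y
    rw [G.cls_iff h, G.cls_iff h']
  refine ⟨h1, ?_⟩
  rw [← h.2.2, ← h'.2.2, h1]

theorem rch_vs {ω : Finset ι} {x y : V} (h : G.Rch ω x y) : y ∈ G.vs ω x := by
  unfold Rch at h
  induction h with
  | refl => exact Finset.mem_insert_self _ _
  | tail _ h2 _ =>
    obtain ⟨e, he, h1⟩ := h2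
    unfold vs
    rw [Finset.mem_insert, Finset.mem_union, Finset.mem_image, Finset.mem_image]
    rcases h1 with ⟨_, h1⟩ | ⟨h1, _⟩
    · exact Or.inr (Or.inr ⟨e, he, h1⟩)
    · exact Or.inr (Or.inl ⟨e, he, h1⟩)

theorem rch_restrict {ω E : Finset ι} {x y : V} (hE : ∀ e ∈ ω, G.Rch ω x (G.s e) → e ∈ E)
    (h : G.Rch ω x y) : G.Rch E x y := by
  unfold Rch at h
  induction h with
  | refl => exact G.rch_refl _ _
  | tail h0 h2 ih =>
    refine G.rch_trans ih ?_
    obtain ⟨e, he, h1⟩ := h2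
    have h0' : G.Rch ω x _ := h0
    have h3 : e ∈ E := by
      apply hE e he
      rcases h1 with ⟨h1, _⟩ | ⟨_, h1⟩
      · rw [h1]; exact h0'
      · refine G.rch_trans h0' ?_
        rw [← h1]
        exact G.rch_symm (G.rch_edge he)
    have h4 := G.rch_edge h3
    rcases h1 with ⟨h1, h1'⟩ | ⟨h1, h1'⟩
    · rw [h1, h1'] at h4; exact h4
    · rw [h1, h1'] at h4; exact G.rch_symm h4

theorem cls_exists (ω : Finset ι) (x : V) : ∃ A E, G.Cls ω x A E ∧ E ⊆ ω ∧ A ⊆ G.vs ω x := by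
  classical
  set A : Finset V := (G.vs ω x).filter (fun y => G.Rch ω x y) with hA
  have hmem : ∀ y, y ∈ A ↔ G.Rch ω x y := by
    intro y
    rw [hA, Finset.mem_filter]
    exact ⟨fun h => h.2, fun h => ⟨G.rch_vs h, h⟩⟩
  refine ⟨A, G.tch A ω, ⟨⟨⟨x, (hmem x).2 (G.rch_refl _ _)⟩, ?_, ?_⟩,
    (hmem x).2 (G.rch_refl _ _), rfl⟩, G.tch_subset A ω, Finset.filter_subset _ _⟩
  · intro e he
    rw [mem_tch] at he
    have h1 := G.rch_edge he.1
    rcases he.2 with h2 | h2
    · exact ⟨h2, (hmem _).2 (G.rch_trans ((hmem _).1 h2) h1)⟩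
    · exact ⟨(hmem _).2 (G.rch_trans ((hmem _).1 h2) (G.rch_symm h1)), h2⟩
  · have key : ∀ y ∈ A, G.Rch (G.tch A ω) x y := by
      intro y hy
      refine G.rch_restrict ?_ ((hmem y).1 hy)
      intro e he h1
      rw [mem_tch]
      exact ⟨he, Or.inl ((hmem _).2 h1)⟩
    intro y hy z hz
    exact G.rch_trans (G.rch_symm (key y hy)) (key z hz)

theorem vs_mono {a b : Finset ι} (h : a ⊆ b) (x : V) : G.vs a x ⊆ G.vs b x := by
  unfold vs
  exact Finset.insert_subset_insert _ (Finset.union_subset_union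
    (Finset.image_subset_image h) (Finset.image_subset_image h))

open Classical in
/-- Decomposition of an event over the cluster of `x`. -/
theorem pr_sum_cls (Ed : Finset ι) (x : V) (B : Finset ι → Prop) :
    G.pr q v Ed B =
      ∑ A ∈ (G.vs Ed x).powerset, ∑ E ∈ Ed.powerset,
        if G.IsCl A E ∧ x ∈ A then G.pr q v Ed (fun ω => G.tch A ω = E ∧ B ω) else 0 := by
  have h1 : ∀ A ∈ (G.vs Ed x).powerset, ∀ E ∈ Ed.powerset,
      (if G.IsCl A E ∧ x ∈ A then G.pr q v Ed (fun ω => G.tch A ω = E ∧ B ω) else 0) =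
      (∑ ω ∈ Ed.powerset, if (G.Cls ω x A E) ∧ B ω then G.wt q v ω else 0) / G.zz q v Ed := by
    intro A _ E _
    split_ifs with h
    · unfold pr
      rw [Finset.sum_filter]
      congr 1
      refine Finset.sum_congr rfl ?_
      intro ω _
      congr 1
      simp only [Cls, eq_iff_iff]
      tauto
    · rw [Finset.sum_eq_zero, zero_div]
      intro ω _
      rw [if_neg]
      rintro ⟨⟨h1, h2, _⟩, _⟩
      exact h ⟨h1, h2⟩
  rw [Finset.sum_congr rfl (fun A hA => Finset.sum_congr rfl (h1 A hA))]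
  simp only [← Finset.sum_div]
  unfold pr
  congr 1
  rw [Finset.sum_congr rfl (fun A _ => Finset.sum_comm), Finset.sum_comm, Finset.sum_filter]
  refine Finset.sum_congr rfl ?_
  intro ω hω
  rw [Finset.mem_powerset] at hω
  obtain ⟨A, E, h2, h3, h4⟩ := G.cls_exists ω x
  rw [Finset.sum_eq_single A, Finset.sum_eq_single E]
  · by_cases hB : B ω
    · rw [if_pos hB, if_pos ⟨h2, hB⟩]
    · rw [if_neg hB, if_neg (fun h => hB h.2)]
  · intro E' _ hE'
    rw [if_neg]
    rintro ⟨h, _⟩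
    exact hE' (G.cls_unique h h2).2
  · intro h
    exact absurd (Finset.mem_powerset.2 (h3.trans hω)) h
  · intro A' _ hA'
    refine Finset.sum_eq_zero ?_
    intro E' _
    rw [if_neg]
    rintro ⟨h, _⟩
    exact hA' (G.cls_unique h h2).1
  · intro h
    exact absurd (Finset.mem_powerset.2 (h4.trans (G.vs_mono hω x))) h

open Classical in
/-- Expansion over the cluster of `x`. -/
theorem pr_eq_sum_cls (hq : 0 < q) (hv : ∀ e, 0 ≤ v e) (Ed : Finset ι) (x : V)
    (P : Finset V → Finset ι → Prop) :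
    G.pr q v Ed (fun ω => ∃ A E, G.Cls ω x A E ∧ P A E) =
      ∑ A ∈ (G.vs Ed x).powerset, ∑ E ∈ Ed.powerset,
        if G.IsCl A E ∧ x ∈ A ∧ P A E then cw q v A E * G.ze q v Ed A else 0 := by
  rw [G.pr_sum_cls q v Ed x]
  refine Finset.sum_congr rfl (fun A _ => Finset.sum_congr rfl (fun E hE => ?_))
  rw [Finset.mem_powerset] at hE
  by_cases h : G.IsCl A E ∧ x ∈ A
  · rw [if_pos h]
    by_cases hP : P A E
    · rw [if_pos ⟨h.1, h.2, hP⟩, ← G.pr_cl q v hq hv Ed h.1 hE]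
      congr 1
      funext ω
      simp only [eq_iff_iff, and_iff_left_iff_imp]
      intro h1
      exact ⟨A, E, ⟨h.1, h.2, h1⟩, hP⟩
    · rw [if_neg (fun h' => hP h'.2.2)]
      refine G.pr_false q v Ed _ ?_
      rintro ω _ ⟨h1, A', E', h2, h3⟩
      obtain ⟨h4, h5⟩ := G.cls_unique h2 ⟨h.1, h.2, h1⟩
      rw [h4, h5] at h3
      exact hP h3
  · rw [if_neg h, if_neg (fun h' => h ⟨h'.1, h'.2.1⟩)]

theorem tp_nonneg (hq : 0 < q) (hv : ∀ e, 0 ≤ v e) (Ed : Finset ι) (x y : V) :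
    0 ≤ G.tp q v Ed x y := G.pr_nonneg q v hq hv Ed _

theorem tp_le_one (hq : 0 < q) (hv : ∀ e, 0 ≤ v e) (Ed : Finset ι) (x y : V) :
    G.tp q v Ed x y ≤ 1 := G.pr_le_one q v hq hv Ed _

theorem tp_comm (Ed : Finset ι) (x y : V) : G.tp q v Ed x y = G.tp q v Ed y x := by
  unfold tp
  congr 1
  funext ω
  exact propext ⟨G.rch_symm, G.rch_symm⟩

theorem inc_rch (x y : V) : Inc (fun ω : Finset ι => G.Rch ω x y) :=
  fun _ _ h h' => G.rch_mono h h'

theorem tp_mul_le (hq : 1 ≤ q) (hv : ∀ e, 0 ≤ v e) (Ed : Finset ι) (x y z : V) :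
    G.tp q v Ed x y * G.tp q v Ed y z ≤ G.tp q v Ed x z := by
  have hq0 : 0 < q := by linarith
  unfold tp
  refine (G.pr_mul_le q v hq hv Ed _ _ (G.inc_rch x y) (G.inc_rch y z)).trans ?_
  exact G.pr_le q v hq0 hv Ed _ _ (fun ω _ h => G.rch_trans h.1 h.2)

theorem tp_mono_edges (hq : 1 ≤ q) (hv : ∀ e, 0 ≤ v e) {Ed Ed' : Finset ι} (h : Ed ⊆ Ed')
    (x y : V) : G.tp q v Ed x y ≤ G.tp q v Ed' x y :=
  G.pr_mono_edges q v hq hv h _ (G.inc_rch x y)

theorem rch_del {ω : Finset ι} {A : Finset V} {E : Finset ι} (h : G.IsCl A E)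
    (hA : G.tch A ω = E) {y z : V} (hy : y ∉ A) (hs : G.Rch ω y z) :
    G.Rch (G.del A ω) y z ∧ z ∉ A := by
  unfold Rch at hs
  induction hs with
  | refl => exact ⟨G.rch_refl _ _, hy⟩
  | tail h0 h2 ih =>
    obtain ⟨ih1, ih2⟩ := ih
    obtain ⟨e, he, h1⟩ := h2
    have h3 : e ∈ G.del A ω := by
      by_contra hc
      have h4 : e ∈ G.tch A ω := by
        rw [mem_tch]
        rw [mem_del] at hc
        tauto
      rw [hA] at h4
      have h5 := h.2.1 e h4
      rcases h1 with ⟨h1, _⟩ | ⟨_, h1⟩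
      · rw [h1] at h5; exact ih2 h5.1
      · rw [h1] at h5; exact ih2 h5.2
    have h4 := G.rch_edge h3
    have h5 := (G.mem_del).1 h3
    rcases h1 with ⟨h1, h1'⟩ | ⟨h1, h1'⟩
    · rw [h1, h1'] at h4
      refine ⟨G.rch_trans ih1 h4, ?_⟩
      rw [← h1']
      exact h5.2.2
    · rw [h1, h1'] at h4
      refine ⟨G.rch_trans ih1 (G.rch_symm h4), ?_⟩
      rw [← h1]
      exact h5.2.1

open Classical in
/-- Connections by different clusters. -/
theorem pr_distinct (hq : 1 ≤ q) (hv : ∀ e, 0 ≤ v e) (Ed : Finset ι) (n : ℕ) (a b : Fin n → V) :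
    G.pr q v Ed (fun ω => (∀ i, G.Rch ω (a i) (b i)) ∧ ∀ i j, i ≠ j → ¬ G.Rch ω (a i) (a j)) ≤
      ∏ i, G.tp q v Ed (a i) (b i) := by
  have hq0 : 0 < q := by linarith
  induction n generalizing Ed with
  | zero =>
    simp only [Finset.univ_eq_empty, Finset.prod_empty]
    exact G.pr_le_one q v hq0 hv Ed _
  | succ n ih =>
    rw [Fin.prod_univ_succ, G.pr_sum_cls q v Ed (a 0)]
    set T : ℝ := ∏ i : Fin n, G.tp q v Ed (a i.succ) (b i.succ) with hT
    have hT0 : 0 ≤ T := Finset.prod_nonneg (fun i _ => G.tp_nonneg q v hq0 hv _ _ _)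
    have h0 : G.tp q v Ed (a 0) (b 0) = ∑ A ∈ (G.vs Ed (a 0)).powerset, ∑ E ∈ Ed.powerset,
        if G.IsCl A E ∧ a 0 ∈ A ∧ b 0 ∈ A then cw q v A E * G.ze q v Ed A else 0 := by
      have h00 := G.pr_eq_sum_cls q v hq0 hv Ed (a 0) (fun A _ => b 0 ∈ A)
      have h01 : G.tp q v Ed (a 0) (b 0) =
          G.pr q v Ed (fun ω => ∃ A E, G.Cls ω (a 0) A E ∧ b 0 ∈ A) := by
        unfold tp
        congr 1
        funext ω
        apply propext
        constructor
        · intro h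
          obtain ⟨A, E, h2, _, _⟩ := G.cls_exists ω (a 0)
          exact ⟨A, E, h2, (G.cls_iff h2 _).2 h⟩
        · rintro ⟨A, E, h2, h3⟩
          exact (G.cls_iff h2 _).1 h3
      rw [h01, h00]
      refine Finset.sum_congr rfl (fun A _ => Finset.sum_congr rfl (fun E _ => ?_))
      congr
    rw [h0, Finset.sum_mul]
    refine Finset.sum_le_sum (fun A _ => ?_)
    rw [Finset.sum_mul]
    refine Finset.sum_le_sum (fun E hE => ?_)
    rw [Finset.mem_powerset] at hE
    by_cases hc : G.IsCl A E ∧ a 0 ∈ A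
    · rw [if_pos hc]
      by_cases hb : b 0 ∈ A
      · rw [if_pos ⟨hc.1, hc.2, hb⟩]
        have h1 : G.pr q v Ed (fun ω => G.tch A ω = E ∧ ((∀ i, G.Rch ω (a i) (b i)) ∧
            ∀ i j, i ≠ j → ¬ G.Rch ω (a i) (a j))) ≤
            G.pr q v Ed (fun ω => G.tch A ω = E ∧
              (fun η => (∀ i : Fin n, G.Rch η (a i.succ) (b i.succ)) ∧
              ∀ i j : Fin n, i ≠ j → ¬ G.Rch η (a i.succ) (a j.succ)) (G.del A ω)) := by
          refine G.pr_le q v hq0 hv Ed _ _ ?_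
          rintro ω _ ⟨h1, h2, h3⟩
          refine ⟨h1, ?_, ?_⟩
          · intro i
            have h4 : a i.succ ∉ A := by
              intro h5
              have h6 : G.Cls ω (a 0) A E := ⟨hc.1, hc.2, h1⟩
              exact h3 0 i.succ (Fin.succ_ne_zero i).symm ((G.cls_iff h6 _).1 h5)
            exact (G.rch_del hc.1 h1 h4 (h2 i.succ)).1
          · intro i j hij h5
            refine h3 i.succ j.succ (fun h => hij (Fin.succ_injective _ h)) ?_
            exact G.rch_mono (G.del_subset A ω) h5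
        refine h1.trans ?_
        rw [G.pr_cls_and q v hq0 hv Ed hc.1 hE (fun η => (∀ i : Fin n,
          G.Rch η (a i.succ) (b i.succ)) ∧
              ∀ i j : Fin n, i ≠ j → ¬ G.Rch η (a i.succ) (a j.succ))]
        have h2 := ih (G.del A Ed) (fun i => a i.succ) (fun i => b i.succ)
        have h3 : ∏ i : Fin n, G.tp q v (G.del A Ed) (a i.succ) (b i.succ) ≤ T := by
          refine Finset.prod_le_prod (fun i _ => G.tp_nonneg q v hq0 hv _ _ _) (fun i _ => ?_)
          exact G.tp_mono_edges q v hq hv (G.del_subset A Ed) _ _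
        refine mul_le_mul_of_nonneg_left (h2.trans h3) ?_
        refine mul_nonneg ?_ (G.ze_pos q v hq0 hv _ _).le
        unfold cw
        refine mul_nonneg (Finset.prod_nonneg (fun e _ => hv e)) ?_
        positivity
      · rw [if_neg (fun h' => hb h'.2.2), zero_mul]
        refine le_of_eq (G.pr_false q v Ed _ ?_)
        rintro ω _ ⟨h1, h2, _⟩
        have h6 : G.Cls ω (a 0) A E := ⟨hc.1, hc.2, h1⟩
        exact hb ((G.cls_iff h6 _).2 (h2 0))
    · rw [if_neg hc, if_neg (fun h' => hc ⟨h'.1, h'.2.1⟩), zero_mul]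

end C

end Gr

end Pool.Agent.DL
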