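import Pool.Agent.DL.Defs2
import Pool.Agent.DL.FKC

/-!
# Sums over clusters
-/

set_option autoImplicit false
set_option linter.unusedSectionVars false

namespace Pool.Agent.DL

open Finset

theorem vJ_nonneg {D : ℕ} {β J : ℝ} (hβ : 0 ≤ β) (hJ : 0 ≤ J) (e : Edge D) : 0 ≤ vJ β J e := by
  unfold vJ
  split_ifs
  · have := Real.one_le_exp (mul_nonneg hβ hJ)
    linarith
  · have := Real.one_le_exp hβ
    linarith

theorem vJ_le {D : ℕ} {β J Jm : ℝ} (hβ : 0 ≤ β) (hJ : J ≤ Jm) (h1 : 1 ≤ Jm) (e : Edge D) :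
    vJ β J e ≤ Real.exp (β * Jm) - 1 := by
  unfold vJ
  split_ifs
  · have : Real.exp (β * J) ≤ Real.exp (β * Jm) :=
      Real.exp_le_exp.2 (mul_le_mul_of_nonneg_left hJ hβ)
    linarith
  · have : Real.exp β ≤ Real.exp (β * Jm) := Real.exp_le_exp.2 (by nlinarith)
    linarith

theorem csp_mem_edg {D : ℕ} {Λ : Finset (Site D)} {e : Edge D} :
    e ∈ edg Λ ↔ (lat D).s e ∈ Λ ∧ (lat D).t e ∈ Λ := by
  unfold edg lat
  rw [Finset.mem_filter, Finset.mem_product]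
  simp

theorem card_tch {D : ℕ} (A Λ : Finset (Site D)) :
    ((lat D).tch A (edg Λ)).card ≤ 2 * (D + 1) * A.card := by
  classical
  have h1 : (lat D).tch A (edg Λ) ⊆
      (A ×ˢ (univ : Finset (Option (Fin D)))) ∪
      (A ×ˢ (univ : Finset (Option (Fin D)))).image
        (fun e => ((e.1 - SB.dir (e.2, true), e.2) : Edge D)) := by
    intro e he
    rw [Gr.mem_tch] at he
    rw [mem_union]
    rcases he.2 with h | h
    · left
      rw [mem_product]
      exact ⟨h, mem_univ _⟩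
    · right
      rw [mem_image]
      refine ⟨((lat D).t e, e.2), mem_product.2 ⟨h, mem_univ _⟩, ?_⟩
      obtain ⟨x, o⟩ := e
      simp [lat]
  refine (card_le_card h1).trans ((card_union_le _ _).trans ?_)
  have h2 : (A ×ˢ (univ : Finset (Option (Fin D)))).card = A.card * (D + 1) := by
    rw [card_product]
    simp
  have h3 := card_image_le (s := A ×ˢ (univ : Finset (Option (Fin D))))
    (f := fun e => ((e.1 - SB.dir (e.2, true), e.2) : Edge D))
  rw [h2] at h3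
  rw [h2]
  calc A.card * (D + 1) + _ ≤ A.card * (D + 1) + A.card * (D + 1) := by gcongr
    _ = 2 * (D + 1) * A.card := by ring

theorem csp_term_nonneg {D : ℕ} {q β J : ℝ} (h : Bas D q β) (hJ : 0 ≤ J) (Λ : Finset (Site D))
    (A : Finset (Site D)) (E : Finset (Edge D)) : 0 ≤ WW D q β J A E * ZZ D q β J Λ A := by
  have hq : 0 < q := lt_of_lt_of_le one_pos h.hq
  refine mul_nonneg ?_ ((lat D).ze_pos q _ hq (vJ_nonneg h.hβ.le hJ) _ _).le
  unfold WW Gr.cw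
  exact mul_nonneg (prod_nonneg fun e _ => vJ_nonneg h.hβ.le hJ e)
    (pow_nonneg (inv_nonneg.2 hq.le) _)

theorem cs_nonneg {D : ℕ} {q β J : ℝ} (h : Bas D q β) (hJ : 0 ≤ J) (Λ : Finset (Site D))
    (P : Finset (Site D) → Finset (Edge D) → Prop) : 0 ≤ cs D q β J Λ P := by
  unfold cs
  refine sum_nonneg fun A _ => sum_nonneg fun E _ => ?_
  split_ifs
  · exact csp_term_nonneg h hJ Λ A E
  · exact le_rfl

theorem cs_mono {D : ℕ} {q β J : ℝ} (h : Bas D q β) (hJ : 0 ≤ J) (Λ : Finset (Site D))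
    (P P' : Finset (Site D) → Finset (Edge D) → Prop)
    (hP : ∀ A E, A ⊆ Λ → E ⊆ edg Λ → (lat D).IsCl A E → P A E → P' A E) :
    cs D q β J Λ P ≤ cs D q β J Λ P' := by
  unfold cs
  refine sum_le_sum fun A hA => sum_le_sum fun E hE => ?_
  rw [mem_powerset] at hA hE
  by_cases h1 : (lat D).IsCl A E ∧ P A E
  · rw [if_pos h1, if_pos ⟨h1.1, hP A E hA hE h1.1 h1.2⟩]
  · rw [if_neg h1]
    split_ifs
    · exact csp_term_nonneg h hJ Λ A E
    · exact le_rfl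

theorem cs_union {D : ℕ} {q β J : ℝ} {κ : Type} (h : Bas D q β) (hJ : 0 ≤ J)
    (Λ : Finset (Site D)) (P : Finset (Site D) → Finset (Edge D) → Prop) (S : Finset κ)
    (P' : κ → Finset (Site D) → Finset (Edge D) → Prop)
    (hP : ∀ A E, A ⊆ Λ → E ⊆ edg Λ → (lat D).IsCl A E → P A E → ∃ k ∈ S, P' k A E) :
    cs D q β J Λ P ≤ ∑ k ∈ S, cs D q β J Λ (P' k) := by
  classical
  unfold cs
  have hcomm : ∑ k ∈ S, ∑ A ∈ Λ.powerset, ∑ E ∈ (edg Λ).powerset,
      (if (lat D).IsCl A E ∧ P' k A E then WW D q β J A E * ZZ D q β J Λ A else 0) =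
      ∑ A ∈ Λ.powerset, ∑ E ∈ (edg Λ).powerset, ∑ k ∈ S,
      (if (lat D).IsCl A E ∧ P' k A E then WW D q β J A E * ZZ D q β J Λ A else 0) := by
    rw [sum_comm]
    refine sum_congr rfl fun A _ => ?_
    rw [sum_comm]
  rw [hcomm]
  refine sum_le_sum fun A hA => sum_le_sum fun E hE => ?_
  rw [mem_powerset] at hA hE
  have hnn : ∀ k ∈ S, 0 ≤ (if (lat D).IsCl A E ∧ P' k A E then
      WW D q β J A E * ZZ D q β J Λ A else 0) := by
    intro k _
    split_ifs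
    · exact csp_term_nonneg h hJ Λ A E
    · exact le_rfl
  by_cases h1 : (lat D).IsCl A E ∧ P A E
  · obtain ⟨k, hk, hk'⟩ := hP A E hA hE h1.1 h1.2
    have h2 := single_le_sum hnn hk
    rw [if_pos ⟨h1.1, hk'⟩] at h2
    rw [if_pos h1]
    exact h2
  · rw [if_neg h1]
    exact sum_nonneg hnn

/-- The sum over the clusters that contain `u` is a probability. -/
theorem cs_eq_PP {D : ℕ} {q β J : ℝ} (h : Bas D q β) (hJ : 0 ≤ J) (Λ : Finset (Site D))
    (u : Site D) (hu : u ∈ Λ) (P : Finset (Site D) → Finset (Edge D) → Prop) :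
    cs D q β J Λ (fun A E => u ∈ A ∧ P A E) =
      PP D q β J Λ (fun ω => ∃ A E, (lat D).Cls ω u A E ∧ P A E) := by
  classical
  have hq : 0 < q := lt_of_lt_of_le one_pos h.hq
  have hsub : (lat D).vs (edg Λ) u ⊆ Λ := by
    intro y hy
    unfold Gr.vs at hy
    rw [mem_insert, mem_union, mem_image, mem_image] at hy
    rcases hy with rfl | ⟨e, he, rfl⟩ | ⟨e, he, rfl⟩
    · exact hu
    · exact (csp_mem_edg.1 he).1
    · exact (csp_mem_edg.1 he).2
  unfold PP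
  rw [(lat D).pr_eq_sum_cls q _ hq (vJ_nonneg h.hβ.le hJ)]
  unfold cs
  symm
  refine sum_subset_zero_on_sdiff (powerset_mono.2 hsub) ?_ ?_
  · intro A hA
    rw [mem_sdiff, mem_powerset, mem_powerset] at hA
    refine sum_eq_zero fun E hE => ?_
    rw [mem_powerset] at hE
    rw [if_neg]
    rintro ⟨h1, h2, h3⟩
    refine hA.2 fun y hy => ?_
    exact (lat D).rch_vs ((lat D).rch_mono hE (h1.2.2 u h2 y hy))
  · intro A _
    refine sum_congr rfl fun E _ => ?_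
    by_cases h1 : (lat D).IsCl A E ∧ u ∈ A ∧ P A E
    · rw [if_pos h1, if_pos h1]
      rfl
    · rw [if_neg h1, if_neg h1]

theorem cs_eq_TT {D : ℕ} {q β J : ℝ} (h : Bas D q β) (hJ : 0 ≤ J) (Λ : Finset (Site D))
    (u w : Site D) (hu : u ∈ Λ) :
    cs D q β J Λ (fun A _ => u ∈ A ∧ w ∈ A) = TT D q β J Λ u w := by
  rw [cs_eq_PP h hJ Λ u hu (fun A _ => w ∈ A)]
  unfold PP TT Gr.tp
  refine (lat D).pr_congr q _ _ ?_
  intro ω _
  constructor
  · rintro ⟨A, E, h1, h2⟩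
    exact ((lat D).cls_iff h1 w).1 h2
  · intro h1
    obtain ⟨A, E, h2, -, -⟩ := (lat D).cls_exists ω u
    exact ⟨A, E, h2, ((lat D).cls_iff h2 w).2 h1⟩

theorem cs_le_TT {D : ℕ} {q β J : ℝ} (h : Bas D q β) (hJ : 0 ≤ J) (Λ : Finset (Site D))
    (u w : Site D) (P : Finset (Site D) → Finset (Edge D) → Prop) :
    cs D q β J Λ (fun A E => u ∈ A ∧ w ∈ A ∧ P A E) ≤ TT D q β J Λ u w := by
  have hq : 0 < q := lt_of_lt_of_le one_pos h.hq
  by_cases hu : u ∈ Λ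
  · rw [← cs_eq_TT h hJ Λ u w hu]
    exact cs_mono h hJ Λ _ _ fun A E _ _ _ hP => ⟨hP.1, hP.2.1⟩
  · have h1 : cs D q β J Λ (fun A E => u ∈ A ∧ w ∈ A ∧ P A E) ≤
        cs D q β J Λ (fun _ _ => False) :=
      cs_mono h hJ Λ _ _ fun A E hA _ _ hP => hu (hA hP.1)
    refine h1.trans ?_
    have h2 : cs D q β J Λ (fun _ _ => False) = 0 := by simp [cs]
    rw [h2]
    exact (lat D).tp_nonneg q _ hq (vJ_nonneg h.hβ.le hJ) _ _ _

theorem csp_edg_mono {D : ℕ} {Λ Λ' : Finset (Site D)} (h : Λ' ⊆ Λ) : edg Λ' ⊆ edg Λ := by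
  intro e he
  rw [csp_mem_edg] at he ⊢
  exact ⟨h he.1, h he.2⟩

/-- The isolation probability decreases with the volume. -/
theorem ZZ_anti {D : ℕ} {q β J : ℝ} (h : Bas D q β) (hJ : 0 ≤ J) {Λ Λ' : Finset (Site D)}
    (hΛ : Λ' ⊆ Λ) (A : Finset (Site D)) : ZZ D q β J Λ A ≤ ZZ D q β J Λ' A :=
  (lat D).ze_anti q _ h.hq (vJ_nonneg h.hβ.le hJ) (csp_edg_mono hΛ) A

/-- Clusters contained in a smaller volume are more likely in this volume. -/
theorem cs_restrict {D : ℕ} {q β J : ℝ} (h : Bas D q β) (hJ : 0 ≤ J) (Λ Λ' : Finset (Site D))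
    (hΛ : Λ' ⊆ Λ) (P : Finset (Site D) → Finset (Edge D) → Prop) :
    cs D q β J Λ (fun A E => A ⊆ Λ' ∧ P A E) ≤ cs D q β J Λ' P := by
  classical
  have hq : 0 < q := lt_of_lt_of_le one_pos h.hq
  obtain ⟨P', hP'⟩ : ∃ P' : Finset (Site D) → Finset (Edge D) → Prop,
    P' = fun A E => A ⊆ Λ' ∧ P A E := ⟨_, rfl⟩
  rw [← hP']
  unfold cs
  have h1 : ∑ A ∈ Λ.powerset, ∑ E ∈ (edg Λ).powerset,
      (if (lat D).IsCl A E ∧ P' A E then WW D q β J A E * ZZ D q β J Λ A else 0) =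
      ∑ A ∈ Λ'.powerset, ∑ E ∈ (edg Λ').powerset,
      (if (lat D).IsCl A E ∧ P' A E then WW D q β J A E * ZZ D q β J Λ A else 0) := by
    symm
    refine sum_subset_zero_on_sdiff (powerset_mono.2 hΛ) ?_ ?_
    · intro A hA
      rw [mem_sdiff, mem_powerset, mem_powerset] at hA
      refine sum_eq_zero fun E _ => ?_
      rw [if_neg]
      rintro ⟨-, h2⟩
      rw [hP'] at h2
      exact hA.2 h2.1
    · intro A hA
      rw [mem_powerset] at hA
      refine sum_subset_zero_on_sdiff (powerset_mono.2 (csp_edg_mono hΛ)) ?_ ?_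
      · intro E hE
        rw [mem_sdiff, mem_powerset, mem_powerset] at hE
        rw [if_neg]
        rintro ⟨h2, -⟩
        refine hE.2 fun e he => ?_
        rw [csp_mem_edg]
        exact ⟨hA (h2.2.1 e he).1, hA (h2.2.1 e he).2⟩
      · intro E _
        rfl
  rw [h1]
  refine sum_le_sum fun A hA => sum_le_sum fun E _ => ?_
  rw [mem_powerset] at hA
  by_cases h2 : (lat D).IsCl A E ∧ P A E
  · rw [if_pos ⟨h2.1, by rw [hP']; exact ⟨hA, h2.2⟩⟩, if_pos h2]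
    refine mul_le_mul_of_nonneg_left (ZZ_anti h hJ hΛ A) ?_
    unfold WW Gr.cw
    exact mul_nonneg (prod_nonneg fun e _ => vJ_nonneg h.hβ.le hJ e)
      (pow_nonneg (inv_nonneg.2 hq.le) _)
  · rw [if_neg h2, if_neg fun h3 => h2 ⟨h3.1, by rw [hP'] at h3; exact h3.2.2⟩]

/-- Isolation probabilities of sets in disjoint regions. -/
theorem ZZ_split {D : ℕ} {q β J : ℝ} (h : Bas D q β) (hJ : 0 ≤ J)
    (Λ Λ1 Λ2 A B : Finset (Site D)) (h1 : Λ1 ⊆ Λ) (h2 : Λ2 ⊆ Λ) (hd : Disjoint A Λ2) :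
    ZZ D q β J Λ (A ∪ B) ≤ ZZ D q β J Λ1 A * ZZ D q β J Λ2 B := by
  have hq : 0 < q := lt_of_lt_of_le one_pos h.hq
  have hv := vJ_nonneg (D := D) h.hβ.le hJ
  unfold ZZ
  rw [(lat D).ze_union_eq q _ hq hv]
  refine mul_le_mul ((lat D).ze_anti q _ h.hq hv (csp_edg_mono h1) A) ?_
    ((lat D).ze_pos q _ hq hv _ _).le ((lat D).ze_pos q _ hq hv _ _).le
  refine (lat D).ze_anti q _ h.hq hv ?_ B
  intro e he
  rw [csp_mem_edg] at he
  rw [Gr.mem_del, csp_mem_edg]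
  exact ⟨⟨h2 he.1, h2 he.2⟩, fun h3 => disjoint_left.1 hd h3 he.1,
    fun h3 => disjoint_left.1 hd h3 he.2⟩

end Pool.Agent.DL
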