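import Pool.Agent.DL.Defs3
import Pool.Agent.DL.FKA

/-!
# Clusters with a cut
-/

set_option autoImplicit false
set_option linter.unusedSectionVars false

namespace Pool.Agent.DL

open Finset
open scoped ENNReal

namespace Cut

theorem s_fst {D : ℕ} (e : Edge D) : (lat D).s e = e.1 := rfl

theorem t_fst_none {D : ℕ} {e : Edge D} (h : e.2 = none) : ((lat D).t e).1 = e.1.1 + 1 := by
  simp [lat, h, SB.dir]

theorem t_fst_some {D : ℕ} {e : Edge D} (h : e.2 ≠ none) : ((lat D).t e).1 = e.1.1 := by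
  obtain ⟨i, hi⟩ := Option.ne_none_iff_exists'.1 h
  simp [lat, hi, SB.dir]

theorem s_le_t {D : ℕ} (e : Edge D) : e.1.1 ≤ ((lat D).t e).1 := by
  by_cases h : e.2 = none
  · rw [t_fst_none h]
    omega
  · rw [t_fst_some h]

theorem t_le_s {D : ℕ} (e : Edge D) : ((lat D).t e).1 ≤ e.1.1 + 1 := by
  by_cases h : e.2 = none
  · rw [t_fst_none h]
  · rw [t_fst_some h]
    omega

/-- An edge that leaves the lower half goes up from the height `m`. -/
theorem mem_upE_of {D : ℕ} {E : Finset (Edge D)} {e : Edge D} {m : ℤ} (he : e ∈ E)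
    (h1 : e.1.1 ≤ m) (h2 : m < ((lat D).t e).1) : e ∈ upE E m := by
  rw [upE, Finset.mem_filter]
  by_cases h : e.2 = none
  · rw [t_fst_none h] at h2
    exact ⟨he, h, by omega⟩
  · rw [t_fst_some h] at h2
    omega

theorem t_edge {D : ℕ} (m : ℤ) (y : Tv D) :
    (lat D).t (((m, y), none) : Edge D) = (m + 1, y) := by
  simp [lat, SB.dir]

end Cut

open Cut

theorem jn_isCl {D : ℕ} {c1 c2 : Pr D} {y : Tv D} {m : ℤ} (h : Vd c1 y m c2) :
    (lat D).IsCl (jn c1 y m c2).1 (jn c1 y m c2).2 := by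
  obtain ⟨⟨h1, h2, h3⟩, ⟨h1', h2', h3'⟩, hb, hy, ha, hy'⟩ := h
  have hm1 : c1.2 ⊆ (jn c1 y m c2).2 :=
    (Finset.subset_union_left).trans (Finset.subset_insert _ _)
  have hm2 : c2.2 ⊆ (jn c1 y m c2).2 :=
    (Finset.subset_union_right).trans (Finset.subset_insert _ _)
  have he : (lat D).Rch (jn c1 y m c2).2 (m, y) (m + 1, y) := by
    have := (lat D).rch_edge (ω := (jn c1 y m c2).2) (e := ((m, y), none))
      (Finset.mem_insert_self _ _)
    rwa [t_edge, s_fst] at this
  have key : ∀ x ∈ (jn c1 y m c2).1, (lat D).Rch (jn c1 y m c2).2 (m, y) x := by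
    intro x hx
    rcases Finset.mem_union.1 hx with hx | hx
    · exact (lat D).rch_mono hm1 (h3 _ hy x hx)
    · exact (lat D).rch_trans he ((lat D).rch_mono hm2 (h3' _ hy' x hx))
  refine ⟨⟨_, Finset.mem_union_left _ hy⟩, ?_, ?_⟩
  · intro e he
    rcases Finset.mem_insert.1 he with rfl | he
    · rw [t_edge, s_fst]
      exact ⟨Finset.mem_union_left _ hy, Finset.mem_union_right _ hy'⟩
    · rcases Finset.mem_union.1 he with he | he
      · exact ⟨Finset.mem_union_left _ (h2 e he).1, Finset.mem_union_left _ (h2 e he).2⟩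
      · exact ⟨Finset.mem_union_right _ (h2' e he).1, Finset.mem_union_right _ (h2' e he).2⟩
  · intro x hx z hz
    exact (lat D).rch_trans ((lat D).rch_symm (key x hx)) (key z hz)

theorem jn_disjoint {D : ℕ} {c1 c2 : Pr D} {y : Tv D} {m : ℤ} (h : Vd c1 y m c2) :
    Disjoint c1.1 c2.1 := by
  obtain ⟨-, -, hb, -, ha, -⟩ := h
  rw [Finset.disjoint_left]
  intro x hx hx'
  have h1 := hb x hx
  have h2 := ha x hx'
  omega

theorem jn_lo {D : ℕ} {c1 c2 : Pr D} {y : Tv D} {m : ℤ} (h : Vd c1 y m c2) :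
    lo (jn c1 y m c2) m = c1 := by
  obtain ⟨⟨-, h2, -⟩, ⟨-, h2', -⟩, hb, hy, ha, hy'⟩ := h
  refine Prod.ext ?_ ?_
  · ext x
    simp only [lo, jn, Finset.mem_filter, Finset.mem_union]
    constructor
    · rintro ⟨hx | hx, hle⟩
      · exact hx
      · have := ha x hx
        omega
    · exact fun hx => ⟨Or.inl hx, hb x hx⟩
  · ext e
    simp only [lo, jn, Finset.mem_filter, Finset.mem_insert, Finset.mem_union]
    constructor
    · rintro ⟨rfl | he | he, hle⟩
      · rw [t_edge] at hle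
        simp only at hle
        omega
      · exact he
      · have := ha _ (h2' e he).2
        omega
    · exact fun he => ⟨Or.inr (Or.inl he), hb _ (h2 e he).2⟩

theorem jn_hi {D : ℕ} {c1 c2 : Pr D} {y : Tv D} {m : ℤ} (h : Vd c1 y m c2) :
    hi (jn c1 y m c2) m = c2 := by
  obtain ⟨⟨-, h2, -⟩, ⟨-, h2', -⟩, hb, hy, ha, hy'⟩ := h
  refine Prod.ext ?_ ?_
  · ext x
    simp only [hi, jn, Finset.mem_filter, Finset.mem_union]
    constructor
    · rintro ⟨hx | hx, hle⟩
      · have := hb x hx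
        omega
      · exact hx
    · intro hx
      have := ha x hx
      exact ⟨Or.inr hx, by omega⟩
  · ext e
    simp only [hi, jn, Finset.mem_filter, Finset.mem_insert, Finset.mem_union]
    constructor
    · rintro ⟨rfl | he | he, hle⟩
      · rw [s_fst] at hle
        simp only at hle
        omega
      · have := hb _ (h2 e he).1
        omega
      · exact he
    · intro he
      have := ha _ (h2' e he).1
      exact ⟨Or.inr (Or.inr he), by omega⟩

theorem jn_upE {D : ℕ} {c1 c2 : Pr D} {y : Tv D} {m : ℤ} (h : Vd c1 y m c2) :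
    upE (jn c1 y m c2).2 m = {((m, y), none)} ∧ (∀ k < m, upE (jn c1 y m c2).2 k = upE c1.2 k) ∧
      ∀ k, m < k → upE (jn c1 y m c2).2 k = upE c2.2 k := by
  obtain ⟨⟨-, h2, -⟩, ⟨-, h2', -⟩, hb, hy, ha, hy'⟩ := h
  refine ⟨?_, ?_, ?_⟩
  · ext e
    simp only [upE, jn, Finset.mem_filter, Finset.mem_insert, Finset.mem_union,
      Finset.mem_singleton]
    constructor
    · rintro ⟨rfl | he | he, h3, h4⟩
      · rfl
      · have := hb _ (h2 e he).2
        rw [t_fst_none h3] at this
        omega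
      · have := ha _ (h2' e he).1
        rw [s_fst] at this
        omega
    · rintro rfl
      exact ⟨Or.inl rfl, rfl, rfl⟩
  · intro k hk
    ext e
    simp only [upE, jn, Finset.mem_filter, Finset.mem_insert, Finset.mem_union]
    constructor
    · rintro ⟨rfl | he | he, h3, h4⟩
      · simp only at h4
        omega
      · exact ⟨he, h3, h4⟩
      · have := ha _ (h2' e he).1
        rw [s_fst] at this
        omega
    · rintro ⟨he, h3, h4⟩
      exact ⟨Or.inr (Or.inl he), h3, h4⟩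
  · intro k hk
    ext e
    simp only [upE, jn, Finset.mem_filter, Finset.mem_insert, Finset.mem_union]
    constructor
    · rintro ⟨rfl | he | he, h3, h4⟩
      · simp only at h4
        omega
      · have := hb _ (h2 e he).1
        rw [s_fst] at this
        omega
      · exact ⟨he, h3, h4⟩
    · rintro ⟨he, h3, h4⟩
      exact ⟨Or.inr (Or.inr he), h3, h4⟩

theorem jn_lvl {D : ℕ} {c1 c2 : Pr D} {y : Tv D} {m : ℤ} (h : Vd c1 y m c2) (a : ℝ) (k : ℤ) :
    lvw a (jn c1 y m c2).1 k = lvw a c1.1 k + lvw a c2.1 k :=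
  Finset.sum_union (jn_disjoint h)

theorem jn_WW {D : ℕ} {q β J : ℝ} (hq : 0 < q) {c1 c2 : Pr D} {y : Tv D} {m : ℤ}
    (h : Vd c1 y m c2) :
    WW D q β J (jn c1 y m c2).1 (jn c1 y m c2).2 =
      vJ β J ((m, y), none) / q * WW D q β J c1.1 c1.2 * WW D q β J c2.1 c2.2 := by
  have hd := jn_disjoint h
  obtain ⟨⟨h1, h2, -⟩, ⟨h1', h2', -⟩, hb, hy, ha, hy'⟩ := h
  have hE : Disjoint c1.2 c2.2 := by
    rw [Finset.disjoint_left]
    intro e he he'
    exact Finset.disjoint_left.1 hd (h2 e he).1 (h2' e he').1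
  have h0 : (((m, y), none) : Edge D) ∉ c1.2 ∪ c2.2 := by
    intro he
    rcases Finset.mem_union.1 he with he | he
    · have := hb _ (h2 _ he).2
      rw [t_edge] at this
      simp only at this
      omega
    · have := ha _ (h2' _ he).1
      rw [s_fst] at this
      simp only at this
      omega
  unfold WW Gr.cw jn
  simp only
  rw [Finset.prod_insert h0, Finset.prod_union hE, Finset.card_union_of_disjoint hd]
  have h3 : 0 < c1.1.card := Finset.card_pos.2 h1
  have h4 : 0 < c2.1.card := Finset.card_pos.2 h1'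
  have h5 : c1.1.card + c2.1.card - 1 = (c1.1.card - 1) + (c2.1.card - 1) + 1 := by omega
  rw [h5, pow_succ, pow_add]
  field_simp

/-- A cluster with a cut is a join. -/
theorem cut_jn {D : ℕ} (c : Pr D) (m : ℤ) (h : (lat D).IsCl c.1 c.2) (hc : (upE c.2 m).card = 1) :
    ∃ y, Vd (lo c m) y m (hi c m) ∧ jn (lo c m) y m (hi c m) = c := by
  obtain ⟨e0, he0⟩ := Finset.card_eq_one.1 hc
  have h0 : e0 ∈ upE c.2 m := by
    rw [he0]
    exact Finset.mem_singleton_self _
  rw [upE, Finset.mem_filter] at h0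
  obtain ⟨h0E, h0n, h0m⟩ := h0
  have he1 : e0 = ((m, e0.1.2), none) := Prod.ext (Prod.ext h0m rfl) h0n
  set y : Tv D := e0.1.2 with hy
  have hends := h.2.1 e0 h0E
  rw [he1, t_edge, s_fst] at hends
  -- the classification of the edges
  have hcl : ∀ e ∈ c.2, e ∈ (lo c m).2 ∨ e ∈ (hi c m).2 ∨ e = ((m, y), none) := by
    intro e he
    by_cases h1 : ((lat D).t e).1 ≤ m
    · exact Or.inl (Finset.mem_filter.2 ⟨he, h1⟩)
    · by_cases h2 : m < ((lat D).s e).1
      · exact Or.inr (Or.inl (Finset.mem_filter.2 ⟨he, h2⟩))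
      · refine Or.inr (Or.inr ?_)
        have h3 := mem_upE_of he (m := m) (by rw [s_fst] at h2; omega) (by omega)
        rw [he0, Finset.mem_singleton] at h3
        rw [h3, he1]
  have key : ∀ z, (lat D).Rch c.2 (m, y) z →
      (z.1 ≤ m → (lat D).Rch (lo c m).2 (m, y) z) ∧
      (m < z.1 → (lat D).Rch (hi c m).2 (m + 1, y) z) := by
    intro z hz
    induction hz with
    | refl => exact ⟨fun _ => (lat D).rch_refl _ _, fun h => absurd h (lt_irrefl _)⟩
    | @tail z z' _ hst ih =>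
      obtain ⟨e, he, hzz⟩ := hst
      rcases hcl e he with h1 | h1 | h1
      · have h2 := (Finset.mem_filter.1 h1).2
        have h3 := s_le_t e
        have h4 : z.1 ≤ m ∧ z'.1 ≤ m := by
          rcases hzz with ⟨ha, hb⟩ | ⟨ha, hb⟩
          · rw [← ha, ← hb, s_fst]
            omega
          · rw [← ha, ← hb, s_fst]
            omega
        refine ⟨fun _ => Relation.ReflTransGen.tail (ih.1 h4.1) ⟨e, h1, hzz⟩, fun h5 => ?_⟩
        omega
      · have h2 := (Finset.mem_filter.1 h1).2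
        rw [s_fst] at h2
        have h3 := s_le_t e
        have h4 : m < z.1 ∧ m < z'.1 := by
          rcases hzz with ⟨ha, hb⟩ | ⟨ha, hb⟩
          · rw [← ha, ← hb, s_fst]
            omega
          · rw [← ha, ← hb, s_fst]
            omega
        refine ⟨fun h5 => ?_, fun _ => Relation.ReflTransGen.tail (ih.2 h4.1) ⟨e, h1, hzz⟩⟩
        omega
      · rw [h1, t_edge, s_fst] at hzz
        rcases hzz with ⟨ha, hb⟩ | ⟨ha, hb⟩
        · rw [← hb]
          refine ⟨fun h5 => ?_, fun _ => (lat D).rch_refl _ _⟩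
          simp only at h5
          omega
        · rw [← ha]
          exact ⟨fun _ => (lat D).rch_refl _ _, fun h => absurd h (lt_irrefl _)⟩
  have hlo : ∀ x ∈ (lo c m).1, (lat D).Rch (lo c m).2 (m, y) x := by
    intro x hx
    obtain ⟨hx1, hx2⟩ := Finset.mem_filter.1 hx
    exact (key x (h.2.2 _ hends.1 x hx1)).1 hx2
  have hhi : ∀ x ∈ (hi c m).1, (lat D).Rch (hi c m).2 (m + 1, y) x := by
    intro x hx
    obtain ⟨hx1, hx2⟩ := Finset.mem_filter.1 hx
    exact (key x (h.2.2 _ hends.1 x hx1)).2 hx2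
  have hyl : ((m, y) : Site D) ∈ (lo c m).1 := Finset.mem_filter.2 ⟨hends.1, le_rfl⟩
  have hyh : ((m + 1, y) : Site D) ∈ (hi c m).1 :=
    Finset.mem_filter.2 ⟨hends.2, by simp only; omega⟩
  refine ⟨y, ⟨⟨⟨_, hyl⟩, ?_, ?_⟩, ⟨⟨_, hyh⟩, ?_, ?_⟩, ?_, hyl, ?_, hyh⟩, ?_⟩
  · intro e he
    obtain ⟨h1, h2⟩ := Finset.mem_filter.1 he
    have h3 := h.2.1 e h1
    have h4 := s_le_t e
    exact ⟨Finset.mem_filter.2 ⟨h3.1, by rw [s_fst]; omega⟩, Finset.mem_filter.2 ⟨h3.2, h2⟩⟩
  · intro x hx z hz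
    exact (lat D).rch_trans ((lat D).rch_symm (hlo x hx)) (hlo z hz)
  · intro e he
    obtain ⟨h1, h2⟩ := Finset.mem_filter.1 he
    have h3 := h.2.1 e h1
    have h4 := s_le_t e
    exact ⟨Finset.mem_filter.2 ⟨h3.1, h2⟩,
      Finset.mem_filter.2 ⟨h3.2, by rw [s_fst] at h2; omega⟩⟩
  · intro x hx z hz
    exact (lat D).rch_trans ((lat D).rch_symm (hhi x hx)) (hhi z hz)
  · intro x hx
    exact (Finset.mem_filter.1 hx).2
  · intro x hx
    have := (Finset.mem_filter.1 hx).2
    omega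
  · refine Prod.ext ?_ ?_
    · ext x
      simp only [jn, lo, hi, Finset.mem_union, Finset.mem_filter]
      constructor
      · rintro (hx | hx)
        · exact hx.1
        · exact hx.1
      · intro hx
        by_cases h1 : x.1 ≤ m
        · exact Or.inl ⟨hx, h1⟩
        · exact Or.inr ⟨hx, by omega⟩
    · ext e
      constructor
      · intro he
        rcases Finset.mem_insert.1 he with rfl | he
        · rw [← he1]
          exact h0E
        · rcases Finset.mem_union.1 he with he | he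
          · exact (Finset.mem_filter.1 he).1
          · exact (Finset.mem_filter.1 he).1
      · intro he
        rcases hcl e he with h1 | h1 | h1
        · exact Finset.mem_insert_of_mem (Finset.mem_union_left _ h1)
        · exact Finset.mem_insert_of_mem (Finset.mem_union_right _ h1)
        · rw [h1]
          exact Finset.mem_insert_self _ _

theorem Cut.tsum_ii {α : Type} (P : α → Prop) (F : α → ℝ≥0∞) :
    ∑' c, ii (P c) * F c = ∑' c : {c // P c}, F c.1 := by
  classical
  have h := tsum_subtype {c | P c} F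
  have h1 : ∀ c, ii (P c) * F c = Set.indicator {c | P c} F c := by
    intro c
    unfold ii
    by_cases hc : P c
    · rw [if_pos hc, one_mul, Set.indicator_of_mem (show c ∈ {c | P c} from hc)]
    · rw [if_neg hc, zero_mul, Set.indicator_of_notMem (show c ∉ {c | P c} from hc)]
  rw [tsum_congr h1, ← h]
  rfl

theorem tsum_cut {D : ℕ} (m : ℤ) (F : Pr D → ℝ≥0∞) :
    ∑' c : Pr D, ii ((lat D).IsCl c.1 c.2 ∧ (upE c.2 m).card = 1) * F c =
      ∑' y : Tv D, ∑' c1 : Pr D, ∑' c2 : Pr D, ii (Vd c1 y m c2) * F (jn c1 y m c2) := by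
  have h1 : ∑' y : Tv D, ∑' c1 : Pr D, ∑' c2 : Pr D, ii (Vd c1 y m c2) * F (jn c1 y m c2) =
      ∑' p : Tv D × Pr D × Pr D, ii (Vd p.2.1 p.1 m p.2.2) * F (jn p.2.1 p.1 m p.2.2) := by
    rw [ENNReal.tsum_prod']
    refine tsum_congr fun y => ?_
    exact (ENNReal.tsum_prod' (f := fun r : Pr D × Pr D =>
      ii (Vd r.1 y m r.2) * F (jn r.1 y m r.2))).symm
  rw [h1, tsum_ii (fun c : Pr D => (lat D).IsCl c.1 c.2 ∧ (upE c.2 m).card = 1),
    tsum_ii (fun p : Tv D × Pr D × Pr D => Vd p.2.1 p.1 m p.2.2)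
      (fun p => F (jn p.2.1 p.1 m p.2.2))]
  let f : {p : Tv D × Pr D × Pr D // Vd p.2.1 p.1 m p.2.2} →
      {c : Pr D // (lat D).IsCl c.1 c.2 ∧ (upE c.2 m).card = 1} :=
    fun p => ⟨jn p.1.2.1 p.1.1 m p.1.2.2, jn_isCl p.2, by rw [(jn_upE p.2).1]; rfl⟩
  have hf : Function.Bijective f := by
    constructor
    · rintro ⟨⟨y, c1, c2⟩, hp⟩ ⟨⟨y', c1', c2'⟩, hp'⟩ hpp
      change Vd c1 y m c2 at hp
      change Vd c1' y' m c2' at hp'
      have h2 : jn c1 y m c2 = jn c1' y' m c2' := congrArg Subtype.val hpp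
      have h3 : c1 = c1' := by
        rw [← jn_lo hp, ← jn_lo hp']
        exact congrArg (fun c => lo c m) h2
      have h4 : c2 = c2' := by
        rw [← jn_hi hp, ← jn_hi hp']
        exact congrArg (fun c => hi c m) h2
      have h5 : ({((m, y), none)} : Finset (Edge D)) = {((m, y'), none)} := by
        rw [← (jn_upE hp).1, ← (jn_upE hp').1]
        exact congrArg (fun c : Pr D => upE c.2 m) h2
      have h6 : y = y' := by
        have h7 := Finset.singleton_injective h5
        exact congrArg (fun e : Edge D => e.1.2) h7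
      subst h3 h4 h6
      rfl
    · rintro ⟨c, hc, hc'⟩
      obtain ⟨y, hv, hj⟩ := cut_jn c m hc hc'
      exact ⟨⟨(y, lo c m, hi c m), hv⟩, Subtype.ext hj⟩
  exact ((Equiv.ofBijective f hf).tsum_eq (fun c => F c.1)).symm

end Pool.Agent.DL
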