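import Pool.Agent.DL.MGA

/-!
# The mass gap: an offset with few boundary points, heights which are not nice, full slabs
-/

set_option autoImplicit false
set_option linter.unusedSectionVars false

namespace Pool.Agent.DL

open Finset

variable {D : ℕ}

theorem dta_two (K : ℕ) (hK : 1 ≤ K) (h : ℤ) :
    ((Finset.range K).filter fun s : ℕ => (h - s) % K = 0 ∨ (h - s) % K = K - 1).card ≤ 2 := by
  have hK' : (0 : ℤ) < K := by exact_mod_cast hK
  have h1 : ((Finset.range K).filter fun s : ℕ => (h - s) % K = 0 ∨ (h - s) % K = K - 1) ⊆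
      {(h % K).toNat, ((h + 1) % K).toNat} := by
    intro s hs
    rw [Finset.mem_filter, Finset.mem_range] at hs
    obtain ⟨hs, h2⟩ := hs
    have hs' : (s : ℤ) < K := by exact_mod_cast hs
    have h0 : (0 : ℤ) ≤ s := Int.natCast_nonneg s
    rw [Finset.mem_insert, Finset.mem_singleton]
    rcases h2 with h2 | h2
    · left
      have h3 : (K : ℤ) ∣ h - s := Int.dvd_of_emod_eq_zero h2
      have h4 : h % K = (s : ℤ) % K := by
        exact (Int.emod_emod_of_dvd _ (dvd_refl _)).symm.trans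
          (by rw [Int.emod_emod_of_dvd _ (dvd_refl _)]; exact (Int.emod_eq_emod_iff_emod_sub_eq_zero).2 h2)
      rw [h4, Int.emod_eq_of_lt h0 hs']
      rfl
    · right
      have h3 : (h + 1 - s) % K = 0 := by
        have h5 : h + 1 - s = (h - s) + 1 := by ring
        rw [h5, Int.add_emod, h2]
        by_cases hK1 : K = 1
        · subst hK1
          simp
        · have h6 : (1 : ℤ) % K = 1 := Int.emod_eq_of_lt (by norm_num) (by omega)
          rw [h6, sub_add_cancel, Int.emod_self]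
      have h4 : (h + 1) % K = (s : ℤ) % K := (Int.emod_eq_emod_iff_emod_sub_eq_zero).2 h3
      rw [h4, Int.emod_eq_of_lt h0 hs']
      rfl
  exact (Finset.card_le_card h1).trans Finset.card_le_two

theorem exists_offset (K : ℕ) (hK : 1 ≤ K) (A : Finset (Site D)) :
    ∃ s ∈ Finset.range K, K * (bdy K s A).card ≤ 2 * A.card := by
  by_contra hc
  push Not at hc
  have h1 : ∑ s ∈ Finset.range K, (bdy K s A).card ≤ 2 * A.card := by
    have h2 : ∀ s ∈ Finset.range K, (bdy K s A).card =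
        ∑ u ∈ A, if (u.1 - (s : ℤ)) % K = 0 ∨ (u.1 - (s : ℤ)) % K = K - 1 then 1 else 0 := by
      intro s _
      unfold bdy
      rw [Finset.card_filter]
    rw [Finset.sum_congr rfl h2, Finset.sum_comm]
    calc _ ≤ ∑ _u ∈ A, 2 := by
          refine Finset.sum_le_sum fun u _ => ?_
          rw [← Finset.card_filter]
          exact dta_two K hK u.1
      _ = 2 * A.card := by rw [Finset.sum_const, smul_eq_mul, mul_comm]
  have h2 : ∑ s ∈ Finset.range K, (2 * A.card) < ∑ s ∈ Finset.range K, K * (bdy K s A).card :=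
    Finset.sum_lt_sum_of_nonempty ⟨0, Finset.mem_range.2 hK⟩ hc
  have h4 : ∑ s ∈ Finset.range K, K * (bdy K (s : ℤ) A).card =
      K * ∑ s ∈ Finset.range K, (bdy K (s : ℤ) A).card := by rw [Finset.mul_sum]
  rw [h4, Finset.sum_const, Finset.card_range, smul_eq_mul] at h2
  have h3 := Nat.mul_le_mul_left K h1
  omega

theorem dta_tail {x : ℝ} (hx0 : 0 ≤ x) (hx1 : x < 1) (r : ℕ) (T : Finset ℕ)
    (hT : ∀ k ∈ T, r ≤ k) : ∑ k ∈ T, x ^ k ≤ x ^ r / (1 - x) := by
  have h1 : T ⊆ Finset.Ico r (T.sup id + 1) := by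
    intro k hk
    rw [Finset.mem_Ico]
    exact ⟨hT k hk, Nat.lt_succ_of_le (Finset.le_sup (f := id) hk)⟩
  refine (Finset.sum_le_sum_of_subset_of_nonneg h1 fun k _ _ => pow_nonneg hx0 k).trans ?_
  exact geom_sum_Ico_le_of_lt_one hx0 hx1

theorem dta_sum {x : ℝ} (hx0 : 0 ≤ x) (hx1 : x < 1) (r : ℕ) (l : ℤ) (S : Finset ℤ)
    (hS : ∀ m ∈ S, (r : ℤ) < |l - m|) :
    ∑ m ∈ S, x ^ (l - m).natAbs ≤ 2 * (x ^ r / (1 - x)) := by
  rw [← Finset.sum_filter_add_sum_filter_not S (fun m => m < l)]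
  have key : ∀ S' : Finset ℤ, S' ⊆ S → (∀ m ∈ S', ∀ m' ∈ S', (l - m).natAbs = (l - m').natAbs →
      m = m') → ∑ m ∈ S', x ^ (l - m).natAbs ≤ x ^ r / (1 - x) := by
    intro S' hS' hinj
    rw [← Finset.sum_image (f := fun k => x ^ k) (g := fun m : ℤ => (l - m).natAbs)]
    · apply dta_tail hx0 hx1
      intro k hk
      rw [Finset.mem_image] at hk
      obtain ⟨m, hm, rfl⟩ := hk
      have h3 := hS m (hS' hm)
      rw [Int.abs_eq_natAbs] at h3
      exact_mod_cast h3.le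
    · intro m hm m' hm' h
      exact hinj m hm m' hm' h
  have h1 := key (S.filter fun m => m < l) (Finset.filter_subset _ _) (by
    intro m hm m' hm' h
    have h2 := (Finset.mem_filter.1 hm).2
    have h3 := (Finset.mem_filter.1 hm').2
    omega)
  have h2 := key (S.filter fun m => ¬ m < l) (Finset.filter_subset _ _) (by
    intro m hm m' hm' h
    have h2 := (Finset.mem_filter.1 hm).2
    have h3 := (Finset.mem_filter.1 hm').2
    omega)
  linarith

theorem sum_lvl (A : Finset (Site D)) (H : Finset ℤ) :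
    ∑ l ∈ H, ((lvl A l).card : ℝ) ≤ A.card := by
  have h1 : ∑ l ∈ H, (lvl A l).card ≤ A.card := by
    unfold lvl
    have h2 := Finset.card_eq_sum_card_fiberwise (s := A.filter fun u => u.1 ∈ H) (t := H)
      (f := fun u : Site D => u.1) (fun u hu => (Finset.mem_filter.1 hu).2)
    have h3 : ∑ l ∈ H, (A.filter fun u => u.1 = l).card =
        ∑ l ∈ H, ((A.filter fun u => u.1 ∈ H).filter fun u => u.1 = l).card := by
      refine Finset.sum_congr rfl fun l hl => ?_
      congr 1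
      ext u
      simp only [Finset.mem_filter]
      constructor
      · rintro ⟨h4, rfl⟩
        exact ⟨⟨h4, hl⟩, rfl⟩
      · rintro ⟨⟨h4, _⟩, h5⟩
        exact ⟨h4, h5⟩
    rw [h3, ← h2]
    exact Finset.card_filter_le _ _
  exact_mod_cast h1

theorem nnc_card {ξ : ℝ} (hξ : 0 < ξ) : ∃ r0 : ℕ, ∀ r : ℕ, r0 ≤ r →
    ∀ (A : Finset (Site D)) (m0 n : ℤ),
      ((nnc ξ r (4 * r + 8) m0 n A).card : ℝ) ≤ Real.exp (-(ξ * r / 8)) * A.card := by
  classical
  obtain ⟨x, hx⟩ : ∃ x : ℝ, x = Real.exp (-(ξ / 4)) := ⟨_, rfl⟩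
  have hx0 : 0 ≤ x := by rw [hx]; exact (Real.exp_pos _).le
  have hx1 : x < 1 := by
    rw [hx, ← Real.exp_zero]
    apply Real.exp_lt_exp.2
    linarith
  have hx2 : 0 < 1 - x := by linarith
  have hpow : ∀ k : ℕ, x ^ k = Real.exp (-(ξ * k / 4)) := by
    intro k
    rw [hx, ← Real.exp_nat_mul]
    congr 1
    ring
  obtain ⟨r0, hr0⟩ := exists_nat_gt ((2 / (1 - x)) * (8 / ξ))
  refine ⟨r0, fun r hr A m0 n => ?_⟩
  have hr' : (2 / (1 - x)) * (8 / ξ) < r := hr0.trans_le (by exact_mod_cast hr)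
  have hC : 2 / (1 - x) ≤ Real.exp (ξ * r / 8) := by
    have h1 : 2 / (1 - x) ≤ ξ * r / 8 := by
      have h2 : (2 / (1 - x)) * (8 / ξ) * (ξ / 8) = 2 / (1 - x) := by
        field_simp
      rw [← h2]
      have h3 : (0 : ℝ) ≤ ξ / 8 := by positivity
      calc (2 / (1 - x)) * (8 / ξ) * (ξ / 8) ≤ r * (ξ / 8) :=
            mul_le_mul_of_nonneg_right hr'.le h3
        _ = _ := by ring
    have h2 := Real.add_one_le_exp (ξ * r / 8)
    linarith
  -- the heights of A
  set H := A.image (fun u : Site D => u.1) with hH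
  have key : ∀ m ∈ nnc ξ r (4 * r + 8) m0 n A, (1 : ℝ) ≤
      ∑ l ∈ H.filter (fun l => (r : ℤ) < |l - m|),
        ((lvl A l).card : ℝ) * x ^ (l - m).natAbs := by
    intro m hm
    unfold nnc at hm
    have h1 := (Finset.mem_filter.1 hm).2
    unfold Nice at h1
    push Not at h1
    obtain ⟨l, hl, hl2⟩ := h1
    have hpos : (0 : ℝ) < (lvl A l).card := (Real.exp_pos _).trans hl2
    have hne : (lvl A l).Nonempty := by
      rw [← Finset.card_pos]
      exact_mod_cast hpos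
    have hlH : l ∈ H.filter (fun l => (r : ℤ) < |l - m|) := by
      rw [Finset.mem_filter, hH, Finset.mem_image]
      obtain ⟨u, hu⟩ := hne
      unfold lvl at hu
      rw [Finset.mem_filter] at hu
      exact ⟨⟨u, hu.1, hu.2⟩, hl⟩
    refine le_trans ?_ (Finset.single_le_sum
      (f := fun l => ((lvl A l).card : ℝ) * x ^ (l - m).natAbs)
      (fun l _ => mul_nonneg (Nat.cast_nonneg _) (pow_nonneg hx0 _)) hlH)
    rw [hpow]
    have h2 : (((l - m).natAbs : ℕ) : ℝ) = ((|l - m| : ℤ) : ℝ) := by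
      rw [Int.abs_eq_natAbs]
      simp
    rw [h2]
    calc (1 : ℝ) = Real.exp (ξ * ((|l - m| : ℤ) : ℝ) / 4) *
          Real.exp (-(ξ * ((|l - m| : ℤ) : ℝ) / 4)) := by
          rw [← Real.exp_add, add_neg_cancel, Real.exp_zero]
      _ ≤ _ := mul_le_mul_of_nonneg_right hl2.le (Real.exp_pos _).le
  have h1 : ((nnc ξ r (4 * r + 8) m0 n A).card : ℝ) ≤
      ∑ m ∈ nnc ξ r (4 * r + 8) m0 n A, ∑ l ∈ H.filter (fun l => (r : ℤ) < |l - m|),
        ((lvl A l).card : ℝ) * x ^ (l - m).natAbs := by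
    calc ((nnc ξ r (4 * r + 8) m0 n A).card : ℝ) =
          ∑ m ∈ nnc ξ r (4 * r + 8) m0 n A, (1 : ℝ) := by
          rw [Finset.sum_const, nsmul_eq_mul, mul_one]
      _ ≤ _ := Finset.sum_le_sum key
  have h2 : ∑ m ∈ nnc ξ r (4 * r + 8) m0 n A, ∑ l ∈ H.filter (fun l => (r : ℤ) < |l - m|),
        ((lvl A l).card : ℝ) * x ^ (l - m).natAbs =
      ∑ l ∈ H, ((lvl A l).card : ℝ) *
        ∑ m ∈ (nnc ξ r (4 * r + 8) m0 n A).filter (fun m => (r : ℤ) < |l - m|),
          x ^ (l - m).natAbs := by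
    simp_rw [Finset.mul_sum, Finset.sum_filter]
    rw [Finset.sum_comm]
  rw [h2] at h1
  refine h1.trans ?_
  calc _ ≤ ∑ l ∈ H, ((lvl A l).card : ℝ) * (2 * (x ^ r / (1 - x))) := by
        refine Finset.sum_le_sum fun l _ => ?_
        apply mul_le_mul_of_nonneg_left _ (Nat.cast_nonneg _)
        exact dta_sum hx0 hx1 r l _ fun m hm => (Finset.mem_filter.1 hm).2
    _ = (∑ l ∈ H, ((lvl A l).card : ℝ)) * (2 * (x ^ r / (1 - x))) := by rw [Finset.sum_mul]
    _ ≤ A.card * (2 * (x ^ r / (1 - x))) := by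
        apply mul_le_mul_of_nonneg_right (sum_lvl A H)
        positivity
    _ = (2 / (1 - x)) * x ^ r * A.card := by ring
    _ ≤ Real.exp (ξ * r / 8) * x ^ r * A.card := by gcongr
    _ = _ := by
        rw [hpow, ← Real.exp_add]
        congr 2
        ring

theorem fsl_card (K : ℕ) (hK : 1 ≤ K) (s : ℤ) (hs : 0 ≤ s) (hs' : s < K) (n : ℤ) (hn : 0 ≤ n) :
    (n : ℝ) / K ≤ (fsl K s n).card + 2 ∧ ((fsl K s n).card : ℝ) ≤ n / K + 1 := by
  have hK' : (0 : ℤ) < K := by exact_mod_cast hK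
  have hKr : (0 : ℝ) < K := by exact_mod_cast hK
  have h1 : fsl K s n = Finset.Ico 0 ((n + 1 - s) / K) := by
    ext j
    unfold fsl
    rw [Finset.mem_filter, Finset.mem_Icc, Finset.mem_Ico]
    have h2 : j < (n + 1 - s) / K ↔ (j + 1) * K ≤ n + 1 - s := by
      rw [← Int.add_one_le_iff, Int.le_ediv_iff_mul_le hK']
    rw [h2]
    constructor
    · rintro ⟨_, h3, h4⟩
      constructor
      · by_contra hj
        push Not at hj
        have h5 : (K : ℤ) * j ≤ K * (-1) := mul_le_mul_of_nonneg_left (by omega) hK'.le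
        linarith
      · linarith
    · rintro ⟨h3, h4⟩
      have h5 : (0 : ℤ) ≤ K * j := mul_nonneg hK'.le h3
      have h6 : j + 1 ≤ (j + 1) * K := by nlinarith
      refine ⟨⟨by omega, by omega⟩, by linarith, by linarith⟩
  rw [h1, Int.card_Ico, sub_zero]
  have h2 := Int.emod_add_mul_ediv (n + 1 - s) K
  have h3 := Int.emod_nonneg (n + 1 - s) hK'.ne'
  have h4 := Int.emod_lt_of_pos (n + 1 - s) hK'
  obtain ⟨Q, hQ⟩ : ∃ Q : ℤ, Q = (n + 1 - s) / K := ⟨_, rfl⟩
  obtain ⟨R, hR⟩ : ∃ R : ℤ, R = (n + 1 - s) % K := ⟨_, rfl⟩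
  rw [← hQ] at h2 ⊢
  rw [← hR] at h2 h3 h4
  have hn' : (0 : ℝ) ≤ n := by exact_mod_cast hn
  have hK1 : (1 : ℝ) ≤ K := by exact_mod_cast hK
  rcases lt_or_ge Q 0 with hQ0 | hQ0
  · have h5 : Q.toNat = 0 := Int.toNat_of_nonpos hQ0.le
    have h6 : (K : ℤ) * Q ≤ K * (-1) := mul_le_mul_of_nonneg_left (by omega) hK'.le
    rw [h5, Nat.cast_zero, zero_add, div_le_iff₀ hKr]
    constructor
    · have h7 : n ≤ 2 * K := by linarith
      exact_mod_cast h7
    · positivity
  have h5 : ((Q.toNat : ℕ) : ℝ) = (Q : ℝ) := by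
    have : ((Q.toNat : ℕ) : ℤ) = Q := Int.toNat_of_nonneg hQ0
    exact_mod_cast this
  rw [h5]
  have h2' : (R : ℝ) + K * Q = n + 1 - s := by exact_mod_cast h2
  have h3' : (0 : ℝ) ≤ R := by exact_mod_cast h3
  have h4' : (R : ℝ) < K := by exact_mod_cast h4
  have hs1 : (0 : ℝ) ≤ s := by exact_mod_cast hs
  have hs2 : (s : ℝ) + 1 ≤ K := by exact_mod_cast hs'
  constructor
  · rw [div_le_iff₀ hKr]
    nlinarith
  · have h6 : (Q : ℝ) * K ≤ (n / K + 1) * K := by
      rw [add_mul, div_mul_cancel₀ _ hKr.ne']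
      nlinarith
    exact le_of_mul_le_mul_right h6 hKr

end Pool.Agent.DL
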