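import Pool.Agent.DL.MGA

/-!
# The mass gap: each full slab is crossed
-/

set_option autoImplicit false
set_option linter.unusedSectionVars false
set_option linter.unusedVariables false

namespace Pool.Agent.DL

open Finset

namespace DTB

variable {D : ℕ}

/-- The heights of the two ends of an edge. -/
theorem hgt_t (e : Edge D) :
    ((lat D).t e).1 = ((lat D).s e).1 ∨ ((lat D).t e).1 = ((lat D).s e).1 + 1 := by
  obtain ⟨x, o⟩ := e
  cases o with
  | none => right; simp [lat, SB.dir]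
  | some i => left; simp [lat, SB.dir]

theorem step_hgt {ω : Finset (Edge D)} {x y : Site D} (h : (lat D).Step ω x y) :
    x.1 - 1 ≤ y.1 ∧ y.1 ≤ x.1 + 1 := by
  obtain ⟨e, -, h⟩ := h
  have := hgt_t e
  rcases h with ⟨rfl, rfl⟩ | ⟨rfl, rfl⟩ <;> omega

theorem step_mem {A : Finset (Site D)} {E : Finset (Edge D)} (h : (lat D).IsCl A E)
    {x y : Site D} (hs : (lat D).Step E x y) : x ∈ A ∧ y ∈ A := by
  obtain ⟨e, he, h'⟩ := hs
  have := h.2.1 e he
  rcases h' with ⟨rfl, rfl⟩ | ⟨rfl, rfl⟩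
  · exact this
  · exact ⟨this.2, this.1⟩

theorem step_inn {K : ℕ} {s : ℤ} {E : Finset (Edge D)} {x y : Site D}
    (h : (lat D).Step E x y) (hs : sidx K s x = sidx K s y) : (lat D).Step (inn K s E) x y := by
  obtain ⟨e, he, h'⟩ := h
  refine ⟨e, ?_, h'⟩
  rw [inn, mem_filter]
  refine ⟨he, ?_⟩
  rcases h' with ⟨rfl, rfl⟩ | ⟨rfl, rfl⟩
  · exact hs
  · exact hs.symm

theorem sidx_step {K : ℕ} {s : ℤ} {E : Finset (Edge D)} {x y : Site D}
    (h : (lat D).Step (inn K s E) x y) : sidx K s x = sidx K s y := by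
  obtain ⟨e, he, h'⟩ := h
  rw [inn, mem_filter] at he
  rcases h' with ⟨rfl, rfl⟩ | ⟨rfl, rfl⟩
  · exact he.2
  · exact he.2.symm

theorem sidx_rch {K : ℕ} {s : ℤ} {E : Finset (Edge D)} {x y : Site D}
    (h : (lat D).Rch (inn K s E) x y) : sidx K s x = sidx K s y := by
  unfold Gr.Rch at h
  induction h with
  | refl => rfl
  | tail _ h2 ih => exact ih.trans (sidx_step h2)

theorem inn_subset (K : ℕ) (s : ℤ) (E : Finset (Edge D)) : inn K s E ⊆ E := filter_subset _ _

theorem mem_cmp {K : ℕ} {s : ℤ} {A : Finset (Site D)} {E : Finset (Edge D)} {u w : Site D} :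
    w ∈ cmp K s A E u ↔ w ∈ A ∧ (lat D).Rch (inn K s E) u w := by
  classical
  unfold cmp
  rw [mem_filter]

theorem self_mem_cmp {K : ℕ} {s : ℤ} {A : Finset (Site D)} {E : Finset (Edge D)} {u : Site D}
    (hu : u ∈ A) : u ∈ cmp K s A E u :=
  mem_cmp.2 ⟨hu, (lat D).rch_refl _ _⟩

theorem sidx_eq {K : ℕ} (hK : 0 < K) {s j c : ℤ} {a : ℤ} (h : a = s + K * j + c) (h0 : 0 ≤ c)
    (h1 : c < K) : (a - s) / (K : ℤ) = j ∧ (a - s) % (K : ℤ) = c := by
  have hK' : (0 : ℤ) < K := by exact_mod_cast hK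
  refine (Int.ediv_emod_unique hK').2 ⟨by rw [h]; ring, h0, h1⟩

theorem sidx_of_le {K : ℕ} (hK : 0 < K) {s j : ℤ} {u : Site D} (h0 : s + K * j ≤ u.1)
    (h1 : u.1 ≤ s + K * j + K - 1) : sidx K s u = j :=
  (sidx_eq hK (c := u.1 - (s + K * j)) (by ring) (by linarith) (by linarith)).1

theorem le_of_sidx {K : ℕ} (hK : 0 < K) {s j : ℤ} {u : Site D} (h : sidx K s u = j) :
    s + K * j ≤ u.1 ∧ u.1 ≤ s + K * j + K - 1 := by
  have hK' : (0 : ℤ) < K := by exact_mod_cast hK
  have h1 := Int.mul_ediv_add_emod (u.1 - s) (K : ℤ)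
  have h2 := Int.emod_nonneg (u.1 - s) hK'.ne'
  have h3 := Int.emod_lt_of_pos (u.1 - s) hK'
  unfold sidx at h
  rw [h] at h1
  constructor <;> linarith

/-- A full slab is crossed. -/
theorem cross {A : Finset (Site D)} {E : Finset (Edge D)} {n : ℤ} {x y : Site D}
    (h : (lat D).IsCl A E) (ha : Adm n x y A) {K : ℕ} (hK : 0 < K) {s j : ℤ}
    (h0 : 0 ≤ s + K * j) (h1 : s + K * j + K - 1 ≤ n) :
    ∃ u ∈ A, u.1 = s + K * j ∧ ∃ w ∈ A, w.1 = s + K * j + K - 1 ∧
      (lat D).Rch (inn K s E) u w := by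
  by_contra hno
  push Not at hno
  obtain ⟨hx, hy, hx0, hyn, hbd⟩ := ha
  have hK' : (1 : ℤ) ≤ K := by exact_mod_cast hK
  have key : ∀ z, (lat D).Rch E x z → z ∈ A ∧ (z.1 < s + K * j ∨ (sidx K s z = j ∧
      ∃ u ∈ A, u.1 = s + K * j ∧ (lat D).Rch (inn K s E) u z)) := by
    intro z hz
    unfold Gr.Rch at hz
    induction hz with
    | refl =>
      refine ⟨hx, ?_⟩
      rcases lt_or_eq_of_le h0 with h2 | h2
      · left; linarith
      · right
        have h3 : x.1 = s + K * j := by linarith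
        exact ⟨sidx_of_le hK (by linarith) (by linarith), x, hx, h3, (lat D).rch_refl _ _⟩
    | @tail z z' _ hs ih =>
      obtain ⟨hzA, ih⟩ := ih
      have hz' := (step_mem h hs).2
      have hh := step_hgt hs
      refine ⟨hz', ?_⟩
      rcases ih with ih | ⟨hj, u, hu, hub, hr⟩
      · by_cases h2 : z'.1 < s + K * j
        · exact Or.inl h2
        · right
          have h3 : z'.1 = s + K * j := by linarith [hh.2]
          exact ⟨sidx_of_le hK (by linarith) (by linarith), z', hz', h3, (lat D).rch_refl _ _⟩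
      · have hb := le_of_sidx hK hj
        by_cases h2 : z'.1 < s + K * j
        · exact Or.inl h2
        · right
          by_cases h3 : z'.1 ≤ s + K * j + K - 1
          · have h4 : sidx K s z' = j := sidx_of_le hK (by linarith) h3
            exact ⟨h4, u, hu, hub, Relation.ReflTransGen.tail hr (step_inn hs (hj.trans h4.symm))⟩
          · exfalso
            have h4 : z.1 = s + K * j + K - 1 := by
              have : ¬ z'.1 ≤ s + K * j + K - 1 := h3
              have h5 := hh.2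
              have h6 := hb.2
              omega
            exact hno u hu hub z hzA h4 hr
  obtain ⟨-, hy2⟩ := key y (h.2.2 x hx y hy)
  rcases hy2 with hy2 | ⟨hj, u, hu, hub, hr⟩
  · linarith
  · have hb := le_of_sidx hK hj
    exact hno u hu hub y hy (by linarith) hr

theorem mem_fsl {K : ℕ} {s n j : ℤ} (h : j ∈ fsl K s n) :
    0 ≤ s + K * j ∧ s + K * j + K - 1 ≤ n := (mem_filter.1 h).2

/-- The component of the crossing. -/
theorem cross_crs {A : Finset (Site D)} {E : Finset (Edge D)} {n : ℤ} {x y : Site D}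
    (h : (lat D).IsCl A E) (ha : Adm n x y A) {K : ℕ} (hK : 0 < K) {s j : ℤ}
    (hj : j ∈ fsl K s n) :
    ∃ u ∈ A, sidx K s u = j ∧ cmp K s A E u ∈ crs K s A E := by
  classical
  obtain ⟨h0, h1⟩ := mem_fsl hj
  have hK' : (1 : ℤ) ≤ K := by exact_mod_cast hK
  obtain ⟨u, hu, hub, w, hw, hwt, hr⟩ := cross h ha hK h0 h1
  refine ⟨u, hu, sidx_of_le hK (by linarith) (by linarith), ?_⟩
  unfold crs
  rw [mem_filter]
  refine ⟨mem_image_of_mem _ hu, ⟨u, self_mem_cmp hu, ?_⟩, w, mem_cmp.2 ⟨hw, hr⟩, ?_⟩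
  · exact (sidx_eq hK (j := j) (c := 0) (by linarith) le_rfl (by linarith)).2
  · exact (sidx_eq hK (j := j) (c := K - 1) (by linarith) (by linarith) (by linarith)).2

end DTB

open DTB

variable {D : ℕ}

theorem fsl_le_crs {A : Finset (Site D)} {E : Finset (Edge D)} {n : ℤ} {x y : Site D}
    (h : (lat D).IsCl A E) (ha : Adm n x y A) (K : ℕ) (hK : 2 ≤ K) (s : ℤ) :
    (fsl K s n).card ≤ (crs K s A E).card := by
  classical
  have hK0 : 0 < K := by omega
  have H : ∀ j ∈ fsl K s n, ∃ u, u ∈ A ∧ sidx K s u = j ∧ cmp K s A E u ∈ crs K s A E := by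
    intro j hj
    obtain ⟨u, h1, h2, h3⟩ := cross_crs h ha hK0 hj
    exact ⟨u, h1, h2, h3⟩
  choose! u hu using H
  refine card_le_card_of_injOn (fun j => cmp K s A E (u j)) (fun j hj => (hu j hj).2.2) ?_
  intro j hj j' hj' hjj
  have h1 : u j ∈ cmp K s A E (u j') := by
    have h2 : cmp K s A E (u j) = cmp K s A E (u j') := hjj
    rw [← h2]
    exact self_mem_cmp (hu j hj).1
  have h2 := sidx_rch (mem_cmp.1 h1).2
  rw [(hu j hj).2.1, (hu j' hj').2.1] at h2
  exact h2.symm

namespace DTB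

/-- The slab of a slab component. -/
noncomputable def idx (K : ℕ) (s : ℤ) (g : Finset (Site D)) : ℤ := by
  classical
  exact if h : ∃ w, w ∈ g then sidx K s h.choose else 0

theorem idx_cmp {K : ℕ} {s : ℤ} {A : Finset (Site D)} {E : Finset (Edge D)} {u : Site D}
    (hu : u ∈ A) : idx K s (cmp K s A E u) = sidx K s u := by
  classical
  have h : ∃ w, w ∈ cmp K s A E u := ⟨u, self_mem_cmp hu⟩
  unfold idx
  rw [dif_pos h]
  exact (sidx_rch (mem_cmp.1 h.choose_spec).2).symm

theorem fib_le {α : Type} (S : Finset α) (f : α → ℤ) (I : Finset ℤ) :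
    ∑ j ∈ I, (S.filter fun a => f a = j).card ≤ S.card := by
  have h1 : ∀ j, (S.filter fun a => f a = j).card = ∑ a ∈ S, if f a = j then 1 else 0 := by
    intro j
    rw [card_filter]
  simp only [h1]
  rw [sum_comm, card_eq_sum_ones]
  refine sum_le_sum fun a _ => ?_
  rw [sum_ite_eq]
  split_ifs <;> norm_num

/-- A component which reaches the middle third of its full slab is crossing or deep. -/
theorem crs_or_dps {A : Finset (Site D)} {E : Finset (Edge D)} {n : ℤ} {x y : Site D}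
    (h : (lat D).IsCl A E) (ha : Adm n x y A) {K g : ℕ} (hg : 0 < g) (hK : K = 6 * g) {s j : ℤ}
    (h0 : 0 ≤ s + K * j) {u : Site D} (hu : u ∈ A) (h2 : s + K * j + 2 * g ≤ u.1)
    (h3 : u.1 ≤ s + K * j + 4 * g - 1) :
    cmp K s A E u ∈ crs K s A E ∨ cmp K s A E u ∈ dps K s A E := by
  classical
  obtain ⟨hx, hy, hx0, hyn, hbd⟩ := ha
  have hg' : (1 : ℤ) ≤ g := by exact_mod_cast hg
  have hKg : (K : ℤ) = 6 * g := by rw [hK]; push_cast; ring
  have hK0 : 0 < K := by omega
  have hj : sidx K s u = j := sidx_of_le hK0 (by linarith) (by linarith)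
  have key : ∃ v ∈ cmp K s A E u, v.1 = s + K * j ∨ v.1 = s + K * j + K - 1 := by
    by_contra hno
    push Not at hno
    have hcl : ∀ z, (lat D).Rch E u z → z ∈ cmp K s A E u := by
      intro z hz
      unfold Gr.Rch at hz
      induction hz with
      | refl => exact self_mem_cmp hu
      | @tail z z' _ hs ih =>
        have h4 := mem_cmp.1 ih
        have h5 : sidx K s z = j := (sidx_rch h4.2).symm.trans hj
        have h6 := le_of_sidx hK0 h5
        have h7 := hno z ih
        have h8 := step_hgt hs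
        have h9 : sidx K s z' = j := by
          refine sidx_of_le hK0 ?_ ?_
          · have := h7.1
            omega
          · have := h7.2
            omega
        exact mem_cmp.2 ⟨(step_mem h hs).2,
          Relation.ReflTransGen.tail h4.2 (step_inn hs (h5.trans h9.symm))⟩
    have h4 := hcl x (h.2.2 u hu x hx)
    have h5 : sidx K s x = j := (sidx_rch (mem_cmp.1 h4).2).symm.trans hj
    have h6 := le_of_sidx hK0 h5
    exact (hno x h4).1 (by linarith [h6.1])
  by_cases hc : Crs K s (cmp K s A E u)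
  · left
    unfold crs
    rw [mem_filter]
    exact ⟨mem_image_of_mem _ hu, hc⟩
  · right
    unfold dps
    rw [mem_filter]
    refine ⟨mem_image_of_mem _ hu, hc, ?_⟩
    obtain ⟨v, hv, hv'⟩ := key
    refine ⟨u, self_mem_cmp hu, v, hv, ?_⟩
    rcases hv' with hv' | hv'
    · have h4 : u.1 - v.1 ≤ |u.1 - v.1| := le_abs_self _
      linarith
    · have h4 : -(u.1 - v.1) ≤ |u.1 - v.1| := neg_le_abs _
      linarith

/-- A path inside the slabs stays in its slab. -/
theorem rch_slab {K : ℕ} {s j : ℤ} {E : Finset (Edge D)} {u w : Site D}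
    (hu : sidx K s u = j) (h : (lat D).Rch (inn K s E) u w) :
    (lat D).Rch ((inn K s E).filter fun e => sidx K s ((lat D).s e) = j) u w := by
  unfold Gr.Rch at h
  induction h with
  | refl => exact (lat D).rch_refl _ _
  | @tail z z' h1 h2 ih =>
    refine Relation.ReflTransGen.tail ih ?_
    have h3 : sidx K s z = j := (sidx_rch h1).symm.trans hu
    have h4 : sidx K s z' = j := (sidx_step h2).symm.trans h3
    obtain ⟨e, he, h'⟩ := h2
    refine ⟨e, mem_filter.2 ⟨he, ?_⟩, h'⟩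
    rcases h' with ⟨rfl, rfl⟩ | ⟨rfl, rfl⟩
    · exact h3
    · exact h4

theorem dist_slab {A : Finset (Site D)} {E : Finset (Edge D)} (h : (lat D).IsCl A E) {K : ℕ}
    {s j : ℤ} {u w : Site D} (hu : u ∈ A) (hj : sidx K s u = j)
    (hr : (lat D).Rch (inn K s E) u w) :
    SB.dist1 u w + 1 ≤ (A.filter fun z => sidx K s z = j).card := by
  refine rch_dist (E := (inn K s E).filter fun e => sidx K s ((lat D).s e) = j) ?_
    (mem_filter.2 ⟨hu, hj⟩) (rch_slab hj hr)
  intro e he
  rw [mem_filter, inn, mem_filter] at he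
  have h1 := h.2.1 e he.1.1
  exact ⟨mem_filter.2 ⟨h1.1, he.2⟩, mem_filter.2 ⟨h1.2, he.1.2.symm.trans he.2⟩⟩

theorem abs_le_dist1 (u w : Site D) (i : Fin D) : |u.2 i - w.2 i| ≤ (SB.dist1 u w : ℤ) := by
  have h1 : (u.2 i - w.2 i).natAbs ≤ ∑ i, (u.2 i - w.2 i).natAbs :=
    single_le_sum (f := fun i => (u.2 i - w.2 i).natAbs) (fun _ _ => Nat.zero_le _) (mem_univ i)
  unfold SB.dist1
  rw [Int.abs_eq_natAbs]
  have : (u.2 i - w.2 i).natAbs ≤ (u.1 - w.1).natAbs + ∑ i, (u.2 i - w.2 i).natAbs := by omega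
  exact_mod_cast this

/-- The contribution of a full slab. -/
theorem slab_two (ξ : ℝ) (r L : ℕ) {A : Finset (Site D)} {E : Finset (Edge D)} {n m0 : ℤ}
    {x y : Site D} (h : (lat D).IsCl A E) (ha : Adm n x y A) (hL : 1 ≤ L) (s : ℤ)
    (K : ℕ) (hK : K = 6 * (4 * r + 8)) {j : ℤ} (hj : j ∈ fsl K s n) :
    (2 : ℝ) ≤ ((cln ξ r (L * K) (4 * r + 8) m0 n A).filter fun m => (m - s) / (K : ℤ) = j).card +
      ((ngc ξ r (4 * r + 8) m0 n A).filter fun m => (m - s) / (K : ℤ) = j).card +
      ((nnc ξ r (4 * r + 8) m0 n A).filter fun m => (m - s) / (K : ℤ) = j).card +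
      ((crs K s A E).filter fun g => idx K s g = j).card +
      ((dps K s A E).filter fun g => idx K s g = j).card +
      (A.filter fun z => sidx K s z = j).card / (L * K) := by
  classical
  have hK0 : 0 < K := by omega
  have hLK : (0 : ℝ) < (L : ℝ) * K := by
    have : (0 : ℝ) < L := by exact_mod_cast hL
    have : (0 : ℝ) < K := by exact_mod_cast hK0
    positivity
  obtain ⟨h0, h1⟩ := mem_fsl hj
  obtain ⟨u0, hu0, hj0, hc0⟩ := cross_crs h ha hK0 hj
  set cl := (cln ξ r (L * K) (4 * r + 8) m0 n A).filter fun m => (m - s) / (K : ℤ) = j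
  set ng := (ngc ξ r (4 * r + 8) m0 n A).filter fun m => (m - s) / (K : ℤ) = j
  set nn := (nnc ξ r (4 * r + 8) m0 n A).filter fun m => (m - s) / (K : ℤ) = j
  set cr := (crs K s A E).filter fun g => idx K s g = j with hcr
  set dp := (dps K s A E).filter fun g => idx K s g = j with hdp
  set aj := A.filter fun z => sidx K s z = j with haj
  have hcr0 : cmp K s A E u0 ∈ cr := mem_filter.2 ⟨hc0, (idx_cmp hu0).trans hj0⟩
  have hcr1 : 1 ≤ cr.card := card_pos.2 ⟨_, hcr0⟩
  have e1 : (0 : ℝ) ≤ cl.card := Nat.cast_nonneg _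
  have e2 : (0 : ℝ) ≤ ng.card := Nat.cast_nonneg _
  have e3 : (0 : ℝ) ≤ nn.card := Nat.cast_nonneg _
  have e4 : (1 : ℝ) ≤ cr.card := by exact_mod_cast hcr1
  have e5 : (0 : ℝ) ≤ dp.card := Nat.cast_nonneg _
  have e6 : (0 : ℝ) ≤ (aj.card : ℝ) / (L * K) := div_nonneg (Nat.cast_nonneg _) hLK.le
  by_cases c1 : 2 ≤ cr.card
  · have : (2 : ℝ) ≤ cr.card := by exact_mod_cast c1
    linarith
  by_cases c2 : 1 ≤ dp.card
  · have : (1 : ℝ) ≤ dp.card := by exact_mod_cast c2
    linarith
  by_cases c3 : L * K ≤ aj.card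
  · have : (1 : ℝ) ≤ (aj.card : ℝ) / (L * K) := by
      rw [le_div_iff₀ hLK, one_mul]
      exact_mod_cast c3
    linarith
  -- the grid height
  have hcr' : cr.card = 1 := by omega
  have hdp' : dp = ∅ := card_eq_zero.1 (by omega)
  set g : ℕ := 4 * r + 8 with hg
  have hgZ : (g : ℤ) = 4 * r + 8 := by rw [hg]; push_cast; ring
  have hKg : (K : ℤ) = 6 * g := by rw [hK, hg]; push_cast; ring
  have hr0 : (0 : ℤ) ≤ r := Int.natCast_nonneg r
  have hg0 : (0 : ℤ) < g := by linarith
  obtain ⟨m, hm1, hm2, hm3⟩ : ∃ m : ℤ, s + K * j + 2 * g + r + 1 ≤ m ∧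
      m ≤ s + K * j + 4 * g - r - 2 ∧ (g : ℤ) ∣ m - m0 := by
    set lo := s + K * j + 2 * g + r + 1 with hlo
    refine ⟨lo + (m0 - lo) % g, ?_, ?_, ?_⟩
    · have := Int.emod_nonneg (m0 - lo) hg0.ne'
      linarith
    · have := Int.emod_lt_of_pos (m0 - lo) hg0
      linarith
    · refine ⟨-((m0 - lo) / g), ?_⟩
      have := Int.mul_ediv_add_emod (m0 - lo) (g : ℤ)
      linarith
  have hgrd : m ∈ grd g m0 n := by
    unfold grd
    rw [mem_filter, mem_Icc]
    refine ⟨⟨by linarith, by linarith⟩, hm3⟩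
  have hmj : (m - s) / (K : ℤ) = j :=
    (sidx_eq hK0 (c := m - (s + K * j)) (by ring) (by linarith) (by linarith)).1
  -- the points near this height
  have hnear : ∀ u ∈ A, |u.1 - m| ≤ r + 1 → sidx K s u = j ∧ (lat D).Rch (inn K s E) u0 u := by
    intro u hu hum
    rw [abs_le] at hum
    have h2 : s + K * j + 2 * g ≤ u.1 := by linarith [hum.1]
    have h3 : u.1 ≤ s + K * j + 4 * g - 1 := by linarith [hum.2]
    have h4 : sidx K s u = j := sidx_of_le hK0 (by linarith) (by linarith)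
    refine ⟨h4, ?_⟩
    rcases crs_or_dps h ha (g := g) (by omega) (by omega) h0 hu h2 h3 with h5 | h5
    · have h6 : cmp K s A E u ∈ cr := mem_filter.2 ⟨h5, (idx_cmp hu).trans h4⟩
      obtain ⟨a, ha'⟩ := card_eq_one.1 hcr'
      rw [ha', mem_singleton] at h6 hcr0
      have h7 : u ∈ cmp K s A E u0 := by
        rw [hcr0, ← h6]
        exact self_mem_cmp hu
      exact (mem_cmp.1 h7).2
    · exfalso
      have h6 : cmp K s A E u ∈ dp := mem_filter.2 ⟨h5, (idx_cmp hu).trans h4⟩
      rw [hdp'] at h6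
      exact notMem_empty _ h6
  have hthin : Thin r (L * K) A m := by
    constructor
    · have h2 : (A.filter fun u => |u.1 - m| ≤ r + 1) ⊆ aj := by
        intro u hu
        rw [mem_filter] at hu
        exact mem_filter.2 ⟨hu.1, (hnear u hu.1 hu.2).1⟩
      have h3 := card_le_card h2
      omega
    · intro u hu w hw hum hwm i
      have h2 := hnear u hu hum
      have h3 := hnear w hw hwm
      have h4 := dist_slab h hu h2.1 ((lat D).rch_trans ((lat D).rch_symm h2.2) h3.2)
      have h5 := abs_le_dist1 u w i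
      have h6 : SB.dist1 u w ≤ L * K := by
        have : aj.card < L * K := by omega
        have h7 : SB.dist1 u w + 1 ≤ aj.card := h4
        omega
      have h7 : (SB.dist1 u w : ℤ) ≤ ((L * K : ℕ) : ℤ) := by exact_mod_cast h6
      linarith
  have hone : (1 : ℝ) ≤ (cl.card : ℝ) + ng.card + nn.card := by
    by_cases hn : Nice ξ r A m
    · by_cases hgd : Good r A m
      · have h2 : m ∈ ng := by
          refine mem_filter.2 ⟨?_, hmj⟩
          unfold ngc
          rw [mem_filter]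
          exact ⟨hgrd, hgd, hn⟩
        have h3 : 1 ≤ ng.card := card_pos.2 ⟨m, h2⟩
        have h4 : (1 : ℝ) ≤ ng.card := by exact_mod_cast h3
        linarith
      · have h2 : m ∈ cl := by
          refine mem_filter.2 ⟨?_, hmj⟩
          unfold cln
          rw [mem_filter]
          exact ⟨hgrd, hgd, hn, hthin⟩
        have h3 : 1 ≤ cl.card := card_pos.2 ⟨m, h2⟩
        have h4 : (1 : ℝ) ≤ cl.card := by exact_mod_cast h3
        linarith
    · have h2 : m ∈ nn := by
        refine mem_filter.2 ⟨?_, hmj⟩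
        unfold nnc
        rw [mem_filter]
        exact ⟨hgrd, hn⟩
      have h3 : 1 ≤ nn.card := card_pos.2 ⟨m, h2⟩
      have h4 : (1 : ℝ) ≤ nn.card := by exact_mod_cast h3
      linarith
  linarith

end DTB

/-- `K = 6 g`. In a full slab with one crossing component, no deep component and at most `L K`
points there is a grid height `m` with `Thin r (L * K) A m`. -/
theorem det (ξ : ℝ) (r L : ℕ) {A : Finset (Site D)} {E : Finset (Edge D)} {n m0 : ℤ}
    {x y : Site D} (h : (lat D).IsCl A E) (ha : Adm n x y A) (hL : 1 ≤ L) (s : ℤ) (hs : 0 ≤ s)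
    (K : ℕ) (hK : K = 6 * (4 * r + 8)) (hsK : s < K) :
    (2 * (fsl K s n).card : ℝ) ≤ (cln ξ r (L * K) (4 * r + 8) m0 n A).card +
      (ngc ξ r (4 * r + 8) m0 n A).card + (nnc ξ r (4 * r + 8) m0 n A).card +
      (crs K s A E).card + (dps K s A E).card + A.card / (L * K) := by
  classical
  have h1 : (2 * (fsl K s n).card : ℝ) = ∑ j ∈ fsl K s n, (2 : ℝ) := by
    rw [sum_const, nsmul_eq_mul, mul_comm]
  have h2 := sum_le_sum fun j (hj : j ∈ fsl K s n) =>
    slab_two ξ r L (m0 := m0) h ha hL s K hK hj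
  rw [h1]
  refine h2.trans ?_
  simp only [sum_add_distrib]
  have hLK : (0 : ℝ) ≤ (L : ℝ) * K := by positivity
  have F : ∀ {α : Type} (S : Finset α) (f : α → ℤ),
      (∑ j ∈ fsl K s n, ((S.filter fun a => f a = j).card : ℝ)) ≤ S.card := by
    intro α S f
    exact_mod_cast fib_le S f (fsl K s n)
  have g1 := F (cln ξ r (L * K) (4 * r + 8) m0 n A) fun m => (m - s) / (K : ℤ)
  have g2 := F (ngc ξ r (4 * r + 8) m0 n A) fun m => (m - s) / (K : ℤ)
  have g3 := F (nnc ξ r (4 * r + 8) m0 n A) fun m => (m - s) / (K : ℤ)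
  have g4 := F (crs K s A E) fun g => idx K s g
  have g5 := F (dps K s A E) fun g => idx K s g
  have g6 : ∑ j ∈ fsl K s n, ((A.filter fun z => sidx K s z = j).card : ℝ) / (L * K) ≤
      A.card / (L * K) := by
    rw [← sum_div]
    exact div_le_div_of_nonneg_right (F A fun z => sidx K s z) hLK
  linarith

end Pool.Agent.DL
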