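import Pool.Agent.DL.Defs3

/-!
# Exponential kernels on the transverse lattice

Sums of `ex c (nt y)` over the transverse lattice and the inequality of Young.
-/

set_option autoImplicit false
set_option linter.unusedSectionVars false

namespace Pool.Agent.DL

open Finset
open scoped ENNReal

theorem ex_ne_top (c k : ℝ) : ex c k ≠ ⊤ := ENNReal.ofReal_ne_top

theorem ex_pos (c k : ℝ) : 0 < ex c k := ENNReal.ofReal_pos.2 (Real.exp_pos _)

theorem ex_zero (c : ℝ) : ex c 0 = 1 := by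
  unfold ex
  rw [mul_zero, neg_zero, Real.exp_zero, ENNReal.ofReal_one]

theorem ex_le_one {c k : ℝ} (hc : 0 ≤ c) (hk : 0 ≤ k) : ex c k ≤ 1 := by
  unfold ex
  rw [← ENNReal.ofReal_one]
  refine ENNReal.ofReal_le_ofReal (Real.exp_le_one_iff.2 ?_)
  have := mul_nonneg hc hk
  linarith

theorem ex_anti_k {c k k' : ℝ} (hc : 0 ≤ c) (hk : k ≤ k') : ex c k' ≤ ex c k := by
  unfold ex
  refine ENNReal.ofReal_le_ofReal (Real.exp_le_exp.2 ?_)
  have := mul_le_mul_of_nonneg_left hk hc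
  linarith

theorem ex_anti_c {c c' k : ℝ} (hc : c ≤ c') (hk : 0 ≤ k) : ex c' k ≤ ex c k := by
  unfold ex
  refine ENNReal.ofReal_le_ofReal (Real.exp_le_exp.2 ?_)
  have := mul_le_mul_of_nonneg_right hc hk
  linarith

theorem ex_add_k (c k k' : ℝ) : ex c (k + k') = ex c k * ex c k' := by
  unfold ex
  rw [← ENNReal.ofReal_mul (Real.exp_nonneg _), ← Real.exp_add]
  congr 2
  ring

theorem ex_add_c (c c' k : ℝ) : ex (c + c') k = ex c k * ex c' k := by
  unfold ex
  rw [← ENNReal.ofReal_mul (Real.exp_nonneg _), ← Real.exp_add]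
  congr 2
  ring

theorem nt_zero' {D : ℕ} : SB.nt (0 : Tv D) = 0 := by
  unfold SB.nt
  simp

theorem nt_neg' {D : ℕ} (x : Tv D) : SB.nt (-x) = SB.nt x := by
  unfold SB.nt
  simp

theorem nt_add_le' {D : ℕ} (x y : Tv D) : SB.nt (x + y) ≤ SB.nt x + SB.nt y := by
  unfold SB.nt
  rw [← Finset.sum_add_distrib]
  exact Finset.sum_le_sum fun i _ => Int.natAbs_add_le _ _

theorem nt_sub_comm' {D : ℕ} (x y : Tv D) : SB.nt (x - y) = SB.nt (y - x) := by
  rw [← nt_neg' (x - y), neg_sub]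

theorem nt_tri' {D : ℕ} (x y z : Tv D) : SB.nt (x - z) ≤ SB.nt (x - y) + SB.nt (y - z) := by
  have h := nt_add_le' (x - y) (y - z)
  rwa [sub_add_sub_cancel] at h

/-- The triangle inequality for the kernel. -/
theorem ex_tri {D : ℕ} {c : ℝ} (hc : 0 ≤ c) (x y z : Tv D) :
    ex c (SB.nt (x - y)) * ex c (SB.nt (y - z)) ≤ ex c (SB.nt (x - z)) := by
  rw [← ex_add_k]
  refine ex_anti_k hc ?_
  exact_mod_cast nt_tri' x y z

theorem ex_nt_comm {D : ℕ} (c : ℝ) (x y : Tv D) :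
    ex c (SB.nt (x - y)) = ex c (SB.nt (y - x)) := by
  rw [nt_sub_comm']

theorem ex_nt_eq_pow {D : ℕ} (c : ℝ) (y : Tv D) :
    ex c (SB.nt y) = ENNReal.ofReal (Real.exp (-c)) ^ SB.nt y := by
  unfold ex
  rw [← ENNReal.ofReal_pow (Real.exp_nonneg _), ← Real.exp_nat_mul]
  congr 2
  ring

/-- The sum of the kernel over one integer. -/
theorem tsum_natAbs_ne_top {s : ℝ} (h0 : 0 ≤ s) (h1 : s < 1) :
    ∑' k : ℤ, ENNReal.ofReal s ^ k.natAbs ≠ ⊤ := by
  have h : Summable fun k : ℤ => s ^ k.natAbs := by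
    refine Summable.of_nat_of_neg ?_ ?_
    · simpa using summable_geometric_of_lt_one h0 h1
    · simpa using summable_geometric_of_lt_one h0 h1
  have h2 := h.tsum_ofReal_ne_top
  have h3 : (fun k : ℤ => ENNReal.ofReal (s ^ k.natAbs)) = fun k : ℤ =>
      ENNReal.ofReal s ^ k.natAbs := by
    funext k
    exact ENNReal.ofReal_pow h0 _
  rwa [h3] at h2

/-- The sum of the kernel is finite. -/
theorem tsum_ex_ne_top {D : ℕ} {c : ℝ} (hc : 0 < c) :
    ∑' y : Tv D, ex c (SB.nt y) ≠ ⊤ := by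
  classical
  set s := ENNReal.ofReal (Real.exp (-c)) with hs
  have hK : ∑' k : ℤ, s ^ k.natAbs ≠ ⊤ :=
    tsum_natAbs_ne_top (Real.exp_nonneg _) (Real.exp_lt_one_iff.2 (by linarith))
  refine ne_top_of_le_ne_top (ENNReal.pow_ne_top (n := D) hK) ?_
  rw [ENNReal.tsum_eq_iSup_sum]
  refine iSup_le fun u => ?_
  have hsub : u ⊆ Fintype.piFinset fun i => u.image fun x => x i := by
    intro x hx
    rw [Fintype.mem_piFinset]
    exact fun i => Finset.mem_image_of_mem (fun x => x i) hx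
  have e : ∀ x : Tv D, ex c (SB.nt x) = ∏ i, s ^ (x i).natAbs := by
    intro x
    rw [ex_nt_eq_pow, SB.nt, Finset.prod_pow_eq_pow_sum]
  calc ∑ x ∈ u, ex c (SB.nt x) = ∑ x ∈ u, ∏ i, s ^ (x i).natAbs :=
        Finset.sum_congr rfl fun x _ => e x
    _ ≤ ∑ x ∈ Fintype.piFinset fun i => u.image fun x => x i, ∏ i, s ^ (x i).natAbs :=
        Finset.sum_le_sum_of_subset hsub
    _ = ∏ i, ∑ k ∈ u.image fun x => x i, s ^ k.natAbs := by
        rw [← Finset.prod_univ_sum (fun i => u.image fun x => x i) (fun _ (k : ℤ) => s ^ k.natAbs)]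
    _ ≤ ∏ _i : Fin D, ∑' k : ℤ, s ^ k.natAbs := Finset.prod_le_prod'
        (fun i _ => ENNReal.sum_le_tsum _)
    _ = _ := by rw [Finset.prod_const, Finset.card_univ, Fintype.card_fin]

/-- Translation of a sum. -/
theorem tsum_sub_right {D : ℕ} (g : Tv D → ℝ≥0∞) (y : Tv D) :
    ∑' w : Tv D, g (w - y) = ∑' w : Tv D, g w :=
  (Equiv.subRight y).tsum_eq g

/-- Reflection of a sum. -/
theorem tsum_sub_left {D : ℕ} (g : Tv D → ℝ≥0∞) (y : Tv D) :
    ∑' w : Tv D, g (y - w) = ∑' w : Tv D, g w :=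
  (Equiv.subLeft y).tsum_eq g

theorem two_mul_mul_le_sq (a b : ℝ≥0∞) : 2 * (a * b) ≤ a ^ 2 + b ^ 2 := by
  wlog h : a ≤ b generalizing a b
  · have := this b a (le_of_not_ge h)
    rwa [mul_comm b a, add_comm] at this
  obtain ⟨c, rfl⟩ := exists_add_of_le h
  calc 2 * (a * (a + c)) ≤ 2 * (a * (a + c)) + c ^ 2 := le_self_add
    _ = a ^ 2 + (a + c) ^ 2 := by ring

/-- Young's inequality. -/
theorem young {D : ℕ} (e g : Tv D → ℝ≥0∞) :
    ∑' w : Tv D, (∑' y : Tv D, e y * g (w - y)) ^ 2 ≤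
      (∑' y : Tv D, e y) ^ 2 * ∑' w : Tv D, g w ^ 2 := by
  have h : 2 * ∑' w : Tv D, (∑' y : Tv D, e y * g (w - y)) ^ 2 ≤
      2 * ((∑' y : Tv D, e y) ^ 2 * ∑' w : Tv D, g w ^ 2) := by
    calc 2 * ∑' w : Tv D, (∑' y : Tv D, e y * g (w - y)) ^ 2
        = ∑' w : Tv D, ∑' y : Tv D, ∑' y' : Tv D,
            e y * e y' * (2 * (g (w - y) * g (w - y'))) := by
          rw [← ENNReal.tsum_mul_left]
          refine tsum_congr fun w => ?_
          rw [sq, ← ENNReal.tsum_mul_right, ← ENNReal.tsum_mul_left]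
          refine tsum_congr fun y => ?_
          rw [← ENNReal.tsum_mul_left, ← ENNReal.tsum_mul_left]
          refine tsum_congr fun y' => ?_
          ring
      _ ≤ ∑' w : Tv D, ∑' y : Tv D, ∑' y' : Tv D,
            e y * e y' * (g (w - y) ^ 2 + g (w - y') ^ 2) :=
          ENNReal.tsum_le_tsum fun w => ENNReal.tsum_le_tsum fun y => ENNReal.tsum_le_tsum
            fun y' => mul_le_mul_right (two_mul_mul_le_sq _ _) _
      _ = ∑' y : Tv D, ∑' y' : Tv D, ∑' w : Tv D,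
            e y * e y' * (g (w - y) ^ 2 + g (w - y') ^ 2) := by
          rw [ENNReal.tsum_comm]
          exact tsum_congr fun y => ENNReal.tsum_comm
      _ = ∑' y : Tv D, ∑' y' : Tv D, e y * e y' * (2 * ∑' w : Tv D, g w ^ 2) := by
          refine tsum_congr fun y => tsum_congr fun y' => ?_
          rw [ENNReal.tsum_mul_left, ENNReal.tsum_add, tsum_sub_right (fun w => g w ^ 2) y,
            tsum_sub_right (fun w => g w ^ 2) y', two_mul]
      _ = 2 * ((∑' y : Tv D, e y) ^ 2 * ∑' w : Tv D, g w ^ 2) := by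
          have h1 : ∀ y : Tv D, ∑' y' : Tv D, e y * e y' * (2 * ∑' w : Tv D, g w ^ 2) =
              e y * ((∑' y' : Tv D, e y') * (2 * ∑' w : Tv D, g w ^ 2)) := by
            intro y
            rw [ENNReal.tsum_mul_right, ENNReal.tsum_mul_left, mul_assoc]
          rw [tsum_congr h1, ENNReal.tsum_mul_right]
          ring
  exact (ENNReal.mul_le_mul_iff_right two_ne_zero ENNReal.ofNat_ne_top).1 h

end Pool.Agent.DL
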