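import Pool.Agent.DL.Inf
import Pool.Agent.DL.Ad
import Pool.Agent.DL.Csp

/-!
# Connection probabilities as sums over clusters in infinite volume
-/

set_option autoImplicit false
set_option linter.unusedSectionVars false

namespace Pool.Agent.DL

open Finset
open scoped ENNReal NNReal

namespace Gs

section Sum

theorem gs_summable_prod {ι : Type*} [Fintype ι] [DecidableEq ι] {α : Type*} [DecidableEq α]
    (f : α → ℝ) (hf : ∀ k, 0 ≤ f k) (hs : Summable f) :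
    Summable fun x : ι → α => ∏ i, f (x i) := by
  refine summable_of_sum_le (c := (∑' k, f k) ^ Fintype.card ι)
    (fun x => Finset.prod_nonneg fun i _ => hf _) fun u => ?_
  have hsub : u ⊆ Fintype.piFinset fun i => u.image fun x => x i := by
    intro x hx
    rw [Fintype.mem_piFinset]
    exact fun i => Finset.mem_image_of_mem (fun x => x i) hx
  calc ∑ x ∈ u, ∏ i, f (x i) ≤ ∑ x ∈ Fintype.piFinset fun i => u.image fun x => x i, ∏ i, f (x i) :=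
        Finset.sum_le_sum_of_subset_of_nonneg hsub fun x _ _ => Finset.prod_nonneg fun i _ => hf _
    _ = ∏ i, ∑ k ∈ u.image fun x => x i, f k := (Finset.prod_univ_sum _ _).symm
    _ ≤ ∏ _i : ι, ∑' k, f k := Finset.prod_le_prod
        (fun i _ => Finset.sum_nonneg fun k _ => hf k)
        (fun i _ => hs.sum_le_tsum _ fun k _ => hf k)
    _ = _ := by rw [Finset.prod_const, Finset.card_univ]

theorem gs_summable_natAbs (s : ℝ) (h0 : 0 ≤ s) (h1 : s < 1) :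
    Summable fun k : ℤ => s ^ k.natAbs := by
  refine Summable.of_nat_of_neg ?_ ?_
  · simpa using summable_geometric_of_lt_one h0 h1
  · simpa using summable_geometric_of_lt_one h0 h1

theorem gs_summable_nt (D : ℕ) (s : ℝ) (h0 : 0 ≤ s) (h1 : s < 1) :
    Summable fun x : Fin D → ℤ => s ^ SB.nt x := by
  have h := gs_summable_prod (ι := Fin D) (fun k : ℤ => s ^ k.natAbs)
    (fun k => pow_nonneg h0 _) (gs_summable_natAbs s h0 h1)
  refine h.congr fun x => ?_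
  rw [SB.nt, Finset.prod_pow_eq_pow_sum]

theorem gs_exp (D : ℕ) (c : ℝ) (x y : Site D) :
    Real.exp (-c) ^ (x.1 - y.1).natAbs * Real.exp (-c) ^ SB.nt (x.2 - y.2) =
      Real.exp (-(c * SB.dist1 x y)) := by
  have h4 : SB.dist1 x y = (x.1 - y.1).natAbs + SB.nt (x.2 - y.2) := rfl
  rw [← pow_add, ← Real.exp_nat_mul, h4]
  ring_nf

theorem gs_sub1 (f : ℤ → ℝ) (hf : Summable f) (a : ℤ) : Summable fun k : ℤ => f (a - k) :=
  (Equiv.subLeft a).summable_iff.2 hf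

theorem gs_sub2 (D : ℕ) (f : (Fin D → ℤ) → ℝ) (hf : Summable f) (a : Fin D → ℤ) :
    Summable fun k : Fin D → ℤ => f (a - k) :=
  (Equiv.subLeft a).summable_iff.2 hf

theorem gs_pro (D : ℕ) (f : ℤ → ℝ) (g : (Fin D → ℤ) → ℝ) (hf : Summable f) (hg : Summable g)
    (hf0 : ∀ k, 0 ≤ f k) (hg0 : ∀ k, 0 ≤ g k) :
    Summable fun y : Site D => f y.1 * g y.2 := hf.mul_of_nonneg hg hf0 hg0

/-- Exponentials of the distance are summable. -/
theorem gs_summable (D : ℕ) (c : ℝ) (hc : 0 < c) (x : Site D) :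
    Summable fun y : Site D => Real.exp (-(c * SB.dist1 x y)) := by
  have h1 : Real.exp (-c) < 1 := by rw [Real.exp_lt_one_iff]; linarith
  have h0 := (Real.exp_pos (-c)).le
  refine (gs_pro D (fun k : ℤ => Real.exp (-c) ^ (x.1 - k).natAbs)
    (fun k : Fin D → ℤ => Real.exp (-c) ^ SB.nt (x.2 - k))
    (gs_sub1 _ (gs_summable_natAbs _ h0 h1) _) (gs_sub2 D _ (gs_summable_nt D _ h0 h1) _)
    (fun _ => pow_nonneg h0 _) (fun _ => pow_nonneg h0 _)).congr fun y => ?_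
  rw [gs_exp]

theorem gs_sum_sub {α : Type*} (A K : Finset α) (f g : α → ℝ) (h0 : ∀ a, 0 ≤ g a)
    (hK : ∀ a ∈ A, (a ∈ K ∧ f a ≤ g a) ∨ f a = 0) : ∑ a ∈ A, f a ≤ ∑ a ∈ K, g a := by
  classical
  have h1 : ∑ a ∈ A.filter (fun a => f a ≠ 0), f a = ∑ a ∈ A, f a :=
    Finset.sum_filter_ne_zero A
  rw [← h1]
  have h2 : ∀ a ∈ A.filter (fun a => f a ≠ 0), a ∈ K ∧ f a ≤ g a := by
    intro a ha
    rw [Finset.mem_filter] at ha
    exact (hK a ha.1).resolve_right ha.2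
  exact (Finset.sum_le_sum fun a ha => (h2 a ha).2).trans
    (Finset.sum_le_sum_of_subset_of_nonneg (fun a ha => (h2 a ha).1) fun a _ _ => h0 a)

/-- Tails of the sums of exponentials. -/
theorem gs_tail (D : ℕ) (C c : ℝ) (hc : 0 < c) (x : Site D) (ε : ℝ) (hε : 0 < ε) :
    ∃ B : Finset (Site D), ∀ T : Finset (Site D), Disjoint T B →
      ∑ y ∈ T, C * Real.exp (-(c * SB.dist1 x y)) ≤ ε := by
  have h1 : Summable fun y : Site D => C * Real.exp (-(c * SB.dist1 x y)) :=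
    (gs_summable D c hc x).mul_left C
  obtain ⟨B, hB⟩ := summable_iff_vanishing_norm.1 h1 ε hε
  exact ⟨B, fun T hT => (le_abs_self _).trans (hB T hT).le⟩

end Sum

section GS

variable {D : ℕ} {q β J1 : ℝ}

theorem box_mono {N N' : ℕ} (h : N ≤ N') : SB.box D N ⊆ SB.box D N' := by
  intro x hx
  unfold SB.box at hx ⊢
  rw [Finset.mem_product, Finset.mem_Icc, Finset.mem_Icc, Pi.le_def, Pi.le_def] at hx ⊢
  obtain ⟨⟨h1, h2⟩, h3, h4⟩ := hx
  refine ⟨⟨by omega, by omega⟩, fun i => ?_, fun i => ?_⟩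
  · have h5 : -(N : ℤ) ≤ x.2 i := h3 i
    change -(N' : ℤ) ≤ x.2 i
    omega
  · have h5 : x.2 i ≤ (N : ℤ) := h4 i
    change x.2 i ≤ (N' : ℤ)
    omega

/-- Uniform convergence of the isolation probabilities of finitely many sets. -/
theorem gs_ZI_unif {J : ℝ} (h : Bas D q β) (hJ : 0 ≤ J) (K : Finset (Finset (Site D))) (ε : ℝ)
    (hε : 0 < ε) :
    ∃ N : ℕ, ∀ A ∈ K, ∀ Λ, SB.box D N ⊆ Λ → ZZ D q β J Λ A ≤ ZI D q β J A + ε := by
  classical
  choose N hN using fun A => ZI_lim h hJ A ε hε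
  exact ⟨K.sup N, fun A hA Λ hΛ => hN A Λ ((box_mono (Finset.le_sup hA)).trans hΛ)⟩

theorem gs_cw (hq : 0 < q) {J : ℝ} (hv : ∀ e : Edge D, 0 ≤ vJ β J e) (A : Finset (Site D))
    (E : Finset (Edge D)) : 0 ≤ Gr.cw q (vJ β J) A E := by
  unfold Gr.cw
  exact mul_nonneg (Finset.prod_nonneg fun e _ => hv e) (pow_nonneg (inv_nonneg.2 hq.le) _)

theorem gs_WW {J : ℝ} (h : Bas D q β) (hJ : 0 ≤ J) (A : Finset (Site D)) (E : Finset (Edge D)) :
    0 ≤ WW D q β J A E := gs_cw (lt_of_lt_of_le one_pos h.hq) (fun e => vJ_nonneg h.hβ.le hJ e) A E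

open Classical in
/-- One term of the sums over clusters. -/
noncomputable def tm (D : ℕ) (q β J : ℝ) (Λ : Finset (Site D)) (P : Pr D → Prop) (c : Pr D) : ℝ :=
  if P c then WW D q β J c.1 c.2 * ZZ D q β J Λ c.1 else 0

theorem tm_pos {J : ℝ} {Λ : Finset (Site D)} {P : Pr D → Prop} {c : Pr D} (hc : P c) :
    tm D q β J Λ P c = WW D q β J c.1 c.2 * ZZ D q β J Λ c.1 := if_pos hc

theorem tm_neg {J : ℝ} {Λ : Finset (Site D)} {P : Pr D → Prop} {c : Pr D} (hc : ¬ P c) :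
    tm D q β J Λ P c = 0 := if_neg hc

open Classical in
/-- Events of the cluster of `x` as one sum over pairs. -/
theorem gs_cls {J : ℝ} (h : Bas D q β) (hJ : 0 ≤ J) (Λ : Finset (Site D)) (x : Site D)
    (P : Finset (Site D) → Prop) :
    PP D q β J Λ (fun ω => ∃ A E, (lat D).Cls ω x A E ∧ P A) =
      ∑ c ∈ ((lat D).vs (edg Λ) x).powerset ×ˢ (edg Λ).powerset,
        tm D q β J Λ (fun c => (lat D).IsCl c.1 c.2 ∧ x ∈ c.1 ∧ P c.1) c := by
  unfold PP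
  rw [(lat D).pr_eq_sum_cls q (vJ β J) (lt_of_lt_of_le one_pos h.hq)
    (fun e => vJ_nonneg h.hβ.le hJ e) (edg Λ) x fun A _ => P A, Finset.sum_product]
  refine Finset.sum_congr rfl fun A _ => Finset.sum_congr rfl fun E _ => ?_
  by_cases h1 : (lat D).IsCl A E ∧ x ∈ A ∧ P A
  · rw [if_pos h1, tm_pos (c := (A, E)) h1]
    rfl
  · rw [if_neg h1, tm_neg (c := (A, E)) h1]

theorem gs_ZZ_nonneg {J : ℝ} (h : Bas D q β) (hJ : 0 ≤ J) (Λ A : Finset (Site D)) :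
    0 ≤ ZZ D q β J Λ A :=
  ((lat D).ze_pos q (vJ β J) (lt_of_lt_of_le one_pos h.hq) (fun e => vJ_nonneg h.hβ.le hJ e) _ _).le

theorem gs_tm_nonneg {J : ℝ} (h : Bas D q β) (hJ : 0 ≤ J) (Λ : Finset (Site D))
    (P : Pr D → Prop) (c : Pr D) : 0 ≤ tm D q β J Λ P c := by
  unfold tm
  split_ifs
  · exact mul_nonneg (gs_WW h hJ c.1 c.2) (gs_ZZ_nonneg h hJ _ _)
  · exact le_rfl

theorem ii_pos {p : Prop} (h : p) : ii p = 1 := if_pos h

theorem ii_neg {p : Prop} (h : ¬ p) : ii p = 0 := if_neg h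

theorem WI_pos {J : ℝ} {c : Pr D} (h : (lat D).IsCl c.1 c.2) :
    WI D q β J c = ENNReal.ofReal (WW D q β J c.1 c.2 * ZI D q β J c.1) := if_pos h

theorem WI_neg {J : ℝ} {c : Pr D} (h : ¬ (lat D).IsCl c.1 c.2) : WI D q β J c = 0 := if_neg h

/-- The event that all points of `S` are connected to `x`, in terms of the cluster of `x`. -/
theorem gs_pr {J : ℝ} (Λ : Finset (Site D)) (x : Site D)
    (S : Finset (Site D)) :
    PP D q β J Λ (fun ω => ∀ y ∈ S, (lat D).Rch ω x y) =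
      PP D q β J Λ (fun ω => ∃ A E, (lat D).Cls ω x A E ∧ S ⊆ A) := by
  refine (lat D).pr_congr q (vJ β J) _ fun ω _ => ?_
  constructor
  · intro hω
    obtain ⟨A, E, hc, _, _⟩ := (lat D).cls_exists ω x
    exact ⟨A, E, hc, fun y hy => ((lat D).cls_iff hc y).2 (hω y hy)⟩
  · rintro ⟨A, E, hc, hS⟩ y hy
    exact ((lat D).cls_iff hc y).1 (hS hy)

open Classical in
/-- Finite sums of cluster weights are at most connection probabilities. -/
theorem gs_fin_le {J : ℝ} (h : Bas D q β) (hJ : 0 ≤ J) (x : Site D) (S : Finset (Site D))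
    (F : Finset (Pr D)) : ∃ Λ : Finset (Site D),
      ∑ c ∈ F, WI D q β J c * ii (x ∈ c.1 ∧ S ⊆ c.1) ≤
        ENNReal.ofReal (PP D q β J Λ fun ω => ∀ y ∈ S, (lat D).Rch ω x y) := by
  set Λ : Finset (Site D) := F.biUnion fun c => c.1 with hΛ
  refine ⟨Λ, ?_⟩
  set Q : Pr D → Prop := fun c => (lat D).IsCl c.1 c.2 ∧ x ∈ c.1 ∧ S ⊆ c.1 with hQ
  set F' := F.filter Q with hF'
  have h1 : ∑ c ∈ F, WI D q β J c * ii (x ∈ c.1 ∧ S ⊆ c.1) =
      ∑ c ∈ F', ENNReal.ofReal (WW D q β J c.1 c.2 * ZI D q β J c.1) := by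
    rw [hF', Finset.sum_filter]
    refine Finset.sum_congr rfl fun c _ => ?_
    by_cases h2 : (lat D).IsCl c.1 c.2
    · by_cases h3 : x ∈ c.1 ∧ S ⊆ c.1
      · rw [WI_pos h2, ii_pos h3, if_pos (show Q c from ⟨h2, h3⟩), mul_one]
      · rw [ii_neg h3, if_neg (show ¬ Q c from fun h4 => h3 h4.2), mul_zero]
    · rw [WI_neg h2, if_neg (show ¬ Q c from fun h4 => h2 h4.1), zero_mul]
  rw [h1, ← ENNReal.ofReal_sum_of_nonneg fun c _ =>
    mul_nonneg (gs_WW h hJ c.1 c.2) (ZI_nonneg h hJ c.1)]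
  refine ENNReal.ofReal_le_ofReal ?_
  rw [gs_pr, gs_cls h hJ]
  have h2 : ∀ c ∈ F', WW D q β J c.1 c.2 * ZI D q β J c.1 ≤ tm D q β J Λ Q c := by
    intro c hc
    rw [tm_pos (Finset.mem_filter.1 hc).2]
    exact mul_le_mul_of_nonneg_left (ZI_le h hJ Λ c.1) (gs_WW h hJ c.1 c.2)
  refine (Finset.sum_le_sum h2).trans (Finset.sum_le_sum_of_subset_of_nonneg ?_ ?_)
  · intro c hc
    obtain ⟨h6, h3, h4, h5⟩ := Finset.mem_filter.1 hc
    have h7 : c.2 ⊆ edg Λ := by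
      intro e he
      have h8 := h3.2.1 e he
      rw [csp_mem_edg]
      exact ⟨Finset.mem_biUnion.2 ⟨c, h6, h8.1⟩, Finset.mem_biUnion.2 ⟨c, h6, h8.2⟩⟩
    refine Finset.mem_product.2 ⟨Finset.mem_powerset.2 fun y hy => ?_, Finset.mem_powerset.2 h7⟩
    exact (lat D).rch_vs ((lat D).rch_mono h7 (h3.2.2 x h4 y hy))
  · exact fun c _ _ => gs_tm_nonneg h hJ Λ Q c

/-- The sum over clusters containing `x` and `S` bounds the connection probabilities. -/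
theorem gs_ge (h : Reg D q β J1) (J : ℝ) (hJ : 1 ≤ J) (hJ1 : J ≤ J1) (Λ : Finset (Site D))
    (x : Site D) (S : Finset (Site D)) :
    ENNReal.ofReal (PP D q β J Λ fun ω => ∀ y ∈ S, (lat D).Rch ω x y) ≤
      sm D q β J (fun c => ii (x ∈ c.1 ∧ S ⊆ c.1)) := by
  classical
  have hb : Bas D q β := h.toBas
  have hJ0 : (0 : ℝ) ≤ J := le_trans zero_le_one hJ
  have hq : 0 < q := lt_of_lt_of_le one_pos hb.hq
  have hv : ∀ e : Edge D, 0 ≤ vJ β J e := fun e => vJ_nonneg hb.hβ.le hJ0 e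
  obtain ⟨C, c, hC, hc, hall⟩ := all_dir h
  refine ENNReal.le_of_forall_pos_le_add fun ε hε _ => ?_
  have hε2 : (0 : ℝ) < (ε : ℝ) / 2 := by
    have : (0 : ℝ) < ε := hε
    linarith
  obtain ⟨B, hB⟩ := gs_tail D C c hc x ((ε : ℝ) / 2) hε2
  -- finitely many clusters inside `B`
  set Q : Pr D → Prop := fun d => (lat D).IsCl d.1 d.2 ∧ x ∈ d.1 ∧ (d.1 ⊆ B ∧ S ⊆ d.1) with hQ
  set K : Finset (Pr D) := (B.powerset ×ˢ (edg B).powerset).filter Q with hK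
  set W : ℝ := ∑ d ∈ K, WW D q β J d.1 d.2 with hW
  have hW0 : 0 ≤ W := Finset.sum_nonneg fun d _ => gs_WW hb hJ0 d.1 d.2
  have hε' : (0 : ℝ) < (ε : ℝ) / 2 / (1 + W) := div_pos hε2 (by linarith)
  obtain ⟨N, hN⟩ := gs_ZI_unif hb hJ0 B.powerset ((ε : ℝ) / 2 / (1 + W)) hε'
  set Λ' : Finset (Site D) := Λ ∪ SB.box D N with hΛ'
  have h1 : PP D q β J Λ (fun ω => ∀ y ∈ S, (lat D).Rch ω x y) ≤
      PP D q β J Λ' (fun ω => ∀ y ∈ S, (lat D).Rch ω x y) :=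
    (lat D).pr_mono_edges q (vJ β J) hb.hq hv (csp_edg_mono Finset.subset_union_left) _
      fun a b hab ha y hy => (lat D).rch_mono hab (ha y hy)
  -- split according to `A ⊆ B`
  have h2 : PP D q β J Λ' (fun ω => ∀ y ∈ S, (lat D).Rch ω x y) ≤
      PP D q β J Λ' (fun ω => ∃ A E, (lat D).Cls ω x A E ∧ (A ⊆ B ∧ S ⊆ A)) +
        PP D q β J Λ' (fun ω => ∃ A E, (lat D).Cls ω x A E ∧ ¬ A ⊆ B) := by
    rw [gs_pr]
    refine ((lat D).pr_le q (vJ β J) hq hv _ _ _ fun ω _ hA => ?_).trans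
      ((lat D).pr_or_le q (vJ β J) hq hv _ _ _)
    obtain ⟨A, E, hcl, hS⟩ := hA
    by_cases h3 : A ⊆ B
    · exact Or.inl ⟨A, E, hcl, h3, hS⟩
    · exact Or.inr ⟨A, E, hcl, h3⟩
  -- clusters leaving `B`
  have h3 : PP D q β J Λ' (fun ω => ∃ A E, (lat D).Cls ω x A E ∧ ¬ A ⊆ B) ≤ (ε : ℝ) / 2 := by
    have h4 : PP D q β J Λ' (fun ω => ∃ A E, (lat D).Cls ω x A E ∧ ¬ A ⊆ B) ≤
        ∑ y ∈ (lat D).vs (edg Λ') x \ B, (lat D).pr q (vJ β J) (edg Λ')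
          (fun ω => (lat D).Rch ω x y) := by
      refine (lat D).pr_sum q (vJ β J) hq hv _ _ _ _ fun ω hω hA => ?_
      obtain ⟨A, E, hcl, hAB⟩ := hA
      rw [Finset.not_subset] at hAB
      obtain ⟨y, hyA, hyB⟩ := hAB
      have h5 : (lat D).Rch ω x y := ((lat D).cls_iff hcl y).1 hyA
      exact ⟨y, Finset.mem_sdiff.2 ⟨(lat D).vs_mono hω x ((lat D).rch_vs h5), hyB⟩, h5⟩
    refine h4.trans (le_trans (Finset.sum_le_sum fun y _ => ?_)
      (hB ((lat D).vs (edg Λ') x \ B) Finset.sdiff_disjoint))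
    exact (TT_le_GG hb hJ0 Λ' x y).trans (hall J hJ hJ1 x y)
  -- clusters inside `B`
  have h4 : PP D q β J Λ' (fun ω => ∃ A E, (lat D).Cls ω x A E ∧ (A ⊆ B ∧ S ⊆ A)) ≤
      ∑ d ∈ K, WW D q β J d.1 d.2 * (ZI D q β J d.1 + (ε : ℝ) / 2 / (1 + W)) := by
    rw [gs_cls hb hJ0]
    have h0 : ∀ d : Pr D, 0 ≤ WW D q β J d.1 d.2 * (ZI D q β J d.1 + (ε : ℝ) / 2 / (1 + W)) :=
      fun d => mul_nonneg (gs_WW hb hJ0 d.1 d.2) (add_nonneg (ZI_nonneg hb hJ0 d.1) hε'.le)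
    refine gs_sum_sub _ K _ _ h0 fun d _ => ?_
    by_cases h6 : Q d
    · left
      have h8 : d.2 ⊆ edg B := by
        intro e he
        have h9 := h6.1.2.1 e he
        rw [csp_mem_edg]
        exact ⟨h6.2.2.1 h9.1, h6.2.2.1 h9.2⟩
      have h9 : d ∈ K := by
        rw [hK, Finset.mem_filter]
        exact ⟨Finset.mem_product.2 ⟨Finset.mem_powerset.2 h6.2.2.1,
          Finset.mem_powerset.2 h8⟩, h6⟩
      refine ⟨h9, ?_⟩
      rw [tm_pos h6]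
      exact mul_le_mul_of_nonneg_left (hN d.1 (Finset.mem_powerset.2 h6.2.2.1) Λ'
        Finset.subset_union_right) (gs_WW hb hJ0 d.1 d.2)
    · exact Or.inr (tm_neg h6)
  have h5 : ∑ d ∈ K, WW D q β J d.1 d.2 * (ZI D q β J d.1 + (ε : ℝ) / 2 / (1 + W)) ≤
      ∑ d ∈ K, WW D q β J d.1 d.2 * ZI D q β J d.1 + (ε : ℝ) / 2 := by
    have h6 : ∑ d ∈ K, WW D q β J d.1 d.2 * (ZI D q β J d.1 + (ε : ℝ) / 2 / (1 + W)) =
        ∑ d ∈ K, WW D q β J d.1 d.2 * ZI D q β J d.1 + W * ((ε : ℝ) / 2 / (1 + W)) := by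
      rw [hW, Finset.sum_mul, ← Finset.sum_add_distrib]
      exact Finset.sum_congr rfl fun d _ => by ring
    rw [h6]
    have h7 : W * ((ε : ℝ) / 2 / (1 + W)) ≤ (ε : ℝ) / 2 := by
      rw [mul_div_assoc', div_le_iff₀ (by linarith)]
      nlinarith
    linarith
  have h6 : PP D q β J Λ (fun ω => ∀ y ∈ S, (lat D).Rch ω x y) ≤
      ∑ d ∈ K, WW D q β J d.1 d.2 * ZI D q β J d.1 + (ε : ℝ) := by
    linarith
  have hr : 0 ≤ ∑ d ∈ K, WW D q β J d.1 d.2 * ZI D q β J d.1 :=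
    Finset.sum_nonneg fun d _ => mul_nonneg (gs_WW hb hJ0 d.1 d.2) (ZI_nonneg hb hJ0 d.1)
  refine (ENNReal.ofReal_le_ofReal h6).trans ?_
  rw [ENNReal.ofReal_add hr (NNReal.coe_nonneg ε), ENNReal.ofReal_coe_nnreal]
  refine add_le_add ?_ le_rfl
  rw [ENNReal.ofReal_sum_of_nonneg fun d _ =>
    mul_nonneg (gs_WW hb hJ0 d.1 d.2) (ZI_nonneg hb hJ0 d.1)]
  refine le_trans (le_of_eq ?_) (ENNReal.sum_le_tsum K)
  refine Finset.sum_congr rfl fun d hd => ?_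
  obtain ⟨_, h7, h8, h9⟩ := Finset.mem_filter.1 hd
  beta_reduce
  rw [WI_pos h7, ii_pos (show x ∈ d.1 ∧ S ⊆ d.1 from ⟨h8, h9.2⟩), mul_one]

theorem gs_le {J : ℝ} (h : Bas D q β) (hJ : 0 ≤ J) (x y : Site D) :
    sm D q β J (fun c => ii (x ∈ c.1 ∧ y ∈ c.1)) ≤ ENNReal.ofReal (GG D q β J x y) := by
  unfold sm
  refine ENNReal.summable.tsum_le_of_sum_le fun F => ?_
  obtain ⟨Λ, hΛ⟩ := gs_fin_le h hJ x {y} F
  have h1 : ∀ c : Pr D, ({y} : Finset (Site D)) ⊆ c.1 ↔ y ∈ c.1 :=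
    fun c => Finset.singleton_subset_iff
  simp only [h1, Finset.mem_singleton, forall_eq] at hΛ
  exact hΛ.trans (ENNReal.ofReal_le_ofReal (TT_le_GG h hJ Λ x y))

end GS

end Gs

open Gs

theorem three_le {D : ℕ} {q β J1 : ℝ} (h : Reg D q β J1) (J : ℝ) (hJ : 1 ≤ J) (hJ1 : J ≤ J1)
    (Λ : Finset (Site D)) (x y z : Site D) :
    ENNReal.ofReal (PP D q β J Λ fun ω => (lat D).Rch ω x y ∧ (lat D).Rch ω x z) ≤
      sm D q β J (fun c => ii (x ∈ c.1 ∧ y ∈ c.1 ∧ z ∈ c.1)) := by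
  have h1 := gs_ge h J hJ hJ1 Λ x {y, z}
  have h2 : ∀ c : Pr D, ({y, z} : Finset (Site D)) ⊆ c.1 ↔ (y ∈ c.1 ∧ z ∈ c.1) := by
    intro c
    rw [Finset.insert_subset_iff, Finset.singleton_subset_iff]
  simp only [h2, Finset.mem_insert, Finset.mem_singleton, forall_eq_or_imp, forall_eq] at h1
  exact h1

theorem sm_two {D : ℕ} {q β J1 : ℝ} (h : Reg D q β J1) (J : ℝ) (hJ : 1 ≤ J) (hJ1 : J ≤ J1)
    (x y : Site D) :
    sm D q β J (fun c => ii (x ∈ c.1 ∧ y ∈ c.1)) = ENNReal.ofReal (GG D q β J x y) := by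
  have hJ0 : (0 : ℝ) ≤ J := le_trans zero_le_one hJ
  have h1 := gs_le h.toBas hJ0 x y
  refine le_antisymm h1 ?_
  have hfin : sm D q β J (fun c => ii (x ∈ c.1 ∧ y ∈ c.1)) ≠ ⊤ :=
    ne_top_of_le_ne_top ENNReal.ofReal_ne_top h1
  rw [← ENNReal.ofReal_toReal hfin]
  refine ENNReal.ofReal_le_ofReal ?_
  unfold GG
  refine ciSup_le fun Λ => ?_
  rw [← ENNReal.ofReal_le_iff_le_toReal hfin]
  have h2 := gs_ge h J hJ hJ1 Λ x {y}
  have h3 : ∀ c : Pr D, ({y} : Finset (Site D)) ⊆ c.1 ↔ y ∈ c.1 :=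
    fun c => Finset.singleton_subset_iff
  simp only [h3, Finset.mem_singleton, forall_eq] at h2
  exact h2

theorem GN_eq {D : ℕ} {q β J1 : ℝ} (h : Reg D q β J1) (J : ℝ) (hJ : 1 ≤ J) (hJ1 : J ≤ J1)
    (n : ℕ) (u w : Tv D) : GN D q β J n u w = ENNReal.ofReal (GG D q β J (0, u) ((n : ℤ), w)) :=
  sm_two h J hJ hJ1 (0, u) ((n : ℤ), w)

theorem GN_le {D : ℕ} {q β J1 : ℝ} (h : Reg D q β J1) :
    ∃ C c : ℝ, 0 < C ∧ 0 < c ∧ ∀ J, 1 ≤ J → J ≤ J1 → ∀ (n : ℕ) (u w : Tv D),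
      GN D q β J n u w ≤ ex (xiR D q β J) n ∧
      GN D q β J n u w ≤ ENNReal.ofReal C * ex c n * ex c (SB.nt (u - w)) := by
  obtain ⟨C, c, hC, hc, hall⟩ := all_dir h
  refine ⟨C, c, hC, hc, fun J hJ hJ1 n u w => ⟨?_, ?_⟩⟩
  · rw [GN_eq h J hJ hJ1]
    unfold ex
    refine ENNReal.ofReal_le_ofReal ((pointwise h.toBas hJ _ _).trans (le_of_eq ?_))
    congr 3
    push_cast
    rw [zero_sub, abs_neg, abs_of_nonneg (Nat.cast_nonneg n)]
  · rw [GN_eq h J hJ hJ1]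
    unfold ex
    rw [← ENNReal.ofReal_mul hC.le, ← ENNReal.ofReal_mul (mul_nonneg hC.le (Real.exp_pos _).le),
      mul_assoc, ← Real.exp_add]
    refine ENNReal.ofReal_le_ofReal ((hall J hJ hJ1 _ _).trans (le_of_eq ?_))
    congr 2
    have h1 : SB.dist1 ((0, u) : Site D) ((n : ℤ), w) = n + SB.nt (u - w) := by
      unfold SB.dist1 SB.nt
      congr 1
      change (0 - (n : ℤ)).natAbs = n
      omega
    rw [h1]
    push_cast
    ring

end Pool.Agent.DL
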