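import Pool.Agent.DL.FKC

/-!
# Decoupling: removing vertices or changing weights changes isolation probabilities only by
connections
-/

set_option autoImplicit false
set_option linter.unusedSectionVars false

namespace Pool.Agent.DL

open Finset

namespace Gr

variable {V ι : Type} [DecidableEq V] [DecidableEq ι] (G : Gr V ι)

section D

variable (q : ℝ) (v v' : ι → ℝ)

theorem ze_anti_v (hq : 1 ≤ q) (hv : ∀ e, 0 ≤ v e) (h : ∀ e, v e ≤ v' e) (Ed : Finset ι)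
    (A : Finset V) : G.ze q v' Ed A ≤ G.ze q v Ed A := by
  have hq0 : 0 < q := by linarith
  have hv' : ∀ e, 0 ≤ v' e := fun e => (hv e).trans (h e)
  rw [ze_eq_one_sub G q v hq0 hv, ze_eq_one_sub G q v' hq0 hv']
  have := G.pr_mono_v q v v' hq hv h Ed _ (G.inc_tch A)
  linarith

/-- The main comparison: `e` is open with the bigger parameters at most with the probability for
the smaller ones and the probability that its end `b` is connected to the set `Z` which contains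
the changes. -/
theorem pr_open_le (hq : 1 ≤ q) (hv : ∀ e, 0 ≤ v e) (h : ∀ e, v e ≤ v' e) {Ed Ed' : Finset ι}
    (hE : Ed ⊆ Ed') (Z : Finset V)
    (hZ : ∀ f ∈ Ed', G.s f ∉ Z → G.t f ∉ Z → f ∈ Ed ∧ v f = v' f) (b : V) (e : ι)
    (hb : G.s e = b ∨ G.t e = b) :
    G.pr q v' Ed' (fun ω => e ∈ ω) ≤
      G.pr q v Ed (fun ω => e ∈ ω) + G.pr q v' Ed' (fun ω => ∃ z ∈ Z, G.Rch ω b z) := by
  classical
  have hq0 : 0 < q := by linarith
  have hv' : ∀ e, 0 ≤ v' e := fun e => (hv e).trans (h e)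
  rw [G.pr_add q v' Ed' (fun ω => e ∈ ω) (fun ω => ∃ z ∈ Z, G.Rch ω b z), add_comm]
  refine add_le_add ?_ (G.pr_le q v' hq0 hv' Ed' _ _ fun ω _ h' => h'.2)
  set T : Finset V → Finset ι → ℝ := fun A E =>
    if G.IsCl A E ∧ b ∈ A ∧ (E ⊆ Ed ∧ e ∈ E) then cw q v A E * G.ze q v Ed A else 0 with hT
  have hT0 : ∀ A E, 0 ≤ T A E := by
    intro A E
    simp only [hT]
    split_ifs with h1
    · rw [← G.pr_cl q v hq0 hv Ed h1.1 h1.2.2.1]
      exact G.pr_nonneg q v hq0 hv Ed _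
    · exact le_rfl
  have h2 : (∑ A ∈ (G.vs Ed' b).powerset, ∑ E ∈ Ed'.powerset, T A E) ≤
      G.pr q v Ed (fun ω => e ∈ ω) := by
    have h3 : (∑ A ∈ (G.vs Ed' b).powerset, ∑ E ∈ Ed'.powerset, T A E) =
        ∑ A ∈ (G.vs Ed b).powerset, ∑ E ∈ Ed.powerset, T A E := by
      symm
      have h4 : ∀ A, (∑ E ∈ Ed.powerset, T A E) = ∑ E ∈ Ed'.powerset, T A E := by
        intro A
        refine Finset.sum_subset (Finset.powerset_mono.2 hE) ?_
        intro E _ h5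
        rw [Finset.mem_powerset] at h5
        simp only [hT]
        rw [if_neg]
        rintro ⟨_, _, h6, _⟩
        exact h5 h6
      rw [Finset.sum_congr rfl fun A _ => h4 A]
      refine Finset.sum_subset (Finset.powerset_mono.2 (G.vs_mono hE b)) ?_
      intro A _ h5
      refine Finset.sum_eq_zero fun E _ => ?_
      simp only [hT]
      rw [if_neg]
      rintro ⟨h6, h7, h8, _⟩
      apply h5
      rw [Finset.mem_powerset]
      intro y hy
      exact G.vs_mono h8 b (G.rch_vs (h6.2.2 b h7 y hy))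
    rw [h3]
    refine le_trans (le_of_eq ?_) ((G.pr_eq_sum_cls q v hq0 hv Ed b (fun A E => E ⊆ Ed ∧
      e ∈ E)).symm.le.trans ?_)
    · refine Finset.sum_congr rfl fun A _ => Finset.sum_congr rfl fun E _ => ?_
      simp only [hT]
      congr
    · refine G.pr_le q v hq0 hv Ed _ _ ?_
      rintro ω _ ⟨A, E, h5, _, h6⟩
      rw [← h5.2.2, mem_tch] at h6
      exact h6.1
  refine le_trans ?_ h2
  rw [G.pr_sum_cls q v' Ed' b]
  refine Finset.sum_le_sum fun A _ => Finset.sum_le_sum fun E hE' => ?_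
  rw [Finset.mem_powerset] at hE'
  split_ifs with h3
  swap
  · exact hT0 A E
  obtain ⟨h3, h4⟩ := h3
  by_cases hAZ : ∃ z ∈ Z, z ∈ A
  · rw [G.pr_false]
    · exact hT0 A E
    · rintro ω _ ⟨h5, _, h6⟩
      obtain ⟨z, hz, hzA⟩ := hAZ
      exact h6 ⟨z, hz, (G.cls_iff ⟨h3, h4, h5⟩ z).1 hzA⟩
  have hN : ∀ x ∈ A, x ∉ Z := fun x hx hxZ => hAZ ⟨x, hxZ, hx⟩
  by_cases he : e ∈ E
  swap
  · rw [G.pr_false]
    · exact hT0 A E
    · rintro ω _ ⟨h5, h6, _⟩
      apply he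
      rw [← h5, mem_tch]
      refine ⟨h6, ?_⟩
      rcases hb with hb | hb
      · exact Or.inl (hb ▸ h4)
      · exact Or.inr (hb ▸ h4)
  have hEE : ∀ f ∈ E, f ∈ Ed ∧ v f = v' f := fun f hf =>
    hZ f (hE' hf) (hN _ (h3.2.1 f hf).1) (hN _ (h3.2.1 f hf).2)
  have hEd : E ⊆ Ed := fun f hf => (hEE f hf).1
  have h5 : T A E = cw q v A E * G.ze q v Ed A := by
    simp only [hT]
    rw [if_pos ⟨h3, h4, hEd, he⟩]
  rw [h5]
  have h6 : cw q v A E = cw q v' A E := by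
    unfold cw
    rw [Finset.prod_congr rfl fun f hf => (hEE f hf).2]
  calc G.pr q v' Ed' (fun ω => G.tch A ω = E ∧ e ∈ ω ∧ ¬ ∃ z ∈ Z, G.Rch ω b z)
      ≤ G.pr q v' Ed' (fun ω => G.tch A ω = E) :=
        G.pr_le q v' hq0 hv' Ed' _ _ fun ω _ h' => h'.1
    _ = cw q v' A E * G.ze q v' Ed' A := G.pr_cl q v' hq0 hv' Ed' h3 hE'
    _ ≤ cw q v A E * G.ze q v Ed A := by
        rw [h6]
        refine mul_le_mul_of_nonneg_left ?_ ?_
        · exact (G.ze_anti q v' hq hv' hE A).trans (G.ze_anti_v q v v' hq hv h Ed A)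
        · unfold cw
          exact mul_nonneg (Finset.prod_nonneg fun f _ => hv' f)
            (pow_nonneg (inv_nonneg.2 hq0.le) _)

/-- The probability that an edge is closed. -/
theorem pr_notMem (hq : 0 < q) (hv : ∀ e, 0 ≤ v e) (Ed : Finset ι) (e : ι) :
    G.pr q v Ed (fun ω => e ∉ ω) = G.zz q v (Ed \ {e}) / G.zz q v Ed := by
  have h := G.pr_closed q v hq hv Ed {e} (fun _ => True)
  rw [G.pr_true q v hq hv, mul_one] at h
  rw [← h]
  refine G.pr_congr q v Ed fun ω _ => ?_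
  simp

/-- One edge. -/
theorem zz_step (hq : 1 ≤ q) (vm : ℝ) (hv : ∀ e, 0 ≤ v e) (h : ∀ e, v e ≤ v' e)
    (hvm : ∀ e, v' e ≤ vm) {Ed Ed' : Finset ι} (hE : Ed ⊆ Ed') (Z : Finset V)
    (hZ : ∀ f ∈ Ed', G.s f ∉ Z → G.t f ∉ Z → f ∈ Ed ∧ v f = v' f) (b : V) (e : ι)
    (hb : G.s e = b ∨ G.t e = b) :
    G.zz q v (Ed \ {e}) / G.zz q v Ed ≤ G.zz q v' (Ed' \ {e}) / G.zz q v' Ed' *
      Real.exp ((1 + vm) * G.pr q v' Ed' (fun ω => ∃ z ∈ Z, G.Rch ω b z)) := by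
  have hq0 : 0 < q := by linarith
  have hv' : ∀ e, 0 ≤ v' e := fun e => (hv e).trans (h e)
  have hvm0 : 0 ≤ vm := (hv' e).trans (hvm e)
  set κ := G.pr q v' Ed' (fun ω => ∃ z ∈ Z, G.Rch ω b z) with hκ
  have hκ0 : 0 ≤ κ := G.pr_nonneg q v' hq0 hv' Ed' _
  rw [← G.pr_notMem q v hq0 hv, ← G.pr_notMem q v' hq0 hv']
  have h1 := G.pr_compl q v hq0 hv Ed (fun ω => e ∈ ω)
  have h2 := G.pr_compl q v' hq0 hv' Ed' (fun ω => e ∈ ω)
  have h3 := G.pr_open_le q v v' hq hv h hE Z hZ b e hb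
  have h4 := G.pr_closed_ge q v' hq hv' Ed' e
  have h5 : (1 + vm)⁻¹ ≤ G.pr q v' Ed' (fun ω => e ∉ ω) := by
    refine le_trans ?_ h4
    apply inv_anti₀
    · linarith [hv' e]
    · linarith [hvm e]
  set p := G.pr q v' Ed' (fun ω => e ∉ ω) with hp
  have h6 : κ ≤ p * ((1 + vm) * κ) := by
    have h7 : 1 ≤ p * (1 + vm) := by
      have := mul_le_mul_of_nonneg_right h5 (by linarith : 0 ≤ 1 + vm)
      rwa [inv_mul_cancel₀ (by linarith : (1 + vm) ≠ 0)] at this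
    calc κ = 1 * κ := (one_mul κ).symm
      _ ≤ (p * (1 + vm)) * κ := mul_le_mul_of_nonneg_right h7 hκ0
      _ = p * ((1 + vm) * κ) := by ring
  have hp0 : 0 ≤ p := G.pr_nonneg q v' hq0 hv' Ed' _
  have h8 : p * ((1 + vm) * κ + 1) ≤ p * Real.exp ((1 + vm) * κ) :=
    mul_le_mul_of_nonneg_left (Real.add_one_le_exp _) hp0
  have h9 : p * ((1 + vm) * κ + 1) = p * ((1 + vm) * κ) + p := by ring
  linarith

/-- Several edges at the same vertex. -/
theorem zz_steps (hq : 1 ≤ q) (vm : ℝ) (hv : ∀ e, 0 ≤ v e) (h : ∀ e, v e ≤ v' e)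
    (hvm : ∀ e, v' e ≤ vm) {Ed Ed' : Finset ι} (hE : Ed ⊆ Ed') (Z : Finset V)
    (hZ : ∀ f ∈ Ed', G.s f ∉ Z → G.t f ∉ Z → f ∈ Ed ∧ v f = v' f) (b : V) (F : Finset ι)
    (hb : ∀ e ∈ F, G.s e = b ∨ G.t e = b) :
    G.zz q v (Ed \ F) / G.zz q v Ed ≤ G.zz q v' (Ed' \ F) / G.zz q v' Ed' *
      Real.exp (F.card * ((1 + vm) * G.pr q v' Ed' (fun ω => ∃ z ∈ Z, G.Rch ω b z))) := by
  classical
  have hq0 : 0 < q := by linarith
  have hv' : ∀ e, 0 ≤ v' e := fun e => (hv e).trans (h e)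
  set κ := G.pr q v' Ed' (fun ω => ∃ z ∈ Z, G.Rch ω b z) with hκ
  have hκ0 : 0 ≤ κ := G.pr_nonneg q v' hq0 hv' Ed' _
  have hz := G.zz_pos q v hq0 hv
  have hz' := G.zz_pos q v' hq0 hv'
  induction F using Finset.induction_on with
  | empty =>
    simp only [Finset.sdiff_empty, Finset.card_empty, Nat.cast_zero, zero_mul, Real.exp_zero,
      mul_one]
    rw [div_self (hz Ed).ne', div_self (hz' Ed').ne']
  | insert e F he ih =>
    have ih' := ih fun f hf => hb f (Finset.mem_insert_of_mem hf)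
    have hvm0 : 0 ≤ vm := (hv' e).trans (hvm e)
    have e1 : Ed \ insert e F = (Ed \ F) \ {e} := by
      ext f
      simp only [Finset.mem_sdiff, Finset.mem_insert, Finset.mem_singleton]
      tauto
    have e2 : Ed' \ insert e F = (Ed' \ F) \ {e} := by
      ext f
      simp only [Finset.mem_sdiff, Finset.mem_insert, Finset.mem_singleton]
      tauto
    have hEF : Ed \ F ⊆ Ed' \ F := Finset.sdiff_subset_sdiff hE (Finset.Subset.refl F)
    have hZF : ∀ f ∈ Ed' \ F, G.s f ∉ Z → G.t f ∉ Z → f ∈ Ed \ F ∧ v f = v' f := by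
      intro f hf h1 h2
      rw [Finset.mem_sdiff] at hf
      obtain ⟨h3, h4⟩ := hZ f hf.1 h1 h2
      exact ⟨Finset.mem_sdiff.2 ⟨h3, hf.2⟩, h4⟩
    have h1 := G.zz_step q v v' hq vm hv h hvm hEF Z hZF b e
      (hb e (Finset.mem_insert_self _ _))
    have h2 : G.pr q v' (Ed' \ F) (fun ω => ∃ z ∈ Z, G.Rch ω b z) ≤ κ := by
      refine G.pr_mono_edges q v' hq hv' Finset.sdiff_subset _ ?_
      rintro a c hac ⟨z, hz, h3⟩
      exact ⟨z, hz, G.rch_mono hac h3⟩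
    have h3 : G.zz q v ((Ed \ F) \ {e}) / G.zz q v (Ed \ F) ≤
        G.zz q v' ((Ed' \ F) \ {e}) / G.zz q v' (Ed' \ F) * Real.exp ((1 + vm) * κ) := by
      refine h1.trans (mul_le_mul_of_nonneg_left ?_ (div_pos (hz' _) (hz' _)).le)
      exact Real.exp_le_exp.2 (mul_le_mul_of_nonneg_left h2 (by linarith))
    rw [e1, e2, Finset.card_insert_of_notMem he]
    have e3 : G.zz q v ((Ed \ F) \ {e}) / G.zz q v Ed =
        G.zz q v ((Ed \ F) \ {e}) / G.zz q v (Ed \ F) * (G.zz q v (Ed \ F) / G.zz q v Ed) := by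
      have := (hz (Ed \ F)).ne'
      have := (hz Ed).ne'
      field_simp
    have e4 : G.zz q v' ((Ed' \ F) \ {e}) / G.zz q v' Ed' =
        G.zz q v' ((Ed' \ F) \ {e}) / G.zz q v' (Ed' \ F) *
          (G.zz q v' (Ed' \ F) / G.zz q v' Ed') := by
      have := (hz' (Ed' \ F)).ne'
      have := (hz' Ed').ne'
      field_simp
    rw [e3, e4]
    refine (mul_le_mul h3 ih' (div_pos (hz _) (hz _)).le ?_).trans (le_of_eq ?_)
    · exact mul_nonneg (div_pos (hz' _) (hz' _)).le (Real.exp_pos _).le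
    · have e5 : Real.exp (((F.card + 1 : ℕ) : ℝ) * ((1 + vm) * κ)) =
          Real.exp ((1 + vm) * κ) * Real.exp (F.card * ((1 + vm) * κ)) := by
        rw [← Real.exp_add]
        congr 1
        push_cast
        ring
      rw [e5]
      ring

/-- The general decoupling estimate. -/
theorem ze_le_gen (hq : 1 ≤ q) (vm : ℝ) (Δ : ℕ) (hv : ∀ e, 0 ≤ v e) (h : ∀ e, v e ≤ v' e)
    (hvm : ∀ e, v' e ≤ vm) {Ed Ed' : Finset ι} (hE : Ed ⊆ Ed') (Z : Finset V)
    (hZ : ∀ f ∈ Ed', G.s f ∉ Z → G.t f ∉ Z → f ∈ Ed ∧ v f = v' f)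
    (hdeg : ∀ b, (G.tch {b} Ed').card ≤ Δ) (hvm0 : 0 ≤ vm) (A : Finset V) :
    G.ze q v Ed A ≤ G.ze q v' Ed' A *
      Real.exp (Δ * (1 + vm) * ∑ b ∈ A, G.pr q v' Ed' (fun ω => ∃ z ∈ Z, G.Rch ω b z)) := by
  classical
  have hq0 : 0 < q := by linarith
  have hv' : ∀ e, 0 ≤ v' e := fun e => (hv e).trans (h e)
  have hz := G.zz_pos q v hq0 hv
  have hz' := G.zz_pos q v' hq0 hv'
  set κ : V → ℝ := fun b => G.pr q v' Ed' (fun ω => ∃ z ∈ Z, G.Rch ω b z) with hκ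
  have hκ0 : ∀ b, 0 ≤ κ b := fun b => G.pr_nonneg q v' hq0 hv' Ed' _
  induction A using Finset.induction_on with
  | empty =>
    simp only [Finset.sum_empty, mul_zero, Real.exp_zero, mul_one]
    have h1 : ∀ X : Finset ι, G.del ∅ X = X := by
      intro X
      ext f
      simp [mem_del]
    unfold ze
    rw [h1, h1, div_self (hz Ed).ne', div_self (hz' Ed').ne']
  | insert b A hb ih =>
    have e1 : insert b A = A ∪ {b} := by
      rw [Finset.union_comm]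
      rfl
    rw [Finset.sum_insert hb, e1, G.ze_union_eq q v hq0 hv, G.ze_union_eq q v' hq0 hv']
    have hEA : G.del A Ed ⊆ G.del A Ed' := G.del_mono A hE
    have hZA : ∀ f ∈ G.del A Ed', G.s f ∉ Z → G.t f ∉ Z → f ∈ G.del A Ed ∧ v f = v' f := by
      intro f hf h1 h2
      rw [mem_del] at hf
      obtain ⟨h3, h4⟩ := hZ f hf.1 h1 h2
      exact ⟨G.mem_del.2 ⟨h3, hf.2⟩, h4⟩
    set F := G.tch {b} (G.del A Ed') with hF
    have hFb : ∀ e ∈ F, G.s e = b ∨ G.t e = b := by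
      intro e he
      rw [hF, mem_tch, Finset.mem_singleton, Finset.mem_singleton] at he
      exact he.2
    have h1 := G.zz_steps q v v' hq vm hv h hvm hEA Z hZA b F hFb
    have e2 : G.del A Ed \ F = G.del {b} (G.del A Ed) := by
      ext f
      rw [hF]
      simp only [Finset.mem_sdiff, mem_tch, mem_del, Finset.mem_singleton]
      constructor
      · rintro ⟨h2, h3⟩
        refine ⟨h2, ?_, ?_⟩
        · exact fun h4 => h3 ⟨⟨hE h2.1, h2.2⟩, Or.inl h4⟩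
        · exact fun h4 => h3 ⟨⟨hE h2.1, h2.2⟩, Or.inr h4⟩
      · rintro ⟨h2, h3, h4⟩
        refine ⟨h2, ?_⟩
        rintro ⟨_, h5 | h5⟩
        · exact h3 h5
        · exact h4 h5
    have e3 : G.del A Ed' \ F = G.del {b} (G.del A Ed') := by
      rw [hF, sdiff_tch]
    rw [e2, e3] at h1
    have hκ' : G.pr q v' (G.del A Ed') (fun ω => ∃ z ∈ Z, G.Rch ω b z) ≤ κ b := by
      refine G.pr_mono_edges q v' hq hv' (G.del_subset A Ed') _ ?_
      rintro a c hac ⟨z, hz, h3⟩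
      exact ⟨z, hz, G.rch_mono hac h3⟩
    have hFc : (F.card : ℝ) ≤ Δ := by
      have h2 : F.card ≤ (G.tch {b} Ed').card := by
        apply Finset.card_le_card
        intro e he
        rw [hF, mem_tch, mem_del] at he
        exact G.mem_tch.2 ⟨he.1.1, he.2⟩
      exact_mod_cast h2.trans (hdeg b)
    have h2 : G.ze q v (G.del A Ed) {b} ≤ G.ze q v' (G.del A Ed') {b} *
        Real.exp (Δ * (1 + vm) * κ b) := by
      refine h1.trans (mul_le_mul_of_nonneg_left ?_ (div_pos (hz' _) (hz' _)).le)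
      refine Real.exp_le_exp.2 ?_
      rw [mul_assoc]
      refine mul_le_mul hFc (mul_le_mul_of_nonneg_left hκ' (by linarith)) ?_ (Nat.cast_nonneg _)
      exact mul_nonneg (by linarith) (G.pr_nonneg q v' hq0 hv' _ _)
    refine (mul_le_mul ih h2 (G.ze_pos q v hq0 hv _ _).le ?_).trans (le_of_eq ?_)
    · exact mul_nonneg (G.ze_pos q v' hq0 hv' _ _).le (Real.exp_pos _).le
    · rw [mul_add (Δ * (1 + vm) : ℝ), Real.exp_add]
      ring

/-- Removing the vertices of `L` changes the isolation probability of `A` at most by the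
connections from `L` to `A`. -/
theorem ze_del_le [Nonempty ι] (hq : 1 ≤ q) (vm : ℝ) (Δ : ℕ) (hv : ∀ e, 0 ≤ v e) (hvm : ∀ e, v e ≤ vm)
    (Ed : Finset ι) (hdeg : ∀ b, (G.tch {b} Ed).card ≤ Δ) (L A : Finset V) :
    G.ze q v (G.del L Ed) A ≤ G.ze q v Ed A *
      Real.exp (Δ * (1 + vm + q) * ∑ a ∈ L, ∑ b ∈ A, G.tp q v Ed a b) := by
  classical
  have hq0 : 0 < q := by linarith
  have hvm0 : 0 ≤ vm := by
    obtain ⟨e⟩ := ‹Nonempty ι›
    exact (hv e).trans (hvm e)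
  have h1 := G.ze_le_gen q v v hq vm Δ hv (fun _ => le_rfl) hvm (G.del_subset L Ed) L
    (fun f hf h2 h3 => ⟨G.mem_del.2 ⟨hf, h2, h3⟩, rfl⟩) hdeg hvm0 A
  refine h1.trans (mul_le_mul_of_nonneg_left ?_ (G.ze_pos q v hq0 hv _ _).le)
  refine Real.exp_le_exp.2 ?_
  have h2 : ∀ b, G.pr q v Ed (fun ω => ∃ z ∈ L, G.Rch ω b z) ≤ ∑ a ∈ L, G.tp q v Ed a b := by
    intro b
    refine (G.pr_sum q v hq0 hv Ed _ L (fun a ω => G.Rch ω a b) ?_)
    rintro ω _ ⟨z, hz, h3⟩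
    exact ⟨z, hz, G.rch_symm h3⟩
  have h3 : (∑ b ∈ A, G.pr q v Ed (fun ω => ∃ z ∈ L, G.Rch ω b z)) ≤
      ∑ a ∈ L, ∑ b ∈ A, G.tp q v Ed a b := by
    rw [Finset.sum_comm]
    exact Finset.sum_le_sum fun b _ => h2 b
  refine mul_le_mul ?_ h3 (Finset.sum_nonneg fun b _ => G.pr_nonneg q v hq0 hv Ed _) ?_
  · exact mul_le_mul_of_nonneg_left (by linarith) (Nat.cast_nonneg _)
  · exact mul_nonneg (Nat.cast_nonneg _) (by linarith)

/-- Changing the weights on `S` changes the isolation probability of `A` at most by the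
connections from `S` to `A`. -/
theorem ze_le_of_eq_off [Nonempty ι] (hq : 1 ≤ q) (vm : ℝ) (Δ : ℕ) (hv : ∀ e, 0 ≤ v e)
    (h : ∀ e, v e ≤ v' e) (hvm : ∀ e, v' e ≤ vm) (Ed S : Finset ι)
    (hS : ∀ e ∈ Ed, e ∉ S → v e = v' e)
    (hdeg : ∀ b, (G.tch {b} Ed).card ≤ Δ) (A : Finset V) :
    G.ze q v Ed A ≤ G.ze q v' Ed A *
      Real.exp (Δ * (1 + vm + q) * ∑ e ∈ S, ∑ b ∈ A,
        (G.tp q v' Ed (G.s e) b + G.tp q v' Ed (G.t e) b)) := by
  classical
  have hq0 : 0 < q := by linarith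
  have hv' : ∀ e, 0 ≤ v' e := fun e => (hv e).trans (h e)
  have hvm0 : 0 ≤ vm := by
    obtain ⟨e⟩ := ‹Nonempty ι›
    exact (hv' e).trans (hvm e)
  have h1 := G.ze_le_gen q v v' hq vm Δ hv h hvm (Finset.Subset.refl Ed)
    (S.image G.s ∪ S.image G.t) (fun f hf h2 h3 => ⟨hf, hS f hf fun h4 => h2
      (Finset.mem_union_left _ (Finset.mem_image_of_mem _ h4))⟩) hdeg hvm0 A
  refine h1.trans (mul_le_mul_of_nonneg_left ?_ (G.ze_pos q v' hq0 hv' _ _).le)
  refine Real.exp_le_exp.2 ?_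
  have h2 : ∀ b, G.pr q v' Ed (fun ω => ∃ z ∈ S.image G.s ∪ S.image G.t, G.Rch ω b z) ≤
      ∑ e ∈ S, (G.tp q v' Ed (G.s e) b + G.tp q v' Ed (G.t e) b) := by
    intro b
    refine (G.pr_sum q v' hq0 hv' Ed _ S
      (fun e ω => G.Rch ω (G.s e) b ∨ G.Rch ω (G.t e) b) ?_).trans ?_
    · rintro ω _ ⟨z, hz, h3⟩
      rw [Finset.mem_union, Finset.mem_image, Finset.mem_image] at hz
      rcases hz with ⟨e, he, rfl⟩ | ⟨e, he, rfl⟩
      · exact ⟨e, he, Or.inl (G.rch_symm h3)⟩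
      · exact ⟨e, he, Or.inr (G.rch_symm h3)⟩
    · refine Finset.sum_le_sum fun e _ => ?_
      exact G.pr_or_le q v' hq0 hv' Ed (fun ω => G.Rch ω (G.s e) b) (fun ω => G.Rch ω (G.t e) b)
  have h3 : (∑ b ∈ A, G.pr q v' Ed (fun ω => ∃ z ∈ S.image G.s ∪ S.image G.t, G.Rch ω b z)) ≤
      ∑ e ∈ S, ∑ b ∈ A, (G.tp q v' Ed (G.s e) b + G.tp q v' Ed (G.t e) b) := by
    rw [Finset.sum_comm]
    exact Finset.sum_le_sum fun b _ => h2 b
  refine mul_le_mul ?_ h3 (Finset.sum_nonneg fun b _ => G.pr_nonneg q v' hq0 hv' Ed _) ?_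
  · exact mul_le_mul_of_nonneg_left (by linarith) (Nat.cast_nonneg _)
  · exact mul_nonneg (Nat.cast_nonneg _) (by linarith)

end D

end Gr

end Pool.Agent.DL
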