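import Pool.Agent.DL.Defs3
import Pool.Agent.DL.FKD
import Pool.Agent.DL.Csp
import Pool.Agent.DL.Pw
import Pool.Agent.DL.Ad

/-!
# Isolation probabilities in infinite volume
-/

set_option autoImplicit false
set_option linter.unusedSectionVars false

namespace Pool.Agent.DL

open Finset
open scoped ENNReal

namespace Inf

variable {D : ℕ} {q β J : ℝ}

theorem bdd (h : Bas D q β) (hJ : 0 ≤ J) (A : Finset (Site D)) :
    BddBelow (Set.range fun Λ : Finset (Site D) => ZZ D q β J Λ A) :=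
  ⟨0, by
    rintro _ ⟨Λ, rfl⟩
    exact ((lat D).ze_pos q _ (lt_of_lt_of_le one_pos h.hq)
      (fun e => vJ_nonneg h.hβ.le hJ e) _ _).le⟩

theorem ZZ_nonneg (h : Bas D q β) (hJ : 0 ≤ J) (Λ A : Finset (Site D)) :
    0 ≤ ZZ D q β J Λ A :=
  ((lat D).ze_pos q _ (lt_of_lt_of_le one_pos h.hq) (fun e => vJ_nonneg h.hβ.le hJ e) _ _).le

/-- Every finite set is contained in a box. -/
theorem exists_box (Λ : Finset (Site D)) : ∃ N : ℕ, Λ ⊆ SB.box D N := by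
  refine ⟨∑ x ∈ Λ, (x.1.natAbs + ∑ i, (x.2 i).natAbs), ?_⟩
  intro x hx
  have h1 : x.1.natAbs + ∑ i, (x.2 i).natAbs ≤ ∑ x ∈ Λ, (x.1.natAbs + ∑ i, (x.2 i).natAbs) :=
    single_le_sum (f := fun x : Site D => x.1.natAbs + ∑ i, (x.2 i).natAbs)
      (fun _ _ => Nat.zero_le _) hx
  set N := ∑ x ∈ Λ, (x.1.natAbs + ∑ i, (x.2 i).natAbs) with hN
  unfold SB.box
  rw [mem_product, Finset.mem_Icc, Finset.mem_Icc]
  have h2 : ∀ i, (x.2 i).natAbs ≤ N := by
    intro i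
    have h3 : (x.2 i).natAbs ≤ ∑ i, (x.2 i).natAbs :=
      single_le_sum (f := fun i => (x.2 i).natAbs) (fun _ _ => Nat.zero_le _) (mem_univ i)
    omega
  refine ⟨⟨by omega, by omega⟩, fun i => ?_, fun i => ?_⟩
  · have := h2 i
    change -(N : ℤ) ≤ x.2 i
    omega
  · have := h2 i
    change x.2 i ≤ (N : ℤ)
    omega

theorem vJ_mono {J' : ℝ} (hβ : 0 ≤ β) (hJJ : J ≤ J') (e : Edge D) : vJ β J e ≤ vJ β J' e := by
  unfold vJ
  split_ifs
  · have : Real.exp (β * J) ≤ Real.exp (β * J') :=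
      Real.exp_le_exp.2 (mul_le_mul_of_nonneg_left hJJ hβ)
    linarith
  · exact le_rfl

/-- A product inequality that holds up to every positive error. -/
theorem le_of_eps {x a b K : ℝ} (h : ∀ ε : ℝ, 0 < ε → x ≤ (a + ε) * (b + ε) * K) :
    x ≤ a * b * K := by
  have h1 : Filter.Tendsto (fun ε : ℝ => (a + ε) * (b + ε) * K) (nhdsWithin 0 (Set.Ioi 0))
      (nhds ((a + 0) * (b + 0) * K)) := by
    apply Filter.Tendsto.mono_left _ nhdsWithin_le_nhds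
    have h2 : Continuous fun ε : ℝ => (a + ε) * (b + ε) * K := by fun_prop
    exact h2.tendsto 0
  rw [add_zero, add_zero] at h1
  refine ge_of_tendsto h1 ?_
  filter_upwards [self_mem_nhdsWithin] with ε hε
  exact h ε hε

/-- The sum over the heights. -/
theorem sum_heights (c : ℝ) (hc : 0 < c) : ∃ K : ℝ, 0 < K ∧ ∀ (F : Finset ℤ) (k : ℤ),
    ∑ h ∈ F, Real.exp (-(c * ((h - k).natAbs : ℝ))) ≤ K := by
  have hs : Summable fun h : ℤ => Real.exp (-(c * (h.natAbs : ℝ))) := by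
    apply Summable.of_nat_of_neg
    · have h1 : ∀ n : ℕ, Real.exp (-(c * (((n : ℤ)).natAbs : ℝ))) = Real.exp (-c) ^ n := by
        intro n
        rw [← Real.exp_nat_mul, Int.natAbs_natCast]
        congr 1
        ring
      simp only [h1]
      exact summable_geometric_of_lt_one (Real.exp_pos _).le ((Real.exp_lt_exp.2 (by linarith : -c < 0)).trans_eq Real.exp_zero)
    · have h1 : ∀ n : ℕ, Real.exp (-(c * (((-(n : ℤ))).natAbs : ℝ))) = Real.exp (-c) ^ n := by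
        intro n
        rw [← Real.exp_nat_mul, Int.natAbs_neg, Int.natAbs_natCast]
        congr 1
        ring
      simp only [h1]
      exact summable_geometric_of_lt_one (Real.exp_pos _).le ((Real.exp_lt_exp.2 (by linarith : -c < 0)).trans_eq Real.exp_zero)
  refine ⟨∑' h : ℤ, Real.exp (-(c * (h.natAbs : ℝ))), ?_, ?_⟩
  · exact hs.tsum_pos (fun _ => (Real.exp_pos _).le) 0 (Real.exp_pos _)
  · intro F k
    have h1 : ∑ h ∈ F, Real.exp (-(c * ((h - k).natAbs : ℝ))) =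
        ∑ h ∈ F.image (fun h => h - k), Real.exp (-(c * (h.natAbs : ℝ))) := by
      rw [sum_image]
      intro a _ b _ hab
      have : a - k = b - k := hab
      omega
    rw [h1]
    exact hs.sum_le_tsum _ fun _ _ => (Real.exp_pos _).le

end Inf

open Inf

theorem ZI_nonneg {D : ℕ} {q β J : ℝ} (h : Bas D q β) (hJ : 0 ≤ J) (A : Finset (Site D)) :
    0 ≤ ZI D q β J A :=
  Real.iInf_nonneg fun Λ => ZZ_nonneg h hJ Λ A

theorem ZI_le {D : ℕ} {q β J : ℝ} (h : Bas D q β) (hJ : 0 ≤ J) (Λ A : Finset (Site D)) :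
    ZI D q β J A ≤ ZZ D q β J Λ A :=
  ciInf_le (bdd h hJ A) Λ

theorem ZI_le_one {D : ℕ} {q β J : ℝ} (h : Bas D q β) (hJ : 0 ≤ J) (A : Finset (Site D)) :
    ZI D q β J A ≤ 1 :=
  (ZI_le h hJ ∅ A).trans ((lat D).ze_le_one q _ (lt_of_lt_of_le one_pos h.hq)
    (fun e => vJ_nonneg h.hβ.le hJ e) _ _)

theorem ZI_lim {D : ℕ} {q β J : ℝ} (h : Bas D q β) (hJ : 0 ≤ J) (A : Finset (Site D)) (ε : ℝ)
    (hε : 0 < ε) : ∃ N : ℕ, ∀ Λ, SB.box D N ⊆ Λ → ZZ D q β J Λ A ≤ ZI D q β J A + ε := by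
  obtain ⟨Λ0, h0⟩ := exists_lt_of_ciInf_lt
    (show (⨅ Λ : Finset (Site D), ZZ D q β J Λ A) < ZI D q β J A + ε by
      change ZI D q β J A < _
      linarith)
  obtain ⟨N, hN⟩ := exists_box Λ0
  exact ⟨N, fun Λ hΛ => (ZZ_anti h hJ (hN.trans hΛ) A).trans h0.le⟩

theorem ZI_ge {D : ℕ} {q β J Jm : ℝ} (h : Bas D q β) (hJ : 0 ≤ J) (hJm : J ≤ Jm) (h1 : 1 ≤ Jm)
    (A : Finset (Site D)) : (Real.exp (β * Jm) ^ (2 * (D + 1) * A.card))⁻¹ ≤ ZI D q β J A := by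
  have hβ := h.hβ
  apply le_ciInf
  intro Λ
  have h2 := (lat D).ze_ge q (vJ β J) h.hq (Real.exp (β * Jm) - 1)
    (fun e => vJ_nonneg hβ.le hJ e) (fun e => vJ_le hβ.le hJm h1 e) (edg Λ) A
  refine le_trans ?_ h2
  rw [add_sub_cancel]
  have h3 : 1 ≤ Real.exp (β * Jm) := Real.one_le_exp (by positivity)
  exact inv_anti₀ (by positivity) (pow_le_pow_right₀ h3 (card_tch A Λ))

theorem ZI_anti {D : ℕ} {q β J : ℝ} (h : Bas D q β) (hJ : 0 ≤ J) {A B : Finset (Site D)}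
    (hAB : A ⊆ B) : ZI D q β J B ≤ ZI D q β J A := by
  have hq0 := lt_of_lt_of_le one_pos h.hq
  have hv := fun e : Edge D => vJ_nonneg h.hβ.le hJ e
  apply ciInf_mono (bdd h hJ B)
  intro Λ
  change (lat D).ze q (vJ β J) (edg Λ) B ≤ (lat D).ze q (vJ β J) (edg Λ) A
  rw [← union_eq_right.2 hAB, (lat D).ze_union_eq q _ hq0 hv]
  exact mul_le_of_le_one_right ((lat D).ze_pos q _ hq0 hv _ _).le
    ((lat D).ze_le_one q _ hq0 hv _ _)

theorem ZI_anti_J {D : ℕ} {q β J J' : ℝ} (h : Bas D q β) (hJ : 0 ≤ J) (hJJ : J ≤ J')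
    (A : Finset (Site D)) : ZI D q β J' A ≤ ZI D q β J A := by
  apply ciInf_mono (bdd h (hJ.trans hJJ) A)
  intro Λ
  exact (lat D).ze_anti_v q (vJ β J) (vJ β J') h.hq (fun e => vJ_nonneg h.hβ.le hJ e)
    (fun e => vJ_mono h.hβ.le hJJ e) (edg Λ) A

theorem ZI_mul_le {D : ℕ} {q β J : ℝ} (h : Bas D q β) (hJ : 0 ≤ J) (A B : Finset (Site D)) :
    ZI D q β J A * ZI D q β J B ≤ ZI D q β J (A ∪ B) := by
  apply le_ciInf
  intro Λ
  refine (mul_le_mul (ZI_le h hJ Λ A) (ZI_le h hJ Λ B) (ZI_nonneg h hJ B)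
    (ZZ_nonneg h hJ Λ A)).trans ?_
  exact (lat D).ze_mul_le q _ h.hq (fun e => vJ_nonneg h.hβ.le hJ e) (edg Λ) A B

theorem ZI_union_le {D : ℕ} {q β J1 : ℝ} (h : Reg D q β J1) :
    ∃ C : ℝ, 0 < C ∧ ∀ J, 1 ≤ J → J ≤ J1 → ∀ A B : Finset (Site D),
      ZI D q β J (A ∪ B) ≤ ZI D q β J A * ZI D q β J B *
        Real.exp (C * ∑ a ∈ A, ∑ b ∈ B, GG D q β J a b) := by
  have hb : Bas D q β := h.toBas
  have hβ := hb.hβ
  have hq := hb.hq
  have hq0 : 0 < q := lt_of_lt_of_le one_pos hq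
  have hJ1 := h.hJ
  refine ⟨((2 * (D + 1) : ℕ) : ℝ) * (1 + (Real.exp (β * J1) - 1) + q), ?_, ?_⟩
  · have h1 : 0 < Real.exp (β * J1) := Real.exp_pos _
    have h2 : (0 : ℝ) < ((2 * (D + 1) : ℕ) : ℝ) := by positivity
    have h3 : 0 < 1 + (Real.exp (β * J1) - 1) + q := by linarith
    positivity
  intro J hJ hJJ A B
  have hJ0 : 0 ≤ J := by linarith
  have hv := fun e : Edge D => vJ_nonneg hβ.le hJ0 e
  apply le_of_eps
  intro ε hε
  obtain ⟨N1, hN1⟩ := ZI_lim hb hJ0 A ε hε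
  obtain ⟨N2, hN2⟩ := ZI_lim hb hJ0 B ε hε
  set Λ : Finset (Site D) := SB.box D N1 ∪ SB.box D N2 with hΛ
  have h1 := hN1 Λ subset_union_left
  have h2 := hN2 Λ subset_union_right
  have h3 := (lat D).ze_del_le q (vJ β J) hq (Real.exp (β * J1) - 1) (2 * (D + 1)) hv
    (fun e => vJ_le hβ.le hJJ hJ1 e) (edg Λ)
    (fun b => by
      have := card_tch {b} Λ
      rwa [card_singleton, mul_one] at this) A B
  have h4 : ∑ a ∈ A, ∑ b ∈ B, (lat D).tp q (vJ β J) (edg Λ) a b ≤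
      ∑ a ∈ A, ∑ b ∈ B, GG D q β J a b :=
    sum_le_sum fun a _ => sum_le_sum fun b _ => TT_le_GG hb hJ0 Λ a b
  have hC : 0 ≤ ((2 * (D + 1) : ℕ) : ℝ) * (1 + (Real.exp (β * J1) - 1) + q) := by
    have h1 : 0 < Real.exp (β * J1) := Real.exp_pos _
    have h3 : 0 < 1 + (Real.exp (β * J1) - 1) + q := by linarith
    positivity
  have h5 : Real.exp (((2 * (D + 1) : ℕ) : ℝ) * (1 + (Real.exp (β * J1) - 1) + q) *
      ∑ a ∈ A, ∑ b ∈ B, (lat D).tp q (vJ β J) (edg Λ) a b) ≤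
      Real.exp (((2 * (D + 1) : ℕ) : ℝ) * (1 + (Real.exp (β * J1) - 1) + q) *
        ∑ a ∈ A, ∑ b ∈ B, GG D q β J a b) :=
    Real.exp_le_exp.2 (mul_le_mul_of_nonneg_left h4 hC)
  have hA0 := ZZ_nonneg hb hJ0 Λ A
  have hB0 := ZZ_nonneg hb hJ0 Λ B
  calc ZI D q β J (A ∪ B) ≤ ZZ D q β J Λ (A ∪ B) := ZI_le hb hJ0 Λ _
    _ = ZZ D q β J Λ A * (lat D).ze q (vJ β J) ((lat D).del A (edg Λ)) B :=
        (lat D).ze_union_eq q _ hq0 hv (edg Λ) A B
    _ ≤ ZZ D q β J Λ A * (ZZ D q β J Λ B * Real.exp (((2 * (D + 1) : ℕ) : ℝ) *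
          (1 + (Real.exp (β * J1) - 1) + q) *
          ∑ a ∈ A, ∑ b ∈ B, (lat D).tp q (vJ β J) (edg Λ) a b)) :=
        mul_le_mul_of_nonneg_left h3 hA0
    _ ≤ ZZ D q β J Λ A * (ZZ D q β J Λ B * Real.exp (((2 * (D + 1) : ℕ) : ℝ) *
          (1 + (Real.exp (β * J1) - 1) + q) * ∑ a ∈ A, ∑ b ∈ B, GG D q β J a b)) :=
        mul_le_mul_of_nonneg_left (mul_le_mul_of_nonneg_left h5 hB0) hA0
    _ = ZZ D q β J Λ A * ZZ D q β J Λ B * Real.exp (((2 * (D + 1) : ℕ) : ℝ) *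
          (1 + (Real.exp (β * J1) - 1) + q) * ∑ a ∈ A, ∑ b ∈ B, GG D q β J a b) := by ring
    _ ≤ _ := mul_le_mul_of_nonneg_right (mul_le_mul h1 h2 hB0 (hA0.trans h1))
        (Real.exp_pos _).le

namespace Inf

theorem dist1_line {D : ℕ} (k : ℤ) (b : Site D) :
    SB.dist1 ((k, 0) : Site D) b = (k - b.1).natAbs + SB.nt b.2 := by
  unfold SB.dist1 SB.nt
  congr 1
  apply sum_congr rfl
  intro i _
  simp

/-- The connections of the line edges with a site. -/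
theorem line_sum {D : ℕ} {q β J : ℝ} (C c K : ℝ) (hC : 0 < C)
    (hK : ∀ (F : Finset ℤ) (k : ℤ), ∑ h ∈ F, Real.exp (-(c * ((h - k).natAbs : ℝ))) ≤ K)
    (hG : ∀ x y : Site D, GG D q β J x y ≤ C * Real.exp (-(c * SB.dist1 x y)))
    (hb : Bas D q β) (hJ : 0 ≤ J) (Λ : Finset (Site D)) (S : Finset (Edge D))
    (hS : ∀ e ∈ S, OnL e) (b : Site D) :
    ∑ e ∈ S, (TT D q β J Λ ((lat D).s e) b + TT D q β J Λ ((lat D).t e) b) ≤
      2 * C * K * Real.exp (-(c * SB.nt b.2)) := by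
  have h1 : ∀ k : ℤ, TT D q β J Λ (k, 0) b ≤
      C * Real.exp (-(c * SB.nt b.2)) * Real.exp (-(c * ((k - b.1).natAbs : ℝ))) := by
    intro k
    refine (TT_le_GG hb hJ Λ _ b).trans ((hG _ b).trans ?_)
    rw [dist1_line, mul_assoc, ← Real.exp_add]
    apply le_of_eq
    congr 2
    push_cast
    ring
  have hinj : Set.InjOn (fun e : Edge D => e.1.1) (S : Set (Edge D)) := by
    intro e he e' he' hee
    have h2 := hS e he
    have h3 := hS e' he'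
    unfold OnL at h2 h3
    refine Prod.ext (Prod.ext hee (by rw [h2.2, h3.2])) (by rw [h2.1, h3.1])
  have hs : ∀ e ∈ S, (lat D).s e = (e.1.1, 0) := by
    intro e he
    have h2 := hS e he
    exact Prod.ext rfl h2.2
  have ht : ∀ e ∈ S, (lat D).t e = (e.1.1 + 1, 0) := by
    intro e he
    have h2 := hS e he
    unfold OnL at h2
    change e.1 + SB.dir (e.2, true) = _
    rw [h2.1]
    refine Prod.ext rfl ?_
    change e.1.2 + 0 = 0
    rw [h2.2, add_zero]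
  have h4 : ∀ d : ℤ, ∑ e ∈ S, TT D q β J Λ (e.1.1 + d, 0) b ≤
      C * Real.exp (-(c * SB.nt b.2)) * K := by
    intro d
    calc ∑ e ∈ S, TT D q β J Λ (e.1.1 + d, 0) b ≤ ∑ e ∈ S, C * Real.exp (-(c * SB.nt b.2)) *
          Real.exp (-(c * ((e.1.1 - (b.1 - d)).natAbs : ℝ))) := by
          apply sum_le_sum
          intro e _
          have := h1 (e.1.1 + d)
          rwa [show e.1.1 + d - b.1 = e.1.1 - (b.1 - d) by ring] at this
      _ = C * Real.exp (-(c * SB.nt b.2)) *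
          ∑ k ∈ S.image (fun e : Edge D => e.1.1), Real.exp (-(c * ((k - (b.1 - d)).natAbs : ℝ))) := by
          rw [sum_image hinj, mul_sum]
      _ ≤ _ := mul_le_mul_of_nonneg_left (hK _ _) (by positivity)
  rw [sum_add_distrib]
  have h5 := h4 0
  have h6 := h4 1
  have h7 : ∑ e ∈ S, TT D q β J Λ ((lat D).s e) b = ∑ e ∈ S, TT D q β J Λ (e.1.1 + 0, 0) b :=
    sum_congr rfl fun e he => by rw [hs e he, add_zero]
  have h8 : ∑ e ∈ S, TT D q β J Λ ((lat D).t e) b = ∑ e ∈ S, TT D q β J Λ (e.1.1 + 1, 0) b :=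
    sum_congr rfl fun e he => by rw [ht e he]
  rw [h7, h8]
  linarith

end Inf

theorem ZI_occ {D : ℕ} {q β J1 : ℝ} (h : Reg D q β J1) :
    ∃ C c : ℝ, 0 < C ∧ 0 < c ∧ ∀ J, 1 ≤ J → J ≤ J1 → ∀ A : Finset (Site D),
      ZI D q β 1 A ≤ ZI D q β J A * Real.exp (C * occ c A) := by
  classical
  have hb : Bas D q β := h.toBas
  have hβ := hb.hβ
  have hq := hb.hq
  have hq0 : 0 < q := lt_of_lt_of_le one_pos hq
  have hJ1 := h.hJ
  obtain ⟨C, c, hC, hc, hG⟩ := all_dir h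
  obtain ⟨K, hK0, hK⟩ := Inf.sum_heights c hc
  have hcon : 0 < ((2 * (D + 1) : ℕ) : ℝ) * (1 + (Real.exp (β * J1) - 1) + q) := by
    have h1 : 0 < Real.exp (β * J1) := Real.exp_pos _
    have h2 : (0 : ℝ) < ((2 * (D + 1) : ℕ) : ℝ) := by positivity
    have h3 : 0 < 1 + (Real.exp (β * J1) - 1) + q := by linarith
    positivity
  refine ⟨((2 * (D + 1) : ℕ) : ℝ) * (1 + (Real.exp (β * J1) - 1) + q) * (2 * C * K), c,
    by positivity, hc, ?_⟩
  intro J hJ hJJ A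
  have hJ0 : 0 ≤ J := by linarith
  have h01 : (0 : ℝ) ≤ 1 := zero_le_one
  have hv1 := fun e : Edge D => vJ_nonneg (J := 1) hβ.le h01 e
  have key : ∀ ε : ℝ, 0 < ε → ZI D q β 1 A ≤ (ZI D q β J A + ε) * (1 + ε) * Real.exp
      (((2 * (D + 1) : ℕ) : ℝ) * (1 + (Real.exp (β * J1) - 1) + q) * (2 * C * K) * occ c A) := by
    intro ε hε
    obtain ⟨N, hN⟩ := ZI_lim hb hJ0 A ε hε
    set Λ : Finset (Site D) := SB.box D N with hΛ
    have h1 := hN Λ subset_rfl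
    have h3 := (lat D).ze_le_of_eq_off q (vJ β 1) (vJ β J) hq (Real.exp (β * J1) - 1)
      (2 * (D + 1)) hv1 (fun e => vJ_mono hβ.le hJ e) (fun e => vJ_le hβ.le hJJ hJ1 e) (edg Λ)
      ((edg Λ).filter OnL)
      (fun e he hne => by
        have h4 : ¬ OnL e := fun h5 => hne (mem_filter.2 ⟨he, h5⟩)
        unfold vJ
        rw [if_neg h4, if_neg h4])
      (fun b => by
        have := card_tch {b} Λ
        rwa [card_singleton, mul_one] at this) A
    have h4 : ∑ e ∈ (edg Λ).filter OnL, ∑ b ∈ A,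
        ((lat D).tp q (vJ β J) (edg Λ) ((lat D).s e) b +
          (lat D).tp q (vJ β J) (edg Λ) ((lat D).t e) b) ≤ 2 * C * K * occ c A := by
      rw [sum_comm]
      unfold occ
      rw [mul_sum]
      apply sum_le_sum
      intro b _
      exact Inf.line_sum C c K hC hK (hG J hJ hJJ) hb hJ0 Λ _
        (fun e he => (mem_filter.1 he).2) b
    have h5 : Real.exp (((2 * (D + 1) : ℕ) : ℝ) * (1 + (Real.exp (β * J1) - 1) + q) *
        ∑ e ∈ (edg Λ).filter OnL, ∑ b ∈ A,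
        ((lat D).tp q (vJ β J) (edg Λ) ((lat D).s e) b +
          (lat D).tp q (vJ β J) (edg Λ) ((lat D).t e) b)) ≤
        Real.exp (((2 * (D + 1) : ℕ) : ℝ) * (1 + (Real.exp (β * J1) - 1) + q) *
          (2 * C * K) * occ c A) := by
      apply Real.exp_le_exp.2
      rw [mul_assoc (((2 * (D + 1) : ℕ) : ℝ) * (1 + (Real.exp (β * J1) - 1) + q))]
      exact mul_le_mul_of_nonneg_left h4 hcon.le
    have hA0 := ZZ_nonneg hb hJ0 Λ A
    calc ZI D q β 1 A ≤ ZZ D q β 1 Λ A := ZI_le hb h01 Λ _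
      _ ≤ ZZ D q β J Λ A * Real.exp (((2 * (D + 1) : ℕ) : ℝ) *
          (1 + (Real.exp (β * J1) - 1) + q) * ∑ e ∈ (edg Λ).filter OnL, ∑ b ∈ A,
          ((lat D).tp q (vJ β J) (edg Λ) ((lat D).s e) b +
            (lat D).tp q (vJ β J) (edg Λ) ((lat D).t e) b)) := h3
      _ ≤ ZZ D q β J Λ A * Real.exp (((2 * (D + 1) : ℕ) : ℝ) *
          (1 + (Real.exp (β * J1) - 1) + q) * (2 * C * K) * occ c A) :=
          mul_le_mul_of_nonneg_left h5 hA0
      _ ≤ (ZI D q β J A + ε) * (1 + ε) * Real.exp (((2 * (D + 1) : ℕ) : ℝ) *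
          (1 + (Real.exp (β * J1) - 1) + q) * (2 * C * K) * occ c A) := by
          apply mul_le_mul_of_nonneg_right _ (Real.exp_pos _).le
          have h6 := hA0.trans h1
          nlinarith
  have h7 := le_of_eps key
  rwa [mul_one] at h7

/-- Clusters off the line are less likely with the defect. -/
theorem WI_off {D : ℕ} {q β J : ℝ} (h : Bas D q β) (hJ : 1 ≤ J) (c : Pr D)
    (hc : ∀ x ∈ c.1, x.2 ≠ 0) : WI D q β J c ≤ WI D q β 1 c := by
  unfold WI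
  split_ifs with hcl
  · apply ENNReal.ofReal_le_ofReal
    have h1 : WW D q β J c.1 c.2 = WW D q β 1 c.1 c.2 := by
      unfold WW Gr.cw
      congr 1
      apply prod_congr rfl
      intro e he
      have h2 : ¬ OnL e := by
        intro h3
        exact hc _ (hcl.2.1 e he).1 h3.2
      unfold vJ
      rw [if_neg h2, if_neg h2]
    rw [h1]
    apply mul_le_mul_of_nonneg_left (ZI_anti_J h zero_le_one hJ _)
    unfold WW Gr.cw
    exact mul_nonneg (prod_nonneg fun e _ => vJ_nonneg h.hβ.le zero_le_one e)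
      (pow_nonneg (inv_nonneg.2 (zero_le_one.trans h.hq)) _)
  · exact le_rfl

theorem WI_occ {D : ℕ} {q β J1 : ℝ} (h : Reg D q β J1) :
    ∃ C c : ℝ, 0 < C ∧ 0 < c ∧ ∀ J, 1 ≤ J → J ≤ J1 → ∀ c' : Pr D,
      WI D q β 1 c' ≤ ENNReal.ofReal (Real.exp (C * occ c c'.1)) * WI D q β J c' := by
  obtain ⟨C, c, hC, hc, hZ⟩ := ZI_occ h
  refine ⟨C, c, hC, hc, ?_⟩
  intro J hJ hJJ c'
  have hb : Bas D q β := h.toBas
  have hqi : 0 ≤ q⁻¹ := inv_nonneg.2 (zero_le_one.trans hb.hq)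
  unfold WI
  split_ifs with hcl
  · rw [← ENNReal.ofReal_mul (Real.exp_pos _).le]
    apply ENNReal.ofReal_le_ofReal
    have h1 : WW D q β 1 c'.1 c'.2 ≤ WW D q β J c'.1 c'.2 := by
      unfold WW Gr.cw
      apply mul_le_mul_of_nonneg_right _ (pow_nonneg hqi _)
      exact prod_le_prod (fun e _ => vJ_nonneg hb.hβ.le zero_le_one e)
        fun e _ => vJ_mono hb.hβ.le hJ e
    have h2 := hZ J hJ hJJ c'.1
    have h3 : 0 ≤ WW D q β J c'.1 c'.2 := by
      unfold WW Gr.cw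
      exact mul_nonneg (prod_nonneg fun e _ => vJ_nonneg hb.hβ.le (by linarith) e)
        (pow_nonneg hqi _)
    calc WW D q β 1 c'.1 c'.2 * ZI D q β 1 c'.1 ≤
          WW D q β J c'.1 c'.2 * (ZI D q β J c'.1 * Real.exp (C * occ c c'.1)) :=
          mul_le_mul h1 h2 (ZI_nonneg hb zero_le_one _) h3
      _ = _ := by ring
  · simp

end Pool.Agent.DL
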