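import Pool.Agent.DL.Dec
import Pool.Agent.DL.Inf

/-!
# The defect line for all subcritical temperatures: decomposition at the last site of the line
-/

set_option autoImplicit false
set_option linter.unusedSectionVars false

namespace Pool.Agent.DL

open Finset
open scoped ENNReal

namespace Last

theorem ii_true {p : Prop} (h : p) : ii p = 1 := by
  unfold ii; rw [if_pos h]

theorem ii_false {p : Prop} (h : ¬ p) : ii p = 0 := by
  unfold ii; rw [if_neg h]

theorem ii_le_one (p : Prop) : ii p ≤ 1 := by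
  unfold ii; split_ifs <;> simp

/-- No site of the line. -/
noncomputable def off {D : ℕ} (c : Pr D) : ℝ≥0∞ := ii (∀ x ∈ c.1, x.2 ≠ 0)

/-- `x` is a highest site of the line. -/
noncomputable def top {D : ℕ} (c : Pr D) (x : Site D) : ℝ≥0∞ :=
  ii (x.2 = 0 ∧ ∀ y ∈ c.1, y.2 = 0 → y.1 ≤ x.1)

theorem one_le_off {D : ℕ} (c : Pr D) : 1 ≤ off c + ∑ x ∈ c.1, top c x := by
  by_cases hc : ∀ x ∈ c.1, x.2 ≠ 0
  · rw [off, ii_true hc]
    exact le_self_add
  · push Not at hc
    obtain ⟨x0, hx0, hx0'⟩ := hc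
    have hne : (c.1.filter fun x => x.2 = 0).Nonempty :=
      ⟨x0, Finset.mem_filter.mpr ⟨hx0, hx0'⟩⟩
    obtain ⟨x, hx, hmax⟩ := Finset.exists_max_image _ (fun x : Site D => x.1) hne
    rw [Finset.mem_filter] at hx
    have h1 : top c x = 1 := by
      apply ii_true
      refine ⟨hx.2, fun y hy hy2 => ?_⟩
      exact hmax y (Finset.mem_filter.mpr ⟨hy, hy2⟩)
    calc (1 : ℝ≥0∞) = top c x := h1.symm
      _ ≤ ∑ x ∈ c.1, top c x := Finset.single_le_sum (fun _ _ => bot_le) hx.1
      _ ≤ _ := le_add_self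

theorem off_sh {D : ℕ} (k : ℤ) (c : Pr D) : off (sh k c) = off c := by
  unfold off sh
  congr 1
  simp only [Finset.mem_image, eq_iff_iff]
  constructor
  · intro h x hx
    exact h (x.1 + k, x.2) ⟨x, hx, rfl⟩
  · rintro h x ⟨x', hx', rfl⟩
    exact h x' hx'

theorem SF_off {D : ℕ} {q β J : ℝ} (h : Bas D q β) (hJ : 1 ≤ J) (z : ℝ≥0∞) (L : ℕ)
    (u w : Tv D) : SF D q β J z L off u w ≤ SG D q β 1 z L u w := by
  unfold SF SG GN sm
  apply Finset.sum_le_sum
  intro n _
  refine mul_le_mul' le_rfl (ENNReal.tsum_le_tsum fun c => ?_)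
  show WI D q β J c * (ii (((0, u) : Site D) ∈ c.1 ∧ (((n : ℤ), w) : Site D) ∈ c.1) * off c) ≤
    WI D q β 1 c * ii (((0, u) : Site D) ∈ c.1 ∧ (((n : ℤ), w) : Site D) ∈ c.1)
  by_cases hc : ∀ x ∈ c.1, x.2 ≠ 0
  · have h1 : off c = 1 := ii_true hc
    rw [h1, mul_one]
    exact mul_le_mul' (WI_off h hJ c hc) le_rfl
  · have h1 : off c = 0 := ii_false hc
    rw [h1, mul_zero, mul_zero]
    exact bot_le

theorem SF_one {D : ℕ} {q β J : ℝ} (z : ℝ≥0∞) (L : ℕ) (u w : Tv D) :
    SF D q β J z L (fun _ => 1) u w = SG D q β J z L u w := by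
  unfold SF SG GN
  simp

theorem Ek_line {D : ℕ} (c : ℝ) (u w : Tv D) :
    Ek (fun b => ii (b = 0)) c u w = ex c (SB.nt u) * ex c (SB.nt w) := by
  unfold Ek
  rw [tsum_eq_single 0]
  · show ii ((0 : Tv D) = 0) * _ * _ = _
    rw [ii_true rfl, one_mul, sub_zero, zero_sub]
    congr 2
    unfold SB.nt
    simp
  · intro b hb
    show ii (b = 0) * _ * _ = _
    rw [ii_false hb, zero_mul, zero_mul]

end Last

open Last

/-- Decomposition at the last site of the line. -/
theorem last_line {D : ℕ} {q β J1 : ℝ} (h : Reg D q β J1) :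
    ∃ δ C c : ℝ, 0 < δ ∧ 0 < C ∧ 0 < c ∧ ∀ J, Jok D q β J1 δ J → ∀ z ≤ zc D q β, ∀ (L : ℕ)
      (u w : Tv D),
      SG D q β J z L u w ≤ ENNReal.ofReal C * (ex c (SB.nt u) * ex c (SB.nt w) +
        SG D q β 1 z L u w + ∑' y, ex c (SB.nt u) * ex c (SB.nt y) * SG D q β 1 z L y w +
        ∑' y, SG D q β J z L u y * ex c (SB.nt y) * ex c (SB.nt w) +
        ∑' y, ∑' y', SG D q β J z L u y * ex c (SB.nt y) * ex c (SB.nt y') *
          SG D q β 1 z L y' w) := by
  obtain ⟨δ, C, c, hδ, hC, hc, H⟩ := core h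
  refine ⟨δ, C + 1, c, hδ, by linarith, hc, ?_⟩
  intro J hJ z hz L u w
  have hoff : ∀ y y', SF D q β J z L off y y' ≤ SG D q β 1 z L y y' :=
    fun y y' => SF_off h.toBas hJ.h1 z L y y'
  have hH := H J hJ z hz L (fun b => ii (b = 0)) (fun _ => 1) off top u w
    (fun k c' => off_sh k c') ?_ ?_ ?_ ?_
  · -- the sum splits
    have h1 : SG D q β J z L u w ≤ SF D q β J z L off u w +
        SF D q β J z L (fun c' => ∑ x ∈ c'.1, top c' x) u w := by
      rw [← SF_one]
      unfold SF
      rw [← Finset.sum_add_distrib]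
      apply Finset.sum_le_sum
      intro n _
      rw [← mul_add]
      gcongr
      unfold sm
      rw [← ENNReal.tsum_add]
      apply ENNReal.tsum_le_tsum
      intro c'
      rw [← mul_add]
      gcongr
      show ii (((0, u) : Site D) ∈ c'.1 ∧ (((n : ℤ), w) : Site D) ∈ c'.1) * 1 ≤
        ii (((0, u) : Site D) ∈ c'.1 ∧ (((n : ℤ), w) : Site D) ∈ c'.1) * off c' +
        ii (((0, u) : Site D) ∈ c'.1 ∧ (((n : ℤ), w) : Site D) ∈ c'.1) * ∑ x ∈ c'.1, top c' x
      rw [← mul_add]
      gcongr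
      exact one_le_off c'
    simp only [Ek_line, SF_one] at hH
    set R := ex c (SB.nt u) * ex c (SB.nt w) + SG D q β 1 z L u w +
        ∑' y, ex c (SB.nt u) * ex c (SB.nt y) * SG D q β 1 z L y w +
        ∑' y, SG D q β J z L u y * ex c (SB.nt y) * ex c (SB.nt w) +
        ∑' y, ∑' y', SG D q β J z L u y * ex c (SB.nt y) * ex c (SB.nt y') *
          SG D q β 1 z L y' w with hR
    have h2 : SF D q β J z L off u w ≤ R := by
      refine (hoff u w).trans ?_
      rw [hR]
      exact le_self_add.trans' (le_self_add.trans' (le_self_add.trans' le_add_self))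
    have h3 : SF D q β J z L (fun c' => ∑ x ∈ c'.1, top c' x) u w ≤ ENNReal.ofReal C * R := by
      refine hH.trans ?_
      gcongr
      rw [hR]
      have e1 : ∑' y, ex c (SB.nt u) * ex c (SB.nt y) * SF D q β J z L off y w ≤
          ∑' y, ex c (SB.nt u) * ex c (SB.nt y) * SG D q β 1 z L y w :=
        ENNReal.tsum_le_tsum fun y => by gcongr; exact hoff y w
      have e2 : ∑' y, SG D q β J z L u y * (ex c (SB.nt y) * ex c (SB.nt w)) =
          ∑' y, SG D q β J z L u y * ex c (SB.nt y) * ex c (SB.nt w) := by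
        simp only [mul_assoc]
      have e3 : ∑' y, ∑' y', SG D q β J z L u y * (ex c (SB.nt y) * ex c (SB.nt y')) *
            SF D q β J z L off y' w ≤
          ∑' y, ∑' y', SG D q β J z L u y * ex c (SB.nt y) * ex c (SB.nt y') *
            SG D q β 1 z L y' w := by
        apply ENNReal.tsum_le_tsum
        intro y
        apply ENNReal.tsum_le_tsum
        intro y'
        rw [← mul_assoc (SG D q β J z L u y)]
        gcongr
        exact hoff y' w
      rw [e2]
      refine (add_le_add (add_le_add_left (add_le_add_right e1 _) _) e3).trans ?_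
      gcongr
      exact le_self_add
    calc SG D q β J z L u w ≤ R + ENNReal.ofReal C * R := h1.trans (add_le_add h2 h3)
      _ = ENNReal.ofReal (C + 1) * R := by
        rw [ENNReal.ofReal_add hC.le zero_le_one, ENNReal.ofReal_one, add_mul, one_mul, add_comm]
  · intro c' _ x _
    by_cases hx : x.2 = 0
    · rw [ii_true hx]; exact ii_le_one _
    · rw [top, ii_false (fun h' => hx h'.1)]; exact bot_le
  · intro c' _ x _ m hm
    by_cases hx : x.2 = 0 ∧ ∀ y ∈ c'.1, y.2 = 0 → y.1 ≤ x.1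
    · have : ∀ y ∈ (hi c' m).1, y.2 ≠ 0 := by
        intro y hy hy0
        simp only [hi, Finset.mem_filter] at hy
        have := hx.2 y hy.1 hy0
        omega
      rw [ii_true hx.1, off, ii_true this, one_mul]
      exact ii_le_one _
    · rw [top, ii_false hx]; exact bot_le
  · intro c' _ x _ m hm
    by_cases hx : x.2 = 0
    · rw [ii_true hx, one_mul]; exact ii_le_one _
    · rw [top, ii_false (fun h' => hx h'.1)]; exact bot_le
  · intro c' _ x _ m1 m hm1 hm
    by_cases hx : x.2 = 0 ∧ ∀ y ∈ c'.1, y.2 = 0 → y.1 ≤ x.1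
    · have : ∀ y ∈ (hi c' m).1, y.2 ≠ 0 := by
        intro y hy hy0
        simp only [hi, Finset.mem_filter] at hy
        have := hx.2 y hy.1 hy0
        omega
      rw [ii_true hx.1, off, ii_true this, one_mul, one_mul]
      exact ii_le_one _
    · rw [top, ii_false hx]; exact bot_le

end Pool.Agent.DL
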