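import Pool.Agent.DL.Defs2

/-!
# The defect line for all subcritical temperatures: clusters in infinite volume
-/

set_option autoImplicit false
set_option linter.unusedSectionVars false

namespace Pool.Agent.DL

open Finset
open scoped ENNReal

/-- Transverse positions. -/
abbrev Tv (D : ℕ) := Fin D → ℤ

/-- Pairs of a set of sites and a set of edges. -/
abbrev Pr (D : ℕ) := Finset (Site D) × Finset (Edge D)

open Classical in
/-- The indicator of a proposition. -/
noncomputable def ii (p : Prop) : ℝ≥0∞ := if p then 1 else 0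

/-- `exp (-(c k))`. -/
noncomputable def ex (c k : ℝ) : ℝ≥0∞ := ENNReal.ofReal (Real.exp (-(c * k)))

/-- The isolation probability in infinite volume. -/
noncomputable def ZI (D : ℕ) (q β J : ℝ) (A : Finset (Site D)) : ℝ :=
  ⨅ Λ : Finset (Site D), ZZ D q β J Λ A

open Classical in
/-- The probability of a cluster in infinite volume (`0` if the pair is not connected). -/
noncomputable def WI (D : ℕ) (q β J : ℝ) (c : Pr D) : ℝ≥0∞ :=
  if (lat D).IsCl c.1 c.2 then ENNReal.ofReal (WW D q β J c.1 c.2 * ZI D q β J c.1) else 0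

/-- Sum over the clusters. -/
noncomputable def sm (D : ℕ) (q β J : ℝ) (F : Pr D → ℝ≥0∞) : ℝ≥0∞ :=
  ∑' c : Pr D, WI D q β J c * F c

/-- The part of the heights at most `m`. -/
def lo {D : ℕ} (c : Pr D) (m : ℤ) : Pr D :=
  (c.1.filter fun x => x.1 ≤ m, c.2.filter fun e => ((lat D).t e).1 ≤ m)

/-- The part of the heights larger than `m`. -/
def hi {D : ℕ} (c : Pr D) (m : ℤ) : Pr D :=
  (c.1.filter fun x => m < x.1, c.2.filter fun e => m < ((lat D).s e).1)

/-- Two clusters joined by the edge from `(m, y)` to `(m + 1, y)`. -/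
def jn {D : ℕ} (c1 : Pr D) (y : Tv D) (m : ℤ) (c2 : Pr D) : Pr D :=
  (c1.1 ∪ c2.1, insert (((m, y), none) : Edge D) (c1.2 ∪ c2.2))

/-- The translation of a pair by `k` in the first direction. -/
def sh {D : ℕ} (k : ℤ) (c : Pr D) : Pr D :=
  (c.1.image fun x => (x.1 + k, x.2), c.2.image fun e => ((e.1.1 + k, e.1.2), e.2))

/-- All heights are at most `m`. -/
def bel {D : ℕ} (m : ℤ) (c : Pr D) : Prop := ∀ x ∈ c.1, x.1 ≤ m

/-- All heights are at least `m`. -/
def abv {D : ℕ} (m : ℤ) (c : Pr D) : Prop := ∀ x ∈ c.1, m ≤ x.1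

/-- The weighted number of the sites near the height `m`. -/
noncomputable def lvw {D : ℕ} (a : ℝ) (A : Finset (Site D)) (m : ℤ) : ℝ :=
  ∑ x ∈ A, Real.exp (-(a * |(x.1 : ℝ) - m|))

/-- A good cut. -/
def good {D : ℕ} (a M : ℝ) (c : Pr D) (m : ℤ) : Prop := (upE c.2 m).card = 1 ∧ lvw a c.1 m ≤ M

open Classical in
/-- The number of the good cuts in `[0, n)`. -/
noncomputable def ng {D : ℕ} (a M : ℝ) (c : Pr D) (n : ℕ) : ℕ :=
  ((range n).filter fun m : ℕ => good a M c (m : ℤ)).card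

/-- The two-point function between `(0, u)` and `(n, w)`, as a sum over clusters. -/
noncomputable def GN (D : ℕ) (q β J : ℝ) (n : ℕ) (u w : Tv D) : ℝ≥0∞ :=
  sm D q β J fun c => ii (((0, u) : Site D) ∈ c.1 ∧ (((n : ℤ), w) : Site D) ∈ c.1)

/-- The same for the clusters with heights in `[0, n]`. -/
noncomputable def TN (D : ℕ) (q β J : ℝ) (n : ℕ) (u w : Tv D) : ℝ≥0∞ :=
  sm D q β J fun c => ii (((0, u) : Site D) ∈ c.1 ∧ (((n : ℤ), w) : Site D) ∈ c.1 ∧
    abv 0 c ∧ bel n c)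

/-- The generating function up to order `L`. -/
noncomputable def SG (D : ℕ) (q β J : ℝ) (z : ℝ≥0∞) (L : ℕ) (u w : Tv D) : ℝ≥0∞ :=
  ∑ n ∈ range (L + 1), z ^ n * GN D q β J n u w

/-- The generating function of the confined clusters up to order `L`. -/
noncomputable def ST (D : ℕ) (q β J : ℝ) (z : ℝ≥0∞) (L : ℕ) (u w : Tv D) : ℝ≥0∞ :=
  ∑ n ∈ range (L + 1), z ^ n * TN D q β J n u w

/-- The number of the sites of the line, weighted with the distance to the line. -/
noncomputable def occ {D : ℕ} (c : ℝ) (A : Finset (Site D)) : ℝ :=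
  ∑ x ∈ A, Real.exp (-(c * SB.nt x.2))

/-- The critical value of the generating parameter. -/
noncomputable def zc (D : ℕ) (q β : ℝ) : ℝ≥0∞ := ENNReal.ofReal (Real.exp (xiR D q β 1))

/-- `c1` and `c2` can be joined by the edge from `(m, y)` to `(m + 1, y)`. -/
def Vd {D : ℕ} (c1 : Pr D) (y : Tv D) (m : ℤ) (c2 : Pr D) : Prop :=
  (lat D).IsCl c1.1 c1.2 ∧ (lat D).IsCl c2.1 c2.2 ∧ bel m c1 ∧ ((m, y) : Site D) ∈ c1.1 ∧
    abv (m + 1) c2 ∧ ((m + 1, y) : Site D) ∈ c2.1

/-- The end kernel with the marks `φ`. -/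
noncomputable def Ek {D : ℕ} (φ : Tv D → ℝ≥0∞) (c : ℝ) (u w : Tv D) : ℝ≥0∞ :=
  ∑' b : Tv D, φ b * ex c (SB.nt (u - b)) * ex c (SB.nt (b - w))

/-- Boundedness of the critical generating function without defect. -/
def S1B (D : ℕ) (q β : ℝ) : Prop :=
  ∃ B : ℝ, ∀ (L : ℕ) (u w : Tv D), SG D q β 1 (zc D q β) L u w ≤ ENNReal.ofReal B

/-- The generating function. -/
noncomputable def GI (D : ℕ) (q β J : ℝ) (z : ℝ≥0∞) (u w : Tv D) : ℝ≥0∞ :=
  ∑' n : ℕ, z ^ n * GN D q β J n u w

/-- The generating function of the confined clusters. -/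
noncomputable def TI (D : ℕ) (q β J : ℝ) (z : ℝ≥0∞) (u w : Tv D) : ℝ≥0∞ :=
  ∑' n : ℕ, z ^ n * TN D q β J n u w

/-- The couplings for which the rate is close to the rate without defect. -/
structure Jok (D : ℕ) (q β J1 δ J : ℝ) : Prop where
  h1 : 1 ≤ J
  h2 : J ≤ J1
  h3 : xiR D q β 1 - δ ≤ xiR D q β J

end Pool.Agent.DL
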