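import Pool.Agent.DL.Sym
import Pool.Agent.DL.Defs3

/-!
# Symmetries of the sums over clusters
-/

set_option autoImplicit false
set_option linter.unusedSectionVars false

namespace Pool.Agent.DL

open Finset
open scoped ENNReal

namespace Sy

variable {D : ℕ} {β J : ℝ} (S : Sy D β J)

/-- The image of a pair. -/
def pe : Pr D ≃ Pr D := (Equiv.finsetCongr S.σ).prodCongr (Equiv.finsetCongr S.τ)

theorem pe_fst (c : Pr D) : (S.pe c).1 = S.im c.1 := rfl

theorem pe_snd (c : Pr D) : (S.pe c).2 = S.ime c.2 := rfl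

theorem forall_im (P : Site D → Prop) (A : Finset (Site D)) :
    (∀ x ∈ S.im A, P x) ↔ ∀ x ∈ A, P (S.σ x) := by
  constructor
  · intro h x hx
    exact h _ (S.mem_im.2 hx)
  · intro h x hx
    have h1 := h _ (S.mem_im'.1 hx)
    rwa [Equiv.apply_symm_apply] at h1

theorem ZI_im (q : ℝ) (A : Finset (Site D)) : ZI D q β J (S.im A) = ZI D q β J A := by
  unfold ZI
  rw [← (Equiv.finsetCongr S.σ).iInf_comp (g := fun Λ => ZZ D q β J Λ (S.im A))]
  exact iInf_congr fun Λ => S.ZZ_im q Λ A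

theorem WI_pe (q : ℝ) (c : Pr D) : WI D q β J (S.pe c) = WI D q β J c := by
  unfold WI
  rw [pe_fst, pe_snd]
  by_cases h : (lat D).IsCl c.1 c.2
  · rw [if_pos h, if_pos ((S.isCl c.1 c.2).2 h), S.WW_im, S.ZI_im]
  · rw [if_neg h, if_neg fun h' => h ((S.isCl c.1 c.2).1 h')]

theorem sm_pe (q : ℝ) (F : Pr D → ℝ≥0∞) :
    sm D q β J (fun c => F (S.pe c)) = sm D q β J F := by
  unfold sm
  rw [← S.pe.tsum_eq fun c => WI D q β J c * F c]
  exact tsum_congr fun c => by rw [S.WI_pe]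

end Sy

theorem Shi.ii_congr {p q : Prop} (h : p ↔ q) : ii p = ii q := by
  rw [propext h]

theorem Shi.ii_mono {p q : Prop} (h : p → q) : ii p ≤ ii q := by
  unfold ii
  by_cases hp : p
  · rw [if_pos hp, if_pos (h hp)]
  · rw [if_neg hp]
    exact bot_le

theorem Shi.sm_mono {D : ℕ} {q β J : ℝ} {F F' : Pr D → ℝ≥0∞} (h : ∀ c, F c ≤ F' c) :
    sm D q β J F ≤ sm D q β J F' := by
  unfold sm
  exact ENNReal.tsum_le_tsum fun c => mul_le_mul_right (h c) _

theorem Shi.sh_eq {D : ℕ} (β J : ℝ) (k : ℤ) (c : Pr D) : sh k c = (Sy.tr D β J k).pe c := by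
  refine Prod.ext ?_ ?_
  · rw [Sy.pe_fst]
    unfold sh Sy.im
    rw [Finset.map_eq_image]
    rfl
  · rw [Sy.pe_snd]
    unfold sh Sy.ime
    rw [Finset.map_eq_image]
    rfl

theorem sm_sh {D : ℕ} {q β J : ℝ} (k : ℤ) (F : Pr D → ℝ≥0∞) :
    sm D q β J (fun c => F (sh k c)) = sm D q β J F := by
  rw [← (Sy.tr D β J k).sm_pe q F]
  congr 1
  funext c
  rw [Shi.sh_eq β J]

theorem GN_comm {D : ℕ} {q β J : ℝ} (n : ℕ) (u w : Tv D) : GN D q β J n u w = GN D q β J n w u := by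
  unfold GN
  rw [← (Sy.rf D β J n).sm_pe q]
  congr 1
  funext c
  refine Shi.ii_congr ?_
  rw [Sy.pe_fst, Sy.mem_im', Sy.mem_im']
  have h1 : (Sy.rf D β J n).σ.symm ((0, u) : Site D) = ((n : ℤ), u) := by
    change ((n : ℤ) - 0, u) = _
    rw [sub_zero]
  have h2 : (Sy.rf D β J n).σ.symm (((n : ℤ), w) : Site D) = (0, w) := by
    change ((n : ℤ) - n, w) = _
    rw [sub_self]
  rw [h1, h2]
  exact and_comm

theorem TN_comm {D : ℕ} {q β J : ℝ} (n : ℕ) (u w : Tv D) : TN D q β J n u w = TN D q β J n w u := by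
  unfold TN
  rw [← (Sy.rf D β J n).sm_pe q]
  congr 1
  funext c
  refine Shi.ii_congr ?_
  rw [Sy.pe_fst, Sy.mem_im', Sy.mem_im']
  have h1 : (Sy.rf D β J n).σ.symm ((0, u) : Site D) = ((n : ℤ), u) := by
    change ((n : ℤ) - 0, u) = _
    rw [sub_zero]
  have h2 : (Sy.rf D β J n).σ.symm (((n : ℤ), w) : Site D) = (0, w) := by
    change ((n : ℤ) - n, w) = _
    rw [sub_self]
  have h3 : abv 0 ((Sy.rf D β J n).pe c) ↔ bel n c := by
    unfold abv bel
    rw [Sy.pe_fst, Sy.forall_im]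
    refine forall₂_congr fun x _ => ?_
    change (0 : ℤ) ≤ n - x.1 ↔ _
    omega
  have h4 : bel n ((Sy.rf D β J n).pe c) ↔ abv 0 c := by
    unfold abv bel
    rw [Sy.pe_fst, Sy.forall_im]
    refine forall₂_congr fun x _ => ?_
    change (n : ℤ) - x.1 ≤ n ↔ _
    omega
  rw [h1, h2, h3, h4]
  tauto

theorem GN_trans {D : ℕ} {q β : ℝ} (n : ℕ) (u w b : Tv D) :
    GN D q β 1 n (u + b) (w + b) = GN D q β 1 n u w := by
  unfold GN
  rw [← (Sy.tx D β (0, b)).sm_pe q]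
  congr 1
  funext c
  refine Shi.ii_congr ?_
  rw [Sy.pe_fst, Sy.mem_im', Sy.mem_im']
  have h1 : (Sy.tx D β (0, b)).σ.symm ((0, u + b) : Site D) = (0, u) := by
    change ((0, u + b) : Site D) - (0, b) = _
    rw [Prod.mk_sub_mk, sub_self, add_sub_cancel_right]
  have h2 : (Sy.tx D β (0, b)).σ.symm (((n : ℤ), w + b) : Site D) = ((n : ℤ), w) := by
    change (((n : ℤ), w + b) : Site D) - (0, b) = _
    rw [Prod.mk_sub_mk, sub_zero, add_sub_cancel_right]
  rw [h1, h2]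

theorem TN_trans {D : ℕ} {q β : ℝ} (n : ℕ) (u w b : Tv D) :
    TN D q β 1 n (u + b) (w + b) = TN D q β 1 n u w := by
  unfold TN
  rw [← (Sy.tx D β (0, b)).sm_pe q]
  congr 1
  funext c
  refine Shi.ii_congr ?_
  rw [Sy.pe_fst, Sy.mem_im', Sy.mem_im']
  have h1 : (Sy.tx D β (0, b)).σ.symm ((0, u + b) : Site D) = (0, u) := by
    change ((0, u + b) : Site D) - (0, b) = _
    rw [Prod.mk_sub_mk, sub_self, add_sub_cancel_right]
  have h2 : (Sy.tx D β (0, b)).σ.symm (((n : ℤ), w + b) : Site D) = ((n : ℤ), w) := by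
    change (((n : ℤ), w + b) : Site D) - (0, b) = _
    rw [Prod.mk_sub_mk, sub_zero, add_sub_cancel_right]
  have h3 : abv 0 ((Sy.tx D β (0, b)).pe c) ↔ abv 0 c := by
    unfold abv
    rw [Sy.pe_fst, Sy.forall_im]
    refine forall₂_congr fun x _ => ?_
    change (0 : ℤ) ≤ (x + ((0, b) : Site D)).1 ↔ _
    rw [Prod.fst_add, add_zero]
  have h4 : bel n ((Sy.tx D β (0, b)).pe c) ↔ bel n c := by
    unfold bel
    rw [Sy.pe_fst, Sy.forall_im]
    refine forall₂_congr fun x _ => ?_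
    change (x + ((0, b) : Site D)).1 ≤ (n : ℤ) ↔ _
    rw [Prod.fst_add, add_zero]
  rw [h1, h2, h3, h4]

theorem TN_neg {D : ℕ} {q β J : ℝ} (n : ℕ) (u w : Tv D) :
    TN D q β J n (-u) (-w) = TN D q β J n u w := by
  unfold TN
  rw [← (Sy.ng D β J).sm_pe q]
  congr 1
  funext c
  refine Shi.ii_congr ?_
  rw [Sy.pe_fst, Sy.mem_im', Sy.mem_im']
  have h1 : (Sy.ng D β J).σ.symm ((0, -u) : Site D) = (0, u) := by
    change ((0, - -u) : Site D) = _
    rw [neg_neg]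
  have h2 : (Sy.ng D β J).σ.symm (((n : ℤ), -w) : Site D) = ((n : ℤ), w) := by
    change (((n : ℤ), - -w) : Site D) = _
    rw [neg_neg]
  have h3 : abv 0 ((Sy.ng D β J).pe c) ↔ abv 0 c := by
    unfold abv
    rw [Sy.pe_fst, Sy.forall_im]
    exact Iff.rfl
  have h4 : bel n ((Sy.ng D β J).pe c) ↔ bel n c := by
    unfold bel
    rw [Sy.pe_fst, Sy.forall_im]
    exact Iff.rfl
  rw [h1, h2, h3, h4]

theorem TN_le_GN {D : ℕ} {q β J : ℝ} (n : ℕ) (u w : Tv D) :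
    TN D q β J n u w ≤ GN D q β J n u w :=
  Shi.sm_mono fun _ => Shi.ii_mono fun h => ⟨h.1, h.2.1⟩

end Pool.Agent.DL
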