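import Pool.Agent.DL.DcAbs
import Pool.Agent.DL.ExK
import Pool.Agent.DL.Pw
import Pool.Agent.DL.Gs
import Pool.Agent.DL.Shi
import Pool.Agent.DL.Last

/-!
# Row D3: the generating function is largest, up to a constant, at the origin
-/

set_option autoImplicit false
set_option linter.unusedSectionVars false

namespace Pool.Agent.DL

open Finset
open scoped ENNReal

theorem dc_GN_le_one {D : ℕ} {q β J1 : ℝ} (h : Reg D q β J1) {J : ℝ} (hJ : 1 ≤ J) (hJ1 : J ≤ J1)
    (n : ℕ) (u w : Tv D) : GN D q β J n u w ≤ 1 := by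
  rw [GN_eq h J hJ hJ1, ← ENNReal.ofReal_one]
  exact ENNReal.ofReal_le_ofReal (GG_le_one h.toBas (by linarith) _ _)

theorem dc_GN_zero {D : ℕ} {q β J1 : ℝ} (h : Reg D q β J1) {J : ℝ} (hJ : 1 ≤ J) (hJ1 : J ≤ J1) :
    1 ≤ GN D q β J 0 0 0 := by
  rw [GN_eq h J hJ hJ1, ← ENNReal.ofReal_one]
  apply ENNReal.ofReal_le_ofReal
  have h1 := GG_ge h.toBas hJ (0 : Site D) (0 : Site D)
  have h2 : SB.dist1 (0 : Site D) (0 : Site D) = 0 := by
    unfold SB.dist1
    simp
  rw [h2, pow_zero] at h1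
  exact h1

theorem dc_dist {D : ℕ} (m : ℤ) (y : Tv D) :
    SB.dist1 ((m, 0) : Site D) (m, y) = SB.nt y := by
  unfold SB.dist1 SB.nt
  simp

theorem dc_dist' {D : ℕ} (m : ℤ) (y : Tv D) :
    SB.dist1 ((m, y) : Site D) (m, 0) = SB.nt y := by
  unfold SB.dist1 SB.nt
  simp

/-- Moving the end points to the line costs a constant for each step. -/
theorem dc_GN_move {D : ℕ} {q β J1 : ℝ} (h : Reg D q β J1) {J : ℝ} (hJ : 1 ≤ J) (hJ1 : J ≤ J1)
    (n : ℕ) (y y' : Tv D) :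
    ENNReal.ofReal ((Real.exp β - 1) / (Real.exp β - 1 + q)) ^ SB.nt y * GN D q β J n y y' *
      ENNReal.ofReal ((Real.exp β - 1) / (Real.exp β - 1 + q)) ^ SB.nt y' ≤ GN D q β J n 0 0 := by
  have hv : 0 < Real.exp β - 1 := by
    have := Real.add_one_lt_exp h.toBas.hβ.ne'
    have := h.toBas.hβ
    linarith
  have hq := h.toBas.hq
  have hp : 0 ≤ (Real.exp β - 1) / (Real.exp β - 1 + q) := by positivity
  have hJ0 : 0 ≤ J := by linarith
  rw [GN_eq h J hJ hJ1, GN_eq h J hJ hJ1, ← ENNReal.ofReal_pow hp, ← ENNReal.ofReal_pow hp,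
    ← ENNReal.ofReal_mul (by positivity), ← ENNReal.ofReal_mul]
  · apply ENNReal.ofReal_le_ofReal
    have h1 := GG_ge h.toBas hJ ((0, 0) : Site D) (0, y)
    have h2 := GG_ge h.toBas hJ (((n : ℤ), y') : Site D) ((n : ℤ), 0)
    rw [dc_dist] at h1
    rw [dc_dist'] at h2
    have h3 := GG_mul_le h.toBas hJ0 ((0, 0) : Site D) (0, y) ((n : ℤ), y')
    have h4 := GG_mul_le h.toBas hJ0 ((0, 0) : Site D) ((n : ℤ), y') ((n : ℤ), 0)
    have g1 : 0 ≤ GG D q β J ((0, y) : Site D) ((n : ℤ), y') := by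
      refine le_trans ?_ (GG_ge h.toBas hJ _ _)
      positivity
    have g2 : 0 ≤ GG D q β J (((n : ℤ), y') : Site D) ((n : ℤ), 0) := by
      refine le_trans ?_ h2
      positivity
    calc _ ≤ GG D q β J ((0, 0) : Site D) (0, y) * GG D q β J ((0, y) : Site D) ((n : ℤ), y') *
          GG D q β J (((n : ℤ), y') : Site D) ((n : ℤ), 0) := by
          apply mul_le_mul _ h2 (by positivity)
          · refine mul_nonneg ?_ g1
            exact le_trans (by positivity) h1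
          · exact mul_le_mul_of_nonneg_right h1 g1
      _ ≤ GG D q β J ((0, 0) : Site D) ((n : ℤ), y') *
          GG D q β J (((n : ℤ), y') : Site D) ((n : ℤ), 0) := mul_le_mul_of_nonneg_right h3 g2
      _ ≤ _ := h4
  · refine mul_nonneg (by positivity) ?_
    refine le_trans ?_ (GG_ge h.toBas hJ _ _)
    positivity

theorem sup_le {D : ℕ} {q β J1 : ℝ} (h : Reg D q β J1) (hB : S1B D q β) :
    ∃ δ C : ℝ, 0 < δ ∧ 0 < C ∧ ∀ J, Jok D q β J1 δ J → ∀ z ≤ zc D q β, ∀ (L : ℕ) (u w : Tv D),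
      SG D q β J z L u w ≤ ENNReal.ofReal C * SG D q β J z L 0 0 := by
  obtain ⟨δ, C, c, hδ, hC, hc, hlast⟩ := last_line h
  obtain ⟨B, hB⟩ := hB
  obtain ⟨p, hp⟩ : ∃ p : ℝ, p = (Real.exp β - 1) / (Real.exp β - 1 + q) := ⟨_, rfl⟩
  have hv : 0 < Real.exp β - 1 := by
    have := Real.add_one_lt_exp h.toBas.hβ.ne'
    have := h.toBas.hβ
    linarith
  have hq := h.toBas.hq
  have hp0 : 0 < p := by
    rw [hp]
    positivity
  have hP0 : ENNReal.ofReal p ≠ 0 := (ENNReal.ofReal_pos.2 hp0).ne'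
  have hPt : ENNReal.ofReal p ≠ ∞ := ENNReal.ofReal_ne_top
  obtain ⟨K, hK, hKK⟩ := dc_abs (T := Tv D) (fun y => ex c (SB.nt y))
    (fun y => (ENNReal.ofReal p ^ SB.nt y)⁻¹) (fun y => ex_le_one hc.le (Nat.cast_nonneg _))
    (tsum_ex_ne_top hc) (fun y => ENNReal.inv_ne_top.2 (pow_ne_zero _ hP0))
    (ENNReal.ofReal C) (ENNReal.ofReal B) ENNReal.ofReal_ne_top ENNReal.ofReal_ne_top
  refine ⟨δ, K.toReal + 1, hδ, by positivity, fun J hJ z hz L u w => ?_⟩
  have hKle : K ≤ ENNReal.ofReal (K.toReal + 1) := by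
    conv_lhs => rw [← ENNReal.ofReal_toReal hK]
    exact ENNReal.ofReal_le_ofReal (by linarith)
  refine le_trans ?_ (mul_le_mul' hKle le_rfl)
  have hzt : z ≠ ∞ := ne_top_of_le_ne_top (by unfold zc; exact ENNReal.ofReal_ne_top) hz
  refine hKK (fun u w => SG D q β J z L u w) (fun u w => SG D q β 1 z L u w) (SG D q β J z L 0 0)
    ?_ ?_ ?_ ?_ ?_ ?_ u w
  · intro u w
    unfold SG
    exact Finset.sum_congr rfl fun n _ => by rw [GN_comm]
  · refine ⟨∑ n ∈ range (L + 1), z ^ n, ENNReal.sum_ne_top.2 fun n _ => ENNReal.pow_ne_top hzt,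
      fun u w => ?_⟩
    unfold SG
    refine Finset.sum_le_sum fun n _ => ?_
    calc z ^ n * GN D q β J n u w ≤ z ^ n * 1 := by
          gcongr
          exact dc_GN_le_one h hJ.h1 hJ.h2 n u w
      _ = z ^ n := mul_one _
  · intro u w
    refine le_trans ?_ (hB L u w)
    unfold SG
    refine Finset.sum_le_sum fun n _ => ?_
    gcongr
  · unfold SG
    refine le_trans ?_ (Finset.single_le_sum (f := fun n => z ^ n * GN D q β J n 0 0)
      (fun _ _ => bot_le) (Finset.mem_range.2 (Nat.succ_pos L)))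
    rw [pow_zero, one_mul]
    exact dc_GN_zero h hJ.h1 hJ.h2
  · intro y y'
    have a1 : ENNReal.ofReal p ^ SB.nt y ≠ 0 := pow_ne_zero _ hP0
    have a2 : ENNReal.ofReal p ^ SB.nt y ≠ ∞ := ENNReal.pow_ne_top hPt
    have a3 : ENNReal.ofReal p ^ SB.nt y' ≠ 0 := pow_ne_zero _ hP0
    have a4 : ENNReal.ofReal p ^ SB.nt y' ≠ ∞ := ENNReal.pow_ne_top hPt
    have h5 : ENNReal.ofReal p ^ SB.nt y * SG D q β J z L y y' * ENNReal.ofReal p ^ SB.nt y' ≤
        SG D q β J z L 0 0 := by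
      unfold SG
      rw [Finset.mul_sum, Finset.sum_mul]
      refine Finset.sum_le_sum fun n _ => ?_
      have h6 := dc_GN_move h hJ.h1 hJ.h2 n y y'
      rw [← hp] at h6
      calc _ = z ^ n * (ENNReal.ofReal p ^ SB.nt y * GN D q β J n y y' *
            ENNReal.ofReal p ^ SB.nt y') := by ring
        _ ≤ _ := by gcongr
    calc SG D q β J z L y y' = (ENNReal.ofReal p ^ SB.nt y)⁻¹ * (ENNReal.ofReal p ^ SB.nt y')⁻¹ *
          (ENNReal.ofReal p ^ SB.nt y * SG D q β J z L y y' * ENNReal.ofReal p ^ SB.nt y') := by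
          have b1 := ENNReal.inv_mul_cancel a1 a2
          have b2 := ENNReal.inv_mul_cancel a3 a4
          calc SG D q β J z L y y' = 1 * 1 * SG D q β J z L y y' := by ring
            _ = ((ENNReal.ofReal p ^ SB.nt y)⁻¹ * ENNReal.ofReal p ^ SB.nt y) *
                ((ENNReal.ofReal p ^ SB.nt y')⁻¹ * ENNReal.ofReal p ^ SB.nt y') *
                SG D q β J z L y y' := by rw [b1, b2]
            _ = _ := by ring
      _ ≤ _ := by gcongr
  · intro u w
    exact hlast J hJ z hz L u w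

end Pool.Agent.DL
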