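import Mathlib

/-!
# An abstract bootstrap for kernels
-/

set_option autoImplicit false

namespace Pool.Agent.DL

open Finset Filter Topology
open scoped ENNReal

theorem dc_tail {T : Type} (e : T → ℝ≥0∞) (hE : ∑' y, e y ≠ ∞) (δ : ℝ≥0∞) (hδ : 0 < δ) :
    ∃ R : Finset T, ∑' y, Set.indicator {x | x ∉ R} e y < δ := by
  have h1 := ENNReal.tendsto_tsum_compl_atTop_zero hE
  obtain ⟨R, hR⟩ := ((tendsto_order.1 h1).2 δ hδ).exists
  refine ⟨R, ?_⟩
  rw [← _root_.tsum_subtype]
  exact hR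

theorem dc_abs {T : Type} (e P : T → ℝ≥0∞) (he1 : ∀ y, e y ≤ 1) (hE : ∑' y, e y ≠ ∞)
    (hP : ∀ y, P y ≠ ∞) (C B : ℝ≥0∞) (hC : C ≠ ∞) (hB : B ≠ ∞) :
    ∃ K : ℝ≥0∞, K ≠ ∞ ∧ ∀ (S S1 : T → T → ℝ≥0∞) (s : ℝ≥0∞), (∀ u w, S u w = S w u) →
      (∃ F : ℝ≥0∞, F ≠ ∞ ∧ ∀ u w, S u w ≤ F) → (∀ u w, S1 u w ≤ B) → 1 ≤ s →
      (∀ y y', S y y' ≤ P y * P y' * s) →
      (∀ u w, S u w ≤ C * (e u * e w + S1 u w + ∑' y, e u * e y * S1 y w +
        ∑' y, S u y * e y * e w + ∑' y, ∑' y', S u y * e y * e y' * S1 y' w)) →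
      ∀ u w, S u w ≤ K * s := by
  classical
  obtain ⟨E, hEe⟩ : ∃ E : ℝ≥0∞, E = ∑' y, e y := ⟨_, rfl⟩
  rw [← hEe] at hE
  obtain ⟨C₁, hC₁⟩ : ∃ C₁ : ℝ≥0∞, C₁ = C * (1 + B + E * B) := ⟨_, rfl⟩
  obtain ⟨C₂, hC₂⟩ : ∃ C₂ : ℝ≥0∞, C₂ = C₁ * (1 + C₁ * E + C₁) := ⟨_, rfl⟩
  have hC₁t : C₁ ≠ ∞ := by
    rw [hC₁]
    exact ENNReal.mul_ne_top hC (ENNReal.add_ne_top.2 ⟨ENNReal.add_ne_top.2 ⟨ENNReal.one_ne_top, hB⟩,
      ENNReal.mul_ne_top hE hB⟩)
  have hC₂t : C₂ ≠ ∞ := by
    rw [hC₂]
    exact ENNReal.mul_ne_top hC₁t (ENNReal.add_ne_top.2 ⟨ENNReal.add_ne_top.2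
      ⟨ENNReal.one_ne_top, ENNReal.mul_ne_top hC₁t hE⟩, hC₁t⟩)
  have hq : 4 * (E * C₂ + 1) ≠ ∞ :=
    ENNReal.mul_ne_top (by norm_num) (ENNReal.add_ne_top.2 ⟨ENNReal.mul_ne_top hE hC₂t,
      ENNReal.one_ne_top⟩)
  have hq0 : 4 * (E * C₂ + 1) ≠ 0 := by
    apply mul_ne_zero (by norm_num)
    exact (lt_of_lt_of_le one_pos le_add_self).ne'
  obtain ⟨R, hR⟩ := dc_tail e (by rw [← hEe]; exact hE) (4 * (E * C₂ + 1))⁻¹
    (ENNReal.inv_pos.2 hq)
  obtain ⟨t, ht⟩ : ∃ t : T → ℝ≥0∞, t = Set.indicator {x | x ∉ R} e := ⟨_, rfl⟩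
  obtain ⟨ε, hε⟩ : ∃ ε : ℝ≥0∞, ε = ∑' y, t y := ⟨_, rfl⟩
  rw [← ht, ← hε] at hR
  have hθ : 2 * (ε * E * C₂) ≤ 2⁻¹ := by
    have h1 : ε * (4 * (E * C₂ + 1)) ≤ 1 := by
      calc ε * (4 * (E * C₂ + 1)) ≤ (4 * (E * C₂ + 1))⁻¹ * (4 * (E * C₂ + 1)) := by
            gcongr
        _ = 1 := ENNReal.inv_mul_cancel hq0 hq
    have h2 : 4 * (ε * E * C₂) ≤ 1 := by
      refine le_trans ?_ h1
      calc 4 * (ε * E * C₂) = ε * (4 * (E * C₂)) := by ring
        _ ≤ _ := by gcongr; exact le_self_add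
    have h3 : 2 * (2 * (ε * E * C₂)) ≤ 1 := by
      calc 2 * (2 * (ε * E * C₂)) = 4 * (ε * E * C₂) := by ring
        _ ≤ 1 := h2
    rw [ENNReal.le_inv_iff_mul_le, mul_comm]
    exact h3
  obtain ⟨M, hM⟩ : ∃ M : ℝ≥0∞, M = ∑ y ∈ R, ∑ y' ∈ R, e y * e y' * (P y * P y') := ⟨_, rfl⟩
  have hMt : M ≠ ∞ := by
    rw [hM]
    refine ENNReal.sum_ne_top.2 fun y _ => ENNReal.sum_ne_top.2 fun y' _ => ?_
    exact ENNReal.mul_ne_top (ENNReal.mul_ne_top (ne_top_of_le_ne_top ENNReal.one_ne_top (he1 y))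
      (ne_top_of_le_ne_top ENNReal.one_ne_top (he1 y'))) (ENNReal.mul_ne_top (hP y) (hP y'))
  refine ⟨C₂ * (2 + 2 * M), ENNReal.mul_ne_top hC₂t (ENNReal.add_ne_top.2
    ⟨by norm_num, ENNReal.mul_ne_top (by norm_num) hMt⟩), ?_⟩
  intro S S1 s hsym hF hS1 hs hloc hmain
  obtain ⟨F, hFt, hF⟩ := hF
  obtain ⟨Y, hY⟩ : ∃ Y : T → ℝ≥0∞, ∀ u, Y u = ∑' y, S u y * e y := ⟨_, fun _ => rfl⟩
  obtain ⟨X, hX⟩ : ∃ X : ℝ≥0∞, X = ∑' y, e y * Y y := ⟨_, rfl⟩
  have h1 : ∀ u w, S u w ≤ C₁ * (1 + Y u) := by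
    intro u w
    refine (hmain u w).trans ?_
    rw [hC₁, mul_assoc]
    gcongr
    have a1 : e u * e w ≤ 1 := by
      calc e u * e w ≤ 1 * 1 := by gcongr <;> exact he1 _
        _ = 1 := one_mul 1
    have a2 : ∑' y, e u * e y * S1 y w ≤ E * B := by
      calc ∑' y, e u * e y * S1 y w ≤ ∑' y, e y * B := by
            refine ENNReal.tsum_le_tsum fun y => ?_
            calc e u * e y * S1 y w ≤ 1 * e y * B := by
                  gcongr
                  · exact he1 u
                  · exact hS1 y w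
              _ = e y * B := by rw [one_mul]
        _ = E * B := by rw [ENNReal.tsum_mul_right, hEe]
    have a3 : ∑' y, S u y * e y * e w ≤ Y u := by
      rw [hY]
      refine ENNReal.tsum_le_tsum fun y => ?_
      calc S u y * e y * e w ≤ S u y * e y * 1 := by gcongr; exact he1 w
        _ = _ := mul_one _
    have a4 : ∑' y, ∑' y', S u y * e y * e y' * S1 y' w ≤ Y u * (E * B) := by
      calc ∑' y, ∑' y', S u y * e y * e y' * S1 y' w ≤
            ∑' y, ∑' y', S u y * e y * (e y' * B) := by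
            refine ENNReal.tsum_le_tsum fun y => ENNReal.tsum_le_tsum fun y' => ?_
            rw [mul_assoc (S u y * e y)]
            gcongr
            exact hS1 y' w
        _ = ∑' y, S u y * e y * (E * B) := by
            refine tsum_congr fun y => ?_
            rw [ENNReal.tsum_mul_left, ENNReal.tsum_mul_right, hEe]
        _ = _ := by rw [ENNReal.tsum_mul_right, hY]
    calc e u * e w + S1 u w + ∑' y, e u * e y * S1 y w + ∑' y, S u y * e y * e w +
          ∑' y, ∑' y', S u y * e y * e y' * S1 y' w ≤ 1 + B + E * B + Y u + Y u * (E * B) := by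
          gcongr
          exact hS1 u w
      _ = (1 + B + E * B) + (1 + E * B) * Y u := by ring
      _ ≤ (1 + B + E * B) + (1 + B + E * B) * Y u := by
          gcongr
          exact le_self_add
      _ = (1 + B + E * B) * (1 + Y u) := by ring
  have h2 : ∀ u, Y u ≤ C₁ * (E + X) := by
    intro u
    rw [hY]
    calc ∑' y, S u y * e y ≤ ∑' y, C₁ * (e y + e y * Y y) := by
          refine ENNReal.tsum_le_tsum fun y => ?_
          rw [hsym u y]
          calc S y u * e y ≤ C₁ * (1 + Y y) * e y := by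
                gcongr
                exact h1 y u
            _ = C₁ * (e y + e y * Y y) := by ring
      _ = _ := by rw [ENNReal.tsum_mul_left, ENNReal.tsum_add, ← hEe, ← hX]
  have h3 : ∀ u w, S u w ≤ C₂ * (1 + X) := by
    intro u w
    refine (h1 u w).trans ?_
    rw [hC₂, mul_assoc]
    gcongr
    calc 1 + Y u ≤ 1 + C₁ * (E + X) := by
          gcongr
          exact h2 u
      _ = (1 + C₁ * E) + C₁ * X := by ring
      _ ≤ (1 + C₁ * E + C₁) + (1 + C₁ * E + C₁) * X :=
          add_le_add le_self_add (mul_le_mul' le_add_self le_rfl)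
      _ = _ := by ring
  have hXt : X ≠ ∞ := by
    rw [hX]
    have h4 : ∑' y, e y * Y y ≤ E * (F * E) := by
      calc ∑' y, e y * Y y ≤ ∑' y, e y * (F * E) := by
            refine ENNReal.tsum_le_tsum fun y => ?_
            gcongr
            rw [hY]
            calc ∑' y', S y y' * e y' ≤ ∑' y', F * e y' := by
                  refine ENNReal.tsum_le_tsum fun y' => ?_
                  gcongr
                  exact hF y y'
              _ = F * E := by rw [ENNReal.tsum_mul_left, hEe]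
        _ = _ := by rw [ENNReal.tsum_mul_right, hEe]
    exact ne_top_of_le_ne_top (ENNReal.mul_ne_top hE (ENNReal.mul_ne_top hFt hE)) h4
  have h4 : X ≤ M * s + 2 * (ε * E * C₂) * (1 + X) := by
    have a1 : ∀ y y', e y * (S y y' * e y') ≤
        (if y ∈ R then (if y' ∈ R then e y * e y' * (P y * P y') * s else 0) else 0) +
          (t y * e y' + e y * t y') * (C₂ * (1 + X)) := by
      intro y y'
      by_cases hy : y ∈ R
      · by_cases hy' : y' ∈ R
        · rw [if_pos hy, if_pos hy']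
          refine le_trans ?_ le_self_add
          calc e y * (S y y' * e y') ≤ e y * (P y * P y' * s * e y') := by
                gcongr
                exact hloc y y'
            _ = _ := by ring
        · have h5 : t y' = e y' := by
            rw [ht]
            exact Set.indicator_of_mem (by exact hy') e
          refine le_trans ?_ le_add_self
          rw [h5]
          calc e y * (S y y' * e y') ≤ e y * (C₂ * (1 + X) * e y') := by
                gcongr
                exact h3 y y'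
            _ = (e y * e y') * (C₂ * (1 + X)) := by ring
            _ ≤ _ := by
                gcongr
                exact le_add_self
      · have h5 : t y = e y := by
          rw [ht]
          exact Set.indicator_of_mem (by exact hy) e
        refine le_trans ?_ le_add_self
        rw [h5]
        calc e y * (S y y' * e y') ≤ e y * (C₂ * (1 + X) * e y') := by
              gcongr
              exact h3 y y'
          _ = (e y * e y') * (C₂ * (1 + X)) := by ring
          _ ≤ _ := by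
              gcongr
              exact le_self_add
    have a2 : X = ∑' y, ∑' y', e y * (S y y' * e y') := by
      rw [hX]
      refine tsum_congr fun y => ?_
      rw [ENNReal.tsum_mul_left, hY]
    rw [a2]
    conv_rhs => rw [← a2]
    calc ∑' y, ∑' y', e y * (S y y' * e y') ≤ ∑' y, ∑' y',
          ((if y ∈ R then (if y' ∈ R then e y * e y' * (P y * P y') * s else 0) else 0) +
          (t y * e y' + e y * t y') * (C₂ * (1 + X))) :=
          ENNReal.tsum_le_tsum fun y => ENNReal.tsum_le_tsum fun y' => a1 y y'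
      _ = (∑' y, ∑' y', (if y ∈ R then (if y' ∈ R then e y * e y' * (P y * P y') * s else 0)
          else 0)) + ∑' y, ∑' y', (t y * e y' + e y * t y') * (C₂ * (1 + X)) := by
          rw [← ENNReal.tsum_add]
          exact tsum_congr fun y => ENNReal.tsum_add
      _ = M * s + (ε * E + E * ε) * (C₂ * (1 + X)) := by
          congr 1
          · rw [tsum_eq_sum (s := R) (fun y hy => by simp [hy]), hM, Finset.sum_mul]
            refine Finset.sum_congr rfl fun y hy => ?_
            rw [tsum_eq_sum (s := R) (fun y' hy' => by simp [hy']), Finset.sum_mul]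
            refine Finset.sum_congr rfl fun y' hy' => ?_
            rw [if_pos hy, if_pos hy']
          · have a3 : ∀ y, ∑' y', (t y * e y' + e y * t y') * (C₂ * (1 + X)) =
                (t y * E + e y * ε) * (C₂ * (1 + X)) := by
              intro y
              rw [ENNReal.tsum_mul_right, ENNReal.tsum_add, ENNReal.tsum_mul_left,
                ENNReal.tsum_mul_left, ← hEe, ← hε]
            rw [tsum_congr a3, ENNReal.tsum_mul_right, ENNReal.tsum_add, ENNReal.tsum_mul_right,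
              ENNReal.tsum_mul_right, ← hEe, ← hε]
      _ = _ := by ring
  have h5 : X ≤ 2 * M * s + 1 := by
    have a1 : X ≤ M * s + 2⁻¹ * (1 + X) := h4.trans (by gcongr)
    have a2 : X + X ≤ 2 * M * s + 1 + X := by
      calc X + X = 2 * X := (two_mul X).symm
        _ ≤ 2 * (M * s + 2⁻¹ * (1 + X)) := by gcongr
        _ = 2 * M * s + (2 * 2⁻¹) * (1 + X) := by ring
        _ = 2 * M * s + 1 + X := by
            rw [ENNReal.mul_inv_cancel (by norm_num) (by norm_num), one_mul, add_assoc]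
    exact (ENNReal.add_le_add_iff_right hXt).1 a2
  intro u w
  calc S u w ≤ C₂ * (1 + X) := h3 u w
    _ ≤ C₂ * (1 + (2 * M * s + 1)) := by gcongr
    _ = C₂ * (2 + 2 * M * s) := by ring
    _ ≤ C₂ * (2 * s + 2 * M * s) := by
        gcongr
        calc (2 : ℝ≥0∞) = 2 * 1 := (mul_one 2).symm
          _ ≤ 2 * s := by gcongr
    _ = _ := by ring

end Pool.Agent.DL
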