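import Pool.Agent.DL.Dc
import Pool.Agent.DL.Last
import Pool.Agent.DL.Gs
import Pool.Agent.DL.Shi
import Pool.Agent.DL.ExK
import Pool.Agent.DL.Pw

/-!
# The square norm of the generating function
-/

set_option autoImplicit false
set_option linter.unusedSectionVars false

namespace Pool.Agent.DL

open Finset
open scoped ENNReal

namespace Dd

variable {D : ℕ} {q β : ℝ}

/-- Truncated sums of the generating function. -/
theorem SG_le_GI (J : ℝ) (z : ℝ≥0∞) (L : ℕ) (u w : Tv D) :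
    SG D q β J z L u w ≤ GI D q β J z u w := by
  unfold SG GI
  exact ENNReal.sum_le_tsum _

theorem GI_le_of_SG {J : ℝ} {z : ℝ≥0∞} {u w : Tv D} {X : ℝ≥0∞}
    (hX : ∀ L, SG D q β J z L u w ≤ X) : GI D q β J z u w ≤ X := by
  unfold GI
  refine ENNReal.tsum_le_of_sum_range_le fun n => ?_
  refine le_trans ?_ (hX n)
  unfold SG
  exact Finset.sum_le_sum_of_subset (Finset.range_mono (Nat.le_succ n))

theorem GI_trans (z : ℝ≥0∞) (y w : Tv D) : GI D q β 1 z y w = GI D q β 1 z 0 (w - y) := by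
  unfold GI
  refine tsum_congr fun n => ?_
  have h := GN_trans (D := D) (q := q) (β := β) n 0 (w - y) y
  rw [zero_add, sub_add_cancel] at h
  rw [h]

theorem one_le_SG {J1 : ℝ} (h : Reg D q β J1) (J : ℝ) (hJ : 1 ≤ J) (hJ1 : J ≤ J1)
    (z : ℝ≥0∞) (L : ℕ) : 1 ≤ SG D q β J z L 0 0 := by
  unfold SG
  refine le_trans ?_ (Finset.single_le_sum (f := fun n => z ^ n * GN D q β J n 0 0)
    (fun _ _ => zero_le) (Finset.mem_range.2 (Nat.succ_pos L)))
  rw [pow_zero, one_mul, GN_eq h J hJ hJ1]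
  have h0 : (((0 : ℕ) : ℤ), (0 : Tv D)) = ((0 : ℤ), (0 : Tv D)) := rfl
  rw [h0, pw_GG_self h.toBas (zero_le_one.trans hJ), ENNReal.ofReal_one]

end Dd

open Dd in
theorem l2_le {D : ℕ} {q β J1 : ℝ} (h : Reg D q β J1) (hB : S1B D q β) :
    ∃ δ C : ℝ, 0 < δ ∧ 0 < C ∧ ∀ J, Jok D q β J1 δ J → ∀ z ≤ zc D q β,
      ∑' w, GI D q β J z 0 w ^ 2 ≤
        ENNReal.ofReal C * GI D q β J z 0 0 ^ 2 * ∑' w, GI D q β 1 z 0 w ^ 2 := by
  obtain ⟨δ1, C1, hδ1, hC1, H1⟩ := sup_le h hB
  obtain ⟨δ2, C2, c, hδ2, hC2, hc, H2⟩ := last_line h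
  obtain ⟨K, hK⟩ : ∃ K, K = ∑' y : Tv D, ex c (SB.nt y) := ⟨_, rfl⟩
  have hKt : K ≠ ⊤ := hK ▸ tsum_ex_ne_top hc
  have hK1 : 1 ≤ K := by
    rw [hK]
    refine le_trans ?_ (ENNReal.le_tsum (0 : Tv D))
    rw [nt_zero', Nat.cast_zero, ex_zero]
  refine ⟨min δ1 δ2, (C2 * (3 + 2 * C1 * K.toReal) * K.toReal) ^ 2, lt_min hδ1 hδ2, ?_, ?_⟩
  · have hk : 0 < K.toReal := ENNReal.toReal_pos (zero_lt_one.trans_le hK1).ne' hKt
    positivity
  intro J hJ z hz
  have hJ1 : Jok D q β J1 δ1 J := ⟨hJ.h1, hJ.h2, by have := hJ.h3; have := min_le_left δ1 δ2; linarith⟩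
  have hJ2 : Jok D q β J1 δ2 J := ⟨hJ.h1, hJ.h2, by have := hJ.h3; have := min_le_right δ1 δ2; linarith⟩
  obtain ⟨e, he⟩ : ∃ e : Tv D → ℝ≥0∞, e = fun y => ex c (SB.nt y) := ⟨_, rfl⟩
  obtain ⟨g, hg⟩ : ∃ g : Tv D → ℝ≥0∞, g = fun w => GI D q β 1 z 0 w := ⟨_, rfl⟩
  obtain ⟨P, hP⟩ : ∃ P : Tv D → ℝ≥0∞, P = fun w => ∑' y : Tv D, e y * g (w - y) := ⟨_, rfl⟩
  have he' : ∀ y : Tv D, ex c (SB.nt y) = e y := fun y => by rw [he]
  have hKe : ∑' y, e y = K := by rw [hK, he]
  have he0 : e 0 = 1 := by rw [← he', nt_zero', Nat.cast_zero, ex_zero]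
  have hg0 : 1 ≤ g 0 := by
    rw [hg]
    exact (one_le_SG h 1 le_rfl h.hJ z 0).trans (SG_le_GI 1 z 0 0 0)
  have hgP : ∀ w, g w ≤ P w := by
    intro w
    rw [hP]
    refine le_trans ?_ (ENNReal.le_tsum (0 : Tv D))
    rw [he0, one_mul, sub_zero]
  have heP : ∀ w, e w ≤ P w := by
    intro w
    rw [hP]
    refine le_trans ?_ (ENNReal.le_tsum w)
    rw [sub_self]
    exact le_mul_of_one_le_right' hg0
  have hSg : ∀ L y w, SG D q β 1 z L y w ≤ g (w - y) := by
    intro L y w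
    rw [hg]
    exact (SG_le_GI 1 z L y w).trans (GI_trans z y w).le
  have key : ∀ L w, SG D q β J z L 0 w ≤
      ENNReal.ofReal (C2 * (3 + 2 * C1 * K.toReal)) * SG D q β J z L 0 0 * P w := by
    intro L w
    have hS := one_le_SG h J hJ.h1 hJ.h2 z L
    set S := SG D q β J z L 0 0 with hSdef
    have t1 : ex c (SB.nt (0 : Tv D)) * ex c (SB.nt w) ≤ S * P w := by
      rw [he', he', he0, one_mul]
      exact (heP w).trans (le_mul_of_one_le_left' hS)
    have t2 : SG D q β 1 z L 0 w ≤ S * P w := by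
      refine (hSg L 0 w).trans ?_
      rw [sub_zero]
      exact (hgP w).trans (le_mul_of_one_le_left' hS)
    have t3 : ∑' y, ex c (SB.nt (0 : Tv D)) * ex c (SB.nt y) * SG D q β 1 z L y w ≤
        S * P w := by
      refine le_trans ?_ (le_mul_of_one_le_left' hS)
      rw [hP]
      refine ENNReal.tsum_le_tsum fun y => ?_
      rw [he', he', he0, one_mul]
      exact mul_le_mul_right (hSg L y w) _
    have t4 : ∑' y, SG D q β J z L 0 y * ex c (SB.nt y) * ex c (SB.nt w) ≤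
        ENNReal.ofReal C1 * K * (S * P w) := by
      calc ∑' y, SG D q β J z L 0 y * ex c (SB.nt y) * ex c (SB.nt w)
          ≤ ∑' y, (ENNReal.ofReal C1 * S) * e y * P w := by
            refine ENNReal.tsum_le_tsum fun y => ?_
            rw [he', he']
            exact mul_le_mul' (mul_le_mul' (H1 J hJ1 z hz L 0 y) le_rfl) (heP w)
        _ = ENNReal.ofReal C1 * K * (S * P w) := by
            rw [ENNReal.tsum_mul_right, ENNReal.tsum_mul_left, hKe]
            ring
    have t5 : ∑' y, ∑' y', SG D q β J z L 0 y * ex c (SB.nt y) * ex c (SB.nt y') *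
        SG D q β 1 z L y' w ≤ ENNReal.ofReal C1 * K * (S * P w) := by
      calc ∑' y, ∑' y', SG D q β J z L 0 y * ex c (SB.nt y) * ex c (SB.nt y') *
          SG D q β 1 z L y' w
          ≤ ∑' y, ∑' y', ((ENNReal.ofReal C1 * S) * e y) * (e y' * g (w - y')) := by
            refine ENNReal.tsum_le_tsum fun y => ENNReal.tsum_le_tsum fun y' => ?_
            rw [he', he', mul_assoc (SG D q β J z L 0 y * e y)]
            exact mul_le_mul' (mul_le_mul' (H1 J hJ1 z hz L 0 y) le_rfl)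
              (mul_le_mul' le_rfl (hSg L y' w))
        _ = ENNReal.ofReal C1 * K * (S * P w) := by
            have h1 : ∀ y, ∑' y', ((ENNReal.ofReal C1 * S) * e y) * (e y' * g (w - y')) =
                ((ENNReal.ofReal C1 * S) * e y) * P w := by
              intro y
              rw [ENNReal.tsum_mul_left, hP]
            rw [tsum_congr h1, ENNReal.tsum_mul_right, ENNReal.tsum_mul_left, hKe]
            ring
    have hC : ENNReal.ofReal (C2 * (3 + 2 * C1 * K.toReal)) =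
        ENNReal.ofReal C2 * (3 + 2 * (ENNReal.ofReal C1 * K)) := by
      rw [ENNReal.ofReal_mul hC2.le, ENNReal.ofReal_add (by norm_num) (by positivity),
        ENNReal.ofReal_mul (by positivity), ENNReal.ofReal_mul (by norm_num),
        ENNReal.ofReal_toReal hKt]
      simp only [ENNReal.ofReal_ofNat]
      ring
    calc SG D q β J z L 0 w ≤ ENNReal.ofReal C2 * (S * P w + S * P w + S * P w +
          ENNReal.ofReal C1 * K * (S * P w) + ENNReal.ofReal C1 * K * (S * P w)) := by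
          refine (H2 J hJ2 z hz L 0 w).trans (mul_le_mul_right ?_ _)
          exact add_le_add (add_le_add (add_le_add (add_le_add t1 t2) t3) t4) t5
      _ = _ := by
          rw [hC]
          ring
  have key2 : ∀ w, GI D q β J z 0 w ≤
      ENNReal.ofReal (C2 * (3 + 2 * C1 * K.toReal)) * GI D q β J z 0 0 * P w := fun w =>
    GI_le_of_SG fun L => (key L w).trans
      (mul_le_mul_left (mul_le_mul_right (SG_le_GI J z L 0 0) _) _)
  calc ∑' w, GI D q β J z 0 w ^ 2
      ≤ ∑' w, (ENNReal.ofReal (C2 * (3 + 2 * C1 * K.toReal)) * GI D q β J z 0 0) ^ 2 *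
          P w ^ 2 := by
        refine ENNReal.tsum_le_tsum fun w => ?_
        rw [← mul_pow]
        exact pow_le_pow_left' (key2 w) 2
    _ ≤ (ENNReal.ofReal (C2 * (3 + 2 * C1 * K.toReal)) * GI D q β J z 0 0) ^ 2 *
          (K ^ 2 * ∑' w, g w ^ 2) := by
        rw [ENNReal.tsum_mul_left]
        refine mul_le_mul_right ?_ _
        rw [hP, ← hKe]
        exact young e g
    _ = _ := by
        have hC : ENNReal.ofReal ((C2 * (3 + 2 * C1 * K.toReal) * K.toReal) ^ 2) =
            (ENNReal.ofReal (C2 * (3 + 2 * C1 * K.toReal)) * K) ^ 2 := by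
          rw [ENNReal.ofReal_pow (by positivity), ENNReal.ofReal_mul (by positivity),
            ENNReal.ofReal_toReal hKt]
        rw [hC, hg]
        ring

end Pool.Agent.DL
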