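import Pool.Agent.DL.MG1

/-!
# The mass gap
-/

set_option autoImplicit false
set_option linter.unusedSectionVars false

namespace Pool.Agent.DL

open Finset

/-- The new sites are in a box. -/
theorem newp_sub {D : ℕ} {r R W n N : ℕ} {m0 m : ℤ} {x : Site D} {p : Fin D → ℤ}
    (hm : m ∈ grd (4 * r + 8) m0 n) (hp : ∀ i, |p i - x.2 i| ≤ W)
    (hN : ∀ i, |x.2 i| + W + R ≤ N) :
    newp r R m p ⊆ hb n (Finset.Icc (fun _ => -(N : ℤ)) fun _ => (N : ℤ)) := by
  intro u hu
  rw [grd, mem_filter, mem_Icc] at hm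
  rw [newp, mem_union, mem_image, mem_product] at hu
  rw [hb, mem_product, mem_Icc, mem_Icc]
  have h2 : ∀ i, p i - R ≤ u.2 i ∧ u.2 i ≤ p i + R := by
    intro i
    rcases hu with ⟨l, -, rfl⟩ | ⟨-, h3⟩
    · simp only; constructor <;> omega
    · rw [mem_Icc] at h3
      exact ⟨h3.1 i, h3.2 i⟩
  have h1 : m - r - 1 ≤ u.1 ∧ u.1 ≤ m + r + 1 := by
    rcases hu with ⟨l, h3, rfl⟩ | ⟨h3, -⟩
    · rw [mem_Icc] at h3
      constructor <;> simp only <;> omega
    · rw [mem_insert, mem_singleton] at h3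
      omega
  push_cast at hm
  refine ⟨⟨by omega, by omega⟩, ?_, ?_⟩
  · intro i
    have := hN i
    have h4 := hp i
    have h5 := h2 i
    rw [abs_le] at h4
    have h6 := neg_abs_le (x.2 i)
    simp only
    omega
  · intro i
    have := hN i
    have h4 := hp i
    have h5 := h2 i
    rw [abs_le] at h4
    have h6 := le_abs_self (x.2 i)
    simp only
    omega

theorem edg_mono' {D : ℕ} {Λ Λ' : Finset (Site D)} (h : Λ ⊆ Λ') : edg Λ ⊆ edg Λ' := by
  intro e he
  rw [edg, mem_filter, mem_product] at he ⊢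
  exact ⟨⟨h he.1.1, he.1.2⟩, h he.2⟩

/-- `n + 1` is at most a constant times an exponential. -/
theorem succ_le_exp {a n : ℝ} (ha : 0 < a) (hn : 0 ≤ n) :
    n + 1 ≤ (1 + 1 / a) * Real.exp (a * n) := by
  have h1 : a * n + 1 ≤ Real.exp (a * n) := Real.add_one_le_exp _
  have h2 : 0 < 1 / a := by positivity
  have h3 : n ≤ 1 / a * Real.exp (a * n) := by
    have : 1 / a * (a * n) ≤ 1 / a * Real.exp (a * n) :=
      mul_le_mul_of_nonneg_left (by linarith) h2.le
    have e : 1 / a * (a * n) = n := by field_simp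
    linarith
  have h4 : 1 ≤ Real.exp (a * n) := Real.one_le_exp (by positivity)
  nlinarith

theorem mg_a1 {Cs c κ z n : ℝ} (h : Cs + z + 2 ≤ c / 2 * κ) (hc : 0 < c) (hn : 0 ≤ n)
    (hz : 0 ≤ z) : Cs * (n + 1) - c / 2 * (κ * (n + 1) + 1) ≤ -(z + 2) * n := by
  have e1 : (Cs + z + 2) * (n + 1) ≤ c / 2 * κ * (n + 1) :=
    mul_le_mul_of_nonneg_right h (by positivity)
  nlinarith

theorem mg_a2 {z ξ μ n : ℝ} (h : ξ + μ ≤ z + 2) (hn : 0 ≤ n) :
    -(z + 2) * n ≤ -(ξ + μ) * n := by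
  have := mul_le_mul_of_nonneg_right h hn
  linarith

theorem mg_a3 {ξ ξ0 μ n Cc : ℝ} (h : μ ≤ ξ0 / 48) (hn : 0 ≤ n) :
    -(ξ + ξ0 / 48) * n + Cc ≤ Cc + -(ξ + μ) * n := by
  have := mul_le_mul_of_nonneg_right h hn
  linarith

theorem mg_a4 {ξ μ n l K1 C3 : ℝ} (h1 : n / (4 * C3) ≤ K1 + 1) (hl : 0 < l)
    (h2 : μ ≤ l / (4 * C3)) (hn : 0 ≤ n) : -ξ * n - K1 * l ≤ l + -(ξ + μ) * n := by
  have e4 : μ * n ≤ l * (n / (4 * C3)) := by
    calc μ * n ≤ l / (4 * C3) * n := mul_le_mul_of_nonneg_right h2 hn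
      _ = l * (n / (4 * C3)) := by ring
  have e5 : l * (n / (4 * C3)) ≤ l * (K1 + 1) := mul_le_mul_of_nonneg_left h1 hl.le
  linarith

theorem mg_a5 {ξ μ η κ n : ℝ} (h1 : η * κ ≤ μ / 4) (h2 : η ≤ μ / 4) (hμ : 0 < μ)
    (hn : 0 ≤ n) : η * (κ * (n + 1)) + μ / 4 * n + -(ξ + μ) * n ≤ η * κ + -(ξ + η) * n := by
  have w1 : η * κ * n ≤ μ / 4 * n := mul_le_mul_of_nonneg_right h1 hn
  have w2 : η * n ≤ μ / 4 * n := mul_le_mul_of_nonneg_right h2 hn
  have w3 : 0 ≤ μ * n := mul_nonneg hμ.le hn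
  linarith

/-- The mass gap: clusters with few nice good cuts are exponentially unlikely. -/
theorem mass_gap (D : ℕ) (q v0 vm ξ0 ξ1 Cs c : ℝ) (hq : 1 ≤ q) (hv0 : 0 < v0) (hξ0 : 0 < ξ0)
    (hCs : 0 ≤ Cs) (hc : 0 < c) : ∃ r0 : ℕ, ∀ r : ℕ, r0 ≤ r → ∃ ρ η C : ℝ, 0 < ρ ∧ 0 < η ∧ 0 < C ∧
      ∀ (ξ : ℝ) (v : Edge D → ℝ), ξ0 ≤ ξ → ξ ≤ ξ1 → Inp D q v0 vm ξ Cs c v →
      ∀ (n : ℕ) (m0 : ℤ) (x y : Site D), ∃ N : ℕ, ∀ Ed : Finset (Edge D),
        edg (hb n (Finset.Icc (fun _ => -(N : ℤ)) fun _ => (N : ℤ))) ⊆ Ed →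
        (lat D).cs q v Ed x (fun A _ =>
          ind (Adm n x y A ∧ ((ngc ξ0 r (4 * r + 8) m0 n A).card : ℝ) ≤ ρ * n) *
            Real.exp (η * A.card)) ≤ C * Real.exp (-(ξ + η) * n) := by
  obtain ⟨C1, hC1, hsp⟩ := span_prob D q v0 vm Cs c ξ1 hq hv0 hCs hc
  obtain ⟨r1, hr1⟩ := nnc_card hξ0 (D := D)
  obtain ⟨κ, hκ, hκc⟩ : ∃ κ : ℕ, 1 ≤ κ ∧ Cs + |ξ1| + 2 ≤ c / 2 * κ := by
    obtain ⟨κ, h⟩ := exists_nat_ge ((Cs + |ξ1| + 2) / (c / 2))
    refine ⟨κ + 1, by omega, ?_⟩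
    rw [div_le_iff₀ (by positivity)] at h
    push_cast
    nlinarith
  obtain ⟨r2, hr2⟩ := params D ξ0 ξ1 C1 (Real.log (1 + 3 * vm)) hξ0 hC1 κ hκ
  refine ⟨max r1 r2, fun r hr => ?_⟩
  set K : ℕ := 6 * (4 * r + 8) with hK
  clear_value K
  obtain ⟨p1, p2, p3, p4⟩ := hr2 r (le_trans (le_max_right _ _) hr) K hK
  obtain ⟨C2, hC2, hone⟩ := one_step D q v0 vm hq hv0 r (20 * κ * K) ξ0 hξ0 p4
  have hKpos : 0 < K := by omega
  have hKr : (0 : ℝ) < K := by exact_mod_cast hKpos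
  have hK1 : (1 : ℝ) ≤ K := by exact_mod_cast hKpos
  have hκr : (1 : ℝ) ≤ κ := by exact_mod_cast hκ
  set C3 : ℝ := 8 * K * max C2 1 with hC3
  have hC3a : 8 * K * C2 ≤ C3 := mul_le_mul_of_nonneg_left (le_max_left _ _) (by positivity)
  have hC3b : 8 * (K : ℝ) ≤ C3 := by
    have : 8 * (K : ℝ) * 1 ≤ C3 := mul_le_mul_of_nonneg_left (le_max_right _ _) (by positivity)
    linarith
  have hC30 : 0 < C3 := by linarith
  clear_value C3
  have hlog2 : 0 < Real.log 2 := Real.log_pos (by norm_num)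
  set μ0 : ℝ := min 1 (min (ξ0 / 48) (Real.log 2 / (4 * C3))) with hμ0
  have hμ : 0 < μ0 := lt_min one_pos (lt_min (by positivity) (by positivity))
  have hμ1 : μ0 ≤ 1 := min_le_left _ _
  have hμ2 : μ0 ≤ ξ0 / 48 := (min_le_right _ _).trans (min_le_left _ _)
  have hμ3 : μ0 ≤ Real.log 2 / (4 * C3) := (min_le_right _ _).trans (min_le_right _ _)
  clear_value μ0
  set η : ℝ := min (c / 2) (μ0 / (4 * κ)) with hη
  have hη0 : 0 < η := lt_min (by positivity) (by positivity)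
  have hη1 : η ≤ c / 2 := min_le_left _ _
  have hη2 : η * κ ≤ μ0 / 4 := by
    have : η ≤ μ0 / (4 * κ) := min_le_right _ _
    calc η * κ ≤ μ0 / (4 * κ) * κ := mul_le_mul_of_nonneg_right this (by positivity)
      _ = μ0 / 4 := by field_simp
  have hη3 : η ≤ μ0 / 4 := by nlinarith
  clear_value η
  set T1 : ℝ := (1 - Real.exp (-(c / 2)))⁻¹ with hT1
  have hT10 : 0 < T1 := by
    rw [hT1]
    apply inv_pos.mpr
    have : Real.exp (-(c / 2)) < 1 := by rw [Real.exp_lt_one_iff]; linarith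
    linarith
  clear_value T1
  set P1 : ℝ := C1 * (K : ℝ) ^ (2 * D + 2) with hP1
  have hP11 : 1 ≤ P1 := by
    have : (1 : ℝ) ≤ (K : ℝ) ^ (2 * D + 2) := one_le_pow₀ hK1
    rw [hP1]
    nlinarith
  clear_value P1
  set Cc : ℝ := Real.log P1 + 3 * ξ1 * K + 2 * κ * Real.log (1 + 3 * vm) with hCc
  set B1 : ℝ := T1 + 6 * K * Real.exp Cc with hB1
  have hB10 : 0 < B1 := by positivity
  clear_value B1 Cc
  set n0 : ℕ := 8 * K with hn0
  clear_value n0
  set C : ℝ := T1 * Real.exp (Cs * (n0 + 1) + (|ξ1| + 1) * n0) + T1 +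
    Real.exp (η * κ) * (1 + 1 / (μ0 / 4)) * (2 * B1 + 2) with hCdef
  refine ⟨1 / (8 * C3), η, C, by positivity, hη0, by positivity, ?_⟩
  clear_value C
  intro ξ v h0 h01 hInp n m0 x y
  have hv : ∀ e, 0 ≤ v e := fun e => hv0.le.trans (hInp.lo e)
  have hξ1' : ξ ≤ |ξ1| := h01.trans (le_abs_self _)
  have hξp : 0 < ξ := by linarith
  set W : ℕ := κ * (n + 1) with hW
  clear_value W
  -- the size of the box
  obtain ⟨N, hN⟩ : ∃ N : ℕ, ∀ i, |x.2 i| + (W : ℤ) + ((20 * κ * K : ℕ) : ℤ) ≤ N := by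
    refine ⟨(∑ i, (x.2 i).natAbs) + W + 20 * κ * K, fun i => ?_⟩
    have h1 : (x.2 i).natAbs ≤ ∑ i, (x.2 i).natAbs :=
      single_le_sum (f := fun i => (x.2 i).natAbs) (fun _ _ => Nat.zero_le _) (mem_univ i)
    have h2 : |x.2 i| = ((x.2 i).natAbs : ℤ) := Int.abs_eq_natAbs _
    rw [h2]
    push_cast
    have h3 : ((x.2 i).natAbs : ℤ) ≤ ((∑ i, (x.2 i).natAbs : ℕ) : ℤ) := by exact_mod_cast h1
    push_cast at h3
    linarith
  refine ⟨N, fun Ed hEd => ?_⟩
  rcases lt_or_ge n n0 with hn | hn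
  · -- small `n`
    have h1 := adm_tail hq hv0 hc hInp hη1 n Ed x y 0
    rw [← hT1] at h1
    have h2 : (lat D).cs q v Ed x (fun A _ =>
          ind (Adm n x y A ∧ ((ngc ξ0 r (4 * r + 8) m0 n A).card : ℝ) ≤ 1 / (8 * C3) * n) *
            Real.exp (η * A.card)) ≤
        (lat D).cs q v Ed x (fun A _ => ind (Adm n x y A ∧ 0 ≤ A.card) *
          Real.exp (η * A.card)) := by
      refine (lat D).cs_mono q v (by linarith) hv Ed x _ _ ?_
      intro A E _ _ _ _
      exact mul_le_mul_of_nonneg_right (ind_mono fun h => ⟨h.1, Nat.zero_le _⟩)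
        (Real.exp_nonneg _)
    refine (h2.trans h1).trans ?_
    have hnn : (n : ℝ) ≤ n0 := by exact_mod_cast hn.le
    have h3 : T1 * Real.exp (Cs * (n + 1) - c / 2 * ((0 : ℕ) : ℝ)) ≤
        T1 * Real.exp (Cs * (n0 + 1) + (|ξ1| + 1) * n0) * Real.exp (-(ξ + η) * n) := by
      rw [mul_assoc, ← Real.exp_add]
      apply mul_le_mul_of_nonneg_left _ hT10.le
      apply Real.exp_le_exp.mpr
      have e1 : Cs * ((n : ℝ) + 1) ≤ Cs * (n0 + 1) := mul_le_mul_of_nonneg_left (by linarith) hCs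
      have e2 : (ξ + η) * n ≤ (|ξ1| + 1) * n0 := by
        apply mul_le_mul (by linarith) hnn (by positivity) (by positivity)
      push_cast
      linarith
    refine h3.trans ?_
    apply mul_le_mul_of_nonneg_right _ (Real.exp_nonneg _)
    rw [hCdef]
    have : 0 < Real.exp (η * κ) * (1 + 1 / (μ0 / 4)) * (2 * B1 + 2) := by positivity
    linarith
  · -- large `n`
    have hnpos : 0 < n := by omega
    have hnr : (0 : ℝ) < n := by exact_mod_cast hnpos
    set X : ℝ := Real.exp (-(ξ + μ0) * n) with hX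
    have hX0 : 0 < X := Real.exp_pos _
    clear_value X
    have hWr : (W : ℝ) = κ * (n + 1) := by rw [hW]; push_cast; ring
    have htail : Cs * ((n : ℝ) + 1) - c / 2 * ((W + 1 : ℕ) : ℝ) ≤ -(|ξ1| + 2) * n := by
      push_cast
      rw [hWr]
      exact mg_a1 hκc hc hnr.le (abs_nonneg _)
    -- the exceptional part
    have hρ : (lat D).cs q v Ed x (fun A _ => ind (Adm n x y A ∧ W + 1 ≤ A.card)) +
      (lat D).cs q v Ed x (fun A _ => ind (Adm n x y A ∧ A.card ≤ W ∧
      ((cln ξ0 r (20 * κ * K) (4 * r + 8) m0 n A).card : ℝ) +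
        (ngc ξ0 r (4 * r + 8) m0 n A).card < n / (4 * K))) ≤ B1 * X := by
      have b1 := adm_tail hq hv0 hc hInp (η := 0) (by positivity) n Ed x y (W + 1)
      rw [← hT1] at b1
      simp only [zero_mul, Real.exp_zero, mul_one] at b1
      have b2 := bad_prob hq hv0 hξ0 h0 h01 hInp hκ hK hP11 (fun a Ed' hs' x' h' hh' => by
        rw [hP1]
        exact hsp ξ v hξp h01 hInp K a Ed' hKpos hs' x' h' hh') p1 p2 p3
        (fun A m0' n' => hr1 r (le_trans (le_max_left _ _) hr) A m0' n') n (hn0 ▸ hn) m0 x y Ed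
      rw [← hCc, ← hW] at b2
      have b3 : T1 * Real.exp (Cs * (n + 1) - c / 2 * ((W + 1 : ℕ) : ℝ)) ≤ T1 * X := by
        rw [hX]
        apply mul_le_mul_of_nonneg_left _ hT10.le
        apply Real.exp_le_exp.mpr
        exact htail.trans (mg_a2 (by linarith) hnr.le)
      have b4 : 6 * K * Real.exp (-(ξ + ξ0 / 48) * n + Cc) ≤ 6 * K * Real.exp Cc * X := by
        rw [hX, mul_assoc, mul_assoc, mul_assoc, ← Real.exp_add]
        apply mul_le_mul_of_nonneg_left _ (by norm_num)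
        apply mul_le_mul_of_nonneg_left _ hKr.le
        apply Real.exp_le_exp.mpr
        exact mg_a3 hμ2 hnr.le
      have b5 : B1 * X = T1 * X + 6 * K * Real.exp Cc * X := by rw [hB1]; ring
      rw [b5]
      exact add_le_add (b1.trans b3) (b2.trans b4)
    set K1 : ℕ := ⌊(n : ℝ) / (4 * C3)⌋₊ with hK1def
    have hK1le : 4 * C3 * K1 ≤ n := by
      have := Nat.floor_le (show 0 ≤ (n : ℝ) / (4 * C3) by positivity)
      rw [le_div_iff₀ (by positivity)] at this
      rw [hK1def]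
      linarith
    set a : ℕ → ℝ := fun k => (lat D).cs q v Ed x (fun A _ =>
          ind (Adm n x y A ∧ (ngc ξ0 r (4 * r + 8) m0 n A).card = k)) with ha
    have hone' : ∀ k : ℕ, (lat D).cs q v Ed x (fun A _ =>
          ind (Adm n x y A ∧ A.card ≤ W ∧ (ngc ξ0 r (4 * r + 8) m0 n A).card = k) *
            ((cln ξ0 r (20 * κ * K) (4 * r + 8) m0 n A).card : ℝ)) ≤
        C2 * (k + 1) * (lat D).cs q v Ed x (fun A _ =>
          ind (Adm n x y A ∧ (ngc ξ0 r (4 * r + 8) m0 n A).card = k + 1)) := by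
      intro k
      refine hone v hInp.lo hInp.hi Ed n m0 x y W k ?_
      intro m hm p hp
      exact (edg_mono' (newp_sub hm hp hN)).trans hEd
    have hrec := recur_main a (B1 * X) (Real.exp (-ξ * n)) C3 n K1
      (fun k => (lat D).cs_nonneg q v (by linarith) hv Ed x _ fun A E => ind_nonneg _)
      (by positivity) (Real.exp_nonneg _) hnr hC30 hK1le ?_ ?_
    rotate_left
    · intro k hk
      have hk' : (k : ℝ) ≤ n / (8 * K) := by
        rw [le_div_iff₀ (by positivity)]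
        have e1 : (k : ℝ) + 1 ≤ 2 * K1 := by exact_mod_cast hk
        have e2 : (k : ℝ) * C3 ≤ (2 * K1) * C3 :=
          mul_le_mul_of_nonneg_right (by linarith) hC30.le
        have e3 : (k : ℝ) * (8 * K) ≤ k * C3 :=
          mul_le_mul_of_nonneg_left hC3b (by positivity)
        linarith
      have h1 := rec_step hq hv0 hInp hKpos hnpos hone' hρ k hk'
      refine h1.trans ?_
      have h2 : 8 * K * C2 * ((k : ℝ) + 1) / n ≤ C3 * (k + 1) / n := by
        apply div_le_div_of_nonneg_right _ hnr.le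
        exact mul_le_mul_of_nonneg_right hC3a (by positivity)
      have h3 : 0 ≤ a (k + 1) :=
        (lat D).cs_nonneg q v (by linarith) hv Ed x _ fun A E => ind_nonneg _
      have h4 := mul_le_mul_of_nonneg_right h2 h3
      linarith
    · intro k
      exact adm_le hq hv0 hInp n Ed x y fun A => (ngc ξ0 r (4 * r + 8) m0 n A).card = k
    -- the sum
    have hK1n : (K1 : ℝ) ≤ n := by
      have e1 : (1 : ℝ) ≤ 4 * C3 := by linarith
      have : (K1 : ℝ) * 1 ≤ K1 * (4 * C3) := mul_le_mul_of_nonneg_left e1 (by positivity)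
      linarith
    have h2K : Real.exp (-ξ * n) / 2 ^ K1 ≤ 2 * X := by
      have e1 : (n : ℝ) / (4 * C3) ≤ K1 + 1 := (Nat.lt_floor_add_one _).le
      have e2 : (2 : ℝ) ^ K1 = Real.exp (K1 * Real.log 2) := by
        rw [Real.exp_nat_mul, Real.exp_log (by norm_num)]
      have e3 : (2 : ℝ) * X = Real.exp (Real.log 2 + -(ξ + μ0) * n) := by
        rw [Real.exp_add, Real.exp_log (by norm_num), hX]
      rw [e2, e3, ← Real.exp_sub]
      apply Real.exp_le_exp.mpr
      exact mg_a4 e1 hlog2 hμ3 hnr.le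
    have hsum : ∑ k ∈ range (K1 + 1), a k ≤ (n + 1) * ((2 * B1 + 2) * X) := by
      refine hrec.trans ?_
      apply mul_le_mul (by linarith) _ (by positivity) (by positivity)
      linarith
    -- the pointwise bound
    have key : ∀ A E, (lat D).IsCl A E → x ∈ A → A ⊆ (lat D).vs Ed x → E ⊆ Ed →
        ind (Adm n x y A ∧ ((ngc ξ0 r (4 * r + 8) m0 n A).card : ℝ) ≤ 1 / (8 * C3) * n) *
            Real.exp (η * A.card) ≤
        ind (Adm n x y A ∧ W + 1 ≤ A.card) * Real.exp (η * A.card) +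
          Real.exp (η * W) * ∑ k ∈ range (K1 + 1),
            ind (Adm n x y A ∧ (ngc ξ0 r (4 * r + 8) m0 n A).card = k) := by
      intro A E _ _ _ _
      have s1 : 0 ≤ ∑ k ∈ range (K1 + 1),
            ind (Adm n x y A ∧ (ngc ξ0 r (4 * r + 8) m0 n A).card = k) :=
        sum_nonneg fun k _ => ind_nonneg _
      have s2 : 0 ≤ ind (Adm n x y A ∧ W + 1 ≤ A.card) * Real.exp (η * A.card) :=
        mul_nonneg (ind_nonneg _) (Real.exp_nonneg _)
      by_cases hP : Adm n x y A ∧ ((ngc ξ0 r (4 * r + 8) m0 n A).card : ℝ) ≤ 1 / (8 * C3) * n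
      · rw [ind_true hP, one_mul]
        by_cases hA : W + 1 ≤ A.card
        · rw [ind_true ⟨hP.1, hA⟩, one_mul]
          have := mul_nonneg (Real.exp_nonneg (η * W)) s1
          linarith
        · have hA' : (A.card : ℝ) ≤ W := by
            have : A.card ≤ W := by omega
            exact_mod_cast this
          have h1 : (1 : ℝ) ≤ ∑ k ∈ range (K1 + 1),
            ind (Adm n x y A ∧ (ngc ξ0 r (4 * r + 8) m0 n A).card = k) := by
            have h2 : (ngc ξ0 r (4 * r + 8) m0 n A).card ∈ range (K1 + 1) := by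
              rw [mem_range, Nat.lt_succ_iff, hK1def]
              apply Nat.le_floor
              refine hP.2.trans ?_
              rw [div_mul_eq_mul_div, one_mul]
              apply div_le_div_of_nonneg_left hnr.le (by positivity) (by linarith)
            have h3 := single_le_sum (f := fun k =>
              ind (Adm n x y A ∧ (ngc ξ0 r (4 * r + 8) m0 n A).card = k))
              (fun k _ => ind_nonneg _) h2
            rw [ind_true ⟨hP.1, rfl⟩] at h3
            exact h3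
          have h4 : Real.exp (η * A.card) ≤ Real.exp (η * W) :=
            Real.exp_le_exp.mpr (mul_le_mul_of_nonneg_left hA' hη0.le)
          have h5 : Real.exp (η * W) * 1 ≤ Real.exp (η * W) * ∑ k ∈ range (K1 + 1),
            ind (Adm n x y A ∧ (ngc ξ0 r (4 * r + 8) m0 n A).card = k) :=
            mul_le_mul_of_nonneg_left h1 (Real.exp_nonneg _)
          linarith
      · rw [ind_false hP, zero_mul]
        have := mul_nonneg (Real.exp_nonneg (η * W)) s1
        linarith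
    refine ((lat D).cs_mono q v (by linarith) hv Ed x _ _ key).trans ?_
    rw [(lat D).cs_add, (lat D).cs_smul, Gr.cs_sum]
    have t1 := adm_tail hq hv0 hc hInp hη1 n Ed x y (W + 1)
    rw [← hT1] at t1
    have t2 : T1 * Real.exp (Cs * (n + 1) - c / 2 * ((W + 1 : ℕ) : ℝ)) ≤
        T1 * Real.exp (-(ξ + η) * n) := by
      apply mul_le_mul_of_nonneg_left _ hT10.le
      apply Real.exp_le_exp.mpr
      exact htail.trans (mg_a2 (by linarith) hnr.le)
    have t3 : Real.exp (η * W) * ∑ k ∈ range (K1 + 1), a k ≤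
        Real.exp (η * κ) * (1 + 1 / (μ0 / 4)) * (2 * B1 + 2) * Real.exp (-(ξ + η) * n) := by
      have u1 := succ_le_exp (a := μ0 / 4) (n := n) (by positivity) hnr.le
      calc Real.exp (η * W) * ∑ k ∈ range (K1 + 1), a k
          ≤ Real.exp (η * W) * ((n + 1) * ((2 * B1 + 2) * X)) :=
            mul_le_mul_of_nonneg_left hsum (Real.exp_nonneg _)
        _ ≤ Real.exp (η * W) * (((1 + 1 / (μ0 / 4)) * Real.exp (μ0 / 4 * n)) *
              ((2 * B1 + 2) * X)) := by
            apply mul_le_mul_of_nonneg_left _ (Real.exp_nonneg _)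
            exact mul_le_mul_of_nonneg_right u1 (by positivity)
        _ = (1 + 1 / (μ0 / 4)) * (2 * B1 + 2) *
              (Real.exp (η * W) * Real.exp (μ0 / 4 * n) * X) := by ring
        _ ≤ (1 + 1 / (μ0 / 4)) * (2 * B1 + 2) *
              (Real.exp (η * κ) * Real.exp (-(ξ + η) * n)) := by
            apply mul_le_mul_of_nonneg_left _ (by positivity)
            rw [hX, ← Real.exp_add, ← Real.exp_add, ← Real.exp_add]
            apply Real.exp_le_exp.mpr
            rw [hWr]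
            exact mg_a5 hη2 hη3 hμ hnr.le
        _ = _ := by ring
    have t4 : C * Real.exp (-(ξ + η) * n) =
        T1 * Real.exp (Cs * (n0 + 1) + (|ξ1| + 1) * n0) * Real.exp (-(ξ + η) * n) +
        T1 * Real.exp (-(ξ + η) * n) +
        Real.exp (η * κ) * (1 + 1 / (μ0 / 4)) * (2 * B1 + 2) * Real.exp (-(ξ + η) * n) := by
      rw [hCdef]; ring
    have t5 : 0 ≤ T1 * Real.exp (Cs * (n0 + 1) + (|ξ1| + 1) * n0) *
      Real.exp (-(ξ + η) * n) := by positivity
    rw [t4]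
    linarith [t1.trans t2]

end Pool.Agent.DL
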