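import Pool.Agent.DL.Sz2
import Pool.Agent.DL.Csp
import Pool.Agent.DL.Pw
import Pool.Agent.DL.MG

/-!
# Few cuts are exponentially unlikely; large clusters are unlikely

`few_cuts` is the mass gap `mass_gap` in terms of the cuts of a cluster (heights with one vertical
edge). `large_cl` is a consequence of the bound of the size of clusters in slabs.
-/

set_option autoImplicit false
set_option linter.unusedSectionVars false

namespace Pool.Agent.DL

open Finset

namespace Fc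

variable {D : ℕ}

/-- The ends of the edges of `Ed`. -/
def endp (Ed : Finset (Edge D)) : Finset (Site D) := Ed.image (lat D).s ∪ Ed.image (lat D).t

theorem subset_edg_endp (Ed : Finset (Edge D)) : Ed ⊆ edg (endp Ed) := by
  intro e he
  rw [csp_mem_edg]
  exact ⟨mem_union_left _ (mem_image_of_mem _ he), mem_union_right _ (mem_image_of_mem _ he)⟩

theorem endp_slab {a : ℤ} {s : ℕ} {Ed : Finset (Edge D)} (h : Slab a s Ed) :
    ∀ x ∈ endp Ed, a ≤ x.1 ∧ x.1 ≤ a + s := by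
  intro x hx
  unfold endp at hx
  rcases mem_union.1 hx with hx | hx
  · obtain ⟨e, he, rfl⟩ := mem_image.1 hx
    have h1 := h e he
    have h2 := mga_edge_height e
    exact ⟨h1.1, h2.1.trans h1.2⟩
  · obtain ⟨e, he, rfl⟩ := mem_image.1 hx
    have h1 := h e he
    have h2 := mga_edge_height e
    exact ⟨h1.1.trans h2.1, h1.2⟩

theorem big_of_cls {ω : Finset (Edge D)} {x : Site D} {k : ℕ} {A : Finset (Site D)}
    {E : Finset (Edge D)} (h : (lat D).Cls ω x A E) (hk : k ≤ A.card) : (lat D).big ω x k :=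
  ⟨A, hk, fun y hy => ((lat D).cls_iff h y).1 hy⟩

theorem inc_big (x : Site D) (k : ℕ) : Gr.Inc (fun ω => (lat D).big ω x k) := by
  intro a b hab h
  obtain ⟨A, hk, hA⟩ := h
  exact ⟨A, hk, fun y hy => (lat D).rch_mono hab (hA y hy)⟩

theorem le_vJ {β J : ℝ} (hβ : 0 ≤ β) (hJ : 1 ≤ J) (e : Edge D) : Real.exp β - 1 ≤ vJ β J e := by
  unfold vJ
  split_ifs
  · have : β ≤ β * J := by nlinarith
    have := Real.exp_le_exp.2 this
    linarith
  · exact le_rfl

theorem vJ_le' {β J J1 : ℝ} (hβ : 0 ≤ β) (hJ : J ≤ J1) (h1 : 1 ≤ J1) (e : Edge D) :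
    vJ β J e ≤ Real.exp (β * J1) - 1 := by
  unfold vJ
  split_ifs
  · have : β * J ≤ β * J1 := mul_le_mul_of_nonneg_left hJ hβ
    have := Real.exp_le_exp.2 this
    linarith
  · have : β ≤ β * J1 := by nlinarith
    have := Real.exp_le_exp.2 this
    linarith

/-- The inputs of the mass gap. -/
theorem inp_of_reg {D : ℕ} {q β J1 : ℝ} (h : Reg D q β J1) :
    ∃ Cs c : ℝ, 0 < Cs ∧ 0 < c ∧ ∀ J, 1 ≤ J → J ≤ J1 →
      Inp D q (Real.exp β - 1) (Real.exp (β * J1) - 1) (xiR D q β J) Cs c (vJ β J) := by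
  obtain ⟨Cs, c, hCs, hc, hsz⟩ := size_slab h.toBas J1
  refine ⟨Cs, c, hCs, hc, fun J hJ hJ1 => ?_⟩
  have hJ0 : 0 ≤ J := by linarith
  have hq : 0 < q := lt_of_lt_of_le one_pos h.hq
  have hv : ∀ e : Edge D, 0 ≤ vJ β J e := fun e => vJ_nonneg h.hβ.le hJ0 e
  refine ⟨fun e => le_vJ h.hβ.le hJ e, fun e => vJ_le' h.hβ.le hJ1 h.hJ e, ?_, ?_⟩
  · intro Ed u w
    have h1 : (lat D).tp q (vJ β J) Ed u w ≤ TT D q β J (endp Ed) u w :=
      (lat D).tp_mono_edges q _ h.hq hv (subset_edg_endp Ed) u w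
    have h2 := (h1.trans (TT_le_GG h.toBas hJ0 _ u w)).trans (pointwise h.toBas hJ u w)
    refine h2.trans (le_of_eq ?_)
    congr 1
    push_cast
    ring
  · intro a s Ed hS x k
    have h1 := hsz J hJ0 hJ1 (endp Ed) a s (endp_slab hS) x k
    refine le_trans ?_ h1
    rw [(lat D).cs_ind q (vJ β J) hq hv Ed x fun A _ => k ≤ A.card]
    have h2 : (lat D).pr q (vJ β J) Ed (fun ω => ∃ A E, (lat D).Cls ω x A E ∧ k ≤ A.card) ≤
        (lat D).pr q (vJ β J) Ed (fun ω => (lat D).big ω x k) := by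
      refine (lat D).pr_le q _ hq hv Ed _ _ fun ω _ hω => ?_
      obtain ⟨A, E, hA, hk⟩ := hω
      exact big_of_cls hA hk
    exact h2.trans ((lat D).pr_mono_edges q _ h.hq hv (subset_edg_endp Ed) _ (inc_big x k))

open Classical in
/-- The weighted cluster sum over a volume is bounded by the one over its edges. -/
theorem csf_le_cs {D : ℕ} {q β J : ℝ} (h : Bas D q β) (hJ : 0 ≤ J) (Λ : Finset (Site D))
    (u : Site D) (P : Finset (Site D) → Finset (Edge D) → Prop)
    (F : Finset (Site D) → Finset (Edge D) → ℝ) (hF : ∀ A E, 0 ≤ F A E) :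
    csf D q β J Λ (fun A E => u ∈ A ∧ P A E) F ≤
      (lat D).cs q (vJ β J) (edg Λ) u (fun A E => ind (A ⊆ Λ ∧ P A E) * F A E) := by
  have hq : 0 < q := lt_of_lt_of_le one_pos h.hq
  have hv : ∀ e : Edge D, 0 ≤ vJ β J e := fun e => vJ_nonneg h.hβ.le hJ e
  have e1 : csf D q β J Λ (fun A E => u ∈ A ∧ P A E) F =
      ∑ c ∈ Λ.powerset ×ˢ (edg Λ).powerset,
        if (lat D).IsCl c.1 c.2 ∧ u ∈ c.1 ∧ P c.1 c.2 then
          WW D q β J c.1 c.2 * ZZ D q β J Λ c.1 * F c.1 c.2 else 0 := by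
    unfold csf
    rw [Finset.sum_product]
    refine Finset.sum_congr rfl fun A _ => Finset.sum_congr rfl fun E _ => ?_
    by_cases hc : (lat D).IsCl A E ∧ u ∈ A ∧ P A E
    · exact (if_pos hc).trans (if_pos hc).symm
    · exact (if_neg hc).trans (if_neg hc).symm
  rw [(lat D).mga_cs_prod, e1, ← Finset.sum_filter, ← Finset.sum_filter]
  have hnn : ∀ c : Finset (Site D) × Finset (Edge D),
      0 ≤ Gr.cw q (vJ β J) c.1 c.2 * (lat D).ze q (vJ β J) (edg Λ) c.1 := fun c =>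
    mul_nonneg (Gr.mga_cw_nonneg q _ hq hv c.1 c.2) ((lat D).ze_pos q _ hq hv _ _).le
  refine le_trans (le_of_eq (Finset.sum_congr rfl fun c hc => ?_))
    (Finset.sum_le_sum_of_subset_of_nonneg (f := fun c : Finset (Site D) × Finset (Edge D) =>
      Gr.cw q (vJ β J) c.1 c.2 * (lat D).ze q (vJ β J) (edg Λ) c.1 *
        (ind (c.1 ⊆ Λ ∧ P c.1 c.2) * F c.1 c.2)) ?_ ?_)
  · rw [Finset.mem_filter, Finset.mem_product, Finset.mem_powerset, Finset.mem_powerset] at hc
    rw [ind_true ⟨hc.1.1, hc.2.2.2⟩, one_mul]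
    rfl
  · intro c hc
    rw [Finset.mem_filter, Finset.mem_product, Finset.mem_powerset, Finset.mem_powerset] at hc ⊢
    exact ⟨⟨(lat D).isCl_subset_vs hc.2.1 hc.2.2.1 hc.1.2, hc.1.2⟩, hc.2.1, hc.2.2.1⟩
  · intro c _ _
    exact mul_nonneg (hnn c) (mul_nonneg (ind_nonneg _) (hF _ _))

/-- A connected set that contains points below and above has a vertical edge. -/
theorem upE_nonempty {D : ℕ} {A : Finset (Site D)} {E : Finset (Edge D)} (h : (lat D).IsCl A E)
    {u w : Site D} (hu : u ∈ A) (hw : w ∈ A) {m : ℤ} (h1 : u.1 ≤ m) (h2 : m + 1 ≤ w.1) :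
    (upE E m).Nonempty := by
  have key : ∀ y : Site D, (lat D).Rch E u y → m + 1 ≤ y.1 → (upE E m).Nonempty := by
    intro y hy
    unfold Gr.Rch at hy
    induction hy with
    | refl => intro h3; omega
    | tail hab hbc ih =>
      rename_i b c
      intro h3
      by_cases hb : m + 1 ≤ b.1
      · exact ih hb
      · obtain ⟨e, he, h4⟩ := hbc
        refine ⟨e, ?_⟩
        unfold upE
        rw [Finset.mem_filter]
        refine ⟨he, ?_⟩
        obtain ⟨x, o⟩ := e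
        cases o with
        | none =>
          refine ⟨rfl, ?_⟩
          simp only [lat, SB.dir] at h4
          rcases h4 with ⟨h5, h6⟩ | ⟨h5, h6⟩
          · rw [← h6] at h3; rw [← h5] at hb
            simp at h3 hb ⊢
            omega
          · rw [← h5] at h3; rw [← h6] at hb
            simp at h3 hb ⊢
            omega
        | some i =>
          exfalso
          simp only [lat, SB.dir] at h4
          rcases h4 with ⟨h5, h6⟩ | ⟨h5, h6⟩
          · rw [← h6] at h3; rw [← h5] at hb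
            simp at h3 hb
            omega
          · rw [← h5] at h3; rw [← h6] at hb
            simp at h3 hb
            omega
  exact key w (h.2.2 u hu w hw) h2

/-- A good cut is a cut. -/
theorem ngc_le_cuts {D : ℕ} {ξ : ℝ} {r g : ℕ} (hg : 0 < g) {m0 : ℤ} {n : ℕ} {x y : Site D}
    {A : Finset (Site D)} {E : Finset (Edge D)} (h : (lat D).IsCl A E) (ha : Adm n x y A) :
    (ngc ξ r g m0 n A).card ≤ (cuts E n).card := by
  classical
  refine Finset.card_le_card_of_injOn Int.toNat ?_ ?_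
  · intro m hm
    have hm' : m ∈ ngc ξ r g m0 n A := hm
    unfold ngc at hm'
    rw [Finset.mem_filter] at hm'
    obtain ⟨hm1, ⟨p, hp⟩, _⟩ := hm'
    unfold grd at hm1
    rw [Finset.mem_filter, Finset.mem_Icc] at hm1
    have h0 : 0 ≤ m := by omega
    have hmn : m < n := by omega
    have hcast : ((Int.toNat m : ℕ) : ℤ) = m := Int.toNat_of_nonneg h0
    show Int.toNat m ∈ cuts E n
    unfold cuts
    rw [Finset.mem_filter, Finset.mem_range]
    refine ⟨by omega, ?_⟩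
    rw [hcast]
    have hne : (upE E m).Nonempty :=
      upE_nonempty h ha.1 ha.2.1 (by rw [ha.2.2.1]; exact h0) (by rw [ha.2.2.2.1]; omega)
    have hsub : upE E m ⊆ {(((m, p) : Site D), none)} := by
      intro e he
      unfold upE at he
      rw [Finset.mem_filter] at he
      have h3 := (h.2.1 e he.1).1
      have h4 : (lat D).s e ∈ lvl A m := by
        unfold lvl
        rw [Finset.mem_filter]
        exact ⟨h3, he.2.2⟩
      rw [hp m (by simp), Finset.mem_singleton] at h4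
      rw [Finset.mem_singleton]
      exact Prod.ext h4 he.2.1
    exact le_antisymm ((Finset.card_le_card hsub).trans (by simp)) hne.card_pos
  · intro a ha' b hb' hab
    have h1 : a ∈ ngc ξ r g m0 n A := ha'
    have h2 : b ∈ ngc ξ r g m0 n A := hb'
    unfold ngc grd at h1 h2
    rw [Finset.mem_filter, Finset.mem_filter, Finset.mem_Icc] at h1 h2
    have : Int.toNat a = Int.toNat b := hab
    omega

theorem adm_of_hb {D : ℕ} {n : ℕ} {T : Finset (Fin D → ℤ)} {u w : Site D} (hu1 : u.1 = 0)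
    (hw1 : w.1 = n) {A : Finset (Site D)} (hA : A ⊆ hb n T) (hu : u ∈ A) (hw : w ∈ A) :
    Adm n u w A := by
  refine ⟨hu, hw, hu1, hw1, fun z hz => ?_⟩
  have := hA hz
  unfold hb at this
  rw [Finset.mem_product, Finset.mem_Icc] at this
  exact this.1

theorem slab_hb {D : ℕ} (n : ℕ) (T : Finset (Fin D → ℤ)) : Slab 0 n (edg (hb n T)) := by
  intro e he
  rw [csp_mem_edg] at he
  unfold hb at he
  rw [Finset.mem_product, Finset.mem_product, Finset.mem_Icc, Finset.mem_Icc] at he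
  exact ⟨he.1.1.1, by simpa using he.2.1.2⟩

end Fc

open Fc

/-- Few cuts are unlikely. -/
theorem few_cuts {D : ℕ} {q β J1 : ℝ} (h : Reg D q β J1) :
    ∃ ρ η C c : ℝ, 0 < ρ ∧ 0 < η ∧ 0 < C ∧ 0 < c ∧ ∀ J, 1 ≤ J → J ≤ J1 →
      ∀ (ℓ : ℕ) (u w : Site D), u.1 = 0 → w.1 = ℓ → ∃ N : ℕ, ∀ T : Finset (Fin D → ℤ),
      (Finset.Icc (fun _ => -(N : ℤ)) fun _ => (N : ℤ)) ⊆ T →
      csf D q β J (hb ℓ T) (fun A E => u ∈ A ∧ w ∈ A ∧ ((cuts E ℓ).card : ℝ) ≤ ρ * ℓ)
        (fun A _ => Real.exp (η * A.card)) ≤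
        C * Real.exp (-((xiR D q β J + c) * ℓ)) * Real.exp (-(c * SB.dist1 u w)) := by
  obtain ⟨Cs, c, hCs, hc, hinp⟩ := inp_of_reg h
  obtain ⟨x0, hx0, hxi⟩ := h.xi
  have hv0 : 0 < Real.exp β - 1 := by
    have := Real.add_one_lt_exp h.hβ.ne'
    linarith [h.hβ]
  obtain ⟨r0, hr0⟩ := mass_gap D q (Real.exp β - 1) (Real.exp (β * J1) - 1) x0
    (Real.log ((Real.exp β - 1 + q) / (Real.exp β - 1))) Cs c h.hq hv0 hx0 hCs.le hc
  obtain ⟨ρ, η, C, hρ, hη, hC, hmg⟩ := hr0 r0 le_rfl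
  refine ⟨ρ, η / 2, C, η / 2, hρ, by linarith, hC, by linarith, ?_⟩
  intro J hJ hJ1 ℓ u w hu hw
  obtain ⟨N, hN⟩ := hmg (xiR D q β J) (vJ β J) (hxi J hJ hJ1) (xiR_le h.toBas hJ) (hinp J hJ hJ1)
    ℓ 0 u w
  refine ⟨N, fun T hT => ?_⟩
  have hJ0 : 0 ≤ J := by linarith
  have hq : 0 < q := lt_of_lt_of_le one_pos h.hq
  have hv : ∀ e : Edge D, 0 ≤ vJ β J e := fun e => vJ_nonneg h.hβ.le hJ0 e
  have hsub : edg (hb ℓ (Finset.Icc (fun _ => -(N : ℤ)) fun _ => (N : ℤ))) ⊆
      edg (hb ℓ T : Finset (Site D)) := by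
    intro e he
    rw [csp_mem_edg] at he ⊢
    unfold hb at he ⊢
    rw [Finset.mem_product, Finset.mem_product] at he ⊢
    exact ⟨⟨he.1.1, hT he.1.2⟩, ⟨he.2.1, hT he.2.2⟩⟩
  have h1 := hN (edg (hb ℓ T)) hsub
  have h2 := csf_le_cs h.toBas hJ0 (hb ℓ T) u
    (fun A E => w ∈ A ∧ ((cuts E ℓ).card : ℝ) ≤ ρ * ℓ) (fun A _ => Real.exp (η / 2 * A.card))
    (fun A E => (Real.exp_pos _).le)
  refine h2.trans ?_
  set d : ℝ := Real.exp (-(η / 2 * SB.dist1 u w)) with hd
  have h3 : (lat D).cs q (vJ β J) (edg (hb ℓ T)) u (fun A E =>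
      ind (A ⊆ hb ℓ T ∧ w ∈ A ∧ ((cuts E ℓ).card : ℝ) ≤ ρ * ℓ) * Real.exp (η / 2 * A.card)) ≤
      (lat D).cs q (vJ β J) (edg (hb ℓ T)) u (fun A E => d *
        (ind (Adm ℓ u w A ∧ ((ngc x0 r0 (4 * r0 + 8) 0 ℓ A).card : ℝ) ≤ ρ * ℓ) *
          Real.exp (η * A.card))) := by
    refine (lat D).cs_mono q _ hq hv _ u _ _ fun A E hA hx _ _ => ?_
    by_cases hP : A ⊆ hb ℓ T ∧ w ∈ A ∧ ((cuts E ℓ).card : ℝ) ≤ ρ * ℓ
    · have hadm := adm_of_hb hu hw hP.1 hx hP.2.1
      have hcard : ((ngc x0 r0 (4 * r0 + 8) 0 ℓ A).card : ℝ) ≤ ρ * ℓ :=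
        le_trans (by exact_mod_cast ngc_le_cuts (by omega) hA hadm) hP.2.2
      rw [ind_true hP, ind_true ⟨hadm, hcard⟩, one_mul, one_mul, hd, ← Real.exp_add]
      refine Real.exp_le_exp.2 ?_
      have h4 := isCl_dist hA hx hP.2.1
      have h5 : (SB.dist1 u w : ℝ) ≤ A.card := by
        have : SB.dist1 u w ≤ A.card := by omega
        exact_mod_cast this
      nlinarith
    · rw [ind_false hP, zero_mul]
      exact mul_nonneg (Real.exp_pos _).le (mul_nonneg (ind_nonneg _) (Real.exp_pos _).le)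
  refine h3.trans ?_
  rw [(lat D).cs_smul]
  have h6 : C * Real.exp (-(xiR D q β J + η) * ℓ) ≤
      C * Real.exp (-((xiR D q β J + η / 2) * ℓ)) := by
    refine mul_le_mul_of_nonneg_left (Real.exp_le_exp.2 ?_) hC.le
    have : (0 : ℝ) ≤ ℓ := Nat.cast_nonneg _
    nlinarith
  calc d * _ ≤ d * (C * Real.exp (-((xiR D q β J + η / 2) * ℓ))) :=
        mul_le_mul_of_nonneg_left (h1.trans h6) (Real.exp_pos _).le
    _ = _ := by ring

/-- Exponential moments of the size of a cluster in a slab. -/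
theorem Fc.exp_moment {D : ℕ} {q v0 vm ξ Cs c : ℝ} {v : Edge D → ℝ} (hq : 0 < q)
    (hv : ∀ e, 0 ≤ v e) (hi : Inp D q v0 vm ξ Cs c v) (hc : 0 < c) (a : ℤ) (s : ℕ)
    (Ed : Finset (Edge D)) (hS : Slab a s Ed) (x : Site D) :
    (lat D).cs q v Ed x (fun A _ => Real.exp (3 * (c / 4) * A.card)) ≤
      Real.exp (Cs * (s + 1)) * (1 - Real.exp (-(c / 4)))⁻¹ := by
  classical
  set M : ℕ := ((lat D).vs Ed x).card with hM
  have hr : Real.exp (-(c / 4)) < 1 := by
    rw [Real.exp_lt_one_iff]; linarith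
  have key : ∀ N : ℕ, (lat D).cs q v Ed x (fun A _ => ind (A.card < N) *
      Real.exp (3 * (c / 4) * A.card)) ≤
      ∑ k ∈ range N, Real.exp (Cs * (s + 1)) * Real.exp (-(c / 4)) ^ k := by
    intro N
    induction N with
    | zero =>
      rw [Finset.sum_range_zero]
      refine le_of_eq ?_
      have : (fun (A : Finset (Site D)) (_ : Finset (Edge D)) => ind (A.card < 0) *
          Real.exp (3 * (c / 4) * A.card)) = fun (A : Finset (Site D)) (_ : Finset (Edge D)) =>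
          (0 : ℝ) * Real.exp (3 * (c / 4) * A.card) := by
        funext A _
        rw [ind_false (by omega)]
      rw [this, (lat D).cs_smul, zero_mul]
    | succ N ih =>
      rw [Finset.sum_range_succ]
      have h1 : (lat D).cs q v Ed x (fun A _ => ind (A.card < N + 1) *
          Real.exp (3 * (c / 4) * A.card)) ≤
          (lat D).cs q v Ed x (fun A _ => ind (A.card < N) *
            Real.exp (3 * (c / 4) * A.card) + Real.exp (3 * (c / 4) * N) * ind (N ≤ A.card)) := by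
        refine (lat D).cs_mono q _ hq hv _ x _ _ fun A E _ _ _ _ => ?_
        by_cases h2 : A.card < N
        · rw [ind_true h2, ind_true (by omega : A.card < N + 1)]
          have : 0 ≤ Real.exp (3 * (c / 4) * N) * ind (N ≤ A.card) :=
            mul_nonneg (Real.exp_pos _).le (ind_nonneg _)
          linarith
        · by_cases h3 : A.card = N
          · rw [ind_false h2, ind_true (by omega : A.card < N + 1), ind_true (by omega), h3]
            linarith
          · rw [ind_false (by omega : ¬ A.card < N + 1), zero_mul, ind_false h2, zero_mul, zero_add]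
            exact mul_nonneg (Real.exp_pos _).le (ind_nonneg _)
      refine h1.trans ?_
      rw [(lat D).cs_add, (lat D).cs_smul]
      refine add_le_add ih ?_
      refine (mul_le_mul_of_nonneg_left (hi.sz a s Ed hS x N) (Real.exp_pos _).le).trans
        (le_of_eq ?_)
      rw [← Real.exp_nat_mul, ← Real.exp_add, ← Real.exp_add]
      congr 1
      ring
  have h4 : (lat D).cs q v Ed x (fun A _ => Real.exp (3 * (c / 4) * A.card)) ≤
      (lat D).cs q v Ed x (fun A _ => ind (A.card < M + 1) *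
      Real.exp (3 * (c / 4) * A.card)) := by
    refine (lat D).cs_mono q _ hq hv _ x _ _ fun A E _ _ hA _ => ?_
    rw [ind_true (Nat.lt_succ_of_le (Finset.card_le_card hA)), one_mul]
  refine (h4.trans (key (M + 1))).trans ?_
  rw [← Finset.mul_sum]
  refine mul_le_mul_of_nonneg_left ?_ (Real.exp_pos _).le
  rw [← tsum_geometric_of_lt_one (Real.exp_pos _).le hr]
  exact (summable_geometric_of_lt_one (Real.exp_pos _).le hr).sum_le_tsum _
    (fun i _ => pow_nonneg (Real.exp_pos _).le i)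

/-- Clusters with many sites are unlikely. -/
theorem large_cl {D : ℕ} {q β J1 : ℝ} (h : Reg D q β J1) (b : ℝ) :
    ∃ K C η : ℝ, 0 < K ∧ 0 < C ∧ 0 < η ∧ ∀ J, 1 ≤ J → J ≤ J1 →
      ∀ (ℓ : ℕ) (T : Finset (Fin D → ℤ)) (u w : Site D), u.1 = 0 → w.1 = ℓ →
      csf D q β J (hb ℓ T) (fun A _ => u ∈ A ∧ w ∈ A ∧ K * (ℓ + 1) ≤ (A.card : ℝ))
        (fun A _ => Real.exp (η * A.card)) ≤
        C * Real.exp (-(b * ℓ)) * Real.exp (-(η * SB.dist1 u w)) := by
  obtain ⟨Cs, c, hCs, hc, hinp⟩ := inp_of_reg h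
  set η : ℝ := c / 4 with hη
  have hη0 : 0 < η := by positivity
  have hr : Real.exp (-η) < 1 := by
    rw [Real.exp_lt_one_iff]; linarith
  refine ⟨(Cs + |b|) / η, (1 - Real.exp (-η))⁻¹, η, by positivity,
    inv_pos.2 (by linarith), hη0, ?_⟩
  intro J hJ hJ1 ℓ T u w hu hw
  have hJ0 : 0 ≤ J := by linarith
  have hq : 0 < q := lt_of_lt_of_le one_pos h.hq
  have hv : ∀ e : Edge D, 0 ≤ vJ β J e := fun e => vJ_nonneg h.hβ.le hJ0 e
  set K : ℝ := (Cs + |b|) / η with hK
  have hKη : η * K = Cs + |b| := by rw [hK]; field_simp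
  refine (csf_le_cs h.toBas hJ0 (hb ℓ T) u (fun A _ => w ∈ A ∧ K * (ℓ + 1) ≤ (A.card : ℝ))
    (fun A _ => Real.exp (η * A.card)) (fun A E => (Real.exp_pos _).le)).trans ?_
  set d : ℝ := Real.exp (-(η * SB.dist1 u w)) * Real.exp (-(η * K * (ℓ + 1))) with hd
  have h3 : (lat D).cs q (vJ β J) (edg (hb ℓ T)) u (fun A E =>
      ind (A ⊆ hb ℓ T ∧ w ∈ A ∧ K * (ℓ + 1) ≤ (A.card : ℝ)) * Real.exp (η * A.card)) ≤
      (lat D).cs q (vJ β J) (edg (hb ℓ T)) u (fun A E => d * Real.exp (3 * (c / 4) * A.card)) := by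
    refine (lat D).cs_mono q _ hq hv _ u _ _ fun A E hA hx _ _ => ?_
    by_cases hP : A ⊆ hb ℓ T ∧ w ∈ A ∧ K * (ℓ + 1) ≤ (A.card : ℝ)
    · rw [ind_true hP, one_mul, hd, ← Real.exp_add, ← Real.exp_add]
      refine Real.exp_le_exp.2 ?_
      have h4 := isCl_dist hA hx hP.2.1
      have h5 : (SB.dist1 u w : ℝ) ≤ A.card := by
        have : SB.dist1 u w ≤ A.card := by omega
        exact_mod_cast this
      have h6 := mul_le_mul_of_nonneg_left h5 hη0.le
      have h7 := mul_le_mul_of_nonneg_left hP.2.2 hη0.le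
      rw [← hη]
      nlinarith
    · rw [ind_false hP, zero_mul]
      exact mul_nonneg (mul_nonneg (Real.exp_pos _).le (Real.exp_pos _).le) (Real.exp_pos _).le
  refine h3.trans ?_
  rw [(lat D).cs_smul]
  have h8 := exp_moment hq hv (hinp J hJ hJ1) hc 0 ℓ (edg (hb ℓ T)) (slab_hb ℓ T) u
  rw [← hη] at h8
  have hd0 : 0 ≤ d := mul_nonneg (Real.exp_pos _).le (Real.exp_pos _).le
  refine (mul_le_mul_of_nonneg_left h8 hd0).trans ?_
  have h9 : Real.exp (-(η * K * (ℓ + 1))) * Real.exp (Cs * (ℓ + 1)) ≤ Real.exp (-(b * ℓ)) := by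
    rw [← Real.exp_add, hKη]
    refine Real.exp_le_exp.2 ?_
    have h10 : (0 : ℝ) ≤ ℓ := Nat.cast_nonneg _
    have h11 := le_abs_self b
    have h12 := abs_nonneg b
    nlinarith
  have h13 : 0 ≤ (1 - Real.exp (-η))⁻¹ := inv_nonneg.2 (by linarith)
  calc d * (Real.exp (Cs * (ℓ + 1)) * (1 - Real.exp (-η))⁻¹)
      = (1 - Real.exp (-η))⁻¹ * (Real.exp (-(η * K * (ℓ + 1))) * Real.exp (Cs * (ℓ + 1))) *
        Real.exp (-(η * SB.dist1 u w)) := by rw [hd]; ring
    _ ≤ (1 - Real.exp (-η))⁻¹ * Real.exp (-(b * ℓ)) * Real.exp (-(η * SB.dist1 u w)) := by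
        refine mul_le_mul_of_nonneg_right (mul_le_mul_of_nonneg_left h9 h13) (Real.exp_pos _).le

end Pool.Agent.DL
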