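import Pool.Agent.DL.Defs

/-!
# The mass gap: definitions

Heights are first coordinates. `Good r A m`: the cluster `A` is a straight segment at the heights
between `m - r` and `m + r`. `Nice ξ r A m`: `A` has few points at each height near `m`.
-/

set_option autoImplicit false
set_option linter.unusedSectionVars false

namespace Pool.Agent.DL

open Finset

open Classical in
/-- The indicator of a proposition. -/
noncomputable def ind (p : Prop) : ℝ := if p then 1 else 0

theorem ind_true {p : Prop} (h : p) : ind p = 1 := if_pos h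

theorem ind_false {p : Prop} (h : ¬ p) : ind p = 0 := if_neg h

theorem ind_nonneg (p : Prop) : 0 ≤ ind p := by
  unfold ind; split_ifs <;> norm_num

theorem ind_le_one (p : Prop) : ind p ≤ 1 := by
  unfold ind; split_ifs <;> norm_num

theorem ind_mono {p p' : Prop} (h : p → p') : ind p ≤ ind p' := by
  by_cases hp : p
  · rw [ind_true hp, ind_true (h hp)]
  · rw [ind_false hp]; exact ind_nonneg _

theorem ind_and (p p' : Prop) : ind (p ∧ p') = ind p * ind p' := by
  by_cases hp : p <;> by_cases hp' : p' <;> simp [ind, hp, hp']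

namespace Gr

variable {V ι : Type} [DecidableEq V] [DecidableEq ι] (G : Gr V ι)

open Classical in
/-- The sum over the clusters of `x` of the weights times `F`. -/
noncomputable def cs (q : ℝ) (v : ι → ℝ) (Ed : Finset ι) (x : V)
    (F : Finset V → Finset ι → ℝ) : ℝ :=
  ∑ A ∈ (G.vs Ed x).powerset, ∑ E ∈ Ed.powerset,
    if G.IsCl A E ∧ x ∈ A then cw q v A E * G.ze q v Ed A * F A E else 0

end Gr

variable {D : ℕ}

/-- The points of `A` at height `l`. -/
def lvl (A : Finset (Site D)) (l : ℤ) : Finset (Site D) := A.filter fun u => u.1 = l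

/-- At the heights between `m - r` and `m + r` the set `A` is a straight segment. -/
def Good (r : ℕ) (A : Finset (Site D)) (m : ℤ) : Prop :=
  ∃ p : Fin D → ℤ, ∀ l : ℤ, |l - m| ≤ r → lvl A l = {(l, p)}

/-- `A` has few points at each height with distance more than `r` from `m`. -/
def Nice (ξ : ℝ) (r : ℕ) (A : Finset (Site D)) (m : ℤ) : Prop :=
  ∀ l : ℤ, (r : ℤ) < |l - m| → ((lvl A l).card : ℝ) ≤ Real.exp (ξ * ((|l - m| : ℤ) : ℝ) / 4)

/-- Near the height `m` the set `A` has at most `R` points, and they are close to each other. -/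
def Thin (r R : ℕ) (A : Finset (Site D)) (m : ℤ) : Prop :=
  (A.filter fun u => |u.1 - m| ≤ r + 1).card ≤ R ∧
    ∀ u ∈ A, ∀ w ∈ A, |u.1 - m| ≤ r + 1 → |w.1 - m| ≤ r + 1 → ∀ i, |u.2 i - w.2 i| ≤ R

/-- The heights `m ≡ m0 (mod g)` between `2 g` and `n - 2 g`. -/
noncomputable def grd (g : ℕ) (m0 n : ℤ) : Finset ℤ :=
  (Finset.Icc (2 * (g : ℤ)) (n - 2 * g)).filter fun m => (g : ℤ) ∣ m - m0

open Classical in
/-- The nice good cuts. -/
noncomputable def ngc (ξ : ℝ) (r g : ℕ) (m0 n : ℤ) (A : Finset (Site D)) : Finset ℤ :=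
  (grd g m0 n).filter fun m => Good r A m ∧ Nice ξ r A m

open Classical in
/-- The nice thin heights which are not good cuts. -/
noncomputable def cln (ξ : ℝ) (r R g : ℕ) (m0 n : ℤ) (A : Finset (Site D)) : Finset ℤ :=
  (grd g m0 n).filter fun m => ¬ Good r A m ∧ Nice ξ r A m ∧ Thin r R A m

open Classical in
/-- The grid heights that are not nice. -/
noncomputable def nnc (ξ : ℝ) (r g : ℕ) (m0 n : ℤ) (A : Finset (Site D)) : Finset ℤ :=
  (grd g m0 n).filter fun m => ¬ Nice ξ r A m

/-- `A` contains `x` at height `0`, `y` at height `n` and lies between these heights. -/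
def Adm (n : ℤ) (x y : Site D) (A : Finset (Site D)) : Prop :=
  x ∈ A ∧ y ∈ A ∧ x.1 = 0 ∧ y.1 = n ∧ ∀ u ∈ A, 0 ≤ u.1 ∧ u.1 ≤ n

/-! ### Surgery -/

/-- A segment of `2 r + 1` sites and two boxes. -/
noncomputable def newp (r R : ℕ) (m : ℤ) (p : Fin D → ℤ) : Finset (Site D) :=
  ((Finset.Icc (m - r) (m + r)).image fun l => (l, p)) ∪
    ({m - r - 1, m + r + 1} : Finset ℤ) ×ˢ
      Finset.Icc (fun i => p i - (R : ℤ)) (fun i => p i + (R : ℤ))

/-- The new cluster: sites. -/
noncomputable def srgA (r R : ℕ) (m : ℤ) (p : Fin D → ℤ) (A : Finset (Site D)) : Finset (Site D) :=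
  (A.filter fun u => (r : ℤ) < |u.1 - m|) ∪ newp r R m p

/-- The new cluster: edges. -/
noncomputable def srgE (r R : ℕ) (m : ℤ) (p : Fin D → ℤ) (E : Finset (Edge D)) : Finset (Edge D) :=
  (E.filter fun e => (r : ℤ) < |((lat D).s e).1 - m| ∧ (r : ℤ) < |((lat D).t e).1 - m|) ∪
    edg (newp r R m p)

/-! ### Slabs -/

/-- The slab of `u`: the heights `s + K j, ..., s + K j + K - 1`. -/
def sidx (K : ℕ) (s : ℤ) (u : Site D) : ℤ := (u.1 - s) / K

/-- The edges inside the slabs. -/
def inn (K : ℕ) (s : ℤ) (E : Finset (Edge D)) : Finset (Edge D) :=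
  E.filter fun e => sidx K s ((lat D).s e) = sidx K s ((lat D).t e)

open Classical in
/-- The slab component of `u`. -/
noncomputable def cmp (K : ℕ) (s : ℤ) (A : Finset (Site D)) (E : Finset (Edge D)) (u : Site D) :
    Finset (Site D) := A.filter fun w => (lat D).Rch (inn K s E) u w

/-- The slab component `g` crosses its slab. -/
def Crs (K : ℕ) (s : ℤ) (g : Finset (Site D)) : Prop :=
  (∃ u ∈ g, (u.1 - s) % K = 0) ∧ ∃ w ∈ g, (w.1 - s) % K = K - 1

/-- The slab component `g` is deep. -/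
def Dp (K : ℕ) (s : ℤ) (g : Finset (Site D)) : Prop :=
  ¬ Crs K s g ∧ ∃ u ∈ g, ∃ w ∈ g, (K : ℤ) ≤ 3 * |u.1 - w.1|

open Classical in
/-- The crossing slab components. -/
noncomputable def crs (K : ℕ) (s : ℤ) (A : Finset (Site D)) (E : Finset (Edge D)) :
    Finset (Finset (Site D)) := (A.image (cmp K s A E)).filter (Crs K s)

open Classical in
/-- The deep slab components. -/
noncomputable def dps (K : ℕ) (s : ℤ) (A : Finset (Site D)) (E : Finset (Edge D)) :
    Finset (Finset (Site D)) := (A.image (cmp K s A E)).filter (Dp K s)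

/-- The points at the boundary heights of the slabs. -/
def bdy (K : ℕ) (s : ℤ) (A : Finset (Site D)) : Finset (Site D) :=
  A.filter fun u => (u.1 - s) % K = 0 ∨ (u.1 - s) % K = K - 1

/-- The slabs contained in the heights between `0` and `n`. -/
noncomputable def fsl (K : ℕ) (s n : ℤ) : Finset ℤ :=
  (Finset.Icc (-(s.natAbs : ℤ) - 1) (n.natAbs + s.natAbs + 1)).filter
    fun j => 0 ≤ s + K * j ∧ s + K * j + K - 1 ≤ n

/-! ### Hypotheses -/

/-- The heights of the edges of `Ed` are between `a` and `a + s`. -/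
def Slab (a : ℤ) (s : ℕ) (Ed : Finset (Edge D)) : Prop :=
  ∀ e ∈ Ed, a ≤ ((lat D).s e).1 ∧ ((lat D).t e).1 ≤ a + s

/-- The inputs: bounds for the weights, the pointwise bound (P) with rate `ξ` and the bound (S) of
the size of clusters in slabs. -/
structure Inp (D : ℕ) (q v0 vm ξ Cs c : ℝ) (v : Edge D → ℝ) : Prop where
  lo : ∀ e, v0 ≤ v e
  hi : ∀ e, v e ≤ vm
  pw : ∀ (Ed : Finset (Edge D)) (u w : Site D),
    (lat D).tp q v Ed u w ≤ Real.exp (-ξ * ((|u.1 - w.1| : ℤ) : ℝ))
  sz : ∀ (a : ℤ) (s : ℕ) (Ed : Finset (Edge D)), Slab a s Ed → ∀ (x : Site D) (k : ℕ),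
    (lat D).cs q v Ed x (fun A _ => ind (k ≤ A.card)) ≤ Real.exp (Cs * (s + 1) - c * k)

end Pool.Agent.DL
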