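import Pool.Agent.DL.FKC
import Pool.Agent.DL.MGDefs

/-!
# The mass gap: sums over clusters, geometry of connected sets
-/

set_option autoImplicit false
set_option linter.unusedSectionVars false

namespace Pool.Agent.DL

open Finset

namespace Gr

section A

variable {V ι : Type} [DecidableEq V] [DecidableEq ι] (G : Gr V ι) (q : ℝ) (v : ι → ℝ)

/-- The cluster sum of an indicator is a probability. -/
theorem cs_ind (hq : 0 < q) (hv : ∀ e, 0 ≤ v e) (Ed : Finset ι) (x : V)
    (P : Finset V → Finset ι → Prop) :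
    G.cs q v Ed x (fun A E => ind (P A E)) =
      G.pr q v Ed fun ω => ∃ A E, G.Cls ω x A E ∧ P A E := by
  rw [G.pr_eq_sum_cls q v hq hv]
  unfold cs
  refine Finset.sum_congr rfl fun A _ => Finset.sum_congr rfl fun E _ => ?_
  by_cases h : G.IsCl A E ∧ x ∈ A
  · by_cases hP : P A E
    · rw [if_pos h, if_pos ⟨h.1, h.2, hP⟩]
      simp only [ind_true hP, mul_one]
    · rw [if_pos h, if_neg (fun h' => hP h'.2.2)]
      simp only [ind_false hP, mul_zero]
  · rw [if_neg h, if_neg (fun h' => h ⟨h'.1, h'.2.1⟩)]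

theorem mga_cw_nonneg (hq : 0 < q) (hv : ∀ e, 0 ≤ v e) (A : Finset V) (E : Finset ι) :
    0 ≤ cw q v A E := by
  unfold cw
  exact mul_nonneg (Finset.prod_nonneg fun e _ => hv e) (pow_nonneg (inv_nonneg.2 hq.le) _)

theorem cs_mono (hq : 0 < q) (hv : ∀ e, 0 ≤ v e) (Ed : Finset ι) (x : V)
    (F F' : Finset V → Finset ι → ℝ)
    (h : ∀ A E, G.IsCl A E → x ∈ A → A ⊆ G.vs Ed x → E ⊆ Ed → F A E ≤ F' A E) :
    G.cs q v Ed x F ≤ G.cs q v Ed x F' := by
  unfold cs
  refine Finset.sum_le_sum fun A hA => Finset.sum_le_sum fun E hE => ?_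
  rw [Finset.mem_powerset] at hA hE
  split_ifs with h1
  · exact mul_le_mul_of_nonneg_left (h A E h1.1 h1.2 hA hE)
      (mul_nonneg (mga_cw_nonneg q v hq hv A E) (G.ze_pos q v hq hv Ed A).le)
  · exact le_rfl

theorem cs_add (Ed : Finset ι) (x : V) (F F' : Finset V → Finset ι → ℝ) :
    G.cs q v Ed x (fun A E => F A E + F' A E) = G.cs q v Ed x F + G.cs q v Ed x F' := by
  unfold cs
  rw [← Finset.sum_add_distrib]
  refine Finset.sum_congr rfl fun A _ => ?_
  rw [← Finset.sum_add_distrib]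
  refine Finset.sum_congr rfl fun E _ => ?_
  split_ifs with h
  · ring
  · ring

theorem cs_smul (c : ℝ) (Ed : Finset ι) (x : V) (F : Finset V → Finset ι → ℝ) :
    G.cs q v Ed x (fun A E => c * F A E) = c * G.cs q v Ed x F := by
  unfold cs
  rw [Finset.mul_sum]
  refine Finset.sum_congr rfl fun A _ => ?_
  rw [Finset.mul_sum]
  refine Finset.sum_congr rfl fun E _ => ?_
  split_ifs with h
  · ring
  · ring

theorem cs_nonneg (hq : 0 < q) (hv : ∀ e, 0 ≤ v e) (Ed : Finset ι) (x : V)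
    (F : Finset V → Finset ι → ℝ) (hF : ∀ A E, 0 ≤ F A E) : 0 ≤ G.cs q v Ed x F := by
  unfold cs
  refine Finset.sum_nonneg fun A _ => Finset.sum_nonneg fun E _ => ?_
  split_ifs with h
  · exact mul_nonneg (mul_nonneg (mga_cw_nonneg q v hq hv A E) (G.ze_pos q v hq hv Ed A).le) (hF A E)
  · exact le_rfl

theorem isCl_subset_vs {Ed : Finset ι} {x : V} {A : Finset V} {E : Finset ι} (h : G.IsCl A E)
    (hx : x ∈ A) (hE : E ⊆ Ed) : A ⊆ G.vs Ed x := by
  intro y hy
  exact G.rch_vs (G.rch_mono hE (h.2.2 x hx y hy))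

open Classical in
/-- The cluster sum as one sum over pairs. -/
theorem mga_cs_prod (Ed : Finset ι) (x : V) (F : Finset V → Finset ι → ℝ) :
    G.cs q v Ed x F = ∑ c ∈ (G.vs Ed x).powerset ×ˢ Ed.powerset,
      if G.IsCl c.1 c.2 ∧ x ∈ c.1 then cw q v c.1 c.2 * G.ze q v Ed c.1 * F c.1 c.2 else 0 := by
  unfold cs
  rw [Finset.sum_product]

/-- Clusters of a smaller edge set are more likely. -/
theorem cs_restrict_le (hq : 1 ≤ q) (hv : ∀ e, 0 ≤ v e) {Ed Ed' : Finset ι} (h : Ed' ⊆ Ed) (x : V)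
    (F : Finset V → Finset ι → ℝ) (hF : ∀ A E, 0 ≤ F A E)
    (hE : ∀ A E, G.IsCl A E → x ∈ A → E ⊆ Ed → F A E ≠ 0 → E ⊆ Ed') :
    G.cs q v Ed x F ≤ G.cs q v Ed' x F := by
  classical
  have hq0 : 0 < q := by linarith
  rw [mga_cs_prod, mga_cs_prod]
  have h1 : ∀ c ∈ (G.vs Ed x).powerset ×ˢ Ed.powerset,
      (if G.IsCl c.1 c.2 ∧ x ∈ c.1 then cw q v c.1 c.2 * G.ze q v Ed c.1 * F c.1 c.2 else 0) ≤
      (if c ∈ (G.vs Ed' x).powerset ×ˢ Ed'.powerset then
        (if G.IsCl c.1 c.2 ∧ x ∈ c.1 then cw q v c.1 c.2 * G.ze q v Ed' c.1 * F c.1 c.2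
          else 0) else 0) := by
    rintro ⟨A, E⟩ hc
    rw [Finset.mem_product, Finset.mem_powerset, Finset.mem_powerset] at hc
    by_cases h2 : G.IsCl A E ∧ x ∈ A
    · by_cases h3 : F A E = 0
      · simp only [h3, mul_zero, ite_self, le_refl]
      · have h4 : E ⊆ Ed' := hE A E h2.1 h2.2 hc.2 h3
        have h5 : A ⊆ G.vs Ed' x := G.isCl_subset_vs h2.1 h2.2 h4
        rw [if_pos h2, if_pos (Finset.mem_product.2 ⟨Finset.mem_powerset.2 h5,
          Finset.mem_powerset.2 h4⟩), if_pos h2]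
        refine mul_le_mul_of_nonneg_right ?_ (hF A E)
        exact mul_le_mul_of_nonneg_left (G.ze_anti q v hq hv h A) (mga_cw_nonneg q v hq0 hv A E)
    · simp only [if_neg h2, ite_self, le_refl]
  refine (Finset.sum_le_sum h1).trans ?_
  rw [← Finset.sum_filter]
  refine Finset.sum_le_sum_of_subset_of_nonneg ?_ ?_
  · intro c hc
    exact (Finset.mem_filter.1 hc).2
  · rintro ⟨A, E⟩ _ _
    split_ifs with h2
    · exact mul_nonneg (mul_nonneg (mga_cw_nonneg q v hq0 hv A E) (G.ze_pos q v hq0 hv Ed' A).le)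
        (hF A E)
    · exact le_rfl

end A

end Gr

variable {D : ℕ}

/-- The height changes at most by one along an edge. -/
theorem mga_edge_height (e : Edge D) :
    ((lat D).s e).1 ≤ ((lat D).t e).1 ∧ ((lat D).t e).1 ≤ ((lat D).s e).1 + 1 := by
  obtain ⟨x, o⟩ := e
  cases o with
  | none => simp [lat, SB.dir]
  | some i => simp [lat, SB.dir]

theorem mga_step_height {E : Finset (Edge D)} {u w : Site D} (h : (lat D).Step E u w) :
    w.1 ≤ u.1 + 1 ∧ u.1 ≤ w.1 + 1 := by
  obtain ⟨e, _, h⟩ := h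
  have h1 := mga_edge_height e
  rcases h with ⟨h2, h3⟩ | ⟨h2, h3⟩
  · rw [h2, h3] at h1; constructor <;> linarith [h1.1, h1.2]
  · rw [h2, h3] at h1; constructor <;> linarith [h1.1, h1.2]

/-- A connected set meets every height between those of two of its points. -/
theorem lvl_nonempty {A : Finset (Site D)} {E : Finset (Edge D)} (h : (lat D).IsCl A E)
    {u w : Site D} (hu : u ∈ A) (hw : w ∈ A) {l : ℤ} (h1 : u.1 ≤ l) (h2 : l ≤ w.1) :
    (lvl A l).Nonempty := by
  have key : ∀ y : Site D, (lat D).Rch E u y → l ≤ y.1 → (lvl A l).Nonempty := by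
    intro y hy
    unfold Gr.Rch at hy
    induction hy with
    | refl =>
      intro h3
      exact ⟨u, Finset.mem_filter.2 ⟨hu, le_antisymm h1 h3⟩⟩
    | @tail b c _ h4 ih =>
      intro h3
      by_cases h5 : l ≤ b.1
      · exact ih h5
      · have h6 := (mga_step_height h4).1
        refine ⟨c, Finset.mem_filter.2 ⟨?_, by omega⟩⟩
        obtain ⟨e, he, h7⟩ := h4
        rcases h7 with ⟨_, h7⟩ | ⟨h7, _⟩
        · rw [← h7]; exact (h.2.1 e he).2
        · rw [← h7]; exact (h.2.1 e he).1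
  exact key w (h.2.2 u hu w hw) h2

theorem mga_dist_tri (x y z : Site D) : SB.dist1 x z ≤ SB.dist1 x y + SB.dist1 y z := by
  unfold SB.dist1
  have h1 : (x.1 - z.1).natAbs ≤ (x.1 - y.1).natAbs + (y.1 - z.1).natAbs := by omega
  have h2 : ∑ i, (x.2 i - z.2 i).natAbs ≤
      ∑ i, (x.2 i - y.2 i).natAbs + ∑ i, (y.2 i - z.2 i).natAbs := by
    rw [← Finset.sum_add_distrib]
    exact Finset.sum_le_sum fun i _ => by omega
  omega

theorem mga_dist_edge (e : Edge D) : SB.dist1 ((lat D).s e) ((lat D).t e) = 1 := by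
  obtain ⟨x, o⟩ := e
  cases o with
  | none => simp [lat, SB.dir, SB.dist1]
  | some i =>
    simp [lat, SB.dir, SB.dist1, Pi.single_apply]
    rw [Finset.sum_eq_single i]
    · simp
    · intro j _ hj
      simp [hj]
    · simp

theorem mga_dist_edge' (e : Edge D) : SB.dist1 ((lat D).t e) ((lat D).s e) = 1 := by
  have h : SB.dist1 ((lat D).t e) ((lat D).s e) = SB.dist1 ((lat D).s e) ((lat D).t e) := by
    unfold SB.dist1
    congr 1
    · omega
    · exact Finset.sum_congr rfl fun i _ => by omega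
  rw [h, mga_dist_edge]

theorem mga_dist_step {E : Finset (Edge D)} {u w : Site D} (h : (lat D).Step E u w) :
    SB.dist1 u w = 1 := by
  obtain ⟨e, _, h⟩ := h
  rcases h with ⟨h2, h3⟩ | ⟨h2, h3⟩
  · rw [← h2, ← h3]; exact mga_dist_edge e
  · rw [← h2, ← h3]; exact mga_dist_edge' e

theorem mga_dist_self (u : Site D) : SB.dist1 u u = 0 := by
  simp [SB.dist1]

/-- The same for the component of `u` for a set of edges with both ends in `A`. -/
theorem rch_dist {A : Finset (Site D)} {E : Finset (Edge D)}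
    (hE : ∀ e ∈ E, (lat D).s e ∈ A ∧ (lat D).t e ∈ A) {u w : Site D} (hu : u ∈ A)
    (h : (lat D).Rch E u w) : SB.dist1 u w + 1 ≤ A.card := by
  have key : ∀ y : Site D, (lat D).Rch E u y → ∀ k ≤ SB.dist1 u y, ∃ z ∈ A, SB.dist1 u z = k := by
    intro y hy
    unfold Gr.Rch at hy
    induction hy with
    | refl =>
      intro k hk
      rw [mga_dist_self] at hk
      exact ⟨u, hu, by rw [mga_dist_self]; omega⟩
    | @tail b c _ h4 ih =>
      intro k hk
      by_cases h5 : k ≤ SB.dist1 u b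
      · exact ih k h5
      · have h6 := mga_dist_tri u b c
        rw [mga_dist_step h4] at h6
        refine ⟨c, ?_, by omega⟩
        obtain ⟨e, he, h7⟩ := h4
        rcases h7 with ⟨_, h7⟩ | ⟨h7, _⟩
        · rw [← h7]; exact (hE e he).2
        · rw [← h7]; exact (hE e he).1
  have h1 : Finset.range (SB.dist1 u w + 1) ⊆ A.image (SB.dist1 u) := by
    intro k hk
    obtain ⟨z, hz, h2⟩ := key w h k (by rw [Finset.mem_range] at hk; omega)
    exact Finset.mem_image.2 ⟨z, hz, h2⟩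
  have h2 := Finset.card_le_card h1
  rw [Finset.card_range] at h2
  exact h2.trans Finset.card_image_le

/-- The distance of two points of a connected set is less than its number of points. -/
theorem isCl_dist {A : Finset (Site D)} {E : Finset (Edge D)} (h : (lat D).IsCl A E)
    {u w : Site D} (hu : u ∈ A) (hw : w ∈ A) : SB.dist1 u w + 1 ≤ A.card :=
  rch_dist h.2.1 hu (h.2.2 u hu w hw)

end Pool.Agent.DL
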