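import Pool.Agent.DL.Shi
import Pool.Agent.DL.ExK
import Pool.Agent.DL.MGA
import Pool.Agent.DL.Csp
import Pool.Agent.DL.Pw
import Pool.Agent.DL.Fc

/-!
# Few good cuts are unlikely, also for clusters that are not confined
-/

set_option autoImplicit false
set_option linter.unusedSectionVars false

namespace Pool.Agent.DL

open Finset
open scoped ENNReal

namespace Gc

variable {D : ℕ} {q β J : ℝ}

theorem ZZ_nonneg (h : Bas D q β) (hJ : 0 ≤ J) (Λ A : Finset (Site D)) : 0 ≤ ZZ D q β J Λ A :=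
  ((lat D).ze_pos q _ (lt_of_lt_of_le one_pos h.hq) (fun e => vJ_nonneg h.hβ.le hJ e) _ _).le

theorem ZI_le (h : Bas D q β) (hJ : 0 ≤ J) (Λ A : Finset (Site D)) :
    ZI D q β J A ≤ ZZ D q β J Λ A :=
  ciInf_le ⟨0, by rintro _ ⟨Λ, rfl⟩; exact ZZ_nonneg h hJ Λ A⟩ Λ

theorem WW_nonneg (h : Bas D q β) (hJ : 0 ≤ J) (A : Finset (Site D)) (E : Finset (Edge D)) :
    0 ≤ WW D q β J A E := by
  unfold WW Gr.cw
  exact mul_nonneg (prod_nonneg fun e _ => vJ_nonneg h.hβ.le hJ e)
    (pow_nonneg (inv_nonneg.2 (lt_of_lt_of_le one_pos h.hq).le) _)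

theorem ii_true {p : Prop} (h : p) : ii p = 1 := if_pos h

theorem ii_false {p : Prop} (h : ¬ p) : ii p = 0 := if_neg h

open Classical in
/-- A finite sum over clusters in a volume is at most the sum in this volume. -/
theorem fin_le_csf (h : Bas D q β) (hJ : 0 ≤ J) (Λ : Finset (Site D))
    (P : Finset (Site D) → Finset (Edge D) → Prop) (F : Finset (Site D) → Finset (Edge D) → ℝ)
    (hF : ∀ A E, 0 ≤ F A E) (S : Finset (Pr D)) (hS : ∀ c ∈ S, c.1 ⊆ Λ) :
    ∑ c ∈ S, WI D q β J c * (ii (P c.1 c.2) * ENNReal.ofReal (F c.1 c.2)) ≤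
      ENNReal.ofReal (csf D q β J Λ P F) := by
  set g : Pr D → ℝ := fun c => WW D q β J c.1 c.2 * ZZ D q β J Λ c.1 * F c.1 c.2 with hg
  have hg0 : ∀ c, 0 ≤ g c := fun c =>
    mul_nonneg (mul_nonneg (WW_nonneg h hJ _ _) (ZZ_nonneg h hJ _ _)) (hF _ _)
  have e1 : csf D q β J Λ P F = ∑ c ∈ (Λ.powerset ×ˢ (edg Λ).powerset).filter
      (fun c => (lat D).IsCl c.1 c.2 ∧ P c.1 c.2), g c := by
    unfold csf
    rw [Finset.sum_filter, Finset.sum_product]
  rw [e1, ENNReal.ofReal_sum_of_nonneg fun c _ => hg0 c]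
  calc ∑ c ∈ S, WI D q β J c * (ii (P c.1 c.2) * ENNReal.ofReal (F c.1 c.2))
      ≤ ∑ c ∈ S, (if (lat D).IsCl c.1 c.2 ∧ P c.1 c.2 then ENNReal.ofReal (g c) else 0) := by
        refine Finset.sum_le_sum fun c _ => ?_
        by_cases h1 : (lat D).IsCl c.1 c.2
        · by_cases h2 : P c.1 c.2
          · have h3 : 0 ≤ ZI D q β J c.1 := Real.iInf_nonneg fun Λ => ZZ_nonneg h hJ Λ _
            rw [if_pos ⟨h1, h2⟩, ii_true h2, one_mul, hg]
            unfold WI
            rw [if_pos h1, ← ENNReal.ofReal_mul (mul_nonneg (WW_nonneg h hJ _ _) h3)]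
            exact ENNReal.ofReal_le_ofReal (mul_le_mul_of_nonneg_right
              (mul_le_mul_of_nonneg_left (ZI_le h hJ Λ _) (WW_nonneg h hJ _ _)) (hF _ _))
          · rw [ii_false h2, zero_mul, mul_zero]
            exact bot_le
        · unfold WI
          rw [if_neg h1, zero_mul]
          exact bot_le
    _ = ∑ c ∈ S.filter (fun c => (lat D).IsCl c.1 c.2 ∧ P c.1 c.2), ENNReal.ofReal (g c) :=
        (Finset.sum_filter _ _).symm
    _ ≤ _ := by
        refine Finset.sum_le_sum_of_subset fun c hc => ?_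
        rw [Finset.mem_filter] at hc
        rw [Finset.mem_filter, Finset.mem_product, Finset.mem_powerset, Finset.mem_powerset]
        refine ⟨⟨hS c hc.1, fun e he => ?_⟩, hc.2⟩
        rw [csp_mem_edg]
        exact ⟨hS c hc.1 (hc.2.1.2.1 e he).1, hS c hc.1 (hc.2.1.2.1 e he).2⟩

open Classical in
/-- The sum over the confined clusters from a bound in all large volumes. -/
theorem sm_conf_le (h : Bas D q β) (hJ : 0 ≤ J) (l N : ℕ)
    (P : Finset (Site D) → Finset (Edge D) → Prop) (F : Finset (Site D) → Finset (Edge D) → ℝ)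
    (hF : ∀ A E, 0 ≤ F A E) (B : ℝ)
    (hB : ∀ T : Finset (Fin D → ℤ), (Finset.Icc (fun _ => -(N : ℤ)) fun _ => (N : ℤ)) ⊆ T →
      csf D q β J (hb l T) P F ≤ B) :
    sm D q β J (fun c => ii (abv 0 c ∧ bel l c) *
      (ii (P c.1 c.2) * ENNReal.ofReal (F c.1 c.2))) ≤ ENNReal.ofReal B := by
  unfold sm
  rw [ENNReal.tsum_eq_iSup_sum]
  refine iSup_le fun S => ?_
  obtain ⟨S', hS'⟩ : ∃ S', S' = S.filter (fun c => abv 0 c ∧ bel l c) := ⟨_, rfl⟩
  set T : Finset (Fin D → ℤ) := (Finset.Icc (fun _ => -(N : ℤ)) fun _ => (N : ℤ)) ∪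
    S'.biUnion (fun c => c.1.image Prod.snd) with hT
  have hsub : ∀ c ∈ S', c.1 ⊆ (hb l T : Finset (Site D)) := by
    intro c hc x hx
    have hc2 := hc
    rw [hS', Finset.mem_filter] at hc2
    unfold hb
    rw [Finset.mem_product, Finset.mem_Icc]
    refine ⟨⟨hc2.2.1 x hx, hc2.2.2 x hx⟩, ?_⟩
    rw [hT]
    exact Finset.mem_union_right _ (Finset.mem_biUnion.2 ⟨c, hc, Finset.mem_image_of_mem _ hx⟩)
  calc ∑ c ∈ S, WI D q β J c * (ii (abv 0 c ∧ bel l c) *
      (ii (P c.1 c.2) * ENNReal.ofReal (F c.1 c.2)))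
      = ∑ c ∈ S, (if abv 0 c ∧ bel l c then
          WI D q β J c * (ii (P c.1 c.2) * ENNReal.ofReal (F c.1 c.2)) else 0) := by
        refine Finset.sum_congr rfl fun c _ => ?_
        by_cases h1 : abv 0 c ∧ bel l c
        · rw [if_pos h1, ii_true h1, one_mul]
        · rw [if_neg h1, ii_false h1, zero_mul, mul_zero]
    _ = ∑ c ∈ S', WI D q β J c * (ii (P c.1 c.2) * ENNReal.ofReal (F c.1 c.2)) := by
        rw [hS']
        exact (Finset.sum_filter _ _).symm
    _ ≤ ENNReal.ofReal (csf D q β J (hb l T) P F) := fin_le_csf h hJ _ P F hF S' hsub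
    _ ≤ ENNReal.ofReal B := ENNReal.ofReal_le_ofReal (hB T (hT ▸ Finset.subset_union_left))

theorem csf_one (Λ : Finset (Site D)) (P : Finset (Site D) → Finset (Edge D) → Prop) :
    csf D q β J Λ P (fun _ _ => 1) = cs D q β J Λ P := by
  unfold csf cs
  refine Finset.sum_congr rfl fun A _ => Finset.sum_congr rfl fun E _ => ?_
  rw [mul_one]

/-- The sum over the confined clusters between two points. -/
theorem sm_conf_two (h : Bas D q β) (hJ : 1 ≤ J) (l : ℕ) (u w : Tv D) :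
    sm D q β J (fun c => ii (abv 0 c ∧ bel l c) *
      ii (((0, u) : Site D) ∈ c.1 ∧ (((l : ℤ), w) : Site D) ∈ c.1)) ≤
      ENNReal.ofReal (Real.exp (-(xiR D q β J * l))) := by
  have hJ0 : 0 ≤ J := by linarith
  have h1 := sm_conf_le h hJ0 l 0
    (fun A _ => ((0, u) : Site D) ∈ A ∧ (((l : ℤ), w) : Site D) ∈ A) (fun _ _ => 1)
    (fun _ _ => zero_le_one) (Real.exp (-(xiR D q β J * l))) (fun T _ => by
      rw [csf_one]
      have h2 := cs_le_TT h hJ0 (hb l T) ((0, u) : Site D) (((l : ℤ), w) : Site D)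
        (fun _ _ => True)
      have h3 := (h2.trans (TT_le_GG h hJ0 _ _ _)).trans (pointwise h hJ _ _)
      have h4 : |(((0, u) : Site D).1 : ℝ) - (((l : ℤ), w) : Site D).1| = l := by
        simp
      rw [h4] at h3
      refine le_trans (le_of_eq ?_) h3
      congr 1
      funext A E
      exact propext ⟨fun hx => ⟨hx.1, hx.2, trivial⟩, fun hx => ⟨hx.1, hx.2.1⟩⟩)
  simpa using h1

/-- Sums of the weights of the heights. -/
theorem sum_abs (a : ℝ) (ha : 0 < a) : ∃ S : ℝ, 0 < S ∧ ∀ (x : ℤ) (F : Finset ℕ),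
    ∑ m ∈ F, Real.exp (-(a * |(x : ℝ) - ((m : ℤ) : ℝ)|)) ≤ S := by
  have hs : Summable fun h : ℤ => Real.exp (-a) ^ h.natAbs := by
    have h1 : Real.exp (-a) < 1 := Real.exp_lt_one_iff.2 (by linarith)
    apply Summable.of_nat_of_neg
    · simpa using summable_geometric_of_lt_one (Real.exp_pos _).le h1
    · simpa using summable_geometric_of_lt_one (Real.exp_pos _).le h1
  refine ⟨∑' h : ℤ, Real.exp (-a) ^ h.natAbs, ?_, ?_⟩
  · exact hs.tsum_pos (fun _ => pow_nonneg (Real.exp_pos _).le _) 0 (by positivity)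
  · intro x F
    have h1 : ∑ m ∈ F, Real.exp (-(a * |(x : ℝ) - ((m : ℤ) : ℝ)|)) =
        ∑ h ∈ F.image (fun m : ℕ => x - (m : ℤ)), Real.exp (-a) ^ h.natAbs := by
      rw [sum_image]
      · refine Finset.sum_congr rfl fun m _ => ?_
        rw [← Real.exp_nat_mul, Nat.cast_natAbs]
        congr 1
        push_cast
        ring
      · intro m _ m' _ hm
        have : x - (m : ℤ) = x - (m' : ℤ) := hm
        omega
    rw [h1]
    exact hs.sum_le_tsum _ fun _ _ => pow_nonneg (Real.exp_pos _).le _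

open Classical in
/-- The number of the heights with many sites nearby. -/
theorem heavy_le (a : ℝ) {S : ℝ}
    (hS : ∀ (x : ℤ) (F : Finset ℕ), ∑ m ∈ F, Real.exp (-(a * |(x : ℝ) - ((m : ℤ) : ℝ)|)) ≤ S)
    {M : ℝ} (hM : 0 < M) (A : Finset (Site D)) (F : Finset ℕ) (hF : ∀ m ∈ F, M < lvw a A (m : ℤ)) :
    (F.card : ℝ) ≤ S * A.card / M := by
  rw [le_div_iff₀ hM]
  calc (F.card : ℝ) * M = ∑ m ∈ F, M := by rw [Finset.sum_const, nsmul_eq_mul]
    _ ≤ ∑ m ∈ F, lvw a A (m : ℤ) := Finset.sum_le_sum fun m hm => (hF m hm).le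
    _ = ∑ x ∈ A, ∑ m ∈ F, Real.exp (-(a * |(x.1 : ℝ) - ((m : ℤ) : ℝ)|)) := by
        unfold lvw
        rw [Finset.sum_comm]
    _ ≤ ∑ x ∈ A, S := Finset.sum_le_sum fun x _ => hS x.1 F
    _ = S * A.card := by rw [Finset.sum_const, nsmul_eq_mul, mul_comm]

theorem mem_sh (k : ℤ) (c : Pr D) (x : Site D) :
    x ∈ (sh k c).1 ↔ ((x.1 - k, x.2) : Site D) ∈ c.1 := by
  unfold sh
  rw [Finset.mem_image]
  constructor
  · rintro ⟨y, hy, rfl⟩
    simpa using hy
  · intro hx
    exact ⟨_, hx, by simp⟩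

theorem card_sh (k : ℤ) (c : Pr D) : (sh k c).1.card = c.1.card := by
  unfold sh
  refine Finset.card_image_of_injective _ fun x y hxy => ?_
  have h1 := congrArg Prod.fst hxy
  have h2 := congrArg Prod.snd hxy
  refine Prod.ext ?_ h2
  simpa using h1

theorem upE_sh (k : ℤ) (c : Pr D) (m : ℤ) :
    (upE (sh k c).2 m).card = (upE c.2 (m - k)).card := by
  symm
  refine Finset.card_bij (fun e _ => ((e.1.1 + k, e.1.2), e.2)) ?_ ?_ ?_
  · intro e he
    unfold upE at he ⊢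
    rw [Finset.mem_filter] at he ⊢
    refine ⟨Finset.mem_image_of_mem _ he.1, he.2.1, ?_⟩
    have := he.2.2
    simp only
    omega
  · intro e _ e' _ hee
    have h1 := congrArg (fun z : Edge D => z.1.1) hee
    have h2 := congrArg (fun z : Edge D => z.1.2) hee
    have h3 := congrArg (fun z : Edge D => z.2) hee
    simp only at h1 h2 h3
    exact Prod.ext (Prod.ext (by omega) h2) h3
  · intro e he
    unfold upE at he
    rw [Finset.mem_filter] at he
    obtain ⟨he1, he2, he3⟩ := he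
    unfold sh at he1
    rw [Finset.mem_image] at he1
    obtain ⟨e', he', rfl⟩ := he1
    refine ⟨e', ?_, rfl⟩
    unfold upE
    rw [Finset.mem_filter]
    refine ⟨he', he2, ?_⟩
    simp only at he3
    omega

open Classical in
/-- The number of the cuts of the translated cluster. -/
theorem cuts_le (a : ℝ) {S : ℝ}
    (hS : ∀ (x : ℤ) (F : Finset ℕ), ∑ m ∈ F, Real.exp (-(a * |(x : ℝ) - ((m : ℤ) : ℝ)|)) ≤ S)
    {M : ℝ} (hM : 0 < M) (c : Pr D) (n s t : ℕ) :
    ((cuts (sh s c).2 (n + s + t)).card : ℝ) ≤ ng a M c n + s + t + S * c.1.card / M := by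
  set Q : Finset ℕ := (range n).filter fun m : ℕ => M < lvw a c.1 (m : ℤ) with hQ
  set R : Finset ℕ := (range n).filter fun m : ℕ => good a M c (m : ℤ) with hR
  have h1 : cuts (sh s c).2 (n + s + t) ⊆
      (range s ∪ (range t).image fun j => j + (n + s)) ∪ (Q ∪ R).image fun j => j + s := by
    intro m hm
    unfold cuts at hm
    rw [Finset.mem_filter, Finset.mem_range, upE_sh] at hm
    obtain ⟨hm1, hm2⟩ := hm
    rw [Finset.mem_union, Finset.mem_union, Finset.mem_range, Finset.mem_image, Finset.mem_image]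
    by_cases h2 : m < s
    · exact Or.inl (Or.inl h2)
    · by_cases h3 : n + s ≤ m
      · exact Or.inl (Or.inr ⟨m - (n + s), by rw [Finset.mem_range]; omega, by omega⟩)
      · refine Or.inr ⟨m - s, ?_, by omega⟩
        have h4 : ((m - s : ℕ) : ℤ) = (m : ℤ) - s := by omega
        rw [Finset.mem_union, hQ, hR, Finset.mem_filter, Finset.mem_filter, Finset.mem_range]
        by_cases h5 : M < lvw a c.1 ((m - s : ℕ) : ℤ)
        · exact Or.inl ⟨by omega, h5⟩
        · exact Or.inr ⟨by omega, by rw [h4]; exact hm2, not_lt.1 h5⟩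
  have h2 : (cuts (sh s c).2 (n + s + t)).card ≤ (s + t) + (Q.card + R.card) := by
    refine (Finset.card_le_card h1).trans ((Finset.card_union_le _ _).trans ?_)
    refine Nat.add_le_add ((Finset.card_union_le _ _).trans (Nat.add_le_add ?_ ?_)) ?_
    · rw [Finset.card_range]
    · exact Finset.card_image_le.trans (by rw [Finset.card_range])
    · exact Finset.card_image_le.trans (Finset.card_union_le _ _)
  have h3 : (Q.card : ℝ) ≤ S * c.1.card / M := by
    refine heavy_le a hS hM c.1 Q fun m hm => ?_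
    rw [hQ, Finset.mem_filter] at hm
    exact hm.2
  have h4 : (R.card : ℝ) = ng a M c n := by
    unfold ng
    rw [hR]
  have h5 : ((cuts (sh s c).2 (n + s + t)).card : ℝ) ≤ (s + t) + (Q.card + R.card) := by
    exact_mod_cast h2
  rw [h4] at h5
  linarith

/-- The bound for the confined clusters. -/
theorem conf_few {J1 : ℝ} (h : Reg D q β J1) (S : ℝ) (hS : 0 < S) :
    ∃ M0 ρ η c : ℝ, 0 < M0 ∧ 0 < ρ ∧ 0 < η ∧ 0 < c ∧ ∀ k : ℕ, ∃ C : ℝ, 0 < C ∧
      ∀ M, M0 ≤ M → ∀ J, 1 ≤ J → J ≤ J1 → ∀ (n s t : ℕ) (u w : Tv D),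
      sm D q β J (fun c' => ii ((abv 0 c' ∧ bel ((n + s + t : ℕ) : ℤ) c') ∧
        (((0, u) : Site D) ∈ c'.1 ∧ ((((n + s + t : ℕ) : ℤ), w) : Site D) ∈ c'.1) ∧
        ((cuts c'.2 (n + s + t)).card : ℝ) ≤ ρ * n + k + s + t + S * c'.1.card / M) *
          ENNReal.ofReal (Real.exp (η * c'.1.card))) ≤
      ENNReal.ofReal C * ex (xiR D q β J + c) n * ex c s * ex c t := by
  obtain ⟨x0, hx0, hxi⟩ := h.xi
  obtain ⟨ρ1, η1, C1, c1, hρ1, hη1, hC1, hc1, hfew⟩ := few_cuts h
  set b : ℝ := Real.log ((Real.exp β - 1 + q) / (Real.exp β - 1)) + 1 with hb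
  obtain ⟨K, C2, η2, hK, hC2, hη2, hlarge⟩ := large_cl h b
  set η : ℝ := min (min η1 η2) (x0 * ρ1 / (8 * K)) with hη
  set c : ℝ := min (min c1 1) (min (x0 / 2) (x0 * ρ1 / 4)) with hc
  have hηp : 0 < η := lt_min (lt_min hη1 hη2) (by positivity)
  have hcp : 0 < c := lt_min (lt_min hc1 one_pos) (lt_min (by positivity) (by positivity))
  have e1 : η ≤ η1 := (min_le_left _ _).trans (min_le_left _ _)
  have e2 : η ≤ η2 := (min_le_left _ _).trans (min_le_right _ _)
  have e3 : η * K ≤ x0 * ρ1 / 8 := by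
    have : η ≤ x0 * ρ1 / (8 * K) := min_le_right _ _
    calc η * K ≤ x0 * ρ1 / (8 * K) * K := mul_le_mul_of_nonneg_right this hK.le
      _ = x0 * ρ1 / 8 := by field_simp
  have f1 : c ≤ c1 := (min_le_left _ _).trans (min_le_left _ _)
  have f2 : c ≤ 1 := (min_le_left _ _).trans (min_le_right _ _)
  have f3 : c ≤ x0 / 2 := (min_le_right _ _).trans (min_le_left _ _)
  have f4 : c ≤ x0 * ρ1 / 4 := (min_le_right _ _).trans (min_le_right _ _)
  refine ⟨8 * S * K / ρ1, ρ1 / 8, η, c, by positivity, by positivity, hηp, hcp, fun k => ?_⟩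
  set E : ℝ := x0 / 2 * (k + ρ1 / 8) + x0 * ρ1 / 8 with hE
  refine ⟨C1 + C2 + Real.exp E, by positivity, ?_⟩
  intro M hM J hJ hJ1 n s t u w
  have hJ0 : 0 ≤ J := by linarith
  have hMp : 0 < M := lt_of_lt_of_le (by positivity) hM
  have hx := hxi J hJ hJ1
  have hxb : xiR D q β J + 1 ≤ b := by
    have := xiR_le h.toBas hJ
    rw [hb]; linarith
  obtain ⟨l, hl⟩ : ∃ l : ℕ, l = n + s + t := ⟨_, rfl⟩
  have hlR : (l : ℝ) = n + s + t := by rw [hl]; push_cast; ring
  rw [← hl]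
  have n0 : (0 : ℝ) ≤ n := Nat.cast_nonneg _
  have s0 : (0 : ℝ) ≤ s := Nat.cast_nonneg _
  have t0 : (0 : ℝ) ≤ t := Nat.cast_nonneg _
  have l0 : (0 : ℝ) ≤ l := Nat.cast_nonneg _
  -- the target
  set G : ℝ := Real.exp (-((xiR D q β J + c) * n) - c * s - c * t) with hG
  have hG0 : 0 < G := Real.exp_pos _
  have htarget : ENNReal.ofReal (C1 + C2 + Real.exp E) * ex (xiR D q β J + c) n * ex c s * ex c t =
      ENNReal.ofReal (C1 * G) + ENNReal.ofReal (C2 * G) + ENNReal.ofReal (Real.exp E * G) := by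
    rw [← ENNReal.ofReal_add (by positivity) (by positivity),
      ← ENNReal.ofReal_add (by positivity) (by positivity)]
    unfold ex
    rw [← ENNReal.ofReal_mul (by positivity), ← ENNReal.ofReal_mul (by positivity),
      ← ENNReal.ofReal_mul (by positivity), mul_assoc, mul_assoc, ← Real.exp_add, ← Real.exp_add]
    congr 1
    rw [hG, ← add_mul, ← add_mul]
    congr 2
    ring
  rw [htarget]
  -- few cuts
  obtain ⟨N, hN⟩ := hfew J hJ hJ1 l ((0, u) : Site D) (((l : ℤ), w) : Site D) rfl rfl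
  have hA := sm_conf_le h.toBas hJ0 l N _ _ (fun _ _ => (Real.exp_pos _).le) _ hN
  have hB := sm_conf_le h.toBas hJ0 l 0 _ _ (fun _ _ => (Real.exp_pos _).le) _
    (fun T _ => hlarge J hJ hJ1 l T ((0, u) : Site D) (((l : ℤ), w) : Site D) rfl rfl)
  have hC := sm_conf_two h.toBas hJ l u w
  have d1 : ∀ e : ℝ, 0 < e → Real.exp (-(e * (SB.dist1 ((0, u) : Site D) ((l : ℤ), w) : ℝ))) ≤ 1 := by
    intro e he
    rw [Real.exp_le_one_iff]
    have : (0 : ℝ) ≤ SB.dist1 ((0, u) : Site D) ((l : ℤ), w) := Nat.cast_nonneg _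
    have := mul_nonneg he.le this
    linarith
  have hA' : C1 * Real.exp (-((xiR D q β J + c1) * l)) *
      Real.exp (-(c1 * SB.dist1 ((0, u) : Site D) ((l : ℤ), w))) ≤ C1 * G := by
    refine (mul_le_of_le_one_right (by positivity) (d1 c1 hc1)).trans ?_
    refine mul_le_mul_of_nonneg_left (Real.exp_le_exp.2 ?_) hC1.le
    rw [hlR]
    nlinarith
  have hB' : C2 * Real.exp (-(b * l)) *
      Real.exp (-(η2 * SB.dist1 ((0, u) : Site D) ((l : ℤ), w))) ≤ C2 * G := by
    refine (mul_le_of_le_one_right (by positivity) (d1 η2 hη2)).trans ?_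
    refine mul_le_mul_of_nonneg_left (Real.exp_le_exp.2 ?_) hC2.le
    rw [hlR]
    nlinarith
  -- the third sum
  set Z : ℝ≥0∞ := ii (3 / 4 * ρ1 * l ≤ s + t + k + ρ1 / 8) *
    ENNReal.ofReal (Real.exp (η * (K * (l + 1)))) with hZ
  have hC' : Z * ENNReal.ofReal (Real.exp (-(xiR D q β J * l))) ≤
      ENNReal.ofReal (Real.exp E * G) := by
    by_cases h1 : 3 / 4 * ρ1 * l ≤ s + t + k + ρ1 / 8
    · rw [hZ, ii_true h1, one_mul, ← ENNReal.ofReal_mul (Real.exp_pos _).le]
      refine ENNReal.ofReal_le_ofReal ?_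
      rw [hG, ← Real.exp_add, ← Real.exp_add]
      refine Real.exp_le_exp.2 ?_
      have g1 : η * (K * (l + 1)) ≤ x0 * ρ1 / 8 * (l + 1) := by
        rw [← mul_assoc]
        exact mul_le_mul_of_nonneg_right e3 (by linarith)
      have g2 : x0 / 2 * (3 / 4 * ρ1 * l) ≤ x0 / 2 * (s + t + k + ρ1 / 8) :=
        mul_le_mul_of_nonneg_left h1 (by positivity)
      have g3 : xiR D q β J * l = xiR D q β J * n + xiR D q β J * (s + t) := by rw [hlR]; ring
      have g4 : x0 * (s + t) ≤ xiR D q β J * (s + t) :=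
        mul_le_mul_of_nonneg_right hx (by linarith)
      have g5 : c * s ≤ x0 / 2 * s := mul_le_mul_of_nonneg_right f3 s0
      have g6 : c * t ≤ x0 / 2 * t := mul_le_mul_of_nonneg_right f3 t0
      have g7 : c * n ≤ x0 * ρ1 / 4 * n := mul_le_mul_of_nonneg_right f4 n0
      have g8 : x0 * ρ1 / 4 * n ≤ x0 * ρ1 / 4 * l := by
        refine mul_le_mul_of_nonneg_left ?_ (by positivity)
        rw [hlR]; linarith
      rw [hE, g3]
      nlinarith
    · rw [hZ, ii_false h1, zero_mul, zero_mul]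
      exact bot_le
  -- pointwise
  refine le_trans ?_ (add_le_add (add_le_add
    (hA.trans (ENNReal.ofReal_le_ofReal hA')) (hB.trans (ENNReal.ofReal_le_ofReal hB')))
    ((mul_le_mul_right hC Z).trans hC'))
  unfold sm
  rw [← ENNReal.tsum_mul_left, ← ENNReal.tsum_add, ← ENNReal.tsum_add]
  refine ENNReal.tsum_le_tsum fun c' => ?_
  beta_reduce
  by_cases hp : (abv 0 c' ∧ bel (l : ℤ) c') ∧
      (((0, u) : Site D) ∈ c'.1 ∧ (((l : ℤ), w) : Site D) ∈ c'.1) ∧
      ((cuts c'.2 l).card : ℝ) ≤ ρ1 / 8 * n + k + s + t + S * c'.1.card / M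
  · rw [ii_true hp, one_mul, ii_true hp.1, one_mul, one_mul, one_mul, ii_true hp.2.1, mul_one]
    have hcard : (0 : ℝ) ≤ c'.1.card := Nat.cast_nonneg _
    by_cases p1 : ((cuts c'.2 l).card : ℝ) ≤ ρ1 * l
    · rw [ii_true ⟨hp.2.1.1, hp.2.1.2, p1⟩, one_mul]
      refine le_trans ?_ (le_self_add.trans le_self_add)
      exact mul_le_mul_right (ENNReal.ofReal_le_ofReal (Real.exp_le_exp.2
        (mul_le_mul_of_nonneg_right e1 hcard))) _
    · by_cases p2 : K * (l + 1) ≤ (c'.1.card : ℝ)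
      · have p2' : ((0, u) : Site D) ∈ c'.1 ∧ (((l : ℤ), w) : Site D) ∈ c'.1 ∧
            K * (l + 1) ≤ (c'.1.card : ℝ) := ⟨hp.2.1.1, hp.2.1.2, p2⟩
        rw [ii_true p2', one_mul]
        refine le_trans ?_ (le_add_self.trans le_self_add)
        exact mul_le_mul_right (ENNReal.ofReal_le_ofReal (Real.exp_le_exp.2
          (mul_le_mul_of_nonneg_right e2 hcard))) _
      · have p3 : S * c'.1.card / M ≤ ρ1 / 8 * (l + 1) := by
          rw [div_le_iff₀ hMp]
          have q1 : S * c'.1.card ≤ S * (K * (l + 1)) :=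
            mul_le_mul_of_nonneg_left (not_le.1 p2).le hS.le
          have q2 : ρ1 / 8 * (l + 1) * (8 * S * K / ρ1) ≤ ρ1 / 8 * (l + 1) * M :=
            mul_le_mul_of_nonneg_left hM (by positivity)
          have q3 : ρ1 / 8 * (l + 1) * (8 * S * K / ρ1) = S * (K * (l + 1)) := by
            field_simp
          linarith
        have p4 : 3 / 4 * ρ1 * l ≤ s + t + k + ρ1 / 8 := by
          have q1 := hp.2.2
          have q2 := not_le.1 p1
          have q3 : ρ1 / 8 * n ≤ ρ1 / 8 * l := by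
            refine mul_le_mul_of_nonneg_left ?_ (by positivity)
            rw [hlR]; linarith
          nlinarith
        refine le_trans ?_ le_add_self
        rw [hZ, ii_true p4, one_mul, mul_comm]
        refine mul_le_mul_left (ENNReal.ofReal_le_ofReal (Real.exp_le_exp.2
          (mul_le_mul_of_nonneg_left (not_le.1 p2).le hηp.le))) _
  · rw [ii_false hp, zero_mul, mul_zero]
    exact bot_le

theorem sm_mul_left (a : ℝ≥0∞) (F : Pr D → ℝ≥0∞) :
    sm D q β J (fun c => a * F c) = a * sm D q β J F := by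
  unfold sm
  rw [← ENNReal.tsum_mul_left]
  exact tsum_congr fun c => by ring

theorem sm_tsum {κ : Type} (F : κ → Pr D → ℝ≥0∞) :
    sm D q β J (fun c => ∑' i, F i c) = ∑' i, sm D q β J (F i) := by
  unfold sm
  rw [ENNReal.tsum_comm]
  exact tsum_congr fun c => by rw [ENNReal.tsum_mul_left]

/-- The sum over the integers of the kernel. -/
theorem tsum_nat_ne_top {c : ℝ} (hc : 0 < c) : ∑' s : ℕ, ex c s ≠ ⊤ := by
  have h1 : Real.exp (-c) < 1 := Real.exp_lt_one_iff.2 (by linarith)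
  have h2 := (summable_geometric_of_lt_one (Real.exp_pos _).le h1).tsum_ofReal_ne_top
  refine ne_of_eq_of_ne (tsum_congr fun s => ?_) h2
  unfold ex
  rw [← Real.exp_nat_mul]
  congr 2
  ring

/-- Every cluster that contains a point of height `0` and a point of height `n` has exact
overshoots. -/
theorem overshoot (n : ℕ) (c : Pr D) {u w : Tv D} (hu : ((0, u) : Site D) ∈ c.1)
    (hw : (((n : ℤ), w) : Site D) ∈ c.1) : ∃ (s t : ℕ) (u' w' : Tv D),
    ((-(s : ℤ), u') : Site D) ∈ c.1 ∧ (((n + t : ℕ) : ℤ), w') ∈ c.1 ∧ abv (-(s : ℤ)) c ∧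
      bel ((n + t : ℕ) : ℤ) c := by
  obtain ⟨x, hx, hx'⟩ := Finset.exists_min_image c.1 (fun x => x.1) ⟨_, hu⟩
  obtain ⟨y, hy, hy'⟩ := Finset.exists_max_image c.1 (fun x => x.1) ⟨_, hw⟩
  have h1 : x.1 ≤ 0 := hx' _ hu
  have h2 : (n : ℤ) ≤ y.1 := hy' _ hw
  refine ⟨(-x.1).toNat, (y.1 - n).toNat, x.2, y.2, ?_, ?_, ?_, ?_⟩
  · have h3 : -((-x.1).toNat : ℤ) = x.1 := by omega
    rw [h3]
    exact hx
  · have h3 : ((n + (y.1 - n).toNat : ℕ) : ℤ) = y.1 := by omega
    rw [h3]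
    exact hy
  · intro z hz
    have := hx' z hz
    omega
  · intro z hz
    have := hy' z hz
    push_cast
    omega

end Gc

open Gc in
/-- Few good cuts are unlikely, also for clusters that are not confined. -/
theorem few_good {D : ℕ} {q β J1 : ℝ} (h : Reg D q β J1) (a : ℝ) (ha : 0 < a) :
    ∃ M0 ρ η c : ℝ, 0 < M0 ∧ 0 < ρ ∧ 0 < η ∧ 0 < c ∧ ∀ k : ℕ, ∃ C : ℝ, 0 < C ∧
      ∀ M, M0 ≤ M → ∀ J, 1 ≤ J → J ≤ J1 → ∀ (n : ℕ) (u w : Tv D),
      sm D q β J (fun c' => ii (((0, u) : Site D) ∈ c'.1 ∧ (((n : ℤ), w) : Site D) ∈ c'.1 ∧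
        (ng a M c' n : ℝ) ≤ ρ * n + k) * ENNReal.ofReal (Real.exp (η * c'.1.card))) ≤
      ENNReal.ofReal C * ex (xiR D q β J + c) n * ex c (SB.nt (u - w)) := by
  obtain ⟨S, hS, hS'⟩ := sum_abs a ha
  obtain ⟨M0, ρ, η, c, hM0, hρ, hη, hc, hk⟩ := conf_few h S hS
  refine ⟨M0, ρ, η / 4, min c (η / 4), hM0, hρ, by positivity, lt_min hc (by positivity),
    fun k => ?_⟩
  obtain ⟨C, hC, hmain⟩ := hk k
  set K1 : ℝ≥0∞ := ∑' s : ℕ, ex c s with hK1
  set K2 : ℝ≥0∞ := ∑' y : Tv D, ex (η / 4) (SB.nt y) with hK2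
  have hK1t : K1 ≠ ⊤ := tsum_nat_ne_top hc
  have hK2t : K2 ≠ ⊤ := tsum_ex_ne_top (by positivity)
  set Kt : ℝ≥0∞ := ENNReal.ofReal C * (K1 * K1 * (K2 * K2)) with hKt
  have hKtt : Kt ≠ ⊤ := ENNReal.mul_ne_top ENNReal.ofReal_ne_top
    (ENNReal.mul_ne_top (ENNReal.mul_ne_top hK1t hK1t) (ENNReal.mul_ne_top hK2t hK2t))
  refine ⟨Kt.toReal + 1, by positivity, ?_⟩
  intro M hM J hJ hJ1 n u w
  have hMp : 0 < M := lt_of_lt_of_le hM0 hM
  -- the kernel of the overshoots
  set F : ℕ × ℕ × Tv D × Tv D → Pr D → ℝ≥0∞ := fun i c' =>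
    ii ((abv 0 c' ∧ bel ((n + i.1 + i.2.1 : ℕ) : ℤ) c') ∧
        (((0, i.2.2.1) : Site D) ∈ c'.1 ∧
          ((((n + i.1 + i.2.1 : ℕ) : ℤ), i.2.2.2) : Site D) ∈ c'.1) ∧
        ((cuts c'.2 (n + i.1 + i.2.1)).card : ℝ) ≤
          ρ * n + k + i.1 + i.2.1 + S * c'.1.card / M) *
      ENNReal.ofReal (Real.exp (η * c'.1.card)) with hF
  set e : Tv D → Tv D → ℝ≥0∞ := fun x y => ex (η / 4) (SB.nt (x - y)) with he
  have key : ∀ c' : Pr D, (lat D).IsCl c'.1 c'.2 →
      ii (((0, u) : Site D) ∈ c'.1 ∧ (((n : ℤ), w) : Site D) ∈ c'.1 ∧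
        (ng a M c' n : ℝ) ≤ ρ * n + k) * ENNReal.ofReal (Real.exp (η / 4 * c'.1.card)) ≤
      ∑' i : ℕ × ℕ × Tv D × Tv D,
        e u w * (e i.2.2.1 u * e i.2.2.2 w) * F i (sh (i.1 : ℤ) c') := by
    intro c' hcl
    by_cases hp : ((0, u) : Site D) ∈ c'.1 ∧ (((n : ℤ), w) : Site D) ∈ c'.1 ∧
        (ng a M c' n : ℝ) ≤ ρ * n + k
    · obtain ⟨s, t, u', w', h1, h2, h3, h4⟩ := overshoot n c' hp.1 hp.2.1
      refine le_trans ?_ (ENNReal.le_tsum (s, t, u', w'))
      rw [ii_true hp, one_mul, hF]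
      simp only
      rw [ii_true, one_mul, card_sh, he]
      · simp only
        unfold ex
        rw [← ENNReal.ofReal_mul (by positivity), ← ENNReal.ofReal_mul (by positivity),
          ← ENNReal.ofReal_mul (by positivity), ← Real.exp_add, ← Real.exp_add, ← Real.exp_add]
        refine ENNReal.ofReal_le_ofReal (Real.exp_le_exp.2 ?_)
        have g1 := isCl_dist hcl hp.1 hp.2.1
        have g2 := isCl_dist hcl h1 hp.1
        have g3 := isCl_dist hcl h2 hp.2.1
        have k1 : SB.nt (u - w) ≤ c'.1.card := by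
          have : SB.nt (u - w) ≤ SB.dist1 ((0, u) : Site D) ((n : ℤ), w) := by
            unfold SB.dist1 SB.nt
            exact Nat.le_add_left _ _
          omega
        have k2 : SB.nt (u' - u) ≤ c'.1.card := by
          have : SB.nt (u' - u) ≤ SB.dist1 ((-(s : ℤ), u') : Site D) (0, u) := by
            unfold SB.dist1 SB.nt
            exact Nat.le_add_left _ _
          omega
        have k3 : SB.nt (w' - w) ≤ c'.1.card := by
          have : SB.nt (w' - w) ≤ SB.dist1 ((((n + t : ℕ) : ℤ), w') : Site D) ((n : ℤ), w) := by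
            unfold SB.dist1 SB.nt
            exact Nat.le_add_left _ _
          omega
        have k1' : (SB.nt (u - w) : ℝ) ≤ c'.1.card := by exact_mod_cast k1
        have k2' : (SB.nt (u' - u) : ℝ) ≤ c'.1.card := by exact_mod_cast k2
        have k3' : (SB.nt (w' - w) : ℝ) ≤ c'.1.card := by exact_mod_cast k3
        nlinarith
      · refine ⟨⟨?_, ?_⟩, ⟨?_, ?_⟩, ?_⟩
        · intro x hx
          rw [mem_sh] at hx
          have := h3 _ hx
          simp only at this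
          omega
        · intro x hx
          rw [mem_sh] at hx
          have := h4 _ hx
          simp only at this
          push_cast at this ⊢
          omega
        · rw [mem_sh]
          simpa using h1
        · rw [mem_sh]
          have h5 : ((n + s + t : ℕ) : ℤ) - s = ((n + t : ℕ) : ℤ) := by push_cast; ring
          rw [h5]
          exact h2
        · have h5 := cuts_le a hS' hMp c' n s t
          rw [card_sh]
          have := hp.2.2
          linarith
    · rw [ii_false hp, zero_mul]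
      exact bot_le
  have key2 : sm D q β J (fun c' => ii (((0, u) : Site D) ∈ c'.1 ∧
        (((n : ℤ), w) : Site D) ∈ c'.1 ∧
        (ng a M c' n : ℝ) ≤ ρ * n + k) * ENNReal.ofReal (Real.exp (η / 4 * c'.1.card))) ≤
      ∑' i : ℕ × ℕ × Tv D × Tv D, e u w * (e i.2.2.1 u * e i.2.2.2 w) *
        (ENNReal.ofReal C * ex (xiR D q β J + c) n * ex c i.1 * ex c i.2.1) := by
    have k1 : sm D q β J (fun c' => ii (((0, u) : Site D) ∈ c'.1 ∧
        (((n : ℤ), w) : Site D) ∈ c'.1 ∧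
        (ng a M c' n : ℝ) ≤ ρ * n + k) * ENNReal.ofReal (Real.exp (η / 4 * c'.1.card))) ≤
        sm D q β J (fun c' => ∑' i : ℕ × ℕ × Tv D × Tv D,
          e u w * (e i.2.2.1 u * e i.2.2.2 w) * F i (sh (i.1 : ℤ) c')) := by
      unfold sm
      refine ENNReal.tsum_le_tsum fun c' => ?_
      by_cases hcl : (lat D).IsCl c'.1 c'.2
      · exact mul_le_mul_right (key c' hcl) _
      · unfold WI
        rw [if_neg hcl, zero_mul]
        exact bot_le
    refine k1.trans ?_
    rw [sm_tsum]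
    refine ENNReal.tsum_le_tsum fun i => ?_
    rw [sm_mul_left]
    refine mul_le_mul_right ?_ _
    rw [sm_sh]
    exact hmain M hM J hJ hJ1 n i.1 i.2.1 i.2.2.1 i.2.2.2
  refine key2.trans ?_
  have key3 : ∑' i : ℕ × ℕ × Tv D × Tv D, e u w * (e i.2.2.1 u * e i.2.2.2 w) *
        (ENNReal.ofReal C * ex (xiR D q β J + c) n * ex c i.1 * ex c i.2.1) =
      Kt * ex (xiR D q β J + c) n * e u w := by
    have k1 : ∀ i : ℕ × ℕ × Tv D × Tv D, e u w * (e i.2.2.1 u * e i.2.2.2 w) *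
        (ENNReal.ofReal C * ex (xiR D q β J + c) n * ex c i.1 * ex c i.2.1) =
        (ENNReal.ofReal C * ex (xiR D q β J + c) n * e u w) *
          (ex c i.1 * (ex c i.2.1 * (e i.2.2.1 u * e i.2.2.2 w))) := fun i => by ring
    have k2 : ∀ x : Tv D, ∑' y : Tv D, e y x = K2 := by
      intro x
      rw [he, hK2]
      exact tsum_sub_right (fun y => ex (η / 4) (SB.nt y)) x
    rw [tsum_congr k1, ENNReal.tsum_mul_left, ENNReal.tsum_prod']
    simp only [ENNReal.tsum_mul_left]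
    rw [ENNReal.tsum_mul_right, ← hK1, ENNReal.tsum_prod']
    simp only [ENNReal.tsum_mul_left]
    rw [ENNReal.tsum_mul_right, ← hK1, ENNReal.tsum_prod']
    simp only [ENNReal.tsum_mul_left]
    rw [k2, ENNReal.tsum_mul_right, k2, hKt]
    ring
  rw [key3]
  have l1 : Kt ≤ ENNReal.ofReal (Kt.toReal + 1) := by
    rw [← ENNReal.ofReal_toReal hKtt]
    refine ENNReal.ofReal_le_ofReal ?_
    rw [ENNReal.toReal_ofReal ENNReal.toReal_nonneg]
    linarith
  have l2 : ex (xiR D q β J + c) n ≤ ex (xiR D q β J + min c (η / 4)) n :=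
    ex_anti_c (by linarith [min_le_left c (η / 4)]) (Nat.cast_nonneg _)
  have l3 : e u w ≤ ex (min c (η / 4)) (SB.nt (u - w)) :=
    ex_anti_c (min_le_right _ _) (Nat.cast_nonneg _)
  gcongr

end Pool.Agent.DL
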