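import Pool.Agent.DL.Pcu
import Pool.Agent.DL.Cut
import Pool.Agent.DL.Gc
import Pool.Agent.DL.Shi
import Pool.Agent.DL.ExK

/-!
# Decomposition at the first and the last good cut
-/

set_option autoImplicit false
set_option linter.unusedSectionVars false

namespace Pool.Agent.DL

open Finset
open scoped ENNReal

namespace Fl

variable {D : ℕ}

theorem ii_true {p : Prop} (h : p) : ii p = 1 := by
  unfold ii; exact if_pos h

theorem ii_false {p : Prop} (h : ¬ p) : ii p = 0 := by
  unfold ii; exact if_neg h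

theorem ii_le_one (p : Prop) : ii p ≤ 1 := by
  by_cases h : p
  · rw [ii_true h]
  · rw [ii_false h]; exact bot_le

/-- Products of indicators. -/
theorem ii_mul_le {p r s : Prop} (h : p → r → s) : ii p * ii r ≤ ii s := by
  by_cases hp : p
  · by_cases hr : r
    · rw [ii_true hp, ii_true hr, ii_true (h hp hr), one_mul]
    · rw [ii_false hr, mul_zero]; exact bot_le
  · rw [ii_false hp, zero_mul]; exact bot_le

theorem ii_le_mul {p r s : Prop} (h : p → r ∧ s) : ii p ≤ ii r * ii s := by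
  by_cases hp : p
  · rw [ii_true hp, ii_true (h hp).1, ii_true (h hp).2, one_mul]
  · rw [ii_false hp]; exact bot_le

/-! ### Translations in the first direction -/

theorem mem_sh {k : ℤ} {c : Pr D} {x : Site D} : x ∈ (sh k c).1 ↔ ((x.1 - k, x.2) : Site D) ∈ c.1 := by
  unfold sh
  simp only [mem_image]
  constructor
  · rintro ⟨y, hy, rfl⟩
    simpa using hy
  · intro h
    exact ⟨_, h, by ext <;> simp⟩

theorem sh_inj (k : ℤ) : Function.Injective (fun x : Site D => ((x.1 + k, x.2) : Site D)) := by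
  intro x y h
  simp only [Prod.mk.injEq] at h
  exact Prod.ext (by linarith [h.1]) h.2

theorem she_inj (k : ℤ) :
    Function.Injective (fun e : Edge D => (((e.1.1 + k, e.1.2), e.2) : Edge D)) := by
  intro x y h
  simp only [Prod.mk.injEq] at h
  exact Prod.ext (Prod.ext (by linarith [h.1.1]) h.1.2) h.2

theorem sh_upE (k m : ℤ) (c : Pr D) : (upE (sh k c).2 m).card = (upE c.2 (m - k)).card := by
  have h : upE (sh k c).2 m = (upE c.2 (m - k)).image fun e : Edge D => ((e.1.1 + k, e.1.2), e.2) := by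
    unfold upE sh
    rw [Finset.filter_image]
    congr 1
    refine Finset.filter_congr fun e _ => ?_
    constructor
    · rintro ⟨h1, h2⟩
      exact ⟨h1, by simp only at h2; linarith⟩
    · rintro ⟨h1, h2⟩
      exact ⟨h1, by simp only; linarith⟩
  rw [h, Finset.card_image_of_injective _ (she_inj k)]

theorem sh_lvw (a : ℝ) (k m : ℤ) (c : Pr D) : lvw a (sh k c).1 m = lvw a c.1 (m - k) := by
  unfold lvw sh
  rw [Finset.sum_image fun x _ y _ h => sh_inj k h]
  refine Finset.sum_congr rfl fun x _ => ?_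
  congr 3
  push_cast
  congr 1
  ring

theorem sh_good (a M : ℝ) (k m : ℤ) (c : Pr D) : good a M (sh k c) m ↔ good a M c (m - k) := by
  unfold good
  rw [sh_upE, sh_lvw]

theorem sh_abv (k m : ℤ) (c : Pr D) : abv m (sh k c) ↔ abv (m - k) c := by
  unfold abv sh
  simp only [mem_image, forall_exists_index, and_imp, forall_apply_eq_imp_iff₂]
  refine forall₂_congr fun x _ => ?_
  constructor <;> intro h <;> linarith

theorem sh_sh (k : ℤ) (c : Pr D) : sh (-k) (sh k c) = c := by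
  unfold sh
  simp only [Finset.image_image]
  refine Prod.ext ?_ ?_
  · refine Eq.trans (Finset.image_congr fun x _ => ?_) Finset.image_id
    change ((x.1 + k + -k, x.2) : Site D) = x
    rw [add_neg_cancel_right]
  · refine Eq.trans (Finset.image_congr fun x _ => ?_) Finset.image_id
    change (((x.1.1 + k + -k, x.1.2), x.2) : Edge D) = x
    rw [add_neg_cancel_right]

/-! ### Stability of good cuts -/

theorem lvw_nonneg (a : ℝ) (A : Finset (Site D)) (m : ℤ) : 0 ≤ lvw a A m :=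
  Finset.sum_nonneg fun _ _ => (Real.exp_pos _).le

/-- Sites above `m` count less at the height `k < m`. -/
theorem lvw_abv (a : ℝ) (A : Finset (Site D)) (m k : ℤ) (hA : ∀ x ∈ A, m ≤ x.1) (hk : k ≤ m) :
    lvw a A k = Real.exp (-(a * ((m : ℝ) - k))) * lvw a A m := by
  unfold lvw
  rw [Finset.mul_sum]
  refine Finset.sum_congr rfl fun x hx => ?_
  rw [← Real.exp_add]
  congr 1
  have h1 : (m : ℝ) ≤ x.1 := by exact_mod_cast hA x hx
  have h2 : (k : ℝ) ≤ m := by exact_mod_cast hk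
  rw [abs_of_nonneg (by linarith), abs_of_nonneg (by linarith)]
  ring

theorem lvw_bel (a : ℝ) (A : Finset (Site D)) (m k : ℤ) (hA : ∀ x ∈ A, x.1 ≤ m) (hk : m ≤ k) :
    lvw a A k = Real.exp (-(a * ((k : ℝ) - m))) * lvw a A m := by
  unfold lvw
  rw [Finset.mul_sum]
  refine Finset.sum_congr rfl fun x hx => ?_
  rw [← Real.exp_add]
  congr 1
  have h1 : (x.1 : ℝ) ≤ m := by exact_mod_cast hA x hx
  have h2 : (m : ℝ) ≤ k := by exact_mod_cast hk
  rw [abs_of_nonpos (by linarith), abs_of_nonpos (by linarith)]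
  ring

/-- Good cuts of the lower part are good cuts, with a larger constant. -/
theorem good_lo {a M : ℝ} (ha : 0 < a) {c1 c2 : Pr D} {y : Tv D} {m : ℤ} (hv : Vd c1 y m c2)
    (hg : good a (2 * M) (jn c1 y m c2) m) {s : ℕ} (hs : Real.exp (-(a * s)) ≤ 1 / 2)
    {k : ℤ} (hk : k + s ≤ m) (hkm : k < m) (h1 : good a M c1 k) :
    good a (2 * M) (jn c1 y m c2) k := by
  refine ⟨by rw [(jn_upE hv).2.1 k hkm]; exact h1.1, ?_⟩
  rw [jn_lvl hv]
  have h2 := hg.2
  rw [jn_lvl hv] at h2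
  have h3 := lvw_abv a c2.1 m k (fun x hx => by have := hv.2.2.2.2.1 x hx; linarith) hkm.le
  have h4 := lvw_nonneg a c1.1 m
  have h5 := lvw_nonneg a c2.1 m
  have h6 : Real.exp (-(a * ((m : ℝ) - k))) ≤ 1 / 2 := by
    refine le_trans (Real.exp_le_exp.2 ?_) hs
    have : (k : ℝ) + s ≤ m := by exact_mod_cast hk
    have := mul_le_mul_of_nonneg_left (show (s : ℝ) ≤ m - k by linarith) ha.le
    linarith
  rw [h3]
  have h7 := mul_le_mul_of_nonneg_right h6 h5
  linarith [h1.2]

/-- Good cuts of the upper part are good cuts, with a larger constant. -/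
theorem good_hi {a M : ℝ} (ha : 0 < a) {c1 c2 : Pr D} {y : Tv D} {m : ℤ} (hv : Vd c1 y m c2)
    (hg : good a (2 * M) (jn c1 y m c2) m) {s : ℕ} (hs : Real.exp (-(a * s)) ≤ 1 / 2)
    {k : ℤ} (hk : m + s ≤ k) (hkm : m < k) (h1 : good a M c2 k) :
    good a (2 * M) (jn c1 y m c2) k := by
  refine ⟨by rw [(jn_upE hv).2.2 k hkm]; exact h1.1, ?_⟩
  rw [jn_lvl hv]
  have h2 := hg.2
  rw [jn_lvl hv] at h2
  have h3 := lvw_bel a c1.1 m k hv.2.2.1 hkm.le
  have h4 := lvw_nonneg a c1.1 m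
  have h5 := lvw_nonneg a c2.1 m
  have h6 : Real.exp (-(a * ((k : ℝ) - m))) ≤ 1 / 2 := by
    refine le_trans (Real.exp_le_exp.2 ?_) hs
    have : (m : ℝ) + s ≤ k := by exact_mod_cast hk
    have := mul_le_mul_of_nonneg_left (show (s : ℝ) ≤ k - m by linarith) ha.le
    linarith
  rw [h3]
  have h7 := mul_le_mul_of_nonneg_right h6 h4
  linarith [h1.2]

theorem exists_s (a : ℝ) (ha : 0 < a) : ∃ s : ℕ, Real.exp (-(a * s)) ≤ 1 / 2 := by
  obtain ⟨s, hs⟩ := exists_nat_gt (1 / a)
  refine ⟨s, ?_⟩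
  have h1 : 1 ≤ a * s := by
    have := (div_lt_iff₀ ha).1 hs
    linarith
  have h2 : Real.exp (-(a * s)) ≤ Real.exp (-1) := Real.exp_le_exp.2 (by linarith)
  have h3 : Real.exp (-1) ≤ 1 / 2 := by
    rw [Real.exp_neg, one_div]
    refine inv_anti₀ (by norm_num) ?_
    have := Real.add_one_le_exp (1 : ℝ)
    linarith
  linarith

/-- The lower part has few good cuts. -/
theorem ng_lo {a M : ℝ} (ha : 0 < a) {c1 c2 : Pr D} {y : Tv D} {m : ℕ} (hv : Vd c1 y m c2)
    (hg : good a (2 * M) (jn c1 y m c2) m) {s : ℕ} (hs : Real.exp (-(a * s)) ≤ 1 / 2)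
    (hno : ∀ k : ℕ, k < m → ¬ good a (2 * M) (jn c1 y m c2) k) : ng a M c1 m ≤ s := by
  classical
  unfold ng
  have : ((range m).filter fun k : ℕ => good a M c1 (k : ℤ)) ⊆ Finset.Ico (m - s) m := by
    intro k hk
    rw [mem_filter, mem_range] at hk
    rw [mem_Ico]
    refine ⟨?_, hk.1⟩
    by_contra hcon
    push Not at hcon
    exact hno k hk.1 (good_lo ha hv hg hs (by omega) (by omega) hk.2)
  have h2 := Finset.card_le_card this
  rw [Nat.card_Ico] at h2
  omega

/-- The upper part has few good cuts. -/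
theorem ng_hi {a M : ℝ} (ha : 0 < a) {c1 c2 : Pr D} {y : Tv D} {m n : ℕ} (hv : Vd c1 y m c2)
    (hg : good a (2 * M) (jn c1 y m c2) m) {s : ℕ} (hs : Real.exp (-(a * s)) ≤ 1 / 2)
    (hno : ∀ k : ℕ, m < k → k < n → ¬ good a (2 * M) (jn c1 y m c2) k) :
    ng a M (sh (-((m : ℤ) + 1)) c2) (n - 1 - m) ≤ s := by
  classical
  unfold ng
  have : ((range (n - 1 - m)).filter fun k : ℕ => good a M (sh (-((m : ℤ) + 1)) c2) (k : ℤ)) ⊆
      Finset.range s := by
    intro k hk
    rw [mem_filter, mem_range] at hk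
    rw [mem_range]
    by_contra hcon
    push Not at hcon
    rw [sh_good] at hk
    have h1 : (k : ℤ) - -((m : ℤ) + 1) = ((m + 1 + k : ℕ) : ℤ) := by push_cast; ring
    rw [h1] at hk
    exact hno (m + 1 + k) (by omega) (by omega)
      (good_hi ha hv hg hs (by push_cast; omega) (by push_cast; omega) hk.2)
  have h2 := Finset.card_le_card this
  rwa [card_range] at h2

/-! ### Sums over clusters -/

theorem sm_add' {q β J : ℝ} (F G : Pr D → ℝ≥0∞) :
    sm D q β J (fun c => F c + G c) = sm D q β J F + sm D q β J G := by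
  unfold sm
  rw [← ENNReal.tsum_add]
  exact tsum_congr fun c => mul_add _ _ _

theorem sm_sum' {q β J : ℝ} {κ : Type*} (S : Finset κ) (F : κ → Pr D → ℝ≥0∞) :
    sm D q β J (fun c => ∑ k ∈ S, F k c) = ∑ k ∈ S, sm D q β J (F k) := by
  unfold sm
  rw [← Summable.tsum_finsetSum fun _ _ => ENNReal.summable]
  exact tsum_congr fun c => by rw [Finset.mul_sum]

theorem pt_first (g : ℕ → Prop) (n : ℕ) (P : Prop) :
    ii P ≤ ii (P ∧ ∀ k < n, ¬ g k) + ∑ m ∈ range n, ii (g m) * ii (P ∧ ∀ k : ℕ, k < m → ¬ g k) := by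
  classical
  by_cases hP : P
  · by_cases hn : ∀ k < n, ¬ g k
    · rw [ii_true hP, ii_true ⟨hP, hn⟩]
      exact le_self_add
    · push Not at hn
      have hn' : ∃ k, k < n ∧ g k := hn
      set m := Nat.find hn' with hm
      have h1 := Nat.find_spec hn'
      have h2 : ∀ k < m, ¬ g k := fun k hk hgk =>
        Nat.find_min hn' hk ⟨lt_trans hk h1.1, hgk⟩
      refine le_add_of_nonneg_of_le bot_le ?_
      refine le_trans ?_ (Finset.single_le_sum (f := fun m => ii (g m) * ii (P ∧ ∀ k : ℕ, k < m → ¬ g k))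
        (fun _ _ => bot_le) (mem_range.2 h1.1))
      rw [ii_true hP, ii_true h1.2, ii_true ⟨hP, h2⟩, one_mul]
  · rw [ii_false hP]
    exact bot_le

theorem pt_last (g : ℕ → Prop) (n : ℕ) (P : Prop) :
    ii P ≤ ii (P ∧ ∀ k < n, ¬ g k) +
      ∑ m ∈ range n, ii (g m) * ii (P ∧ ∀ k : ℕ, m < k → k < n → ¬ g k) := by
  classical
  by_cases hP : P
  · by_cases hn : ∀ k < n, ¬ g k
    · rw [ii_true hP, ii_true ⟨hP, hn⟩]
      exact le_self_add
    · push Not at hn
      have hne : ((range n).filter g).Nonempty := by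
        obtain ⟨k, hk, hgk⟩ := hn
        exact ⟨k, mem_filter.2 ⟨mem_range.2 hk, hgk⟩⟩
      set m := ((range n).filter g).max' hne with hm
      have h1 := mem_filter.1 (Finset.max'_mem _ hne)
      have h2 : ∀ k : ℕ, m < k → k < n → ¬ g k := by
        intro k hk hkn hgk
        have := Finset.le_max' ((range n).filter g) k (mem_filter.2 ⟨mem_range.2 hkn, hgk⟩)
        omega
      refine le_add_of_nonneg_of_le bot_le ?_
      refine le_trans ?_ (Finset.single_le_sum
        (f := fun m => ii (g m) * ii (P ∧ ∀ k : ℕ, m < k → k < n → ¬ g k))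
        (fun _ _ => bot_le) h1.1)
      rw [ii_true hP, ii_true h1.2, ii_true ⟨hP, h2⟩, one_mul]
  · rw [ii_false hP]
    exact bot_le

theorem sm_first {q β J : ℝ} (a M : ℝ) (n : ℕ) (P : Pr D → Prop) :
    sm D q β J (fun c => ii (P c)) ≤
      sm D q β J (fun c => ii (P c ∧ ∀ k : ℕ, k < n → ¬ good a M c k)) +
      ∑ m ∈ range n, sm D q β J (fun c => ii (good a M c m) *
        ii (P c ∧ ∀ k : ℕ, k < m → ¬ good a M c k)) := by
  rw [← sm_sum', ← sm_add']
  exact Shi.sm_mono fun c => pt_first (fun k : ℕ => good a M c k) n (P c)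

theorem sm_last {q β J : ℝ} (a M : ℝ) (n : ℕ) (P : Pr D → Prop) :
    sm D q β J (fun c => ii (P c)) ≤
      sm D q β J (fun c => ii (P c ∧ ∀ k : ℕ, k < n → ¬ good a M c k)) +
      ∑ m ∈ range n, sm D q β J (fun c => ii (good a M c m) *
        ii (P c ∧ ∀ k : ℕ, m < k → k < n → ¬ good a M c k)) := by
  rw [← sm_sum', ← sm_add']
  exact Shi.sm_mono fun c => pt_last (fun k : ℕ => good a M c k) n (P c)

theorem ng_zero {a M : ℝ} {c : Pr D} {n : ℕ} (h : ∀ k : ℕ, k < n → ¬ good a M c k) :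
    ng a M c n = 0 := by
  classical
  unfold ng
  rw [Finset.card_eq_zero, Finset.filter_eq_empty_iff]
  intro k hk
  exact h k (mem_range.1 hk)

/-- Clusters with heights at least `0`. -/
noncomputable def HN (D : ℕ) (q β J : ℝ) (n : ℕ) (u w : Tv D) : ℝ≥0∞ :=
  sm D q β J fun c => ii (((0, u) : Site D) ∈ c.1 ∧ (((n : ℤ), w) : Site D) ∈ c.1 ∧ abv 0 c)

/-- The end kernel. -/
noncomputable def RN {D : ℕ} (C ξ c : ℝ) (n : ℕ) (u w : Tv D) : ℝ≥0∞ :=
  ENNReal.ofReal C * ex (ξ + c) n * ex c (SB.nt (u - w))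

/-- Decompositions at the first and at the last good cut. -/
theorem cuts {q β J1 : ℝ} (h : Reg D q β J1) :
    ∃ K C c : ℝ, 0 < K ∧ 0 < C ∧ 0 < c ∧ ∀ J, 1 ≤ J → J ≤ J1 → ∀ (n : ℕ) (u w : Tv D),
      (GN D q β J n u w ≤ RN C (xiR D q β J) c n u w + ENNReal.ofReal K *
        ∑ m ∈ range n, ∑' y, RN C (xiR D q β J) c m u y * HN D q β J (n - 1 - m) y w) ∧
      (HN D q β J n u w ≤ RN C (xiR D q β J) c n u w + ENNReal.ofReal K *
        ∑ m ∈ range n, ∑' y, TN D q β J m u y * RN C (xiR D q β J) c (n - 1 - m) y w) := by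
  obtain ⟨a, ha, haJ⟩ := h.xi
  obtain ⟨M0, ρ, η, c, hM0, hρ, hη, hc, hF⟩ := few_good h a ha
  obtain ⟨s, hs⟩ := exists_s a ha
  obtain ⟨C, hC, hF⟩ := hF s
  obtain ⟨K, hK, hcut⟩ := sm_cut_le h a (2 * M0) ha haJ
  refine ⟨K, C, c, hK, hC, hc, fun J hJ hJ1 n u w => ?_⟩
  -- sums over clusters with few good cuts
  have few : ∀ (M : ℝ), M0 ≤ M → ∀ (n : ℕ) (u w : Tv D) (P : Pr D → Prop),
      (∀ c', P c' → ((0, u) : Site D) ∈ c'.1 ∧ (((n : ℤ), w) : Site D) ∈ c'.1 ∧
        ng a M c' n ≤ s) → sm D q β J (fun c' => ii (P c')) ≤ RN C (xiR D q β J) c n u w := by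
    intro M hM n u w P hP
    refine le_trans (Shi.sm_mono fun c' => ?_) (hF M hM J hJ hJ1 n u w)
    by_cases hp : P c'
    · obtain ⟨p1, p2, p3⟩ := hP c' hp
      have p4 : (ng a M c' n : ℝ) ≤ ρ * n + s := by
        have : (ng a M c' n : ℝ) ≤ s := by exact_mod_cast p3
        have : 0 ≤ ρ * n := by positivity
        linarith
      rw [ii_true hp, ii_true ⟨p1, p2, p4⟩, one_mul, ← ENNReal.ofReal_one]
      refine ENNReal.ofReal_le_ofReal (Real.one_le_exp ?_)
      positivity
    · rw [ii_false hp]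
      exact bot_le
  constructor
  · -- first cut
    refine le_trans (sm_first a (2 * M0) n _) (add_le_add ?_ ?_)
    · refine few (2 * M0) (by linarith) n u w _ fun c' hc' => ⟨hc'.1.1, hc'.1.2, ?_⟩
      rw [ng_zero hc'.2]
      exact Nat.zero_le _
    · rw [Finset.mul_sum]
      refine Finset.sum_le_sum fun m hm => ?_
      rw [mem_range] at hm
      refine le_trans (hcut J hJ hJ1 m _
        (fun c' => ii (((0, u) : Site D) ∈ c'.1 ∧ ng a M0 c' m ≤ s))
        (fun c' => ii ((((n : ℤ), w) : Site D) ∈ c'.1)) ?_) ?_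
      · intro c1 y c2 hv hg
        refine ii_le_mul fun hP => ?_
        obtain ⟨⟨p1, p2⟩, p3⟩ := hP
        have q1 : ((0, u) : Site D) ∈ c1.1 := by
          rcases Finset.mem_union.1 p1 with h1 | h1
          · exact h1
          · have := hv.2.2.2.2.1 _ h1
            simp only at this
            omega
        have q2 : (((n : ℤ), w) : Site D) ∈ c2.1 := by
          rcases Finset.mem_union.1 p2 with h1 | h1
          · have := hv.2.2.1 _ h1
            simp only at this
            omega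
          · exact h1
        exact ⟨⟨q1, ng_lo ha hv hg hs p3⟩, q2⟩
      · refine mul_le_mul_right (ENNReal.tsum_le_tsum fun y => mul_le_mul' ?_ ?_) _
        · refine le_trans (Shi.sm_mono (F' := fun c' => ii ((((m : ℤ), y) : Site D) ∈ c'.1 ∧
            ((0, u) : Site D) ∈ c'.1 ∧ ng a M0 c' m ≤ s)) fun c' => ii_mul_le fun h1 h2 =>
            ⟨h1.2, h2⟩) ?_
          exact few M0 le_rfl m u y _ fun c' hc' => ⟨hc'.2.1, hc'.1, hc'.2.2⟩
        · rw [← sm_sh ((m : ℤ) + 1)]
          unfold HN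
          refine Shi.sm_mono fun c' => ii_mul_le fun h1 h2 => ?_
          rw [sh_abv, mem_sh] at h1
          rw [mem_sh] at h2
          have e1 : (m : ℤ) + 1 - ((m : ℤ) + 1) = 0 := by ring
          have e2 : (n : ℤ) - ((m : ℤ) + 1) = ((n - 1 - m : ℕ) : ℤ) := by omega
          simp only [e1, e2] at h1 h2
          exact ⟨h1.2, h2, h1.1⟩
  · -- last cut
    refine le_trans (sm_last a (2 * M0) n _) (add_le_add ?_ ?_)
    · refine few (2 * M0) (by linarith) n u w _ fun c' hc' => ⟨hc'.1.1, hc'.1.2.1, ?_⟩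
      rw [ng_zero hc'.2]
      exact Nat.zero_le _
    · rw [Finset.mul_sum]
      refine Finset.sum_le_sum fun m hm => ?_
      rw [mem_range] at hm
      refine le_trans (hcut J hJ hJ1 m _
        (fun c' => ii (((0, u) : Site D) ∈ c'.1 ∧ abv 0 c'))
        (fun c' => ii ((((n : ℤ), w) : Site D) ∈ c'.1 ∧
          ng a M0 (sh (-((m : ℤ) + 1)) c') (n - 1 - m) ≤ s)) ?_) ?_
      · intro c1 y c2 hv hg
        refine ii_le_mul fun hP => ?_
        obtain ⟨⟨p1, p2, p4⟩, p3⟩ := hP
        have q1 : ((0, u) : Site D) ∈ c1.1 := by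
          rcases Finset.mem_union.1 p1 with h1 | h1
          · exact h1
          · have := hv.2.2.2.2.1 _ h1
            simp only at this
            omega
        have q2 : (((n : ℤ), w) : Site D) ∈ c2.1 := by
          rcases Finset.mem_union.1 p2 with h1 | h1
          · have := hv.2.2.1 _ h1
            simp only at this
            omega
          · exact h1
        exact ⟨⟨q1, fun x hx => p4 x (Finset.mem_union_left _ hx)⟩, q2, ng_hi ha hv hg hs p3⟩
      · refine mul_le_mul_right (ENNReal.tsum_le_tsum fun y => mul_le_mul' ?_ ?_) _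
        · unfold TN
          exact Shi.sm_mono fun c' => ii_mul_le fun h1 h2 => ⟨h2.1, h1.2, h2.2, h1.1⟩
        · rw [← sm_sh ((m : ℤ) + 1)]
          refine le_trans (Shi.sm_mono (F' := fun c' => ii (((0, y) : Site D) ∈ c'.1 ∧
            (((n - 1 - m : ℕ) : ℤ), w) ∈ c'.1 ∧ ng a M0 c' (n - 1 - m) ≤ s)) fun c' =>
            ii_mul_le fun h1 h2 => ?_) (few M0 le_rfl (n - 1 - m) y w _ fun c' hc' => hc')
          rw [mem_sh] at h1
          rw [mem_sh] at h2
          have e1 : (m : ℤ) + 1 - ((m : ℤ) + 1) = 0 := by ring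
          have e2 : (n : ℤ) - ((m : ℤ) + 1) = ((n - 1 - m : ℕ) : ℤ) := by omega
          simp only [e1, e2] at h1 h2
          rw [sh_sh] at h2
          exact ⟨h1.2, h2.1, h2.2⟩

/-! ### Generating functions -/

theorem conv_le (z : ℝ≥0∞) (e h : ℕ → ℝ≥0∞) (L : ℕ) :
    ∑ n ∈ range (L + 1), z ^ n * ∑ m ∈ range n, e m * h (n - 1 - m) ≤
      z * ((∑ m ∈ range (L + 1), z ^ m * e m) * ∑ m ∈ range (L + 1), z ^ m * h m) := by
  classical
  have h1 : ∑ n ∈ range (L + 1), z ^ n * ∑ m ∈ range n, e m * h (n - 1 - m) =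
      ∑ p ∈ (range (L + 1)).sigma (fun n => range n), z ^ p.1 * (e p.2 * h (p.1 - 1 - p.2)) := by
    rw [Finset.sum_sigma]
    exact Finset.sum_congr rfl fun n _ => by rw [Finset.mul_sum]
  have h2 : ∑ p ∈ (range (L + 1)).sigma (fun n => range n), z ^ p.1 * (e p.2 * h (p.1 - 1 - p.2)) =
      ∑ p ∈ ((range (L + 1)).sigma (fun n => range n)).image (fun p => (p.2, p.1 - 1 - p.2)),
        z * ((z ^ p.1 * e p.1) * (z ^ p.2 * h p.2)) := by
    rw [Finset.sum_image]
    · refine Finset.sum_congr rfl fun p hp => ?_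
      rw [mem_sigma, mem_range, mem_range] at hp
      have : p.1 = 1 + p.2 + (p.1 - 1 - p.2) := by omega
      calc z ^ p.1 * (e p.2 * h (p.1 - 1 - p.2)) =
          z ^ (1 + p.2 + (p.1 - 1 - p.2)) * (e p.2 * h (p.1 - 1 - p.2)) := by rw [← this]
        _ = _ := by rw [pow_add, pow_add, pow_one]; ring
    · rintro ⟨p1, p2⟩ hp ⟨r1, r2⟩ hr hpr
      simp only [coe_sigma, Set.mem_sigma_iff, coe_range, Set.mem_Iio] at hp hr
      simp only [Prod.mk.injEq] at hpr
      have e1 : p2 = r2 := hpr.1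
      have e2 : p1 = r1 := by omega
      subst e1 e2
      rfl
  rw [h1, h2]
  have h3 : z * ((∑ m ∈ range (L + 1), z ^ m * e m) * ∑ m ∈ range (L + 1), z ^ m * h m) =
      ∑ p ∈ range (L + 1) ×ˢ range (L + 1), z * ((z ^ p.1 * e p.1) * (z ^ p.2 * h p.2)) := by
    rw [Finset.sum_product, Finset.sum_mul_sum, Finset.mul_sum]
    exact Finset.sum_congr rfl fun n _ => by rw [Finset.mul_sum]
  rw [h3]
  refine Finset.sum_le_sum_of_subset fun p hp => ?_
  obtain ⟨r, hr, rfl⟩ := Finset.mem_image.1 hp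
  rw [mem_sigma, mem_range, mem_range] at hr
  rw [mem_product, mem_range, mem_range]
  constructor
  · simp only; omega
  · simp only; omega

/-- The same with a sum over the transverse position. -/
theorem conv_tsum_le (z : ℝ≥0∞) (e h : Tv D → ℕ → ℝ≥0∞) (L : ℕ) :
    ∑ n ∈ range (L + 1), z ^ n * ∑ m ∈ range n, ∑' y, e y m * h y (n - 1 - m) ≤
      z * ∑' y, ((∑ m ∈ range (L + 1), z ^ m * e y m) * ∑ m ∈ range (L + 1), z ^ m * h y m) := by
  have h1 : ∑ n ∈ range (L + 1), z ^ n * ∑ m ∈ range n, ∑' y, e y m * h y (n - 1 - m) =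
      ∑' y, ∑ n ∈ range (L + 1), z ^ n * ∑ m ∈ range n, e y m * h y (n - 1 - m) := by
    rw [Summable.tsum_finsetSum fun _ _ => ENNReal.summable]
    refine Finset.sum_congr rfl fun n _ => ?_
    rw [ENNReal.tsum_mul_left, Summable.tsum_finsetSum fun _ _ => ENNReal.summable]
  rw [h1, ← ENNReal.tsum_mul_left]
  exact ENNReal.tsum_le_tsum fun y => conv_le z (e y) (h y) L

/-- The generating function of the end kernel. -/
theorem RN_gen {C ξ ξ1 c : ℝ} (hξ : ξ1 - c / 4 ≤ ξ) {z : ℝ≥0∞}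
    (hz : z ≤ ENNReal.ofReal (Real.exp (ξ1 + c / 4))) (L : ℕ) (u w : Tv D) :
    ∑ m ∈ range (L + 1), z ^ m * RN C ξ c m u w ≤
      (ENNReal.ofReal C * (1 - ENNReal.ofReal (Real.exp (-(c / 2))))⁻¹) * ex c (SB.nt (u - w)) := by
  have h1 : ∀ m : ℕ, z ^ m * RN C ξ c m u w ≤
      (ENNReal.ofReal C * ex c (SB.nt (u - w))) * ENNReal.ofReal (Real.exp (-(c / 2))) ^ m := by
    intro m
    have h2 : z ^ m * ex (ξ + c) m ≤ ENNReal.ofReal (Real.exp (-(c / 2))) ^ m := by
      calc z ^ m * ex (ξ + c) m ≤ ENNReal.ofReal (Real.exp (ξ1 + c / 4)) ^ m * ex (ξ + c) m :=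
            mul_le_mul_left (pow_le_pow_left' hz m) _
        _ = ENNReal.ofReal (Real.exp (m * (ξ1 + c / 4) + -((ξ + c) * m))) := by
            unfold ex
            rw [← ENNReal.ofReal_pow (Real.exp_nonneg _), ← Real.exp_nat_mul,
              ← ENNReal.ofReal_mul (Real.exp_nonneg _), ← Real.exp_add]
        _ ≤ ENNReal.ofReal (Real.exp (m * (-(c / 2)))) := by
            refine ENNReal.ofReal_le_ofReal (Real.exp_le_exp.2 ?_)
            have hm : (0 : ℝ) ≤ m := Nat.cast_nonneg m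
            nlinarith
        _ = _ := by rw [← ENNReal.ofReal_pow (Real.exp_nonneg _), ← Real.exp_nat_mul]
    calc z ^ m * RN C ξ c m u w = (ENNReal.ofReal C * ex c (SB.nt (u - w))) *
          (z ^ m * ex (ξ + c) m) := by unfold RN; ring
      _ ≤ _ := mul_le_mul_right h2 _
  calc ∑ m ∈ range (L + 1), z ^ m * RN C ξ c m u w ≤
      ∑ m ∈ range (L + 1), (ENNReal.ofReal C * ex c (SB.nt (u - w))) *
        ENNReal.ofReal (Real.exp (-(c / 2))) ^ m := Finset.sum_le_sum fun m _ => h1 m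
    _ = (ENNReal.ofReal C * ex c (SB.nt (u - w))) *
        ∑ m ∈ range (L + 1), ENNReal.ofReal (Real.exp (-(c / 2))) ^ m := by rw [Finset.mul_sum]
    _ ≤ (ENNReal.ofReal C * ex c (SB.nt (u - w))) *
        ∑' m : ℕ, ENNReal.ofReal (Real.exp (-(c / 2))) ^ m :=
        mul_le_mul_right (ENNReal.sum_le_tsum _) _
    _ = _ := by rw [ENNReal.tsum_geometric]; ring

end Fl

/-- Decomposition at the first and the last good cut. -/
theorem first_last {D : ℕ} {q β J1 : ℝ} (h : Reg D q β J1) :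
    ∃ δ C c : ℝ, 0 < δ ∧ 0 < C ∧ 0 < c ∧ ∀ J, Jok D q β J1 δ J →
      ∀ z ≤ ENNReal.ofReal (Real.exp (xiR D q β 1 + δ)), ∀ (L : ℕ) (u w : Tv D),
      SG D q β J z L u w ≤ ENNReal.ofReal C * (ex c (SB.nt (u - w)) +
        ∑' y, ∑' y', ex c (SB.nt (u - y)) * ST D q β J z L y y' * ex c (SB.nt (y' - w))) := by
  obtain ⟨K, C0, c, hK, hC0, hc, hcut⟩ := Fl.cuts h
  -- constants
  have hr : ENNReal.ofReal (Real.exp (-(c / 2))) < 1 := by
    rw [← ENNReal.ofReal_one, ENNReal.ofReal_lt_ofReal_iff one_pos]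
    exact Real.exp_lt_one_iff.2 (by linarith)
  set A : ℝ≥0∞ := ENNReal.ofReal C0 * (1 - ENNReal.ofReal (Real.exp (-(c / 2))))⁻¹ with hA
  have hA1 : A ≠ ⊤ := by
    refine ENNReal.mul_ne_top ENNReal.ofReal_ne_top (ENNReal.inv_ne_top.2 ?_)
    exact (tsub_pos_of_lt hr).ne'
  set Z : ℝ≥0∞ := ENNReal.ofReal (Real.exp (xiR D q β 1 + c / 4)) with hZ
  have hZ1 : Z ≠ ⊤ := ENNReal.ofReal_ne_top
  set T : ℝ≥0∞ := ∑' y : Tv D, ex (c / 2) (SB.nt y) with hT
  have hT1 : T ≠ ⊤ := tsum_ex_ne_top (by linarith)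
  set B : ℝ≥0∞ := ENNReal.ofReal K * Z * A with hB
  have hB1 : B ≠ ⊤ := ENNReal.mul_ne_top (ENNReal.mul_ne_top ENNReal.ofReal_ne_top hZ1) hA1
  set E : ℝ≥0∞ := A + B * A * T + B * B with hE
  have hE1 : E ≠ ⊤ := by
    refine ENNReal.add_ne_top.2 ⟨ENNReal.add_ne_top.2 ⟨hA1, ?_⟩, ENNReal.mul_ne_top hB1 hB1⟩
    exact ENNReal.mul_ne_top (ENNReal.mul_ne_top hB1 hA1) hT1
  refine ⟨c / 4, E.toReal + 1, c / 2, by linarith, by positivity, by linarith, ?_⟩
  intro J hJ z hz L u w
  have hEC : E ≤ ENNReal.ofReal (E.toReal + 1) := by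
    rw [← ENNReal.ofReal_toReal hE1]
    exact ENNReal.ofReal_le_ofReal (by rw [ENNReal.ofReal_toReal hE1]; linarith)
  refine le_trans ?_ (mul_le_mul_left hEC _)
  -- the generating function of the half space
  have hRN := fun (u w : Tv D) => Fl.RN_gen (C := C0) hJ.h3 hz L u w
  have hH : ∀ y : Tv D, ∑ m ∈ range (L + 1), z ^ m * Fl.HN D q β J m y w ≤
      A * ex c (SB.nt (y - w)) + B * ∑' y', ST D q β J z L y y' * ex c (SB.nt (y' - w)) := by
    intro y
    calc ∑ m ∈ range (L + 1), z ^ m * Fl.HN D q β J m y w ≤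
        ∑ m ∈ range (L + 1), z ^ m * (Fl.RN C0 (xiR D q β J) c m y w + ENNReal.ofReal K *
          ∑ k ∈ range m, ∑' y', TN D q β J k y y' * Fl.RN C0 (xiR D q β J) c (m - 1 - k) y' w) :=
          Finset.sum_le_sum fun m _ => mul_le_mul_right (hcut J hJ.h1 hJ.h2 m y w).2 _
      _ = ∑ m ∈ range (L + 1), z ^ m * Fl.RN C0 (xiR D q β J) c m y w + ENNReal.ofReal K *
          ∑ m ∈ range (L + 1), z ^ m *
          ∑ k ∈ range m, ∑' y', TN D q β J k y y' * Fl.RN C0 (xiR D q β J) c (m - 1 - k) y' w := by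
          rw [Finset.mul_sum, ← Finset.sum_add_distrib]
          exact Finset.sum_congr rfl fun m _ => by ring
      _ ≤ A * ex c (SB.nt (y - w)) + ENNReal.ofReal K * (z * ∑' y',
          (∑ m ∈ range (L + 1), z ^ m * TN D q β J m y y') *
            ∑ m ∈ range (L + 1), z ^ m * Fl.RN C0 (xiR D q β J) c m y' w) :=
          add_le_add (hRN y w) (mul_le_mul_right (Fl.conv_tsum_le z
            (fun y' m => TN D q β J m y y') (fun y' m => Fl.RN C0 (xiR D q β J) c m y' w) L) _)
      _ ≤ A * ex c (SB.nt (y - w)) + ENNReal.ofReal K * (Z * ∑' y',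
          ST D q β J z L y y' * (A * ex c (SB.nt (y' - w)))) := by
          refine add_le_add le_rfl (mul_le_mul_right (mul_le_mul' hz
            (ENNReal.tsum_le_tsum fun y' => mul_le_mul' le_rfl (hRN y' w))) _)
      _ = _ := by
          have : ∑' y', ST D q β J z L y y' * (A * ex c (SB.nt (y' - w))) =
              A * ∑' y', ST D q β J z L y y' * ex c (SB.nt (y' - w)) := by
            rw [← ENNReal.tsum_mul_left]
            exact tsum_congr fun y' => by ring
          rw [this, hB]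
          ring
  -- the sum over the intermediate position
  have hTT : ∑' y, ex c (SB.nt (u - y)) * ex c (SB.nt (y - w)) ≤ T * ex (c / 2) (SB.nt (u - w)) := by
    have h1 : ∀ y : Tv D, ex c (SB.nt (u - y)) * ex c (SB.nt (y - w)) ≤
        ex (c / 2) (SB.nt (u - w)) * ex (c / 2) (SB.nt (u - y)) := by
      intro y
      have e1 : ex c (SB.nt (u - y)) = ex (c / 2) (SB.nt (u - y)) * ex (c / 2) (SB.nt (u - y)) := by
        rw [← ex_add_c]
        congr 1
        ring
      calc ex c (SB.nt (u - y)) * ex c (SB.nt (y - w)) ≤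
          (ex (c / 2) (SB.nt (u - y)) * ex (c / 2) (SB.nt (u - y))) *
            ex (c / 2) (SB.nt (y - w)) := by
            rw [e1]
            exact mul_le_mul_right (ex_anti_c (by linarith) (Nat.cast_nonneg _)) _
        _ = (ex (c / 2) (SB.nt (u - y)) * ex (c / 2) (SB.nt (y - w))) *
            ex (c / 2) (SB.nt (u - y)) := by ring
        _ ≤ _ := mul_le_mul_left (ex_tri (by linarith) u y w) _
    calc ∑' y, ex c (SB.nt (u - y)) * ex c (SB.nt (y - w)) ≤
        ∑' y, ex (c / 2) (SB.nt (u - w)) * ex (c / 2) (SB.nt (u - y)) := ENNReal.tsum_le_tsum h1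
      _ = ex (c / 2) (SB.nt (u - w)) * ∑' y, ex (c / 2) (SB.nt (u - y)) := ENNReal.tsum_mul_left
      _ = _ := by rw [tsum_sub_left (fun y => ex (c / 2) (SB.nt y)) u, ← hT, mul_comm]
  calc SG D q β J z L u w ≤
      ∑ m ∈ range (L + 1), z ^ m * (Fl.RN C0 (xiR D q β J) c m u w + ENNReal.ofReal K *
        ∑ k ∈ range m, ∑' y, Fl.RN C0 (xiR D q β J) c k u y * Fl.HN D q β J (m - 1 - k) y w) :=
        Finset.sum_le_sum fun m _ => mul_le_mul_right (hcut J hJ.h1 hJ.h2 m u w).1 _
    _ = ∑ m ∈ range (L + 1), z ^ m * Fl.RN C0 (xiR D q β J) c m u w + ENNReal.ofReal K *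
        ∑ m ∈ range (L + 1), z ^ m *
        ∑ k ∈ range m, ∑' y, Fl.RN C0 (xiR D q β J) c k u y * Fl.HN D q β J (m - 1 - k) y w := by
        rw [Finset.mul_sum, ← Finset.sum_add_distrib]
        exact Finset.sum_congr rfl fun m _ => by ring
    _ ≤ A * ex c (SB.nt (u - w)) + ENNReal.ofReal K * (z * ∑' y,
        (∑ m ∈ range (L + 1), z ^ m * Fl.RN C0 (xiR D q β J) c m u y) *
          ∑ m ∈ range (L + 1), z ^ m * Fl.HN D q β J m y w) :=
        add_le_add (hRN u w) (mul_le_mul_right (Fl.conv_tsum_le z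
          (fun y m => Fl.RN C0 (xiR D q β J) c m u y) (fun y m => Fl.HN D q β J m y w) L) _)
    _ ≤ A * ex c (SB.nt (u - w)) + ENNReal.ofReal K * (Z * ∑' y, (A * ex c (SB.nt (u - y))) *
        (A * ex c (SB.nt (y - w)) + B * ∑' y', ST D q β J z L y y' * ex c (SB.nt (y' - w)))) :=
        add_le_add le_rfl (mul_le_mul_right (mul_le_mul' hz
          (ENNReal.tsum_le_tsum fun y => mul_le_mul' (hRN u y) (hH y))) _)
    _ = A * ex c (SB.nt (u - w)) + B * A * (∑' y, ex c (SB.nt (u - y)) * ex c (SB.nt (y - w))) +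
        B * B * ∑' y, ∑' y', ex c (SB.nt (u - y)) * ST D q β J z L y y' * ex c (SB.nt (y' - w)) := by
        have : ∑' y, (A * ex c (SB.nt (u - y))) *
            (A * ex c (SB.nt (y - w)) + B * ∑' y', ST D q β J z L y y' * ex c (SB.nt (y' - w))) =
            A * A * (∑' y, ex c (SB.nt (u - y)) * ex c (SB.nt (y - w))) + A * B *
            ∑' y, ∑' y', ex c (SB.nt (u - y)) * ST D q β J z L y y' * ex c (SB.nt (y' - w)) := by
          rw [← ENNReal.tsum_mul_left, ← ENNReal.tsum_mul_left, ← ENNReal.tsum_add]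
          refine tsum_congr fun y => ?_
          have h3 : ∑' y', ex c (SB.nt (u - y)) * ST D q β J z L y y' * ex c (SB.nt (y' - w)) =
              ex c (SB.nt (u - y)) * ∑' y', ST D q β J z L y y' * ex c (SB.nt (y' - w)) := by
            rw [← ENNReal.tsum_mul_left]
            exact tsum_congr fun y' => by ring
          rw [h3]
          ring
        rw [this, hB]
        ring
    _ ≤ A * ex (c / 2) (SB.nt (u - w)) + B * A * (T * ex (c / 2) (SB.nt (u - w))) +
        B * B * ∑' y, ∑' y', ex (c / 2) (SB.nt (u - y)) * ST D q β J z L y y' *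
          ex (c / 2) (SB.nt (y' - w)) := by
        have hex : ∀ t : Tv D, ex c (SB.nt t) ≤ ex (c / 2) (SB.nt t) := fun t =>
          ex_anti_c (by linarith) (Nat.cast_nonneg _)
        refine add_le_add (add_le_add (mul_le_mul_right (hex _) _) (mul_le_mul_right hTT _))
          (mul_le_mul_right (ENNReal.tsum_le_tsum fun y => ENNReal.tsum_le_tsum fun y' =>
            mul_le_mul' (mul_le_mul' (hex _) le_rfl) (hex _)) _)
    _ ≤ E * ex (c / 2) (SB.nt (u - w)) + E * ∑' y, ∑' y', ex (c / 2) (SB.nt (u - y)) *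
        ST D q β J z L y y' * ex (c / 2) (SB.nt (y' - w)) := by
        refine add_le_add ?_ (mul_le_mul_left (by rw [hE]; exact le_add_self) _)
        calc A * ex (c / 2) (SB.nt (u - w)) + B * A * (T * ex (c / 2) (SB.nt (u - w))) =
            (A + B * A * T) * ex (c / 2) (SB.nt (u - w)) := by ring
          _ ≤ _ := mul_le_mul_left (by rw [hE]; exact le_self_add) _
    _ = _ := by rw [mul_add]

end Pool.Agent.DL
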