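import Pool.Agent.DL.DeA
import Pool.Agent.DL.Fl
import Pool.Agent.DL.Dc

/-!
# Confined clusters carry a positive part of the generating function on the line
-/

set_option autoImplicit false
set_option linter.unusedSectionVars false

namespace Pool.Agent.DL

open Finset
open scoped ENNReal

/-- The confined clusters carry a positive part of the generating function on the line. -/
theorem conf_ge {D : ℕ} {q β J1 : ℝ} (h : Reg D q β J1) (hB : S1B D q β) :
    ∃ δ C : ℝ, 0 < δ ∧ 0 < C ∧ ∀ J, Jok D q β J1 δ J → ∀ z ≤ zc D q β, ∀ L : ℕ,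
      SG D q β J z L 0 0 ≤ ENNReal.ofReal C * ST D q β J z L 0 0 := by
  obtain ⟨δ1, C1, c, hδ1, hC1, hc, hF⟩ := first_last h
  obtain ⟨δ2, C2, hδ2, hC2, hS⟩ := sup_le h hB
  have hc2 : 0 < c / 2 := by linarith
  set E : ℝ≥0∞ := ∑' y : Tv D, ex (c / 2) (SB.nt y) with hE
  have hEt : E ≠ ⊤ := tsum_ex_ne_top hc2
  set K : ℝ≥0∞ := 1 + ENNReal.ofReal (4 * (De.kap D q β J1)⁻¹) with hK
  have hKt : K ≠ ⊤ := by
    rw [hK]
    exact ENNReal.add_ne_top.2 ⟨ENNReal.one_ne_top, ENNReal.ofReal_ne_top⟩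
  have hK1 : 1 ≤ K := le_self_add
  have hAt : ENNReal.ofReal C1 * (E * E) * ENNReal.ofReal C2 ≠ ⊤ :=
    ENNReal.mul_ne_top (ENNReal.mul_ne_top ENNReal.ofReal_ne_top (ENNReal.mul_ne_top hEt hEt))
      ENNReal.ofReal_ne_top
  obtain ⟨r, hr⟩ := De.exists_small hAt hc2
  set κ : ℝ := (Real.exp (β * J1) ^ (2 * (D + 1)))⁻¹ with hκ
  have hκ0 : 0 < κ := inv_pos.2 (pow_pos (Real.exp_pos _) _)
  set CC : ℝ≥0∞ := 2 * (ENNReal.ofReal C1 * ENNReal.ofReal κ⁻¹ +
    ENNReal.ofReal C1 * (E * E) * K ^ (2 * r)) with hCC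
  have hCCt : CC ≠ ⊤ := by
    refine ENNReal.mul_ne_top ENNReal.ofNat_ne_top (ENNReal.add_ne_top.2 ⟨?_, ?_⟩)
    · exact ENNReal.mul_ne_top ENNReal.ofReal_ne_top ENNReal.ofReal_ne_top
    · exact ENNReal.mul_ne_top (ENNReal.mul_ne_top ENNReal.ofReal_ne_top
        (ENNReal.mul_ne_top hEt hEt)) (ENNReal.pow_ne_top hKt)
  refine ⟨min δ1 δ2, CC.toReal + 1, lt_min hδ1 hδ2,
    add_pos_of_nonneg_of_pos ENNReal.toReal_nonneg one_pos, ?_⟩
  intro J hJ z hz L
  have hJ1 : Jok D q β J1 δ1 J := ⟨hJ.h1, hJ.h2, by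
    have := hJ.h3
    have := min_le_left δ1 δ2
    linarith⟩
  have hJ2 : Jok D q β J1 δ2 J := ⟨hJ.h1, hJ.h2, by
    have := hJ.h3
    have := min_le_right δ1 δ2
    linarith⟩
  have hzt : z ≠ ⊤ := ne_top_of_le_ne_top ENNReal.ofReal_ne_top hz
  have hz' : z ≤ ENNReal.ofReal (Real.exp (xiR D q β 1 + δ1)) := by
    refine hz.trans (ENNReal.ofReal_le_ofReal (Real.exp_le_exp.2 ?_))
    linarith
  set X := SG D q β J z L 0 0 with hX
  set Y := ST D q β J z L 0 0 with hY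
  have hXt : X ≠ ⊤ := De.SG_ne_top h hJ.h1 hJ.h2 hzt L 0 0
  have hYge : ENNReal.ofReal κ ≤ Y := De.ST_ge h.toBas hJ.h1 hJ.h2 z L
  have hone : 1 ≤ ENNReal.ofReal κ⁻¹ * Y := by
    calc (1 : ℝ≥0∞) = ENNReal.ofReal κ⁻¹ * ENNReal.ofReal κ := by
          rw [← ENNReal.ofReal_mul (inv_nonneg.2 hκ0.le), inv_mul_cancel₀ hκ0.ne',
            ENNReal.ofReal_one]
      _ ≤ _ := mul_le_mul_right hYge _
  have h1 := hF J hJ1 z hz' L 0 0
  have hsum : ∑' y : Tv D, ∑' y' : Tv D, ex c (SB.nt (0 - y)) * ST D q β J z L y y' *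
      ex c (SB.nt (y' - 0)) ≤
      E * E * (K ^ (2 * r) * Y + ex (c / 2) r * (ENNReal.ofReal C2 * X)) := by
    calc ∑' y : Tv D, ∑' y' : Tv D, ex c (SB.nt (0 - y)) * ST D q β J z L y y' *
          ex c (SB.nt (y' - 0))
        ≤ ∑' y : Tv D, ∑' y' : Tv D, ex (c / 2) (SB.nt y) * ex (c / 2) (SB.nt y') *
          (K ^ (2 * r) * Y + ex (c / 2) r * (ENNReal.ofReal C2 * X)) := by
          refine ENNReal.tsum_le_tsum fun y => ENNReal.tsum_le_tsum fun y' => ?_
          rw [zero_sub, nt_neg', sub_zero]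
          refine De.term_le hc r y y' hK1 ?_ ?_
          · refine (De.ST_le_zero h.toBas hJ.h1 hJ.h2 z L y y').trans ?_
            exact mul_le_mul_left (pow_le_pow_left₀ bot_le le_add_self _) _
          · exact (De.ST_le_SG z L y y').trans (hS J hJ2 z hz L y y')
      _ = _ := by
          have e1 : ∀ y : Tv D, ∑' y' : Tv D, ex (c / 2) (SB.nt y) * ex (c / 2) (SB.nt y') *
              (K ^ (2 * r) * Y + ex (c / 2) r * (ENNReal.ofReal C2 * X)) =
              ex (c / 2) (SB.nt y) * (E * (K ^ (2 * r) * Y +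
                ex (c / 2) r * (ENNReal.ofReal C2 * X))) := by
            intro y
            rw [ENNReal.tsum_mul_right, ENNReal.tsum_mul_left, hE, mul_assoc]
          rw [tsum_congr e1, ENNReal.tsum_mul_right, ← hE, mul_assoc]
  have h2 : X ≤ (ENNReal.ofReal C1 * ENNReal.ofReal κ⁻¹ +
      ENNReal.ofReal C1 * (E * E) * K ^ (2 * r)) * Y + 2⁻¹ * X := by
    calc X ≤ ENNReal.ofReal C1 * (ex c (SB.nt ((0 : Tv D) - 0)) +
          ∑' y : Tv D, ∑' y' : Tv D, ex c (SB.nt (0 - y)) * ST D q β J z L y y' *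
          ex c (SB.nt (y' - 0))) := h1
      _ ≤ ENNReal.ofReal C1 * (ENNReal.ofReal κ⁻¹ * Y +
          E * E * (K ^ (2 * r) * Y + ex (c / 2) r * (ENNReal.ofReal C2 * X))) := by
          refine mul_le_mul_right (add_le_add ?_ hsum) _
          rw [sub_zero, nt_zero', Nat.cast_zero, ex_zero]
          exact hone
      _ = (ENNReal.ofReal C1 * ENNReal.ofReal κ⁻¹ +
          ENNReal.ofReal C1 * (E * E) * K ^ (2 * r)) * Y +
          ENNReal.ofReal C1 * (E * E) * ENNReal.ofReal C2 * ex (c / 2) r * X := by ring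
      _ ≤ _ := add_le_add_right (mul_le_mul_left hr _) _
  have h3 := De.absorb hXt h2
  calc X ≤ 2 * ((ENNReal.ofReal C1 * ENNReal.ofReal κ⁻¹ +
        ENNReal.ofReal C1 * (E * E) * K ^ (2 * r)) * Y) := h3
    _ = CC * Y := by rw [hCC]; ring
    _ ≤ ENNReal.ofReal (CC.toReal + 1) * Y := by
        refine mul_le_mul_left ?_ _
        calc CC = ENNReal.ofReal CC.toReal := (ENNReal.ofReal_toReal hCCt).symm
          _ ≤ _ := ENNReal.ofReal_le_ofReal (by linarith)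

end Pool.Agent.DL
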