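import Pool.Agent.DL.Shi
import Pool.Agent.DL.ExK
import Pool.Agent.DL.Inf
import Pool.Agent.DL.Gs

/-!
# Finite modifications of confined clusters
-/

set_option autoImplicit false
set_option linter.unusedSectionVars false

namespace Pool.Agent.DL

open Finset
open scoped ENNReal

namespace De

/-- Sums over the fibres of a map with small fibres. -/
theorem tsum_comp_le {α β : Type} [DecidableEq β] (f : α → β) (N : ℕ) (g : β → ℝ≥0∞)
    (hN : ∀ b, ∃ S : Finset α, S.card ≤ N ∧ ∀ a, f a = b → a ∈ S) :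
    ∑' a, g (f a) ≤ N * ∑' b, g b := by
  calc ∑' a, g (f a) = ∑' a, ∑' b, if f a = b then g b else 0 := by
        refine tsum_congr fun a => ?_
        rw [tsum_eq_single (f a)]
        · rw [if_pos rfl]
        · intro b hb
          rw [if_neg (Ne.symm hb)]
    _ = ∑' b, ∑' a, if f a = b then g b else 0 := ENNReal.tsum_comm
    _ ≤ ∑' b, N * g b := by
        refine ENNReal.tsum_le_tsum fun b => ?_
        obtain ⟨S, hS, hf⟩ := hN b
        have h1 : ∑' a, (if f a = b then g b else 0) = ∑ a ∈ S, if f a = b then g b else 0 := by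
          refine tsum_eq_sum fun a ha => ?_
          rw [if_neg fun h => ha (hf a h)]
        rw [h1]
        calc ∑ a ∈ S, (if f a = b then g b else 0) ≤ ∑ _a ∈ S, g b :=
              Finset.sum_le_sum fun a _ => by
                split_ifs
                · exact le_refl _
                · exact bot_le
          _ = S.card * g b := by rw [Finset.sum_const, nsmul_eq_mul]
          _ ≤ N * g b := by
              refine mul_le_mul_left ?_ _
              exact_mod_cast hS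
    _ = N * ∑' b, g b := ENNReal.tsum_mul_left

/-- Add a site and an edge. -/
def add {D : ℕ} (x : Site D) (e : Edge D) (c : Pr D) : Pr D := (insert x c.1, insert e c.2)

theorem add_fib {D : ℕ} (x : Site D) (e : Edge D) (b : Pr D) :
    ∃ S : Finset (Pr D), S.card ≤ 4 ∧ ∀ a, add x e a = b → a ∈ S := by
  refine ⟨({b.1, b.1.erase x} : Finset (Finset (Site D))) ×ˢ
    ({b.2, b.2.erase e} : Finset (Finset (Edge D))), ?_, ?_⟩
  · rw [Finset.card_product]
    exact Nat.mul_le_mul Finset.card_le_two Finset.card_le_two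
  · rintro a rfl
    rw [Finset.mem_product]
    refine ⟨?_, ?_⟩
    · rw [Finset.mem_insert, Finset.mem_singleton]
      by_cases h : x ∈ a.1
      · left
        exact (Finset.insert_eq_of_mem h).symm
      · right
        exact (Finset.erase_insert h).symm
    · rw [Finset.mem_insert, Finset.mem_singleton]
      by_cases h : e ∈ a.2
      · left
        exact (Finset.insert_eq_of_mem h).symm
      · right
        exact (Finset.erase_insert h).symm

/-- `e` joins `x` and `y`. -/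
def Jn {D : ℕ} (e : Edge D) (x y : Site D) : Prop :=
  ((lat D).s e = x ∧ (lat D).t e = y) ∨ ((lat D).s e = y ∧ (lat D).t e = x)

theorem rch_mono {D : ℕ} {E E' : Finset (Edge D)} (hE : E ⊆ E') {x y : Site D}
    (h : (lat D).Rch E x y) : (lat D).Rch E' x y := by
  induction h with
  | refl => exact Relation.ReflTransGen.refl
  | tail _ h2 ih =>
    obtain ⟨e, he, h3⟩ := h2
    exact ih.tail ⟨e, hE he, h3⟩

theorem rch_symm {D : ℕ} {E : Finset (Edge D)} {x y : Site D}
    (h : (lat D).Rch E x y) : (lat D).Rch E y x := by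
  induction h with
  | refl => exact Relation.ReflTransGen.refl
  | tail _ h2 ih =>
    obtain ⟨e, he, h3⟩ := h2
    exact (Relation.ReflTransGen.single ⟨e, he, h3.symm⟩).trans ih

theorem add_isCl {D : ℕ} {x y : Site D} {e : Edge D} (hj : Jn e x y) {c : Pr D}
    (hc : (lat D).IsCl c.1 c.2) (hy : y ∈ c.1) :
    (lat D).IsCl (add x e c).1 (add x e c).2 := by
  obtain ⟨h1, h2, h3⟩ := hc
  have hxy : (lat D).Rch (insert e c.2) x y :=
    Relation.ReflTransGen.single ⟨e, Finset.mem_insert_self _ _, hj⟩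
  have key : ∀ z ∈ insert x c.1, (lat D).Rch (insert e c.2) z y := by
    intro z hz
    rcases Finset.mem_insert.1 hz with rfl | hz
    · exact hxy
    · exact rch_mono (Finset.subset_insert _ _) (h3 z hz y hy)
  refine ⟨⟨x, Finset.mem_insert_self _ _⟩, ?_, ?_⟩
  · intro e' he'
    rcases Finset.mem_insert.1 he' with rfl | he'
    · rcases hj with ⟨a, b⟩ | ⟨a, b⟩
      · rw [a, b]
        exact ⟨Finset.mem_insert_self _ _, Finset.mem_insert_of_mem hy⟩
      · rw [a, b]
        exact ⟨Finset.mem_insert_of_mem hy, Finset.mem_insert_self _ _⟩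
    · exact ⟨Finset.mem_insert_of_mem (h2 e' he').1, Finset.mem_insert_of_mem (h2 e' he').2⟩
  · intro z hz z' hz'
    exact (key z hz).trans (rch_symm (key z' hz'))

theorem vJ_ge {D : ℕ} {β J : ℝ} (hβ : 0 < β) (hJ : 1 ≤ J) (e : Edge D) :
    Real.exp β - 1 ≤ vJ β J e := by
  unfold vJ
  split_ifs
  · have : β ≤ β * J := by nlinarith
    have := Real.exp_le_exp.2 this
    linarith
  · exact le_refl _

theorem vJ_nonneg' {D : ℕ} {β J : ℝ} (hβ : 0 < β) (hJ : 1 ≤ J) (e : Edge D) : 0 ≤ vJ β J e := by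
  refine le_trans ?_ (vJ_ge hβ hJ e)
  have := Real.one_lt_exp_iff.2 hβ
  linarith

theorem WW_nonneg {D : ℕ} {q β J : ℝ} (h : Bas D q β) (hJ : 1 ≤ J) (A : Finset (Site D))
    (E : Finset (Edge D)) : 0 ≤ WW D q β J A E := by
  unfold WW Gr.cw
  refine mul_nonneg (Finset.prod_nonneg fun e _ => vJ_nonneg' h.hβ hJ e) (pow_nonneg ?_ _)
  exact inv_nonneg.2 (by linarith [h.hq])

/-- The weight of a cluster with a further edge. -/
theorem WW_add {D : ℕ} {q β J : ℝ} (h : Bas D q β) (hJ : 1 ≤ J) {x y : Site D} {e : Edge D}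
    (hj : Jn e x y) {c : Pr D} (hc : (lat D).IsCl c.1 c.2) (_hy : y ∈ c.1) :
    min 1 (Real.exp β - 1) / q * WW D q β J c.1 c.2 ≤
      WW D q β J (add x e c).1 (add x e c).2 := by
  have hq : 0 < q := by linarith [h.hq]
  have hq1 : q⁻¹ ≤ 1 := inv_le_one_of_one_le₀ h.hq
  have he1 : 0 < Real.exp β - 1 := by
    have := Real.one_lt_exp_iff.2 h.hβ
    linarith
  have hW := WW_nonneg h hJ c.1 c.2
  have hm0 : 0 < min 1 (Real.exp β - 1) := lt_min one_pos he1
  have hx : e ∈ c.2 → x ∈ c.1 := by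
    intro he
    have := hc.2.1 e he
    rcases hj with ⟨a, _⟩ | ⟨_, b⟩
    · rw [← a]
      exact this.1
    · rw [← b]
      exact this.2
  have hcard : 1 ≤ c.1.card := Finset.card_pos.2 hc.1
  by_cases he : e ∈ c.2
  · have e1 : add x e c = c := by
      unfold add
      rw [Finset.insert_eq_of_mem he, Finset.insert_eq_of_mem (hx he)]
    rw [e1]
    have : min 1 (Real.exp β - 1) / q ≤ 1 := by
      rw [div_le_one hq]
      exact (min_le_left _ _).trans h.hq
    calc min 1 (Real.exp β - 1) / q * WW D q β J c.1 c.2 ≤ 1 * WW D q β J c.1 c.2 :=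
          mul_le_mul_of_nonneg_right this hW
      _ = _ := one_mul _
  · have hv : min 1 (Real.exp β - 1) ≤ vJ β J e := (min_le_right _ _).trans (vJ_ge h.hβ hJ e)
    by_cases hx' : x ∈ c.1
    · have e1 : WW D q β J (add x e c).1 (add x e c).2 = vJ β J e * WW D q β J c.1 c.2 := by
        unfold add WW Gr.cw
        simp only
        rw [Finset.prod_insert he, Finset.insert_eq_of_mem hx', mul_assoc]
      rw [e1]
      refine mul_le_mul_of_nonneg_right ?_ hW
      refine le_trans ?_ hv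
      rw [div_eq_mul_inv]
      calc min 1 (Real.exp β - 1) * q⁻¹ ≤ min 1 (Real.exp β - 1) * 1 :=
            mul_le_mul_of_nonneg_left hq1 hm0.le
        _ = _ := mul_one _
    · have e1 : WW D q β J (add x e c).1 (add x e c).2 = vJ β J e / q * WW D q β J c.1 c.2 := by
        unfold add WW Gr.cw
        simp only
        rw [Finset.prod_insert he, Finset.card_insert_of_notMem hx']
        have e2 : c.1.card + 1 - 1 = (c.1.card - 1) + 1 := by omega
        rw [e2, pow_succ, div_eq_mul_inv]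
        ring
      rw [e1]
      exact mul_le_mul_of_nonneg_right (div_le_div_of_nonneg_right hv hq.le) hW

/-- The constant for one step. -/
noncomputable def kap (D : ℕ) (q β J1 : ℝ) : ℝ :=
  min 1 (Real.exp β - 1) / q * (Real.exp (β * J1) ^ (2 * (D + 1)))⁻¹

theorem kap_pos {D : ℕ} {q β J1 : ℝ} (h : Bas D q β) : 0 < kap D q β J1 := by
  unfold kap
  have hq : 0 < q := by linarith [h.hq]
  have he1 : 0 < Real.exp β - 1 := by
    have := Real.one_lt_exp_iff.2 h.hβ
    linarith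
  exact mul_pos (div_pos (lt_min one_pos he1) hq) (inv_pos.2 (pow_pos (Real.exp_pos _) _))

theorem WI_add {D : ℕ} {q β J1 J : ℝ} (h : Bas D q β) (hJ : 1 ≤ J) (hJ1 : J ≤ J1)
    {x y : Site D} {e : Edge D} (hj : Jn e x y) {c : Pr D} (hy : y ∈ c.1) :
    WI D q β J c ≤ ENNReal.ofReal (kap D q β J1)⁻¹ * WI D q β J (add x e c) := by
  by_cases hc : (lat D).IsCl c.1 c.2
  · have hk := kap_pos (D := D) (J1 := J1) h
    unfold WI
    rw [if_pos hc, if_pos (add_isCl hj hc hy), ← ENNReal.ofReal_mul (inv_nonneg.2 hk.le)]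
    refine ENNReal.ofReal_le_ofReal ?_
    rw [inv_mul_eq_div, le_div_iff₀ hk]
    have h1 := WW_add h hJ hj hc hy
    have hJ0 : 0 ≤ J := by linarith
    have h2 : ZI D q β J c.1 * (Real.exp (β * J1) ^ (2 * (D + 1)))⁻¹ ≤
        ZI D q β J (add x e c).1 := by
      have h3 := ZI_mul_le h hJ0 c.1 {x}
      have h4 := ZI_ge h hJ0 hJ1 (hJ.trans hJ1) {x}
      rw [Finset.card_singleton, mul_one] at h4
      have h5 : c.1 ∪ {x} = (add x e c).1 := by
        unfold add
        rw [Finset.union_comm, ← Finset.insert_eq]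
      rw [h5] at h3
      exact (mul_le_mul_of_nonneg_left h4 (ZI_nonneg h hJ0 c.1)).trans h3
    have h6 : 0 ≤ ZI D q β J c.1 * (Real.exp (β * J1) ^ (2 * (D + 1)))⁻¹ :=
      mul_nonneg (ZI_nonneg h hJ0 c.1) (inv_nonneg.2 (pow_nonneg (Real.exp_nonneg _) _))
    calc WW D q β J c.1 c.2 * ZI D q β J c.1 * kap D q β J1
        = (min 1 (Real.exp β - 1) / q * WW D q β J c.1 c.2) *
          (ZI D q β J c.1 * (Real.exp (β * J1) ^ (2 * (D + 1)))⁻¹) := by
          unfold kap
          ring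
      _ ≤ WW D q β J (add x e c).1 (add x e c).2 * ZI D q β J (add x e c).1 :=
          mul_le_mul h1 h2 h6 (WW_nonneg h hJ _ _)
  · unfold WI
    rw [if_neg hc]
    exact bot_le

/-- Moving the starting point by one step. -/
theorem TN_step {D : ℕ} {q β J1 J : ℝ} (h : Bas D q β) (hJ : 1 ≤ J) (hJ1 : J ≤ J1) (n : ℕ)
    (u u' w : Tv D) (e : Edge D) (hj : Jn e ((0, u') : Site D) (0, u)) :
    TN D q β J n u w ≤ ENNReal.ofReal (4 * (kap D q β J1)⁻¹) * TN D q β J n u' w := by
  have hk := kap_pos (D := D) (J1 := J1) h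
  unfold TN sm
  calc ∑' c : Pr D, WI D q β J c * ii (((0, u) : Site D) ∈ c.1 ∧
          (((n : ℤ), w) : Site D) ∈ c.1 ∧ abv 0 c ∧ bel n c)
      ≤ ∑' c : Pr D, ENNReal.ofReal (kap D q β J1)⁻¹ *
          (WI D q β J (add (0, u') e c) * ii (((0, u') : Site D) ∈ (add (0, u') e c).1 ∧
          (((n : ℤ), w) : Site D) ∈ (add (0, u') e c).1 ∧ abv 0 (add (0, u') e c) ∧
            bel n (add (0, u') e c))) := by
        refine ENNReal.tsum_le_tsum fun c => ?_
        by_cases hc : ((0, u) : Site D) ∈ c.1 ∧ (((n : ℤ), w) : Site D) ∈ c.1 ∧ abv 0 c ∧ bel n c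
        · have hc' : ((0, u') : Site D) ∈ (add (0, u') e c).1 ∧
              (((n : ℤ), w) : Site D) ∈ (add (0, u') e c).1 ∧ abv 0 (add (0, u') e c) ∧
              bel n (add (0, u') e c) := by
            refine ⟨Finset.mem_insert_self _ _, Finset.mem_insert_of_mem hc.2.1, ?_, ?_⟩
            · intro x hx
              rcases Finset.mem_insert.1 hx with rfl | hx
              · exact le_refl _
              · exact hc.2.2.1 x hx
            · intro x hx
              rcases Finset.mem_insert.1 hx with rfl | hx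
              · exact Int.natCast_nonneg n
              · exact hc.2.2.2 x hx
          unfold ii
          rw [if_pos hc, if_pos hc', mul_one, mul_one]
          exact WI_add h hJ hJ1 hj hc.1
        · unfold ii
          rw [if_neg hc, mul_zero]
          exact bot_le
    _ = ENNReal.ofReal (kap D q β J1)⁻¹ * ∑' c : Pr D,
          (fun b : Pr D => WI D q β J b * ii (((0, u') : Site D) ∈ b.1 ∧
          (((n : ℤ), w) : Site D) ∈ b.1 ∧ abv 0 b ∧ bel n b)) (add (0, u') e c) := by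
        rw [ENNReal.tsum_mul_left]
    _ ≤ ENNReal.ofReal (kap D q β J1)⁻¹ * ((4 : ℕ) * ∑' b : Pr D,
          WI D q β J b * ii (((0, u') : Site D) ∈ b.1 ∧
          (((n : ℤ), w) : Site D) ∈ b.1 ∧ abv 0 b ∧ bel n b)) :=
        mul_le_mul_right (tsum_comp_le _ 4 _ fun b => add_fib _ _ b) _
    _ = _ := by
        rw [ENNReal.ofReal_mul (by norm_num : (0 : ℝ) ≤ 4), ← mul_assoc]
        congr 1
        rw [mul_comm]
        congr 1
        norm_num

theorem exists_step {D : ℕ} (u : Tv D) (hu : u ≠ 0) : ∃ (u' : Tv D) (e : Edge D),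
    Jn e ((0, u') : Site D) (0, u) ∧ SB.nt u = SB.nt u' + 1 := by
  obtain ⟨i, hi⟩ : ∃ i, u i ≠ 0 := by
    by_contra hcon
    push Not at hcon
    exact hu (funext hcon)
  have hsum : ∀ a : ℤ, SB.nt (u + Pi.single i a) + (u i).natAbs = SB.nt u + (u i + a).natAbs := by
    intro a
    unfold SB.nt
    rw [← Finset.add_sum_erase _ _ (Finset.mem_univ i),
      ← Finset.add_sum_erase _ (fun j => (u j).natAbs) (Finset.mem_univ i)]
    have h1 : ∑ j ∈ Finset.univ.erase i, ((u + Pi.single i a : Tv D) j).natAbs =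
        ∑ j ∈ Finset.univ.erase i, (u j).natAbs := by
      refine Finset.sum_congr rfl fun j hj => ?_
      rw [Pi.add_apply, Pi.single_eq_of_ne (Finset.ne_of_mem_erase hj), add_zero]
    rw [h1, Pi.add_apply, Pi.single_eq_same]
    omega
  rcases lt_or_gt_of_ne hi with h | h
  · refine ⟨u + Pi.single i 1, ((0, u), some i), Or.inr ⟨rfl, ?_⟩, ?_⟩
    · show ((0, u) : Site D) + SB.dir (some i, true) = _
      rw [SB.dir, Prod.mk_add_mk, add_zero]
    · have := hsum 1
      omega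
  · refine ⟨u + Pi.single i (-1), ((0, u + Pi.single i (-1)), some i), Or.inl ⟨rfl, ?_⟩, ?_⟩
    · show ((0, u + Pi.single i (-1)) : Site D) + SB.dir (some i, true) = _
      rw [SB.dir, Prod.mk_add_mk, add_zero, add_assoc, ← Pi.single_add]
      simp
    · have := hsum (-1)
      omega

theorem TN_left {D : ℕ} {q β J1 J : ℝ} (h : Bas D q β) (hJ : 1 ≤ J) (hJ1 : J ≤ J1) (n : ℕ)
    (w : Tv D) : ∀ (k : ℕ) (u : Tv D), SB.nt u = k →
      TN D q β J n u w ≤ ENNReal.ofReal (4 * (kap D q β J1)⁻¹) ^ k * TN D q β J n 0 w := by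
  intro k
  induction k with
  | zero =>
    intro u hu
    have : u = 0 := by
      funext i
      have h1 : (u i).natAbs ≤ SB.nt u :=
        Finset.single_le_sum (f := fun i => (u i).natAbs) (fun _ _ => Nat.zero_le _)
          (Finset.mem_univ i)
      have h2 : (u i).natAbs = 0 := by omega
      exact Int.natAbs_eq_zero.1 h2
    rw [this, pow_zero, one_mul]
  | succ k ih =>
    intro u hu
    have hu0 : u ≠ 0 := by
      rintro rfl
      rw [nt_zero'] at hu
      omega
    obtain ⟨u', e, hj, hn⟩ := exists_step u hu0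
    calc TN D q β J n u w ≤ ENNReal.ofReal (4 * (kap D q β J1)⁻¹) * TN D q β J n u' w :=
          TN_step h hJ hJ1 n u u' w e hj
      _ ≤ ENNReal.ofReal (4 * (kap D q β J1)⁻¹) *
          (ENNReal.ofReal (4 * (kap D q β J1)⁻¹) ^ k * TN D q β J n 0 w) :=
          mul_le_mul_right (ih u' (by omega)) _
      _ = _ := by
          rw [pow_succ]
          ring

theorem TN_le_zero {D : ℕ} {q β J1 J : ℝ} (h : Bas D q β) (hJ : 1 ≤ J) (hJ1 : J ≤ J1) (n : ℕ)
    (u w : Tv D) : TN D q β J n u w ≤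
      ENNReal.ofReal (4 * (kap D q β J1)⁻¹) ^ (SB.nt u + SB.nt w) * TN D q β J n 0 0 := by
  have h1 := TN_left h hJ hJ1 n w _ u rfl
  have h2 := TN_left h hJ hJ1 n 0 _ w rfl
  rw [TN_comm n 0 w] at h1
  calc TN D q β J n u w ≤ _ := h1
    _ ≤ ENNReal.ofReal (4 * (kap D q β J1)⁻¹) ^ SB.nt u *
        (ENNReal.ofReal (4 * (kap D q β J1)⁻¹) ^ SB.nt w * TN D q β J n 0 0) :=
        mul_le_mul_right h2 _
    _ = _ := by rw [pow_add, mul_assoc]

theorem ST_le_zero {D : ℕ} {q β J1 J : ℝ} (h : Bas D q β) (hJ : 1 ≤ J) (hJ1 : J ≤ J1)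
    (z : ℝ≥0∞) (L : ℕ) (u w : Tv D) : ST D q β J z L u w ≤
      ENNReal.ofReal (4 * (kap D q β J1)⁻¹) ^ (SB.nt u + SB.nt w) * ST D q β J z L 0 0 := by
  unfold ST
  rw [Finset.mul_sum]
  refine Finset.sum_le_sum fun n _ => ?_
  calc z ^ n * TN D q β J n u w ≤ z ^ n * (ENNReal.ofReal (4 * (kap D q β J1)⁻¹) ^
        (SB.nt u + SB.nt w) * TN D q β J n 0 0) :=
        mul_le_mul_right (TN_le_zero h hJ hJ1 n u w) _
    _ = _ := by ring

theorem ST_le_SG {D : ℕ} {q β J : ℝ} (z : ℝ≥0∞) (L : ℕ) (u w : Tv D) :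
    ST D q β J z L u w ≤ SG D q β J z L u w :=
  Finset.sum_le_sum fun n _ => mul_le_mul_right (TN_le_GN n u w) _

/-- The one-site cluster. -/
theorem ST_ge {D : ℕ} {q β J1 J : ℝ} (h : Bas D q β) (hJ : 1 ≤ J) (hJ1 : J ≤ J1)
    (z : ℝ≥0∞) (L : ℕ) :
    ENNReal.ofReal (Real.exp (β * J1) ^ (2 * (D + 1)))⁻¹ ≤ ST D q β J z L 0 0 := by
  have hJ0 : 0 ≤ J := by linarith
  set c : Pr D := ({(0, 0)}, ∅) with hc
  have hcl : (lat D).IsCl c.1 c.2 := by
    refine ⟨⟨(0, 0), Finset.mem_singleton_self _⟩, fun e he => absurd he (Finset.notMem_empty e), ?_⟩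
    intro x hx y hy
    rw [Finset.mem_singleton.1 hx, Finset.mem_singleton.1 hy]
    exact Relation.ReflTransGen.refl
  have h1 : ENNReal.ofReal (Real.exp (β * J1) ^ (2 * (D + 1)))⁻¹ ≤ WI D q β J c := by
    unfold WI
    rw [if_pos hcl]
    refine ENNReal.ofReal_le_ofReal ?_
    have h2 : WW D q β J c.1 c.2 = 1 := by
      unfold WW Gr.cw
      simp [hc]
    have h4 := ZI_ge h hJ0 hJ1 (hJ.trans hJ1) c.1
    rw [h2, one_mul]
    have h5 : c.1.card = 1 := Finset.card_singleton _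
    rwa [h5, mul_one] at h4
  have h2 : WI D q β J c ≤ TN D q β J 0 0 0 := by
    unfold TN sm
    refine le_trans ?_ (ENNReal.le_tsum c)
    have h3 : ((0, 0) : Site D) ∈ c.1 ∧ (((0 : ℕ) : ℤ), (0 : Tv D)) ∈ c.1 ∧ abv 0 c ∧
        bel ((0 : ℕ) : ℤ) c := by
      refine ⟨Finset.mem_singleton_self _, Finset.mem_singleton_self _, ?_, ?_⟩
      · intro x hx
        rw [Finset.mem_singleton.1 hx]
      · intro x hx
        rw [Finset.mem_singleton.1 hx]
        exact le_refl _
    have h4 : ii (((0, 0) : Site D) ∈ c.1 ∧ (((0 : ℕ) : ℤ), (0 : Tv D)) ∈ c.1 ∧ abv 0 c ∧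
        bel ((0 : ℕ) : ℤ) c) = 1 := by
      unfold ii
      rw [if_pos h3]
    calc WI D q β J c = WI D q β J c * ii (((0, 0) : Site D) ∈ c.1 ∧
          (((0 : ℕ) : ℤ), (0 : Tv D)) ∈ c.1 ∧ abv 0 c ∧ bel ((0 : ℕ) : ℤ) c) := by
          rw [h4, mul_one]
      _ ≤ _ := le_refl _
  have h3 : TN D q β J 0 0 0 ≤ ST D q β J z L 0 0 := by
    unfold ST
    have := Finset.single_le_sum (s := range (L + 1))
      (f := fun n => z ^ n * TN D q β J n 0 0) (fun _ _ => bot_le)
      (Finset.mem_range.2 (Nat.succ_pos L))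
    simpa using this
  exact h1.trans (h2.trans h3)

theorem SG_ne_top {D : ℕ} {q β J1 : ℝ} (h : Reg D q β J1) {J : ℝ} (hJ : 1 ≤ J) (hJ1 : J ≤ J1)
    {z : ℝ≥0∞} (hz : z ≠ ⊤) (L : ℕ) (u w : Tv D) : SG D q β J z L u w ≠ ⊤ := by
  obtain ⟨C, c, hC, hc, h1⟩ := GN_le h
  unfold SG
  refine ENNReal.sum_ne_top.2 fun n _ => ?_
  refine ENNReal.mul_ne_top (ENNReal.pow_ne_top hz) ?_
  exact ne_top_of_le_ne_top (ex_ne_top _ _) (h1 J hJ hJ1 n u w).1

theorem absorb {X a : ℝ≥0∞} (hX : X ≠ ⊤) (h : X ≤ a + 2⁻¹ * X) : X ≤ 2 * a := by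
  have h2 : (2 : ℝ≥0∞)⁻¹ * X ≠ ⊤ := ENNReal.mul_ne_top (by simp) hX
  have h1 : 2⁻¹ * X + 2⁻¹ * X ≤ a + 2⁻¹ * X := by
    rw [← add_mul, ENNReal.inv_two_add_inv_two, one_mul]
    exact h
  have h3 : 2⁻¹ * X ≤ a := (ENNReal.add_le_add_iff_right h2).1 h1
  calc X = 2 * (2⁻¹ * X) := by
        rw [← mul_assoc, ENNReal.mul_inv_cancel two_ne_zero ENNReal.ofNat_ne_top, one_mul]
    _ ≤ 2 * a := mul_le_mul_right h3 _

theorem exists_small {A : ℝ≥0∞} (hA : A ≠ ⊤) {c : ℝ} (hc : 0 < c) :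
    ∃ r : ℕ, A * ex c r ≤ 2⁻¹ := by
  obtain ⟨r, hr⟩ := exists_nat_gt (2 * A.toReal / c)
  refine ⟨r, ?_⟩
  have h1 : 2 * A.toReal < c * r := by
    rw [div_lt_iff₀ hc] at hr
    linarith
  have h2 : Real.exp (-(c * r)) * (c * r) ≤ 1 := by
    have h3 := Real.add_one_le_exp (c * r)
    have h4 : Real.exp (-(c * r)) * Real.exp (c * r) = 1 := by
      rw [← Real.exp_add, neg_add_cancel, Real.exp_zero]
    have h5 : 0 < Real.exp (-(c * r)) := Real.exp_pos _
    nlinarith
  have h3 : A.toReal * Real.exp (-(c * r)) ≤ 1 / 2 := by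
    have h5 : 0 < Real.exp (-(c * r)) := Real.exp_pos _
    nlinarith
  rw [← ENNReal.ofReal_toReal hA, ex, ← ENNReal.ofReal_mul ENNReal.toReal_nonneg]
  refine (ENNReal.ofReal_le_ofReal h3).trans (le_of_eq ?_)
  rw [one_div, ENNReal.ofReal_inv_of_pos two_pos]
  simp

/-- The bound of one term. -/
theorem term_le {D : ℕ} {c : ℝ} (hc : 0 < c) (r : ℕ) (y y' : Tv D) {T K Y X : ℝ≥0∞}
    (hK : 1 ≤ K) (h1 : T ≤ K ^ (SB.nt y + SB.nt y') * Y) (h2 : T ≤ X) :
    ex c (SB.nt y) * T * ex c (SB.nt y') ≤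
      ex (c / 2) (SB.nt y) * ex (c / 2) (SB.nt y') * (K ^ (2 * r) * Y + ex (c / 2) r * X) := by
  have hh : c / 2 ≤ c := by linarith
  have hc2 : 0 ≤ c / 2 := by linarith
  have e1 : ∀ k : ℕ, ex c k ≤ ex (c / 2) k := fun k => ex_anti_c hh (Nat.cast_nonneg k)
  have e2 : ∀ k : ℕ, r ≤ k → ex c k ≤ ex (c / 2) r * ex (c / 2) k := by
    intro k hk
    have h3 : ex c k = ex (c / 2) k * ex (c / 2) k := by
      rw [← ex_add_c]
      congr 1
      ring
    rw [h3]
    exact mul_le_mul_left (ex_anti_k hc2 (by exact_mod_cast hk)) _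
  by_cases ha : SB.nt y ≤ r
  · by_cases hb : SB.nt y' ≤ r
    · have h3 : T ≤ K ^ (2 * r) * Y + ex (c / 2) r * X := by
        refine h1.trans (le_add_right ?_)
        refine mul_le_mul_left ?_ _
        exact pow_le_pow_right₀ hK (by omega)
      calc ex c (SB.nt y) * T * ex c (SB.nt y') = ex c (SB.nt y) * ex c (SB.nt y') * T := by ring
        _ ≤ _ := mul_le_mul' (mul_le_mul' (e1 _) (e1 _)) h3
    · calc ex c (SB.nt y) * T * ex c (SB.nt y')
          ≤ ex (c / 2) (SB.nt y) * X * (ex (c / 2) r * ex (c / 2) (SB.nt y')) :=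
            mul_le_mul' (mul_le_mul' (e1 _) h2) (e2 _ (by omega))
        _ = ex (c / 2) (SB.nt y) * ex (c / 2) (SB.nt y') * (ex (c / 2) r * X) := by ring
        _ ≤ _ := mul_le_mul_right le_add_self _
  · calc ex c (SB.nt y) * T * ex c (SB.nt y')
        ≤ (ex (c / 2) r * ex (c / 2) (SB.nt y)) * X * ex (c / 2) (SB.nt y') :=
          mul_le_mul' (mul_le_mul' (e2 _ (by omega)) h2) (e1 _)
      _ = ex (c / 2) (SB.nt y) * ex (c / 2) (SB.nt y') * (ex (c / 2) r * X) := by ring
      _ ≤ _ := mul_le_mul_right le_add_self _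

end De

end Pool.Agent.DL
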