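import Pool.Agent.DL.Pcu
import Pool.Agent.DL.Shi
import Pool.Agent.DL.ExK
import Pool.Agent.DL.MGA
import Pool.Agent.DL.Gc

/-!
# Decomposition of a cluster at the good cuts next to a marked site
-/

set_option autoImplicit false
set_option linter.unusedSectionVars false

namespace Pool.Agent.DL

open Finset
open scoped ENNReal

namespace Dec

variable {D : ℕ}

/-! ### Stability -/

theorem lvw_nonneg (a : ℝ) (A : Finset (Site D)) (m : ℤ) : 0 ≤ lvw a A m :=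
  Finset.sum_nonneg fun _ _ => (Real.exp_pos _).le

theorem lvw_mono (a : ℝ) {A B : Finset (Site D)} (h : A ⊆ B) (m : ℤ) : lvw a A m ≤ lvw a B m :=
  Finset.sum_le_sum_of_subset_of_nonneg h fun _ _ _ => (Real.exp_pos _).le

theorem lvw_split_lo (a : ℝ) (ha : 0 < a) (A : Finset (Site D)) (m1 m : ℤ) (s : ℕ)
    (hs : m1 + s ≤ m) :
    lvw a A m ≤ lvw a (A.filter fun x => m1 < x.1) m + Real.exp (-(a * s)) * lvw a A m1 := by
  unfold lvw
  rw [← Finset.sum_filter_add_sum_filter_not A (fun x => m1 < x.1)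
    (fun x => Real.exp (-(a * |(x.1 : ℝ) - m|)))]
  gcongr
  rw [Finset.mul_sum]
  refine (Finset.sum_le_sum fun x hx => ?_).trans
    (Finset.sum_le_sum_of_subset_of_nonneg (Finset.filter_subset _ _)
      fun _ _ _ => mul_nonneg (Real.exp_pos _).le (Real.exp_pos _).le)
  rw [← Real.exp_add]
  apply Real.exp_le_exp.2
  have h1 : x.1 ≤ m1 := not_lt.1 (Finset.mem_filter.1 hx).2
  have h2 : ((x.1 : ℤ) : ℝ) ≤ m1 := by exact_mod_cast h1
  have h3 : (m1 : ℝ) + s ≤ m := by exact_mod_cast hs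
  have h4 : (0 : ℝ) ≤ s := Nat.cast_nonneg s
  rw [abs_of_nonpos (by linarith), abs_of_nonpos (by linarith)]
  nlinarith

theorem lvw_split_hi (a : ℝ) (ha : 0 < a) (A : Finset (Site D)) (m2 m : ℤ) (s : ℕ)
    (hs : m + s ≤ m2) :
    lvw a A m ≤ lvw a (A.filter fun x => x.1 ≤ m2) m + Real.exp (-(a * s)) * lvw a A m2 := by
  unfold lvw
  rw [← Finset.sum_filter_add_sum_filter_not A (fun x => x.1 ≤ m2)
    (fun x => Real.exp (-(a * |(x.1 : ℝ) - m|)))]
  gcongr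
  rw [Finset.mul_sum]
  refine (Finset.sum_le_sum fun x hx => ?_).trans
    (Finset.sum_le_sum_of_subset_of_nonneg (Finset.filter_subset _ _)
      fun _ _ _ => mul_nonneg (Real.exp_pos _).le (Real.exp_pos _).le)
  rw [← Real.exp_add]
  apply Real.exp_le_exp.2
  have h1 : m2 < x.1 := not_le.1 (Finset.mem_filter.1 hx).2
  have h2 : (m2 : ℝ) ≤ ((x.1 : ℤ) : ℝ) := by exact_mod_cast h1.le
  have h3 : (m : ℝ) + s ≤ m2 := by exact_mod_cast hs
  have h4 : (0 : ℝ) ≤ s := Nat.cast_nonneg s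
  rw [abs_of_nonneg (by linarith), abs_of_nonneg (by linarith)]
  nlinarith

end Dec

/-- Stability of good cuts. -/
theorem lvl_stab {D : ℕ} (a M : ℝ) (ha : 0 < a) (A : Finset (Site D)) (m1 m2 m : ℤ) (s : ℕ)
    (h1 : lvw a A m1 ≤ M) (h2 : lvw a A m2 ≤ M) (hs1 : m1 + s ≤ m) (hs2 : m + s ≤ m2) :
    lvw a A m ≤ lvw a (A.filter fun x => m1 < x.1 ∧ x.1 ≤ m2) m +
      2 * Real.exp (-(a * s)) * M := by
  have e0 := (Real.exp_pos (-(a * s))).le
  have k1 := Dec.lvw_split_lo a ha A m1 m s hs1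
  have k2 := Dec.lvw_split_hi a ha (A.filter fun x => m1 < x.1) m2 m s hs2
  have k3 : lvw a (A.filter fun x => m1 < x.1) m2 ≤ M :=
    (Dec.lvw_mono a (Finset.filter_subset _ _) m2).trans h2
  rw [Finset.filter_filter] at k2
  have k4 := mul_le_mul_of_nonneg_left h1 e0
  have k5 := mul_le_mul_of_nonneg_left k3 e0
  linarith

namespace Dec

variable {D : ℕ}

/-! ### Pieces -/

theorem mem_lo {c : Pr D} {m : ℤ} {x : Site D} : x ∈ (lo c m).1 ↔ x ∈ c.1 ∧ x.1 ≤ m := by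
  simp [lo]

theorem mem_hi {c : Pr D} {m : ℤ} {x : Site D} : x ∈ (hi c m).1 ↔ x ∈ c.1 ∧ m < x.1 := by
  simp [hi]

theorem lo_lo (c : Pr D) {m1 m2 : ℤ} (h : m1 ≤ m2) : lo (lo c m2) m1 = lo c m1 := by
  unfold lo
  ext x
  · simp only [Finset.mem_filter]
    constructor
    · rintro ⟨⟨h1, -⟩, h2⟩; exact ⟨h1, h2⟩
    · rintro ⟨h1, h2⟩; exact ⟨⟨h1, h2.trans h⟩, h2⟩
  · simp only [Finset.mem_filter]
    constructor
    · rintro ⟨⟨h1, -⟩, h2⟩; exact ⟨h1, h2⟩
    · rintro ⟨h1, h2⟩; exact ⟨⟨h1, h2.trans h⟩, h2⟩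

theorem t_none (x : Site D) : ((lat D).t (x, none)).1 = x.1 + 1 := by
  simp [lat, SB.dir]

theorem s_none (x : Site D) : ((lat D).s (x, none)).1 = x.1 := rfl

theorem upE_lo (c : Pr D) {m m2 : ℤ} (h : m < m2) : upE (lo c m2).2 m = upE c.2 m := by
  unfold upE lo
  ext ⟨x, i⟩
  simp only [Finset.mem_filter]
  constructor
  · rintro ⟨⟨h1, -⟩, h2, h3⟩; exact ⟨h1, h2, h3⟩
  · rintro ⟨h1, h2, h3⟩
    refine ⟨⟨h1, ?_⟩, h2, h3⟩
    subst h2
    rw [t_none]
    omega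

theorem upE_hi (c : Pr D) {m m1 : ℤ} (h : m1 < m) : upE (hi c m1).2 m = upE c.2 m := by
  unfold upE hi
  ext ⟨x, i⟩
  simp only [Finset.mem_filter]
  constructor
  · rintro ⟨⟨h1, -⟩, h2, h3⟩; exact ⟨h1, h2, h3⟩
  · rintro ⟨h1, h2, h3⟩
    refine ⟨⟨h1, ?_⟩, h2, h3⟩
    subst h2
    rw [s_none]
    omega

/-! ### Shifts -/

theorem mem_sh {c : Pr D} {k : ℤ} {x : Site D} : x ∈ (sh k c).1 ↔ ((x.1 - k, x.2) : Site D) ∈ c.1 := by
  unfold sh
  simp only [Finset.mem_image, Prod.exists]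
  constructor
  · rintro ⟨p, q, h, rfl⟩; simpa using h
  · intro h
    exact ⟨_, _, h, by ext <;> simp⟩

theorem sh_inj (k : ℤ) : Function.Injective fun x : Site D => (x.1 + k, x.2) := by
  rintro ⟨a, b⟩ ⟨a', b'⟩ h
  simp only [Prod.mk.injEq, add_left_inj] at h
  exact Prod.ext h.1 h.2

theorem she_inj (k : ℤ) : Function.Injective fun e : Edge D => (((e.1.1 + k, e.1.2), e.2) : Edge D) := by
  rintro ⟨⟨a, b⟩, i⟩ ⟨⟨a', b'⟩, i'⟩ h
  simp only [Prod.mk.injEq, add_left_inj] at h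
  obtain ⟨⟨h1, h2⟩, h3⟩ := h
  subst h1 h2 h3
  rfl

theorem card_sh (k : ℤ) (c : Pr D) : (sh k c).1.card = c.1.card :=
  Finset.card_image_of_injective _ (sh_inj k)

theorem sum_sh (k : ℤ) (c : Pr D) (g : Tv D → ℝ≥0∞) : ∑ x ∈ (sh k c).1, g x.2 = ∑ x ∈ c.1, g x.2 :=
  Finset.sum_image fun _ _ _ _ h => sh_inj k h

theorem lvw_sh (a : ℝ) (k : ℤ) (c : Pr D) (m : ℤ) : lvw a (sh k c).1 m = lvw a c.1 (m - k) := by
  unfold lvw
  refine (Finset.sum_image fun _ _ _ _ h => sh_inj k h).trans ?_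
  refine Finset.sum_congr rfl fun x _ => ?_
  have h1 : (((x.1 + k : ℤ) : ℝ)) - m = (x.1 : ℝ) - ((m - k : ℤ) : ℝ) := by
    push_cast
    ring
  show Real.exp (-(a * |(((x.1 + k : ℤ) : ℝ)) - m|)) = _
  rw [h1]

theorem upE_sh (k : ℤ) (c : Pr D) (m : ℤ) : (upE (sh k c).2 m).card = (upE c.2 (m - k)).card := by
  have : upE (sh k c).2 m =
      (upE c.2 (m - k)).image fun e => (((e.1.1 + k, e.1.2), e.2) : Edge D) := by
    unfold upE sh
    ext e
    simp only [Finset.mem_filter, Finset.mem_image]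
    constructor
    · rintro ⟨⟨e', h, rfl⟩, h3, h4⟩
      refine ⟨e', ⟨h, h3, ?_⟩, rfl⟩
      simp only at h4
      omega
    · rintro ⟨e', ⟨h, h1, h2⟩, rfl⟩
      refine ⟨⟨e', h, rfl⟩, h1, ?_⟩
      simp only
      omega
  rw [this, Finset.card_image_of_injective _ (she_inj k)]

theorem good_sh (a M : ℝ) (k : ℤ) (c : Pr D) (m : ℤ) : good a M (sh k c) m ↔ good a M c (m - k) := by
  unfold good
  rw [upE_sh, lvw_sh]

/-! ### The four cases -/

theorem split_cases (G : ℤ → Prop) (n : ℕ) (h : ℤ) :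
    (∀ m : ℤ, 0 ≤ m → m < n → ¬ G m) ∨
    (∃ m1 ∈ range n, G m1 ∧ ((m1 : ℕ) : ℤ) < h ∧ ∀ m : ℤ, (m1 : ℤ) < m → m < n → ¬ G m) ∨
    (∃ m2 ∈ range n, G m2 ∧ h ≤ ((m2 : ℕ) : ℤ) ∧ ∀ m : ℤ, 0 ≤ m → m < m2 → ¬ G m) ∨
    (∃ m2 ∈ range n, ∃ m1 ∈ range m2, G m1 ∧ G m2 ∧ ((m1 : ℕ) : ℤ) < h ∧ h ≤ ((m2 : ℕ) : ℤ) ∧
      ∀ m : ℤ, (m1 : ℤ) < m → m < m2 → ¬ G m) := by
  classical
  set S1 := (range n).filter fun m : ℕ => G m ∧ (m : ℤ) < h with hS1
  set S2 := (range n).filter fun m : ℕ => G m ∧ h ≤ (m : ℤ) with hS2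
  have key : ∀ m : ℤ, 0 ≤ m → m < n → G m → (m < h → ∃ m' ∈ S1, ((m' : ℕ) : ℤ) = m) ∧
      (h ≤ m → ∃ m' ∈ S2, ((m' : ℕ) : ℤ) = m) := by
    intro m h0 hn hG
    have e : ((m.toNat : ℕ) : ℤ) = m := Int.toNat_of_nonneg h0
    constructor
    · intro hh
      exact ⟨m.toNat, by simp only [hS1, Finset.mem_filter, Finset.mem_range]; refine ⟨by omega, ?_, ?_⟩ <;> rw [e] <;> assumption, e⟩
    · intro hh
      exact ⟨m.toNat, by simp only [hS2, Finset.mem_filter, Finset.mem_range]; refine ⟨by omega, ?_, ?_⟩ <;> rw [e] <;> assumption, e⟩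
  rcases S1.eq_empty_or_nonempty with e1 | e1
  · rcases S2.eq_empty_or_nonempty with e2 | e2
    · left
      intro m h0 hn hG
      rcases lt_or_ge m h with hh | hh
      · obtain ⟨m', hm', -⟩ := (key m h0 hn hG).1 hh
        rw [e1] at hm'; simp at hm'
      · obtain ⟨m', hm', -⟩ := (key m h0 hn hG).2 hh
        rw [e2] at hm'; simp at hm'
    · right; right; left
      have hm2 := S2.min'_mem e2
      set m2 := S2.min' e2
      have hm2' := Finset.mem_filter.1 hm2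
      refine ⟨m2, hm2'.1, hm2'.2.1, hm2'.2.2, ?_⟩
      intro m h0 hm hG
      have hn : m < n := by
        have := Finset.mem_range.1 hm2'.1
        omega
      rcases lt_or_ge m h with hh | hh
      · obtain ⟨m', hm', -⟩ := (key m h0 hn hG).1 hh
        rw [e1] at hm'; simp at hm'
      · obtain ⟨m', hm', e⟩ := (key m h0 hn hG).2 hh
        have := S2.min'_le m' hm'
        omega
  · rcases S2.eq_empty_or_nonempty with e2 | e2
    · right; left
      have hm1 := S1.max'_mem e1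
      set m1 := S1.max' e1
      have hm1' := Finset.mem_filter.1 hm1
      refine ⟨m1, hm1'.1, hm1'.2.1, hm1'.2.2, ?_⟩
      intro m hm hn hG
      have h0 : 0 ≤ m := by omega
      rcases lt_or_ge m h with hh | hh
      · obtain ⟨m', hm', e⟩ := (key m h0 hn hG).1 hh
        have := S1.le_max' m' hm'
        omega
      · obtain ⟨m', hm', -⟩ := (key m h0 hn hG).2 hh
        rw [e2] at hm'; simp at hm'
    · right; right; right
      have hm1 := S1.max'_mem e1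
      set m1 := S1.max' e1
      have hm1' := Finset.mem_filter.1 hm1
      have hm2 := S2.min'_mem e2
      set m2 := S2.min' e2
      have hm2' := Finset.mem_filter.1 hm2
      refine ⟨m2, hm2'.1, m1, ?_, hm1'.2.1, hm2'.2.1, hm1'.2.2, hm2'.2.2, ?_⟩
      · rw [Finset.mem_range]
        have := hm1'.2.2
        have := hm2'.2.2
        omega
      intro m hm hmm hG
      have h0 : 0 ≤ m := by omega
      have hn : m < n := by
        have := Finset.mem_range.1 hm2'.1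
        omega
      rcases lt_or_ge m h with hh | hh
      · obtain ⟨m', hm', e⟩ := (key m h0 hn hG).1 hh
        have := S1.le_max' m' hm'
        omega
      · obtain ⟨m', hm', e⟩ := (key m h0 hn hG).2 hh
        have := S2.min'_le m' hm'
        omega

/-! ### Counting -/

/-- Good cuts of a piece are near its ends. -/
theorem piece_near {a M : ℝ} (ha : 0 < a) {s0 : ℕ} (hs0 : Real.exp (-(a * s0)) ≤ 1 / 3)
    (c : Pr D) (m1 m2 m : ℤ) (hm1 : lvw a c.1 m1 ≤ 3 * M) (hm2 : lvw a c.1 m2 ≤ 3 * M)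
    (h1 : m1 < m) (h2 : m < m2) (hng : ¬ good a (3 * M) c m)
    (hg : good a M (hi (lo c m2) m1) m) : m < m1 + s0 ∨ m2 < m + s0 := by
  by_contra hcon
  push Not at hcon
  apply hng
  have hM : 0 ≤ M := by have := lvw_nonneg a c.1 m1; linarith
  refine ⟨?_, ?_⟩
  · rw [← upE_lo c h2, ← upE_hi (lo c m2) h1]
    exact hg.1
  · have k := lvl_stab a (3 * M) ha c.1 m1 m2 m s0 hm1 hm2 hcon.1 hcon.2
    have e : (c.1.filter fun x => m1 < x.1 ∧ x.1 ≤ m2) = (hi (lo c m2) m1).1 := by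
      ext x
      rw [mem_hi, mem_lo, Finset.mem_filter]
      tauto
    rw [e] at k
    have k2 := hg.2
    nlinarith

theorem upper_near {a M : ℝ} (ha : 0 < a) {s0 : ℕ} (hs0 : Real.exp (-(a * s0)) ≤ 1 / 3)
    (c : Pr D) (m1 m : ℤ) (hm1 : lvw a c.1 m1 ≤ 3 * M)
    (h1 : m1 < m) (hng : ¬ good a (3 * M) c m) (hg : good a M (hi c m1) m) : m < m1 + s0 := by
  by_contra hcon
  push Not at hcon
  apply hng
  have hM : 0 ≤ M := by have := lvw_nonneg a c.1 m1; linarith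
  refine ⟨?_, ?_⟩
  · rw [← upE_hi c h1]
    exact hg.1
  · have k := lvw_split_lo a ha c.1 m1 m s0 hcon
    have e : (c.1.filter fun x => m1 < x.1) = (hi c m1).1 := rfl
    rw [e] at k
    have k2 := hg.2
    have k3 : Real.exp (-(a * s0)) * lvw a c.1 m1 ≤ 1 / 3 * (3 * M) :=
      mul_le_mul hs0 hm1 (lvw_nonneg _ _ _) (by norm_num)
    linarith

theorem lower_near {a M : ℝ} (ha : 0 < a) {s0 : ℕ} (hs0 : Real.exp (-(a * s0)) ≤ 1 / 3)
    (c : Pr D) (m2 m : ℤ) (hm2 : lvw a c.1 m2 ≤ 3 * M)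
    (h2 : m < m2) (hng : ¬ good a (3 * M) c m) (hg : good a M (lo c m2) m) : m2 < m + s0 := by
  by_contra hcon
  push Not at hcon
  apply hng
  have hM : 0 ≤ M := by have := lvw_nonneg a c.1 m2; linarith
  refine ⟨?_, ?_⟩
  · rw [← upE_lo c h2]
    exact hg.1
  · have k := lvw_split_hi a ha c.1 m2 m s0 hcon
    have e : (c.1.filter fun x => x.1 ≤ m2) = (lo c m2).1 := rfl
    rw [e] at k
    have k2 := hg.2
    have k3 : Real.exp (-(a * s0)) * lvw a c.1 m2 ≤ 1 / 3 * (3 * M) :=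
      mul_le_mul hs0 hm2 (lvw_nonneg _ _ _) (by norm_num)
    linarith

/-- The number of good cuts of a shifted piece. -/
theorem ng_le (a M : ℝ) (c : Pr D) (m1 : ℤ) (l s0 : ℕ)
    (h : ∀ m, m1 < m → m < m1 + 1 + l → good a M c m → m < m1 + s0 ∨ m1 + 1 + l < m + s0) :
    ng a M (sh (-(m1 + 1)) c) l ≤ 2 * s0 := by
  classical
  unfold ng
  have hsub : ((range l).filter fun m : ℕ => good a M (sh (-(m1 + 1)) c) (m : ℤ)) ⊆
      range s0 ∪ Finset.Ico (l - s0) l := by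
    intro j hj
    rw [Finset.mem_filter, Finset.mem_range, good_sh] at hj
    obtain ⟨h1, h2⟩ := hj
    rw [Finset.mem_union, Finset.mem_range, Finset.mem_Ico]
    have h3 := h ((j : ℤ) - -(m1 + 1)) (by omega) (by omega) h2
    omega
  refine (Finset.card_le_card hsub).trans ((Finset.card_union_le _ _).trans ?_)
  rw [Finset.card_range, Nat.card_Ico]
  omega

theorem ng_le0 (a M : ℝ) (c : Pr D) (n s0 : ℕ)
    (h : ∀ m : ℤ, 0 ≤ m → m < n → good a M c m → (n : ℤ) < m + s0) :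
    ng a M c n ≤ 2 * s0 := by
  classical
  unfold ng
  have hsub : ((range n).filter fun m : ℕ => good a M c (m : ℤ)) ⊆ Finset.Ico (n - s0) n := by
    intro j hj
    rw [Finset.mem_filter, Finset.mem_range] at hj
    obtain ⟨h1, h2⟩ := hj
    rw [Finset.mem_Ico]
    have h3 := h (j : ℤ) (by omega) (by omega) h2
    omega
  refine (Finset.card_le_card hsub).trans ?_
  rw [Nat.card_Ico]
  omega

/-! ### Sums -/

variable {q β J : ℝ}

theorem sm_le {F F' : Pr D → ℝ≥0∞} (h : ∀ c : Pr D, (lat D).IsCl c.1 c.2 → F c ≤ F' c) :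
    sm D q β J F ≤ sm D q β J F' := by
  unfold sm
  refine ENNReal.tsum_le_tsum fun c => ?_
  by_cases hc : (lat D).IsCl c.1 c.2
  · exact mul_le_mul' le_rfl (h c hc)
  · have : WI D q β J c = 0 := by unfold WI; rw [if_neg hc]
    rw [this]; simp

theorem sm_add (F F' : Pr D → ℝ≥0∞) :
    sm D q β J (fun c => F c + F' c) = sm D q β J F + sm D q β J F' := by
  unfold sm
  rw [← ENNReal.tsum_add]
  exact tsum_congr fun c => by ring

theorem sm_sum {κ : Type} (s : Finset κ) (F : κ → Pr D → ℝ≥0∞) :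
    sm D q β J (fun c => ∑ i ∈ s, F i c) = ∑ i ∈ s, sm D q β J (F i) := by
  classical
  induction s using Finset.induction_on with
  | empty =>
    simp only [Finset.sum_empty]
    unfold sm
    simp
  | insert i s hi ih =>
    simp only [Finset.sum_insert hi]
    rw [sm_add, ih]

theorem sm_mul (K : ℝ≥0∞) (F : Pr D → ℝ≥0∞) :
    sm D q β J (fun c => K * F c) = K * sm D q β J F := by
  unfold sm
  rw [← ENNReal.tsum_mul_left]
  exact tsum_congr fun c => by ring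

theorem ii_true {p : Prop} (h : p) : ii p = 1 := by unfold ii; rw [if_pos h]

theorem ii_false {p : Prop} (h : ¬ p) : ii p = 0 := by unfold ii; rw [if_neg h]

theorem ii_and (p p' : Prop) : ii (p ∧ p') = ii p * ii p' := by
  by_cases h : p
  · by_cases h' : p'
    · rw [ii_true h, ii_true h', ii_true ⟨h, h'⟩, one_mul]
    · rw [ii_false h', ii_false (fun hh => h' hh.2), mul_zero]
  · rw [ii_false h, ii_false (fun hh => h hh.1), zero_mul]

theorem ii_le_one (p : Prop) : ii p ≤ 1 := by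
  by_cases h : p
  · rw [ii_true h]
  · rw [ii_false h]; exact zero_le

/-- The bound of the marks of a piece. -/
theorem marks_le {η : ℝ} (hη : 0 < η) (φ : Tv D → ℝ≥0∞) {c : Pr D} (hc : (lat D).IsCl c.1 c.2)
    {p p' : Site D} (hp : p ∈ c.1) (hp' : p' ∈ c.1) :
    ∑ x ∈ c.1, φ x.2 ≤
      ENNReal.ofReal (2 / η) * ENNReal.ofReal (Real.exp (η * c.1.card)) *
        Ek φ (η / 4) p.2 p'.2 := by
  set N : ℝ := (c.1.card : ℝ) with hN
  have hN0 : 0 ≤ N := Nat.cast_nonneg _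
  have key : ∀ x ∈ c.1, φ x.2 ≤ ENNReal.ofReal (Real.exp (η / 2 * N)) * Ek φ (η / 4) p.2 p'.2 := by
    intro x hx
    have d1 : (SB.nt (p.2 - x.2) : ℝ) ≤ N := by
      have h1 := isCl_dist hc hp hx
      have h2 : SB.nt (p.2 - x.2) ≤ SB.dist1 p x := by
        unfold SB.nt SB.dist1
        simp only [Pi.sub_apply]
        omega
      rw [hN]
      exact_mod_cast (by omega : SB.nt (p.2 - x.2) ≤ c.1.card)
    have d2 : (SB.nt (x.2 - p'.2) : ℝ) ≤ N := by
      have h1 := isCl_dist hc hx hp'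
      have h2 : SB.nt (x.2 - p'.2) ≤ SB.dist1 x p' := by
        unfold SB.nt SB.dist1
        simp only [Pi.sub_apply]
        omega
      rw [hN]
      exact_mod_cast (by omega : SB.nt (x.2 - p'.2) ≤ c.1.card)
    have e1 : ENNReal.ofReal (Real.exp (-(η / 2 * N))) ≤
        ex (η / 4) (SB.nt (p.2 - x.2)) * ex (η / 4) (SB.nt (x.2 - p'.2)) := by
      unfold ex
      rw [← ENNReal.ofReal_mul (Real.exp_pos _).le, ← Real.exp_add]
      apply ENNReal.ofReal_le_ofReal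
      apply Real.exp_le_exp.2
      nlinarith
    have e2 : φ x.2 * (ex (η / 4) (SB.nt (p.2 - x.2)) * ex (η / 4) (SB.nt (x.2 - p'.2))) ≤
        Ek φ (η / 4) p.2 p'.2 := by
      rw [← mul_assoc]
      exact ENNReal.le_tsum (f := fun b => φ b * ex (η / 4) (SB.nt (p.2 - b)) *
        ex (η / 4) (SB.nt (b - p'.2))) x.2
    calc φ x.2 = ENNReal.ofReal (Real.exp (η / 2 * N)) *
          (φ x.2 * ENNReal.ofReal (Real.exp (-(η / 2 * N)))) := by
          rw [mul_comm (φ x.2), ← mul_assoc, ← ENNReal.ofReal_mul (Real.exp_pos _).le,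
            ← Real.exp_add]
          simp
      _ ≤ ENNReal.ofReal (Real.exp (η / 2 * N)) *
          (φ x.2 * (ex (η / 4) (SB.nt (p.2 - x.2)) * ex (η / 4) (SB.nt (x.2 - p'.2)))) := by
          gcongr
      _ ≤ _ := by gcongr
  calc ∑ x ∈ c.1, φ x.2
      ≤ ∑ _x ∈ c.1, ENNReal.ofReal (Real.exp (η / 2 * N)) * Ek φ (η / 4) p.2 p'.2 :=
        Finset.sum_le_sum key
    _ = ENNReal.ofReal N * (ENNReal.ofReal (Real.exp (η / 2 * N)) * Ek φ (η / 4) p.2 p'.2) := by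
        rw [Finset.sum_const, nsmul_eq_mul, hN, ENNReal.ofReal_natCast]
    _ ≤ (ENNReal.ofReal (2 / η) * ENNReal.ofReal (Real.exp (η / 2 * N))) *
          (ENNReal.ofReal (Real.exp (η / 2 * N)) * Ek φ (η / 4) p.2 p'.2) := by
        gcongr
        rw [← ENNReal.ofReal_mul (by positivity)]
        apply ENNReal.ofReal_le_ofReal
        have := Real.add_one_le_exp (η / 2 * N)
        have h3 : N = 2 / η * (η / 2 * N) := by field_simp
        calc N = 2 / η * (η / 2 * N) := h3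
          _ ≤ 2 / η * Real.exp (η / 2 * N) := by gcongr; linarith
    _ = _ := by
        have h4 : ENNReal.ofReal (Real.exp (η * N)) =
            ENNReal.ofReal (Real.exp (η / 2 * N)) * ENNReal.ofReal (Real.exp (η / 2 * N)) := by
          rw [← ENNReal.ofReal_mul (Real.exp_pos _).le, ← Real.exp_add]
          congr 2
          ring
        rw [h4]
        ring

/-! ### The pointwise bound -/

/-- The sum over the marks. -/
noncomputable def Ph (φ : Tv D → ℝ≥0∞) (c : Pr D) : ℝ≥0∞ := ∑ x ∈ c.1, φ x.2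

theorem Ph_hi (φ : Tv D → ℝ≥0∞) (c : Pr D) (m : ℤ) :
    Ph φ (hi c m) = ∑ x ∈ c.1, if m < x.1 then φ x.2 else 0 := Finset.sum_filter _ _

theorem Ph_lo (φ : Tv D → ℝ≥0∞) (c : Pr D) (m : ℤ) :
    Ph φ (lo c m) = ∑ x ∈ c.1, if x.1 ≤ m then φ x.2 else 0 := Finset.sum_filter _ _

theorem Ph_mid (φ : Tv D → ℝ≥0∞) (c : Pr D) (m1 m2 : ℤ) :
    Ph φ (hi (lo c m2) m1) = ∑ x ∈ c.1, if x.1 ≤ m2 ∧ m1 < x.1 then φ x.2 else 0 := by
  have : (hi (lo c m2) m1).1 = c.1.filter fun x => x.1 ≤ m2 ∧ m1 < x.1 := by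
    ext x
    rw [mem_hi, mem_lo, Finset.mem_filter]
    tauto
  unfold Ph
  rw [this, Finset.sum_filter]

theorem pointwise (φ : Tv D → ℝ≥0∞) (F1 F3 : Pr D → ℝ≥0∞) (f : Pr D → Site D → ℝ≥0∞)
    (G : ℤ → Prop) (n : ℕ) (c : Pr D)
    (h0 : ∀ x ∈ c.1, f c x ≤ φ x.2)
    (h3 : ∀ x ∈ c.1, ∀ m, x.1 ≤ m → f c x ≤ φ x.2 * F3 (hi c m))
    (h1 : ∀ x ∈ c.1, ∀ m, m < x.1 → f c x ≤ F1 (lo c m) * φ x.2)
    (h13 : ∀ x ∈ c.1, ∀ m1 m2, m1 < x.1 → x.1 ≤ m2 →
        f c x ≤ F1 (lo c m1) * φ x.2 * F3 (hi c m2)) :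
    ∑ x ∈ c.1, f c x ≤ ii (∀ m : ℤ, 0 ≤ m → m < n → ¬ G m) * Ph φ c +
      (∑ m1 ∈ range n, ii (G m1 ∧ ∀ m : ℤ, (m1 : ℤ) < m → m < n → ¬ G m) *
        (F1 (lo c m1) * Ph φ (hi c m1)) +
      (∑ m2 ∈ range n, ii (G m2 ∧ ∀ m : ℤ, 0 ≤ m → m < m2 → ¬ G m) *
        (Ph φ (lo c m2) * F3 (hi c m2)) +
      ∑ m2 ∈ range n, ∑ m1 ∈ range m2, ii (G m1 ∧ G m2 ∧
          ∀ m : ℤ, (m1 : ℤ) < m → m < m2 → ¬ G m) *
        (F1 (lo c m1) * Ph φ (hi (lo c m2) m1) * F3 (hi c m2)))) := by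
  have e4 : ii (∀ m : ℤ, 0 ≤ m → m < n → ¬ G m) * Ph φ c =
      ∑ x ∈ c.1, ii (∀ m : ℤ, 0 ≤ m → m < n → ¬ G m) * φ x.2 := by
    unfold Ph; rw [Finset.mul_sum]
  have e3 : ∑ m1 ∈ range n, ii (G m1 ∧ ∀ m : ℤ, (m1 : ℤ) < m → m < n → ¬ G m) *
        (F1 (lo c m1) * Ph φ (hi c m1)) =
      ∑ x ∈ c.1, ∑ m1 ∈ range n, ii (G m1 ∧ ∀ m : ℤ, (m1 : ℤ) < m → m < n → ¬ G m) *
        (F1 (lo c m1) * if (m1 : ℤ) < x.1 then φ x.2 else 0) := by
    rw [Finset.sum_comm]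
    refine Finset.sum_congr rfl fun m1 _ => ?_
    rw [Ph_hi, Finset.mul_sum, Finset.mul_sum]
  have e2 : ∑ m2 ∈ range n, ii (G m2 ∧ ∀ m : ℤ, 0 ≤ m → m < m2 → ¬ G m) *
        (Ph φ (lo c m2) * F3 (hi c m2)) =
      ∑ x ∈ c.1, ∑ m2 ∈ range n, ii (G m2 ∧ ∀ m : ℤ, 0 ≤ m → m < m2 → ¬ G m) *
        ((if x.1 ≤ (m2 : ℤ) then φ x.2 else 0) * F3 (hi c m2)) := by
    rw [Finset.sum_comm]
    refine Finset.sum_congr rfl fun m2 _ => ?_
    rw [Ph_lo, Finset.sum_mul, Finset.mul_sum]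
  have e1 : ∑ m2 ∈ range n, ∑ m1 ∈ range m2, ii (G m1 ∧ G m2 ∧
          ∀ m : ℤ, (m1 : ℤ) < m → m < m2 → ¬ G m) *
        (F1 (lo c m1) * Ph φ (hi (lo c m2) m1) * F3 (hi c m2)) =
      ∑ x ∈ c.1, ∑ m2 ∈ range n, ∑ m1 ∈ range m2, ii (G m1 ∧ G m2 ∧
          ∀ m : ℤ, (m1 : ℤ) < m → m < m2 → ¬ G m) *
        (F1 (lo c m1) * (if x.1 ≤ (m2 : ℤ) ∧ (m1 : ℤ) < x.1 then φ x.2 else 0) *
          F3 (hi c m2)) := by
    rw [Finset.sum_comm]
    refine Finset.sum_congr rfl fun m2 _ => ?_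
    rw [Finset.sum_comm]
    refine Finset.sum_congr rfl fun m1 _ => ?_
    rw [Ph_mid, Finset.mul_sum, Finset.sum_mul, Finset.mul_sum]
  rw [e4, e3, e2, e1, ← Finset.sum_add_distrib, ← Finset.sum_add_distrib,
    ← Finset.sum_add_distrib]
  refine Finset.sum_le_sum fun x hx => ?_
  rcases split_cases G n x.1 with hc | ⟨m1, hm1, g1, g2, g3⟩ | ⟨m2, hm2, g1, g2, g3⟩ |
    ⟨m2, hm2, m1, hm1, g1, g2, g3, g4, g5⟩
  · refine le_trans ?_ le_self_add
    rw [ii_true hc, one_mul]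
    exact h0 x hx
  · refine le_trans ?_ le_add_self
    refine le_trans ?_ le_self_add
    refine le_trans ?_ (Finset.single_le_sum (f := fun m1 : ℕ =>
      ii (G m1 ∧ ∀ m : ℤ, (m1 : ℤ) < m → m < n → ¬ G m) *
        (F1 (lo c m1) * if (m1 : ℤ) < x.1 then φ x.2 else 0)) (fun _ _ => zero_le) hm1)
    rw [ii_true ⟨g1, g3⟩, one_mul, if_pos g2]
    exact h1 x hx m1 g2
  · refine le_trans ?_ le_add_self
    refine le_trans ?_ le_add_self
    refine le_trans ?_ le_self_add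
    refine le_trans ?_ (Finset.single_le_sum (f := fun m2 : ℕ =>
      ii (G m2 ∧ ∀ m : ℤ, 0 ≤ m → m < m2 → ¬ G m) *
        ((if x.1 ≤ (m2 : ℤ) then φ x.2 else 0) * F3 (hi c m2))) (fun _ _ => zero_le) hm2)
    rw [ii_true ⟨g1, g3⟩, one_mul, if_pos g2]
    exact h3 x hx m2 g2
  · refine le_trans ?_ le_add_self
    refine le_trans ?_ le_add_self
    refine le_trans ?_ le_add_self
    refine le_trans ?_ (Finset.single_le_sum (f := fun m2 : ℕ =>
      ∑ m1 ∈ range m2, ii (G m1 ∧ G m2 ∧ ∀ m : ℤ, (m1 : ℤ) < m → m < m2 → ¬ G m) *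
        (F1 (lo c m1) * (if x.1 ≤ (m2 : ℤ) ∧ (m1 : ℤ) < x.1 then φ x.2 else 0) *
          F3 (hi c m2))) (fun _ _ => zero_le) hm2)
    refine le_trans ?_ (Finset.single_le_sum (f := fun m1 : ℕ =>
      ii (G m1 ∧ G m2 ∧ ∀ m : ℤ, (m1 : ℤ) < m → m < m2 → ¬ G m) *
        (F1 (lo c m1) * (if x.1 ≤ (m2 : ℤ) ∧ (m1 : ℤ) < x.1 then φ x.2 else 0) *
          F3 (hi c m2))) (fun _ _ => zero_le) hm1)
    rw [ii_true ⟨g1, g2, g5⟩, one_mul, if_pos ⟨g4, g3⟩]
    exact h13 x hx m1 m2 g3 g4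

/-! ### Convolutions -/

theorem conv_le (A B : ℕ → ℝ≥0∞) (L : ℕ) :
    ∑ n ∈ range (L + 1), ∑ m ∈ range n, A m * B (n - 1 - m) ≤
      (∑ m ∈ range (L + 1), A m) * ∑ k ∈ range (L + 1), B k := by
  rw [Finset.sum_mul_sum, ← Finset.sum_product', Finset.sum_sigma']
  rw [← Finset.sum_image (s := (range (L + 1)).sigma fun n => range n)
    (g := fun p => ((p.2, p.1 - 1 - p.2) : ℕ × ℕ)) (f := fun p => A p.1 * B p.2)]
  · refine Finset.sum_le_sum_of_subset ?_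
    intro p hp
    rw [Finset.mem_image] at hp
    obtain ⟨⟨n, m⟩, h1, rfl⟩ := hp
    rw [Finset.mem_sigma, Finset.mem_range, Finset.mem_range] at h1
    rw [Finset.mem_product, Finset.mem_range, Finset.mem_range]
    simp only at h1 ⊢
    omega
  · rintro ⟨n, m⟩ h1 ⟨n', m'⟩ h2 he
    rw [Finset.mem_coe, Finset.mem_sigma, Finset.mem_range, Finset.mem_range] at h1 h2
    simp only [Prod.mk.injEq] at he h1 h2
    obtain ⟨e1, e2⟩ := he
    subst e1
    have : n = n' := by omega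
    subst this
    rfl

/-! ### The factors -/

/-- The bound of the sums with few good cuts. -/
def Few (D : ℕ) (q β J a M ρ η : ℝ) (s0 : ℕ) (B : ℕ → ℝ≥0∞) : Prop :=
  ∀ (n : ℕ) (u w : Tv D),
    sm D q β J (fun c' => ii (((0, u) : Site D) ∈ c'.1 ∧ (((n : ℤ), w) : Site D) ∈ c'.1 ∧
      (ng a M c' n : ℝ) ≤ ρ * n + (2 * s0 : ℕ)) * ENNReal.ofReal (Real.exp (η * c'.1.card))) ≤ B n

variable {a M ρ η : ℝ} {s0 : ℕ} {B : ℕ → ℝ≥0∞}

theorem few_marks (hF : Few D q β J a M ρ η s0 B) (hη : 0 < η) (φ : Tv D → ℝ≥0∞) (n : ℕ)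
    (u w : Tv D) :
    sm D q β J (fun c' => ii (((0, u) : Site D) ∈ c'.1 ∧ (((n : ℤ), w) : Site D) ∈ c'.1 ∧
      (ng a M c' n : ℝ) ≤ ρ * n + (2 * s0 : ℕ)) * Ph φ c') ≤
      ENNReal.ofReal (2 / η) * B n * Ek φ (η / 4) u w := by
  have h1 : sm D q β J (fun c' => ii (((0, u) : Site D) ∈ c'.1 ∧ (((n : ℤ), w) : Site D) ∈ c'.1 ∧
      (ng a M c' n : ℝ) ≤ ρ * n + (2 * s0 : ℕ)) * Ph φ c') ≤
      sm D q β J (fun c' => (ENNReal.ofReal (2 / η) * Ek φ (η / 4) u w) *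
        (ii (((0, u) : Site D) ∈ c'.1 ∧ (((n : ℤ), w) : Site D) ∈ c'.1 ∧
          (ng a M c' n : ℝ) ≤ ρ * n + (2 * s0 : ℕ)) *
          ENNReal.ofReal (Real.exp (η * c'.1.card)))) := by
    refine sm_le fun c hc => ?_
    by_cases h : (((0, u) : Site D) ∈ c.1 ∧ (((n : ℤ), w) : Site D) ∈ c.1 ∧
      (ng a M c n : ℝ) ≤ ρ * n + (2 * s0 : ℕ))
    · rw [ii_true h, one_mul, one_mul]
      refine (marks_le hη φ hc h.1 h.2.1).trans (le_of_eq ?_)
      ring
    · rw [ii_false h, zero_mul, zero_mul, mul_zero]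
  refine h1.trans ?_
  rw [sm_mul]
  calc _ ≤ ENNReal.ofReal (2 / η) * Ek φ (η / 4) u w * B n := by gcongr; exact hF n u w
    _ = _ := by ring

/-- The middle piece, shifted. -/
theorem piece_le (hρ : 0 ≤ ρ) (hF : Few D q β J a M ρ η s0 B) (hη : 0 < η) (φ : Tv D → ℝ≥0∞)
    (m1 m2 : ℤ) (l : ℕ) (hl : m1 + 1 + l = m2) (y y' : Tv D) :
    sm D q β J (fun c => ii (abv (m1 + 1) c ∧ ((m1 + 1, y) : Site D) ∈ c.1) *
      (ii (((m2, y') : Site D) ∈ c.1 ∧ ∀ m, m1 < m → m < m2 → good a M c m →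
        m < m1 + s0 ∨ m2 < m + s0) * Ph φ c)) ≤
      ENNReal.ofReal (2 / η) * B l * Ek φ (η / 4) y y' := by
  refine le_trans ?_ (few_marks hF hη φ l y y')
  rw [← sm_sh (-(m1 + 1)) (fun c' => ii (((0, y) : Site D) ∈ c'.1 ∧
      (((l : ℤ), y') : Site D) ∈ c'.1 ∧
      (ng a M c' l : ℝ) ≤ ρ * l + (2 * s0 : ℕ)) * Ph φ c')]
  refine sm_le fun c _ => ?_
  by_cases h1 : (abv (m1 + 1) c ∧ ((m1 + 1, y) : Site D) ∈ c.1)
  swap
  · rw [ii_false h1, zero_mul]; exact zero_le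
  by_cases h2 : (((m2, y') : Site D) ∈ c.1 ∧ ∀ m, m1 < m → m < m2 → good a M c m →
        m < m1 + s0 ∨ m2 < m + s0)
  swap
  · rw [ii_false h2, zero_mul, mul_zero]; exact zero_le
  rw [ii_true h1, ii_true h2, one_mul, one_mul, ii_true, one_mul]
  · unfold Ph
    rw [sum_sh]
  · refine ⟨?_, ?_, ?_⟩
    · rw [mem_sh]
      have : (((0 : ℤ), y).1 - -(m1 + 1), ((0 : ℤ), y).2) = (m1 + 1, y) := by
        ext <;> simp
      rw [this]
      exact h1.2
    · rw [mem_sh]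
      have : ((((l : ℤ), y') : Site D).1 - -(m1 + 1), (((l : ℤ), y') : Site D).2) = (m2, y') := by
        ext
        · simp only
          omega
        · rfl
      rw [this]
      exact h2.1
    · have h3 := ng_le a M c m1 l s0 (by
        rw [hl]
        exact h2.2)
      have h4 : (ng a M (sh (-(m1 + 1)) c) l : ℝ) ≤ (2 * s0 : ℕ) := by exact_mod_cast h3
      have h5 : 0 ≤ ρ * l := mul_nonneg hρ (Nat.cast_nonneg _)
      linarith

/-- The upper piece, shifted. -/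
theorem upper_le (F3 : Pr D → ℝ≥0∞) (hsh : ∀ k c', F3 (sh k c') = F3 c') (m2 : ℤ) (n l : ℕ)
    (hl : m2 + 1 + l = n) (y w : Tv D) :
    sm D q β J (fun c => ii (abv (m2 + 1) c ∧ ((m2 + 1, y) : Site D) ∈ c.1) *
      (ii ((((n : ℤ), w) : Site D) ∈ c.1) * F3 c)) ≤
      sm D q β J (fun c => ii (((0, y) : Site D) ∈ c.1 ∧ (((l : ℤ), w) : Site D) ∈ c.1) *
        F3 c) := by
  rw [← sm_sh (-(m2 + 1)) (fun c => ii (((0, y) : Site D) ∈ c.1 ∧
    (((l : ℤ), w) : Site D) ∈ c.1) * F3 c)]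
  refine sm_le fun c _ => ?_
  by_cases h1 : (abv (m2 + 1) c ∧ ((m2 + 1, y) : Site D) ∈ c.1)
  swap
  · rw [ii_false h1, zero_mul]; exact zero_le
  by_cases h2 : (((n : ℤ), w) : Site D) ∈ c.1
  swap
  · rw [ii_false h2, zero_mul, mul_zero]; exact zero_le
  rw [ii_true h1, ii_true h2, one_mul, one_mul, ii_true, one_mul, hsh]
  refine ⟨?_, ?_⟩
  · rw [mem_sh]
    have : (((0 : ℤ), y).1 - -(m2 + 1), ((0 : ℤ), y).2) = (m2 + 1, y) := by
      ext <;> simp
    rw [this]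
    exact h1.2
  · rw [mem_sh]
    have : ((((l : ℤ), w) : Site D).1 - -(m2 + 1), (((l : ℤ), w) : Site D).2) = ((n : ℤ), w) := by
      ext
      · simp only
        omega
      · rfl
    rw [this]
    exact h2

/-- The lower piece with few good cuts. -/
theorem lower_le (hρ : 0 ≤ ρ) (hF : Few D q β J a M ρ η s0 B) (hη : 0 < η) (φ : Tv D → ℝ≥0∞)
    (m2 : ℕ) (u y : Tv D) :
    sm D q β J (fun c => ii (bel (m2 : ℤ) c ∧ (((m2 : ℤ), y) : Site D) ∈ c.1) *
      (ii (((0, u) : Site D) ∈ c.1 ∧ ∀ m : ℤ, 0 ≤ m → m < m2 → good a M c m →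
        (m2 : ℤ) < m + s0) * Ph φ c)) ≤
      ENNReal.ofReal (2 / η) * B m2 * Ek φ (η / 4) u y := by
  refine le_trans ?_ (few_marks hF hη φ m2 u y)
  refine sm_le fun c _ => ?_
  by_cases h1 : (bel (m2 : ℤ) c ∧ (((m2 : ℤ), y) : Site D) ∈ c.1)
  swap
  · rw [ii_false h1, zero_mul]; exact zero_le
  by_cases h2 : (((0, u) : Site D) ∈ c.1 ∧ ∀ m : ℤ, 0 ≤ m → m < m2 → good a M c m →
        (m2 : ℤ) < m + s0)
  swap
  · rw [ii_false h2, zero_mul, mul_zero]; exact zero_le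
  rw [ii_true h1, ii_true h2, one_mul, one_mul, ii_true, one_mul]
  refine ⟨h2.1, h1.2, ?_⟩
  have h3 := ng_le0 a M c m2 s0 h2.2
  have h4 : (ng a M c m2 : ℝ) ≤ (2 * s0 : ℕ) := by exact_mod_cast h3
  have h5 : 0 ≤ ρ * m2 := mul_nonneg hρ (Nat.cast_nonneg _)
  linarith

/-- The product inequality at a good cut. -/
def Cutb (D : ℕ) (q β J a M' : ℝ) (K : ℝ≥0∞) : Prop :=
  ∀ (m : ℤ) (F F1 F2 : Pr D → ℝ≥0∞),
      (∀ c1 y c2, Vd c1 y m c2 → good a M' (jn c1 y m c2) m →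
        F (jn c1 y m c2) ≤ F1 c1 * F2 c2) →
      sm D q β J (fun c => ii (good a M' c m) * F c) ≤ K *
          ∑' y : Tv D, sm D q β J (fun c => ii (bel m c ∧ ((m, y) : Site D) ∈ c.1) * F1 c) *
            sm D q β J (fun c => ii (abv (m + 1) c ∧ ((m + 1, y) : Site D) ∈ c.1) * F2 c)

variable {K : ℝ≥0∞}

/-- The clusters with one end piece above the last good cut. -/
theorem case3 (ha : 0 < a) (hs0 : Real.exp (-(a * s0)) ≤ 1 / 3) (hρ : 0 ≤ ρ)
    (hF : Few D q β J a M ρ η s0 B) (hη : 0 < η) (hK : Cutb D q β J a (3 * M) K)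
    (φ : Tv D → ℝ≥0∞) (F1 : Pr D → ℝ≥0∞) (n m1 l : ℕ) (hl : m1 + 1 + l = n) (u w : Tv D) :
    sm D q β J (fun c => ii (((0, u) : Site D) ∈ c.1 ∧ (((n : ℤ), w) : Site D) ∈ c.1) *
      (ii (good a (3 * M) c m1 ∧ ∀ m : ℤ, (m1 : ℤ) < m → m < n → ¬ good a (3 * M) c m) *
        (F1 (lo c m1) * Ph φ (hi c m1)))) ≤
      K * ∑' y : Tv D, sm D q β J (fun c => ii (((0, u) : Site D) ∈ c.1 ∧
        (((m1 : ℤ), y) : Site D) ∈ c.1) * F1 c) *
          (ENNReal.ofReal (2 / η) * B l * Ek φ (η / 4) y w) := by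
  have h1 := hK m1 (fun c => ii (((0, u) : Site D) ∈ c.1 ∧ (((n : ℤ), w) : Site D) ∈ c.1) *
      (ii (good a (3 * M) c m1 ∧ ∀ m : ℤ, (m1 : ℤ) < m → m < n → ¬ good a (3 * M) c m) *
        (F1 (lo c m1) * Ph φ (hi c m1))))
    (fun c => ii (((0, u) : Site D) ∈ c.1) * F1 c)
    (fun c => ii ((((n : ℤ), w) : Site D) ∈ c.1 ∧ ∀ m, (m1 : ℤ) < m → m < n → good a M c m →
        m < m1 + s0 ∨ (n : ℤ) < m + s0) * Ph φ c) ?_
  · refine le_trans (sm_le fun c _ => ?_) (h1.trans ?_)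
    · by_cases hg : good a (3 * M) c m1
      · rw [ii_true hg, one_mul]
      · rw [ii_false (p := good a (3 * M) c m1 ∧ _) (fun hh => hg hh.1), zero_mul, mul_zero]
        exact zero_le
    · gcongr with y
      · refine sm_le fun c _ => ?_
        rw [← mul_assoc, ← ii_and]
        gcongr
        exact Shi.ii_mono fun hh => ⟨hh.2, hh.1.2⟩
      · exact piece_le hρ hF hη φ m1 n l (by omega) y w
  · intro c1 y c2 hv hg
    rw [jn_lo hv, jn_hi hv]
    by_cases h2 : (((0, u) : Site D) ∈ (jn c1 y m1 c2).1 ∧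
      (((n : ℤ), w) : Site D) ∈ (jn c1 y m1 c2).1)
    swap
    · rw [ii_false h2, zero_mul]; exact zero_le
    by_cases h3 : (good a (3 * M) (jn c1 y m1 c2) m1 ∧ ∀ m : ℤ, (m1 : ℤ) < m → m < n →
      ¬ good a (3 * M) (jn c1 y m1 c2) m)
    swap
    · rw [ii_false h3, zero_mul, mul_zero]; exact zero_le
    rw [ii_true h2, ii_true h3, one_mul, one_mul, ii_true, ii_true, one_mul, one_mul]
    · refine ⟨?_, ?_⟩
      · have : (((n : ℤ), w) : Site D) ∈ (hi (jn c1 y m1 c2) m1).1 :=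
          mem_hi.2 ⟨h2.2, by show (m1 : ℤ) < n; omega⟩
        rwa [jn_hi hv] at this
      · intro m hm hmn hgm
        left
        refine upper_near ha hs0 (jn c1 y m1 c2) m1 m h3.1.2 hm (h3.2 m hm hmn) ?_
        rw [jn_hi hv]
        exact hgm
    · have : ((0, u) : Site D) ∈ (lo (jn c1 y m1 c2) m1).1 :=
        mem_lo.2 ⟨h2.1, by show (0 : ℤ) ≤ m1; omega⟩
      rwa [jn_lo hv] at this

/-- The clusters with one end piece below the first good cut. -/
theorem case2 (ha : 0 < a) (hs0 : Real.exp (-(a * s0)) ≤ 1 / 3) (hρ : 0 ≤ ρ)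
    (hF : Few D q β J a M ρ η s0 B) (hη : 0 < η) (hK : Cutb D q β J a (3 * M) K)
    (φ : Tv D → ℝ≥0∞) (F3 : Pr D → ℝ≥0∞) (hsh : ∀ k c', F3 (sh k c') = F3 c')
    (n m2 l : ℕ) (hl : m2 + 1 + l = n) (u w : Tv D) :
    sm D q β J (fun c => ii (((0, u) : Site D) ∈ c.1 ∧ (((n : ℤ), w) : Site D) ∈ c.1) *
      (ii (good a (3 * M) c m2 ∧ ∀ m : ℤ, 0 ≤ m → m < m2 → ¬ good a (3 * M) c m) *
        (Ph φ (lo c m2) * F3 (hi c m2)))) ≤
      K * ∑' y : Tv D, (ENNReal.ofReal (2 / η) * B m2 * Ek φ (η / 4) u y) *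
        sm D q β J (fun c => ii (((0, y) : Site D) ∈ c.1 ∧ (((l : ℤ), w) : Site D) ∈ c.1) *
          F3 c) := by
  have h1 := hK m2 (fun c => ii (((0, u) : Site D) ∈ c.1 ∧ (((n : ℤ), w) : Site D) ∈ c.1) *
      (ii (good a (3 * M) c m2 ∧ ∀ m : ℤ, 0 ≤ m → m < m2 → ¬ good a (3 * M) c m) *
        (Ph φ (lo c m2) * F3 (hi c m2))))
    (fun c => ii (((0, u) : Site D) ∈ c.1 ∧ ∀ m : ℤ, 0 ≤ m → m < m2 → good a M c m →
        (m2 : ℤ) < m + s0) * Ph φ c)
    (fun c => ii ((((n : ℤ), w) : Site D) ∈ c.1) * F3 c) ?_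
  · refine le_trans (sm_le fun c _ => ?_) (h1.trans ?_)
    · by_cases hg : good a (3 * M) c m2
      · rw [ii_true hg, one_mul]
      · rw [ii_false (p := good a (3 * M) c m2 ∧ _) (fun hh => hg hh.1), zero_mul, mul_zero]
        exact zero_le
    · gcongr with y
      · exact lower_le hρ hF hη φ m2 u y
      · exact upper_le F3 hsh m2 n l (by omega) y w
  · intro c1 y c2 hv hg
    rw [jn_lo hv, jn_hi hv]
    by_cases h2 : (((0, u) : Site D) ∈ (jn c1 y m2 c2).1 ∧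
      (((n : ℤ), w) : Site D) ∈ (jn c1 y m2 c2).1)
    swap
    · rw [ii_false h2, zero_mul]; exact zero_le
    by_cases h3 : (good a (3 * M) (jn c1 y m2 c2) m2 ∧ ∀ m : ℤ, 0 ≤ m → m < m2 →
      ¬ good a (3 * M) (jn c1 y m2 c2) m)
    swap
    · rw [ii_false h3, zero_mul, mul_zero]; exact zero_le
    rw [ii_true h2, ii_true h3, one_mul, one_mul, ii_true, ii_true, one_mul, one_mul]
    · have : (((n : ℤ), w) : Site D) ∈ (hi (jn c1 y m2 c2) m2).1 :=
        mem_hi.2 ⟨h2.2, by show (m2 : ℤ) < n; omega⟩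
      rwa [jn_hi hv] at this
    · refine ⟨?_, ?_⟩
      · have : ((0, u) : Site D) ∈ (lo (jn c1 y m2 c2) m2).1 :=
          mem_lo.2 ⟨h2.1, by show (0 : ℤ) ≤ m2; omega⟩
        rwa [jn_lo hv] at this
      · intro m hm hmn hgm
        refine lower_near ha hs0 (jn c1 y m2 c2) m2 m h3.1.2 hmn (h3.2 m hm hmn) ?_
        rw [jn_lo hv]
        exact hgm

/-- The clusters with a middle piece. -/
theorem case1 (ha : 0 < a) (hs0 : Real.exp (-(a * s0)) ≤ 1 / 3) (hρ : 0 ≤ ρ)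
    (hF : Few D q β J a M ρ η s0 B) (hη : 0 < η) (hK : Cutb D q β J a (3 * M) K)
    (φ : Tv D → ℝ≥0∞) (F1 F3 : Pr D → ℝ≥0∞) (hsh : ∀ k c', F3 (sh k c') = F3 c')
    (n m2 l3 m1 l : ℕ) (hl3 : m2 + 1 + l3 = n) (hl : m1 + 1 + l = m2) (u w : Tv D) :
    sm D q β J (fun c => ii (((0, u) : Site D) ∈ c.1 ∧ (((n : ℤ), w) : Site D) ∈ c.1) *
      (ii (good a (3 * M) c m1 ∧ good a (3 * M) c m2 ∧
          ∀ m : ℤ, (m1 : ℤ) < m → m < m2 → ¬ good a (3 * M) c m) *
        (F1 (lo c m1) * Ph φ (hi (lo c m2) m1) * F3 (hi c m2)))) ≤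
      K * ∑' y' : Tv D, (K * ∑' y : Tv D, sm D q β J (fun c => ii (((0, u) : Site D) ∈ c.1 ∧
        (((m1 : ℤ), y) : Site D) ∈ c.1) * F1 c) *
          (ENNReal.ofReal (2 / η) * B l * Ek φ (η / 4) y y')) *
        sm D q β J (fun c => ii (((0, y') : Site D) ∈ c.1 ∧ (((l3 : ℤ), w) : Site D) ∈ c.1) *
          F3 c) := by
  have hmm : (m1 : ℤ) < m2 := by omega
  have h1 := hK m2 (fun c => ii (((0, u) : Site D) ∈ c.1 ∧ (((n : ℤ), w) : Site D) ∈ c.1) *
      (ii (good a (3 * M) c m1 ∧ good a (3 * M) c m2 ∧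
          ∀ m : ℤ, (m1 : ℤ) < m → m < m2 → ¬ good a (3 * M) c m) *
        (F1 (lo c m1) * Ph φ (hi (lo c m2) m1) * F3 (hi c m2))))
    (fun c => ii (((0, u) : Site D) ∈ c.1 ∧ good a (3 * M) c m1 ∧
      ∀ m : ℤ, (m1 : ℤ) < m → m < m2 → good a M (hi c m1) m → m < m1 + s0 ∨ (m2 : ℤ) < m + s0) *
        (F1 (lo c m1) * Ph φ (hi c m1)))
    (fun c => ii ((((n : ℤ), w) : Site D) ∈ c.1) * F3 c) ?_
  · refine le_trans (sm_le fun c _ => ?_) (h1.trans ?_)
    · by_cases hg : good a (3 * M) c m2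
      · rw [ii_true hg, one_mul]
      · rw [ii_false (p := good a (3 * M) c m1 ∧ _) (fun hh => hg hh.2.1), zero_mul, mul_zero]
        exact zero_le
    · gcongr with y'
      · -- the second application
        have h2 := hK m1 (fun c => ii (((0, u) : Site D) ∈ c.1 ∧ (((m2 : ℤ), y') : Site D) ∈ c.1 ∧
            ∀ m : ℤ, (m1 : ℤ) < m → m < m2 → good a M (hi c m1) m →
              m < m1 + s0 ∨ (m2 : ℤ) < m + s0) * (F1 (lo c m1) * Ph φ (hi c m1)))
          (fun c => ii (((0, u) : Site D) ∈ c.1) * F1 c)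
          (fun c => ii ((((m2 : ℤ), y') : Site D) ∈ c.1 ∧ ∀ m, (m1 : ℤ) < m → m < m2 →
            good a M c m → m < m1 + s0 ∨ (m2 : ℤ) < m + s0) * Ph φ c) ?_
        · refine le_trans (sm_le fun c _ => ?_) (h2.trans ?_)
          · rw [← mul_assoc (ii _) (ii _), ← ii_and, ← mul_assoc (ii (good _ _ _ _)) (ii _), ← ii_and]
            gcongr
            refine Shi.ii_mono fun hh => ?_
            exact ⟨hh.2.2.1, hh.2.1, hh.1.2, hh.2.2.2⟩
          · gcongr with y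
            · refine sm_le fun c _ => ?_
              rw [← mul_assoc, ← ii_and]
              gcongr
              exact Shi.ii_mono fun hh => ⟨hh.2, hh.1.2⟩
            · exact piece_le hρ hF hη φ m1 m2 l (by omega) y y'
        · intro c1 y c2 hv hg
          rw [jn_lo hv, jn_hi hv]
          by_cases h3 : (((0, u) : Site D) ∈ (jn c1 y m1 c2).1 ∧
            (((m2 : ℤ), y') : Site D) ∈ (jn c1 y m1 c2).1 ∧
            ∀ m : ℤ, (m1 : ℤ) < m → m < m2 → good a M c2 m →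
              m < m1 + s0 ∨ (m2 : ℤ) < m + s0)
          swap
          · rw [ii_false h3, zero_mul]; exact zero_le
          rw [ii_true h3, one_mul, ii_true, ii_true, one_mul, one_mul]
          · refine ⟨?_, h3.2.2⟩
            have : (((m2 : ℤ), y') : Site D) ∈ (hi (jn c1 y m1 c2) m1).1 :=
              mem_hi.2 ⟨h3.2.1, hmm⟩
            rwa [jn_hi hv] at this
          · have : ((0, u) : Site D) ∈ (lo (jn c1 y m1 c2) m1).1 :=
              mem_lo.2 ⟨h3.1, by show (0 : ℤ) ≤ m1; omega⟩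
            rwa [jn_lo hv] at this
      · exact upper_le F3 hsh m2 n l3 (by omega) y' w
  · intro c1 y c2 hv hg
    have e1 : lo (jn c1 y m2 c2) m1 = lo c1 m1 := by
      rw [← lo_lo (jn c1 y m2 c2) hmm.le, jn_lo hv]
    rw [e1, jn_lo hv, jn_hi hv]
    by_cases h2 : (((0, u) : Site D) ∈ (jn c1 y m2 c2).1 ∧
      (((n : ℤ), w) : Site D) ∈ (jn c1 y m2 c2).1)
    swap
    · rw [ii_false h2, zero_mul]; exact zero_le
    by_cases h3 : (good a (3 * M) (jn c1 y m2 c2) m1 ∧ good a (3 * M) (jn c1 y m2 c2) m2 ∧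
      ∀ m : ℤ, (m1 : ℤ) < m → m < m2 → ¬ good a (3 * M) (jn c1 y m2 c2) m)
    swap
    · rw [ii_false h3, zero_mul, mul_zero]; exact zero_le
    rw [ii_true h2, ii_true h3, one_mul, one_mul, ii_true, ii_true, one_mul, one_mul]
    · have : (((n : ℤ), w) : Site D) ∈ (hi (jn c1 y m2 c2) m2).1 :=
        mem_hi.2 ⟨h2.2, by show (m2 : ℤ) < n; omega⟩
      rwa [jn_hi hv] at this
    · refine ⟨?_, ⟨?_, ?_⟩, ?_⟩
      · have : ((0, u) : Site D) ∈ (lo (jn c1 y m2 c2) m2).1 :=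
          mem_lo.2 ⟨h2.1, by show (0 : ℤ) ≤ m2; omega⟩
        rwa [jn_lo hv] at this
      · have := h3.1.1
        rwa [← upE_lo _ hmm, jn_lo hv] at this
      · refine le_trans (lvw_mono a ?_ m1) h3.1.2
        intro x hx
        exact Finset.mem_union_left _ hx
      · intro m hm hmn hgm
        refine piece_near ha hs0 (jn c1 y m2 c2) m1 m2 m h3.1.2 h3.2.1.2 hm hmn
          (h3.2.2 m hm hmn) ?_
        rw [jn_lo hv]
        exact hgm

/-! ### Generating functions -/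

theorem conv_pow (z : ℝ≥0∞) (A B : ℕ → ℝ≥0∞) (L : ℕ) :
    ∑ n ∈ range (L + 1), z ^ n * ∑ m ∈ range n, A m * B (n - 1 - m) ≤
      z * ((∑ m ∈ range (L + 1), z ^ m * A m) * ∑ k ∈ range (L + 1), z ^ k * B k) := by
  calc ∑ n ∈ range (L + 1), z ^ n * ∑ m ∈ range n, A m * B (n - 1 - m)
      = ∑ n ∈ range (L + 1), ∑ m ∈ range n, z * ((z ^ m * A m) * (z ^ (n - 1 - m) *
          B (n - 1 - m))) := by
        refine Finset.sum_congr rfl fun n _ => ?_
        rw [Finset.mul_sum]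
        refine Finset.sum_congr rfl fun m hm => ?_
        have hm' := Finset.mem_range.1 hm
        have e : z ^ n = z * (z ^ m * z ^ (n - 1 - m)) := by
          rw [← pow_add, ← pow_succ']
          congr 1
          omega
        rw [e]
        ring
    _ = z * ∑ n ∈ range (L + 1), ∑ m ∈ range n, (z ^ m * A m) * (z ^ (n - 1 - m) *
          B (n - 1 - m)) := by
        rw [Finset.mul_sum]
        exact Finset.sum_congr rfl fun n _ => (Finset.mul_sum _ _ _).symm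
    _ ≤ _ := by
        gcongr
        exact conv_le (fun m => z ^ m * A m) (fun k => z ^ k * B k) L

theorem sum_tsum (s : Finset ℕ) {κ : Type} (g : ℕ → κ → ℝ≥0∞) :
    ∑ n ∈ s, ∑' y, g n y = ∑' y, ∑ n ∈ s, g n y :=
  (Summable.tsum_finsetSum fun _ _ => ENNReal.summable).symm

theorem sum3 (z K Sb : ℝ≥0∞) (P b : ℕ → ℝ≥0∞) (L : ℕ)
    (hb : ∑ k ∈ range (L + 1), z ^ k * b k ≤ Sb) :
    ∑ n ∈ range (L + 1), z ^ n * ∑ m ∈ range n, K * (P m * b (n - 1 - m)) ≤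
      K * z * Sb * ∑ m ∈ range (L + 1), z ^ m * P m := by
  calc ∑ n ∈ range (L + 1), z ^ n * ∑ m ∈ range n, K * (P m * b (n - 1 - m))
      = K * ∑ n ∈ range (L + 1), z ^ n * ∑ m ∈ range n, P m * b (n - 1 - m) := by
        rw [Finset.mul_sum]
        refine Finset.sum_congr rfl fun n _ => ?_
        rw [← Finset.mul_sum]
        ring
    _ ≤ K * (z * ((∑ m ∈ range (L + 1), z ^ m * P m) * ∑ k ∈ range (L + 1), z ^ k * b k)) := by
        gcongr
        exact conv_pow z P b L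
    _ ≤ K * (z * ((∑ m ∈ range (L + 1), z ^ m * P m) * Sb)) := by gcongr
    _ = _ := by ring

end Dec

/-- Generating function with a weight. -/
noncomputable def SF (D : ℕ) (q β J : ℝ) (z : ℝ≥0∞) (L : ℕ) (F : Pr D → ℝ≥0∞) (u w : Tv D) :
    ℝ≥0∞ :=
  ∑ n ∈ range (L + 1), z ^ n * sm D q β J (fun c' =>
    ii (((0, u) : Site D) ∈ c'.1 ∧ (((n : ℤ), w) : Site D) ∈ c'.1) * F c')

/-- The decomposition at the good cuts next to a marked site. -/
theorem core {D : ℕ} {q β J1 : ℝ} (h : Reg D q β J1) :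
    ∃ δ C c : ℝ, 0 < δ ∧ 0 < C ∧ 0 < c ∧ ∀ J, Jok D q β J1 δ J → ∀ z ≤ zc D q β, ∀ (L : ℕ)
      (φ : Tv D → ℝ≥0∞) (F1 F3 : Pr D → ℝ≥0∞) (f : Pr D → Site D → ℝ≥0∞) (u w : Tv D),
      (∀ k c', F3 (sh k c') = F3 c') →
      (∀ c', (lat D).IsCl c'.1 c'.2 → ∀ x ∈ c'.1, f c' x ≤ φ x.2) →
      (∀ c', (lat D).IsCl c'.1 c'.2 → ∀ x ∈ c'.1, ∀ m, x.1 ≤ m → f c' x ≤ φ x.2 * F3 (hi c' m)) →
      (∀ c', (lat D).IsCl c'.1 c'.2 → ∀ x ∈ c'.1, ∀ m, m < x.1 → f c' x ≤ F1 (lo c' m) * φ x.2) →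
      (∀ c', (lat D).IsCl c'.1 c'.2 → ∀ x ∈ c'.1, ∀ m1 m2, m1 < x.1 → x.1 ≤ m2 →
        f c' x ≤ F1 (lo c' m1) * φ x.2 * F3 (hi c' m2)) →
      SF D q β J z L (fun c' => ∑ x ∈ c'.1, f c' x) u w ≤
        ENNReal.ofReal C * (Ek φ c u w + ∑' y, Ek φ c u y * SF D q β J z L F3 y w +
          ∑' y, SF D q β J z L F1 u y * Ek φ c y w +
          ∑' y, ∑' y', SF D q β J z L F1 u y * Ek φ c y y' * SF D q β J z L F3 y' w) := by
  obtain ⟨a, ha, haJ⟩ := h.xi
  obtain ⟨M0, ρ, η, c0, hM0, hρ, hη, hc0, H⟩ := few_good h a ha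
  obtain ⟨s0, hs0⟩ : ∃ s0 : ℕ, Real.exp (-(a * s0)) ≤ 1 / 3 := by
    obtain ⟨s, hs⟩ := exists_nat_gt (2 / a)
    refine ⟨s, ?_⟩
    have h1 : 2 ≤ a * s := by
      rw [div_lt_iff₀ ha] at hs
      linarith
    have h2 : (3 : ℝ) ≤ Real.exp (a * s) := by
      have := Real.add_one_le_exp (a * s)
      linarith
    rw [Real.exp_neg, one_div]
    exact inv_anti₀ (by norm_num) h2
  obtain ⟨C0, hC0, H0⟩ := H (2 * s0)
  obtain ⟨K, hK, HK⟩ := sm_cut_le h a (3 * M0) ha haJ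
  set Z : ℝ := Real.exp (xiR D q β 1) with hZ
  have hZ0 : 0 < Z := Real.exp_pos _
  have he : Real.exp (-(c0 / 2)) < 1 := by
    rw [Real.exp_lt_one_iff]
    linarith
  have h1e : 0 < 1 - Real.exp (-(c0 / 2)) := by linarith
  set Sb : ℝ := 2 / η * C0 * (1 - Real.exp (-(c0 / 2)))⁻¹ with hSb
  have hSb0 : 0 < Sb := by positivity
  refine ⟨c0 / 2, Sb * (1 + K * Z) ^ 2, η / 4, by positivity, by positivity, by positivity, ?_⟩
  intro J hJ z hz L φ F1 F3 f u w hsh g0 g3 g1 g13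
  set B : ℕ → ℝ≥0∞ := fun n => ENNReal.ofReal C0 * ex (xiR D q β J + c0) n with hB
  have hF : Dec.Few D q β J a M0 ρ η s0 B := by
    intro n u w
    refine (H0 M0 le_rfl J hJ.h1 hJ.h2 n u w).trans ?_
    calc _ ≤ ENNReal.ofReal C0 * ex (xiR D q β J + c0) n * 1 := by
          gcongr
          exact ex_le_one hc0.le (Nat.cast_nonneg _)
      _ = _ := mul_one _
  have hCut : Dec.Cutb D q β J a (3 * M0) (ENNReal.ofReal K) := HK J hJ.h1 hJ.h2
  set b : ℕ → ℝ≥0∞ := fun l => ENNReal.ofReal (2 / η) * B l with hb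
  -- the sum of the middle pieces
  have hbs : ∑ k ∈ range (L + 1), z ^ k * b k ≤ ENNReal.ofReal Sb := by
    have h1 : ∀ k ∈ range (L + 1), z ^ k * b k ≤
        ENNReal.ofReal (2 / η * C0 * Real.exp (-(c0 / 2)) ^ k) := by
      intro k _
      have hz' : z ^ k ≤ ENNReal.ofReal (Real.exp (xiR D q β 1 * k)) := by
        calc z ^ k ≤ (zc D q β) ^ k := pow_le_pow_left' hz k
          _ = ENNReal.ofReal (Real.exp (xiR D q β 1 * k)) := by
            unfold zc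
            rw [← ENNReal.ofReal_pow (Real.exp_pos _).le, ← Real.exp_nat_mul, mul_comm]
      have e1 : b k = ENNReal.ofReal (2 / η * C0 * Real.exp (-((xiR D q β J + c0) * k))) := by
        simp only [hb, hB, ex]
        rw [ENNReal.ofReal_mul (by positivity), ENNReal.ofReal_mul (by positivity), mul_assoc]
      calc z ^ k * b k ≤ ENNReal.ofReal (Real.exp (xiR D q β 1 * k)) *
            ENNReal.ofReal (2 / η * C0 * Real.exp (-((xiR D q β J + c0) * k))) := by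
            rw [e1]; gcongr
        _ = ENNReal.ofReal (2 / η * C0 * Real.exp (xiR D q β 1 * k +
              -((xiR D q β J + c0) * k))) := by
            rw [← ENNReal.ofReal_mul (Real.exp_pos _).le, Real.exp_add]
            congr 1
            ring
        _ ≤ _ := by
            apply ENNReal.ofReal_le_ofReal
            gcongr
            rw [← Real.exp_nat_mul]
            apply Real.exp_le_exp.2
            have h3 := hJ.h3
            have h4 : (0 : ℝ) ≤ k := Nat.cast_nonneg k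
            nlinarith
    refine (Finset.sum_le_sum h1).trans ?_
    rw [← ENNReal.ofReal_sum_of_nonneg (fun k _ => by positivity), ← Finset.mul_sum]
    apply ENNReal.ofReal_le_ofReal
    rw [hSb]
    gcongr
    rw [← tsum_geometric_of_lt_one (Real.exp_pos _).le he]
    exact (summable_geometric_of_lt_one (Real.exp_pos _).le he).sum_le_tsum _
      fun _ _ => by positivity
  have hzZ : z ≤ ENNReal.ofReal Z := hz
  set Kz : ℝ≥0∞ := ENNReal.ofReal K with hKz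
  set P1 : ℕ → Tv D → ℝ≥0∞ := fun m y => sm D q β J (fun c => ii (((0, u) : Site D) ∈ c.1 ∧
    (((m : ℤ), y) : Site D) ∈ c.1) * F1 c) with hP1
  set P3 : ℕ → Tv D → ℝ≥0∞ := fun l y => sm D q β J (fun c => ii (((0, y) : Site D) ∈ c.1 ∧
    (((l : ℤ), w) : Site D) ∈ c.1) * F3 c) with hP3
  set E : Tv D → Tv D → ℝ≥0∞ := Ek φ (η / 4) with hE
  have eS1 : ∀ y, SF D q β J z L F1 u y = ∑ n ∈ range (L + 1), z ^ n * P1 n y := fun _ => rfl
  have eS3 : ∀ y, SF D q β J z L F3 y w = ∑ n ∈ range (L + 1), z ^ n * P3 n y := fun _ => rfl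
  -- one `n`
  have hn : ∀ n : ℕ, sm D q β J (fun c' => ii (((0, u) : Site D) ∈ c'.1 ∧
        (((n : ℤ), w) : Site D) ∈ c'.1) * ∑ x ∈ c'.1, f c' x) ≤
      b n * E u w + (∑ m ∈ range n, Kz * ∑' y, P1 m y * (b (n - 1 - m) * E y w) +
        (∑ m ∈ range n, Kz * ∑' y, (b m * E u y) * P3 (n - 1 - m) y +
        ∑ m2 ∈ range n, ∑ m1 ∈ range m2, Kz * ∑' y', (Kz * ∑' y, P1 m1 y *
          (b (m2 - 1 - m1) * E y y')) * P3 (n - 1 - m2) y')) := by
    intro n
    refine (Dec.sm_le (F' := fun c => ii (((0, u) : Site D) ∈ c.1 ∧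
        (((n : ℤ), w) : Site D) ∈ c.1) * (ii (∀ m : ℤ, 0 ≤ m → m < n → ¬ good a (3 * M0) c m) *
          Dec.Ph φ c) +
      (∑ m1 ∈ range n, ii (((0, u) : Site D) ∈ c.1 ∧ (((n : ℤ), w) : Site D) ∈ c.1) *
        (ii (good a (3 * M0) c m1 ∧ ∀ m : ℤ, (m1 : ℤ) < m → m < n → ¬ good a (3 * M0) c m) *
        (F1 (lo c m1) * Dec.Ph φ (hi c m1))) +
      (∑ m2 ∈ range n, ii (((0, u) : Site D) ∈ c.1 ∧ (((n : ℤ), w) : Site D) ∈ c.1) *
        (ii (good a (3 * M0) c m2 ∧ ∀ m : ℤ, 0 ≤ m → m < m2 → ¬ good a (3 * M0) c m) *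
        (Dec.Ph φ (lo c m2) * F3 (hi c m2))) +
      ∑ m2 ∈ range n, ∑ m1 ∈ range m2, ii (((0, u) : Site D) ∈ c.1 ∧
        (((n : ℤ), w) : Site D) ∈ c.1) * (ii (good a (3 * M0) c m1 ∧ good a (3 * M0) c m2 ∧
          ∀ m : ℤ, (m1 : ℤ) < m → m < m2 → ¬ good a (3 * M0) c m) *
        (F1 (lo c m1) * Dec.Ph φ (hi (lo c m2) m1) * F3 (hi c m2)))))) ?_).trans ?_
    · intro c hc
      have hp := Dec.pointwise φ F1 F3 f (good a (3 * M0) c) n c (g0 c hc) (g3 c hc) (g1 c hc)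
        (g13 c hc)
      refine (mul_le_mul' le_rfl hp).trans (le_of_eq ?_)
      rw [mul_add, mul_add, mul_add, Finset.mul_sum, Finset.mul_sum, Finset.mul_sum]
      congr 3
      exact Finset.sum_congr rfl fun m2 _ => Finset.mul_sum _ _ _
    · rw [Dec.sm_add, Dec.sm_add, Dec.sm_add, Dec.sm_sum, Dec.sm_sum, Dec.sm_sum]
      refine add_le_add ?_ (add_le_add ?_ (add_le_add ?_ ?_))
      · refine le_trans ?_ (Dec.few_marks hF hη φ n u w)
        refine Dec.sm_le fun c _ => ?_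
        rw [← mul_assoc, ← Dec.ii_and]
        gcongr
        refine Shi.ii_mono fun hh => ⟨hh.1.1, hh.1.2, ?_⟩
        have h3 := Dec.ng_le0 a M0 c n s0 (fun m hm0 hmn hg => by
          exfalso
          refine hh.2 m hm0 hmn ⟨hg.1, hg.2.trans ?_⟩
          linarith)
        have h4 : (ng a M0 c n : ℝ) ≤ (2 * s0 : ℕ) := by exact_mod_cast h3
        have h5 : 0 ≤ ρ * n := mul_nonneg hρ.le (Nat.cast_nonneg _)
        linarith
      · refine Finset.sum_le_sum fun m1 hm1 => ?_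
        have hm1' := Finset.mem_range.1 hm1
        exact Dec.case3 ha hs0 hρ.le hF hη hCut φ F1 n m1 (n - 1 - m1) (by omega) u w
      · refine Finset.sum_le_sum fun m2 hm2 => ?_
        have hm2' := Finset.mem_range.1 hm2
        exact Dec.case2 ha hs0 hρ.le hF hη hCut φ F3 hsh n m2 (n - 1 - m2) (by omega) u w
      · refine Finset.sum_le_sum fun m2 hm2 => ?_
        have hm2' := Finset.mem_range.1 hm2
        rw [Dec.sm_sum]
        refine Finset.sum_le_sum fun m1 hm1 => ?_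
        have hm1' := Finset.mem_range.1 hm1
        exact Dec.case1 ha hs0 hρ.le hF hη hCut φ F1 F3 hsh n m2 (n - 1 - m2) m1 (m2 - 1 - m1)
          (by omega) (by omega) u w
  -- the sum over `n`
  have q4 : ∑ n ∈ range (L + 1), z ^ n * (b n * E u w) ≤ ENNReal.ofReal Sb * E u w := by
    calc _ = (∑ n ∈ range (L + 1), z ^ n * b n) * E u w := by
          rw [Finset.sum_mul]
          exact Finset.sum_congr rfl fun n _ => by ring
      _ ≤ _ := by gcongr
  have q3 : ∑ n ∈ range (L + 1), z ^ n * ∑ m ∈ range n, Kz * ∑' y, P1 m y *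
      (b (n - 1 - m) * E y w) ≤
      Kz * z * ENNReal.ofReal Sb * ∑' y, SF D q β J z L F1 u y * E y w := by
    calc _ = ∑' y, (∑ n ∈ range (L + 1), z ^ n * ∑ m ∈ range n, Kz * (P1 m y *
          b (n - 1 - m))) * E y w := by
          simp_rw [← ENNReal.tsum_mul_left, Dec.sum_tsum, ← ENNReal.tsum_mul_left,
            Dec.sum_tsum]
          refine tsum_congr fun y => ?_
          rw [Finset.sum_mul]
          refine Finset.sum_congr rfl fun n _ => ?_
          rw [mul_assoc, Finset.sum_mul]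
          congr 1
          exact Finset.sum_congr rfl fun m _ => by ring
      _ ≤ ∑' y, (Kz * z * ENNReal.ofReal Sb * SF D q β J z L F1 u y) * E y w := by
          refine ENNReal.tsum_le_tsum fun y => ?_
          gcongr
          exact Dec.sum3 z Kz _ (fun m => P1 m y) b L hbs
      _ = _ := by
          rw [← ENNReal.tsum_mul_left]
          exact tsum_congr fun y => by ring
  have q2 : ∑ n ∈ range (L + 1), z ^ n * ∑ m ∈ range n, Kz * ∑' y, (b m * E u y) *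
      P3 (n - 1 - m) y ≤
      Kz * z * ENNReal.ofReal Sb * ∑' y, E u y * SF D q β J z L F3 y w := by
    calc _ = ∑' y, (Kz * ∑ n ∈ range (L + 1), z ^ n * ∑ m ∈ range n, (b m *
          P3 (n - 1 - m) y)) * E u y := by
          simp_rw [← ENNReal.tsum_mul_left, Dec.sum_tsum, ← ENNReal.tsum_mul_left,
            Dec.sum_tsum]
          refine tsum_congr fun y => ?_
          rw [Finset.mul_sum, Finset.sum_mul]
          refine Finset.sum_congr rfl fun n _ => ?_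
          rw [Finset.mul_sum, Finset.mul_sum, Finset.mul_sum, Finset.sum_mul]
          exact Finset.sum_congr rfl fun m _ => by ring
      _ ≤ ∑' y, (Kz * (z * (ENNReal.ofReal Sb * SF D q β J z L F3 y w))) * E u y := by
          refine ENNReal.tsum_le_tsum fun y => ?_
          gcongr
          refine (Dec.conv_pow z b (fun l => P3 l y) L).trans ?_
          gcongr
          exact le_of_eq (eS3 y).symm
      _ = _ := by
          rw [← ENNReal.tsum_mul_left]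
          exact tsum_congr fun y => by ring
  have q1 : ∑ n ∈ range (L + 1), z ^ n * ∑ m2 ∈ range n, ∑ m1 ∈ range m2, Kz * ∑' y',
      (Kz * ∑' y, P1 m1 y * (b (m2 - 1 - m1) * E y y')) * P3 (n - 1 - m2) y' ≤
      Kz * z * (Kz * z) * ENNReal.ofReal Sb * ∑' y, ∑' y', SF D q β J z L F1 u y * E y y' *
        SF D q β J z L F3 y' w := by
    calc _ = ∑' y', ∑' y, (Kz * Kz * ∑ n ∈ range (L + 1), z ^ n * ∑ m2 ∈ range n,
          (∑ m1 ∈ range m2, P1 m1 y * b (m2 - 1 - m1)) * P3 (n - 1 - m2) y') * E y y' := by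
          simp_rw [← ENNReal.tsum_mul_left, ← ENNReal.tsum_mul_right, ← ENNReal.tsum_mul_left,
            Dec.sum_tsum, ← ENNReal.tsum_mul_left, Dec.sum_tsum]
          refine tsum_congr fun y' => tsum_congr fun y => ?_
          rw [Finset.mul_sum, Finset.sum_mul]
          refine Finset.sum_congr rfl fun n _ => ?_
          rw [Finset.mul_sum, Finset.mul_sum, Finset.mul_sum, Finset.sum_mul]
          refine Finset.sum_congr rfl fun m2 _ => ?_
          rw [Finset.sum_mul, Finset.mul_sum, Finset.mul_sum, Finset.mul_sum, Finset.sum_mul]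
          exact Finset.sum_congr rfl fun m1 _ => by ring
      _ ≤ ∑' y', ∑' y, (Kz * Kz * (z * ((z * (SF D q β J z L F1 u y * ENNReal.ofReal Sb)) *
          SF D q β J z L F3 y' w))) * E y y' := by
          refine ENNReal.tsum_le_tsum fun y' => ENNReal.tsum_le_tsum fun y => ?_
          gcongr
          refine (Dec.conv_pow z (fun m2 => ∑ m1 ∈ range m2, P1 m1 y * b (m2 - 1 - m1))
            (fun l => P3 l y') L).trans ?_
          gcongr
          · refine (Dec.conv_pow z (fun m => P1 m y) b L).trans ?_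
            gcongr
            exact le_of_eq (eS1 y).symm
          · exact le_of_eq (eS3 y').symm
      _ = _ := by
          rw [ENNReal.tsum_comm, ← ENNReal.tsum_mul_left]
          refine tsum_congr fun y => ?_
          rw [← ENNReal.tsum_mul_left]
          exact tsum_congr fun y' => by ring
  have hC : ENNReal.ofReal (Sb * (1 + K * Z) ^ 2) =
      (1 + Kz * ENNReal.ofReal Z) ^ 2 * ENNReal.ofReal Sb := by
    rw [ENNReal.ofReal_mul hSb0.le, ENNReal.ofReal_pow (by positivity),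
      ENNReal.ofReal_add (by norm_num) (by positivity), ENNReal.ofReal_mul hK.le,
      ENNReal.ofReal_one, mul_comm]
  have hk1 : Kz * z ≤ (1 + Kz * ENNReal.ofReal Z) ^ 2 := by
    calc Kz * z ≤ Kz * ENNReal.ofReal Z := by gcongr
      _ ≤ 1 + Kz * ENNReal.ofReal Z := le_add_self
      _ ≤ (1 + Kz * ENNReal.ofReal Z) ^ 2 := by
        rw [sq]
        exact le_mul_of_one_le_left' le_self_add
  have hk2 : Kz * z * (Kz * z) ≤ (1 + Kz * ENNReal.ofReal Z) ^ 2 := by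
    rw [sq]
    have : Kz * z ≤ 1 + Kz * ENNReal.ofReal Z := by
      calc Kz * z ≤ Kz * ENNReal.ofReal Z := by gcongr
        _ ≤ 1 + Kz * ENNReal.ofReal Z := le_add_self
    exact mul_le_mul' this this
  have hk0 : (1 : ℝ≥0∞) ≤ (1 + Kz * ENNReal.ofReal Z) ^ 2 := one_le_pow₀ le_self_add
  calc SF D q β J z L (fun c' => ∑ x ∈ c'.1, f c' x) u w
      ≤ ∑ n ∈ range (L + 1), z ^ n * (b n * E u w +
        (∑ m ∈ range n, Kz * ∑' y, P1 m y * (b (n - 1 - m) * E y w) +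
        (∑ m ∈ range n, Kz * ∑' y, (b m * E u y) * P3 (n - 1 - m) y +
        ∑ m2 ∈ range n, ∑ m1 ∈ range m2, Kz * ∑' y', (Kz * ∑' y, P1 m1 y *
          (b (m2 - 1 - m1) * E y y')) * P3 (n - 1 - m2) y'))) := by
        unfold SF
        exact Finset.sum_le_sum fun n _ => mul_le_mul' le_rfl (hn n)
    _ = ∑ n ∈ range (L + 1), z ^ n * (b n * E u w) +
        (∑ n ∈ range (L + 1), z ^ n * ∑ m ∈ range n, Kz * ∑' y, P1 m y *
          (b (n - 1 - m) * E y w) +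
        (∑ n ∈ range (L + 1), z ^ n * ∑ m ∈ range n, Kz * ∑' y, (b m * E u y) *
          P3 (n - 1 - m) y +
        ∑ n ∈ range (L + 1), z ^ n * ∑ m2 ∈ range n, ∑ m1 ∈ range m2, Kz * ∑' y',
          (Kz * ∑' y, P1 m1 y * (b (m2 - 1 - m1) * E y y')) * P3 (n - 1 - m2) y')) := by
        rw [← Finset.sum_add_distrib, ← Finset.sum_add_distrib, ← Finset.sum_add_distrib]
        exact Finset.sum_congr rfl fun n _ => by rw [mul_add, mul_add, mul_add]
    _ ≤ ENNReal.ofReal Sb * E u w +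
        (Kz * z * ENNReal.ofReal Sb * ∑' y, SF D q β J z L F1 u y * E y w +
        (Kz * z * ENNReal.ofReal Sb * ∑' y, E u y * SF D q β J z L F3 y w +
        Kz * z * (Kz * z) * ENNReal.ofReal Sb * ∑' y, ∑' y', SF D q β J z L F1 u y * E y y' *
          SF D q β J z L F3 y' w)) := add_le_add q4 (add_le_add q3 (add_le_add q2 q1))
    _ ≤ (1 + Kz * ENNReal.ofReal Z) ^ 2 * ENNReal.ofReal Sb * E u w +
        ((1 + Kz * ENNReal.ofReal Z) ^ 2 * ENNReal.ofReal Sb *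
          ∑' y, SF D q β J z L F1 u y * E y w +
        ((1 + Kz * ENNReal.ofReal Z) ^ 2 * ENNReal.ofReal Sb *
          ∑' y, E u y * SF D q β J z L F3 y w +
        (1 + Kz * ENNReal.ofReal Z) ^ 2 * ENNReal.ofReal Sb *
          ∑' y, ∑' y', SF D q β J z L F1 u y * E y y' * SF D q β J z L F3 y' w)) := by
        gcongr
        calc ENNReal.ofReal Sb = 1 * ENNReal.ofReal Sb := (one_mul _).symm
          _ ≤ _ := by gcongr
    _ = _ := by rw [hC]; ring

theorem Dec.SF_one {D : ℕ} {q β J : ℝ} (z : ℝ≥0∞) (L : ℕ) (u w : Tv D) :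
    SF D q β J z L (fun _ => 1) u w = SG D q β J z L u w := by
  unfold SF SG GN
  simp only [mul_one]

/-- Sums over clusters with a marked site. -/
theorem mark {D : ℕ} {q β J1 : ℝ} (h : Reg D q β J1) :
    ∃ δ C c : ℝ, 0 < δ ∧ 0 < C ∧ 0 < c ∧ ∀ J, Jok D q β J1 δ J → ∀ z ≤ zc D q β, ∀ (L : ℕ)
      (φ : Tv D → ℝ≥0∞) (u w : Tv D),
      ∑ n ∈ range (L + 1), z ^ n * sm D q β J (fun c' =>
        ii (((0, u) : Site D) ∈ c'.1 ∧ (((n : ℤ), w) : Site D) ∈ c'.1) * ∑ x ∈ c'.1, φ x.2) ≤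
      ENNReal.ofReal C * (Ek φ c u w + ∑' y, Ek φ c u y * SG D q β J z L y w +
        ∑' y, SG D q β J z L u y * Ek φ c y w +
        ∑' y, ∑' y', SG D q β J z L u y * Ek φ c y y' * SG D q β J z L y' w) := by
  obtain ⟨δ, C, c, hδ, hC, hc, H⟩ := core h
  refine ⟨δ, C, c, hδ, hC, hc, ?_⟩
  intro J hJ z hz L φ u w
  have := H J hJ z hz L φ (fun _ => 1) (fun _ => 1) (fun _ x => φ x.2) u w (fun _ _ => rfl)
    (fun _ _ _ _ => le_rfl) (fun _ _ _ _ _ _ => by simp) (fun _ _ _ _ _ _ => by simp)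
    (fun _ _ _ _ _ _ _ _ => by simp)
  simp only [Dec.SF_one] at this
  exact this

end Pool.Agent.DL
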