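import Pool.Agent.SB.Defs

/-!
# The defect line for all subcritical temperatures: definitions

`Gr V ι` is a multigraph with edges `e : ι` joining `s e` and `t e`. The weight of a finite set of
open edges is `∏ v e * q ^ (-rank)`.
-/

set_option autoImplicit false
set_option linter.unusedSectionVars false

namespace Pool.Agent.DL

open Finset

/-- A multigraph: the edge `e` joins `s e` and `t e`. -/
structure Gr (V ι : Type) where
  s : ι → V
  t : ι → V

namespace Gr

variable {V ι : Type} [DecidableEq V] [DecidableEq ι] (G : Gr V ι)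

/-- `x` and `y` are joined by an edge of `ω`. -/
def Step (ω : Finset ι) (x y : V) : Prop :=
  ∃ e ∈ ω, (G.s e = x ∧ G.t e = y) ∨ (G.s e = y ∧ G.t e = x)

/-- `x` and `y` are connected by edges of `ω`. -/
def Rch (ω : Finset ι) (x y : V) : Prop := Relation.ReflTransGen (G.Step ω) x y

/-- The vector of an edge. -/
noncomputable def vec (e : ι) : V →₀ ℚ := Finsupp.single (G.s e) 1 - Finsupp.single (G.t e) 1

/-- The span of the vectors of the edges. -/
noncomputable def spn (ω : Finset ι) : Submodule ℚ (V →₀ ℚ) :=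
  Submodule.span ℚ (G.vec '' (ω : Set ι))

/-- The rank: number of vertices minus number of components. -/
noncomputable def rk (ω : Finset ι) : ℕ := Module.finrank ℚ (G.spn ω)

variable (q : ℝ) (v : ι → ℝ)

/-- The weight of the set `ω` of open edges. -/
noncomputable def wt (ω : Finset ι) : ℝ := (∏ e ∈ ω, v e) * (q⁻¹) ^ G.rk ω

/-- The partition function of the edge set `Ed` (free boundary condition). -/
noncomputable def zz (Ed : Finset ι) : ℝ := ∑ ω ∈ Ed.powerset, G.wt q v ω

open Classical in
/-- The probability of `A` under the random-cluster measure on `Ed`. -/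
noncomputable def pr (Ed : Finset ι) (A : Finset ι → Prop) : ℝ :=
  (∑ ω ∈ Ed.powerset.filter A, G.wt q v ω) / G.zz q v Ed

/-- The probability that `x` and `y` are connected. -/
noncomputable def tp (Ed : Finset ι) (x y : V) : ℝ := G.pr q v Ed fun ω => G.Rch ω x y

/-- The edges with no end in `A`. -/
def del (A : Finset V) (Ed : Finset ι) : Finset ι := Ed.filter fun e => G.s e ∉ A ∧ G.t e ∉ A

/-- The edges with an end in `A`. -/
def tch (A : Finset V) (Ed : Finset ι) : Finset ι := Ed.filter fun e => G.s e ∈ A ∨ G.t e ∈ A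

/-- The probability that no open edge has an end in `A`. -/
noncomputable def ze (Ed : Finset ι) (A : Finset V) : ℝ := G.zz q v (G.del A Ed) / G.zz q v Ed

/-- `(A, E)` is a connected graph. -/
def IsCl (A : Finset V) (E : Finset ι) : Prop :=
  A.Nonempty ∧ (∀ e ∈ E, G.s e ∈ A ∧ G.t e ∈ A) ∧ ∀ x ∈ A, ∀ y ∈ A, G.Rch E x y

/-- The weight of a connected graph. -/
noncomputable def cw (A : Finset V) (E : Finset ι) : ℝ := (∏ e ∈ E, v e) * (q⁻¹) ^ (A.card - 1)

/-- The vertices of `Ed` and `x`. -/
def vs (Ed : Finset ι) (x : V) : Finset V := insert x (Ed.image G.s ∪ Ed.image G.t)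

end Gr

/-! ### The lattice -/

/-- Sites of `ℤ × ℤ^D`. -/
abbrev Site (D : ℕ) := SB.Site D

/-- The edge from `x` to `x + dir (i, true)`. -/
abbrev Edge (D : ℕ) := SB.Site D × Option (Fin D)

/-- The lattice. -/
def lat (D : ℕ) : Gr (Site D) (Edge D) where
  s := fun e => e.1
  t := fun e => e.1 + SB.dir (e.2, true)

/-- The edges of the line. -/
def OnL {D : ℕ} (e : Edge D) : Prop := e.2 = none ∧ e.1.2 = 0

instance {D : ℕ} (e : Edge D) : Decidable (OnL e) := inferInstanceAs (Decidable (_ ∧ _))

/-- The edge weights. -/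
noncomputable def vJ {D : ℕ} (β J : ℝ) (e : Edge D) : ℝ :=
  if OnL e then Real.exp (β * J) - 1 else Real.exp β - 1

/-- The edges with both ends in `Λ`. -/
def edg {D : ℕ} (Λ : Finset (Site D)) : Finset (Edge D) :=
  (Λ ×ˢ Finset.univ).filter fun e => (lat D).t e ∈ Λ

end Pool.Agent.DL
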