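import Mathlib

/-!
# Renewals of supermodular weights

`μ i j` is the weight of the part of a chain between the cuts `i < j`. `BT μ T i j` is the weight
without renewal at the cuts in `T`. If `μ` is log-supermodular then these weights are nonnegative
(Kaluza), they decrease with `T`, and they are exponentially small if the cuts of `T` have little
memory.
-/

set_option autoImplicit false

namespace Pool.Agent.DL

open Finset

/-- The weight without renewal at the points of `T` strictly between `i` and `j`. -/
noncomputable def BT (μ : ℕ → ℕ → ℝ) (T : Finset ℕ) (i j : ℕ) : ℝ :=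
  μ i j - ∑ k ∈ ((range j).filter fun k => k ∈ T ∧ i < k).attach, BT μ T i k.1 * μ k.1 j
termination_by j
decreasing_by
  exact mem_range.1 (mem_filter.1 k.2).1

theorem BT_def (μ : ℕ → ℕ → ℝ) (T : Finset ℕ) (i j : ℕ) :
    BT μ T i j = μ i j - ∑ k ∈ (range j).filter (fun k => k ∈ T ∧ i < k), BT μ T i k * μ k j := by
  rw [BT, Finset.sum_attach _ fun k => BT μ T i k * μ k j]

/-- First renewal. -/
theorem BT_eq (μ : ℕ → ℕ → ℝ) (T : Finset ℕ) (i j : ℕ) :
    μ i j = BT μ T i j + ∑ k ∈ (range j).filter (fun k => k ∈ T ∧ i < k),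
      BT μ T i k * μ k j := by
  rw [BT_def μ T i j]
  ring

/-- Log-supermodular weights on the points of `S`. -/
structure SM (μ : ℕ → ℕ → ℝ) (S : Set ℕ) : Prop where
  pos : ∀ i ∈ S, ∀ j ∈ S, i ≤ j → 0 < μ i j
  one : ∀ i ∈ S, μ i i = 1
  sm : ∀ i ∈ S, ∀ i' ∈ S, ∀ k ∈ S, ∀ k' ∈ S, i ≤ i' → i' ≤ k → k ≤ k' →
    μ i k * μ i' k' ≤ μ i k' * μ i' k

variable {μ : ℕ → ℕ → ℝ} {S : Set ℕ}

/-- The sum over the first renewal, with the last point included. -/
theorem BT_sum_last (h : SM μ S) {T : Finset ℕ} {i l : ℕ} (hl : l ∈ T) (hlS : l ∈ S) (hil : i < l) :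
    ∑ k ∈ (range (l + 1)).filter (fun k => k ∈ T ∧ i < k), BT μ T i k * μ k l = μ i l := by
  have h1 : (range (l + 1)).filter (fun k => k ∈ T ∧ i < k) =
      insert l ((range l).filter (fun k => k ∈ T ∧ i < k)) := by
    ext k
    simp only [mem_filter, mem_range, mem_insert]
    constructor
    · rintro ⟨h1, h2, h3⟩
      by_cases hk : k = l
      · exact Or.inl hk
      · exact Or.inr ⟨by omega, h2, h3⟩
    · rintro (rfl | ⟨h1, h2, h3⟩)
      · exact ⟨by omega, hl, hil⟩
      · exact ⟨by omega, h2, h3⟩
  rw [h1, sum_insert (by simp), h.one l hlS, mul_one, ← BT_eq]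

/-- The difference formula: `l` is the last point of `T` before `j`. -/
theorem BT_last (h : SM μ S) {T : Finset ℕ} {i j l : ℕ} (hiS : i ∈ S) (hlS : l ∈ S)
    (hl : l ∈ T) (hil : i < l) (hlj : l < j) (hlast : ∀ k ∈ T, k < j → k ≤ l) :
    BT μ T i j = ∑ k ∈ (range (l + 1)).filter (fun k => k ∈ T ∧ i < k),
      BT μ T i k * (μ i j / μ i l * μ k l - μ k j) := by
  have h1 : (range j).filter (fun k => k ∈ T ∧ i < k) =
      (range (l + 1)).filter (fun k => k ∈ T ∧ i < k) := by
    ext k
    simp only [mem_filter, mem_range]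
    constructor
    · rintro ⟨h1, h2, h3⟩
      exact ⟨by have := hlast k h2 h1; omega, h2, h3⟩
    · rintro ⟨h1, h2, h3⟩
      exact ⟨by omega, h2, h3⟩
  have h2 := BT_sum_last h hl hlS hil
  have h3 : 0 < μ i l := h.pos i hiS l hlS hil.le
  rw [BT_def, h1]
  have h4 : ∑ k ∈ (range (l + 1)).filter (fun k => k ∈ T ∧ i < k),
      BT μ T i k * (μ i j / μ i l * μ k l - μ k j) =
      μ i j / μ i l * ∑ k ∈ (range (l + 1)).filter (fun k => k ∈ T ∧ i < k),
        BT μ T i k * μ k l -
      ∑ k ∈ (range (l + 1)).filter (fun k => k ∈ T ∧ i < k), BT μ T i k * μ k j := by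
    rw [mul_sum, ← sum_sub_distrib]
    refine sum_congr rfl fun k _ => ?_
    ring
  rw [h4, h2, div_mul_cancel₀ _ h3.ne']

theorem BT_of_empty {T : Finset ℕ} {i j : ℕ} (h : ∀ k ∈ T, i < k → j ≤ k) :
    BT μ T i j = μ i j := by
  rw [BT_def, Finset.sum_eq_zero, sub_zero]
  intro k hk
  simp only [mem_filter, mem_range] at hk
  have := h k hk.2.1 hk.2.2
  omega

/-- Kaluza's theorem. -/
theorem BT_nonneg (h : SM μ S) {T : Finset ℕ} (hT : ∀ k ∈ T, k ∈ S) {i : ℕ} (hi : i ∈ S) (j : ℕ)
    (hj : j ∈ S) (hij : i < j) : 0 ≤ BT μ T i j := by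
  induction j using Nat.strong_induction_on with
  | _ j ih =>
    by_cases hne : ((range j).filter fun k => k ∈ T ∧ i < k).Nonempty
    · obtain ⟨l, hl, hmax⟩ := Finset.exists_max_image _ id hne
      simp only [mem_filter, mem_range, id_eq] at hl hmax
      have hlS := hT l hl.2.1
      rw [BT_last h hi hlS hl.2.1 hl.2.2 hl.1 fun k hk hkj => by
        by_cases hik : i < k
        · exact hmax k ⟨hkj, hk, hik⟩
        · have := hl.2.2
          omega]
      refine sum_nonneg fun k hk => ?_
      simp only [mem_filter, mem_range] at hk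
      refine mul_nonneg (ih k (by omega) (hT k hk.2.1) hk.2.2) ?_
      have h3 : 0 < μ i l := h.pos i hi l hlS hl.2.2.le
      rw [sub_nonneg, div_mul_eq_mul_div, le_div_iff₀ h3, mul_comm (μ k j)]
      exact h.sm i hi k (hT k hk.2.1) l hlS j hj hk.2.2.le (by omega) hl.1.le
    · rw [BT_of_empty]
      · exact (h.pos i hi j hj hij.le).le
      · intro k hk hik
        by_contra hkj
        exact hne ⟨k, by simp only [mem_filter, mem_range]; exact ⟨by omega, hk, hik⟩⟩

theorem BT_congr {T T' : Finset ℕ} {i : ℕ} (j : ℕ) (h : ∀ k, i < k → k < j → (k ∈ T ↔ k ∈ T')) :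
    BT μ T i j = BT μ T' i j := by
  induction j using Nat.strong_induction_on with
  | _ j ih =>
    rw [BT_def, BT_def]
    congr 1
    have h1 : (range j).filter (fun k => k ∈ T ∧ i < k) =
        (range j).filter (fun k => k ∈ T' ∧ i < k) := by
      ext k
      simp only [mem_filter, mem_range]
      constructor
      · rintro ⟨h1, h2, h3⟩
        exact ⟨h1, (h k h3 h1).1 h2, h3⟩
      · rintro ⟨h1, h2, h3⟩
        exact ⟨h1, (h k h3 h1).2 h2, h3⟩
    rw [h1]
    refine sum_congr rfl fun k hk => ?_
    simp only [mem_filter, mem_range] at hk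
    rw [ih k hk.1 fun l hl hlk => h l hl (by omega)]

theorem BT_insert {T : Finset ℕ} {p i : ℕ} (hp : p ∉ T) (hip : i < p) (j : ℕ) (hpj : p < j) :
    BT μ T i j - BT μ (insert p T) i j = BT μ T i p * BT μ T p j := by
  induction j using Nat.strong_induction_on with
  | _ j ih =>
    have h1 : (range j).filter (fun k => k ∈ insert p T ∧ i < k) =
        insert p ((range j).filter (fun k => k ∈ T ∧ i < k)) := by
      ext k
      simp only [mem_filter, mem_range, mem_insert]
      constructor
      · rintro ⟨h1, h2 | h2, h3⟩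
        · exact Or.inl h2
        · exact Or.inr ⟨h1, h2, h3⟩
      · rintro (rfl | ⟨h1, h2, h3⟩)
        · exact ⟨hpj, Or.inl rfl, hip⟩
        · exact ⟨h1, Or.inr h2, h3⟩
    have h2 : BT μ (insert p T) i p = BT μ T i p :=
      BT_congr p fun k _ hk => by
        rw [mem_insert]
        constructor
        · rintro (h | h)
          · omega
          · exact h
        · exact Or.inr
    rw [BT_def μ T i j, BT_def μ (insert p T) i j, h1, sum_insert (by simp [hp]), h2,
      BT_def μ T p j]
    have h3 : ∑ k ∈ (range j).filter (fun k => k ∈ T ∧ i < k), BT μ T i k * μ k j -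
        ∑ k ∈ (range j).filter (fun k => k ∈ T ∧ i < k), BT μ (insert p T) i k * μ k j =
        BT μ T i p * ∑ k ∈ (range j).filter (fun k => k ∈ T ∧ p < k), BT μ T p k * μ k j := by
      rw [← sum_sub_distrib, mul_sum]
      have h4 : (range j).filter (fun k => k ∈ T ∧ p < k) ⊆
          (range j).filter (fun k => k ∈ T ∧ i < k) := by
        intro k hk
        simp only [mem_filter, mem_range] at hk ⊢
        exact ⟨hk.1, hk.2.1, by omega⟩
      symm
      rw [← Finset.sum_subset h4]
      · refine sum_congr rfl fun k hk => ?_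
        simp only [mem_filter, mem_range] at hk
        have h5 := ih k hk.1 hk.2.2
        rw [← sub_mul, h5]
        ring
      · intro k hk hk'
        simp only [mem_filter, mem_range, not_and] at hk hk'
        have hkp : k < p := by
          have h6 : ¬ p < k := hk' hk.1 hk.2.1
          have h7 : k ≠ p := fun h => hp (h ▸ hk.2.1)
          omega
        have h8 : BT μ (insert p T) i k = BT μ T i k :=
          BT_congr k fun l _ hl => by
            rw [mem_insert]
            constructor
            · rintro (h | h)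
              · omega
              · exact h
            · exact Or.inr
        rw [h8, sub_self]
    linarith [h3]

theorem BT_anti (h : SM μ S) {T T' : Finset ℕ} (hTT : T ⊆ T') (hT : ∀ k ∈ T', k ∈ S) {i j : ℕ}
    (hi : i ∈ S) (hj : j ∈ S) : BT μ T' i j ≤ BT μ T i j := by
  induction T' using Finset.strongInduction with
  | H T' ih =>
    by_cases he : T = T'
    · rw [he]
    · obtain ⟨p, hp, hp'⟩ := Finset.exists_of_ssubset (lt_of_le_of_ne hTT he)
      have h1 : T' = insert p (T'.erase p) := (insert_erase hp).symm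
      have h2 : T ⊆ T'.erase p := fun k hk =>
        mem_erase.2 ⟨fun h => hp' (h ▸ hk), hTT hk⟩
      have h3 := ih (T'.erase p) (erase_ssubset hp) h2 fun k hk => hT k (mem_of_mem_erase hk)
      refine le_trans ?_ h3
      by_cases hc : i < p ∧ p < j
      · have h4 := BT_insert (μ := μ) (T := T'.erase p) (p := p) (i := i) (by simp) hc.1 j hc.2
        rw [← h1] at h4
        have h5 : 0 ≤ BT μ (T'.erase p) i p :=
          BT_nonneg h (fun k hk => hT k (mem_of_mem_erase hk)) hi p (hT p hp) hc.1
        have h6 : 0 ≤ BT μ (T'.erase p) p j :=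
          BT_nonneg h (fun k hk => hT k (mem_of_mem_erase hk)) (hT p hp) j hj hc.2
        have := mul_nonneg h5 h6
        linarith
      · refine le_of_eq (BT_congr j fun k hik hkj => ?_)
        rw [mem_erase]
        constructor
        · intro hk
          exact ⟨fun h => hc (h ▸ ⟨hik, hkj⟩), hk⟩
        · exact fun hk => hk.2

/-- Cuts with little memory: `c 0 < ... < c (s - 1)` are the cuts, `c s` is the end. -/
theorem BT_le_pow (h : SM μ S) (i : ℕ) (hi : i ∈ S) (s : ℕ) (c : ℕ → ℕ)
    (hc : ∀ r < s, c r < c (r + 1)) (hc0 : i < c 0) (hcS : ∀ r ≤ s, c r ∈ S)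
    (ρ : ℕ → ℝ) (θ : ℝ) (hθ : 0 < θ) (hρ0 : ∀ j, 0 ≤ ρ j)
    (hρ : ∀ l < s, ∀ k ≤ l,
      (1 - ρ (l - k)) * (μ (c k) (c l) * μ i (c (l + 1))) ≤ μ i (c l) * μ (c k) (c (l + 1)))
    (hsum : ∀ l < s, ∑ j ∈ range (l + 1), ρ j * (θ⁻¹) ^ j ≤ θ) :
    ∀ r ≤ s, BT μ ((range s).image c) i (c r) ≤ θ ^ r * μ i (c r) := by
  have hmono : ∀ r ≤ s, ∀ k < r, c k < c r := by
    intro r
    induction r with
    | zero => intro _ k hk; omega
    | succ r ih =>
      intro hr k hk
      have h1 := hc r (by omega)
      by_cases hkr : k = r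
      · rw [hkr]
        exact h1
      · exact (ih (by omega) k (by omega)).trans h1
  have hic : ∀ r ≤ s, i < c r := by
    intro r hr
    by_cases h0 : r = 0
    · rw [h0]
      exact hc0
    · exact hc0.trans (hmono r hr 0 (by omega))
  set T := (range s).image c with hTdef
  have hT : ∀ k ∈ T, k ∈ S := by
    intro k hk
    obtain ⟨r, hr, rfl⟩ := mem_image.1 hk
    exact hcS r (mem_range.1 hr).le
  have hfil : ∀ l < s, (range (c l + 1)).filter (fun k => k ∈ T ∧ i < k) =
      (range (l + 1)).image c := by
    intro l hl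
    ext k
    simp only [mem_filter, mem_range, mem_image, hTdef]
    constructor
    · rintro ⟨h1, ⟨r, hr, rfl⟩, _⟩
      refine ⟨r, ?_, rfl⟩
      by_contra hlr
      have := hmono r hr.le l (by omega)
      omega
    · rintro ⟨r, hr, rfl⟩
      refine ⟨?_, ⟨r, by omega, rfl⟩, hic r (by omega)⟩
      by_cases hrl : r = l
      · rw [hrl]
        omega
      · have := hmono l hl.le r (by omega)
        omega
  have hinj : ∀ l < s, Set.InjOn c (range (l + 1) : Finset ℕ) := by
    intro l hl a ha b hb hab
    simp only [coe_range, Set.mem_Iio] at ha hb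
    rcases lt_trichotomy a b with h1 | h1 | h1
    · have := hmono b (by omega) a h1
      omega
    · exact h1
    · have := hmono a (by omega) b h1
      omega
  intro r
  induction r using Nat.strong_induction_on with
  | _ r ih =>
    intro hr
    rcases Nat.eq_zero_or_pos r with rfl | hr0
    · rw [pow_zero, one_mul, BT_of_empty]
      intro k hk _
      obtain ⟨l, hls, rfl⟩ := mem_image.1 hk
      rcases Nat.eq_zero_or_pos l with rfl | hl
      · exact le_rfl
      · exact (hmono l (mem_range.1 hls).le 0 hl).le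
    · obtain ⟨l, rfl⟩ : ∃ l, r = l + 1 := ⟨r - 1, by omega⟩
      have hls : l < s := by omega
      have hlS := hcS l hls.le
      have hpl : 0 < μ i (c l) := h.pos i hi _ hlS (hic l hls.le).le
      have hpr : 0 < μ i (c (l + 1)) := h.pos i hi _ (hcS _ hr) (hic _ hr).le
      rw [BT_last h hi hlS (mem_image.2 ⟨l, mem_range.2 hls, rfl⟩) (hic l hls.le) (hc l hls)
        (fun k hk hkj => by
          obtain ⟨a, ha, rfl⟩ := mem_image.1 hk
          by_cases hal : a ≤ l
          · rcases hal.lt_or_eq with h1 | rfl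
            · exact (hmono l hls.le a h1).le
            · exact le_rfl
          · exfalso
            rcases (show l + 1 ≤ a by omega).lt_or_eq with h1 | rfl
            · have := hmono a (mem_range.1 ha).le (l + 1) h1
              omega
            · omega), hfil l hls, sum_image (hinj l hls)]
      have hterm : ∀ k ∈ range (l + 1), BT μ T i (c k) *
          (μ i (c (l + 1)) / μ i (c l) * μ (c k) (c l) - μ (c k) (c (l + 1))) ≤
          (θ ^ k * ρ (l - k)) * μ i (c (l + 1)) := by
        intro k hk
        have hkl : k ≤ l := Nat.lt_succ_iff.1 (mem_range.1 hk)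
        have hkS := hcS k (by omega)
        have h1 := ih k (by omega) (by omega)
        have h1' : 0 ≤ BT μ T i (c k) := BT_nonneg h hT hi _ hkS (hic k (by omega))
        have hckl : c k ≤ c l := by
          rcases hkl.lt_or_eq with h2 | rfl
          · exact (hmono l hls.le k h2).le
          · exact le_rfl
        have h2 : μ i (c (l + 1)) / μ i (c l) * μ (c k) (c l) - μ (c k) (c (l + 1)) ≤
            ρ (l - k) * (μ (c k) (c l) * μ i (c (l + 1)) / μ i (c l)) := by
          have h3 := hρ l hls k hkl
          have h4 : μ (c k) (c (l + 1)) ≥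
              (1 - ρ (l - k)) * (μ (c k) (c l) * μ i (c (l + 1))) / μ i (c l) := by
            rw [ge_iff_le, div_le_iff₀ hpl]
            linarith
          have h5 : μ i (c (l + 1)) / μ i (c l) * μ (c k) (c l) -
              (1 - ρ (l - k)) * (μ (c k) (c l) * μ i (c (l + 1))) / μ i (c l) =
              ρ (l - k) * (μ (c k) (c l) * μ i (c (l + 1)) / μ i (c l)) := by
            ring
          linarith
        have h6 : μ i (c k) * μ (c k) (c l) ≤ μ i (c l) := by
          have h7 := h.sm i hi (c k) hkS (c k) hkS (c l) hlS (hic k (by omega)).le le_rfl hckl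
          rwa [h.one _ hkS, mul_one] at h7
        have h8 : 0 < μ (c k) (c l) := h.pos _ hkS _ hlS hckl
        calc BT μ T i (c k) *
              (μ i (c (l + 1)) / μ i (c l) * μ (c k) (c l) - μ (c k) (c (l + 1)))
            ≤ BT μ T i (c k) *
              (ρ (l - k) * (μ (c k) (c l) * μ i (c (l + 1)) / μ i (c l))) :=
              mul_le_mul_of_nonneg_left h2 h1'
          _ ≤ (θ ^ k * μ i (c k)) *
              (ρ (l - k) * (μ (c k) (c l) * μ i (c (l + 1)) / μ i (c l))) :=
              mul_le_mul_of_nonneg_right h1 (mul_nonneg (hρ0 _)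
                (div_nonneg (mul_nonneg h8.le hpr.le) hpl.le))
          _ = (θ ^ k * ρ (l - k) * μ i (c (l + 1)) / μ i (c l)) *
              (μ i (c k) * μ (c k) (c l)) := by ring
          _ ≤ (θ ^ k * ρ (l - k) * μ i (c (l + 1)) / μ i (c l)) * μ i (c l) :=
              mul_le_mul_of_nonneg_left h6 (div_nonneg (mul_nonneg (mul_nonneg
                (pow_nonneg hθ.le _) (hρ0 _)) hpr.le) hpl.le)
          _ = (θ ^ k * ρ (l - k)) * μ i (c (l + 1)) := by
              field_simp
      refine (sum_le_sum hterm).trans ?_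
      rw [← sum_mul]
      refine mul_le_mul_of_nonneg_right ?_ hpr.le
      have h9 := hsum l hls
      have h10 : ∑ k ∈ range (l + 1), θ ^ k * ρ (l - k) =
          θ ^ l * ∑ j ∈ range (l + 1), ρ j * (θ⁻¹) ^ j := by
        rw [mul_sum, ← Finset.sum_range_reflect]
        refine sum_congr rfl fun j hj => ?_
        have hjl : j ≤ l := Nat.lt_succ_iff.1 (mem_range.1 hj)
        have e1 : l + 1 - 1 - j = l - j := by omega
        have e2 : l - (l - j) = j := by omega
        rw [e1, e2]
        have e3 : θ ^ l = θ ^ (l - j) * θ ^ j := by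
          rw [← pow_add]
          congr 1
          omega
        rw [e3, inv_pow]
        have h11 : θ ^ j ≠ 0 := pow_ne_zero _ hθ.ne'
        field_simp
      rw [h10, pow_succ]
      exact mul_le_mul_of_nonneg_left h9 (pow_nonneg hθ.le _)

end Pool.Agent.DL
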