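import Pool.Agent.DL.Defs3
import Pool.Agent.DL.RNA

/-!
# The homogeneous renewal: definitions
-/

set_option autoImplicit false
set_option linter.unusedSectionVars false

namespace Pool.Agent.DL

open Finset
open scoped ENNReal

/-- The part of the heights in `[i, j)`. -/
def bt {D : ℕ} (c : Pr D) (i j : ℕ) : Pr D :=
  (c.1.filter fun x => (i : ℤ) ≤ x.1 ∧ x.1 < j,
    c.2.filter fun e => (i : ℤ) ≤ ((lat D).s e).1 ∧ ((lat D).t e).1 < j)

/-- The weight of the part of the heights in `[i, j)`, without defect. -/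
noncomputable def mu (D : ℕ) (q β : ℝ) (c : Pr D) (i j : ℕ) : ℝ :=
  if i = j then 1 else
    (Real.exp β - 1) / q * (WW D q β 1 (bt c i j).1 (bt c i j).2 * ZI D q β 1 (bt c i j).1)

/-- The cuts: `k` if the heights `k - 1` and `k` are joined by exactly one edge. -/
def cp {D : ℕ} (c : Pr D) (n : ℕ) : Finset ℕ :=
  (Finset.Ico 1 n).filter fun k => (upE c.2 ((k : ℤ) - 1)).card = 1

/-- The cuts and the ends. -/
def ce {D : ℕ} (c : Pr D) (n : ℕ) : Set ℕ := {k | k = 0 ∨ k = n ∨ k ∈ cp c n}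

/-- `c` is a cluster with heights in `[0, n)` which contains `0` and `(n - 1, x)`. -/
def Cf {D : ℕ} (n : ℕ) (x : Tv D) (c : Pr D) : Prop :=
  (lat D).IsCl c.1 c.2 ∧ ((0, 0) : Site D) ∈ c.1 ∧ (((n : ℤ) - 1, x) : Site D) ∈ c.1 ∧
    abv 0 c ∧ bel ((n : ℤ) - 1) c

/-- The weight of `c` without renewal. -/
noncomputable def bR (D : ℕ) (q β : ℝ) (c : Pr D) (n : ℕ) : ℝ := BT (mu D q β c) (cp c n) 0 n

/-- The weight of the clusters with heights in `[0, n)` from `0` to `(n - 1, x)`. -/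
noncomputable def tC (D : ℕ) (q β : ℝ) (n : ℕ) (x : Tv D) : ℝ≥0∞ :=
  ∑' c : Pr D, ii (Cf n x c) * ENNReal.ofReal (mu D q β c 0 n)

/-- The same without renewal. -/
noncomputable def bC (D : ℕ) (q β : ℝ) (n : ℕ) (x : Tv D) : ℝ≥0∞ :=
  ∑' c : Pr D, ii (Cf n x c) * ENNReal.ofReal (bR D q β c n)

end Pool.Agent.DL
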