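import Pool.Agent.DL.FKE
import Pool.Agent.DL.Pw
import Pool.Agent.SB.Fek
import Pool.Agent.DL.Dc
import Pool.Agent.DL.Dec

/-!
# The inverse of the generating function is Lipschitz in the coupling of the line (row D6)
-/

set_option autoImplicit false
set_option linter.unusedSectionVars false

namespace Pool.Agent.DL

open Finset
open scoped ENNReal

namespace Df

/-! ### A real lemma -/

theorem df_core (S : ℝ → ℝ) (a b C : ℝ) (hab : a ≤ b) (hC : 0 ≤ C)
    (h1 : ∀ s ∈ Set.Icc a b, 1 ≤ S s)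
    (hm : ∀ s ∈ Set.Icc a b, ∀ t ∈ Set.Icc a b, s ≤ t → S s ≤ S t)
    (hS : ∀ s ∈ Set.Icc a b, ∀ t ∈ Set.Icc a b, s ≤ t → S t ≤ S s + (t - s) * C * S t ^ 2) :
    (S a)⁻¹ ≤ (S b)⁻¹ + 2 * C * (b - a) := by
  have hb : b ∈ Set.Icc a b := ⟨hab, le_rfl⟩
  have hM0 : 0 < S b := by linarith [h1 b hb]
  obtain ⟨n, hn⟩ := exists_nat_ge (max 1 ((b - a) * C * S b ^ 2))
  have hn1 : (1 : ℝ) ≤ n := (le_max_left _ _).trans hn
  have hn2 : (b - a) * C * S b ^ 2 ≤ n := (le_max_right _ _).trans hn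
  have hn0 : (0 : ℝ) < n := by linarith
  set d := (b - a) / n with hd
  have hd0 : 0 ≤ d := div_nonneg (by linarith) hn0.le
  have hnd : n * d = b - a := by
    rw [hd]
    field_simp
  have hdM : d * C * S b ^ 2 ≤ 1 := by
    rw [hd]
    have : (b - a) / n * C * S b ^ 2 = ((b - a) * C * S b ^ 2) / n := by ring
    rw [this, div_le_one hn0]
    exact hn2
  have hmem : ∀ i : ℕ, i ≤ n → a + i * d ∈ Set.Icc a b := by
    intro i hi
    have hi' : (i : ℝ) ≤ n := by exact_mod_cast hi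
    constructor
    · have : 0 ≤ (i : ℝ) * d := mul_nonneg (Nat.cast_nonneg _) hd0
      linarith
    · have : (i : ℝ) * d ≤ n * d := mul_le_mul_of_nonneg_right hi' hd0
      linarith
  have key : ∀ i : ℕ, i ≤ n → (S a)⁻¹ ≤ (S (a + i * d))⁻¹ + 2 * C * (i * d) := by
    intro i
    induction i with
    | zero =>
      intro _
      simp
    | succ i ih =>
      intro hi
      have ih' := ih (by omega)
      have hs := hmem i (by omega)
      have ht := hmem (i + 1) hi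
      have hst : a + i * d ≤ a + ((i + 1 : ℕ) : ℝ) * d := by
        push_cast
        nlinarith
      set s := a + i * d with hs'
      set t := a + ((i + 1 : ℕ) : ℝ) * d with ht'
      have htd : t - s = d := by
        rw [ht', hs']
        push_cast
        ring
      have e1 := hS s hs t ht hst
      rw [htd] at e1
      have s1 := h1 s hs
      have t1 := h1 t ht
      have s0 : 0 < S s := by linarith
      have t0 : 0 < S t := by linarith
      have e2 : S t ≤ S b := hm t ht b hb ht.2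
      have e3 : d * C * S t ^ 2 ≤ 1 := by
        refine le_trans ?_ hdM
        exact mul_le_mul_of_nonneg_left (pow_le_pow_left₀ t0.le e2 2) (mul_nonneg hd0 hC)
      have e4 : S t ≤ 2 * S s := by linarith
      have e5 : (S s)⁻¹ ≤ (S t)⁻¹ + 2 * C * d := by
        have e6 : (S s)⁻¹ - (S t)⁻¹ = (S t - S s) / (S s * S t) := by
          field_simp
        have e7 : (S t - S s) / (S s * S t) ≤ 2 * C * d := by
          rw [div_le_iff₀ (mul_pos s0 t0)]
          have e8 : S t - S s ≤ d * C * S t ^ 2 := by linarith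
          have e9 : d * C * S t ^ 2 ≤ 2 * C * d * (S s * S t) := by
            have : d * C * S t * S t ≤ d * C * S t * (2 * S s) :=
              mul_le_mul_of_nonneg_left e4 (mul_nonneg (mul_nonneg hd0 hC) t0.le)
            nlinarith
          linarith
        linarith
      have e6 : 2 * C * (((i + 1 : ℕ) : ℝ) * d) = 2 * C * (i * d) + 2 * C * d := by
        push_cast
        ring
      rw [e6]
      linarith
  have := key n le_rfl
  rw [hnd] at this
  have hab' : a + (b - a) = b := by ring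
  rw [hab'] at this
  exact this

/-! ### The derivative in the coupling of the line -/

section der

variable {D : ℕ} {q β : ℝ}

theorem df_hasDerivAt (h : Bas D q β) (J : ℝ) (hJ : 1 ≤ J) (Λ : Finset (Site D))
    (x y : Site D) :
    HasDerivAt (fun s => TT D q β s Λ x y)
      (β * Real.exp (β * J) / (Real.exp (β * J) - 1) * ∑ e ∈ (edg Λ).filter OnL,
        (PP D q β J Λ (fun ω => (lat D).Rch ω x y ∧ e ∈ ω) -
          TT D q β J Λ x y * PP D q β J Λ (fun ω => e ∈ ω))) J := by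
  have hq0 : 0 < q := by linarith [h.hq]
  have hr : 0 < Real.exp (β * J) - 1 := by
    have : 0 < β * J := mul_pos h.hβ (by linarith)
    linarith [Real.add_one_lt_exp this.ne']
  have := (lat D).hasDerivAt_pr q hq0 (edg Λ) ((edg Λ).filter OnL) (fun s => vJ β s)
    (Real.exp (β * J) - 1) (β * Real.exp (β * J)) J
    (fun e => pw_vJ_nonneg h.hβ.le (by linarith) e) hr (Finset.filter_subset _ _) ?_ ?_
    (fun ω => (lat D).Rch ω x y)
  · exact this
  · intro e he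
    rw [Finset.mem_filter] at he
    constructor
    · show vJ β J e = _
      unfold vJ
      rw [if_pos he.2]
    · have e1 : (fun s => vJ β s e) = fun s => Real.exp (β * s) - 1 := by
        funext s
        unfold vJ
        rw [if_pos he.2]
      show HasDerivAt (fun s => vJ β s e) _ _
      rw [e1]
      have e2 : HasDerivAt (fun s => β * s) β J := by
        simpa using (hasDerivAt_id J).const_mul β
      have e3 := (e2.exp).sub_const 1
      rw [mul_comm β (Real.exp (β * J))]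
      exact e3
  · intro e he hn s
    show vJ β s e = vJ β J e
    have : ¬ OnL e := fun h' => hn (Finset.mem_filter.2 ⟨he, h'⟩)
    unfold vJ
    rw [if_neg this, if_neg this]

theorem df_deriv_le (h : Bas D q β) (J1 J : ℝ) (hJ : 1 ≤ J) (hJ1 : J ≤ J1)
    (Λ : Finset (Site D)) (x y : Site D) :
    β * Real.exp (β * J) / (Real.exp (β * J) - 1) * ∑ e ∈ (edg Λ).filter OnL,
        (PP D q β J Λ (fun ω => (lat D).Rch ω x y ∧ e ∈ ω) -
          TT D q β J Λ x y * PP D q β J Λ (fun ω => e ∈ ω)) ≤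
      β * Real.exp (β * J1) / (Real.exp β - 1) * ∑ e ∈ (edg Λ).filter OnL,
        PP D q β J Λ (fun ω => (lat D).Rch ω x y ∧ (lat D).Rch ω x e.1) := by
  have hq0 : 0 < q := by linarith [h.hq]
  have hJ0 : 0 ≤ J := by linarith
  have hv : ∀ e : Edge D, 0 ≤ vJ β J e := fun e => pw_vJ_nonneg h.hβ.le hJ0 e
  have hb0 : 0 < Real.exp β - 1 := by linarith [Real.add_one_lt_exp h.hβ.ne', h.hβ]
  have hβ0 := h.hβ
  have h1 : Real.exp β ≤ Real.exp (β * J) :=
    Real.exp_le_exp.2 (le_mul_of_one_le_right h.hβ.le hJ)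
  have h2 : Real.exp (β * J) ≤ Real.exp (β * J1) :=
    Real.exp_le_exp.2 (mul_le_mul_of_nonneg_left hJ1 h.hβ.le)
  have h3 : β * Real.exp (β * J) / (Real.exp (β * J) - 1) ≤
      β * Real.exp (β * J1) / (Real.exp β - 1) := by
    apply div_le_div₀
    · exact mul_nonneg h.hβ.le (Real.exp_pos _).le
    · exact mul_le_mul_of_nonneg_left h2 h.hβ.le
    · exact hb0
    · linarith
  have h4 : (∑ e ∈ (edg Λ).filter OnL,
        (PP D q β J Λ (fun ω => (lat D).Rch ω x y ∧ e ∈ ω) -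
          TT D q β J Λ x y * PP D q β J Λ (fun ω => e ∈ ω))) ≤
      ∑ e ∈ (edg Λ).filter OnL,
        PP D q β J Λ (fun ω => (lat D).Rch ω x y ∧ (lat D).Rch ω x e.1) := by
    refine Finset.sum_le_sum fun e _ => ?_
    refine ((lat D).cov_le q (vJ β J) h.hq hv (edg Λ) x y e).trans ?_
    exact (lat D).pr_le q (vJ β J) hq0 hv (edg Λ) _ _ fun ω _ h' => ⟨h'.1, h'.2.2⟩
  have h5 : 0 ≤ ∑ e ∈ (edg Λ).filter OnL,
      PP D q β J Λ (fun ω => (lat D).Rch ω x y ∧ (lat D).Rch ω x e.1) :=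
    Finset.sum_nonneg fun e _ => (lat D).pr_nonneg q (vJ β J) hq0 hv (edg Λ) _
  have h6 : 0 ≤ β * Real.exp (β * J) / (Real.exp (β * J) - 1) :=
    div_nonneg (mul_nonneg h.hβ.le (Real.exp_pos _).le) (by linarith)
  exact (mul_le_mul_of_nonneg_left h4 h6).trans (mul_le_mul_of_nonneg_right h3 h5)

end der

/-! ### Sums over the line -/

section sums

variable {D : ℕ}

theorem df_ii (p : Prop) : ii p ≤ 1 := by
  unfold ii
  split_ifs
  · exact le_rfl
  · exact zero_le_one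

theorem df_line (Λ : Finset (Site D)) (x y : Site D) (c : Pr D) :
    (∑ e ∈ (edg Λ).filter OnL, ii (x ∈ c.1 ∧ y ∈ c.1 ∧ e.1 ∈ c.1)) ≤
      ii (x ∈ c.1 ∧ y ∈ c.1) * ∑ z ∈ c.1, ii (z.2 = 0) := by
  classical
  by_cases hxy : x ∈ c.1 ∧ y ∈ c.1
  swap
  · have h1 : ∀ e ∈ (edg Λ).filter OnL, ii (x ∈ c.1 ∧ y ∈ c.1 ∧ e.1 ∈ c.1) = 0 := by
      intro e _
      unfold ii
      rw [if_neg]
      exact fun h => hxy ⟨h.1, h.2.1⟩
    rw [Finset.sum_eq_zero h1]
    exact zero_le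
  · have h1 : ii (x ∈ c.1 ∧ y ∈ c.1) = 1 := by
      unfold ii
      rw [if_pos hxy]
    rw [h1, one_mul]
    have h2 : (∑ e ∈ (edg Λ).filter OnL, ii (x ∈ c.1 ∧ y ∈ c.1 ∧ e.1 ∈ c.1)) =
        ∑ e ∈ ((edg Λ).filter OnL).filter (fun e => e.1 ∈ c.1), ii (e.1.2 = 0) := by
      rw [Finset.sum_filter (fun e : Edge D => e.1 ∈ c.1)]
      refine Finset.sum_congr rfl fun e he => ?_
      rw [Finset.mem_filter] at he
      have h3 : e.1.2 = 0 := he.2.2
      unfold ii
      rw [if_pos h3]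
      by_cases h4 : e.1 ∈ c.1
      · rw [if_pos ⟨hxy.1, hxy.2, h4⟩, if_pos h4]
      · rw [if_neg (fun h => h4 h.2.2), if_neg h4]
    rw [h2]
    have h3 : Set.InjOn (fun e : Edge D => e.1)
        (((edg Λ).filter OnL).filter (fun e => e.1 ∈ c.1) : Finset (Edge D)) := by
      intro e he e' he' hee
      rw [Finset.mem_coe, Finset.mem_filter, Finset.mem_filter] at he he'
      exact Prod.ext hee (he.1.2.1.trans he'.1.2.1.symm)
    have h4 := Finset.sum_image (f := fun z : Site D => ii (z.2 = 0))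
      (s := ((edg Λ).filter OnL).filter (fun e => e.1 ∈ c.1)) (g := fun e : Edge D => e.1) h3
    rw [← h4]
    refine Finset.sum_le_sum_of_subset ?_
    intro z hz
    rw [Finset.mem_image] at hz
    obtain ⟨e, he, rfl⟩ := hz
    rw [Finset.mem_filter] at he
    exact he.2

theorem df_nt_neg (w : Tv D) : SB.nt (-w) = SB.nt w := by
  unfold SB.nt
  refine Finset.sum_congr rfl fun i _ => ?_
  rw [Pi.neg_apply, Int.natAbs_neg]

theorem df_Ek (c : ℝ) (u w : Tv D) :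
    Ek (fun b : Tv D => ii (b = 0)) c u w = ex c (SB.nt u) * ex c (SB.nt w) := by
  unfold Ek
  rw [tsum_eq_single 0]
  · have h1 : ii ((0 : Tv D) = 0) = 1 := by
      unfold ii
      rw [if_pos rfl]
    show ii ((0 : Tv D) = 0) * ex c (SB.nt (u - 0)) * ex c (SB.nt (0 - w)) = _
    rw [h1, one_mul, sub_zero, zero_sub, df_nt_neg]
  · intro b hb
    have h1 : ii (b = 0) = 0 := by
      unfold ii
      rw [if_neg hb]
    show ii (b = 0) * ex c (SB.nt (u - b)) * ex c (SB.nt (b - w)) = 0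
    rw [h1, zero_mul, zero_mul]

theorem df_ex_zero (c : ℝ) : ex c (SB.nt (0 : Tv D)) = 1 := by
  have : SB.nt (0 : Tv D) = 0 := by
    unfold SB.nt
    simp
  unfold ex
  rw [this]
  simp

theorem df_ex_sum (D : ℕ) {c : ℝ} (hc : 0 < c) : ∑' y : Tv D, ex c (SB.nt y) ≠ ⊤ := by
  have h1 := SB.summable_nt D (Real.exp (-c)) (Real.exp_pos _).le
    (by rw [Real.exp_lt_one_iff]; linarith)
  have h2 : (fun y : Tv D => ex c (SB.nt y)) =
      fun y : Tv D => ENNReal.ofReal (Real.exp (-c) ^ SB.nt y) := by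
    funext y
    unfold ex
    rw [← Real.exp_nat_mul]
    congr 2
    ring
  rw [h2]
  exact h1.tsum_ofReal_ne_top

end sums

/-! ### The bound of the derivative -/

section bound

variable {D : ℕ} {q β : ℝ}

theorem df_SG_eq {J1 : ℝ} (h : Reg D q β J1) (J : ℝ) (hJ : 1 ≤ J) (hJ1 : J ≤ J1) {z : ℝ≥0∞}
    (hz : z ≠ ⊤) (L : ℕ) :
    SG D q β J z L 0 0 = ENNReal.ofReal (∑ n ∈ range (L + 1), z.toReal ^ n *
      GG D q β J (0, 0) ((n : ℤ), 0)) := by
  have hB := h.toBas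
  unfold SG
  rw [ENNReal.ofReal_sum_of_nonneg]
  · refine Finset.sum_congr rfl fun n _ => ?_
    rw [GN_eq h J hJ hJ1, ENNReal.ofReal_mul (pow_nonneg ENNReal.toReal_nonneg _),
      ENNReal.ofReal_pow ENNReal.toReal_nonneg, ENNReal.ofReal_toReal hz]
  · intro n _
    exact mul_nonneg (pow_nonneg ENNReal.toReal_nonneg _)
      (pw_GG_nonneg hB (by linarith) _ _)

theorem df_one_le_SG {J1 : ℝ} (h : Reg D q β J1) (J : ℝ) (hJ : 1 ≤ J) (hJ1 : J ≤ J1) (z : ℝ≥0∞)
    (L : ℕ) : 1 ≤ SG D q β J z L 0 0 := by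
  have hB := h.toBas
  unfold SG
  refine le_trans ?_ (Finset.single_le_sum (f := fun n => z ^ n * GN D q β J n 0 0)
    (fun _ _ => zero_le) (Finset.mem_range.2 (Nat.succ_pos L)))
  simp only [pow_zero, one_mul]
  rw [GN_eq h J hJ hJ1]
  have h1 : GG D q β J ((0 : ℤ), (0 : Tv D)) (((0 : ℕ) : ℤ), (0 : Tv D)) = 1 := by
    rw [Nat.cast_zero]
    exact pw_GG_self hB (by linarith) _
  rw [h1, ENNReal.ofReal_one]

/-- The sum of the three-point functions over the line. -/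
theorem df_sum_le {J1 : ℝ} (h : Reg D q β J1) (hB : S1B D q β) :
    ∃ δ C : ℝ, 0 < δ ∧ 0 < C ∧ ∀ J, Jok D q β J1 δ J → ∀ z ≤ zc D q β, ∀ (L : ℕ)
      (Λ : Finset (Site D)),
      ∑ n ∈ range (L + 1), z ^ n * ∑ e ∈ (edg Λ).filter OnL, ENNReal.ofReal
        (PP D q β J Λ fun ω => (lat D).Rch ω ((0 : ℤ), (0 : Tv D)) ((n : ℤ), (0 : Tv D)) ∧
          (lat D).Rch ω ((0 : ℤ), (0 : Tv D)) e.1) ≤
        ENNReal.ofReal C * SG D q β J z L 0 0 ^ 2 := by
  obtain ⟨δ1, C1, c, hδ1, hC1, hc, H1⟩ := mark h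
  obtain ⟨δ2, C2, hδ2, hC2, H2⟩ := sup_le h hB
  set A : ℝ≥0∞ := ∑' y : Tv D, ex c (SB.nt y) with hA
  have hAt : A ≠ ⊤ := df_ex_sum D hc
  set K : ℝ≥0∞ := ENNReal.ofReal C1 * (1 + ENNReal.ofReal C2 * A) ^ 2 with hK
  have hKt : K ≠ ⊤ := ENNReal.mul_ne_top ENNReal.ofReal_ne_top (ENNReal.pow_ne_top
    (ENNReal.add_ne_top.2 ⟨ENNReal.one_ne_top, ENNReal.mul_ne_top ENNReal.ofReal_ne_top hAt⟩))
  refine ⟨min δ1 δ2, K.toReal + 1, lt_min hδ1 hδ2, by positivity, ?_⟩
  intro J hJ z hz L Λ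
  have hJ1' : Jok D q β J1 δ1 J := ⟨hJ.h1, hJ.h2, by linarith [hJ.h3, min_le_left δ1 δ2]⟩
  have hJ2' : Jok D q β J1 δ2 J := ⟨hJ.h1, hJ.h2, by linarith [hJ.h3, min_le_right δ1 δ2]⟩
  set S := SG D q β J z L 0 0 with hS
  have hS1 : 1 ≤ S := df_one_le_SG h J hJ.h1 hJ.h2 z L
  have hSG : ∀ u w, SG D q β J z L u w ≤ ENNReal.ofReal C2 * S := H2 J hJ2' z hz L
  -- the sum over the line as a mark
  have e1 : (∑ n ∈ range (L + 1), z ^ n * ∑ e ∈ (edg Λ).filter OnL, ENNReal.ofReal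
        (PP D q β J Λ fun ω => (lat D).Rch ω ((0 : ℤ), (0 : Tv D)) ((n : ℤ), (0 : Tv D)) ∧
          (lat D).Rch ω ((0 : ℤ), (0 : Tv D)) e.1)) ≤
      ∑ n ∈ range (L + 1), z ^ n * sm D q β J (fun c' =>
        ii (((0, (0 : Tv D)) : Site D) ∈ c'.1 ∧ (((n : ℤ), (0 : Tv D)) : Site D) ∈ c'.1) *
          ∑ x ∈ c'.1, (fun b : Tv D => ii (b = 0)) x.2) := by
    refine Finset.sum_le_sum fun n _ => mul_le_mul_right ?_ _
    calc (∑ e ∈ (edg Λ).filter OnL, ENNReal.ofReal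
        (PP D q β J Λ fun ω => (lat D).Rch ω ((0 : ℤ), (0 : Tv D)) ((n : ℤ), (0 : Tv D)) ∧
          (lat D).Rch ω ((0 : ℤ), (0 : Tv D)) e.1))
        ≤ ∑ e ∈ (edg Λ).filter OnL, sm D q β J (fun c => ii (((0 : ℤ), (0 : Tv D)) ∈ c.1 ∧
            (((n : ℤ), (0 : Tv D)) : Site D) ∈ c.1 ∧ e.1 ∈ c.1)) :=
          Finset.sum_le_sum fun e _ => three_le h J hJ.h1 hJ.h2 Λ _ _ _
      _ = sm D q β J (fun c => ∑ e ∈ (edg Λ).filter OnL, ii (((0 : ℤ), (0 : Tv D)) ∈ c.1 ∧
            (((n : ℤ), (0 : Tv D)) : Site D) ∈ c.1 ∧ e.1 ∈ c.1)) := by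
          unfold sm
          rw [← Summable.tsum_finsetSum (fun _ _ => ENNReal.summable)]
          refine tsum_congr fun c => ?_
          rw [Finset.mul_sum]
      _ ≤ _ := by
          unfold sm
          refine ENNReal.tsum_le_tsum fun c => mul_le_mul_right ?_ _
          exact df_line Λ _ _ c
  refine e1.trans ((H1 J hJ1' z hz L (fun b : Tv D => ii (b = 0)) 0 0).trans ?_)
  simp only [df_Ek, df_ex_zero, one_mul, mul_one]
  have e2 : (∑' y : Tv D, ex c (SB.nt y) * SG D q β J z L y 0) ≤ A * (ENNReal.ofReal C2 * S) := by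
    rw [hA, ← ENNReal.tsum_mul_right]
    exact ENNReal.tsum_le_tsum fun y => mul_le_mul_right (hSG y 0) _
  have e3 : (∑' y : Tv D, SG D q β J z L 0 y * ex c (SB.nt y)) ≤ A * (ENNReal.ofReal C2 * S) := by
    rw [hA, ← ENNReal.tsum_mul_right]
    refine ENNReal.tsum_le_tsum fun y => ?_
    rw [mul_comm]
    exact mul_le_mul_right (hSG 0 y) _
  have e4 : (∑' y : Tv D, ∑' y' : Tv D, SG D q β J z L 0 y * (ex c (SB.nt y) * ex c (SB.nt y')) *
      SG D q β J z L y' 0) ≤ (A * (ENNReal.ofReal C2 * S)) ^ 2 := by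
    rw [sq, hA, ← ENNReal.tsum_mul_right, ← ENNReal.tsum_mul_right]
    refine ENNReal.tsum_le_tsum fun y => ?_
    rw [← ENNReal.tsum_mul_left]
    refine ENNReal.tsum_le_tsum fun y' => ?_
    calc SG D q β J z L 0 y * (ex c (SB.nt y) * ex c (SB.nt y')) * SG D q β J z L y' 0
        ≤ (ENNReal.ofReal C2 * S) * (ex c (SB.nt y) * ex c (SB.nt y')) *
            (ENNReal.ofReal C2 * S) := by
          gcongr
          · exact hSG 0 y
          · exact hSG y' 0
      _ = _ := by ring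
  have e5 : K ≤ ENNReal.ofReal (K.toReal + 1) := by
    rw [ENNReal.ofReal_add ENNReal.toReal_nonneg zero_le_one, ENNReal.ofReal_toReal hKt]
    exact le_self_add
  refine le_trans ?_ (mul_le_mul_left e5 _)
  rw [hK, mul_assoc]
  refine mul_le_mul_right ?_ _
  calc (1 + ∑' y : Tv D, ex c (SB.nt y) * SG D q β J z L y 0 +
        ∑' y : Tv D, SG D q β J z L 0 y * ex c (SB.nt y) +
        ∑' y : Tv D, ∑' y' : Tv D, SG D q β J z L 0 y * (ex c (SB.nt y) * ex c (SB.nt y')) *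
          SG D q β J z L y' 0)
      ≤ S ^ 2 + A * (ENNReal.ofReal C2 * S) * S + A * (ENNReal.ofReal C2 * S) * S +
          (A * (ENNReal.ofReal C2 * S)) ^ 2 := by
        gcongr
        · exact one_le_pow₀ hS1
        · exact e2.trans (le_mul_of_one_le_right' hS1)
        · exact e3.trans (le_mul_of_one_le_right' hS1)
    _ = (1 + ENNReal.ofReal C2 * A) ^ 2 * S ^ 2 := by ring

theorem df_tendsto (h : Bas D q β) (J : ℝ) (hJ : 0 ≤ J) (x y : Site D) :
    Filter.Tendsto (fun Λ : Finset (Site D) => TT D q β J Λ x y) Filter.atTop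
      (nhds (GG D q β J x y)) := by
  refine tendsto_atTop_ciSup (fun Λ Λ' hΛ => pw_TT_mono h hJ hΛ x y) (pw_bdd h hJ x y)

theorem df_SG_lip {J1 : ℝ} (h : Reg D q β J1) (hB : S1B D q β) :
    ∃ δ C : ℝ, 0 < δ ∧ 0 < C ∧ ∀ J J', J ≤ J' → Jok D q β J1 δ J → Jok D q β J1 δ J' →
      ∀ z ≤ zc D q β, ∀ L,
      (SG D q β J z L 0 0)⁻¹ ≤ (SG D q β J' z L 0 0)⁻¹ + ENNReal.ofReal (C * (J' - J)) := by
  have hb := h.toBas
  obtain ⟨δ, C0, hδ, hC0, H⟩ := df_sum_le h hB
  have hb0 : 0 < Real.exp β - 1 := by linarith [Real.add_one_lt_exp hb.hβ.ne', hb.hβ]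
  set K := β * Real.exp (β * J1) / (Real.exp β - 1) with hK
  have hK0 : 0 < K := div_pos (mul_pos hb.hβ (Real.exp_pos _)) hb0
  refine ⟨δ, 2 * (K * C0), hδ, by positivity, ?_⟩
  intro J J' hJJ hJ hJ' z hz L
  have hzt : z ≠ ⊤ := ne_top_of_le_ne_top ENNReal.ofReal_ne_top hz
  set ζ := z.toReal with hζ
  have hζ0 : 0 ≤ ζ := ENNReal.toReal_nonneg
  have hzζ : z = ENNReal.ofReal ζ := (ENNReal.ofReal_toReal hzt).symm
  set S : ℝ → ℝ := fun s => ∑ n ∈ range (L + 1), ζ ^ n *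
    GG D q β s ((0 : ℤ), (0 : Tv D)) ((n : ℤ), (0 : Tv D)) with hS
  have hok : ∀ s ∈ Set.Icc J J', Jok D q β J1 δ s := by
    intro s hs
    refine ⟨hJ.h1.trans hs.1, hs.2.trans hJ'.h2, hJ'.h3.trans ?_⟩
    exact xiR_anti hb (hJ.h1.trans hs.1) hs.2
  have hSG : ∀ s ∈ Set.Icc J J', SG D q β s z L 0 0 = ENNReal.ofReal (S s) := fun s hs =>
    df_SG_eq h s (hok s hs).h1 (hok s hs).h2 hzt L
  have h1 : ∀ s ∈ Set.Icc J J', 1 ≤ S s := by
    intro s hs
    have := df_one_le_SG h s (hok s hs).h1 (hok s hs).h2 z L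
    rw [hSG s hs] at this
    exact ENNReal.one_le_ofReal.1 this
  have hm : ∀ s ∈ Set.Icc J J', ∀ t ∈ Set.Icc J J', s ≤ t → S s ≤ S t := by
    intro s hs t _ hst
    refine Finset.sum_le_sum fun n _ => mul_le_mul_of_nonneg_left ?_ (pow_nonneg hζ0 n)
    exact pw_GG_mono hb (by linarith [(hok s hs).h1]) hst _ _
  have hlip : ∀ s ∈ Set.Icc J J', ∀ t ∈ Set.Icc J J', s ≤ t →
      S t ≤ S s + (t - s) * (K * C0) * S t ^ 2 := by
    intro s hs t ht hst
    set Φ : Finset (Site D) → ℝ → ℝ := fun Λ r => ∑ n ∈ range (L + 1), ζ ^ n *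
      TT D q β r Λ ((0 : ℤ), (0 : Tv D)) ((n : ℤ), (0 : Tv D)) with hΦ
    have hΦS : ∀ Λ, ∀ r ∈ Set.Icc J J', Φ Λ r ≤ S r := by
      intro Λ r hr
      refine Finset.sum_le_sum fun n _ => mul_le_mul_of_nonneg_left ?_ (pow_nonneg hζ0 n)
      exact TT_le_GG hb (by linarith [(hok r hr).h1]) Λ _ _
    have hlim : Filter.Tendsto (fun Λ => Φ Λ t) Filter.atTop (nhds (S t)) := by
      refine tendsto_finsetSum _ fun n _ => ?_
      exact (df_tendsto hb t (by linarith [(hok t ht).h1]) _ _).const_mul _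
    refine le_of_tendsto' hlim fun Λ => ?_
    set dd : ℝ → ℝ := fun r => ∑ n ∈ range (L + 1), ζ ^ n *
      (β * Real.exp (β * r) / (Real.exp (β * r) - 1) * ∑ e ∈ (edg Λ).filter OnL,
        (PP D q β r Λ (fun ω => (lat D).Rch ω ((0 : ℤ), (0 : Tv D)) ((n : ℤ), (0 : Tv D)) ∧
          e ∈ ω) - TT D q β r Λ ((0 : ℤ), (0 : Tv D)) ((n : ℤ), (0 : Tv D)) *
            PP D q β r Λ (fun ω => e ∈ ω))) with hdd
    have hder : ∀ r, 1 ≤ r → HasDerivAt (Φ Λ) (dd r) r := by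
      intro r hr
      have := HasDerivAt.fun_sum (u := range (L + 1)) (A := fun n s => ζ ^ n *
        TT D q β s Λ ((0 : ℤ), (0 : Tv D)) ((n : ℤ), (0 : Tv D))) (x := r)
        (A' := fun n => ζ ^ n *
      (β * Real.exp (β * r) / (Real.exp (β * r) - 1) * ∑ e ∈ (edg Λ).filter OnL,
        (PP D q β r Λ (fun ω => (lat D).Rch ω ((0 : ℤ), (0 : Tv D)) ((n : ℤ), (0 : Tv D)) ∧
          e ∈ ω) - TT D q β r Λ ((0 : ℤ), (0 : Tv D)) ((n : ℤ), (0 : Tv D)) *
            PP D q β r Λ (fun ω => e ∈ ω))))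
        (fun n _ => (df_hasDerivAt hb r hr Λ _ _).const_mul _)
      exact this
    have hbd : ∀ r ∈ Set.Icc s t, dd r ≤ (K * C0) * S t ^ 2 := by
      intro r hr
      have hr' : r ∈ Set.Icc J J' := ⟨hs.1.trans hr.1, hr.2.trans ht.2⟩
      have hr1 := (hok r hr').h1
      have e1 : dd r ≤ K * ∑ n ∈ range (L + 1), ζ ^ n * ∑ e ∈ (edg Λ).filter OnL,
          PP D q β r Λ (fun ω => (lat D).Rch ω ((0 : ℤ), (0 : Tv D)) ((n : ℤ), (0 : Tv D)) ∧
            (lat D).Rch ω ((0 : ℤ), (0 : Tv D)) e.1) := by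
        rw [Finset.mul_sum]
        refine Finset.sum_le_sum fun n _ => ?_
        rw [mul_left_comm K]
        refine mul_le_mul_of_nonneg_left ?_ (pow_nonneg hζ0 n)
        exact df_deriv_le hb J1 r hr1 (hok r hr').h2 Λ _ _
      have hPP : ∀ n : ℕ, ∀ e : Edge D, 0 ≤ PP D q β r Λ (fun ω =>
          (lat D).Rch ω ((0 : ℤ), (0 : Tv D)) ((n : ℤ), (0 : Tv D)) ∧
            (lat D).Rch ω ((0 : ℤ), (0 : Tv D)) e.1) := fun n e =>
        (lat D).pr_nonneg q (vJ β r) (by linarith [hb.hq])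
          (fun e => pw_vJ_nonneg hb.hβ.le (by linarith) e) (edg Λ) _
      have e2 := H r (hok r hr') z hz L Λ
      rw [hSG r hr', ← ENNReal.ofReal_pow (by linarith [h1 r hr']),
        ← ENNReal.ofReal_mul hC0.le] at e2
      have e3 : (∑ n ∈ range (L + 1), z ^ n * ∑ e ∈ (edg Λ).filter OnL, ENNReal.ofReal
        (PP D q β r Λ fun ω => (lat D).Rch ω ((0 : ℤ), (0 : Tv D)) ((n : ℤ), (0 : Tv D)) ∧
          (lat D).Rch ω ((0 : ℤ), (0 : Tv D)) e.1)) = ENNReal.ofReal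
          (∑ n ∈ range (L + 1), ζ ^ n * ∑ e ∈ (edg Λ).filter OnL,
          PP D q β r Λ (fun ω => (lat D).Rch ω ((0 : ℤ), (0 : Tv D)) ((n : ℤ), (0 : Tv D)) ∧
            (lat D).Rch ω ((0 : ℤ), (0 : Tv D)) e.1)) := by
        rw [ENNReal.ofReal_sum_of_nonneg]
        · refine Finset.sum_congr rfl fun n _ => ?_
          rw [ENNReal.ofReal_mul (pow_nonneg hζ0 n), ENNReal.ofReal_pow hζ0, ← hzζ,
            ENNReal.ofReal_sum_of_nonneg (fun e _ => hPP n e)]
        · intro n _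
          exact mul_nonneg (pow_nonneg hζ0 n) (Finset.sum_nonneg fun e _ => hPP n e)
      rw [e3, ENNReal.ofReal_le_ofReal_iff (by have := h1 r hr'; positivity)] at e2
      have e4 : S r ≤ S t := hm r hr' t ht hr.2
      have e5 : S r ^ 2 ≤ S t ^ 2 := pow_le_pow_left₀ (by linarith [h1 r hr']) e4 2
      calc dd r ≤ K * (C0 * S r ^ 2) := e1.trans (mul_le_mul_of_nonneg_left e2 hK0.le)
        _ ≤ K * (C0 * S t ^ 2) := by gcongr
        _ = (K * C0) * S t ^ 2 := by ring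
    have hs1 := (hok s hs).h1
    have e6 := Convex.image_sub_le_mul_sub_of_deriv_le (convex_Icc s t) (f := Φ Λ)
      (fun r hr => (hder r (hs1.trans hr.1)).continuousAt.continuousWithinAt)
      (fun r hr => (hder r (hs1.trans (interior_subset hr).1)).differentiableAt.differentiableWithinAt)
      (C := (K * C0) * S t ^ 2)
      (fun r hr => by
        rw [(hder r (hs1.trans (interior_subset hr).1)).deriv]
        exact hbd r (interior_subset hr)) s (Set.left_mem_Icc.2 hst) t (Set.right_mem_Icc.2 hst) hst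
    have e7 := hΦS Λ s hs
    nlinarith
  have hcore := df_core S J J' (K * C0) hJJ (by positivity) h1 hm hlip
  have hJm : J ∈ Set.Icc J J' := ⟨le_rfl, hJJ⟩
  have hJm' : J' ∈ Set.Icc J J' := ⟨hJJ, le_rfl⟩
  have p1 : 0 < S J := by linarith [h1 J hJm]
  have p2 : 0 < S J' := by linarith [h1 J' hJm']
  rw [hSG J hJm, hSG J' hJm', ← ENNReal.ofReal_inv_of_pos p1, ← ENNReal.ofReal_inv_of_pos p2,
    ← ENNReal.ofReal_add (by positivity) (mul_nonneg (by positivity) (by linarith))]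
  refine ENNReal.ofReal_le_ofReal ?_
  linarith

end bound

end Df

open Df in
/-- Row D6: the inverse of the generating function is Lipschitz in the coupling. -/
theorem inv_lip {D : ℕ} {q β J1 : ℝ} (h : Reg D q β J1) (hB : S1B D q β) :
    ∃ δ C : ℝ, 0 < δ ∧ 0 < C ∧ ∀ J J', J ≤ J' → Jok D q β J1 δ J → Jok D q β J1 δ J' →
      ∀ z ≤ zc D q β,
      (GI D q β J z 0 0)⁻¹ ≤ (GI D q β J' z 0 0)⁻¹ + ENNReal.ofReal (C * (J' - J)) := by
  obtain ⟨δ, C, hδ, hC, H⟩ := df_SG_lip h hB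
  refine ⟨δ, C, hδ, hC, ?_⟩
  intro J J' hJJ hJ hJ' z hz
  have hlim : Filter.Tendsto (fun L : ℕ => (SG D q β J' z L 0 0)⁻¹ + ENNReal.ofReal (C * (J' - J)))
      Filter.atTop (nhds ((GI D q β J' z 0 0)⁻¹ + ENNReal.ofReal (C * (J' - J)))) := by
    refine Filter.Tendsto.add_const _ (tendsto_inv_iff.2 ?_)
    have e1 := ENNReal.tendsto_nat_tsum (fun n => z ^ n * GN D q β J' n 0 0)
    exact (Filter.tendsto_add_atTop_iff_nat 1).2 e1
  refine ge_of_tendsto' hlim fun L => ?_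
  refine le_trans ?_ (H J J' hJJ hJ hJ' z hz L)
  exact ENNReal.inv_le_inv.2 (ENNReal.sum_le_tsum _)

end Pool.Agent.DL
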