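import Pool.Agent.DL.FKE
import Pool.Agent.DL.Gs
import Pool.Agent.DL.Shi

/-!
# Growth of the two-point function with the coupling of the line: finite steps
-/

set_option autoImplicit false
set_option linter.unusedSectionVars false

namespace Pool.Agent.DL

open Finset
open scoped ENNReal NNReal

namespace Dg

section Graph

variable {V ι : Type} [DecidableEq V] [DecidableEq ι] (G : Gr V ι) (q : ℝ) (v : ι → ℝ)

/-- Two clusters. -/
theorem pr_two (hq : 0 < q) (hv : ∀ e, 0 ≤ v e) (Ed : Finset ι) {A B : Finset V}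
    {E F : Finset ι} (hA : G.IsCl A E) (hB : G.IsCl B F) (hE : E ⊆ Ed) (hF : F ⊆ Ed)
    (hAB : Disjoint A B) :
    G.pr q v Ed (fun ω => G.tch A ω = E ∧ G.tch B ω = F) =
      Gr.cw q v A E * Gr.cw q v B F * G.ze q v Ed (A ∪ B) := by
  have hAB' := Finset.disjoint_left.1 hAB
  have h1 : G.pr q v Ed (fun ω => G.tch A ω = E ∧ G.tch B ω = F) =
      G.pr q v Ed (fun ω => G.tch A ω = E ∧ G.tch B (G.del A ω) = F) := by
    refine G.pr_congr q v Ed fun ω _ => and_congr_right fun h2 => ?_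
    have h3 : G.tch B (G.del A ω) = G.tch B ω := by
      ext e
      rw [G.mem_tch, G.mem_tch, G.mem_del]
      constructor
      · exact fun h => ⟨h.1.1, h.2⟩
      · intro h
        have h4 : ∀ h5 : G.s e ∈ A ∨ G.t e ∈ A, False := by
          intro h5
          have h6 : e ∈ E := by
            rw [← h2, G.mem_tch]
            exact ⟨h.1, h5⟩
          have h7 := hA.2.1 e h6
          rcases h.2 with h8 | h8
          · exact hAB' h7.1 h8
          · exact hAB' h7.2 h8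
        exact ⟨⟨h.1, fun h5 => h4 (Or.inl h5), fun h5 => h4 (Or.inr h5)⟩, h.2⟩
    rw [h3]
  have hF' : F ⊆ G.del A Ed := by
    intro e he
    rw [G.mem_del]
    have h7 := hB.2.1 e he
    exact ⟨hF he, fun h5 => hAB' h5 h7.1, fun h5 => hAB' h5 h7.2⟩
  rw [h1, G.pr_cls_and q v hq hv Ed hA hE (fun ω => G.tch B ω = F),
    G.pr_cl q v hq hv _ hB hF', G.ze_union_eq q v hq hv]
  ring

/-- The probabilities of disjoint events. -/
theorem sum_pr_le {κ : Type} (hq : 0 < q) (hv : ∀ e, 0 ≤ v e) (Ed : Finset ι) (K : Finset κ)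
    (B : κ → Finset ι → Prop) (A : Finset ι → Prop)
    (h : ∀ k ∈ K, ∀ ω ⊆ Ed, B k ω → A ω)
    (hd : ∀ k ∈ K, ∀ l ∈ K, k ≠ l → ∀ ω ⊆ Ed, B k ω → ¬ B l ω) :
    ∑ k ∈ K, G.pr q v Ed (B k) ≤ G.pr q v Ed A := by
  classical
  unfold Gr.pr
  rw [← Finset.sum_div]
  refine div_le_div_of_nonneg_right ?_ (G.zz_pos q v hq hv _).le
  rw [← Finset.sum_biUnion]
  · refine Finset.sum_le_sum_of_subset_of_nonneg ?_ fun ω _ _ => G.wt_nonneg q v hq hv ω
    intro ω hω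
    rw [Finset.mem_biUnion] at hω
    obtain ⟨k, hk, hω⟩ := hω
    rw [Finset.mem_filter, Finset.mem_powerset] at hω ⊢
    exact ⟨hω.1, h k hk ω hω.1 hω.2⟩
  · intro k hk l hl hkl
    rw [Function.onFun, Finset.disjoint_left]
    intro ω h1 h2
    rw [Finset.mem_filter, Finset.mem_powerset] at h1 h2
    exact hd k hk l hl hkl ω h1.1 h1.2 h2.2

/-- Two disjoint clusters joined by the edge `k.1`. -/
def Vk (Ed : Finset ι) (x y : V) (k : ι × (Finset V × Finset ι) × (Finset V × Finset ι)) : Prop :=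
  G.IsCl k.2.1.1 k.2.1.2 ∧ G.IsCl k.2.2.1 k.2.2.2 ∧ k.2.1.2 ⊆ Ed ∧ k.2.2.2 ⊆ Ed ∧
    Disjoint k.2.1.1 k.2.2.1 ∧ x ∈ k.2.1.1 ∧ G.s k.1 ∈ k.2.1.1 ∧ G.t k.1 ∈ k.2.2.1 ∧ y ∈ k.2.2.1

theorem event_ge (hq : 0 < q) (hv : ∀ e, 0 ≤ v e) (Ed : Finset ι) (x y : V) (e : ι)
    (K : Finset (ι × (Finset V × Finset ι) × (Finset V × Finset ι)))
    (hK : ∀ k ∈ K, Vk G Ed x y k ∧ k.1 = e) :
    ∑ k ∈ K, Gr.cw q v k.2.1.1 k.2.1.2 * Gr.cw q v k.2.2.1 k.2.2.2 *
        G.ze q v Ed (k.2.1.1 ∪ k.2.2.1) ≤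
      G.pr q v Ed (fun ω => e ∉ ω ∧ G.Rch ω x (G.s e) ∧ G.Rch ω (G.t e) y ∧ ¬ G.Rch ω x y) := by
  have h1 : ∀ k ∈ K, Gr.cw q v k.2.1.1 k.2.1.2 * Gr.cw q v k.2.2.1 k.2.2.2 *
      G.ze q v Ed (k.2.1.1 ∪ k.2.2.1) =
      G.pr q v Ed (fun ω => G.tch k.2.1.1 ω = k.2.1.2 ∧ G.tch k.2.2.1 ω = k.2.2.2) := by
    intro k hk
    obtain ⟨h1, h2, h3, h4, h5, -⟩ := (hK k hk).1
    exact (pr_two G q v hq hv Ed h1 h2 h3 h4 h5).symm
  rw [Finset.sum_congr rfl h1]
  refine sum_pr_le G q v hq hv Ed K _ _ ?_ ?_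
  · intro k hk ω _ hω
    obtain ⟨⟨h1, h2, h3, h4, h5, h6, h7, h8, h9⟩, h10⟩ := hK k hk
    rw [h10] at h7 h8
    have h5' := Finset.disjoint_left.1 h5
    have hs1 : k.2.1.2 ⊆ ω := by
      rw [← hω.1]
      exact G.tch_subset _ _
    have hs2 : k.2.2.2 ⊆ ω := by
      rw [← hω.2]
      exact G.tch_subset _ _
    refine ⟨fun he => ?_, G.rch_mono hs1 (h1.2.2 x h6 _ h7), G.rch_mono hs2 (h2.2.2 _ h8 y h9),
      fun hr => ?_⟩
    · have h11 : e ∈ k.2.1.2 := by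
        rw [← hω.1, G.mem_tch]
        exact ⟨he, Or.inl h7⟩
      exact h5' (h1.2.1 e h11).2 h8
    · exact h5' (G.rch_mem h1 hω.1 h6 hr) h9
  · intro k hk l hl hkl ω _ hk1 hl1
    obtain ⟨⟨h1, h2, -, -, -, h6, -, -, h9⟩, h10⟩ := hK k hk
    obtain ⟨⟨g1, g2, -, -, -, g6, -, -, g9⟩, g10⟩ := hK l hl
    have h11 := G.cls_unique (x := x) (ω := ω) ⟨h1, h6, hk1.1⟩ ⟨g1, g6, hl1.1⟩
    have h12 := G.cls_unique (x := y) (ω := ω) ⟨h2, h9, hk1.2⟩ ⟨g2, g9, hl1.2⟩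
    refine hkl (Prod.ext (h10.trans g10.symm) (Prod.ext (Prod.ext h11.1 h11.2)
      (Prod.ext h12.1 h12.2)))

end Graph

section Lattice

variable {D : ℕ} {q β J1 : ℝ}

/-- The edge of the line above the height `m`. -/
def lne (D : ℕ) (m : ℤ) : Edge D := (((m, 0) : Site D), none)

theorem lne_t (m : ℤ) : (lat D).t (lne D m) = ((m + 1, 0) : Site D) := by
  unfold lat lne
  simp only [SB.dir]
  simp

theorem v_ratio (hβ : 0 < β) {a b : ℝ} (ha : 1 ≤ a) (hab : a ≤ b) :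
    Real.exp (β * b) - 1 ≤
      Real.exp (Real.exp β / (Real.exp β - 1) * (β * (b - a))) * (Real.exp (β * a) - 1) := by
  set κ := Real.exp β / (Real.exp β - 1) with hκ
  have h1 : 0 < Real.exp β - 1 := by
    have := Real.add_one_lt_exp hβ.ne'
    linarith
  have hκ1 : 1 ≤ κ := by
    rw [hκ, le_div_iff₀ h1]
    linarith
  have hβa : β ≤ β * a := by nlinarith
  have h2 : Real.exp β ≤ Real.exp (β * a) := Real.exp_le_exp.2 hβa
  have h3 : Real.exp (β * a) ≤ κ * (Real.exp (β * a) - 1) := by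
    rw [hκ, div_mul_eq_mul_div, le_div_iff₀ h1]
    nlinarith
  have ht : 0 ≤ β * (b - a) := mul_nonneg hβ.le (by linarith)
  have h4 : 1 ≤ Real.exp (β * (b - a)) := Real.one_le_exp ht
  have h5 : 1 + κ * (Real.exp (β * (b - a)) - 1) ≤ Real.exp (κ * (β * (b - a))) := by
    have h6 := one_add_mul_self_le_rpow_one_add (s := Real.exp (β * (b - a)) - 1) (by linarith) hκ1
    rw [add_sub_cancel, ← Real.exp_mul] at h6
    rw [mul_comm κ (β * (b - a))]
    exact h6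
  have h7 : Real.exp (β * b) = Real.exp (β * a) * Real.exp (β * (b - a)) := by
    rw [← Real.exp_add]
    congr 1
    ring
  have h8 : 0 ≤ Real.exp (β * a) - 1 := by linarith
  calc Real.exp (β * b) - 1 = (Real.exp (β * a) - 1) +
        Real.exp (β * a) * (Real.exp (β * (b - a)) - 1) := by rw [h7]; ring
    _ ≤ (Real.exp (β * a) - 1) + κ * (Real.exp (β * a) - 1) * (Real.exp (β * (b - a)) - 1) := by
        have := mul_le_mul_of_nonneg_right h3 (show 0 ≤ Real.exp (β * (b - a)) - 1 by linarith)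
        linarith
    _ = (1 + κ * (Real.exp (β * (b - a)) - 1)) * (Real.exp (β * a) - 1) := by ring
    _ ≤ _ := mul_le_mul_of_nonneg_right h5 h8

theorem vJ_ratio (hβ : 0 < β) {a b : ℝ} (ha : 1 ≤ a) (hab : a ≤ b) (e : Edge D) :
    vJ β b e ≤
      Real.exp (Real.exp β / (Real.exp β - 1) * (β * (b - a))) * vJ β a e := by
  unfold vJ
  split_ifs
  · exact v_ratio hβ ha hab
  · have h1 : 0 < Real.exp β - 1 := by
      have := Real.add_one_lt_exp hβ.ne'
      linarith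
    refine le_mul_of_one_le_left h1.le (Real.one_le_exp ?_)
    exact mul_nonneg (div_nonneg (Real.exp_pos _).le h1.le)
      (mul_nonneg hβ.le (by linarith))

theorem WW_ratio (h : Bas D q β) {a b : ℝ} (ha : 1 ≤ a) (hab : a ≤ b) (A : Finset (Site D))
    (E : Finset (Edge D)) :
    WW D q β b A E ≤
      Real.exp (Real.exp β / (Real.exp β - 1) * (β * (b - a)) * E.card) * WW D q β a A E := by
  have h0 : (0 : ℝ) ≤ b := by linarith
  have hq0 : 0 ≤ q⁻¹ ^ (A.card - 1) :=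
    pow_nonneg (inv_nonneg.2 (le_trans zero_le_one h.hq)) _
  unfold WW Gr.cw
  rw [← mul_assoc]
  refine mul_le_mul_of_nonneg_right ?_ hq0
  refine (Finset.prod_le_prod (fun e _ => vJ_nonneg h.hβ.le h0 e)
    fun e _ => vJ_ratio h.hβ ha hab e).trans (le_of_eq ?_)
  rw [Finset.prod_mul_distrib, Finset.prod_const, ← Real.exp_nat_mul, mul_comm (E.card : ℝ)]

theorem WW_mono (h : Bas D q β) {a b : ℝ} (ha : 0 ≤ a) (hab : a ≤ b) (A : Finset (Site D))
    (E : Finset (Edge D)) : WW D q β a A E ≤ WW D q β b A E := by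
  have hq0 : 0 ≤ q⁻¹ ^ (A.card - 1) :=
    pow_nonneg (inv_nonneg.2 (le_trans zero_le_one h.hq)) _
  unfold WW Gr.cw
  exact mul_le_mul_of_nonneg_right (Finset.prod_le_prod (fun e _ => vJ_nonneg h.hβ.le ha e)
    fun e _ => Inf.vJ_mono h.hβ.le hab e) hq0

theorem hasDerivAt_PP (h : Bas D q β) (s : ℝ) (hs : 1 ≤ s) (Λ : Finset (Site D))
    (A : Finset (Edge D) → Prop) :
    HasDerivAt (fun s => PP D q β s Λ A)
      (β * Real.exp (β * s) / (Real.exp (β * s) - 1) * ∑ e ∈ (edg Λ).filter fun e => OnL e,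
        (PP D q β s Λ (fun ω => A ω ∧ e ∈ ω) -
          PP D q β s Λ A * PP D q β s Λ (fun ω => e ∈ ω))) s := by
  have hβ := h.hβ
  have h1 : 0 < Real.exp (β * s) - 1 := by
    have := Real.add_one_lt_exp (mul_pos hβ (lt_of_lt_of_le one_pos hs)).ne'
    have := mul_pos hβ (lt_of_lt_of_le one_pos hs)
    linarith
  refine (lat D).hasDerivAt_pr q (lt_of_lt_of_le one_pos h.hq) (edg Λ)
    ((edg Λ).filter fun e => OnL e) (fun s => vJ β s) (Real.exp (β * s) - 1)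
    (β * Real.exp (β * s)) s (fun e => vJ_nonneg hβ.le (by linarith) e) h1
    (Finset.filter_subset _ _) ?_ ?_ A
  · intro e he
    have he' := (Finset.mem_filter.1 he).2
    have h2 : ∀ s : ℝ, vJ β s e = Real.exp (β * s) - 1 := fun s => if_pos he'
    refine ⟨h2 s, ?_⟩
    have h3 : (fun s : ℝ => vJ β s e) = fun s => Real.exp (β * s) - 1 := funext h2
    rw [h3]
    have h4 : HasDerivAt (fun s : ℝ => β * s) β s := by
      simpa using (hasDerivAt_id s).const_mul β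
    have h5 := h4.exp.sub_const 1
    rwa [mul_comm (Real.exp (β * s)) β] at h5
  · intro e he he' s'
    have h2 : ¬ OnL e := fun h3 => he' (Finset.mem_filter.2 ⟨he, h3⟩)
    unfold vJ
    rw [if_neg h2, if_neg h2]

/-- The growth of the two-point function in finite volume. -/
theorem TT_step (h : Bas D q β) {a b : ℝ} (ha : 1 ≤ a) (hab : a ≤ b) (Λ : Finset (Site D))
    (x y : Site D) (K : Finset (Edge D × Pr D × Pr D))
    (hK : ∀ k ∈ K, Vk (lat D) (edg Λ) x y k ∧ OnL k.1 ∧ k.1 ∈ edg Λ) :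
    TT D q β a Λ x y + β / q * (b - a) * ∑ k ∈ K, WW D q β a k.2.1.1 k.2.1.2 *
      WW D q β a k.2.2.1 k.2.2.2 * (ZI D q β b k.2.1.1 * ZI D q β b k.2.2.1) ≤
      TT D q β b Λ x y := by
  rcases hab.eq_or_lt with rfl | hlt
  · rw [sub_self, mul_zero, zero_mul, add_zero]
  have hβ := h.hβ
  have hq0 : 0 < q := lt_of_lt_of_le one_pos h.hq
  set R := ∑ k ∈ K, WW D q β a k.2.1.1 k.2.1.2 *
      WW D q β a k.2.2.1 k.2.2.2 * (ZI D q β b k.2.1.1 * ZI D q β b k.2.2.1) with hR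
  have hR0 : 0 ≤ R := Finset.sum_nonneg fun k _ => mul_nonneg
    (mul_nonneg (Gs.gs_WW h (by linarith) _ _) (Gs.gs_WW h (by linarith) _ _))
    (mul_nonneg (ZI_nonneg h (by linarith) _) (ZI_nonneg h (by linarith) _))
  set f' : ℝ → ℝ := fun s => β * Real.exp (β * s) / (Real.exp (β * s) - 1) *
    ∑ e ∈ (edg Λ).filter fun e => OnL e,
        (PP D q β s Λ (fun ω => (lat D).Rch ω x y ∧ e ∈ ω) -
          PP D q β s Λ (fun ω => (lat D).Rch ω x y) * PP D q β s Λ (fun ω => e ∈ ω)) with hf'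
  have hder : ∀ s, 1 ≤ s → HasDerivAt (fun s => TT D q β s Λ x y) (f' s) s :=
    fun s hs => hasDerivAt_PP h s hs Λ fun ω => (lat D).Rch ω x y
  obtain ⟨s, hs, hs'⟩ := exists_hasDerivAt_eq_slope (fun s => TT D q β s Λ x y) f' hlt
    (fun s hs => (hder s (ha.trans hs.1)).continuousAt.continuousWithinAt)
    (fun s hs => hder s (ha.trans hs.1.le))
  have hs1 : 1 ≤ s := ha.trans hs.1.le
  have hv : ∀ e : Edge D, 0 ≤ vJ β s e := fun e => vJ_nonneg hβ.le (by linarith) e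
  have h1 : 0 < Real.exp (β * s) - 1 := by
    have := Real.add_one_lt_exp (mul_pos hβ (lt_of_lt_of_le one_pos hs1)).ne'
    have := mul_pos hβ (lt_of_lt_of_le one_pos hs1)
    linarith
  -- the sum over the edges of the line
  have h2 : (Real.exp (β * s) - 1) / (Real.exp (β * s) - 1 + q) * R ≤
      ∑ e ∈ (edg Λ).filter fun e => OnL e,
        (PP D q β s Λ (fun ω => (lat D).Rch ω x y ∧ e ∈ ω) -
          PP D q β s Λ (fun ω => (lat D).Rch ω x y) * PP D q β s Λ (fun ω => e ∈ ω)) := by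
    have h3 : ∑ e ∈ (edg Λ).filter fun e => OnL e, ∑ k ∈ K.filter fun k => k.1 = e,
        WW D q β a k.2.1.1 k.2.1.2 *
        WW D q β a k.2.2.1 k.2.2.2 * (ZI D q β b k.2.1.1 * ZI D q β b k.2.2.1) = R :=
      Finset.sum_fiberwise_of_maps_to (fun k hk =>
        Finset.mem_filter.2 ⟨(hK k hk).2.2, (hK k hk).2.1⟩) _
    rw [← h3, Finset.mul_sum]
    refine Finset.sum_le_sum fun e he => ?_
    obtain ⟨he1, he2⟩ := Finset.mem_filter.1 he
    have h4 := (lat D).cov_ge q (vJ β s) h.hq hv (edg Λ) x y e he1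
    have h5 := event_ge (lat D) q (vJ β s) hq0 hv (edg Λ) x y e (K.filter fun k => k.1 = e)
      fun k hk => ⟨(hK k (Finset.mem_filter.1 hk).1).1, (Finset.mem_filter.1 hk).2⟩
    have h6 : vJ β s e = Real.exp (β * s) - 1 := if_pos he2
    rw [h6] at h4
    refine le_trans (mul_le_mul_of_nonneg_left (le_trans (Finset.sum_le_sum fun k hk => ?_) h5)
      (div_nonneg h1.le (by linarith))) h4
    have h7 : WW D q β a k.2.1.1 k.2.1.2 ≤ Gr.cw q (vJ β s) k.2.1.1 k.2.1.2 :=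
      WW_mono h (by linarith) hs.1.le _ _
    have h8 : WW D q β a k.2.2.1 k.2.2.2 ≤ Gr.cw q (vJ β s) k.2.2.1 k.2.2.2 :=
      WW_mono h (by linarith) hs.1.le _ _
    have h9 : ZI D q β b k.2.1.1 * ZI D q β b k.2.2.1 ≤
        (lat D).ze q (vJ β s) (edg Λ) (k.2.1.1 ∪ k.2.2.1) := by
      refine le_trans ?_ (ZI_le h (by linarith) Λ (k.2.1.1 ∪ k.2.2.1))
      refine le_trans ?_ (ZI_mul_le h (by linarith) _ _)
      exact mul_le_mul (ZI_anti_J h (by linarith) hs.2.le _) (ZI_anti_J h (by linarith) hs.2.le _)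
        (ZI_nonneg h (by linarith) _) (ZI_nonneg h (by linarith) _)
    exact mul_le_mul (mul_le_mul h7 h8 (Gs.gs_WW h (by linarith) _ _)
      (Gs.gs_cw hq0 hv _ _)) h9
      (mul_nonneg (ZI_nonneg h (by linarith) _) (ZI_nonneg h (by linarith) _))
      (mul_nonneg (Gs.gs_cw hq0 hv _ _) (Gs.gs_cw hq0 hv _ _))
  have h3 : β / q * R ≤ f' s := by
    have h4 : β / q ≤ β * Real.exp (β * s) / (Real.exp (β * s) - 1) *
        ((Real.exp (β * s) - 1) / (Real.exp (β * s) - 1 + q)) := by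
      rw [div_mul_div_comm, mul_comm (Real.exp (β * s) - 1) (Real.exp (β * s) - 1 + q),
        mul_div_mul_right _ _ h1.ne', div_le_div_iff₀ hq0 (by linarith), mul_assoc]
      refine mul_le_mul_of_nonneg_left ?_ hβ.le
      nlinarith [h.hq]
    calc β / q * R ≤ β * Real.exp (β * s) / (Real.exp (β * s) - 1) *
        ((Real.exp (β * s) - 1) / (Real.exp (β * s) - 1 + q)) * R :=
          mul_le_mul_of_nonneg_right h4 hR0
      _ = β * Real.exp (β * s) / (Real.exp (β * s) - 1) *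
        ((Real.exp (β * s) - 1) / (Real.exp (β * s) - 1 + q) * R) := by ring
      _ ≤ f' s := mul_le_mul_of_nonneg_left h2
          (div_nonneg (mul_nonneg hβ.le (Real.exp_pos _).le) h1.le)
  rw [hs', le_div_iff₀ (sub_pos.2 hlt)] at h3
  linarith

/-- The growth of the two-point function in infinite volume. -/
theorem GG_step (h : Bas D q β) {a b : ℝ} (ha : 1 ≤ a) (hab : a ≤ b)
    (x y : Site D) (K : Finset (Edge D × Pr D × Pr D))
    (hK : ∀ k ∈ K, (lat D).IsCl k.2.1.1 k.2.1.2 ∧ (lat D).IsCl k.2.2.1 k.2.2.2 ∧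
      Disjoint k.2.1.1 k.2.2.1 ∧ x ∈ k.2.1.1 ∧ (lat D).s k.1 ∈ k.2.1.1 ∧
      (lat D).t k.1 ∈ k.2.2.1 ∧ y ∈ k.2.2.1 ∧ OnL k.1) :
    GG D q β a x y + β / q * (b - a) * ∑ k ∈ K, WW D q β a k.2.1.1 k.2.1.2 *
      WW D q β a k.2.2.1 k.2.2.2 * (ZI D q β b k.2.1.1 * ZI D q β b k.2.2.1) ≤
      GG D q β b x y := by
  set R := ∑ k ∈ K, WW D q β a k.2.1.1 k.2.1.2 *
      WW D q β a k.2.2.1 k.2.2.2 * (ZI D q β b k.2.1.1 * ZI D q β b k.2.2.1) with hR
  set Λ0 : Finset (Site D) := K.biUnion fun k => k.2.1.1 ∪ k.2.2.1 with hΛ0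
  have h1 : GG D q β a x y ≤ GG D q β b x y - β / q * (b - a) * R := by
    unfold GG
    refine ciSup_le fun Λ => ?_
    have h2 : TT D q β a Λ x y ≤ TT D q β a (Λ ∪ Λ0) x y :=
      (lat D).tp_mono_edges q (vJ β a) h.hq (fun e => vJ_nonneg h.hβ.le (by linarith) e)
        (csp_edg_mono Finset.subset_union_left) x y
    have h3 := TT_step h ha hab (Λ ∪ Λ0) x y K fun k hk => ?_
    · have h4 := TT_le_GG h (show (0 : ℝ) ≤ b by linarith) (Λ ∪ Λ0) x y
      have h5 : (⨆ Λ : Finset (Site D), TT D q β b Λ x y) = GG D q β b x y := rfl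
      rw [h5]
      linarith
    · obtain ⟨g1, g2, g3, g4, g5, g6, g7, g8⟩ := hK k hk
      have h6 : ∀ z ∈ k.2.1.1, z ∈ Λ ∪ Λ0 := fun z hz => Finset.mem_union_right _
        (Finset.mem_biUnion.2 ⟨k, hk, Finset.mem_union_left _ hz⟩)
      have h7 : ∀ z ∈ k.2.2.1, z ∈ Λ ∪ Λ0 := fun z hz => Finset.mem_union_right _
        (Finset.mem_biUnion.2 ⟨k, hk, Finset.mem_union_right _ hz⟩)
      refine ⟨⟨g1, g2, fun e he => ?_, fun e he => ?_, g3, g4, g5, g6, g7⟩, g8, ?_⟩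
      · exact csp_mem_edg.2 ⟨h6 _ (g1.2.1 e he).1, h6 _ (g1.2.1 e he).2⟩
      · exact csp_mem_edg.2 ⟨h7 _ (g2.2.1 e he).1, h7 _ (g2.2.1 e he).2⟩
      · exact csp_mem_edg.2 ⟨h6 _ g5, h7 _ g6⟩
  linarith

/-- The first cluster. -/
def P1 {D : ℕ} (N : ℕ) (m : ℤ) (c : Pr D) : Prop :=
  ((0, 0) : Site D) ∈ c.1 ∧ ((m, 0) : Site D) ∈ c.1 ∧ abv 0 c ∧ bel m c ∧ c.2.card ≤ N

/-- The second cluster. -/
def P2 {D : ℕ} (N n : ℕ) (m : ℤ) (c : Pr D) : Prop :=
  ((m, 0) : Site D) ∈ c.1 ∧ (((n : ℤ), 0) : Site D) ∈ c.1 ∧ abv m c ∧ bel n c ∧ c.2.card ≤ N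

/-- The sums over the confined clusters of the line with at most `N` edges. -/
noncomputable def TK (D : ℕ) (q β : ℝ) (N : ℕ) (J : ℝ) (m : ℕ) : ℝ≥0∞ :=
  sm D q β J fun c => ii (((0, 0) : Site D) ∈ c.1 ∧ (((m : ℤ), 0) : Site D) ∈ c.1 ∧
    abv 0 c ∧ bel m c ∧ c.2.card ≤ N)

theorem TK_eq1 (N : ℕ) (J : ℝ) (m : ℕ) :
    TK D q β N J m = ∑' c, WI D q β J c * ii (P1 N m c) := rfl

theorem TK_eq2 (N : ℕ) (J : ℝ) {m n : ℕ} (hm : m < n) :
    TK D q β N J (n - 1 - m) = ∑' c, WI D q β J c * ii (P2 N n (m + 1) c) := by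
  have h1 := sm_sh (D := D) (q := q) (β := β) (J := J) (m + 1)
    (fun c => ii (P2 N n ((m : ℤ) + 1) c))
  refine Eq.trans ?_ h1
  unfold TK
  congr 1
  funext c
  have h2 : ∀ (z : Site D) (k : ℤ), z ∈ (sh k c).1 ↔ ((z.1 - k, z.2) : Site D) ∈ c.1 := by
    intro z k
    unfold sh
    rw [Finset.mem_image]
    constructor
    · rintro ⟨x, hx, rfl⟩
      simpa using hx
    · intro hz
      exact ⟨_, hz, by simp⟩
  have h3 : (sh ((m : ℤ) + 1) c).2.card = c.2.card := by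
    unfold sh
    refine Finset.card_image_of_injective _ ?_
    rintro ⟨⟨a1, a2⟩, a3⟩ ⟨⟨b1, b2⟩, b3⟩ hab
    simp only [Prod.mk.injEq, add_left_inj] at hab
    obtain ⟨⟨h4, h5⟩, h6⟩ := hab
    rw [h4, h5, h6]
  refine Shi.ii_congr ?_
  unfold P2 abv bel
  rw [h2, h2, h3]
  have e1 : ((((m : ℤ) + 1, 0) : Site D).1 - ((m : ℤ) + 1), (((m : ℤ) + 1, 0) : Site D).2) =
      ((0, 0) : Site D) := by simp
  have e2 : ((((n : ℤ), 0) : Site D).1 - ((m : ℤ) + 1), (((n : ℤ), 0) : Site D).2) =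
      ((((n - 1 - m : ℕ) : ℤ), 0) : Site D) := by
    refine Prod.ext ?_ rfl
    change (n : ℤ) - ((m : ℤ) + 1) = ((n - 1 - m : ℕ) : ℤ)
    omega
  rw [e1, e2]
  have e3 : (∀ x ∈ (sh ((m : ℤ) + 1) c).1, ((m : ℤ) + 1) ≤ x.1) ↔ ∀ x ∈ c.1, 0 ≤ x.1 := by
    constructor
    · intro h x hx
      have := h (x.1 + (m + 1), x.2) ((h2 _ _).2 (by simpa using hx))
      change (m : ℤ) + 1 ≤ x.1 + (m + 1) at this
      omega
    · intro h x hx
      have := h _ ((h2 _ _).1 hx)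
      change 0 ≤ x.1 - ((m : ℤ) + 1) at this
      omega
  have e4 : (∀ x ∈ (sh ((m : ℤ) + 1) c).1, x.1 ≤ (n : ℤ)) ↔
      ∀ x ∈ c.1, x.1 ≤ ((n - 1 - m : ℕ) : ℤ) := by
    constructor
    · intro h x hx
      have := h (x.1 + (m + 1), x.2) ((h2 _ _).2 (by simpa using hx))
      change x.1 + (m + 1) ≤ (n : ℤ) at this
      omega
    · intro h x hx
      have := h _ ((h2 _ _).1 hx)
      change x.1 - ((m : ℤ) + 1) ≤ ((n - 1 - m : ℕ) : ℤ) at this
      omega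
  rw [e3, e4]

/-- The product of two weights. -/
noncomputable def wp (D : ℕ) (q β b : ℝ) (k : ℕ × Pr D × Pr D) : ℝ :=
  WW D q β b k.2.1.1 k.2.1.2 * WW D q β b k.2.2.1 k.2.2.2 *
    (ZI D q β b k.2.1.1 * ZI D q β b k.2.2.1)

/-- The valid triples. -/
def Va (D : ℕ) (N n : ℕ) (k : ℕ × Pr D × Pr D) : Prop :=
  k.1 < n ∧ ((lat D).IsCl k.2.1.1 k.2.1.2 ∧ P1 N k.1 k.2.1) ∧
    ((lat D).IsCl k.2.2.1 k.2.2.2 ∧ P2 N n (k.1 + 1) k.2.2)

theorem wp_nonneg (h : Bas D q β) {b : ℝ} (hb : 0 ≤ b) (k : ℕ × Pr D × Pr D) :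
    0 ≤ wp D q β b k :=
  mul_nonneg (mul_nonneg (Gs.gs_WW h hb _ _) (Gs.gs_WW h hb _ _))
    (mul_nonneg (ZI_nonneg h hb _) (ZI_nonneg h hb _))

theorem GG_step' (h : Bas D q β) {a b : ℝ} (ha : 1 ≤ a) (hab : a ≤ b) (N n : ℕ)
    (K : Finset (ℕ × Pr D × Pr D)) (hK : ∀ k ∈ K, Va D N n k) :
    GG D q β a (0, 0) ((n : ℤ), 0) + β / q * (b - a) *
      Real.exp (-(2 * (Real.exp β / (Real.exp β - 1) * β) * (b - a) * N)) *
      ∑ k ∈ K, wp D q β b k ≤ GG D q β b (0, 0) ((n : ℤ), 0) := by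
  classical
  have hβ := h.hβ
  have hq0 : 0 < q := lt_of_lt_of_le one_pos h.hq
  have hb0 : (0 : ℝ) ≤ b := by linarith
  have ha0 : (0 : ℝ) ≤ a := by linarith
  set κ := Real.exp β / (Real.exp β - 1) with hκ
  have hκ0 : 0 ≤ κ := by
    have := Real.add_one_lt_exp hβ.ne'
    exact div_nonneg (Real.exp_pos _).le (by linarith)
  set g : ℕ × Pr D × Pr D → Edge D × Pr D × Pr D := fun k => (lne D k.1, k.2) with hg
  have hginj : Function.Injective g := by
    rintro ⟨a1, a2⟩ ⟨b1, b2⟩ hab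
    rw [hg] at hab
    simp only [Prod.mk.injEq, lne, and_true, Nat.cast_inj] at hab
    rw [hab.1, hab.2]
  have h1 := GG_step h ha hab (0, 0) ((n : ℤ), 0) (K.image g) fun k hk => ?_
  · rw [Finset.sum_image fun k _ l _ hkl => hginj hkl] at h1
    refine le_trans ?_ h1
    rw [mul_assoc]
    refine add_le_add_right (mul_le_mul_of_nonneg_left ?_
      (mul_nonneg (div_nonneg hβ.le hq0.le) (by linarith))) _
    rw [Finset.mul_sum]
    refine Finset.sum_le_sum fun k hk => ?_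
    obtain ⟨-, ⟨-, g1⟩, -, g2⟩ := hK k hk
    have hr : ∀ c : Pr D, c.2.card ≤ N →
        Real.exp (-(κ * β * (b - a) * N)) * WW D q β b c.1 c.2 ≤ WW D q β a c.1 c.2 := by
      intro c hc
      have h2 := WW_ratio h ha hab c.1 c.2
      have h3 : Real.exp (κ * (β * (b - a)) * c.2.card) ≤ Real.exp (κ * β * (b - a) * N) := by
        refine Real.exp_le_exp.2 ?_
        rw [← mul_assoc]
        refine mul_le_mul_of_nonneg_left (by exact_mod_cast hc) ?_
        exact mul_nonneg (mul_nonneg hκ0 hβ.le) (by linarith)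
      have h4 := h2.trans (mul_le_mul_of_nonneg_right h3 (Gs.gs_WW h ha0 c.1 c.2))
      rw [Real.exp_neg, inv_mul_le_iff₀ (Real.exp_pos _)]
      exact h4
    have h5 := hr k.2.1 g1.2.2.2.2
    have h6 := hr k.2.2 g2.2.2.2.2
    have h7 : Real.exp (-(2 * (κ * β) * (b - a) * N)) =
        Real.exp (-(κ * β * (b - a) * N)) * Real.exp (-(κ * β * (b - a) * N)) := by
      rw [← Real.exp_add]
      congr 1
      ring
    have h8 : Real.exp (-(2 * (κ * β) * (b - a) * N)) * wp D q β b k =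
        (Real.exp (-(κ * β * (b - a) * N)) * WW D q β b k.2.1.1 k.2.1.2) *
        (Real.exp (-(κ * β * (b - a) * N)) * WW D q β b k.2.2.1 k.2.2.2) *
        (ZI D q β b k.2.1.1 * ZI D q β b k.2.2.1) := by
      rw [h7]
      unfold wp
      ring
    rw [h8]
    refine mul_le_mul_of_nonneg_right ?_
      (mul_nonneg (ZI_nonneg h hb0 _) (ZI_nonneg h hb0 _))
    exact mul_le_mul h5 h6 (mul_nonneg (Real.exp_pos _).le (Gs.gs_WW h hb0 _ _))
      (Gs.gs_WW h ha0 _ _)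
  · obtain ⟨k', hk', rfl⟩ := Finset.mem_image.1 hk
    obtain ⟨-, ⟨g1, g2⟩, g3, g4⟩ := hK k' hk'
    refine ⟨g1, g3, ?_, g2.1, g2.2.1, ?_, g4.2.1, rfl, rfl⟩
    · rw [Finset.disjoint_left]
      intro z hz1 hz2
      have h2 := g2.2.2.2.1 z hz1
      have h3 := g4.2.2.1 z hz2
      omega
    · change (lat D).t (lne D k'.1) ∈ k'.2.2.1
      rw [lne_t]
      exact g4.1

open Classical in
/-- One term of the product of two sums. -/
noncomputable def FT (D : ℕ) (q β : ℝ) (N n : ℕ) (b : ℝ) (k : ℕ × Pr D × Pr D) : ℝ≥0∞ :=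
  if k.1 < n then (WI D q β b k.2.1 * ii (P1 N k.1 k.2.1)) *
    (WI D q β b k.2.2 * ii (P2 N n (k.1 + 1) k.2.2)) else 0

theorem FT_eq (h : Bas D q β) {b : ℝ} (hb : 0 ≤ b) {N n : ℕ} {k : ℕ × Pr D × Pr D}
    (hk : Va D N n k) : FT D q β N n b k = ENNReal.ofReal (wp D q β b k) := by
  obtain ⟨h1, ⟨h2, h3⟩, h4, h5⟩ := hk
  unfold FT
  rw [if_pos h1, Gs.WI_pos h2, Gs.WI_pos h4, Gs.ii_pos h3, Gs.ii_pos h5, mul_one, mul_one,
    ← ENNReal.ofReal_mul (mul_nonneg (Gs.gs_WW h hb _ _) (ZI_nonneg h hb _))]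
  congr 1
  unfold wp
  ring

theorem FT_zero {b : ℝ} {N n : ℕ} {k : ℕ × Pr D × Pr D}
    (hk : ¬ Va D N n k) : FT D q β N n b k = 0 := by
  unfold FT
  split_ifs with h1
  · by_cases h2 : (lat D).IsCl k.2.1.1 k.2.1.2
    · by_cases h3 : P1 N k.1 k.2.1
      · by_cases h4 : (lat D).IsCl k.2.2.1 k.2.2.2
        · have h5 : ¬ P2 N n (k.1 + 1) k.2.2 := fun h5 => hk ⟨h1, ⟨h2, h3⟩, h4, h5⟩
          rw [Gs.ii_neg h5, mul_zero, mul_zero]
        · rw [Gs.WI_neg h4, zero_mul, mul_zero]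
      · rw [Gs.ii_neg h3, mul_zero, zero_mul]
    · rw [Gs.WI_neg h2, zero_mul, zero_mul]
  · rfl

theorem tsum_FT (b : ℝ) (N n : ℕ) :
    ∑' k, FT D q β N n b k = ∑ m ∈ range n, TK D q β N b m * TK D q β N b (n - 1 - m) := by
  refine (ENNReal.tsum_prod (f := fun (m : ℕ) (p : Pr D × Pr D) =>
    FT D q β N n b (m, p))).trans ?_
  rw [tsum_eq_sum (s := range n)]
  · refine Finset.sum_congr rfl fun m hm => ?_
    rw [Finset.mem_range] at hm
    refine (ENNReal.tsum_prod (f := fun (c1 : Pr D) (c2 : Pr D) =>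
      FT D q β N n b (m, c1, c2))).trans ?_
    rw [TK_eq1, TK_eq2 N b hm, ← ENNReal.tsum_mul_right]
    refine tsum_congr fun c1 => ?_
    rw [← ENNReal.tsum_mul_left]
    refine tsum_congr fun c2 => ?_
    unfold FT
    rw [if_pos hm]
  · intro m hm
    rw [Finset.mem_range] at hm
    have h1 : ∀ p : Pr D × Pr D, FT D q β N n b (m, p) = 0 := by
      intro p
      unfold FT
      rw [if_neg hm]
    simp only [h1, tsum_zero]

/-- Finite steps of the coupling. -/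
theorem step_ge {D : ℕ} {q β J1 : ℝ} (h : Reg D q β J1) : ∃ c C : ℝ, 0 < c ∧ 0 < C ∧
    ∀ (N n : ℕ) (x y : ℝ), 1 ≤ x → x ≤ y → y ≤ J1 →
      GN D q β x n 0 0 + ENNReal.ofReal (c * (y - x) * Real.exp (-(C * (y - x) * N))) *
        ∑ m ∈ range n, TK D q β N y m * TK D q β N y (n - 1 - m) ≤ GN D q β y n 0 0 := by
  classical
  have hb : Bas D q β := h.toBas
  have hβ := hb.hβ
  have hq0 : 0 < q := lt_of_lt_of_le one_pos hb.hq
  have hκ0 : 0 < Real.exp β / (Real.exp β - 1) := by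
    have := Real.add_one_lt_exp hβ.ne'
    exact div_pos (Real.exp_pos _) (by linarith)
  refine ⟨β / q, 2 * (Real.exp β / (Real.exp β - 1) * β), div_pos hβ hq0, by positivity, ?_⟩
  intro N n x y hx hxy hy
  have hy0 : (0 : ℝ) ≤ y := by linarith
  rw [GN_eq h x hx (hxy.trans hy), GN_eq h y (hx.trans hxy) hy, ← tsum_FT]
  set c' : ℝ := β / q * (y - x) *
    Real.exp (-(2 * (Real.exp β / (Real.exp β - 1) * β) * (y - x) * N)) with hc'
  have hc0 : 0 ≤ c' := mul_nonneg (mul_nonneg (div_nonneg hβ.le hq0.le) (by linarith))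
    (Real.exp_pos _).le
  have hG0 : 0 ≤ GG D q β x ((0, 0) : Site D) ((n : ℤ), 0) :=
    le_trans ((lat D).tp_nonneg q (vJ β x) hq0
      (fun e => vJ_nonneg hβ.le (by linarith) e) (edg ∅) _ _) (TT_le_GG hb (by linarith) ∅ _ _)
  rw [← ENNReal.tsum_mul_left]
  have hle : ENNReal.ofReal (GG D q β x (0, 0) ((n : ℤ), 0)) ≤
      ENNReal.ofReal (GG D q β y (0, 0) ((n : ℤ), 0)) := by
    have h1 := GG_step' hb hx hxy N n ∅ (by simp)
    rw [Finset.sum_empty, mul_zero, add_zero] at h1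
    exact ENNReal.ofReal_le_ofReal h1
  refine add_le_of_le_tsub_left_of_le hle ?_
  refine ENNReal.summable.tsum_le_of_sum_le fun S => ?_
  refine ENNReal.le_sub_of_add_le_left ENNReal.ofReal_ne_top ?_
  have h1 := GG_step' hb hx hxy N n (S.filter fun k => Va D N n k)
    fun k hk => (Finset.mem_filter.1 hk).2
  have h2 : ∑ k ∈ S, ENNReal.ofReal c' * FT D q β N n y k =
      ENNReal.ofReal (c' * ∑ k ∈ S.filter fun k => Va D N n k, wp D q β y k) := by
    rw [← Finset.mul_sum, ENNReal.ofReal_mul hc0, ENNReal.ofReal_sum_of_nonneg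
      fun k _ => wp_nonneg hb hy0 k, Finset.sum_filter]
    congr 1
    refine Finset.sum_congr rfl fun k _ => ?_
    by_cases h3 : Va D N n k
    · rw [if_pos h3, FT_eq hb hy0 h3]
    · rw [if_neg h3, FT_zero h3]
  rw [h2, ← ENNReal.ofReal_add hG0 (mul_nonneg hc0 (Finset.sum_nonneg fun k _ =>
    wp_nonneg hb hy0 k))]
  exact ENNReal.ofReal_le_ofReal h1

end Lattice

end Dg

end Pool.Agent.DL
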