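import Mathlib

/-!
# Reciprocals of monotone functions with a quadratic increment inequality
-/

set_option autoImplicit false
set_option linter.unusedSectionVars false

namespace Pool.Agent.DL.Ode

open Finset

/-- Riemann sums of a monotone function. -/
theorem riemann_le {ψ : ℝ → ℝ} {x y : ℝ} (hxy : x < y) (hψ : MonotoneOn ψ (Set.Icc x y)) {n : ℕ}
    (hn : 0 < n) : (∑ i ∈ range n, (y - x) / n * ψ (x + (y - x) / n * i)) ≤
      ∫ t in x..y, ψ t := by
  have hn' : (0 : ℝ) < n := by exact_mod_cast hn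
  have hh : (0 : ℝ) < (y - x) / n := div_pos (sub_pos.2 hxy) hn'
  have hm : MonotoneOn (fun t : ℝ => ψ (x + (y - x) / n * t)) (Set.Icc (0 : ℝ) (0 + (n : ℕ))) := by
    intro s hs t ht hst
    refine hψ ?_ ?_ ?_
    · refine ⟨?_, ?_⟩
      · have := mul_nonneg hh.le hs.1
        linarith
      · have h1 : (y - x) / n * s ≤ (y - x) / n * n :=
          mul_le_mul_of_nonneg_left (by linarith [hs.2]) hh.le
        rw [div_mul_cancel₀ _ hn'.ne'] at h1
        linarith
    · refine ⟨?_, ?_⟩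
      · have := mul_nonneg hh.le ht.1
        linarith
      · have h1 : (y - x) / n * t ≤ (y - x) / n * n :=
          mul_le_mul_of_nonneg_left (by linarith [ht.2]) hh.le
        rw [div_mul_cancel₀ _ hn'.ne'] at h1
        linarith
    · have := mul_le_mul_of_nonneg_left hst hh.le
      linarith
  have h1 := hm.sum_le_integral
  have h2 : (∫ t in (0 : ℝ)..(0 + (n : ℕ)), ψ (x + (y - x) / n * t)) =
      ((y - x) / n)⁻¹ * ∫ t in x..y, ψ t := by
    rw [intervalIntegral.integral_comp_add_mul (fun t => ψ t) hh.ne' x, smul_eq_mul]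
    congr 2
    · ring
    · rw [zero_add, div_mul_cancel₀ _ hn'.ne']
      ring
  rw [h2] at h1
  have h3 : (∑ i ∈ range n, (y - x) / n * ψ (x + (y - x) / n * i)) =
      (y - x) / n * ∑ i ∈ range n, ψ (x + (y - x) / n * (0 + (i : ℝ))) := by
    rw [mul_sum]
    exact sum_congr rfl fun i _ => by rw [zero_add]
  rw [h3]
  calc (y - x) / n * ∑ i ∈ range n, ψ (x + (y - x) / n * (0 + (i : ℝ)))
      ≤ (y - x) / n * (((y - x) / n)⁻¹ * ∫ t in x..y, ψ t) :=
        mul_le_mul_of_nonneg_left h1 hh.le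
    _ = ∫ t in x..y, ψ t := by rw [← mul_assoc, mul_inv_cancel₀ hh.ne', one_mul]

theorem le_riemann {ψ : ℝ → ℝ} {x y : ℝ} (hxy : x < y) (hψ : MonotoneOn ψ (Set.Icc x y)) {n : ℕ}
    (hn : 0 < n) : (∫ t in x..y, ψ t) ≤
      ∑ i ∈ range n, (y - x) / n * ψ (x + (y - x) / n * (i + 1 : ℕ)) := by
  have hn' : (0 : ℝ) < n := by exact_mod_cast hn
  have hh : (0 : ℝ) < (y - x) / n := div_pos (sub_pos.2 hxy) hn'
  have hm : MonotoneOn (fun t : ℝ => ψ (x + (y - x) / n * t)) (Set.Icc (0 : ℝ) (0 + (n : ℕ))) := by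
    intro s hs t ht hst
    refine hψ ?_ ?_ ?_
    · refine ⟨?_, ?_⟩
      · have := mul_nonneg hh.le hs.1
        linarith
      · have h1 : (y - x) / n * s ≤ (y - x) / n * n :=
          mul_le_mul_of_nonneg_left (by linarith [hs.2]) hh.le
        rw [div_mul_cancel₀ _ hn'.ne'] at h1
        linarith
    · refine ⟨?_, ?_⟩
      · have := mul_nonneg hh.le ht.1
        linarith
      · have h1 : (y - x) / n * t ≤ (y - x) / n * n :=
          mul_le_mul_of_nonneg_left (by linarith [ht.2]) hh.le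
        rw [div_mul_cancel₀ _ hn'.ne'] at h1
        linarith
    · have := mul_le_mul_of_nonneg_left hst hh.le
      linarith
  have h1 := hm.integral_le_sum
  have h2 : (∫ t in (0 : ℝ)..(0 + (n : ℕ)), ψ (x + (y - x) / n * t)) =
      ((y - x) / n)⁻¹ * ∫ t in x..y, ψ t := by
    rw [intervalIntegral.integral_comp_add_mul (fun t => ψ t) hh.ne' x, smul_eq_mul]
    congr 2
    · ring
    · rw [zero_add, div_mul_cancel₀ _ hn'.ne']
      ring
  rw [h2] at h1
  have h3 : (∑ i ∈ range n, (y - x) / n * ψ (x + (y - x) / n * (i + 1 : ℕ))) =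
      (y - x) / n * ∑ i ∈ range n, ψ (x + (y - x) / n * (0 + ((i + 1 : ℕ) : ℝ))) := by
    rw [mul_sum]
    exact sum_congr rfl fun i _ => by rw [zero_add]
  rw [h3]
  calc (∫ t in x..y, ψ t) = (y - x) / n * (((y - x) / n)⁻¹ * ∫ t in x..y, ψ t) := by
        rw [← mul_assoc, mul_inv_cancel₀ hh.ne', one_mul]
    _ ≤ _ := mul_le_mul_of_nonneg_left h1 hh.le

/-- From increments `S y - S x ≤ C (y - x) S y ^ 2 ψ y` to the reciprocals. -/
theorem inv_sub_inv_le {S ψ : ℝ → ℝ} {a b C : ℝ} (hC : 0 ≤ C) (hS : MonotoneOn S (Set.Icc a b))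
    (hp : ∀ x ∈ Set.Icc a b, 0 < S x) (hψ : MonotoneOn ψ (Set.Icc a b))
    (hψ0 : ∀ x ∈ Set.Icc a b, 0 ≤ ψ x)
    (h : ∀ x y, a ≤ x → x ≤ y → y ≤ b → S y - S x ≤ C * (y - x) * S y ^ 2 * ψ y)
    {x y : ℝ} (hx : a ≤ x) (hxy : x ≤ y) (hy : y ≤ b) :
    (S x)⁻¹ - (S y)⁻¹ ≤ C * ∫ t in x..y, ψ t := by
  rcases hxy.eq_or_lt with rfl | hlt
  · simp
  have hxm : x ∈ Set.Icc a b := ⟨hx, hxy.trans hy⟩
  have hym : y ∈ Set.Icc a b := ⟨hx.trans hxy, hy⟩
  have hsub : Set.Icc x y ⊆ Set.Icc a b := Set.Icc_subset_Icc hx hy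
  have key : ∀ n : ℕ, 0 < n → (S x)⁻¹ - (S y)⁻¹ ≤ C * (∫ t in x..y, ψ t) +
      (C * (y - x) * (ψ y - ψ x + ψ y * (S y - S x) / S x)) / n := by
    intro n hn
    have hn' : (0 : ℝ) < n := by exact_mod_cast hn
    have hh : (0 : ℝ) < (y - x) / n := div_pos (sub_pos.2 hlt) hn'
    set p : ℕ → ℝ := fun i => x + (y - x) / n * i with hp'
    have hp0 : p 0 = x := by simp [hp']
    have hpn : p n = y := by
      simp only [hp']
      rw [div_mul_cancel₀ _ hn'.ne']
      ring
    have hps : ∀ i, p (i + 1) - p i = (y - x) / n := by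
      intro i
      simp only [hp']
      push_cast
      ring
    have hmem : ∀ i, i ≤ n → p i ∈ Set.Icc x y := by
      intro i hi
      have hi' : (i : ℝ) ≤ n := by exact_mod_cast hi
      refine ⟨?_, ?_⟩
      · have : 0 ≤ (y - x) / n * i := mul_nonneg hh.le (Nat.cast_nonneg i)
        simp only [hp']
        linarith
      · have h1 : (y - x) / n * i ≤ (y - x) / n * n := mul_le_mul_of_nonneg_left hi' hh.le
        rw [div_mul_cancel₀ _ hn'.ne'] at h1
        simp only [hp']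
        linarith
    have hstep : ∀ i ∈ range n, (S (p i))⁻¹ - (S (p (i + 1)))⁻¹ ≤
        C * ((y - x) / n * ψ (p (i + 1))) +
          C * ((y - x) / n) * ψ y / S x * (S (p (i + 1)) - S (p i)) := by
      intro i hi
      have hi' := mem_range.1 hi
      have m1 := hmem i hi'.le
      have m2 := hmem (i + 1) hi'
      have s1 : 0 < S (p i) := hp _ (hsub m1)
      have s2 : 0 < S (p (i + 1)) := hp _ (hsub m2)
      have sx : 0 < S x := hp _ hxm
      have hle : p i ≤ p (i + 1) := by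
        have := hps i
        linarith
      have s12 : S (p i) ≤ S (p (i + 1)) := hS (hsub m1) (hsub m2) hle
      have sx1 : S x ≤ S (p i) := hS hxm (hsub m1) m1.1
      have h3 := h (p i) (p (i + 1)) (hsub m1).1 hle (hsub m2).2
      rw [hps] at h3
      have hψy : ψ (p (i + 1)) ≤ ψ y := hψ (hsub m2) hym m2.2
      have hψp : 0 ≤ ψ (p (i + 1)) := hψ0 _ (hsub m2)
      have e1 : (S (p i))⁻¹ - (S (p (i + 1)))⁻¹ =
          (S (p (i + 1)) - S (p i)) / (S (p i) * S (p (i + 1))) := by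
        field_simp
      have e2 : (S (p (i + 1)) - S (p i)) / (S (p i) * S (p (i + 1))) ≤
          C * ((y - x) / n) * S (p (i + 1)) ^ 2 * ψ (p (i + 1)) / (S (p i) * S (p (i + 1))) :=
        div_le_div_of_nonneg_right h3 (mul_pos s1 s2).le
      have e3 : C * ((y - x) / n) * S (p (i + 1)) ^ 2 * ψ (p (i + 1)) / (S (p i) * S (p (i + 1))) =
          C * ((y - x) / n * ψ (p (i + 1))) +
            C * ((y - x) / n) * ψ (p (i + 1)) / S (p i) * (S (p (i + 1)) - S (p i)) := by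
        field_simp
        ring
      have e4 : C * ((y - x) / n) * ψ (p (i + 1)) / S (p i) ≤ C * ((y - x) / n) * ψ y / S x := by
        have c0 : 0 ≤ C * ((y - x) / n) := mul_nonneg hC hh.le
        exact div_le_div₀ (mul_nonneg c0 (hψp.trans hψy)) (mul_le_mul_of_nonneg_left hψy c0) sx sx1
      rw [e1]
      refine e2.trans ?_
      rw [e3]
      have := mul_le_mul_of_nonneg_right e4 (sub_nonneg.2 s12)
      linarith
    have hsum := sum_le_sum hstep
    have t1 : ∑ i ∈ range n, ((S (p i))⁻¹ - (S (p (i + 1)))⁻¹) = (S x)⁻¹ - (S y)⁻¹ := by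
      rw [Finset.sum_range_sub', hp0, hpn]
    have t2 : ∑ i ∈ range n, (S (p (i + 1)) - S (p i)) = S y - S x := by
      rw [Finset.sum_range_sub (fun i => S (p i)), hp0, hpn]
    have t3 : ∑ i ∈ range n, (y - x) / n * ψ (p (i + 1)) =
        ∑ i ∈ range n, (y - x) / n * ψ (p i) + (y - x) / n * (ψ y - ψ x) := by
      have : ∑ i ∈ range n, ((y - x) / n * ψ (p (i + 1)) - (y - x) / n * ψ (p i)) =
          (y - x) / n * (ψ y - ψ x) := by
        rw [Finset.sum_range_sub (fun i => (y - x) / n * ψ (p i)), hp0, hpn]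
        ring
      rw [sum_sub_distrib] at this
      linarith
    have t4 := riemann_le hlt (hψ.mono hsub) hn
    have u1 : ∑ i ∈ range n, C * ((y - x) / n * ψ (p (i + 1))) =
        C * ∑ i ∈ range n, (y - x) / n * ψ (p (i + 1)) := (mul_sum _ _ _).symm
    have u2 : ∑ i ∈ range n, C * ((y - x) / n) * ψ y / S x * (S (p (i + 1)) - S (p i)) =
        C * ((y - x) / n) * ψ y / S x * (S y - S x) := by rw [← mul_sum, t2]
    rw [t1, sum_add_distrib, u1, u2, t3] at hsum
    have t5 := mul_le_mul_of_nonneg_left t4 hC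
    have t6 : C * ((y - x) / n) * ψ y / S x * (S y - S x) + C * ((y - x) / n * (ψ y - ψ x)) =
        (C * (y - x) * (ψ y - ψ x + ψ y * (S y - S x) / S x)) / n := by
      ring
    rw [← t6]
    have t7 : ∑ i ∈ range n, (y - x) / n * ψ (x + (y - x) / n * i) =
        ∑ i ∈ range n, (y - x) / n * ψ (p i) := rfl
    rw [t7] at t5
    nlinarith [hsum, t5]
  have hlim : Filter.Tendsto (fun n : ℕ => C * (∫ t in x..y, ψ t) +
      (C * (y - x) * (ψ y - ψ x + ψ y * (S y - S x) / S x)) / n) Filter.atTop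
      (nhds (C * (∫ t in x..y, ψ t) + 0)) :=
    tendsto_const_nhds.add (tendsto_const_div_atTop_nhds_zero_nat _)
  rw [add_zero] at hlim
  exact ge_of_tendsto hlim (Filter.eventually_atTop.2 ⟨1, fun n hn => key n hn⟩)

/-- From increments `c (y - x) S x ^ 2 ψ x ≤ S y - S x` to the reciprocals. -/
theorem le_inv_sub_inv {S ψ : ℝ → ℝ} {a b c : ℝ} (hc : 0 ≤ c) (hS : MonotoneOn S (Set.Icc a b))
    (hp : ∀ x ∈ Set.Icc a b, 0 < S x) (hψ : MonotoneOn ψ (Set.Icc a b))
    (hψ0 : ∀ x ∈ Set.Icc a b, 0 ≤ ψ x)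
    (h : ∀ x y, a ≤ x → x ≤ y → y ≤ b → c * (y - x) * S x ^ 2 * ψ x ≤ S y - S x)
    {x y : ℝ} (hx : a ≤ x) (hxy : x ≤ y) (hy : y ≤ b) :
    c * (∫ t in x..y, ψ t) ≤ (S x)⁻¹ - (S y)⁻¹ := by
  rcases hxy.eq_or_lt with rfl | hlt
  · simp
  have hxm : x ∈ Set.Icc a b := ⟨hx, hxy.trans hy⟩
  have hym : y ∈ Set.Icc a b := ⟨hx.trans hxy, hy⟩
  have hsub : Set.Icc x y ⊆ Set.Icc a b := Set.Icc_subset_Icc hx hy
  have key : ∀ n : ℕ, 0 < n → c * (∫ t in x..y, ψ t) -
      (c * (y - x) * (ψ y - ψ x + ψ y * (S y - S x) / S x)) / n ≤ (S x)⁻¹ - (S y)⁻¹ := by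
    intro n hn
    have hn' : (0 : ℝ) < n := by exact_mod_cast hn
    have hh : (0 : ℝ) < (y - x) / n := div_pos (sub_pos.2 hlt) hn'
    set p : ℕ → ℝ := fun i => x + (y - x) / n * i with hp'
    have hp0 : p 0 = x := by simp [hp']
    have hpn : p n = y := by
      simp only [hp']
      rw [div_mul_cancel₀ _ hn'.ne']
      ring
    have hps : ∀ i, p (i + 1) - p i = (y - x) / n := by
      intro i
      simp only [hp']
      push_cast
      ring
    have hmem : ∀ i, i ≤ n → p i ∈ Set.Icc x y := by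
      intro i hi
      have hi' : (i : ℝ) ≤ n := by exact_mod_cast hi
      refine ⟨?_, ?_⟩
      · have : 0 ≤ (y - x) / n * i := mul_nonneg hh.le (Nat.cast_nonneg i)
        simp only [hp']
        linarith
      · have h1 : (y - x) / n * i ≤ (y - x) / n * n := mul_le_mul_of_nonneg_left hi' hh.le
        rw [div_mul_cancel₀ _ hn'.ne'] at h1
        simp only [hp']
        linarith
    have hstep : ∀ i ∈ range n, c * ((y - x) / n * ψ (p i)) -
        c * ((y - x) / n) * ψ y / S x * (S (p (i + 1)) - S (p i)) ≤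
          (S (p i))⁻¹ - (S (p (i + 1)))⁻¹ := by
      intro i hi
      have hi' := mem_range.1 hi
      have m1 := hmem i hi'.le
      have m2 := hmem (i + 1) hi'
      have s1 : 0 < S (p i) := hp _ (hsub m1)
      have s2 : 0 < S (p (i + 1)) := hp _ (hsub m2)
      have sx : 0 < S x := hp _ hxm
      have hle : p i ≤ p (i + 1) := by
        have := hps i
        linarith
      have s12 : S (p i) ≤ S (p (i + 1)) := hS (hsub m1) (hsub m2) hle
      have sx1 : S x ≤ S (p (i + 1)) := hS hxm (hsub m2) m2.1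
      have h3 := h (p i) (p (i + 1)) (hsub m1).1 hle (hsub m2).2
      rw [hps] at h3
      have hψy : ψ (p i) ≤ ψ y := hψ (hsub m1) hym m1.2
      have hψp : 0 ≤ ψ (p i) := hψ0 _ (hsub m1)
      have e1 : (S (p i))⁻¹ - (S (p (i + 1)))⁻¹ =
          (S (p (i + 1)) - S (p i)) / (S (p i) * S (p (i + 1))) := by
        field_simp
      have e2 : c * ((y - x) / n) * S (p i) ^ 2 * ψ (p i) / (S (p i) * S (p (i + 1))) ≤
          (S (p (i + 1)) - S (p i)) / (S (p i) * S (p (i + 1))) :=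
        div_le_div_of_nonneg_right h3 (mul_pos s1 s2).le
      have e3 : c * ((y - x) / n) * S (p i) ^ 2 * ψ (p i) / (S (p i) * S (p (i + 1))) =
          c * ((y - x) / n * ψ (p i)) -
            c * ((y - x) / n) * ψ (p i) / S (p (i + 1)) * (S (p (i + 1)) - S (p i)) := by
        field_simp
        ring
      have e4 : c * ((y - x) / n) * ψ (p i) / S (p (i + 1)) ≤ c * ((y - x) / n) * ψ y / S x := by
        have c0 : 0 ≤ c * ((y - x) / n) := mul_nonneg hc hh.le
        exact div_le_div₀ (mul_nonneg c0 (hψp.trans hψy)) (mul_le_mul_of_nonneg_left hψy c0) sx sx1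
      rw [e1]
      refine le_trans ?_ e2
      rw [e3]
      have := mul_le_mul_of_nonneg_right e4 (sub_nonneg.2 s12)
      linarith
    have hsum := sum_le_sum hstep
    have t1 : ∑ i ∈ range n, ((S (p i))⁻¹ - (S (p (i + 1)))⁻¹) = (S x)⁻¹ - (S y)⁻¹ := by
      rw [Finset.sum_range_sub', hp0, hpn]
    have t2 : ∑ i ∈ range n, (S (p (i + 1)) - S (p i)) = S y - S x := by
      rw [Finset.sum_range_sub (fun i => S (p i)), hp0, hpn]
    have t3 : ∑ i ∈ range n, (y - x) / n * ψ (p (i + 1)) =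
        ∑ i ∈ range n, (y - x) / n * ψ (p i) + (y - x) / n * (ψ y - ψ x) := by
      have : ∑ i ∈ range n, ((y - x) / n * ψ (p (i + 1)) - (y - x) / n * ψ (p i)) =
          (y - x) / n * (ψ y - ψ x) := by
        rw [Finset.sum_range_sub (fun i => (y - x) / n * ψ (p i)), hp0, hpn]
        ring
      rw [sum_sub_distrib] at this
      linarith
    have t4 := le_riemann hlt (hψ.mono hsub) hn
    have t7 : ∑ i ∈ range n, (y - x) / n * ψ (x + (y - x) / n * (i + 1 : ℕ)) =
        ∑ i ∈ range n, (y - x) / n * ψ (p (i + 1)) := rfl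
    rw [t7, t3] at t4
    have u1 : ∑ i ∈ range n, c * ((y - x) / n * ψ (p i)) =
        c * ∑ i ∈ range n, (y - x) / n * ψ (p i) := (mul_sum _ _ _).symm
    have u2 : ∑ i ∈ range n, c * ((y - x) / n) * ψ y / S x * (S (p (i + 1)) - S (p i)) =
        c * ((y - x) / n) * ψ y / S x * (S y - S x) := by rw [← mul_sum, t2]
    rw [t1, sum_sub_distrib, u1, u2] at hsum
    have t5 := mul_le_mul_of_nonneg_left t4 hc
    have t6 : c * ((y - x) / n) * ψ y / S x * (S y - S x) + c * ((y - x) / n * (ψ y - ψ x)) =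
        (c * (y - x) * (ψ y - ψ x + ψ y * (S y - S x) / S x)) / n := by
      ring
    rw [← t6]
    nlinarith [hsum, t5]
  have hlim : Filter.Tendsto (fun n : ℕ => c * (∫ t in x..y, ψ t) -
      (c * (y - x) * (ψ y - ψ x + ψ y * (S y - S x) / S x)) / n) Filter.atTop
      (nhds (c * (∫ t in x..y, ψ t) - 0)) :=
    tendsto_const_nhds.sub (tendsto_const_div_atTop_nhds_zero_nat _)
  rw [sub_zero] at hlim
  exact le_of_tendsto hlim (Filter.eventually_atTop.2 ⟨1, fun n hn => key n hn⟩)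

/-- The case `ψ = 1`. -/
theorem inv_lip {S : ℝ → ℝ} {a b C : ℝ} (hC : 0 ≤ C) (hS : MonotoneOn S (Set.Icc a b))
    (hp : ∀ x ∈ Set.Icc a b, 0 < S x)
    (h : ∀ x y, a ≤ x → x ≤ y → y ≤ b → S y - S x ≤ C * (y - x) * S y ^ 2)
    {x y : ℝ} (hx : a ≤ x) (hxy : x ≤ y) (hy : y ≤ b) :
    (S x)⁻¹ - (S y)⁻¹ ≤ C * (y - x) := by
  have h1 := inv_sub_inv_le (ψ := fun _ => 1) hC hS hp (fun _ _ _ _ _ => le_refl _)
    (fun _ _ => zero_le_one) (fun x y h1 h2 h3 => by
      rw [mul_one]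
      exact h x y h1 h2 h3) hx hxy hy
  rw [intervalIntegral.integral_const, smul_eq_mul, mul_one] at h1
  exact h1

theorem lip_inv {S : ℝ → ℝ} {a b c : ℝ} (hc : 0 ≤ c) (hS : MonotoneOn S (Set.Icc a b))
    (hp : ∀ x ∈ Set.Icc a b, 0 < S x)
    (h : ∀ x y, a ≤ x → x ≤ y → y ≤ b → c * (y - x) * S x ^ 2 ≤ S y - S x)
    {x y : ℝ} (hx : a ≤ x) (hxy : x ≤ y) (hy : y ≤ b) :
    c * (y - x) ≤ (S x)⁻¹ - (S y)⁻¹ := by
  have h1 := le_inv_sub_inv (ψ := fun _ => 1) hc hS hp (fun _ _ _ _ _ => le_refl _)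
    (fun _ _ => zero_le_one) (fun x y h1 h2 h3 => by
      rw [mul_one]
      exact h x y h1 h2 h3) hx hxy hy
  rw [intervalIntegral.integral_const, smul_eq_mul, mul_one] at h1
  exact h1

end Pool.Agent.DL.Ode
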