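import Pool.Agent.DL.Gc
import Pool.Agent.DL.DeA
import Pool.Agent.DL.Ode
import Pool.Agent.DL.DgA
import Pool.Agent.DL.De

/-!
# Lower bound for the decrease of the inverse generating function in the coupling of the line
-/

set_option autoImplicit false
set_option linter.unusedSectionVars false

namespace Pool.Agent.DL

open Finset
open scoped ENNReal

namespace Dg

variable {D : ℕ} {q β J1 : ℝ}

theorem card_edges {c : Pr D} (hc : (lat D).IsCl c.1 c.2) :
    c.2.card ≤ c.1.card * (D + 1) := by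
  have h1 : c.2 ⊆ c.1 ×ˢ (Finset.univ : Finset (Option (Fin D))) := by
    intro e he
    rw [Finset.mem_product]
    exact ⟨(hc.2.1 e he).1, Finset.mem_univ _⟩
  have h2 := Finset.card_le_card h1
  rwa [Finset.card_product, Finset.card_univ, Fintype.card_option, Fintype.card_fin] at h2

theorem ng_le (a M : ℝ) (c : Pr D) (n : ℕ) : ng a M c n ≤ n := by
  classical
  unfold ng
  exact (Finset.card_filter_le _ _).trans (Finset.card_range n).le

/-- Clusters with many edges are unlikely, uniformly in the coupling. -/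
theorem tail (h : Reg D q β J1) (m : ℕ) : ∃ C η : ℝ, 0 < C ∧ 0 < η ∧
    ∀ (N : ℕ) (J : ℝ), 1 ≤ J → J ≤ J1 → TN D q β J m 0 0 ≤ TK D q β N J m +
      ENNReal.ofReal (C * Real.exp (-(η * N))) := by
  obtain ⟨M0, ρ, η, c0, hM0, hρ, hη, hc0, hk⟩ := few_good h 1 one_pos
  obtain ⟨C, hC, hF⟩ := hk m
  have hD : (0 : ℝ) < D + 1 := by positivity
  refine ⟨C, η / (D + 1), hC, div_pos hη hD, ?_⟩
  intro N J hJ hJ1
  have h1 := hF M0 le_rfl J hJ hJ1 m 0 0
  set F : Pr D → ℝ≥0∞ := fun c' => ii (((0, 0) : Site D) ∈ c'.1 ∧ (((m : ℤ), 0) : Site D) ∈ c'.1 ∧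
        (ng 1 M0 c' m : ℝ) ≤ ρ * m + m) * ENNReal.ofReal (Real.exp (η * c'.1.card)) with hFd
  have h2 : sm D q β J F ≤ ENNReal.ofReal C := by
    refine h1.trans ?_
    have e1 : ex (xiR D q β J + c0) m ≤ 1 :=
      ex_le_one (add_nonneg (xiR_nonneg h.toBas hJ) hc0.le) (Nat.cast_nonneg m)
    have e2 : ex c0 (SB.nt ((0 : Tv D) - 0)) ≤ 1 := ex_le_one hc0.le (Nat.cast_nonneg _)
    calc ENNReal.ofReal C * ex (xiR D q β J + c0) m * ex c0 (SB.nt ((0 : Tv D) - 0))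
        ≤ ENNReal.ofReal C * 1 * 1 := mul_le_mul' (mul_le_mul_right e1 _) e2
      _ = ENNReal.ofReal C := by rw [mul_one, mul_one]
  set s : ℝ≥0∞ := ENNReal.ofReal (Real.exp (-(η / (D + 1) * N))) with hs
  have key : ∀ c : Pr D, WI D q β J c * ii (((0, 0) : Site D) ∈ c.1 ∧
      (((m : ℤ), 0) : Site D) ∈ c.1 ∧ abv 0 c ∧ bel m c) ≤
      WI D q β J c * ii (((0, 0) : Site D) ∈ c.1 ∧ (((m : ℤ), 0) : Site D) ∈ c.1 ∧ abv 0 c ∧
        bel m c ∧ c.2.card ≤ N) + s * (WI D q β J c * F c) := by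
    intro c
    by_cases hc : (lat D).IsCl c.1 c.2
    swap
    · have : WI D q β J c = 0 := if_neg hc
      rw [this, zero_mul]
      exact bot_le
    by_cases hP : ((0, 0) : Site D) ∈ c.1 ∧ (((m : ℤ), 0) : Site D) ∈ c.1 ∧ abv 0 c ∧ bel m c
    swap
    · have : ii (((0, 0) : Site D) ∈ c.1 ∧ (((m : ℤ), 0) : Site D) ∈ c.1 ∧ abv 0 c ∧ bel m c)
          = 0 := if_neg hP
      rw [this, mul_zero]
      exact bot_le
    have e1 : ii (((0, 0) : Site D) ∈ c.1 ∧ (((m : ℤ), 0) : Site D) ∈ c.1 ∧ abv 0 c ∧ bel m c)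
        = 1 := if_pos hP
    rw [e1, mul_one]
    by_cases hN : c.2.card ≤ N
    · have e2 : ii (((0, 0) : Site D) ∈ c.1 ∧ (((m : ℤ), 0) : Site D) ∈ c.1 ∧ abv 0 c ∧
          bel m c ∧ c.2.card ≤ N) = 1 := if_pos ⟨hP.1, hP.2.1, hP.2.2.1, hP.2.2.2, hN⟩
      rw [e2, mul_one]
      exact le_self_add
    · refine le_trans ?_ le_add_self
      have e2 : F c = ENNReal.ofReal (Real.exp (η * c.1.card)) := by
        have e3 : ii (((0, 0) : Site D) ∈ c.1 ∧ (((m : ℤ), 0) : Site D) ∈ c.1 ∧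
            (ng 1 M0 c m : ℝ) ≤ ρ * m + m) = 1 := by
          refine if_pos ⟨hP.1, hP.2.1, ?_⟩
          have e4 : (ng 1 M0 c m : ℝ) ≤ m := by exact_mod_cast ng_le 1 M0 c m
          have e5 : 0 ≤ ρ * m := mul_nonneg hρ.le (Nat.cast_nonneg m)
          linarith
        show ii (((0, 0) : Site D) ∈ c.1 ∧ (((m : ℤ), 0) : Site D) ∈ c.1 ∧
            (ng 1 M0 c m : ℝ) ≤ ρ * m + m) * ENNReal.ofReal (Real.exp (η * c.1.card)) = _
        rw [e3, one_mul]
      have e3 : 1 ≤ s * ENNReal.ofReal (Real.exp (η * c.1.card)) := by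
        rw [hs, ← ENNReal.ofReal_mul (Real.exp_nonneg _), ← Real.exp_add, ← ENNReal.ofReal_one]
        refine ENNReal.ofReal_le_ofReal (Real.one_le_exp ?_)
        have e4 : (N : ℝ) ≤ c.1.card * (D + 1) := by
          have := card_edges hc
          have h5 : N ≤ c.1.card * (D + 1) := by omega
          exact_mod_cast h5
        have e5 : η / (D + 1) * N ≤ η / (D + 1) * (c.1.card * (D + 1)) :=
          mul_le_mul_of_nonneg_left e4 (div_pos hη hD).le
        have e6 : η / (D + 1) * (c.1.card * (D + 1)) = η * c.1.card := by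
          field_simp
        linarith
      rw [e2]
      calc WI D q β J c = WI D q β J c * 1 := (mul_one _).symm
        _ ≤ WI D q β J c * (s * ENNReal.ofReal (Real.exp (η * c.1.card))) :=
            mul_le_mul_right e3 _
        _ = s * (WI D q β J c * ENNReal.ofReal (Real.exp (η * c.1.card))) := by ring
  calc TN D q β J m 0 0 ≤ ∑' c : Pr D, (WI D q β J c * ii (((0, 0) : Site D) ∈ c.1 ∧
        (((m : ℤ), 0) : Site D) ∈ c.1 ∧ abv 0 c ∧ bel m c ∧ c.2.card ≤ N) +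
          s * (WI D q β J c * F c)) := ENNReal.tsum_le_tsum key
    _ = TK D q β N J m + s * sm D q β J F := by
        rw [ENNReal.tsum_add, ENNReal.tsum_mul_left]
        rfl
    _ ≤ TK D q β N J m + s * ENNReal.ofReal C := by
        refine add_le_add le_rfl (mul_le_mul_right h2 _)
    _ = _ := by
        rw [hs, ← ENNReal.ofReal_mul (Real.exp_nonneg _), mul_comm C]

/-- The same with a small error. -/
theorem tail_eps (h : Reg D q β J1) {z : ℝ≥0∞} (hz : z ≠ ⊤) (m : ℕ) {ε : ℝ} (hε : 0 < ε) :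
    ∃ N0 : ℕ, ∀ N, N0 ≤ N → ∀ J : ℝ, 1 ≤ J → J ≤ J1 →
      z ^ m * TN D q β J m 0 0 ≤ z ^ m * TK D q β N J m + ENNReal.ofReal ε := by
  obtain ⟨C, η, hC, hη, hT⟩ := tail h m
  have hA : z ^ m * ENNReal.ofReal C ≠ ⊤ :=
    ENNReal.mul_ne_top (ENNReal.pow_ne_top hz) ENNReal.ofReal_ne_top
  set A := (z ^ m * ENNReal.ofReal C).toReal with hAd
  have hA0 : 0 ≤ A := ENNReal.toReal_nonneg
  obtain ⟨N0, hN0⟩ := exists_nat_gt (A / (ε * η))
  refine ⟨N0, fun N hN J hJ hJ1 => ?_⟩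
  have h1 : A < η * N * ε := by
    have h2 : (N0 : ℝ) ≤ N := by exact_mod_cast hN
    have h3 : A / (ε * η) < N := lt_of_lt_of_le hN0 h2
    rw [div_lt_iff₀ (mul_pos hε hη)] at h3
    linarith
  have h2 : A * Real.exp (-(η * N)) ≤ ε := by
    have h3 := Real.add_one_le_exp (η * N)
    have h4 : Real.exp (-(η * N)) * Real.exp (η * N) = 1 := by
      rw [← Real.exp_add, neg_add_cancel, Real.exp_zero]
    have h5 : 0 < Real.exp (-(η * N)) := Real.exp_pos _
    have h6 : Real.exp (-(η * N)) * (η * N) ≤ 1 := by nlinarith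
    calc A * Real.exp (-(η * N)) ≤ (η * N * ε) * Real.exp (-(η * N)) :=
          mul_le_mul_of_nonneg_right h1.le h5.le
      _ = ε * (Real.exp (-(η * N)) * (η * N)) := by ring
      _ ≤ ε * 1 := mul_le_mul_of_nonneg_left h6 hε.le
      _ = ε := mul_one ε
  calc z ^ m * TN D q β J m 0 0 ≤ z ^ m * (TK D q β N J m +
        ENNReal.ofReal (C * Real.exp (-(η * N)))) := mul_le_mul_right (hT N J hJ hJ1) _
    _ = z ^ m * TK D q β N J m + z ^ m * ENNReal.ofReal C *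
        ENNReal.ofReal (Real.exp (-(η * N))) := by
        rw [mul_add, ENNReal.ofReal_mul hC.le, mul_assoc]
    _ ≤ _ := by
        refine add_le_add le_rfl ?_
        rw [← ENNReal.ofReal_toReal hA, ← hAd, ← ENNReal.ofReal_mul hA0]
        exact ENNReal.ofReal_le_ofReal h2

theorem ST_le_TK (h : Reg D q β J1) {z : ℝ≥0∞} (hz : z ≠ ⊤) {ε : ℝ} (hε : 0 < ε) (L : ℕ) :
    ∃ N0 : ℕ, ∀ N, N0 ≤ N → ∀ J : ℝ, 1 ≤ J → J ≤ J1 →
      ∑ m ∈ range L, z ^ m * TN D q β J m 0 0 ≤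
        ∑ m ∈ range L, z ^ m * TK D q β N J m + L * ENNReal.ofReal ε := by
  induction L with
  | zero => exact ⟨0, fun N _ J _ _ => by simp⟩
  | succ L ih =>
    obtain ⟨N1, hN1⟩ := ih
    obtain ⟨N2, hN2⟩ := tail_eps h hz L hε
    refine ⟨max N1 N2, fun N hN J hJ hJ1 => ?_⟩
    have h1 := hN1 N ((le_max_left _ _).trans hN) J hJ hJ1
    have h2 := hN2 N ((le_max_right _ _).trans hN) J hJ hJ1
    rw [Finset.sum_range_succ, Finset.sum_range_succ]
    refine (add_le_add h1 h2).trans (le_of_eq ?_)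
    push_cast
    ring

/-- The Cauchy product. -/
theorem cauchy (a : ℕ → ℝ≥0∞) (z : ℝ≥0∞) :
    z * (∑' m, z ^ m * a m) ^ 2 ≤ ∑' n, z ^ n * ∑ m ∈ range n, a m * a (n - 1 - m) := by
  have h1 : ∀ n, z ^ n * ∑ m ∈ range n, a m * a (n - 1 - m) =
      ∑' m, if m < n then z ^ n * (a m * a (n - 1 - m)) else 0 := by
    intro n
    rw [tsum_eq_sum (s := range n), Finset.mul_sum]
    · exact Finset.sum_congr rfl fun m hm => by rw [if_pos (Finset.mem_range.1 hm)]
    · intro m hm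
      rw [if_neg fun h => hm (Finset.mem_range.2 h)]
  rw [tsum_congr h1, ENNReal.tsum_comm]
  calc z * (∑' m, z ^ m * a m) ^ 2 = ∑' m, ∑' k, z * (z ^ m * a m) * (z ^ k * a k) := by
        have e : ∀ m, ∑' k, z * (z ^ m * a m) * (z ^ k * a k) =
            z * (z ^ m * a m) * ∑' k, z ^ k * a k := fun m => ENNReal.tsum_mul_left
        rw [tsum_congr e, ENNReal.tsum_mul_right, ENNReal.tsum_mul_left]
        ring
    _ ≤ _ := by
        refine ENNReal.tsum_le_tsum fun m => ?_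
        have hinj : Function.Injective fun k : ℕ => m + 1 + k := add_right_injective (m + 1)
        refine le_trans (le_of_eq ?_) (ENNReal.tsum_comp_le_tsum_of_injective hinj
          fun n => if m < n then z ^ n * (a m * a (n - 1 - m)) else 0)
        refine tsum_congr fun k => ?_
        have e1 : m < m + 1 + k := by omega
        have e2 : m + 1 + k - 1 - m = k := by omega
        simp only [if_pos e1, e2]
        rw [pow_add, pow_add, pow_one]
        ring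

theorem GN_mono (h : Reg D q β J1) {x y : ℝ} (hx : 1 ≤ x) (hxy : x ≤ y) (hy : y ≤ J1) (n : ℕ) :
    GN D q β x n 0 0 ≤ GN D q β y n 0 0 := by
  obtain ⟨c, C, hc, hC, H⟩ := step_ge h
  exact le_self_add.trans (H 0 n x y hx hxy hy)

theorem SG_mono (h : Reg D q β J1) {x y : ℝ} (hx : 1 ≤ x) (hxy : x ≤ y) (hy : y ≤ J1)
    (z : ℝ≥0∞) (L : ℕ) : SG D q β x z L 0 0 ≤ SG D q β y z L 0 0 :=
  Finset.sum_le_sum fun n _ => mul_le_mul_right (GN_mono h hx hxy hy n) _

theorem GI_mono (h : Reg D q β J1) {x y : ℝ} (hx : 1 ≤ x) (hxy : x ≤ y) (hy : y ≤ J1)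
    (z : ℝ≥0∞) : GI D q β x z 0 0 ≤ GI D q β y z 0 0 :=
  ENNReal.tsum_le_tsum fun n => mul_le_mul_right (GN_mono h hx hxy hy n) _

theorem one_le_SG (h : Reg D q β J1) {J : ℝ} (hJ : 1 ≤ J) (hJ1 : J ≤ J1) (z : ℝ≥0∞) (L : ℕ) :
    1 ≤ SG D q β J z L 0 0 := by
  unfold SG
  refine le_trans ?_ (Finset.single_le_sum (f := fun n => z ^ n * GN D q β J n 0 0)
    (fun _ _ => bot_le) (Finset.mem_range.2 (Nat.succ_pos L)))
  simp only [pow_zero, one_mul]
  rw [GN_eq h J hJ hJ1]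
  have h1 : GG D q β J ((0 : ℤ), (0 : Tv D)) (((0 : ℕ) : ℤ), (0 : Tv D)) = 1 := by
    rw [Nat.cast_zero]
    exact pw_GG_self h.toBas (by linarith) _
  rw [h1, ENNReal.ofReal_one]

theorem SG_le_GI (J : ℝ) (z : ℝ≥0∞) (L : ℕ) :
    SG D q β J z L 0 0 ≤ GI D q β J z 0 0 := ENNReal.sum_le_tsum _

/-- One step. -/
theorem one (h : Reg D q β J1) : ∃ c C : ℝ, 0 < c ∧ 0 < C ∧ ∀ (N : ℕ) (x y : ℝ), 1 ≤ x →
    x ≤ y → y ≤ J1 → ∀ z : ℝ≥0∞, 1 ≤ z → ∀ A : ℝ≥0∞, A ≤ ∑' m, z ^ m * TK D q β N y m →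
      GI D q β x z 0 0 + ENNReal.ofReal (c * (y - x) * Real.exp (-(C * (y - x) * N))) * A ^ 2 ≤
        GI D q β y z 0 0 := by
  obtain ⟨c, C, hc, hC, H⟩ := step_ge h
  refine ⟨c, C, hc, hC, fun N x y hx hxy hy z hz A hA => ?_⟩
  set κ := ENNReal.ofReal (c * (y - x) * Real.exp (-(C * (y - x) * N))) with hκ
  calc GI D q β x z 0 0 + κ * A ^ 2
      ≤ GI D q β x z 0 0 + κ * ∑' n, z ^ n * ∑ m ∈ range n, TK D q β N y m *
          TK D q β N y (n - 1 - m) := by
        refine add_le_add le_rfl (mul_le_mul_right ?_ _)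
        refine le_trans ?_ (cauchy (fun m => TK D q β N y m) z)
        calc A ^ 2 ≤ (∑' m, z ^ m * TK D q β N y m) ^ 2 := pow_le_pow_left₀ bot_le hA 2
          _ = 1 * (∑' m, z ^ m * TK D q β N y m) ^ 2 := (one_mul _).symm
          _ ≤ z * (∑' m, z ^ m * TK D q β N y m) ^ 2 := mul_le_mul_left hz _
    _ = ∑' n, z ^ n * (GN D q β x n 0 0 + κ * ∑ m ∈ range n, TK D q β N y m *
          TK D q β N y (n - 1 - m)) := by
        unfold GI
        rw [← ENNReal.tsum_mul_left, ← ENNReal.tsum_add]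
        exact tsum_congr fun n => by ring
    _ ≤ GI D q β y z 0 0 :=
        ENNReal.tsum_le_tsum fun n => mul_le_mul_right (H N n x y hx hxy hy) _

/-- Many steps. -/
theorem many (h : Reg D q β J1) : ∃ c C : ℝ, 0 < c ∧ 0 < C ∧ ∀ (N : ℕ) (x y : ℝ), 1 ≤ x →
    x ≤ y → y ≤ J1 → ∀ z : ℝ≥0∞, 1 ≤ z → ∀ A : ℝ≥0∞,
      (∀ s, x ≤ s → s ≤ y → A ≤ ∑' m, z ^ m * TK D q β N s m) → ∀ K : ℕ, 0 < K →
      GI D q β x z 0 0 + ENNReal.ofReal (c * (y - x) * Real.exp (-(C * ((y - x) / K) * N))) *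
        A ^ 2 ≤ GI D q β y z 0 0 := by
  obtain ⟨c, C, hc, hC, H⟩ := one h
  refine ⟨c, C, hc, hC, fun N x y hx hxy hy z hz A hA K hK => ?_⟩
  have hK' : (0 : ℝ) < K := by exact_mod_cast hK
  set d := (y - x) / K with hd
  have hd0 : 0 ≤ d := div_nonneg (by linarith) hK'.le
  have hdK : K * d = y - x := by
    rw [hd]
    field_simp
  set κ := ENNReal.ofReal (c * d * Real.exp (-(C * d * N))) with hκ
  have key : ∀ i : ℕ, i ≤ K → GI D q β x z 0 0 + i * (κ * A ^ 2) ≤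
      GI D q β (x + i * d) z 0 0 := by
    intro i
    induction i with
    | zero =>
      intro _
      simp
    | succ i ih =>
      intro hi
      have ih' := ih (by omega)
      have hi' : ((i + 1 : ℕ) : ℝ) ≤ K := by exact_mod_cast hi
      have e1 : ((i + 1 : ℕ) : ℝ) * d ≤ y - x := by
        rw [← hdK]
        exact mul_le_mul_of_nonneg_right hi' hd0
      have e2 : 0 ≤ (i : ℝ) * d := mul_nonneg (Nat.cast_nonneg i) hd0
      have e3 : x + ((i + 1 : ℕ) : ℝ) * d = x + i * d + d := by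
        push_cast
        ring
      have h1 := H N (x + i * d) (x + ((i + 1 : ℕ) : ℝ) * d) (by linarith) (by linarith)
        (by linarith) z hz A (hA _ (by linarith) (by linarith))
      have e4 : x + ((i + 1 : ℕ) : ℝ) * d - (x + i * d) = d := by
        rw [e3]
        ring
      rw [e4] at h1
      refine le_trans ?_ h1
      calc GI D q β x z 0 0 + ((i + 1 : ℕ) : ℝ≥0∞) * (κ * A ^ 2)
          = (GI D q β x z 0 0 + i * (κ * A ^ 2)) + κ * A ^ 2 := by
            push_cast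
            ring
        _ ≤ _ := add_le_add ih' le_rfl
  have h1 := key K le_rfl
  have e1 : x + (K : ℝ) * d = y := by
    rw [hdK]
    ring
  rw [e1] at h1
  refine le_trans (le_of_eq ?_) h1
  congr 1
  rw [← mul_assoc]
  congr 1
  rw [hκ, ← ENNReal.ofReal_natCast, ← ENNReal.ofReal_mul hK'.le]
  congr 1
  rw [← hdK]
  ring

/-- The increments. -/
theorem incr (h : Reg D q β J1) (hB : S1B D q β) : ∃ δ c : ℝ, 0 < δ ∧ 0 < c ∧
    ∀ x y, x ≤ y → Jok D q β J1 δ x → Jok D q β J1 δ y → ∀ z ≤ zc D q β, 1 ≤ z →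
      GI D q β y z 0 0 ≠ ⊤ →
      GI D q β x z 0 0 + ENNReal.ofReal (c * (y - x)) * GI D q β x z 0 0 ^ 2 ≤
        GI D q β y z 0 0 := by
  obtain ⟨δ, C', hδ, hC', hconf⟩ := conf_ge h hB
  obtain ⟨c, C, hc, hC, H⟩ := many h
  refine ⟨δ, c / 2 * (1 / (4 * C')) ^ 2, hδ, by positivity, ?_⟩
  intro x y hxy hx hy z hz hz1 hfin
  have hzt : z ≠ ⊤ := ne_top_of_le_ne_top ENNReal.ofReal_ne_top hz
  have hJs : ∀ s, x ≤ s → s ≤ y → Jok D q β J1 δ s := fun s h1 h2 =>
    ⟨hx.h1.trans h1, h2.trans hy.h2, hy.h3.trans (xiR_anti h.toBas (hx.h1.trans h1) h2)⟩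
  have hGx : GI D q β x z 0 0 ≠ ⊤ :=
    ne_top_of_le_ne_top hfin (GI_mono h hx.h1 hxy hy.h2 z)
  -- choose `L`
  obtain ⟨L, hL⟩ : ∃ L : ℕ, GI D q β x z 0 0 ≤ 2 * SG D q β x z L 0 0 := by
    by_contra hcon
    push Not at hcon
    have h1 : 2 * GI D q β x z 0 0 ≤ GI D q β x z 0 0 := by
      have h2 : GI D q β x z 0 0 = ⨆ L : ℕ, SG D q β x z L 0 0 := by
        unfold GI SG
        rw [ENNReal.tsum_eq_iSup_nat]
        refine le_antisymm (iSup_le fun L => ?_) (iSup_le fun L => ?_)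
        · refine le_trans ?_ (le_iSup _ L)
          exact Finset.sum_le_sum_of_subset (Finset.range_subset_range.2 (Nat.le_succ L))
        · exact le_iSup (fun i => ∑ n ∈ range i, z ^ n * GN D q β x n 0 0) (L + 1)
      calc 2 * GI D q β x z 0 0 = ⨆ L : ℕ, 2 * SG D q β x z L 0 0 := by
            rw [h2, ENNReal.mul_iSup]
        _ ≤ GI D q β x z 0 0 := iSup_le fun L => (hcon L).le
    have h3 : 1 ≤ GI D q β x z 0 0 := (one_le_SG h hx.h1 hx.h2 z 0).trans (SG_le_GI x z 0)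
    rw [two_mul] at h1
    have h4 : GI D q β x z 0 0 + GI D q β x z 0 0 ≤ GI D q β x z 0 0 + 0 := by
      rwa [add_zero]
    have h5 := (ENNReal.add_le_add_iff_left hGx).1 h4
    exact absurd (h3.trans h5) (by simp)
  -- choose `N`
  have hL0 : (0 : ℝ) < (L : ℝ) + 1 := by positivity
  obtain ⟨N, hN⟩ := ST_le_TK h hzt (ε := 1 / (2 * C' * (L + 1))) (by positivity) (L + 1)
  set A : ℝ≥0∞ := ENNReal.ofReal (1 / (2 * C')) * SG D q β x z L 0 0 with hA
  have hAs : ∀ s, x ≤ s → s ≤ y → A ≤ ∑' m, z ^ m * TK D q β N s m := by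
    intro s h1 h2
    have hs := hJs s h1 h2
    have h3 : SG D q β x z L 0 0 ≤ ENNReal.ofReal C' * ∑ m ∈ range (L + 1),
        z ^ m * TK D q β N s m + 2⁻¹ * SG D q β x z L 0 0 := by
      calc SG D q β x z L 0 0 ≤ SG D q β s z L 0 0 := SG_mono h hx.h1 h1 hs.h2 z L
        _ ≤ ENNReal.ofReal C' * ST D q β s z L 0 0 := hconf s hs z hz L
        _ ≤ ENNReal.ofReal C' * (∑ m ∈ range (L + 1), z ^ m * TK D q β N s m +
            ((L + 1 : ℕ) : ℝ≥0∞) * ENNReal.ofReal (1 / (2 * C' * (L + 1)))) :=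
            mul_le_mul_right (hN N le_rfl s hs.h1 hs.h2) _
        _ = ENNReal.ofReal C' * ∑ m ∈ range (L + 1), z ^ m * TK D q β N s m + 2⁻¹ := by
            rw [mul_add]
            congr 1
            rw [← ENNReal.ofReal_natCast, ← ENNReal.ofReal_mul (Nat.cast_nonneg _),
              ← ENNReal.ofReal_mul hC'.le]
            have e1 : C' * (((L + 1 : ℕ) : ℝ) * (1 / (2 * C' * (L + 1)))) = 2⁻¹ := by
              push_cast
              field_simp
            rw [e1, ENNReal.ofReal_inv_of_pos two_pos]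
            simp
        _ ≤ _ := by
            refine add_le_add le_rfl ?_
            calc (2 : ℝ≥0∞)⁻¹ = 2⁻¹ * 1 := (mul_one _).symm
              _ ≤ _ := mul_le_mul_right (one_le_SG h hx.h1 hx.h2 z L) _
    have h4 := De.absorb (ne_top_of_le_ne_top hGx (SG_le_GI x z L)) h3
    calc A ≤ ENNReal.ofReal (1 / (2 * C')) * (2 * (ENNReal.ofReal C' * ∑ m ∈ range (L + 1),
          z ^ m * TK D q β N s m)) := mul_le_mul_right h4 _
      _ = (ENNReal.ofReal (1 / (2 * C')) * (2 * ENNReal.ofReal C')) * ∑ m ∈ range (L + 1),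
          z ^ m * TK D q β N s m := by ring
      _ = ∑ m ∈ range (L + 1), z ^ m * TK D q β N s m := by
          have e1 : (2 : ℝ≥0∞) = ENNReal.ofReal 2 := by simp
          rw [e1, ← ENNReal.ofReal_mul (by norm_num), ← ENNReal.ofReal_mul (by positivity)]
          have e2 : 1 / (2 * C') * (2 * C') = 1 := by field_simp
          rw [e2, ENNReal.ofReal_one, one_mul]
      _ ≤ _ := ENNReal.sum_le_tsum _
  -- choose `K`
  obtain ⟨K, hK⟩ := exists_nat_gt (max 0 (2 * (C * (y - x) * N)))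
  have hK0 : (0 : ℝ) < K := lt_of_le_of_lt (le_max_left _ _) hK
  have hK1 : 2 * (C * (y - x) * N) < K := lt_of_le_of_lt (le_max_right _ _) hK
  have h1 := H N x y hx.h1 hxy hy.h2 z hz1 A hAs K (by exact_mod_cast hK0)
  refine le_trans (add_le_add le_rfl ?_) h1
  have e1 : 1 / 2 ≤ Real.exp (-(C * ((y - x) / K) * N)) := by
    have h2 := Real.add_one_le_exp (-(C * ((y - x) / K) * N))
    have h3 : C * ((y - x) / K) * N ≤ 1 / 2 := by
      have : C * ((y - x) / K) * N = (C * (y - x) * N) / K := by ring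
      rw [this, div_le_iff₀ hK0]
      linarith
    linarith
  have e2 : GI D q β x z 0 0 ≤ ENNReal.ofReal (4 * C') * A := by
    refine hL.trans (le_of_eq ?_)
    have e3 : (2 : ℝ≥0∞) = ENNReal.ofReal (4 * C') * ENNReal.ofReal (1 / (2 * C')) := by
      rw [← ENNReal.ofReal_mul (by positivity)]
      have : 4 * C' * (1 / (2 * C')) = 2 := by field_simp; norm_num
      rw [this]
      simp
    rw [hA, ← mul_assoc, ← e3]
  calc ENNReal.ofReal (c / 2 * (1 / (4 * C')) ^ 2 * (y - x)) * GI D q β x z 0 0 ^ 2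
      ≤ ENNReal.ofReal (c / 2 * (1 / (4 * C')) ^ 2 * (y - x)) *
          (ENNReal.ofReal (4 * C') * A) ^ 2 :=
        mul_le_mul_right (pow_le_pow_left₀ bot_le e2 2) _
    _ = ENNReal.ofReal (c * (y - x) * (1 / 2)) * A ^ 2 := by
        rw [mul_pow, ← mul_assoc, ← ENNReal.ofReal_pow (by positivity),
          ← ENNReal.ofReal_mul (mul_nonneg (by positivity) (by linarith))]
        congr 2
        field_simp
    _ ≤ _ := by
        refine mul_le_mul_left (ENNReal.ofReal_le_ofReal ?_) _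
        exact mul_le_mul_of_nonneg_left e1 (mul_nonneg hc.le (by linarith))

end Dg

/-- Lower bound for the decrease of the inverse generating function. -/
theorem inv_ge {D : ℕ} {q β J1 : ℝ} (h : Reg D q β J1) (hB : S1B D q β) :
    ∃ δ c : ℝ, 0 < δ ∧ 0 < c ∧ ∀ J J', J ≤ J' → Jok D q β J1 δ J → Jok D q β J1 δ J' →
      ∀ z ≤ zc D q β, 1 ≤ z → GI D q β J' z 0 0 ≠ ⊤ →
      (GI D q β J' z 0 0)⁻¹ + ENNReal.ofReal (c * (J' - J)) ≤ (GI D q β J z 0 0)⁻¹ := by
  obtain ⟨δ, c, hδ, hc, H⟩ := Dg.incr h hB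
  refine ⟨δ, c, hδ, hc, fun J J' hJJ hJ hJ' z hz hz1 hfin => ?_⟩
  have hJs : ∀ s, J ≤ s → s ≤ J' → Jok D q β J1 δ s := fun s h1 h2 =>
    ⟨hJ.h1.trans h1, h2.trans hJ'.h2, hJ'.h3.trans (xiR_anti h.toBas (hJ.h1.trans h1) h2)⟩
  have hf : ∀ s, J ≤ s → s ≤ J' → GI D q β s z 0 0 ≠ ⊤ := fun s h1 h2 =>
    ne_top_of_le_ne_top hfin (Dg.GI_mono h (hJ.h1.trans h1) h2 hJ'.h2 z)
  have hone : ∀ s, J ≤ s → s ≤ J' → 1 ≤ GI D q β s z 0 0 := fun s h1 h2 =>
    (Dg.one_le_SG h (hJ.h1.trans h1) (h2.trans hJ'.h2) z 0).trans (Dg.SG_le_GI s z 0)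
  set S : ℝ → ℝ := fun s => (GI D q β s z 0 0).toReal with hS
  have hSpos : ∀ s, J ≤ s → s ≤ J' → 0 < S s := fun s h1 h2 =>
    ENNReal.toReal_pos (ne_of_gt (lt_of_lt_of_le one_pos (hone s h1 h2))) (hf s h1 h2)
  have h1 := Ode.lip_inv (S := S) (a := J) (b := J') hc.le
    (fun s hs t ht hst => ENNReal.toReal_mono (hf t ht.1 ht.2)
      (Dg.GI_mono h (hJ.h1.trans hs.1) hst (ht.2.trans hJ'.h2) z))
    (fun s hs => hSpos s hs.1 hs.2)
    (fun s t hs hst ht => by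
      have h2 := H s t hst (hJs s hs (hst.trans ht)) (hJs t (hs.trans hst) ht) z hz hz1
        (hf t (hs.trans hst) ht)
      have h3 := ENNReal.toReal_mono (hf t (hs.trans hst) ht) h2
      have hfs := hf s hs (hst.trans ht)
      rw [ENNReal.toReal_add hfs (ENNReal.mul_ne_top ENNReal.ofReal_ne_top
        (ENNReal.pow_ne_top hfs)), ENNReal.toReal_mul, ENNReal.toReal_pow,
        ENNReal.toReal_ofReal (mul_nonneg hc.le (by linarith))] at h3
      show c * (t - s) * (GI D q β s z 0 0).toReal ^ 2 ≤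
        (GI D q β t z 0 0).toReal - (GI D q β s z 0 0).toReal
      linarith)
    le_rfl hJJ le_rfl
  have e1 : (GI D q β J' z 0 0)⁻¹ = ENNReal.ofReal (S J')⁻¹ := by
    rw [ENNReal.ofReal_inv_of_pos (hSpos J' hJJ le_rfl), ENNReal.ofReal_toReal hfin]
  have e2 : (GI D q β J z 0 0)⁻¹ = ENNReal.ofReal (S J)⁻¹ := by
    rw [ENNReal.ofReal_inv_of_pos (hSpos J le_rfl hJJ), ENNReal.ofReal_toReal (hf J le_rfl hJJ)]
  rw [e1, e2, ← ENNReal.ofReal_add (inv_nonneg.2 (hSpos J' hJJ le_rfl).le)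
    (mul_nonneg hc.le (by linarith))]
  exact ENNReal.ofReal_le_ofReal (by linarith)

end Pool.Agent.DL
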