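import Pool.Agent.DL.Gs
import Pool.Agent.DL.Sz2

/-!
# The tail of the sums over the confined clusters, uniformly in the coupling
-/

set_option autoImplicit false
set_option linter.unusedSectionVars false

namespace Pool.Agent.DL

open Finset
open scoped ENNReal NNReal

namespace DgT

variable {D : ℕ} {q β : ℝ}

theorem card_edges_le {c : Pr D} (hc : (lat D).IsCl c.1 c.2) : c.2.card ≤ (D + 1) * c.1.card := by
  classical
  have h1 : c.2 ⊆ c.1 ×ˢ (Finset.univ : Finset (Option (Fin D))) := by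
    intro e he
    exact Finset.mem_product.2 ⟨(hc.2.1 e he).1, Finset.mem_univ _⟩
  have h2 := Finset.card_le_card h1
  rw [Finset.card_product, Finset.card_univ, Fintype.card_option, Fintype.card_fin] at h2
  linarith [h2, mul_comm c.1.card (D + 1)]

open Classical in
/-- Finite sums over the large confined clusters. -/
theorem fin_le {C c Jm : ℝ} (h : Bas D q β)
    (hs : ∀ (J : ℝ), 0 ≤ J → J ≤ Jm → ∀ (Λ : Finset (Site D)) (a : ℤ) (s : ℕ),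
      (∀ x ∈ Λ, a ≤ x.1 ∧ x.1 ≤ a + s) → ∀ (x : Site D) (k : ℕ),
      PP D q β J Λ (fun ω => (lat D).big ω x k) ≤ Real.exp (C * (s + 1) - c * k))
    {J : ℝ} (hJ : 0 ≤ J) (hJm : J ≤ Jm) (m k : ℕ) (x : Site D) (F : Finset (Pr D)) :
    ∑ c ∈ F, WI D q β J c * ii (x ∈ c.1 ∧ abv 0 c ∧ bel (m : ℤ) c ∧ k ≤ c.1.card) ≤
      ENNReal.ofReal (Real.exp (C * (m + 1) - c * k)) := by
  set Q : Pr D → Prop := fun d => (lat D).IsCl d.1 d.2 ∧ x ∈ d.1 ∧
    ((∀ y ∈ d.1, 0 ≤ y.1 ∧ y.1 ≤ (m : ℤ)) ∧ k ≤ d.1.card) with hQ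
  set F' := F.filter Q with hF'
  set Λ : Finset (Site D) := F'.biUnion fun c => c.1 with hΛ
  have h1 : ∑ c ∈ F, WI D q β J c * ii (x ∈ c.1 ∧ abv 0 c ∧ bel (m : ℤ) c ∧ k ≤ c.1.card) =
      ∑ c ∈ F', ENNReal.ofReal (WW D q β J c.1 c.2 * ZI D q β J c.1) := by
    rw [hF', Finset.sum_filter]
    refine Finset.sum_congr rfl fun d _ => ?_
    by_cases h2 : (lat D).IsCl d.1 d.2
    · by_cases h3 : x ∈ d.1 ∧ abv 0 d ∧ bel (m : ℤ) d ∧ k ≤ d.1.card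
      · rw [Gs.WI_pos h2, Gs.ii_pos h3, if_pos, mul_one]
        exact ⟨h2, h3.1, fun y hy => ⟨h3.2.1 y hy, h3.2.2.1 y hy⟩, h3.2.2.2⟩
      · rw [Gs.ii_neg h3, if_neg, mul_zero]
        intro h4
        exact h3 ⟨h4.2.1, fun y hy => (h4.2.2.1 y hy).1, fun y hy => (h4.2.2.1 y hy).2, h4.2.2.2⟩
    · rw [Gs.WI_neg h2, if_neg (show ¬ Q d from fun h4 => h2 h4.1), zero_mul]
  rw [h1, ← ENNReal.ofReal_sum_of_nonneg fun c _ =>
    mul_nonneg (Gs.gs_WW h hJ c.1 c.2) (ZI_nonneg h hJ c.1)]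
  refine ENNReal.ofReal_le_ofReal ?_
  have hΛs : ∀ y ∈ Λ, (0 : ℤ) ≤ y.1 ∧ y.1 ≤ 0 + (m : ℕ) := by
    intro y hy
    obtain ⟨d, hd, hyd⟩ := Finset.mem_biUnion.1 hy
    have := (Finset.mem_filter.1 hd).2.2.2.1 y hyd
    rw [zero_add]
    exact this
  refine le_trans ?_ (hs J hJ hJm Λ 0 m hΛs x k)
  have h5 : PP D q β J Λ (fun ω => ∃ A E, (lat D).Cls ω x A E ∧
      ((∀ y ∈ A, 0 ≤ y.1 ∧ y.1 ≤ (m : ℤ)) ∧ k ≤ A.card)) ≤
      PP D q β J Λ (fun ω => (lat D).big ω x k) := by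
    unfold PP Gr.pr
    have hz : 0 ≤ (lat D).zz q (vJ β J) (edg Λ) := by
      unfold Gr.zz
      exact Finset.sum_nonneg fun ω _ => mul_nonneg
        (Finset.prod_nonneg fun e _ => vJ_nonneg h.hβ.le hJ e)
        (pow_nonneg (inv_nonneg.2 (le_trans zero_le_one h.hq)) _)
    refine div_le_div_of_nonneg_right ?_ hz
    refine Finset.sum_le_sum_of_subset_of_nonneg ?_ ?_
    · intro ω hω
      obtain ⟨h6, A, E, h7, _, h8⟩ := Finset.mem_filter.1 hω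
      exact Finset.mem_filter.2 ⟨h6, A, h8, fun y hy => ((lat D).cls_iff h7 y).1 hy⟩
    · intro ω _ _
      exact mul_nonneg (Finset.prod_nonneg fun e _ => vJ_nonneg h.hβ.le hJ e)
        (pow_nonneg (inv_nonneg.2 (le_trans zero_le_one h.hq)) _)
  refine le_trans ?_ h5
  rw [Gs.gs_cls h hJ Λ x fun A => (∀ y ∈ A, 0 ≤ y.1 ∧ y.1 ≤ (m : ℤ)) ∧ k ≤ A.card]
  have h2 : ∀ d ∈ F', WW D q β J d.1 d.2 * ZI D q β J d.1 ≤ Gs.tm D q β J Λ Q d := by
    intro d hd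
    rw [Gs.tm_pos (Finset.mem_filter.1 hd).2]
    exact mul_le_mul_of_nonneg_left (ZI_le h hJ Λ d.1) (Gs.gs_WW h hJ d.1 d.2)
  refine (Finset.sum_le_sum h2).trans (Finset.sum_le_sum_of_subset_of_nonneg ?_ ?_)
  · intro d hd
    obtain ⟨h6, h3, h4, h5'⟩ := Finset.mem_filter.1 hd
    have h7 : d.2 ⊆ edg Λ := by
      intro e he
      have h8 := h3.2.1 e he
      rw [csp_mem_edg]
      exact ⟨Finset.mem_biUnion.2 ⟨d, hd, h8.1⟩, Finset.mem_biUnion.2 ⟨d, hd, h8.2⟩⟩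
    refine Finset.mem_product.2 ⟨Finset.mem_powerset.2 fun y hy => ?_, Finset.mem_powerset.2 h7⟩
    exact (lat D).rch_vs ((lat D).rch_mono h7 (h3.2.2 x h4 y hy))
  · exact fun d _ _ => Gs.gs_tm_nonneg h hJ Λ Q d

end DgT

/-- The confined clusters with more than `N` edges, uniformly in the coupling. -/
theorem TN_tail {D : ℕ} {q β : ℝ} (h : Bas D q β) (Jm : ℝ) :
    ∃ C c : ℝ, 0 < C ∧ 0 < c ∧ ∀ J : ℝ, 0 ≤ J → J ≤ Jm → ∀ (m N : ℕ) (u w : Tv D),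
      TN D q β J m u w ≤
        sm D q β J (fun c => ii (((0, u) : Site D) ∈ c.1 ∧ (((m : ℤ), w) : Site D) ∈ c.1 ∧
          abv 0 c ∧ bel m c ∧ c.2.card ≤ N)) +
        ENNReal.ofReal (Real.exp (C * (m + 1) - c * N)) := by
  obtain ⟨C, c, hC, hc, hs⟩ := size_slab h Jm
  have hD : (0 : ℝ) < (D : ℝ) + 1 := by positivity
  refine ⟨C, c / (D + 1), hC, by positivity, fun J hJ hJm m N u w => ?_⟩
  set k : ℕ := N / (D + 1) + 1 with hk
  have hkN : (N : ℝ) / (D + 1) ≤ k := by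
    have h1 : N < (D + 1) * k := by
      rw [hk]
      exact Nat.lt_mul_div_succ N (Nat.succ_pos D)
    rw [div_le_iff₀ hD]
    have h2 : (N : ℝ) < ((D + 1 : ℕ) : ℝ) * k := by exact_mod_cast h1
    push_cast at h2
    linarith [mul_comm (k : ℝ) ((D : ℝ) + 1)]
  have h1 : ∀ d : Pr D, WI D q β J d * ii (((0, u) : Site D) ∈ d.1 ∧
      (((m : ℤ), w) : Site D) ∈ d.1 ∧ abv 0 d ∧ bel m d) ≤
      WI D q β J d * ii (((0, u) : Site D) ∈ d.1 ∧ (((m : ℤ), w) : Site D) ∈ d.1 ∧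
          abv 0 d ∧ bel m d ∧ d.2.card ≤ N) +
      WI D q β J d * ii (((0, u) : Site D) ∈ d.1 ∧ abv 0 d ∧ bel (m : ℤ) d ∧ k ≤ d.1.card) := by
    intro d
    by_cases h2 : (lat D).IsCl d.1 d.2
    · by_cases h3 : ((0, u) : Site D) ∈ d.1 ∧ (((m : ℤ), w) : Site D) ∈ d.1 ∧ abv 0 d ∧ bel m d
      · by_cases h4 : d.2.card ≤ N
        · rw [Gs.ii_pos h3, Gs.ii_pos (show ((0, u) : Site D) ∈ d.1 ∧
            (((m : ℤ), w) : Site D) ∈ d.1 ∧ abv 0 d ∧ bel m d ∧ d.2.card ≤ N from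
            ⟨h3.1, h3.2.1, h3.2.2.1, h3.2.2.2, h4⟩)]
          exact le_self_add
        · have h5 : k ≤ d.1.card := by
            have h6 := DgT.card_edges_le h2
            have h7 : N < (D + 1) * d.1.card := by omega
            rw [hk]
            exact Nat.succ_le_of_lt (Nat.div_lt_of_lt_mul h7)
          rw [Gs.ii_pos h3, Gs.ii_pos (show ((0, u) : Site D) ∈ d.1 ∧ abv 0 d ∧
            bel (m : ℤ) d ∧ k ≤ d.1.card from ⟨h3.1, h3.2.2.1, h3.2.2.2, h5⟩)]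
          exact le_add_self
      · rw [Gs.ii_neg h3, mul_zero]
        exact bot_le
    · rw [Gs.WI_neg h2, zero_mul]
      exact bot_le
  unfold TN sm
  refine (ENNReal.tsum_le_tsum h1).trans ?_
  rw [ENNReal.tsum_add]
  refine add_le_add le_rfl ?_
  have h2 : ∑' d : Pr D, WI D q β J d * ii (((0, u) : Site D) ∈ d.1 ∧ abv 0 d ∧
      bel (m : ℤ) d ∧ k ≤ d.1.card) ≤ ENNReal.ofReal (Real.exp (C * (m + 1) - c * k)) :=
    ENNReal.summable.tsum_le_of_sum_le fun F => DgT.fin_le h hs hJ hJm m k (0, u) F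
  refine h2.trans (ENNReal.ofReal_le_ofReal (Real.exp_le_exp.2 ?_))
  have h3 : c / (D + 1) * N ≤ c * k := by
    calc c / (D + 1) * N = c * (N / (D + 1)) := by ring
      _ ≤ c * k := mul_le_mul_of_nonneg_left hkN hc.le
  linarith

end Pool.Agent.DL
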