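import Pool.Agent.DL.Dd
import Pool.Agent.DL.Dec
import Pool.Agent.DL.FKB
import Pool.Agent.SB.Fek

/-!
# The defect line for all subcritical temperatures: the derivative in `z`, upper bound (row D8)
-/

set_option autoImplicit false
set_option linter.unusedSectionVars false

namespace Pool.Agent.DL

open Finset
open scoped ENNReal

namespace Dh

variable {D : ℕ}

/-- A connected graph with points of the heights `0` and `n` has at least `n` points. -/
theorem card {A : Finset (Site D)} {E : Finset (Edge D)} (h : (lat D).IsCl A E) {n : ℕ}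
    {u w : Tv D} (hu : ((0, u) : Site D) ∈ A) (hw : (((n : ℤ), w) : Site D) ∈ A) :
    n ≤ A.card := by
  have hst : ∀ e : Edge D, ((lat D).s e).1 ≤ ((lat D).t e).1 ∧
      ((lat D).t e).1 ≤ ((lat D).s e).1 + 1 := by
    intro e
    obtain ⟨x, o⟩ := e
    cases o with
    | none => simp [lat, SB.dir]
    | some i => simp [lat, SB.dir]
  have key : ∀ y : Site D, (lat D).Rch E (0, u) y → ∀ l : ℤ, 0 ≤ l → l ≤ y.1 →
      ∃ z ∈ A, z.1 = l := by
    intro y hy
    unfold Gr.Rch at hy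
    induction hy with
    | refl =>
      intro l h1 h2
      exact ⟨(0, u), hu, le_antisymm h1 h2⟩
    | @tail b c _ h4 ih =>
      intro l h1 h2
      by_cases h5 : l ≤ b.1
      · exact ih l h1 h5
      · obtain ⟨e, he, h7⟩ := h4
        have h8 := hst e
        rcases h7 with ⟨h6, h7⟩ | ⟨h7, h6⟩
        · rw [h6, h7] at h8
          refine ⟨c, ?_, by omega⟩
          rw [← h7]; exact (h.2.1 e he).2
        · rw [h6, h7] at h8
          refine ⟨c, ?_, by omega⟩
          rw [← h7]; exact (h.2.1 e he).1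
  have h1 : (Finset.range n).image (fun k : ℕ => (k : ℤ)) ⊆ A.image Prod.fst := by
    intro k hk
    obtain ⟨m, hm, rfl⟩ := Finset.mem_image.1 hk
    rw [Finset.mem_range] at hm
    obtain ⟨z, hz, h2⟩ := key _ (h.2.2 _ hu _ hw) m (by omega) (by simpa using hm.le)
    exact Finset.mem_image.2 ⟨z, hz, h2⟩
  have h2 := Finset.card_le_card h1
  rw [Finset.card_image_of_injective _ Nat.cast_injective, Finset.card_range] at h2
  exact h2.trans Finset.card_image_le

theorem ii_le (p : Prop) : ii p ≤ 1 := by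
  unfold ii
  split_ifs <;> simp

theorem ex_le_one {c : ℝ} (hc : 0 ≤ c) (k : ℕ) : ex c k ≤ 1 := by
  unfold ex
  rw [← ENNReal.ofReal_one]
  apply ENNReal.ofReal_le_ofReal
  rw [Real.exp_le_one_iff]
  have : 0 ≤ c * (k : ℝ) := mul_nonneg hc (Nat.cast_nonneg k)
  linarith

theorem nt_tri (u b w : Tv D) : SB.nt (u - w) ≤ SB.nt (u - b) + SB.nt (b - w) := by
  unfold SB.nt
  rw [← Finset.sum_add_distrib]
  refine Finset.sum_le_sum fun i _ => ?_
  simp only [Pi.sub_apply]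
  omega

theorem nt_comm (u w : Tv D) : SB.nt (u - w) = SB.nt (w - u) := by
  unfold SB.nt
  refine Finset.sum_congr rfl fun i _ => ?_
  simp only [Pi.sub_apply]
  omega

/-- The sum of the exponential weights is finite. -/
theorem sum_ex (D : ℕ) {c : ℝ} (hc : 0 < c) :
    ∃ σ : ℝ, 0 < σ ∧ ∑' v : Tv D, ex c (SB.nt v) ≤ ENNReal.ofReal σ := by
  have h := SB.summable_nt D (Real.exp (-c)) (Real.exp_pos _).le
    (by rw [Real.exp_lt_one_iff]; linarith)
  refine ⟨∑' x : SB.Gam D, Real.exp (-c) ^ SB.nt x + 1, ?_, ?_⟩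
  · have : 0 ≤ ∑' x : SB.Gam D, Real.exp (-c) ^ SB.nt x :=
      tsum_nonneg fun x => pow_nonneg (Real.exp_pos _).le _
    linarith
  · have h1 : ∑' v : Tv D, ex c (SB.nt v) =
        ENNReal.ofReal (∑' x : SB.Gam D, Real.exp (-c) ^ SB.nt x) := by
      rw [ENNReal.ofReal_tsum_of_nonneg (fun x => pow_nonneg (Real.exp_pos _).le _) h]
      refine tsum_congr fun v => ?_
      unfold ex
      rw [← Real.exp_nat_mul]
      congr 2
      ring
    rw [h1]
    exact ENNReal.ofReal_le_ofReal (by linarith)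

theorem sum_ex_left {c : ℝ} (u : Tv D) :
    ∑' v : Tv D, ex c (SB.nt (u - v)) = ∑' v : Tv D, ex c (SB.nt v) :=
  (Equiv.subLeft u).tsum_eq fun v => ex c (SB.nt v)

theorem sum_ex_right {c : ℝ} (u : Tv D) :
    ∑' v : Tv D, ex c (SB.nt (v - u)) = ∑' v : Tv D, ex c (SB.nt v) :=
  (Equiv.subRight u).tsum_eq fun v => ex c (SB.nt v)

/-- The end kernel without marks. -/
theorem Ek_one_le {c σ : ℝ} (hc : 0 < c)
    (hσ : ∑' v : Tv D, ex (c / 2) (SB.nt v) ≤ ENNReal.ofReal σ) (u w : Tv D) :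
    Ek (fun _ => 1) c u w ≤ ENNReal.ofReal σ * ex (c / 2) (SB.nt (u - w)) := by
  unfold Ek
  calc ∑' b : Tv D, 1 * ex c (SB.nt (u - b)) * ex c (SB.nt (b - w))
      ≤ ∑' b : Tv D, ex (c / 2) (SB.nt (u - b)) * ex (c / 2) (SB.nt (u - w)) := by
        refine ENNReal.tsum_le_tsum fun b => ?_
        rw [one_mul]
        unfold ex
        rw [← ENNReal.ofReal_mul (Real.exp_pos _).le, ← ENNReal.ofReal_mul (Real.exp_pos _).le,
          ← Real.exp_add, ← Real.exp_add]
        apply ENNReal.ofReal_le_ofReal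
        rw [Real.exp_le_exp]
        have h1 : (SB.nt (u - w) : ℝ) ≤ SB.nt (u - b) + SB.nt (b - w) := by
          exact_mod_cast nt_tri u b w
        have h2 : (0 : ℝ) ≤ SB.nt (b - w) := Nat.cast_nonneg _
        nlinarith [mul_le_mul_of_nonneg_left h1 hc.le, mul_nonneg hc.le h2]
    _ = (∑' b : Tv D, ex (c / 2) (SB.nt (u - b))) * ex (c / 2) (SB.nt (u - w)) :=
        ENNReal.tsum_mul_right
    _ ≤ _ := by
        rw [sum_ex_left]
        gcongr

theorem mul_le (a b : ℝ≥0∞) : a * b ≤ a ^ 2 + b ^ 2 := by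
  rcases le_total a b with h | h
  · calc a * b ≤ b * b := by gcongr
      _ = b ^ 2 := (sq b).symm
      _ ≤ _ := le_add_self
  · calc a * b ≤ a * a := by gcongr
      _ = a ^ 2 := (sq a).symm
      _ ≤ _ := le_self_add

theorem TT_self {q : ℝ} (hq : 1 ≤ q) {β J : ℝ} (hβ : 0 ≤ β) (hJ : 0 ≤ J)
    (Λ : Finset (Site D)) (x : Site D) : TT D q β J Λ x x = 1 := by
  have hv : ∀ e : Edge D, 0 ≤ vJ β J e := by
    intro e
    unfold vJ
    split_ifs
    · have := Real.add_one_le_exp (β * J)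
      have h2 : 0 ≤ β * J := mul_nonneg hβ hJ
      linarith
    · have := Real.add_one_le_exp β
      linarith
  unfold TT Gr.tp
  rw [← (lat D).pr_true q (vJ β J) (by linarith) hv (edg Λ)]
  exact (lat D).pr_congr q (vJ β J) _ fun ω _ => iff_of_true ((lat D).rch_refl _ _) trivial

theorem SG_comm {q β J : ℝ} (z : ℝ≥0∞) (L : ℕ) (u w : Tv D) :
    SG D q β J z L u w = SG D q β J z L w u := by
  unfold SG
  exact Finset.sum_congr rfl fun n _ => by rw [GN_comm]

theorem SG_le {q β J : ℝ} (z : ℝ≥0∞) (L : ℕ) (u w : Tv D) :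
    SG D q β J z L u w ≤ GI D q β J z u w := ENNReal.sum_le_tsum _

theorem one_le {q β J1 : ℝ} (h : Reg D q β J1) {J : ℝ} (hJ : 1 ≤ J) (hJ1 : J ≤ J1)
    (z : ℝ≥0∞) (u : Tv D) : 1 ≤ GI D q β J z u u := by
  have h1 : GN D q β J 0 u u = 1 := by
    rw [GN_eq h J hJ hJ1]
    have h2 : GG D q β J (0, u) (((0 : ℕ) : ℤ), u) = 1 := by
      unfold GG
      rw [show (((0 : ℕ) : ℤ), u) = ((0, u) : Site D) by simp]
      simp only [TT_self h.hq h.hβ.le (by linarith : (0 : ℝ) ≤ J)]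
      exact ciSup_const
    rw [h2, ENNReal.ofReal_one]
  calc (1 : ℝ≥0∞) = z ^ 0 * GN D q β J 0 u u := by rw [h1]; simp
    _ ≤ _ := ENNReal.le_tsum (f := fun n : ℕ => z ^ n * GN D q β J n u u) 0

theorem term {q β J : ℝ} (n : ℕ) (u w : Tv D) :
    (n : ℝ≥0∞) * GN D q β J n u w ≤ sm D q β J (fun c' =>
      ii (((0, u) : Site D) ∈ c'.1 ∧ (((n : ℤ), w) : Site D) ∈ c'.1) *
        ∑ x ∈ c'.1, (fun _ : Tv D => (1 : ℝ≥0∞)) x.2) := by
  unfold GN sm
  rw [← ENNReal.tsum_mul_left]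
  refine ENNReal.tsum_le_tsum fun c => ?_
  by_cases hc : (lat D).IsCl c.1 c.2
  · by_cases hp : ((0, u) : Site D) ∈ c.1 ∧ (((n : ℤ), w) : Site D) ∈ c.1
    · have h1 := card hc hp.1 hp.2
      have h2 : ii (((0, u) : Site D) ∈ c.1 ∧ (((n : ℤ), w) : Site D) ∈ c.1) = 1 := by
        unfold ii
        rw [if_pos hp]
      simp only [h2, Finset.sum_const, nsmul_eq_mul, mul_one, one_mul]
      rw [mul_comm]
      gcongr
    · have h2 : ii (((0, u) : Site D) ∈ c.1 ∧ (((n : ℤ), w) : Site D) ∈ c.1) = 0 := by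
        unfold ii
        rw [if_neg hp]
      simp only [h2, mul_zero, zero_mul, le_refl]
  · have h2 : WI D q β J c = 0 := by
      unfold WI
      rw [if_neg hc]
    rw [h2]
    simp

end Dh

open Dh in
/-- The upper bound of the derivative in `z` (row D8). -/
theorem dz_le {D : ℕ} {q β J1 : ℝ} (h : Reg D q β J1) (hB : S1B D q β) :
    ∃ δ C : ℝ, 0 < δ ∧ 0 < C ∧ ∀ J, Jok D q β J1 δ J → ∀ z ≤ zc D q β,
      ∑' n : ℕ, (n : ℝ≥0∞) * z ^ n * GN D q β J n 0 0 ≤
        ENNReal.ofReal C * GI D q β J z 0 0 ^ 2 * ∑' w, GI D q β 1 z 0 w ^ 2 := by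
  obtain ⟨δ₁, C₁, c, hδ₁, hC₁, hc, H₁⟩ := mark h
  obtain ⟨δ₂, C₂, hδ₂, hC₂, H₂⟩ := sup_le h hB
  obtain ⟨δ₃, C₃, hδ₃, hC₃, H₃⟩ := l2_le h hB
  obtain ⟨σ, hσ0, hσ⟩ := sum_ex D (half_pos hc)
  refine ⟨min δ₁ (min δ₂ δ₃), C₁ * (σ + 2 * (σ * σ * C₂) + 2 * (σ * σ * C₃)),
    lt_min hδ₁ (lt_min hδ₂ hδ₃), by positivity, ?_⟩
  intro J hJ z hz
  have hJ₁ : Jok D q β J1 δ₁ J := ⟨hJ.h1, hJ.h2, by
    have := hJ.h3
    have h2 := min_le_left δ₁ (min δ₂ δ₃)
    linarith⟩
  have hJ₂ : Jok D q β J1 δ₂ J := ⟨hJ.h1, hJ.h2, by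
    have := hJ.h3
    have h2 := (min_le_right δ₁ (min δ₂ δ₃)).trans (min_le_left _ _)
    linarith⟩
  have hJ₃ : Jok D q β J1 δ₃ J := ⟨hJ.h1, hJ.h2, by
    have := hJ.h3
    have h2 := (min_le_right δ₁ (min δ₂ δ₃)).trans (min_le_right _ _)
    linarith⟩
  set S := GI D q β J z 0 0 with hS
  set N := ∑' w, GI D q β 1 z 0 w ^ 2 with hN
  have hS1 : 1 ≤ S := one_le h hJ.h1 hJ.h2 z 0
  have hN1 : 1 ≤ N := by
    have h1 : 1 ≤ GI D q β 1 z 0 0 := one_le h le_rfl (hJ.h1.trans hJ.h2) z 0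
    calc (1 : ℝ≥0∞) = 1 ^ 2 := by simp
      _ ≤ GI D q β 1 z 0 0 ^ 2 := by gcongr
      _ ≤ _ := ENNReal.le_tsum (f := fun w : Tv D => GI D q β 1 z 0 w ^ 2) 0
  have hone : (1 : ℝ≥0∞) ≤ S ^ 2 * N := by
    calc (1 : ℝ≥0∞) = 1 ^ 2 * 1 := by simp
      _ ≤ _ := by gcongr
  have hSS : S ≤ S ^ 2 * N := by
    calc S = S * 1 * 1 := by simp
      _ ≤ S * S * N := by gcongr
      _ = S ^ 2 * N := by ring
  refine ENNReal.tsum_le_of_sum_range_le fun L => ?_
  set K : Tv D → Tv D → ℝ≥0∞ := fun y y' => ex (c / 2) (SB.nt (y - y')) with hK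
  have hEk : ∀ u w : Tv D, Ek (fun _ => 1) c u w ≤ ENNReal.ofReal σ * K u w :=
    fun u w => Ek_one_le hc hσ u w
  have hK1 : ∀ u w : Tv D, K u w ≤ 1 := fun u w => Dh.ex_le_one (half_pos hc).le _
  have hKl : ∀ u : Tv D, ∑' v, K u v ≤ ENNReal.ofReal σ := fun u => by
    rw [hK]
    simp only
    rw [sum_ex_left]
    exact hσ
  have hKr : ∀ u : Tv D, ∑' v, K v u ≤ ENNReal.ofReal σ := fun u => by
    rw [hK]
    simp only
    rw [sum_ex_right]
    exact hσ
  have hsup : ∀ u w : Tv D, SG D q β J z L u w ≤ ENNReal.ofReal C₂ * S := fun u w =>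
    (H₂ J hJ₂ z hz L u w).trans (by gcongr; exact SG_le _ _ _ _)
  have hl2 : ∑' w, SG D q β J z L 0 w ^ 2 ≤ ENNReal.ofReal C₃ * S ^ 2 * N :=
    (ENNReal.tsum_le_tsum fun w => by gcongr; exact SG_le _ _ _ _).trans (H₃ J hJ₃ z hz)
  -- the four terms
  have t1 : Ek (fun _ => 1) c (0 : Tv D) 0 ≤ ENNReal.ofReal σ := by
    calc Ek (fun _ => 1) c (0 : Tv D) 0 ≤ ENNReal.ofReal σ * K 0 0 := hEk 0 0
      _ ≤ ENNReal.ofReal σ * 1 := by gcongr; exact hK1 0 0
      _ = _ := mul_one _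
  have t2 : ∑' y, Ek (fun _ => 1) c (0 : Tv D) y * SG D q β J z L y 0 ≤
      ENNReal.ofReal σ * ENNReal.ofReal σ * ENNReal.ofReal C₂ * S := by
    calc ∑' y, Ek (fun _ => 1) c (0 : Tv D) y * SG D q β J z L y 0
        ≤ ∑' y, K 0 y * (ENNReal.ofReal σ * (ENNReal.ofReal C₂ * S)) := by
          refine ENNReal.tsum_le_tsum fun y => ?_
          calc Ek (fun _ => 1) c (0 : Tv D) y * SG D q β J z L y 0
              ≤ (ENNReal.ofReal σ * K 0 y) * (ENNReal.ofReal C₂ * S) := by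
                gcongr
                · exact hEk 0 y
                · exact hsup y 0
            _ = _ := by ring
      _ = (∑' y, K 0 y) * (ENNReal.ofReal σ * (ENNReal.ofReal C₂ * S)) := ENNReal.tsum_mul_right
      _ ≤ ENNReal.ofReal σ * (ENNReal.ofReal σ * (ENNReal.ofReal C₂ * S)) := by
          gcongr
          exact hKl 0
      _ = _ := by ring
  have t3 : ∑' y, SG D q β J z L 0 y * Ek (fun _ => 1) c y (0 : Tv D) ≤
      ENNReal.ofReal σ * ENNReal.ofReal σ * ENNReal.ofReal C₂ * S := by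
    calc ∑' y, SG D q β J z L 0 y * Ek (fun _ => 1) c y (0 : Tv D)
        ≤ ∑' y, K y 0 * (ENNReal.ofReal σ * (ENNReal.ofReal C₂ * S)) := by
          refine ENNReal.tsum_le_tsum fun y => ?_
          calc SG D q β J z L 0 y * Ek (fun _ => 1) c y (0 : Tv D)
              ≤ (ENNReal.ofReal C₂ * S) * (ENNReal.ofReal σ * K y 0) := by
                gcongr
                · exact hsup 0 y
                · exact hEk y 0
            _ = _ := by ring
      _ = (∑' y, K y 0) * (ENNReal.ofReal σ * (ENNReal.ofReal C₂ * S)) := ENNReal.tsum_mul_right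
      _ ≤ ENNReal.ofReal σ * (ENNReal.ofReal σ * (ENNReal.ofReal C₂ * S)) := by
          gcongr
          exact hKr 0
      _ = _ := by ring
  have t4 : ∑' y, ∑' y', SG D q β J z L 0 y * Ek (fun _ => 1) c y y' * SG D q β J z L y' 0 ≤
      2 * (ENNReal.ofReal σ * ENNReal.ofReal σ * ENNReal.ofReal C₃) * (S ^ 2 * N) := by
    have e1 : ∑' y : Tv D, ∑' y' : Tv D, K y y' * SG D q β J z L 0 y ^ 2 ≤
        ENNReal.ofReal σ * (ENNReal.ofReal C₃ * S ^ 2 * N) := by
      calc ∑' y : Tv D, ∑' y' : Tv D, K y y' * SG D q β J z L 0 y ^ 2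
          = ∑' y : Tv D, (∑' y', K y y') * SG D q β J z L 0 y ^ 2 :=
            tsum_congr fun y => ENNReal.tsum_mul_right
        _ ≤ ∑' y : Tv D, ENNReal.ofReal σ * SG D q β J z L 0 y ^ 2 := by
            refine ENNReal.tsum_le_tsum fun y => ?_
            gcongr
            exact hKl y
        _ = ENNReal.ofReal σ * ∑' y : Tv D, SG D q β J z L 0 y ^ 2 := ENNReal.tsum_mul_left
        _ ≤ _ := by gcongr
    have e2 : ∑' y : Tv D, ∑' y' : Tv D, K y y' * SG D q β J z L 0 y' ^ 2 ≤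
        ENNReal.ofReal σ * (ENNReal.ofReal C₃ * S ^ 2 * N) := by
      rw [ENNReal.tsum_comm]
      calc ∑' y' : Tv D, ∑' y : Tv D, K y y' * SG D q β J z L 0 y' ^ 2
          = ∑' y' : Tv D, (∑' y, K y y') * SG D q β J z L 0 y' ^ 2 :=
            tsum_congr fun y => ENNReal.tsum_mul_right
        _ ≤ ∑' y : Tv D, ENNReal.ofReal σ * SG D q β J z L 0 y ^ 2 := by
            refine ENNReal.tsum_le_tsum fun y => ?_
            gcongr
            exact hKr y
        _ = ENNReal.ofReal σ * ∑' y : Tv D, SG D q β J z L 0 y ^ 2 := ENNReal.tsum_mul_left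
        _ ≤ _ := by gcongr
    calc ∑' y, ∑' y', SG D q β J z L 0 y * Ek (fun _ => 1) c y y' * SG D q β J z L y' 0
        ≤ ∑' y, ∑' y', ENNReal.ofReal σ * (K y y' * SG D q β J z L 0 y ^ 2 +
            K y y' * SG D q β J z L 0 y' ^ 2) := by
          refine ENNReal.tsum_le_tsum fun y => ENNReal.tsum_le_tsum fun y' => ?_
          calc SG D q β J z L 0 y * Ek (fun _ => 1) c y y' * SG D q β J z L y' 0
              ≤ SG D q β J z L 0 y * (ENNReal.ofReal σ * K y y') * SG D q β J z L 0 y' := by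
                rw [SG_comm z L y' 0]
                gcongr
                exact hEk y y'
            _ = ENNReal.ofReal σ * (K y y' * (SG D q β J z L 0 y * SG D q β J z L 0 y')) := by
                ring
            _ ≤ ENNReal.ofReal σ * (K y y' * (SG D q β J z L 0 y ^ 2 +
                  SG D q β J z L 0 y' ^ 2)) := by
                gcongr
                exact mul_le _ _
            _ = _ := by ring
      _ = ENNReal.ofReal σ * (∑' y, ∑' y', K y y' * SG D q β J z L 0 y ^ 2 +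
            ∑' y, ∑' y', K y y' * SG D q β J z L 0 y' ^ 2) := by
          rw [← ENNReal.tsum_add, ← ENNReal.tsum_mul_left]
          refine tsum_congr fun y => ?_
          rw [← ENNReal.tsum_add, ← ENNReal.tsum_mul_left]
      _ ≤ ENNReal.ofReal σ * (ENNReal.ofReal σ * (ENNReal.ofReal C₃ * S ^ 2 * N) +
            ENNReal.ofReal σ * (ENNReal.ofReal C₃ * S ^ 2 * N)) := by
          gcongr
      _ = _ := by ring
  calc ∑ n ∈ range L, (n : ℝ≥0∞) * z ^ n * GN D q β J n 0 0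
      ≤ ∑ n ∈ range (L + 1), z ^ n * sm D q β J (fun c' =>
          ii (((0, (0 : Tv D)) : Site D) ∈ c'.1 ∧ (((n : ℤ), (0 : Tv D)) : Site D) ∈ c'.1) *
            ∑ x ∈ c'.1, (fun _ : Tv D => (1 : ℝ≥0∞)) x.2) := by
        refine (Finset.sum_le_sum fun n _ => ?_).trans
          (Finset.sum_le_sum_of_subset (Finset.range_subset_range.2 (Nat.le_succ L)))
        calc (n : ℝ≥0∞) * z ^ n * GN D q β J n 0 0 = z ^ n * (n * GN D q β J n 0 0) := by ring
          _ ≤ _ := by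
            gcongr
            exact term n 0 0
    _ ≤ _ := H₁ J hJ₁ z hz L (fun _ => 1) 0 0
    _ ≤ ENNReal.ofReal C₁ * (ENNReal.ofReal σ * (S ^ 2 * N) +
          ENNReal.ofReal σ * ENNReal.ofReal σ * ENNReal.ofReal C₂ * (S ^ 2 * N) +
          ENNReal.ofReal σ * ENNReal.ofReal σ * ENNReal.ofReal C₂ * (S ^ 2 * N) +
          2 * (ENNReal.ofReal σ * ENNReal.ofReal σ * ENNReal.ofReal C₃) * (S ^ 2 * N)) := by
        gcongr
        · calc Ek (fun _ => 1) c (0 : Tv D) 0 ≤ ENNReal.ofReal σ * 1 := by rw [mul_one]; exact t1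
            _ ≤ _ := by gcongr
        · exact t2.trans (by gcongr)
        · exact t3.trans (by gcongr)
    _ = ENNReal.ofReal (C₁ * (σ + 2 * (σ * σ * C₂) + 2 * (σ * σ * C₃))) * S ^ 2 * N := by
        have e3 : ∀ a : ℝ, ENNReal.ofReal (2 * (σ * σ * a)) =
            2 * (ENNReal.ofReal σ * ENNReal.ofReal σ * ENNReal.ofReal a) := fun a => by
          rw [ENNReal.ofReal_mul (by norm_num), ENNReal.ofReal_mul (by positivity),
            ENNReal.ofReal_mul hσ0.le, ENNReal.ofReal_ofNat]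
        rw [ENNReal.ofReal_mul hC₁.le, ENNReal.ofReal_add (by positivity) (by positivity),
          ENNReal.ofReal_add (by positivity) (by positivity), e3, e3]
        ring

end Pool.Agent.DL
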