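import Pool.Agent.DL.Inf
import Pool.Agent.DL.Cut
import Pool.Agent.DL.Pw

/-!
# The two product inequalities at a cut
-/

set_option autoImplicit false
set_option linter.unusedSectionVars false

namespace Pool.Agent.DL

open Finset
open scoped ENNReal

namespace Pcu

theorem WW_nonneg {D : ℕ} {q β J : ℝ} (hq : 0 < q) (hβ : 0 ≤ β) (hJ : 0 ≤ J)
    (A : Finset (Site D)) (E : Finset (Edge D)) : 0 ≤ WW D q β J A E := by
  unfold WW Gr.cw
  exact mul_nonneg (prod_nonneg fun e _ => vJ_nonneg hβ hJ e) (pow_nonneg (inv_nonneg.2 hq.le) _)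

theorem WI_of_isCl {D : ℕ} {q β J : ℝ} {c : Pr D} (h : (lat D).IsCl c.1 c.2) :
    WI D q β J c = ENNReal.ofReal (WW D q β J c.1 c.2 * ZI D q β J c.1) := by
  unfold WI
  rw [if_pos h]

theorem WI_of_not {D : ℕ} {q β J : ℝ} {c : Pr D} (h : ¬ (lat D).IsCl c.1 c.2) :
    WI D q β J c = 0 := by
  unfold WI
  rw [if_neg h]

theorem ii_true {p : Prop} (h : p) : ii p = 1 := by
  unfold ii
  rw [if_pos h]

theorem ii_false {p : Prop} (h : ¬ p) : ii p = 0 := by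
  unfold ii
  rw [if_neg h]

theorem ii_and (p r : Prop) : ii (p ∧ r) = ii p * ii r := by
  by_cases hp : p
  · by_cases hr : r
    · rw [ii_true ⟨hp, hr⟩, ii_true hp, ii_true hr, one_mul]
    · rw [ii_false (fun h => hr h.2), ii_false hr, mul_zero]
  · rw [ii_false (fun h => hp h.1), ii_false hp, zero_mul]

theorem lvw_nonneg {D : ℕ} (a : ℝ) (A : Finset (Site D)) (m : ℤ) : 0 ≤ lvw a A m :=
  sum_nonneg fun _ _ => (Real.exp_pos _).le

theorem vJ_ge {D : ℕ} {β J : ℝ} (hβ : 0 ≤ β) (hJ : 1 ≤ J) (e : Edge D) :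
    Real.exp β - 1 ≤ vJ β J e := by
  unfold vJ
  split_ifs
  · have h1 : β ≤ β * J := by nlinarith
    have := Real.exp_le_exp.2 h1
    linarith
  · exact le_rfl

/-- The double sum of the two-point function is bounded at a good cut. -/
theorem double_le {D : ℕ} {q β J a M : ℝ} (h : Bas D q β) (hJ : 1 ≤ J)
    (haJ : a ≤ xiR D q β J) {A B : Finset (Site D)} {m : ℤ} (hA : ∀ x ∈ A, x.1 ≤ m)
    (hB : ∀ x ∈ B, m + 1 ≤ x.1) (hM : lvw a A m + lvw a B m ≤ M) :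
    ∑ x ∈ A, ∑ y ∈ B, GG D q β J x y ≤ M ^ 2 := by
  have h1 : ∀ x ∈ A, ∀ y ∈ B, GG D q β J x y ≤
      Real.exp (-(a * |(x.1 : ℝ) - m|)) * Real.exp (-(a * |(y.1 : ℝ) - m|)) := by
    intro x hx y hy
    have hx' : (x.1 : ℝ) ≤ m := by exact_mod_cast hA x hx
    have hy' : (m : ℝ) + 1 ≤ y.1 := by exact_mod_cast hB y hy
    refine (pointwise h hJ x y).trans ?_
    rw [← Real.exp_add, Real.exp_le_exp]
    rw [abs_of_nonpos (by linarith), abs_of_nonpos (by linarith), abs_of_nonneg (by linarith)]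
    nlinarith
  have h2 : ∑ x ∈ A, ∑ y ∈ B, GG D q β J x y ≤ lvw a A m * lvw a B m := by
    unfold lvw
    rw [sum_mul_sum]
    exact sum_le_sum fun x hx => sum_le_sum fun y hy => h1 x hx y hy
  have h3 := lvw_nonneg a A m
  have h4 := lvw_nonneg a B m
  nlinarith

end Pcu

open Pcu

theorem WI_jn_ge {D : ℕ} {q β J : ℝ} (h : Bas D q β) (hJ : 1 ≤ J) {c1 c2 : Pr D} {y : Tv D}
    {m : ℤ} (hv : Vd c1 y m c2) :
    ENNReal.ofReal ((Real.exp β - 1) / q) * WI D q β J c1 * WI D q β J c2 ≤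
      WI D q β J (jn c1 y m c2) := by
  have hq : 0 < q := by linarith [h.hq]
  have hβ := h.hβ.le
  have hJ0 : 0 ≤ J := by linarith
  have hv0 : 0 ≤ Real.exp β - 1 := by linarith [Real.one_le_exp hβ]
  have hw1 := WW_nonneg (D := D) (q := q) hq hβ hJ0 c1.1 c1.2
  have hw2 := WW_nonneg (D := D) (q := q) hq hβ hJ0 c2.1 c2.2
  have hz1 := ZI_nonneg h hJ0 c1.1
  have hz2 := ZI_nonneg h hJ0 c2.1
  rw [WI_of_isCl (jn_isCl hv), WI_of_isCl hv.1, WI_of_isCl hv.2.1,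
    ← ENNReal.ofReal_mul (by positivity), ← ENNReal.ofReal_mul (by positivity), jn_WW hq hv]
  apply ENNReal.ofReal_le_ofReal
  have h1 : ZI D q β J c1.1 * ZI D q β J c2.1 ≤ ZI D q β J (jn c1 y m c2).1 :=
    ZI_mul_le h hJ0 c1.1 c2.1
  have h2 := vJ_ge (D := D) hβ hJ ((m, y), none)
  have h3 := vJ_nonneg (D := D) hβ hJ0 ((m, y), none)
  calc (Real.exp β - 1) / q * (WW D q β J c1.1 c1.2 * ZI D q β J c1.1) *
        (WW D q β J c2.1 c2.2 * ZI D q β J c2.1)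
      = (Real.exp β - 1) / q * WW D q β J c1.1 c1.2 * WW D q β J c2.1 c2.2 *
        (ZI D q β J c1.1 * ZI D q β J c2.1) := by ring
    _ ≤ vJ β J ((m, y), none) / q * WW D q β J c1.1 c1.2 * WW D q β J c2.1 c2.2 *
        ZI D q β J (jn c1 y m c2).1 := by
        gcongr

theorem WI_jn_le {D : ℕ} {q β J1 : ℝ} (h : Reg D q β J1) (a M : ℝ) (_ha : 0 < a)
    (haJ : ∀ J, 1 ≤ J → J ≤ J1 → a ≤ xiR D q β J) :
    ∃ K : ℝ, 0 < K ∧ ∀ J, 1 ≤ J → J ≤ J1 → ∀ (c1 c2 : Pr D) (y : Tv D) (m : ℤ),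
      Vd c1 y m c2 → lvw a (jn c1 y m c2).1 m ≤ M →
      WI D q β J (jn c1 y m c2) ≤ ENNReal.ofReal K * WI D q β J c1 * WI D q β J c2 := by
  have hb := h.toBas
  have hq : 0 < q := by linarith [h.hq]
  have hβ := h.hβ.le
  obtain ⟨C, hC, hU⟩ := ZI_union_le h
  have hpos : 0 < Real.exp (β * J1) - 1 := by
    have : 0 < β * J1 := mul_pos h.hβ (by linarith [h.hJ])
    linarith [Real.add_one_lt_exp this.ne']
  refine ⟨(Real.exp (β * J1) - 1) / q * Real.exp (C * M ^ 2), by positivity, ?_⟩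
  intro J hJ hJ1 c1 c2 y m hv hM
  have hJ0 : 0 ≤ J := by linarith
  have hw1 := WW_nonneg (D := D) (q := q) hq hβ hJ0 c1.1 c1.2
  have hw2 := WW_nonneg (D := D) (q := q) hq hβ hJ0 c2.1 c2.2
  have hz1 := ZI_nonneg hb hJ0 c1.1
  have hz2 := ZI_nonneg hb hJ0 c2.1
  rw [WI_of_isCl (jn_isCl hv), WI_of_isCl hv.1, WI_of_isCl hv.2.1,
    ← ENNReal.ofReal_mul (by positivity), ← ENNReal.ofReal_mul (by positivity), jn_WW hq hv]
  apply ENNReal.ofReal_le_ofReal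
  rw [jn_lvl hv] at hM
  have h1 : ZI D q β J (jn c1 y m c2).1 ≤
      ZI D q β J c1.1 * ZI D q β J c2.1 * Real.exp (C * M ^ 2) := by
    refine (hU J hJ hJ1 c1.1 c2.1).trans ?_
    have h2 := double_le hb hJ (haJ J hJ hJ1) hv.2.2.1 hv.2.2.2.2.1 hM
    gcongr
  have h2 := vJ_le (D := D) hβ hJ1 h.hJ ((m, y), none)
  have h3 := vJ_nonneg (D := D) hβ hJ0 ((m, y), none)
  have h4 := ZI_nonneg hb hJ0 (jn c1 y m c2).1
  calc vJ β J ((m, y), none) / q * WW D q β J c1.1 c1.2 * WW D q β J c2.1 c2.2 *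
        ZI D q β J (jn c1 y m c2).1
      ≤ (Real.exp (β * J1) - 1) / q * WW D q β J c1.1 c1.2 * WW D q β J c2.1 c2.2 *
        (ZI D q β J c1.1 * ZI D q β J c2.1 * Real.exp (C * M ^ 2)) := by
        gcongr
    _ = (Real.exp (β * J1) - 1) / q * Real.exp (C * M ^ 2) *
        (WW D q β J c1.1 c1.2 * ZI D q β J c1.1) *
        (WW D q β J c2.1 c2.2 * ZI D q β J c2.1) := by ring

namespace Pcu

/-- Sums over the clusters with a cut. -/
theorem sm_cut {D : ℕ} {q β J : ℝ} (m : ℤ) (F : Pr D → ℝ≥0∞) :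
    sm D q β J (fun c => ii ((upE c.2 m).card = 1) * F c) =
      ∑' y : Tv D, ∑' c1 : Pr D, ∑' c2 : Pr D,
        ii (Vd c1 y m c2) * (WI D q β J (jn c1 y m c2) * F (jn c1 y m c2)) := by
  rw [← tsum_cut m (fun c => WI D q β J c * F c)]
  unfold sm
  refine tsum_congr fun c => ?_
  by_cases h : (lat D).IsCl c.1 c.2
  · rw [ii_and, ii_true h, one_mul]
    ring
  · rw [WI_of_not h, zero_mul, zero_mul, mul_zero]

/-- The product of two sums over clusters. -/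
theorem sm_mul {D : ℕ} {q β J : ℝ} (F G : Pr D → ℝ≥0∞) :
    sm D q β J F * sm D q β J G =
      ∑' c1 : Pr D, ∑' c2 : Pr D, WI D q β J c1 * F c1 * (WI D q β J c2 * G c2) := by
  unfold sm
  rw [← ENNReal.tsum_mul_right]
  refine tsum_congr fun c1 => ?_
  rw [← ENNReal.tsum_mul_left]

end Pcu

theorem sm_cut_ge {D : ℕ} {q β J : ℝ} (h : Bas D q β) (hJ : 1 ≤ J) (m : ℤ)
    (F F1 F2 : Pr D → ℝ≥0∞)
    (hF : ∀ c1 y c2, Vd c1 y m c2 → F1 c1 * F2 c2 ≤ F (jn c1 y m c2)) :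
    ENNReal.ofReal ((Real.exp β - 1) / q) *
      ∑' y : Tv D, sm D q β J (fun c => ii (bel m c ∧ ((m, y) : Site D) ∈ c.1) * F1 c) *
        sm D q β J (fun c => ii (abv (m + 1) c ∧ ((m + 1, y) : Site D) ∈ c.1) * F2 c) ≤
      sm D q β J (fun c => ii ((upE c.2 m).card = 1) * F c) := by
  rw [sm_cut, ← ENNReal.tsum_mul_left]
  refine ENNReal.tsum_le_tsum fun y => ?_
  rw [sm_mul, ← ENNReal.tsum_mul_left]
  refine ENNReal.tsum_le_tsum fun c1 => ?_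
  rw [← ENNReal.tsum_mul_left]
  refine ENNReal.tsum_le_tsum fun c2 => ?_
  by_cases hv : Vd c1 y m c2
  · rw [ii_true hv, one_mul, ii_true ⟨hv.2.2.1, hv.2.2.2.1⟩, ii_true ⟨hv.2.2.2.2.1, hv.2.2.2.2.2⟩,
      one_mul, one_mul]
    calc ENNReal.ofReal ((Real.exp β - 1) / q) *
          (WI D q β J c1 * F1 c1 * (WI D q β J c2 * F2 c2))
        = (ENNReal.ofReal ((Real.exp β - 1) / q) * WI D q β J c1 * WI D q β J c2) *
          (F1 c1 * F2 c2) := by ring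
      _ ≤ WI D q β J (jn c1 y m c2) * F (jn c1 y m c2) :=
          mul_le_mul' (WI_jn_ge h hJ hv) (hF c1 y c2 hv)
  · rw [ii_false hv, zero_mul]
    by_cases h1 : (lat D).IsCl c1.1 c1.2
    swap
    · rw [WI_of_not h1]
      simp
    by_cases h2 : (lat D).IsCl c2.1 c2.2
    swap
    · rw [WI_of_not h2]
      simp
    by_cases h3 : bel m c1 ∧ ((m, y) : Site D) ∈ c1.1
    swap
    · rw [ii_false h3]
      simp
    by_cases h4 : abv (m + 1) c2 ∧ ((m + 1, y) : Site D) ∈ c2.1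
    swap
    · rw [ii_false h4]
      simp
    exact absurd ⟨h1, h2, h3.1, h3.2, h4.1, h4.2⟩ hv

theorem sm_cut_le {D : ℕ} {q β J1 : ℝ} (h : Reg D q β J1) (a M : ℝ) (ha : 0 < a)
    (haJ : ∀ J, 1 ≤ J → J ≤ J1 → a ≤ xiR D q β J) :
    ∃ K : ℝ, 0 < K ∧ ∀ J, 1 ≤ J → J ≤ J1 → ∀ (m : ℤ) (F F1 F2 : Pr D → ℝ≥0∞),
      (∀ c1 y c2, Vd c1 y m c2 → good a M (jn c1 y m c2) m →
        F (jn c1 y m c2) ≤ F1 c1 * F2 c2) →
      sm D q β J (fun c => ii (good a M c m) * F c) ≤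
        ENNReal.ofReal K *
          ∑' y : Tv D, sm D q β J (fun c => ii (bel m c ∧ ((m, y) : Site D) ∈ c.1) * F1 c) *
            sm D q β J (fun c => ii (abv (m + 1) c ∧ ((m + 1, y) : Site D) ∈ c.1) * F2 c) := by
  obtain ⟨K, hK, hW⟩ := WI_jn_le h a M ha haJ
  refine ⟨K, hK, fun J hJ hJ1 m F F1 F2 hF => ?_⟩
  have e1 : sm D q β J (fun c => ii (good a M c m) * F c) =
      sm D q β J (fun c => ii ((upE c.2 m).card = 1) * (ii (lvw a c.1 m ≤ M) * F c)) := by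
    congr 1
    funext c
    unfold good
    rw [ii_and, mul_assoc]
  rw [e1, sm_cut, ← ENNReal.tsum_mul_left]
  refine ENNReal.tsum_le_tsum fun y => ?_
  rw [sm_mul, ← ENNReal.tsum_mul_left]
  refine ENNReal.tsum_le_tsum fun c1 => ?_
  rw [← ENNReal.tsum_mul_left]
  refine ENNReal.tsum_le_tsum fun c2 => ?_
  by_cases hv : Vd c1 y m c2
  swap
  · rw [ii_false hv, zero_mul]
    exact bot_le
  by_cases hM : lvw a (jn c1 y m c2).1 m ≤ M
  swap
  · rw [ii_false hM]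
    simp
  rw [ii_true hv, one_mul, ii_true hM, one_mul, ii_true ⟨hv.2.2.1, hv.2.2.2.1⟩,
    ii_true ⟨hv.2.2.2.2.1, hv.2.2.2.2.2⟩, one_mul, one_mul]
  have hg : good a M (jn c1 y m c2) m := by
    refine ⟨?_, hM⟩
    rw [(jn_upE hv).1, card_singleton]
  calc WI D q β J (jn c1 y m c2) * F (jn c1 y m c2)
      ≤ (ENNReal.ofReal K * WI D q β J c1 * WI D q β J c2) * (F1 c1 * F2 c2) :=
        mul_le_mul' (hW J hJ hJ1 c1 c2 y m hv hM) (hF c1 y c2 hv hg)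
    _ = ENNReal.ofReal K * (WI D q β J c1 * F1 c1 * (WI D q β J c2 * F2 c2)) := by ring

end Pool.Agent.DL
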