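import Pool.Agent.DL.De
import Pool.Agent.DL.Dec
import Pool.Agent.DL.Inf
import Pool.Agent.DL.Pcu

/-!
# Row D9: the lower bound of the derivative with respect to the generating parameter
-/

set_option autoImplicit false
set_option linter.unusedSectionVars false

namespace Pool.Agent.DL

open Finset
open scoped ENNReal

namespace Di

/-! ### Indicators -/

theorem ii_mul (p r : Prop) : ii p * ii r = ii (p ∧ r) := by
  unfold ii
  by_cases hp : p <;> by_cases hr : r <;> simp [hp, hr]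

theorem ii_le_one (p : Prop) : ii p ≤ 1 := by
  unfold ii
  by_cases hp : p <;> simp [hp]

theorem ii_true {p : Prop} (h : p) : ii p = 1 := by
  unfold ii
  rw [if_pos h]

theorem ii_false {p : Prop} (h : ¬ p) : ii p = 0 := by
  unfold ii
  rw [if_neg h]

theorem sm_mul_left {D : ℕ} {q β J : ℝ} (k : ℝ≥0∞) (F : Pr D → ℝ≥0∞) :
    sm D q β J (fun c => k * F c) = k * sm D q β J F := by
  unfold sm
  rw [← ENNReal.tsum_mul_left]
  exact tsum_congr fun c => by ring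

theorem sm_add {D : ℕ} {q β J : ℝ} (F F' : Pr D → ℝ≥0∞) :
    sm D q β J (fun c => F c + F' c) = sm D q β J F + sm D q β J F' := by
  unfold sm
  rw [← ENNReal.tsum_add]
  exact tsum_congr fun c => by ring

theorem sm_sum {D : ℕ} {q β J : ℝ} {ι : Type} (S : Finset ι) (F : ι → Pr D → ℝ≥0∞) :
    sm D q β J (fun c => ∑ i ∈ S, F i c) = ∑ i ∈ S, sm D q β J (F i) := by
  classical
  induction S using Finset.induction_on with
  | empty =>
    unfold sm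
    simp
  | insert i S hi ih =>
    rw [Finset.sum_insert hi, ← ih, ← sm_add]
    congr 1
    funext c
    rw [Finset.sum_insert hi]

/-! ### Translations -/

theorem mem_sh {D : ℕ} (k : ℤ) (c : Pr D) (x : Site D) :
    x ∈ (sh k c).1 ↔ ((x.1 - k, x.2) : Site D) ∈ c.1 := by
  unfold sh
  rw [Finset.mem_image]
  constructor
  · rintro ⟨a, ha, rfl⟩
    have : ((a.1 + k - k, a.2) : Site D) = a := by rw [add_sub_cancel_right]
    rw [this]
    exact ha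
  · intro h
    exact ⟨_, h, by simp⟩

theorem abv_sh {D : ℕ} (k m : ℤ) (c : Pr D) : abv m (sh k c) ↔ abv (m - k) c := by
  unfold abv
  constructor
  · intro h x hx
    have := h (x.1 + k, x.2) ((mem_sh k c _).2 (by simpa using hx))
    dsimp only at this
    omega
  · intro h x hx
    have := h _ ((mem_sh k c x).1 hx)
    dsimp only at this
    omega

theorem bel_sh {D : ℕ} (k m : ℤ) (c : Pr D) : bel m (sh k c) ↔ bel (m - k) c := by
  unfold bel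
  constructor
  · intro h x hx
    have := h (x.1 + k, x.2) ((mem_sh k c _).2 (by simpa using hx))
    dsimp only at this
    omega
  · intro h x hx
    have := h _ ((mem_sh k c x).1 hx)
    dsimp only at this
    omega

theorem occ_sh {D : ℕ} (a : ℝ) (k : ℤ) (c : Pr D) : occ a (sh k c).1 = occ a c.1 := by
  unfold occ sh
  rw [Finset.sum_image]
  intro x _ y _ hxy
  have h1 := (Prod.mk.inj hxy)
  exact Prod.ext (by have := h1.1; omega) h1.2

/-! ### Occupation -/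

theorem ofReal_occ {D : ℕ} (a : ℝ) (A : Finset (Site D)) :
    ENNReal.ofReal (occ a A) = ∑ x ∈ A, ex a (SB.nt x.2) := by
  unfold occ ex
  exact ENNReal.ofReal_sum_of_nonneg fun x _ => (Real.exp_pos _).le

theorem occ_nonneg {D : ℕ} (a : ℝ) (A : Finset (Site D)) : 0 ≤ occ a A :=
  Finset.sum_nonneg fun _ _ => (Real.exp_pos _).le

/-- The number of the possible heights of the last passage. -/
theorem count_le {D : ℕ} (a N : ℝ) (c : Pr D) (n : ℕ) :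
    ∑ m ∈ range n, ii (((((m : ℕ) : ℤ) + 1, 0) : Site D) ∈ c.1 ∧ occ a (hi c m).1 ≤ N) ≤
      ENNReal.ofReal N := by
  classical
  set S := (range n).filter fun m : ℕ =>
    ((((m : ℕ) : ℤ) + 1, 0) : Site D) ∈ c.1 ∧ occ a (hi c m).1 ≤ N with hS
  have h1 : ∑ m ∈ range n, ii (((((m : ℕ) : ℤ) + 1, 0) : Site D) ∈ c.1 ∧
      occ a (hi c m).1 ≤ N) = (S.card : ℝ≥0∞) := by
    rw [hS, Finset.card_filter, Nat.cast_sum]
    refine Finset.sum_congr rfl fun m _ => ?_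
    unfold ii
    split_ifs <;> simp
  rw [h1]
  rcases S.eq_empty_or_nonempty with h0 | hne
  · rw [h0]
    simp
  set m0 := S.min' hne with hm0
  have hm0S : m0 ∈ S := S.min'_mem hne
  have h2 : (S.card : ℝ) ≤ occ a (hi c m0).1 := by
    have hinj : Set.InjOn (fun m : ℕ => ((((m : ℕ) : ℤ) + 1, 0) : Site D)) S := by
      intro x _ y _ hxy
      have := (Prod.mk.inj hxy).1
      omega
    have hsub : S.image (fun m : ℕ => ((((m : ℕ) : ℤ) + 1, 0) : Site D)) ⊆ (hi c m0).1 := by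
      intro x hx
      obtain ⟨m, hm, rfl⟩ := Finset.mem_image.1 hx
      unfold hi
      rw [Finset.mem_filter]
      refine ⟨(Finset.mem_filter.1 hm).2.1, ?_⟩
      have : m0 ≤ m := S.min'_le m hm
      dsimp only
      omega
    calc (S.card : ℝ) = ∑ x ∈ S.image (fun m : ℕ => ((((m : ℕ) : ℤ) + 1, 0) : Site D)),
          Real.exp (-(a * SB.nt x.2)) := by
          rw [Finset.sum_image hinj]
          have : ∀ m ∈ S, Real.exp (-(a * SB.nt (0 : Tv D))) = 1 := by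
            intro m _
            rw [nt_zero']
            simp
          rw [Finset.sum_congr rfl this]
          simp
      _ ≤ occ a (hi c m0).1 := by
          unfold occ
          exact Finset.sum_le_sum_of_subset_of_nonneg hsub fun _ _ _ => (Real.exp_pos _).le
  have h3 : (S.card : ℝ) ≤ N := h2.trans (Finset.mem_filter.1 hm0S).2.2
  calc (S.card : ℝ≥0∞) = ENNReal.ofReal (S.card : ℝ) := (ENNReal.ofReal_natCast _).symm
    _ ≤ _ := ENNReal.ofReal_le_ofReal h3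

/-! ### Convolutions -/

theorem conv_le (f g : ℕ → ℝ≥0∞) :
    (∑' m, f m) * ∑' k, g k ≤ ∑' n, ∑ m ∈ range n, f m * g (n - 1 - m) := by
  have h1 : ∀ n, ∑ m ∈ range n, f m * g (n - 1 - m) =
      ∑' m, ii (m < n) * (f m * g (n - 1 - m)) := by
    intro n
    rw [tsum_eq_sum (s := range n)]
    · refine Finset.sum_congr rfl fun m hm => ?_
      rw [ii_true (Finset.mem_range.1 hm), one_mul]
    · intro m hm
      rw [ii_false (fun h => hm (Finset.mem_range.2 h)), zero_mul]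
  rw [tsum_congr h1, ENNReal.tsum_comm, ← ENNReal.tsum_mul_right]
  refine ENNReal.tsum_le_tsum fun m => ?_
  rw [← ENNReal.tsum_mul_left]
  calc ∑' k, f m * g k = ∑' k : ℕ, (fun n => ii (m < n) * (f m * g (n - 1 - m))) (m + 1 + k) := by
        refine tsum_congr fun k => ?_
        dsimp only
        rw [ii_true (by omega : m < m + 1 + k), one_mul]
        congr 2
        omega
    _ ≤ _ := ENNReal.tsum_comp_le_tsum_of_injective (fun x y hxy => by omega) _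

theorem pow_mul_le {z : ℝ≥0∞} (hz : 1 ≤ z) {n m : ℕ} (h : m < n) (a b : ℝ≥0∞) :
    z ^ m * a * (z ^ (n - 1 - m) * b) ≤ z ^ n * (a * b) := by
  have h1 : z ^ m * a * (z ^ (n - 1 - m) * b) = z ^ (n - 1) * (a * b) := by
    have : n - 1 = m + (n - 1 - m) := by omega
    rw [this, pow_add]
    have h2 : m + (n - 1 - m) - m = n - 1 - m := by omega
    rw [h2]
    ring
  rw [h1]
  exact mul_le_mul_left (pow_le_pow_right₀ hz (Nat.sub_le n 1)) _

/-! ### Confined clusters with few sites near the line -/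

/-- The confined clusters with occupation at most `N`. -/
noncomputable def TK (D : ℕ) (q β J a N : ℝ) (n : ℕ) (u w : Tv D) : ℝ≥0∞ :=
  sm D q β J fun c => ii (((0, u) : Site D) ∈ c.1 ∧ (((n : ℤ), w) : Site D) ∈ c.1 ∧
    abv 0 c ∧ bel n c ∧ occ a c.1 ≤ N)

/-- Their generating function. -/
noncomputable def TKI (D : ℕ) (q β J a N : ℝ) (z : ℝ≥0∞) (u w : Tv D) : ℝ≥0∞ :=
  ∑' n : ℕ, z ^ n * TK D q β J a N n u w

theorem lower_eq {D : ℕ} {q β J : ℝ} (m : ℕ) (y : Tv D) :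
    sm D q β J (fun c => ii (bel (m : ℤ) c ∧ (((m : ℤ), y) : Site D) ∈ c.1) *
      ii (((0, 0) : Site D) ∈ c.1 ∧ abv 0 c)) = TN D q β J m 0 y := by
  unfold TN
  congr 1
  funext c
  rw [ii_mul]
  exact Shi.ii_congr (by tauto)

theorem upper_eq {D : ℕ} {q β J : ℝ} {m n : ℕ} (hmn : m < n) (y w : Tv D) :
    sm D q β J (fun c => ii (abv ((m : ℤ) + 1) c ∧ (((m : ℤ) + 1, y) : Site D) ∈ c.1) *
      ii ((((n : ℤ), w) : Site D) ∈ c.1 ∧ bel n c)) = TN D q β J (n - 1 - m) y w := by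
  rw [← sm_sh ((m : ℤ) + 1)]
  unfold TN
  congr 1
  funext c
  rw [ii_mul]
  refine Shi.ii_congr ?_
  rw [mem_sh, mem_sh, abv_sh, bel_sh]
  have h1 : (n : ℤ) - ((m : ℤ) + 1) = ((n - 1 - m : ℕ) : ℤ) := by omega
  dsimp only
  rw [h1, sub_self]
  tauto

theorem upperK_eq {D : ℕ} {q β J : ℝ} (a N : ℝ) {m n : ℕ} (hmn : m < n) (w : Tv D) :
    sm D q β J (fun c => ii (abv ((m : ℤ) + 1) c ∧ (((m : ℤ) + 1, 0) : Site D) ∈ c.1) *
      ii ((((n : ℤ), w) : Site D) ∈ c.1 ∧ bel n c ∧ (((m : ℤ) + 1, 0) : Site D) ∈ c.1 ∧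
        occ a c.1 ≤ N)) = TK D q β J a N (n - 1 - m) 0 w := by
  rw [← sm_sh ((m : ℤ) + 1)]
  unfold TK
  congr 1
  funext c
  rw [ii_mul]
  refine Shi.ii_congr ?_
  rw [mem_sh, mem_sh, abv_sh, bel_sh, occ_sh]
  have h1 : (n : ℤ) - ((m : ℤ) + 1) = ((n - 1 - m : ℕ) : ℤ) := by omega
  dsimp only
  rw [h1, sub_self]
  tauto

theorem mem_jn {D : ℕ} {c1 c2 : Pr D} {y : Tv D} {m : ℤ} {x : Site D} :
    x ∈ (jn c1 y m c2).1 ↔ x ∈ c1.1 ∨ x ∈ c2.1 := by
  unfold jn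
  rw [Finset.mem_union]

/-- The length is at least the number of the cuts. -/
theorem n_ge {D : ℕ} {q β J : ℝ} (h : Bas D q β) (hJ : 1 ≤ J) (n : ℕ) :
    ∑ m ∈ range n, ENNReal.ofReal ((Real.exp β - 1) / q) *
      ∑' y : Tv D, TN D q β J m 0 y * TN D q β J (n - 1 - m) y 0 ≤ n * GN D q β J n 0 0 := by
  have hc : (n : ℝ≥0∞) * GN D q β J n 0 0 = ∑ _m ∈ range n, GN D q β J n 0 0 := by
    rw [Finset.sum_const, Finset.card_range, nsmul_eq_mul]
  rw [hc]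
  refine Finset.sum_le_sum fun m hm => ?_
  have hmn := Finset.mem_range.1 hm
  have key := sm_cut_ge h hJ (m : ℤ)
    (fun c => ii (((0, 0) : Site D) ∈ c.1 ∧ (((n : ℤ), 0) : Site D) ∈ c.1))
    (fun c => ii (((0, 0) : Site D) ∈ c.1 ∧ abv 0 c))
    (fun c => ii ((((n : ℤ), 0) : Site D) ∈ c.1 ∧ bel n c)) (by
      intro c1 y c2 _
      rw [ii_mul]
      refine Shi.ii_mono ?_
      rintro ⟨⟨h1, _⟩, h2, _⟩
      exact ⟨mem_jn.2 (Or.inl h1), mem_jn.2 (Or.inr h2)⟩)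
  have h1 : ∀ y : Tv D, sm D q β J (fun c => ii (bel (m : ℤ) c ∧
      (((m : ℤ), y) : Site D) ∈ c.1) * ii (((0, 0) : Site D) ∈ c.1 ∧ abv 0 c)) *
      sm D q β J (fun c => ii (abv ((m : ℤ) + 1) c ∧ (((m : ℤ) + 1, y) : Site D) ∈ c.1) *
      ii ((((n : ℤ), 0) : Site D) ∈ c.1 ∧ bel n c)) =
      TN D q β J m 0 y * TN D q β J (n - 1 - m) y 0 := by
    intro y
    rw [lower_eq, upper_eq hmn]
  rw [tsum_congr h1] at key
  refine key.trans ?_
  unfold GN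
  refine Shi.sm_mono fun c => ?_
  calc _ ≤ 1 * ii (((0, 0) : Site D) ∈ c.1 ∧ (((n : ℤ), 0) : Site D) ∈ c.1) :=
        mul_le_mul_left (ii_le_one _) _
    _ = _ := one_mul _

theorem dz_ge_conf {D : ℕ} {q β J : ℝ} (h : Bas D q β) (hJ : 1 ≤ J) {z : ℝ≥0∞} (hz : 1 ≤ z) :
    ENNReal.ofReal ((Real.exp β - 1) / q) * ∑' y : Tv D, TI D q β J z 0 y ^ 2 ≤
      ∑' n : ℕ, (n : ℝ≥0∞) * z ^ n * GN D q β J n 0 0 := by
  have hcomm : ∀ y : Tv D, TI D q β J z y 0 = TI D q β J z 0 y := by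
    intro y
    unfold TI
    exact tsum_congr fun n => by rw [TN_comm]
  have h1 : ∑' y : Tv D, TI D q β J z 0 y ^ 2 ≤ ∑' n : ℕ, z ^ n * ∑ m ∈ range n,
      ∑' y : Tv D, TN D q β J m 0 y * TN D q β J (n - 1 - m) y 0 := by
    calc ∑' y : Tv D, TI D q β J z 0 y ^ 2
        = ∑' y : Tv D, (∑' m : ℕ, z ^ m * TN D q β J m 0 y) *
            ∑' k : ℕ, z ^ k * TN D q β J k y 0 := by
          refine tsum_congr fun y => ?_
          rw [sq]
          nth_rewrite 2 [← hcomm y]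
          rfl
      _ ≤ ∑' y : Tv D, ∑' n : ℕ, ∑ m ∈ range n, z ^ m * TN D q β J m 0 y *
            (z ^ (n - 1 - m) * TN D q β J (n - 1 - m) y 0) :=
          ENNReal.tsum_le_tsum fun y => conv_le (fun m => z ^ m * TN D q β J m 0 y)
            (fun k => z ^ k * TN D q β J k y 0)
      _ = ∑' n : ℕ, ∑' y : Tv D, ∑ m ∈ range n, z ^ m * TN D q β J m 0 y *
            (z ^ (n - 1 - m) * TN D q β J (n - 1 - m) y 0) := ENNReal.tsum_comm
      _ ≤ ∑' n : ℕ, ∑' y : Tv D, ∑ m ∈ range n, z ^ n *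
            (TN D q β J m 0 y * TN D q β J (n - 1 - m) y 0) :=
          ENNReal.tsum_le_tsum fun n => ENNReal.tsum_le_tsum fun y =>
            Finset.sum_le_sum fun m hm => pow_mul_le hz (Finset.mem_range.1 hm) _ _
      _ = _ := by
          refine tsum_congr fun n => ?_
          rw [Summable.tsum_finsetSum fun _ _ => ENNReal.summable, Finset.mul_sum]
          exact Finset.sum_congr rfl fun m _ => ENNReal.tsum_mul_left
  calc _ ≤ ENNReal.ofReal ((Real.exp β - 1) / q) * ∑' n : ℕ, z ^ n * ∑ m ∈ range n,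
      ∑' y : Tv D, TN D q β J m 0 y * TN D q β J (n - 1 - m) y 0 := mul_le_mul_right h1 _
    _ = ∑' n : ℕ, z ^ n * ∑ m ∈ range n, ENNReal.ofReal ((Real.exp β - 1) / q) *
      ∑' y : Tv D, TN D q β J m 0 y * TN D q β J (n - 1 - m) y 0 := by
        rw [← ENNReal.tsum_mul_left]
        refine tsum_congr fun n => ?_
        rw [← Finset.mul_sum]
        ring
    _ ≤ ∑' n : ℕ, z ^ n * (n * GN D q β J n 0 0) :=
        ENNReal.tsum_le_tsum fun n => mul_le_mul_right (n_ge h hJ n) _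
    _ = _ := tsum_congr fun n => by ring

/-- The last passage through the line. -/
theorem TN_ge {D : ℕ} {q β J : ℝ} (h : Bas D q β) (hJ : 1 ≤ J) (a N : ℝ) (hN : 0 ≤ N) (n : ℕ)
    (w : Tv D) :
    ENNReal.ofReal ((Real.exp β - 1) / q) *
      ∑ m ∈ range n, TN D q β J m 0 0 * TK D q β J a N (n - 1 - m) 0 w ≤
      ENNReal.ofReal N * TN D q β J n 0 w := by
  set F : ℕ → Pr D → ℝ≥0∞ := fun m c =>
    ii (((0, 0) : Site D) ∈ c.1 ∧ (((n : ℤ), w) : Site D) ∈ c.1 ∧ abv 0 c ∧ bel n c) *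
      ii (((((m : ℕ) : ℤ) + 1, 0) : Site D) ∈ c.1 ∧ occ a (hi c m).1 ≤ N) with hF
  have h1 : ∀ m ∈ range n, ENNReal.ofReal ((Real.exp β - 1) / q) *
      (TN D q β J m 0 0 * TK D q β J a N (n - 1 - m) 0 w) ≤ sm D q β J (F m) := by
    intro m hm
    have hmn := Finset.mem_range.1 hm
    have key := sm_cut_ge h hJ (m : ℤ) (F m)
      (fun c => ii (((0, 0) : Site D) ∈ c.1 ∧ abv 0 c))
      (fun c => ii ((((n : ℤ), w) : Site D) ∈ c.1 ∧ bel n c ∧
        (((m : ℤ) + 1, 0) : Site D) ∈ c.1 ∧ occ a c.1 ≤ N)) (by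
        intro c1 y c2 hv
        have hhi := jn_hi hv
        rw [ii_mul, hF]
        dsimp only
        rw [ii_mul, hhi]
        refine Shi.ii_mono ?_
        rintro ⟨⟨a1, a2⟩, b1, b2, b3, b4⟩
        refine ⟨⟨mem_jn.2 (Or.inl a1), mem_jn.2 (Or.inr b1), ?_, ?_⟩, mem_jn.2 (Or.inr b3), b4⟩
        · intro x hx
          rcases mem_jn.1 hx with hx | hx
          · exact a2 x hx
          · have := hv.2.2.2.2.1 x hx
            omega
        · intro x hx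
          rcases mem_jn.1 hx with hx | hx
          · have := hv.2.2.1 x hx
            omega
          · exact b2 x hx)
    have h2 := ENNReal.le_tsum (f := fun y : Tv D => sm D q β J (fun c => ii (bel (m : ℤ) c ∧
      (((m : ℤ), y) : Site D) ∈ c.1) * ii (((0, 0) : Site D) ∈ c.1 ∧ abv 0 c)) *
      sm D q β J (fun c => ii (abv ((m : ℤ) + 1) c ∧ (((m : ℤ) + 1, y) : Site D) ∈ c.1) *
      ii ((((n : ℤ), w) : Site D) ∈ c.1 ∧ bel n c ∧ (((m : ℤ) + 1, 0) : Site D) ∈ c.1 ∧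
        occ a c.1 ≤ N))) (0 : Tv D)
    rw [lower_eq, upperK_eq a N hmn] at h2
    refine (mul_le_mul_right h2 _).trans (key.trans ?_)
    refine Shi.sm_mono fun c => ?_
    calc _ ≤ 1 * F m c := mul_le_mul_left (ii_le_one _) _
      _ = _ := one_mul _
  rw [Finset.mul_sum]
  refine (Finset.sum_le_sum h1).trans ?_
  rw [← sm_sum]
  unfold TN
  rw [← sm_mul_left]
  refine Shi.sm_mono fun c => ?_
  rw [hF]
  dsimp only
  rw [← Finset.mul_sum, mul_comm]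
  exact mul_le_mul_left (count_le a N c n) _

theorem TI_ge {D : ℕ} {q β J : ℝ} (h : Bas D q β) (hJ : 1 ≤ J) (a N : ℝ) (hN : 0 ≤ N)
    {z : ℝ≥0∞} (hz : 1 ≤ z) (w : Tv D) :
    ENNReal.ofReal ((Real.exp β - 1) / q) * (TI D q β J z 0 0 * TKI D q β J a N z 0 w) ≤
      ENNReal.ofReal N * TI D q β J z 0 w := by
  have h1 : TI D q β J z 0 0 * TKI D q β J a N z 0 w ≤ ∑' n : ℕ, z ^ n * ∑ m ∈ range n,
      TN D q β J m 0 0 * TK D q β J a N (n - 1 - m) 0 w := by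
    refine (conv_le (fun m => z ^ m * TN D q β J m 0 0)
      (fun k => z ^ k * TK D q β J a N k 0 w)).trans ?_
    refine ENNReal.tsum_le_tsum fun n => ?_
    rw [Finset.mul_sum]
    exact Finset.sum_le_sum fun m hm => pow_mul_le hz (Finset.mem_range.1 hm) _ _
  refine (mul_le_mul_right h1 _).trans ?_
  unfold TI
  rw [← ENNReal.tsum_mul_left, ← ENNReal.tsum_mul_left]
  refine ENNReal.tsum_le_tsum fun n => ?_
  calc _ = z ^ n * (ENNReal.ofReal ((Real.exp β - 1) / q) * ∑ m ∈ range n,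
      TN D q β J m 0 0 * TK D q β J a N (n - 1 - m) 0 w) := by ring
    _ ≤ z ^ n * (ENNReal.ofReal N * TN D q β J n 0 w) :=
        mul_le_mul_right (TN_ge h hJ a N hN n w) _
    _ = _ := by ring

/-- The comparison of the weights. -/
theorem TKI_le {D : ℕ} {q β J C a : ℝ} (hC : 0 < C) (h : ∀ c' : Pr D,
      WI D q β 1 c' ≤ ENNReal.ofReal (Real.exp (C * occ a c'.1)) * WI D q β J c')
    (N : ℝ) (z : ℝ≥0∞) (u w : Tv D) :
    TKI D q β 1 a N z u w ≤ ENNReal.ofReal (Real.exp (C * N)) * TKI D q β J a N z u w := by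
  unfold TKI
  rw [← ENNReal.tsum_mul_left]
  refine ENNReal.tsum_le_tsum fun n => ?_
  rw [mul_left_comm]
  refine mul_le_mul_right ?_ _
  unfold TK
  rw [← sm_mul_left]
  unfold sm
  refine ENNReal.tsum_le_tsum fun c => ?_
  by_cases hc : ((0, u) : Site D) ∈ c.1 ∧ (((n : ℤ), w) : Site D) ∈ c.1 ∧
      abv 0 c ∧ bel n c ∧ occ a c.1 ≤ N
  · dsimp only
    rw [ii_true hc, mul_one, mul_one]
    refine (h c).trans ?_
    rw [mul_comm]
    refine mul_le_mul_right (ENNReal.ofReal_le_ofReal (Real.exp_le_exp.2 ?_)) _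
    exact mul_le_mul_of_nonneg_left hc.2.2.2.2 hC.le
  · dsimp only
    rw [ii_false hc, mul_zero]
    exact bot_le

/-! ### The clusters with many sites near the line -/

/-- The generating function with marks. -/
noncomputable def XI (D : ℕ) (q β a : ℝ) (z : ℝ≥0∞) (u w : Tv D) : ℝ≥0∞ :=
  ∑' n : ℕ, z ^ n * sm D q β 1 fun c =>
    ii (((0, u) : Site D) ∈ c.1 ∧ (((n : ℤ), w) : Site D) ∈ c.1) *
      ∑ x ∈ c.1, ex a (SB.nt x.2)

theorem TI_split {D : ℕ} {q β a N : ℝ} (hN : 0 < N) (z : ℝ≥0∞) (u w : Tv D) :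
    TI D q β 1 z u w ≤ TKI D q β 1 a N z u w + (ENNReal.ofReal N)⁻¹ * XI D q β a z u w := by
  unfold TI TKI XI
  rw [← ENNReal.tsum_mul_left, ← ENNReal.tsum_add]
  refine ENNReal.tsum_le_tsum fun n => ?_
  rw [mul_left_comm, ← mul_add]
  refine mul_le_mul_right ?_ _
  unfold TN TK
  rw [← sm_mul_left, ← sm_add]
  refine Shi.sm_mono fun c => ?_
  by_cases hc : ((0, u) : Site D) ∈ c.1 ∧ (((n : ℤ), w) : Site D) ∈ c.1 ∧ abv 0 c ∧ bel n c
  · by_cases ho : occ a c.1 ≤ N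
    · rw [ii_true hc, ii_true ⟨hc.1, hc.2.1, hc.2.2.1, hc.2.2.2, ho⟩]
      exact le_self_add
    · have e1 : ii (((0, u) : Site D) ∈ c.1 ∧ (((n : ℤ), w) : Site D) ∈ c.1) = 1 :=
        ii_true ⟨hc.1, hc.2.1⟩
      rw [ii_true hc, e1, one_mul, ← ofReal_occ]
      refine le_trans ?_ le_add_self
      have h1 : ENNReal.ofReal N ≤ ENNReal.ofReal (occ a c.1) :=
        ENNReal.ofReal_le_ofReal (not_le.1 ho).le
      calc (1 : ℝ≥0∞) = (ENNReal.ofReal N)⁻¹ * ENNReal.ofReal N :=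
            (ENNReal.inv_mul_cancel (ENNReal.ofReal_pos.2 hN).ne' ENNReal.ofReal_ne_top).symm
        _ ≤ _ := mul_le_mul_right h1 _
  · rw [ii_false hc]
    exact bot_le

theorem SG_le_GI {D : ℕ} {q β J : ℝ} (z : ℝ≥0∞) (L : ℕ) (u w : Tv D) :
    SG D q β J z L u w ≤ GI D q β J z u w := ENNReal.sum_le_tsum _

theorem tsum_le_of_range {f : ℕ → ℝ≥0∞} {B : ℝ≥0∞} (h : ∀ L, ∑ n ∈ range (L + 1), f n ≤ B) :
    ∑' n, f n ≤ B := by
  refine ENNReal.tsum_le_of_sum_range_le fun n => ?_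
  exact (Finset.sum_le_sum_of_subset (Finset.range_mono (Nat.le_succ n))).trans (h n)

theorem XI_le {D : ℕ} {q β a C c : ℝ} {z : ℝ≥0∞} (h : ∀ (L : ℕ) (φ : Tv D → ℝ≥0∞) (u w : Tv D),
      ∑ n ∈ range (L + 1), z ^ n * sm D q β 1 (fun c' =>
        ii (((0, u) : Site D) ∈ c'.1 ∧ (((n : ℤ), w) : Site D) ∈ c'.1) * ∑ x ∈ c'.1, φ x.2) ≤
      ENNReal.ofReal C * (Ek φ c u w + ∑' y, Ek φ c u y * SG D q β 1 z L y w +
        ∑' y, SG D q β 1 z L u y * Ek φ c y w +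
        ∑' y, ∑' y', SG D q β 1 z L u y * Ek φ c y y' * SG D q β 1 z L y' w)) (u w : Tv D) :
    XI D q β a z u w ≤ ENNReal.ofReal C * (Ek (fun b => ex a (SB.nt b)) c u w +
        ∑' y, Ek (fun b => ex a (SB.nt b)) c u y * GI D q β 1 z y w +
        ∑' y, GI D q β 1 z u y * Ek (fun b => ex a (SB.nt b)) c y w +
        ∑' y, ∑' y', GI D q β 1 z u y * Ek (fun b => ex a (SB.nt b)) c y y' *
          GI D q β 1 z y' w) := by
  unfold XI
  refine tsum_le_of_range fun L => ?_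
  refine (h L (fun b => ex a (SB.nt b)) u w).trans ?_
  refine mul_le_mul_right ?_ _
  refine add_le_add (add_le_add (add_le_add le_rfl ?_) ?_) ?_
  · exact ENNReal.tsum_le_tsum fun y => mul_le_mul_right (SG_le_GI z L y w) _
  · exact ENNReal.tsum_le_tsum fun y => mul_le_mul_left (SG_le_GI z L u y) _
  · exact ENNReal.tsum_le_tsum fun y => ENNReal.tsum_le_tsum fun y' =>
      mul_le_mul' (mul_le_mul_left (SG_le_GI z L u y) _) (SG_le_GI z L y' w)

/-! ### The kernel -/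

theorem tsum_Ek_right {D : ℕ} (φ : Tv D → ℝ≥0∞) (c : ℝ) (u : Tv D) :
    ∑' w : Tv D, Ek φ c u w = ∑' b : Tv D, φ b * ex c (SB.nt (u - b)) *
      ∑' w : Tv D, ex c (SB.nt w) := by
  unfold Ek
  rw [ENNReal.tsum_comm]
  refine tsum_congr fun b => ?_
  rw [ENNReal.tsum_mul_left]
  congr 1
  exact tsum_sub_left (fun w => ex c (SB.nt w)) b

theorem tsum_Ek_le {D : ℕ} (φ : Tv D → ℝ≥0∞) {c : ℝ} (hc : 0 ≤ c) (u : Tv D) :
    ∑' w : Tv D, Ek φ c u w ≤ (∑' b : Tv D, φ b) * ∑' w : Tv D, ex c (SB.nt w) := by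
  rw [tsum_Ek_right, ← ENNReal.tsum_mul_right]
  refine ENNReal.tsum_le_tsum fun b => mul_le_mul_left ?_ _
  calc φ b * ex c (SB.nt (u - b)) ≤ φ b * 1 :=
        mul_le_mul_right (ex_le_one hc (Nat.cast_nonneg _)) _
    _ = φ b := mul_one _

theorem tsum_tsum_Ek {D : ℕ} (φ : Tv D → ℝ≥0∞) (c : ℝ) :
    ∑' u : Tv D, ∑' w : Tv D, Ek φ c u w =
      (∑' b : Tv D, φ b) * (∑' w : Tv D, ex c (SB.nt w)) ^ 2 := by
  have h1 : ∀ u : Tv D, ∑' w : Tv D, Ek φ c u w = ∑' b : Tv D, φ b * ex c (SB.nt (u - b)) *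
      ∑' w : Tv D, ex c (SB.nt w) := tsum_Ek_right φ c
  rw [tsum_congr h1, ENNReal.tsum_comm, ← ENNReal.tsum_mul_right]
  refine tsum_congr fun b => ?_
  rw [ENNReal.tsum_mul_right, ENNReal.tsum_mul_left, tsum_sub_right (fun w => ex c (SB.nt w)) b]
  ring

theorem corr_le {D : ℕ} (g : Tv D → ℝ≥0∞) (y : Tv D) :
    ∑' w : Tv D, g (w - y) * g w ≤ ∑' w : Tv D, g w ^ 2 := by
  have h : 2 * ∑' w : Tv D, g (w - y) * g w ≤ 2 * ∑' w : Tv D, g w ^ 2 := by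
    rw [← ENNReal.tsum_mul_left]
    calc _ ≤ ∑' w : Tv D, (g (w - y) ^ 2 + g w ^ 2) :=
          ENNReal.tsum_le_tsum fun w => two_mul_mul_le_sq _ _
      _ = 2 * ∑' w : Tv D, g w ^ 2 := by
          rw [ENNReal.tsum_add, tsum_sub_right (fun w => g w ^ 2) y, two_mul]
  exact (ENNReal.mul_le_mul_iff_right two_ne_zero ENNReal.ofNat_ne_top).1 h

/-- The four terms of the decomposition, paired with the generating function. -/
theorem pair_le {D : ℕ} (k : Tv D → Tv D → ℝ≥0∞) (g : Tv D → ℝ≥0∞) (B K K2 : ℝ≥0∞)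
    (hg : ∀ y, g y ≤ B) (hk : ∑' w : Tv D, k 0 w ≤ K)
    (hk2 : ∑' u : Tv D, ∑' w : Tv D, k u w ≤ K2) :
    ∑' w : Tv D, (k 0 w + ∑' y, k 0 y * g (w - y) + ∑' y, g y * k y w +
        ∑' y, ∑' y', g y * k y y' * g (w - y')) * g w ≤
      B * K + K * ∑' w : Tv D, g w ^ 2 + B ^ 2 * K2 + B * K2 * ∑' w : Tv D, g w ^ 2 := by
  have e : ∀ w : Tv D, (k 0 w + ∑' y, k 0 y * g (w - y) + ∑' y, g y * k y w +
        ∑' y, ∑' y', g y * k y y' * g (w - y')) * g w =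
      k 0 w * g w + (∑' y, k 0 y * g (w - y)) * g w + (∑' y, g y * k y w) * g w +
        (∑' y, ∑' y', g y * k y y' * g (w - y')) * g w := fun w => by ring
  rw [tsum_congr e, ENNReal.tsum_add, ENNReal.tsum_add, ENNReal.tsum_add]
  refine add_le_add (add_le_add (add_le_add ?_ ?_) ?_) ?_
  · calc ∑' w : Tv D, k 0 w * g w ≤ ∑' w : Tv D, k 0 w * B :=
          ENNReal.tsum_le_tsum fun w => mul_le_mul_right (hg w) _
      _ = (∑' w : Tv D, k 0 w) * B := ENNReal.tsum_mul_right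
      _ ≤ K * B := mul_le_mul_left hk _
      _ = _ := mul_comm _ _
  · calc ∑' w : Tv D, (∑' y, k 0 y * g (w - y)) * g w
        = ∑' w : Tv D, ∑' y, k 0 y * (g (w - y) * g w) := by
          refine tsum_congr fun w => ?_
          rw [← ENNReal.tsum_mul_right]
          exact tsum_congr fun y => by ring
      _ = ∑' y, k 0 y * ∑' w : Tv D, g (w - y) * g w := by
          rw [ENNReal.tsum_comm]
          exact tsum_congr fun y => ENNReal.tsum_mul_left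
      _ ≤ ∑' y, k 0 y * ∑' w : Tv D, g w ^ 2 :=
          ENNReal.tsum_le_tsum fun y => mul_le_mul_right (corr_le g y) _
      _ = (∑' y, k 0 y) * ∑' w : Tv D, g w ^ 2 := ENNReal.tsum_mul_right
      _ ≤ _ := mul_le_mul_left hk _
  · calc ∑' w : Tv D, (∑' y, g y * k y w) * g w
        ≤ ∑' w : Tv D, (∑' y, B * k y w) * B :=
          ENNReal.tsum_le_tsum fun w => mul_le_mul' (ENNReal.tsum_le_tsum fun y =>
            mul_le_mul_left (hg y) _) (hg w)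
      _ = B ^ 2 * ∑' y, ∑' w : Tv D, k y w := by
          rw [ENNReal.tsum_mul_right]
          have : ∀ w : Tv D, ∑' y, B * k y w = B * ∑' y, k y w := fun w =>
            ENNReal.tsum_mul_left
          rw [tsum_congr this, ENNReal.tsum_mul_left, ENNReal.tsum_comm]
          ring
      _ ≤ _ := mul_le_mul_right hk2 _
  · calc ∑' w : Tv D, (∑' y, ∑' y', g y * k y y' * g (w - y')) * g w
        ≤ ∑' w : Tv D, (∑' y, ∑' y', B * k y y' * g (w - y')) * g w :=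
          ENNReal.tsum_le_tsum fun w => mul_le_mul_left (ENNReal.tsum_le_tsum fun y =>
            ENNReal.tsum_le_tsum fun y' => mul_le_mul_left (mul_le_mul_left (hg y) _) _) _
      _ = ∑' y, ∑' y', B * k y y' * ∑' w : Tv D, g (w - y') * g w := by
          calc _ = ∑' w : Tv D, ∑' y, ∑' y', B * k y y' * (g (w - y') * g w) := by
                refine tsum_congr fun w => ?_
                rw [← ENNReal.tsum_mul_right]
                refine tsum_congr fun y => ?_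
                rw [← ENNReal.tsum_mul_right]
                exact tsum_congr fun y' => by ring
            _ = ∑' y, ∑' w : Tv D, ∑' y', B * k y y' * (g (w - y') * g w) := ENNReal.tsum_comm
            _ = _ := by
                refine tsum_congr fun y => ?_
                rw [ENNReal.tsum_comm]
                exact tsum_congr fun y' => ENNReal.tsum_mul_left
      _ ≤ ∑' y, ∑' y', B * k y y' * ∑' w : Tv D, g w ^ 2 :=
          ENNReal.tsum_le_tsum fun y => ENNReal.tsum_le_tsum fun y' =>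
            mul_le_mul_right (corr_le g y') _
      _ = B * (∑' y, ∑' y', k y y') * ∑' w : Tv D, g w ^ 2 := by
          have : ∀ y : Tv D, ∑' y', B * k y y' * ∑' w : Tv D, g w ^ 2 =
              B * (∑' y', k y y') * ∑' w : Tv D, g w ^ 2 := by
            intro y
            rw [ENNReal.tsum_mul_right, ENNReal.tsum_mul_left]
          rw [tsum_congr this, ENNReal.tsum_mul_right, ENNReal.tsum_mul_left]
      _ ≤ _ := mul_le_mul_left (mul_le_mul_right hk2 _) _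

theorem GN_zero_ge {D : ℕ} {q β : ℝ} (h : Bas D q β) :
    ∃ m0 : ℝ, 0 < m0 ∧ ENNReal.ofReal m0 ≤ GN D q β 1 0 0 0 := by
  refine ⟨(Real.exp (β * 1) ^ (2 * (D + 1) * ({((0, 0) : Site D)} : Finset (Site D)).card))⁻¹,
    by positivity, ?_⟩
  set c0 : Pr D := ({((0, 0) : Site D)}, ∅) with hc0
  have hcl : (lat D).IsCl c0.1 c0.2 := by
    refine ⟨Finset.singleton_nonempty _, fun e he => absurd he (Finset.notMem_empty e), ?_⟩
    intro x hx y hy
    rw [Finset.mem_singleton.1 hx, Finset.mem_singleton.1 hy]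
    exact Relation.ReflTransGen.refl
  have hW : WI D q β 1 c0 = ENNReal.ofReal (ZI D q β 1 c0.1) := by
    unfold WI
    rw [if_pos hcl]
    congr 1
    unfold WW Gr.cw
    rw [hc0]
    simp
  calc ENNReal.ofReal (Real.exp (β * 1) ^
        (2 * (D + 1) * ({((0, 0) : Site D)} : Finset (Site D)).card))⁻¹
      ≤ ENNReal.ofReal (ZI D q β 1 c0.1) :=
        ENNReal.ofReal_le_ofReal (ZI_ge h zero_le_one le_rfl le_rfl _)
    _ = WI D q β 1 c0 * ii (((0, 0) : Site D) ∈ c0.1 ∧ ((((0 : ℕ) : ℤ), 0) : Site D) ∈ c0.1) := by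
        rw [hW, ii_true, mul_one]
        exact ⟨Finset.mem_singleton_self _, Finset.mem_singleton.2 (by simp)⟩
    _ ≤ GN D q β 1 0 0 0 := ENNReal.le_tsum c0

theorem GI_trans {D : ℕ} {q β : ℝ} (z : ℝ≥0∞) (y w : Tv D) :
    GI D q β 1 z y w = GI D q β 1 z 0 (w - y) := by
  unfold GI
  refine tsum_congr fun n => ?_
  rw [← GN_trans n 0 (w - y) y, zero_add, sub_add_cancel]

theorem TI_le_GI {D : ℕ} {q β J : ℝ} (z : ℝ≥0∞) (u w : Tv D) :
    TI D q β J z u w ≤ GI D q β J z u w :=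
  ENNReal.tsum_le_tsum fun n => mul_le_mul_right (TN_le_GN n u w) _

theorem GI_le_B {D : ℕ} {q β B : ℝ}
    (hB : ∀ (L : ℕ) (u w : Tv D), SG D q β 1 (zc D q β) L u w ≤ ENNReal.ofReal B)
    {z : ℝ≥0∞} (hz : z ≤ zc D q β) (u w : Tv D) : GI D q β 1 z u w ≤ ENNReal.ofReal B := by
  unfold GI
  refine tsum_le_of_range fun L => le_trans ?_ (hB L u w)
  unfold SG
  exact Finset.sum_le_sum fun n _ => mul_le_mul_left (pow_le_pow_left₀ bot_le hz n) _

theorem mul_le_quarter (x y : ℝ≥0∞) : x * y ≤ x ^ 2 * (4 : ℝ≥0∞)⁻¹ + y ^ 2 := by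
  have h := two_mul_mul_le_sq (x * (2 : ℝ≥0∞)⁻¹) y
  have h2 : (2 : ℝ≥0∞) * (2 : ℝ≥0∞)⁻¹ = 1 :=
    ENNReal.mul_inv_cancel two_ne_zero ENNReal.ofNat_ne_top
  have h4 : (2 : ℝ≥0∞)⁻¹ ^ 2 = (4 : ℝ≥0∞)⁻¹ := by
    rw [← ENNReal.inv_pow]
    norm_num
  calc x * y = 2 * (2 : ℝ≥0∞)⁻¹ * (x * y) := by rw [h2, one_mul]
    _ = 2 * (x * (2 : ℝ≥0∞)⁻¹ * y) := by ring
    _ ≤ _ := h
    _ = _ := by rw [mul_pow, h4]

theorem half_absorb {x y k : ℝ≥0∞} (hx : x ≠ ⊤) (hk : k ≤ (4 : ℝ≥0∞)⁻¹)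
    (h : x ≤ x * (4 : ℝ≥0∞)⁻¹ + y + k * x) : x ≤ 2 * y := by
  have h4 : (4 : ℝ≥0∞)⁻¹ + (4 : ℝ≥0∞)⁻¹ = (2 : ℝ≥0∞)⁻¹ := by
    have : (4 : ℝ≥0∞) = 2 * 2 := by norm_num
    rw [this, ENNReal.mul_inv (Or.inl two_ne_zero) (Or.inl ENNReal.ofNat_ne_top), ← mul_add,
      ENNReal.inv_two_add_inv_two, mul_one]
  have h1 : x * (2 : ℝ≥0∞)⁻¹ + x * (2 : ℝ≥0∞)⁻¹ ≤ x * (2 : ℝ≥0∞)⁻¹ + y := by
    calc x * (2 : ℝ≥0∞)⁻¹ + x * (2 : ℝ≥0∞)⁻¹ = x := by
          rw [← mul_add, ENNReal.inv_two_add_inv_two, mul_one]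
      _ ≤ x * (4 : ℝ≥0∞)⁻¹ + y + k * x := h
      _ ≤ x * (4 : ℝ≥0∞)⁻¹ + y + (4 : ℝ≥0∞)⁻¹ * x :=
          add_le_add le_rfl (mul_le_mul_left hk _)
      _ = x * ((4 : ℝ≥0∞)⁻¹ + (4 : ℝ≥0∞)⁻¹) + y := by ring
      _ = _ := by rw [h4]
  have h2 : x * (2 : ℝ≥0∞)⁻¹ ≤ y := by
    refine (ENNReal.add_le_add_iff_left ?_).1 h1
    exact ENNReal.mul_ne_top hx (by norm_num)
  calc x = 2 * (x * (2 : ℝ≥0∞)⁻¹) := by
        rw [mul_left_comm, ENNReal.mul_inv_cancel two_ne_zero ENNReal.ofNat_ne_top, mul_one]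
    _ ≤ _ := mul_le_mul_right h2 _

/-- The truncation of the occupation changes the square norm by at most a factor. -/
theorem TKI_sq_ge {D : ℕ} {q β a N : ℝ} (hN : 0 < N) {z : ℝ≥0∞} {Cg R : ℝ≥0∞}
    (hXI : ∑' w : Tv D, XI D q β a z 0 w * GI D q β 1 z 0 w ≤
      Cg * ∑' w : Tv D, GI D q β 1 z 0 w ^ 2)
    (hNC : (ENNReal.ofReal N)⁻¹ * (Cg * R) ≤ (4 : ℝ≥0∞)⁻¹)
    (hfin : ∑' w : Tv D, GI D q β 1 z 0 w ^ 2 ≠ ⊤)
    (hR : ∑' w : Tv D, GI D q β 1 z 0 w ^ 2 ≤ R * ∑' w : Tv D, TI D q β 1 z 0 w ^ 2) :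
    ∑' w : Tv D, TI D q β 1 z 0 w ^ 2 ≤ 2 * ∑' w : Tv D, TKI D q β 1 a N z 0 w ^ 2 := by
  have hT2 : ∑' w : Tv D, TI D q β 1 z 0 w ^ 2 ≠ ⊤ :=
    ne_top_of_le_ne_top hfin (ENNReal.tsum_le_tsum fun w =>
      pow_le_pow_left₀ bot_le (TI_le_GI z 0 w) 2)
  refine half_absorb hT2 hNC ?_
  calc ∑' w : Tv D, TI D q β 1 z 0 w ^ 2
      ≤ ∑' w : Tv D, (TI D q β 1 z 0 w ^ 2 * (4 : ℝ≥0∞)⁻¹ + TKI D q β 1 a N z 0 w ^ 2 +
          (ENNReal.ofReal N)⁻¹ * (XI D q β a z 0 w * GI D q β 1 z 0 w)) := by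
        refine ENNReal.tsum_le_tsum fun w => ?_
        calc TI D q β 1 z 0 w ^ 2 = TI D q β 1 z 0 w * TI D q β 1 z 0 w := sq _
          _ ≤ TI D q β 1 z 0 w * (TKI D q β 1 a N z 0 w +
              (ENNReal.ofReal N)⁻¹ * XI D q β a z 0 w) :=
              mul_le_mul_right (TI_split hN z 0 w) _
          _ = TI D q β 1 z 0 w * TKI D q β 1 a N z 0 w +
              (ENNReal.ofReal N)⁻¹ * (XI D q β a z 0 w * TI D q β 1 z 0 w) := by ring
          _ ≤ _ := add_le_add (mul_le_quarter _ _)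
              (mul_le_mul_right (mul_le_mul_right (TI_le_GI z 0 w) _) _)
    _ = (∑' w : Tv D, TI D q β 1 z 0 w ^ 2) * (4 : ℝ≥0∞)⁻¹ +
          ∑' w : Tv D, TKI D q β 1 a N z 0 w ^ 2 +
          (ENNReal.ofReal N)⁻¹ * ∑' w : Tv D, XI D q β a z 0 w * GI D q β 1 z 0 w := by
        rw [ENNReal.tsum_add, ENNReal.tsum_add, ENNReal.tsum_mul_right, ENNReal.tsum_mul_left]
    _ ≤ _ := by
        refine add_le_add le_rfl ?_
        calc (ENNReal.ofReal N)⁻¹ * ∑' w : Tv D, XI D q β a z 0 w * GI D q β 1 z 0 w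
            ≤ (ENNReal.ofReal N)⁻¹ * (Cg * (R * ∑' w : Tv D, TI D q β 1 z 0 w ^ 2)) :=
              mul_le_mul_right (hXI.trans (mul_le_mul_right hR _)) _
          _ = _ := by ring

end Di

/-- Row D9. -/
theorem dz_ge {D : ℕ} {q β J1 : ℝ} (h : Reg D q β J1) (hB : S1B D q β) (R : ℝ) (hR : 0 < R) :
    ∃ δ c : ℝ, 0 < δ ∧ 0 < c ∧ ∀ J, Jok D q β J1 δ J → ∀ z ≤ zc D q β, 1 ≤ z →
      ∑' w, GI D q β 1 z 0 w ^ 2 ≠ ⊤ →
      ∑' w, GI D q β 1 z 0 w ^ 2 ≤ ENNReal.ofReal R * ∑' w, TI D q β 1 z 0 w ^ 2 →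
      ENNReal.ofReal c * GI D q β J z 0 0 ^ 2 * ∑' w, GI D q β 1 z 0 w ^ 2 ≤
        ∑' n : ℕ, (n : ℝ≥0∞) * z ^ n * GN D q β J n 0 0 := by
  obtain ⟨δ, C5, hδ, hC5, hconf⟩ := conf_ge h hB
  obtain ⟨C1, a, hC1, ha, hocc⟩ := WI_occ h
  obtain ⟨δ', C2, c2, hδ', hC2, hc2, hmark⟩ := mark h
  obtain ⟨B, hBB⟩ := hB
  obtain ⟨m0, hm0, hGN0⟩ := Di.GN_zero_ge h.toBas
  have hq : 0 < q := lt_of_lt_of_le zero_lt_one h.hq
  set κ : ℝ := (Real.exp β - 1) / q with hκ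
  have hκ0 : 0 < κ := by
    have : 1 < Real.exp β := Real.one_lt_exp_iff.2 h.hβ
    exact div_pos (by linarith) hq
  set φ : Tv D → ℝ≥0∞ := fun b => ex a (SB.nt b) with hφ
  set S1 : ℝ≥0∞ := ∑' b : Tv D, ex c2 (SB.nt b) with hS1
  set Sφ : ℝ≥0∞ := ∑' b : Tv D, φ b with hSφ
  have hS1f : S1 ≠ ⊤ := tsum_ex_ne_top hc2
  have hSφf : Sφ ≠ ⊤ := tsum_ex_ne_top ha
  set Bb : ℝ≥0∞ := ENNReal.ofReal B with hBb
  set M0 : ℝ≥0∞ := ENNReal.ofReal m0 with hM0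
  have hM0p : M0 ^ 2 ≠ 0 := pow_ne_zero 2 (ENNReal.ofReal_pos.2 hm0).ne'
  have hM0t : M0 ^ 2 ≠ ⊤ := ENNReal.pow_ne_top ENNReal.ofReal_ne_top
  set K : ℝ≥0∞ := Sφ * S1 with hK
  set K2 : ℝ≥0∞ := Sφ * S1 ^ 2 with hK2
  have hKf : K ≠ ⊤ := ENNReal.mul_ne_top hSφf hS1f
  have hK2f : K2 ≠ ⊤ := ENNReal.mul_ne_top hSφf (ENNReal.pow_ne_top hS1f)
  set Cg : ℝ≥0∞ := ENNReal.ofReal C2 * (Bb * K * (M0 ^ 2)⁻¹ + K + Bb ^ 2 * K2 * (M0 ^ 2)⁻¹ +
    Bb * K2) with hCg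
  have hBf : Bb ≠ ⊤ := ENNReal.ofReal_ne_top
  have hMi : (M0 ^ 2)⁻¹ ≠ ⊤ := ENNReal.inv_ne_top.2 hM0p
  have hCgf : Cg ≠ ⊤ := by
    refine ENNReal.mul_ne_top ENNReal.ofReal_ne_top ?_
    refine ENNReal.add_ne_top.2 ⟨ENNReal.add_ne_top.2 ⟨ENNReal.add_ne_top.2
      ⟨ENNReal.mul_ne_top (ENNReal.mul_ne_top hBf hKf) hMi, hKf⟩,
      ENNReal.mul_ne_top (ENNReal.mul_ne_top (ENNReal.pow_ne_top hBf) hK2f) hMi⟩,
      ENNReal.mul_ne_top hBf hK2f⟩
  set N : ℝ := 4 * (Cg.toReal * R) + 1 with hNdef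
  have hCgR : 0 ≤ Cg.toReal * R := mul_nonneg ENNReal.toReal_nonneg hR.le
  have hN : 0 < N := by linarith
  have hNC : (ENNReal.ofReal N)⁻¹ * (Cg * ENNReal.ofReal R) ≤ (4 : ℝ≥0∞)⁻¹ := by
    have e1 : Cg * ENNReal.ofReal R = ENNReal.ofReal (Cg.toReal * R) := by
      rw [ENNReal.ofReal_mul ENNReal.toReal_nonneg, ENNReal.ofReal_toReal hCgf]
    rw [e1, ← ENNReal.ofReal_inv_of_pos hN, ← ENNReal.ofReal_mul (inv_nonneg.2 hN.le)]
    have e2 : (4 : ℝ≥0∞)⁻¹ = ENNReal.ofReal (4 : ℝ)⁻¹ := by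
      rw [ENNReal.ofReal_inv_of_pos (by norm_num)]
      norm_num
    rw [e2]
    refine ENNReal.ofReal_le_ofReal ?_
    rw [inv_mul_le_iff₀ hN]
    linarith
  set A : ℝ := C5 * Real.exp (C1 * N) * N with hA
  have hA0 : 0 < A := mul_pos (mul_pos hC5 (Real.exp_pos _)) hN
  refine ⟨δ, κ ^ 3 / (2 * R * A ^ 2), hδ, by positivity, ?_⟩
  intro J hJ z hz h1z hfin hGT
  -- the functions without defect
  have hg : ∀ y : Tv D, GI D q β 1 z 0 y ≤ Bb := fun y => Di.GI_le_B hBB hz 0 y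
  have hg0 : M0 ≤ GI D q β 1 z 0 0 := by
    refine hGN0.trans ?_
    have h0 := ENNReal.le_tsum (f := fun n : ℕ => z ^ n * GN D q β 1 n 0 0) 0
    calc GN D q β 1 0 0 0 = z ^ 0 * GN D q β 1 0 0 0 := by rw [pow_zero, one_mul]
      _ ≤ GI D q β 1 z 0 0 := h0
  have hG2 : M0 ^ 2 ≤ ∑' w : Tv D, GI D q β 1 z 0 w ^ 2 :=
    (pow_le_pow_left₀ bot_le hg0 2).trans
      (ENNReal.le_tsum (f := fun w : Tv D => GI D q β 1 z 0 w ^ 2) 0)
  have hXI : ∑' w : Tv D, Di.XI D q β a z 0 w * GI D q β 1 z 0 w ≤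
      Cg * ∑' w : Tv D, GI D q β 1 z 0 w ^ 2 := by
    have h1 : ∀ w : Tv D, Di.XI D q β a z 0 w ≤ ENNReal.ofReal C2 * (Ek φ c2 0 w +
        ∑' y, Ek φ c2 0 y * GI D q β 1 z 0 (w - y) + ∑' y, GI D q β 1 z 0 y * Ek φ c2 y w +
        ∑' y, ∑' y', GI D q β 1 z 0 y * Ek φ c2 y y' * GI D q β 1 z 0 (w - y')) := by
      intro w
      refine (Di.XI_le (hmark 1 ⟨le_rfl, h.hJ, by linarith⟩ z hz) 0 w).trans (le_of_eq ?_)
      congr 1
      congr 1
      · congr 1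
        congr 1
        exact tsum_congr fun y => by rw [Di.GI_trans z y w]
      · exact tsum_congr fun y => tsum_congr fun y' => by rw [Di.GI_trans z y' w]
    have h2 := Di.pair_le (Ek φ c2) (fun y => GI D q β 1 z 0 y) Bb K K2 hg
      (Di.tsum_Ek_le φ hc2.le 0) (Di.tsum_tsum_Ek φ c2).le
    set G2 : ℝ≥0∞ := ∑' w : Tv D, GI D q β 1 z 0 w ^ 2 with hG2def
    have h3 : (1 : ℝ≥0∞) ≤ (M0 ^ 2)⁻¹ * G2 := by
      calc (1 : ℝ≥0∞) = (M0 ^ 2)⁻¹ * M0 ^ 2 := (ENNReal.inv_mul_cancel hM0p hM0t).symm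
        _ ≤ _ := mul_le_mul_right hG2 _
    calc ∑' w : Tv D, Di.XI D q β a z 0 w * GI D q β 1 z 0 w
        ≤ ∑' w : Tv D, ENNReal.ofReal C2 * ((Ek φ c2 0 w +
          ∑' y, Ek φ c2 0 y * GI D q β 1 z 0 (w - y) + ∑' y, GI D q β 1 z 0 y * Ek φ c2 y w +
          ∑' y, ∑' y', GI D q β 1 z 0 y * Ek φ c2 y y' * GI D q β 1 z 0 (w - y')) *
          GI D q β 1 z 0 w) := by
          refine ENNReal.tsum_le_tsum fun w => ?_
          rw [← mul_assoc]
          exact mul_le_mul_left (h1 w) _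
      _ = ENNReal.ofReal C2 * ∑' w : Tv D, ((Ek φ c2 0 w +
          ∑' y, Ek φ c2 0 y * GI D q β 1 z 0 (w - y) + ∑' y, GI D q β 1 z 0 y * Ek φ c2 y w +
          ∑' y, ∑' y', GI D q β 1 z 0 y * Ek φ c2 y y' * GI D q β 1 z 0 (w - y')) *
          GI D q β 1 z 0 w) := ENNReal.tsum_mul_left
      _ ≤ ENNReal.ofReal C2 * (Bb * K + K * G2 + Bb ^ 2 * K2 + Bb * K2 * G2) :=
          mul_le_mul_right h2 _
      _ ≤ ENNReal.ofReal C2 * (Bb * K * ((M0 ^ 2)⁻¹ * G2) + K * G2 +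
          Bb ^ 2 * K2 * ((M0 ^ 2)⁻¹ * G2) + Bb * K2 * G2) := by
          refine mul_le_mul_right (add_le_add (add_le_add (add_le_add ?_ le_rfl) ?_) le_rfl) _
          · calc Bb * K = Bb * K * 1 := (mul_one _).symm
              _ ≤ _ := mul_le_mul_right h3 _
          · calc Bb ^ 2 * K2 = Bb ^ 2 * K2 * 1 := (mul_one _).symm
              _ ≤ _ := mul_le_mul_right h3 _
      _ = Cg * G2 := by
          rw [hCg]
          ring
  have hTK := Di.TKI_sq_ge hN hXI hNC hfin hGT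
  -- the model with defect
  have hP : GI D q β J z 0 0 ≤ ENNReal.ofReal C5 * TI D q β J z 0 0 := by
    unfold GI
    refine Di.tsum_le_of_range fun L => (hconf J hJ z hz L).trans (mul_le_mul_right ?_ _)
    exact ENNReal.sum_le_tsum _
  have hpt : ∀ y : Tv D, ENNReal.ofReal κ * GI D q β J z 0 0 * Di.TKI D q β 1 a N z 0 y ≤
      ENNReal.ofReal A * TI D q β J z 0 y := by
    intro y
    have h1 := Di.TKI_le hC1 (hocc J hJ.h1 hJ.h2) N z 0 y
    have h2 := Di.TI_ge h.toBas hJ.h1 a N hN.le h1z y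
    calc ENNReal.ofReal κ * GI D q β J z 0 0 * Di.TKI D q β 1 a N z 0 y
        ≤ ENNReal.ofReal κ * (ENNReal.ofReal C5 * TI D q β J z 0 0) *
          (ENNReal.ofReal (Real.exp (C1 * N)) * Di.TKI D q β J a N z 0 y) :=
          mul_le_mul' (mul_le_mul_right hP _) h1
      _ = ENNReal.ofReal C5 * ENNReal.ofReal (Real.exp (C1 * N)) *
          (ENNReal.ofReal κ * (TI D q β J z 0 0 * Di.TKI D q β J a N z 0 y)) := by ring
      _ ≤ ENNReal.ofReal C5 * ENNReal.ofReal (Real.exp (C1 * N)) *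
          (ENNReal.ofReal N * TI D q β J z 0 y) := mul_le_mul_right h2 _
      _ = _ := by
          rw [hA, ENNReal.ofReal_mul (by positivity), ENNReal.ofReal_mul hC5.le]
          ring
  have hsq : (ENNReal.ofReal κ * GI D q β J z 0 0) ^ 2 *
      ∑' w : Tv D, Di.TKI D q β 1 a N z 0 w ^ 2 ≤
      ENNReal.ofReal A ^ 2 * ∑' w : Tv D, TI D q β J z 0 w ^ 2 := by
    rw [← ENNReal.tsum_mul_left, ← ENNReal.tsum_mul_left]
    refine ENNReal.tsum_le_tsum fun w => ?_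
    rw [← mul_pow, ← mul_pow]
    exact pow_le_pow_left₀ bot_le (hpt w) 2
  have hlow := Di.dz_ge_conf h.toBas hJ.h1 h1z
  have hAi : (ENNReal.ofReal A ^ 2)⁻¹ * ENNReal.ofReal A ^ 2 = 1 :=
    ENNReal.inv_mul_cancel (pow_ne_zero 2 (ENNReal.ofReal_pos.2 hA0).ne')
      (ENNReal.pow_ne_top ENNReal.ofReal_ne_top)
  have hconst : ENNReal.ofReal (κ ^ 3 / (2 * R * A ^ 2)) * (ENNReal.ofReal R * 2) =
      (ENNReal.ofReal A ^ 2)⁻¹ * ENNReal.ofReal κ ^ 3 := by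
    have e2 : (2 : ℝ≥0∞) = ENNReal.ofReal 2 := by norm_num
    rw [← ENNReal.ofReal_pow hA0.le, ← ENNReal.ofReal_inv_of_pos (by positivity),
      ← ENNReal.ofReal_pow hκ0.le, ← ENNReal.ofReal_mul (by positivity), e2,
      ← ENNReal.ofReal_mul hR.le, ← ENNReal.ofReal_mul (by positivity)]
    congr 1
    field_simp
  calc ENNReal.ofReal (κ ^ 3 / (2 * R * A ^ 2)) * GI D q β J z 0 0 ^ 2 *
        ∑' w, GI D q β 1 z 0 w ^ 2
      ≤ ENNReal.ofReal (κ ^ 3 / (2 * R * A ^ 2)) * GI D q β J z 0 0 ^ 2 *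
        (ENNReal.ofReal R * (2 * ∑' w : Tv D, Di.TKI D q β 1 a N z 0 w ^ 2)) :=
        mul_le_mul_right (hGT.trans (mul_le_mul_right hTK _)) _
    _ = ENNReal.ofReal (κ ^ 3 / (2 * R * A ^ 2)) * (ENNReal.ofReal R * 2) *
        (GI D q β J z 0 0 ^ 2 * ∑' w : Tv D, Di.TKI D q β 1 a N z 0 w ^ 2) := by ring
    _ = (ENNReal.ofReal A ^ 2)⁻¹ * (ENNReal.ofReal κ *
        ((ENNReal.ofReal κ * GI D q β J z 0 0) ^ 2 *
          ∑' w : Tv D, Di.TKI D q β 1 a N z 0 w ^ 2)) := by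
        rw [hconst]
        ring
    _ ≤ (ENNReal.ofReal A ^ 2)⁻¹ * (ENNReal.ofReal κ *
        (ENNReal.ofReal A ^ 2 * ∑' w : Tv D, TI D q β J z 0 w ^ 2)) :=
        mul_le_mul_right (mul_le_mul_right hsq _) _
    _ = (ENNReal.ofReal A ^ 2)⁻¹ * ENNReal.ofReal A ^ 2 *
        (ENNReal.ofReal κ * ∑' w : Tv D, TI D q β J z 0 w ^ 2) := by ring
    _ = ENNReal.ofReal κ * ∑' w : Tv D, TI D q β J z 0 w ^ 2 := by rw [hAi, one_mul]
    _ ≤ _ := hlow

end Pool.Agent.DL
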