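import Pool.Agent.DL.Pot
import Pool.Agent.DL.Pw
import Pool.Agent.SB.Fek

/-!
# The Potts model: limits (row EA)
-/

set_option autoImplicit false
set_option linter.unusedSectionVars false

namespace Pool.Agent.DL

open Finset Filter Topology

namespace Ea

variable {D q : ℕ} [NeZero q] {β : ℝ}

/-- The two-point functions of the Potts model and of the random-cluster model agree. -/
theorem G_eq_GG (hq : 2 ≤ q) (h : Bas D (q : ℝ) β) {J : ℝ} (hJ : 0 ≤ J) (x y : Site D) :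
    SB.G D q β J x y = GG D (q : ℝ) β J x y := by
  refine le_antisymm ?_ ?_
  · refine ciSup_le fun Λ => ?_
    by_cases hxy : x ∈ Λ ∧ y ∈ Λ
    · rw [gL_eq_tp hq β J h.hβ.le hJ Λ x y hxy.1 hxy.2]
      exact TT_le_GG h hJ Λ x y
    · rw [SB.gL_of_not β J Λ hxy]
      exact pw_GG_nonneg h hJ x y
  · refine ciSup_le fun Λ => ?_
    have h1 : x ∈ Λ ∪ {x, y} ∧ y ∈ Λ ∪ {x, y} := by simp
    refine (pw_TT_mono h hJ (subset_union_left (s₁ := Λ) (s₂ := {x, y})) x y).trans ?_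
    unfold TT
    rw [← gL_eq_tp hq β J h.hβ.le hJ (Λ ∪ {x, y}) x y h1.1 h1.2]
    exact SB.gL_le_G β J h.hβ.le hJ _ x y

theorem one_sub_pos (hq : 2 ≤ q) : (0 : ℝ) < 1 - 1 / q := by
  have h1 : (2 : ℝ) ≤ q := by exact_mod_cast hq
  rw [sub_pos, div_lt_one (by linarith)]
  linarith

/-- The shift by `1 / q` and the factor do not change the rate. -/
theorem tendsto_log (hq : 2 ≤ q) (h : Bas D (q : ℝ) β) {J : ℝ} (hJ : 0 ≤ J) :
    Tendsto (fun n : ℕ => -(1 / (n : ℝ)) * Real.log ((1 / (q : ℝ) + (1 - 1 / q) *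
      SB.G D q β J (0, 0) ((n : ℤ), 0)) - 1 / q)) atTop
      (𝓝 (SB.subadd (D := D) (q := q) hq h.hD β J h.hβ hJ).lim) := by
  have h1 := SB.tendsto_form (D := D) (q := q) hq h.hD β J h.hβ hJ
  have h2 : Tendsto (fun n : ℕ => -(1 / (n : ℝ)) * Real.log (1 - 1 / (q : ℝ))) atTop (𝓝 0) := by
    have := (tendsto_one_div_atTop_nhds_zero_nat (𝕜 := ℝ)).neg.mul_const
      (Real.log (1 - 1 / (q : ℝ)))
    simpa using this
  have h3 := h2.add h1
  rw [zero_add] at h3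
  refine h3.congr fun n => ?_
  have h4 : (0 : ℝ) < SB.G D q β J (0, 0) ((n : ℤ), 0) := SB.G_pos hq h.hD β J h.hβ hJ _ _
  rw [add_sub_cancel_left, Real.log_mul (one_sub_pos hq).ne' h4.ne']
  ring

end Ea

theorem potts_lim {D q : ℕ} [NeZero q] {β : ℝ} (hq : 2 ≤ q) (h : Bas D (q : ℝ) β) :
    ∃ (μ : ℝ → ℕ → ℝ) (ξ : ℝ → ℝ),
      (∀ J, 0 ≤ J → ∀ n : ℕ, Tendsto (fun L : ℕ => SB.same D q β J (SB.box D L) (0, 0)
        ((n : ℤ), 0)) atTop (𝓝 (μ J n))) ∧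
      (∀ J, 0 ≤ J → Tendsto (fun n : ℕ => -(1 / (n : ℝ)) * Real.log (μ J n - 1 / q)) atTop
        (𝓝 (ξ J))) ∧
      (∀ J J', 0 ≤ J → J ≤ J' → ξ J' ≤ ξ J) ∧ ∀ J, 1 ≤ J → ξ J = xiR D (q : ℝ) β J := by
  classical
  refine ⟨fun J n => 1 / q + (1 - 1 / q) * SB.G D q β J (0, 0) ((n : ℤ), 0), fun J =>
    if hJ : 0 ≤ J then (SB.subadd (D := D) (q := q) hq h.hD β J h.hβ hJ).lim else 0, ?_, ?_, ?_,
    ?_⟩
  · intro J hJ n
    exact SB.tendsto_same hq β J h.hβ.le hJ _ _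
  · intro J hJ
    simp only [dif_pos hJ]
    exact Ea.tendsto_log hq h hJ
  · intro J J' hJ hJJ
    simp only [dif_pos hJ, dif_pos (hJ.trans hJJ)]
    refine le_of_tendsto_of_tendsto (SB.tendsto_form (D := D) (q := q) hq h.hD β J' h.hβ
      (hJ.trans hJJ)) (SB.tendsto_form (D := D) (q := q) hq h.hD β J h.hβ hJ) ?_
    filter_upwards with n
    have h4 : (0 : ℝ) < SB.G D q β J (0, 0) ((n : ℤ), 0) := SB.G_pos hq h.hD β J h.hβ hJ _ _
    have h5 := Real.log_le_log h4 (SB.G_mono hq β J J' h.hβ.le hJ hJJ (0, 0) ((n : ℤ), 0))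
    have h6 : (0 : ℝ) ≤ 1 / (n : ℝ) := by positivity
    have h7 := mul_le_mul_of_nonneg_left h5 h6
    linarith
  · intro J hJ
    have hJ0 : 0 ≤ J := by linarith
    simp only [dif_pos hJ0]
    refine tendsto_nhds_unique (SB.tendsto_form (D := D) (q := q) hq h.hD β J h.hβ hJ0) ?_
    refine (tendsto_xiR h hJ).congr fun n => ?_
    have h1 := Ea.G_eq_GG hq h hJ0 ((0, 0) : Site D) ((n : ℤ), 0)
    rw [h1]
    have h2 : ((0, 0) : Site D) = 0 := rfl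
    rw [h2]
    ring

end Pool.Agent.DL
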