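import Mathlib

/-!
# Generating functions of sequences with a given rate: convergence, derivative, divergence
-/

set_option autoImplicit false

namespace Pool.Agent.DL.EfA

open Finset Filter Topology
open scoped ENNReal

variable {g : ℕ → ℝ} {ξ t : ℝ}

/-- The generating function diverges beyond the rate. -/
theorem tsum_top (hpos : ∀ n, 0 < g n)
    (hlim : Tendsto (fun n : ℕ => -Real.log (g n) / n) atTop (𝓝 ξ)) (ht : Real.exp ξ < t) :
    ∑' n : ℕ, ENNReal.ofReal t ^ n * ENNReal.ofReal (g n) = ⊤ := by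
  by_contra hne
  have h0 := ENNReal.tendsto_atTop_zero_of_tsum_ne_top hne
  have ht0 : 0 < t := (Real.exp_pos ξ).trans ht
  have hlog : ξ < Real.log t := (Real.lt_log_iff_exp_lt ht0).2 ht
  have h1 : ∀ᶠ n : ℕ in atTop, -Real.log (g n) / n < Real.log t :=
    hlim.eventually (gt_mem_nhds hlog)
  have h2 : ∀ᶠ n : ℕ in atTop, ENNReal.ofReal t ^ n * ENNReal.ofReal (g n) < 1 :=
    h0.eventually (gt_mem_nhds (by norm_num : (0 : ℝ≥0∞) < 1))
  obtain ⟨n, hn1, hn2, hn3⟩ := (h1.and (h2.and (eventually_gt_atTop 0))).exists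
  have hn0 : (0 : ℝ) < n := by exact_mod_cast hn3
  rw [div_lt_iff₀ hn0] at hn1
  have h3 : 1 ≤ t ^ n * g n := by
    have h4 : 0 < t ^ n * g n := mul_pos (pow_pos ht0 n) (hpos n)
    rw [← Real.log_nonneg_iff h4, Real.log_mul (pow_pos ht0 n).ne' (hpos n).ne', Real.log_pow]
    linarith
  rw [← ENNReal.ofReal_pow ht0.le, ← ENNReal.ofReal_mul (pow_nonneg ht0.le n)] at hn2
  exact absurd (ENNReal.one_le_ofReal.2 h3) (not_le.2 hn2)

theorem summable_nat_pow {r : ℝ} (h0 : 0 ≤ r) (h1 : r < 1) : Summable fun n : ℕ => (n : ℝ) * r ^ n := by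
  have := summable_pow_mul_geometric_of_norm_lt_one (R := ℝ) 1 (r := r)
    (by rw [Real.norm_of_nonneg h0]; exact h1)
  simpa using this

theorem pow_mul_le {n : ℕ} {t : ℝ} (ht0 : 0 ≤ t) (hg : g n ≤ Real.exp (-(ξ * n))) :
    t ^ n * g n ≤ (t * Real.exp (-ξ)) ^ n := by
  rw [mul_pow, ← Real.exp_nat_mul]
  refine mul_le_mul_of_nonneg_left (hg.trans (le_of_eq ?_)) (pow_nonneg ht0 n)
  congr 1
  ring

theorem ratio_lt {t : ℝ} (ht : t < Real.exp ξ) : t * Real.exp (-ξ) < 1 := by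
  rw [Real.exp_neg, ← div_eq_mul_inv, div_lt_one (Real.exp_pos ξ)]
  exact ht

theorem summable_gen (h0 : ∀ n, 0 ≤ g n) (hg : ∀ n, g n ≤ Real.exp (-(ξ * n))) (ht0 : 0 ≤ t)
    (ht : t < Real.exp ξ) : Summable fun n : ℕ => t ^ n * g n :=
  Summable.of_nonneg_of_le (fun n => mul_nonneg (pow_nonneg ht0 n) (h0 n))
    (fun n => pow_mul_le ht0 (hg n))
    (summable_geometric_of_lt_one (mul_nonneg ht0 (Real.exp_pos _).le) (ratio_lt ht))

theorem summable_gen' (h0 : ∀ n, 0 ≤ g n) (hg : ∀ n, g n ≤ Real.exp (-(ξ * n))) (ht0 : 0 ≤ t)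
    (ht : t < Real.exp ξ) : Summable fun n : ℕ => (n : ℝ) * t ^ n * g n := by
  refine Summable.of_nonneg_of_le
    (fun n => mul_nonneg (mul_nonneg (Nat.cast_nonneg n) (pow_nonneg ht0 n)) (h0 n)) (fun n => ?_)
    (summable_nat_pow (mul_nonneg ht0 (Real.exp_pos _).le) (ratio_lt ht))
  rw [mul_assoc]
  exact mul_le_mul_of_nonneg_left (pow_mul_le ht0 (hg n)) (Nat.cast_nonneg n)

/-- The sum in `ENNReal` is the real sum. -/
theorem tsum_ofReal (h0 : ∀ n, 0 ≤ g n) (hg : ∀ n, g n ≤ Real.exp (-(ξ * n))) (ht0 : 0 ≤ t)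
    (ht : t < Real.exp ξ) :
    ∑' n : ℕ, ENNReal.ofReal t ^ n * ENNReal.ofReal (g n) =
      ENNReal.ofReal (∑' n : ℕ, t ^ n * g n) := by
  rw [ENNReal.ofReal_tsum_of_nonneg (fun n => mul_nonneg (pow_nonneg ht0 n) (h0 n))
    (summable_gen h0 hg ht0 ht)]
  refine tsum_congr fun n => ?_
  rw [ENNReal.ofReal_mul (pow_nonneg ht0 n), ENNReal.ofReal_pow ht0]

theorem tsum_ofReal' (h0 : ∀ n, 0 ≤ g n) (hg : ∀ n, g n ≤ Real.exp (-(ξ * n))) (ht0 : 0 ≤ t)
    (ht : t < Real.exp ξ) :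
    ∑' n : ℕ, (n : ℝ≥0∞) * ENNReal.ofReal t ^ n * ENNReal.ofReal (g n) =
      ENNReal.ofReal (∑' n : ℕ, (n : ℝ) * t ^ n * g n) := by
  rw [ENNReal.ofReal_tsum_of_nonneg
    (fun n => mul_nonneg (mul_nonneg (Nat.cast_nonneg n) (pow_nonneg ht0 n)) (h0 n))
    (summable_gen' h0 hg ht0 ht)]
  refine tsum_congr fun n => ?_
  rw [ENNReal.ofReal_mul (mul_nonneg (Nat.cast_nonneg n) (pow_nonneg ht0 n)),
    ENNReal.ofReal_mul (Nat.cast_nonneg n), ENNReal.ofReal_pow ht0, ENNReal.ofReal_natCast]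

/-- The derivative of the generating function. -/
theorem hasDerivAt_gen (h0 : ∀ n, 0 ≤ g n) (hg : ∀ n, g n ≤ Real.exp (-(ξ * n))) (ht0 : 0 < t)
    (ht : t < Real.exp ξ) :
    HasDerivAt (fun s : ℝ => ∑' n : ℕ, s ^ n * g n) ((∑' n : ℕ, (n : ℝ) * t ^ n * g n) / t) t := by
  obtain ⟨b, hb1, hb2⟩ := exists_between ht
  have hb0 : 0 < b := ht0.trans hb1
  set r : ℝ := b * Real.exp (-ξ) with hr
  have hr0 : 0 ≤ r := mul_nonneg hb0.le (Real.exp_pos _).le
  have hr1 : r < 1 := ratio_lt hb2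
  have key := hasDerivAt_tsum_of_isPreconnected (𝕜 := ℝ) (F := ℝ)
    (u := fun n : ℕ => (n : ℝ) * r ^ n / b) (g := fun (n : ℕ) (s : ℝ) => s ^ n * g n)
    (g' := fun (n : ℕ) (s : ℝ) => (n : ℝ) * s ^ (n - 1) * g n) (t := Set.Ioo 0 b) (y₀ := t) (y := t)
    ((summable_nat_pow hr0 hr1).div_const b) isOpen_Ioo isPreconnected_Ioo
    (fun n s _ => (hasDerivAt_pow n s).mul_const (g n)) ?_ ⟨ht0, hb1⟩
    (summable_gen h0 hg ht0.le ht) ⟨ht0, hb1⟩
  · refine key.congr_deriv ?_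
    rw [← tsum_div_const]
    refine tsum_congr fun n => ?_
    rcases Nat.eq_zero_or_pos n with hn | hn
    · subst hn; simp
    · rw [eq_div_iff ht0.ne']
      have : t ^ n = t ^ (n - 1) * t := by
        rw [← pow_succ, Nat.sub_add_cancel hn]
      rw [this]
      ring
  · intro n s hs
    rw [Real.norm_of_nonneg (mul_nonneg (mul_nonneg (Nat.cast_nonneg n) (pow_nonneg hs.1.le _))
      (h0 n))]
    rcases Nat.eq_zero_or_pos n with hn | hn
    · subst hn; simp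
    · rw [le_div_iff₀ hb0]
      have h1 : s ^ (n - 1) ≤ b ^ (n - 1) := pow_le_pow_left₀ hs.1.le hs.2.le _
      have h2 : b ^ n * g n ≤ r ^ n := pow_mul_le hb0.le (hg n)
      have h3 : b ^ n = b ^ (n - 1) * b := by
        rw [← pow_succ, Nat.sub_add_cancel hn]
      calc (n : ℝ) * s ^ (n - 1) * g n * b ≤ (n : ℝ) * b ^ (n - 1) * g n * b :=
            mul_le_mul_of_nonneg_right (mul_le_mul_of_nonneg_right
              (mul_le_mul_of_nonneg_left h1 (Nat.cast_nonneg n)) (h0 n)) hb0.le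
        _ = (n : ℝ) * (b ^ n * g n) := by rw [h3]; ring
        _ ≤ (n : ℝ) * r ^ n := mul_le_mul_of_nonneg_left h2 (Nat.cast_nonneg n)

/-- The inverse generating function tends to zero at a point of divergence. -/
theorem tendsto_inv (c : ℕ → ℝ≥0∞) (hc : ∀ n, c n ≠ ⊤)
    (hG : ∑' n : ℕ, ENNReal.ofReal t ^ n * c n = ⊤) :
    Tendsto (fun s : ℝ => ((∑' n : ℕ, ENNReal.ofReal s ^ n * c n)⁻¹).toReal) (𝓝 t) (𝓝 0) := by
  have h1 : Tendsto (fun s : ℝ => ∑' n : ℕ, ENNReal.ofReal s ^ n * c n) (𝓝 t) (𝓝 ⊤) := by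
    rw [ENNReal.tendsto_nhds_top_iff_nat]
    intro M
    have h2 : Tendsto (fun N => ∑ n ∈ range N, ENNReal.ofReal t ^ n * c n) atTop (𝓝 ⊤) := by
      rw [← hG]
      exact ENNReal.tendsto_nat_tsum _
    obtain ⟨N, hN⟩ := ((ENNReal.tendsto_nhds_top_iff_nat.1 h2) M).exists
    have h3 : ContinuousAt (fun s : ℝ => ∑ n ∈ range N, ENNReal.ofReal s ^ n * c n) t := by
      refine tendsto_finsetSum _ fun n _ => ?_
      refine ENNReal.Tendsto.mul_const ?_ (Or.inr (hc n))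
      exact ((ENNReal.continuous_pow n).tendsto _).comp (ENNReal.continuous_ofReal.tendsto t)
    filter_upwards [h3.eventually (lt_mem_nhds hN)] with s hs
    exact hs.trans_le (ENNReal.sum_le_tsum _)
  have h2 : Tendsto (fun s : ℝ => (∑' n : ℕ, ENNReal.ofReal s ^ n * c n)⁻¹) (𝓝 t) (𝓝 0) := by
    rw [← ENNReal.inv_top]
    exact tendsto_inv_iff.2 h1
  have h3 := (ENNReal.tendsto_toReal ENNReal.zero_ne_top).comp h2
  rw [ENNReal.toReal_zero] at h3
  exact h3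

end Pool.Agent.DL.EfA
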