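import Pool.Agent.DL.Gs
import Pool.Agent.DL.EfA

/-!
# The generating function of the two-point function along the line
-/

set_option autoImplicit false
set_option linter.unusedSectionVars false

namespace Pool.Agent.DL

open Finset Filter Topology
open scoped ENNReal

/-- The generating function in terms of the two-point function. -/
theorem ef_GI_eq {D : ℕ} {q β J1 : ℝ} (h : Reg D q β J1) (J : ℝ) (hJ : 1 ≤ J) (hJ1 : J ≤ J1)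
    (z : ℝ≥0∞) :
    GI D q β J z 0 0 = ∑' n : ℕ, z ^ n * ENNReal.ofReal (GG D q β J 0 ((n : ℤ), 0)) := by
  unfold GI
  refine tsum_congr fun n => ?_
  rw [GN_eq h J hJ hJ1]
  rfl

theorem GI_top {D : ℕ} {q β J1 : ℝ} (h : Reg D q β J1) (J : ℝ) (hJ : 1 ≤ J) (hJ1 : J ≤ J1)
    (t : ℝ) (ht : Real.exp (xiR D q β J) < t) :
    GI D q β J (ENNReal.ofReal t) 0 0 = ⊤ := by
  rw [ef_GI_eq h J hJ hJ1]
  exact EfA.tsum_top (fun n => pw_GG_pos h.toBas hJ _ _) (tendsto_xiR h.toBas hJ) ht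

theorem GI_ne_top {D : ℕ} {q β J1 : ℝ} (h : Reg D q β J1) (J : ℝ) (hJ : 1 ≤ J) (hJ1 : J ≤ J1)
    (t : ℝ) (ht0 : 0 ≤ t) (ht : t < Real.exp (xiR D q β J)) :
    GI D q β J (ENNReal.ofReal t) 0 0 ≠ ⊤ := by
  rw [ef_GI_eq h J hJ hJ1, EfA.tsum_ofReal (fun n => (pw_GG_pos h.toBas hJ _ _).le)
    (pw_GG_line h.toBas hJ) ht0 ht]
  exact ENNReal.ofReal_ne_top

theorem one_le_GI {D : ℕ} {q β J1 : ℝ} (h : Reg D q β J1) (J : ℝ) (hJ : 1 ≤ J) (hJ1 : J ≤ J1)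
    (z : ℝ≥0∞) : 1 ≤ GI D q β J z 0 0 := by
  rw [ef_GI_eq h J hJ hJ1]
  refine le_trans (le_of_eq ?_) (ENNReal.le_tsum 0)
  have h1 : GG D q β J 0 (((0 : ℕ) : ℤ), 0) = 1 := pw_GG_self h.toBas (by linarith) 0
  rw [h1, pow_zero, one_mul, ENNReal.ofReal_one]

/-- The inverse of the generating function. -/
noncomputable def FF (D : ℕ) (q β : ℝ) (t J : ℝ) : ℝ :=
  ((GI D q β J (ENNReal.ofReal t) 0 0)⁻¹).toReal

/-- The derivative of the inverse. -/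
noncomputable def FF' (D : ℕ) (q β J t : ℝ) : ℝ :=
  -((∑' n : ℕ, (n : ℝ≥0∞) * ENNReal.ofReal t ^ n * GN D q β J n 0 0).toReal / t *
    (FF D q β t J) ^ 2)

/-- The inverse as a real number. -/
theorem ef_FF_eq {D : ℕ} {q β J1 : ℝ} (h : Reg D q β J1) (J : ℝ) (hJ : 1 ≤ J)
    (hJ1 : J ≤ J1) (t : ℝ) (ht0 : 0 ≤ t) (ht : t < Real.exp (xiR D q β J)) :
    FF D q β t J = (∑' n : ℕ, t ^ n * GG D q β J 0 ((n : ℤ), 0))⁻¹ := by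
  have h0 : ∀ n : ℕ, 0 ≤ GG D q β J 0 ((n : ℤ), 0) := fun n => (pw_GG_pos h.toBas hJ _ _).le
  unfold FF
  rw [ef_GI_eq h J hJ hJ1, EfA.tsum_ofReal h0 (pw_GG_line h.toBas hJ) ht0 ht, ENNReal.toReal_inv,
    ENNReal.toReal_ofReal (tsum_nonneg fun n => mul_nonneg (pow_nonneg ht0 n) (h0 n))]

theorem ef_sum_eq {D : ℕ} {q β J1 : ℝ} (h : Reg D q β J1) (J : ℝ) (hJ : 1 ≤ J)
    (hJ1 : J ≤ J1) (t : ℝ) (ht0 : 0 ≤ t) (ht : t < Real.exp (xiR D q β J)) :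
    ∑' n : ℕ, (n : ℝ≥0∞) * ENNReal.ofReal t ^ n * GN D q β J n 0 0 =
      ENNReal.ofReal (∑' n : ℕ, (n : ℝ) * t ^ n * GG D q β J 0 ((n : ℤ), 0)) := by
  rw [← EfA.tsum_ofReal' (fun n => (pw_GG_pos h.toBas hJ _ _).le) (pw_GG_line h.toBas hJ) ht0 ht]
  refine tsum_congr fun n => ?_
  rw [GN_eq h J hJ hJ1]
  rfl

theorem FF_hasDerivAt {D : ℕ} {q β J1 : ℝ} (h : Reg D q β J1) (J : ℝ) (hJ : 1 ≤ J)
    (hJ1 : J ≤ J1) (t : ℝ) (ht0 : 0 < t) (ht : t < Real.exp (xiR D q β J)) :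
    HasDerivAt (fun s => FF D q β s J) (FF' D q β J t) t := by
  have h0 : ∀ n : ℕ, 0 ≤ GG D q β J 0 ((n : ℤ), 0) := fun n => (pw_GG_pos h.toBas hJ _ _).le
  have h1 := EfA.hasDerivAt_gen h0 (pw_GG_line h.toBas hJ) ht0 ht
  have hS : (1 : ℝ) ≤ ∑' n : ℕ, t ^ n * GG D q β J 0 ((n : ℤ), 0) := by
    have h2 := one_le_GI h J hJ hJ1 (ENNReal.ofReal t)
    rw [ef_GI_eq h J hJ hJ1, EfA.tsum_ofReal h0 (pw_GG_line h.toBas hJ) ht0.le ht,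
      ENNReal.one_le_ofReal] at h2
    exact h2
  have h3 := h1.fun_inv (by linarith : (∑' n : ℕ, t ^ n * GG D q β J 0 ((n : ℤ), 0)) ≠ 0)
  have h4 : (fun s => FF D q β s J) =ᶠ[𝓝 t]
      fun s => (∑' n : ℕ, s ^ n * GG D q β J 0 ((n : ℤ), 0))⁻¹ := by
    filter_upwards [Ioo_mem_nhds ht0 ht] with s hs
    exact ef_FF_eq h J hJ hJ1 s hs.1.le hs.2
  refine (h3.congr_of_eventuallyEq h4).congr_deriv ?_
  unfold FF'
  rw [ef_sum_eq h J hJ hJ1 t ht0.le ht, ef_FF_eq h J hJ hJ1 t ht0.le ht,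
    ENNReal.toReal_ofReal (tsum_nonneg fun n => mul_nonneg (mul_nonneg (Nat.cast_nonneg n)
      (pow_nonneg ht0.le n)) (h0 n)), neg_div, inv_pow, div_eq_mul_inv _ ((_ : ℝ) ^ 2)]

theorem FF_sum_ne_top {D : ℕ} {q β J1 : ℝ} (h : Reg D q β J1) (J : ℝ) (hJ : 1 ≤ J)
    (hJ1 : J ≤ J1) (t : ℝ) (ht0 : 0 ≤ t) (ht : t < Real.exp (xiR D q β J)) :
    ∑' n : ℕ, (n : ℝ≥0∞) * ENNReal.ofReal t ^ n * GN D q β J n 0 0 ≠ ⊤ := by
  rw [ef_sum_eq h J hJ hJ1 t ht0 ht]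
  exact ENNReal.ofReal_ne_top

theorem FF_tendsto {D : ℕ} {q β J1 : ℝ} (h : Reg D q β J1) (J : ℝ) (hJ : 1 ≤ J) (hJ1 : J ≤ J1)
    (t : ℝ) (ht : 0 < t) (hG : GI D q β J (ENNReal.ofReal t) 0 0 = ⊤) :
    Tendsto (fun s => FF D q β s J) (𝓝[<] t) (𝓝 0) := by
  have h1 : Tendsto (fun s => FF D q β s J) (𝓝 t) (𝓝 0) := by
    unfold FF
    simp only [ef_GI_eq h J hJ hJ1] at hG ⊢
    exact EfA.tendsto_inv _ (fun n => ENNReal.ofReal_ne_top) hG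
  exact h1.mono_left nhdsWithin_le_nhds

end Pool.Agent.DL
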