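import Pool.Agent.DL.Csp
import Pool.Agent.DL.Pw
import Pool.Agent.DL.Sym
import Pool.Agent.DL.Sz2

/-!
# The rate of decay of the two-point functions of slabs
-/

set_option autoImplicit false
set_option linter.unusedSectionVars false

namespace Pool.Agent.DL

open Finset

namespace Rt

variable {D : ℕ} {q β J : ℝ}

theorem q0 (h : Bas D q β) : 0 < q := lt_of_lt_of_le one_pos h.hq

theorem v0 (h : Bas D q β) : 0 < Real.exp β - 1 := by
  have := Real.add_one_lt_exp h.hβ.ne'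
  linarith [h.hβ]

theorem tt_nonneg (h : Bas D q β) (hJ : 0 ≤ J) (Λ : Finset (Site D)) (x y : Site D) :
    0 ≤ TT D q β J Λ x y :=
  (lat D).tp_nonneg q _ (q0 h) (vJ_nonneg h.hβ.le hJ) _ _ _

theorem tt_le_one (h : Bas D q β) (hJ : 0 ≤ J) (Λ : Finset (Site D)) (x y : Site D) :
    TT D q β J Λ x y ≤ 1 :=
  (lat D).tp_le_one q _ (q0 h) (vJ_nonneg h.hβ.le hJ) _ _ _

theorem tt_comm (Λ : Finset (Site D)) (x y : Site D) :
    TT D q β J Λ x y = TT D q β J Λ y x :=
  (lat D).tp_comm q _ _ _ _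

theorem tt_mul (h : Bas D q β) (hJ : 0 ≤ J) (Λ : Finset (Site D)) (x y z : Site D) :
    TT D q β J Λ x y * TT D q β J Λ y z ≤ TT D q β J Λ x z :=
  (lat D).tp_mul_le q _ h.hq (vJ_nonneg h.hβ.le hJ) _ _ _ _

theorem edg_mono {Λ Λ' : Finset (Site D)} (h : Λ ⊆ Λ') : edg Λ ⊆ edg Λ' := by
  intro e he
  simp only [edg, mem_filter, mem_product, mem_univ, and_true] at he ⊢
  exact ⟨h he.1, h he.2⟩

theorem tt_mono (h : Bas D q β) (hJ : 0 ≤ J) {Λ Λ' : Finset (Site D)} (hΛ : Λ ⊆ Λ')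
    (x y : Site D) : TT D q β J Λ x y ≤ TT D q β J Λ' x y :=
  (lat D).tp_mono_edges q _ h.hq (vJ_nonneg h.hβ.le hJ) (edg_mono hΛ) _ _

theorem bdd (h : Bas D q β) (hJ : 0 ≤ J) (n : ℕ) (x y : Fin D → ℤ) :
    BddAbove (Set.range fun Λ : {Λ : Finset (Site D) // ∀ z ∈ Λ, 0 ≤ z.1 ∧ z.1 ≤ n} =>
      TT D q β J Λ.1 (0, x) ((n : ℤ), y)) :=
  ⟨1, by rintro _ ⟨Λ, rfl⟩; exact tt_le_one h hJ _ _ _⟩

instance (n : ℕ) : Nonempty {Λ : Finset (Site D) // ∀ z ∈ Λ, 0 ≤ z.1 ∧ z.1 ≤ n} :=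
  ⟨⟨∅, by simp⟩⟩

end Rt

open Rt

variable {D : ℕ} {q β J : ℝ}

theorem sn_le_one {D : ℕ} {q β J : ℝ} (h : Bas D q β) (hJ : 0 ≤ J) (n : ℕ) (x y : Fin D → ℤ) :
    sn D q β J n x y ≤ 1 :=
  ciSup_le fun _ => tt_le_one h hJ _ _ _

theorem TT_le_sn {D : ℕ} {q β J : ℝ} (h : Bas D q β) (hJ : 0 ≤ J) (n : ℕ) (x y : Fin D → ℤ)
    (Λ : Finset (Site D)) (hΛ : ∀ z ∈ Λ, 0 ≤ z.1 ∧ z.1 ≤ n) :
    TT D q β J Λ (0, x) ((n : ℤ), y) ≤ sn D q β J n x y :=
  le_ciSup (bdd h hJ n x y) ⟨Λ, hΛ⟩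

theorem Rt.sn_nonneg (h : Bas D q β) (hJ : 0 ≤ J) (n : ℕ) (x y : Fin D → ℤ) :
    0 ≤ sn D q β J n x y :=
  (tt_nonneg h hJ ∅ _ _).trans (TT_le_sn h hJ n x y ∅ (by simp))

theorem sn_le_GG {D : ℕ} {q β J : ℝ} (h : Bas D q β) (hJ : 0 ≤ J) (n : ℕ) (x y : Fin D → ℤ) :
    sn D q β J n x y ≤ GG D q β J (0, x) ((n : ℤ), y) :=
  ciSup_le fun Λ => TT_le_GG h hJ Λ.1 _ _

/-- A product of two suprema. -/
theorem Rt.iSup_mul_iSup_le {ι κ : Type*} [Nonempty ι] [Nonempty κ] (f : ι → ℝ) (g : κ → ℝ)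
    (a : ℝ) (hf : ∀ i, 0 ≤ f i) (hg : ∀ i, 0 ≤ g i) (h : ∀ i j, f i * g j ≤ a) :
    (⨆ i, f i) * (⨆ j, g j) ≤ a := by
  rw [Real.iSup_mul_of_nonneg (Real.iSup_nonneg hg)]
  refine ciSup_le fun i => ?_
  rw [Real.mul_iSup_of_nonneg (hf i)]
  exact ciSup_le fun j => h i j

theorem sn_add {D : ℕ} {q β J : ℝ} (h : Bas D q β) (hJ : 0 ≤ J) (n m : ℕ) (x y z : Fin D → ℤ) :
    sn D q β J n x y * sn D q β J m y z ≤ sn D q β J (n + m) x z := by
  refine iSup_mul_iSup_le _ _ _ (fun _ => tt_nonneg h hJ _ _ _) (fun _ => tt_nonneg h hJ _ _ _) ?_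
  rintro ⟨Λ₁, h₁⟩ ⟨Λ₂, h₂⟩
  have e₂ : TT D q β J Λ₂ (0, y) ((m : ℤ), z) =
      TT D q β J ((Sy.tr D β J n).im Λ₂) ((n : ℤ), y) ((n : ℤ) + m, z) := by
    rw [← Sy.TT_im (Sy.tr D β J n)]
    congr 1
    · simp [Sy.tr]
    · simp [Sy.tr, add_comm]
  set Λ := Λ₁ ∪ (Sy.tr D β J n).im Λ₂ with hΛ
  have hh : ∀ w ∈ Λ, 0 ≤ w.1 ∧ w.1 ≤ ((n + m : ℕ) : ℤ) := by
    intro w hw
    rcases mem_union.1 hw with hw | hw
    · have := h₁ w hw
      push_cast
      constructor
      · exact this.1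
      · have : (0 : ℤ) ≤ m := by positivity
        linarith [(h₁ w hw).2]
    · simp only [Sy.im, mem_map, Equiv.coe_toEmbedding] at hw
      obtain ⟨w', hw', rfl⟩ := hw
      have := h₂ w' hw'
      simp only [Sy.tr, Equiv.coe_fn_mk]
      push_cast
      have hn : (0 : ℤ) ≤ n := by positivity
      constructor
      · linarith
      · linarith
  calc TT D q β J Λ₁ (0, x) ((n : ℤ), y) * TT D q β J Λ₂ (0, y) ((m : ℤ), z)
      ≤ TT D q β J Λ (0, x) ((n : ℤ), y) * TT D q β J Λ ((n : ℤ), y) ((n : ℤ) + m, z) := by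
        rw [e₂]
        exact mul_le_mul (tt_mono h hJ subset_union_left _ _) (tt_mono h hJ subset_union_right _ _)
          (tt_nonneg h hJ _ _ _) (tt_nonneg h hJ _ _ _)
    _ ≤ TT D q β J Λ (0, x) ((n : ℤ) + m, z) := tt_mul h hJ _ _ _ _
    _ ≤ sn D q β J (n + m) x z := by
        have := TT_le_sn h hJ (n + m) x z Λ hh
        push_cast at this
        exact this

/-! ### Opening edges -/

namespace Rt

/-- The price of one edge. -/
noncomputable def pc (q β : ℝ) : ℝ := (Real.exp β - 1) / (Real.exp β - 1 + q)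

theorem pc_pos (h : Bas D q β) : 0 < pc q β := div_pos (v0 h) (by linarith [v0 h, q0 h])

theorem edge_ge (h : Bas D q β) (hJ : 1 ≤ J) (Λ : Finset (Site D)) (o : Option (Fin D))
    (a : Site D) (ha : a ∈ Λ) (hb : a + SB.dir (o, true) ∈ Λ) :
    pc q β ≤ TT D q β J Λ a (a + SB.dir (o, true)) := by
  have hJ0 : 0 ≤ J := by linarith
  have he : ((a, o) : Edge D) ∈ edg Λ := by
    simp only [edg, mem_filter, mem_product, mem_univ, and_true]
    exact ⟨ha, hb⟩
  have h1 := (lat D).pr_open_ge q (vJ β J) h.hq (vJ_nonneg h.hβ.le hJ0) (edg Λ) (a, o) he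
  have h2 : Real.exp β - 1 ≤ vJ β J (a, o) := by
    unfold vJ
    split_ifs
    · have : Real.exp β ≤ Real.exp (β * J) := Real.exp_le_exp.2 (by nlinarith [h.hβ])
      linarith
    · exact le_refl _
  have h3 : pc q β ≤ vJ β J (a, o) / (vJ β J (a, o) + q) := by
    have hq := q0 h
    have hv := v0 h
    unfold pc
    rw [div_le_div_iff₀ (by linarith) (by linarith)]
    nlinarith
  refine h3.trans (h1.trans ?_)
  refine (lat D).pr_le q _ (q0 h) (vJ_nonneg h.hβ.le hJ0) _ _ _ ?_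
  intro ω _ hω
  exact (lat D).rch_edge hω

/-- A step in a transverse direction at both ends. -/
theorem step_le (h : Bas D q β) (hJ : 1 ≤ J) (n : ℕ) (i : Fin D) (x : Fin D → ℤ) :
    pc q β * pc q β * sn D q β J n x x ≤
      sn D q β J n (x + Pi.single i 1) (x + Pi.single i 1) ∧
    pc q β * pc q β * sn D q β J n (x + Pi.single i 1) (x + Pi.single i 1) ≤
      sn D q β J n x x := by
  have hJ0 : 0 ≤ J := by linarith
  have key : ∀ a b : Fin D → ℤ, (b = a + Pi.single i 1 ∨ a = b + Pi.single i 1) →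
      pc q β * pc q β * sn D q β J n a a ≤ sn D q β J n b b := by
    intro a b hab
    rw [sn, Real.mul_iSup_of_nonneg (mul_nonneg (pc_pos h).le (pc_pos h).le)]
    refine ciSup_le ?_
    rintro ⟨Λ', hΛ'⟩
    set Λ : Finset (Site D) := Λ' ∪ {((0 : ℤ), a), (0, b), ((n : ℤ), a), ((n : ℤ), b)} with hΛ
    have hh : ∀ w ∈ Λ, 0 ≤ w.1 ∧ w.1 ≤ (n : ℤ) := by
      intro w hw
      rcases mem_union.1 hw with hw | hw
      · exact hΛ' w hw
      · simp only [mem_insert, mem_singleton] at hw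
        rcases hw with rfl | rfl | rfl | rfl <;> simp
    have hedge : ∀ m : ℤ, (m, a) ∈ Λ → (m, b) ∈ Λ → pc q β ≤ TT D q β J Λ (m, a) (m, b) := by
      intro m hma hmb
      rcases hab with rfl | rfl
      · have := edge_ge h hJ Λ (some i) (m, a) hma (by simpa [SB.dir] using hmb)
        simpa [SB.dir] using this
      · have := edge_ge h hJ Λ (some i) (m, b) hmb (by simpa [SB.dir] using hma)
        rw [tt_comm]
        simpa [SB.dir] using this
    have e1 : pc q β ≤ TT D q β J Λ (0, b) (0, a) := by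
      rw [tt_comm]
      exact hedge 0 (by simp [hΛ]) (by simp [hΛ])
    have e2 : pc q β ≤ TT D q β J Λ ((n : ℤ), a) ((n : ℤ), b) :=
      hedge n (by simp [hΛ]) (by simp [hΛ])
    have e3 := tt_mono h hJ0 (subset_union_left : Λ' ⊆ Λ) (0, a) ((n : ℤ), a)
    have p1 := tt_nonneg h hJ0 Λ' (0, a) ((n : ℤ), a)
    have p2 := tt_nonneg h hJ0 Λ (0, b) (0, a)
    have p3 := tt_nonneg h hJ0 Λ (0, a) ((n : ℤ), a)
    have pp := pc_pos h
    calc pc q β * pc q β * TT D q β J Λ' (0, a) ((n : ℤ), a)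
        ≤ TT D q β J Λ (0, b) (0, a) * TT D q β J Λ ((n : ℤ), a) ((n : ℤ), b) *
            TT D q β J Λ (0, a) ((n : ℤ), a) :=
            mul_le_mul (mul_le_mul e1 e2 pp.le p2) e3 p1
              (mul_nonneg p2 (tt_nonneg h hJ0 _ _ _))
      _ = TT D q β J Λ (0, b) (0, a) * TT D q β J Λ (0, a) ((n : ℤ), a) *
            TT D q β J Λ ((n : ℤ), a) ((n : ℤ), b) := by ring
      _ ≤ TT D q β J Λ (0, b) ((n : ℤ), a) * TT D q β J Λ ((n : ℤ), a) ((n : ℤ), b) :=
            mul_le_mul_of_nonneg_right (tt_mul h hJ0 _ _ _ _) (tt_nonneg h hJ0 _ _ _)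
      _ ≤ TT D q β J Λ (0, b) ((n : ℤ), b) := tt_mul h hJ0 _ _ _ _
      _ ≤ sn D q β J n b b := TT_le_sn h hJ0 n b b Λ hh
  exact ⟨key _ _ (Or.inl rfl), key _ _ (Or.inr rfl)⟩

/-- Comparison of the slab functions at different transverse positions. -/
theorem shift_le (h : Bas D q β) (hJ : 1 ≤ J) (d : Fin D → ℤ) :
    ∀ x : Fin D → ℤ, ∃ κ : ℝ, 0 < κ ∧ ∀ n : ℕ, κ * sn D q β J n x x ≤
      sn D q β J n (x + d) (x + d) := by
  have pp := pc_pos h
  have hs : ∀ (i : Fin D) (k : ℤ) (x : Fin D → ℤ), ∃ κ : ℝ, 0 < κ ∧ ∀ n : ℕ,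
      κ * sn D q β J n x x ≤ sn D q β J n (x + Pi.single i k) (x + Pi.single i k) := by
    intro i k
    induction k using Int.induction_on with
    | zero =>
      intro x
      refine ⟨1, one_pos, fun n => ?_⟩
      simp
    | succ k ih =>
      intro x
      obtain ⟨κ, hκ, hk⟩ := ih x
      refine ⟨κ * (pc q β * pc q β), by positivity, fun n => ?_⟩
      have h1 := (step_le h hJ n i (x + Pi.single i (k : ℤ))).1
      have h2 := hk n
      have e : x + Pi.single i ((k : ℤ) + 1) = x + Pi.single i (k : ℤ) + Pi.single i 1 := by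
        rw [Pi.single_add, add_assoc]
      rw [e]
      refine le_trans ?_ h1
      calc κ * (pc q β * pc q β) * sn D q β J n x x
          = pc q β * pc q β * (κ * sn D q β J n x x) := by ring
        _ ≤ _ := by gcongr
    | pred k ih =>
      intro x
      obtain ⟨κ, hκ, hk⟩ := ih x
      refine ⟨κ * (pc q β * pc q β), by positivity, fun n => ?_⟩
      have h1 := (step_le h hJ n i (x + Pi.single i (-(k : ℤ) - 1))).2
      have h2 := hk n
      have e : x + Pi.single i (-(k : ℤ) - 1) + Pi.single i 1 = x + Pi.single i (-(k : ℤ)) := by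
        rw [add_assoc, ← Pi.single_add]
        congr 2
        ring
      rw [e] at h1
      refine le_trans ?_ h1
      calc κ * (pc q β * pc q β) * sn D q β J n x x
          = pc q β * pc q β * (κ * sn D q β J n x x) := by ring
        _ ≤ _ := by gcongr
  have hd : d = ∑ i, Pi.single i (d i) := (Finset.univ_sum_single d).symm
  rw [hd]
  refine Finset.sum_induction (fun i => (Pi.single i (d i) : Fin D → ℤ))
    (fun d => ∀ x : Fin D → ℤ, ∃ κ : ℝ, 0 < κ ∧ ∀ n : ℕ, κ * sn D q β J n x x ≤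
      sn D q β J n (x + d) (x + d)) ?_ ?_ ?_
  · intro a b ha hb x
    obtain ⟨κ, hκ, hk⟩ := ha x
    obtain ⟨κ', hκ', hk'⟩ := hb (x + a)
    refine ⟨κ' * κ, by positivity, fun n => ?_⟩
    rw [← add_assoc]
    refine le_trans ?_ (hk' n)
    rw [mul_assoc]
    exact mul_le_mul_of_nonneg_left (hk n) hκ'.le
  · intro x
    exact ⟨1, one_pos, fun n => by simp⟩
  · intro i _ x
    exact hs i (d i) x

theorem sn_pos (h : Bas D q β) (hJ : 1 ≤ J) (n : ℕ) : 0 < sn D q β J n 0 0 := by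
  have hJ0 : 0 ≤ J := by linarith
  have pp := pc_pos h
  have h1 : pc q β ≤ sn D q β J 1 0 0 := by
    have := edge_ge h hJ {(0 : Site D), (0 : Site D) + SB.dir (none, true)} none 0 (by simp)
      (by simp)
    refine this.trans ?_
    have h2 := TT_le_sn h hJ0 1 0 0 {(0 : Site D), (0 : Site D) + SB.dir (none, true)} (by
      intro z hz
      simp only [mem_insert, mem_singleton] at hz
      rcases hz with rfl | rfl <;> simp [SB.dir])
    refine le_trans (le_of_eq ?_) h2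
    congr 1
  induction n with
  | zero =>
    have h2 := TT_le_sn h hJ0 0 0 0 ∅ (by simp)
    refine lt_of_lt_of_le ?_ h2
    have : TT D q β J ∅ (0, 0) (((0 : ℕ) : ℤ), 0) = 1 := by
      unfold TT Gr.tp
      rw [← (lat D).pr_true q (vJ β J) (q0 h) (vJ_nonneg h.hβ.le hJ0) (edg ∅)]
      refine (lat D).pr_congr q _ _ ?_
      intro ω _
      simp only [Nat.cast_zero, iff_true]
      exact (lat D).rch_refl _ _
    rw [this]
    exact one_pos
  | succ n ih =>
    have := sn_add h hJ0 n 1 0 0 0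
    exact lt_of_lt_of_le (mul_pos ih (lt_of_lt_of_le pp h1)) this

end Rt

theorem Rt.xs_bdd (h : Bas D q β) (hJ : 0 ≤ J) :
    BddBelow (Set.range fun n : ℕ => -Real.log (sn D q β J (n + 1) 0 0) / ((n : ℝ) + 1)) := by
  refine ⟨0, ?_⟩
  rintro _ ⟨n, rfl⟩
  have := Real.log_nonpos (Rt.sn_nonneg h hJ (n + 1) 0 0) (sn_le_one h hJ (n + 1) 0 0)
  have : 0 ≤ -Real.log (sn D q β J (n + 1) 0 0) := by linarith
  positivity

theorem Rt.sn00_le (h : Bas D q β) (hJ : 1 ≤ J) (n : ℕ) :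
    sn D q β J n 0 0 ≤ Real.exp (-(xs D q β J * n)) := by
  have hJ0 : 0 ≤ J := by linarith
  rcases n with _ | n
  · simpa using sn_le_one h hJ0 0 0 0
  · have h1 := ciInf_le (xs_bdd h hJ0) n
    change xs D q β J ≤ _ at h1
    rw [le_div_iff₀ (by positivity)] at h1
    rw [← Real.log_le_iff_le_exp (sn_pos h hJ _)]
    push_cast
    linarith

/-- The slab functions with general end points. -/
theorem sn_le_xs {D : ℕ} {q β J : ℝ} (h : Bas D q β) (hJ : 1 ≤ J) (n : ℕ) (x y : Fin D → ℤ) :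
    sn D q β J n x y ≤ Real.exp (-(xs D q β J * n)) := by
  have hJ0 : 0 ≤ J := by linarith
  -- symmetric
  have hsym : ∀ (n : ℕ) (x y : Fin D → ℤ), sn D q β J n x y ≤ sn D q β J n y x := by
    intro n x y
    refine ciSup_le ?_
    rintro ⟨Λ, hΛ⟩
    have e : TT D q β J Λ (0, x) ((n : ℤ), y) =
        TT D q β J ((Sy.rf D β J n).im Λ) (0, y) ((n : ℤ), x) := by
      rw [← Sy.TT_im (Sy.rf D β J n), tt_comm]
      congr 1 <;> simp [Sy.rf]
    rw [e]
    refine TT_le_sn h hJ0 n y x _ ?_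
    intro z hz
    simp only [Sy.im, mem_map, Equiv.coe_toEmbedding] at hz
    obtain ⟨w, hw, rfl⟩ := hz
    have := hΛ w hw
    simp only [Sy.rf, Equiv.coe_fn_mk]
    constructor <;> linarith
  -- diagonal
  have hdiag : ∀ (n : ℕ) (x : Fin D → ℤ), sn D q β J n x x ≤ Real.exp (-(xs D q β J * n)) := by
    intro n x
    obtain ⟨κ, hκ, hk⟩ := shift_le (D := D) h hJ (-x) x
    have hpow : ∀ k : ℕ, sn D q β J n x x ^ k ≤ sn D q β J (n * k) x x := by
      intro k
      induction k with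
      | zero =>
        have h2 := TT_le_sn h hJ0 0 x x ∅ (by simp)
        have : TT D q β J ∅ (0, x) (((0 : ℕ) : ℤ), x) = 1 := by
          unfold TT Gr.tp
          rw [← (lat D).pr_true q (vJ β J) (q0 h) (vJ_nonneg h.hβ.le hJ0) (edg ∅)]
          refine (lat D).pr_congr q _ _ ?_
          intro ω _
          simp only [Nat.cast_zero, iff_true]
          exact (lat D).rch_refl _ _
        rw [this] at h2
        simpa using h2
      | succ k ih =>
        rw [pow_succ, Nat.mul_succ]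
        exact (mul_le_mul_of_nonneg_right ih (Rt.sn_nonneg h hJ0 _ _ _)).trans
          (sn_add h hJ0 _ _ _ _ _)
    set r := sn D q β J n x x / Real.exp (-(xs D q β J * n)) with hr
    have hr0 : 0 ≤ r := div_nonneg (Rt.sn_nonneg h hJ0 _ _ _) (Real.exp_pos _).le
    have hrk : ∀ k : ℕ, r ^ k ≤ κ⁻¹ := by
      intro k
      have h1 : κ * sn D q β J (n * k) x x ≤ Real.exp (-(xs D q β J * (n * k : ℕ))) := by
        have := hk (n * k)
        rw [add_neg_cancel] at this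
        exact this.trans (sn00_le h hJ _)
      have h2 : Real.exp (-(xs D q β J * (n * k : ℕ))) = Real.exp (-(xs D q β J * n)) ^ k := by
        rw [← Real.exp_nat_mul]
        congr 1
        push_cast
        ring
      rw [hr, div_pow, div_le_iff₀ (by positivity), ← h2, ← div_eq_inv_mul, le_div_iff₀ hκ,
        mul_comm]
      exact (mul_le_mul_of_nonneg_left (hpow k) hκ.le).trans h1
    have hr1 : r ≤ 1 := by
      by_contra hcon
      push Not at hcon
      have := tendsto_pow_atTop_atTop_of_one_lt hcon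
      obtain ⟨k, hk'⟩ := (this.eventually_gt_atTop (κ⁻¹)).exists
      exact absurd (hrk k) (not_le.2 hk')
    rw [hr, div_le_one (Real.exp_pos _)] at hr1
    exact hr1
  have h1 : sn D q β J n x y * sn D q β J n x y ≤ Real.exp (-(xs D q β J * n)) *
      Real.exp (-(xs D q β J * n)) := by
    calc sn D q β J n x y * sn D q β J n x y ≤ sn D q β J n x y * sn D q β J n y x :=
          mul_le_mul_of_nonneg_left (hsym n x y) (Rt.sn_nonneg h hJ0 _ _ _)
      _ ≤ sn D q β J (n + n) x x := sn_add h hJ0 _ _ _ _ _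
      _ ≤ Real.exp (-(xs D q β J * (n + n : ℕ))) := hdiag _ _
      _ = _ := by
        rw [← Real.exp_add]
        congr 1
        push_cast
        ring
  exact abs_le_of_sq_le_sq' (by rw [sq, sq]; exact h1) (Real.exp_pos _).le |>.2

theorem tendsto_xs {D : ℕ} {q β J : ℝ} (h : Bas D q β) (hJ : 1 ≤ J) :
    Filter.Tendsto (fun n : ℕ => -Real.log (sn D q β J n 0 0) / n) Filter.atTop
      (nhds (xs D q β J)) := by
  have hJ0 : 0 ≤ J := by linarith
  have hsub : Subadditive fun n : ℕ => -Real.log (sn D q β J n 0 0) := by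
    intro m n
    have h1 := sn_add h hJ0 m n 0 0 0
    have h2 := Real.log_le_log (mul_pos (sn_pos h hJ m) (sn_pos h hJ n)) h1
    rw [Real.log_mul (sn_pos h hJ m).ne' (sn_pos h hJ n).ne'] at h2
    linarith
  have hb : BddBelow (Set.range fun n : ℕ => -Real.log (sn D q β J n 0 0) / n) := by
    refine ⟨0, ?_⟩
    rintro _ ⟨n, rfl⟩
    have := Real.log_nonpos (Rt.sn_nonneg h hJ0 n 0 0) (sn_le_one h hJ0 n 0 0)
    have : 0 ≤ -Real.log (sn D q β J n 0 0) := by linarith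
    positivity
  have h1 := hsub.tendsto_lim hb
  convert h1 using 2
  rw [Subadditive.lim]
  unfold xs
  rw [iInf]
  congr 1
  ext t
  simp only [Set.mem_range, Set.mem_image, Set.mem_Ici]
  constructor
  · rintro ⟨n, rfl⟩
    exact ⟨n + 1, by omega, by push_cast; rfl⟩
  · rintro ⟨n, hn, rfl⟩
    obtain ⟨m, rfl⟩ : ∃ m, n = m + 1 := ⟨n - 1, by omega⟩
    exact ⟨m, by push_cast; rfl⟩

theorem xiR_le_xs {D : ℕ} {q β J : ℝ} (h : Bas D q β) (hJ : 1 ≤ J) :
    xiR D q β J ≤ xs D q β J := by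
  have hJ0 : 0 ≤ J := by linarith
  refine le_ciInf fun n => ?_
  have hb : BddBelow (Set.range fun n : ℕ =>
      -Real.log (GG D q β J 0 ((n : ℤ) + 1, 0)) / ((n : ℝ) + 1)) := by
    refine ⟨0, ?_⟩
    rintro _ ⟨n, rfl⟩
    have h0 : 0 ≤ GG D q β J 0 ((n : ℤ) + 1, 0) :=
      (tt_nonneg h hJ0 ∅ _ _).trans (TT_le_GG h hJ0 ∅ _ _)
    have := Real.log_nonpos h0 (GG_le_one h hJ0 _ _)
    have : 0 ≤ -Real.log (GG D q β J 0 ((n : ℤ) + 1, 0)) := by linarith
    positivity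
  refine (ciInf_le hb n).trans ?_
  have h1 : sn D q β J (n + 1) 0 0 ≤ GG D q β J 0 ((n : ℤ) + 1, 0) := by
    have := sn_le_GG h hJ0 (n + 1) 0 0
    push_cast at this
    exact this
  have h2 := Real.log_le_log (sn_pos h hJ (n + 1)) h1
  gcongr

/-! ### The rate of slabs and the rate of decay -/

namespace Rt

/-- A function which changes at most by one along edges takes all intermediate values. -/
theorem ivt {D : ℕ} {E : Finset (Edge D)} {f : Site D → ℤ}
    (hf : ∀ e ∈ E, |f ((lat D).s e) - f ((lat D).t e)| ≤ 1) {x y : Site D}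
    (h : (lat D).Rch E x y) (m : ℤ) (h1 : f x ≤ m) (h2 : m ≤ f y) :
    ∃ z, (lat D).Rch E x z ∧ f z = m := by
  induction h with
  | refl => exact ⟨x, Relation.ReflTransGen.refl, le_antisymm h1 h2⟩
  | @tail b c hb hbc ih =>
    by_cases hm : m ≤ f b
    · exact ih hm
    · push Not at hm
      refine ⟨c, hb.tail hbc, ?_⟩
      obtain ⟨e, he, hh⟩ := hbc
      have := abs_le.1 (hf e he)
      rcases hh with ⟨rfl, rfl⟩ | ⟨rfl, rfl⟩ <;> omega

theorem lt_card {D : ℕ} {A : Finset (Site D)} {E : Finset (Edge D)} (hA : (lat D).IsCl A E)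
    {f : Site D → ℤ} (hf : ∀ e ∈ E, |f ((lat D).s e) - f ((lat D).t e)| ≤ 1) {x y : Site D}
    (hx : x ∈ A) (hy : y ∈ A) : f y - f x < A.card := by
  by_contra hcon
  push Not at hcon
  have h1 : Finset.Icc (f x) (f y) ⊆ A.image f := by
    intro m hm
    rw [Finset.mem_Icc] at hm
    obtain ⟨z, hz, rfl⟩ := ivt hf (hA.2.2 x hx y hy) m hm.1 hm.2
    refine mem_image.2 ⟨z, ?_, rfl⟩
    clear hm
    induction hz with
    | refl => exact hx
    | @tail b c hb hbc ih =>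
      obtain ⟨e, he, hh⟩ := hbc
      have := hA.2.1 e he
      rcases hh with ⟨rfl, rfl⟩ | ⟨rfl, rfl⟩
      · exact this.2
      · exact this.1
  have h2 := (card_le_card h1).trans card_image_le
  rw [Int.card_Icc] at h2
  omega

theorem tr_lt_card {D : ℕ} {A : Finset (Site D)} {E : Finset (Edge D)} (hA : (lat D).IsCl A E)
    (i : Fin D) {x y : Site D} (hx : x ∈ A) (hy : y ∈ A) : |y.2 i - x.2 i| < A.card := by
  have hf : ∀ e ∈ E, |((lat D).s e).2 i - ((lat D).t e).2 i| ≤ 1 := by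
    intro e _
    have : ((lat D).t e).2 i = ((lat D).s e).2 i + (SB.dir (e.2, true)).2 i := rfl
    rw [this]
    have h2 : |(SB.dir (D := D) (e.2, true)).2 i| ≤ 1 := by
      rcases e.2 with _ | j
      · simp [SB.dir]
      · simp only [SB.dir, Pi.single_apply]
        split_ifs <;> simp
    have e2 : ((lat D).s e).2 i - (((lat D).s e).2 i + (SB.dir (e.2, true)).2 i) =
        -(SB.dir (D := D) (e.2, true)).2 i := by ring
    rw [e2, abs_neg]
    exact h2
  rw [abs_lt]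
  constructor
  · have := lt_card hA (f := fun z => z.2 i) hf hy hx
    linarith
  · exact lt_card hA (f := fun z => z.2 i) hf hx hy

/-- The exact range of the heights of a cluster of `0`. -/
def Ext {D : ℕ} (a b : ℕ) (A : Finset (Site D)) : Prop :=
  (∀ z ∈ A, -(a : ℤ) ≤ z.1 ∧ z.1 ≤ b) ∧ (∃ u ∈ A, u.1 = -(a : ℤ)) ∧ ∃ w ∈ A, w.1 = (b : ℤ)

theorem term_le (h : Bas D q β) (hJ : 1 ≤ J) (C c : ℝ) (K : ℕ)
    (hS : ∀ (Λ : Finset (Site D)) (a : ℤ) (s : ℕ),
      (∀ x ∈ Λ, a ≤ x.1 ∧ x.1 ≤ a + s) → ∀ (x : Site D) (k : ℕ),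
      PP D q β J Λ (fun ω => (lat D).big ω x k) ≤ Real.exp (C * (s + 1) - c * k))
    (hK : C + xs D q β J ≤ c * K) (hc : 0 < c) (hx : 0 < xs D q β J)
    (Λ : Finset (Site D)) (h0 : (0 : Site D) ∈ Λ) (a b : ℕ) :
    cs D q β J Λ (fun A _ => (0 : Site D) ∈ A ∧ Ext a b A) ≤
      (1 + ((2 * (K * (a + b + 1) + 1) + 1 : ℕ) : ℝ) ^ (2 * D)) *
        Real.exp (-(xs D q β J * (a + b : ℕ))) := by
  classical
  have hJ0 : 0 ≤ J := by linarith
  set Λ' : Finset (Site D) := Λ.filter fun z => -(a : ℤ) ≤ z.1 ∧ z.1 ≤ b with hΛ'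
  set k : ℕ := K * (a + b + 1) + 1 with hk
  have h0' : (0 : Site D) ∈ Λ' := by
    rw [hΛ', mem_filter]
    exact ⟨h0, by simp, by simp⟩
  have s1 : cs D q β J Λ (fun A _ => (0 : Site D) ∈ A ∧ Ext a b A) ≤
      cs D q β J Λ' (fun A _ => (0 : Site D) ∈ A ∧ Ext a b A) := by
    refine le_trans ?_ (cs_restrict h hJ0 Λ Λ' (filter_subset _ _)
      (fun A _ => (0 : Site D) ∈ A ∧ Ext a b A))
    refine cs_mono h hJ0 Λ _ _ ?_
    intro A E hA _ _ hP
    refine ⟨?_, hP⟩
    intro z hz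
    rw [hΛ', mem_filter]
    exact ⟨hA hz, hP.2.1 z hz⟩
  have s2 := cs_eq_PP (q := q) (β := β) (J := J) h hJ0 Λ' 0 h0' (fun A _ => Ext a b A)
  set B : Finset (Fin D → ℤ) := Finset.Icc (fun _ => -(k : ℤ)) (fun _ => (k : ℤ)) with hB
  have s3 : PP D q β J Λ' (fun ω => ∃ A E, (lat D).Cls ω 0 A E ∧ Ext a b A) ≤
      PP D q β J Λ' (fun ω => (lat D).big ω 0 k) +
      ∑ p ∈ B ×ˢ B, TT D q β J Λ' (-(a : ℤ), p.1) ((b : ℤ), p.2) := by
    have t1 : PP D q β J Λ' (fun ω => ∃ A E, (lat D).Cls ω 0 A E ∧ Ext a b A) ≤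
        PP D q β J Λ' (fun ω => (lat D).big ω 0 k ∨
          ∃ p ∈ B ×ˢ B, (lat D).Rch ω (-(a : ℤ), p.1) ((b : ℤ), p.2)) := by
      refine (lat D).pr_le q _ (q0 h) (vJ_nonneg h.hβ.le hJ0) _ _ _ ?_
      rintro ω _ ⟨A, E, hcl, hext, ⟨u, hu, hua⟩, ⟨w, hw, hwb⟩⟩
      by_cases hk' : k ≤ A.card
      · left
        exact ⟨A, hk', fun y hy => ((lat D).cls_iff hcl y).1 hy⟩
      · right
        push Not at hk'
        have hin : ∀ z ∈ A, z.2 ∈ B := by
          intro z hz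
          rw [hB, Finset.mem_Icc]
          have h1 : ∀ i, |z.2 i| < (A.card : ℤ) := by
            intro i
            have := tr_lt_card hcl.1 i hcl.2.1 hz
            simpa using this
          constructor
          · intro i
            have := (abs_lt.1 (h1 i)).1
            simp only
            omega
          · intro i
            have := (abs_lt.1 (h1 i)).2
            simp only
            omega
        refine ⟨(u.2, w.2), mem_product.2 ⟨hin u hu, hin w hw⟩, ?_⟩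
        have e1 : (-(a : ℤ), u.2) = u := by rw [← hua]
        have e2 : ((b : ℤ), w.2) = w := by rw [← hwb]
        simp only [e1, e2]
        exact (lat D).rch_trans ((lat D).rch_symm (((lat D).cls_iff hcl u).1 hu))
          (((lat D).cls_iff hcl w).1 hw)
    refine t1.trans (((lat D).pr_or_le q _ (q0 h) (vJ_nonneg h.hβ.le hJ0) _ _ _).trans ?_)
    refine add_le_add (le_refl _) ?_
    refine (lat D).pr_sum q _ (q0 h) (vJ_nonneg h.hβ.le hJ0) _ _ (B ×ˢ B)
      (fun p ω => (lat D).Rch ω (-(a : ℤ), p.1) ((b : ℤ), p.2)) ?_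
    rintro ω _ ⟨p, hp, hr⟩
    exact ⟨p, hp, hr⟩
  have s4 : PP D q β J Λ' (fun ω => (lat D).big ω 0 k) ≤
      Real.exp (-(xs D q β J * (a + b : ℕ))) := by
    refine (hS Λ' (-(a : ℤ)) (a + b) ?_ 0 k).trans (Real.exp_le_exp.2 ?_)
    · intro z hz
      rw [hΛ', mem_filter] at hz
      push_cast
      constructor
      · exact hz.2.1
      · linarith [hz.2.2]
    · rw [hk]
      push_cast
      have ha : (0 : ℝ) ≤ a := by positivity
      have hb : (0 : ℝ) ≤ b := by positivity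
      nlinarith
  have s5 : ∀ p ∈ B ×ˢ B, TT D q β J Λ' (-(a : ℤ), p.1) ((b : ℤ), p.2) ≤
      Real.exp (-(xs D q β J * (a + b : ℕ))) := by
    intro p _
    refine le_trans ?_ (sn_le_xs h hJ (a + b) p.1 p.2)
    have e : TT D q β J Λ' (-(a : ℤ), p.1) ((b : ℤ), p.2) =
        TT D q β J ((Sy.tr D β J a).im Λ') (0, p.1) (((a + b : ℕ) : ℤ), p.2) := by
      rw [← Sy.TT_im (Sy.tr D β J a)]
      congr 1
      · simp [Sy.tr]
      · simp [Sy.tr, add_comm]
    rw [e]
    refine TT_le_sn h hJ0 (a + b) p.1 p.2 _ ?_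
    intro z hz
    simp only [Sy.im, mem_map, Equiv.coe_toEmbedding] at hz
    obtain ⟨w, hw, rfl⟩ := hz
    rw [hΛ', mem_filter] at hw
    simp only [Sy.tr, Equiv.coe_fn_mk]
    push_cast
    constructor
    · linarith [hw.2.1]
    · linarith [hw.2.2]
  have hcard : (B.card : ℝ) = ((2 * k + 1 : ℕ) : ℝ) ^ D := by
    rw [hB, Pi.card_Icc]
    simp only [Int.card_Icc, prod_const, card_univ, Fintype.card_fin]
    push_cast
    congr 1
    have : ((k : ℤ) + 1 - -(k : ℤ)).toNat = 2 * k + 1 := by omega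
    rw [this]
    push_cast
    ring
  calc cs D q β J Λ (fun A _ => (0 : Site D) ∈ A ∧ Ext a b A)
      ≤ PP D q β J Λ' (fun ω => (lat D).big ω 0 k) +
      ∑ p ∈ B ×ˢ B, TT D q β J Λ' (-(a : ℤ), p.1) ((b : ℤ), p.2) := by
        rw [s2] at s1
        exact s1.trans s3
    _ ≤ Real.exp (-(xs D q β J * (a + b : ℕ))) +
      ∑ p ∈ B ×ˢ B, Real.exp (-(xs D q β J * (a + b : ℕ))) :=
        add_le_add s4 (sum_le_sum s5)
    _ = _ := by
      rw [sum_const, card_product, nsmul_eq_mul, Nat.cast_mul, hcard]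
      ring

theorem poly_le (K D : ℕ) (ε : ℝ) (hε : 0 < ε) : ∃ C : ℝ, 0 < C ∧ ∀ t : ℕ,
    1 + ((2 * (K * (t + 1) + 1) + 1 : ℕ) : ℝ) ^ (2 * D) ≤ C * Real.exp (ε * t) := by
  set m := 2 * D with hm
  refine ⟨1 + (2 * K + 3) ^ m * (m.factorial * (ε⁻¹) ^ m * Real.exp ε), by positivity,
    fun t => ?_⟩
  have h1 : ((2 * (K * (t + 1) + 1) + 1 : ℕ) : ℝ) ≤ (2 * K + 3) * (t + 1) := by
    push_cast
    have : (0 : ℝ) ≤ t := by positivity
    nlinarith
  have h2 := Real.pow_div_factorial_le_exp (ε * (t + 1)) (by positivity) m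
  rw [div_le_iff₀ (by positivity), mul_pow] at h2
  have h3 : ((t : ℝ) + 1) ^ m ≤ m.factorial * (ε⁻¹) ^ m * Real.exp ε * Real.exp (ε * t) := by
    have e1 : Real.exp (ε * (t + 1)) = Real.exp ε * Real.exp (ε * t) := by
      rw [← Real.exp_add]
      congr 1
      ring
    have e2 : ((t : ℝ) + 1) ^ m = (ε⁻¹) ^ m * (ε ^ m * (t + 1) ^ m) := by
      rw [← mul_assoc, ← mul_pow, inv_mul_cancel₀ hε.ne', one_pow, one_mul]
    rw [e2]
    rw [e1] at h2
    calc (ε⁻¹) ^ m * (ε ^ m * ((t : ℝ) + 1) ^ m)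
        ≤ (ε⁻¹) ^ m * (Real.exp ε * Real.exp (ε * t) * m.factorial) :=
          mul_le_mul_of_nonneg_left h2 (by positivity)
      _ = _ := by ring
  have h4 : ((2 * (K * (t + 1) + 1) + 1 : ℕ) : ℝ) ^ m ≤ ((2 * K + 3) * (t + 1)) ^ m := by
    gcongr
  rw [mul_pow] at h4
  have h5 : (1 : ℝ) ≤ Real.exp (ε * t) := Real.one_le_exp (by positivity)
  calc 1 + ((2 * (K * (t + 1) + 1) + 1 : ℕ) : ℝ) ^ m
      ≤ Real.exp (ε * t) + (2 * K + 3) ^ m * (m.factorial * (ε⁻¹) ^ m * Real.exp ε *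
          Real.exp (ε * t)) := by
        refine add_le_add h5 (h4.trans ?_)
        gcongr
    _ = _ := by ring

theorem geom_le (r : ℝ) (h0 : 0 ≤ r) (h1 : r < 1) (n : ℕ) :
    ∑ j ∈ range n, r ^ j ≤ (1 - r)⁻¹ := by
  rw [← tsum_geometric_of_lt_one h0 h1]
  exact (summable_geometric_of_lt_one h0 h1).sum_le_tsum _ (fun _ _ => by positivity)

/-- Decay with any rate smaller than the rate of the slabs. -/
theorem GG_le_of_lt (h : Bas D q β) (hJ : 1 ≤ J) (ε : ℝ) (hε : 0 < ε)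
    (hx : ε < xs D q β J) : ∃ C : ℝ, 0 < C ∧ ∀ n : ℕ,
      GG D q β J 0 ((n : ℤ), 0) ≤ C * Real.exp (-((xs D q β J - ε) * n)) := by
  classical
  have hJ0 : 0 ≤ J := by linarith
  have hx0 : 0 < xs D q β J := hε.trans hx
  obtain ⟨C, c, hC, hc, hS⟩ := size_slab h J
  obtain ⟨K, hK⟩ := exists_nat_ge ((C + xs D q β J) / c)
  rw [div_le_iff₀ hc, mul_comm] at hK
  obtain ⟨C', hC', hp⟩ := poly_le K D ε hε
  set r := Real.exp (-(xs D q β J - ε)) with hr
  have hr0 : 0 < r := Real.exp_pos _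
  have hr1 : r < 1 := Real.exp_lt_one_iff.2 (by linarith)
  have hinv : 0 < (1 - r)⁻¹ := inv_pos.2 (by linarith)
  refine ⟨C' * ((1 - r)⁻¹ * (1 - r)⁻¹), by positivity, fun n => ciSup_le fun Λ₀ => ?_⟩
  set Λ := insert (0 : Site D) Λ₀ with hΛ
  have h0 : (0 : Site D) ∈ Λ := mem_insert_self _ _
  refine (tt_mono h hJ0 (subset_insert 0 Λ₀) _ _).trans ?_
  rw [← hΛ, ← cs_eq_TT h hJ0 Λ 0 ((n : ℤ), 0) h0]
  set M := Λ.sup fun z => z.1.natAbs with hM
  have hMz : ∀ z ∈ Λ, z.1.natAbs ≤ M := fun z hz =>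
    Finset.le_sup (f := fun z : Site D => z.1.natAbs) hz
  have s1 := cs_union (q := q) (β := β) (J := J) h hJ0 Λ
    (fun A _ => (0 : Site D) ∈ A ∧ ((n : ℤ), (0 : Fin D → ℤ)) ∈ A)
    (range (M + 1) ×ˢ range (M + 1))
    (fun p A _ => ((0 : Site D) ∈ A ∧ ((n : ℤ), (0 : Fin D → ℤ)) ∈ A) ∧ Ext p.1 p.2 A) (by
      rintro A E hA - - hP
      obtain ⟨u, hu, humin⟩ := Finset.exists_min_image A (fun z => z.1) ⟨0, hP.1⟩
      obtain ⟨w, hw, hwmax⟩ := Finset.exists_max_image A (fun z => z.1) ⟨0, hP.1⟩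
      have hu0 : u.1 ≤ 0 := humin 0 hP.1
      have hw0 : 0 ≤ w.1 := hwmax 0 hP.1
      have hum := hMz u (hA hu)
      have hwm := hMz w (hA hw)
      refine ⟨((-u.1).toNat, w.1.toNat), ?_, hP, ?_, ⟨u, hu, ?_⟩, ⟨w, hw, ?_⟩⟩
      · rw [mem_product, mem_range, mem_range]
        constructor
        · simp only
          omega
        · simp only
          omega
      · intro z hz
        have h1 := humin z hz
        have h2 := hwmax z hz
        simp only at h1 h2 ⊢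
        omega
      · simp only
        omega
      · simp only
        omega)
  refine s1.trans ?_
  have s2 : ∀ p ∈ range (M + 1) ×ˢ range (M + 1),
      cs D q β J Λ (fun A _ => ((0 : Site D) ∈ A ∧ ((n : ℤ), (0 : Fin D → ℤ)) ∈ A) ∧
        Ext p.1 p.2 A) ≤ C' * (r ^ p.1 * (if n ≤ p.2 then r ^ p.2 else 0)) := by
    rintro ⟨a, b⟩ _
    simp only
    split_ifs with hb
    · have t1 : cs D q β J Λ (fun A _ => ((0 : Site D) ∈ A ∧ ((n : ℤ), (0 : Fin D → ℤ)) ∈ A) ∧
          Ext a b A) ≤ cs D q β J Λ (fun A _ => (0 : Site D) ∈ A ∧ Ext a b A) :=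
        cs_mono h hJ0 Λ _ _ fun A E _ _ _ hP => ⟨hP.1.1, hP.2⟩
      refine t1.trans ((term_le h hJ C c K (fun Λ a s hh x k => hS J hJ0 le_rfl Λ a s hh x k)
        hK hc hx0 Λ h0 a b).trans ?_)
      have t2 := hp (a + b)
      have t3 : r ^ a * r ^ b = Real.exp (ε * (a + b : ℕ)) *
          Real.exp (-(xs D q β J * (a + b : ℕ))) := by
        rw [← pow_add, hr, ← Real.exp_nat_mul, ← Real.exp_add]
        congr 1
        push_cast
        ring
      rw [t3, ← mul_assoc]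
      exact mul_le_mul_of_nonneg_right t2 (Real.exp_pos _).le
    · have t1 : cs D q β J Λ (fun A _ => ((0 : Site D) ∈ A ∧ ((n : ℤ), (0 : Fin D → ℤ)) ∈ A) ∧
          Ext a b A) ≤ cs D q β J Λ (fun _ _ => False) :=
        cs_mono h hJ0 Λ _ _ fun A E _ _ _ hP => by
          have := (hP.2.1 _ hP.1.2).2
          simp only at this
          exact hb (by exact_mod_cast this)
      refine t1.trans (le_of_eq ?_)
      simp [cs]
  refine (sum_le_sum s2).trans ?_
  rw [← mul_sum, mul_assoc]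
  refine mul_le_mul_of_nonneg_left ?_ hC'.le
  rw [sum_product' (range (M + 1)) (range (M + 1)) (fun a b => r ^ a * if n ≤ b then r ^ b else 0)]
  simp only [← mul_sum, ← sum_mul]
  have s3 : (∑ b ∈ range (M + 1), if n ≤ b then r ^ b else 0) ≤
      (1 - r)⁻¹ * Real.exp (-((xs D q β J - ε) * n)) := by
    have e1 : Real.exp (-((xs D q β J - ε) * n)) = r ^ n := by
      rw [hr, ← Real.exp_nat_mul]
      congr 1
      ring
    rw [e1, ← sum_filter]
    have e2 : (range (M + 1)).filter (fun b => n ≤ b) = Ico n (M + 1) := by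
      ext b
      simp only [mem_filter, mem_range, mem_Ico]
      tauto
    rw [e2, sum_Ico_eq_sum_range]
    simp only [pow_add, ← mul_sum]
    rw [mul_comm]
    exact mul_le_mul_of_nonneg_right (geom_le r hr0.le hr1 _) (by positivity)
  calc (∑ a ∈ range (M + 1), r ^ a) * (∑ b ∈ range (M + 1), if n ≤ b then r ^ b else 0)
      ≤ (1 - r)⁻¹ * ((1 - r)⁻¹ * Real.exp (-((xs D q β J - ε) * n))) := by
        refine mul_le_mul (geom_le r hr0.le hr1 _) s3 ?_ hinv.le
        refine sum_nonneg fun b _ => ?_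
        split_ifs <;> positivity
    _ = _ := by ring

end Rt

/-- If the rate of the slab functions is positive, it is the rate of decay. -/
theorem xs_eq {D : ℕ} {q β J : ℝ} (h : Bas D q β) (hJ : 1 ≤ J) (hx : 0 < xs D q β J) :
    xs D q β J = xiR D q β J := by
  have hJ0 : 0 ≤ J := by linarith
  refine le_antisymm ?_ (xiR_le_xs h hJ)
  refine le_of_forall_pos_le_add fun ε hε => ?_
  set ε' := min ε (xs D q β J / 2) with hε'
  have h1 : 0 < ε' := lt_min hε (by linarith)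
  have h2 : ε' < xs D q β J := (min_le_right _ _).trans_lt (by linarith)
  have h3 : ε' ≤ ε := min_le_left _ _
  obtain ⟨C, hC, hG⟩ := Rt.GG_le_of_lt h hJ ε' h1 h2
  have hlim := tendsto_xiR (D := D) h hJ
  have hlow : Filter.Tendsto (fun n : ℕ => (xs D q β J - ε') - Real.log C / n) Filter.atTop
      (nhds ((xs D q β J - ε') - 0)) :=
    tendsto_const_nhds.sub (tendsto_const_div_atTop_nhds_zero_nat _)
  have h4 : (xs D q β J - ε') - 0 ≤ xiR D q β J := by
    refine le_of_tendsto_of_tendsto hlow hlim ?_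
    filter_upwards [Filter.eventually_gt_atTop 0] with n hn
    have hn' : (0 : ℝ) < n := by exact_mod_cast hn
    have hpos : 0 < GG D q β J 0 ((n : ℤ), 0) :=
      lt_of_lt_of_le (Rt.sn_pos h hJ n) (sn_le_GG h hJ0 n 0 0)
    have h5 := Real.log_le_log hpos (hG n)
    rw [Real.log_mul hC.ne' (Real.exp_pos _).ne', Real.log_exp] at h5
    rw [le_div_iff₀ hn', sub_mul, div_mul_cancel₀ _ hn'.ne']
    linarith
  linarith

/-! ### Dependence on the coupling -/

namespace Rt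

theorem rho_le (h : Bas D q β) {J J' Jm : ℝ} (hJ : 1 ≤ J) (hJJ : J ≤ J') (hJm : J' ≤ Jm) :
    (Real.exp (β * J') - 1) / (Real.exp (β * J) - 1) ≤
      Real.exp (β * Real.exp (β * Jm) / (Real.exp β - 1) * (J' - J)) := by
  have hv := v0 h
  have hb := h.hβ
  have h1 : Real.exp β ≤ Real.exp (β * J) := Real.exp_le_exp.2 (by nlinarith)
  have h2 : Real.exp (β * J') ≤ Real.exp (β * Jm) := Real.exp_le_exp.2 (by nlinarith)
  have h3 : Real.exp (β * J') - Real.exp (β * J) ≤ β * (J' - J) * Real.exp (β * J') := by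
    have := Real.add_one_le_exp (β * J - β * J')
    have e : Real.exp (β * J) = Real.exp (β * J - β * J') * Real.exp (β * J') := by
      rw [← Real.exp_add]
      congr 1
      ring
    rw [e]
    nlinarith [Real.exp_pos (β * J')]
  have h4 : 0 < Real.exp (β * J) - 1 := by linarith
  refine le_trans ?_ (Real.add_one_le_exp _)
  rw [div_le_iff₀ h4]
  have h5 : 0 ≤ J' - J := by linarith
  have h6 : β * (J' - J) * Real.exp (β * J') ≤ β * (J' - J) * Real.exp (β * Jm) := by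
    have : 0 ≤ β * (J' - J) := by positivity
    exact mul_le_mul_of_nonneg_left h2 this
  have h7 : β * (J' - J) * Real.exp (β * Jm) ≤
      β * Real.exp (β * Jm) / (Real.exp β - 1) * (J' - J) * (Real.exp (β * J) - 1) := by
    rw [div_mul_eq_mul_div, div_mul_eq_mul_div, le_div_iff₀ hv]
    have : 0 ≤ β * (J' - J) * Real.exp (β * Jm) := by positivity
    nlinarith
  nlinarith

theorem line_card {Λ : Finset (Site D)} {n : ℕ} (hΛ : ∀ z ∈ Λ, 0 ≤ z.1 ∧ z.1 ≤ n) :
    ((edg Λ).filter fun e => OnL e).card ≤ n := by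
  classical
  have : ((edg Λ).filter fun e => OnL e) ⊆
      (range n).image fun m : ℕ => ((((m : ℤ), (0 : Fin D → ℤ)), none) : Edge D) := by
    intro e he
    rw [mem_filter] at he
    obtain ⟨he, h3, h4⟩ := he
    simp only [edg, mem_filter, mem_product, mem_univ, and_true] at he
    obtain ⟨h1, h2⟩ := he
    obtain ⟨⟨m, x⟩, o⟩ := e
    simp only at h1 h2 h3 h4
    subst h3 h4
    have h5 := hΛ _ h1
    have h6 := hΛ _ h2
    simp only [lat, SB.dir, Prod.mk_add_mk] at h5 h6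
    refine mem_image.2 ⟨m.toNat, ?_, ?_⟩
    · rw [mem_range]
      omega
    · simp only [Prod.mk.injEq, and_true]
      omega
  refine (card_le_card this).trans (card_image_le.trans ?_)
  simp

theorem tt_lip (h : Bas D q β) {J J' : ℝ} (hJ : 1 ≤ J) (hJJ : J ≤ J') (n : ℕ)
    (Λ : Finset (Site D)) (hΛ : ∀ z ∈ Λ, 0 ≤ z.1 ∧ z.1 ≤ n) (x y : Site D) :
    TT D q β J' Λ x y ≤ ((Real.exp (β * J') - 1) / (Real.exp (β * J) - 1)) ^ n *
      TT D q β J Λ x y := by
  classical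
  have hJ0 : 0 ≤ J := by linarith
  have hJ0' : 0 ≤ J' := by linarith
  have hv := v0 h
  have hb := h.hβ
  set ρ := (Real.exp (β * J') - 1) / (Real.exp (β * J) - 1) with hρ
  have h1 : Real.exp β ≤ Real.exp (β * J) := Real.exp_le_exp.2 (by nlinarith)
  have h2 : Real.exp (β * J) ≤ Real.exp (β * J') := Real.exp_le_exp.2 (by nlinarith)
  have h4 : 0 < Real.exp (β * J) - 1 := by linarith
  have hρ1 : 1 ≤ ρ := by
    rw [hρ, le_div_iff₀ h4]
    linarith
  have hq := q0 h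
  have hvv : ∀ e : Edge D, vJ β J' e = (if OnL e then ρ else 1) * vJ β J e := by
    intro e
    unfold vJ
    split_ifs
    · rw [hρ]
      field_simp
    · rw [one_mul]
  have hvle : ∀ e : Edge D, vJ β J e ≤ vJ β J' e := by
    intro e
    unfold vJ
    split_ifs
    · linarith
    · exact le_refl _
  have hn0 := vJ_nonneg (D := D) hb.le hJ0
  have hn0' := vJ_nonneg (D := D) hb.le hJ0'
  have hz : (lat D).zz q (vJ β J) (edg Λ) ≤ (lat D).zz q (vJ β J') (edg Λ) := by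
    refine sum_le_sum fun ω _ => ?_
    unfold Gr.wt
    refine mul_le_mul_of_nonneg_right ?_ (by positivity)
    exact prod_le_prod (fun e _ => hn0 e) fun e _ => hvle e
  have hz0 := (lat D).zz_pos q (vJ β J) hq hn0 (edg Λ)
  have hs : (∑ ω ∈ (edg Λ).powerset.filter (fun ω => (lat D).Rch ω x y),
      (lat D).wt q (vJ β J') ω) ≤ ρ ^ n *
      ∑ ω ∈ (edg Λ).powerset.filter (fun ω => (lat D).Rch ω x y), (lat D).wt q (vJ β J) ω := by
    rw [mul_sum]
    refine sum_le_sum fun ω hω => ?_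
    have hωE : ω ⊆ edg Λ := mem_powerset.1 (mem_filter.1 hω).1
    unfold Gr.wt
    have e1 : ∏ e ∈ ω, vJ β J' e = ρ ^ (ω.filter fun e => OnL e).card * ∏ e ∈ ω, vJ β J e := by
      simp only [hvv, prod_mul_distrib]
      congr 1
      rw [prod_ite]
      simp
    have e2 : (ω.filter fun e => OnL e).card ≤ n :=
      (card_le_card (filter_subset_filter _ hωE)).trans (line_card hΛ)
    rw [e1]
    have e3 : ρ ^ (ω.filter fun e => OnL e).card ≤ ρ ^ n := pow_le_pow_right₀ hρ1 e2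
    have e4 : 0 ≤ (∏ e ∈ ω, vJ β J e) * q⁻¹ ^ (lat D).rk ω :=
      mul_nonneg (prod_nonneg fun e _ => hn0 e) (by positivity)
    calc ρ ^ (ω.filter fun e => OnL e).card * (∏ e ∈ ω, vJ β J e) * q⁻¹ ^ (lat D).rk ω
        = ρ ^ (ω.filter fun e => OnL e).card *
          ((∏ e ∈ ω, vJ β J e) * q⁻¹ ^ (lat D).rk ω) := by ring
      _ ≤ _ := mul_le_mul_of_nonneg_right e3 e4
  have hs0 : 0 ≤ ∑ ω ∈ (edg Λ).powerset.filter (fun ω => (lat D).Rch ω x y),
      (lat D).wt q (vJ β J) ω :=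
    sum_nonneg fun ω _ => (lat D).wt_nonneg q _ hq hn0 ω
  have hfin : TT D q β J' Λ x y ≤ (ρ ^ n *
      ∑ ω ∈ (edg Λ).powerset.filter (fun ω => (lat D).Rch ω x y), (lat D).wt q (vJ β J) ω) /
      (lat D).zz q (vJ β J) (edg Λ) := by
    unfold TT Gr.tp Gr.pr
    refine div_le_div₀ (by positivity) ?_ hz0 hz
    convert hs using 2
  refine hfin.trans (le_of_eq ?_)
  rw [mul_div_assoc]
  unfold TT Gr.tp Gr.pr
  congr!

end Rt

theorem xs_lip {D : ℕ} {q β : ℝ} (h : Bas D q β) (Jm : ℝ) :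
    ∃ C : ℝ, 0 < C ∧ ∀ J J', 1 ≤ J → J ≤ J' → J' ≤ Jm →
      xs D q β J - C * (J' - J) ≤ xs D q β J' := by
  have hv := Rt.v0 h
  have hb := h.hβ
  refine ⟨β * Real.exp (β * Jm) / (Real.exp β - 1), by positivity, ?_⟩
  intro J J' hJ hJJ hJm
  set C := β * Real.exp (β * Jm) / (Real.exp β - 1) with hC
  have hJ0 : 0 ≤ J := by linarith
  have hJ0' : 0 ≤ J' := by linarith
  have hρ := Rt.rho_le h hJ hJJ hJm
  have h1 : Real.exp β ≤ Real.exp (β * J) := Real.exp_le_exp.2 (by nlinarith)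
  have h2 : Real.exp (β * J) ≤ Real.exp (β * J') := Real.exp_le_exp.2 (by nlinarith)
  have hρ0 : 0 ≤ (Real.exp (β * J') - 1) / (Real.exp (β * J) - 1) :=
    div_nonneg (by linarith) (by linarith)
  refine le_ciInf fun n => ?_
  have s1 : sn D q β J' (n + 1) 0 0 ≤ Real.exp (C * (J' - J) * ((n : ℝ) + 1)) *
      sn D q β J (n + 1) 0 0 := by
    refine ciSup_le ?_
    rintro ⟨Λ, hΛ⟩
    refine (Rt.tt_lip h hJ hJJ (n + 1) Λ hΛ _ _).trans ?_
    refine mul_le_mul ?_ (TT_le_sn h hJ0 (n + 1) 0 0 Λ hΛ) (Rt.tt_nonneg h hJ0 _ _ _)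
      (Real.exp_pos _).le
    refine (pow_le_pow_left₀ hρ0 hρ (n + 1)).trans (le_of_eq ?_)
    rw [← Real.exp_nat_mul]
    congr 1
    push_cast
    ring
  have s2 := Real.log_le_log (Rt.sn_pos h (by linarith) (n + 1)) s1
  rw [Real.log_mul (Real.exp_pos _).ne' (Rt.sn_pos h hJ (n + 1)).ne', Real.log_exp] at s2
  have s3 := ciInf_le (Rt.xs_bdd h hJ0) n
  change xs D q β J ≤ _ at s3
  rw [le_div_iff₀ (by positivity)] at s3 ⊢
  nlinarith

end Pool.Agent.DL
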