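import Pool.Agent.DL.Pw
import Pool.Agent.DL.Rt

/-!
# The critical coupling
-/

set_option autoImplicit false
set_option linter.unusedSectionVars false

namespace Pool.Agent.DL

open Finset Filter Topology

theorem er_GG_line {D : ℕ} {q β J : ℝ} (h : Bas D q β) (hJ : 1 ≤ J) :
    (Real.exp (β * J) - 1) / (Real.exp (β * J) - 1 + q) ≤ GG D q β J 0 ((1 : ℤ), 0) := by
  have hJ0 : 0 ≤ J := by linarith
  have hq := h.hq
  set e : Edge D := ((0, 0), none) with he0
  have hv : vJ β J e = Real.exp (β * J) - 1 := by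
    unfold vJ
    rw [if_pos]
    exact ⟨rfl, rfl⟩
  have hs : (lat D).s e = (0 : Site D) := rfl
  have ht : (lat D).t e = ((1 : ℤ), 0) := by
    simp [lat, he0, SB.dir]
  set Λ : Finset (Site D) := {(lat D).s e, (lat D).t e} with hΛ
  have he : e ∈ edg Λ := by
    rw [DLS.mem_edg, hΛ, mem_insert, mem_insert, mem_singleton, mem_singleton]
    exact ⟨Or.inl rfl, Or.inr rfl⟩
  have h1 := (lat D).pr_open_ge q (vJ β J) hq (pw_vJ_nonneg h.hβ.le hJ0) (edg Λ) e he
  rw [hv] at h1
  refine h1.trans ?_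
  have h2 := TT_le_GG h hJ0 Λ ((lat D).s e) ((lat D).t e)
  rw [ht, hs] at h2
  refine le_trans ?_ h2
  refine (lat D).pr_le q _ (by linarith) (pw_vJ_nonneg h.hβ.le hJ0) _ _ _ fun ω _ hω => ?_
  have h3 := (lat D).rch_edge hω
  rw [ht, hs] at h3
  exact h3

theorem er_xiR_le {D : ℕ} {q β J : ℝ} (h : Bas D q β) (hJ : 1 ≤ J) :
    xiR D q β J ≤ Real.log (1 + q / (Real.exp (β * J) - 1)) := by
  have hv0 : 0 < Real.exp (β * J) - 1 :=
    sub_pos.2 (Real.one_lt_exp_iff.2 (mul_pos h.hβ (by linarith)))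
  have hq := h.hq
  have h1 := er_GG_line h hJ
  refine (ciInf_le (pw_xi_bdd h hJ) 0).trans ?_
  simp only [Nat.cast_zero, zero_add, div_one]
  rw [show 1 + q / (Real.exp (β * J) - 1) =
    ((Real.exp (β * J) - 1) / (Real.exp (β * J) - 1 + q))⁻¹ by
      rw [inv_div]; field_simp, Real.log_inv]
  exact neg_le_neg (Real.log_le_log (div_pos hv0 (by linarith)) h1)

/-- The rate tends to `0` for large coupling. -/
theorem er_small {D : ℕ} {q β : ℝ} (h : Bas D q β) (x : ℝ) (hx : 0 < x) :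
    ∃ J : ℝ, 1 ≤ J ∧ xiR D q β J < x := by
  have hβ := h.hβ
  have hq := h.hq
  have h1 : 0 < Real.exp x - 1 := sub_pos.2 (Real.one_lt_exp_iff.2 hx)
  -- choose `J` with `exp (β J) - 1 > q / (exp x - 1)`
  set y : ℝ := q / (Real.exp x - 1) with hy
  have hy0 : 0 < y := div_pos (by linarith) h1
  refine ⟨1 + (y + 1) / β, ?_, ?_⟩
  · have : 0 ≤ (y + 1) / β := by positivity
    linarith
  · have hJ : (1 : ℝ) ≤ 1 + (y + 1) / β := by
      have : 0 ≤ (y + 1) / β := by positivity
      linarith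
    refine (er_xiR_le h hJ).trans_lt ?_
    have h2 : y < Real.exp (β * (1 + (y + 1) / β)) - 1 := by
      have h3 : β * (1 + (y + 1) / β) = β + (y + 1) := by field_simp
      have h4 := Real.add_one_le_exp (β + (y + 1))
      rw [h3]
      linarith
    have h3 : q / (Real.exp (β * (1 + (y + 1) / β)) - 1) < Real.exp x - 1 := by
      rw [div_lt_iff₀ (by linarith)]
      have h4 : q = y * (Real.exp x - 1) := by
        rw [hy]; field_simp
      calc q = y * (Real.exp x - 1) := h4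
        _ < (Real.exp (β * (1 + (y + 1) / β)) - 1) * (Real.exp x - 1) :=
          mul_lt_mul_of_pos_right h2 h1
        _ = _ := mul_comm _ _
    have h4 : 0 < q / (Real.exp (β * (1 + (y + 1) / β)) - 1) := div_pos (by linarith) (by linarith)
    rw [Real.log_lt_iff_lt_exp (by linarith)]
    linarith

theorem reg_exists {D : ℕ} {q β : ℝ} (h : Bas D q β) :
    ∃ Jc J1 C : ℝ, 1 ≤ Jc ∧ Jc < J1 ∧ Reg D q β J1 ∧ 0 < C ∧
      (∀ J, 1 ≤ J → J ≤ Jc → xiR D q β J = xiR D q β 1) ∧
      (∀ J, Jc < J → xiR D q β J < xiR D q β 1) ∧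
      ∀ J J', 1 ≤ J → J ≤ J' → J' ≤ J1 → xiR D q β J - xiR D q β J' ≤ C * (J' - J) := by
  set ξ : ℝ := xiR D q β 1 with hξ
  have hξ0 : 0 < ξ := xiR_one_pos h
  obtain ⟨J2, hJ2, hJ2'⟩ := er_small h ξ hξ0
  set S : Set ℝ := {J | 1 ≤ J ∧ xiR D q β J = ξ} with hS
  have h1S : (1 : ℝ) ∈ S := ⟨le_rfl, rfl⟩
  have hbdd : BddAbove S := by
    refine ⟨J2, ?_⟩
    rintro J ⟨hJ, hJe⟩
    by_contra hcon
    push Not at hcon
    have := xiR_anti h hJ2 hcon.le
    linarith
  set Jc : ℝ := sSup S with hJc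
  have hJc1 : 1 ≤ Jc := le_csSup hbdd h1S
  have habove : ∀ J, Jc < J → xiR D q β J < ξ := by
    intro J hJ
    have hJ1 : 1 ≤ J := by linarith
    refine lt_of_le_of_ne (xiR_anti h le_rfl hJ1) ?_
    intro hcon
    have : J ≤ Jc := le_csSup hbdd ⟨hJ1, hcon⟩
    linarith
  have hbelow : ∀ J, 1 ≤ J → J < Jc → xiR D q β J = ξ := by
    intro J hJ hJc'
    obtain ⟨J', hJ', hlt⟩ := exists_lt_of_lt_csSup ⟨1, h1S⟩ hJc'
    have h2 := xiR_anti h hJ hlt.le
    have h3 := xiR_anti h le_rfl hJ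
    rw [hJ'.2] at h2
    exact le_antisymm h3 h2
  obtain ⟨C, hC, hlip⟩ := xs_lip h (Jc + 1)
  -- the slab rate below the critical coupling
  have hxs : ∀ J, 1 ≤ J → J < Jc → xs D q β J = ξ := by
    intro J hJ hJc'
    have h2 := xiR_le_xs h hJ
    rw [hbelow J hJ hJc'] at h2
    rw [xs_eq h hJ (by linarith), hbelow J hJ hJc']
  have hxs1 : xs D q β 1 = ξ := by
    have h2 := xiR_le_xs h (le_refl (1 : ℝ))
    exact xs_eq h le_rfl (by linarith)
  have hxsc : ξ ≤ xs D q β Jc := by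
    rcases hJc1.eq_or_lt with h2 | h2
    · rw [← h2, hxs1]
    · refine le_of_forall_pos_le_add fun ε hε => ?_
      set J := max 1 (Jc - ε / C) with hJdef
      have h3 : 1 ≤ J := le_max_left _ _
      have h4 : J < Jc := max_lt h2 (by have : 0 < ε / C := by positivity
                                        linarith)
      have h5 := hlip J Jc h3 h4.le (by linarith)
      rw [hxs J h3 h4] at h5
      have h6 : Jc - J ≤ ε / C := by
        have := le_max_right (1 : ℝ) (Jc - ε / C)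
        linarith
      have h7 : C * (Jc - J) ≤ ε := by
        calc C * (Jc - J) ≤ C * (ε / C) := mul_le_mul_of_nonneg_left h6 hC.le
          _ = ε := by field_simp
      linarith
  have hxc : xiR D q β Jc = ξ := by
    have h2 := xs_eq h hJc1 (by linarith)
    have h3 := xiR_anti h le_rfl hJc1
    linarith
  have hle : ∀ J, 1 ≤ J → J ≤ Jc → xiR D q β J = ξ := by
    intro J hJ hJ'
    rcases hJ'.eq_or_lt with h2 | h2
    · rw [h2, hxc]
    · exact hbelow J hJ h2
  set J1 : ℝ := Jc + min 1 (ξ / (2 * C)) with hJ1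
  have hmin : 0 < min 1 (ξ / (2 * C)) := lt_min one_pos (by positivity)
  have hpos : ∀ J, 1 ≤ J → J ≤ J1 → ξ / 2 ≤ xs D q β J := by
    intro J hJ hJ'
    rcases le_or_gt J Jc with h2 | h2
    · rcases h2.eq_or_lt with h3 | h3
      · rw [h3]; linarith
      · rw [hxs J hJ h3]; linarith
    · have h3 := hlip Jc J hJc1 h2.le (by
        have := min_le_left (1 : ℝ) (ξ / (2 * C))
        linarith)
      have h4 : J - Jc ≤ ξ / (2 * C) := by
        have := min_le_right (1 : ℝ) (ξ / (2 * C))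
        linarith
      have h5 : C * (J - Jc) ≤ ξ / 2 := by
        calc C * (J - Jc) ≤ C * (ξ / (2 * C)) := mul_le_mul_of_nonneg_left h4 hC.le
          _ = ξ / 2 := by field_simp
      linarith
  have heq : ∀ J, 1 ≤ J → J ≤ J1 → xs D q β J = xiR D q β J := by
    intro J hJ hJ'
    have := hpos J hJ hJ'
    exact xs_eq h hJ (by linarith)
  refine ⟨Jc, J1, C, hJc1, by linarith, ?_, hC, hle, habove, ?_⟩
  · refine { toBas := h, hJ := by linarith, xi := ⟨ξ / 2, by positivity, ?_⟩ }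
    intro J hJ hJ'
    have := hpos J hJ hJ'
    rw [heq J hJ hJ'] at this
    exact this
  · intro J J' hJ hJJ hJ'
    have h2 := hlip J J' hJ hJJ (by
      have := min_le_left (1 : ℝ) (ξ / (2 * C))
      linarith)
    rw [heq J hJ (hJJ.trans hJ'), heq J' (hJ.trans hJJ) hJ'] at h2
    linarith

end Pool.Agent.DL
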