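import Pool.Agent.DL.Rn3
import Pool.Agent.DL.Fl
import Pool.Agent.DL.Gs
import Pool.Agent.DL.ExK
import Pool.Agent.DL.Shi
import Pool.Agent.DL.Pw

/-!
# Divergence beyond the critical value
-/

set_option autoImplicit false
set_option linter.unusedSectionVars false

namespace Pool.Agent.DL

open Finset
open scoped ENNReal

namespace Rn5

variable {D : ℕ} {q β : ℝ}

theorem reg (h : Bas D q β) : Reg D q β 1 where
  toBas := h
  hJ := le_rfl
  xi := ⟨xiR D q β 1, xiR_one_pos h, fun J h1 h2 => by rw [le_antisymm h2 h1]⟩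

theorem jok (δ : ℝ) (hδ : 0 < δ) : Jok D q β 1 δ 1 where
  h1 := le_rfl
  h2 := le_rfl
  h3 := by linarith

theorem a_pos (h : Bas D q β) : 0 < (Real.exp β - 1) / q :=
  div_pos (sub_pos.2 (Real.one_lt_exp_iff.2 h.hβ)) (lt_of_lt_of_le one_pos h.hq)

/-- The confined generating function is bounded by the total sum. -/
theorem ST_le (h : Bas D q β) (z : ℝ≥0∞) (L : ℕ) (y y' : Tv D) :
    ENNReal.ofReal ((Real.exp β - 1) / q) * z * ST D q β 1 z L y y' ≤
      ∑' n : ℕ, ∑' x, z ^ n * tC D q β n x := by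
  have h1 : ∀ n, ENNReal.ofReal ((Real.exp β - 1) / q) * z * (z ^ n * TN D q β 1 n y y') ≤
      ∑' x, z ^ (n + 1) * tC D q β (n + 1) x := by
    intro n
    have h2 : TN D q β 1 n y y' = TN D q β 1 n 0 (y' - y) := by
      have h3 := TN_trans (D := D) (q := q) (β := β) n 0 (y' - y) y
      rw [zero_add, sub_add_cancel] at h3
      exact h3
    have h4 : ENNReal.ofReal ((Real.exp β - 1) / q) * z * (z ^ n * TN D q β 1 n y y') =
        z ^ (n + 1) * tC D q β (n + 1) (y' - y) := by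
      rw [tC_eq h, h2, pow_succ]
      ring
    rw [h4]
    exact ENNReal.le_tsum (f := fun x => z ^ (n + 1) * tC D q β (n + 1) x) (y' - y)
  unfold ST
  rw [mul_sum]
  refine (Finset.sum_le_sum fun n _ => h1 n).trans ?_
  have h5 : ∑ n ∈ range (L + 1), ∑' x, z ^ (n + 1) * tC D q β (n + 1) x =
      ∑ n ∈ (range (L + 1)).map ⟨Nat.succ, Nat.succ_injective⟩, ∑' x, z ^ n * tC D q β n x := by
    rw [sum_map]
    rfl
  rw [h5]
  exact ENNReal.sum_le_tsum _

theorem mul_exp_large (B : ℝ) {ε : ℝ} (hε : 0 < ε) : ∀ᶠ n : ℕ in Filter.atTop,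
    B < Real.exp (ε * n) := by
  have h1 : Filter.Tendsto (fun n : ℕ => ε * (n : ℝ)) Filter.atTop Filter.atTop :=
    Filter.Tendsto.const_mul_atTop hε tendsto_natCast_atTop_atTop
  exact (Real.tendsto_exp_atTop.comp h1).eventually_gt_atTop B

end Rn5

open Rn5

theorem tC_div {D : ℕ} {q β : ℝ} (h : Bas D q β) (z : ℝ) (hz : Real.exp (xiR D q β 1) < z) :
    ∑' n : ℕ, ∑' x, ENNReal.ofReal z ^ n * tC D q β n x = ⊤ := by
  by_contra hfin
  have hr := reg h
  obtain ⟨δ, C, c, hδ, hC, hc, hfl⟩ := first_last hr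
  set ξ := xiR D q β 1 with hξ
  set z' : ℝ := min z (Real.exp (ξ + δ)) with hz'
  have hz1 : Real.exp ξ < z' := lt_min hz (Real.exp_lt_exp.2 (by linarith))
  have hz2 : z' ≤ Real.exp (ξ + δ) := min_le_right _ _
  have hz3 : z' ≤ z := min_le_left _ _
  have hz0 : 0 < z' := (Real.exp_pos ξ).trans hz1
  have hK : ∑' n : ℕ, ∑' x, ENNReal.ofReal z' ^ n * tC D q β n x ≠ ⊤ := by
    refine ne_top_of_le_ne_top hfin ?_
    refine ENNReal.tsum_le_tsum fun n => ENNReal.tsum_le_tsum fun x => ?_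
    gcongr
  set K := ∑' n : ℕ, ∑' x, ENNReal.ofReal z' ^ n * tC D q β n x with hKd
  set a := ENNReal.ofReal ((Real.exp β - 1) / q) * ENNReal.ofReal z' with ha
  have ha0 : a ≠ 0 := by
    rw [ha]
    exact mul_ne_zero (ENNReal.ofReal_pos.2 (a_pos h)).ne' (ENNReal.ofReal_pos.2 hz0).ne'
  have hat : a ≠ ⊤ := ENNReal.mul_ne_top ENNReal.ofReal_ne_top ENNReal.ofReal_ne_top
  have hST : ∀ (L : ℕ) (y y' : Tv D), ST D q β 1 (ENNReal.ofReal z') L y y' ≤ K / a := by
    intro L y y'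
    rw [ENNReal.le_div_iff_mul_le (Or.inl ha0) (Or.inl hat), mul_comm]
    exact ST_le h _ L y y'
  have hKa : K / a ≠ ⊤ := ENNReal.div_ne_top hK ha0
  set E := ∑' y : Tv D, ex c (SB.nt y) with hE
  have hEt : E ≠ ⊤ := tsum_ex_ne_top hc
  set B : ℝ≥0∞ := ENNReal.ofReal C * (1 + E * (K / a * E)) with hB
  have hBt : B ≠ ⊤ :=
    ENNReal.mul_ne_top ENNReal.ofReal_ne_top (ENNReal.add_ne_top.2 ⟨ENNReal.one_ne_top,
      ENNReal.mul_ne_top hEt (ENNReal.mul_ne_top hKa hEt)⟩)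
  have hSG : ∀ L : ℕ, SG D q β 1 (ENNReal.ofReal z') L 0 0 ≤ B := by
    intro L
    refine (hfl 1 (jok δ hδ) (ENNReal.ofReal z') (ENNReal.ofReal_le_ofReal hz2) L 0 0).trans ?_
    rw [hB]
    gcongr
    · rw [sub_self, nt_zero', Nat.cast_zero, ex_zero]
    · calc ∑' y, ∑' y', ex c (SB.nt (0 - y)) * ST D q β 1 (ENNReal.ofReal z') L y y' *
            ex c (SB.nt (y' - 0))
          ≤ ∑' y : Tv D, ∑' y' : Tv D, ex c (SB.nt (0 - y)) * (K / a * ex c (SB.nt (y' - 0))) := by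
            refine ENNReal.tsum_le_tsum fun y => ENNReal.tsum_le_tsum fun y' => ?_
            rw [mul_assoc]
            gcongr
            exact hST L y y'
        _ = E * (K / a * E) := by
            have h1 : ∀ y : Tv D, ∑' y' : Tv D, ex c (SB.nt (0 - y)) *
                (K / a * ex c (SB.nt (y' - 0))) = ex c (SB.nt (0 - y)) * (K / a * E) := by
              intro y
              rw [ENNReal.tsum_mul_left, ENNReal.tsum_mul_left,
                tsum_sub_right (fun y : Tv D => ex c (SB.nt y)) 0]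
            rw [tsum_congr h1, ENNReal.tsum_mul_right,
              tsum_sub_left (fun y : Tv D => ex c (SB.nt y)) 0]
  have hGN : ∀ n : ℕ, ENNReal.ofReal z' ^ n * GN D q β 1 n 0 0 ≤ B := by
    intro n
    refine le_trans ?_ (hSG n)
    unfold SG
    exact Finset.single_le_sum (f := fun n => ENNReal.ofReal z' ^ n * GN D q β 1 n 0 0)
      (fun _ _ => zero_le) (mem_range.2 (Nat.lt_succ_self n))
  have hlog : 0 < (Real.log z' - ξ) / 2 := by
    have h1 : ξ < Real.log z' := (Real.lt_log_iff_exp_lt hz0).2 hz1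
    linarith
  set ε := (Real.log z' - ξ) / 2 with hε
  have ht := tendsto_xiR h (le_refl (1 : ℝ))
  have h1 : ∀ᶠ n : ℕ in Filter.atTop, -Real.log (GG D q β 1 0 ((n : ℤ), 0)) / n < ξ + ε :=
    ht.eventually (gt_mem_nhds (by linarith))
  obtain ⟨n, ⟨hn1, hn2⟩, hn3⟩ := ((h1.and (Filter.eventually_ge_atTop 1)).and
    (mul_exp_large B.toReal hlog)).exists
  have hn0 : (0 : ℝ) < n := by exact_mod_cast hn2
  have hGG : 0 < GG D q β 1 0 ((n : ℤ), 0) := pw_GG_pos h le_rfl _ _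
  have h2 : Real.exp (-((ξ + ε) * n)) ≤ GG D q β 1 0 ((n : ℤ), 0) := by
    rw [div_lt_iff₀ hn0] at hn1
    rw [← Real.le_log_iff_exp_le hGG]
    linarith
  have h3 : Real.exp (ε * n) ≤ z' ^ n * GG D q β 1 0 ((n : ℤ), 0) := by
    have h4 : z' ^ n = Real.exp (Real.log z' * n) := by
      rw [mul_comm, Real.exp_nat_mul, Real.exp_log hz0]
    rw [h4]
    refine le_trans (le_of_eq ?_) (mul_le_mul_of_nonneg_left h2 (Real.exp_pos _).le)
    rw [← Real.exp_add]
    refine congrArg _ ?_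
    rw [hε]
    ring
  have h5 := hGN n
  have h6 : GN D q β 1 n 0 0 = ENNReal.ofReal (GG D q β 1 0 ((n : ℤ), 0)) :=
    GN_eq hr 1 le_rfl le_rfl n 0 0
  rw [h6, ← ENNReal.ofReal_pow hz0.le, ← ENNReal.ofReal_mul (by positivity)] at h5
  have h7 : z' ^ n * GG D q β 1 0 ((n : ℤ), 0) ≤ B.toReal :=
    (ENNReal.ofReal_le_iff_le_toReal hBt).1 h5
  linarith

end Pool.Agent.DL
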