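import Pool.Agent.DL.Defs3
import Pool.Agent.DL.AnS
import Pool.Agent.DL.ConE

/-!
# Abstract analysis of the renewal equation (row RN6)
-/

set_option autoImplicit false
set_option linter.unusedSectionVars false

namespace Pool.Agent.DL

open Finset
open scoped ENNReal

namespace Rn6

/-- Cauchy products in the extended non-negative reals. -/
theorem tsum_ico (f : ℕ → ℕ → ℝ≥0∞) (h0 : ∀ m, f 0 m = 0) (h1 : ∀ k, f k 0 = 0) :
    ∑' n, ∑ k ∈ Ico 1 n, f k (n - k) = ∑' k, ∑' m, f k m := by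
  have h2 : ∀ n, ∑ k ∈ Ico 1 n, f k (n - k) = ∑' k, if k ≤ n then f k (n - k) else 0 := by
    intro n
    rw [tsum_eq_sum (s := range (n + 1))]
    · rw [Finset.sum_congr rfl (fun k hk => if_pos (Nat.lt_succ_iff.1 (mem_range.1 hk)))]
      refine Finset.sum_subset ?_ ?_
      · intro k hk
        rw [mem_Ico] at hk
        rw [mem_range]
        omega
      · intro k hk hk'
        rw [mem_range] at hk
        rw [mem_Ico] at hk'
        by_cases hk0 : k = 0
        · rw [hk0, h0]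
        · have : n - k = 0 := by omega
          rw [this, h1]
    · intro k hk
      rw [mem_range] at hk
      rw [if_neg (by omega)]
  simp only [h2]
  rw [ENNReal.tsum_comm]
  refine tsum_congr (fun k => ?_)
  have hinj : Function.Injective (fun m : ℕ => m + k) := fun a b h => Nat.add_right_cancel h
  have h3 := hinj.tsum_eq (f := fun n => if k ≤ n then f k (n - k) else 0) (by
    intro n hn
    by_cases hk : k ≤ n
    · exact ⟨n - k, Nat.sub_add_cancel hk⟩
    · exact absurd (if_neg hk) hn)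
  rw [← h3]
  refine tsum_congr (fun m => ?_)
  rw [if_pos (Nat.le_add_left k m), Nat.add_sub_cancel]

variable {D : ℕ}

/-- The generating function. -/
noncomputable def gz (f : ℕ → Tv D → ℝ≥0∞) (z : ℝ≥0∞) (x : Tv D) : ℝ≥0∞ :=
  ∑' n : ℕ, z ^ n * f n x

/-- The total mass of the generating function. -/
noncomputable def Mz (f : ℕ → Tv D → ℝ≥0∞) (z : ℝ≥0∞) : ℝ≥0∞ := ∑' x, gz f z x

theorem Mz_eq (f : ℕ → Tv D → ℝ≥0∞) (z : ℝ≥0∞) : Mz f z = ∑' n : ℕ, z ^ n * ∑' x, f n x := by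
  unfold Mz gz
  rw [ENNReal.tsum_comm]
  refine tsum_congr (fun n => ?_)
  rw [ENNReal.tsum_mul_left]

theorem gz_conv (b t : ℕ → Tv D → ℝ≥0∞) (hb0 : ∀ x, b 0 x = 0) (ht0 : ∀ x, t 0 x = 0)
    (z : ℝ≥0∞) (x : Tv D) :
    ∑' n : ℕ, z ^ n * ∑ k ∈ Ico 1 n, ∑' y, b k y * t (n - k) (x - y) =
      ∑' y, gz b z y * gz t z (x - y) := by
  have h1 : ∀ n : ℕ, z ^ n * ∑ k ∈ Ico 1 n, ∑' y, b k y * t (n - k) (x - y) =
      ∑ k ∈ Ico 1 n, (fun k m => ∑' y, (z ^ k * b k y) * (z ^ m * t m (x - y))) k (n - k) := by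
    intro n
    rw [Finset.mul_sum]
    refine Finset.sum_congr rfl (fun k hk => ?_)
    rw [mem_Ico] at hk
    rw [← ENNReal.tsum_mul_left]
    refine tsum_congr (fun y => ?_)
    have h2 : z ^ n = z ^ k * z ^ (n - k) := by
      rw [← pow_add, Nat.add_sub_cancel' hk.2.le]
    rw [h2]
    ring
  rw [tsum_congr h1, tsum_ico (fun k m => ∑' y, (z ^ k * b k y) * (z ^ m * t m (x - y)))]
  · have h3 : ∀ k, ∑' m, ∑' y, (z ^ k * b k y) * (z ^ m * t m (x - y)) =
        ∑' y, (z ^ k * b k y) * gz t z (x - y) := by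
      intro k
      rw [ENNReal.tsum_comm]
      refine tsum_congr (fun y => ?_)
      rw [ENNReal.tsum_mul_left]
      rfl
    rw [tsum_congr h3, ENNReal.tsum_comm]
    refine tsum_congr (fun y => ?_)
    rw [ENNReal.tsum_mul_right]
    rfl
  · intro m
    simp [hb0]
  · intro k
    simp [ht0]

theorem gz_ren (b t : ℕ → Tv D → ℝ≥0∞) (hb0 : ∀ x, b 0 x = 0) (ht0 : ∀ x, t 0 x = 0)
    (hren : ∀ n x, t n x = b n x + ∑ k ∈ Finset.Ico 1 n, ∑' y, b k y * t (n - k) (x - y))
    (z : ℝ≥0∞) (x : Tv D) : gz t z x = gz b z x + ∑' y, gz b z y * gz t z (x - y) := by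
  rw [← gz_conv b t hb0 ht0]
  unfold gz
  rw [← ENNReal.tsum_add]
  refine tsum_congr (fun n => ?_)
  rw [← mul_add, ← hren]

theorem gz_ren_le (b t : ℕ → Tv D → ℝ≥0∞) (hb0 : ∀ x, b 0 x = 0) (ht0 : ∀ x, t 0 x = 0)
    (hren : ∀ n x, t n x ≤ b n x + ∑ k ∈ Finset.Ico 1 n, ∑' y, b k y * t (n - k) (x - y))
    (z : ℝ≥0∞) (x : Tv D) : gz t z x ≤ gz b z x + ∑' y, gz b z y * gz t z (x - y) := by
  rw [← gz_conv b t hb0 ht0]
  unfold gz
  rw [← ENNReal.tsum_add]
  refine ENNReal.tsum_le_tsum (fun n => ?_)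
  rw [← mul_add]
  gcongr
  exact hren n x

theorem tsum_conv (f g : Tv D → ℝ≥0∞) :
    ∑' x, ∑' y, f y * g (x - y) = (∑' y, f y) * ∑' x, g x := by
  rw [ENNReal.tsum_comm]
  have h1 : ∀ y, ∑' x, f y * g (x - y) = f y * ∑' x, g x := by
    intro y
    rw [ENNReal.tsum_mul_left]
    congr 1
    exact (Equiv.subRight y).tsum_eq g
  rw [tsum_congr h1, ENNReal.tsum_mul_right]

theorem Mz_ren (b t : ℕ → Tv D → ℝ≥0∞) (hb0 : ∀ x, b 0 x = 0) (ht0 : ∀ x, t 0 x = 0)
    (hren : ∀ n x, t n x = b n x + ∑ k ∈ Finset.Ico 1 n, ∑' y, b k y * t (n - k) (x - y))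
    (z : ℝ≥0∞) : Mz t z = Mz b z + Mz b z * Mz t z := by
  have h1 : Mz t z = ∑' x, (gz b z x + ∑' y, gz b z y * gz t z (x - y)) :=
    tsum_congr (fun x => gz_ren b t hb0 ht0 hren z x)
  rw [ENNReal.tsum_add, tsum_conv] at h1
  exact h1

theorem Mz_ren_le (b t : ℕ → Tv D → ℝ≥0∞) (hb0 : ∀ x, b 0 x = 0) (ht0 : ∀ x, t 0 x = 0)
    (hren : ∀ n x, t n x ≤ b n x + ∑ k ∈ Finset.Ico 1 n, ∑' y, b k y * t (n - k) (x - y))
    (z : ℝ≥0∞) : Mz t z ≤ Mz b z + Mz b z * Mz t z := by
  have h1 : Mz t z ≤ ∑' x, (gz b z x + ∑' y, gz b z y * gz t z (x - y)) :=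
    ENNReal.tsum_le_tsum (fun x => gz_ren_le b t hb0 ht0 hren z x)
  rw [ENNReal.tsum_add, tsum_conv] at h1
  exact h1

theorem le_of_self {a m : ℝ≥0∞} (ha : a ≠ ⊤) (hm : m < 1) (h : a ≤ m + m * a) :
    a ≤ m / (1 - m) := by
  have hm' : m ≠ ⊤ := ne_top_of_lt hm
  lift a to NNReal using ha
  lift m to NNReal using hm'
  have hm1 : m < 1 := by exact_mod_cast hm
  have h1 : (a : ℝ) ≤ m + m * a := by exact_mod_cast h
  have h2 : (0 : ℝ) < 1 - m := by
    have : (m : ℝ) < 1 := by exact_mod_cast hm1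
    linarith
  rw [ENNReal.le_div_iff_mul_le (Or.inl ?_) (Or.inl ?_)]
  · have h3 : ((1 : ℝ≥0∞) - m) = ((1 - m : NNReal) : ℝ≥0∞) := by
      rw [ENNReal.coe_sub, ENNReal.coe_one]
    rw [h3]
    have h4 : (a * (1 - m) : NNReal) ≤ m := by
      rw [← NNReal.coe_le_coe, NNReal.coe_mul, NNReal.coe_sub hm1.le, NNReal.coe_one]
      nlinarith
    exact_mod_cast h4
  · have : (m : ℝ≥0∞) < 1 := by exact_mod_cast hm1
    exact (tsub_pos_of_lt this).ne'
  · exact ne_top_of_le_ne_top ENNReal.one_ne_top tsub_le_self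

/-- If the mass of `b` is smaller than one then the mass of `t` is finite. -/
theorem Mz_lt (b t : ℕ → Tv D → ℝ≥0∞) (hb0 : ∀ x, b 0 x = 0) (ht0 : ∀ x, t 0 x = 0)
    (hren : ∀ n x, t n x = b n x + ∑ k ∈ Finset.Ico 1 n, ∑' y, b k y * t (n - k) (x - y))
    (hfin : ∀ n, ∑' x, t n x ≠ ⊤) (z : ℝ≥0∞) (hz : z ≠ ⊤) (hm : Mz b z < 1) :
    Mz t z ≤ Mz b z / (1 - Mz b z) := by
  rw [Mz_eq]
  refine ENNReal.tsum_le_of_sum_range_le (fun N => ?_)
  set tN : ℕ → Tv D → ℝ≥0∞ := fun n x => if n < N then t n x else 0 with htN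
  have h1 : ∀ n, ∑' x, tN n x = if n < N then ∑' x, t n x else 0 := by
    intro n
    by_cases hn : n < N
    · simp only [htN, if_pos hn]
    · simp only [htN, if_neg hn, tsum_zero]
  have h2 : Mz tN z = ∑ n ∈ range N, z ^ n * ∑' x, t n x := by
    rw [Mz_eq, tsum_eq_sum (s := range N)]
    · refine Finset.sum_congr rfl (fun n hn => ?_)
      rw [h1, if_pos (mem_range.1 hn)]
    · intro n hn
      rw [h1, if_neg (fun h => hn (mem_range.2 h)), mul_zero]
  rw [← h2]
  refine le_of_self ?_ hm ?_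
  · rw [h2]
    refine ENNReal.sum_ne_top.2 (fun n _ => ?_)
    exact ENNReal.mul_ne_top (ENNReal.pow_ne_top hz) (hfin n)
  · refine Mz_ren_le b tN hb0 ?_ ?_ z
    · intro x
      simp only [htN]
      split_ifs
      · exact ht0 x
      · rfl
    · intro n x
      by_cases hn : n < N
      · simp only [htN, if_pos hn]
        rw [hren n x]
        gcongr with k hk y
        rw [mem_Ico] at hk
        rw [if_pos (by omega)]
      · simp only [htN, if_neg hn]
        exact bot_le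

/-- Symmetry of the kernel. -/
theorem b_symm (b t : ℕ → Tv D → ℝ≥0∞)
    (hren : ∀ n x, t n x = b n x + ∑ k ∈ Finset.Ico 1 n, ∑' y, b k y * t (n - k) (x - y))
    (hsym : ∀ n x, t n (-x) = t n x) (hfin : ∀ n x, t n x ≠ ⊤) (n : ℕ) :
    ∀ x, b n (-x) = b n x := by
  induction n using Nat.strong_induction_on with
  | _ n ih =>
    intro x
    have h1 : ∑ k ∈ Finset.Ico 1 n, ∑' y, b k y * t (n - k) (-x - y) =
        ∑ k ∈ Finset.Ico 1 n, ∑' y, b k y * t (n - k) (x - y) := by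
      refine Finset.sum_congr rfl (fun k hk => ?_)
      rw [mem_Ico] at hk
      rw [← (Equiv.neg (Tv D)).tsum_eq (fun y => b k y * t (n - k) (-x - y))]
      refine tsum_congr (fun y => ?_)
      simp only [Equiv.neg_apply]
      rw [ih k hk.2, show -x - -y = -(x - y) by abel, hsym]
    have h2 := hren n (-x)
    rw [hsym, hren n x, h1] at h2
    have h3 : ∑ k ∈ Finset.Ico 1 n, ∑' y, b k y * t (n - k) (x - y) ≠ ⊤ := by
      intro h
      have := hren n x
      rw [h, add_top] at this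
      exact hfin n x this
    exact ((ENNReal.add_left_inj h3).1 h2).symm

/-! ### The total mass as a power series -/

theorem pow_sub_le {z w : ℝ} (hz : 0 ≤ z) (hzw : z ≤ w) (n : ℕ) :
    w * (w ^ n - z ^ n) ≤ n * w ^ n * (w - z) := by
  have hw : 0 ≤ w := hz.trans hzw
  induction n with
  | zero => simp
  | succ n ih =>
    have h1 : z ^ n ≤ w ^ n := pow_le_pow_left₀ hz hzw n
    have h2 : w * (w ^ (n + 1) - z ^ (n + 1)) =
        w * (w * (w ^ n - z ^ n)) + w * (z ^ n * (w - z)) := by ring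
    rw [h2]
    have h3 : w * (w * (w ^ n - z ^ n)) ≤ w * (n * w ^ n * (w - z)) :=
      mul_le_mul_of_nonneg_left ih hw
    have h4 : w * (z ^ n * (w - z)) ≤ w * (w ^ n * (w - z)) :=
      mul_le_mul_of_nonneg_left (mul_le_mul_of_nonneg_right h1 (by linarith)) hw
    push_cast
    have h5 : ((n : ℝ) + 1) * w ^ (n + 1) * (w - z) =
        w * (n * w ^ n * (w - z)) + w * (w ^ n * (w - z)) := by ring
    linarith

theorem ps_summable {β : ℕ → ℝ} {A r w : ℝ} (hr : 0 < r) (hβ : ∀ n, 0 ≤ β n)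
    (hA : ∀ n, β n * r ^ n ≤ A) (hw : 0 ≤ w) (hwr : w < r) :
    Summable (fun n : ℕ => β n * w ^ n) ∧ Summable (fun n : ℕ => (n : ℝ) * (β n * w ^ n)) := by
  have hq0 : 0 ≤ w / r := div_nonneg hw hr.le
  have hq1 : w / r < 1 := (div_lt_one hr).2 hwr
  have hb : ∀ n : ℕ, β n * w ^ n ≤ A * (w / r) ^ n := by
    intro n
    have h1 : β n * w ^ n = β n * r ^ n * (w / r) ^ n := by
      rw [div_pow, mul_assoc, mul_div_cancel₀]
      exact (pow_pos hr n).ne'
    rw [h1]
    exact mul_le_mul_of_nonneg_right (hA n) (pow_nonneg hq0 n)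
  have hn : ∀ n : ℕ, 0 ≤ β n * w ^ n := fun n => mul_nonneg (hβ n) (pow_nonneg hw n)
  constructor
  · exact Summable.of_nonneg_of_le hn hb ((summable_geometric_of_lt_one hq0 hq1).mul_left A)
  · have h2 : Summable (fun n : ℕ => A * ((n : ℝ) ^ 1 * (w / r) ^ n)) := by
      refine Summable.mul_left A ?_
      exact summable_pow_mul_geometric_of_norm_lt_one 1 (by rwa [Real.norm_of_nonneg hq0])
    refine Summable.of_nonneg_of_le (fun n => mul_nonneg (Nat.cast_nonneg n) (hn n)) ?_ h2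
    intro n
    rw [pow_one]
    have := mul_le_mul_of_nonneg_left (hb n) (Nat.cast_nonneg (α := ℝ) n)
    linarith

/-- The mass is Lipschitz and strictly increasing. -/
theorem ps_mass {β : ℕ → ℝ} {A r E : ℝ} (hE : 0 < E) (hEr : E < r) (hβ : ∀ n, 0 ≤ β n)
    (hA : ∀ n, β n * r ^ n ≤ A) (h1 : ∀ z, 0 < z → z < E → ∑' n, β n * z ^ n < 1)
    (h2 : ∀ z, E < z → z < r → 1 ≤ ∑' n, β n * z ^ n) :
    ∃ K : ℝ, 0 < K ∧ ∀ z, 0 < z → z < E → β 1 * (E - z) ≤ 1 - ∑' n, β n * z ^ n ∧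
      1 - ∑' n, β n * z ^ n ≤ K * (E - z) := by
  have hr : 0 < r := hE.trans hEr
  set w0 : ℝ := (E + r) / 2 with hw0
  have hEw : E < w0 := by rw [hw0]; linarith
  have hwr : w0 < r := by rw [hw0]; linarith
  have hw00 : 0 < w0 := hE.trans hEw
  set S : ℝ := ∑' n : ℕ, (n : ℝ) * (β n * w0 ^ n) with hS
  have hS0 : 0 ≤ S := tsum_nonneg (fun n => mul_nonneg (Nat.cast_nonneg n)
    (mul_nonneg (hβ n) (pow_nonneg hw00.le n)))
  have hdiff : ∀ z w : ℝ, 0 < z → z ≤ w → E ≤ w → w ≤ w0 →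
      ∑' n, β n * w ^ n - ∑' n, β n * z ^ n ≤ (S / E) * (w - z) := by
    intro z w hz hzw hEw' hww
    have hw : 0 < w := hE.trans_le hEw'
    have hsw := (ps_summable hr hβ hA hw.le (hww.trans_lt hwr)).1
    have hsz := (ps_summable hr hβ hA hz.le ((hzw.trans hww).trans_lt hwr)).1
    have hsn := (ps_summable hr hβ hA hw00.le hwr).2
    rw [← hsw.tsum_sub hsz]
    have h3 : ∑' n : ℕ, (β n * w ^ n - β n * z ^ n) ≤
        ∑' n : ℕ, ((n : ℝ) * (β n * w0 ^ n)) * ((w - z) / E) := by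
      refine (hsw.sub hsz).tsum_le_tsum ?_ (hsn.mul_right _)
      intro n
      have h4 := pow_sub_le hz.le hzw n
      have h5 : w ^ n - z ^ n ≤ n * w ^ n * ((w - z) / w) := by
        rw [mul_div_assoc', le_div_iff₀ hw]
        linarith
      have h6 : (n : ℝ) * w ^ n * ((w - z) / w) ≤ n * w0 ^ n * ((w - z) / E) := by
        refine mul_le_mul ?_ ?_ ?_ ?_
        · exact mul_le_mul_of_nonneg_left (pow_le_pow_left₀ hw.le hww n) (Nat.cast_nonneg n)
        · exact div_le_div_of_nonneg_left (by linarith) hE hEw'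
        · exact div_nonneg (by linarith) hw.le
        · exact mul_nonneg (Nat.cast_nonneg n) (pow_nonneg hw00.le n)
      have h7 := mul_le_mul_of_nonneg_left (h5.trans h6) (hβ n)
      calc β n * w ^ n - β n * z ^ n = β n * (w ^ n - z ^ n) := by ring
        _ ≤ β n * (n * w0 ^ n * ((w - z) / E)) := h7
        _ = _ := by ring
    refine h3.trans (le_of_eq ?_)
    rw [tsum_mul_right]
    ring
  set K : ℝ := S / E + 1 with hK
  have hK0 : 0 < K := by positivity
  have hdiff' : ∀ z w : ℝ, 0 < z → z ≤ w → E ≤ w → w ≤ w0 →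
      ∑' n, β n * w ^ n - ∑' n, β n * z ^ n ≤ K * (w - z) := by
    intro z w hz hzw hEw' hww
    refine (hdiff z w hz hzw hEw' hww).trans ?_
    refine mul_le_mul_of_nonneg_right ?_ (by linarith)
    rw [hK]
    linarith
  have hle : ∑' n, β n * E ^ n ≤ 1 := by
    by_contra hcon
    have hcon' : 1 < ∑' n, β n * E ^ n := not_le.1 hcon
    set g : ℝ := ∑' n, β n * E ^ n - 1 with hg
    have hg0 : 0 < g := by linarith
    set z : ℝ := E - min (E / 2) (g / K) with hz
    have hm : 0 < min (E / 2) (g / K) := lt_min (by linarith) (by positivity)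
    have hz0 : 0 < z := by
      have := min_le_left (E / 2) (g / K)
      rw [hz]
      linarith
    have hzE : z < E := by rw [hz]; linarith
    have h3 := hdiff' z E hz0 hzE.le le_rfl hEw.le
    have h4 := h1 z hz0 hzE
    have h5 : K * (E - z) ≤ g := by
      have h6 : E - z ≤ g / K := by
        rw [hz]
        have := min_le_right (E / 2) (g / K)
        linarith
      have := mul_le_mul_of_nonneg_left h6 hK0.le
      rwa [mul_div_cancel₀ _ hK0.ne'] at this
    linarith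
  have hge : 1 ≤ ∑' n, β n * E ^ n := by
    by_contra hcon
    have hcon' : ∑' n, β n * E ^ n < 1 := not_le.1 hcon
    set g : ℝ := 1 - ∑' n, β n * E ^ n with hg
    have hg0 : 0 < g := by linarith
    set w : ℝ := E + min (w0 - E) (g / (2 * K)) with hw
    have hm : 0 < min (w0 - E) (g / (2 * K)) := lt_min (by linarith) (by positivity)
    have hwE : E < w := by rw [hw]; linarith
    have hww : w ≤ w0 := by
      have := min_le_left (w0 - E) (g / (2 * K))
      rw [hw]
      linarith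
    have h3 := hdiff' E w hE hwE.le hwE.le hww
    have h4 := h2 w hwE (hww.trans_lt hwr)
    have h5 : K * (w - E) ≤ g / 2 := by
      have h6 : w - E ≤ g / (2 * K) := by
        rw [hw]
        have := min_le_right (w0 - E) (g / (2 * K))
        linarith
      have := mul_le_mul_of_nonneg_left h6 hK0.le
      have h7 : K * (g / (2 * K)) = g / 2 := by field_simp
      linarith
    linarith
  have hone : ∑' n, β n * E ^ n = 1 := le_antisymm hle hge
  refine ⟨K, hK0, ?_⟩
  intro z hz hzE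
  constructor
  · have hsw := (ps_summable hr hβ hA hE.le hEr).1
    have hsz := (ps_summable hr hβ hA hz.le (hzE.trans hEr)).1
    rw [← hone, ← hsw.tsum_sub hsz]
    have h3 := (hsw.sub hsz).sum_le_tsum {1} (fun n _ => by
      have := pow_le_pow_left₀ hz.le hzE.le n
      have := mul_le_mul_of_nonneg_left this (hβ n)
      linarith)
    rw [Finset.sum_singleton, pow_one, pow_one] at h3
    linarith
  · rw [← hone]
    exact hdiff' z E hz hzE.le le_rfl hEw.le

theorem phi_scale (D : ℕ) {l : ℝ} (hl : 0 < l) : ∃ K : ℝ, 0 < K ∧ ∀ ε : ℝ, 0 < ε → ε ≤ 1 →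
    An.phi D (l * ε) ≤ K * An.phi D ε := by
  unfold An.phi
  by_cases h3 : D = 3
  · refine ⟨1 / √l, by positivity, ?_⟩
    intro ε hε _
    rw [if_pos h3, if_pos h3, Real.sqrt_mul hl.le, one_div_mul_one_div]
  · by_cases h4 : D = 4
    · refine ⟨1 + |Real.log l|, by positivity, ?_⟩
      intro ε hε hε1
      rw [if_neg h3, if_pos h4, if_neg h3, if_pos h4]
      have h5 : Real.log (1 / (l * ε)) = -Real.log l + Real.log (1 / ε) := by
        rw [one_div, Real.log_inv, one_div, Real.log_inv, Real.log_mul hl.ne' hε.ne']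
        ring
      have h6 : 0 ≤ Real.log (1 / ε) := Real.log_nonneg (by rw [le_div_iff₀ hε]; linarith)
      have h7 := neg_abs_le (Real.log l)
      have h8 := abs_nonneg (Real.log l)
      rw [h5]
      nlinarith
    · refine ⟨1, one_pos, ?_⟩
      intro ε _ _
      rw [if_neg h3, if_neg h4, if_neg h3, if_neg h4, one_mul]

theorem sq_nt_le {D : ℕ} (x : Tv D) {η : ℝ} (hη : 0 < η) :
    ∑ j, (x j : ℝ) ^ 2 ≤ 2 / η ^ 2 * Real.exp (η * SB.nt x) := by
  have h1 : ∑ j, (x j : ℝ) ^ 2 ≤ (SB.nt x : ℝ) ^ 2 := by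
    have h2 : (SB.nt x : ℝ) = ∑ j, |(x j : ℝ)| := by
      unfold SB.nt
      push_cast
      refine Finset.sum_congr rfl (fun j _ => ?_)
      rw [Nat.cast_natAbs]
      push_cast
      rfl
    rw [h2]
    have h3 := Finset.sum_sq_le_sq_sum_of_nonneg (s := Finset.univ) (f := fun j => |(x j : ℝ)|)
      (fun j _ => abs_nonneg _)
    simpa only [sq_abs] using h3
  have h2 := Real.quadratic_le_exp_of_nonneg (x := η * SB.nt x) (by positivity)
  have h3 : 0 ≤ η * (SB.nt x : ℝ) := by positivity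
  have h4 : (η * SB.nt x) ^ 2 / 2 ≤ Real.exp (η * SB.nt x) := by linarith
  have h5 : (SB.nt x : ℝ) ^ 2 ≤ 2 / η ^ 2 * Real.exp (η * SB.nt x) := by
    rw [div_mul_eq_mul_div, le_div_iff₀ (by positivity)]
    nlinarith
  exact h1.trans h5

end Rn6

open Rn6 in
/-- Abstract form: `t = b + b * t` with exponential tails of `b` beyond the radius `exp ξ` of
`t`. -/
theorem homog (D : ℕ) (hD : 3 ≤ D) (ξ η C0 c0 : ℝ) (hξ : 0 < ξ) (hη : 0 < η) (hc0 : 0 < c0)
    (b t : ℕ → Tv D → ℝ≥0∞) (hb0 : ∀ x, b 0 x = 0) (ht0 : ∀ x, t 0 x = 0)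
    (hren : ∀ n x, t n x = b n x + ∑ k ∈ Finset.Ico 1 n, ∑' y, b k y * t (n - k) (x - y))
    (hsym : ∀ n x, t n (-x) = t n x)
    (htail : ∀ n : ℕ, ∑' x, b n x * ENNReal.ofReal (Real.exp (η * SB.nt x)) ≤
      ENNReal.ofReal C0 * ex (ξ + η) n)
    (hlow : ∀ i : Fin D, ENNReal.ofReal c0 ≤ b 1 (Pi.single i 1))
    (hfin : ∀ z : ℝ, 0 < z → z < Real.exp ξ →
      ∑' n : ℕ, ∑' x, ENNReal.ofReal z ^ n * t n x ≠ ⊤)
    (hdiv : ∀ z : ℝ, Real.exp ξ < z → ∑' n : ℕ, ∑' x, ENNReal.ofReal z ^ n * t n x = ⊤) :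
    ∃ ε0 c C : ℝ, 0 < ε0 ∧ ε0 ≤ 1 ∧ 0 < c ∧ 0 < C ∧ ∀ z : ℝ, Real.exp ξ - ε0 < z →
      z < Real.exp ξ → 0 < z ∧
      (∀ x, ∑' n : ℕ, ENNReal.ofReal z ^ n * t n x ≤ ENNReal.ofReal C) ∧
      ENNReal.ofReal (c * An.phi D (Real.exp ξ - z)) ≤
        ∑' x, ((if x = 0 then 1 else 0) + ∑' n : ℕ, ENNReal.ofReal z ^ n * t n x) ^ 2 ∧
      ∑' x, ((if x = 0 then 1 else 0) + ∑' n : ℕ, ENNReal.ofReal z ^ n * t n x) ^ 2 ≤
        ENNReal.ofReal (C * An.phi D (Real.exp ξ - z)) := by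
  set E : ℝ := Real.exp ξ with hEdef
  set r : ℝ := Real.exp (ξ + η) with hrdef
  have hE0 : 0 < E := Real.exp_pos _
  have hr0 : 0 < r := Real.exp_pos _
  have hEr : E < r := Real.exp_lt_exp.2 (by linarith)
  set C0' : ℝ := max C0 0 with hC0'
  have hC0'0 : 0 ≤ C0' := le_max_right _ _
  have hC0eq : ENNReal.ofReal C0 = ENNReal.ofReal C0' := by
    rw [hC0']
    rcases le_total C0 0 with h | h
    · rw [max_eq_right h, ENNReal.ofReal_of_nonpos h, ENNReal.ofReal_zero]
    · rw [max_eq_left h]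
  rw [hC0eq] at htail
  have htail' : ∀ n : ℕ, ENNReal.ofReal C0' * ex (ξ + η) n = ENNReal.ofReal (C0' * (r ^ n)⁻¹) := by
    intro n
    unfold ex
    rw [← ENNReal.ofReal_mul hC0'0, hrdef, ← Real.exp_nat_mul, ← Real.exp_neg]
    congr 3
    ring
  simp only [htail'] at htail
  -- the masses of `b`
  have hbn : ∀ n, ∑' x, b n x ≤ ENNReal.ofReal (C0' * (r ^ n)⁻¹) := by
    intro n
    refine le_trans (ENNReal.tsum_le_tsum (fun x => ?_)) (htail n)
    refine le_mul_of_one_le_right bot_le ?_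
    rw [← ENNReal.ofReal_one]
    exact ENNReal.ofReal_le_ofReal (Real.one_le_exp (by positivity))
  have hbnt : ∀ n, ∑' x, b n x ≠ ⊤ := fun n => ne_top_of_le_ne_top ENNReal.ofReal_ne_top (hbn n)
  set β : ℕ → ℝ := fun n => (∑' x, b n x).toReal with hβdef
  have hβ : ∀ n, 0 ≤ β n := fun n => ENNReal.toReal_nonneg
  have hA : ∀ n, β n * r ^ n ≤ C0' := by
    intro n
    have h1 : β n ≤ C0' * (r ^ n)⁻¹ :=
      ENNReal.toReal_le_of_le_ofReal (by positivity) (hbn n)
    have h2 := mul_le_mul_of_nonneg_right h1 (pow_pos hr0 n).le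
    rwa [mul_assoc, inv_mul_cancel₀ (pow_pos hr0 n).ne', mul_one] at h2
  have hMb : ∀ z : ℝ, 0 ≤ z → z < r → Mz b (ENNReal.ofReal z) = ENNReal.ofReal (∑' n, β n * z ^ n) := by
    intro z hz hzr
    rw [Mz_eq, ENNReal.ofReal_tsum_of_nonneg (fun n => mul_nonneg (hβ n) (pow_nonneg hz n))
      (ps_summable hr0 hβ hA hz hzr).1]
    refine tsum_congr (fun n => ?_)
    rw [ENNReal.ofReal_mul (hβ n), ENNReal.ofReal_pow hz, hβdef]
    simp only
    rw [ENNReal.ofReal_toReal (hbnt n), mul_comm]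
  have hMt : ∀ z : ℝ≥0∞, Mz t z = ∑' n : ℕ, ∑' x, z ^ n * t n x := by
    intro z
    rw [Mz_eq]
    exact tsum_congr (fun n => ENNReal.tsum_mul_left.symm)
  have htn : ∀ n, ∑' x, t n x ≠ ⊤ := by
    intro n h
    have h1 := hfin (E / 2) (by positivity) (by linarith)
    have h2 : ∑' x, ENNReal.ofReal (E / 2) ^ n * t n x = ⊤ := by
      rw [ENNReal.tsum_mul_left, h]
      refine ENNReal.mul_top ?_
      exact pow_ne_zero _ (ENNReal.ofReal_pos.2 (by positivity)).ne'
    apply h1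
    exact ENNReal.tsum_eq_top_of_eq_top ⟨n, h2⟩
  have htnx : ∀ n x, t n x ≠ ⊤ := fun n x =>
    ne_top_of_le_ne_top (htn n) (ENNReal.le_tsum x)
  have hbs := b_symm b t hren hsym htnx
  have hm1 : ∀ z, 0 < z → z < E → ∑' n, β n * z ^ n < 1 := by
    intro z hz hzE
    by_contra hcon
    have h1 : (1 : ℝ≥0∞) ≤ Mz b (ENNReal.ofReal z) := by
      rw [hMb z hz.le (hzE.trans hEr), ← ENNReal.ofReal_one]
      exact ENNReal.ofReal_le_ofReal (not_lt.1 hcon)
    have h2 := Mz_ren b t hb0 ht0 hren (ENNReal.ofReal z)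
    have h3 : Mz t (ENNReal.ofReal z) ≠ ⊤ := by
      rw [hMt]
      exact hfin z hz hzE
    have h4 : (1 : ℝ≥0∞) + Mz t (ENNReal.ofReal z) ≤ Mz t (ENNReal.ofReal z) := by
      conv_rhs => rw [h2]
      refine add_le_add h1 ?_
      exact le_mul_of_one_le_left bot_le h1
    have h5 : Mz t (ENNReal.ofReal z) < 1 + Mz t (ENNReal.ofReal z) := by
      rw [add_comm]
      exact ENNReal.lt_add_right h3 one_ne_zero
    exact absurd h4 (not_le.2 h5)
  have hm2 : ∀ z, E < z → z < r → 1 ≤ ∑' n, β n * z ^ n := by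
    intro z hz hzr
    by_contra hcon
    have hz0 : 0 < z := hE0.trans hz
    have h1 : Mz b (ENNReal.ofReal z) < 1 := by
      rw [hMb z hz0.le hzr, ← ENNReal.ofReal_one]
      exact (ENNReal.ofReal_lt_ofReal_iff one_pos).2 (not_le.1 hcon)
    have h2 := Mz_lt b t hb0 ht0 hren htn (ENNReal.ofReal z) ENNReal.ofReal_ne_top h1
    rw [hMt, hdiv z hz, top_le_iff] at h2
    refine absurd h2 (ENNReal.div_ne_top (ne_top_of_lt h1) ?_)
    exact (tsub_pos_of_lt h1).ne'
  obtain ⟨K, hK, hmass⟩ := ps_mass hE0 hEr hβ hA hm1 hm2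
  have hβ1 : c0 ≤ β 1 := by
    have h1 : ENNReal.ofReal c0 ≤ ∑' x, b 1 x :=
      (hlow ⟨0, by omega⟩).trans (ENNReal.le_tsum _)
    rw [hβdef]
    exact (ENNReal.ofReal_le_iff_le_toReal (hbnt 1)).1 h1
  -- constants
  set C2 : ℝ := 2 / η ^ 2 * (C0' * (1 - E / r)⁻¹) + 1 with hC2
  have hEr1 : E / r < 1 := (div_lt_one hr0).2 hEr
  have hC2p : 0 < C2 := by
    have : 0 < (1 - E / r)⁻¹ := inv_pos.2 (by linarith)
    positivity
  set c1 : ℝ := E / 2 * c0 with hc1
  have hc1p : 0 < c1 := by positivity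
  obtain ⟨cg, hcg, Cg, hCg, hgreen⟩ := An.green_sq hD hC2p hc1p
  obtain ⟨K1, hK1, hsc1⟩ := phi_scale D hc0
  obtain ⟨K2, hK2, hsc2⟩ := phi_scale D (l := 1 / K) (by positivity)
  set Cs : ℝ := (3 / √(min 1 (8 * c1))) ^ 3 * 2 with hCs
  have hCs0 : 0 < Cs := by
    have : 0 < min 1 (8 * c1) := lt_min one_pos (by positivity)
    positivity
  refine ⟨min (E / 2) (min 1 (1 / K)), cg / K2, max Cs (Cg * K1), ?_, ?_, by positivity, ?_, ?_⟩
  · refine lt_min (by positivity) (lt_min one_pos (by positivity))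
  · exact (min_le_right _ _).trans (min_le_left _ _)
  · exact lt_of_lt_of_le hCs0 (le_max_left _ _)
  intro z hz1 hzE
  have hd1 : E - z < E / 2 := by
    have := min_le_left (E / 2) (min 1 (1 / K))
    linarith
  have hd2 : E - z < 1 := by
    have := (min_le_right (E / 2) (min 1 (1 / K))).trans (min_le_left _ _)
    linarith
  have hd3 : E - z < 1 / K := by
    have := (min_le_right (E / 2) (min 1 (1 / K))).trans (min_le_right _ _)
    linarith
  have hz0 : 0 < z := by linarith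
  have hzr : z < r := hzE.trans hEr
  set Z : ℝ≥0∞ := ENNReal.ofReal z with hZ
  obtain ⟨hlo, hup⟩ := hmass z hz0 hzE
  set m : ℝ := ∑' n, β n * z ^ n with hm
  have hm0 : 0 ≤ m := tsum_nonneg (fun n => mul_nonneg (hβ n) (pow_nonneg hz0.le n))
  have hm11 : m < 1 := hm1 z hz0 hzE
  set ε : ℝ := 1 - m with hε
  have hε0 : 0 < ε := by linarith
  have hε1 : ε ≤ 1 := by linarith
  have hMbz : ∑' x, gz b Z x ≠ ⊤ := by
    have : Mz b Z = ENNReal.ofReal m := hMb z hz0.le hzr
    unfold Mz at this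
    rw [this]
    exact ENNReal.ofReal_ne_top
  have hMtz : ∑' x, gz t Z x ≠ ⊤ := by
    have h1 : Mz t Z ≠ ⊤ := by
      rw [hMt]
      exact hfin z hz0 hzE
    exact h1
  have hgb : ∀ x, gz b Z x ≠ ⊤ := fun x => ne_top_of_le_ne_top hMbz (ENNReal.le_tsum x)
  have hgt : ∀ x, gz t Z x ≠ ⊤ := fun x => ne_top_of_le_ne_top hMtz (ENNReal.le_tsum x)
  set B : Tv D → ℝ := fun x => (gz b Z x).toReal with hB
  set T : Tv D → ℝ := fun x => (gz t Z x).toReal with hT
  have hB0 : ∀ x, 0 ≤ B x := fun x => ENNReal.toReal_nonneg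
  have hT0 : ∀ x, 0 ≤ T x := fun x => ENNReal.toReal_nonneg
  have hBs : HasSum B (1 - ε) := by
    have h1 := ENNReal.hasSum_toReal hMbz
    rw [← ENNReal.tsum_toReal_eq hgb] at h1
    have h2 : (∑' x, gz b Z x).toReal = 1 - ε := by
      have : Mz b Z = ENNReal.ofReal m := hMb z hz0.le hzr
      unfold Mz at this
      rw [this, ENNReal.toReal_ofReal hm0, hε]
      ring
    rwa [h2] at h1
  have hTs : Summable T := (ENNReal.hasSum_toReal hMtz).summable
  have hBsym : ∀ x, B (-x) = B x := by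
    intro x
    simp only [hB, gz]
    congr 1
    exact tsum_congr (fun n => by rw [hbs n x])
  -- the second moment
  have hmom : ∑' x, gz b Z x * ENNReal.ofReal (∑ j, (x j : ℝ) ^ 2) ≤ ENNReal.ofReal C2 := by
    have h1 : ∀ x : Tv D, gz b Z x * ENNReal.ofReal (∑ j, (x j : ℝ) ^ 2) ≤
        ENNReal.ofReal (2 / η ^ 2) * ∑' n : ℕ, Z ^ n * (b n x *
          ENNReal.ofReal (Real.exp (η * SB.nt x))) := by
      intro x
      have h2 : ENNReal.ofReal (∑ j, (x j : ℝ) ^ 2) ≤ ENNReal.ofReal (2 / η ^ 2) *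
          ENNReal.ofReal (Real.exp (η * SB.nt x)) := by
        rw [← ENNReal.ofReal_mul (by positivity)]
        exact ENNReal.ofReal_le_ofReal (sq_nt_le x hη)
      calc gz b Z x * ENNReal.ofReal (∑ j, (x j : ℝ) ^ 2)
          ≤ gz b Z x * (ENNReal.ofReal (2 / η ^ 2) * ENNReal.ofReal (Real.exp (η * SB.nt x))) := by
            gcongr
        _ = ENNReal.ofReal (2 / η ^ 2) * (gz b Z x *
            ENNReal.ofReal (Real.exp (η * SB.nt x))) := by ring
        _ = _ := by
            congr 1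
            unfold gz
            rw [← ENNReal.tsum_mul_right]
            exact tsum_congr (fun n => by ring)
    refine (ENNReal.tsum_le_tsum h1).trans ?_
    rw [ENNReal.tsum_mul_left, ENNReal.tsum_comm]
    have h2 : ∑' n : ℕ, ∑' x : Tv D, Z ^ n * (b n x * ENNReal.ofReal (Real.exp (η * SB.nt x))) ≤
        ENNReal.ofReal (C0' * (1 - E / r)⁻¹) := by
      have h3 : ∀ n : ℕ, ∑' x : Tv D, Z ^ n * (b n x * ENNReal.ofReal (Real.exp (η * SB.nt x))) ≤
          ENNReal.ofReal (C0' * (E / r) ^ n) := by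
        intro n
        rw [ENNReal.tsum_mul_left]
        calc Z ^ n * ∑' x : Tv D, b n x * ENNReal.ofReal (Real.exp (η * SB.nt x))
            ≤ Z ^ n * ENNReal.ofReal (C0' * (r ^ n)⁻¹) := by
              gcongr
              exact htail n
          _ = ENNReal.ofReal (z ^ n * (C0' * (r ^ n)⁻¹)) := by
              rw [hZ, ← ENNReal.ofReal_pow hz0.le, ← ENNReal.ofReal_mul (by positivity)]
          _ ≤ ENNReal.ofReal (C0' * (E / r) ^ n) := by
              apply ENNReal.ofReal_le_ofReal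
              rw [div_pow, div_eq_mul_inv]
              have h4 : z ^ n ≤ E ^ n := pow_le_pow_left₀ hz0.le hzE.le n
              have h5 : 0 ≤ C0' * (r ^ n)⁻¹ := by positivity
              calc z ^ n * (C0' * (r ^ n)⁻¹) ≤ E ^ n * (C0' * (r ^ n)⁻¹) :=
                    mul_le_mul_of_nonneg_right h4 h5
                _ = _ := by ring
      refine (ENNReal.tsum_le_tsum h3).trans ?_
      have hq0 : 0 ≤ E / r := by positivity
      rw [← ENNReal.ofReal_tsum_of_nonneg (fun n => by positivity)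
        ((summable_geometric_of_lt_one hq0 hEr1).mul_left C0'), tsum_mul_left,
        tsum_geometric_of_lt_one hq0 hEr1]
    calc ENNReal.ofReal (2 / η ^ 2) * ∑' n : ℕ, ∑' x : Tv D,
          Z ^ n * (b n x * ENNReal.ofReal (Real.exp (η * SB.nt x)))
        ≤ ENNReal.ofReal (2 / η ^ 2) * ENNReal.ofReal (C0' * (1 - E / r)⁻¹) := by gcongr
      _ = ENNReal.ofReal (2 / η ^ 2 * (C0' * (1 - E / r)⁻¹)) :=
          (ENNReal.ofReal_mul (by positivity)).symm
      _ ≤ ENNReal.ofReal C2 := ENNReal.ofReal_le_ofReal (by rw [hC2]; linarith)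
  have hmomt : ∑' x, gz b Z x * ENNReal.ofReal (∑ j, (x j : ℝ) ^ 2) ≠ ⊤ :=
    ne_top_of_le_ne_top ENNReal.ofReal_ne_top hmom
  have hmr : ∀ x : Tv D, (gz b Z x * ENNReal.ofReal (∑ j, (x j : ℝ) ^ 2)).toReal =
      B x * ∑ j, (x j : ℝ) ^ 2 := by
    intro x
    rw [ENNReal.toReal_mul, ENNReal.toReal_ofReal (Finset.sum_nonneg (fun j _ => sq_nonneg _))]
  have hms := ENNReal.hasSum_toReal hmomt
  rw [← ENNReal.tsum_toReal_eq (fun x => ENNReal.mul_ne_top (hgb x) ENNReal.ofReal_ne_top)] at hms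
  simp only [hmr] at hms
  have hmle : ∑' x, B x * ∑ j, (x j : ℝ) ^ 2 ≤ C2 := by
    rw [hms.tsum_eq]
    exact ENNReal.toReal_le_of_le_ofReal hC2p.le hmom
  have hBlow : ∀ j, c1 ≤ B (Pi.single j 1) := by
    intro j
    have h1 : ENNReal.ofReal (z * c0) ≤ gz b Z (Pi.single j 1) := by
      unfold gz
      refine le_trans ?_ (ENNReal.le_tsum 1)
      rw [pow_one, ENNReal.ofReal_mul hz0.le]
      gcongr
      exact hlow j
    have h2 : z * c0 ≤ B (Pi.single j 1) :=
      (ENNReal.ofReal_le_iff_le_toReal (hgb _)).1 h1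
    refine le_trans ?_ h2
    rw [hc1]
    exact mul_le_mul_of_nonneg_right (by linarith) hc0.le
  set R : Tv D → ℝ := fun x => (if x = 0 then 1 else 0) + T x with hR
  have hite : ∀ x : Tv D, (0 : ℝ) ≤ if x = 0 then 1 else 0 := by
    intro x
    split_ifs <;> norm_num
  have hR0 : ∀ x, 0 ≤ R x := fun x => add_nonneg (hite x) (hT0 x)
  have hites : Summable (fun x : Tv D => if x = 0 then (1 : ℝ) else 0) :=
    summable_of_ne_finset_zero (s := {0}) (fun x hx => by
      rw [if_neg (fun h => hx (Finset.mem_singleton.2 h))])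
  have hRs : Summable R := hites.add hTs
  have hTren : ∀ x, T x = B x + ∑' y, B y * T (x - y) := by
    intro x
    have h1 := gz_ren b t hb0 ht0 hren Z x
    have h2 : ∑' y, gz b Z y * gz t Z (x - y) ≠ ⊤ := by
      intro h
      rw [h, add_top] at h1
      exact hgt x h1
    have h3 := congrArg ENNReal.toReal h1
    rw [ENNReal.toReal_add (hgb x) h2, ENNReal.tsum_toReal_eq
      (fun y => ENNReal.mul_ne_top (hgb y) (hgt _))] at h3
    simp only [ENNReal.toReal_mul] at h3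
    exact h3
  have hRren : ∀ x, R x = (if x = 0 then 1 else 0) + ∑' y, B y * R (x - y) := by
    intro x
    have h1 : Summable (fun y => B y * T (x - y)) := by
      have h2 : ∑' y, gz b Z y * gz t Z (x - y) ≠ ⊤ := by
        intro h
        have h1 := gz_ren b t hb0 ht0 hren Z x
        rw [h, add_top] at h1
        exact hgt x h1
      have h3 := (ENNReal.hasSum_toReal h2).summable
      simp only [ENNReal.toReal_mul] at h3
      exact h3
    have h2 : HasSum (fun y => B y * (if x - y = 0 then (1 : ℝ) else 0)) (B x) := by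
      have h3 := hasSum_single (f := fun y => B y * (if x - y = 0 then (1 : ℝ) else 0)) x (by
        intro y hy
        rw [if_neg (fun h => hy (sub_eq_zero.1 h).symm), mul_zero])
      rw [sub_self, if_pos rfl, mul_one] at h3
      exact h3
    have h4 : ∀ y, B y * R (x - y) = B y * (if x - y = 0 then (1 : ℝ) else 0) +
        B y * T (x - y) := by
      intro y
      simp only [hR]
      ring
    simp only [h4]
    rw [h2.summable.tsum_add h1, h2.tsum_eq]
    simp only [hR]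
    rw [← hTren x]
  obtain ⟨hg1, hg2⟩ := hgreen ε B R hε0 hε1 hB0 hBs hBsym hms.summable hmle hBlow hRs hRren
  have hRr : ∀ x, (if x = 0 then (1 : ℝ≥0∞) else 0) + ∑' n : ℕ, Z ^ n * t n x =
      ENNReal.ofReal (R x) := by
    intro x
    simp only [hR]
    rw [ENNReal.ofReal_add (hite x) (hT0 x), hT]
    simp only
    rw [ENNReal.ofReal_toReal (hgt x)]
    unfold gz
    congr 1
    split_ifs
    · rw [ENNReal.ofReal_one]
    · rw [ENNReal.ofReal_zero]
  have hsq : ∑' x, ((if x = 0 then (1 : ℝ≥0∞) else 0) + ∑' n : ℕ, Z ^ n * t n x) ^ 2 =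
      ENNReal.ofReal (∑' x, R x ^ 2) := by
    rw [ENNReal.ofReal_tsum_of_nonneg (fun x => sq_nonneg _) (An.parseval hRs).summable]
    refine tsum_congr (fun x => ?_)
    rw [hRr x, ENNReal.ofReal_pow (hR0 x)]
  refine ⟨hz0, ?_, ?_, ?_⟩
  · intro x
    have h1 := An.green_sup hD hc1p hε0 hB0 hBs hBsym hBlow hRs hRren x
    have h2 : T x ≤ Cs := by
      have h3 : R x ≤ Cs := (le_abs_self _).trans h1
      have h4 := hite x
      simp only [hR] at h3
      linarith
    have h5 : gz t Z x ≤ ENNReal.ofReal Cs := by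
      rw [← ENNReal.ofReal_toReal (hgt x)]
      exact ENNReal.ofReal_le_ofReal h2
    exact h5.trans (ENNReal.ofReal_le_ofReal (le_max_left _ _))
  · rw [hsq]
    apply ENNReal.ofReal_le_ofReal
    have hKd : 0 < K * (E - z) := by
      have : 0 < E - z := by linarith
      positivity
    have hKd1 : K * (E - z) ≤ 1 := by
      have := mul_le_mul_of_nonneg_left hd3.le hK.le
      rwa [mul_one_div_cancel hK.ne'] at this
    have h1 : An.phi D (K * (E - z)) ≤ An.phi D ε := An.phi_anti D hε0 hup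
    have h2 := hsc2 (K * (E - z)) hKd hKd1
    have h3 : 1 / K * (K * (E - z)) = E - z := by field_simp
    rw [h3] at h2
    calc cg / K2 * An.phi D (E - z) ≤ cg / K2 * (K2 * An.phi D (K * (E - z))) :=
          mul_le_mul_of_nonneg_left h2 (by positivity)
      _ = cg * An.phi D (K * (E - z)) := by field_simp
      _ ≤ cg * An.phi D ε := mul_le_mul_of_nonneg_left h1 hcg.le
      _ ≤ _ := hg1
  · rw [hsq]
    apply ENNReal.ofReal_le_ofReal
    have hd0 : 0 < E - z := by linarith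
    have h0 : c0 * (E - z) ≤ ε := (mul_le_mul_of_nonneg_right hβ1 hd0.le).trans hlo
    have h1 : An.phi D ε ≤ An.phi D (c0 * (E - z)) := An.phi_anti D (by positivity) h0
    have h2 := hsc1 (E - z) hd0 hd2.le
    have h4 : 0 < An.phi D (E - z) := An.phi_pos D hd0 hd2.le
    calc ∑' x, R x ^ 2 ≤ Cg * An.phi D ε := hg2
      _ ≤ Cg * (K1 * An.phi D (E - z)) := mul_le_mul_of_nonneg_left (h1.trans h2) hCg.le
      _ = Cg * K1 * An.phi D (E - z) := by ring
      _ ≤ _ := mul_le_mul_of_nonneg_right (le_max_right _ _) h4.le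

end Pool.Agent.DL
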