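import Pool.Agent.DL.Rn4
import Pool.Agent.DL.Rn5
import Pool.Agent.DL.Rn6
import Pool.Agent.DL.Fl
import Pool.Agent.DL.Pw
import Pool.Agent.DL.ExK

/-!
# The homogeneous model: bounds of the generating functions near the critical value
-/

set_option autoImplicit false
set_option linter.unusedSectionVars false

namespace Pool.Agent.DL

open Finset
open scoped ENNReal

namespace Rn7

variable {D : ℕ} {q β : ℝ}

theorem reg1 (h : Bas D q β) : Reg D q β 1 where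
  toBas := h
  hJ := le_rfl
  xi := ⟨xiR D q β 1, xiR_one_pos h, fun J h1 h2 => by
    have : J = 1 := le_antisymm h2 h1
    rw [this]⟩

theorem jok1 {δ : ℝ} (hδ : 0 < δ) : Jok D q β 1 δ 1 where
  h1 := le_rfl
  h2 := le_rfl
  h3 := by linarith

/-- The constant `(e^β - 1) / q`. -/
noncomputable def ka (q β : ℝ) : ℝ := (Real.exp β - 1) / q

theorem ka_pos (h : Bas D q β) : 0 < ka q β := by
  have h1 : (1 : ℝ) < Real.exp β := Real.one_lt_exp_iff.2 h.hβ
  exact div_pos (by linarith) (by linarith [h.hq])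

/-- The generating functions of `tC` and `TN`. -/
theorem tC_gen (h : Bas D q β) (z : ℝ≥0∞) (x : Tv D) :
    ∑' n : ℕ, z ^ n * tC D q β n x = ENNReal.ofReal (ka q β) * z * TI D q β 1 z 0 x := by
  rw [tsum_eq_zero_add' ENNReal.summable, tC_zero, mul_zero, zero_add, TI, ← ENNReal.tsum_mul_left]
  refine tsum_congr fun n => ?_
  rw [tC_eq h, pow_succ]
  unfold ka
  ring

theorem TI_trans (z : ℝ≥0∞) (u w : Tv D) :
    TI D q β 1 z u w = TI D q β 1 z 0 (w - u) := by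
  unfold TI
  refine tsum_congr fun n => ?_
  have h1 := TN_trans (D := D) (q := q) (β := β) n 0 (w - u) u
  rw [zero_add, sub_add_cancel] at h1
  rw [h1]

theorem ST_le_TI (J : ℝ) (z : ℝ≥0∞) (L : ℕ) (u w : Tv D) :
    ST D q β J z L u w ≤ TI D q β J z u w :=
  ENNReal.sum_le_tsum _

theorem TI_le_GI (J : ℝ) (z : ℝ≥0∞) (u w : Tv D) :
    TI D q β J z u w ≤ GI D q β J z u w :=
  ENNReal.tsum_le_tsum fun n => mul_le_mul_right (TN_le_GN n u w) _

theorem GI_eq (J : ℝ) (z : ℝ≥0∞) (u w : Tv D) :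
    GI D q β J z u w = ⨆ L : ℕ, SG D q β J z L u w := by
  unfold GI SG
  rw [ENNReal.tsum_eq_iSup_nat]
  apply le_antisymm
  · exact iSup_le fun L => (Finset.sum_le_sum_of_subset (Finset.range_subset_range.2
      (Nat.le_succ L))).trans (le_iSup (fun L : ℕ => ∑ n ∈ range (L + 1),
        z ^ n * GN D q β J n u w) L)
  · exact iSup_le fun L => le_iSup (fun L : ℕ => ∑ n ∈ range L, z ^ n * GN D q β J n u w) (L + 1)

/-- The hypotheses of `homog` hold. -/
theorem hom (h : Bas D q β) (hD : 3 ≤ D) :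
    ∃ ε0 c C : ℝ, 0 < ε0 ∧ ε0 ≤ 1 ∧ 0 < c ∧ 0 < C ∧ ∀ z : ℝ, Real.exp (xiR D q β 1) - ε0 < z →
      z < Real.exp (xiR D q β 1) → 1 < z ∧
      (∀ x, ∑' n : ℕ, ENNReal.ofReal z ^ n * tC D q β n x ≤ ENNReal.ofReal C) ∧
      ENNReal.ofReal (c * An.phi D (Real.exp (xiR D q β 1) - z)) ≤
        ∑' x, ((if x = 0 then 1 else 0) + ∑' n : ℕ, ENNReal.ofReal z ^ n * tC D q β n x) ^ 2 ∧
      ∑' x, ((if x = 0 then 1 else 0) + ∑' n : ℕ, ENNReal.ofReal z ^ n * tC D q β n x) ^ 2 ≤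
        ENNReal.ofReal (C * An.phi D (Real.exp (xiR D q β 1) - z)) := by
  obtain ⟨η, C0, hη, hC0, htail⟩ := bC_tail h
  obtain ⟨c0, hc0, hlow⟩ := bC_low h
  obtain ⟨ε0, c, C, h1, h2, h3, h4, h5⟩ := homog D hD (xiR D q β 1) η C0 c0 (xiR_one_pos h) hη hc0
    (bC D q β) (tC D q β) bC_zero tC_zero (renewal h) (tC_neg h) htail hlow
    (fun z hz0 hz => tC_fin h z hz0 hz) (fun z hz => tC_div h z hz)
  have he : (1 : ℝ) < Real.exp (xiR D q β 1) := Real.one_lt_exp_iff.2 (xiR_one_pos h)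
  refine ⟨min ε0 (Real.exp (xiR D q β 1) - 1), c, C, lt_min h1 (by linarith),
    (min_le_left _ _).trans h2, h3, h4, fun z hz hz' => ?_⟩
  have h6 : min ε0 (Real.exp (xiR D q β 1) - 1) ≤ ε0 := min_le_left _ _
  have h7 : min ε0 (Real.exp (xiR D q β 1) - 1) ≤ Real.exp (xiR D q β 1) - 1 := min_le_right _ _
  obtain ⟨_, h9, h10, h11⟩ := h5 z (by linarith) hz'
  exact ⟨by linarith, h9, h10, h11⟩

theorem TI_le_of {κ z C : ℝ} (hκ : 0 < κ) (hz : 1 < z) {x : ℝ≥0∞}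
    (h : ENNReal.ofReal κ * ENNReal.ofReal z * x ≤ ENNReal.ofReal C) :
    x ≤ ENNReal.ofReal (C / κ) := by
  have h1 : ENNReal.ofReal κ * x ≤ ENNReal.ofReal C := by
    refine le_trans ?_ h
    rw [mul_assoc]
    refine mul_le_mul_right ?_ _
    have h2 : (1 : ℝ≥0∞) ≤ ENNReal.ofReal z := by
      rw [← ENNReal.ofReal_one]
      exact ENNReal.ofReal_le_ofReal hz.le
    calc x = 1 * x := (one_mul x).symm
      _ ≤ ENNReal.ofReal z * x := mul_le_mul_left h2 _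
  rw [ENNReal.ofReal_div_of_pos hκ, ENNReal.le_div_iff_mul_le
    (Or.inl (ENNReal.ofReal_pos.2 hκ).ne') (Or.inl ENNReal.ofReal_ne_top), mul_comm]
  exact h1

/-- The confined generating function is bounded up to the critical value. -/
theorem ST_bdd (h : Bas D q β) (hD : 3 ≤ D) : ∃ B : ℝ, ∀ (L : ℕ) (u w : Tv D),
    ST D q β 1 (zc D q β) L u w ≤ ENNReal.ofReal B := by
  obtain ⟨ε0, c, C, hε0, _, _, hC, hH⟩ := hom h hD
  refine ⟨2 * (C / ka q β), fun L u w => ?_⟩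
  set ξ := xiR D q β 1 with hξ
  have hexp : 0 < Real.exp ξ := Real.exp_pos _
  set s : ℝ := min (Real.log 2 / (L + 1)) (ε0 / (2 * Real.exp ξ)) with hs
  have hs0 : 0 < s := lt_min (div_pos (Real.log_pos (by norm_num)) (by positivity)) (by positivity)
  have hsL : s * L ≤ Real.log 2 := by
    have h1 : s ≤ Real.log 2 / (L + 1) := min_le_left _ _
    have h2 : (0 : ℝ) < (L : ℝ) + 1 := by positivity
    rw [le_div_iff₀ h2] at h1
    nlinarith
  have hz1 : Real.exp (ξ - s) < Real.exp ξ := Real.exp_lt_exp.2 (by linarith)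
  have hz2 : Real.exp ξ - ε0 < Real.exp (ξ - s) := by
    have h1 : s ≤ ε0 / (2 * Real.exp ξ) := min_le_right _ _
    rw [le_div_iff₀ (by positivity)] at h1
    have h2 : 1 - s ≤ Real.exp (-s) := by linarith [Real.add_one_le_exp (-s)]
    have h3 : Real.exp (ξ - s) = Real.exp ξ * Real.exp (-s) := by
      rw [← Real.exp_add]
      ring_nf
    rw [h3]
    nlinarith
  obtain ⟨hz3, h4, _, _⟩ := hH (Real.exp (ξ - s)) hz2 hz1
  have h5 : TI D q β 1 (ENNReal.ofReal (Real.exp (ξ - s))) u w ≤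
      ENNReal.ofReal (C / ka q β) := by
    rw [TI_trans]
    refine TI_le_of (ka_pos h) hz3 ?_
    rw [← tC_gen h]
    exact h4 _
  calc ST D q β 1 (zc D q β) L u w
      ≤ ∑ n ∈ range (L + 1), ENNReal.ofReal 2 *
          (ENNReal.ofReal (Real.exp (ξ - s)) ^ n * TN D q β 1 n u w) := by
        unfold ST
        refine Finset.sum_le_sum fun n hn => ?_
        rw [← mul_assoc]
        refine mul_le_mul_left ?_ _
        unfold zc
        rw [← hξ, ← ENNReal.ofReal_pow hexp.le, ← ENNReal.ofReal_pow (Real.exp_nonneg _),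
          ← ENNReal.ofReal_mul (by norm_num)]
        refine ENNReal.ofReal_le_ofReal ?_
        have h6 : Real.exp ξ ^ n = Real.exp (s * n) * Real.exp (ξ - s) ^ n := by
          rw [← Real.exp_nat_mul, ← Real.exp_nat_mul, ← Real.exp_add]
          ring_nf
        rw [h6]
        refine mul_le_mul_of_nonneg_right ?_ (by positivity)
        have h7 : (n : ℝ) ≤ L := by exact_mod_cast Nat.lt_succ_iff.1 (mem_range.1 hn)
        calc Real.exp (s * n) ≤ Real.exp (Real.log 2) := by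
              refine Real.exp_le_exp.2 (le_trans ?_ hsL)
              exact mul_le_mul_of_nonneg_left h7 hs0.le
          _ = 2 := Real.exp_log (by norm_num)
    _ = ENNReal.ofReal 2 * ST D q β 1 (ENNReal.ofReal (Real.exp (ξ - s))) L u w := by
        rw [← Finset.mul_sum]
        rfl
    _ ≤ ENNReal.ofReal 2 * ENNReal.ofReal (C / ka q β) :=
        mul_le_mul_right ((ST_le_TI 1 _ L u w).trans h5) _
    _ = ENNReal.ofReal (2 * (C / ka q β)) := (ENNReal.ofReal_mul (by norm_num)).symm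

theorem two_conv (c : ℝ) (u w : Tv D) (B : ℝ≥0∞) :
    ∑' y : Tv D, ∑' y' : Tv D, ex c (SB.nt (u - y)) * B * ex c (SB.nt (y' - w)) =
      B * (∑' y : Tv D, ex c (SB.nt y)) ^ 2 := by
  have h1 : ∀ y : Tv D, ∑' y' : Tv D, ex c (SB.nt (u - y)) * B * ex c (SB.nt (y' - w)) =
      ex c (SB.nt (u - y)) * B * ∑' y' : Tv D, ex c (SB.nt y') := by
    intro y
    rw [ENNReal.tsum_mul_left, tsum_sub_right (fun v => ex c (SB.nt v)) w]
  simp only [h1]
  rw [ENNReal.tsum_mul_right, ENNReal.tsum_mul_right, tsum_sub_left (fun v => ex c (SB.nt v)) u]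
  ring

theorem add_sq_le (a b : ℝ≥0∞) : (a + b) ^ 2 ≤ 2 * (a ^ 2 + b ^ 2) := by
  have h1 := two_mul_mul_le_sq a b
  calc (a + b) ^ 2 = a ^ 2 + b ^ 2 + 2 * (a * b) := by ring
    _ ≤ a ^ 2 + b ^ 2 + (a ^ 2 + b ^ 2) := by gcongr
    _ = 2 * (a ^ 2 + b ^ 2) := by ring

/-- The `ℓ²` bound of the generating function by the one of the confined clusters. -/
theorem GI_sq_le (h : Bas D q β) : ∃ K : ℝ≥0∞, K ≠ ⊤ ∧ ∀ z ≤ zc D q β,
    ∑' w, GI D q β 1 z 0 w ^ 2 ≤ K * (1 + ∑' w, TI D q β 1 z 0 w ^ 2) := by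
  obtain ⟨δ, C, c, hδ, hC, hc, hFL⟩ := first_last (reg1 h)
  set E : ℝ≥0∞ := ∑' y : Tv D, ex c (SB.nt y) with hE
  have hEt : E ≠ ⊤ := tsum_ex_ne_top hc
  refine ⟨ENNReal.ofReal C ^ 2 * (2 * (E + E ^ 4)), ?_, fun z hz => ?_⟩
  · exact ENNReal.mul_ne_top (ENNReal.pow_ne_top ENNReal.ofReal_ne_top)
      (ENNReal.mul_ne_top (by norm_num) (ENNReal.add_ne_top.2 ⟨hEt, ENNReal.pow_ne_top hEt⟩))
  have hz' : z ≤ ENNReal.ofReal (Real.exp (xiR D q β 1 + δ)) :=
    hz.trans (ENNReal.ofReal_le_ofReal (Real.exp_le_exp.2 (by linarith)))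
  set f : Tv D → ℝ≥0∞ := fun x => TI D q β 1 z 0 x with hf
  set e : Tv D → ℝ≥0∞ := fun x => ex c (SB.nt x) with he
  set g : Tv D → ℝ≥0∞ := fun w => ∑' y, e y * f (w - y) with hg
  have h1 : ∀ w, GI D q β 1 z 0 w ≤ ENNReal.ofReal C * (e w + ∑' v, e v * g (w - v)) := by
    intro w
    rw [GI_eq]
    refine iSup_le fun L => (hFL 1 (jok1 hδ) z hz' L 0 w).trans ?_
    refine mul_le_mul_right (add_le_add ?_ ?_) _
    · rw [zero_sub, nt_neg']
    · calc ∑' y, ∑' y', ex c (SB.nt ((0 : Tv D) - y)) * ST D q β 1 z L y y' *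
            ex c (SB.nt (y' - w))
          ≤ ∑' y, ∑' y', e y * f (y' - y) * ex c (SB.nt (y' - w)) := by
            refine ENNReal.tsum_le_tsum fun y => ENNReal.tsum_le_tsum fun y' => ?_
            rw [zero_sub, nt_neg']
            refine mul_le_mul_left (mul_le_mul_right ?_ _) _
            rw [hf]
            show ST D q β 1 z L y y' ≤ TI D q β 1 z 0 (y' - y)
            rw [← TI_trans]
            exact ST_le_TI 1 z L y y'
        _ = ∑' y', g y' * ex c (SB.nt (y' - w)) := by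
            rw [ENNReal.tsum_comm]
            refine tsum_congr fun y' => ?_
            rw [ENNReal.tsum_mul_right]
        _ = ∑' v, e v * g (w - v) := by
            rw [← (Equiv.subLeft w).tsum_eq fun y' => g y' * ex c (SB.nt (y' - w))]
            refine tsum_congr fun v => ?_
            rw [Equiv.subLeft_apply, show w - v - w = -v by abel, nt_neg', mul_comm]
  have h2 : ∑' w, e w ^ 2 ≤ E := by
    refine ENNReal.tsum_le_tsum fun w => ?_
    have h3 : e w ≤ 1 := ex_le_one hc.le (Nat.cast_nonneg _)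
    calc e w ^ 2 = e w * e w := sq _
      _ ≤ e w * 1 := mul_le_mul_right h3 _
      _ = e w := mul_one _
  calc ∑' w, GI D q β 1 z 0 w ^ 2
      ≤ ∑' w, ENNReal.ofReal C ^ 2 * (2 * (e w ^ 2 + (∑' v, e v * g (w - v)) ^ 2)) := by
        refine ENNReal.tsum_le_tsum fun w => ?_
        calc GI D q β 1 z 0 w ^ 2
            ≤ (ENNReal.ofReal C * (e w + ∑' v, e v * g (w - v))) ^ 2 :=
              pow_le_pow_left' (h1 w) 2
          _ = ENNReal.ofReal C ^ 2 * (e w + ∑' v, e v * g (w - v)) ^ 2 := mul_pow _ _ _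
          _ ≤ _ := mul_le_mul_right (add_sq_le _ _) _
    _ = ENNReal.ofReal C ^ 2 * (2 * (∑' w, e w ^ 2 + ∑' w, (∑' v, e v * g (w - v)) ^ 2)) := by
        rw [ENNReal.tsum_mul_left, ENNReal.tsum_mul_left, ENNReal.tsum_add]
    _ ≤ ENNReal.ofReal C ^ 2 * (2 * (E + E ^ 2 * ∑' w, g w ^ 2)) :=
        mul_le_mul_right (mul_le_mul_right (add_le_add h2 (young e g)) _) _
    _ ≤ ENNReal.ofReal C ^ 2 * (2 * (E + E ^ 2 * (E ^ 2 * ∑' w, f w ^ 2))) :=
        mul_le_mul_right (mul_le_mul_right (add_le_add le_rfl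
          (mul_le_mul_right (young e f) _)) _) _
    _ ≤ ENNReal.ofReal C ^ 2 * (2 * (E + E ^ 4)) * (1 + ∑' w, TI D q β 1 z 0 w ^ 2) := by
        rw [mul_assoc (ENNReal.ofReal C ^ 2), mul_assoc (2 : ℝ≥0∞)]
        refine mul_le_mul_right (mul_le_mul_right ?_ _) _
        show E + E ^ 2 * (E ^ 2 * ∑' w, f w ^ 2) ≤ (E + E ^ 4) * (1 + ∑' w, f w ^ 2)
        calc E + E ^ 2 * (E ^ 2 * ∑' w, f w ^ 2) = E + E ^ 4 * ∑' w, f w ^ 2 := by ring
          _ ≤ E + E ^ 4 * ∑' w, f w ^ 2 + (E * ∑' w, f w ^ 2 + E ^ 4) := le_self_add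
          _ = (E + E ^ 4) * (1 + ∑' w, f w ^ 2) := by ring

/-- The weight of a single site. -/
theorem TN_zero_pos (h : Bas D q β) : ∃ w0 : ℝ, 0 < w0 ∧
    ENNReal.ofReal w0 ≤ TN D q β 1 0 0 0 := by
  classical
  set c : Pr D := ({0}, ∅) with hc
  have hcl : (lat D).IsCl c.1 c.2 := by
    refine ⟨⟨0, by simp [hc]⟩, by simp [hc], ?_⟩
    intro x hx y hy
    rw [hc, Finset.mem_singleton] at hx hy
    rw [hx, hy]
    exact (lat D).rch_refl _ _
  have hZ := ZI_ge (J := 1) (Jm := 1) h zero_le_one le_rfl le_rfl c.1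
  have hZ0 : 0 < ZI D q β 1 c.1 := lt_of_lt_of_le (by positivity) hZ
  have hW : WW D q β 1 c.1 c.2 = 1 := by
    unfold WW Gr.cw
    simp [hc]
  refine ⟨ZI D q β 1 c.1, hZ0, ?_⟩
  unfold TN sm
  refine le_trans ?_ (ENNReal.le_tsum c)
  have h1 : WI D q β 1 c = ENNReal.ofReal (ZI D q β 1 c.1) := by
    unfold WI
    rw [if_pos hcl, hW, one_mul]
  have h2 : ii (((0, (0 : Tv D)) : Site D) ∈ c.1 ∧ ((((0 : ℕ) : ℤ), (0 : Tv D)) : Site D) ∈ c.1 ∧
      abv 0 c ∧ bel ((0 : ℕ) : ℤ) c) = 1 := by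
    unfold ii
    rw [if_pos]
    refine ⟨?_, ?_, ?_, ?_⟩
    · rw [hc]
      simp
    · rw [hc]
      simp
    · intro x hx
      rw [hc, Finset.mem_singleton] at hx
      rw [hx]
      exact le_rfl
    · intro x hx
      rw [hc, Finset.mem_singleton] at hx
      rw [hx]
      exact le_rfl
  show ENNReal.ofReal (ZI D q β 1 c.1) ≤ WI D q β 1 c *
    ii (((0, (0 : Tv D)) : Site D) ∈ c.1 ∧ ((((0 : ℕ) : ℤ), (0 : Tv D)) : Site D) ∈ c.1 ∧
      abv 0 c ∧ bel ((0 : ℕ) : ℤ) c)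
  rw [h1, h2, mul_one]

end Rn7

open Rn7 in
theorem hom_s1b {D : ℕ} {q β : ℝ} (h : Bas D q β) (hD : 3 ≤ D) : S1B D q β := by
  obtain ⟨B, hB⟩ := ST_bdd h hD
  obtain ⟨δ, C, c, hδ, hC, hc, hFL⟩ := first_last (reg1 h)
  set E : ℝ≥0∞ := ∑' y : Tv D, ex c (SB.nt y) with hE
  have hEt : E ≠ ⊤ := tsum_ex_ne_top hc
  have hfin : ENNReal.ofReal C * (1 + ENNReal.ofReal B * E ^ 2) ≠ ⊤ :=
    ENNReal.mul_ne_top ENNReal.ofReal_ne_top (ENNReal.add_ne_top.2 ⟨ENNReal.one_ne_top,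
      ENNReal.mul_ne_top ENNReal.ofReal_ne_top (ENNReal.pow_ne_top hEt)⟩)
  refine ⟨(ENNReal.ofReal C * (1 + ENNReal.ofReal B * E ^ 2)).toReal, fun L u w => ?_⟩
  rw [ENNReal.ofReal_toReal hfin]
  have hz' : zc D q β ≤ ENNReal.ofReal (Real.exp (xiR D q β 1 + δ)) :=
    ENNReal.ofReal_le_ofReal (Real.exp_le_exp.2 (by linarith))
  refine (hFL 1 (jok1 hδ) (zc D q β) hz' L u w).trans ?_
  refine mul_le_mul_right (add_le_add (ex_le_one hc.le (Nat.cast_nonneg _)) ?_) _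
  rw [← two_conv c u w (ENNReal.ofReal B)]
  exact ENNReal.tsum_le_tsum fun y => ENNReal.tsum_le_tsum fun y' =>
    mul_le_mul_left (mul_le_mul_right (hB L y y') _) _

open Rn7 in
theorem hom_l2 {D : ℕ} {q β : ℝ} (h : Bas D q β) (hD : 3 ≤ D) :
    ∃ ε0 c C R : ℝ, 0 < ε0 ∧ ε0 ≤ 1 ∧ 0 < c ∧ 0 < C ∧ 0 < R ∧ ∀ z : ℝ,
      Real.exp (xiR D q β 1) - ε0 < z → z < Real.exp (xiR D q β 1) → 1 < z ∧
      ENNReal.ofReal (c * An.phi D (Real.exp (xiR D q β 1) - z)) ≤
        ∑' w, GI D q β 1 (ENNReal.ofReal z) 0 w ^ 2 ∧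
      ∑' w, GI D q β 1 (ENNReal.ofReal z) 0 w ^ 2 ≤
        ENNReal.ofReal (C * An.phi D (Real.exp (xiR D q β 1) - z)) ∧
      ∑' w, GI D q β 1 (ENNReal.ofReal z) 0 w ^ 2 ≤
        ENNReal.ofReal R * ∑' w, TI D q β 1 (ENNReal.ofReal z) 0 w ^ 2 := by
  obtain ⟨ε0, c1, C1, hε0, hε1, hc1, hC1, hH⟩ := hom h hD
  obtain ⟨K, hKt, hK⟩ := GI_sq_le h
  obtain ⟨w0, hw0, hw⟩ := TN_zero_pos h
  have hκ := ka_pos h
  set κ := ka q β with hκd
  set ξ := xiR D q β 1 with hξ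
  have hexp : 0 < Real.exp ξ := Real.exp_pos _
  -- real constants
  set k : ℝ := K.toReal + 1 with hk
  have hk0 : 0 < k := by
    have := ENNReal.toReal_nonneg (a := K)
    linarith
  have hKk : K ≤ ENNReal.ofReal k := by
    rw [← ENNReal.ofReal_toReal hKt]
    exact ENNReal.ofReal_le_ofReal (by linarith)
  set A : ℝ := 2 * (w0⁻¹) ^ 2 + 2 * (κ * Real.exp ξ) ^ 2 with hA
  have hA0 : 0 < A := by positivity
  set R : ℝ := k * ((w0⁻¹) ^ 2 + 1) with hR
  have hR0 : 0 < R := by positivity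
  refine ⟨ε0, c1 / A, R * ((κ⁻¹) ^ 2 * C1), R, hε0, hε1, by positivity, by positivity, hR0,
    fun z hz hz' => ?_⟩
  obtain ⟨hz1, _, hlo, hup⟩ := hH z hz hz'
  have hzc : ENNReal.ofReal z ≤ zc D q β := ENNReal.ofReal_le_ofReal hz'.le
  set f : Tv D → ℝ≥0∞ := fun x => TI D q β 1 (ENNReal.ofReal z) 0 x with hf
  set t : Tv D → ℝ≥0∞ := fun x => ∑' n : ℕ, ENNReal.ofReal z ^ n * tC D q β n x with ht
  have htf : ∀ x, t x = ENNReal.ofReal κ * ENNReal.ofReal z * f x := fun x => tC_gen h _ x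
  set F : ℝ≥0∞ := ∑' x, f x ^ 2 with hF
  -- `1 ≤ w0⁻² F`
  have hone : (1 : ℝ≥0∞) ≤ ENNReal.ofReal ((w0⁻¹) ^ 2) * F := by
    have h1 : ENNReal.ofReal w0 ≤ f 0 := by
      refine hw.trans ?_
      rw [hf]
      show TN D q β 1 0 0 0 ≤ TI D q β 1 (ENNReal.ofReal z) 0 0
      unfold TI
      refine le_trans ?_ (ENNReal.le_tsum 0)
      rw [pow_zero, one_mul]
    have h2 : ENNReal.ofReal (w0 ^ 2) ≤ F := by
      rw [ENNReal.ofReal_pow hw0.le]
      exact (pow_le_pow_left' h1 2).trans (ENNReal.le_tsum 0)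
    calc (1 : ℝ≥0∞) = ENNReal.ofReal ((w0⁻¹) ^ 2) * ENNReal.ofReal (w0 ^ 2) := by
          rw [← ENNReal.ofReal_mul (by positivity), ← mul_pow, inv_mul_cancel₀ hw0.ne', one_pow,
            ENNReal.ofReal_one]
      _ ≤ _ := mul_le_mul_right h2 _
  -- `∑ t² ≤ (κ e^ξ)² F` and `F ≤ κ⁻² ∑ t²`
  have ht1 : ∑' x, t x ^ 2 ≤ ENNReal.ofReal ((κ * Real.exp ξ) ^ 2) * F := by
    rw [hF, ← ENNReal.tsum_mul_left]
    refine ENNReal.tsum_le_tsum fun x => ?_
    rw [htf x, mul_pow, ENNReal.ofReal_pow (by positivity)]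
    refine mul_le_mul_left (pow_le_pow_left' ?_ 2) _
    rw [← ENNReal.ofReal_mul hκ.le]
    exact ENNReal.ofReal_le_ofReal (mul_le_mul_of_nonneg_left hz'.le hκ.le)
  have ht2 : F ≤ ENNReal.ofReal ((κ⁻¹) ^ 2) * ∑' x, t x ^ 2 := by
    rw [hF, ← ENNReal.tsum_mul_left]
    refine ENNReal.tsum_le_tsum fun x => ?_
    rw [htf x, ENNReal.ofReal_pow (by positivity), ← mul_pow]
    refine pow_le_pow_left' ?_ 2
    have h1 : (1 : ℝ≥0∞) ≤ ENNReal.ofReal z := by
      rw [← ENNReal.ofReal_one]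
      exact ENNReal.ofReal_le_ofReal hz1.le
    calc f x = 1 * (1 * f x) := by rw [one_mul, one_mul]
      _ ≤ ENNReal.ofReal κ⁻¹ * ENNReal.ofReal κ * (ENNReal.ofReal z * f x) := by
          rw [← ENNReal.ofReal_mul (by positivity), inv_mul_cancel₀ hκ.ne', ENNReal.ofReal_one]
          exact mul_le_mul_right (mul_le_mul_left h1 _) _
      _ = ENNReal.ofReal κ⁻¹ * (ENNReal.ofReal κ * ENNReal.ofReal z * f x) := by ring
  have hF1 : F ≤ ∑' w, GI D q β 1 (ENNReal.ofReal z) 0 w ^ 2 :=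
    ENNReal.tsum_le_tsum fun w => pow_le_pow_left' (TI_le_GI 1 _ 0 w) 2
  have hG1 : ∑' w, GI D q β 1 (ENNReal.ofReal z) 0 w ^ 2 ≤ ENNReal.ofReal R * F := by
    calc ∑' w, GI D q β 1 (ENNReal.ofReal z) 0 w ^ 2 ≤ K * (1 + F) := hK _ hzc
      _ ≤ ENNReal.ofReal k * (ENNReal.ofReal ((w0⁻¹) ^ 2) * F + F) :=
          mul_le_mul' hKk (add_le_add hone le_rfl)
      _ = ENNReal.ofReal R * F := by
          rw [hR, ENNReal.ofReal_mul hk0.le,
            ENNReal.ofReal_add (p := (w0⁻¹) ^ 2) (q := 1) (by positivity) zero_le_one,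
            ENNReal.ofReal_one]
          ring
  refine ⟨hz1, ?_, ?_, hG1⟩
  · -- lower bound
    have h1 : ENNReal.ofReal (c1 * An.phi D (Real.exp ξ - z)) ≤ ENNReal.ofReal A * F := by
      refine hlo.trans ?_
      calc ∑' x, ((if x = 0 then 1 else 0) + t x) ^ 2
          ≤ ∑' x, 2 * ((if x = 0 then 1 else 0) ^ 2 + t x ^ 2) :=
            ENNReal.tsum_le_tsum fun x => add_sq_le _ _
        _ = 2 * (1 + ∑' x, t x ^ 2) := by
            rw [ENNReal.tsum_mul_left, ENNReal.tsum_add]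
            congr 2
            have h2 : ∀ x : Tv D, (if x = 0 then (1 : ℝ≥0∞) else 0) ^ 2 =
                if x = 0 then 1 else 0 := by
              intro x
              split_ifs <;> simp
            simp only [h2]
            exact tsum_ite_eq 0 _
        _ ≤ 2 * (ENNReal.ofReal ((w0⁻¹) ^ 2) * F + ENNReal.ofReal ((κ * Real.exp ξ) ^ 2) * F) :=
            mul_le_mul_right (add_le_add hone ht1) _
        _ = ENNReal.ofReal A * F := by
            rw [hA, ENNReal.ofReal_add (by positivity) (by positivity),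
              ENNReal.ofReal_mul (by norm_num), ENNReal.ofReal_mul (p := 2) (by norm_num),
              show ENNReal.ofReal 2 = 2 by norm_num]
            ring
    have h3 : c1 / A * An.phi D (Real.exp ξ - z) = A⁻¹ * (c1 * An.phi D (Real.exp ξ - z)) := by
      ring
    rw [h3, ENNReal.ofReal_mul (by positivity)]
    refine le_trans ?_ hF1
    calc ENNReal.ofReal A⁻¹ * ENNReal.ofReal (c1 * An.phi D (Real.exp ξ - z))
        ≤ ENNReal.ofReal A⁻¹ * (ENNReal.ofReal A * F) := mul_le_mul_right h1 _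
      _ = F := by
          rw [← mul_assoc, ← ENNReal.ofReal_mul (by positivity), inv_mul_cancel₀ hA0.ne',
            ENNReal.ofReal_one, one_mul]
  · -- upper bound
    refine hG1.trans ?_
    have h4 : ∑' x, t x ^ 2 ≤ ENNReal.ofReal (C1 * An.phi D (Real.exp ξ - z)) :=
      (ENNReal.tsum_le_tsum fun x => pow_le_pow_left' le_add_self 2).trans hup
    calc ENNReal.ofReal R * F
        ≤ ENNReal.ofReal R * (ENNReal.ofReal ((κ⁻¹) ^ 2) *
          ENNReal.ofReal (C1 * An.phi D (Real.exp ξ - z))) :=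
          mul_le_mul_right (ht2.trans (mul_le_mul_right h4 _)) _
      _ = _ := by
          rw [← ENNReal.ofReal_mul (by positivity), ← ENNReal.ofReal_mul hR0.le]
          congr 1
          ring

end Pool.Agent.DL
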