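import Pool.Agent.DL.Er
import Pool.Agent.DL.ConE
import Pool.Agent.DL.Ef
import Pool.Agent.DL.Df
import Pool.Agent.DL.Dg
import Pool.Agent.DL.Dh
import Pool.Agent.DL.Di
import Pool.Agent.DL.Rn7

/-!
# Assembly (row EZ): the critical coupling and the rates
-/

set_option autoImplicit false
set_option linter.unusedSectionVars false

namespace Pool.Agent.DL

open Finset Filter Topology
open scoped ENNReal

namespace Ez

theorem jok_mono {D : ℕ} {q β J1 δ δ' J : ℝ} (h : Jok D q β J1 δ J) (hd : δ ≤ δ') :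
    Jok D q β J1 δ' J := ⟨h.h1, h.h2, by have := h.h3; linarith⟩

theorem GI_le_of_SG {D : ℕ} {q β J : ℝ} {z : ℝ≥0∞} {u w : Tv D} {B : ℝ≥0∞}
    (h : ∀ L, SG D q β J z L u w ≤ B) : GI D q β J z u w ≤ B := by
  unfold GI
  refine ENNReal.tsum_le_of_sum_range_le (fun N => ?_)
  refine le_trans ?_ (h N)
  unfold SG
  exact Finset.sum_le_sum_of_subset (Finset.range_mono (Nat.le_succ N))

end Ez

open Ez in
/-- **The rates.** -/
theorem rates {D : ℕ} {q β : ℝ} (hD : 3 ≤ D) (h : Bas D q β) :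
    ∃ Jc : ℝ, 1 < Jc ∧ (∀ J, 1 ≤ J → J ≤ Jc → xiR D q β J = xiR D q β 1) ∧
      (∀ J, Jc < J → xiR D q β J < xiR D q β 1) ∧
      ∃ c > 0, ∃ C > 0, ∃ e > 0, ∀ J ∈ Set.Ioo Jc (Jc + e),
        c * An.thf D (J - Jc) ≤ xiR D q β Jc - xiR D q β J ∧
          xiR D q β Jc - xiR D q β J ≤ C * An.thf D (J - Jc) := by
  obtain ⟨Jc, J1, C1, hJc1, hJcJ1, hReg, hC1, hflat, hlt, hlip⟩ := reg_exists h
  have hB := hom_s1b h hD
  obtain ⟨ε0, ch, Ch, R, hε0, hε01, hch, hCh, hR, hl2⟩ := hom_l2 h hD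
  obtain ⟨δ1, Ca, hδ1, hCa, hA⟩ := inv_lip hReg hB
  obtain ⟨δ2, cb, hδ2, hcb, hBb⟩ := inv_ge hReg hB
  obtain ⟨δ3, Cc, hδ3, hCc, hCcc⟩ := dz_le hReg hB
  obtain ⟨δ4, cd, hδ4, hcd, hDd⟩ := dz_ge hReg hB R hR
  have hξ1 : 0 < xiR D q β 1 := xiR_one_pos h
  have hξc : xiR D q β Jc = xiR D q β 1 := hflat Jc hJc1 le_rfl
  set E : ℝ := Real.exp (xiR D q β 1) with hE
  have hE1 : 1 < E := Real.one_lt_exp_iff.2 hξ1
  have hE0 : 0 < E := by linarith
  have hzc : zc D q β = ENNReal.ofReal E := rfl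
  set δ : ℝ := min (min δ1 δ2) (min δ3 δ4) with hδ
  have hδ0 : 0 < δ := lt_min (lt_min hδ1 hδ2) (lt_min hδ3 hδ4)
  have hdd1 : δ ≤ δ1 := (min_le_left _ _).trans (min_le_left _ _)
  have hdd2 : δ ≤ δ2 := (min_le_left _ _).trans (min_le_right _ _)
  have hdd3 : δ ≤ δ3 := (min_le_right _ _).trans (min_le_left _ _)
  have hdd4 : δ ≤ δ4 := (min_le_right _ _).trans (min_le_right _ _)
  set J2 : ℝ := min J1 (Jc + δ / C1) with hJ2
  have hJcJ2 : Jc < J2 := by
    refine lt_min hJcJ1 ?_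
    have : 0 < δ / C1 := by positivity
    linarith
  have hJ21 : J2 ≤ J1 := min_le_left _ _
  have hok : ∀ J, Jc ≤ J → J ≤ J2 → Jok D q β J1 δ J := by
    intro J h1 h2
    refine ⟨hJc1.trans h1, h2.trans hJ21, ?_⟩
    have h3 := hlip Jc J hJc1 h1 (h2.trans hJ21)
    rw [hξc] at h3
    have h4 : J2 ≤ Jc + δ / C1 := min_le_right _ _
    have h5 : C1 * (J - Jc) ≤ C1 * (δ / C1) :=
      mul_le_mul_of_nonneg_left (by linarith) hC1.le
    rw [mul_div_cancel₀ _ hC1.ne'] at h5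
    linarith
  -- divergence at the critical point
  have htop : GI D q β Jc (ENNReal.ofReal E) 0 0 = ⊤ := by
    rw [← ENNReal.inv_eq_zero]
    by_contra hne
    have hpos : 0 < (GI D q β Jc (ENNReal.ofReal E) 0 0)⁻¹ := pos_iff_ne_zero.2 hne
    have hlt1 : (GI D q β Jc (ENNReal.ofReal E) 0 0)⁻¹ ≤ 1 := by
      rw [ENNReal.inv_le_one]
      exact one_le_GI hReg Jc hJc1 hJcJ1.le _
    set g : ℝ := ((GI D q β Jc (ENNReal.ofReal E) 0 0)⁻¹).toReal with hg
    have hgp : 0 < g := ENNReal.toReal_pos hne (ne_top_of_le_ne_top ENNReal.one_ne_top hlt1)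
    set J : ℝ := Jc + min (J2 - Jc) (g / (2 * Ca)) with hJ
    have hm : 0 < min (J2 - Jc) (g / (2 * Ca)) := lt_min (by linarith) (by positivity)
    have hJ1' : Jc < J := by rw [hJ]; linarith
    have hJ2' : J ≤ J2 := by
      have := min_le_left (J2 - Jc) (g / (2 * Ca))
      rw [hJ]
      linarith
    have h1 := hA Jc J hJ1'.le (jok_mono (hok Jc le_rfl hJcJ2.le) hdd1)
      (jok_mono (hok J hJ1'.le hJ2') hdd1) (ENNReal.ofReal E) (le_of_eq hzc.symm)
    have h2 : GI D q β J (ENNReal.ofReal E) 0 0 = ⊤ := by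
      refine GI_top hReg J (hJc1.trans hJ1'.le) (hJ2'.trans hJ21) E ?_
      rw [hE]
      exact Real.exp_lt_exp.2 (hlt J hJ1')
    rw [h2, ENNReal.inv_top, zero_add] at h1
    have h3 : g ≤ Ca * (J - Jc) := ENNReal.toReal_le_of_le_ofReal (by nlinarith) h1
    have h4 : Ca * (J - Jc) ≤ g / 2 := by
      have h5 : J - Jc ≤ g / (2 * Ca) := by
        rw [hJ]
        have := min_le_right (J2 - Jc) (g / (2 * Ca))
        linarith
      have h6 := mul_le_mul_of_nonneg_left h5 hCa.le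
      have h7 : Ca * (g / (2 * Ca)) = g / 2 := by field_simp
      linarith
    linarith
  have hJc : 1 < Jc := by
    rcases hJc1.lt_or_eq with h1 | h1
    · exact h1
    · exfalso
      obtain ⟨B, hB'⟩ := hB
      have h2 : GI D q β 1 (ENNReal.ofReal E) 0 0 ≤ ENNReal.ofReal B :=
        GI_le_of_SG (fun L => hB' L 0 0)
      rw [← h1] at htop
      rw [htop, top_le_iff] at h2
      exact ENNReal.ofReal_ne_top h2
  refine ⟨Jc, hJc, hflat, hlt, ?_⟩
  -- constants
  set c : ℝ := min cb (cd * ch / E) with hc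
  have hc0 : 0 < c := lt_min hcb (by positivity)
  set C : ℝ := max (max C1 Ca) (Cc * Ch) with hC
  have hC0 : 0 < C := lt_of_lt_of_le hC1 ((le_max_left _ _).trans (le_max_left _ _))
  set d0 : ℝ := min ε0 (E - 1) with hd0
  have hd00 : 0 < d0 := lt_min hε0 (by linarith)
  have hone : ∀ z, E - d0 < z → 1 < z := by
    intro z hz
    have := min_le_right ε0 (E - 1)
    linarith
  have hep : ∀ z, E - d0 < z → E - ε0 < z := by
    intro z hz
    have := min_le_left ε0 (E - 1)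
    linarith
  have hfin : ∀ (z J : ℝ), 1 ≤ J → J ≤ J1 → (GI D q β J (ENNReal.ofReal z) 0 0)⁻¹ ≠ ⊤ := by
    intro z J h1 h2
    refine ne_top_of_le_ne_top ENNReal.one_ne_top ?_
    rw [ENNReal.inv_le_one]
    exact one_le_GI hReg J h1 h2 _
  refine An.conclusion D (fun J => xiR D q β J) (fun t J => FF D q β t J)
    (fun t => FF' D q β Jc t) (Jc := Jc) (J1 := J2) (c := c) (C := C) (δ0 := d0) hJcJ2 hc0 hC0
    hd00 ?_ ?_ ?_ ?_ ?_ ?_ ?_ ?_ ?_ ?_
  · intro J hJ
    rw [hξc]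
    exact hlt J hJ.1
  · intro J hJ
    refine (hlip Jc J hJc1 hJ.1.le (hJ.2.le.trans hJ21)).trans ?_
    refine mul_le_mul_of_nonneg_right ?_ (by linarith [hJ.1])
    exact (le_max_left _ _).trans (le_max_left _ _)
  · intro J hJ z hz1 _
    unfold FF
    rw [GI_top hReg J (hJc1.trans hJ.1.le) (hJ.2.le.trans hJ21) z hz1, ENNReal.inv_top,
      ENNReal.toReal_zero]
  · intro J hJ z _ hz2
    rw [hξc] at hz2
    have h1 := hA Jc J hJ.1.le (jok_mono (hok Jc le_rfl hJcJ2.le) hdd1)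
      (jok_mono (hok J hJ.1.le hJ.2.le) hdd1) (ENNReal.ofReal z) (by
        rw [hzc]
        exact ENNReal.ofReal_le_ofReal hz2.le)
    have hJ0 : 0 ≤ Ca * (J - Jc) := mul_nonneg hCa.le (by linarith [hJ.1])
    have h2 := ENNReal.toReal_mono (ENNReal.add_ne_top.2
      ⟨hfin z J (hJc1.trans hJ.1.le) (hJ.2.le.trans hJ21), ENNReal.ofReal_ne_top⟩) h1
    rw [ENNReal.toReal_add (hfin z J (hJc1.trans hJ.1.le) (hJ.2.le.trans hJ21))
      ENNReal.ofReal_ne_top, ENNReal.toReal_ofReal hJ0] at h2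
    unfold FF
    have h3 : Ca * (J - Jc) ≤ C * (J - Jc) :=
      mul_le_mul_of_nonneg_right ((le_max_right _ _).trans (le_max_left _ _)) (by linarith [hJ.1])
    linarith
  · intro J _ z _ _
    exact ENNReal.toReal_nonneg
  · intro J hJ z hz1 hz2
    rw [hξc] at hz1
    have hzE : z < E := hz2.trans (Real.exp_lt_exp.2 (hlt J hJ.1))
    have hz1' := hone z hz1
    have h1 := hBb Jc J hJ.1.le (jok_mono (hok Jc le_rfl hJcJ2.le) hdd2)
      (jok_mono (hok J hJ.1.le hJ.2.le) hdd2) (ENNReal.ofReal z) (by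
        rw [hzc]
        exact ENNReal.ofReal_le_ofReal hzE.le) (by
        rw [← ENNReal.ofReal_one]
        exact ENNReal.ofReal_le_ofReal hz1'.le)
      (GI_ne_top hReg J (hJc1.trans hJ.1.le) (hJ.2.le.trans hJ21) z (by linarith) hz2)
    have hJ0 : 0 ≤ cb * (J - Jc) := mul_nonneg hcb.le (by linarith [hJ.1])
    have h2 := ENNReal.toReal_mono (hfin z Jc hJc1 hJcJ1.le) h1
    rw [ENNReal.toReal_add (hfin z J (hJc1.trans hJ.1.le) (hJ.2.le.trans hJ21))
      ENNReal.ofReal_ne_top, ENNReal.toReal_ofReal hJ0] at h2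
    unfold FF
    have h3 : c * (J - Jc) ≤ cb * (J - Jc) :=
      mul_le_mul_of_nonneg_right (min_le_left _ _) (by linarith [hJ.1])
    linarith
  · intro z hz
    rw [hξc] at hz
    refine FF_hasDerivAt hReg Jc hJc1 hJcJ1.le z (by linarith [hone z hz.1]) ?_
    rw [hξc]
    exact hz.2
  · -- lower bound of the derivative
    intro z hz
    rw [hξc] at hz ⊢
    have hz1 := hone z hz.1
    obtain ⟨_, hl, hu, hRr⟩ := hl2 z (hep z hz.1) hz.2
    have hne : ∑' w, GI D q β 1 (ENNReal.ofReal z) 0 w ^ 2 ≠ ⊤ :=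
      ne_top_of_le_ne_top ENNReal.ofReal_ne_top hu
    have h1 := hDd Jc (jok_mono (hok Jc le_rfl hJcJ2.le) hdd4) (ENNReal.ofReal z) (by
      rw [hzc]
      exact ENNReal.ofReal_le_ofReal hz.2.le) (by
      rw [← ENNReal.ofReal_one]
      exact ENNReal.ofReal_le_ofReal hz1.le) hne hRr
    have hG := GI_ne_top hReg Jc hJc1 hJcJ1.le z (by linarith) (by rw [hξc]; exact hz.2)
    have hG1 := one_le_GI hReg Jc hJc1 hJcJ1.le (ENNReal.ofReal z)
    have hS := FF_sum_ne_top hReg Jc hJc1 hJcJ1.le z (by linarith) (by rw [hξc]; exact hz.2)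
    set G : ℝ := (GI D q β Jc (ENNReal.ofReal z) 0 0).toReal with hGdef
    set Q : ℝ := (∑' w, GI D q β 1 (ENNReal.ofReal z) 0 w ^ 2).toReal with hQ
    set S : ℝ := (∑' n : ℕ, (n : ℝ≥0∞) * ENNReal.ofReal z ^ n * GN D q β Jc n 0 0).toReal with hSdef
    have hGp : 0 < G := ENNReal.toReal_pos (by
      intro h0
      rw [h0] at hG1
      exact absurd hG1 (by simp)) hG
    have h2 := ENNReal.toReal_mono hS h1
    rw [ENNReal.toReal_mul, ENNReal.toReal_mul, ENNReal.toReal_ofReal hcd.le,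
      ENNReal.toReal_pow] at h2
    have h3 : ch * An.phi D (E - z) ≤ Q := (ENNReal.ofReal_le_iff_le_toReal hne).1 hl
    have hFF : FF D q β z Jc = 1 / G := by
      unfold FF
      rw [ENNReal.toReal_inv, one_div]
    unfold FF'
    rw [hFF, neg_neg]
    have hphi : 0 < An.phi D (E - z) := An.phi_pos D (by linarith [hz.2]) (by
      have := hep z hz.1
      linarith)
    have h4 : cd * (ch * An.phi D (E - z)) ≤ S * (1 / G) ^ 2 := by
      have h5 : cd * G ^ 2 * (ch * An.phi D (E - z)) ≤ S :=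
        (mul_le_mul_of_nonneg_left h3 (by positivity)).trans h2
      rw [div_pow, one_pow, mul_one_div, le_div_iff₀ (by positivity)]
      linarith
    have hS0 : 0 ≤ S := ENNReal.toReal_nonneg
    have h5 : S / z * (1 / G) ^ 2 = S * (1 / G) ^ 2 / z := by ring
    rw [h5, le_div_iff₀ (by linarith)]
    have h6 : c * An.phi D (E - z) * z ≤ cd * ch / E * An.phi D (E - z) * E := by
      refine mul_le_mul ?_ hz.2.le (by linarith) (by positivity)
      exact mul_le_mul_of_nonneg_right (min_le_right _ _) hphi.le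
    have h7 : cd * ch / E * An.phi D (E - z) * E = cd * (ch * An.phi D (E - z)) := by
      field_simp
    linarith
  · -- upper bound of the derivative
    intro z hz
    rw [hξc] at hz ⊢
    have hz1 := hone z hz.1
    obtain ⟨_, hl, hu, hRr⟩ := hl2 z (hep z hz.1) hz.2
    have hne : ∑' w, GI D q β 1 (ENNReal.ofReal z) 0 w ^ 2 ≠ ⊤ :=
      ne_top_of_le_ne_top ENNReal.ofReal_ne_top hu
    have h1 := hCcc Jc (jok_mono (hok Jc le_rfl hJcJ2.le) hdd3) (ENNReal.ofReal z) (by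
      rw [hzc]
      exact ENNReal.ofReal_le_ofReal hz.2.le)
    have hG := GI_ne_top hReg Jc hJc1 hJcJ1.le z (by linarith) (by rw [hξc]; exact hz.2)
    have hG1 := one_le_GI hReg Jc hJc1 hJcJ1.le (ENNReal.ofReal z)
    set G : ℝ := (GI D q β Jc (ENNReal.ofReal z) 0 0).toReal with hGdef
    set Q : ℝ := (∑' w, GI D q β 1 (ENNReal.ofReal z) 0 w ^ 2).toReal with hQ
    set S : ℝ := (∑' n : ℕ, (n : ℝ≥0∞) * ENNReal.ofReal z ^ n * GN D q β Jc n 0 0).toReal with hSdef
    have hGp : 0 < G := ENNReal.toReal_pos (by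
      intro h0
      rw [h0] at hG1
      exact absurd hG1 (by simp)) hG
    have h2 := ENNReal.toReal_mono (ENNReal.mul_ne_top (ENNReal.mul_ne_top ENNReal.ofReal_ne_top
      (ENNReal.pow_ne_top hG)) hne) h1
    rw [ENNReal.toReal_mul, ENNReal.toReal_mul, ENNReal.toReal_ofReal hCc.le,
      ENNReal.toReal_pow] at h2
    have hphi : 0 < An.phi D (E - z) := An.phi_pos D (by linarith [hz.2]) (by
      have := hep z hz.1
      linarith)
    have h3 : Q ≤ Ch * An.phi D (E - z) := ENNReal.toReal_le_of_le_ofReal (by positivity) hu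
    have hFF : FF D q β z Jc = 1 / G := by
      unfold FF
      rw [ENNReal.toReal_inv, one_div]
    unfold FF'
    rw [hFF, neg_neg]
    have h4 : S * (1 / G) ^ 2 ≤ Cc * (Ch * An.phi D (E - z)) := by
      have h5 : S ≤ Cc * G ^ 2 * (Ch * An.phi D (E - z)) :=
        h2.trans (mul_le_mul_of_nonneg_left h3 (by positivity))
      rw [div_pow, one_pow, mul_one_div, div_le_iff₀ (by positivity)]
      linarith
    have hS0 : 0 ≤ S := ENNReal.toReal_nonneg
    have h5 : S / z * (1 / G) ^ 2 ≤ S * (1 / G) ^ 2 := by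
      refine mul_le_mul_of_nonneg_right ?_ (by positivity)
      exact div_le_self hS0 hz1.le
    have h6 : Cc * (Ch * An.phi D (E - z)) ≤ C * An.phi D (E - z) := by
      rw [← mul_assoc]
      exact mul_le_mul_of_nonneg_right (le_max_right _ _) hphi.le
    linarith
  · rw [hξc]
    exact FF_tendsto hReg Jc hJc1 hJcJ1.le E hE0 htop

end Pool.Agent.DL
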