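import Pool.Agent.DL.FKC

/-!
# Covariance of a connection and an edge; derivative in the weights
-/

set_option autoImplicit false
set_option linter.unusedSectionVars false

namespace Pool.Agent.DL

open Finset

namespace Gr

variable {V ι : Type} [DecidableEq V] [DecidableEq ι] (G : Gr V ι)

section E

variable (q : ℝ) (v : ι → ℝ)

/-- Given the cluster of `x`, an edge outside of it is open with at most its probability. -/
theorem pr_far_le (hq : 1 ≤ q) (hv : ∀ e, 0 ≤ v e) (Ed : Finset ι) (x y : V) (e : ι) :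
    G.pr q v Ed (fun ω => G.Rch ω x y ∧ e ∈ ω ∧ ¬ G.Rch ω x (G.s e)) ≤
      G.tp q v Ed x y * G.pr q v Ed (fun ω => e ∈ ω) := by
  classical
  have hq0 : 0 < q := by linarith
  unfold tp
  rw [G.pr_sum_cls q v Ed x (fun ω => G.Rch ω x y ∧ e ∈ ω ∧ ¬ G.Rch ω x (G.s e)),
    G.pr_sum_cls q v Ed x (fun ω => G.Rch ω x y), Finset.sum_mul]
  refine Finset.sum_le_sum fun A _ => ?_
  rw [Finset.sum_mul]
  refine Finset.sum_le_sum fun E hE => ?_
  rw [Finset.mem_powerset] at hE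
  by_cases h : G.IsCl A E ∧ x ∈ A
  swap
  · rw [if_neg h, if_neg h, zero_mul]
  rw [if_pos h, if_pos h]
  by_cases hy : y ∈ A ∧ G.s e ∉ A
  · have e1 : G.pr q v Ed (fun ω => G.tch A ω = E ∧ G.Rch ω x y) = cw q v A E * G.ze q v Ed A := by
      rw [← G.pr_cl q v hq0 hv Ed h.1 hE]
      refine G.pr_congr q v Ed fun ω _ => ?_
      constructor
      · exact fun h' => h'.1
      · exact fun h' => ⟨h', (G.cls_iff ⟨h.1, h.2, h'⟩ y).1 hy.1⟩
    have e2 : G.pr q v Ed (fun ω => G.tch A ω = E ∧ G.Rch ω x y ∧ e ∈ ω ∧ ¬ G.Rch ω x (G.s e)) ≤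
        G.pr q v Ed (fun ω => G.tch A ω = E ∧ e ∈ G.del A ω) := by
      refine G.pr_le q v hq0 hv Ed _ _ fun ω _ h' => ?_
      obtain ⟨h1, _, h3, h4⟩ := h'
      refine ⟨h1, ?_⟩
      have hc : G.Cls ω x A E := ⟨h.1, h.2, h1⟩
      refine G.mem_del.2 ⟨h3, hy.2, ?_⟩
      intro h5
      exact h4 (G.rch_trans ((G.cls_iff hc _).1 h5) (G.rch_symm (G.rch_edge h3)))
    rw [e1]
    refine e2.trans ?_
    rw [G.pr_cls_and q v hq0 hv Ed h.1 hE (fun ω => e ∈ ω)]
    refine mul_le_mul_of_nonneg_left ?_ ?_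
    · exact G.pr_mono_edges q v hq hv (G.del_subset A Ed) _ (fun a b hab ha => hab ha)
    · rw [← G.pr_cl q v hq0 hv Ed h.1 hE]
      exact G.pr_nonneg q v hq0 hv Ed _
  · have e2 : G.pr q v Ed
        (fun ω => G.tch A ω = E ∧ G.Rch ω x y ∧ e ∈ ω ∧ ¬ G.Rch ω x (G.s e)) = 0 := by
      refine G.pr_false q v Ed _ fun ω _ h' => ?_
      obtain ⟨h1, h2, _, h4⟩ := h'
      have hc : G.Cls ω x A E := ⟨h.1, h.2, h1⟩
      exact hy ⟨(G.cls_iff hc y).2 h2, fun h5 => h4 ((G.cls_iff hc _).1 h5)⟩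
    rw [e2]
    exact mul_nonneg (G.pr_nonneg q v hq0 hv Ed _) (G.pr_nonneg q v hq0 hv Ed _)

/-- Upper bound of the covariance of a connection and an edge. -/
theorem cov_le (hq : 1 ≤ q) (hv : ∀ e, 0 ≤ v e) (Ed : Finset ι) (x y : V) (e : ι) :
    G.pr q v Ed (fun ω => G.Rch ω x y ∧ e ∈ ω) -
      G.tp q v Ed x y * G.pr q v Ed (fun ω => e ∈ ω) ≤
      G.pr q v Ed (fun ω => G.Rch ω x y ∧ e ∈ ω ∧ G.Rch ω x (G.s e)) := by
  have h1 := G.pr_far_le q v hq hv Ed x y e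
  rw [G.pr_add q v Ed (fun ω => G.Rch ω x y ∧ e ∈ ω) (fun ω => G.Rch ω x (G.s e))]
  simp only [and_assoc]
  linarith

/-- Lower bound. -/
theorem cov_ge (hq : 1 ≤ q) (hv : ∀ e, 0 ≤ v e) (Ed : Finset ι) (x y : V) (e : ι) (he : e ∈ Ed) :
    v e / (v e + q) * G.pr q v Ed (fun ω => e ∉ ω ∧ G.Rch ω x (G.s e) ∧ G.Rch ω (G.t e) y ∧
      ¬ G.Rch ω x y) ≤
      G.pr q v Ed (fun ω => G.Rch ω x y ∧ e ∈ ω) -
        G.tp q v Ed x y * G.pr q v Ed (fun ω => e ∈ ω) := by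
  have hq0 : 0 < q := by linarith
  set P := G.pr q v Ed (fun ω => G.Rch (insert e ω) x y) with hP
  set a := G.pr q v Ed (fun ω => e ∈ ω) with ha
  set c := G.pr q v Ed (fun ω => e ∉ ω ∧ G.Rch ω x (G.s e) ∧ G.Rch ω (G.t e) y ∧
      ¬ G.Rch ω x y) with hc
  have h1 : P * a ≤ G.pr q v Ed (fun ω => G.Rch ω x y ∧ e ∈ ω) := by
    refine (G.pr_mul_le q v hq hv Ed _ _ (fun u w huw h => ?_) (fun u w huw h => huw h)).trans ?_
    · exact G.rch_mono (insert_subset_insert e huw) h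
    · refine G.pr_le q v hq0 hv Ed _ _ fun ω _ h => ⟨?_, h.2⟩
      have := h.1
      rwa [insert_eq_of_mem h.2] at this
  have h2 : G.tp q v Ed x y + c ≤ P := by
    unfold tp
    rw [hP, G.pr_add q v Ed (fun ω => G.Rch (insert e ω) x y) (fun ω => G.Rch ω x y)]
    refine add_le_add ?_ ?_
    · refine G.pr_le q v hq0 hv Ed _ _ fun ω _ h => ⟨?_, h⟩
      exact G.rch_mono (subset_insert e ω) h
    · refine G.pr_le q v hq0 hv Ed _ _ fun ω _ h => ⟨?_, h.2.2.2⟩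
      have hsub := subset_insert e ω
      exact G.rch_trans (G.rch_mono hsub h.2.1)
        (G.rch_trans (G.rch_edge (mem_insert_self e ω)) (G.rch_mono hsub h.2.2.1))
  have h3 : v e / (v e + q) ≤ a := G.pr_open_ge q v hq hv Ed e he
  have h4 : 0 ≤ c := G.pr_nonneg q v hq0 hv Ed _
  have h5 : 0 ≤ a := G.pr_nonneg q v hq0 hv Ed _
  nlinarith

end E

section Der

variable (q : ℝ)

/-- Derivative of a weight. -/
theorem hasDerivAt_wt (S : Finset ι) (w : ℝ → ι → ℝ) (r r' : ℝ) (J : ℝ) (hr : 0 < r)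
    (ω : Finset ι)
    (hwS : ∀ e ∈ S, w J e = r ∧ HasDerivAt (fun s => w s e) r' J)
    (hwn : ∀ e ∈ ω, e ∉ S → ∀ s, w s e = w J e) :
    HasDerivAt (fun s => G.wt q (w s) ω) (r' / r * ((S.filter fun e => e ∈ ω).card *
      G.wt q (w J) ω)) J := by
  unfold wt
  have h1 : HasDerivAt (fun s => ∏ e ∈ ω, w s e)
      (∑ e ∈ ω, (∏ j ∈ ω.erase e, w J j) • (if e ∈ S then r' else 0)) J := by
    refine HasDerivAt.fun_finsetProd fun e he => ?_
    split_ifs with h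
    · exact (hwS e h).2
    · have h2 : (fun s => w s e) = fun _ => w J e := funext fun s => hwn e he h s
      rw [h2]
      exact hasDerivAt_const J _
  have h2 : ∑ e ∈ ω, (∏ j ∈ ω.erase e, w J j) • (if e ∈ S then r' else 0) =
      r' / r * ((S.filter fun e => e ∈ ω).card * ∏ e ∈ ω, w J e) := by
    have h3 : ∀ e ∈ ω, (∏ j ∈ ω.erase e, w J j) • (if e ∈ S then r' else 0) =
        if e ∈ S then r' / r * ∏ e ∈ ω, w J e else 0 := by
      intro e he
      split_ifs with h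
      · rw [← mul_prod_erase ω (fun j => w J j) he, (hwS e h).1, smul_eq_mul]
        field_simp
      · rw [smul_zero]
    rw [sum_congr rfl h3, ← sum_filter, sum_const, nsmul_eq_mul]
    have h4 : ω.filter (fun e => e ∈ S) = S.filter fun e => e ∈ ω := by
      ext e
      simp only [mem_filter]
      tauto
    rw [h4]
    ring
  rw [h2] at h1
  exact (h1.mul_const ((q⁻¹) ^ G.rk ω)).congr_deriv (by ring)

/-- Derivative of the unnormalised measure of an event. -/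
theorem hasDerivAt_sm (Ed S : Finset ι) (w : ℝ → ι → ℝ) (r r' : ℝ) (J : ℝ)
    (hr : 0 < r)
    (hwS : ∀ e ∈ S, w J e = r ∧ HasDerivAt (fun s => w s e) r' J)
    (hwn : ∀ e ∈ Ed, e ∉ S → ∀ s, w s e = w J e) (A : Finset ι → Prop) :
    HasDerivAt (fun s => G.sm q (w s) Ed A)
      (r' / r * ∑ e ∈ S, G.sm q (w J) Ed (fun ω => A ω ∧ e ∈ ω)) J := by
  classical
  unfold sm
  have h1 : HasDerivAt (fun s => ∑ ω ∈ Ed.powerset.filter A, G.wt q (w s) ω)
      (∑ ω ∈ Ed.powerset.filter A, r' / r * ((S.filter fun e => e ∈ ω).card *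
      G.wt q (w J) ω)) J := by
    refine HasDerivAt.fun_sum fun ω hω => ?_
    have h2 : ω ⊆ Ed := mem_powerset.1 (mem_filter.1 hω).1
    exact G.hasDerivAt_wt q S w r r' J hr ω hwS fun e he => hwn e (h2 he)
  have h3 : ∀ e ∈ S, ∑ ω ∈ Ed.powerset.filter (fun ω => A ω ∧ e ∈ ω), G.wt q (w J) ω =
      ∑ ω ∈ Ed.powerset.filter A, if e ∈ ω then G.wt q (w J) ω else 0 := by
    intro e _
    rw [sum_filter, sum_filter]
    refine sum_congr rfl fun ω _ => ?_
    by_cases hA : A ω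
    · simp only [hA, true_and, if_true]
    · simp only [hA, false_and, if_false]
  have h4 : ∑ e ∈ S, ∑ ω ∈ Ed.powerset.filter (fun ω => A ω ∧ e ∈ ω), G.wt q (w J) ω =
      ∑ ω ∈ Ed.powerset.filter A, (S.filter fun e => e ∈ ω).card * G.wt q (w J) ω := by
    rw [sum_congr rfl h3, sum_comm]
    refine sum_congr rfl fun ω _ => ?_
    rw [← sum_filter, sum_const, nsmul_eq_mul]
  have h5 := h1
  rw [← mul_sum, ← h4] at h5
  convert h5 using 5

/-- The derivative if the weights of the edges of `S` depend on a parameter. -/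
theorem hasDerivAt_pr (hq : 0 < q) (Ed S : Finset ι) (w : ℝ → ι → ℝ) (r r' : ℝ) (J : ℝ)
    (hw0 : ∀ e, 0 ≤ w J e) (hr : 0 < r) (_hS : S ⊆ Ed)
    (hwS : ∀ e ∈ S, w J e = r ∧ HasDerivAt (fun s => w s e) r' J)
    (hwn : ∀ e ∈ Ed, e ∉ S → ∀ s, w s e = w J e) (A : Finset ι → Prop) :
    HasDerivAt (fun s => G.pr q (w s) Ed A)
      (r' / r * ∑ e ∈ S, (G.pr q (w J) Ed (fun ω => A ω ∧ e ∈ ω) -
        G.pr q (w J) Ed A * G.pr q (w J) Ed (fun ω => e ∈ ω))) J := by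
  have hz := G.zz_pos q (w J) hq hw0 Ed
  have h1 := G.hasDerivAt_sm q Ed S w r r' J hr hwS hwn A
  have h2 := G.hasDerivAt_sm q Ed S w r r' J hr hwS hwn (fun _ => True)
  simp only [sm_true, true_and] at h2
  have h3 := h1.fun_div h2 (by exact hz.ne')
  simp only [pr_eq_sm]
  refine h3.congr_deriv ?_
  rw [sum_sub_distrib, ← mul_sum, ← sum_div, ← sum_div]
  field_simp

end Der

end Gr

end Pool.Agent.DL
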