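import Pool.Agent.DL.Bdry
import Mathlib

/-!
# Gibbs measures of the Potts model with a defect line
-/

set_option autoImplicit false
set_option linter.unusedSectionVars false

namespace Pool.Agent.DL

open MeasureTheory

open Classical in
/-- The Gibbs specification: the probability of `A` in `Λ` for the boundary condition `η`. -/
noncomputable def gam (D q : ℕ) [NeZero q] (β J : ℝ) (Λ : Finset (SB.Site D))
    (A : Set (SB.Site D → ZMod q)) (η : SB.Site D → ZMod q) : ℝ :=
  (∑ s : Λ → ZMod q, if bx η s ∈ A then Real.exp (β * enB J Λ η s) else 0) /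
    ∑ s : Λ → ZMod q, Real.exp (β * enB J Λ η s)

/-- `ν` is a Gibbs measure of the model in infinite volume (the condition of Dobrushin, Lanford
and Ruelle). -/
structure IsGibbs (D q : ℕ) [NeZero q] (β J : ℝ) (ν : Measure (SB.Site D → ZMod q)) : Prop where
  prob : IsProbabilityMeasure ν
  dlr : ∀ (Λ : Finset (SB.Site D)) (A : Set (SB.Site D → ZMod q)), MeasurableSet A →
    ν.real A = ∫ η, gam D q β J Λ A η ∂ν

end Pool.Agent.DL
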