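import Pool.Agent.DL.Uniq
import Pool.Agent.DL.Gdef

/-!
# The Gibbs measures of the model with a defect line
-/

set_option autoImplicit false
set_option linter.unusedSectionVars false

namespace Pool.Agent.DL.Gibbs

open MeasureTheory Filter Topology

variable {D q : ℕ} [NeZero q]

theorem meas_bx {Λ : Finset (SB.Site D)} (s : Λ → ZMod q) (x : SB.Site D) :
    Measurable fun η : SB.Site D → ZMod q => bx η s x := by
  unfold bx
  by_cases h : x ∈ Λ
  · simp only [dif_pos h]
    exact measurable_const
  · simp only [dif_neg h]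
    exact measurable_pi_apply x

theorem meas_eq {Λ : Finset (SB.Site D)} (s : Λ → ZMod q) (x y : SB.Site D) :
    MeasurableSet {η : SB.Site D → ZMod q | bx η s x = bx η s y} :=
  measurableSet_eq_fun (meas_bx s x) (meas_bx s y)

theorem meas_ite {Λ : Finset (SB.Site D)} (s : Λ → ZMod q) (x y : SB.Site D)
    {f : (SB.Site D → ZMod q) → ℝ} (hf : Measurable f) :
    Measurable fun η : SB.Site D → ZMod q => if bx η s x = bx η s y then f η else 0 :=
  Measurable.ite (meas_eq s x y) hf measurable_const

theorem meas_enB (J : ℝ) (Λ : Finset (SB.Site D)) (s : Λ → ZMod q) :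
    Measurable fun η : SB.Site D → ZMod q => enB J Λ η s := by
  unfold enB
  refine Measurable.add (Measurable.const_mul ?_ _) ?_
  · refine Finset.measurable_fun_sum _ fun x _ => Finset.measurable_fun_sum _ fun y _ => ?_
    by_cases h : SB.dist1 x y = 1
    · simp only [h, true_and]
      exact meas_ite s x y measurable_const
    · simp only [h, false_and, if_false]
      exact measurable_const
  · refine Finset.measurable_fun_sum _ fun x _ => Finset.measurable_fun_sum _ fun y _ => ?_
    exact meas_ite s x y measurable_const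

theorem meas_sameB (β J : ℝ) (Λ : Finset (SB.Site D)) (x y : SB.Site D) :
    Measurable fun η : SB.Site D → ZMod q => sameB D q β J Λ η x y := by
  unfold sameB
  have h : ∀ s : Λ → ZMod q, Measurable fun η : SB.Site D → ZMod q =>
      Real.exp (β * enB J Λ η s) := fun s =>
    Real.measurable_exp.comp ((meas_enB J Λ s).const_mul β)
  refine Measurable.div ?_ ?_
  · exact Finset.measurable_fun_sum _ fun s _ => meas_ite s x y (h s)
  · exact Finset.measurable_fun_sum _ fun s _ => h s

theorem gam_same (β J : ℝ) (Λ : Finset (SB.Site D)) (η : SB.Site D → ZMod q) (x y : SB.Site D) :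
    gam D q β J Λ {σ | σ x = σ y} η = sameB D q β J Λ η x y := by
  classical
  unfold gam sameB
  congr 1
  refine Finset.sum_congr rfl fun s _ => ?_
  by_cases h : bx η s x = bx η s y
  · rw [if_pos h, if_pos]
    exact h
  · rw [if_neg h, if_neg]
    exact h

end Pool.Agent.DL.Gibbs

namespace Pool.Agent.DL

open MeasureTheory Filter Topology

/-- **The value under every Gibbs measure** is the limit for the free boundary condition. -/
theorem gibbs_same {D q : ℕ} [NeZero q] (hq : 2 ≤ q) {β : ℝ} (h : Bas D (q : ℝ) β) {J : ℝ}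
    (hJ : 0 ≤ J) {ν : Measure (SB.Site D → ZMod q)} (hν : IsGibbs D q β J ν) (x y : Site D)
    {l : ℝ} (hl : Tendsto (fun L : ℕ => SB.same D q β J (SB.box D L) x y) atTop (𝓝 l)) :
    ν.real {σ | σ x = σ y} = l := by
  have hp := hν.prob
  refine eq_of_forall_dist_le fun ε hε => ?_
  obtain ⟨L0, hL0⟩ := uniq hq h hJ x y hl ε hε
  have h0 := hL0 L0 le_rfl
  have hA : MeasurableSet {σ : SB.Site D → ZMod q | σ x = σ y} :=
    measurableSet_eq_fun (measurable_pi_apply x) (measurable_pi_apply y)
  rw [hν.dlr (SB.box D L0) _ hA]
  simp only [Gibbs.gam_same]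
  have hint : Integrable (fun η => sameB D q β J (SB.box D L0) η x y) ν := by
    refine Integrable.of_bound (C := |l| + ε)
      (Gibbs.meas_sameB β J (SB.box D L0) x y).aestronglyMeasurable (Eventually.of_forall fun η => ?_)
    rw [Real.norm_eq_abs]
    have := (h0 η).le
    have h2 := abs_sub_abs_le_abs_sub (sameB D q β J (SB.box D L0) η x y) l
    linarith
  have h1 : (∫ η, sameB D q β J (SB.box D L0) η x y ∂ν) - l =
      ∫ η, (sameB D q β J (SB.box D L0) η x y - l) ∂ν := by
    rw [integral_sub hint (integrable_const l), integral_const, probReal_univ, one_smul]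
  rw [Real.dist_eq, h1, ← Real.norm_eq_abs]
  refine (norm_integral_le_of_norm_le_const (C := ε) (Eventually.of_forall fun η => ?_)).trans
    (le_of_eq ?_)
  · rw [Real.norm_eq_abs]
    exact (h0 η).le
  · rw [probReal_univ, mul_one]

end Pool.Agent.DL
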