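import Mathlib

/-!
# Two integration lemmas

If `f` is nondecreasing and positive and its increments are at most `C (y - x) f(y)²`, then the
increments of `1 / f` are at most `C (y - x)` in absolute value; if they are at least
`c (y - x) f(x)²` then those of `1 / f` are at least `c (y - x)`.
-/

set_option autoImplicit false

namespace Pool.Agent.DL.Integ

open Finset Filter Topology

/-- A real number smaller than `a + b / (N + 1)` for all `N` is at most `a`. -/
theorem le_of_forall_div {x a b : ℝ} (h : ∀ N : ℕ, x ≤ a + b / (N + 1)) : x ≤ a := by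
  have h1 : Tendsto (fun N : ℕ => a + b / ((N : ℝ) + 1)) atTop (𝓝 (a + 0)) :=
    tendsto_const_nhds.add (tendsto_const_div_add_atTop_nhds_zero_nat b)
  rw [add_zero] at h1
  exact ge_of_tendsto' h1 h
where
  tendsto_const_div_add_atTop_nhds_zero_nat (b : ℝ) :
      Tendsto (fun N : ℕ => b / ((N : ℝ) + 1)) atTop (𝓝 0) := by
    have h2 : Tendsto (fun N : ℕ => b * (1 / ((N : ℝ) + 1))) atTop (𝓝 (b * 0)) :=
      tendsto_const_nhds.mul tendsto_one_div_add_atTop_nhds_zero_nat
    rw [mul_zero] at h2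
    refine h2.congr fun N => ?_
    rw [mul_one_div]

/-- Telescoping over a partition of `[a, b]` into `N + 1` equal parts. -/
theorem partition_le {g : ℝ → ℝ} {a b K : ℝ} (N : ℕ) (hab : a ≤ b)
    (h : ∀ x y, a ≤ x → x ≤ y → y ≤ b → y - x = (b - a) / (N + 1) → g x - g y ≤ K) :
    g a - g b ≤ (N + 1) * K := by
  have hN : (0 : ℝ) < (N : ℝ) + 1 := by positivity
  set d := (b - a) / ((N : ℝ) + 1) with hd
  have hd0 : 0 ≤ d := div_nonneg (by linarith) hN.le
  have hb : a + ((N : ℝ) + 1) * d = b := by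
    rw [hd]
    field_simp
    ring
  have key : ∀ k : ℕ, k ≤ N + 1 → g a - g (a + k * d) ≤ k * K := by
    intro k
    induction k with
    | zero => intro _; simp
    | succ k ih =>
      intro hk
      have h1 := ih (by omega)
      have hk' : ((k : ℝ) + 1) ≤ (N : ℝ) + 1 := by exact_mod_cast hk
      have h2 := h (a + k * d) (a + ((k : ℝ) + 1) * d) (by nlinarith [(Nat.cast_nonneg k : (0:ℝ) ≤ k)])
        (by nlinarith) (by nlinarith) (by ring)
      push_cast
      linarith
  have h3 := key (N + 1) le_rfl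
  push_cast at h3
  rwa [hb] at h3

/-- Upper bound for the decrease of `1 / f`. -/
theorem inv_sub_inv_le {f : ℝ → ℝ} {a b C : ℝ} (hab : a ≤ b) (hC : 0 ≤ C)
    (hpos : ∀ x, a ≤ x → x ≤ b → 0 < f x)
    (hmono : ∀ x y, a ≤ x → x ≤ y → y ≤ b → f x ≤ f y)
    (h : ∀ x y, a ≤ x → x ≤ y → y ≤ b → f y - f x ≤ C * (y - x) * f y ^ 2) :
    (f a)⁻¹ - (f b)⁻¹ ≤ C * (b - a) := by
  have ha := hpos a le_rfl hab
  have hb := hpos b hab le_rfl
  refine le_of_forall_div (b := C * (b - a) * (C * (b - a) * f b ^ 2 / f a)) fun N => ?_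
  have hN : (0 : ℝ) < (N : ℝ) + 1 := by positivity
  set d := (b - a) / ((N : ℝ) + 1) with hd
  have hd0 : 0 ≤ d := div_nonneg (by linarith) hN.le
  have h1 := partition_le (g := fun x => (f x)⁻¹) (a := a) (b := b)
    (K := C * d * (1 + C * d * f b ^ 2 / f a)) N hab ?_
  · refine h1.trans (le_of_eq ?_)
    rw [hd]
    field_simp
  · intro x y hx hxy hy hyx
    have hfx := hpos x hx (hxy.trans hy)
    have hfy := hpos y (hx.trans hxy) hy
    have e1 : (f x)⁻¹ - (f y)⁻¹ = (f y - f x) / (f x * f y) := by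
      field_simp
    have h2 := h x y hx hxy hy
    rw [hyx] at h2
    have h3 : f y ^ 2 ≤ f b ^ 2 := by
      have := hmono y b (hx.trans hxy) hy le_rfl
      gcongr
    have h4 : f a ≤ f x := hmono a x le_rfl hx (hxy.trans hy)
    have h5 : f y / f x ≤ 1 + C * d * f b ^ 2 / f a := by
      have : f y / f x = 1 + (f y - f x) / f x := by field_simp; ring
      rw [this]
      have h6 : (f y - f x) / f x ≤ C * d * f b ^ 2 / f a := by
        have h7 : f y - f x ≤ C * d * f b ^ 2 :=
          h2.trans (mul_le_mul_of_nonneg_left h3 (mul_nonneg hC hd0))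
        have h8 : 0 ≤ C * d * f b ^ 2 := by positivity
        exact div_le_div₀ h8 h7 ha h4
      linarith
    rw [e1]
    calc (f y - f x) / (f x * f y) ≤ C * d * f y ^ 2 / (f x * f y) :=
          div_le_div_of_nonneg_right h2 (by positivity)
      _ = C * d * (f y / f x) := by field_simp
      _ ≤ C * d * (1 + C * d * f b ^ 2 / f a) :=
          mul_le_mul_of_nonneg_left h5 (mul_nonneg hC hd0)

/-- Lower bound for the decrease of `1 / f`. -/
theorem le_inv_sub_inv {f : ℝ → ℝ} {a b c C : ℝ} (hab : a ≤ b) (hc : 0 ≤ c) (hC : 0 ≤ C)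
    (hpos : ∀ x, a ≤ x → x ≤ b → 0 < f x)
    (hmono : ∀ x y, a ≤ x → x ≤ y → y ≤ b → f x ≤ f y)
    (h : ∀ x y, a ≤ x → x ≤ y → y ≤ b → f y - f x ≤ C * (y - x) * f y ^ 2)
    (h' : ∀ x y, a ≤ x → x ≤ y → y ≤ b → c * (y - x) * f x ^ 2 ≤ f y - f x) :
    c * (b - a) ≤ (f a)⁻¹ - (f b)⁻¹ := by
  have ha := hpos a le_rfl hab
  have hb := hpos b hab le_rfl
  refine le_of_forall_div (b := c * (b - a) * (C * (b - a) * f b)) fun N => ?_
  have hN : (0 : ℝ) < (N : ℝ) + 1 := by positivity
  set d := (b - a) / ((N : ℝ) + 1) with hd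
  have hd0 : 0 ≤ d := div_nonneg (by linarith) hN.le
  have h1 := partition_le (g := fun x => -(f x)⁻¹) (a := a) (b := b)
    (K := -(c * d * (1 - C * d * f b))) N hab ?_
  · have h2 : ((N : ℝ) + 1) * -(c * d * (1 - C * d * f b)) =
        -(c * (b - a)) + c * (b - a) * (C * (b - a) * f b) / ((N : ℝ) + 1) := by
      rw [hd]
      field_simp
      ring
    rw [h2] at h1
    linarith
  · intro x y hx hxy hy hyx
    have hfx := hpos x hx (hxy.trans hy)
    have hfy := hpos y (hx.trans hxy) hy
    have e1 : (f x)⁻¹ - (f y)⁻¹ = (f y - f x) / (f x * f y) := by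
      field_simp
    have h2 := h x y hx hxy hy
    have h3 := h' x y hx hxy hy
    rw [hyx] at h2 h3
    have h4 : f y ≤ f b := hmono y b (hx.trans hxy) hy le_rfl
    have h5 : 1 - C * d * f b ≤ f x / f y := by
      have e2 : f x / f y = 1 - (f y - f x) / f y := by field_simp; ring
      rw [e2]
      have h6 : (f y - f x) / f y ≤ C * d * f b := by
        rw [div_le_iff₀ hfy]
        calc f y - f x ≤ C * d * f y ^ 2 := h2
          _ = C * d * f y * f y := by ring
          _ ≤ C * d * f b * f y := by gcongr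
      linarith
    have h7 : c * d * (1 - C * d * f b) ≤ (f x)⁻¹ - (f y)⁻¹ := by
      rw [e1]
      calc c * d * (1 - C * d * f b) ≤ c * d * (f x / f y) :=
            mul_le_mul_of_nonneg_left h5 (mul_nonneg hc hd0)
        _ = c * d * f x ^ 2 / (f x * f y) := by field_simp
        _ ≤ (f y - f x) / (f x * f y) := div_le_div_of_nonneg_right h3 (by positivity)
    linarith

end Pool.Agent.DL.Integ
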