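import Mathlib

/-!
# The recursion for the number of nice good cuts
-/

set_option autoImplicit false

namespace Pool.Agent.DL

open Finset

theorem recur_le (a : ℕ → ℝ) (ρ M : ℝ) (k0 : ℕ) (h : ∀ k < k0, a k ≤ ρ + a (k + 1) / 2)
    (hk0 : a k0 ≤ 2 * ρ + M) : ∀ k ≤ k0, a k ≤ 2 * ρ + M / 2 ^ (k0 - k) := by
  intro k hk
  obtain ⟨j, rfl⟩ := Nat.exists_eq_add_of_le hk
  induction j generalizing k with
  | zero => simpa using hk0
  | succ j ih =>
    have h1 := h k (by omega)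
    have h2 := ih (k + 1) (by rwa [show k + 1 + j = k + (j + 1) by ring]) (by
      rwa [show k + 1 + j = k + (j + 1) by ring]) (by omega)
    have e1 : k + 1 + j - (k + 1) = j := by omega
    have e2 : k + (j + 1) - k = j + 1 := by omega
    rw [e1] at h2
    rw [e2, pow_succ]
    have e3 : M / (2 ^ j * 2) = M / 2 ^ j / 2 := by
      rw [div_div]
    rw [e3]
    linarith

theorem recur_sum (a : ℕ → ℝ) (ρ M : ℝ) (k0 K : ℕ) (hM : 0 ≤ M) (hK : K ≤ k0)
    (h : ∀ k < k0, a k ≤ ρ + a (k + 1) / 2) (hk0 : a k0 ≤ 2 * ρ + M) :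
    ∑ k ∈ range (K + 1), a k ≤ (K + 1) * (2 * ρ + M / 2 ^ (k0 - K)) := by
  have h1 : ∀ k ∈ range (K + 1), a k ≤ 2 * ρ + M / 2 ^ (k0 - K) := by
    intro k hk
    rw [mem_range] at hk
    refine (recur_le a ρ M k0 h hk0 k (by omega)).trans ?_
    have : M / 2 ^ (k0 - k) ≤ M / 2 ^ (k0 - K) :=
      div_le_div_of_nonneg_left hM (by positivity)
        (pow_le_pow_right₀ (by norm_num) (by omega))
    linarith
  refine (sum_le_sum h1).trans (le_of_eq ?_)
  rw [sum_const, card_range, nsmul_eq_mul]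
  push_cast
  ring

/-- The recursion in the form in which it is used: `a k ≤ ρ + (C (k + 1) / n) a (k + 1)` and all
`a k ≤ M`. -/
theorem recur_main (a : ℕ → ℝ) (ρ M C n : ℝ) (K : ℕ) (ha : ∀ k, 0 ≤ a k) (hρ : 0 ≤ ρ) (hM : 0 ≤ M)
    (hn : 0 < n) (hC : 0 < C) (hK : 4 * C * K ≤ n)
    (h : ∀ k < 2 * K, a k ≤ ρ + C * (k + 1) / n * a (k + 1)) (hk0 : ∀ k, a k ≤ M) :
    ∑ k ∈ range (K + 1), a k ≤ (K + 1) * (2 * ρ + M / 2 ^ K) := by
  have h1 : ∀ k < 2 * K, a k ≤ ρ + a (k + 1) / 2 := by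
    intro k hk
    have h2 := h k hk
    have h3 : C * (k + 1) / n ≤ 1 / 2 := by
      rw [div_le_iff₀ hn]
      have h4 : (k : ℝ) + 1 ≤ 2 * K := by
        have : k + 1 ≤ 2 * K := hk
        exact_mod_cast this
      nlinarith
    have h5 : C * (k + 1) / n * a (k + 1) ≤ 1 / 2 * a (k + 1) :=
      mul_le_mul_of_nonneg_right h3 (ha _)
    linarith
  have h2 := recur_sum a ρ M (2 * K) K hM (by omega) h1 ((hk0 _).trans (by linarith))
  have e : 2 * K - K = K := by omega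
  rwa [e] at h2

end Pool.Agent.DL
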