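import Pool.Agent.DL.Theta
import Pool.Agent.DL.MGDefs

/-!
# Crossing and deep slab components

The exploration bound `Gr.theta_le` applied to slabs of `K` heights: each crossing component costs
`pc`, each deep component costs `pd`, each point at a boundary height a constant.
-/

set_option autoImplicit false
set_option linter.unusedSectionVars false

namespace Pool.Agent.DL

open Finset

variable {D : ℕ}

namespace Slb

theorem t_fst (e : Edge D) : ((lat D).t e).1 = ((lat D).s e).1 + if e.2 = none then 1 else 0 := by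
  obtain ⟨x, i⟩ := e
  cases i with
  | none => simp [lat, SB.dir]
  | some i => simp [lat, SB.dir]

theorem div_add_one {K : ℤ} (hK : 0 < K) {h : ℤ} (hne : h / K ≠ (h + 1) / K) :
    h % K = K - 1 ∧ (h + 1) % K = 0 := by
  have h1 := Int.emod_add_mul_ediv h K
  have h2 := Int.emod_nonneg h hK.ne'
  have h3 := Int.emod_lt_of_pos h hK
  have h4 : h % K = K - 1 := by
    by_contra hc
    apply hne
    have h5 : (h + 1) / K = h / K := by
      have h6 : h + 1 = (h % K + 1) + K * (h / K) := by linarith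
      conv_lhs => rw [h6]
      rw [Int.add_mul_ediv_left _ _ hK.ne']
      rw [Int.ediv_eq_zero_of_lt (by omega) (by omega)]
      ring
    exact h5.symm
  refine ⟨h4, ?_⟩
  have h6 : h + 1 = K * (h / K + 1) := by linarith
  rw [h6]
  exact Int.mul_emod_right _ _

theorem cut_edge {K : ℕ} (hK : 2 ≤ K) {s : ℤ} {e : Edge D}
    (h : sidx K s ((lat D).s e) ≠ sidx K s ((lat D).t e)) :
    e.2 = none ∧ (((lat D).s e).1 - s) % K = K - 1 ∧ (((lat D).t e).1 - s) % K = 0 := by
  have h1 : e.2 = none := by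
    by_contra hc
    apply h
    unfold sidx
    rw [t_fst, if_neg hc, add_zero]
  have h2 := t_fst e
  rw [if_pos h1] at h2
  unfold sidx at h
  rw [h2] at h ⊢
  have h3 : ((lat D).s e).1 + 1 - s = (((lat D).s e).1 - s) + 1 := by ring
  rw [h3] at h ⊢
  have h4 := div_add_one (K := (K : ℤ)) (by omega) h
  exact ⟨h1, h4.1, h4.2⟩

theorem inn_subset (K : ℕ) (s : ℤ) (E : Finset (Edge D)) : inn K s E ⊆ E :=
  Finset.filter_subset _ _

theorem mem_inn {K : ℕ} {s : ℤ} {E : Finset (Edge D)} {e : Edge D} :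
    e ∈ inn K s E ↔ e ∈ E ∧ sidx K s ((lat D).s e) = sidx K s ((lat D).t e) := by
  simp [inn]

/-- The cut edges at `A` are at most as many as the boundary points of `A`. -/
theorem tch_card {K : ℕ} (hK : 2 ≤ K) (s : ℤ) (A : Finset (Site D)) (F : Finset (Edge D))
    (hF : ∀ e ∈ F, sidx K s ((lat D).s e) ≠ sidx K s ((lat D).t e)) :
    ((lat D).tch A F).card ≤ (bdy K s A).card := by
  classical
  refine Finset.card_le_card_of_injOn
    (fun e => if (lat D).s e ∈ A then (lat D).s e else (lat D).t e) ?_ ?_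
  · intro e he
    have he' := ((lat D).mem_tch).1 he
    have h1 := cut_edge hK (hF e he'.1)
    show (if (lat D).s e ∈ A then (lat D).s e else (lat D).t e) ∈ ((bdy K s A : Finset (Site D)) : Set (Site D))
    rw [Finset.mem_coe, bdy, Finset.mem_filter]
    by_cases hs : (lat D).s e ∈ A
    · rw [if_pos hs]
      exact ⟨hs, Or.inr h1.2.1⟩
    · rw [if_neg hs]
      rcases he'.2 with h2 | h2
      · exact absurd h2 hs
      · exact ⟨h2, Or.inl h1.2.2⟩
  · intro e he e' he' h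
    have hm := ((lat D).mem_tch).1 he
    have hm' := ((lat D).mem_tch).1 he'
    have h1 := cut_edge hK (hF e hm.1)
    have h1' := cut_edge hK (hF e' hm'.1)
    have hKi : (2 : ℤ) ≤ K := by exact_mod_cast hK
    simp only at h
    have hss : ∀ a b : Edge D, a.2 = none → b.2 = none → (lat D).s a = (lat D).s b → a = b := by
      intro a b ha hb hab
      refine Prod.ext hab ?_
      rw [ha, hb]
    have htt : ∀ a b : Edge D, a.2 = none → b.2 = none → (lat D).t a = (lat D).t b → a = b := by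
      intro a b ha hb hab
      have h3 : a.1 + SB.dir (a.2, true) = b.1 + SB.dir (b.2, true) := hab
      rw [ha, hb] at h3
      refine Prod.ext (add_right_cancel h3) ?_
      rw [ha, hb]
    by_cases hs : (lat D).s e ∈ A <;> by_cases hs' : (lat D).s e' ∈ A
    · rw [if_pos hs, if_pos hs'] at h
      exact hss e e' h1.1 h1'.1 h
    · rw [if_pos hs, if_neg hs'] at h
      have h2 := h1.2.1
      rw [h, h1'.2.2] at h2
      omega
    · rw [if_neg hs, if_pos hs'] at h
      have h2 := h1.2.2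
      rw [h, h1'.2.1] at h2
      omega
    · rw [if_neg hs, if_neg hs'] at h
      exact htt e e' h1.1 h1'.1 h

/-- A component stays in its slab. -/
theorem rch_sidx {K : ℕ} {s : ℤ} {E : Finset (Edge D)}
    (hE : ∀ e ∈ E, sidx K s ((lat D).s e) = sidx K s ((lat D).t e)) {u w : Site D}
    (h : (lat D).Rch E u w) : sidx K s w = sidx K s u := by
  unfold Gr.Rch at h
  induction h with
  | refl => rfl
  | tail _ h2 ih =>
    obtain ⟨e, he, h3⟩ := h2
    have h4 := hE e he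
    rcases h3 with ⟨h3, h5⟩ | ⟨h3, h5⟩
    · rw [← ih, ← h3, ← h5, h4]
    · rw [← ih, ← h3, ← h5, h4]

/-- The edges of the slab of `x`. -/
def own (K : ℕ) (s : ℤ) (x : Site D) (E : Finset (Edge D)) : Finset (Edge D) :=
  (inn K s E).filter fun e => sidx K s ((lat D).s e) = sidx K s x

theorem own_subset (K : ℕ) (s : ℤ) (x : Site D) (E : Finset (Edge D)) : own K s x E ⊆ E :=
  (Finset.filter_subset _ _).trans (inn_subset _ _ _)

theorem slab_own {K : ℕ} (hK : 2 ≤ K) (s : ℤ) (x : Site D) (E : Finset (Edge D)) :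
    Slab (s + K * sidx K s x) (K - 1) (own K s x E) := by
  intro e he
  rw [own, Finset.mem_filter, mem_inn] at he
  obtain ⟨⟨_, h1⟩, h2⟩ := he
  have hKi : (0 : ℤ) < K := by omega
  have hc : ((K - 1 : ℕ) : ℤ) = K - 1 := by omega
  rw [hc]
  have h3 : sidx K s ((lat D).t e) = sidx K s x := by rw [← h1, h2]
  have key : ∀ u : Site D, sidx K s u = sidx K s x →
      s + K * sidx K s x ≤ u.1 ∧ u.1 ≤ s + K * sidx K s x + (K - 1) := by
    intro u hu
    have h4 : (u.1 - s) / K = sidx K s x := hu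
    have h5 := Int.emod_add_mul_ediv (u.1 - s) K
    have h6 := Int.emod_nonneg (u.1 - s) hKi.ne'
    have h7 := Int.emod_lt_of_pos (u.1 - s) hKi
    rw [h4] at h5
    constructor <;> linarith
  exact ⟨(key _ h2).1, (key _ h3).2⟩

theorem cs_ind' {V ι : Type} [DecidableEq V] [DecidableEq ι] (G : Gr V ι) (q : ℝ) (v : ι → ℝ)
    (hq : 0 < q) (hv : ∀ e, 0 ≤ v e) (Ed : Finset ι) (x : V)
    (P : Finset V → Finset ι → Prop) :
    G.cs q v Ed x (fun A E => ind (P A E)) =
      G.pr q v Ed fun ω => ∃ A E, G.Cls ω x A E ∧ P A E := by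
  classical
  rw [G.pr_eq_sum_cls q v hq hv, Gr.cs]
  refine Finset.sum_congr rfl fun A _ => Finset.sum_congr rfl fun E _ => ?_
  by_cases h1 : G.IsCl A E ∧ x ∈ A
  · by_cases h2 : P A E
    · rw [if_pos h1, if_pos ⟨h1.1, h1.2, h2⟩, ind_true h2, mul_one]
    · rw [if_pos h1, if_neg (fun h => h2 h.2.2), ind_false h2, mul_zero]
  · rw [if_neg h1, if_neg (fun h => h1 ⟨h.1, h.2.1⟩)]

theorem isCl_subset_vs' {V ι : Type} [DecidableEq V] [DecidableEq ι] (G : Gr V ι)
    {Ed : Finset ι} {x : V} {A : Finset V} {E : Finset ι} (h : G.IsCl A E)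
    (hx : x ∈ A) (hE : E ⊆ Ed) : A ⊆ G.vs Ed x :=
  fun _ hy => G.rch_vs (G.rch_mono hE (h.2.2 x hx _ hy))

open Classical in
/-- The sum over the slab components of `x` is at most a cluster sum in its slab. -/
theorem sum_slab_le {q : ℝ} (hq : 1 ≤ q) {v : Edge D → ℝ} (hv : ∀ e, 0 ≤ v e) (K : ℕ) (s : ℤ)
    (Ed : Finset (Edge D)) (x : Site D) (F : Finset (Site D) → ℝ) (hF : ∀ A, 0 ≤ F A) :
    (∑ A ∈ ((lat D).vs Ed x).powerset, ∑ E ∈ (inn K s Ed).powerset,
      if (lat D).IsCl A E ∧ x ∈ A then Gr.cw q v A E * (lat D).ze q v Ed A * F A else 0) ≤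
    (lat D).cs q v (own K s x Ed) x (fun A _ => F A) := by
  have hq0 : 0 < q := by linarith
  unfold Gr.cs
  rw [← Finset.sum_product', ← Finset.sum_product']
  set T := ((lat D).vs (own K s x Ed) x).powerset ×ˢ (own K s x Ed).powerset with hT
  set t : Finset (Site D) × Finset (Edge D) → ℝ := fun p =>
    if (lat D).IsCl p.1 p.2 ∧ x ∈ p.1 then
      Gr.cw q v p.1 p.2 * (lat D).ze q v Ed p.1 * F p.1 else 0 with ht
  set t' : Finset (Site D) × Finset (Edge D) → ℝ := fun p =>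
    if (lat D).IsCl p.1 p.2 ∧ x ∈ p.1 then
      Gr.cw q v p.1 p.2 * (lat D).ze q v (own K s x Ed) p.1 * F p.1 else 0 with ht'
  have ht'0 : ∀ p, 0 ≤ t' p := by
    intro p
    simp only [ht']
    split_ifs
    · exact mul_nonneg (mul_nonneg (Gr.cw_nonneg q v hq0 hv _ _)
        ((lat D).ze_pos q v hq0 hv _ _).le) (hF _)
    · exact le_refl _
  have hle : ∀ p, t p ≤ t' p := by
    intro p
    simp only [ht, ht']
    split_ifs
    · refine mul_le_mul_of_nonneg_right (mul_le_mul_of_nonneg_left ?_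
        (Gr.cw_nonneg q v hq0 hv _ _)) (hF _)
      exact (lat D).ze_anti q v hq hv (own_subset _ _ _ _) _
    · exact le_refl _
  calc (∑ p ∈ ((lat D).vs Ed x).powerset ×ˢ (inn K s Ed).powerset, t p)
      = ∑ p ∈ (((lat D).vs Ed x).powerset ×ˢ (inn K s Ed).powerset).filter (fun p => p ∈ T),
          t p := by
        symm
        refine Finset.sum_subset (Finset.filter_subset _ _) ?_
        intro p hp hp'
        rw [Finset.mem_filter] at hp'
        simp only [ht]
        rw [if_neg]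
        rintro ⟨h1, h2⟩
        apply hp'
        refine ⟨hp, ?_⟩
        rw [Finset.mem_product, Finset.mem_powerset, Finset.mem_powerset] at hp
        have h3 : p.2 ⊆ own K s x Ed := by
          intro e he
          rw [own, Finset.mem_filter]
          refine ⟨hp.2 he, ?_⟩
          have h4 := h1.2.1 e he
          exact rch_sidx (fun e' he' => ((mem_inn).1 (hp.2 he')).2) (h1.2.2 x h2 _ h4.1)
        rw [hT, Finset.mem_product, Finset.mem_powerset, Finset.mem_powerset]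
        exact ⟨isCl_subset_vs' (lat D) h1 h2 h3, h3⟩
    _ ≤ ∑ p ∈ (((lat D).vs Ed x).powerset ×ˢ (inn K s Ed).powerset).filter (fun p => p ∈ T),
          t' p := Finset.sum_le_sum fun p _ => hle p
    _ ≤ ∑ p ∈ T, t' p := by
        refine Finset.sum_le_sum_of_subset_of_nonneg ?_ (fun p _ _ => ht'0 p)
        intro p hp
        exact (Finset.mem_filter.1 hp).2

/-! ### The factor of a component -/

open Classical in
/-- The factor of a component. -/
noncomputable def th (K : ℕ) (s : ℤ) (pc pd : ℝ) (A : Finset (Site D)) : ℝ :=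
  (if Crs K s A then pc⁻¹ else 1) * (if Dp K s A then pd⁻¹ else 1)

theorem th_nonneg {K : ℕ} {s : ℤ} {pc pd : ℝ} (hpc : 0 < pc) (hpd : 0 < pd)
    (A : Finset (Site D)) : 0 ≤ th K s pc pd A := by
  unfold th
  have h1 := inv_pos.2 hpc
  have h2 := inv_pos.2 hpd
  split_ifs <;> positivity

theorem th_le {K : ℕ} {s : ℤ} {pc pd : ℝ} (hpc : 0 < pc) (hpd : 0 < pd) (A : Finset (Site D)) :
    th K s pc pd A ≤ 1 + ind (Crs K s A) * pc⁻¹ + ind (Dp K s A) * pd⁻¹ := by
  unfold th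
  have h1 := inv_pos.2 hpc
  have h2 := inv_pos.2 hpd
  by_cases hC : Crs K s A
  · have hD : ¬ Dp K s A := fun h => h.1 hC
    rw [if_pos hC, if_neg hD, ind_true hC, ind_false hD]
    linarith
  · by_cases hD : Dp K s A
    · rw [if_neg hC, if_pos hD, ind_false hC, ind_true hD]
      linarith
    · rw [if_neg hC, if_neg hD, ind_false hC, ind_false hD]
      linarith

/-- The hypothesis of the exploration bound. -/
theorem hyp {q vm : ℝ} (hq : 1 ≤ q) {v : Edge D → ℝ} (hv : ∀ e, 0 ≤ v e)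
    (hvm : ∀ e, v e ≤ vm) {K : ℕ} (hK : 2 ≤ K) {s : ℤ} {pc pd : ℝ} (hpc : 0 < pc)
    (hpd : 0 < pd)
    (hc : ∀ (j : ℤ) (Ed : Finset (Edge D)), Slab (s + K * j) (K - 1) Ed → ∀ x,
      (lat D).cs q v Ed x (fun A _ => ind (Crs K s A)) ≤ pc)
    (hd : ∀ (j : ℤ) (Ed : Finset (Edge D)), Slab (s + K * j) (K - 1) Ed → ∀ x,
      (lat D).cs q v Ed x (fun A _ => ind (Dp K s A)) ≤ pd)
    (Ed Ed' : Finset (Edge D)) (hEd : Ed' ⊆ Ed) (x : Site D) [DecidablePred
      fun p : Finset (Site D) × Finset (Edge D) => (lat D).IsCl p.1 p.2 ∧ x ∈ p.1] :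
    (∑ A ∈ ((lat D).vs Ed' x).powerset, ∑ E ∈ (Ed' \ (Ed \ inn K s Ed)).powerset,
      open Classical in if (lat D).IsCl A E ∧ x ∈ A then Gr.cw q v A E * (lat D).ze q v Ed' A *
        ((th K s pc pd A * ((1 + 3 * vm)⁻¹) ^ (bdy K s A).card) *
          ∏ e ∈ (lat D).tch A (Ed' ∩ (Ed \ inn K s Ed)), (1 + 3 * v e)) else 0) ≤ 3 := by
  classical
  have hq0 : 0 < q := by linarith
  have e1 : Ed' \ (Ed \ inn K s Ed) = inn K s Ed' := by
    ext e
    rw [Finset.mem_sdiff, Finset.mem_sdiff, mem_inn, mem_inn]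
    constructor
    · rintro ⟨h1, h2⟩
      refine ⟨h1, ?_⟩
      by_contra h3
      exact h2 ⟨hEd h1, fun h4 => h3 h4.2⟩
    · rintro ⟨h1, h2⟩
      exact ⟨h1, fun h3 => h3.2 ⟨hEd h1, h2⟩⟩
  have e2 : ∀ e ∈ Ed' ∩ (Ed \ inn K s Ed),
      sidx K s ((lat D).s e) ≠ sidx K s ((lat D).t e) := by
    intro e he h
    rw [Finset.mem_inter, Finset.mem_sdiff, mem_inn] at he
    exact he.2.2 ⟨he.2.1, h⟩
  have hvm0 : ∀ e : Edge D, 0 ≤ vm := fun e => (hv e).trans (hvm e)
  have hfac : ∀ A : Finset (Site D), ((1 + 3 * vm)⁻¹) ^ (bdy K s A).card *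
      ∏ e ∈ (lat D).tch A (Ed' ∩ (Ed \ inn K s Ed)), (1 + 3 * v e) ≤ 1 := by
    intro A
    have hvm1 : 0 ≤ vm := hvm0 ((0, fun _ => 0), none)
    have h1 : (1 : ℝ) ≤ 1 + 3 * vm := by linarith
    have h2 : (∏ e ∈ (lat D).tch A (Ed' ∩ (Ed \ inn K s Ed)), (1 + 3 * v e)) ≤
        (1 + 3 * vm) ^ ((lat D).tch A (Ed' ∩ (Ed \ inn K s Ed))).card := by
      rw [← Finset.prod_const]
      exact Finset.prod_le_prod (fun e _ => by have := hv e; linarith)
        (fun e _ => by have := hvm e; linarith)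
    have h3 : (1 + 3 * vm) ^ ((lat D).tch A (Ed' ∩ (Ed \ inn K s Ed))).card ≤
        (1 + 3 * vm) ^ (bdy K s A).card :=
      pow_le_pow_right₀ h1 (tch_card hK s A _ e2)
    have h4 : 0 < (1 + 3 * vm) ^ (bdy K s A).card := by positivity
    rw [inv_pow, ← div_eq_inv_mul, div_le_one h4]
    exact h2.trans h3
  rw [e1]
  have step : ∀ A ∈ ((lat D).vs Ed' x).powerset, ∀ E ∈ (inn K s Ed').powerset,
      (if (lat D).IsCl A E ∧ x ∈ A then Gr.cw q v A E * (lat D).ze q v Ed' A *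
        ((th K s pc pd A * ((1 + 3 * vm)⁻¹) ^ (bdy K s A).card) *
          ∏ e ∈ (lat D).tch A (Ed' ∩ (Ed \ inn K s Ed)), (1 + 3 * v e)) else 0) ≤
      (if (lat D).IsCl A E ∧ x ∈ A then Gr.cw q v A E * (lat D).ze q v Ed' A *
        (1 + ind (Crs K s A) * pc⁻¹ + ind (Dp K s A) * pd⁻¹) else 0) := by
    intro A _ E _
    split_ifs
    · refine mul_le_mul_of_nonneg_left ?_ (mul_nonneg (Gr.cw_nonneg q v hq0 hv _ _)
        ((lat D).ze_pos q v hq0 hv _ _).le)
      rw [mul_assoc]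
      calc th K s pc pd A * (((1 + 3 * vm)⁻¹) ^ (bdy K s A).card *
            ∏ e ∈ (lat D).tch A (Ed' ∩ (Ed \ inn K s Ed)), (1 + 3 * v e))
          ≤ th K s pc pd A * 1 :=
            mul_le_mul_of_nonneg_left (hfac A) (th_nonneg hpc hpd A)
        _ = th K s pc pd A := mul_one _
        _ ≤ _ := th_le hpc hpd A
    · exact le_refl _
  refine (Finset.sum_le_sum fun A hA => Finset.sum_le_sum fun E hE => step A hA E hE).trans ?_
  have hF0 : ∀ A : Finset (Site D),
      0 ≤ 1 + ind (Crs K s A) * pc⁻¹ + ind (Dp K s A) * pd⁻¹ := by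
    intro A
    have h1 := mul_nonneg (ind_nonneg (Crs K s A)) (inv_pos.2 hpc).le
    have h2 := mul_nonneg (ind_nonneg (Dp K s A)) (inv_pos.2 hpd).le
    linarith
  refine (sum_slab_le hq hv K s Ed' x
    (fun A => 1 + ind (Crs K s A) * pc⁻¹ + ind (Dp K s A) * pd⁻¹) hF0).trans ?_
  -- split the cluster sum
  have hsp : (lat D).cs q v (own K s x Ed') x
      (fun A _ => 1 + ind (Crs K s A) * pc⁻¹ + ind (Dp K s A) * pd⁻¹) =
      (lat D).cs q v (own K s x Ed') x (fun _ _ => ind True) +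
      (lat D).cs q v (own K s x Ed') x (fun A _ => ind (Crs K s A)) * pc⁻¹ +
      (lat D).cs q v (own K s x Ed') x (fun A _ => ind (Dp K s A)) * pd⁻¹ := by
    unfold Gr.cs
    rw [Finset.sum_mul, Finset.sum_mul, ← Finset.sum_add_distrib, ← Finset.sum_add_distrib]
    refine Finset.sum_congr rfl fun A _ => ?_
    rw [Finset.sum_mul, Finset.sum_mul, ← Finset.sum_add_distrib, ← Finset.sum_add_distrib]
    refine Finset.sum_congr rfl fun E _ => ?_
    split_ifs
    · rw [ind_true trivial]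
      ring
    · ring
  rw [hsp]
  have hslab := slab_own hK s x Ed'
  have h1 : (lat D).cs q v (own K s x Ed') x (fun _ _ => ind True) ≤ 1 := by
    rw [cs_ind' (lat D) q v hq0 hv]
    exact (lat D).pr_le_one q v hq0 hv _ _
  have h2 := hc _ _ hslab x
  have h3 := hd _ _ hslab x
  have h4 : (lat D).cs q v (own K s x Ed') x (fun A _ => ind (Crs K s A)) * pc⁻¹ ≤ 1 := by
    rw [← div_eq_mul_inv, div_le_one hpc]
    exact h2
  have h5 : (lat D).cs q v (own K s x Ed') x (fun A _ => ind (Dp K s A)) * pd⁻¹ ≤ 1 := by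
    rw [← div_eq_mul_inv, div_le_one hpd]
    exact h3
  linarith

/-! ### The product of the factors of a cluster -/

theorem sdiff_inn {K : ℕ} {s : ℤ} {Ed ω : Finset (Edge D)} (hω : ω ⊆ Ed) :
    ω \ (Ed \ inn K s Ed) = inn K s ω := by
  ext e
  rw [Finset.mem_sdiff, Finset.mem_sdiff, mem_inn, mem_inn]
  constructor
  · rintro ⟨h1, h2⟩
    refine ⟨h1, ?_⟩
    by_contra h3
    exact h2 ⟨hω h1, fun h4 => h3 h4.2⟩
  · rintro ⟨h1, h2⟩
    exact ⟨h1, fun h3 => h3.2 ⟨hω h1, h2⟩⟩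

theorem comp_eq_cmp {K : ℕ} {s : ℤ} {ω : Finset (Edge D)} {x : Site D} {A : Finset (Site D)}
    {E : Finset (Edge D)} (h : (lat D).Cls ω x A E) {u : Site D} (hu : u ∈ A) :
    (lat D).comp (inn K s ω) u = cmp K s A E u := by
  classical
  ext w
  rw [(lat D).mem_comp, cmp, Finset.mem_filter]
  constructor
  · intro h1
    have h2 : w ∈ A :=
      (lat D).rch_mem h.1 h.2.2 hu ((lat D).rch_mono (inn_subset _ _ _) h1)
    refine ⟨h2, ?_⟩
    refine (lat D).rch_restrict ?_ h1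
    intro e he h3
    rw [mem_inn] at he ⊢
    refine ⟨?_, he.2⟩
    rw [← h.2.2, Gr.mem_tch]
    refine ⟨he.1, Or.inl ?_⟩
    exact (lat D).rch_mem h.1 h.2.2 hu ((lat D).rch_mono (inn_subset _ _ _) h3)
  · rintro ⟨_, h1⟩
    refine (lat D).rch_mono ?_ h1
    intro e he
    rw [mem_inn] at he ⊢
    refine ⟨?_, he.2⟩
    have h2 := he.1
    rw [← h.2.2, Gr.mem_tch] at h2
    exact h2.1

theorem cmp_disjoint {K : ℕ} {s : ℤ} {A : Finset (Site D)} {E : Finset (Edge D)} {u w : Site D}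
    (h : cmp K s A E u ≠ cmp K s A E w) : Disjoint (cmp K s A E u) (cmp K s A E w) := by
  classical
  rw [Finset.disjoint_left]
  intro z hz hz'
  apply h
  rw [cmp, Finset.mem_filter] at hz hz'
  ext y
  rw [cmp, cmp, Finset.mem_filter, Finset.mem_filter]
  have h1 : (lat D).Rch (inn K s E) u w := (lat D).rch_trans hz.2 ((lat D).rch_symm hz'.2)
  constructor
  · rintro ⟨h2, h3⟩
    exact ⟨h2, (lat D).rch_trans ((lat D).rch_symm h1) h3⟩
  · rintro ⟨h2, h3⟩
    exact ⟨h2, (lat D).rch_trans h1 h3⟩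

theorem bdy_sum_le (K : ℕ) (s : ℤ) (A : Finset (Site D)) (E : Finset (Edge D)) :
    (open Classical in ∑ B ∈ A.image (cmp K s A E), (bdy K s B).card) ≤ (bdy K s A).card := by
  classical
  rw [← Finset.card_biUnion]
  · refine Finset.card_le_card ?_
    intro y hy
    rw [Finset.mem_biUnion] at hy
    obtain ⟨B, hB, hy⟩ := hy
    rw [Finset.mem_image] at hB
    obtain ⟨u, _, rfl⟩ := hB
    rw [bdy, Finset.mem_filter] at hy ⊢
    refine ⟨?_, hy.2⟩
    have := hy.1
    rw [cmp, Finset.mem_filter] at this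
    exact this.1
  · intro B hB B' hB' hne
    rw [Finset.mem_coe, Finset.mem_image] at hB hB'
    obtain ⟨u, _, rfl⟩ := hB
    obtain ⟨w, _, rfl⟩ := hB'
    have h1 := cmp_disjoint hne
    refine Disjoint.mono ?_ ?_ h1
    · exact Finset.filter_subset _ _
    · exact Finset.filter_subset _ _

/-- The product over the components of the cluster of `x`. -/
theorem Theta_ge {K : ℕ} {s : ℤ} {pc pd : ℝ} (hpc : 0 < pc) (hpc1 : pc ≤ 1) (hpd : 0 < pd)
    (hpd1 : pd ≤ 1) {lam : ℝ} (hl : 0 < lam) (hl1 : lam ≤ 1) {Ed ω : Finset (Edge D)}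
    (hω : ω ⊆ Ed) {x : Site D} {A : Finset (Site D)} {E : Finset (Edge D)}
    (h : (lat D).Cls ω x A E) {a b d : ℕ} (hb : (bdy K s A).card ≤ b)
    (ha : a ≤ (crs K s A E).card) (hd : d ≤ (dps K s A E).card) :
    (pc⁻¹) ^ a * (pd⁻¹) ^ d * lam ^ b ≤
      (lat D).Theta (Ed \ inn K s Ed) (fun B _ => th K s pc pd B * lam ^ (bdy K s B).card)
        ω {x} := by
  classical
  have hpc' : 1 ≤ pc⁻¹ := (one_le_inv₀ hpc).2 hpc1
  have hpd' : 1 ≤ pd⁻¹ := (one_le_inv₀ hpd).2 hpd1
  have hA : (lat D).reach ω {x} = A := by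
    ext y
    rw [(lat D).mem_reach, (lat D).cls_iff h]
    simp
  have hTh : (lat D).Theta (Ed \ inn K s Ed)
      (fun B _ => th K s pc pd B * lam ^ (bdy K s B).card) ω {x} =
      ∏ B ∈ A.image (cmp K s A E), (th K s pc pd B * lam ^ (bdy K s B).card) := by
    unfold Gr.Theta Gr.slabs
    rw [hA, sdiff_inn hω]
    have h1 : A.image (cmp K s A E) = (A.image ((lat D).cmp (inn K s ω))).image Prod.fst := by
      rw [Finset.image_image]
      refine Finset.image_congr ?_
      intro u hu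
      exact (comp_eq_cmp h (Finset.mem_coe.1 hu)).symm
    rw [h1]
    have hinj : Set.InjOn (Prod.fst : Finset (Site D) × Finset (Edge D) → Finset (Site D))
        ((A.image ((lat D).cmp (inn K s ω)) : Finset (Finset (Site D) × Finset (Edge D))) :
          Set (Finset (Site D) × Finset (Edge D))) := by
      intro g hg g' hg' hgg
      rw [Finset.mem_coe, Finset.mem_image] at hg hg'
      obtain ⟨u, _, rfl⟩ := hg
      obtain ⟨w, _, rfl⟩ := hg'
      have h2 : (lat D).comp (inn K s ω) u = (lat D).comp (inn K s ω) w := hgg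
      unfold Gr.cmp
      rw [h2]
    exact (Finset.prod_image (f := fun B => th K s pc pd B * lam ^ (bdy K s B).card) hinj).symm
  rw [hTh, Finset.prod_mul_distrib]
  have h1 : (∏ B ∈ A.image (cmp K s A E), th K s pc pd B) =
      (pc⁻¹) ^ (crs K s A E).card * (pd⁻¹) ^ (dps K s A E).card := by
    unfold th
    rw [Finset.prod_mul_distrib]
    congr 1
    · rw [Finset.prod_ite, Finset.prod_const, Finset.prod_const_one, mul_one]
      rfl
    · rw [Finset.prod_ite, Finset.prod_const, Finset.prod_const_one, mul_one]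
      rfl
  have h2 : (∏ B ∈ A.image (cmp K s A E), lam ^ (bdy K s B).card) =
      lam ^ (∑ B ∈ A.image (cmp K s A E), (bdy K s B).card) := by
    rw [Finset.prod_pow_eq_pow_sum]
  rw [h1, h2]
  have h3 : lam ^ b ≤ lam ^ (∑ B ∈ A.image (cmp K s A E), (bdy K s B).card) :=
    pow_le_pow_of_le_one hl.le hl1 ((bdy_sum_le K s A E).trans hb)
  have h4 : (pc⁻¹) ^ a ≤ (pc⁻¹) ^ (crs K s A E).card := pow_le_pow_right₀ hpc' ha
  have h5 : (pd⁻¹) ^ d ≤ (pd⁻¹) ^ (dps K s A E).card := pow_le_pow_right₀ hpd' hd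
  have h6 : 0 ≤ lam ^ b := (pow_pos hl _).le
  have h7 : 0 ≤ (pc⁻¹) ^ a := by positivity
  have h8 : 0 ≤ (pd⁻¹) ^ d := by positivity
  exact mul_le_mul (mul_le_mul h4 h5 h8 (h7.trans h4)) h3 h6
    (mul_nonneg (h7.trans h4) (h8.trans h5))

end Slb

/-- `pc`, `pd`: bounds for the probability that the cluster of a point in a slab of `K` heights
crosses it, respectively is deep. -/
theorem slab_bound (q vm : ℝ) (hq : 1 ≤ q) (v : Edge D → ℝ) (hv : ∀ e, 0 ≤ v e)
    (hvm : ∀ e, v e ≤ vm) (K : ℕ) (hK : 2 ≤ K) (s : ℤ) (pc pd : ℝ) (hpc : 0 < pc) (hpc1 : pc ≤ 1)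
    (hpd : 0 < pd) (hpd1 : pd ≤ 1)
    (hc : ∀ (j : ℤ) (Ed : Finset (Edge D)), Slab (s + K * j) (K - 1) Ed → ∀ x,
      (lat D).cs q v Ed x (fun A _ => ind (Crs K s A)) ≤ pc)
    (hd : ∀ (j : ℤ) (Ed : Finset (Edge D)), Slab (s + K * j) (K - 1) Ed → ∀ x,
      (lat D).cs q v Ed x (fun A _ => ind (Dp K s A)) ≤ pd)
    (Ed : Finset (Edge D)) (x : Site D) (b a d : ℕ) :
    (lat D).cs q v Ed x (fun A E => ind ((bdy K s A).card ≤ b ∧ a ≤ (crs K s A E).card ∧
      d ≤ (dps K s A E).card)) ≤ 3 * (1 + 3 * vm) ^ b * pc ^ a * pd ^ d := by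
  classical
  have hq0 : 0 < q := by linarith
  have hvm0 : 0 ≤ vm := (hv ((0, fun _ => 0), none)).trans (hvm _)
  set lam : ℝ := (1 + 3 * vm)⁻¹ with hlam
  have hl : 0 < lam := by positivity
  have hl1 : lam ≤ 1 := inv_le_one_of_one_le₀ (by linarith)
  set f : Finset (Site D) → Finset (Edge D) → ℝ :=
    fun B _ => Slb.th K s pc pd B * lam ^ (bdy K s B).card with hf
  have hf0 : ∀ A E, 0 ≤ f A E := fun A _ =>
    mul_nonneg (Slb.th_nonneg hpc hpd A) (pow_nonneg hl.le _)
  have h1 := (lat D).theta_le q v hq hv (Ed \ inn K s Ed) f hf0 3 (by norm_num)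
    (Ed.card + ({x} : Finset (Site D)).card) Ed {x} rfl
    (fun Ed' hEd' y => by
      have := Slb.hyp hq hv hvm hK hpc hpd hc hd Ed Ed' hEd' y
      simpa only [hf] using this)
  rw [Finset.card_singleton, pow_one] at h1
  rw [Slb.cs_ind' (lat D) q v hq0 hv]
  set T : ℝ := (pc⁻¹) ^ a * (pd⁻¹) ^ d * lam ^ b with hT
  have hTpos : 0 < T := by positivity
  have hz := (lat D).zz_pos q v hq0 hv Ed
  have h2 : T * (lat D).pr q v Ed (fun ω => ∃ A E, (lat D).Cls ω x A E ∧
      ((bdy K s A).card ≤ b ∧ a ≤ (crs K s A E).card ∧ d ≤ (dps K s A E).card)) ≤ 3 := by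
    unfold Gr.pr
    rw [← mul_div_assoc, div_le_iff₀ hz, Finset.mul_sum]
    refine le_trans ?_ h1
    set S := Ed.powerset.filter (fun ω => ∃ A E, (lat D).Cls ω x A E ∧
      ((bdy K s A).card ≤ b ∧ a ≤ (crs K s A E).card ∧ d ≤ (dps K s A E).card)) with hS
    have hsub : S ⊆ Ed.powerset := Finset.filter_subset _ _
    have h4 : (∑ ω ∈ S, T * (lat D).wt q v ω) ≤
        ∑ ω ∈ S, (lat D).wt q v ω * (lat D).Theta (Ed \ inn K s Ed) f ω {x} := by
      refine Finset.sum_le_sum ?_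
      intro ω hω
      rw [hS, Finset.mem_filter, Finset.mem_powerset] at hω
      obtain ⟨h3, A, E, h4, h5, h6, h7⟩ := hω
      rw [mul_comm]
      exact mul_le_mul_of_nonneg_left
        (Slb.Theta_ge hpc hpc1 hpd hpd1 hl hl1 h3 h4 h5 h6 h7) ((lat D).wt_nonneg q v hq0 hv _)
    refine h4.trans (Finset.sum_le_sum_of_subset_of_nonneg hsub ?_)
    intro ω _ _
    exact mul_nonneg ((lat D).wt_nonneg q v hq0 hv _) ((lat D).Theta_nonneg _ f hf0 _ _)
  have h3 : T * (3 * (1 + 3 * vm) ^ b * pc ^ a * pd ^ d) = 3 := by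
    rw [hT, hlam]
    have e1 : (pc⁻¹) ^ a * pc ^ a = 1 := by
      rw [← mul_pow, inv_mul_cancel₀ hpc.ne', one_pow]
    have e2 : (pd⁻¹) ^ d * pd ^ d = 1 := by
      rw [← mul_pow, inv_mul_cancel₀ hpd.ne', one_pow]
    have e3 : ((1 + 3 * vm)⁻¹) ^ b * (1 + 3 * vm) ^ b = 1 := by
      rw [← mul_pow, inv_mul_cancel₀ (by positivity), one_pow]
    calc (pc⁻¹) ^ a * (pd⁻¹) ^ d * ((1 + 3 * vm)⁻¹) ^ b *
          (3 * (1 + 3 * vm) ^ b * pc ^ a * pd ^ d)
        = 3 * ((pc⁻¹) ^ a * pc ^ a) * ((pd⁻¹) ^ d * pd ^ d) *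
          (((1 + 3 * vm)⁻¹) ^ b * (1 + 3 * vm) ^ b) := by ring
      _ = 3 := by rw [e1, e2, e3]; ring
  by_contra hcon
  have h4 := mul_lt_mul_of_pos_left (not_le.1 hcon) hTpos
  rw [h3] at h4
  linarith

end Pool.Agent.DL
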