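import Pool.Agent.DL.MGA

/-!
# The mass gap: large height differences in a slab
-/

set_option autoImplicit false
set_option linter.unusedSectionVars false

namespace Pool.Agent.DL

open Finset

variable {D : ℕ}

namespace SPN

/-- A point of a connected graph with at least two points is an end of an edge. -/
theorem end_of {A : Finset (Site D)} {E : Finset (Edge D)} (h : (lat D).IsCl A E)
    {u w : Site D} (hu : u ∈ A) (hw : w ∈ A) (huw : u ≠ w) :
    ∃ e ∈ E, (lat D).s e = u ∨ (lat D).t e = u := by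
  have h1 := h.2.2 u hu w hw
  rcases Relation.ReflTransGen.cases_head h1 with h2 | ⟨z, ⟨e, he, h3⟩, _⟩
  · exact absurd h2 huw
  · rcases h3 with ⟨h3, _⟩ | ⟨_, h3⟩
    · exact ⟨e, he, Or.inl h3⟩
    · exact ⟨e, he, Or.inr h3⟩

theorem height_of {a : ℤ} {s : ℕ} {Ed : Finset (Edge D)} (hS : Slab a s Ed) {e : Edge D}
    (he : e ∈ Ed) {u : Site D} (h : (lat D).s e = u ∨ (lat D).t e = u) :
    a ≤ u.1 ∧ u.1 ≤ a + s := by
  have h1 := hS e he
  have h2 := mga_edge_height e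
  rcases h with h | h
  · rw [← h]; exact ⟨h1.1, h2.1.trans h1.2⟩
  · rw [← h]; exact ⟨h1.1.trans h2.1, h1.2⟩

theorem height_diff {a : ℤ} {s : ℕ} {Ed E : Finset (Edge D)} (hS : Slab a s Ed)
    {A : Finset (Site D)} (h : (lat D).IsCl A E) (hE : E ⊆ Ed) {u w : Site D} (hu : u ∈ A)
    (hw : w ∈ A) : |u.1 - w.1| ≤ s := by
  by_cases huw : u = w
  · rw [huw, sub_self, abs_zero]; exact_mod_cast Nat.zero_le s
  · obtain ⟨e, he, h1⟩ := end_of h hu hw huw
    obtain ⟨e', he', h2⟩ := end_of h hw hu (Ne.symm huw)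
    have h3 := height_of hS (hE he) h1
    have h4 := height_of hS (hE he') h2
    rw [abs_le]
    constructor <;> linarith [h3.1, h3.2, h4.1, h4.2]

/-- The box of the possible points. -/
noncomputable def bx (D : ℕ) (K k : ℕ) (x : Site D) : Finset (Site D) :=
  Finset.Icc (x.1 - K) (x.1 + K) ×ˢ Finset.Icc (fun i => x.2 i - (k : ℤ)) (fun i => x.2 i + (k : ℤ))

theorem bx_card (K k : ℕ) (x : Site D) : (bx D K k x).card = (2 * K + 1) * (2 * k + 1) ^ D := by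
  unfold bx
  rw [Finset.card_product, Int.card_Icc, Pi.card_Icc]
  congr 1
  · omega
  · rw [Finset.prod_congr rfl (g := fun _ => 2 * k + 1)]
    · simp
    · intro i _
      rw [Int.card_Icc]
      omega

theorem mem_bx {A : Finset (Site D)} {a : ℤ} {s K k : ℕ} {Ed E : Finset (Edge D)}
    (hS : Slab a s Ed) (h : (lat D).IsCl A E) (hE : E ⊆ Ed) (hs : s ≤ K) (hk : A.card < k)
    {u x : Site D} (hu : u ∈ A) (hx : x ∈ A) : u ∈ bx D K k x := by
  have h1 := height_diff hS h hE hu hx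
  have h2 := isCl_dist h hu hx
  unfold SB.dist1 at h2
  have hs' : (s : ℤ) ≤ K := by exact_mod_cast hs
  rw [abs_le] at h1
  unfold bx
  rw [Finset.mem_product, Finset.mem_Icc, Finset.mem_Icc, Pi.le_def, Pi.le_def]
  refine ⟨⟨by linarith [h1.1], by linarith [h1.2]⟩, fun i => ?_, fun i => ?_⟩
  · have h3 : (u.2 i - x.2 i).natAbs ≤ ∑ i, (u.2 i - x.2 i).natAbs :=
      Finset.single_le_sum (f := fun i => (u.2 i - x.2 i).natAbs) (fun _ _ => Nat.zero_le _)
        (Finset.mem_univ i)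
    omega
  · have h3 : (u.2 i - x.2 i).natAbs ≤ ∑ i, (u.2 i - x.2 i).natAbs :=
      Finset.single_le_sum (f := fun i => (u.2 i - x.2 i).natAbs) (fun _ _ => Nat.zero_le _)
        (Finset.mem_univ i)
    omega

end SPN

open SPN in
theorem span_prob (D : ℕ) (q v0 vm Cs c ξ1 : ℝ) (hq : 1 ≤ q) (hv0 : 0 < v0) (hCs : 0 ≤ Cs)
    (hc : 0 < c) : ∃ C : ℝ, 1 ≤ C ∧ ∀ (ξ : ℝ) (v : Edge D → ℝ), 0 < ξ → ξ ≤ ξ1 →
      Inp D q v0 vm ξ Cs c v → ∀ (K : ℕ) (a : ℤ) (Ed : Finset (Edge D)), 1 ≤ K →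
      Slab a (K - 1) Ed → ∀ (x : Site D) (h : ℕ), h ≤ K →
        (lat D).cs q v Ed x (fun A _ => ind (∃ u ∈ A, ∃ w ∈ A, (h : ℤ) ≤ |u.1 - w.1|)) ≤
          C * (K : ℝ) ^ (2 * D + 2) * Real.exp (-ξ * h) := by
  classical
  obtain ⟨M, hM⟩ := exists_nat_ge ((Cs + |ξ1|) / c + 1)
  have hM1 : (1 : ℝ) ≤ M := by
    have : 0 ≤ (Cs + |ξ1|) / c := div_nonneg (add_nonneg hCs (abs_nonneg _)) hc.le
    linarith
  have hMc : Cs + |ξ1| ≤ c * M := by
    have h1 : (Cs + |ξ1|) / c ≤ M := by linarith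
    rw [div_le_iff₀ hc] at h1
    linarith
  refine ⟨1 + 9 * (3 * (M : ℝ)) ^ (2 * D), by
    have : 0 ≤ 9 * (3 * (M : ℝ)) ^ (2 * D) := by positivity
    linarith, ?_⟩
  intro ξ v hξ hξ1 hI K a Ed hK hS x h hh
  have hq0 : 0 < q := by linarith
  have hv : ∀ e, 0 ≤ v e := fun e => hv0.le.trans (hI.lo e)
  set k : ℕ := M * K with hk
  have hK' : (1 : ℝ) ≤ K := by exact_mod_cast hK
  have hhK : (h : ℝ) ≤ K := by exact_mod_cast hh
  set S : Finset (Site D × Site D) := ((bx D K k x) ×ˢ (bx D K k x)).filter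
    fun p => (h : ℤ) ≤ |p.1.1 - p.2.1| with hSdef
  rw [Gr.cs_ind (lat D) q v hq0 hv]
  have step1 : (lat D).pr q v Ed (fun ω => ∃ A E, (lat D).Cls ω x A E ∧
      ∃ u ∈ A, ∃ w ∈ A, (h : ℤ) ≤ |u.1 - w.1|) ≤
      (lat D).pr q v Ed (fun ω => (∃ A E, (lat D).Cls ω x A E ∧ k ≤ A.card) ∨
        ∃ p ∈ S, (lat D).Rch ω p.1 p.2) := by
    apply Gr.pr_le (lat D) q v hq0 hv
    rintro ω hω ⟨A, E, hC, u, hu, w, hw, huw⟩
    by_cases hkA : k ≤ A.card
    · exact Or.inl ⟨A, E, hC, hkA⟩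
    · right
      have hEω : E ⊆ ω := by
        rw [← hC.2.2]
        exact Finset.filter_subset _ _
      have hmem : ∀ z ∈ A, z ∈ bx D K k x := fun z hz =>
        mem_bx hS hC.1 (hEω.trans hω) (Nat.sub_le K 1) (not_le.1 hkA) hz hC.2.1
      refine ⟨(u, w), ?_, ?_⟩
      · rw [hSdef, Finset.mem_filter, Finset.mem_product]
        exact ⟨⟨hmem u hu, hmem w hw⟩, huw⟩
      · exact (lat D).rch_mono hEω (hC.1.2.2 u hu w hw)
  have step2 : (lat D).pr q v Ed (fun ω => ∃ A E, (lat D).Cls ω x A E ∧ k ≤ A.card) ≤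
      Real.exp (-ξ * h) := by
    have h1 := hI.sz a (K - 1) Ed hS x k
    rw [Gr.cs_ind (lat D) q v hq0 hv] at h1
    refine h1.trans (Real.exp_le_exp.2 ?_)
    have h2 : (((K - 1 : ℕ) : ℝ) + 1) = K := by
      rw [Nat.cast_sub hK]; push_cast; ring
    rw [h2, hk]
    push_cast
    have h3 : ξ * h ≤ |ξ1| * K :=
      mul_le_mul (hξ1.trans (le_abs_self _)) hhK (by positivity) (abs_nonneg _)
    have h4 : (Cs + |ξ1|) * K ≤ c * M * K := mul_le_mul_of_nonneg_right hMc (by positivity)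
    nlinarith [h3, h4]
  have step3 : (lat D).pr q v Ed (fun ω => ∃ p ∈ S, (lat D).Rch ω p.1 p.2) ≤
      (S.card : ℝ) * Real.exp (-ξ * h) := by
    refine (Gr.pr_sum (lat D) q v hq0 hv Ed _ S (fun p ω => (lat D).Rch ω p.1 p.2)
      fun ω _ h1 => h1).trans ?_
    rw [← nsmul_eq_mul]
    refine Finset.sum_le_card_nsmul _ _ _ ?_
    intro p hp
    rw [hSdef, Finset.mem_filter] at hp
    refine (hI.pw Ed p.1 p.2).trans (Real.exp_le_exp.2 ?_)
    have h5 : (h : ℝ) ≤ ((|p.1.1 - p.2.1| : ℤ) : ℝ) := by exact_mod_cast hp.2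
    nlinarith [h5, hξ]
  have hcard : (S.card : ℝ) ≤ 9 * (3 * (M : ℝ)) ^ (2 * D) * (K : ℝ) ^ (2 * D + 2) := by
    have h1 : S.card ≤ ((2 * K + 1) * (2 * k + 1) ^ D) * ((2 * K + 1) * (2 * k + 1) ^ D) := by
      refine (Finset.card_filter_le _ _).trans ?_
      rw [Finset.card_product, bx_card]
    have h2 : (2 * K + 1) ≤ 3 * K := by omega
    have h3 : (2 * k + 1) ≤ 3 * k := by
      have : 1 ≤ k := by
        rw [hk]
        have hM0 : 1 ≤ M := by exact_mod_cast hM1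
        exact Nat.one_le_iff_ne_zero.2 (Nat.mul_ne_zero (by omega) (by omega))
      omega
    have h4 : S.card ≤ (3 * K * (3 * k) ^ D) * (3 * K * (3 * k) ^ D) :=
      h1.trans (Nat.mul_le_mul (Nat.mul_le_mul h2 (Nat.pow_le_pow_left h3 D))
        (Nat.mul_le_mul h2 (Nat.pow_le_pow_left h3 D)))
    have h5 : (S.card : ℝ) ≤ (3 * K * (3 * (M * K)) ^ D) * (3 * K * (3 * (M * K)) ^ D) := by
      have h6 : (S.card : ℝ) ≤ (((3 * K * (3 * k) ^ D) * (3 * K * (3 * k) ^ D) : ℕ) : ℝ) := by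
        exact_mod_cast h4
      refine h6.trans (le_of_eq ?_)
      rw [hk]
      push_cast
      ring
    refine h5.trans (le_of_eq ?_)
    rw [show (3 : ℝ) * (M * K) = (3 * M) * K by ring, mul_pow, show 2 * D + 2 = D + D + 2 by ring,
      show 2 * D = D + D by ring, pow_add, pow_add, pow_add]
    ring
  have hexp : 0 < Real.exp (-ξ * h) := Real.exp_pos _
  have hKp : 1 ≤ (K : ℝ) ^ (2 * D + 2) := one_le_pow₀ hK'
  calc _ ≤ _ := step1
    _ ≤ _ := Gr.pr_or_le (lat D) q v hq0 hv Ed _ _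
    _ ≤ Real.exp (-ξ * h) + (S.card : ℝ) * Real.exp (-ξ * h) := add_le_add step2 step3
    _ ≤ Real.exp (-ξ * h) + (9 * (3 * (M : ℝ)) ^ (2 * D) * (K : ℝ) ^ (2 * D + 2)) *
          Real.exp (-ξ * h) := by
        have := mul_le_mul_of_nonneg_right hcard hexp.le
        linarith
    _ ≤ (1 + 9 * (3 * (M : ℝ)) ^ (2 * D)) * (K : ℝ) ^ (2 * D + 2) * Real.exp (-ξ * h) := by
        have h7 : Real.exp (-ξ * h) ≤ (K : ℝ) ^ (2 * D + 2) * Real.exp (-ξ * h) :=
          le_mul_of_one_le_left hexp.le hKp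
        nlinarith [h7]

end Pool.Agent.DL
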