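import Pool.Agent.DL.SRE
import Pool.Agent.DL.SLB
import Pool.Agent.DL.SPN
import Pool.Agent.DL.DTA
import Pool.Agent.DL.DTB
import Pool.Agent.DL.Recur
import Pool.Agent.DL.Defs2

/-!
# The mass gap: exponential moments, few clean heights, recursion, parameters
-/

set_option autoImplicit false
set_option linter.unusedSectionVars false

namespace Pool.Agent.DL

open Finset

theorem Gr.cs_sum {V ι κ : Type} [DecidableEq V] [DecidableEq ι] (G : Gr V ι) (q : ℝ) (v : ι → ℝ)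
    (Ed : Finset ι) (x : V) (S : Finset κ) (F : κ → Finset V → Finset ι → ℝ) :
    G.cs q v Ed x (fun A E => ∑ k ∈ S, F k A E) = ∑ k ∈ S, G.cs q v Ed x (F k) := by
  classical
  induction S using Finset.induction_on with
  | empty =>
    simp only [sum_empty]
    have := G.cs_smul q v 0 Ed x (fun _ _ => 0)
    simpa using this
  | insert a s ha ih =>
    simp only [sum_insert ha]
    rw [G.cs_add, ih]

/-- Exponential moments of the size of a cluster in a slab. -/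
theorem exp_tail {D : ℕ} {q v0 vm ξ Cs c : ℝ} {v : Edge D → ℝ} (hq : 1 ≤ q) (hv0 : 0 < v0)
    (hc : 0 < c) (h : Inp D q v0 vm ξ Cs c v) {η : ℝ} (hη : η ≤ c / 2) (a : ℤ) (s : ℕ)
    (Ed : Finset (Edge D)) (hs : Slab a s Ed) (x : Site D) (k : ℕ) :
    (lat D).cs q v Ed x (fun A _ => ind (k ≤ A.card) * Real.exp (η * A.card)) ≤
      (1 - Real.exp (-(c / 2)))⁻¹ * Real.exp (Cs * (s + 1) - c / 2 * k) := by
  have hv : ∀ e, 0 ≤ v e := fun e => hv0.le.trans (h.lo e)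
  have hq0 : 0 < q := by linarith
  set B := ((lat D).vs Ed x).card with hB
  have h1 : (lat D).cs q v Ed x (fun A _ => ind (k ≤ A.card) * Real.exp (η * A.card)) ≤
      (lat D).cs q v Ed x (fun A E => ∑ j ∈ Finset.Icc k B,
        Real.exp (η * j) * ind (j ≤ A.card)) := by
    refine (lat D).cs_mono q v hq0 hv Ed x _ _ ?_
    intro A E _ _ hA _
    by_cases hk : k ≤ A.card
    · have hAB : A.card ≤ B := card_le_card hA
      rw [ind_true hk, one_mul]
      have h3 := single_le_sum (f := fun j : ℕ => Real.exp (η * j) * ind (j ≤ A.card))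
        (fun j _ => mul_nonneg (Real.exp_nonneg _) (ind_nonneg _))
        (mem_Icc.mpr ⟨hk, hAB⟩)
      rwa [ind_true (le_refl A.card), mul_one] at h3
    · rw [ind_false hk, zero_mul]
      exact sum_nonneg fun j _ => mul_nonneg (Real.exp_nonneg _) (ind_nonneg _)
  refine h1.trans ?_
  rw [Gr.cs_sum]
  have h2 : ∀ j ∈ Finset.Icc k B, (lat D).cs q v Ed x (fun A _ => Real.exp (η * j) *
      ind (j ≤ A.card)) ≤ Real.exp (Cs * (s + 1)) * Real.exp (-(c / 2)) ^ j := by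
    intro j _
    rw [(lat D).cs_smul]
    have h3 := h.sz a s Ed hs x j
    calc Real.exp (η * j) * (lat D).cs q v Ed x (fun A _ => ind (j ≤ A.card))
        ≤ Real.exp (η * j) * Real.exp (Cs * (s + 1) - c * j) :=
          mul_le_mul_of_nonneg_left h3 (Real.exp_nonneg _)
      _ = Real.exp (η * j + (Cs * (s + 1) - c * j)) := (Real.exp_add _ _).symm
      _ ≤ Real.exp (Cs * (s + 1) + j * (-(c / 2))) := by
          apply Real.exp_le_exp.mpr
          have : (0 : ℝ) ≤ j := Nat.cast_nonneg j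
          nlinarith
      _ = Real.exp (Cs * (s + 1)) * Real.exp (-(c / 2)) ^ j := by
          rw [Real.exp_add, ← Real.exp_nat_mul]
  refine (sum_le_sum h2).trans ?_
  rw [← mul_sum]
  set t := Real.exp (-(c / 2)) with ht
  have ht1 : t < 1 := by
    rw [ht, Real.exp_lt_one_iff]; linarith
  have ht0 : 0 < t := Real.exp_pos _
  have h4 : ∑ j ∈ Finset.Icc k B, t ^ j ≤ (1 - t)⁻¹ * t ^ k := by
    have h5 : ∑ j ∈ Finset.Icc k B, t ^ j ≤ ∑ j ∈ Finset.Ico k (B + 1), t ^ j := by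
      apply le_of_eq
      congr 1
    refine h5.trans ?_
    rcases le_or_gt k (B + 1) with hk | hk
    · rw [geom_sum_Ico ht1.ne hk]
      have h6 : (t ^ (B + 1) - t ^ k) / (t - 1) = (1 - t)⁻¹ * (t ^ k - t ^ (B + 1)) := by
        have h7 : t - 1 ≠ 0 := by linarith [ht1.ne]
        have h8 : 1 - t ≠ 0 := by linarith [ht1.ne]
        field_simp
        ring
      rw [h6]
      apply mul_le_mul_of_nonneg_left _ (inv_nonneg.mpr (by linarith))
      have : 0 < t ^ (B + 1) := pow_pos ht0 _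
      linarith
    · rw [Finset.Ico_eq_empty (by omega), sum_empty]
      exact mul_nonneg (inv_nonneg.mpr (by linarith)) (pow_nonneg ht0.le _)
  calc Real.exp (Cs * (s + 1)) * ∑ j ∈ Finset.Icc k B, t ^ j
      ≤ Real.exp (Cs * (s + 1)) * ((1 - t)⁻¹ * t ^ k) :=
        mul_le_mul_of_nonneg_left h4 (Real.exp_nonneg _)
    _ = (1 - t)⁻¹ * Real.exp (Cs * (s + 1) - c / 2 * k) := by
        rw [show Cs * ((s : ℝ) + 1) - c / 2 * k = Cs * (s + 1) + k * (-(c / 2)) by ring,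
          Real.exp_add, Real.exp_nat_mul, ← ht]
        ring

end Pool.Agent.DL

namespace Pool.Agent.DL

open Finset

/-- The exponent of the energy bound. -/
theorem energy_exp {ξ ξ0 ξ1 l P κ K n N β b : ℝ} (hξ : ξ0 ≤ ξ) (hξ1 : ξ ≤ ξ1) (hξ0 : 0 < ξ0)
    (hl : 0 ≤ l) (hP : 0 ≤ P) (hκ : 0 ≤ κ) (hK : 2 ≤ K) (hn : 0 ≤ n) (hN : n / K ≤ N + 2)
    (hN' : N ≤ n / K + 1) (hβ : n / (8 * K) ≤ β + 1) (hβ' : β ≤ n / K) 
    (hb : b ≤ 2 * κ * (n + 1) / K)
    (h4 : ξ1 + 2 * P + 4 * κ * l ≤ ξ0 / 48 * K) :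
    b * l + N * (P - ξ * (K - 1)) + β * (P - ξ * (K / 3)) ≤
      -(ξ + ξ0 / 48) * n + (P + 3 * ξ1 * K + 2 * κ * l) := by
  have hK0 : (0 : ℝ) < K := by linarith
  have hξp : 0 < ξ := by linarith
  set m := n / K with hm
  have hmn : n = m * K := by rw [hm]; field_simp
  have hm0 : 0 ≤ m := by rw [hm]; positivity
  have e1 : b ≤ 2 * κ * m + 2 * κ := by
    refine hb.trans ?_
    have : 2 * κ * (n + 1) / K = 2 * κ * m + 2 * κ / K := by rw [hm]; ring
    rw [this]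
    have : 2 * κ / K ≤ 2 * κ := div_le_self (by linarith) (by linarith)
    linarith
  have e2 : m / 8 ≤ β + 1 := by
    have : n / (8 * K) = m / 8 := by rw [hm]; field_simp
    linarith
  have a1 : b * l ≤ (2 * κ * m + 2 * κ) * l := mul_le_mul_of_nonneg_right e1 hl
  have a2 : N * P ≤ (m + 1) * P := mul_le_mul_of_nonneg_right hN' hP
  have a3 : -(N * (ξ * (K - 1))) ≤ -((m - 2) * (ξ * (K - 1))) := by
    have : 0 ≤ ξ * (K - 1) := mul_nonneg hξp.le (by linarith)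
    nlinarith
  have a4 : β * P ≤ m * P := mul_le_mul_of_nonneg_right hβ' hP
  have a5 : -(β * (ξ * (K / 3))) ≤ -((m / 8 - 1) * (ξ * (K / 3))) := by
    have : 0 ≤ ξ * (K / 3) := by positivity
    nlinarith
  have a6 : ξ * K ≤ ξ1 * K := mul_le_mul_of_nonneg_right hξ1 hK0.le
  have a7 : m * (ξ1 + 2 * P + 4 * κ * l) ≤ m * (ξ0 / 48 * K) := mul_le_mul_of_nonneg_left h4 hm0
  have a8 : ξ * m ≤ ξ1 * m := mul_le_mul_of_nonneg_right hξ1 hm0
  have a9 : ξ0 * (m * K) ≤ ξ * (m * K) := mul_le_mul_of_nonneg_right hξ (by positivity)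
  have a10 : 0 ≤ κ * l := mul_nonneg hκ hl
  have a11 : 0 ≤ κ * l * m := mul_nonneg a10 hm0
  rw [hmn]
  have goal : b * l + N * (P - ξ * (K - 1)) + β * (P - ξ * (K / 3)) ≤
      (2 * κ * m + 2 * κ) * l + ((m + 1) * P - (m - 2) * (ξ * (K - 1))) +
        (m * P - (m / 8 - 1) * (ξ * (K / 3))) := by linarith
  refine goal.trans ?_
  nlinarith

end Pool.Agent.DL

namespace Pool.Agent.DL

open Finset

/-- A vertex of a connected graph with at least two vertices is the end of an edge. -/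
theorem isCl_slab {D : ℕ} {A : Finset (Site D)} {E Ed : Finset (Edge D)} (h : (lat D).IsCl A E)
    (hE : E ⊆ Ed) {a : ℤ} {s : ℕ} (hs : Slab a s Ed) {u w : Site D} (hu : u ∈ A) (hw : w ∈ A)
    (huw : u ≠ w) : a ≤ u.1 ∧ u.1 ≤ a + s := by
  have h1 := h.2.2 u hu w hw
  rcases Relation.ReflTransGen.cases_head h1 with h2 | ⟨c, ⟨e, he, h3⟩, _⟩
  · exact absurd h2 huw
  · have h4 := hs e (hE he)
    have h5 : ((lat D).s e).1 ≤ ((lat D).t e).1 := by
      show e.1.1 ≤ (e.1 + SB.dir (e.2, true)).1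
      rcases e with ⟨z, o⟩
      cases o <;> simp [SB.dir]
    rcases h3 with ⟨h3, -⟩ | ⟨-, h3⟩ <;> rw [← h3] <;> constructor <;> omega

theorem span_crs {D : ℕ} {q v0 vm ξ Cs c P1 : ℝ} {v : Edge D → ℝ} (hq : 1 ≤ q) (hv0 : 0 < v0)
    (h : Inp D q v0 vm ξ Cs c v) (K : ℕ) (hK : 2 ≤ K)
    (hsp : ∀ (a : ℤ) (Ed : Finset (Edge D)), Slab a (K - 1) Ed → ∀ (x : Site D) (h : ℕ), h ≤ K →
        (lat D).cs q v Ed x (fun A _ => ind (∃ u ∈ A, ∃ w ∈ A, (h : ℤ) ≤ |u.1 - w.1|)) ≤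
          P1 * Real.exp (-ξ * h)) (s : ℤ) (j : ℤ) (Ed : Finset (Edge D))
    (hs : Slab (s + K * j) (K - 1) Ed) (x : Site D) :
    (lat D).cs q v Ed x (fun A _ => ind (Crs K s A)) ≤ P1 * Real.exp (-ξ * (K - 1)) := by
  have hv : ∀ e, 0 ≤ v e := fun e => hv0.le.trans (h.lo e)
  have h1 := hsp (s + K * j) Ed hs x (K - 1) (by omega)
  have e1 : ((K - 1 : ℕ) : ℝ) = K - 1 := by
    rw [Nat.cast_sub (by omega)]; simp
  rw [e1] at h1
  refine le_trans ?_ h1
  refine (lat D).cs_mono q v (by linarith) hv Ed x _ _ ?_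
  intro A E hA _ _ hE
  apply ind_mono
  rintro ⟨⟨u, hu, hu'⟩, w, hw, hw'⟩
  have hne : u ≠ w := by
    rintro rfl
    omega
  have a1 := isCl_slab hA hE hs hu hw hne
  have a2 := isCl_slab hA hE hs hw hu (Ne.symm hne)
  refine ⟨u, hu, w, hw, ?_⟩
  have e2 : ((K - 1 : ℕ) : ℤ) = K - 1 := by omega
  rw [e2] at a1 a2 ⊢
  have hKp : (0 : ℤ) < K := by omega
  have b1 : (u.1 - s) / K = j := by
    have : u.1 - s = (u.1 - (s + K * j)) + K * j := by ring
    rw [this, Int.add_mul_ediv_left _ _ hKp.ne', Int.ediv_eq_zero_of_lt (by omega) (by omega)]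
    ring
  have b2 : (w.1 - s) / K = j := by
    have : w.1 - s = (w.1 - (s + K * j)) + K * j := by ring
    rw [this, Int.add_mul_ediv_left _ _ hKp.ne', Int.ediv_eq_zero_of_lt (by omega) (by omega)]
    ring
  have c1 := Int.emod_add_mul_ediv (u.1 - s) K
  have c2 := Int.emod_add_mul_ediv (w.1 - s) K
  rw [hu', b1] at c1
  rw [hw', b2] at c2
  rw [abs_sub_comm, le_abs]
  left
  omega

theorem span_dps {D : ℕ} {q v0 vm ξ Cs c P1 : ℝ} {v : Edge D → ℝ} (hq : 1 ≤ q) (hv0 : 0 < v0)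
    (h : Inp D q v0 vm ξ Cs c v) (K g : ℕ) (hK : K = 6 * g)
    (hsp : ∀ (a : ℤ) (Ed : Finset (Edge D)), Slab a (K - 1) Ed → ∀ (x : Site D) (h : ℕ), h ≤ K →
        (lat D).cs q v Ed x (fun A _ => ind (∃ u ∈ A, ∃ w ∈ A, (h : ℤ) ≤ |u.1 - w.1|)) ≤
          P1 * Real.exp (-ξ * h)) (s : ℤ) (j : ℤ) (Ed : Finset (Edge D))
    (hs : Slab (s + K * j) (K - 1) Ed) (x : Site D) :
    (lat D).cs q v Ed x (fun A _ => ind (Dp K s A)) ≤ P1 * Real.exp (-ξ * (K / 3)) := by
  have hv : ∀ e, 0 ≤ v e := fun e => hv0.le.trans (h.lo e)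
  have h1 := hsp (s + K * j) Ed hs x (2 * g) (by omega)
  have e1 : ((2 * g : ℕ) : ℝ) = K / 3 := by
    rw [hK]; push_cast; ring
  rw [e1] at h1
  refine le_trans ?_ h1
  refine (lat D).cs_mono q v (by linarith) hv Ed x _ _ ?_
  intro A E hA _ _ hE
  apply ind_mono
  rintro ⟨-, u, hu, w, hw, huw⟩
  refine ⟨u, hu, w, hw, ?_⟩
  rw [hK] at huw
  push_cast at huw ⊢
  omega

end Pool.Agent.DL

namespace Pool.Agent.DL

open Finset

/-- The deterministic part: few clean heights imply many components. -/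
theorem det_cases {D : ℕ} (ξ : ℝ) {r κ K n : ℕ} {m0 : ℤ} {A : Finset (Site D)}
    {E : Finset (Edge D)} {x y : Site D} (h : (lat D).IsCl A E) (ha : Adm n x y A)
    (hκ : 1 ≤ κ) (hK : K = 6 * (4 * r + 8)) (hn : 8 * K ≤ n) (hA : A.card ≤ κ * (n + 1))
    (h5 : Real.exp (-(ξ * r / 8)) * κ ≤ 1 / (40 * K))
    (hnn : ((nnc ξ r (4 * r + 8) m0 n A).card : ℝ) ≤ Real.exp (-(ξ * r / 8)) * A.card)
    (hf : ((cln ξ r (20 * κ * K) (4 * r + 8) m0 n A).card : ℝ) +
      (ngc ξ r (4 * r + 8) m0 n A).card < n / (4 * K)) (s : ℕ) (hs : s < K) :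
    (fsl K s n).card + n / (8 * K) ≤ (crs K s A E).card ∨
      ((fsl K s n).card ≤ (crs K s A E).card ∧ n / (8 * K) ≤ (dps K s A E).card) := by
  have hK0 : 0 < K := by omega
  have hKr : (0 : ℝ) < K := by exact_mod_cast hK0
  have hKr' : (K : ℝ) ≠ 0 := hKr.ne'
  have h1 := det ξ r (20 * κ) (m0 := m0) h ha (by omega) s (by omega) K hK (by exact_mod_cast hs)
  have h2 := fsl_card K (by omega) s (by omega) (by exact_mod_cast hs) n (by omega)
  have h3 := fsl_le_crs h ha K (by omega) s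
  have hAr : (A.card : ℝ) ≤ κ * (n + 1) := by exact_mod_cast hA
  have hκr : (1 : ℝ) ≤ κ := by exact_mod_cast hκ
  have hκ0 : (κ : ℝ) ≠ 0 := by positivity
  have hnr : 8 * (K : ℝ) ≤ n := by exact_mod_cast hn
  set t : ℝ := n / K with ht
  have hnt : (n : ℝ) = t * K := by rw [ht]; field_simp
  have ht8 : 8 ≤ t := by
    rw [ht, le_div_iff₀ hKr]; exact hnr
  have hn1 : ((n : ℝ) + 1) / K ≤ 2 * t := by
    rw [div_le_iff₀ hKr]
    have : (1 : ℝ) ≤ K := by exact_mod_cast hK0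
    nlinarith
  have a1 : ((nnc ξ r (4 * r + 8) m0 n A).card : ℝ) ≤ t / 20 := by
    refine hnn.trans ?_
    calc Real.exp (-(ξ * r / 8)) * A.card ≤ Real.exp (-(ξ * r / 8)) * (κ * (n + 1)) :=
          mul_le_mul_of_nonneg_left hAr (Real.exp_nonneg _)
      _ = (Real.exp (-(ξ * r / 8)) * κ) * (n + 1) := by ring
      _ ≤ 1 / (40 * K) * (n + 1) := mul_le_mul_of_nonneg_right h5 (by positivity)
      _ = ((n : ℝ) + 1) / K / 40 := by field_simp
      _ ≤ t / 20 := by linarith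
  have a2 : (A.card : ℝ) / ((20 * κ : ℕ) * K) ≤ t / 10 := by
    rw [div_le_iff₀ (by positivity)]
    push_cast
    have : ((n : ℝ) + 1) ≤ 2 * t * K := by
      rw [div_le_iff₀ hKr] at hn1; exact hn1
    calc (A.card : ℝ) ≤ κ * (n + 1) := hAr
      _ ≤ κ * (2 * t * K) := mul_le_mul_of_nonneg_left this (by positivity)
      _ = t / 10 * (20 * κ * K) := by ring
  have a3 : (n : ℝ) / (4 * K) = t / 4 := by rw [ht]; field_simp
  have a4 : ((n / (8 * K) : ℕ) : ℝ) ≤ t / 8 := by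
    refine (Nat.cast_div_le).trans (le_of_eq ?_)
    rw [ht]; push_cast; field_simp
  rw [a3] at hf
  have h2' : t ≤ (fsl K s n).card + 2 := by
    have := h2.1
    push_cast at this
    exact this
  by_contra hcon
  push Not at hcon
  obtain ⟨c1, c2⟩ := hcon
  have c3 := c2 h3
  have d1 : ((crs K s A E).card : ℝ) ≤ (fsl K s n).card + t / 8 := by
    have : ((crs K s A E).card : ℝ) < (fsl K s n).card + (n / (8 * K) : ℕ) := by
      exact_mod_cast c1
    linarith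
  have d2 : ((dps K s A E).card : ℝ) ≤ t / 8 := by
    have : ((dps K s A E).card : ℝ) < (n / (8 * K) : ℕ) := by exact_mod_cast c3
    linarith
  linarith

end Pool.Agent.DL

namespace Pool.Agent.DL

open Finset

theorem bad_prob {D : ℕ} {q v0 vm ξ ξ0 ξ1 Cs c P1 : ℝ} {v : Edge D → ℝ} (hq : 1 ≤ q)
    (hv0 : 0 < v0) (hξ0 : 0 < ξ0) (h0 : ξ0 ≤ ξ) (h01 : ξ ≤ ξ1) (h : Inp D q v0 vm ξ Cs c v)
    {r κ K : ℕ} (hκ : 1 ≤ κ) (hK : K = 6 * (4 * r + 8)) (hP1 : 1 ≤ P1)
    (hsp : ∀ (a : ℤ) (Ed : Finset (Edge D)), Slab a (K - 1) Ed → ∀ (x : Site D) (h : ℕ), h ≤ K →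
        (lat D).cs q v Ed x (fun A _ => ind (∃ u ∈ A, ∃ w ∈ A, (h : ℤ) ≤ |u.1 - w.1|)) ≤
          P1 * Real.exp (-ξ * h))
    (h1 : P1 * Real.exp (-ξ0 * (K / 3)) ≤ 1)
    (h4 : ξ1 + 2 * Real.log P1 + 4 * κ * Real.log (1 + 3 * vm) ≤ ξ0 / 48 * K)
    (h5 : Real.exp (-(ξ0 * r / 8)) * κ ≤ 1 / (40 * K))
    (hnn : ∀ (A : Finset (Site D)) (m0 n : ℤ),
      ((nnc ξ0 r (4 * r + 8) m0 n A).card : ℝ) ≤ Real.exp (-(ξ0 * r / 8)) * A.card)
    (n : ℕ) (hn : 8 * K ≤ n) (m0 : ℤ) (x y : Site D) (Ed : Finset (Edge D)) :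
    (lat D).cs q v Ed x (fun A _ => ind (Adm n x y A ∧ A.card ≤ κ * (n + 1) ∧
      ((cln ξ0 r (20 * κ * K) (4 * r + 8) m0 n A).card : ℝ) +
        (ngc ξ0 r (4 * r + 8) m0 n A).card < n / (4 * K))) ≤
      6 * K * Real.exp (-(ξ + ξ0 / 48) * n +
        (Real.log P1 + 3 * ξ1 * K + 2 * κ * Real.log (1 + 3 * vm))) := by
  have hv : ∀ e, 0 ≤ v e := fun e => hv0.le.trans (h.lo e)
  have hK0 : 0 < K := by omega
  have hKr : (0 : ℝ) < K := by exact_mod_cast hK0
  have hvm : 0 ≤ vm := by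
    have e : Edge D := (0, none)
    exact (hv e).trans (h.hi e)
  have hl : 0 ≤ Real.log (1 + 3 * vm) := Real.log_nonneg (by linarith)
  have hP : 0 ≤ Real.log P1 := Real.log_nonneg hP1
  have hP0 : 0 < P1 := by linarith
  set b : ℕ := 2 * κ * (n + 1) / K with hb
  set β : ℕ := n / (8 * K) with hβ
  set pc : ℝ := P1 * Real.exp (-ξ * (K - 1)) with hpc
  set pd : ℝ := P1 * Real.exp (-ξ * (K / 3)) with hpd
  have hpd1 : pd ≤ 1 := by
    refine le_trans ?_ h1
    apply mul_le_mul_of_nonneg_left _ hP0.le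
    apply Real.exp_le_exp.mpr
    have : 0 ≤ (K : ℝ) / 3 := by positivity
    nlinarith
  have hK2 : (2 : ℝ) ≤ K := by
    have : 2 ≤ K := by omega
    exact_mod_cast this
  have hpcd : pc ≤ pd := by
    apply mul_le_mul_of_nonneg_left _ hP0.le
    apply Real.exp_le_exp.mpr
    have : (K : ℝ) / 3 ≤ K - 1 := by linarith
    have h2 : 0 < ξ := by linarith
    nlinarith
  have hpc0 : 0 < pc := mul_pos hP0 (Real.exp_pos _)
  have hpd0 : 0 < pd := mul_pos hP0 (Real.exp_pos _)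
  -- the deterministic part
  have key : ∀ A E, (lat D).IsCl A E → x ∈ A → A ⊆ (lat D).vs Ed x → E ⊆ Ed →
      ind (Adm n x y A ∧ A.card ≤ κ * (n + 1) ∧
      ((cln ξ0 r (20 * κ * K) (4 * r + 8) m0 n A).card : ℝ) +
        (ngc ξ0 r (4 * r + 8) m0 n A).card < n / (4 * K)) ≤
      ∑ s ∈ range K, (ind ((bdy K s A).card ≤ b ∧ (fsl K s n).card + β ≤ (crs K s A E).card ∧
        0 ≤ (dps K s A E).card) + ind ((bdy K s A).card ≤ b ∧
          (fsl K s n).card ≤ (crs K s A E).card ∧ β ≤ (dps K s A E).card)) := by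
    intro A E hA _ _ _
    by_cases hP' : Adm n x y A ∧ A.card ≤ κ * (n + 1) ∧
      ((cln ξ0 r (20 * κ * K) (4 * r + 8) m0 n A).card : ℝ) +
        (ngc ξ0 r (4 * r + 8) m0 n A).card < n / (4 * K)
    · rw [ind_true hP']
      obtain ⟨ha, hAc, hf⟩ := hP'
      obtain ⟨s, hs, hs'⟩ := exists_offset K (by omega) A
      rw [mem_range] at hs
      have hbd : (bdy K s A).card ≤ b := by
        rw [hb, Nat.le_div_iff_mul_le hK0]
        calc (bdy K s A).card * K = K * (bdy K s A).card := mul_comm _ _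
          _ ≤ 2 * A.card := hs'
          _ ≤ 2 * (κ * (n + 1)) := by omega
          _ = 2 * κ * (n + 1) := by ring
      refine le_trans ?_ (single_le_sum (fun s _ => add_nonneg (ind_nonneg _) (ind_nonneg _))
        (mem_range.mpr hs))
      rcases det_cases ξ0 hA ha hκ hK hn hAc h5 (hnn A m0 n) hf s hs with h6 | ⟨h6, h7⟩
      · rw [ind_true ⟨hbd, h6, Nat.zero_le _⟩]
        linarith [ind_nonneg ((bdy K s A).card ≤ b ∧
          (fsl K s n).card ≤ (crs K s A E).card ∧ β ≤ (dps K s A E).card)]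
      · rw [ind_true (p := ((bdy K s A).card ≤ b ∧
          (fsl K s n).card ≤ (crs K s A E).card ∧ β ≤ (dps K s A E).card)) ⟨hbd, h6, h7⟩]
        linarith [ind_nonneg ((bdy K s A).card ≤ b ∧ (fsl K s n).card + β ≤ (crs K s A E).card ∧
          0 ≤ (dps K s A E).card)]
    · rw [ind_false hP']
      exact sum_nonneg fun s _ => add_nonneg (ind_nonneg _) (ind_nonneg _)
  refine ((lat D).cs_mono q v (by linarith) hv Ed x _ _ key).trans ?_
  rw [Gr.cs_sum]
  have hexp : ∀ s ∈ range K, 3 * (1 + 3 * vm) ^ b * pc ^ (fsl K s n).card * pd ^ β ≤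
      3 * Real.exp (-(ξ + ξ0 / 48) * n +
        (Real.log P1 + 3 * ξ1 * K + 2 * κ * Real.log (1 + 3 * vm))) := by
    intro s hs
    rw [mem_range] at hs
    have h2 := fsl_card K (by omega) s (by omega) (by exact_mod_cast hs) n (by omega)
    have e1 : (1 + 3 * vm) ^ b = Real.exp (b * Real.log (1 + 3 * vm)) := by
      rw [Real.exp_nat_mul, Real.exp_log (by linarith)]
    have e2 : pc ^ (fsl K s n).card =
        Real.exp ((fsl K s n).card * (Real.log P1 - ξ * (K - 1))) := by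
      rw [Real.exp_nat_mul, sub_eq_add_neg, Real.exp_add, Real.exp_log hP0, hpc]
      congr 3
      ring
    have e3 : pd ^ β = Real.exp (β * (Real.log P1 - ξ * (K / 3))) := by
      rw [Real.exp_nat_mul, sub_eq_add_neg, Real.exp_add, Real.exp_log hP0, hpd]
      congr 3
      ring
    rw [e1, e2, e3, mul_assoc, mul_assoc, ← Real.exp_add, ← Real.exp_add]
    apply mul_le_mul_of_nonneg_left _ (by norm_num)
    apply Real.exp_le_exp.mpr
    rw [← add_assoc]
    push_cast at h2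
    refine energy_exp h0 h01 hξ0 hl hP (by positivity) hK2 (by positivity) h2.1 h2.2 ?_ ?_
      ?_ h4
    · have h3 : (n : ℝ) / ((8 * K : ℕ) : ℝ) ≤ ((n / (8 * K) : ℕ) : ℝ) + 1 := by
        have := Nat.lt_floor_add_one ((n : ℝ) / ((8 * K : ℕ) : ℝ))
        rw [Nat.floor_div_eq_div] at this
        exact this.le
      push_cast at h3
      exact h3
    · refine (Nat.cast_div_le).trans ?_
      push_cast
      apply div_le_div_of_nonneg_left (by positivity) hKr (by linarith)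
    · refine (Nat.cast_div_le).trans (le_of_eq ?_)
      push_cast
      ring
  have hterm : ∀ s ∈ range K, (lat D).cs q v Ed x (fun A E =>
      ind ((bdy K s A).card ≤ b ∧ (fsl K s n).card + β ≤ (crs K s A E).card ∧
        0 ≤ (dps K s A E).card) + ind ((bdy K s A).card ≤ b ∧
          (fsl K s n).card ≤ (crs K s A E).card ∧ β ≤ (dps K s A E).card)) ≤
      6 * Real.exp (-(ξ + ξ0 / 48) * n +
        (Real.log P1 + 3 * ξ1 * K + 2 * κ * Real.log (1 + 3 * vm))) := by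
    intro s hs
    rw [(lat D).cs_add]
    have hc := fun j Ed' hs' x' => span_crs hq hv0 h K (by omega) hsp (s : ℤ) j Ed' hs' x'
    have hd := fun j Ed' hs' x' => span_dps hq hv0 h K (4 * r + 8) hK hsp (s : ℤ) j Ed' hs' x'
    have b1 := slab_bound q vm hq v hv h.hi K (by omega) s pc pd hpc0 (hpcd.trans hpd1) hpd0 hpd1
      hc hd Ed x b ((fsl K s n).card + β) 0
    have b2 := slab_bound q vm hq v hv h.hi K (by omega) s pc pd hpc0 (hpcd.trans hpd1) hpd0 hpd1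
      hc hd Ed x b (fsl K s n).card β
    have b3 := hexp s hs
    have b4 : 3 * (1 + 3 * vm) ^ b * pc ^ ((fsl K s n).card + β) * pd ^ 0 ≤
        3 * (1 + 3 * vm) ^ b * pc ^ (fsl K s n).card * pd ^ β := by
      rw [pow_zero, mul_one, pow_add, ← mul_assoc]
      apply mul_le_mul_of_nonneg_left (pow_le_pow_left₀ hpc0.le hpcd _)
      have : 0 ≤ (1 + 3 * vm) ^ b := pow_nonneg (by linarith) _
      positivity
    linarith
  refine (sum_le_sum hterm).trans (le_of_eq ?_)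
  rw [sum_const, card_range, nsmul_eq_mul]
  ring

end Pool.Agent.DL

namespace Pool.Agent.DL

open Finset

/-- Exponential moments of the size of an admissible cluster. -/
theorem adm_tail {D : ℕ} {q v0 vm ξ Cs c : ℝ} {v : Edge D → ℝ} (hq : 1 ≤ q) (hv0 : 0 < v0)
    (hc : 0 < c) (h : Inp D q v0 vm ξ Cs c v) {η : ℝ} (hη : η ≤ c / 2) (n : ℕ)
    (Ed : Finset (Edge D)) (x y : Site D) (k : ℕ) :
    (lat D).cs q v Ed x (fun A _ => ind (Adm n x y A ∧ k ≤ A.card) * Real.exp (η * A.card)) ≤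
      (1 - Real.exp (-(c / 2)))⁻¹ * Real.exp (Cs * (n + 1) - c / 2 * k) := by
  have hv : ∀ e, 0 ≤ v e := fun e => hv0.le.trans (h.lo e)
  set Ed' := Ed.filter fun e => (0 : ℤ) ≤ ((lat D).s e).1 ∧ ((lat D).t e).1 ≤ n with hEd'
  have hsl : Slab 0 n Ed' := by
    intro e he
    rw [hEd', mem_filter] at he
    exact ⟨he.2.1, by have := he.2.2; omega⟩
  refine le_trans ?_ (exp_tail hq hv0 hc h hη 0 n Ed' hsl x k)
  have h1 : (lat D).cs q v Ed x
      (fun A _ => ind (Adm n x y A ∧ k ≤ A.card) * Real.exp (η * A.card)) ≤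
      (lat D).cs q v Ed' x
      (fun A _ => ind (Adm n x y A ∧ k ≤ A.card) * Real.exp (η * A.card)) := by
    refine (lat D).cs_restrict_le q v hq hv (filter_subset _ _) x _
      (fun A E => mul_nonneg (ind_nonneg _) (Real.exp_nonneg _)) ?_
    intro A E hA _ hE hF e he
    have hP : Adm n x y A ∧ k ≤ A.card := by
      by_contra hcon
      rw [ind_false hcon, zero_mul] at hF
      exact hF rfl
    have h2 := hA.2.1 e he
    rw [mem_filter]
    exact ⟨hE he, (hP.1.2.2.2.2 _ h2.1).1, (hP.1.2.2.2.2 _ h2.2).2⟩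
  refine h1.trans ?_
  refine (lat D).cs_mono q v (by linarith) hv Ed' x _ _ ?_
  intro A E _ _ _ _
  exact mul_le_mul_of_nonneg_right (ind_mono fun h => h.2) (Real.exp_nonneg _)

/-- The sum over all admissible clusters. -/
theorem adm_le {D : ℕ} {q v0 vm ξ Cs c : ℝ} {v : Edge D → ℝ} (hq : 1 ≤ q) (hv0 : 0 < v0)
    (h : Inp D q v0 vm ξ Cs c v) (n : ℕ) (Ed : Finset (Edge D)) (x y : Site D)
    (P : Finset (Site D) → Prop) :
    (lat D).cs q v Ed x (fun A _ => ind (Adm n x y A ∧ P A)) ≤ Real.exp (-ξ * n) := by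
  have hv : ∀ e, 0 ≤ v e := fun e => hv0.le.trans (h.lo e)
  by_cases hxy : x.1 = 0 ∧ y.1 = n
  · have h1 := h.pw Ed x y
    have e1 : |x.1 - y.1| = (n : ℤ) := by
      rw [hxy.1, hxy.2]; simp
    rw [e1] at h1
    refine le_trans ?_ (h1.trans (le_of_eq (by push_cast; rfl)))
    rw [(lat D).cs_ind q v (by linarith) hv Ed x (fun A _ => Adm n x y A ∧ P A)]
    refine (lat D).pr_le q v (by linarith) hv Ed _ _ ?_
    rintro ω _ ⟨A, E, hcl, ha, -⟩
    exact ((lat D).cls_iff hcl y).mp ha.2.1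
  · have h1 : (lat D).cs q v Ed x (fun A _ => ind (Adm n x y A ∧ P A)) ≤
        (lat D).cs q v Ed x (fun A _ => 0 * ind (Adm n x y A ∧ P A)) := by
      refine (lat D).cs_mono q v (by linarith) hv Ed x _ _ ?_
      intro A E _ _ _ _
      rw [ind_false (fun h => hxy ⟨h.1.2.2.1, h.1.2.2.2.1⟩)]
      simp
    refine h1.trans ?_
    rw [(lat D).cs_smul, zero_mul]
    exact Real.exp_nonneg _

/-- The recursion for the number of nice good cuts. -/
theorem rec_step {D : ℕ} {q v0 vm ξ ξ0 Cs c : ℝ} {v : Edge D → ℝ} (hq : 1 ≤ q) (hv0 : 0 < v0)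
    (h : Inp D q v0 vm ξ Cs c v) {r R K W n : ℕ} {C2 ρ : ℝ} (hK : 0 < K)
    (hn : 0 < n) {m0 : ℤ} {x y : Site D} {Ed : Finset (Edge D)}
    (hone : ∀ k : ℕ, (lat D).cs q v Ed x (fun A _ =>
          ind (Adm n x y A ∧ A.card ≤ W ∧ (ngc ξ0 r (4 * r + 8) m0 n A).card = k) *
            ((cln ξ0 r R (4 * r + 8) m0 n A).card : ℝ)) ≤
        C2 * (k + 1) * (lat D).cs q v Ed x (fun A _ =>
          ind (Adm n x y A ∧ (ngc ξ0 r (4 * r + 8) m0 n A).card = k + 1)))
    (hρ : (lat D).cs q v Ed x (fun A _ => ind (Adm n x y A ∧ W + 1 ≤ A.card)) +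
      (lat D).cs q v Ed x (fun A _ => ind (Adm n x y A ∧ A.card ≤ W ∧
      ((cln ξ0 r R (4 * r + 8) m0 n A).card : ℝ) +
        (ngc ξ0 r (4 * r + 8) m0 n A).card < n / (4 * K))) ≤ ρ) (k : ℕ)
    (hk : (k : ℝ) ≤ n / (8 * K)) :
    (lat D).cs q v Ed x (fun A _ =>
          ind (Adm n x y A ∧ (ngc ξ0 r (4 * r + 8) m0 n A).card = k)) ≤
      ρ + 8 * K * C2 * (k + 1) / n * (lat D).cs q v Ed x (fun A _ =>
          ind (Adm n x y A ∧ (ngc ξ0 r (4 * r + 8) m0 n A).card = k + 1)) := by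
  have hv : ∀ e, 0 ≤ v e := fun e => hv0.le.trans (h.lo e)
  have hnr : (0 : ℝ) < n := by exact_mod_cast hn
  have hKr : (0 : ℝ) < K := by exact_mod_cast hK
  have key : ∀ A E, (lat D).IsCl A E → x ∈ A → A ⊆ (lat D).vs Ed x → E ⊆ Ed →
      ind (Adm n x y A ∧ (ngc ξ0 r (4 * r + 8) m0 n A).card = k) ≤
      (ind (Adm n x y A ∧ W + 1 ≤ A.card) + ind (Adm n x y A ∧ A.card ≤ W ∧
      ((cln ξ0 r R (4 * r + 8) m0 n A).card : ℝ) +
        (ngc ξ0 r (4 * r + 8) m0 n A).card < n / (4 * K))) + (8 * K / n) *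
        (ind (Adm n x y A ∧ A.card ≤ W ∧ (ngc ξ0 r (4 * r + 8) m0 n A).card = k) *
            ((cln ξ0 r R (4 * r + 8) m0 n A).card : ℝ)) := by
    intro A E _ _ _ _
    have n1 := ind_nonneg (Adm n x y A ∧ W + 1 ≤ A.card)
    have n2 := ind_nonneg (Adm n x y A ∧ A.card ≤ W ∧
      ((cln ξ0 r R (4 * r + 8) m0 n A).card : ℝ) +
        (ngc ξ0 r (4 * r + 8) m0 n A).card < n / (4 * K))
    have n3 : 0 ≤ (8 * K / n : ℝ) *
        (ind (Adm n x y A ∧ A.card ≤ W ∧ (ngc ξ0 r (4 * r + 8) m0 n A).card = k) *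
            ((cln ξ0 r R (4 * r + 8) m0 n A).card : ℝ)) :=
      mul_nonneg (by positivity) (mul_nonneg (ind_nonneg _) (by positivity))
    by_cases hP : Adm n x y A ∧ (ngc ξ0 r (4 * r + 8) m0 n A).card = k
    · rw [ind_true hP]
      by_cases h1 : W + 1 ≤ A.card
      · rw [ind_true (p := (Adm n x y A ∧ W + 1 ≤ A.card)) ⟨hP.1, h1⟩]
        linarith
      · have h1' : A.card ≤ W := by omega
        by_cases h2 : ((cln ξ0 r R (4 * r + 8) m0 n A).card : ℝ) +
            (ngc ξ0 r (4 * r + 8) m0 n A).card < n / (4 * K)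
        · rw [ind_true (p := (Adm n x y A ∧ A.card ≤ W ∧
            ((cln ξ0 r R (4 * r + 8) m0 n A).card : ℝ) +
            (ngc ξ0 r (4 * r + 8) m0 n A).card < n / (4 * K))) ⟨hP.1, h1', h2⟩]
          linarith
        · have h3 : (1 : ℝ) ≤ (8 * K / n : ℝ) *
            (ind (Adm n x y A ∧ A.card ≤ W ∧ (ngc ξ0 r (4 * r + 8) m0 n A).card = k) *
            ((cln ξ0 r R (4 * r + 8) m0 n A).card : ℝ)) := by
            rw [ind_true ⟨hP.1, h1', hP.2⟩, one_mul]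
            have h4 : (n : ℝ) / (8 * K) ≤ ((cln ξ0 r R (4 * r + 8) m0 n A).card : ℝ) := by
              push Not at h2
              rw [hP.2] at h2
              have : (n : ℝ) / (4 * K) = 2 * (n / (8 * K)) := by field_simp; norm_num
              linarith
            calc (1 : ℝ) = (8 * K / n) * (n / (8 * K)) := by field_simp
              _ ≤ _ := mul_le_mul_of_nonneg_left h4 (by positivity)
          linarith
    · rw [ind_false hP]
      linarith
  refine ((lat D).cs_mono q v (by linarith) hv Ed x _ _ key).trans ?_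
  rw [(lat D).cs_add, (lat D).cs_add, (lat D).cs_smul]
  have h1 := hone k
  have h2 : (8 * K / n : ℝ) * (lat D).cs q v Ed x (fun A _ =>
          ind (Adm n x y A ∧ A.card ≤ W ∧ (ngc ξ0 r (4 * r + 8) m0 n A).card = k) *
            ((cln ξ0 r R (4 * r + 8) m0 n A).card : ℝ)) ≤
      (8 * K / n : ℝ) * (C2 * (k + 1) * (lat D).cs q v Ed x (fun A _ =>
          ind (Adm n x y A ∧ (ngc ξ0 r (4 * r + 8) m0 n A).card = k + 1))) :=
    mul_le_mul_of_nonneg_left h1 (by positivity)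
  have h3 : (8 * K / n : ℝ) * (C2 * (k + 1) * (lat D).cs q v Ed x (fun A _ =>
          ind (Adm n x y A ∧ (ngc ξ0 r (4 * r + 8) m0 n A).card = k + 1))) =
      8 * K * C2 * (k + 1) / n * (lat D).cs q v Ed x (fun A _ =>
          ind (Adm n x y A ∧ (ngc ξ0 r (4 * r + 8) m0 n A).card = k + 1)) := by
    ring
  linarith

end Pool.Agent.DL

namespace Pool.Agent.DL

open Finset Filter

theorem poly_exp (C a : ℝ) (ha : 0 < a) (m : ℕ) :
    ∃ r0 : ℕ, ∀ r : ℕ, r0 ≤ r → C * ((r : ℝ) + 1) ^ m ≤ Real.exp (a * r) := by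
  have h1 : Tendsto (fun x : ℝ => x ^ m / Real.exp (a * x)) atTop (nhds 0) := by
    have h2 := Real.tendsto_pow_mul_exp_neg_atTop_nhds_zero m
    have h3 : Tendsto (fun x : ℝ => a * x) atTop atTop := tendsto_id.const_mul_atTop ha
    have h4 := (h2.comp h3).const_mul (a⁻¹ ^ m)
    rw [mul_zero] at h4
    refine h4.congr' ?_
    filter_upwards with x
    simp only [Function.comp]
    rw [mul_pow, Real.exp_neg, ← mul_assoc, ← mul_assoc, ← mul_pow, inv_mul_cancel₀ ha.ne',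
      one_pow, one_mul, div_eq_mul_inv]
  have h2 : Tendsto (fun r : ℕ => ((r : ℝ) + 1) ^ m / Real.exp (a * ((r : ℝ) + 1))) atTop
      (nhds 0) := by
    refine h1.comp ?_
    exact tendsto_atTop_add_const_right _ _ tendsto_natCast_atTop_atTop
  set B := (|C| + 1) * Real.exp a with hB
  have hB0 : 0 < B := by positivity
  have h3 := h2.eventually (gt_mem_nhds (show (0 : ℝ) < B⁻¹ by positivity))
  obtain ⟨r0, hr0⟩ := eventually_atTop.mp h3
  refine ⟨r0, fun r hr => ?_⟩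
  have h4 := hr0 r hr
  rw [div_lt_iff₀ (Real.exp_pos _)] at h4
  have h5 : Real.exp (a * ((r : ℝ) + 1)) = Real.exp a * Real.exp (a * r) := by
    rw [← Real.exp_add]; ring_nf
  calc C * ((r : ℝ) + 1) ^ m ≤ (|C| + 1) * ((r : ℝ) + 1) ^ m :=
        mul_le_mul_of_nonneg_right (by linarith [le_abs_self C]) (by positivity)
    _ ≤ (|C| + 1) * (B⁻¹ * (Real.exp a * Real.exp (a * r))) := by
        rw [h5] at h4
        exact mul_le_mul_of_nonneg_left h4.le (by positivity)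
    _ = Real.exp (a * r) := by
        rw [hB]
        have : (|C| + 1) ≠ 0 := by positivity
        have : Real.exp a ≠ 0 := (Real.exp_pos a).ne'
        field_simp

/-- The choice of `r`. -/
theorem params (D : ℕ) (ξ0 ξ1 C1 l : ℝ) (hξ0 : 0 < ξ0) (hC1 : 1 ≤ C1) (κ : ℕ)
    (hκ : 1 ≤ κ) : ∃ r0 : ℕ, ∀ r : ℕ, r0 ≤ r → ∀ K : ℕ, K = 6 * (4 * r + 8) →
      (C1 * (K : ℝ) ^ (2 * D + 2)) * Real.exp (-ξ0 * (K / 3)) ≤ 1 ∧
      ξ1 + 2 * Real.log (C1 * (K : ℝ) ^ (2 * D + 2)) + 4 * κ * l ≤ ξ0 / 48 * K ∧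
      Real.exp (-(ξ0 * r / 8)) * κ ≤ 1 / (40 * K) ∧
      ((20 * κ * K : ℕ) : ℝ) + (2 * ((20 * κ * K : ℕ) : ℝ) + 1) ^ D ≤ Real.exp (ξ0 * r / 4) := by
  have hκr : (1 : ℝ) ≤ κ := by exact_mod_cast hκ
  obtain ⟨r1, h1⟩ := poly_exp (C1 * 48 ^ (2 * D + 2)) (ξ0 / 8) (by positivity) (2 * D + 2)
  obtain ⟨r2, h2⟩ := exists_nat_ge ((ξ1 + 4 * κ * l) / (ξ0 / 4))
  obtain ⟨r3, h3⟩ := poly_exp (40 * 48 * κ) (ξ0 / 8) (by positivity) 1
  obtain ⟨r4, h4⟩ := poly_exp ((3 * (20 * κ * 48)) ^ (D + 1)) (ξ0 / 4) (by positivity) (D + 1)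
  refine ⟨r1 + r2 + r3 + r4, fun r hr K hK => ?_⟩
  have a1 := h1 r (by omega)
  have a3 := h3 r (by omega)
  have a4 := h4 r (by omega)
  have hrr : (0 : ℝ) ≤ r := Nat.cast_nonneg r
  have hKr : (K : ℝ) = 24 * r + 48 := by rw [hK]; push_cast; ring
  have hKle : (K : ℝ) ≤ 48 * ((r : ℝ) + 1) := by rw [hKr]; linarith
  have hK0 : (0 : ℝ) < K := by rw [hKr]; linarith
  have hK1 : (1 : ℝ) ≤ K := by rw [hKr]; linarith
  have hP : C1 * (K : ℝ) ^ (2 * D + 2) ≤ Real.exp (ξ0 * r / 8) := by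
    calc C1 * (K : ℝ) ^ (2 * D + 2) ≤ C1 * (48 * ((r : ℝ) + 1)) ^ (2 * D + 2) :=
          mul_le_mul_of_nonneg_left (pow_le_pow_left₀ hK0.le hKle _) (by linarith)
      _ = C1 * 48 ^ (2 * D + 2) * ((r : ℝ) + 1) ^ (2 * D + 2) := by rw [mul_pow]; ring
      _ ≤ _ := a1
      _ = Real.exp (ξ0 * r / 8) := by ring_nf
  have hP1 : 1 ≤ C1 * (K : ℝ) ^ (2 * D + 2) := by
    have : (1 : ℝ) ≤ (K : ℝ) ^ (2 * D + 2) := one_le_pow₀ hK1
    nlinarith
  refine ⟨?_, ?_, ?_, ?_⟩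
  · calc (C1 * (K : ℝ) ^ (2 * D + 2)) * Real.exp (-ξ0 * (K / 3))
        ≤ Real.exp (ξ0 * r / 8) * Real.exp (-ξ0 * (K / 3)) :=
          mul_le_mul_of_nonneg_right hP (Real.exp_nonneg _)
      _ = Real.exp (ξ0 * r / 8 + -ξ0 * (K / 3)) := (Real.exp_add _ _).symm
      _ ≤ Real.exp 0 := by
          apply Real.exp_le_exp.mpr
          rw [hKr]
          nlinarith
      _ = 1 := Real.exp_zero
  · have b1 : Real.log (C1 * (K : ℝ) ^ (2 * D + 2)) ≤ ξ0 * r / 8 := by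
      rw [Real.log_le_iff_le_exp (by linarith)]
      exact hP
    have b2 : (ξ1 + 4 * κ * l) ≤ r * (ξ0 / 4) := by
      rw [← div_le_iff₀ (by positivity)]
      refine h2.trans ?_
      exact_mod_cast (by omega : r2 ≤ r)
    have b3 : ξ0 / 48 * K = ξ0 * r / 2 + ξ0 := by rw [hKr]; ring
    rw [b3]
    have b4 : r * (ξ0 / 4) = ξ0 * r / 4 := by ring
    rw [b4] at b2
    linarith
  · rw [Real.exp_neg, inv_mul_le_iff₀ (Real.exp_pos _)]
    have b1 : 40 * (K : ℝ) * κ ≤ Real.exp (ξ0 * r / 8) := by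
      calc 40 * (K : ℝ) * κ ≤ 40 * (48 * ((r : ℝ) + 1)) * κ := by
            have : 0 ≤ (κ : ℝ) := by linarith
            nlinarith
        _ = 40 * 48 * κ * ((r : ℝ) + 1) ^ 1 := by ring
        _ ≤ _ := a3
        _ = Real.exp (ξ0 * r / 8) := by ring_nf
    rw [mul_one_div, le_div_iff₀ (by positivity)]
    linarith
  · set R : ℝ := ((20 * κ * K : ℕ) : ℝ) with hR
    have hRv : R = 20 * κ * K := by rw [hR]; push_cast; ring
    have hR1 : 1 ≤ R := by
      rw [hRv]; nlinarith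
    have hRle : 3 * R ≤ 3 * (20 * κ * 48) * ((r : ℝ) + 1) := by
      rw [hRv]
      have : 0 ≤ (κ : ℝ) := by linarith
      nlinarith
    calc R + (2 * R + 1) ^ D ≤ R * (3 * R) ^ D + (2 * R) * (3 * R) ^ D := by
          have c1 : (1 : ℝ) ≤ (3 * R) ^ D := one_le_pow₀ (by linarith)
          have c2 : (2 * R + 1) ^ D ≤ (3 * R) ^ D :=
            pow_le_pow_left₀ (by linarith) (by linarith) _
          have c3 : R ≤ R * (3 * R) ^ D := by nlinarith
          have c4 : (3 * R) ^ D ≤ (2 * R) * (3 * R) ^ D := by nlinarith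
          linarith
      _ = (3 * R) ^ (D + 1) := by ring
      _ ≤ (3 * (20 * κ * 48) * ((r : ℝ) + 1)) ^ (D + 1) :=
          pow_le_pow_left₀ (by linarith) hRle _
      _ = (3 * (20 * κ * 48)) ^ (D + 1) * ((r : ℝ) + 1) ^ (D + 1) := by rw [mul_pow]
      _ ≤ _ := a4
      _ = Real.exp (ξ0 * r / 4) := by ring_nf

end Pool.Agent.DL
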