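import Pool.Agent.DLS.SharpFK
import Pool.Agent.DL.Bad
import Pool.Agent.DL.Defs2

/-!
# Sharpness gives the standing assumptions
-/

set_option autoImplicit false
set_option linter.unusedSectionVars false

namespace Pool.Agent.DL

open Finset Filter Topology
open Pool.Agent.DLS (co mem_box_co mem_edg wsp vJ_one sharp_fk)

variable {D : ℕ}

theorem mem_sph {N : ℕ} (hN : 1 ≤ N) (x : Site D) :
    x ∈ sph D N ↔ x ∈ SB.box D N ∧ x ∉ SB.box D (N - 1) := by
  unfold sph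
  rw [mem_filter]
  refine and_congr_right fun hx => ?_
  have h1 := (mem_box_co x).1 hx
  rw [mem_box_co]
  push Not
  constructor
  · rintro (h | h | ⟨i, h | h⟩)
    · exact ⟨none, by change N - 1 < x.1.natAbs; omega⟩
    · exact ⟨none, by change N - 1 < x.1.natAbs; omega⟩
    · exact ⟨some i, by change N - 1 < (x.2 i).natAbs; omega⟩
    · exact ⟨some i, by change N - 1 < (x.2 i).natAbs; omega⟩
  · rintro ⟨k, hk⟩
    have h2 := h1 k
    cases k with
    | none =>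
      change N - 1 < x.1.natAbs at hk
      change x.1.natAbs ≤ N at h2
      omega
    | some i =>
      change N - 1 < (x.2 i).natAbs at hk
      change (x.2 i).natAbs ≤ N at h2
      refine Or.inr (Or.inr ⟨i, ?_⟩)
      omega

theorem edg_sph {N : ℕ} (hN : 1 ≤ N) : edg (sph D N) = DLS.sphE D N := by
  ext e
  unfold DLS.sphE
  rw [mem_edg, mem_filter, mem_edg, mem_sph hN, mem_sph hN]
  tauto

theorem rch_box {N : ℕ} {ω : Finset (Edge D)} (hω : ω ⊆ edg (SB.box D N)) {y : Site D}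
    (h : (lat D).Rch ω 0 y) : y ∈ SB.box D N := by
  induction h with
  | refl => exact DLS.zero_mem_box N
  | tail _ h2 _ =>
    obtain ⟨e, he, ⟨h3, h4⟩ | ⟨h3, h4⟩⟩ := h2
    · rw [← h4]
      exact ((mem_edg e).1 (hω he)).2
    · rw [← h3]
      exact ((mem_edg e).1 (hω he)).1

theorem ev_sph {N : ℕ} (hN : 1 ≤ N) {ω : Finset (Edge D)} (hω : ω ⊆ edg (SB.box D N)) :
    (edg (sph D N) ⊆ ω ∧ ∃ y ∈ sph D N, (lat D).Rch ω 0 y) ↔
      (DLS.sphE D N ⊆ ω ∧ ∃ y, y ∉ SB.box D (N - 1) ∧ (lat D).Rch ω 0 y) := by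
  rw [edg_sph hN]
  refine and_congr_right fun _ => ?_
  constructor
  · rintro ⟨y, hy, hr⟩
    exact ⟨y, ((mem_sph hN y).1 hy).2, hr⟩
  · rintro ⟨y, hy, hr⟩
    exact ⟨y, (mem_sph hN y).2 ⟨rch_box hω hr, hy⟩, hr⟩

theorem pr_congr' {V ι : Type} [DecidableEq V] [DecidableEq ι] (G : Gr V ι) (q : ℝ) (u : ι → ℝ)
    (Ed : Finset ι) (A B : Finset ι → Prop) (h : ∀ ω ⊆ Ed, A ω ↔ B ω) :
    G.pr q u Ed A = G.pr q u Ed B := by
  classical
  rw [s1_pr_eq, s1_pr_eq]
  congr 1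
  refine sum_congr rfl fun ω hω => ?_
  simp only [h ω (mem_powerset.1 hω)]

/-- The quotient form of the exponential decay with the wired boundary condition. -/
theorem wsp_eq_PP {q β : ℝ} {N : ℕ} (hN : 1 ≤ N) : wsp D q (Real.exp β - 1) N =
    PP D q β 1 (SB.box D N) (fun ω => edg (sph D N) ⊆ ω ∧ ∃ y ∈ sph D N, (lat D).Rch ω 0 y) /
      PP D q β 1 (SB.box D N) (fun ω => edg (sph D N) ⊆ ω) := by
  unfold PP wsp
  rw [vJ_one, pr_congr' _ _ _ _ _ _ fun ω hω => ev_sph hN hω, edg_sph hN]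

theorem PP_sph_pos {q β : ℝ} (hq : 0 < q) (hβ : 0 < β) {N : ℕ} (hN : 1 ≤ N) :
    0 < PP D q β 1 (SB.box D N) (fun ω => edg (sph D N) ⊆ ω) := by
  classical
  have hv : 0 < Real.exp β - 1 := by
    have := Real.add_one_lt_exp hβ.ne'
    linarith
  unfold PP
  rw [vJ_one, edg_sph hN, s1_pr_eq]
  have hz := s1_zz_pos (lat D) hq (u := fun _ => Real.exp β - 1) (fun _ => hv.le)
    (edg (SB.box D N))
  refine div_pos ?_ hz
  have hW := s1_wt_nonneg (lat D) hq (u := fun _ => Real.exp β - 1) fun _ => hv.le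
  refine sum_pos' (fun ω _ => ?_) ⟨edg (SB.box D N), mem_powerset.2 (Subset.refl _), ?_⟩
  · split_ifs
    · exact hW _
    · exact le_refl _
  · have hsub : DLS.sphE D N ⊆ edg (SB.box D N) := filter_subset _ _
    rw [if_pos hsub]
    unfold Gr.wt
    rw [prod_const]
    exact mul_pos (pow_pos hv _) (pow_pos (inv_pos.2 hq) _)

theorem WD_iff {q β : ℝ} (hq : 0 < q) (hβ : 0 < β) : WD D q β ↔
    ∃ C c : ℝ, 0 < c ∧ ∀ N : ℕ, 1 ≤ N →
      wsp D q (Real.exp β - 1) N ≤ C * Real.exp (-(c * N)) := by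
  unfold WD
  refine exists_congr fun C => exists_congr fun c => and_congr_right fun _ =>
    forall_congr' fun N => forall_congr' fun hN => ?_
  rw [wsp_eq_PP hN, div_le_iff₀ (PP_sph_pos hq hβ hN)]

/-- Sharpness gives the exponential decay with the wired boundary condition. -/
theorem wd_of_sharp (q : ℕ) [NeZero q] (hD : 1 ≤ D) (hq : 2 ≤ q) {β β' : ℝ} (hβ : 0 < β)
    (hb : β < β') (hlim : Tendsto (DLS.plus D q β') atTop (𝓝 (1 / q))) :
    WD D (q : ℝ) β := by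
  obtain ⟨C, c, -, hc, h⟩ := sharp_fk D q hD hq hβ.le hb hlim
  have hq0 : (0 : ℝ) < q := Nat.cast_pos.2 (by omega)
  exact (WD_iff hq0 hβ).2 ⟨C, c, hc, h⟩

/-- The standing assumptions. -/
theorem bas_of_sharp (q : ℕ) [NeZero q] (hD : 1 ≤ D) (hq : 2 ≤ q) {β β' : ℝ} (hβ : 0 < β)
    (hb : β < β') (hlim : Tendsto (DLS.plus D q β') atTop (𝓝 (1 / q))) :
    Bas D (q : ℝ) β :=
  ⟨hD, by exact_mod_cast (by omega : 1 ≤ q), hβ, wd_of_sharp q hD hq hβ hb hlim⟩

end Pool.Agent.DL
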