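import Pool.Agent.DL.Ez
import Pool.Agent.DL.Ea
import Pool.Agent.DL.Wd
import Pool.Agent.DL.Gibbs

/-!
# The defect line for all subcritical inverse temperatures: conclusion
-/

set_option autoImplicit false

namespace Pool.Agent.DL

open Filter Topology

/-- The behaviour of the longitudinal inverse correlation length above the critical defect coupling
in dimension `d = D + 1 ≥ 4` below the critical inverse temperature. -/
theorem main (D q : ℕ) [NeZero q] (hD : 3 ≤ D) (hq : 2 ≤ q) (β : ℝ) (hβ : 0 < β)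
    (hc : ∃ β' : ℝ, β < β' ∧ Tendsto (fun L : ℕ => DLS.plus D q β' L) atTop (𝓝 (1 / (q : ℝ)))) :
    ∃ (μ : ℝ → ℕ → ℝ) (ξ : ℝ → ℝ) (Jc : ℝ),
      (∀ J, 0 ≤ J → ∀ n : ℕ,
        (∀ ε, 0 < ε → ∃ L0 : ℕ, ∀ L, L0 ≤ L → ∀ η : SB.Site D → ZMod q,
          |sameB D q β J (SB.box D L) η (0, 0) ((n : ℤ), 0) - μ J n| < ε) ∧
        ∀ ν, IsGibbs D q β J ν → ν.real {σ | σ (0, 0) = σ ((n : ℤ), 0)} = μ J n) ∧
      (∀ J, 0 ≤ J → Tendsto (fun n : ℕ => -(1 / (n : ℝ)) * Real.log (μ J n - 1 / q)) atTop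
        (𝓝 (ξ J))) ∧
      IsLUB {J : ℝ | 0 ≤ J ∧ ξ J = ξ 1} Jc ∧ 1 < Jc ∧
      ∃ c C ε : ℝ, 0 < c ∧ 0 < C ∧ 0 < ε ∧ ∀ J, Jc < J → J < Jc + ε →
        (D = 3 → c * (J - Jc) ^ 2 ≤ ξ Jc - ξ J ∧ ξ Jc - ξ J ≤ C * (J - Jc) ^ 2) ∧
        (D = 4 → c * ((J - Jc) / |Real.log (J - Jc)|) ≤ ξ Jc - ξ J ∧
          ξ Jc - ξ J ≤ C * ((J - Jc) / |Real.log (J - Jc)|)) ∧
        (5 ≤ D → c * (J - Jc) ≤ ξ Jc - ξ J ∧ ξ Jc - ξ J ≤ C * (J - Jc)) := by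
  obtain ⟨β', hb, hlim⟩ := hc
  have hB : Bas D (q : ℝ) β := bas_of_sharp q (by omega) hq hβ hb hlim
  obtain ⟨μ, ξ, h1, h2, h3, h4⟩ := potts_lim hq hB
  obtain ⟨Jc, hJc, h5, h6, c, hc, C, hC, e, he, h7⟩ := rates hD hB
  have hJ1 : (1 : ℝ) ≤ Jc := hJc.le
  have hξc : ξ Jc = ξ 1 := by
    rw [h4 Jc hJ1, h4 1 le_rfl, h5 Jc hJ1 le_rfl]
  refine ⟨μ, ξ, Jc, fun J hJ n => ⟨uniq hq hB hJ _ _ (h1 J hJ n),
    fun ν hν => gibbs_same hq hB hJ hν _ _ (h1 J hJ n)⟩, h2, ?_, hJc, c, C, e, hc, hC, he, ?_⟩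
  · constructor
    · intro J hJ
      by_contra hlt
      have hlt' : Jc < J := not_le.1 hlt
      have h8 := h6 J hlt'
      have h9 := h4 J (hJ1.trans hlt'.le)
      have h10 := h4 1 le_rfl
      have h11 := hJ.2
      rw [h9, h10] at h11
      linarith
    · intro b hb'
      exact hb' ⟨by linarith, hξc⟩
  · intro J hJ hJ'
    have h8 := h7 J ⟨hJ, hJ'⟩
    have h9 := h4 J (hJ1.trans hJ.le)
    have h10 := h4 Jc hJ1
    rw [← h9, ← h10] at h8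
    unfold An.thf at h8
    refine ⟨fun hD3 => ?_, fun hD4 => ?_, fun hD5 => ?_⟩
    · simpa [hD3] using h8
    · simpa [hD4] using h8
    · have h3' : D ≠ 3 := by omega
      have h4' : D ≠ 4 := by omega
      simpa [h3', h4'] using h8

end Pool.Agent.DL
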