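import Mathlib

/-!
# Marks and crossed cuts: the first moment bound

The step `i : Fin m` goes from the cut `i` to the cut `i + 1` and carries a mark `f i ≤ i`.
The cut `k` is crossed by the step `i` if `f i < k ≤ i`.
-/

set_option autoImplicit false

namespace Pool.Agent.DL

open Finset

/-- The marks. -/
def marks (m : ℕ) : Finset (Fin m → ℕ) := Fintype.piFinset fun i => range (i.val + 1)

/-- The cut `k` is crossed. -/
def Crossed {m : ℕ} (f : Fin m → ℕ) (k : ℕ) : Prop := ∃ i : Fin m, f i < k ∧ k ≤ i.val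

theorem mem_marks {m : ℕ} {f : Fin m → ℕ} : f ∈ marks m ↔ ∀ i, f i ≤ i.val := by
  simp [marks, Fintype.mem_piFinset]

theorem sum_marks {m : ℕ} (δ : Fin m → ℕ → ℝ) :
    ∑ f ∈ marks m, ∏ i, δ i (f i) = ∏ i : Fin m, ∑ j ∈ range (i.val + 1), δ i j := by
  rw [marks, Finset.prod_univ_sum]

theorem four_pow_card (S : Finset ℕ) :
    (4 : ℝ) ^ S.card = 1 + 3 * ∑ k ∈ S, (4 : ℝ) ^ (S.filter fun l => k < l).card := by
  induction S using Finset.induction_on_min with
  | empty => simp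
  | insert a s ha ih =>
    have hna : a ∉ s := fun h => lt_irrefl _ (ha a h)
    rw [card_insert_of_notMem hna, sum_insert hna]
    have e1 : (insert a s).filter (fun l => a < l) = s := by
      ext l
      simp only [mem_filter, mem_insert]
      constructor
      · rintro ⟨h | h, h'⟩
        · omega
        · exact h
      · intro h
        exact ⟨Or.inr h, ha l h⟩
    have e2 : ∑ k ∈ s, (4 : ℝ) ^ ((insert a s).filter fun l => k < l).card =
        ∑ k ∈ s, (4 : ℝ) ^ (s.filter fun l => k < l).card := by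
      refine sum_congr rfl fun k hk => ?_
      have : (insert a s).filter (fun l => k < l) = s.filter (fun l => k < l) := by
        ext l
        simp only [mem_filter, mem_insert]
        constructor
        · rintro ⟨h | h, h'⟩
          · have := ha k hk
            omega
          · exact ⟨h, h'⟩
        · rintro ⟨h, h'⟩
          exact ⟨Or.inr h, h'⟩
      rw [this]
    rw [e1, e2, pow_succ]
    linarith

/-- Layer cake for one step. -/
theorem step_sum (T : Finset ℕ) (n : ℕ) (δ : ℕ → ℝ) :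
    ∑ j ∈ range (n + 1), δ j * (4 : ℝ) ^ (T.filter fun k => j < k ∧ k ≤ n).card =
      ∑ j ∈ range (n + 1), δ j + 3 * ∑ k ∈ T.filter (fun k => k ≤ n),
        (4 : ℝ) ^ (T.filter fun l => k < l ∧ l ≤ n).card * ∑ j ∈ range k, δ j := by
  have h1 : ∀ j, (4 : ℝ) ^ (T.filter fun k => j < k ∧ k ≤ n).card =
      1 + 3 * ∑ k ∈ T.filter (fun k => j < k ∧ k ≤ n),
        (4 : ℝ) ^ (T.filter fun l => k < l ∧ l ≤ n).card := by
    intro j
    rw [four_pow_card]
    congr 2
    refine sum_congr rfl fun k hk => ?_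
    congr 2
    ext l
    simp only [mem_filter] at hk ⊢
    constructor
    · rintro ⟨⟨h1, h2, h3⟩, h4⟩
      exact ⟨h1, h4, h3⟩
    · rintro ⟨h1, h2, h3⟩
      exact ⟨⟨h1, by omega, h3⟩, h2⟩
  have h2 : ∀ j ∈ range (n + 1),
      δ j * (4 : ℝ) ^ (T.filter fun k => j < k ∧ k ≤ n).card =
      δ j + ∑ k ∈ T.filter (fun k => j < k ∧ k ≤ n),
        3 * ((4 : ℝ) ^ (T.filter fun l => k < l ∧ l ≤ n).card * δ j) := by
    intro j _
    rw [h1 j, mul_add, mul_one, mul_sum, mul_sum]
    congr 1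
    refine sum_congr rfl fun k _ => ?_
    ring
  rw [sum_congr rfl h2, sum_add_distrib]
  congr 1
  rw [sum_comm' (t' := T.filter (fun k => k ≤ n)) (s' := fun k => range k)]
  · rw [mul_sum]
    refine sum_congr rfl fun k _ => ?_
    rw [mul_sum, mul_sum]
  · intro j k
    simp only [mem_range, mem_filter]
    constructor
    · rintro ⟨h1, h2, h3, h4⟩
      exact ⟨h3, h2, h4⟩
    · rintro ⟨h1, h2, h3⟩
      exact ⟨by omega, h2, h1, h3⟩

open Classical in
/-- If all cuts of `T` are crossed then the steps cross `|T|` cuts in total. -/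
theorem crossed_le_prod {m : ℕ} (δ : Fin m → ℕ → ℝ) (hδ : ∀ i j, 0 ≤ δ i j) (T : Finset ℕ) :
    (∑ f ∈ (marks m).filter (fun f => ∀ k ∈ T, Crossed f k), ∏ i, δ i (f i)) * 4 ^ T.card ≤
      ∏ i : Fin m, ∑ j ∈ range (i.val + 1),
        δ i j * (4 : ℝ) ^ (T.filter fun k => j < k ∧ k ≤ i.val).card := by
  rw [Finset.prod_univ_sum, sum_mul]
  have h0 : ∀ f : Fin m → ℕ, 0 ≤ ∏ i : Fin m,
      δ i (f i) * (4 : ℝ) ^ (T.filter fun k => f i < k ∧ k ≤ i.val).card := fun f =>
    prod_nonneg fun i _ => mul_nonneg (hδ _ _) (by positivity)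
  refine le_trans (sum_le_sum (g := fun f => ∏ i : Fin m,
      δ i (f i) * (4 : ℝ) ^ (T.filter fun k => f i < k ∧ k ≤ i.val).card) ?_)
    (sum_le_sum_of_subset_of_nonneg (filter_subset _ _) fun f _ _ => h0 f)
  intro f hf
  have hc : ∀ k ∈ T, Crossed f k := (mem_filter.1 hf).2
  show _ ≤ ∏ i : Fin m, δ i (f i) * (4 : ℝ) ^ (T.filter fun k => f i < k ∧ k ≤ i.val).card
  rw [prod_mul_distrib]
  refine mul_le_mul_of_nonneg_left ?_ (prod_nonneg fun i _ => hδ _ _)
  rw [prod_pow_eq_pow_sum]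
  refine pow_le_pow_right₀ (by norm_num) ?_
  have hT : T ⊆ (univ : Finset (Fin m)).biUnion
      fun i => T.filter fun k => f i < k ∧ k ≤ i.val := by
    intro k hk
    obtain ⟨i, hi⟩ := hc k hk
    exact mem_biUnion.2 ⟨i, mem_univ _, mem_filter.2 ⟨hk, hi⟩⟩
  exact (card_le_card hT).trans card_biUnion_le

open Classical in
/-- The first moment bound. -/
theorem crossed_le_exp {m : ℕ} (δ : Fin m → ℕ → ℝ) (hδ : ∀ i j, 0 ≤ δ i j) (T : Finset ℕ)
    (s : Fin m → ℝ) (hs : ∀ i, 0 < s i) (hsum : ∀ i : Fin m, ∑ j ∈ range (i.val + 1), δ i j = s i) :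
    (∑ f ∈ (marks m).filter (fun f => ∀ k ∈ T, Crossed f k), ∏ i, δ i (f i)) * 4 ^ T.card ≤
      (∏ i, s i) * Real.exp (∑ k ∈ T, 3 * ∑ i ∈ (univ : Finset (Fin m)).filter (fun i => k ≤ i.val),
        (4 : ℝ) ^ (T.filter fun l => k < l ∧ l ≤ i.val).card *
          ((∑ j ∈ range k, δ i j) / s i)) := by
  refine (crossed_le_prod δ hδ T).trans ?_
  have h1 : ∀ i : Fin m, ∑ j ∈ range (i.val + 1),
        δ i j * (4 : ℝ) ^ (T.filter fun k => j < k ∧ k ≤ i.val).card ≤
      s i * Real.exp (3 * ∑ k ∈ T.filter (fun k => k ≤ i.val),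
        (4 : ℝ) ^ (T.filter fun l => k < l ∧ l ≤ i.val).card *
          ((∑ j ∈ range k, δ i j) / s i)) := by
    intro i
    rw [step_sum, hsum]
    have e1 : 3 * ∑ k ∈ T.filter (fun k => k ≤ i.val),
        (4 : ℝ) ^ (T.filter fun l => k < l ∧ l ≤ i.val).card * ∑ j ∈ range k, δ i j =
        s i * (3 * ∑ k ∈ T.filter (fun k => k ≤ i.val),
          (4 : ℝ) ^ (T.filter fun l => k < l ∧ l ≤ i.val).card *
            ((∑ j ∈ range k, δ i j) / s i)) := by
      rw [mul_sum, mul_sum, mul_sum]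
      refine sum_congr rfl fun k _ => ?_
      have := (hs i).ne'
      field_simp
    rw [e1]
    have := Real.add_one_le_exp (3 * ∑ k ∈ T.filter (fun k => k ≤ i.val),
        (4 : ℝ) ^ (T.filter fun l => k < l ∧ l ≤ i.val).card *
          ((∑ j ∈ range k, δ i j) / s i))
    nlinarith [hs i]
  refine (prod_le_prod (fun i _ => sum_nonneg fun j _ => mul_nonneg (hδ _ _) (by positivity))
    fun i _ => h1 i).trans ?_
  rw [prod_mul_distrib, ← Real.exp_sum]
  refine mul_le_mul_of_nonneg_left (Real.exp_le_exp.2 (le_of_eq ?_)) (prod_nonneg fun i _ => (hs i).le)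
  simp only [mul_sum]
  rw [sum_comm' (t' := T) (s' := fun k => (univ : Finset (Fin m)).filter (fun i => k ≤ i.val))]
  intro i k
  simp only [mem_univ, true_and, mem_filter]
  exact and_comm

open Classical in
/-- If every `n_k` is at most `log 2`: the marked weight of the event that all cuts of `T` are
crossed is at most `2 ^ (-|T|)` times the total weight. -/
theorem crossed_le_two {m : ℕ} (δ : Fin m → ℕ → ℝ) (hδ : ∀ i j, 0 ≤ δ i j) (T : Finset ℕ)
    (hs : ∀ i : Fin m, 0 < ∑ j ∈ range (i.val + 1), δ i j)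
    (hn : ∀ k ∈ T, 3 * ∑ i ∈ (univ : Finset (Fin m)).filter (fun i => k ≤ i.val),
        (4 : ℝ) ^ (T.filter fun l => k < l ∧ l ≤ i.val).card *
          ((∑ j ∈ range k, δ i j) / ∑ j ∈ range (i.val + 1), δ i j) ≤ Real.log 2) :
    (∑ f ∈ (marks m).filter (fun f => ∀ k ∈ T, Crossed f k), ∏ i, δ i (f i)) * 2 ^ T.card ≤
      ∏ i : Fin m, ∑ j ∈ range (i.val + 1), δ i j := by
  have h := crossed_le_exp δ hδ T _ hs fun i => rfl
  have h2 : Real.exp (∑ k ∈ T, 3 * ∑ i ∈ (univ : Finset (Fin m)).filter (fun i => k ≤ i.val),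
        (4 : ℝ) ^ (T.filter fun l => k < l ∧ l ≤ i.val).card *
          ((∑ j ∈ range k, δ i j) / ∑ j ∈ range (i.val + 1), δ i j)) ≤ 2 ^ T.card := by
    have h3 := sum_le_sum hn
    rw [sum_const, nsmul_eq_mul] at h3
    refine (Real.exp_le_exp.2 h3).trans (le_of_eq ?_)
    rw [mul_comm, Real.exp_mul, Real.exp_log (by norm_num), Real.rpow_natCast]
  have hp : 0 ≤ ∏ i : Fin m, ∑ j ∈ range (i.val + 1), δ i j := prod_nonneg fun i _ => (hs i).le
  have h4 := h.trans (mul_le_mul_of_nonneg_left h2 hp)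
  have e : (4 : ℝ) ^ T.card = 2 ^ T.card * 2 ^ T.card := by
    rw [← mul_pow]
    norm_num
  rw [e, ← mul_assoc] at h4
  exact le_of_mul_le_mul_right h4 (by positivity)

end Pool.Agent.DL
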