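import Pool.Agent.DL.FKA
import Pool.Agent.SB.KSa
import Pool.Agent.SB.Vol

/-!
# The Potts model and the random-cluster measure

The two-point function of the Potts model is the connection probability of the random-cluster
measure.
-/

set_option autoImplicit false
set_option linter.unusedSectionVars false

namespace Pool.Agent.DL

open Finset

namespace Pot

section Col

variable {V ι : Type} [DecidableEq V] [DecidableEq ι] (G : Gr V ι) {q : ℕ} [NeZero q]
  (Λ : Finset V)

/-- The value of a configuration at a vertex (`0` outside `Λ`). -/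
def ex {Λ : Finset V} (s : Λ → ZMod q) (x : V) : ZMod q := if h : x ∈ Λ then s ⟨x, h⟩ else 0

/-- The configurations which are constant along the edges of `ω`. -/
noncomputable def col (q : ℕ) [NeZero q] (ω : Finset ι) : Finset (Λ → ZMod q) := by
  classical exact Finset.univ.filter fun s => ∀ e ∈ ω, ex s (G.s e) = ex s (G.t e)

theorem mem_col (ω : Finset ι) (s : Λ → ZMod q) :
    s ∈ col G Λ q ω ↔ ∀ e ∈ ω, ex s (G.s e) = ex s (G.t e) := by
  classical
  simp [col]

theorem col_empty : (col G Λ q ∅).card = q ^ Λ.card := by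
  classical
  have h : col G Λ q (∅ : Finset ι) = Finset.univ := by
    ext s
    simp [mem_col]
  rw [h, Finset.card_univ, Fintype.card_fun, ZMod.card, Fintype.card_coe]

theorem col_rch {ω : Finset ι} {x y : V} (h : G.Rch ω x y) {s : Λ → ZMod q}
    (hs : s ∈ col G Λ q ω) : ex s x = ex s y := by
  rw [mem_col] at hs
  induction h with
  | refl => rfl
  | tail _ hst ih =>
    obtain ⟨e, he, h1 | h1⟩ := hst
    · rw [ih, ← h1.1, ← h1.2, hs e he]
    · rw [ih, ← h1.1, ← h1.2, hs e he]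

/-- Shift of the values on the component of `a`. -/
noncomputable def shift (ω : Finset ι) (a : V) (c : ZMod q) (s : Λ → ZMod q) : Λ → ZMod q := by
  classical exact fun z => s z + if G.Rch ω a z.1 then c else 0

theorem ex_shift (ω : Finset ι) (a : V) (c : ZMod q) (s : Λ → ZMod q) {x : V} (hx : x ∈ Λ) :
    ex (shift G Λ ω a c s) x = ex s x + (by classical exact if G.Rch ω a x then c else 0) := by
  classical
  simp only [ex, dif_pos hx, shift]

theorem shift_mem (ω : Finset ι) (hω : ∀ e ∈ ω, G.s e ∈ Λ ∧ G.t e ∈ Λ) (a : V) (c : ZMod q)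
    {s : Λ → ZMod q} (hs : s ∈ col G Λ q ω) : shift G Λ ω a c s ∈ col G Λ q ω := by
  classical
  rw [mem_col] at hs ⊢
  intro e he
  rw [ex_shift _ _ _ _ _ _ (hω e he).1, ex_shift _ _ _ _ _ _ (hω e he).2, hs e he]
  have h1 : G.Rch ω a (G.s e) ↔ G.Rch ω a (G.t e) :=
    ⟨fun h => G.rch_trans h (G.rch_edge he), fun h => G.rch_trans h (G.rch_symm (G.rch_edge he))⟩
  simp only [h1]

theorem shift_neg (ω : Finset ι) (a : V) (c : ZMod q) (s : Λ → ZMod q) :
    shift G Λ ω a (-c) (shift G Λ ω a c s) = s := by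
  classical
  funext z
  simp only [shift]
  split_ifs <;> ring

/-- The number of the configurations of `col` with a given difference does not depend on the
difference. -/
theorem card_dif (ω : Finset ι) (hω : ∀ e ∈ ω, G.s e ∈ Λ ∧ G.t e ∈ Λ) {a b : V} (ha : a ∈ Λ)
    (hb : b ∈ Λ) (hab : ¬ G.Rch ω a b) (c : ZMod q) :
    ((col G Λ q ω).filter fun s => ex s a - ex s b = c).card =
      ((col G Λ q ω).filter fun s => ex s a - ex s b = 0).card := by
  classical
  refine Finset.card_bij' (fun s _ => shift G Λ ω a (-c) s) (fun s _ => shift G Λ ω a c s)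
    ?_ ?_ ?_ ?_
  · intro s hs
    rw [Finset.mem_filter] at hs ⊢
    refine ⟨shift_mem G Λ ω hω a _ hs.1, ?_⟩
    rw [ex_shift _ _ _ _ _ _ ha, ex_shift _ _ _ _ _ _ hb, if_pos (G.rch_refl ω a), if_neg hab,
      ← hs.2]
    ring
  · intro s hs
    rw [Finset.mem_filter] at hs ⊢
    refine ⟨shift_mem G Λ ω hω a _ hs.1, ?_⟩
    rw [ex_shift _ _ _ _ _ _ ha, ex_shift _ _ _ _ _ _ hb, if_pos (G.rch_refl ω a), if_neg hab]
    have := hs.2
    rw [add_zero, add_sub_right_comm, this, zero_add]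
  · intro s _
    have := shift_neg G Λ ω a (-c) s
    rwa [neg_neg] at this
  · intro s _
    exact shift_neg G Λ ω a c s

theorem sum_dif (ω : Finset ι) (hω : ∀ e ∈ ω, G.s e ∈ Λ ∧ G.t e ∈ Λ) {a b : V} (ha : a ∈ Λ)
    (hb : b ∈ Λ) (hab : ¬ G.Rch ω a b) (f : ZMod q → ℝ) :
    ∑ s ∈ col G Λ q ω, f (ex s a - ex s b) =
      ((col G Λ q ω).filter fun s => ex s a - ex s b = 0).card * ∑ c, f c := by
  classical
  rw [← Finset.sum_fiberwise (s := col G Λ q ω) (g := fun s => ex s a - ex s b), Finset.mul_sum]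
  refine Finset.sum_congr rfl fun c _ => ?_
  rw [Finset.sum_congr rfl (g := fun _ => f c)
    (fun s hs => by rw [(Finset.mem_filter.1 hs).2]), Finset.sum_const,
    card_dif G Λ ω hω ha hb hab, nsmul_eq_mul]

theorem card_mul (ω : Finset ι) (hω : ∀ e ∈ ω, G.s e ∈ Λ ∧ G.t e ∈ Λ) {a b : V} (ha : a ∈ Λ)
    (hb : b ∈ Λ) (hab : ¬ G.Rch ω a b) :
    ((col G Λ q ω).filter fun s => ex s a - ex s b = 0).card * q = (col G Λ q ω).card := by
  have h := sum_dif G Λ (q := q) ω hω ha hb hab (fun _ => (1 : ℝ))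
  simp only [Finset.sum_const, nsmul_eq_mul, mul_one, Finset.card_univ, ZMod.card] at h
  exact_mod_cast h.symm

theorem card_col (ω : Finset ι) (hω : ∀ e ∈ ω, G.s e ∈ Λ ∧ G.t e ∈ Λ) :
    (col G Λ q ω).card * q ^ G.rk ω = q ^ Λ.card := by
  classical
  induction ω using Finset.induction_on with
  | empty => rw [col_empty, G.rk_empty, pow_zero, mul_one]
  | insert e ω he ih =>
    have h1 : ∀ e ∈ ω, G.s e ∈ Λ ∧ G.t e ∈ Λ := fun e' he' => hω e' (Finset.mem_insert_of_mem he')
    have h2 := hω e (Finset.mem_insert_self _ _)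
    have h3 : col G Λ q (insert e ω) =
        (col G Λ q ω).filter fun s => ex s (G.s e) - ex s (G.t e) = 0 := by
      ext s
      rw [Finset.mem_filter, mem_col, mem_col, Finset.forall_mem_insert, sub_eq_zero, and_comm]
    by_cases hr : G.Rch ω (G.s e) (G.t e)
    · rw [G.rk_insert_of_rch hr, h3, Finset.filter_true_of_mem]
      · exact ih h1
      · intro s hs
        rw [col_rch G Λ hr hs, sub_self]
    · rw [G.rk_insert_of_not hr, h3, pow_succ', ← mul_assoc, card_mul G Λ ω h1 h2.1 h2.2 hr]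
      exact ih h1

theorem card_col_eq (ω : Finset ι) (hω : ∀ e ∈ ω, G.s e ∈ Λ ∧ G.t e ∈ Λ) :
    ((col G Λ q ω).card : ℝ) = (q : ℝ) ^ Λ.card * ((q : ℝ)⁻¹) ^ G.rk ω := by
  have h : ((col G Λ q ω).card : ℝ) * (q : ℝ) ^ G.rk ω = (q : ℝ) ^ Λ.card := by
    exact_mod_cast card_col G Λ ω hω
  have hq : (q : ℝ) ^ G.rk ω ≠ 0 := pow_ne_zero _ (Nat.cast_ne_zero.2 (NeZero.ne q))
  rw [inv_pow, ← h]
  field_simp

theorem sum_cosq_eq_zero (hq : 2 ≤ q) : ∑ c : ZMod q, SB.cosq c = 0 := by
  have : Fact (1 < q) := ⟨hq⟩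
  have h1 : ∑ c : ZMod q, (ZMod.stdAddChar c : ℂ) = 0 := by
    rw [AddChar.sum_eq_ite, if_neg]
    intro h0
    have h2 : (ZMod.stdAddChar (1 : ZMod q) : ℂ) = ZMod.stdAddChar (0 : ZMod q) := by
      rw [h0]
      rfl
    exact one_ne_zero (ZMod.injective_stdAddChar h2)
  have h2 : ∑ c : ZMod q, SB.cosq c = (∑ c : ZMod q, (ZMod.stdAddChar c : ℂ)).re := by
    rw [Complex.re_sum]
    exact Finset.sum_congr rfl fun c _ => SB.cosq_eq_re c
  rw [h2, h1, Complex.zero_re]

open Classical in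
theorem sum_cosq_col (hq : 2 ≤ q) (ω : Finset ι) (hω : ∀ e ∈ ω, G.s e ∈ Λ ∧ G.t e ∈ Λ) {a b : V}
    (ha : a ∈ Λ) (hb : b ∈ Λ) :
    ∑ s ∈ col G Λ q ω, SB.cosq (ex s a - ex s b) =
      if G.Rch ω a b then (q : ℝ) ^ Λ.card * ((q : ℝ)⁻¹) ^ G.rk ω else 0 := by
  split_ifs with h
  · rw [← card_col_eq G Λ ω hω, Finset.sum_congr rfl (g := fun _ => (1 : ℝ)), Finset.sum_const,
      nsmul_eq_mul, mul_one]
    intro s hs
    rw [col_rch G Λ h hs, sub_self, SB.cosq_zero]
  · rw [sum_dif G Λ ω hω ha hb h, sum_cosq_eq_zero hq, mul_zero]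

open Classical in
/-- The expansion of the product over the edges. -/
theorem prod_eq_sum (Ed : Finset ι) (v : ι → ℝ) (s : Λ → ZMod q) :
    ∏ e ∈ Ed, (1 + if ex s (G.s e) = ex s (G.t e) then v e else 0) =
      ∑ ω ∈ Ed.powerset, (∏ e ∈ ω, v e) * if s ∈ col G Λ q ω then 1 else 0 := by
  rw [Finset.prod_one_add]
  refine Finset.sum_congr rfl fun ω _ => ?_
  by_cases h : s ∈ col G Λ q ω
  · rw [if_pos h, mul_one]
    rw [mem_col] at h
    exact Finset.prod_congr rfl fun e he => if_pos (h e he)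
  · rw [if_neg h, mul_zero]
    rw [mem_col] at h
    push Not at h
    obtain ⟨e, he, hne⟩ := h
    exact Finset.prod_eq_zero he (if_neg hne)

open Classical in
theorem sum_prod (Ed : Finset ι) (v : ι → ℝ) (f : (Λ → ZMod q) → ℝ) :
    ∑ s : Λ → ZMod q, f s * ∏ e ∈ Ed, (1 + if ex s (G.s e) = ex s (G.t e) then v e else 0) =
      ∑ ω ∈ Ed.powerset, (∏ e ∈ ω, v e) * ∑ s ∈ col G Λ q ω, f s := by
  simp only [prod_eq_sum, Finset.mul_sum]
  rw [Finset.sum_comm]
  refine Finset.sum_congr rfl fun ω _ => ?_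
  rw [← Finset.sum_filter_add_sum_filter_not Finset.univ (fun s => s ∈ col G Λ q ω)]
  rw [Finset.sum_eq_zero (s := Finset.univ.filter fun s => ¬ s ∈ col G Λ q ω), add_zero]
  · have : (Finset.univ.filter fun s => s ∈ col G Λ q ω) = col G Λ q ω := by
      ext s
      simp
    rw [this]
    refine Finset.sum_congr rfl fun s hs => ?_
    rw [if_pos hs]
    ring
  · intro s hs
    rw [if_neg (Finset.mem_filter.1 hs).2]
    ring

/-- The spin two-point function is the connection probability. -/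
theorem ratio_eq_tp (hq : 2 ≤ q) (Ed : Finset ι) (hEd : ∀ e ∈ Ed, G.s e ∈ Λ ∧ G.t e ∈ Λ)
    (v : ι → ℝ) {a b : V} (ha : a ∈ Λ) (hb : b ∈ Λ) :
    (∑ s : Λ → ZMod q, SB.cosq (ex s a - ex s b) *
        ∏ e ∈ Ed, (1 + if ex s (G.s e) = ex s (G.t e) then v e else 0)) /
      (∑ s : Λ → ZMod q, ∏ e ∈ Ed, (1 + if ex s (G.s e) = ex s (G.t e) then v e else 0)) =
      G.tp (q : ℝ) v Ed a b := by
  classical
  have hq0 : (q : ℝ) ^ Λ.card ≠ 0 := pow_ne_zero _ (Nat.cast_ne_zero.2 (NeZero.ne q))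
  have h1 : ∑ s : Λ → ZMod q, SB.cosq (ex s a - ex s b) *
        ∏ e ∈ Ed, (1 + if ex s (G.s e) = ex s (G.t e) then v e else 0) =
      (q : ℝ) ^ Λ.card * ∑ ω ∈ Ed.powerset.filter (fun ω => G.Rch ω a b), G.wt q v ω := by
    rw [sum_prod, Finset.mul_sum, Finset.sum_filter]
    refine Finset.sum_congr rfl fun ω hω => ?_
    rw [sum_cosq_col G Λ hq ω (fun e he => hEd e (Finset.mem_powerset.1 hω he)) ha hb]
    unfold Gr.wt
    split_ifs <;> ring
  have h2 : ∑ s : Λ → ZMod q, ∏ e ∈ Ed, (1 + if ex s (G.s e) = ex s (G.t e) then v e else 0) =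
      (q : ℝ) ^ Λ.card * G.zz q v Ed := by
    have h := sum_prod G Λ (q := q) Ed v (fun _ => 1)
    simp only [one_mul] at h
    rw [h, Gr.zz, Finset.mul_sum]
    refine Finset.sum_congr rfl fun ω hω => ?_
    rw [Finset.sum_const, nsmul_eq_mul, mul_one,
      card_col_eq G Λ ω (fun e he => hEd e (Finset.mem_powerset.1 hω he)), Gr.wt]
    ring
  rw [h1, h2, mul_div_mul_left _ _ hq0]
  rfl

end Col

end Pot

open Pot

/-! ### The lattice -/

section Lat

variable {D q : ℕ} [NeZero q]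

/-- The nearest neighbour pairs in `Λ`, once in each direction. -/
theorem Pot.sum_pairs (Λ : Finset (Site D)) (F : Site D → Site D → ℝ) (hF : ∀ x y, F x y = F y x) :
    ∑ x ∈ Λ, ∑ y ∈ Λ, (if SB.dist1 x y = 1 then F x y else 0) =
      2 * ∑ e ∈ edg Λ, F ((lat D).s e) ((lat D).t e) := by
  classical
  -- sums over the directions
  have h1 : ∀ x ∈ Λ, ∑ y ∈ Λ, (if SB.dist1 x y = 1 then F x y else 0) =
      ∑ d : Option (Fin D) × Bool, if x + SB.dir d ∈ Λ then F x (x + SB.dir d) else 0 := by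
    intro x _
    rw [← SB.sum_nb x (fun y => if y ∈ Λ then F x y else 0), ← Finset.sum_filter,
      ← Finset.sum_filter]
    refine Finset.sum_congr ?_ fun _ _ => rfl
    ext y
    rw [Finset.mem_filter, Finset.mem_filter, SB.mem_nb, SB.dist1_comm, and_comm]
  rw [Finset.sum_congr rfl h1]
  have h2 : ∀ x : Site D,
      ∑ d : Option (Fin D) × Bool, (if x + SB.dir d ∈ Λ then F x (x + SB.dir d) else 0) =
      ∑ i : Option (Fin D), ((if x + SB.dir (i, true) ∈ Λ then F x (x + SB.dir (i, true)) else 0) +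
        (if x + SB.dir (i, false) ∈ Λ then F x (x + SB.dir (i, false)) else 0)) := by
    intro x
    rw [Fintype.sum_prod_type]
    refine Finset.sum_congr rfl fun i _ => ?_
    rw [Fintype.sum_bool]
  rw [Finset.sum_congr rfl fun x _ => h2 x, Finset.sum_comm]
  have h3 : ∑ e ∈ edg Λ, F ((lat D).s e) ((lat D).t e) =
      ∑ i : Option (Fin D), ∑ x ∈ Λ,
        if x + SB.dir (i, true) ∈ Λ then F x (x + SB.dir (i, true)) else 0 := by
    rw [edg, Finset.sum_filter, Finset.sum_product, Finset.sum_comm]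
    rfl
  rw [h3, Finset.mul_sum]
  refine Finset.sum_congr rfl fun i _ => ?_
  rw [Finset.sum_add_distrib, two_mul]
  congr 1
  -- reflect
  have hneg : SB.dir (i, false) = - (SB.dir (i, true) : Site D) := by
    cases i with
    | none => simp [SB.dir]
    | some j =>
      simp only [SB.dir]
      ext k
      · simp
      · simp [Pi.single_apply, apply_ite]
  rw [← Finset.sum_filter, ← Finset.sum_filter]
  refine Finset.sum_bij' (fun x _ => x + SB.dir (i, false)) (fun x _ => x + SB.dir (i, true))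
    ?_ ?_ ?_ ?_ ?_
  · intro x hx
    rw [Finset.mem_filter] at hx ⊢
    refine ⟨hx.2, ?_⟩
    rw [hneg, neg_add_cancel_right]
    exact hx.1
  · intro x hx
    rw [Finset.mem_filter] at hx ⊢
    refine ⟨hx.2, ?_⟩
    rw [hneg, add_neg_cancel_right]
    exact hx.1
  · intro x _
    rw [hneg, neg_add_cancel_right]
  · intro x _
    rw [hneg, add_neg_cancel_right]
  · intro x _
    rw [hF]
    congr 1
    rw [hneg, neg_add_cancel_right]

theorem Pot.coup_edge (J : ℝ) (e : Edge D) :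
    SB.coup J ((lat D).s e) ((lat D).t e) = if OnL e then J else 1 := by
  classical
  have h : (((lat D).s e).2 = 0 ∧ ((lat D).t e).2 = 0) ↔ OnL e := by
    unfold lat OnL
    obtain ⟨x, i⟩ := e
    cases i with
    | none => simp [SB.dir]
    | some j =>
      constructor
      · rintro ⟨h1, h2⟩
        simp only [SB.dir, Prod.snd_add] at h1 h2
        rw [h1, zero_add] at h2
        have := congrFun h2 j
        simp at this
      · rintro ⟨h1, _⟩
        simp at h1
  unfold SB.coup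
  by_cases h1 : OnL e
  · rw [if_pos h1, if_pos (h.2 h1)]
  · rw [if_neg h1, if_neg (fun h2 => h1 (h.1 h2))]

theorem Pot.exp_energy_eq (β J : ℝ) (Λ : Finset (Site D)) (s : Λ → ZMod q) :
    Real.exp (β * SB.energy J Λ s) = ∏ e ∈ edg Λ,
      (1 + if ex s ((lat D).s e) = ex s ((lat D).t e) then vJ β J e else 0) := by
  classical
  have h1 : β * SB.energy J Λ s = ∑ e ∈ edg Λ,
      if ex s ((lat D).s e) = ex s ((lat D).t e) then β * (if OnL e then J else 1) else 0 := by
    unfold SB.energy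
    have h2 : ∀ x y : Site D, (if SB.dist1 x y = 1 ∧ SB.ext s x = SB.ext s y then SB.coup J x y
        else 0) = if SB.dist1 x y = 1 then (if SB.ext s x = SB.ext s y then SB.coup J x y else 0)
        else 0 := by
      intro x y
      split_ifs with h3 h4 h5 <;> first | rfl | (exfalso; tauto)
    simp only [h2]
    rw [sum_pairs Λ (fun x y => if SB.ext s x = SB.ext s y then SB.coup J x y else 0)
      (fun x y => by simp only [eq_comm (a := SB.ext s x), SB.coup_comm J x y])]
    rw [← mul_assoc (1 / 2 : ℝ), show (1 : ℝ) / 2 * 2 = 1 by norm_num, one_mul, Finset.mul_sum]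
    refine Finset.sum_congr rfl fun e _ => ?_
    rw [coup_edge]
    change β * (if ex s ((lat D).s e) = ex s ((lat D).t e) then _ else _) = _
    split_ifs <;> ring
  rw [h1, Real.exp_sum]
  refine Finset.prod_congr rfl fun e _ => ?_
  unfold vJ
  split_ifs <;> simp

theorem gL_eq_tp (hq : 2 ≤ q) (β J : ℝ) (hβ : 0 ≤ β) (hJ : 0 ≤ J) (Λ : Finset (Site D))
    (x y : Site D) (hx : x ∈ Λ) (hy : y ∈ Λ) :
    SB.gL D q β J Λ x y = (lat D).tp (q : ℝ) (vJ β J) (edg Λ) x y := by
  classical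
  have hE : ∀ e ∈ edg Λ, (lat D).s e ∈ Λ ∧ (lat D).t e ∈ Λ := by
    intro e he
    rw [edg, Finset.mem_filter, Finset.mem_product] at he
    exact ⟨he.1.1, he.2⟩
  rw [← ratio_eq_tp (lat D) Λ hq (edg Λ) hE (vJ β J) hx hy]
  unfold SB.gL SB.uL
  rw [if_pos ⟨hx, hy⟩]
  congr 1
  · refine Finset.sum_congr rfl fun s _ => ?_
    rw [SB.sum_char, exp_energy_eq]
    rfl
  · exact Finset.sum_congr rfl fun s _ => exp_energy_eq β J Λ s

/-- The finite volume two-point function of the Potts model. -/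
theorem same_eq_tp (hq : 2 ≤ q) (β J : ℝ) (hβ : 0 ≤ β) (hJ : 0 ≤ J) (Λ : Finset (Site D))
    (x y : Site D) (hx : x ∈ Λ) (hy : y ∈ Λ) :
    SB.same D q β J Λ x y =
      1 / q + (1 - 1 / q) * (lat D).tp (q : ℝ) (vJ β J) (edg Λ) x y := by
  rw [SB.same_eq hq hβ hJ Λ hx hy, gL_eq_tp hq β J hβ hJ Λ x y hx hy]

end Lat

end Pool.Agent.DL
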