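import Pool.Agent.DL.Inf

/-!
# The isolation probabilities of three sets
-/

set_option autoImplicit false
set_option linter.unusedSectionVars false

namespace Pool.Agent.DL

open Finset

namespace Rn0

variable {D : ℕ} {q β : ℝ}

/-- A product inequality that holds up to every positive error. -/
theorem le_eps2 {x a b : ℝ} (h : ∀ ε : ℝ, 0 < ε → x ≤ (a + ε) * (b + ε)) : x ≤ a * b := by
  have h1 : ∀ ε : ℝ, 0 < ε → x ≤ (a + ε) * (b + ε) * 1 := fun ε hε => by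
    rw [mul_one]
    exact h ε hε
  have h2 := Inf.le_of_eps h1
  rwa [mul_one] at h2

theorem super (h : Bas D q β) (Λ X Y Q : Finset (Site D)) :
    ZZ D q β 1 Λ (X ∪ Y) * ZZ D q β 1 Λ (Y ∪ Q) ≤
      ZZ D q β 1 Λ (X ∪ Y ∪ Q) * ZZ D q β 1 Λ Y := by
  have hq0 : 0 < q := lt_of_lt_of_le one_pos h.hq
  have hv := fun e : Edge D => vJ_nonneg h.hβ.le zero_le_one e
  unfold ZZ
  have h1 : X ∪ Y ∪ Q = Y ∪ (X ∪ Q) := by
    rw [union_comm X Y, union_assoc]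
  rw [h1, union_comm X Y, (lat D).ze_union_eq q _ hq0 hv _ Y X,
    (lat D).ze_union_eq q _ hq0 hv _ Y Q, (lat D).ze_union_eq q _ hq0 hv _ Y (X ∪ Q)]
  have h2 := (lat D).ze_mul_le q _ h.hq hv ((lat D).del Y (edg Λ)) X Q
  have h3 := (lat D).ze_pos q _ hq0 hv (edg Λ) Y
  calc (lat D).ze q (vJ β 1) (edg Λ) Y * (lat D).ze q (vJ β 1) ((lat D).del Y (edg Λ)) X *
        ((lat D).ze q (vJ β 1) (edg Λ) Y * (lat D).ze q (vJ β 1) ((lat D).del Y (edg Λ)) Q)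
      = (lat D).ze q (vJ β 1) (edg Λ) Y * ((lat D).ze q (vJ β 1) ((lat D).del Y (edg Λ)) X *
        (lat D).ze q (vJ β 1) ((lat D).del Y (edg Λ)) Q) * (lat D).ze q (vJ β 1) (edg Λ) Y := by
        ring
    _ ≤ _ := mul_le_mul_of_nonneg_right (mul_le_mul_of_nonneg_left h2 h3.le) h3.le

theorem super_le (h : Bas D q β) (Λ X Y Q : Finset (Site D)) :
    ZZ D q β 1 Λ (X ∪ Y ∪ Q) * ZZ D q β 1 Λ Y ≤
      ZZ D q β 1 Λ (X ∪ Y) * ZZ D q β 1 Λ (Y ∪ Q) *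
        Real.exp (((2 * (D + 1) : ℕ) : ℝ) * (1 + (Real.exp (β * 1) - 1) + q) *
          ∑ a ∈ X, ∑ b ∈ Q, GG D q β 1 a b) := by
  have hq0 : 0 < q := lt_of_lt_of_le one_pos h.hq
  have hv := fun e : Edge D => vJ_nonneg h.hβ.le zero_le_one e
  have hC : 0 ≤ ((2 * (D + 1) : ℕ) : ℝ) * (1 + (Real.exp (β * 1) - 1) + q) := by
    have h1 : 0 < Real.exp (β * 1) := Real.exp_pos _
    have h3 : 0 < 1 + (Real.exp (β * 1) - 1) + q := by linarith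
    positivity
  set Ed := (lat D).del Y (edg Λ) with hEd
  have hsub : Ed ⊆ edg Λ := (lat D).del_subset Y (edg Λ)
  have h4 := (lat D).ze_del_le q (vJ β 1) h.hq (Real.exp (β * 1) - 1) (2 * (D + 1)) hv
    (fun e => vJ_le h.hβ.le le_rfl le_rfl e) Ed
    (fun b => by
      have h5 := card_tch {b} Λ
      rw [card_singleton, mul_one] at h5
      exact (card_le_card (filter_subset_filter _ hsub)).trans h5) X Q
  have h5 : ∑ a ∈ X, ∑ b ∈ Q, (lat D).tp q (vJ β 1) Ed a b ≤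
      ∑ a ∈ X, ∑ b ∈ Q, GG D q β 1 a b :=
    sum_le_sum fun a _ => sum_le_sum fun b _ =>
      ((lat D).tp_mono_edges q _ h.hq hv hsub a b).trans (TT_le_GG h zero_le_one Λ a b)
  have h6 := Real.exp_le_exp.2 (mul_le_mul_of_nonneg_left h5 hC)
  have h7 := (lat D).ze_pos q _ hq0 hv (edg Λ) Y
  have h8 := (lat D).ze_pos q _ hq0 hv Ed X
  have h9 := (lat D).ze_pos q _ hq0 hv Ed Q
  have h10 : (lat D).ze q (vJ β 1) Ed (X ∪ Q) ≤
      (lat D).ze q (vJ β 1) Ed X * ((lat D).ze q (vJ β 1) Ed Q *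
        Real.exp (((2 * (D + 1) : ℕ) : ℝ) * (1 + (Real.exp (β * 1) - 1) + q) *
          ∑ a ∈ X, ∑ b ∈ Q, GG D q β 1 a b)) := by
    rw [(lat D).ze_union_eq q _ hq0 hv Ed X Q]
    exact mul_le_mul_of_nonneg_left (h4.trans (mul_le_mul_of_nonneg_left h6 h9.le)) h8.le
  unfold ZZ
  have h1 : X ∪ Y ∪ Q = Y ∪ (X ∪ Q) := by
    rw [union_comm X Y, union_assoc]
  rw [h1, union_comm X Y, (lat D).ze_union_eq q _ hq0 hv _ Y X,
    (lat D).ze_union_eq q _ hq0 hv _ Y Q, (lat D).ze_union_eq q _ hq0 hv _ Y (X ∪ Q), ← hEd]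
  calc (lat D).ze q (vJ β 1) (edg Λ) Y * (lat D).ze q (vJ β 1) Ed (X ∪ Q) *
        (lat D).ze q (vJ β 1) (edg Λ) Y
      ≤ (lat D).ze q (vJ β 1) (edg Λ) Y * ((lat D).ze q (vJ β 1) Ed X *
          ((lat D).ze q (vJ β 1) Ed Q *
          Real.exp (((2 * (D + 1) : ℕ) : ℝ) * (1 + (Real.exp (β * 1) - 1) + q) *
            ∑ a ∈ X, ∑ b ∈ Q, GG D q β 1 a b))) * (lat D).ze q (vJ β 1) (edg Λ) Y :=
        mul_le_mul_of_nonneg_right (mul_le_mul_of_nonneg_left h10 h7.le) h7.le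
    _ = _ := by ring

end Rn0

open Rn0

theorem ZI_super {D : ℕ} {q β : ℝ} (h : Bas D q β) (X Y Q : Finset (Site D)) :
    ZI D q β 1 (X ∪ Y) * ZI D q β 1 (Y ∪ Q) ≤ ZI D q β 1 (X ∪ Y ∪ Q) * ZI D q β 1 Y := by
  apply le_eps2
  intro ε hε
  obtain ⟨N1, hN1⟩ := ZI_lim h zero_le_one (X ∪ Y ∪ Q) ε hε
  obtain ⟨N2, hN2⟩ := ZI_lim h zero_le_one Y ε hε
  set Λ : Finset (Site D) := SB.box D N1 ∪ SB.box D N2 with hΛ
  have h1 := hN1 Λ subset_union_left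
  have h2 := hN2 Λ subset_union_right
  refine (mul_le_mul (ZI_le h zero_le_one Λ _) (ZI_le h zero_le_one Λ _)
    (ZI_nonneg h zero_le_one _) (Inf.ZZ_nonneg h zero_le_one Λ _)).trans
    ((super h Λ X Y Q).trans ?_)
  exact mul_le_mul h1 h2 (Inf.ZZ_nonneg h zero_le_one Λ _)
    ((Inf.ZZ_nonneg h zero_le_one Λ _).trans h1)

theorem ZI_super_le {D : ℕ} {q β : ℝ} (h : Bas D q β) : ∃ C : ℝ, 0 < C ∧
    ∀ X Y Q : Finset (Site D), ZI D q β 1 (X ∪ Y ∪ Q) * ZI D q β 1 Y ≤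
      ZI D q β 1 (X ∪ Y) * ZI D q β 1 (Y ∪ Q) *
        Real.exp (C * ∑ a ∈ X, ∑ b ∈ Q, GG D q β 1 a b) := by
  have hq := h.hq
  refine ⟨((2 * (D + 1) : ℕ) : ℝ) * (1 + (Real.exp (β * 1) - 1) + q), ?_, ?_⟩
  · have h1 : 0 < Real.exp (β * 1) := Real.exp_pos _
    have h2 : (0 : ℝ) < ((2 * (D + 1) : ℕ) : ℝ) := by positivity
    have h3 : 0 < 1 + (Real.exp (β * 1) - 1) + q := by linarith
    positivity
  intro X Y Q
  apply Inf.le_of_eps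
  intro ε hε
  obtain ⟨N1, hN1⟩ := ZI_lim h zero_le_one (X ∪ Y) ε hε
  obtain ⟨N2, hN2⟩ := ZI_lim h zero_le_one (Y ∪ Q) ε hε
  set Λ : Finset (Site D) := SB.box D N1 ∪ SB.box D N2 with hΛ
  have h1 := hN1 Λ subset_union_left
  have h2 := hN2 Λ subset_union_right
  refine (mul_le_mul (ZI_le h zero_le_one Λ _) (ZI_le h zero_le_one Λ _)
    (ZI_nonneg h zero_le_one _) (Inf.ZZ_nonneg h zero_le_one Λ _)).trans
    ((super_le h Λ X Y Q).trans ?_)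
  exact mul_le_mul_of_nonneg_right (mul_le_mul h1 h2 (Inf.ZZ_nonneg h zero_le_one Λ _)
    ((Inf.ZZ_nonneg h zero_le_one Λ _).trans h1)) (Real.exp_pos _).le

end Pool.Agent.DL
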