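import Pool.Agent.DL.Defs4
import Pool.Agent.DL.Cut
import Pool.Agent.DL.Inf
import Pool.Agent.DL.Rn0

/-!
# The weights of the parts between cuts (row RN1)
-/

set_option autoImplicit false
set_option linter.unusedSectionVars false

namespace Pool.Agent.DL

open Finset
open scoped ENNReal

namespace Rn1

variable {D : ℕ}

theorem mem_bt {c : Pr D} {i j : ℕ} {x : Site D} :
    x ∈ (bt c i j).1 ↔ x ∈ c.1 ∧ (i : ℤ) ≤ x.1 ∧ x.1 < j := by
  simp [bt]

theorem mem_bt2 {c : Pr D} {i j : ℕ} {e : Edge D} :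
    e ∈ (bt c i j).2 ↔ e ∈ c.2 ∧ (i : ℤ) ≤ e.1.1 ∧ ((lat D).t e).1 < j := by
  simp [bt, Cut.s_fst]

theorem bt_self (c : Pr D) (i : ℕ) : (bt c i i).1 = ∅ := by
  ext x
  simp only [mem_bt, notMem_empty, iff_false]
  rintro ⟨-, h1, h2⟩
  omega

/-- The whole cluster. -/
theorem bt_full {n : ℕ} {x : Tv D} {c : Pr D} (hc : Cf n x c) : bt c 0 n = c := by
  obtain ⟨h1, -, -, h4, h5⟩ := hc
  refine Prod.ext ?_ ?_
  · ext z
    rw [mem_bt]
    refine ⟨fun h => h.1, fun h => ⟨h, by have := h4 z h; simpa using this, ?_⟩⟩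
    have := h5 z h
    omega
  · ext e
    rw [mem_bt2]
    refine ⟨fun h => h.1, fun h => ⟨h, ?_, ?_⟩⟩
    · have := h4 _ (h1.2.1 e h).1
      rw [Cut.s_fst] at this
      simpa using this
    · have := h5 _ (h1.2.1 e h).2
      omega

theorem bt_union (c : Pr D) {i j k : ℕ} (hij : i ≤ j) (hjk : j ≤ k) :
    (bt c i k).1 = (bt c i j).1 ∪ (bt c j k).1 := by
  ext x
  rw [mem_union, mem_bt, mem_bt, mem_bt]
  constructor
  · rintro ⟨h1, h2, h3⟩
    by_cases h : x.1 < j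
    · exact Or.inl ⟨h1, h2, h⟩
    · exact Or.inr ⟨h1, by omega, h3⟩
  · rintro (⟨h1, h2, h3⟩ | ⟨h1, h2, h3⟩)
    · exact ⟨h1, h2, by omega⟩
    · exact ⟨h1, by omega, h3⟩

theorem lo_bt (c : Pr D) {i j k : ℕ} (hjk : j < k) :
    lo (bt c i k) ((j : ℤ) - 1) = bt c i j := by
  refine Prod.ext ?_ ?_
  · ext x
    simp only [lo, mem_filter, mem_bt]
    constructor
    · rintro ⟨⟨h1, h2, h3⟩, h4⟩
      exact ⟨h1, h2, by omega⟩
    · rintro ⟨h1, h2, h3⟩
      exact ⟨⟨h1, h2, by omega⟩, by omega⟩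
  · ext e
    simp only [lo, mem_filter, mem_bt2]
    constructor
    · rintro ⟨⟨h1, h2, h3⟩, h4⟩
      exact ⟨h1, h2, by omega⟩
    · rintro ⟨h1, h2, h3⟩
      exact ⟨⟨h1, h2, by omega⟩, by omega⟩

theorem hi_bt (c : Pr D) {i j k : ℕ} (hij : i < j) :
    hi (bt c i k) ((j : ℤ) - 1) = bt c j k := by
  refine Prod.ext ?_ ?_
  · ext x
    simp only [hi, mem_filter, mem_bt]
    constructor
    · rintro ⟨⟨h1, h2, h3⟩, h4⟩
      exact ⟨h1, by omega, by omega⟩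
    · rintro ⟨h1, h2, h3⟩
      exact ⟨⟨h1, by omega, by omega⟩, by omega⟩
  · ext e
    simp only [hi, mem_filter, mem_bt2, Cut.s_fst]
    constructor
    · rintro ⟨⟨h1, h2, h3⟩, h4⟩
      exact ⟨h1, by omega, by omega⟩
    · rintro ⟨h1, h2, h3⟩
      exact ⟨⟨h1, by omega, by omega⟩, by omega⟩

theorem upE_bt (c : Pr D) {i j k : ℕ} (hij : i < j) (hjk : j < k) :
    upE (bt c i k).2 ((j : ℤ) - 1) = upE c.2 ((j : ℤ) - 1) := by
  ext e
  simp only [upE, mem_filter, mem_bt2]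
  constructor
  · rintro ⟨⟨h1, h2, h3⟩, h4, h5⟩
    exact ⟨h1, h4, h5⟩
  · rintro ⟨h1, h4, h5⟩
    refine ⟨⟨h1, by omega, ?_⟩, h4, h5⟩
    rw [Cut.t_fst_none h4]
    omega

/-- The decomposition of a part at a cut. -/
theorem bt_jn {c : Pr D} {n i j k : ℕ} (hcl : (lat D).IsCl (bt c i k).1 (bt c i k).2)
    (hj : j ∈ cp c n) (hij : i < j) (hjk : j < k) :
    ∃ y, Vd (bt c i j) y ((j : ℤ) - 1) (bt c j k) ∧
      jn (bt c i j) y ((j : ℤ) - 1) (bt c j k) = bt c i k := by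
  have h1 : (upE (bt c i k).2 ((j : ℤ) - 1)).card = 1 := by
    rw [upE_bt c hij hjk]
    exact (mem_filter.1 hj).2
  have h2 := cut_jn (bt c i k) ((j : ℤ) - 1) hcl h1
  rwa [lo_bt c hjk, hi_bt c hij] at h2

theorem mem_ce_le {c : Pr D} {n i : ℕ} (hi : i ∈ ce c n) : i ≤ n := by
  rcases hi with rfl | rfl | h
  · omega
  · exact le_rfl
  · exact (mem_Ico.1 (mem_filter.1 h).1).2.le

theorem mem_cp_of {c : Pr D} {n i : ℕ} (hi : i ∈ ce c n) (h0 : 0 < i) (hn : i < n) :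
    i ∈ cp c n := by
  rcases hi with rfl | rfl | h
  · omega
  · omega
  · exact h

theorem bt_isCl_end {n : ℕ} {x : Tv D} {c : Pr D} (hc : Cf n x c) {i : ℕ}
    (hi : i ∈ ce c n) (hin : i < n) : (lat D).IsCl (bt c i n).1 (bt c i n).2 := by
  have h0 : (lat D).IsCl (bt c 0 n).1 (bt c 0 n).2 := by
    rw [bt_full hc]
    exact hc.1
  rcases Nat.eq_zero_or_pos i with rfl | hi0
  · exact h0
  · obtain ⟨y, hv, -⟩ := bt_jn h0 (mem_cp_of hi hi0 hin) hi0 hin
    exact hv.2.1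

end Rn1

open Rn1

/-- The part between two cuts is a cluster. -/
theorem bt_isCl {D : ℕ} {n : ℕ} {x : Tv D} {c : Pr D} (hc : Cf n x c) {i j : ℕ}
    (hi : i ∈ ce c n) (hj : j ∈ ce c n) (hij : i < j) :
    (lat D).IsCl (bt c i j).1 (bt c i j).2 := by
  have h1 := bt_isCl_end hc hi (lt_of_lt_of_le hij (mem_ce_le hj))
  rcases (mem_ce_le hj).eq_or_lt with rfl | hjn
  · exact h1
  · obtain ⟨y, hv, -⟩ := bt_jn h1 (mem_cp_of hj (by omega) hjn) hij hjn
    exact hv.1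

/-- Weights of the parts: they multiply, up to the isolation probabilities. -/
theorem bt_WW {D : ℕ} {q β : ℝ} (h : Bas D q β) {n : ℕ} {x : Tv D} {c : Pr D} (hc : Cf n x c)
    {i j k : ℕ} (hi : i ∈ ce c n) (hj : j ∈ ce c n) (hk : k ∈ ce c n) (hij : i < j)
    (hjk : j < k) :
    WW D q β 1 (bt c i k).1 (bt c i k).2 = (Real.exp β - 1) / q *
      WW D q β 1 (bt c i j).1 (bt c i j).2 * WW D q β 1 (bt c j k).1 (bt c j k).2 := by
  have hkn := mem_ce_le hk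
  obtain ⟨y, hv, hjn⟩ := bt_jn (bt_isCl hc hi hk (hij.trans hjk))
    (mem_cp_of hj (by omega) (by omega)) hij hjk
  have h1 := jn_WW (q := q) (β := β) (J := 1) (by linarith [h.hq]) hv
  rw [hjn] at h1
  rw [h1]
  have h2 : vJ β 1 ((((j : ℤ) - 1, y), none) : Edge D) = Real.exp β - 1 := by
    unfold vJ
    rw [mul_one, ite_self]
  rw [h2]

namespace Rn1

variable {D : ℕ} {q β : ℝ}

theorem ZI_empty (h : Bas D q β) : ZI D q β 1 ∅ = 1 := by
  refine le_antisymm (ZI_le_one h zero_le_one _) ?_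
  have := ZI_ge h zero_le_one (le_refl (1 : ℝ)) (le_refl (1 : ℝ)) (∅ : Finset (Site D))
  simpa using this

theorem ZI_pos (h : Bas D q β) (A : Finset (Site D)) : 0 < ZI D q β 1 A := by
  refine lt_of_lt_of_le ?_ (ZI_ge h zero_le_one (le_refl (1 : ℝ)) (le_refl (1 : ℝ)) A)
  positivity

theorem exp_sub_pos (h : Bas D q β) : 0 < Real.exp β - 1 :=
  sub_pos.2 (Real.one_lt_exp_iff.2 h.hβ)

theorem WW_pos (h : Bas D q β) (A : Finset (Site D)) (E : Finset (Edge D)) :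
    0 < WW D q β 1 A E := by
  have hq : 0 < q := by linarith [h.hq]
  unfold WW Gr.cw
  refine mul_pos (prod_pos fun e _ => ?_) (by positivity)
  unfold vJ
  rw [mul_one, ite_self]
  exact exp_sub_pos h

theorem mu_self (c : Pr D) (i : ℕ) : mu D q β c i i = 1 := by
  simp [mu]

theorem mu_pos (h : Bas D q β) (c : Pr D) (i j : ℕ) : 0 < mu D q β c i j := by
  have hq : 0 < q := by linarith [h.hq]
  unfold mu
  split_ifs
  · exact one_pos
  · exact mul_pos (div_pos (exp_sub_pos h) hq) (mul_pos (WW_pos h _ _) (ZI_pos h _))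

theorem mu_of_lt (c : Pr D) {i j : ℕ} (hij : i < j) : mu D q β c i j = (Real.exp β - 1) / q *
    (WW D q β 1 (bt c i j).1 (bt c i j).2 * ZI D q β 1 (bt c i j).1) := by
  rw [mu, if_neg hij.ne]

/-- The two products of weights of parts have a common factor. -/
theorem mu_common (h : Bas D q β) {n : ℕ} {x : Tv D} {c : Pr D} (hc : Cf n x c)
    {i i' k k' : ℕ} (hi : i ∈ ce c n) (hi' : i' ∈ ce c n) (hk : k ∈ ce c n) (hk' : k' ∈ ce c n)
    (h1 : i < i') (h2 : i' ≤ k) (h3 : k < k') : ∃ w : ℝ, 0 < w ∧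
      mu D q β c i k * mu D q β c i' k' = w * (ZI D q β 1 ((bt c i i').1 ∪ (bt c i' k).1) *
        ZI D q β 1 ((bt c i' k).1 ∪ (bt c k k').1)) ∧
      mu D q β c i k' * mu D q β c i' k =
        w * (ZI D q β 1 ((bt c i i').1 ∪ (bt c i' k).1 ∪ (bt c k k').1) *
          ZI D q β 1 (bt c i' k).1) := by
  have hq : 0 < q := by linarith [h.hq]
  have hp := div_pos (exp_sub_pos h) hq
  have e1 : (bt c i k).1 = (bt c i i').1 ∪ (bt c i' k).1 := bt_union c h1.le h2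
  have e2 : (bt c i' k').1 = (bt c i' k).1 ∪ (bt c k k').1 := bt_union c h2 h3.le
  have e3 : (bt c i k').1 = (bt c i i').1 ∪ (bt c i' k).1 ∪ (bt c k k').1 := by
    rw [bt_union c (h1.le.trans h2) h3.le, e1]
  rcases h2.eq_or_lt with rfl | h2
  · refine ⟨(Real.exp β - 1) / q * WW D q β 1 (bt c i k').1 (bt c i k').2, mul_pos hp
      (WW_pos h _ _), ?_, ?_⟩
    · rw [mu_of_lt c h1, mu_of_lt c h3, bt_WW h hc hi hi' hk' h1 h3, bt_self, union_empty,
        empty_union]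
      ring
    · rw [mu_of_lt c (h1.trans h3), mu_self, bt_self, ZI_empty h, union_empty,
        bt_union c h1.le h3.le]
      ring
  · refine ⟨(Real.exp β - 1) / q * ((Real.exp β - 1) / q) * (WW D q β 1 (bt c i k).1 (bt c i k).2 *
      WW D q β 1 (bt c i' k').1 (bt c i' k').2), mul_pos (mul_pos hp hp)
      (mul_pos (WW_pos h _ _) (WW_pos h _ _)), ?_, ?_⟩
    · rw [mu_of_lt c (h1.trans h2), mu_of_lt c (h2.trans h3), ← e1, ← e2]
      ring
    · rw [mu_of_lt c ((h1.trans h2).trans h3), mu_of_lt c h2, ← e3,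
        bt_WW h hc hi hk hk' (h1.trans h2) h3, bt_WW h hc hi' hk hk' h2 h3]
      ring

end Rn1

theorem mu_SM {D : ℕ} {q β : ℝ} (h : Bas D q β) {n : ℕ} {x : Tv D} {c : Pr D} (hc : Cf n x c) :
    SM (mu D q β c) (ce c n) := by
  refine ⟨fun i _ j _ _ => mu_pos h c i j, fun i _ => mu_self c i, ?_⟩
  intro i hi i' hi' k hk k' hk' h1 h2 h3
  rcases h1.eq_or_lt with rfl | h1
  · rw [mul_comm]
  rcases h3.eq_or_lt with rfl | h3
  · exact le_rfl
  obtain ⟨w, hw, e1, e2⟩ := mu_common h hc hi hi' hk hk' h1 h2 h3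
  rw [e1, e2]
  exact mul_le_mul_of_nonneg_left (ZI_super h _ _ _) hw.le

/-- The memory is bounded by the two-point functions. -/
theorem mu_ratio {D : ℕ} {q β : ℝ} (h : Bas D q β) : ∃ C : ℝ, 0 < C ∧
    ∀ (n : ℕ) (x : Tv D) (c : Pr D), Cf n x c → ∀ i ∈ ce c n, ∀ i' ∈ ce c n, ∀ k ∈ ce c n,
      ∀ k' ∈ ce c n, i ≤ i' → i' ≤ k → k ≤ k' →
      mu D q β c i k' * mu D q β c i' k ≤ mu D q β c i k * mu D q β c i' k' *
        Real.exp (C * ∑ x ∈ (bt c i i').1, ∑ y ∈ (bt c k k').1, GG D q β 1 x y) := by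
  obtain ⟨C, hC, hle⟩ := ZI_super_le h
  refine ⟨C, hC, ?_⟩
  intro n x c hc i hi i' hi' k hk k' hk' h1 h2 h3
  rcases h1.eq_or_lt with rfl | h1
  · rw [bt_self, sum_empty, mul_zero, Real.exp_zero, mul_one, mul_comm]
  rcases h3.eq_or_lt with rfl | h3
  · have : ∑ x ∈ (bt c i i').1, ∑ y ∈ (bt c k k).1, GG D q β 1 x y = 0 := by
      simp [bt_self]
    rw [this, mul_zero, Real.exp_zero, mul_one]
  obtain ⟨w, hw, e1, e2⟩ := mu_common h hc hi hi' hk hk' h1 h2 h3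
  rw [e1, e2, mul_assoc w]
  exact mul_le_mul_of_nonneg_left (hle _ _ _) hw.le

end Pool.Agent.DL
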