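import Pool.Agent.DL.Pw
import Pool.Agent.DL.Rn1

/-!
# Few renewals are unlikely
-/

set_option autoImplicit false
set_option linter.unusedSectionVars false

namespace Pool.Agent.DL

open Finset

theorem rn2_pos {D : ℕ} {n : ℕ} {x : Tv D} {c : Pr D} (hc : Cf n x c) : 0 < n := by
  have h1 := hc.2.2.2.2 (0, 0) hc.2.1
  have h2 : (0 : ℤ) ≤ (n : ℤ) - 1 := h1
  omega

theorem bR_nonneg {D : ℕ} {q β : ℝ} (h : Bas D q β) {n : ℕ} {x : Tv D} {c : Pr D}
    (hc : Cf n x c) : 0 ≤ bR D q β c n :=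
  BT_nonneg (mu_SM h hc) (fun _ hk => Or.inr (Or.inr hk)) (Or.inl rfl) n (Or.inr (Or.inl rfl))
    (rn2_pos hc)

theorem bR_le_mu {D : ℕ} {q β : ℝ} (h : Bas D q β) {n : ℕ} {x : Tv D} {c : Pr D}
    (hc : Cf n x c) : bR D q β c n ≤ mu D q β c 0 n := by
  have h1 := BT_anti (mu_SM h hc) (T := ∅) (T' := cp c n) (empty_subset _)
    (fun _ hk => Or.inr (Or.inr hk)) (i := 0) (j := n) (Or.inl rfl) (Or.inr (Or.inl rfl))
  rwa [BT_of_empty (T := ∅) (by simp)] at h1

/-- The choice of the spacing. -/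
theorem rn2_theta (K a : ℝ) (hK : 0 < K) (ha : 0 < a) : ∃ (θ : ℝ) (T : ℕ), 0 < θ ∧ θ < 1 ∧
    1 ≤ T ∧ ∀ l : ℕ, ∑ j ∈ range (l + 1),
      (1 - Real.exp (-(K * Real.exp (-(a * ((T : ℝ) * j)))))) * (θ⁻¹) ^ j ≤ θ := by
  set p := Real.exp (-K) with hp
  have hp0 : 0 < p := Real.exp_pos _
  have hp1 : p < 1 := by rw [hp, Real.exp_lt_one_iff]; linarith
  set ε : ℝ := min (1 / 2) (p / (4 * K)) with hε
  have hε0 : 0 < ε := lt_min (by norm_num) (by positivity)
  have hε1 : ε ≤ 1 / 2 := min_le_left _ _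
  have hε2 : ε ≤ p / (4 * K) := min_le_right _ _
  obtain ⟨T0, hT0⟩ := exists_nat_gt (-Real.log (ε / 2) / a)
  refine ⟨1 - p / 2, T0 + 1, by linarith, by linarith, by omega, fun l => ?_⟩
  have hT : Real.exp (-(a * ((T0 + 1 : ℕ) : ℝ))) ≤ ε / 2 := by
    rw [← Real.le_log_iff_exp_le (by positivity)]
    rw [div_lt_iff₀ ha] at hT0
    push_cast
    nlinarith
  have hθ : (1 - p / 2)⁻¹ ≤ 2 := by
    rw [inv_le_comm₀ (by linarith) (by norm_num)]
    linarith
  have hθ0 : 0 < (1 - p / 2)⁻¹ := inv_pos.2 (by linarith)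
  rw [sum_range_succ']
  have h0 : (1 - Real.exp (-(K * Real.exp (-(a * (((T0 + 1 : ℕ) : ℝ) * ((0 : ℕ) : ℝ))))))) *
      ((1 - p / 2)⁻¹) ^ 0 = 1 - p := by
    simp [hp]
  rw [h0]
  have h1 : ∀ j ∈ range l, (1 - Real.exp (-(K * Real.exp (-(a * (((T0 + 1 : ℕ) : ℝ) *
      ((j + 1 : ℕ) : ℝ))))))) * ((1 - p / 2)⁻¹) ^ (j + 1) ≤ K * ε * (1 / 2) ^ j := by
    intro j _
    have h2 : 1 - Real.exp (-(K * Real.exp (-(a * (((T0 + 1 : ℕ) : ℝ) * ((j + 1 : ℕ) : ℝ)))))) ≤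
        K * Real.exp (-(a * (((T0 + 1 : ℕ) : ℝ) * ((j + 1 : ℕ) : ℝ)))) := by
      have := Real.add_one_le_exp (-(K * Real.exp (-(a * (((T0 + 1 : ℕ) : ℝ) *
        ((j + 1 : ℕ) : ℝ))))))
      linarith
    have h3 : Real.exp (-(a * (((T0 + 1 : ℕ) : ℝ) * ((j + 1 : ℕ) : ℝ)))) =
        Real.exp (-(a * ((T0 + 1 : ℕ) : ℝ))) ^ (j + 1) := by
      rw [← Real.exp_nat_mul]
      congr 1
      push_cast
      ring
    rw [h3] at h2 ⊢
    have h4 : Real.exp (-(a * ((T0 + 1 : ℕ) : ℝ))) ^ (j + 1) ≤ (ε / 2) ^ (j + 1) :=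
      pow_le_pow_left₀ (Real.exp_pos _).le hT _
    have h5 : ((1 - p / 2)⁻¹) ^ (j + 1) ≤ 2 ^ (j + 1) := pow_le_pow_left₀ hθ0.le hθ _
    calc (1 - Real.exp (-(K * Real.exp (-(a * ((T0 + 1 : ℕ) : ℝ))) ^ (j + 1)))) *
          ((1 - p / 2)⁻¹) ^ (j + 1)
        ≤ (K * (ε / 2) ^ (j + 1)) * ((1 - p / 2)⁻¹) ^ (j + 1) :=
          mul_le_mul_of_nonneg_right (h2.trans (mul_le_mul_of_nonneg_left h4 hK.le))
            (pow_nonneg hθ0.le _)
      _ ≤ (K * (ε / 2) ^ (j + 1)) * 2 ^ (j + 1) :=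
          mul_le_mul_of_nonneg_left h5 (by positivity)
      _ = K * ε ^ (j + 1) := by
          rw [mul_assoc, ← mul_pow, div_mul_cancel₀ _ (by norm_num : (2 : ℝ) ≠ 0)]
      _ = K * ε * ε ^ j := by ring
      _ ≤ K * ε * (1 / 2) ^ j :=
          mul_le_mul_of_nonneg_left (pow_le_pow_left₀ hε0.le hε1 _) (by positivity)
  have h2 : ∑ j ∈ range l, K * ε * (1 / 2 : ℝ) ^ j ≤ K * ε * 2 := by
    rw [← mul_sum]
    refine mul_le_mul_of_nonneg_left ?_ (by positivity)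
    have h3 := (summable_geometric_two).sum_le_tsum (range l) (fun i _ => by positivity)
    rw [tsum_geometric_two] at h3
    exact h3
  have h3 : K * ε * 2 ≤ p / 2 := by
    rw [le_div_iff₀ (by positivity)] at hε2
    linarith
  have h4 := sum_le_sum h1
  linarith

/-- Every `T`-th element of a finite set. -/
theorem rn2_enum (G : Finset ℕ) (n T : ℕ) (hT : 1 ≤ T) (hG : ∀ m ∈ G, m < n) :
    ∃ c : ℕ → ℕ, c (G.card / T) = n ∧ (∀ r < G.card / T, c r ∈ G) ∧
      (∀ r < G.card / T, c r < c (r + 1)) ∧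
      ∀ l < G.card / T, ∀ k ≤ l, c k + T * (l - k) ≤ c l := by
  set s := G.card / T with hs
  have hsT : s * T ≤ G.card := Nat.div_mul_le_self _ _
  set f : ℕ → ℕ := fun k => if hk : k < G.card then G.orderEmbOfFin rfl ⟨k, hk⟩ else
    n + (k - G.card) with hf
  have hf1 : ∀ k, k < G.card → f k ∈ G := by
    intro k hk
    simp only [hf, hk, dif_pos]
    exact G.orderEmbOfFin_mem rfl _
  have hfm : StrictMono f := by
    refine strictMono_nat_of_lt_succ fun k => ?_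
    by_cases h1 : k + 1 < G.card
    · have h2 : k < G.card := by omega
      simp only [hf, h1, h2, dif_pos]
      exact (G.orderEmbOfFin rfl).strictMono (by simp [Fin.lt_def])
    · by_cases h2 : k < G.card
      · have h3 := hG _ (hf1 k h2)
        have h4 : f (k + 1) = n + (k + 1 - G.card) := by
          simp only [hf, h1, dif_neg, not_false_iff]
        omega
      · have h4 : f (k + 1) = n + (k + 1 - G.card) := by
          simp only [hf, h1, dif_neg, not_false_iff]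
        have h5 : f k = n + (k - G.card) := by
          simp only [hf, h2, dif_neg, not_false_iff]
        omega
  have hadd : ∀ k d, f k + d ≤ f (k + d) := by
    intro k d
    induction d with
    | zero => exact le_rfl
    | succ d ih =>
      have := hfm (Nat.lt_succ_self (k + d))
      have h6 : f (k + (d + 1)) = f (k + d).succ := rfl
      omega
  have hlt : ∀ r < s, T * r + T ≤ G.card := by
    intro r hr
    calc T * r + T = (r + 1) * T := by ring
      _ ≤ s * T := Nat.mul_le_mul_right _ hr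
      _ ≤ G.card := hsT
  refine ⟨fun r => if r < s then f (T * r) else n, ?_, ?_, ?_, ?_⟩
  · simp
  · intro r hr
    simp only [hr, if_true]
    exact hf1 _ (by have := hlt r hr; omega)
  · intro r hr
    simp only [hr, if_true]
    by_cases h1 : r + 1 < s
    · simp only [h1, if_true]
      exact hfm (by nlinarith)
    · simp only [h1, if_false]
      exact hG _ (hf1 _ (by have := hlt r hr; omega))
  · intro l hl k hkl
    have hk : k < s := lt_of_le_of_lt hkl hl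
    simp only [hk, hl, if_true]
    have h1 := hadd (T * k) (T * (l - k))
    have h2 : T * k + T * (l - k) = T * l := by
      rw [← Nat.mul_add, Nat.add_sub_cancel' hkl]
    rwa [h2] at h1

/-- The memory at good cuts. -/
theorem rn2_sum_le {D : ℕ} {q β : ℝ} (h : Bas D q β) {a M : ℝ}
    (haJ : a ≤ xiR D q β 1) (c : Pr D) (k l m : ℕ) (hkl : k ≤ l)
    (hk : lvw a c.1 ((k : ℤ) - 1) ≤ M) (hl : lvw a c.1 ((l : ℤ) - 1) ≤ M) :
    ∑ x ∈ (bt c 0 k).1, ∑ y ∈ (bt c l m).1, GG D q β 1 x y ≤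
      M ^ 2 * Real.exp (-(a * ((l : ℝ) - k))) := by
  have h0 : ∀ i : ℤ, 0 ≤ lvw a c.1 i := fun i => sum_nonneg fun x _ => (Real.exp_pos _).le
  have h1 : ∀ x ∈ (bt c 0 k).1, ∀ y ∈ (bt c l m).1, GG D q β 1 x y ≤
      Real.exp (-(a * |(x.1 : ℝ) - (((k : ℤ) - 1 : ℤ) : ℝ)|)) *
        Real.exp (-(a * |(y.1 : ℝ) - (((l : ℤ) - 1 : ℤ) : ℝ)|)) *
        Real.exp (-(a * ((l : ℝ) - k))) := by
    intro x hx y hy
    have hx1 : x.1 < (k : ℤ) := (mem_filter.1 hx).2.2
    have hy1 : (l : ℤ) ≤ y.1 := (mem_filter.1 hy).2.1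
    have hx2 : (x.1 : ℝ) ≤ (k : ℝ) - 1 := by
      have : x.1 ≤ (k : ℤ) - 1 := by omega
      exact_mod_cast this
    have hy2 : (l : ℝ) ≤ (y.1 : ℝ) := by exact_mod_cast hy1
    have hkl2 : (k : ℝ) ≤ (l : ℝ) := by exact_mod_cast hkl
    have e1 : |(x.1 : ℝ) - (((k : ℤ) - 1 : ℤ) : ℝ)| = (k : ℝ) - 1 - x.1 := by
      push_cast
      rw [abs_of_nonpos (by linarith)]
      ring
    have e2 : |(y.1 : ℝ) - (((l : ℤ) - 1 : ℤ) : ℝ)| = (y.1 : ℝ) - ((l : ℝ) - 1) := by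
      push_cast
      rw [abs_of_nonneg (by linarith)]
    have e3 : |(x.1 : ℝ) - y.1| = (y.1 : ℝ) - x.1 := by
      rw [abs_of_nonpos (by linarith)]
      ring
    refine (pointwise h le_rfl x y).trans ?_
    rw [e1, e2, e3, ← Real.exp_add, ← Real.exp_add]
    refine Real.exp_le_exp.2 ?_
    have h2 : a * ((y.1 : ℝ) - x.1) ≤ xiR D q β 1 * ((y.1 : ℝ) - x.1) :=
      mul_le_mul_of_nonneg_right haJ (by linarith)
    linarith
  calc ∑ x ∈ (bt c 0 k).1, ∑ y ∈ (bt c l m).1, GG D q β 1 x y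
      ≤ ∑ x ∈ (bt c 0 k).1, ∑ y ∈ (bt c l m).1,
          Real.exp (-(a * |(x.1 : ℝ) - (((k : ℤ) - 1 : ℤ) : ℝ)|)) *
            Real.exp (-(a * |(y.1 : ℝ) - (((l : ℤ) - 1 : ℤ) : ℝ)|)) *
            Real.exp (-(a * ((l : ℝ) - k))) :=
        sum_le_sum fun x hx => sum_le_sum fun y hy => h1 x hx y hy
    _ = (∑ x ∈ (bt c 0 k).1, Real.exp (-(a * |(x.1 : ℝ) - (((k : ℤ) - 1 : ℤ) : ℝ)|))) *
          (∑ y ∈ (bt c l m).1, Real.exp (-(a * |(y.1 : ℝ) - (((l : ℤ) - 1 : ℤ) : ℝ)|))) *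
          Real.exp (-(a * ((l : ℝ) - k))) := by
        rw [sum_mul_sum, sum_mul]
        refine sum_congr rfl fun x _ => ?_
        rw [sum_mul]
    _ ≤ lvw a c.1 ((k : ℤ) - 1) * lvw a c.1 ((l : ℤ) - 1) *
          Real.exp (-(a * ((l : ℝ) - k))) := by
        refine mul_le_mul_of_nonneg_right ?_ (Real.exp_pos _).le
        refine mul_le_mul ?_ ?_ (sum_nonneg fun x _ => (Real.exp_pos _).le) (h0 _)
        · exact sum_le_sum_of_subset_of_nonneg (filter_subset _ _)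
            fun x _ _ => (Real.exp_pos _).le
        · exact sum_le_sum_of_subset_of_nonneg (filter_subset _ _)
            fun x _ _ => (Real.exp_pos _).le
    _ ≤ M ^ 2 * Real.exp (-(a * ((l : ℝ) - k))) := by
        refine mul_le_mul_of_nonneg_right ?_ (Real.exp_pos _).le
        rw [sq]
        exact mul_le_mul hk hl (h0 _) ((h0 _).trans hk)

theorem bR_le {D : ℕ} {q β : ℝ} (h : Bas D q β) (a M : ℝ) (ha : 0 < a)
    (haJ : 2 * a ≤ xiR D q β 1) : ∃ (θ : ℝ) (T : ℕ), 0 < θ ∧ θ < 1 ∧ 1 ≤ T ∧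
      ∀ (n : ℕ) (x : Tv D) (c : Pr D), Cf n x c →
        bR D q β c n ≤ θ ^ (ng a M c (n - 1) / T) * mu D q β c 0 n := by
  obtain ⟨C, hC, hr⟩ := mu_ratio h
  have hM : 0 < (|M| + 1) ^ 2 := by positivity
  obtain ⟨θ, T, hθ0, hθ1, hT, hsum⟩ := rn2_theta (C * (|M| + 1) ^ 2) a (by positivity) ha
  refine ⟨θ, T, hθ0, hθ1, hT, fun n x c hc => ?_⟩
  have hn := rn2_pos hc
  classical
  set G : Finset ℕ := ((range (n - 1)).filter fun m : ℕ => good a M c (m : ℤ)).image (· + 1)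
    with hG
  have hcard : G.card = ng a M c (n - 1) := by
    rw [hG, card_image_of_injective _ (add_left_injective 1)]
    unfold ng
    congr 1
  have hGm : ∀ m ∈ G, m ∈ cp c n ∧ lvw a c.1 ((m : ℤ) - 1) ≤ |M| + 1 := by
    intro m hm
    obtain ⟨i, hi, rfl⟩ := mem_image.1 hm
    simp only [mem_filter, mem_range] at hi
    have e1 : (((i + 1 : ℕ) : ℤ) - 1) = (i : ℤ) := by push_cast; ring
    refine ⟨?_, ?_⟩
    · unfold cp
      rw [mem_filter, mem_Ico, e1]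
      exact ⟨⟨by omega, by omega⟩, hi.2.1⟩
    · rw [e1]
      exact hi.2.2.trans (by have := le_abs_self M; linarith)
  have hGn : ∀ m ∈ G, m < n := fun m hm =>
    (mem_Ico.1 (mem_filter.1 (hGm m hm).1).1).2
  have hG1 : ∀ m ∈ G, 1 ≤ m := fun m hm =>
    (mem_Ico.1 (mem_filter.1 (hGm m hm).1).1).1
  obtain ⟨f, hf1, hf2, hf3, hf4⟩ := rn2_enum G n T hT hGn
  rw [← hcard]
  set s := G.card / T with hs
  have hfS : ∀ r ≤ s, f r ∈ ce c n := by
    intro r hr
    rcases hr.lt_or_eq with h1 | h1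
    · exact Or.inr (Or.inr (hGm _ (hf2 r h1)).1)
    · rw [h1, hf1]
      exact Or.inr (Or.inl rfl)
  have h0S : (0 : ℕ) ∈ ce c n := Or.inl rfl
  have hf0 : 0 < f 0 := by
    rcases Nat.eq_zero_or_pos s with h1 | h1
    · have h2 : f 0 = n := by rw [← hf1, h1]
      omega
    · exact hG1 _ (hf2 0 h1)
  have hmono : ∀ r ≤ s, ∀ k < r, f k < f r := by
    intro r
    induction r with
    | zero => intro _ k hk; omega
    | succ r ih =>
      intro hr k hk
      have h1 := hf3 r (by omega)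
      by_cases hkr : k = r
      · rw [hkr]
        exact h1
      · exact (ih (by omega) k (by omega)).trans h1
  have hmono' : ∀ r ≤ s, ∀ k ≤ r, f k ≤ f r := by
    intro r hr k hk
    rcases hk.lt_or_eq with h1 | h1
    · exact (hmono r hr k h1).le
    · rw [h1]
  have key := BT_le_pow (mu_SM h hc) 0 h0S s f hf3 hf0 hfS
    (fun j => 1 - Real.exp (-(C * (|M| + 1) ^ 2 * Real.exp (-(a * ((T : ℝ) * j))))))
    θ hθ0 ?_ ?_ (fun l _ => hsum l) s le_rfl
  · rw [hf1] at key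
    refine le_trans ?_ key
    unfold bR
    refine BT_anti (mu_SM h hc) ?_ (fun _ hk => Or.inr (Or.inr hk)) h0S (Or.inr (Or.inl rfl))
    intro m hm
    obtain ⟨r, hr, rfl⟩ := mem_image.1 hm
    exact (hGm _ (hf2 r (mem_range.1 hr))).1
  · intro j
    have : Real.exp (-(C * (|M| + 1) ^ 2 * Real.exp (-(a * ((T : ℝ) * j))))) ≤ 1 :=
      Real.exp_le_one_iff.2 (neg_nonpos.2 (by positivity))
    linarith
  · intro l hl k hkl
    have h1 := hr n x c hc 0 h0S (f k) (hfS k (by omega)) (f l) (hfS l hl.le) (f (l + 1))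
      (hfS _ hl) (Nat.zero_le _) (hmono' l hl.le k hkl) (hf3 l hl).le
    have h2 := rn2_sum_le h (a := a) (by linarith) c (f k) (f l) (f (l + 1)) (hmono' l hl.le k hkl)
      (hGm _ (hf2 k (by omega))).2 (hGm _ (hf2 l hl)).2
    have h3 : (T : ℝ) * ((l - k : ℕ) : ℝ) ≤ (f l : ℝ) - f k := by
      have := hf4 l hl k hkl
      have h4 : ((f k + T * (l - k) : ℕ) : ℝ) ≤ (f l : ℝ) := by exact_mod_cast this
      push_cast at h4
      linarith
    have h5 : (|M| + 1) ^ 2 * Real.exp (-(a * ((f l : ℝ) - f k))) ≤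
        (|M| + 1) ^ 2 * Real.exp (-(a * ((T : ℝ) * ((l - k : ℕ) : ℝ)))) :=
      mul_le_mul_of_nonneg_left (Real.exp_le_exp.2 (neg_le_neg
        (mul_le_mul_of_nonneg_left h3 ha.le))) hM.le
    set U := ∑ x ∈ (bt c 0 (f k)).1, ∑ y ∈ (bt c (f l) (f (l + 1))).1, GG D q β 1 x y with hU
    set E := C * (|M| + 1) ^ 2 * Real.exp (-(a * ((T : ℝ) * ((l - k : ℕ) : ℝ)))) with hE
    have h6 : C * U ≤ E := by
      rw [hE, mul_assoc]
      exact mul_le_mul_of_nonneg_left (h2.trans h5) hC.le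
    have hS := mu_SM h hc
    have hp1 : 0 < mu D q β c 0 (f l) * mu D q β c (f k) (f (l + 1)) :=
      mul_pos (hS.pos _ h0S _ (hfS l hl.le) (Nat.zero_le _))
        (hS.pos _ (hfS k (by omega)) _ (hfS _ hl) (hmono' (l + 1) hl k (by omega)))
    have h7 : mu D q β c (f k) (f l) * mu D q β c 0 (f (l + 1)) ≤
        mu D q β c 0 (f l) * mu D q β c (f k) (f (l + 1)) * Real.exp E := by
      rw [mul_comm (mu D q β c (f k) (f l))]
      exact h1.trans (mul_le_mul_of_nonneg_left (Real.exp_le_exp.2 h6) hp1.le)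
    calc (1 - (1 - Real.exp (-E))) * (mu D q β c (f k) (f l) * mu D q β c 0 (f (l + 1)))
        = Real.exp (-E) * (mu D q β c (f k) (f l) * mu D q β c 0 (f (l + 1))) := by ring
      _ ≤ Real.exp (-E) * (mu D q β c 0 (f l) * mu D q β c (f k) (f (l + 1)) * Real.exp E) :=
          mul_le_mul_of_nonneg_left h7 (Real.exp_pos _).le
      _ = mu D q β c 0 (f l) * mu D q β c (f k) (f (l + 1)) * (Real.exp (-E) * Real.exp E) := by
          ring
      _ = mu D q β c 0 (f l) * mu D q β c (f k) (f (l + 1)) := by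
          rw [← Real.exp_add, neg_add_cancel, Real.exp_zero, mul_one]

end Pool.Agent.DL
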