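import Pool.Agent.DL.Rn1
import Pool.Agent.DL.Cut
import Pool.Agent.DL.Shi

/-!
# The renewal equation without defect
-/

set_option autoImplicit false
set_option linter.unusedSectionVars false

namespace Pool.Agent.DL

open Finset
open scoped ENNReal

namespace Rn3

variable {D : ℕ} {q β : ℝ}

theorem ii_true {p : Prop} (h : p) : ii p = 1 := if_pos h

theorem ii_false {p : Prop} (h : ¬ p) : ii p = 0 := if_neg h

theorem ii_and (p p' : Prop) : ii (p ∧ p') = ii p * ii p' := by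
  by_cases hp : p
  · by_cases hp' : p'
    · rw [ii_true hp, ii_true hp', ii_true ⟨hp, hp'⟩, one_mul]
    · rw [ii_false hp', ii_false (fun h => hp' h.2), mul_zero]
  · rw [ii_false hp, ii_false (fun h => hp h.1), zero_mul]

theorem kap_nonneg (h : Bas D q β) : 0 ≤ (Real.exp β - 1) / q :=
  div_nonneg (sub_nonneg.2 (Real.one_le_exp h.hβ.le)) (by linarith [h.hq])

theorem Cf_pos {n : ℕ} {x : Tv D} {c : Pr D} (hc : Cf n x c) : 0 < n := by
  rcases Nat.eq_zero_or_pos n with rfl | hn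
  · have h1 := hc.2.2.2.1 _ hc.2.2.1
    simp at h1
  · exact hn

theorem bt_full {n : ℕ} {x : Tv D} {c : Pr D} (hc : Cf n x c) : bt c 0 n = c := by
  refine Prod.ext ?_ ?_
  · refine Finset.filter_true_of_mem fun y hy => ?_
    have h1 := hc.2.2.2.1 y hy
    have h2 := hc.2.2.2.2 y hy
    constructor <;> push_cast <;> omega
  · refine Finset.filter_true_of_mem fun e he => ?_
    obtain ⟨h3, h4⟩ := hc.1.2.1 e he
    have h1 := hc.2.2.2.1 _ h3
    have h2 := hc.2.2.2.2 _ h4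
    constructor <;> push_cast <;> omega

theorem bt_lo (c : Pr D) (k i j : ℕ) (hj : j ≤ k) : bt (lo c ((k : ℤ) - 1)) i j = bt c i j := by
  refine Prod.ext ?_ ?_
  · unfold bt lo
    simp only [Finset.filter_filter]
    refine Finset.filter_congr fun y _ => ?_
    constructor
    · exact fun h => h.2
    · exact fun h => ⟨by omega, h⟩
  · unfold bt lo
    simp only [Finset.filter_filter]
    refine Finset.filter_congr fun y _ => ?_
    constructor
    · exact fun h => h.2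
    · exact fun h => ⟨by omega, h⟩

theorem bt_hi {n : ℕ} {x : Tv D} {c : Pr D} (hc : Cf n x c) (k : ℕ) :
    bt c k n = hi c ((k : ℤ) - 1) := by
  refine Prod.ext ?_ ?_
  · unfold bt hi
    refine Finset.filter_congr fun y hy => ?_
    have h2 := hc.2.2.2.2 y hy
    constructor
    · intro h
      omega
    · intro h
      constructor <;> omega
  · unfold bt hi
    refine Finset.filter_congr fun e he => ?_
    obtain ⟨_, h4⟩ := hc.1.2.1 e he
    have h2 := hc.2.2.2.2 _ h4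
    constructor
    · intro h
      omega
    · intro h
      constructor <;> omega

theorem mu_lo (c : Pr D) (k i j : ℕ) (hj : j ≤ k) :
    mu D q β (lo c ((k : ℤ) - 1)) i j = mu D q β c i j := by
  unfold mu
  rw [bt_lo c k i j hj]

theorem upE_lo (c : Pr D) (k m : ℕ) (hm : m < k) :
    upE (lo c ((k : ℤ) - 1)).2 ((m : ℤ) - 1) = upE c.2 ((m : ℤ) - 1) := by
  unfold upE lo
  simp only [Finset.filter_filter]
  refine Finset.filter_congr fun e _ => ?_
  constructor
  · exact fun h => h.2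
  · intro h
    refine ⟨?_, h⟩
    rw [Cut.t_fst_none h.1, h.2]
    omega

theorem mem_cp {c : Pr D} {n k : ℕ} :
    k ∈ cp c n ↔ (1 ≤ k ∧ k < n) ∧ (upE c.2 ((k : ℤ) - 1)).card = 1 := by
  unfold cp
  rw [Finset.mem_filter, Finset.mem_Ico]

theorem BT_congr_mu {μ μ' : ℕ → ℕ → ℝ} {T : Finset ℕ} {i k : ℕ}
    (h : ∀ a b, b ≤ k → μ a b = μ' a b) : ∀ j ≤ k, BT μ T i j = BT μ' T i j := by
  intro j
  induction j using Nat.strong_induction_on with
  | _ j ih =>
    intro hj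
    rw [BT_def, BT_def, h i j hj]
    congr 1
    refine Finset.sum_congr rfl fun l hl => ?_
    rw [Finset.mem_filter, Finset.mem_range] at hl
    rw [ih l hl.1 (by omega), h l j hj]

theorem bR_lo (c : Pr D) {n k : ℕ} (hk : k ∈ cp c n) :
    bR D q β (lo c ((k : ℤ) - 1)) k = BT (mu D q β c) (cp c n) 0 k := by
  unfold bR
  rw [BT_congr_mu (μ' := mu D q β c) (fun a b hb => mu_lo c k a b hb) k le_rfl]
  refine BT_congr k fun m hm hmk => ?_
  rw [mem_cp, mem_cp, upE_lo c k m hmk]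
  have h1 := (mem_cp.1 hk).1
  constructor
  · exact fun h => ⟨⟨h.1.1, by omega⟩, h.2⟩
  · exact fun h => ⟨⟨h.1.1, hmk⟩, h.2⟩

end Rn3

theorem tC_zero {D : ℕ} {q β : ℝ} (x : Tv D) : tC D q β 0 x = 0 := by
  unfold tC
  rw [ENNReal.tsum_eq_zero]
  intro c
  rw [Rn3.ii_false (fun h => absurd (Rn3.Cf_pos h) (lt_irrefl 0)), zero_mul]

theorem bC_zero {D : ℕ} {q β : ℝ} (x : Tv D) : bC D q β 0 x = 0 := by
  unfold bC
  rw [ENNReal.tsum_eq_zero]
  intro c
  rw [Rn3.ii_false (fun h => absurd (Rn3.Cf_pos h) (lt_irrefl 0)), zero_mul]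

theorem tC_eq {D : ℕ} {q β : ℝ} (h : Bas D q β) (n : ℕ) (x : Tv D) :
    tC D q β (n + 1) x = ENNReal.ofReal ((Real.exp β - 1) / q) * TN D q β 1 n 0 x := by
  unfold tC TN sm
  rw [← ENNReal.tsum_mul_left]
  refine tsum_congr fun c => ?_
  beta_reduce
  have hn : (((n + 1 : ℕ) : ℤ) - 1) = n := by push_cast; ring
  by_cases hc : Cf (n + 1) x c
  · have h1 : ((0, 0) : Site D) ∈ c.1 ∧ (((n : ℤ), x) : Site D) ∈ c.1 ∧ abv 0 c ∧ bel n c := by
      obtain ⟨_, h2, h3, h4, h5⟩ := hc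
      rw [hn] at h3 h5
      exact ⟨h2, h3, h4, h5⟩
    rw [Rn3.ii_true hc, Rn3.ii_true h1, one_mul, mul_one]
    unfold mu WI
    rw [if_neg (by omega), if_pos hc.1, Rn3.bt_full hc, ENNReal.ofReal_mul (Rn3.kap_nonneg h)]
  · rw [Rn3.ii_false hc, zero_mul]
    by_cases hcl : (lat D).IsCl c.1 c.2
    · have h1 : ¬ (((0, 0) : Site D) ∈ c.1 ∧ (((n : ℤ), x) : Site D) ∈ c.1 ∧ abv 0 c ∧
          bel n c) := by
        rintro ⟨h2, h3, h4, h5⟩
        refine hc ⟨hcl, h2, ?_, h4, ?_⟩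
        · rw [hn]; exact h3
        · rw [hn]; exact h5
      rw [Rn3.ii_false h1, mul_zero, mul_zero]
    · unfold WI
      rw [if_neg hcl, zero_mul, mul_zero]

/-- First renewal, for one cluster. -/
theorem mu_first {D : ℕ} {q β : ℝ} (h : Bas D q β) {n : ℕ} {x : Tv D} {c : Pr D}
    (hc : Cf n x c) :
    ENNReal.ofReal (mu D q β c 0 n) = ENNReal.ofReal (bR D q β c n) +
      ∑ k ∈ cp c n, ENNReal.ofReal (bR D q β (lo c ((k : ℤ) - 1)) k) *
        (ENNReal.ofReal ((Real.exp β - 1) / q) * WI D q β 1 (hi c ((k : ℤ) - 1))) := by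
  have hn := Rn3.Cf_pos hc
  have hSM := mu_SM h hc
  have hT : ∀ k ∈ cp c n, k ∈ ce c n := fun k hk => Or.inr (Or.inr hk)
  have h0 : (0 : ℕ) ∈ ce c n := Or.inl rfl
  have hnn : n ∈ ce c n := Or.inr (Or.inl rfl)
  have hb : ∀ k ∈ cp c n, 0 ≤ BT (mu D q β c) (cp c n) 0 k := fun k hk =>
    BT_nonneg hSM hT h0 k (hT k hk) (Rn3.mem_cp.1 hk).1.1
  have hm : ∀ k ∈ cp c n, 0 ≤ mu D q β c k n := fun k hk =>
    (hSM.pos k (hT k hk) n hnn (Rn3.mem_cp.1 hk).1.2.le).le
  have hfil : (range n).filter (fun k => k ∈ cp c n ∧ 0 < k) = cp c n := by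
    ext k
    rw [Finset.mem_filter, Finset.mem_range]
    constructor
    · exact fun h => h.2.1
    · exact fun h => ⟨(Rn3.mem_cp.1 h).1.2, h, (Rn3.mem_cp.1 h).1.1⟩
  have h1 := BT_eq (mu D q β c) (cp c n) 0 n
  rw [hfil] at h1
  rw [h1, ENNReal.ofReal_add (BT_nonneg hSM hT h0 n hnn hn)
    (Finset.sum_nonneg fun k hk => mul_nonneg (hb k hk) (hm k hk)),
    ENNReal.ofReal_sum_of_nonneg fun k hk => mul_nonneg (hb k hk) (hm k hk)]
  congr 1
  refine Finset.sum_congr rfl fun k hk => ?_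
  rw [ENNReal.ofReal_mul (hb k hk), Rn3.bR_lo c hk]
  congr 1
  have hk' := Rn3.mem_cp.1 hk
  obtain ⟨y, hv, _⟩ := cut_jn c ((k : ℤ) - 1) hc.1 hk'.2
  unfold mu WI
  rw [if_neg (by omega), Rn3.bt_hi hc k, if_pos hv.2.1, ENNReal.ofReal_mul (Rn3.kap_nonneg h)]

namespace Rn3

variable {D : ℕ} {q β : ℝ}

/-- The second part. -/
def Gc (k n : ℕ) (y x : Tv D) (c : Pr D) : Prop :=
  (lat D).IsCl c.1 c.2 ∧ ((k, y) : Site D) ∈ c.1 ∧ (((n : ℤ) - 1, x) : Site D) ∈ c.1 ∧
    abv k c ∧ bel ((n : ℤ) - 1) c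

theorem Vd_Cf {k n : ℕ} (hk : 1 ≤ k) (hkn : k < n) (x y : Tv D) (c1 c2 : Pr D) :
    (Vd c1 y ((k : ℤ) - 1) c2 ∧ Cf n x (jn c1 y ((k : ℤ) - 1) c2)) ↔
      (Cf k y c1 ∧ Gc k n y x c2) := by
  have hk1 : (k : ℤ) - 1 + 1 = k := by ring
  constructor
  · rintro ⟨hv, hc⟩
    obtain ⟨h1, h2, h3, h4, h5, h6⟩ := hv
    obtain ⟨_, g2, g3, g4, g5⟩ := hc
    rw [hk1] at h5 h6
    have e1 : (jn c1 y ((k : ℤ) - 1) c2).1 = c1.1 ∪ c2.1 := rfl
    rw [e1, Finset.mem_union] at g2 g3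
    refine ⟨⟨h1, ?_, h4, ?_, h3⟩, ⟨h2, h6, ?_, h5, ?_⟩⟩
    · rcases g2 with g2 | g2
      · exact g2
      · have := h5 _ g2
        simp only at this
        omega
    · intro z hz
      exact g4 z (by rw [e1]; exact Finset.mem_union_left _ hz)
    · rcases g3 with g3 | g3
      · have := h3 _ g3
        simp only at this
        omega
      · exact g3
    · intro z hz
      exact g5 z (by rw [e1]; exact Finset.mem_union_right _ hz)
  · rintro ⟨⟨h1, h2, h3, h4, h5⟩, ⟨g1, g2, g3, g4, g5⟩⟩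
    have hv : Vd c1 y ((k : ℤ) - 1) c2 := by
      refine ⟨h1, g1, h5, h3, ?_, ?_⟩
      · rw [hk1]; exact g4
      · rw [hk1]; exact g2
    refine ⟨hv, jn_isCl hv, ?_, ?_, ?_, ?_⟩
    · exact Finset.mem_union_left _ h2
    · exact Finset.mem_union_right _ g3
    · intro z hz
      rcases Finset.mem_union.1 hz with hz | hz
      · exact h4 z hz
      · have := g4 z hz
        omega
    · intro z hz
      rcases Finset.mem_union.1 hz with hz | hz
      · have := h5 z hz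
        omega
      · exact g5 z hz

theorem sum_Gc (h : Bas D q β) {k n : ℕ} (hkn : k < n) (x y : Tv D) :
    ∑' c : Pr D, ii (Gc k n y x c) * (ENNReal.ofReal ((Real.exp β - 1) / q) * WI D q β 1 c) =
      tC D q β (n - k) (x - y) := by
  obtain ⟨m, rfl⟩ : ∃ m, n = k + (m + 1) := ⟨n - k - 1, by omega⟩
  have e1 : k + (m + 1) - k = m + 1 := by omega
  rw [e1, tC_eq h]
  have e2 : TN D q β 1 m 0 (x - y) = TN D q β 1 m y x := by
    have := TN_trans (D := D) (q := q) (β := β) m 0 (x - y) y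
    rw [zero_add, sub_add_cancel] at this
    exact this.symm
  rw [e2]
  have e3 : TN D q β 1 m y x = sm D q β 1 (fun c => ii (((k, y) : Site D) ∈ c.1 ∧
      ((((k + (m + 1) : ℕ) : ℤ) - 1, x) : Site D) ∈ c.1 ∧ abv k c ∧
      bel (((k + (m + 1) : ℕ) : ℤ) - 1) c)) := by
    rw [← sm_sh (k : ℤ)]
    unfold TN
    congr 1
    funext c
    refine Shi.ii_congr ?_
    have key : ∀ (a : ℤ) (z : Tv D), ((a, z) : Site D) ∈ c.1 ↔
        ((a + k, z) : Site D) ∈ (sh (k : ℤ) c).1 := by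
      intro a z
      unfold sh
      simp only [Finset.mem_image, Prod.mk.injEq]
      constructor
      · intro ha
        exact ⟨(a, z), ha, rfl, rfl⟩
      · rintro ⟨w, hw, h1, h2⟩
        have : w = (a, z) := Prod.ext (by simpa using h1) h2
        rw [← this]
        exact hw
    refine and_congr ?_ (and_congr ?_ (and_congr ?_ ?_))
    · rw [key 0 y, zero_add]
    · rw [key m x]
      have : ((m : ℤ) + k) = (((k + (m + 1) : ℕ) : ℤ) - 1) := by push_cast; ring
      rw [this]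
    · unfold abv sh
      constructor
      · intro ha z hz
        obtain ⟨w, hw, rfl⟩ := Finset.mem_image.1 hz
        have := ha w hw
        simp only
        omega
      · intro ha z hz
        have := ha (z.1 + k, z.2) (Finset.mem_image.2 ⟨z, hz, rfl⟩)
        simp only at this
        omega
    · unfold bel sh
      constructor
      · intro ha z hz
        obtain ⟨w, hw, rfl⟩ := Finset.mem_image.1 hz
        have := ha w hw
        simp only
        push_cast
        omega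
      · intro ha z hz
        have := ha (z.1 + k, z.2) (Finset.mem_image.2 ⟨z, hz, rfl⟩)
        simp only at this
        push_cast at this
        omega
  rw [e3]
  unfold sm
  rw [← ENNReal.tsum_mul_left]
  refine tsum_congr fun c => ?_
  by_cases hcl : (lat D).IsCl c.1 c.2
  · have e4 : ii (Gc k (k + (m + 1)) y x c) = ii (((k, y) : Site D) ∈ c.1 ∧
      ((((k + (m + 1) : ℕ) : ℤ) - 1, x) : Site D) ∈ c.1 ∧ abv k c ∧
      bel (((k + (m + 1) : ℕ) : ℤ) - 1) c) :=
      Shi.ii_congr ⟨fun h => h.2, fun h => ⟨hcl, h⟩⟩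
    rw [e4]
    ring
  · have e5 : WI D q β 1 c = 0 := if_neg hcl
    rw [e5, mul_zero, mul_zero, zero_mul, mul_zero]

end Rn3

theorem renewal {D : ℕ} {q β : ℝ} (h : Bas D q β) (n : ℕ) (x : Tv D) :
    tC D q β n x = bC D q β n x +
      ∑ k ∈ Finset.Ico 1 n, ∑' y, bC D q β k y * tC D q β (n - k) (x - y) := by
  set F : ℕ → Pr D → ℝ≥0∞ := fun k c => ii (Cf n x c) *
    (ENNReal.ofReal (bR D q β (lo c ((k : ℤ) - 1)) k) *
      (ENNReal.ofReal ((Real.exp β - 1) / q) * WI D q β 1 (hi c ((k : ℤ) - 1)))) with hF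
  have h1 : ∀ c : Pr D, ii (Cf n x c) * ENNReal.ofReal (mu D q β c 0 n) =
      ii (Cf n x c) * ENNReal.ofReal (bR D q β c n) + ∑ k ∈ Finset.Ico 1 n,
        ii ((lat D).IsCl c.1 c.2 ∧ (upE c.2 ((k : ℤ) - 1)).card = 1) * F k c := by
    intro c
    by_cases hc : Cf n x c
    · rw [mu_first h hc, mul_add]
      congr 1
      unfold cp
      rw [Finset.sum_filter, Finset.mul_sum]
      refine Finset.sum_congr rfl fun k _ => ?_
      by_cases hk : (upE c.2 ((k : ℤ) - 1)).card = 1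
      · rw [if_pos hk, Rn3.ii_true (p := _ ∧ _) ⟨hc.1, hk⟩, one_mul]
      · have h4 : ¬ ((lat D).IsCl c.1 c.2 ∧ (upE c.2 ((k : ℤ) - 1)).card = 1) :=
          fun h' => hk h'.2
        rw [if_neg hk, Rn3.ii_false h4, zero_mul, mul_zero]
    · have : ∀ k, F k c = 0 := by
        intro k
        simp only [hF]
        rw [Rn3.ii_false hc, zero_mul]
      simp only [this, Rn3.ii_false hc, zero_mul, mul_zero, Finset.sum_const_zero, add_zero]
  have h2 : tC D q β n x = bC D q β n x + ∑ k ∈ Finset.Ico 1 n, ∑' c : Pr D,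
      ii ((lat D).IsCl c.1 c.2 ∧ (upE c.2 ((k : ℤ) - 1)).card = 1) * F k c := by
    unfold tC bC
    rw [tsum_congr h1, ENNReal.tsum_add]
    congr 1
    exact Summable.tsum_finsetSum fun k _ => ENNReal.summable
  rw [h2]
  congr 1
  refine Finset.sum_congr rfl fun k hk => ?_
  rw [Finset.mem_Ico] at hk
  rw [tsum_cut ((k : ℤ) - 1) (F k)]
  refine tsum_congr fun y => ?_
  have h3 : ∀ c1 c2 : Pr D, ii (Vd c1 y ((k : ℤ) - 1) c2) * F k (jn c1 y ((k : ℤ) - 1) c2) =
      (ii (Cf k y c1) * ENNReal.ofReal (bR D q β c1 k)) *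
        (ii (Rn3.Gc k n y x c2) * (ENNReal.ofReal ((Real.exp β - 1) / q) * WI D q β 1 c2)) := by
    intro c1 c2
    by_cases hv : Vd c1 y ((k : ℤ) - 1) c2
    · simp only [hF]
      rw [jn_lo hv, jn_hi hv]
      have h4 : ii (Cf n x (jn c1 y ((k : ℤ) - 1) c2)) =
          ii (Cf k y c1) * ii (Rn3.Gc k n y x c2) := by
        rw [← Rn3.ii_and]
        refine Shi.ii_congr ?_
        rw [← Rn3.Vd_Cf hk.1 hk.2]
        exact ⟨fun h' => ⟨hv, h'⟩, fun h' => h'.2⟩
      rw [Rn3.ii_true hv, h4]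
      ring
    · rw [Rn3.ii_false hv, zero_mul]
      have h4 : ii (Cf k y c1) * ii (Rn3.Gc k n y x c2) = 0 := by
        rw [← Rn3.ii_and]
        exact Rn3.ii_false fun h' => hv ((Rn3.Vd_Cf hk.1 hk.2 x y c1 c2).2 h').1
      calc (0 : ℝ≥0∞) = (ii (Cf k y c1) * ii (Rn3.Gc k n y x c2)) *
            (ENNReal.ofReal (bR D q β c1 k) *
              (ENNReal.ofReal ((Real.exp β - 1) / q) * WI D q β 1 c2)) := by
            rw [h4, zero_mul]
        _ = _ := by ring
  simp_rw [h3]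
  have h5 : ∀ c1 : Pr D, ∑' c2 : Pr D, (ii (Cf k y c1) * ENNReal.ofReal (bR D q β c1 k)) *
      (ii (Rn3.Gc k n y x c2) * (ENNReal.ofReal ((Real.exp β - 1) / q) * WI D q β 1 c2)) =
      (ii (Cf k y c1) * ENNReal.ofReal (bR D q β c1 k)) * tC D q β (n - k) (x - y) := by
    intro c1
    rw [ENNReal.tsum_mul_left, Rn3.sum_Gc h hk.2]
  rw [tsum_congr h5, ENNReal.tsum_mul_right]
  rfl

end Pool.Agent.DL
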