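import Pool.Agent.DL.Rn4a
import Pool.Agent.DL.Rn2
import Pool.Agent.DL.Rn3
import Pool.Agent.DL.Gc
import Pool.Agent.DL.ExK

/-!
# Exponential tails of the kernel without renewal
-/

set_option autoImplicit false
set_option linter.unusedSectionVars false

namespace Pool.Agent.DL

open Finset
open scoped ENNReal

namespace Rn4

theorem reg_one {D : ℕ} {q β : ℝ} (h : Bas D q β) : Reg D q β 1 where
  toBas := h
  hJ := le_rfl
  xi := ⟨xiR D q β 1, xiR_one_pos h, fun J h1 h2 => by rw [le_antisymm h2 h1]⟩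

theorem bt_eq {D : ℕ} {n : ℕ} {x : Tv D} {c : Pr D} (hc : Cf n x c) : bt c 0 n = c := by
  obtain ⟨h1, -, -, h2, h3⟩ := hc
  have key : ∀ y ∈ c.1, ((0 : ℕ) : ℤ) ≤ y.1 ∧ y.1 < (n : ℤ) := by
    intro y hy
    have h4 := h2 y hy
    have h5 := h3 y hy
    push_cast
    omega
  refine Prod.ext ?_ ?_
  · exact Finset.filter_true_of_mem key
  · refine Finset.filter_true_of_mem fun e he => ?_
    exact ⟨(key _ (h1.2.1 e he).1).1, (key _ (h1.2.1 e he).2).2⟩

theorem ofReal_mu {D : ℕ} {q β : ℝ} (h : Bas D q β) {n : ℕ} (hn : n ≠ 0) {x : Tv D} {c : Pr D}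
    (hc : Cf n x c) :
    ENNReal.ofReal (mu D q β c 0 n) =
      ENNReal.ofReal ((Real.exp β - 1) / q) * WI D q β 1 c := by
  have hq0 : 0 < q := by linarith [h.hq]
  have hv : 0 ≤ (Real.exp β - 1) / q :=
    div_nonneg (by linarith [Real.one_le_exp h.hβ.le]) hq0.le
  unfold mu WI
  rw [if_neg (fun h => hn h.symm), bt_eq hc, if_pos hc.1, ENNReal.ofReal_mul hv]

/-- Interpolation between the two bounds of the two-point function. -/
theorem tC_interp {D : ℕ} {q β : ℝ} (h : Bas D q β) (s : ℝ) (hs0 : 0 < s) (hs1 : s ≤ 1) :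
    ∃ C c : ℝ, 0 < C ∧ 0 < c ∧ ∀ (n : ℕ) (x : Tv D),
      tC D q β n x ≤ ENNReal.ofReal C * ex ((1 - s) * xiR D q β 1) n * ex c (SB.nt x) := by
  obtain ⟨C, c, hC, hc, hb⟩ := tC_le h
  have hξ := xiR_one_pos h
  refine ⟨C, s * c / 2, hC, by positivity, fun n x => ?_⟩
  obtain ⟨h1, h2⟩ := hb n x
  have hn : (0 : ℝ) ≤ n := Nat.cast_nonneg n
  have hx : (0 : ℝ) ≤ (SB.nt x : ℝ) := Nat.cast_nonneg _
  rcases le_total (c * SB.nt x) (2 * xiR D q β 1 * n) with h3 | h3
  · refine h1.trans ?_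
    rw [mul_assoc]
    refine mul_le_mul_right ?_ _
    unfold ex
    rw [← ENNReal.ofReal_mul (Real.exp_nonneg _), ← Real.exp_add]
    refine ENNReal.ofReal_le_ofReal (Real.exp_le_exp.2 ?_)
    have h4 := mul_le_mul_of_nonneg_left h3 hs0.le
    nlinarith
  · refine h2.trans ?_
    rw [mul_assoc, mul_assoc]
    refine mul_le_mul_right ?_ _
    unfold ex
    rw [← ENNReal.ofReal_mul (Real.exp_nonneg _), ← ENNReal.ofReal_mul (Real.exp_nonneg _),
      ← Real.exp_add, ← Real.exp_add]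
    refine ENNReal.ofReal_le_ofReal (Real.exp_le_exp.2 ?_)
    have h4 : s * (c * SB.nt x) ≤ 1 * (c * SB.nt x) :=
      mul_le_mul_of_nonneg_right hs1 (mul_nonneg hc.le hx)
    have h5 : 0 ≤ s * (xiR D q β 1 * n) := mul_nonneg hs0.le (mul_nonneg hξ.le hn)
    have h6 : 0 ≤ c * n := mul_nonneg hc.le hn
    nlinarith

theorem ii_or_le (P Q R : Prop) (h : P → Q ∨ R) : ii P ≤ ii Q + ii R := by
  unfold ii
  by_cases hp : P
  · rw [if_pos hp]
    rcases h hp with h1 | h1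
    · rw [if_pos h1]; exact le_self_add
    · rw [if_pos h1]; exact le_add_self
  · rw [if_neg hp]; exact bot_le

theorem ii_mul_mono (P : Prop) (a b : ℝ≥0∞) (h : P → a ≤ b) : ii P * a ≤ ii P * b := by
  unfold ii
  by_cases hp : P
  · rw [if_pos hp, one_mul, one_mul]; exact h hp
  · rw [if_neg hp, zero_mul, zero_mul]

/-- The power with many good cuts. -/
theorem pow_ng {θ ρ : ℝ} (hθ0 : 0 < θ) (hθ1 : θ < 1) {T : ℕ} (hT : 1 ≤ T) (n k : ℕ) (hn : 1 ≤ n)
    (hk : ρ * ((n - 1 : ℕ) : ℝ) < k) :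
    θ ^ (k / T) ≤ Real.exp (-Real.log θ + ρ * (-Real.log θ) / T) *
      Real.exp (-(ρ * (-Real.log θ) / T * n)) := by
  have hT0 : (0 : ℝ) < T := by exact_mod_cast hT
  have hl : 0 < -Real.log θ := by
    have := Real.log_neg hθ0 hθ1
    linarith
  have h1 : (k : ℝ) / T - 1 ≤ ((k / T : ℕ) : ℝ) := by
    have h2 : k < T * (k / T + 1) := by
      have := Nat.div_add_mod k T
      have := Nat.mod_lt k hT
      nlinarith
    have h3 : (k : ℝ) < T * (((k / T : ℕ) : ℝ) + 1) := by exact_mod_cast h2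
    rw [sub_le_iff_le_add, div_le_iff₀ hT0]
    linarith
  rw [← Real.exp_add, ← Real.exp_log hθ0, ← Real.exp_nat_mul, Real.exp_log hθ0]
  refine Real.exp_le_exp.2 ?_
  have h4 : ρ * ((n : ℝ) - 1) / T ≤ k / T := by
    refine div_le_div_of_nonneg_right ?_ hT0.le
    have : ((n - 1 : ℕ) : ℝ) = (n : ℝ) - 1 := by
      rw [Nat.cast_sub hn, Nat.cast_one]
    rw [← this]
    exact hk.le
  have h5 : ρ * ((n : ℝ) - 1) / T - 1 ≤ ((k / T : ℕ) : ℝ) := by linarith
  have h6 := mul_le_mul_of_nonneg_right h5 hl.le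
  have h7 : (ρ * ((n : ℝ) - 1) / T - 1) * (-Real.log θ) =
      ρ * (-Real.log θ) / T * n - (-Real.log θ + ρ * (-Real.log θ) / T) := by ring
  rw [h7] at h6
  linarith

end Rn4

open Rn4

theorem bC_tail {D : ℕ} {q β : ℝ} (h : Bas D q β) : ∃ η C : ℝ, 0 < η ∧ 0 < C ∧ ∀ n : ℕ,
    ∑' x, bC D q β n x * ENNReal.ofReal (Real.exp (η * SB.nt x)) ≤
      ENNReal.ofReal C * ex (xiR D q β 1 + η) n := by
  have hξ := xiR_one_pos h
  set ξ := xiR D q β 1 with hξdef
  obtain ⟨M0, ρ, η0, c0, hM0, hρ, hη0, hc0, hfew⟩ := few_good (reg_one h) (ξ / 2) (by positivity)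
  obtain ⟨C1, hC1, hfew⟩ := hfew 0
  obtain ⟨θ, T, hθ0, hθ1, hT, hbR⟩ := bR_le h (ξ / 2) M0 (by positivity)
    (by rw [← hξdef]; linarith)
  have hT0 : (0 : ℝ) < T := by exact_mod_cast hT
  have hl : 0 < -Real.log θ := by
    have := Real.log_neg hθ0 hθ1
    linarith
  set κ : ℝ := ρ * (-Real.log θ) / T with hκ
  have hκ0 : 0 < κ := by positivity
  set s : ℝ := min 1 (κ / (2 * ξ)) with hs
  have hs0 : 0 < s := lt_min one_pos (by positivity)
  have hs2 : s * ξ ≤ κ / 2 := by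
    have h1 : s ≤ κ / (2 * ξ) := min_le_right _ _
    have h2 := mul_le_mul_of_nonneg_right h1 hξ.le
    have h3 : κ / (2 * ξ) * ξ = κ / 2 := by field_simp
    rw [h3] at h2
    exact h2
  obtain ⟨C2, c2, hC2, hc2, hint⟩ := tC_interp h s hs0 (min_le_left _ _)
  rw [← hξdef] at hint
  set v : ℝ := (Real.exp β - 1) / q with hv
  have hv0 : 0 ≤ v := by
    have hq0 : 0 < q := by linarith [h.hq]
    exact div_nonneg (by linarith [Real.one_le_exp h.hβ.le]) hq0.le
  set η : ℝ := min (c0 / 2) (min (κ / 2) (c2 / 2)) with hη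
  have hη0' : 0 < η := lt_min (by positivity) (lt_min (by positivity) (by positivity))
  have hη1 : η ≤ c0 / 2 := min_le_left _ _
  have hη2 : η ≤ κ / 2 := (min_le_right _ _).trans (min_le_left _ _)
  have hη3 : η ≤ c2 / 2 := (min_le_right _ _).trans (min_le_right _ _)
  set A3 : ℝ≥0∞ := ENNReal.ofReal v * ENNReal.ofReal C1 * ENNReal.ofReal (Real.exp (ξ + c0))
    with hA3
  set A4 : ℝ≥0∞ := ENNReal.ofReal (Real.exp (-Real.log θ + κ)) * ENNReal.ofReal C2 with hA4
  -- the bound of the kernel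
  have main : ∀ n : ℕ, 1 ≤ n → ∀ x : Tv D, bC D q β n x ≤
      A3 * ex (ξ + c0) n * ex c0 (SB.nt x) + A4 * ex (ξ + κ / 2) n * ex c2 (SB.nt x) := by
    intro n hn x
    have hn0 : n ≠ 0 := by omega
    have hcast : ((n - 1 : ℕ) : ℤ) = (n : ℤ) - 1 := by omega
    -- splitting
    have e1 : bC D q β n x ≤
        ENNReal.ofReal v * sm D q β 1 (fun c' => ii (((0, 0) : Site D) ∈ c'.1 ∧
          ((((n - 1 : ℕ) : ℤ), x) : Site D) ∈ c'.1 ∧
          (ng (ξ / 2) M0 c' (n - 1) : ℝ) ≤ ρ * ((n - 1 : ℕ) : ℝ) + (0 : ℕ)) *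
          ENNReal.ofReal (Real.exp (η0 * c'.1.card))) +
        ENNReal.ofReal (Real.exp (-Real.log θ + κ)) * ex κ n * tC D q β n x := by
      unfold bC sm tC
      rw [← ENNReal.tsum_mul_left, ← ENNReal.tsum_mul_left, ← ENNReal.tsum_add]
      refine ENNReal.tsum_le_tsum fun c => ?_
      by_cases hc : Cf n x c
      swap
      · have : ii (Cf n x c) = 0 := by unfold ii; rw [if_neg hc]
        rw [this, zero_mul]
        exact bot_le
      have hic : ii (Cf n x c) = 1 := by unfold ii; rw [if_pos hc]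
      rw [hic, one_mul, one_mul]
      by_cases hng : (ng (ξ / 2) M0 c (n - 1) : ℝ) ≤ ρ * ((n - 1 : ℕ) : ℝ) + (0 : ℕ)
      · refine le_trans ?_ le_self_add
        have h2 : ii (((0, 0) : Site D) ∈ c.1 ∧ ((((n - 1 : ℕ) : ℤ), x) : Site D) ∈ c.1 ∧
            (ng (ξ / 2) M0 c (n - 1) : ℝ) ≤ ρ * ((n - 1 : ℕ) : ℝ) + (0 : ℕ)) = 1 := by
          unfold ii
          rw [if_pos]
          refine ⟨hc.2.1, ?_, hng⟩
          rw [hcast]
          exact hc.2.2.1
        beta_reduce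
        rw [h2, one_mul, ← mul_assoc, ← ofReal_mu h hn0 hc]
        calc ENNReal.ofReal (bR D q β c n) ≤ ENNReal.ofReal (mu D q β c 0 n) * 1 := by
              rw [mul_one]
              exact ENNReal.ofReal_le_ofReal (bR_le_mu h hc)
          _ ≤ _ := by
              refine mul_le_mul_right ?_ _
              rw [← ENNReal.ofReal_one]
              refine ENNReal.ofReal_le_ofReal (Real.one_le_exp ?_)
              positivity
      · refine le_trans ?_ le_add_self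
        push Not at hng
        rw [Nat.cast_zero, add_zero] at hng
        have h3 := hbR n x c hc
        have h4 := pow_ng hθ0 hθ1 hT n _ hn hng
        rw [← hκ] at h4
        have hmu : 0 ≤ mu D q β c 0 n := (bR_nonneg h hc).trans (bR_le_mu h hc)
        have h5 := h3.trans (mul_le_mul_of_nonneg_right h4 hmu)
        unfold ex
        rw [← ENNReal.ofReal_mul (Real.exp_nonneg _), ← ENNReal.ofReal_mul (by positivity)]
        exact ENNReal.ofReal_le_ofReal h5
    have e2 := hfew M0 le_rfl 1 le_rfl le_rfl (n - 1) 0 x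
    rw [← hξdef] at e2
    have e3 := hint n x
    have e4 : ex (ξ + c0) ((n - 1 : ℕ) : ℝ) = ENNReal.ofReal (Real.exp (ξ + c0)) *
        ex (ξ + c0) n := by
      unfold ex
      rw [← ENNReal.ofReal_mul (Real.exp_nonneg _), ← Real.exp_add]
      congr 2
      rw [Nat.cast_sub hn, Nat.cast_one]
      ring
    have e5 : SB.nt ((0 : Tv D) - x) = SB.nt x := by rw [zero_sub, nt_neg']
    rw [e5, e4] at e2
    have e6 : ex κ n * ex ((1 - s) * ξ) n ≤ ex (ξ + κ / 2) n := by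
      rw [← ex_add_c]
      refine ex_anti_c ?_ (Nat.cast_nonneg n)
      nlinarith
    calc bC D q β n x ≤ _ := e1
      _ ≤ ENNReal.ofReal v * (ENNReal.ofReal C1 * (ENNReal.ofReal (Real.exp (ξ + c0)) *
            ex (ξ + c0) n) * ex c0 (SB.nt x)) +
          ENNReal.ofReal (Real.exp (-Real.log θ + κ)) * ex κ n *
            (ENNReal.ofReal C2 * ex ((1 - s) * ξ) n * ex c2 (SB.nt x)) :=
          add_le_add (mul_le_mul_right e2 _) (mul_le_mul_right e3 _)
      _ = A3 * ex (ξ + c0) n * ex c0 (SB.nt x) +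
          A4 * (ex κ n * ex ((1 - s) * ξ) n) * ex c2 (SB.nt x) := by
          rw [hA3, hA4]; ring
      _ ≤ _ := by
          refine add_le_add le_rfl ?_
          exact mul_le_mul_left (mul_le_mul_right e6 _) _
  -- summation
  have hexp : ∀ (c : ℝ), η ≤ c / 2 → ∀ x : Tv D,
      ex c (SB.nt x) * ENNReal.ofReal (Real.exp (η * SB.nt x)) ≤ ex (c / 2) (SB.nt x) := by
    intro c hc x
    unfold ex
    rw [← ENNReal.ofReal_mul (Real.exp_nonneg _), ← Real.exp_add]
    refine ENNReal.ofReal_le_ofReal (Real.exp_le_exp.2 ?_)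
    have hx : (0 : ℝ) ≤ (SB.nt x : ℝ) := Nat.cast_nonneg _
    have := mul_le_mul_of_nonneg_right hc hx
    linarith
  set S1 : ℝ≥0∞ := ∑' y : Tv D, ex (c0 / 2) (SB.nt y) with hS1
  set S2 : ℝ≥0∞ := ∑' y : Tv D, ex (c2 / 2) (SB.nt y) with hS2
  have hS1t : S1 ≠ ⊤ := tsum_ex_ne_top (by positivity)
  have hS2t : S2 ≠ ⊤ := tsum_ex_ne_top (by positivity)
  have hA3t : A3 ≠ ⊤ := ENNReal.mul_ne_top (ENNReal.mul_ne_top ENNReal.ofReal_ne_top
    ENNReal.ofReal_ne_top) ENNReal.ofReal_ne_top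
  have hA4t : A4 ≠ ⊤ := ENNReal.mul_ne_top ENNReal.ofReal_ne_top ENNReal.ofReal_ne_top
  have hKt : A3 * S1 + A4 * S2 ≠ ⊤ :=
    ENNReal.add_ne_top.2 ⟨ENNReal.mul_ne_top hA3t hS1t, ENNReal.mul_ne_top hA4t hS2t⟩
  refine ⟨η, (A3 * S1 + A4 * S2).toReal + 1, hη0', by positivity, fun n => ?_⟩
  rcases Nat.eq_zero_or_pos n with rfl | hn
  · have : ∀ x : Tv D, bC D q β 0 x * ENNReal.ofReal (Real.exp (η * SB.nt x)) = 0 := by
      intro x
      rw [bC_zero, zero_mul]
    rw [tsum_congr this, tsum_zero]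
    exact bot_le
  have hx : ∀ x : Tv D, bC D q β n x * ENNReal.ofReal (Real.exp (η * SB.nt x)) ≤
      (A3 * ex (c0 / 2) (SB.nt x) + A4 * ex (c2 / 2) (SB.nt x)) * ex (ξ + η) n := by
    intro x
    have h1 : ex (ξ + c0) n ≤ ex (ξ + η) n :=
      ex_anti_c (by linarith) (Nat.cast_nonneg n)
    have h2 : ex (ξ + κ / 2) n ≤ ex (ξ + η) n :=
      ex_anti_c (by linarith) (Nat.cast_nonneg n)
    calc bC D q β n x * ENNReal.ofReal (Real.exp (η * SB.nt x))
        ≤ (A3 * ex (ξ + c0) n * ex c0 (SB.nt x) + A4 * ex (ξ + κ / 2) n * ex c2 (SB.nt x)) *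
            ENNReal.ofReal (Real.exp (η * SB.nt x)) := mul_le_mul_left (main n hn x) _
      _ = A3 * (ex c0 (SB.nt x) * ENNReal.ofReal (Real.exp (η * SB.nt x))) * ex (ξ + c0) n +
          A4 * (ex c2 (SB.nt x) * ENNReal.ofReal (Real.exp (η * SB.nt x))) *
            ex (ξ + κ / 2) n := by ring
      _ ≤ A3 * ex (c0 / 2) (SB.nt x) * ex (ξ + η) n +
          A4 * ex (c2 / 2) (SB.nt x) * ex (ξ + η) n :=
          add_le_add (mul_le_mul' (mul_le_mul_right (hexp c0 hη1 x) _) h1)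
            (mul_le_mul' (mul_le_mul_right (hexp c2 hη3 x) _) h2)
      _ = _ := by ring
  calc ∑' x, bC D q β n x * ENNReal.ofReal (Real.exp (η * SB.nt x))
      ≤ ∑' x : Tv D, (A3 * ex (c0 / 2) (SB.nt x) + A4 * ex (c2 / 2) (SB.nt x)) *
          ex (ξ + η) n := ENNReal.tsum_le_tsum hx
    _ = (A3 * S1 + A4 * S2) * ex (ξ + η) n := by
        rw [ENNReal.tsum_mul_right, ENNReal.tsum_add, ENNReal.tsum_mul_left,
          ENNReal.tsum_mul_left]
    _ ≤ _ := by
        refine mul_le_mul_left ?_ _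
        rw [ENNReal.ofReal_add ENNReal.toReal_nonneg one_pos.le, ENNReal.ofReal_toReal hKt]
        exact le_self_add

end Pool.Agent.DL
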