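import Pool.Agent.DL.Rn3
import Pool.Agent.DL.Gs
import Pool.Agent.DL.ExK
import Pool.Agent.DL.Inf
import Pool.Agent.DL.Shi

/-!
# The homogeneous renewal: bounds of the weights of the clusters
-/

set_option autoImplicit false
set_option linter.unusedSectionVars false

namespace Pool.Agent.DL

open Finset
open scoped ENNReal

/-- The standing assumptions without defect. -/
theorem Rn4a.reg {D : ℕ} {q β : ℝ} (h : Bas D q β) : Reg D q β 1 :=
  { h with
    hJ := le_rfl
    xi := ⟨xiR D q β 1, xiR_one_pos h, fun J h1 h2 => by rw [le_antisymm h2 h1]⟩ }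

theorem Rn4a.succ (c : ℝ) (n : ℕ) :
    ex c (n : ℝ) = ENNReal.ofReal (Real.exp c) * ex c ((n + 1 : ℕ) : ℝ) := by
  unfold ex
  rw [← ENNReal.ofReal_mul (Real.exp_nonneg _), ← Real.exp_add]
  congr 2
  push_cast
  ring

theorem tC_le {D : ℕ} {q β : ℝ} (h : Bas D q β) : ∃ C c : ℝ, 0 < C ∧ 0 < c ∧
    ∀ (n : ℕ) (x : Tv D), tC D q β n x ≤ ENNReal.ofReal C * ex (xiR D q β 1) n ∧
      tC D q β n x ≤ ENNReal.ofReal C * ex c n * ex c (SB.nt x) := by
  obtain ⟨C, c, hC, hc, hG⟩ := GN_le (Rn4a.reg h)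
  have hv : 0 < (Real.exp β - 1) / q :=
    div_pos (by linarith [Real.add_one_lt_exp h.hβ.ne', h.hβ]) (by linarith [h.hq])
  set v := (Real.exp β - 1) / q with hvdef
  set ξ := xiR D q β 1 with hξ
  refine ⟨max (v * Real.exp ξ) (v * C * Real.exp c), c, lt_max_of_lt_left (by positivity), hc, ?_⟩
  intro n x
  cases n with
  | zero =>
    rw [tC_zero]
    exact ⟨bot_le, bot_le⟩
  | succ n =>
    obtain ⟨h1, h2⟩ := hG 1 le_rfl le_rfl n 0 x
    rw [tC_eq h, ← hvdef]
    constructor
    · calc ENNReal.ofReal v * TN D q β 1 n 0 x ≤ ENNReal.ofReal v * ex ξ n :=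
            mul_le_mul_right ((TN_le_GN n 0 x).trans h1) _
        _ = ENNReal.ofReal (v * Real.exp ξ) * ex ξ ((n + 1 : ℕ) : ℝ) := by
            rw [Rn4a.succ, ENNReal.ofReal_mul hv.le, mul_assoc]
        _ ≤ _ := mul_le_mul_left (ENNReal.ofReal_le_ofReal (le_max_left _ _)) _
    · calc ENNReal.ofReal v * TN D q β 1 n 0 x
          ≤ ENNReal.ofReal v * (ENNReal.ofReal C * ex c n * ex c (SB.nt (0 - x))) :=
            mul_le_mul_right ((TN_le_GN n 0 x).trans h2) _
        _ = ENNReal.ofReal (v * C * Real.exp c) * ex c ((n + 1 : ℕ) : ℝ) * ex c (SB.nt x) := by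
            rw [Rn4a.succ, ENNReal.ofReal_mul (by positivity), ENNReal.ofReal_mul hv.le, zero_sub,
              nt_neg']
            ring
        _ ≤ _ := mul_le_mul_left (mul_le_mul_left
            (ENNReal.ofReal_le_ofReal (le_max_right _ _)) _) _

theorem tC_neg {D : ℕ} {q β : ℝ} (h : Bas D q β) (n : ℕ) (x : Tv D) :
    tC D q β n (-x) = tC D q β n x := by
  cases n with
  | zero => rw [tC_zero, tC_zero]
  | succ n =>
    rw [tC_eq h, tC_eq h]
    have h1 := TN_neg (q := q) (β := β) (J := 1) n 0 x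
    rw [neg_zero] at h1
    rw [h1]

/-- Interpolation between the two bounds. -/
theorem Rn4a.interp {D : ℕ} {q β C c ξ θ : ℝ} (hC : 0 < C) (h0 : 0 ≤ θ) (h1 : θ ≤ 1) (n : ℕ)
    (x : Tv D) (ha : tC D q β n x ≤ ENNReal.ofReal C * ex ξ n)
    (hb : tC D q β n x ≤ ENNReal.ofReal C * ex c n * ex c (SB.nt x)) (hc : 0 ≤ c) :
    tC D q β n x ≤ ENNReal.ofReal C * ex ((1 - θ) * ξ) n * ex (θ * c) (SB.nt x) := by
  set t := tC D q β n x with ht
  have h2 : t = t ^ (1 - θ) * t ^ θ := by
    rw [← ENNReal.rpow_add_of_nonneg _ _ (by linarith) h0, sub_add_cancel, ENNReal.rpow_one]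
  have h3 : t ^ (1 - θ) ≤ ENNReal.ofReal (C ^ (1 - θ) * Real.exp (-((1 - θ) * ξ * n))) := by
    refine (ENNReal.rpow_le_rpow ha (by linarith)).trans (le_of_eq ?_)
    unfold ex
    rw [← ENNReal.ofReal_mul hC.le, ENNReal.ofReal_rpow_of_nonneg (by positivity) (by linarith),
      Real.mul_rpow hC.le (Real.exp_nonneg _), ← Real.exp_mul]
    congr 3
    ring
  have h4 : t ^ θ ≤ ENNReal.ofReal (C ^ θ * Real.exp (-(θ * c * SB.nt x))) := by
    have h5 : t ≤ ENNReal.ofReal (C * Real.exp (-(c * SB.nt x))) := by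
      refine hb.trans ?_
      rw [ENNReal.ofReal_mul hC.le]
      refine mul_le_mul_left ?_ _
      calc ENNReal.ofReal C * ex c n ≤ ENNReal.ofReal C * 1 :=
            mul_le_mul_right (ex_le_one hc (Nat.cast_nonneg n)) _
        _ = _ := mul_one _
    refine (ENNReal.rpow_le_rpow h5 h0).trans (le_of_eq ?_)
    rw [ENNReal.ofReal_rpow_of_nonneg (by positivity) h0,
      Real.mul_rpow hC.le (Real.exp_nonneg _), ← Real.exp_mul]
    congr 3
    ring
  rw [h2]
  refine (mul_le_mul' h3 h4).trans (le_of_eq ?_)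
  unfold ex
  rw [← ENNReal.ofReal_mul (by positivity), ← ENNReal.ofReal_mul hC.le,
    ← ENNReal.ofReal_mul (by positivity)]
  congr 1
  have h5 : C ^ (1 - θ) * C ^ θ = C := by
    rw [← Real.rpow_add hC, sub_add_cancel, Real.rpow_one]
  calc C ^ (1 - θ) * Real.exp (-((1 - θ) * ξ * n)) * (C ^ θ * Real.exp (-(θ * c * SB.nt x)))
      = (C ^ (1 - θ) * C ^ θ) * Real.exp (-((1 - θ) * ξ * n)) * Real.exp (-(θ * c * SB.nt x)) := by
        ring
    _ = _ := by rw [h5]

theorem tC_fin {D : ℕ} {q β : ℝ} (h : Bas D q β) (z : ℝ) (hz0 : 0 < z)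
    (hz : z < Real.exp (xiR D q β 1)) :
    ∑' n : ℕ, ∑' x, ENNReal.ofReal z ^ n * tC D q β n x ≠ ⊤ := by
  obtain ⟨C, c, hC, hc, hb⟩ := tC_le h
  set ξ := xiR D q β 1 with hξ
  have hξ0 : 0 < ξ := xiR_one_pos h
  have hlog : Real.log z < ξ := by rwa [Real.log_lt_iff_lt_exp hz0]
  obtain ⟨θ, hθ0, hθ1, hθ⟩ : ∃ θ : ℝ, 0 < θ ∧ θ < 1 ∧ Real.log z < (1 - θ) * ξ := by
    rcases le_or_gt 0 (Real.log z) with h0 | h0
    · refine ⟨(1 - Real.log z / ξ) / 2, ?_, ?_, ?_⟩
      · have : Real.log z / ξ < 1 := by rwa [div_lt_one hξ0]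
        linarith
      · have : 0 ≤ Real.log z / ξ := by positivity
        linarith
      · have h1 : (1 - (1 - Real.log z / ξ) / 2) * ξ = (ξ + Real.log z) / 2 := by
          field_simp
          ring
        rw [h1]
        linarith
    · exact ⟨1 / 2, by norm_num, by norm_num, by linarith⟩
  have h1 : ∀ n : ℕ, ∀ x : Tv D, ENNReal.ofReal z ^ n * tC D q β n x ≤
      ENNReal.ofReal (z * Real.exp (-((1 - θ) * ξ))) ^ n *
        (ENNReal.ofReal C * ex (θ * c) (SB.nt x)) := by
    intro n x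
    have h2 := Rn4a.interp (ξ := ξ) hC hθ0.le hθ1.le n x (hb n x).1 (hb n x).2 hc.le
    refine (mul_le_mul_right h2 _).trans (le_of_eq ?_)
    have h3 : ex ((1 - θ) * ξ) n = ENNReal.ofReal (Real.exp (-((1 - θ) * ξ))) ^ n := by
      unfold ex
      rw [← ENNReal.ofReal_pow (Real.exp_nonneg _), ← Real.exp_nat_mul]
      congr 2
      ring
    rw [h3, ENNReal.ofReal_mul hz0.le, mul_pow]
    ring
  refine ne_top_of_le_ne_top ?_ (ENNReal.tsum_le_tsum fun n => ENNReal.tsum_le_tsum fun x => h1 n x)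
  simp only [ENNReal.tsum_mul_left]
  rw [ENNReal.tsum_mul_right]
  refine ENNReal.mul_ne_top ?_ (ENNReal.mul_ne_top ENNReal.ofReal_ne_top
    (tsum_ex_ne_top (mul_pos hθ0 hc)))
  rw [ENNReal.tsum_geometric]
  refine ENNReal.inv_ne_top.2 (tsub_pos_iff_lt.2 ?_).ne'
  rw [ENNReal.ofReal_lt_one]
  have h2 : z = Real.exp (Real.log z) := (Real.exp_log hz0).symm
  rw [h2, ← Real.exp_add, Real.exp_lt_one_iff]
  linarith

theorem bC_low {D : ℕ} {q β : ℝ} (h : Bas D q β) : ∃ c0 : ℝ, 0 < c0 ∧ ∀ i : Fin D,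
    ENNReal.ofReal c0 ≤ bC D q β 1 (Pi.single i 1) := by
  have hq0 : 0 < q := by linarith [h.hq]
  have hv0 : 0 < Real.exp β - 1 := by linarith [Real.add_one_lt_exp h.hβ.ne', h.hβ]
  refine ⟨(Real.exp β - 1) / q * ((Real.exp β - 1) * q⁻¹ *
    (Real.exp (β * 1) ^ (2 * (D + 1) * 2))⁻¹), by positivity, ?_⟩
  intro i
  set e : Edge D := (((0, 0) : Site D), some i) with he
  set c : Pr D := ({((0, 0) : Site D), ((0, Pi.single i 1) : Site D)}, {e}) with hc
  have hse : (lat D).s e = ((0, 0) : Site D) := rfl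
  have hte : (lat D).t e = ((0, Pi.single i 1) : Site D) := by
    change ((0, 0) : Site D) + (0, Pi.single i 1) = _
    rw [Prod.mk_add_mk, add_zero, zero_add]
  have hne : ((0, 0) : Site D) ≠ ((0, Pi.single i 1) : Site D) := by
    intro h1
    have h2 := congrFun (congrArg Prod.snd h1) i
    simp at h2
  have hcl : (lat D).IsCl c.1 c.2 := by
    have hr : (lat D).Rch c.2 (0, 0) (0, Pi.single i 1) :=
      Relation.ReflTransGen.single ⟨e, Finset.mem_singleton_self e, Or.inl ⟨hse, hte⟩⟩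
    have hr' : (lat D).Rch c.2 (0, Pi.single i 1) (0, 0) :=
      Relation.ReflTransGen.single ⟨e, Finset.mem_singleton_self e, Or.inr ⟨hse, hte⟩⟩
    refine ⟨⟨(0, 0), by simp [hc]⟩, ?_, ?_⟩
    · intro e' he'
      rw [Finset.mem_singleton.1 he', hse, hte]
      simp [hc]
    · intro x hx y hy
      rw [hc] at hx hy
      simp only [Finset.mem_insert, Finset.mem_singleton] at hx hy
      rcases hx with rfl | rfl <;> rcases hy with rfl | rfl
      · exact Relation.ReflTransGen.refl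
      · exact hr
      · exact hr'
      · exact Relation.ReflTransGen.refl
  have hCf : Cf 1 (Pi.single i 1) c := by
    refine ⟨hcl, by simp [hc], by simp [hc], ?_, ?_⟩
    · intro x hx
      rw [hc] at hx
      simp only [Finset.mem_insert, Finset.mem_singleton] at hx
      rcases hx with rfl | rfl <;> simp
    · intro x hx
      rw [hc] at hx
      simp only [Finset.mem_insert, Finset.mem_singleton] at hx
      rcases hx with rfl | rfl <;> simp
  have hbt : bt c 0 1 = c := by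
    unfold bt
    refine Prod.ext ?_ ?_
    · refine Finset.filter_true_of_mem fun x hx => ?_
      rw [hc] at hx
      simp only [Finset.mem_insert, Finset.mem_singleton] at hx
      rcases hx with rfl | rfl <;> simp
    · refine Finset.filter_true_of_mem fun e' he' => ?_
      rw [Finset.mem_singleton.1 he', hse, hte]
      simp
  have hbR : bR D q β c 1 = mu D q β c 0 1 := by
    unfold bR
    rw [BT_def]
    have h1 : (range 1).filter (fun k => k ∈ cp c 1 ∧ 0 < k) = ∅ := by
      refine Finset.filter_false_of_mem fun k hk h2 => ?_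
      have := Finset.mem_range.1 hk
      omega
    rw [h1, Finset.sum_empty, sub_zero]
  have hmu : (Real.exp β - 1) / q * ((Real.exp β - 1) * q⁻¹ *
      (Real.exp (β * 1) ^ (2 * (D + 1) * 2))⁻¹) ≤ mu D q β c 0 1 := by
    unfold mu
    rw [if_neg zero_ne_one, hbt]
    refine mul_le_mul_of_nonneg_left ?_ (by positivity)
    have hW : WW D q β 1 c.1 c.2 = (Real.exp β - 1) * q⁻¹ := by
      unfold WW Gr.cw
      have h1 : c.1.card = 2 := Finset.card_pair hne
      rw [h1, show c.2 = {e} from rfl, Finset.prod_singleton]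
      have h2 : vJ β 1 e = Real.exp β - 1 := by
        unfold vJ
        split_ifs
        · rw [mul_one]
        · rfl
      rw [h2]
      norm_num
    rw [hW]
    refine mul_le_mul_of_nonneg_left ?_ (by positivity)
    have h3 := ZI_ge (J := 1) (Jm := 1) h zero_le_one le_rfl le_rfl c.1
    have h1 : c.1.card = 2 := Finset.card_pair hne
    rw [h1] at h3
    exact h3
  unfold bC
  refine le_trans ?_ (ENNReal.le_tsum c)
  have h1 : ii (Cf 1 (Pi.single i 1) c) = 1 := if_pos hCf
  rw [h1, one_mul, hbR]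
  exact ENNReal.ofReal_le_ofReal hmu

end Pool.Agent.DL
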