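import Pool.Agent.DL.FKA
import Pool.Agent.DL.MGDefs

/-!
# The surgery at a thin height: the new cluster is connected
-/

set_option autoImplicit false
set_option linter.unusedSectionVars false

namespace Pool.Agent.DL

open Finset

variable {D : ℕ}

theorem mem_edg {Λ : Finset (Site D)} {e : Edge D} :
    e ∈ edg Λ ↔ (lat D).s e ∈ Λ ∧ (lat D).t e ∈ Λ := by
  simp [edg, lat]

theorem mem_newp {r R : ℕ} {m : ℤ} {p : Fin D → ℤ} {u : Site D} :
    u ∈ newp r R m p ↔ ((m - r ≤ u.1 ∧ u.1 ≤ m + r) ∧ u.2 = p) ∨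
      ((u.1 = m - r - 1 ∨ u.1 = m + r + 1) ∧ ∀ i, |u.2 i - p i| ≤ R) := by
  obtain ⟨a, b⟩ := u
  simp only [newp, mem_union, mem_image, mem_Icc, mem_product, mem_insert, mem_singleton,
    Prod.mk.injEq]
  constructor
  · rintro (⟨l, hl, h1, h2⟩ | ⟨h1, h2, h3⟩)
    · subst h1
      exact Or.inl ⟨hl, h2.symm⟩
    · refine Or.inr ⟨h1, fun i => ?_⟩
      have := h2 i
      have := h3 i
      rw [abs_le]
      constructor <;> simp only [] at * <;> omega
  · rintro (⟨h1, h2⟩ | ⟨h1, h2⟩)
    · exact Or.inl ⟨a, h1, rfl, h2.symm⟩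
    · refine Or.inr ⟨h1, fun i => ?_, fun i => ?_⟩
      · have := abs_le.1 (h2 i)
        show p i - (R : ℤ) ≤ b i
        omega
      · have := abs_le.1 (h2 i)
        show b i ≤ p i + (R : ℤ)
        omega

/-- A vertical step. -/
theorem step_up {Λ : Finset (Site D)} {l : ℤ} {p : Fin D → ℤ} (h1 : (l, p) ∈ Λ)
    (h2 : (l + 1, p) ∈ Λ) : (lat D).Rch (edg Λ) (l, p) (l + 1, p) := by
  refine Relation.ReflTransGen.single ⟨((l, p), none), ?_, Or.inl ⟨rfl, ?_⟩⟩
  · rw [mem_edg]
    refine ⟨h1, ?_⟩
    have : (lat D).t (((l, p), none) : Edge D) = (l + 1, p) := by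
      simp [lat, SB.dir]
    rw [this]
    exact h2
  · simp [lat, SB.dir]

/-- A vertical segment. -/
theorem seg_rch {Λ : Finset (Site D)} {a : ℤ} {p : Fin D → ℤ} (k : ℕ)
    (h : ∀ j : ℕ, j ≤ k → (a + j, p) ∈ Λ) : (lat D).Rch (edg Λ) (a, p) (a + k, p) := by
  induction k with
  | zero =>
    rw [Nat.cast_zero, add_zero]
    exact (lat D).rch_refl _ _
  | succ k ih =>
    have h1 := ih fun j hj => h j (by omega)
    have h2 := h k (by omega)
    have h3 := h (k + 1) le_rfl
    have e : a + ((k + 1 : ℕ) : ℤ) = a + k + 1 := by push_cast; ring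
    rw [e] at h3 ⊢
    exact h1.trans (step_up h2 h3)

/-- A box at a fixed height is connected. -/
theorem box_rch {Λ : Finset (Site D)} {a : ℤ} {p : Fin D → ℤ} {R : ℕ}
    (h : ∀ b : Fin D → ℤ, (∀ i, |b i - p i| ≤ R) → (a, b) ∈ Λ) :
    ∀ (n : ℕ) (b : Fin D → ℤ), (∑ i, (b i - p i).natAbs) = n → (∀ i, |b i - p i| ≤ R) →
      (lat D).Rch (edg Λ) (a, b) (a, p) := by
  intro n
  induction n with
  | zero =>
    intro b hb _
    have : b = p := by
      funext i
      have := (sum_eq_zero_iff.1 hb) i (mem_univ i)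
      omega
    rw [this]
    exact Relation.ReflTransGen.refl
  | succ n ih =>
    intro b hb hR
    obtain ⟨i, -, hi⟩ : ∃ i ∈ (univ : Finset (Fin D)), (b i - p i).natAbs ≠ 0 := by
      by_contra hc
      push Not at hc
      rw [sum_eq_zero hc] at hb
      omega
    -- move the coordinate `i` towards `p i`
    set c : ℤ := if b i < p i then 1 else -1 with hcdef
    set b' : Fin D → ℤ := b + Pi.single i c with hb'
    have hb'i : b' i = b i + c := by simp [hb']
    have hb'j : ∀ j, j ≠ i → b' j = b j := by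
      intro j hj
      simp [hb', Pi.single_eq_of_ne hj]
    have hR' : ∀ j, |b' j - p j| ≤ R := by
      intro j
      by_cases hj : j = i
      · subst hj
        have := abs_le.1 (hR j)
        rw [hb'i, abs_le, hcdef]
        split_ifs with hlt <;> constructor <;> omega
      · rw [hb'j j hj]
        exact hR j
    have hsum : (∑ j, (b' j - p j).natAbs) = n := by
      have e1 := Finset.add_sum_erase univ (fun j => (b j - p j).natAbs) (mem_univ i)
      have e2 := Finset.add_sum_erase univ (fun j => (b' j - p j).natAbs) (mem_univ i)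
      have e3 : ∑ j ∈ univ.erase i, (b' j - p j).natAbs =
          ∑ j ∈ univ.erase i, (b j - p j).natAbs := by
        refine sum_congr rfl fun j hj => ?_
        rw [hb'j j (ne_of_mem_erase hj)]
      have e4 : (b' i - p i).natAbs + 1 = (b i - p i).natAbs := by
        rw [hb'i, hcdef]
        split_ifs with hlt <;> omega
      have e1' : (b i - p i).natAbs + ∑ j ∈ univ.erase i, (b j - p j).natAbs =
          ∑ j, (b j - p j).natAbs := e1
      have e2' : (b' i - p i).natAbs + ∑ j ∈ univ.erase i, (b' j - p j).natAbs =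
          ∑ j, (b' j - p j).natAbs := e2
      omega
    have hst : (lat D).Rch (edg Λ) (a, b) (a, b') := by
      have m1 := h b hR
      have m2 := h b' hR'
      by_cases hlt : b i < p i
      · refine Relation.ReflTransGen.single ⟨((a, b), some i), ?_, Or.inl ⟨rfl, ?_⟩⟩
        · rw [mem_edg]
          refine ⟨m1, ?_⟩
          have : (lat D).t (((a, b), some i) : Edge D) = (a, b') := by
            simp [lat, SB.dir, hb', hcdef, hlt]
          rw [this]
          exact m2
        · simp [lat, SB.dir, hb', hcdef, hlt]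
      · have e5 : (lat D).t (((a, b'), some i) : Edge D) = (a, b) := by
          simp only [lat, SB.dir, hb', hcdef, hlt, if_false, Prod.mk_add_mk, add_zero]
          congr 1
          funext j
          by_cases hj : j = i
          · subst hj
            simp
          · simp [Pi.single_eq_of_ne hj]
        refine Relation.ReflTransGen.single ⟨((a, b'), some i), ?_, Or.inr ⟨rfl, e5⟩⟩
        rw [mem_edg]
        refine ⟨m2, ?_⟩
        rw [e5]
        exact m1
    exact hst.trans (ih b' hsum hR')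

theorem newp_rch {r R : ℕ} {m : ℤ} {p : Fin D → ℤ} {u : Site D} (hu : u ∈ newp r R m p) :
    (lat D).Rch (edg (newp r R m p)) u (m, p) := by
  obtain ⟨a, b⟩ := u
  have key : ∀ l : ℤ, m - r - 1 ≤ l → l ≤ m + r + 1 → (l, p) ∈ newp r R m p := by
    intro l h1 h2
    rw [mem_newp]
    by_cases h3 : m - r ≤ l ∧ l ≤ m + r
    · exact Or.inl ⟨h3, rfl⟩
    · refine Or.inr ⟨?_, fun i => by simp⟩
      show l = m - r - 1 ∨ l = m + r + 1
      omega
  have vert : ∀ l : ℤ, m - r - 1 ≤ l → l ≤ m + r + 1 →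
      (lat D).Rch (edg (newp r R m p)) (l, p) (m, p) := by
    intro l h1 h2
    rcases le_total l m with h3 | h3
    · obtain ⟨k, hk⟩ := Int.eq_ofNat_of_zero_le (sub_nonneg.2 h3)
      have h4 := seg_rch (Λ := newp r R m p) (a := l) (p := p) k fun j hj => key _ (by omega)
        (by omega)
      have e : l + (k : ℤ) = m := by omega
      rwa [e] at h4
    · obtain ⟨k, hk⟩ := Int.eq_ofNat_of_zero_le (sub_nonneg.2 h3)
      have h4 := seg_rch (Λ := newp r R m p) (a := m) (p := p) k fun j hj => key _ (by omega)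
        (by omega)
      have e : m + (k : ℤ) = l := by omega
      rw [e] at h4
      exact (lat D).rch_symm h4
  rcases mem_newp.1 hu with ⟨h1, h2⟩ | ⟨h1, h2⟩
  · simp only at h1 h2
    subst h2
    exact vert a (by omega) (by omega)
  · simp only at h1 h2
    have hb : ∀ b' : Fin D → ℤ, (∀ i, |b' i - p i| ≤ R) → (a, b') ∈ newp r R m p := by
      intro b' hb'
      rw [mem_newp]
      exact Or.inr ⟨h1, hb'⟩
    exact (box_rch hb _ b rfl h2).trans (vert a (by omega) (by omega))

/-- Heights change at most by one. -/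
theorem step_height {ω : Finset (Edge D)} {u w : Site D} (h : (lat D).Step ω u w) :
    |u.1 - w.1| ≤ 1 := by
  obtain ⟨⟨z, o⟩, -, h⟩ := h
  have hz : ((lat D).t ((z, o) : Edge D)).1 - z.1 = 0 ∨
      ((lat D).t ((z, o) : Edge D)).1 - z.1 = 1 := by
    cases o with
    | none => right; simp [lat, SB.dir]
    | some i => left; simp [lat, SB.dir]
  rcases h with ⟨h1, h2⟩ | ⟨h1, h2⟩
  · have h1' : z = u := h1
    rw [h2, h1'] at hz
    rw [abs_le]
    constructor <;> omega
  · have h1' : z = w := h1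
    rw [h2, h1'] at hz
    rw [abs_le]
    constructor <;> omega

/-- A path from below the height `c` to a height `≥ c` starts with a path below `c` which ends
at the height `c - 1`. -/
theorem rch_low {E : Finset (Edge D)} {c : ℤ} {u y : Site D} (h : (lat D).Rch E u y)
    (hu : u.1 < c) (hy : c ≤ y.1) : ∃ w : Site D, w.1 = c - 1 ∧
      (lat D).Rch (E.filter fun e => ((lat D).s e).1 < c ∧ ((lat D).t e).1 < c) u w := by
  induction h using Relation.ReflTransGen.head_induction_on with
  | refl => omega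
  | @head a b hst hrest ih =>
    by_cases hb : b.1 < c
    · obtain ⟨w, hw, hr⟩ := ih hb
      refine ⟨w, hw, Relation.ReflTransGen.head ?_ hr⟩
      obtain ⟨e, he, h1⟩ := hst
      refine ⟨e, mem_filter.2 ⟨he, ?_⟩, h1⟩
      rcases h1 with ⟨h2, h3⟩ | ⟨h2, h3⟩
      · rw [h2, h3]
        exact ⟨hu, hb⟩
      · rw [h2, h3]
        exact ⟨hb, hu⟩
    · have := abs_le.1 (step_height hst)
      exact ⟨a, by omega, (lat D).rch_refl _ _⟩

/-- The same from above. -/
theorem rch_high {E : Finset (Edge D)} {c : ℤ} {u x : Site D} (h : (lat D).Rch E u x)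
    (hu : c < u.1) (hx : x.1 ≤ c) : ∃ w : Site D, w.1 = c + 1 ∧
      (lat D).Rch (E.filter fun e => c < ((lat D).s e).1 ∧ c < ((lat D).t e).1) u w := by
  induction h using Relation.ReflTransGen.head_induction_on with
  | refl => omega
  | @head a b hst hrest ih =>
    by_cases hb : c < b.1
    · obtain ⟨w, hw, hr⟩ := ih hb
      refine ⟨w, hw, Relation.ReflTransGen.head ?_ hr⟩
      obtain ⟨e, he, h1⟩ := hst
      refine ⟨e, mem_filter.2 ⟨he, ?_⟩, h1⟩
      rcases h1 with ⟨h2, h3⟩ | ⟨h2, h3⟩
      · rw [h2, h3]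
        exact ⟨hu, hb⟩
      · rw [h2, h3]
        exact ⟨hb, hu⟩
    · have := abs_le.1 (step_height hst)
      exact ⟨a, by omega, (lat D).rch_refl _ _⟩

theorem rch_mem_of {A : Finset (Site D)} {E : Finset (Edge D)}
    (hE : ∀ e ∈ E, (lat D).s e ∈ A ∧ (lat D).t e ∈ A) {u w : Site D} (hu : u ∈ A)
    (h : (lat D).Rch E u w) : w ∈ A := by
  induction h with
  | refl => exact hu
  | tail _ hst _ =>
    obtain ⟨e, he, h1 | h1⟩ := hst
    · rw [← h1.2]
      exact (hE e he).2
    · rw [← h1.1]
      exact (hE e he).1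

theorem isCl_srg {A : Finset (Site D)} {E : Finset (Edge D)} {n m : ℤ} {x y : Site D} {r R : ℕ}
    {p : Fin D → ℤ} (h : (lat D).IsCl A E) (ha : Adm n x y A) (hm : (r : ℤ) + 1 < m)
    (hm' : m + r + 1 < n) (ht : Thin r R A m) (hp : (m, p) ∈ A) :
    (lat D).IsCl (srgA r R m p A) (srgE r R m p E) ∧ Adm n x y (srgA r R m p A) := by
  obtain ⟨hne, hE, hconn⟩ := h
  obtain ⟨hx, hy, hx0, hyn, hA⟩ := ha
  have hr0 : (0 : ℤ) ≤ r := Int.natCast_nonneg r
  -- membership of the new set
  have hmem : ∀ u, u ∈ srgA r R m p A ↔ (u ∈ A ∧ (r : ℤ) < |u.1 - m|) ∨ u ∈ newp r R m p := by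
    intro u
    simp [srgA]
  have hmp : (m, p) ∈ newp r R m p := mem_newp.2 (Or.inl ⟨⟨by simp, by simp⟩, rfl⟩)
  have hsubN : edg (newp r R m p) ⊆ srgE r R m p E := subset_union_right
  -- points of `A` at the distance `r + 1` are in the boxes
  have hbox : ∀ w ∈ A, (w.1 = m - r - 1 ∨ w.1 = m + r + 1) → w ∈ newp r R m p := by
    intro w hw hw1
    refine mem_newp.2 (Or.inr ⟨hw1, fun i => ?_⟩)
    have h1 : |w.1 - m| ≤ r + 1 := by
      rw [abs_le]
      constructor <;> omega
    have h2 : |((m, p) : Site D).1 - m| ≤ r + 1 := by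
      simp only [sub_self, abs_zero]
      omega
    exact ht.2 w hw (m, p) hp h1 h2 i
  -- every point is connected to `(m, p)`
  have hto : ∀ u ∈ srgA r R m p A, (lat D).Rch (srgE r R m p E) u (m, p) := by
    intro u hu
    have hN : ∀ w ∈ newp r R m p, (lat D).Rch (srgE r R m p E) w (m, p) := fun w hw =>
      (lat D).rch_mono hsubN (newp_rch hw)
    rcases (hmem u).1 hu with ⟨huA, hur⟩ | hu
    · rcases lt_or_ge u.1 m with hlt | hge
      · rw [abs_of_neg (by omega)] at hur
        obtain ⟨w, hw, hr⟩ := rch_low (c := m - r) (hconn u huA y hy) (by omega) (by omega)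
        have hwA : w ∈ A := by
          refine rch_mem_of (fun e he => hE e (mem_filter.1 he).1) huA hr
        have hw2 : w ∈ newp r R m p := hbox w hwA (Or.inl hw)
        refine ((lat D).rch_mono ?_ hr).trans (hN w hw2)
        intro e he
        obtain ⟨he1, he2, he3⟩ := mem_filter.1 he
        refine mem_union_left _ (mem_filter.2 ⟨he1, ?_, ?_⟩)
        · rw [abs_of_neg (by omega)]
          omega
        · rw [abs_of_neg (by omega)]
          omega
      · rw [abs_of_nonneg (by omega)] at hur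
        obtain ⟨w, hw, hr⟩ := rch_high (c := m + r) (hconn u huA x hx) (by omega) (by omega)
        have hwA : w ∈ A := by
          refine rch_mem_of (fun e he => hE e (mem_filter.1 he).1) huA hr
        have hw2 : w ∈ newp r R m p := hbox w hwA (Or.inr hw)
        refine ((lat D).rch_mono ?_ hr).trans (hN w hw2)
        intro e he
        obtain ⟨he1, he2, he3⟩ := mem_filter.1 he
        refine mem_union_left _ (mem_filter.2 ⟨he1, ?_, ?_⟩)
        · rw [abs_of_nonneg (by omega)]
          omega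
        · rw [abs_of_nonneg (by omega)]
          omega
    · exact hN u hu
  refine ⟨⟨⟨(m, p), (hmem _).2 (Or.inr hmp)⟩, ?_, ?_⟩, ?_, ?_, hx0, hyn, ?_⟩
  · intro e he
    rcases mem_union.1 he with he | he
    · obtain ⟨he1, he2, he3⟩ := mem_filter.1 he
      exact ⟨(hmem _).2 (Or.inl ⟨(hE e he1).1, he2⟩), (hmem _).2 (Or.inl ⟨(hE e he1).2, he3⟩)⟩
    · rw [mem_edg] at he
      exact ⟨(hmem _).2 (Or.inr he.1), (hmem _).2 (Or.inr he.2)⟩
  · intro u hu w hw
    exact (hto u hu).trans ((lat D).rch_symm (hto w hw))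
  · refine (hmem _).2 (Or.inl ⟨hx, ?_⟩)
    rw [hx0, abs_of_neg (by omega)]
    omega
  · refine (hmem _).2 (Or.inl ⟨hy, ?_⟩)
    rw [hyn, abs_of_nonneg (by omega)]
    omega
  · intro u hu
    rcases (hmem u).1 hu with ⟨huA, -⟩ | hu
    · exact hA u huA
    · rcases mem_newp.1 hu with ⟨⟨h1, h2⟩, -⟩ | ⟨h1 | h1, -⟩ <;> constructor <;> omega

end Pool.Agent.DL
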