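import Pool.Agent.DL.FKC
import Pool.Agent.DL.MGDefs

/-!
# The weight of a cluster and the weight of its surgery
-/

set_option autoImplicit false
set_option linter.unusedSectionVars false

namespace Pool.Agent.DL

open Finset

section SRB

variable {D : ℕ}

/-- A number larger than the number of new points. -/
def srbN (D r R : ℕ) : ℕ := (2 * r + 1) + 2 * (2 * R + 1) ^ D

theorem srb_card_newp (r R : ℕ) (m : ℤ) (p : Fin D → ℤ) :
    (newp r R m p).card ≤ srbN D r R := by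
  unfold newp srbN
  refine (Finset.card_union_le _ _).trans (Nat.add_le_add ?_ ?_)
  · refine Finset.card_image_le.trans ?_
    rw [Int.card_Icc]
    omega
  · rw [Finset.card_product, Pi.card_Icc]
    have h2 : ∀ i : Fin D, (Finset.Icc (p i - (R : ℤ)) (p i + (R : ℤ))).card = 2 * R + 1 := by
      intro i
      rw [Int.card_Icc]
      omega
    rw [Finset.prod_congr rfl fun i _ => h2 i, Finset.prod_const, Finset.card_univ,
      Fintype.card_fin]
    exact Nat.mul_le_mul_right _ Finset.card_le_two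

theorem srb_card_edg (Λ : Finset (Site D)) : (edg Λ).card ≤ Λ.card * (D + 1) := by
  unfold edg
  refine (Finset.card_filter_le _ _).trans ?_
  rw [Finset.card_product, Finset.card_univ, Fintype.card_option, Fintype.card_fin]

theorem srb_card_tch (B : Finset (Site D)) (Ed : Finset (Edge D)) :
    ((lat D).tch B Ed).card ≤ B.card * (D + 1) + B.card * (D + 1) := by
  have h1 : (lat D).tch B Ed ⊆ (B ×ˢ (Finset.univ : Finset (Option (Fin D)))) ∪
      (B ×ˢ (Finset.univ : Finset (Option (Fin D)))).image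
        (fun e => (e.1 - SB.dir (e.2, true), e.2)) := by
    intro e he
    rw [Gr.mem_tch] at he
    rw [Finset.mem_union, Finset.mem_product, Finset.mem_image]
    rcases he.2 with h | h
    · exact Or.inl ⟨h, Finset.mem_univ _⟩
    · refine Or.inr ⟨((lat D).t e, e.2), Finset.mem_product.2 ⟨h, Finset.mem_univ _⟩, ?_⟩
      exact Prod.ext (add_sub_cancel_right _ _) rfl
  have h2 : (B ×ˢ (Finset.univ : Finset (Option (Fin D)))).card = B.card * (D + 1) := by
    rw [Finset.card_product, Finset.card_univ, Fintype.card_option, Fintype.card_fin]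
  refine (Finset.card_le_card h1).trans ((Finset.card_union_le _ _).trans ?_)
  exact Nat.add_le_add h2.le (Finset.card_image_le.trans h2.le)

theorem srb_dir_fst (k : Option (Fin D)) : 0 ≤ (SB.dir (D := D) (k, true)).1 ∧
    (SB.dir (D := D) (k, true)).1 ≤ 1 := by
  cases k with
  | none => exact ⟨zero_le_one, le_refl _⟩
  | some i => exact ⟨le_refl _, zero_le_one⟩

/-- The near edges. -/
theorem srb_card_near {r R : ℕ} {m : ℤ} {A : Finset (Site D)} {E : Finset (Edge D)}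
    (hc : (lat D).IsCl A E) (ht : Thin r R A m) :
    (E.filter fun e => ¬ ((r : ℤ) < |((lat D).s e).1 - m| ∧ (r : ℤ) < |((lat D).t e).1 - m|)).card
      ≤ R * (D + 1) := by
  have h1 : (E.filter fun e => ¬ ((r : ℤ) < |((lat D).s e).1 - m| ∧
      (r : ℤ) < |((lat D).t e).1 - m|)) ⊆
      (A.filter fun u => |u.1 - m| ≤ r + 1) ×ˢ (Finset.univ : Finset (Option (Fin D))) := by
    intro e he
    rw [Finset.mem_filter] at he
    rw [Finset.mem_product, Finset.mem_filter]
    refine ⟨⟨(hc.2.1 e he.1).1, ?_⟩, Finset.mem_univ _⟩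
    have hd := srb_dir_fst (D := D) e.2
    have ht1 : ((lat D).t e).1 = e.1.1 + (SB.dir (D := D) (e.2, true)).1 := rfl
    have hs1 : ((lat D).s e).1 = e.1.1 := rfl
    have h2 := he.2
    rw [hs1, ht1] at h2
    by_contra h3
    apply h2
    rw [not_le, lt_abs] at h3
    rw [lt_abs, lt_abs]
    omega
  refine (Finset.card_le_card h1).trans ?_
  rw [Finset.card_product, Finset.card_univ, Fintype.card_option, Fintype.card_fin]
  exact Nat.mul_le_mul_right _ ht.1

/-- The product over the old edges. -/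
theorem srb_prod (v : Edge D → ℝ) (v0 M μ : ℝ) (hμ0 : 0 < μ) (hμ1 : μ ≤ 1) (hμv : μ ≤ v0)
    (hM1 : 1 ≤ M) (hlo : ∀ e, v0 ≤ v e) (hhi : ∀ e, v e ≤ M) {r R : ℕ} {m : ℤ}
    (p : Fin D → ℤ) {A : Finset (Site D)} {E : Finset (Edge D)} (hc : (lat D).IsCl A E)
    (ht : Thin r R A m) :
    ∏ e ∈ E, v e ≤ M ^ (R * (D + 1)) * (μ⁻¹) ^ (srbN D r R * (D + 1)) *
      ∏ e ∈ srgE r R m p E, v e := by
  classical
  have hv : ∀ e, 0 < v e := fun e => lt_of_lt_of_le hμ0 (hμv.trans (hlo e))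
  set Fa := E.filter fun e => (r : ℤ) < |((lat D).s e).1 - m| ∧ (r : ℤ) < |((lat D).t e).1 - m|
    with hFa
  have h1 : ∏ e ∈ E, v e ≤ M ^ (R * (D + 1)) * ∏ e ∈ Fa, v e := by
    rw [← Finset.prod_filter_mul_prod_filter_not E
      (fun e => (r : ℤ) < |((lat D).s e).1 - m| ∧ (r : ℤ) < |((lat D).t e).1 - m|), mul_comm]
    refine mul_le_mul_of_nonneg_right ?_ (Finset.prod_nonneg fun e _ => (hv e).le)
    refine (Finset.prod_le_prod (fun e _ => (hv e).le) (fun e _ => hhi e)).trans ?_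
    rw [Finset.prod_const]
    exact pow_le_pow_right₀ hM1 (srb_card_near hc ht)
  have h2 : (∏ e ∈ Fa, v e) * μ ^ (srbN D r R * (D + 1)) ≤ ∏ e ∈ srgE r R m p E, v e := by
    have h3 : srgE r R m p E = Fa ∪ (edg (newp r R m p) \ Fa) := by
      rw [Finset.union_sdiff_self_eq_union]
      rfl
    rw [h3, Finset.prod_union Finset.disjoint_sdiff]
    refine mul_le_mul_of_nonneg_left ?_ (Finset.prod_nonneg fun e _ => (hv e).le)
    have h4 : μ ^ (edg (newp r R m p) \ Fa).card ≤ ∏ e ∈ edg (newp r R m p) \ Fa, v e := by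
      rw [← Finset.prod_const]
      exact Finset.prod_le_prod (fun _ _ => hμ0.le) (fun e _ => hμv.trans (hlo e))
    refine le_trans ?_ h4
    refine pow_le_pow_of_le_one hμ0.le hμ1 ?_
    refine (Finset.card_le_card Finset.sdiff_subset).trans ((srb_card_edg _).trans ?_)
    exact Nat.mul_le_mul_right _ (srb_card_newp r R m p)
  have h5 : ∏ e ∈ Fa, v e ≤ (μ⁻¹) ^ (srbN D r R * (D + 1)) * ∏ e ∈ srgE r R m p E, v e := by
    rw [inv_pow, inv_mul_eq_div, le_div_iff₀ (pow_pos hμ0 _)]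
    exact h2
  calc ∏ e ∈ E, v e ≤ M ^ (R * (D + 1)) * ∏ e ∈ Fa, v e := h1
    _ ≤ M ^ (R * (D + 1)) * ((μ⁻¹) ^ (srbN D r R * (D + 1)) * ∏ e ∈ srgE r R m p E, v e) :=
        mul_le_mul_of_nonneg_left h5 (pow_nonneg (zero_le_one.trans hM1) _)
    _ = _ := by ring

theorem srb_srgA_subset (r R : ℕ) (m : ℤ) (p : Fin D → ℤ) (A : Finset (Site D)) :
    srgA r R m p A ⊆ A ∪ newp r R m p := by
  unfold srgA
  exact Finset.union_subset_union (Finset.filter_subset _ _) (Finset.Subset.refl _)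

/-- The power of `q`. -/
theorem srb_pow {q : ℝ} (hq : 1 ≤ q) (r R : ℕ) (m : ℤ) (p : Fin D → ℤ) {A : Finset (Site D)}
    (hA : A.Nonempty) : (q⁻¹) ^ (A.card - 1) ≤
      q ^ srbN D r R * (q⁻¹) ^ ((srgA r R m p A).card - 1) := by
  have hq0 : 0 < q := lt_of_lt_of_le one_pos hq
  have h1 : (srgA r R m p A).card ≤ A.card + srbN D r R :=
    (Finset.card_le_card (srb_srgA_subset r R m p A)).trans
      ((Finset.card_union_le _ _).trans (Nat.add_le_add_left (srb_card_newp r R m p) _))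
  have h2 : 0 < A.card := Finset.card_pos.2 hA
  have h3 : (srgA r R m p A).card - 1 ≤ (A.card - 1) + srbN D r R := by omega
  have h4 : (q⁻¹) ^ ((A.card - 1) + srbN D r R) ≤ (q⁻¹) ^ ((srgA r R m p A).card - 1) :=
    pow_le_pow_of_le_one (inv_nonneg.2 hq0.le) (inv_le_one_of_one_le₀ hq) h3
  calc (q⁻¹) ^ (A.card - 1) = q ^ srbN D r R * (q⁻¹) ^ ((A.card - 1) + srbN D r R) := by
        rw [pow_add, inv_pow q (srbN D r R)]
        field_simp
    _ ≤ _ := mul_le_mul_of_nonneg_left h4 (pow_nonneg hq0.le _)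

/-- The probability that the boundary is closed. -/
theorem srb_ze {q : ℝ} (hq : 1 ≤ q) (v : Edge D → ℝ) {M : ℝ} (hM1 : 1 ≤ M)
    (hv : ∀ e, 0 ≤ v e) (hhi : ∀ e, v e ≤ M) (r R : ℕ) (m : ℤ) (p : Fin D → ℤ)
    (A : Finset (Site D)) (Ed : Finset (Edge D)) :
    (lat D).ze q v Ed A ≤ (1 + M) ^ (srbN D r R * (D + 1) + srbN D r R * (D + 1)) *
      (lat D).ze q v Ed (srgA r R m p A) := by
  have hq0 : 0 < q := lt_of_lt_of_le one_pos hq
  have h1 : (lat D).ze q v Ed (A ∪ newp r R m p) ≤ (lat D).ze q v Ed (srgA r R m p A) := by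
    unfold Gr.ze
    refine div_le_div_of_nonneg_right ?_ ((lat D).zz_pos q v hq0 hv _).le
    refine (lat D).zz_mono q v hq0 hv ?_
    intro e he
    rw [Gr.mem_del] at he ⊢
    exact ⟨he.1, fun h => he.2.1 (srb_srgA_subset r R m p A h),
      fun h => he.2.2 (srb_srgA_subset r R m p A h)⟩
  have h2 := (lat D).ze_union_eq q v hq0 hv Ed A (newp r R m p)
  have h3 := (lat D).ze_ge q v hq M hv hhi ((lat D).del A Ed) (newp r R m p)
  have hM0 : 0 < 1 + M := by linarith
  have h4 : (1 + M) ^ ((lat D).tch (newp r R m p) ((lat D).del A Ed)).card ≤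
      (1 + M) ^ (srbN D r R * (D + 1) + srbN D r R * (D + 1)) := by
    refine pow_le_pow_right₀ (by linarith) ((srb_card_tch _ _).trans ?_)
    exact Nat.add_le_add (Nat.mul_le_mul_right _ (srb_card_newp r R m p))
      (Nat.mul_le_mul_right _ (srb_card_newp r R m p))
  have h5 : ((1 + M) ^ (srbN D r R * (D + 1) + srbN D r R * (D + 1)))⁻¹ ≤
      (lat D).ze q v ((lat D).del A Ed) (newp r R m p) :=
    (inv_anti₀ (pow_pos hM0 _) h4).trans h3
  have h6 : (lat D).ze q v Ed A *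
      ((1 + M) ^ (srbN D r R * (D + 1) + srbN D r R * (D + 1)))⁻¹ ≤
      (lat D).ze q v Ed (srgA r R m p A) := by
    refine le_trans ?_ h1
    rw [h2]
    exact mul_le_mul_of_nonneg_left h5 ((lat D).ze_pos q v hq0 hv _ _).le
  rw [← div_eq_mul_inv, div_le_iff₀ (pow_pos hM0 _)] at h6
  linarith

end SRB

theorem srg_weight (D : ℕ) (q v0 vm : ℝ) (hq : 1 ≤ q) (hv0 : 0 < v0) (r R : ℕ) :
    ∃ C : ℝ, 0 < C ∧ ∀ v : Edge D → ℝ, (∀ e, v0 ≤ v e) → (∀ e, v e ≤ vm) →
      ∀ (Ed : Finset (Edge D)) (A : Finset (Site D)) (E : Finset (Edge D)) (m : ℤ)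
        (p : Fin D → ℤ), (lat D).IsCl A E → Thin r R A m → (m, p) ∈ A →
        Gr.cw q v A E * (lat D).ze q v Ed A ≤
          C * (Gr.cw q v (srgA r R m p A) (srgE r R m p E) *
            (lat D).ze q v Ed (srgA r R m p A)) := by
  have hq0 : 0 < q := lt_of_lt_of_le one_pos hq
  set M := max vm 1 with hM
  set μ := min v0 1 with hμ
  have hM1 : 1 ≤ M := le_max_right _ _
  have hμ0 : 0 < μ := lt_min hv0 one_pos
  have hM0 : 0 < M := lt_of_lt_of_le one_pos hM1
  refine ⟨(M ^ (R * (D + 1)) * (μ⁻¹) ^ (srbN D r R * (D + 1))) * q ^ srbN D r R *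
    (1 + M) ^ (srbN D r R * (D + 1) + srbN D r R * (D + 1)), by positivity, ?_⟩
  intro v hlo hhi Ed A E m p hc ht _
  have hv : ∀ e, 0 ≤ v e := fun e => hv0.le.trans (hlo e)
  have hhi' : ∀ e, v e ≤ M := fun e => (hhi e).trans (le_max_left _ _)
  have h1 := srb_prod v v0 M μ hμ0 (min_le_right _ _) (min_le_left _ _) hM1 hlo hhi' p hc ht
  have h2 := srb_pow hq r R m p hc.1
  have h3 := srb_ze hq v hM1 hv hhi' r R m p A Ed
  have n1 : 0 ≤ ∏ e ∈ E, v e := Finset.prod_nonneg fun e _ => hv e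
  have n2 : 0 ≤ (q⁻¹) ^ (A.card - 1) := pow_nonneg (inv_nonneg.2 hq0.le) _
  have n3 : 0 ≤ (lat D).ze q v Ed A := ((lat D).ze_pos q v hq0 hv _ _).le
  have h4 := mul_le_mul (mul_le_mul h1 h2 n2 (n1.trans h1)) h3 n3
    (mul_nonneg (n1.trans h1) (n2.trans h2))
  unfold Gr.cw
  refine h4.trans (le_of_eq ?_)
  ring

end Pool.Agent.DL
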