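import Pool.Agent.DL.MGDefs

/-!
# The number of preimages of the surgery
-/

set_option autoImplicit false
set_option linter.unusedSectionVars false

namespace Pool.Agent.DL

open Finset

section SRC

variable {D : ℕ}

/-- The box around `(m, p)`. -/
noncomputable def srcZ (r R : ℕ) (m : ℤ) (p : Fin D → ℤ) : Finset (Site D) :=
  Finset.Icc (m - r - 1) (m + r + 1) ×ˢ
    Finset.Icc (fun i => p i - (R : ℤ)) (fun i => p i + (R : ℤ))

theorem mem_srcZ {r R : ℕ} {m : ℤ} {p : Fin D → ℤ} {u : Site D} :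
    u ∈ srcZ r R m p ↔ |u.1 - m| ≤ r + 1 ∧ ∀ i, |u.2 i - p i| ≤ R := by
  unfold srcZ
  rw [Finset.mem_product, Finset.mem_Icc, Finset.mem_Icc, Pi.le_def, Pi.le_def]
  constructor
  · rintro ⟨h1, h2, h3⟩
    refine ⟨by rw [abs_le]; omega, fun i => ?_⟩
    have h4 := h2 i
    have h5 := h3 i
    rw [abs_le]
    omega
  · rintro ⟨h1, h2⟩
    rw [abs_le] at h1
    refine ⟨by omega, fun i => ?_, fun i => ?_⟩
    · have := abs_le.1 (h2 i)
      change p i - (R : ℤ) ≤ u.2 i
      omega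
    · have := abs_le.1 (h2 i)
      change u.2 i ≤ p i + (R : ℤ)
      omega

theorem card_srcZ (r R : ℕ) (m : ℤ) (p : Fin D → ℤ) :
    (srcZ r R m p).card = (2 * r + 3) * (2 * R + 1) ^ D := by
  unfold srcZ
  rw [Finset.card_product, Int.card_Icc, Pi.card_Icc]
  have h1 : (m + r + 1 + 1 - (m - r - 1)).toNat = 2 * r + 3 := by omega
  have h2 : ∀ i : Fin D, (Finset.Icc (p i - (R : ℤ)) (p i + (R : ℤ))).card = 2 * R + 1 := by
    intro i
    rw [Int.card_Icc]
    omega
  rw [h1, Finset.prod_congr rfl fun i _ => h2 i, Finset.prod_const, Finset.card_univ,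
    Fintype.card_fin]

theorem newp_subset (r R : ℕ) (m : ℤ) (p : Fin D → ℤ) : newp r R m p ⊆ srcZ r R m p := by
  intro u hu
  unfold newp at hu
  rw [Finset.mem_union, Finset.mem_image, Finset.mem_product] at hu
  rw [mem_srcZ]
  rcases hu with ⟨l, hl, rfl⟩ | ⟨h1, h2⟩
  · rw [Finset.mem_Icc] at hl
    refine ⟨by change |l - m| ≤ _; rw [abs_le]; omega, fun i => ?_⟩
    change |p i - p i| ≤ _
    rw [sub_self, abs_zero]
    exact Int.natCast_nonneg R
  · rw [Finset.mem_insert, Finset.mem_singleton] at h1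
    rw [Finset.mem_Icc, Pi.le_def, Pi.le_def] at h2
    refine ⟨?_, fun i => ?_⟩
    · rw [abs_le]
      omega
    · have h4 := h2.1 i
      have h5 := h2.2 i
      rw [abs_le]
      omega

theorem dir_fst (k : Option (Fin D)) : 0 ≤ (SB.dir (D := D) (k, true)).1 ∧
    (SB.dir (D := D) (k, true)).1 ≤ 1 := by
  cases k with
  | none => exact ⟨zero_le_one, le_refl _⟩
  | some i => exact ⟨le_refl _, zero_le_one⟩

theorem lvl_srgA {r R : ℕ} {m : ℤ} {p : Fin D → ℤ} {A : Finset (Site D)} {u : Site D}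
    (hu : u ∈ srgA r R m p A) (hm : u.1 = m) : u.2 = p := by
  unfold srgA newp at hu
  rw [Finset.mem_union, Finset.mem_filter, Finset.mem_union, Finset.mem_image,
    Finset.mem_product] at hu
  rcases hu with ⟨_, h1⟩ | ⟨l, _, rfl⟩ | ⟨h1, _⟩
  · rw [hm, sub_self, abs_zero] at h1
    omega
  · rfl
  · rw [Finset.mem_insert, Finset.mem_singleton, hm] at h1
    omega

theorem mem_srgA_p (r R : ℕ) (m : ℤ) (p : Fin D → ℤ) (A : Finset (Site D)) :
    ((m, p) : Site D) ∈ srgA r R m p A := by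
  unfold srgA newp
  rw [Finset.mem_union, Finset.mem_union]
  refine Or.inr (Or.inl (Finset.mem_image.2 ⟨m, ?_, rfl⟩))
  rw [Finset.mem_Icc]
  omega

theorem sdiff_srgA {r R : ℕ} {m : ℤ} {p : Fin D → ℤ} {A : Finset (Site D)} (ht : Thin r R A m)
    (hp : ((m, p) : Site D) ∈ A) : A \ srcZ r R m p = srgA r R m p A \ srcZ r R m p := by
  ext u
  rw [Finset.mem_sdiff, Finset.mem_sdiff]
  constructor
  · rintro ⟨h1, h2⟩
    refine ⟨?_, h2⟩
    unfold srgA
    rw [Finset.mem_union, Finset.mem_filter]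
    refine Or.inl ⟨h1, ?_⟩
    by_contra h3
    apply h2
    rw [mem_srcZ]
    have h4 : |u.1 - m| ≤ r + 1 := by omega
    refine ⟨h4, fun i => ht.2 u h1 (m, p) hp h4 ?_ i⟩
    change |m - m| ≤ _
    rw [sub_self, abs_zero]
    omega
  · rintro ⟨h1, h2⟩
    refine ⟨?_, h2⟩
    unfold srgA at h1
    rw [Finset.mem_union, Finset.mem_filter] at h1
    rcases h1 with h1 | h1
    · exact h1.1
    · exact absurd (newp_subset r R m p h1) h2

theorem sdiff_srgE {r R : ℕ} {m : ℤ} {p : Fin D → ℤ} {A : Finset (Site D)}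
    {E : Finset (Edge D)} (hc : (lat D).IsCl A E) (ht : Thin r R A m)
    (hp : ((m, p) : Site D) ∈ A) :
    E \ (srcZ r R m p ×ˢ Finset.univ) = srgE r R m p E \ (srcZ r R m p ×ˢ Finset.univ) := by
  ext e
  rw [Finset.mem_sdiff, Finset.mem_sdiff]
  constructor
  · rintro ⟨h1, h2⟩
    refine ⟨?_, h2⟩
    unfold srgE
    rw [Finset.mem_union, Finset.mem_filter]
    refine Or.inl ⟨h1, ?_⟩
    have hd := dir_fst (D := D) e.2
    have ht1 : ((lat D).t e).1 = e.1.1 + (SB.dir (D := D) (e.2, true)).1 := rfl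
    have hs1 : ((lat D).s e).1 = e.1.1 := rfl
    have key : (r : ℤ) + 1 < |e.1.1 - m| := by
      by_contra h3
      apply h2
      rw [Finset.mem_product]
      refine ⟨?_, Finset.mem_univ _⟩
      rw [mem_srcZ]
      have h4 : |e.1.1 - m| ≤ r + 1 := by omega
      refine ⟨h4, fun i => ht.2 e.1 (hc.2.1 e h1).1 (m, p) hp h4 ?_ i⟩
      change |m - m| ≤ _
      rw [sub_self, abs_zero]
      omega
    rw [hs1, ht1]
    rw [lt_abs] at key ⊢
    rw [lt_abs]
    omega
  · rintro ⟨h1, h2⟩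
    refine ⟨?_, h2⟩
    unfold srgE at h1
    rw [Finset.mem_union, Finset.mem_filter] at h1
    rcases h1 with h1 | h1
    · exact h1.1
    · exfalso
      apply h2
      unfold edg at h1
      rw [Finset.mem_filter, Finset.mem_product] at h1
      rw [Finset.mem_product]
      exact ⟨newp_subset r R m p h1.1.1, Finset.mem_univ _⟩

theorem eq_of_inter_sdiff {α : Type*} [DecidableEq α] {a b z : Finset α}
    (h1 : a ∩ z = b ∩ z) (h2 : a \ z = b \ z) : a = b := by
  rw [← Finset.sdiff_union_inter a z, ← Finset.sdiff_union_inter b z, h1, h2]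

end SRC

theorem srg_card (D r R : ℕ) : ∃ C : ℕ, 0 < C ∧
    ∀ (m : ℤ) (S : Finset (Finset (Site D) × Finset (Edge D))) (A' : Finset (Site D))
      (E' : Finset (Edge D)),
      (∀ c ∈ S, (lat D).IsCl c.1 c.2 ∧ Thin r R c.1 m ∧
        ∃ p, (m, p) ∈ c.1 ∧ srgA r R m p c.1 = A' ∧ srgE r R m p c.2 = E') → S.card ≤ C := by
  refine ⟨2 ^ ((2 * r + 3) * (2 * R + 1) ^ D) * 2 ^ ((2 * r + 3) * (2 * R + 1) ^ D * (D + 1)),
    by positivity, ?_⟩
  intro m S A' E' hS
  rcases S.eq_empty_or_nonempty with rfl | ⟨c0, hc0⟩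
  · rw [Finset.card_empty]
    exact Nat.zero_le _
  obtain ⟨_, _, p, hp0, hA0, _⟩ := hS c0 hc0
  -- the same point for all members
  have hp : ∀ c ∈ S, (lat D).IsCl c.1 c.2 ∧ Thin r R c.1 m ∧ ((m, p) : Site D) ∈ c.1 ∧
      srgA r R m p c.1 = A' ∧ srgE r R m p c.2 = E' := by
    intro c hc
    obtain ⟨h1, h2, p', hp', hA', hE'⟩ := hS c hc
    have h3 : p' = p := by
      have h4 : ((m, p') : Site D) ∈ srgA r R m p c0.1 := by
        rw [hA0, ← hA']
        exact mem_srgA_p r R m p' c.1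
      exact lvl_srgA h4 rfl
    subst h3
    exact ⟨h1, h2, hp', hA', hE'⟩
  set Z := srcZ r R m p with hZ
  set Y : Finset (Edge D) := Z ×ˢ Finset.univ with hY
  have hcard : (Z.powerset ×ˢ Y.powerset).card =
      2 ^ ((2 * r + 3) * (2 * R + 1) ^ D) * 2 ^ ((2 * r + 3) * (2 * R + 1) ^ D * (D + 1)) := by
    rw [Finset.card_product, Finset.card_powerset, Finset.card_powerset, hY, Finset.card_product,
      hZ, card_srcZ, Finset.card_univ, Fintype.card_option, Fintype.card_fin]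
  rw [← hcard]
  refine Finset.card_le_card_of_injOn (fun c => (c.1 ∩ Z, c.2 ∩ Y)) ?_ ?_
  · intro c _
    rw [Finset.mem_coe, Finset.mem_product]
    exact ⟨Finset.mem_powerset.2 Finset.inter_subset_right,
      Finset.mem_powerset.2 Finset.inter_subset_right⟩
  · intro c hc c' hc' h
    obtain ⟨h1, h2, h3, h4, h5⟩ := hp c (Finset.mem_coe.1 hc)
    obtain ⟨h1', h2', h3', h4', h5'⟩ := hp c' (Finset.mem_coe.1 hc')
    have e1 : c.1 ∩ Z = c'.1 ∩ Z := congrArg Prod.fst h
    have e2 : c.2 ∩ Y = c'.2 ∩ Y := congrArg Prod.snd h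
    refine Prod.ext (eq_of_inter_sdiff e1 ?_) (eq_of_inter_sdiff e2 ?_)
    · rw [hZ, sdiff_srgA h2 h3, sdiff_srgA h2' h3', h4, h4']
    · rw [hY, hZ, sdiff_srgE h1 h2 h3, sdiff_srgE h1' h2' h3', h5, h5']

end Pool.Agent.DL
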