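import Pool.Agent.DL.MGDefs

/-!
# The surgery increases the number of nice good cuts by one
-/

set_option autoImplicit false
set_option linter.unusedSectionVars false

namespace Pool.Agent.DL

open Finset

variable {D : ℕ}

namespace SRD

theorem mem_lvl {A : Finset (Site D)} {l : ℤ} {u : Site D} : u ∈ lvl A l ↔ u ∈ A ∧ u.1 = l := by
  unfold lvl
  rw [mem_filter]

theorem mem_newp {r R : ℕ} {m : ℤ} {p : Fin D → ℤ} {u : Site D} :
    u ∈ newp r R m p ↔ (|u.1 - m| ≤ r ∧ u.2 = p) ∨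
      (|u.1 - m| = r + 1 ∧ u.2 ∈ Finset.Icc (fun i => p i - (R : ℤ)) (fun i => p i + (R : ℤ))) := by
  unfold newp
  rw [mem_union, mem_image, mem_product, mem_insert, mem_singleton]
  constructor
  · rintro (⟨l, hl, rfl⟩ | ⟨h1, h2⟩)
    · left
      rw [Finset.mem_Icc] at hl
      refine ⟨?_, rfl⟩
      rw [abs_le]
      constructor <;> simp only <;> omega
    · right
      refine ⟨?_, h2⟩
      rcases h1 with h | h
      · rw [h, show m - (r : ℤ) - 1 - m = -((r : ℤ) + 1) by ring, abs_neg]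
        exact abs_of_nonneg (by omega)
      · rw [h, show m + (r : ℤ) + 1 - m = (r : ℤ) + 1 by ring]
        exact abs_of_nonneg (by omega)
  · rintro (⟨h1, h2⟩ | ⟨h1, h2⟩)
    · left
      rw [abs_le] at h1
      refine ⟨u.1, ?_, ?_⟩
      · rw [Finset.mem_Icc]
        constructor <;> omega
      · rw [← h2]
    · right
      refine ⟨?_, h2⟩
      rcases abs_cases (u.1 - m) with ⟨h3, h4⟩ | ⟨h3, h4⟩
      · right
        omega
      · left
        omega

theorem mem_srgA {r R : ℕ} {m : ℤ} {p : Fin D → ℤ} {A : Finset (Site D)} {u : Site D} :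
    u ∈ srgA r R m p A ↔ (u ∈ A ∧ (r : ℤ) < |u.1 - m|) ∨ u ∈ newp r R m p := by
  unfold srgA
  rw [mem_union, mem_filter]

/-- Heights with distance more than `r + 1` are not changed. -/
theorem lvl_srg_far {r R : ℕ} {m : ℤ} {p : Fin D → ℤ} {A : Finset (Site D)} {l : ℤ}
    (h : (r : ℤ) + 1 < |l - m|) : lvl (srgA r R m p A) l = lvl A l := by
  ext u
  rw [mem_lvl, mem_lvl, mem_srgA, mem_newp]
  constructor
  · rintro ⟨(⟨h1, -⟩ | ⟨h1, -⟩ | ⟨h1, -⟩), h2⟩
    · exact ⟨h1, h2⟩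
    · rw [h2] at h1
      omega
    · rw [h2] at h1
      omega
  · rintro ⟨h1, h2⟩
    refine ⟨Or.inl ⟨h1, ?_⟩, h2⟩
    rw [h2]
    omega

/-- The new heights near `m`. -/
theorem lvl_srg_mid {r R : ℕ} {m : ℤ} {p : Fin D → ℤ} {A : Finset (Site D)} {l : ℤ}
    (h : |l - m| ≤ (r : ℤ)) : lvl (srgA r R m p A) l = {(l, p)} := by
  ext u
  rw [mem_lvl, mem_srgA, mem_newp, mem_singleton]
  constructor
  · rintro ⟨(⟨-, h1⟩ | ⟨-, h1⟩ | ⟨h1, -⟩), h2⟩
    · rw [h2] at h1
      omega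
    · exact Prod.ext h2 h1
    · rw [h2] at h1
      omega
  · rintro rfl
    exact ⟨Or.inr (Or.inl ⟨h, rfl⟩), rfl⟩

theorem card_box (R : ℕ) (p : Fin D → ℤ) :
    (Finset.Icc (fun i => p i - (R : ℤ)) (fun i => p i + (R : ℤ))).card = (2 * R + 1) ^ D := by
  rw [Pi.card_Icc]
  have h : ∀ i, (Finset.Icc (p i - (R : ℤ)) (p i + (R : ℤ))).card = 2 * R + 1 := by
    intro i
    rw [Int.card_Icc]
    omega
  rw [prod_congr rfl fun i _ => h i, prod_const, card_univ, Fintype.card_fin]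

theorem card_lvl_le {r R : ℕ} {m : ℤ} {A : Finset (Site D)} {l : ℤ} (ht : Thin r R A m)
    (h : |l - m| ≤ (r : ℤ) + 1) : (lvl A l).card ≤ R := by
  refine le_trans (card_le_card ?_) ht.1
  intro u hu
  rw [mem_lvl] at hu
  rw [mem_filter, hu.2]
  exact ⟨hu.1, h⟩

/-- The number of points of the new cluster at the changed heights. -/
theorem card_lvl_srg {r R : ℕ} {m : ℤ} {p : Fin D → ℤ} {A : Finset (Site D)} {l : ℤ}
    (ht : Thin r R A m) (h : |l - m| ≤ (r : ℤ) + 1) :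
    (lvl (srgA r R m p A) l).card ≤ R + (2 * R + 1) ^ D := by
  rcases le_or_gt |l - m| (r : ℤ) with h1 | h1
  · rw [lvl_srg_mid h1, card_singleton]
    have : 0 < (2 * R + 1) ^ D := by positivity
    omega
  · have h2 : lvl (srgA r R m p A) l ⊆ lvl A l ∪
        (Finset.Icc (fun i => p i - (R : ℤ)) (fun i => p i + (R : ℤ))).image fun z => (l, z) := by
      intro u hu
      rw [mem_lvl, mem_srgA, mem_newp] at hu
      rw [mem_union, mem_lvl, mem_image]
      obtain ⟨(⟨h3, -⟩ | ⟨h3, -⟩ | ⟨-, h3⟩), h4⟩ := hu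
      · exact Or.inl ⟨h3, h4⟩
      · rw [h4] at h3
        omega
      · exact Or.inr ⟨u.2, h3, by rw [← h4]⟩
    refine (card_le_card h2).trans ((card_union_le _ _).trans ?_)
    have h3 := card_lvl_le ht h
    have h4 := (card_image_le (s := Finset.Icc (fun i => p i - (R : ℤ)) (fun i => p i + (R : ℤ)))
      (f := fun z => ((l, z) : Site D)))
    rw [card_box] at h4
    omega

theorem good_srg_self {r R : ℕ} {m : ℤ} {p : Fin D → ℤ} {A : Finset (Site D)} :
    Good r (srgA r R m p A) m := ⟨p, fun _ hl => lvl_srg_mid hl⟩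

theorem good_srg_far {r R : ℕ} {m m' : ℤ} {p : Fin D → ℤ} {A : Finset (Site D)}
    (h : (2 * r + 1 : ℤ) < |m' - m|) : Good r (srgA r R m p A) m' ↔ Good r A m' := by
  have h1 : ∀ l : ℤ, |l - m'| ≤ r → lvl (srgA r R m p A) l = lvl A l := by
    intro l hl
    apply lvl_srg_far
    have h2 : |m' - m| ≤ |m' - l| + |l - m| := abs_sub_le m' l m
    rw [abs_sub_comm m' l] at h2
    omega
  constructor
  · rintro ⟨z, hz⟩
    exact ⟨z, fun l hl => by rw [← h1 l hl]; exact hz l hl⟩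
  · rintro ⟨z, hz⟩
    exact ⟨z, fun l hl => by rw [h1 l hl]; exact hz l hl⟩

theorem exp_bound {ξ : ℝ} (hξ : 0 < ξ) {r : ℕ} {t : ℤ} (h : (r : ℤ) ≤ t) :
    Real.exp (ξ * r / 4) ≤ Real.exp (ξ * (t : ℝ) / 4) := by
  apply Real.exp_le_exp.2
  have h1 : (r : ℝ) ≤ (t : ℝ) := by exact_mod_cast h
  have h2 := mul_le_mul_of_nonneg_left h1 hξ.le
  linarith

theorem nice_srg_self {ξ : ℝ} (hξ : 0 < ξ) {r R : ℕ} {m : ℤ} {p : Fin D → ℤ}
    {A : Finset (Site D)} (hR : (R : ℝ) + (2 * R + 1) ^ D ≤ Real.exp (ξ * r / 4))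
    (ht : Thin r R A m) (hn : Nice ξ r A m) : Nice ξ r (srgA r R m p A) m := by
  intro l hl
  rcases lt_or_ge ((r : ℤ) + 1) |l - m| with h | h
  · rw [lvl_srg_far h]
    exact hn l hl
  · have h1 : ((lvl (srgA r R m p A) l).card : ℝ) ≤ (R : ℝ) + (2 * R + 1) ^ D := by
      exact_mod_cast card_lvl_srg ht h
    exact h1.trans (hR.trans (exp_bound hξ (by omega)))

theorem nice_srg_far {ξ : ℝ} (hξ : 0 < ξ) {r R : ℕ} {m m' : ℤ} {p : Fin D → ℤ}
    {A : Finset (Site D)} (hR : (R : ℝ) + (2 * R + 1) ^ D ≤ Real.exp (ξ * r / 4))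
    (ht : Thin r R A m) (h : (2 * r + 1 : ℤ) < |m' - m|) :
    Nice ξ r (srgA r R m p A) m' ↔ Nice ξ r A m' := by
  have hpos : (0 : ℝ) ≤ (2 * R + 1) ^ D := by positivity
  have h0 : ∀ l : ℤ, |l - m| ≤ (r : ℤ) + 1 → (r : ℤ) ≤ |l - m'| := by
    intro l hl
    have h2 : |m' - m| ≤ |m' - l| + |l - m| := abs_sub_le m' l m
    rw [abs_sub_comm m' l] at h2
    omega
  constructor
  · intro hn l hl
    rcases lt_or_ge ((r : ℤ) + 1) |l - m| with h1 | h1
    · rw [← lvl_srg_far (R := R) (p := p) h1]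
      exact hn l hl
    · have h2 : ((lvl A l).card : ℝ) ≤ (R : ℝ) := by exact_mod_cast card_lvl_le ht h1
      refine h2.trans (le_trans ?_ (hR.trans (exp_bound hξ (h0 l h1))))
      linarith
  · intro hn l hl
    rcases lt_or_ge ((r : ℤ) + 1) |l - m| with h1 | h1
    · rw [lvl_srg_far h1]
      exact hn l hl
    · have h2 : ((lvl (srgA r R m p A) l).card : ℝ) ≤ (R : ℝ) + (2 * R + 1) ^ D := by
        exact_mod_cast card_lvl_srg ht h1
      exact h2.trans (hR.trans (exp_bound hξ (h0 l h1)))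

/-- Different heights of the grid have distance at least `g`. -/
theorem grd_dist {g : ℕ} {m0 n m m' : ℤ} (h : m ∈ grd g m0 n) (h' : m' ∈ grd g m0 n)
    (hne : m' ≠ m) : (g : ℤ) ≤ |m' - m| := by
  unfold grd at h h'
  rw [mem_filter] at h h'
  have h1 : (g : ℤ) ∣ m' - m := by
    have h2 := dvd_sub h'.2 h.2
    rwa [show m' - m0 - (m - m0) = m' - m by ring] at h2
  apply Int.le_of_dvd
  · rw [abs_pos]
    exact sub_ne_zero.2 hne
  · rwa [dvd_abs]

end SRD

open SRD in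
/-- The surgery at a nice thin height which is not a good cut adds exactly one nice good cut. -/
theorem ngc_srg {ξ : ℝ} (hξ : 0 < ξ) {r R : ℕ} {m0 n m : ℤ} {p : Fin D → ℤ}
    {A : Finset (Site D)} (hR : (R : ℝ) + (2 * R + 1) ^ D ≤ Real.exp (ξ * r / 4))
    (hm : m ∈ cln ξ r R (4 * r + 8) m0 n A) (hp : (m, p) ∈ A) :
    m ∉ ngc ξ r (4 * r + 8) m0 n A ∧
      ngc ξ r (4 * r + 8) m0 n (srgA r R m p A) = insert m (ngc ξ r (4 * r + 8) m0 n A) := by
  classical
  unfold cln at hm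
  rw [mem_filter] at hm
  obtain ⟨hg, hng, hni, hth⟩ := hm
  constructor
  · unfold ngc
    rw [mem_filter]
    exact fun h => hng h.2.1
  · ext m'
    unfold ngc
    rw [mem_insert, mem_filter, mem_filter]
    by_cases hmm : m' = m
    · subst hmm
      constructor
      · intro _
        exact Or.inl rfl
      · intro _
        exact ⟨hg, good_srg_self, nice_srg_self hξ hR hth hni⟩
    · constructor
      · rintro ⟨h1, h2, h3⟩
        have h4 := grd_dist hg h1 hmm
        have h5 : (2 * r + 1 : ℤ) < |m' - m| := by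
          push_cast at h4
          omega
        exact Or.inr ⟨h1, (good_srg_far h5).1 h2, (nice_srg_far hξ hR hth h5).1 h3⟩
      · rintro (h | ⟨h1, h2, h3⟩)
        · exact absurd h hmm
        · have h4 := grd_dist hg h1 hmm
          have h5 : (2 * r + 1 : ℤ) < |m' - m| := by
            push_cast at h4
            omega
          exact ⟨h1, (good_srg_far h5).2 h2, (nice_srg_far hξ hR hth h5).2 h3⟩

end Pool.Agent.DL
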