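import Pool.Agent.DL.MGA
import Pool.Agent.DL.SRA
import Pool.Agent.DL.SRB
import Pool.Agent.DL.SRC
import Pool.Agent.DL.SRD

/-!
# The mass gap: the one step inequality
-/

set_option autoImplicit false
set_option linter.unusedSectionVars false

namespace Pool.Agent.DL

open Finset

/-- Sums over a map with bounded fibres. -/
theorem sre_sum_le {α : Type} [DecidableEq α] (T T' : Finset α) (mu : α → ℝ) (f : α → α)
    (C1 : ℝ) (C2 : ℕ) (hC1 : 0 ≤ C1) (hmu : ∀ a, 0 ≤ mu a) (hf : ∀ a ∈ T, f a ∈ T')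
    (h1 : ∀ a ∈ T, mu a ≤ C1 * mu (f a))
    (h2 : ∀ b ∈ T', (T.filter fun a => f a = b).card ≤ C2) :
    ∑ a ∈ T, mu a ≤ C1 * C2 * ∑ b ∈ T', mu b := by
  calc ∑ a ∈ T, mu a ≤ ∑ a ∈ T, C1 * mu (f a) := sum_le_sum h1
    _ = ∑ b ∈ T', ∑ a ∈ T with f a = b, C1 * mu (f a) :=
        (sum_fiberwise_of_maps_to hf _).symm
    _ ≤ ∑ b ∈ T', C1 * C2 * mu b := by
        refine sum_le_sum fun b hb => ?_
        have h3 : ∑ a ∈ T with f a = b, C1 * mu (f a) = ∑ a ∈ T with f a = b, C1 * mu b :=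
          sum_congr rfl fun a ha => by rw [(mem_filter.1 ha).2]
        rw [h3, sum_const, nsmul_eq_mul]
        have h4 : ((T.filter fun a => f a = b).card : ℝ) ≤ C2 := by exact_mod_cast h2 b hb
        calc ((T.filter fun a => f a = b).card : ℝ) * (C1 * mu b) ≤ C2 * (C1 * mu b) :=
              mul_le_mul_of_nonneg_right h4 (mul_nonneg hC1 (hmu b))
          _ = C1 * C2 * mu b := by ring
    _ = C1 * C2 * ∑ b ∈ T', mu b := by rw [mul_sum]

/-- A sum of indicators. -/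
theorem sre_sum_ind {α β : Type} [DecidableEq β] (S : Finset α) (M : Finset β) (mu : α → ℝ)
    (Q : α → Prop) (X : α → Finset β) (hX : ∀ a, X a ⊆ M) :
    ∑ a ∈ S, mu a * (ind (Q a) * ((X a).card : ℝ)) =
      ∑ m ∈ M, ∑ a ∈ S, mu a * ind (Q a ∧ m ∈ X a) := by
  rw [sum_comm]
  refine sum_congr rfl fun a _ => ?_
  rw [← mul_sum]
  congr 1
  simp only [ind_and]
  rw [← mul_sum]
  congr 1
  have h1 : ∀ m, ind (m ∈ X a) = if m ∈ X a then (1 : ℝ) else 0 := fun m => by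
    unfold ind
    split_ifs <;> rfl
  simp only [h1]
  rw [sum_ite_mem, inter_eq_right.2 (hX a), sum_const, nsmul_eq_mul, mul_one]

theorem sre_cs_eq {D : ℕ} (q : ℝ) (v : Edge D → ℝ) (Ed : Finset (Edge D)) (x : Site D)
    (F : Finset (Site D) → Finset (Edge D) → ℝ) :
    (lat D).cs q v Ed x F = ∑ c ∈ ((lat D).vs Ed x).powerset ×ˢ Ed.powerset,
      (Gr.cw q v c.1 c.2 * (lat D).ze q v Ed c.1 * ind ((lat D).IsCl c.1 c.2 ∧ x ∈ c.1)) *
        F c.1 c.2 := by
  rw [(lat D).mga_cs_prod]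
  refine sum_congr rfl fun c _ => ?_
  by_cases h : (lat D).IsCl c.1 c.2 ∧ x ∈ c.1
  · rw [if_pos h, ind_true h, mul_one]
  · rw [if_neg h, ind_false h, mul_zero, zero_mul]

theorem one_step (D : ℕ) (q v0 vm : ℝ) (hq : 1 ≤ q) (hv0 : 0 < v0) (r R : ℕ) (ξ : ℝ)
    (hξ : 0 < ξ) (hR : (R : ℝ) + (2 * R + 1) ^ D ≤ Real.exp (ξ * r / 4)) :
    ∃ C : ℝ, 0 < C ∧ ∀ v : Edge D → ℝ, (∀ e, v0 ≤ v e) → (∀ e, v e ≤ vm) →
      ∀ (Ed : Finset (Edge D)) (n m0 : ℤ) (x y : Site D) (W k : ℕ),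
        (∀ m ∈ grd (4 * r + 8) m0 n, ∀ p : Fin D → ℤ, (∀ i, |p i - x.2 i| ≤ W) →
          edg (newp r R m p) ⊆ Ed) →
        (lat D).cs q v Ed x (fun A _ =>
          ind (Adm n x y A ∧ A.card ≤ W ∧ (ngc ξ r (4 * r + 8) m0 n A).card = k) *
            ((cln ξ r R (4 * r + 8) m0 n A).card : ℝ)) ≤
        C * (k + 1) * (lat D).cs q v Ed x (fun A _ =>
          ind (Adm n x y A ∧ (ngc ξ r (4 * r + 8) m0 n A).card = k + 1)) := by
  classical
  obtain ⟨C1, hC1, hw⟩ := srg_weight D q v0 vm hq hv0 r R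
  obtain ⟨C2, hC2, hc⟩ := srg_card D r R
  refine ⟨C1 * C2, by positivity, ?_⟩
  intro v hlo hhi Ed n m0 x y W k hEd
  have hq0 : 0 < q := by linarith
  have hv : ∀ e, 0 ≤ v e := fun e => hv0.le.trans (hlo e)
  have hw0 : ∀ c : Finset (Site D) × Finset (Edge D),
      0 ≤ Gr.cw q v c.1 c.2 * (lat D).ze q v Ed c.1 := fun c =>
    mul_nonneg (mul_nonneg (prod_nonneg fun e _ => hv e) (pow_nonneg (inv_nonneg.2 hq0.le) _))
      ((lat D).ze_pos q v hq0 hv Ed c.1).le
  set g : ℕ := 4 * r + 8 with hg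
  set S := ((lat D).vs Ed x).powerset ×ˢ Ed.powerset with hS
  set mu : Finset (Site D) × Finset (Edge D) → ℝ := fun c =>
    Gr.cw q v c.1 c.2 * (lat D).ze q v Ed c.1 * ind ((lat D).IsCl c.1 c.2 ∧ x ∈ c.1) with hmu
  have hmu0 : ∀ c, 0 ≤ mu c := fun c => mul_nonneg (hw0 c) (ind_nonneg _)
  set P : Finset (Site D) × Finset (Edge D) → Prop := fun c =>
    Adm n x y c.1 ∧ c.1.card ≤ W ∧ (ngc ξ r g m0 n c.1).card = k with hP
  set P' : Finset (Site D) × Finset (Edge D) → Prop := fun c =>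
    Adm n x y c.1 ∧ (ngc ξ r g m0 n c.1).card = k + 1 with hP'
  have hcln : ∀ A : Finset (Site D), cln ξ r R g m0 n A ⊆ grd g m0 n := fun A => filter_subset _ _
  have hngc : ∀ A : Finset (Site D), ngc ξ r g m0 n A ⊆ grd g m0 n := fun A => filter_subset _ _
  have e1 : (lat D).cs q v Ed x (fun A _ =>
      ind (Adm n x y A ∧ A.card ≤ W ∧ (ngc ξ r g m0 n A).card = k) *
        ((cln ξ r R g m0 n A).card : ℝ)) =
      ∑ m ∈ grd g m0 n, ∑ c ∈ S, mu c * ind (P c ∧ m ∈ cln ξ r R g m0 n c.1) := by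
    rw [sre_cs_eq]
    exact sre_sum_ind S (grd g m0 n) mu P (fun c => cln ξ r R g m0 n c.1) fun c => hcln c.1
  have e2 : ((k : ℝ) + 1) * (lat D).cs q v Ed x (fun A _ =>
      ind (Adm n x y A ∧ (ngc ξ r g m0 n A).card = k + 1)) =
      ∑ m ∈ grd g m0 n, ∑ c ∈ S, mu c * ind (P' c ∧ m ∈ ngc ξ r g m0 n c.1) := by
    rw [sre_cs_eq, ← sre_sum_ind S (grd g m0 n) mu P' (fun c => ngc ξ r g m0 n c.1)
      fun c => hngc c.1, mul_sum]
    refine sum_congr rfl fun c _ => ?_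
    by_cases h : P' c
    · have h' : Adm n x y c.1 ∧ (ngc ξ r g m0 n c.1).card = k + 1 := h
      rw [ind_true h, h'.2]
      push_cast
      ring
    · rw [ind_false h]
      ring
  set T : (Finset (Site D) × Finset (Edge D) → Prop) →
      Finset (Finset (Site D) × Finset (Edge D)) := fun Q =>
    S.filter fun c => ((lat D).IsCl c.1 c.2 ∧ x ∈ c.1) ∧ Q c with hT
  have hTm : ∀ Q c, c ∈ T Q ↔ c ∈ S ∧ ((lat D).IsCl c.1 c.2 ∧ x ∈ c.1) ∧ Q c := by
    intro Q c
    rw [hT]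
    simp only
    rw [mem_filter]
  have key : ∀ m ∈ grd g m0 n, ∑ c ∈ S, mu c * ind (P c ∧ m ∈ cln ξ r R g m0 n c.1) ≤
      C1 * C2 * ∑ c ∈ S, mu c * ind (P' c ∧ m ∈ ngc ξ r g m0 n c.1) := by
    intro m hm
    have hm' := hm
    unfold grd at hm'
    rw [mem_filter, mem_Icc] at hm'
    have hsum : ∀ Q : Finset (Site D) × Finset (Edge D) → Prop,
        ∑ c ∈ S, mu c * ind (Q c) =
          ∑ c ∈ T Q, Gr.cw q v c.1 c.2 * (lat D).ze q v Ed c.1 := by
      intro Q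
      rw [hT]
      simp only
      rw [sum_filter]
      refine sum_congr rfl fun c _ => ?_
      by_cases h1 : (lat D).IsCl c.1 c.2 ∧ x ∈ c.1
      · by_cases h2 : Q c
        · rw [if_pos ⟨h1, h2⟩, hmu, ind_true h2, mul_one]
          simp only
          rw [ind_true h1, mul_one]
        · rw [if_neg fun h => h2 h.2, ind_false h2, mul_zero]
      · rw [if_neg fun h => h1 h.1, hmu]
        simp only
        rw [ind_false h1, mul_zero, zero_mul]
    rw [hsum, hsum]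
    -- the choice of the point of height `m`
    set pt : Finset (Site D) → (Fin D → ℤ) := fun A =>
      if h : ∃ p, (m, p) ∈ A then h.choose else 0 with hpt
    have hpt' : ∀ A, (∃ p, (m, p) ∈ A) → (m, pt A) ∈ A := by
      intro A h
      rw [hpt]
      simp only [dif_pos h]
      exact h.choose_spec
    refine sre_sum_le _ _ _ (fun c => (srgA r R m (pt c.1) c.1, srgE r R m (pt c.1) c.2)) C1 C2
      hC1.le hw0 ?_ ?_ ?_
    · intro c hcm
      rw [hTm] at hcm ⊢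
      obtain ⟨hcS, ⟨hcl, hx⟩, ⟨ha, hcard, hk⟩, hmc⟩ := hcm
      have hthin : Thin r R c.1 m := by
        unfold cln at hmc
        exact (mem_filter.1 hmc).2.2.2
      have hex : ∃ p, (m, p) ∈ c.1 := by
        obtain ⟨u, hu⟩ := lvl_nonempty hcl ha.1 ha.2.1 (l := m)
          (by rw [ha.2.2.1]; omega) (by rw [ha.2.2.2.1]; omega)
        unfold lvl at hu
        rw [mem_filter] at hu
        exact ⟨u.2, by rw [← hu.2]; exact hu.1⟩
      have hpm := hpt' c.1 hex
      obtain ⟨hcl', ha'⟩ := isCl_srg (r := r) (R := R) hcl ha (by omega) (by omega) hthin hpm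
      obtain ⟨hn1, hn2⟩ := ngc_srg hξ hR (m0 := m0) (n := n) (A := c.1) hmc hpm
      have hE' : srgE r R m (pt c.1) c.2 ⊆ Ed := by
        rw [hS, mem_product, mem_powerset, mem_powerset] at hcS
        unfold srgE
        refine union_subset ((filter_subset _ _).trans hcS.2) (hEd m hm _ fun i => ?_)
        have h1 := isCl_dist hcl hx hpm
        have h2 : (x.2 i - pt c.1 i).natAbs ≤ SB.dist1 x (m, pt c.1) := by
          unfold SB.dist1
          exact (single_le_sum (f := fun i => (x.2 i - pt c.1 i).natAbs)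
            (fun _ _ => Nat.zero_le _) (mem_univ i)).trans (Nat.le_add_left _ _)
        have h3 : (x.2 i - pt c.1 i).natAbs ≤ W := h2.trans (by omega)
        rw [abs_sub_comm, Int.abs_eq_natAbs]
        exact_mod_cast h3
      refine ⟨?_, ⟨hcl', ha'.1⟩, ⟨ha', ?_⟩, ?_⟩
      · rw [hS, mem_product, mem_powerset, mem_powerset]
        exact ⟨(lat D).isCl_subset_vs hcl' ha'.1 hE', hE'⟩
      · simp only
        rw [hn2, card_insert_of_notMem hn1, hk]
      · simp only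
        rw [hn2]
        exact mem_insert_self _ _
    · intro c hcm
      rw [hTm] at hcm
      obtain ⟨hcS, ⟨hcl, hx⟩, ⟨ha, hcard, hk⟩, hmc⟩ := hcm
      have hthin : Thin r R c.1 m := by
        unfold cln at hmc
        exact (mem_filter.1 hmc).2.2.2
      have hex : ∃ p, (m, p) ∈ c.1 := by
        obtain ⟨u, hu⟩ := lvl_nonempty hcl ha.1 ha.2.1 (l := m)
          (by rw [ha.2.2.1]; omega) (by rw [ha.2.2.2.1]; omega)
        unfold lvl at hu
        rw [mem_filter] at hu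
        exact ⟨u.2, by rw [← hu.2]; exact hu.1⟩
      exact hw v hlo hhi Ed c.1 c.2 m (pt c.1) hcl hthin (hpt' c.1 hex)
    · intro b _
      refine hc m _ b.1 b.2 fun c hcm => ?_
      rw [mem_filter, hTm] at hcm
      obtain ⟨⟨hcS, ⟨hcl, hx⟩, ⟨ha, hcard, hk⟩, hmc⟩, hfb⟩ := hcm
      have hthin : Thin r R c.1 m := by
        unfold cln at hmc
        exact (mem_filter.1 hmc).2.2.2
      have hex : ∃ p, (m, p) ∈ c.1 := by
        obtain ⟨u, hu⟩ := lvl_nonempty hcl ha.1 ha.2.1 (l := m)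
          (by rw [ha.2.2.1]; omega) (by rw [ha.2.2.2.1]; omega)
        unfold lvl at hu
        rw [mem_filter] at hu
        exact ⟨u.2, by rw [← hu.2]; exact hu.1⟩
      exact ⟨hcl, hthin, pt c.1, hpt' c.1 hex, congrArg Prod.fst hfb, congrArg Prod.snd hfb⟩
  rw [e1, mul_assoc, e2, mul_sum]
  exact sum_le_sum key

end Pool.Agent.DL
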