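import Pool.Agent.DL.Cut

/-!
# Stability of good cuts
-/

set_option autoImplicit false
set_option linter.unusedSectionVars false

namespace Pool.Agent.DL

open Finset
open scoped ENNReal

namespace Stab

theorem lvw_mono {D : ℕ} (a : ℝ) {A B : Finset (Site D)} (h : A ⊆ B) (m : ℤ) :
    lvw a A m ≤ lvw a B m :=
  Finset.sum_le_sum_of_subset_of_nonneg h fun _ _ _ => (Real.exp_pos _).le

theorem lvw_nonneg {D : ℕ} (a : ℝ) (A : Finset (Site D)) (m : ℤ) : 0 ≤ lvw a A m :=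
  Finset.sum_nonneg fun _ _ => (Real.exp_pos _).le

theorem lvw_far {D : ℕ} (a : ℝ) (ha : 0 < a) (A B : Finset (Site D)) (m m' : ℤ) (s : ℕ)
    (hAB : B ⊆ A) (h : ∀ x ∈ B, |(x.1 : ℝ) - m'| + s ≤ |(x.1 : ℝ) - m|) :
    lvw a B m ≤ Real.exp (-(a * s)) * lvw a A m' := by
  refine le_trans ?_ (mul_le_mul_of_nonneg_left (lvw_mono a hAB m') (Real.exp_pos _).le)
  unfold lvw
  rw [Finset.mul_sum]
  refine Finset.sum_le_sum fun x hx => ?_
  rw [← Real.exp_add]
  refine Real.exp_le_exp.2 ?_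
  have := h x hx
  nlinarith

/-- Stability of good cuts. -/
theorem lvl_cut {D : ℕ} (a M : ℝ) (ha : 0 < a) (A : Finset (Site D)) (m1 m2 m : ℤ) (s : ℕ)
    (h1 : lvw a A m1 ≤ M) (h2 : lvw a A m2 ≤ M) (hs1 : m1 + s ≤ m) (hs2 : m + s ≤ m2) :
    lvw a A m ≤ lvw a (A.filter fun x => m1 < x.1 ∧ x.1 ≤ m2) m +
      2 * Real.exp (-(a * s)) * M := by
  have hs1' : (m1 : ℝ) + s ≤ m := by exact_mod_cast hs1
  have hs2' : (m : ℝ) + s ≤ m2 := by exact_mod_cast hs2
  have hs0 : (0 : ℝ) ≤ s := Nat.cast_nonneg _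
  have hA : A ⊆ (A.filter fun x => m1 < x.1 ∧ x.1 ≤ m2) ∪
      ((A.filter fun x => x.1 ≤ m1) ∪ (A.filter fun x => m2 < x.1)) := by
    intro x hx
    simp only [Finset.mem_union, Finset.mem_filter]
    by_cases h3 : x.1 ≤ m1
    · exact Or.inr (Or.inl ⟨hx, h3⟩)
    · by_cases h4 : m2 < x.1
      · exact Or.inr (Or.inr ⟨hx, h4⟩)
      · exact Or.inl ⟨hx, by omega, by omega⟩
  have hsub : ∀ B C : Finset (Site D), lvw a (B ∪ C) m ≤ lvw a B m + lvw a C m := by
    intro B C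
    unfold lvw
    rw [← Finset.sum_union_inter]
    have : 0 ≤ ∑ x ∈ B ∩ C, Real.exp (-(a * |(x.1 : ℝ) - m|)) :=
      Finset.sum_nonneg fun _ _ => (Real.exp_pos _).le
    linarith
  have h3 := lvw_far a ha A (A.filter fun x => x.1 ≤ m1) m m1 s (Finset.filter_subset _ _) (by
    intro x hx
    have hx1 : (x.1 : ℝ) ≤ m1 := by exact_mod_cast (Finset.mem_filter.1 hx).2
    rw [abs_of_nonpos (by linarith), abs_of_nonpos (by linarith)]
    linarith)
  have h4 := lvw_far a ha A (A.filter fun x => m2 < x.1) m m2 s (Finset.filter_subset _ _) (by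
    intro x hx
    have hx1 : (m2 : ℝ) < x.1 := by exact_mod_cast (Finset.mem_filter.1 hx).2
    rw [abs_of_nonneg (by linarith), abs_of_nonneg (by linarith)]
    linarith)
  have h5 : Real.exp (-(a * s)) * lvw a A m1 ≤ Real.exp (-(a * s)) * M :=
    mul_le_mul_of_nonneg_left h1 (Real.exp_pos _).le
  have h6 : Real.exp (-(a * s)) * lvw a A m2 ≤ Real.exp (-(a * s)) * M :=
    mul_le_mul_of_nonneg_left h2 (Real.exp_pos _).le
  calc lvw a A m ≤ _ := lvw_mono a hA m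
    _ ≤ _ := hsub _ _
    _ ≤ lvw a (A.filter fun x => m1 < x.1 ∧ x.1 ≤ m2) m +
        (lvw a (A.filter fun x => x.1 ≤ m1) m + lvw a (A.filter fun x => m2 < x.1) m) := by
      linarith [hsub (A.filter fun x => x.1 ≤ m1) (A.filter fun x => m2 < x.1)]
    _ ≤ _ := by linarith

/-- The part strictly above `m1` and at most at height `m2`, translated to the height `0`. -/
def mid {D : ℕ} (c : Pr D) (m1 m2 : ℤ) : Pr D := sh (-(m1 + 1)) (hi (lo c m2) m1)

theorem lo_hi_fst {D : ℕ} (c : Pr D) (m1 m2 : ℤ) :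
    (hi (lo c m2) m1).1 = c.1.filter fun x => m1 < x.1 ∧ x.1 ≤ m2 := by
  ext x
  simp only [hi, lo, Finset.mem_filter]
  tauto

theorem upE_mid {D : ℕ} (c : Pr D) (m1 m2 m : ℤ) (h1 : m1 < m) (h2 : m < m2) :
    upE (hi (lo c m2) m1).2 m = upE c.2 m := by
  ext e
  unfold upE hi lo
  simp only [Finset.mem_filter]
  constructor
  · rintro ⟨⟨⟨h3, -⟩, -⟩, h4, h5⟩
    exact ⟨h3, h4, h5⟩
  · rintro ⟨h3, h4, h5⟩
    refine ⟨⟨⟨h3, ?_⟩, ?_⟩, h4, h5⟩
    · rw [Cut.t_fst_none h4]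
      omega
    · rw [Cut.s_fst]
      omega

theorem sh_inj {D : ℕ} (k : ℤ) :
    Function.Injective (fun x : Site D => ((x.1 + k, x.2) : Site D)) := by
  rintro ⟨x1, x2⟩ ⟨y1, y2⟩ h
  simp only [Prod.mk.injEq] at h
  exact Prod.ext (by simp only; omega) h.2

theorem shE_inj {D : ℕ} (k : ℤ) :
    Function.Injective (fun e : Edge D => (((e.1.1 + k, e.1.2), e.2) : Edge D)) := by
  rintro ⟨⟨x1, x2⟩, i⟩ ⟨⟨y1, y2⟩, j⟩ h
  simp only [Prod.mk.injEq] at h
  obtain ⟨⟨h1, h2⟩, h3⟩ := h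
  have h4 : x1 = y1 := by omega
  subst h4 h2 h3
  rfl

theorem lvw_sh {D : ℕ} (a : ℝ) (k : ℤ) (c : Pr D) (m : ℤ) :
    lvw a (sh k c).1 m = lvw a c.1 (m - k) := by
  unfold lvw sh
  simp only
  rw [Finset.sum_image fun x _ y _ h => sh_inj k h]
  refine Finset.sum_congr rfl fun x _ => ?_
  push_cast
  congr 3
  ring_nf

theorem card_upE_sh {D : ℕ} (k : ℤ) (c : Pr D) (m : ℤ) :
    (upE (sh k c).2 m).card = (upE c.2 (m - k)).card := by
  have h : upE (sh k c).2 m =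
      (upE c.2 (m - k)).image fun e => (((e.1.1 + k, e.1.2), e.2) : Edge D) := by
    ext e
    simp only [upE, sh, Finset.mem_filter, Finset.mem_image]
    constructor
    · rintro ⟨⟨e', he', rfl⟩, h1, h2⟩
      exact ⟨e', ⟨he', h1, by simp only at h2; omega⟩, rfl⟩
    · rintro ⟨e', ⟨he', h1, h2⟩, rfl⟩
      exact ⟨⟨e', he', rfl⟩, h1, by simp only; omega⟩
  rw [h, Finset.card_image_of_injective _ (shE_inj k)]

theorem good_sh {D : ℕ} (a M : ℝ) (k : ℤ) (c : Pr D) (m : ℤ) :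
    good a M (sh k c) m ↔ good a M c (m - k) := by
  unfold good
  rw [lvw_sh, card_upE_sh]

/-- A good cut of the middle part far from its ends is a good cut of the cluster. -/
theorem good_of_mid {D : ℕ} (a M : ℝ) (ha : 0 < a) (hM : 0 ≤ M) (s : ℕ)
    (hs : Real.exp (-(a * s)) ≤ 1 / 3) (c : Pr D) (m1 m2 m : ℤ) (h1 : lvw a c.1 m1 ≤ 3 * M)
    (h2 : lvw a c.1 m2 ≤ 3 * M) (hm1 : m1 < m) (hm2 : m < m2) (hs1 : m1 + s ≤ m)
    (hs2 : m + s ≤ m2) (hg : good a M (hi (lo c m2) m1) m) : good a (3 * M) c m := by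
  obtain ⟨h3, h4⟩ := hg
  rw [upE_mid c m1 m2 m hm1 hm2] at h3
  refine ⟨h3, ?_⟩
  have h5 := lvl_cut a (3 * M) ha c.1 m1 m2 m s h1 h2 hs1 hs2
  rw [lo_hi_fst] at h4
  have h6 : Real.exp (-(a * s)) * (3 * M) ≤ 1 / 3 * (3 * M) :=
    mul_le_mul_of_nonneg_right hs (by linarith)
  linarith

/-- Between two heights with small weighted number of sites and with no good cut between them
except possibly at the height `h0`, the middle part has few good cuts. -/
theorem ng_mid {D : ℕ} (a M : ℝ) (ha : 0 < a) (hM : 0 ≤ M) (s : ℕ)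
    (hs : Real.exp (-(a * s)) ≤ 1 / 3) (c : Pr D) (m1 m2 : ℤ) (n : ℕ) (hn : m1 + 1 + n = m2)
    (h1 : lvw a c.1 m1 ≤ 3 * M) (h2 : lvw a c.1 m2 ≤ 3 * M) (h0 : ℤ)
    (hno : ∀ m, m1 < m → m < m2 → m ≠ h0 → ¬ good a (3 * M) c m) :
    ng a M (mid c m1 m2) n ≤ 2 * s + 1 := by
  classical
  have hsub : ((range n).filter fun m : ℕ => good a M (mid c m1 m2) (m : ℤ)) ⊆
      (range s ∪ (Finset.Ico (n - s) n)) ∪ {(h0 - (m1 + 1)).toNat} := by
    intro k hk
    rw [Finset.mem_filter, Finset.mem_range] at hk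
    obtain ⟨hk1, hk2⟩ := hk
    rw [mid, good_sh, sub_neg_eq_add] at hk2
    simp only [Finset.mem_union, Finset.mem_range, Finset.mem_Ico, Finset.mem_singleton]
    by_contra hcon
    push Not at hcon
    obtain ⟨⟨h3, h4⟩, h5⟩ := hcon
    have h6 : k < n - s := by
      by_contra h
      push Not at h
      exact absurd (h4 h) (by omega)
    refine hno (k + (m1 + 1)) (by omega) (by omega) (by omega)
      (good_of_mid a M ha hM s hs c m1 m2 _ h1 h2 (by omega) (by omega) (by omega) (by omega) hk2)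
  unfold ng
  have h7 : ((range s ∪ (Finset.Ico (n - s) n)) ∪ {(h0 - (m1 + 1)).toNat}).card ≤ 2 * s + 1 := by
    refine (Finset.card_union_le _ _).trans ?_
    rw [Finset.card_singleton]
    refine Nat.add_le_add_right ((Finset.card_union_le _ _).trans ?_) 1
    rw [Finset.card_range, Nat.card_Ico]
    omega
  refine le_trans (Finset.card_le_card ?_) h7
  convert hsub

end Stab

end Pool.Agent.DL
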