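import Pool.Agent.DL.FKC

/-!
# Comparison of the weights of two clusters which differ in a bounded region
-/

set_option autoImplicit false
set_option linter.unusedSectionVars false

namespace Pool.Agent.DL

open Finset

namespace Gr

variable {V ι : Type} [DecidableEq V] [DecidableEq ι] (G : Gr V ι)
variable (q : ℝ) (v : ι → ℝ)

theorem ze_anti_left (hq : 0 < q) (hv : ∀ e, 0 ≤ v e) (Ed : Finset ι) {A B : Finset V}
    (h : A ⊆ B) : G.ze q v Ed B ≤ G.ze q v Ed A := by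
  have e : B = A ∪ B := (Finset.union_eq_right.2 h).symm
  rw [e, G.ze_union_eq q v hq hv]
  exact mul_le_of_le_one_right (G.ze_pos q v hq hv Ed A).le (G.ze_le_one q v hq hv _ _)

theorem ze_le_ze (hq : 1 ≤ q) (vm : ℝ) (hv : ∀ e, 0 ≤ v e) (hvm : ∀ e, v e ≤ vm)
    (hm : 0 ≤ vm) (Ed : Finset ι) {A A' B : Finset V} (hA : A' ⊆ A ∪ B) (n : ℕ)
    (hn : (G.tch B Ed).card ≤ n) :
    G.ze q v Ed A ≤ (1 + vm) ^ n * G.ze q v Ed A' := by
  have hq0 : 0 < q := by linarith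
  have h1 : G.ze q v Ed (A ∪ B) ≤ G.ze q v Ed A' := G.ze_anti_left q v hq0 hv Ed hA
  rw [G.ze_union_eq q v hq0 hv] at h1
  have h2 := G.ze_ge q v hq vm hv hvm (G.del A Ed) B
  have h3 : (G.tch B (G.del A Ed)).card ≤ n := by
    refine (card_le_card ?_).trans hn
    intro e he
    rw [mem_tch] at he ⊢
    exact ⟨G.del_subset A Ed he.1, he.2⟩
  have h4 : ((1 + vm) ^ n)⁻¹ ≤ G.ze q v (G.del A Ed) B := by
    refine le_trans ?_ h2
    refine inv_anti₀ (by positivity) (pow_le_pow_right₀ (by linarith) h3)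
  have h5 : G.ze q v Ed A * ((1 + vm) ^ n)⁻¹ ≤ G.ze q v Ed A' :=
    le_trans (mul_le_mul_of_nonneg_left h4 (G.ze_pos q v hq0 hv Ed A).le) h1
  have hp : (0 : ℝ) < (1 + vm) ^ n := by positivity
  rw [← div_eq_mul_inv, div_le_iff₀ hp] at h5
  linarith

theorem cw_le_cw (hq : 1 ≤ q) (v0 vm : ℝ) (h0 : 0 < v0) (h1 : v0 ≤ 1) (hm : 0 ≤ vm)
    (hv : ∀ e, v0 ≤ v e) (hvm : ∀ e, v e ≤ vm) {A A' : Finset V} {E E' S : Finset ι}
    (hE : ∀ e, e ∉ S → (e ∈ E ↔ e ∈ E')) (s b : ℕ) (hs : S.card ≤ s) (hb : A'.card ≤ A.card + b) :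
    cw q v A E ≤ ((1 + vm) / v0) ^ s * q ^ b * cw q v A' E' := by
  have hq0 : 0 < q := by linarith
  have hqp : (q⁻¹) ^ (A.card - 1) ≤ q ^ b * (q⁻¹) ^ (A'.card - 1) := by
    have e1 : (q⁻¹) ^ (A.card - 1 + b) ≤ (q⁻¹) ^ (A'.card - 1) :=
      pow_le_pow_of_le_one (by positivity) (inv_le_one_of_one_le₀ hq) (by omega)
    rw [pow_add] at e1
    have e2 : q ^ b * (q⁻¹) ^ b = 1 := by
      rw [← mul_pow, mul_inv_cancel₀ hq0.ne', one_pow]
    calc (q⁻¹) ^ (A.card - 1) = q ^ b * ((q⁻¹) ^ (A.card - 1) * (q⁻¹) ^ b) := by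
          rw [mul_comm ((q⁻¹) ^ (A.card - 1)), ← mul_assoc, e2, one_mul]
      _ ≤ _ := mul_le_mul_of_nonneg_left e1 (by positivity)
  have hx : ∀ F : Finset ι, ∏ e ∈ F, v e = (∏ e ∈ F \ S, v e) * ∏ e ∈ F ∩ S, v e := by
    intro F
    rw [← prod_union (disjoint_sdiff_inter F S), sdiff_union_inter]
  have hES : E \ S = E' \ S := by
    ext e
    simp only [mem_sdiff]
    constructor
    · rintro ⟨a, b⟩
      exact ⟨(hE e b).1 a, b⟩
    · rintro ⟨a, b⟩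
      exact ⟨(hE e b).2 a, b⟩
  have hP : 0 ≤ ∏ e ∈ E \ S, v e := prod_nonneg fun e _ => h0.le.trans (hv e)
  have up : ∏ e ∈ E ∩ S, v e ≤ (1 + vm) ^ s := by
    calc ∏ e ∈ E ∩ S, v e ≤ ∏ _e ∈ E ∩ S, (1 + vm) :=
          prod_le_prod (fun e _ => h0.le.trans (hv e)) fun e _ => by linarith [hvm e]
      _ = (1 + vm) ^ (E ∩ S).card := by rw [prod_const]
      _ ≤ (1 + vm) ^ s := pow_le_pow_right₀ (by linarith)
          ((card_le_card inter_subset_right).trans hs)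
  have lo : v0 ^ s ≤ ∏ e ∈ E' ∩ S, v e := by
    calc v0 ^ s ≤ v0 ^ (E' ∩ S).card := pow_le_pow_of_le_one h0.le h1
          ((card_le_card inter_subset_right).trans hs)
      _ = ∏ _e ∈ E' ∩ S, v0 := by rw [prod_const]
      _ ≤ _ := prod_le_prod (fun e _ => h0.le) fun e _ => hv e
  have hmain : ∏ e ∈ E, v e ≤ ((1 + vm) / v0) ^ s * ∏ e ∈ E', v e := by
    rw [hx E, hx E', ← hES, div_pow]
    have hv0s : 0 < v0 ^ s := by positivity
    calc (∏ e ∈ E \ S, v e) * ∏ e ∈ E ∩ S, v e ≤ (∏ e ∈ E \ S, v e) * (1 + vm) ^ s :=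
          mul_le_mul_of_nonneg_left up hP
      _ = (1 + vm) ^ s / v0 ^ s * ((∏ e ∈ E \ S, v e) * v0 ^ s) := by
          field_simp
      _ ≤ _ := mul_le_mul_of_nonneg_left (mul_le_mul_of_nonneg_left lo hP) (by positivity)
  unfold cw
  have hp' : 0 ≤ ∏ e ∈ E', v e := prod_nonneg fun e _ => h0.le.trans (hv e)
  calc (∏ e ∈ E, v e) * (q⁻¹) ^ (A.card - 1) ≤
      (((1 + vm) / v0) ^ s * ∏ e ∈ E', v e) * (q ^ b * (q⁻¹) ^ (A'.card - 1)) :=
        mul_le_mul hmain hqp (by positivity) (by positivity)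
    _ = _ := by ring

/-- Two clusters which differ only in a bounded region have comparable weights. -/
theorem mu_le_mu (hq : 1 ≤ q) (v0 vm : ℝ) (h0 : 0 < v0) (h1 : v0 ≤ 1) (hm : 0 ≤ vm)
    (hv : ∀ e, v0 ≤ v e) (hvm : ∀ e, v e ≤ vm) (Ed : Finset ι) {A A' B : Finset V}
    {E E' S : Finset ι} (hE : ∀ e, e ∉ S → (e ∈ E ↔ e ∈ E')) (hA : A' ⊆ A ∪ B) (s b n : ℕ)
    (hs : S.card ≤ s) (hb : B.card ≤ b) (hn : (G.tch B Ed).card ≤ n) :
    cw q v A E * G.ze q v Ed A ≤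
      ((1 + vm) / v0) ^ s * q ^ b * (1 + vm) ^ n * (cw q v A' E' * G.ze q v Ed A') := by
  have hb' : A'.card ≤ A.card + b :=
    (card_le_card hA).trans ((card_union_le _ _).trans (by omega))
  have e1 := cw_le_cw q v hq v0 vm h0 h1 hm hv hvm hE s b hs hb'
  have e2 := G.ze_le_ze q v hq vm (fun e => h0.le.trans (hv e)) hvm hm Ed hA n hn
  have hq0 : 0 < q := by linarith
  have hz := (G.ze_pos q v hq0 (fun e => h0.le.trans (hv e)) Ed A).le
  have hc : 0 ≤ cw q v A' E' := by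
    unfold cw
    exact mul_nonneg (prod_nonneg fun e _ => h0.le.trans (hv e)) (by positivity)
  calc cw q v A E * G.ze q v Ed A ≤ (((1 + vm) / v0) ^ s * q ^ b * cw q v A' E') *
        ((1 + vm) ^ n * G.ze q v Ed A') := mul_le_mul e1 e2 hz (by positivity)
    _ = _ := by ring

end Gr

end Pool.Agent.DL
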