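import Pool.Agent.DL.FKC

/-!
# The exploration bound

`C` is a set of cut edges. The clusters which meet a finite set `U` of vertices are decomposed into
the components of the configuration without the edges of `C`. If each component gets a factor
`f` which is integrable in every edge set (including a factor `1 + M v` for each edge of `C` at the
component), then the product of the factors has expectation at most `M ^ |U|`.
-/

set_option autoImplicit false
set_option linter.unusedSectionVars false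

namespace Pool.Agent.DL

open Finset

namespace Gr

variable {V ι : Type} [DecidableEq V] [DecidableEq ι] (G : Gr V ι)

section T

variable (q : ℝ) (v : ι → ℝ)

open Classical in
/-- The vertices connected to `x`. -/
noncomputable def comp (ω : Finset ι) (x : V) : Finset V := (G.vs ω x).filter (G.Rch ω x)

theorem mem_comp {ω : Finset ι} {x y : V} : y ∈ G.comp ω x ↔ G.Rch ω x y := by
  classical
  rw [comp, Finset.mem_filter]
  exact ⟨fun h => h.2, fun h => ⟨G.rch_vs h, h⟩⟩

theorem comp_self (ω : Finset ι) (x : V) : x ∈ G.comp ω x := (G.mem_comp).2 (G.rch_refl _ _)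

theorem cls_comp (ω : Finset ι) (x : V) :
    G.Cls ω x (G.comp ω x) (G.tch (G.comp ω x) ω) := by
  obtain ⟨A, E, h, _, _⟩ := G.cls_exists ω x
  have h1 : A = G.comp ω x := by
    ext y
    rw [G.cls_iff h, G.mem_comp]
  have h2 : E = G.tch (G.comp ω x) ω := by rw [← h1, h.2.2]
  rw [← h1] at h2 ⊢
  rw [← h2]
  exact h

theorem comp_subset_vs (ω : Finset ι) (x : V) : G.comp ω x ⊆ G.vs ω x :=
  fun _ h => G.rch_vs ((G.mem_comp).1 h)

/-- The vertices connected to `U`. -/
noncomputable def reach (ω : Finset ι) (U : Finset V) : Finset V := U.biUnion (G.comp ω)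

theorem mem_reach {ω : Finset ι} {U : Finset V} {y : V} :
    y ∈ G.reach ω U ↔ ∃ u ∈ U, G.Rch ω u y := by
  simp [reach, mem_comp]

/-- The component of `y`, with its edges. -/
noncomputable def cmp (ω : Finset ι) (y : V) : Finset V × Finset ι :=
  (G.comp ω y, G.tch (G.comp ω y) ω)

variable (C : Finset ι) (f : Finset V → Finset ι → ℝ)

/-- The components, without the edges of `C`, of the clusters which meet `U`. -/
noncomputable def slabs (ω : Finset ι) (U : Finset V) : Finset (Finset V × Finset ι) :=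
  (G.reach ω U).image (G.cmp (ω \ C))

/-- The product of the factors of the components. -/
noncomputable def Theta (ω : Finset ι) (U : Finset V) : ℝ :=
  ∏ g ∈ G.slabs C ω U, f g.1 g.2

theorem Theta_nonneg (hf : ∀ A E, 0 ≤ f A E) (ω : Finset ι) (U : Finset V) :
    0 ≤ G.Theta C f ω U := Finset.prod_nonneg fun _ _ => hf _ _

/-- The vertices of `F` and `U` outside `A`. -/
noncomputable def nxt (U A : Finset V) (F : Finset ι) : Finset V :=
  (U ∪ (F.image G.s ∪ F.image G.t)) \ A

variable {C}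

/-- The component `(A, E)` of `x` without `C`, and a vertex `y` outside. -/
theorem rch_out {ω : Finset ι} {x y z : V} (hy : y ∉ G.comp (ω \ C) x)
    (h : G.Rch (ω \ C) y z) :
    z ∉ G.comp (ω \ C) x ∧ G.Rch (G.del (G.comp (ω \ C) x) ω \ C) y z := by
  have h0 := G.cls_comp (ω \ C) x
  obtain ⟨h1, h2⟩ := G.rch_del h0.1 h0.2.2 hy h
  refine ⟨h2, G.rch_mono ?_ h1⟩
  intro e he
  rw [mem_del, Finset.mem_sdiff] at he
  rw [Finset.mem_sdiff, mem_del]
  exact ⟨⟨he.1.1, he.2⟩, he.1.2⟩

theorem comp_out {ω : Finset ι} {x y : V} (hy : y ∉ G.comp (ω \ C) x) :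
    G.comp (G.del (G.comp (ω \ C) x) ω \ C) y = G.comp (ω \ C) y := by
  ext z
  rw [mem_comp, mem_comp]
  constructor
  · intro h
    refine G.rch_mono ?_ h
    exact Finset.sdiff_subset_sdiff (G.del_subset _ _) (Finset.Subset.refl _)
  · intro h
    exact (G.rch_out hy h).2

theorem cmp_out {ω : Finset ι} {x y : V} (hy : y ∉ G.comp (ω \ C) x) :
    G.cmp (G.del (G.comp (ω \ C) x) ω \ C) y = G.cmp (ω \ C) y := by
  unfold cmp
  rw [G.comp_out hy]
  refine Prod.ext rfl ?_
  show G.tch (G.comp (ω \ C) y) (G.del (G.comp (ω \ C) x) ω \ C) =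
    G.tch (G.comp (ω \ C) y) (ω \ C)
  ext e
  rw [mem_tch, mem_tch, Finset.mem_sdiff, mem_del, Finset.mem_sdiff]
  constructor
  · rintro ⟨⟨⟨h1, _⟩, h2⟩, h3⟩
    exact ⟨⟨h1, h2⟩, h3⟩
  · rintro ⟨⟨h1, h2⟩, h3⟩
    have h0 := G.cls_comp (ω \ C) y
    have h4 : e ∈ G.tch (G.comp (ω \ C) y) (ω \ C) := by
      rw [mem_tch, Finset.mem_sdiff]
      exact ⟨⟨h1, h2⟩, h3⟩
    have h5 := h0.1.2.1 e h4
    have h6 : ∀ z, z ∈ G.comp (ω \ C) y → z ∉ G.comp (ω \ C) x := fun z hz =>
      (G.rch_out hy ((G.mem_comp).1 hz)).1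
    exact ⟨⟨⟨h1, h6 _ h5.1, h6 _ h5.2⟩, h2⟩, h3⟩

theorem reach_out {ω : Finset ι} {U : Finset V} {x : V} (hx : x ∈ U) (y : V) :
    y ∈ G.reach (G.del (G.comp (ω \ C) x) ω)
      (G.nxt U (G.comp (ω \ C) x) (G.tch (G.comp (ω \ C) x) (ω ∩ C))) ↔
      y ∈ G.reach ω U ∧ y ∉ G.comp (ω \ C) x := by
  set A := G.comp (ω \ C) x with hA
  have h0 := G.cls_comp (ω \ C) x
  rw [← hA] at h0
  have hAr : ∀ z ∈ A, G.Rch ω x z := fun z hz =>
    G.rch_mono Finset.sdiff_subset ((G.mem_comp).1 hz)
  constructor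
  · intro h
    obtain ⟨u, hu, h1⟩ := (G.mem_reach).1 h
    have hu' := hu
    rw [nxt, Finset.mem_sdiff, Finset.mem_union, Finset.mem_union, Finset.mem_image,
      Finset.mem_image] at hu'
    obtain ⟨hu1, hu2⟩ := hu'
    have h2 : G.Rch ω u y := G.rch_mono (G.del_subset _ _) h1
    have h3 : y ∉ A := by
      have : ∀ z, G.Rch (G.del A ω) u z → z ∉ A := by
        intro z hz
        unfold Rch at hz
        induction hz with
        | refl => exact hu2
        | tail _ h5 _ =>
          obtain ⟨e, he, h6⟩ := h5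
          rw [mem_del] at he
          rcases h6 with ⟨_, h6⟩ | ⟨h6, _⟩
          · rw [← h6]; exact he.2.2
          · rw [← h6]; exact he.2.1
      exact this y h1
    refine ⟨(G.mem_reach).2 ?_, h3⟩
    rcases hu1 with hu1 | ⟨e, he, rfl⟩ | ⟨e, he, rfl⟩
    · exact ⟨u, hu1, h2⟩
    · rw [mem_tch, Finset.mem_inter] at he
      have h4 : G.t e ∈ A := by
        rcases he.2 with h5 | h5
        · exact absurd h5 hu2
        · exact h5
      exact ⟨x, hx, G.rch_trans (hAr _ h4) (G.rch_trans (G.rch_symm (G.rch_edge he.1.1)) h2)⟩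
    · rw [mem_tch, Finset.mem_inter] at he
      have h4 : G.s e ∈ A := by
        rcases he.2 with h5 | h5
        · exact h5
        · exact absurd h5 hu2
      exact ⟨x, hx, G.rch_trans (hAr _ h4) (G.rch_trans (G.rch_edge he.1.1) h2)⟩
  · rintro ⟨h, hy⟩
    obtain ⟨u, hu, h1⟩ := (G.mem_reach).1 h
    rw [mem_reach]
    have key : ∀ z, G.Rch ω u z → z ∉ A →
        ∃ w ∈ G.nxt U A (G.tch A (ω ∩ C)), G.Rch (G.del A ω) w z := by
      intro z hz
      unfold Rch at hz
      induction hz with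
      | refl =>
        intro h2
        refine ⟨u, ?_, G.rch_refl _ _⟩
        rw [nxt, Finset.mem_sdiff, Finset.mem_union]
        exact ⟨Or.inl hu, h2⟩
      | @tail a b _ h5 ih =>
        intro h2
        obtain ⟨e, he, h6⟩ := h5
        by_cases ha : a ∈ A
        · have heC : e ∈ C := by
            by_contra hc
            have h7 : e ∈ G.tch A (ω \ C) := by
              rw [mem_tch, Finset.mem_sdiff]
              refine ⟨⟨he, hc⟩, ?_⟩
              rcases h6 with ⟨h6, _⟩ | ⟨_, h6⟩
              · left; rw [h6]; exact ha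
              · right; rw [h6]; exact ha
            have h8 := h0.1.2.1 e h7
            rcases h6 with ⟨_, h6⟩ | ⟨h6, _⟩
            · rw [h6] at h8; exact h2 h8.2
            · rw [h6] at h8; exact h2 h8.1
          refine ⟨b, ?_, G.rch_refl _ _⟩
          rw [nxt, Finset.mem_sdiff, Finset.mem_union, Finset.mem_union, Finset.mem_image,
            Finset.mem_image]
          refine ⟨Or.inr ?_, h2⟩
          rcases h6 with ⟨h6, h7⟩ | ⟨h6, h7⟩
          · right
            refine ⟨e, ?_, h7⟩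
            rw [mem_tch, Finset.mem_inter]
            refine ⟨⟨he, heC⟩, Or.inl ?_⟩
            rw [h6]; exact ha
          · left
            refine ⟨e, ?_, h6⟩
            rw [mem_tch, Finset.mem_inter]
            refine ⟨⟨he, heC⟩, Or.inr ?_⟩
            rw [h7]; exact ha
        · obtain ⟨w, hw, h7⟩ := ih ha
          refine ⟨w, hw, ?_⟩
          have h8 : e ∈ G.del A ω := by
            rw [mem_del]
            rcases h6 with ⟨h6, h9⟩ | ⟨h6, h9⟩
            · rw [h6, h9]; exact ⟨he, ha, h2⟩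
            · rw [h6, h9]; exact ⟨he, h2, ha⟩
          have h10 := G.rch_edge h8
          rcases h6 with ⟨h6, h9⟩ | ⟨h6, h9⟩
          · rw [h6, h9] at h10
            exact G.rch_trans h7 h10
          · rw [h6, h9] at h10
            exact G.rch_trans h7 (G.rch_symm h10)
    exact key y h1 hy

/-- Exploration of the component of one of the roots. -/
theorem Theta_rec {ω : Finset ι} {U : Finset V} {x : V} (hx : x ∈ U) :
    G.Theta C f ω U = f (G.comp (ω \ C) x) (G.tch (G.comp (ω \ C) x) (ω \ C)) *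
      G.Theta C f (G.del (G.comp (ω \ C) x) ω)
        (G.nxt U (G.comp (ω \ C) x) (G.tch (G.comp (ω \ C) x) (ω ∩ C))) := by
  set A := G.comp (ω \ C) x with hA
  have h1 : G.slabs C ω U = insert (A, G.tch A (ω \ C))
      (G.slabs C (G.del A ω) (G.nxt U A (G.tch A (ω ∩ C)))) := by
    ext g
    rw [Finset.mem_insert, slabs, slabs, Finset.mem_image, Finset.mem_image]
    constructor
    · rintro ⟨y, hy, rfl⟩
      by_cases hyA : y ∈ A
      · left
        have h2 : G.comp (ω \ C) y = A := by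
          ext z
          rw [hA, mem_comp, mem_comp]
          have h3 : G.Rch (ω \ C) x y := (G.mem_comp).1 hyA
          exact ⟨fun h => G.rch_trans h3 h, fun h => G.rch_trans (G.rch_symm h3) h⟩
        unfold cmp
        rw [h2]
      · right
        refine ⟨y, (G.reach_out hx y).2 ⟨hy, hyA⟩, ?_⟩
        exact G.cmp_out hyA
    · rintro (rfl | ⟨y, hy, rfl⟩)
      · exact ⟨x, (G.mem_reach).2 ⟨x, hx, G.rch_refl _ _⟩, rfl⟩
      · obtain ⟨h2, h3⟩ := (G.reach_out hx y).1 hy
        exact ⟨y, h2, (G.cmp_out h3).symm⟩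
  have h2 : (A, G.tch A (ω \ C)) ∉
      G.slabs C (G.del A ω) (G.nxt U A (G.tch A (ω ∩ C))) := by
    intro h
    rw [slabs, Finset.mem_image] at h
    obtain ⟨y, hy, h3⟩ := h
    have h4 := ((G.reach_out hx y).1 hy).2
    have h5 : G.comp (G.del A ω \ C) y = A := congrArg Prod.fst h3
    apply h4
    rw [← hA, ← h5]
    exact G.comp_self _ _
  unfold Theta
  rw [h1, Finset.prod_insert h2]

theorem split_eq (ω : Finset ι) (x : V) :
    G.tch (G.comp (ω \ C) x) (ω \ C) ∪ G.tch (G.comp (ω \ C) x) (ω ∩ C) ∪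
      G.del (G.comp (ω \ C) x) ω = ω := by
  ext e
  simp only [Finset.mem_union, mem_tch, mem_del, Finset.mem_sdiff, Finset.mem_inter]
  tauto

theorem wt_split (hq : 1 ≤ q) (hv : ∀ e, 0 ≤ v e) {A : Finset V} {E F ω : Finset ι}
    (h : G.IsCl A E) (hω : ∀ e ∈ ω, G.s e ∉ A ∧ G.t e ∉ A) (hEF : Disjoint (E ∪ ω) F) :
    G.wt q v (E ∪ F ∪ ω) ≤ cw q v A E * (∏ e ∈ F, v e) * G.wt q v ω := by
  have h1 : E ∪ F ∪ ω = (E ∪ ω) ∪ F := by
    ext e
    simp only [Finset.mem_union]
    tauto
  rw [h1]
  refine (G.wt_union_le q v hq hv _ _ hEF).trans (le_of_eq ?_)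
  rw [G.wt_cl q v h hω]
  ring

theorem card_nxt {U A : Finset V} {x : V} (hx : x ∈ U) (hxA : x ∈ A) {F : Finset ι}
    (hF : ∀ e ∈ F, G.s e ∈ A ∨ G.t e ∈ A) : (G.nxt U A F).card + 1 ≤ U.card + F.card := by
  classical
  have h1 : G.nxt U A F ⊆ U.erase x ∪ (F.image fun e => if G.s e ∈ A then G.t e else G.s e) := by
    intro y hy
    rw [nxt, Finset.mem_sdiff, Finset.mem_union, Finset.mem_union, Finset.mem_image,
      Finset.mem_image] at hy
    obtain ⟨h1, h2⟩ := hy
    rw [Finset.mem_union, Finset.mem_erase, Finset.mem_image]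
    rcases h1 with h1 | ⟨e, he, rfl⟩ | ⟨e, he, rfl⟩
    · left
      refine ⟨?_, h1⟩
      rintro rfl
      exact h2 hxA
    · right
      refine ⟨e, he, ?_⟩
      rw [if_neg h2]
    · right
      refine ⟨e, he, ?_⟩
      have h3 : G.s e ∈ A := by
        rcases hF e he with h4 | h4
        · exact h4
        · exact absurd h4 h2
      rw [if_pos h3]
  have h2 := (Finset.card_le_card h1).trans (Finset.card_union_le _ _)
  have h3 := Finset.card_image_le (s := F) (f := fun e => if G.s e ∈ A then G.t e else G.s e)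
  have h4 : (U.erase x).card + 1 = U.card := Finset.card_erase_add_one hx
  omega

theorem cw_nonneg (hq : 0 < q) (hv : ∀ e, 0 ≤ v e) (A : Finset V) (E : Finset ι) :
    0 ≤ cw q v A E :=
  mul_nonneg (Finset.prod_nonneg fun e _ => hv e) (pow_nonneg (inv_nonneg.2 hq.le) _)

open Classical in
/-- The exploration bound. -/
theorem theta_le (hq : 1 ≤ q) (hv : ∀ e, 0 ≤ v e) (C : Finset ι) (f : Finset V → Finset ι → ℝ)
    (hf : ∀ A E, 0 ≤ f A E) (M : ℝ) (hM : 1 ≤ M) (n : ℕ) :
    ∀ (Ed : Finset ι) (U : Finset V), Ed.card + U.card = n →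
    (∀ Ed' ⊆ Ed, ∀ x, (∑ A ∈ (G.vs Ed' x).powerset, ∑ E ∈ (Ed' \ C).powerset,
      if G.IsCl A E ∧ x ∈ A then cw q v A E * G.ze q v Ed' A *
        (f A E * ∏ e ∈ G.tch A (Ed' ∩ C), (1 + M * v e)) else 0) ≤ M) →
    (∑ ω ∈ Ed.powerset, G.wt q v ω * G.Theta C f ω U) ≤ M ^ U.card * G.zz q v Ed := by
  have hq0 : 0 < q := by linarith
  have hM0 : 0 ≤ M := by linarith
  induction n using Nat.strong_induction_on with
  | _ n ih =>
  intro Ed U hn H
  rcases U.eq_empty_or_nonempty with hU | ⟨x, hx⟩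
  · subst hU
    have h1 : ∀ ω, G.Theta C f ω ∅ = 1 := by
      intro ω
      simp [Theta, slabs, reach]
    simp only [h1, mul_one, Finset.card_empty, pow_zero, one_mul]
    exact le_refl _
  -- the summand, as a function of the four parts
  set h : Finset V × Finset ι × Finset ι × Finset ι → ℝ := fun p =>
    if G.IsCl p.1 p.2.1 ∧ x ∈ p.1 ∧ p.2.2.1 ⊆ G.tch p.1 (Ed ∩ C) ∧
        p.2.2.2 ⊆ G.del p.1 Ed then
      cw q v p.1 p.2.1 * (∏ e ∈ p.2.2.1, v e) * G.wt q v p.2.2.2 *
        (f p.1 p.2.1 * G.Theta C f p.2.2.2 (G.nxt U p.1 p.2.2.1)) else 0 with hh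
  have hh0 : ∀ p, 0 ≤ h p := by
    intro p
    simp only [hh]
    split_ifs
    · refine mul_nonneg (mul_nonneg (mul_nonneg (cw_nonneg q v hq0 hv _ _)
        (Finset.prod_nonneg fun e _ => hv e)) (G.wt_nonneg q v hq0 hv _))
        (mul_nonneg (hf _ _) (G.Theta_nonneg C f hf _ _))
    · exact le_refl _
  set dat : Finset ι → Finset V × Finset ι × Finset ι × Finset ι := fun ω =>
    (G.comp (ω \ C) x, G.tch (G.comp (ω \ C) x) (ω \ C), G.tch (G.comp (ω \ C) x) (ω ∩ C),
      G.del (G.comp (ω \ C) x) ω) with hdat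
  have hinj : Set.InjOn dat (Ed.powerset : Set (Finset ι)) := by
    intro a _ b _ hab
    have h1 := G.split_eq (C := C) a x
    have h2 := G.split_eq (C := C) b x
    simp only [hdat, Prod.mk.injEq] at hab
    obtain ⟨e1, e2, e3, e4⟩ := hab
    rw [← h1, ← h2, e2, e3, e4]
  have hle : ∀ ω ∈ Ed.powerset, G.wt q v ω * G.Theta C f ω U ≤ h (dat ω) := by
    intro ω hω
    rw [Finset.mem_powerset] at hω
    have h0 := G.cls_comp (ω \ C) x
    have hc : G.IsCl (dat ω).1 (dat ω).2.1 ∧ x ∈ (dat ω).1 ∧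
        (dat ω).2.2.1 ⊆ G.tch (dat ω).1 (Ed ∩ C) ∧ (dat ω).2.2.2 ⊆ G.del (dat ω).1 Ed := by
      refine ⟨h0.1, h0.2.1, ?_, ?_⟩
      · intro e he
        have he' := (G.mem_tch).1 he
        rw [mem_tch]
        rw [Finset.mem_inter] at he' ⊢
        exact ⟨⟨hω he'.1.1, he'.1.2⟩, he'.2⟩
      · exact G.del_mono _ hω
    simp only [hh]
    rw [if_pos hc]
    have h3 := G.wt_split q v hq hv (A := G.comp (ω \ C) x)
      (E := G.tch (G.comp (ω \ C) x) (ω \ C)) (F := G.tch (G.comp (ω \ C) x) (ω ∩ C))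
      (ω := G.del (G.comp (ω \ C) x) ω) h0.1 (fun e he => ((G.mem_del).1 he).2) ?_
    · rw [G.split_eq ω x] at h3
      rw [G.Theta_rec f hx]
      exact mul_le_mul_of_nonneg_right h3 (mul_nonneg (hf _ _) (G.Theta_nonneg C f hf _ _))
    · rw [Finset.disjoint_left]
      intro e he he'
      rw [mem_tch, Finset.mem_inter] at he'
      rw [Finset.mem_union, mem_tch, mem_del, Finset.mem_sdiff] at he
      rcases he with he | he
      · exact he.1.2 he'.1.2
      · rcases he'.2 with h5 | h5
        · exact he.2.1 h5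
        · exact he.2.2 h5
  have hstep1 : (∑ ω ∈ Ed.powerset, G.wt q v ω * G.Theta C f ω U) ≤
      ∑ p ∈ (G.vs Ed x).powerset ×ˢ (Ed \ C).powerset ×ˢ Ed.powerset ×ˢ Ed.powerset, h p := by
    refine (Finset.sum_le_sum hle).trans ?_
    rw [← Finset.sum_image (f := h) hinj]
    refine Finset.sum_le_sum_of_subset_of_nonneg ?_ (fun p _ _ => hh0 p)
    intro p hp
    rw [Finset.mem_image] at hp
    obtain ⟨ω, hω, rfl⟩ := hp
    rw [Finset.mem_powerset] at hω
    rw [Finset.mem_product, Finset.mem_product, Finset.mem_product, Finset.mem_powerset,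
      Finset.mem_powerset, Finset.mem_powerset, Finset.mem_powerset]
    refine ⟨?_, ?_, ?_, ?_⟩
    · exact (G.comp_subset_vs _ _).trans (G.vs_mono (Finset.sdiff_subset.trans hω) x)
    · exact (G.tch_subset _ _).trans (Finset.sdiff_subset_sdiff hω (Finset.Subset.refl _))
    · exact (G.tch_subset _ _).trans (Finset.inter_subset_left.trans hω)
    · exact (G.del_subset _ _).trans hω
  refine hstep1.trans ?_
  rw [Finset.sum_product]
  have hin : ∀ A ∈ (G.vs Ed x).powerset,
      (∑ y ∈ (Ed \ C).powerset ×ˢ Ed.powerset ×ˢ Ed.powerset, h (A, y)) ≤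
      ∑ E ∈ (Ed \ C).powerset, M ^ (U.card - 1) * G.zz q v Ed *
        (if G.IsCl A E ∧ x ∈ A then cw q v A E * G.ze q v Ed A *
        (f A E * ∏ e ∈ G.tch A (Ed ∩ C), (1 + M * v e)) else 0) := by
    intro A _
    rw [Finset.sum_product]
    refine Finset.sum_le_sum (fun E _ => ?_)
    rw [Finset.sum_product]
    by_cases hc : G.IsCl A E ∧ x ∈ A
    swap
    · rw [if_neg hc, mul_zero]
      refine le_of_eq (Finset.sum_eq_zero fun F _ => Finset.sum_eq_zero fun ω _ => ?_)
      simp only [hh]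
      rw [if_neg]
      rintro ⟨h1, h2, _⟩
      exact hc ⟨h1, h2⟩
    rw [if_pos hc]
    -- restrict the two sums
    have hr : (∑ F ∈ Ed.powerset, ∑ ω ∈ Ed.powerset, h (A, E, F, ω)) =
        ∑ F ∈ (G.tch A (Ed ∩ C)).powerset, ∑ ω ∈ (G.del A Ed).powerset,
          cw q v A E * (∏ e ∈ F, v e) * G.wt q v ω *
            (f A E * G.Theta C f ω (G.nxt U A F)) := by
      symm
      have hs1 : (G.tch A (Ed ∩ C)).powerset ⊆ Ed.powerset :=
        Finset.powerset_mono.2 ((G.tch_subset _ _).trans Finset.inter_subset_left)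
      have hs2 : (G.del A Ed).powerset ⊆ Ed.powerset :=
        Finset.powerset_mono.2 (G.del_subset _ _)
      rw [← Finset.sum_subset hs1]
      · refine Finset.sum_congr rfl (fun F hF => ?_)
        rw [Finset.mem_powerset] at hF
        rw [← Finset.sum_subset hs2]
        · refine Finset.sum_congr rfl (fun ω hω => ?_)
          rw [Finset.mem_powerset] at hω
          simp only [hh]
          rw [if_pos ⟨hc.1, hc.2, hF, hω⟩]
        · intro ω _ hω
          rw [Finset.mem_powerset] at hω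
          simp only [hh]
          rw [if_neg]
          rintro ⟨_, _, _, h4⟩
          exact hω h4
      · intro F _ hF
        rw [Finset.mem_powerset] at hF
        refine Finset.sum_eq_zero fun ω _ => ?_
        simp only [hh]
        rw [if_neg]
        rintro ⟨_, _, h3, _⟩
        exact hF h3
    rw [hr]
    have hbd : ∀ F ∈ (G.tch A (Ed ∩ C)).powerset,
        (∑ ω ∈ (G.del A Ed).powerset, cw q v A E * (∏ e ∈ F, v e) * G.wt q v ω *
            (f A E * G.Theta C f ω (G.nxt U A F))) ≤
        cw q v A E * f A E * (M ^ (U.card - 1) * G.zz q v (G.del A Ed)) *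
          ∏ e ∈ F, (M * v e) := by
      intro F hF
      rw [Finset.mem_powerset] at hF
      have hFA : ∀ e ∈ F, G.s e ∈ A ∨ G.t e ∈ A := fun e he => ((G.mem_tch).1 (hF he)).2
      have hcard := G.card_nxt hx hc.2 hFA
      have hdel : (G.del A Ed).card + F.card ≤ Ed.card := by
        have h1 : Disjoint (G.del A Ed) F := by
          rw [Finset.disjoint_left]
          intro e he he'
          rw [mem_del] at he
          rcases hFA e he' with h2 | h2
          · exact he.2.1 h2
          · exact he.2.2 h2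
        rw [← Finset.card_union_of_disjoint h1]
        refine Finset.card_le_card (Finset.union_subset (G.del_subset _ _) ?_)
        exact hF.trans ((G.tch_subset _ _).trans Finset.inter_subset_left)
      have hlt : (G.del A Ed).card + (G.nxt U A F).card < n := by omega
      have hi := ih _ hlt (G.del A Ed) (G.nxt U A F) rfl
        (fun Ed' hEd' y => H Ed' (hEd'.trans (G.del_subset _ _)) y)
      have h5 : (∑ ω ∈ (G.del A Ed).powerset, cw q v A E * (∏ e ∈ F, v e) * G.wt q v ω *
            (f A E * G.Theta C f ω (G.nxt U A F))) =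
          cw q v A E * (∏ e ∈ F, v e) * f A E *
            ∑ ω ∈ (G.del A Ed).powerset, G.wt q v ω * G.Theta C f ω (G.nxt U A F) := by
        rw [Finset.mul_sum]
        refine Finset.sum_congr rfl fun ω _ => ?_
        ring
      rw [h5]
      have h6 : 0 ≤ cw q v A E * (∏ e ∈ F, v e) * f A E :=
        mul_nonneg (mul_nonneg (cw_nonneg q v hq0 hv _ _)
          (Finset.prod_nonneg fun e _ => hv e)) (hf _ _)
      refine (mul_le_mul_of_nonneg_left hi h6).trans ?_
      rw [Finset.prod_mul_distrib, Finset.prod_const]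
      have h7 : M ^ (G.nxt U A F).card ≤ M ^ (U.card - 1) * M ^ F.card := by
        rw [← pow_add]
        have hUpos : 0 < U.card := Finset.card_pos.2 ⟨x, hx⟩
        exact pow_le_pow_right₀ hM (by omega)
      have h8 : 0 ≤ G.zz q v (G.del A Ed) := (G.zz_pos q v hq0 hv _).le
      calc cw q v A E * (∏ e ∈ F, v e) * f A E *
            (M ^ (G.nxt U A F).card * G.zz q v (G.del A Ed))
          ≤ cw q v A E * (∏ e ∈ F, v e) * f A E *
            ((M ^ (U.card - 1) * M ^ F.card) * G.zz q v (G.del A Ed)) :=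
            mul_le_mul_of_nonneg_left (mul_le_mul_of_nonneg_right h7 h8) h6
        _ = _ := by ring
    refine (Finset.sum_le_sum hbd).trans (le_of_eq ?_)
    rw [← Finset.mul_sum]
    have hprod : (∑ F ∈ (G.tch A (Ed ∩ C)).powerset, ∏ e ∈ F, (M * v e)) =
        ∏ e ∈ G.tch A (Ed ∩ C), (1 + M * v e) := by
      rw [Finset.prod_one_add]
    rw [hprod]
    have hz := (G.zz_pos q v hq0 hv Ed).ne'
    unfold ze
    field_simp
  refine (Finset.sum_le_sum hin).trans ?_
  simp only [← Finset.mul_sum]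
  have hH := H Ed (Finset.Subset.refl _) x
  have hUpos : 0 < U.card := Finset.card_pos.2 ⟨x, hx⟩
  have hk : 0 ≤ M ^ (U.card - 1) * G.zz q v Ed :=
    mul_nonneg (pow_nonneg hM0 _) (G.zz_pos q v hq0 hv Ed).le
  refine (mul_le_mul_of_nonneg_left hH hk).trans (le_of_eq ?_)
  have h9 : M ^ U.card = M ^ (U.card - 1) * M := by
    rw [← pow_succ]
    congr 1
    omega
  rw [h9]
  ring

end T

end Gr

end Pool.Agent.DL
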