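import Pool.Agent.DL.UniqW
import Pool.Agent.DL.Pot
import Pool.Agent.DL.Bdry
import Pool.Agent.DLS.Spin

/-!
# All boundary conditions give the same limit

For `0 < β < β_c` and every coupling of the line, the probability that two sites have the same
colour converges, uniformly in the boundary condition.
-/

set_option autoImplicit false
set_option linter.unusedSectionVars false

namespace Pool.Agent.DL.Uniq

open Finset Filter Topology
open Pool.Agent.DLS (co mem_box_co sphE crn mem_edg sph_coord crn_mem sph_conn br_mem_te edg_split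
  sph_disj first_exit latH ex_rch_mono)
open Pool.Agent.DL.UniqW (S S_le S_congr S_nonneg S_compl S_pos fkg_dec pr_eq pr_eq_true ind_pos
  ind_neg ind_nonneg ind_le Con vJ_pos wired_J sph_event)

section colours

variable {D q : ℕ} [NeZero q] {Λ : Finset (Site D)} (η : Site D → ZMod q)

theorem bx_in (s : Λ → ZMod q) {x : Site D} (h : x ∈ Λ) : bx η s x = s ⟨x, h⟩ := dif_pos h

theorem bx_out (s : Λ → ZMod q) {x : Site D} (h : x ∉ Λ) : bx η s x = η x := dif_neg h

theorem enB_eq (J : ℝ) (Λ : Finset (Site D)) (s : Λ → ZMod q) :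
    enB J Λ η s = ∑ e ∈ DLS.teL Λ,
      if bx η s ((lat D).s e) = bx η s ((lat D).t e) then (if OnL e then J else 1) else 0 := by
  have h := DLS.sum_teL Λ (fun x y => if bx η s x = bx η s y then SB.coup J x y else 0)
    fun x y => by
      have hc : SB.coup J x y = SB.coup J y x := by
        unfold SB.coup
        simp only [and_comm]
      by_cases h1 : bx η s x = bx η s y
      · rw [if_pos h1, if_pos h1.symm, hc]
      · rw [if_neg h1, if_neg fun h2 => h1 h2.symm]
  have h2 : ∑ e ∈ DLS.teL Λ,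
      (if bx η s ((lat D).s e) = bx η s ((lat D).t e) then (if OnL e then J else 1) else 0) =
      ∑ e ∈ DLS.teL Λ, if bx η s e.1 = bx η s (e.1 + SB.dir (e.2, true)) then
        SB.coup J e.1 (e.1 + SB.dir (e.2, true)) else 0 := by
    refine sum_congr rfl fun e _ => ?_
    have h3 := Pot.coup_edge (D := D) J e
    rw [← h3]
    rfl
  rw [h2, h]
  unfold enB
  congr 2
  refine sum_congr rfl fun x _ => sum_congr rfl fun y _ => ?_
  rw [ite_and]

theorem exp_enB (β J : ℝ) (Λ : Finset (Site D)) (s : Λ → ZMod q) :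
    Real.exp (β * enB J Λ η s) = ∑ ω ∈ (DLS.teL Λ).powerset,
      (∏ e ∈ ω, vJ β J e) * DLS.ind (DLS.Cn ω) (bx η s) := by
  classical
  rw [enB_eq, mul_sum, Real.exp_sum]
  have h1 : ∀ e ∈ DLS.teL Λ, Real.exp (β *
      if bx η s ((lat D).s e) = bx η s ((lat D).t e) then (if OnL e then J else 1) else 0) =
      1 + if bx η s ((lat D).s e) = bx η s ((lat D).t e) then vJ β J e else 0 := by
    intro e _
    unfold vJ
    split_ifs
    · ring
    · rw [mul_one]
      ring
    · rw [mul_zero, Real.exp_zero, add_zero]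
  rw [prod_congr rfl h1, prod_one_add]
  refine sum_congr rfl fun ω _ => ?_
  by_cases h : DLS.Cn ω (bx η s)
  · rw [ind_pos h, mul_one]
    exact prod_congr rfl fun e he => if_pos (h e he)
  · rw [ind_neg h, mul_zero]
    unfold DLS.Cn at h
    push Not at h
    obtain ⟨e, he, hne⟩ := h
    exact prod_eq_zero he (if_neg hne)

/-- The number of the compatible colourings with the property `f`. -/
noncomputable def cnt (Λ : Finset (Site D)) (ω : Finset (Edge D))
    (f : (Site D → ZMod q) → Prop) : ℝ :=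
  ∑ s : Λ → ZMod q, DLS.ind (fun σ => DLS.Cn ω σ ∧ f σ) (bx η s)

theorem sum_exp (β J : ℝ) (Λ : Finset (Site D)) (f : (Site D → ZMod q) → Prop) :
    ∑ s : Λ → ZMod q, DLS.ind f (bx η s) * Real.exp (β * enB J Λ η s) =
      ∑ ω ∈ (DLS.teL Λ).powerset, (∏ e ∈ ω, vJ β J e) * cnt η Λ ω f := by
  unfold cnt
  simp only [exp_enB, mul_sum]
  rw [sum_comm]
  refine sum_congr rfl fun ω _ => sum_congr rfl fun s _ => ?_
  by_cases h1 : DLS.Cn ω (bx η s)
  · by_cases h2 : f (bx η s)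
    · rw [ind_pos h1, ind_pos h2, ind_pos (A := fun σ => DLS.Cn ω σ ∧ f σ) ⟨h1, h2⟩]
      ring
    · rw [ind_neg h2, ind_neg (A := fun σ => DLS.Cn ω σ ∧ f σ) fun h => h2 h.2]
      ring
  · rw [ind_neg h1, ind_neg (A := fun σ => DLS.Cn ω σ ∧ f σ) fun h => h1 h.1]
    ring

theorem sameB_eq (β J : ℝ) (Λ : Finset (Site D)) (x y : Site D) :
    sameB D q β J Λ η x y =
      (∑ ω ∈ (DLS.teL Λ).powerset, (∏ e ∈ ω, vJ β J e) * cnt η Λ ω fun σ => σ x = σ y) /
        ∑ ω ∈ (DLS.teL Λ).powerset, (∏ e ∈ ω, vJ β J e) * cnt η Λ ω fun _ => True := by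
  rw [← sum_exp, ← sum_exp]
  unfold sameB
  congr 1
  · refine sum_congr rfl fun s _ => ?_
    by_cases h : bx η s x = bx η s y
    · rw [if_pos h, ind_pos (A := fun σ : Site D → ZMod q => σ x = σ y) h, one_mul]
    · rw [if_neg h, ind_neg (A := fun σ : Site D → ZMod q => σ x = σ y) h, zero_mul]
  · refine sum_congr rfl fun s _ => ?_
    rw [ind_pos (A := fun _ : Site D → ZMod q => True) trivial, one_mul]

/-- There is a compatible colouring. -/
def Ok (Λ : Finset (Site D)) (ω : Finset (Edge D)) : Prop :=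
  ∃ s : Λ → ZMod q, DLS.Cn ω (bx η s)

theorem cnt_eq (Λ : Finset (Site D)) (ω : Finset (Edge D)) :
    (cnt η Λ ω fun _ => True) = DLS.nc (lat D) q Λ ω * DLS.ind (Ok η Λ) ω := by
  classical
  by_cases h : Ok η Λ ω
  · rw [ind_pos h, mul_one]
    obtain ⟨s0, h0⟩ := h
    have h1 := DLS.sum_count (q := q) Λ ω fun _ => True
    simp only [and_true] at h1
    have h2 : (Nat.card {σ : DLS.Cg (lat D) q Λ ω // True} : ℝ) = DLS.nc (lat D) q Λ ω := by
      unfold DLS.nc
      rw [Nat.card_congr (Equiv.subtypeUnivEquiv fun _ => trivial)]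
    rw [h2] at h1
    rw [← h1]
    unfold cnt
    rw [← Equiv.sum_comp (Equiv.addRight s0)]
    refine sum_congr rfl fun s _ => ?_
    have h3 : ∀ x, bx η (Equiv.addRight s0 s) x = SB.ext s x + bx η s0 x := by
      intro x
      by_cases hx : x ∈ Λ
      · rw [bx_in η _ hx, bx_in η _ hx]
        unfold SB.ext
        rw [dif_pos hx]
        rfl
      · rw [bx_out η _ hx, bx_out η _ hx]
        unfold SB.ext
        rw [dif_neg hx, zero_add]
    by_cases h4 : DLS.Cn ω (SB.ext s)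
    · rw [if_pos h4, ind_pos (A := fun σ => DLS.Cn ω σ ∧ True)]
      refine ⟨fun e he => ?_, trivial⟩
      rw [h3, h3, h4 e he, h0 e he]
    · rw [if_neg h4, ind_neg (A := fun σ => DLS.Cn ω σ ∧ True)]
      rintro ⟨h5, -⟩
      refine h4 fun e he => ?_
      have h6 := h5 e he
      rw [h3, h3, h0 e he] at h6
      exact add_right_cancel h6
  · rw [ind_neg h, mul_zero]
    unfold cnt
    refine sum_eq_zero fun s _ => ind_neg (A := fun σ => DLS.Cn ω σ ∧ True) ?_
    rintro ⟨h1, -⟩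
    exact h ⟨s, h1⟩

theorem cnt_nonneg (Λ : Finset (Site D)) (ω : Finset (Edge D))
    (f : (Site D → ZMod q) → Prop) : 0 ≤ cnt η Λ ω f :=
  sum_nonneg fun _ _ => ind_nonneg _ _

theorem cnt_le (Λ : Finset (Site D)) (ω : Finset (Edge D)) {f g : (Site D → ZMod q) → Prop}
    (h : ∀ σ, DLS.Cn ω σ → f σ → g σ) : cnt η Λ ω f ≤ cnt η Λ ω g :=
  sum_le_sum fun _ _ => ind_le (A := fun σ => DLS.Cn ω σ ∧ f σ)
    (B := fun σ => DLS.Cn ω σ ∧ g σ) fun h1 => ⟨h1.1, h _ h1.1 h1.2⟩

theorem cnt_rch {ω : Finset (Edge D)} {x y : Site D} (h : (lat D).Rch ω x y) :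
    (cnt η Λ ω fun σ => σ x = σ y) = cnt η Λ ω fun _ => True :=
  le_antisymm (cnt_le η Λ ω fun _ _ _ => trivial)
    (cnt_le η Λ ω fun _ hσ _ => DLS.br_const q (G := lat D) hσ h)

open Classical in
/-- The colouring changed by `k` on the cluster of `x`. -/
noncomputable def shc (Λ : Finset (Site D)) (ω : Finset (Edge D)) (x : Site D) (k : ZMod q)
    (s : Λ → ZMod q) : Λ → ZMod q := fun z => s z + if (lat D).Rch ω x z.1 then k else 0

/-- The same as an equivalence. -/
noncomputable def shq (Λ : Finset (Site D)) (ω : Finset (Edge D)) (x : Site D) (k : ZMod q) :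
    (Λ → ZMod q) ≃ (Λ → ZMod q) where
  toFun := shc Λ ω x k
  invFun := shc Λ ω x (-k)
  left_inv := by
    classical
    intro s
    funext z
    unfold shc
    split_ifs <;> ring
  right_inv := by
    classical
    intro s
    funext z
    unfold shc
    split_ifs <;> ring

open Classical in
theorem bx_shc {ω : Finset (Edge D)} {x : Site D} (hx : ∀ y, y ∉ Λ → ¬ (lat D).Rch ω x y)
    (k : ZMod q) (s : Λ → ZMod q) (z : Site D) :
    bx η (shc Λ ω x k s) z = bx η s z + if (lat D).Rch ω x z then k else 0 := by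
  by_cases hz : z ∈ Λ
  · rw [bx_in η _ hz, bx_in η _ hz]
    rfl
  · rw [bx_out η _ hz, bx_out η _ hz, if_neg (hx z hz), add_zero]

theorem cn_shc {ω : Finset (Edge D)} {x : Site D} (hx : ∀ y, y ∉ Λ → ¬ (lat D).Rch ω x y)
    (k : ZMod q) (s : Λ → ZMod q) :
    DLS.Cn ω (bx η (shc Λ ω x k s)) ↔ DLS.Cn ω (bx η s) := by
  classical
  unfold DLS.Cn
  refine forall_congr' fun e => forall_congr' fun he => ?_
  rw [bx_shc η hx, bx_shc η hx]
  by_cases h1 : (lat D).Rch ω x ((lat D).s e)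
  · rw [if_pos h1, if_pos ((DLS.rch_step_iff (lat D) he).1 h1), add_left_inj]
  · rw [if_neg h1, if_neg fun h2 => h1 ((DLS.rch_step_iff (lat D) he).2 h2), add_zero, add_zero]

theorem cnt_not {ω : Finset (Edge D)} {x y : Site D} (hx : ∀ y, y ∉ Λ → ¬ (lat D).Rch ω x y)
    (hxy : ¬ (lat D).Rch ω x y) :
    q * (cnt η Λ ω fun σ => σ x = σ y) = cnt η Λ ω fun _ => True := by
  classical
  have h1 : ∀ c : ZMod q, (cnt η Λ ω fun σ => σ x - σ y = c) =
      cnt η Λ ω fun σ => σ x = σ y := by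
    intro c
    unfold cnt
    rw [← Equiv.sum_comp (shq Λ ω x c)]
    refine sum_congr rfl fun s _ => ?_
    change DLS.ind (fun σ => DLS.Cn ω σ ∧ σ x - σ y = c) (bx η (shc Λ ω x c s)) = _
    have h2 : bx η (shc Λ ω x c s) x = bx η s x + c := by
      rw [bx_shc η hx, if_pos ((lat D).rch_refl ω x)]
    have h3 : bx η (shc Λ ω x c s) y = bx η s y := by
      rw [bx_shc η hx, if_neg hxy, add_zero]
    have h4 : bx η (shc Λ ω x c s) x - bx η (shc Λ ω x c s) y = c ↔ bx η s x = bx η s y := by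
      rw [h2, h3, add_sub_right_comm, add_eq_right, sub_eq_zero]
    exact le_antisymm
      (ind_le (A := fun σ => DLS.Cn ω σ ∧ σ x - σ y = c) (B := fun σ => DLS.Cn ω σ ∧ σ x = σ y)
        fun h => ⟨(cn_shc η hx c s).1 h.1, h4.1 h.2⟩)
      (ind_le (A := fun σ => DLS.Cn ω σ ∧ σ x = σ y) (B := fun σ => DLS.Cn ω σ ∧ σ x - σ y = c)
        fun h => ⟨(cn_shc η hx c s).2 h.1, h4.2 h.2⟩)
  have h2 : ∑ c : ZMod q, (cnt η Λ ω fun σ => σ x - σ y = c) = cnt η Λ ω fun _ => True := by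
    unfold cnt
    rw [sum_comm]
    refine sum_congr rfl fun s _ => ?_
    rw [sum_eq_single (bx η s x - bx η s y)]
    · by_cases h : DLS.Cn ω (bx η s)
      · rw [ind_pos (A := fun σ => DLS.Cn ω σ ∧ σ x - σ y = bx η s x - bx η s y) ⟨h, rfl⟩,
          ind_pos (A := fun σ => DLS.Cn ω σ ∧ True) ⟨h, trivial⟩]
      · rw [ind_neg (A := fun σ => DLS.Cn ω σ ∧ σ x - σ y = bx η s x - bx η s y) fun h' => h h'.1,
          ind_neg (A := fun σ => DLS.Cn ω σ ∧ True) fun h' => h h'.1]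
    · intro c _ hc
      exact ind_neg (A := fun σ => DLS.Cn ω σ ∧ σ x - σ y = c) fun h' => hc h'.2.symm
    · intro h
      exact absurd (mem_univ _) h
  rw [← h2, sum_congr rfl fun c _ => h1 c, sum_const, card_univ, ZMod.card, nsmul_eq_mul]

end colours

section weights

variable {D q : ℕ} [NeZero q]

theorem sph_off {N : ℕ} (hN : 1 ≤ N) {e : Edge D} (he : e ∈ sphE D N) : ¬ OnL e := by
  rintro ⟨h1, h2⟩
  have h3 := Finset.mem_filter.1 he
  have h4 := (mem_edg e).1 h3.1
  have h5 := (mem_box_co _).1 h4.1 none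
  have h6 := (mem_box_co _).1 h4.2 none
  have h7 : co ((lat D).t e) none = co e.1 none + 1 := by
    rw [DLS.co_t, h1, if_pos rfl]
  have hs : ∀ i, co e.1 (some i) = 0 := fun i => congrFun h2 i
  have ht : ∀ i, co ((lat D).t e) (some i) = 0 := fun i => by
    rw [DLS.co_t, hs i, h1]
    simp
  have h8 : N - 1 < (co e.1 none).natAbs := by
    by_contra hc
    refine h3.2.1 ((mem_box_co _).2 fun k => ?_)
    cases k with
    | none => omega
    | some i =>
      rw [hs i]
      simp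
  have h9 : N - 1 < (co ((lat D).t e) none).natAbs := by
    by_contra hc
    refine h3.2.2 ((mem_box_co _).2 fun k => ?_)
    cases k with
    | none => omega
    | some i =>
      rw [ht i]
      simp
  rw [h7] at h6 h9
  omega

/-- The constant between the two forms of the weights. -/
noncomputable def kap (D q : ℕ) (β J : ℝ) (N : ℕ) : ℝ :=
  (q : ℝ) ^ (SB.box D N).card / (q * ∏ e ∈ sphE D N, vJ β J e)

theorem prod_sph_pos {β J : ℝ} (hβ : 0 < β) {N : ℕ} (hN : 1 ≤ N) :
    0 < ∏ e ∈ sphE D N, vJ β J e := by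
  refine prod_pos fun e he => ?_
  unfold vJ
  rw [if_neg (sph_off hN he)]
  have := Real.add_one_lt_exp hβ.ne'
  linarith

theorem kap_pos {β J : ℝ} (hβ : 0 < β) {N : ℕ} (hN : 1 ≤ N) : 0 < kap D q β J N := by
  have hq : (0 : ℝ) < q := Nat.cast_pos.2 (Nat.pos_of_ne_zero (NeZero.ne q))
  exact div_pos (pow_pos hq _) (mul_pos hq (prod_sph_pos hβ hN))

theorem wt_eq (hD : 1 ≤ D) {β J : ℝ} (hβ : 0 < β) {L : ℕ} {ω : Finset (Edge D)}
    (hω : ω ⊆ tin D (L + 1)) :
    (∏ e ∈ ω, vJ β J e) * DLS.nc (lat D) q (SB.box D L) ω =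
      kap D q β J (L + 1) * (lat D).wt (q : ℝ) (vJ β J) (sphE D (L + 1) ∪ ω) := by
  have hq : (q : ℝ) ≠ 0 := Nat.cast_ne_zero.2 (NeZero.ne q)
  have hN : 1 ≤ L + 1 := by omega
  have hE : ∀ e ∈ sphE D (L + 1) ∪ ω,
      (lat D).s e ∈ SB.box D (L + 1) ∧ (lat D).t e ∈ SB.box D (L + 1) := by
    intro e he
    have : e ∈ edg (SB.box D (L + 1)) := by
      rw [edg_split hN]
      rcases mem_union.1 he with h | h
      · exact Or.inl h
      · exact Or.inr (hω h)
    exact (mem_edg e).1 this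
  have h1 := DLS.nc_eq q (G := lat D) (SB.box D (L + 1)) (sphE D (L + 1) ∪ ω) hE
  have h2 := DLS.br_nc_sph q hD hN hω
  have h3 : DLS.nc (lat D) q (SB.box D (L + 1 - 1)) ω = DLS.nc (lat D) q (SB.box D L) ω := rfl
  rw [h3] at h2
  rw [h2] at h1
  have hdis : Disjoint (sphE D (L + 1)) ω := disjoint_of_subset_right hω sph_disj
  have hp := (prod_sph_pos (D := D) (J := J) hβ hN).ne'
  unfold Gr.wt kap
  rw [prod_union hdis]
  have h4 : DLS.nc (lat D) q (SB.box D L) ω =
      (q : ℝ) ^ (SB.box D (L + 1)).card * ((q : ℝ)⁻¹) ^ (lat D).rk (sphE D (L + 1) ∪ ω) / q := by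
    rw [← h1]
    field_simp
  rw [h4]
  field_simp

/-- The sum of the weights over an event in the form with colourings. -/
theorem sum_ind (hD : 1 ≤ D) {β J : ℝ} (hβ : 0 < β) {L : ℕ} (A : Finset (Edge D) → Prop) :
    ∑ ω ∈ (DLS.teL (SB.box D L)).powerset,
      (∏ e ∈ ω, vJ β J e) * (DLS.nc (lat D) q (SB.box D L) ω * DLS.ind A ω) =
      kap D q β J (L + 1) * S D (L + 1) q (vJ β J) A := by
  unfold S DLS.Sm
  rw [mul_sum]
  refine sum_congr rfl fun ω hω => ?_
  rw [mem_powerset] at hω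
  rw [← mul_assoc, wt_eq hD hβ hω]
  ring

end weights

section explore

variable {D : ℕ} {q : ℝ} {u : Edge D → ℝ}

/-- A connection in the box with the open sphere. -/
theorem rch_sph {N m : ℕ} (hm : m < N) {a : Finset (Edge D)} (ha : a ⊆ tin D N) {z y : Site D}
    (hz : z ∈ SB.box D m) (h : (lat D).Rch (sphE D N ∪ a) z y) :
    ((lat D).Rch a z y ∧ y ∈ SB.box D (N - 1)) ∨
      ∃ y', y' ∉ SB.box D (N - 1) ∧ (lat D).Rch a z y' := by
  have hz' : z ∈ SB.box D (N - 1) := by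
    rw [mem_box_co] at hz ⊢
    intro k
    have := hz k
    omega
  have h1 : (sphE D N ∪ a) ∩ (latH D).te (SB.box D (N - 1)) = a := by
    rw [union_inter_distrib_right, disjoint_iff_inter_eq_empty.1 sph_disj, empty_union]
    exact inter_eq_left.2 ha
  have h2 := first_exit hz' h
  rwa [h1] at h2

theorem con_sph {N m : ℕ} (hm : m < N) {a : Finset (Edge D)} (ha : a ⊆ tin D N) :
    Con D m N (sphE D N ∪ a) ↔ Con D m N a := by
  constructor
  · rintro ⟨z, hz, y, hy, hr⟩
    rcases rch_sph hm ha hz hr with ⟨-, h1⟩ | ⟨y', hy', h1⟩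
    · exact absurd h1 hy
    · exact ⟨z, hz, y', hy', h1⟩
  · rintro ⟨z, hz, y, hy, hr⟩
    exact ⟨z, hz, y, hy, ex_rch_mono subset_union_right hr⟩

/-- Comparison of sums over the events which depend only on the cluster of the boundary.
`Dn` depends only on the cluster of the boundary. -/
theorem explore (hD : 1 ≤ D) (hq : 1 ≤ q) (hu : ∀ e, 0 ≤ u e) {N m : ℕ} (hm : m < N)
    (Dn : Finset (Edge D) → Prop)
    (hDn : ∀ (A : Finset (Site D)) (E ω : Finset (Edge D)), (lat D).IsCl A E →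
      (∀ x, x ∈ SB.box D N → x ∉ SB.box D (N - 1) → x ∈ A) → ω ⊆ edg (SB.box D N) →
      (lat D).tch A ω = E → (Dn (ω ∩ tin D N) ↔ Dn (E ∩ tin D N)))
    {x y : Site D} (hx : x ∈ SB.box D m) :
    (lat D).tp q u (edg (SB.box D m)) x y * S D N q u (fun a => Dn a ∧ ¬ Con D m N a) ≤
        S D N q u (fun a => (Dn a ∧ ¬ Con D m N a) ∧ (lat D).Rch a x y) ∧
      S D N q u (fun a => (Dn a ∧ ¬ Con D m N a) ∧ (lat D).Rch a x y) ≤
        (lat D).tp q u (edg (SB.box D N)) x y * S D N q u (fun a => Dn a ∧ ¬ Con D m N a) := by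
  classical
  have hq0 : 0 < q := by linarith
  have hN : 1 ≤ N := by omega
  set Ed := edg (SB.box D N) with hEd
  have hzz := (lat D).zz_pos q u hq0 hu Ed
  set x0 := crn D N with hx0
  set F := sphE D N with hF
  -- the two events in the box
  set B1 : Finset (Edge D) → Prop := fun ω => Dn (ω ∩ tin D N) ∧ ¬ Con D m N ω with hB1
  have hint : ∀ a ⊆ tin D N, (F ∪ a) ∩ tin D N = a := by
    intro a ha
    rw [union_inter_distrib_right]
    have h1 : F ∩ tin D N = ∅ := disjoint_iff_inter_eq_empty.1 sph_disj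
    rw [h1, empty_union]
    exact inter_eq_left.2 ha
  have hS1 : (lat D).pr q u Ed (fun ω => F ⊆ ω ∧ B1 ω) =
      S D N q u (fun a => Dn a ∧ ¬ Con D m N a) / (lat D).zz q u Ed := by
    refine pr_eq hN _ _ fun a ha => ?_
    simp only [hB1]
    rw [hint a ha, con_sph hm ha]
  have hS2 : (lat D).pr q u Ed (fun ω => F ⊆ ω ∧ (B1 ω ∧ (lat D).Rch ω x y)) =
      S D N q u (fun a => (Dn a ∧ ¬ Con D m N a) ∧ (lat D).Rch a x y) / (lat D).zz q u Ed := by
    refine pr_eq hN _ _ fun a ha => ?_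
    simp only [hB1]
    rw [hint a ha, con_sph hm ha]
    refine and_congr_right fun h1 => ⟨fun h2 => ?_, fun h2 => ex_rch_mono subset_union_right h2⟩
    rcases rch_sph hm ha hx h2 with ⟨h3, -⟩ | ⟨y', hy', h3⟩
    · exact h3
    · exact absurd ⟨x, hx, y', hy', h3⟩ h1.2
  -- the expansion over the cluster of the boundary
  have hkey : ∀ (A : Finset (Site D)) (E : Finset (Edge D)), (lat D).IsCl A E → x0 ∈ A → E ⊆ Ed →
      ((lat D).pr q u Ed (fun ω => (lat D).tch A ω = E ∧ (F ⊆ ω ∧ B1 ω)) = 0 ∧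
        (lat D).pr q u Ed (fun ω => (lat D).tch A ω = E ∧ (F ⊆ ω ∧ (B1 ω ∧ (lat D).Rch ω x y))) = 0) ∨
      (Disjoint (SB.box D m) A ∧
        (lat D).pr q u Ed (fun ω => (lat D).tch A ω = E ∧ (F ⊆ ω ∧ B1 ω)) =
          Gr.cw q u A E * (lat D).ze q u Ed A ∧
        (lat D).pr q u Ed (fun ω => (lat D).tch A ω = E ∧ (F ⊆ ω ∧ (B1 ω ∧ (lat D).Rch ω x y))) =
          Gr.cw q u A E * (lat D).ze q u Ed A * (lat D).tp q u ((lat D).del A Ed) x y) := by
    intro A E hAE hx0A hEEd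
    have hsphA : ∀ ω, (lat D).tch A ω = E → F ⊆ ω →
        ∀ z, z ∈ SB.box D N → z ∉ SB.box D (N - 1) → z ∈ A := by
      intro ω hω hFω z hz hz'
      exact (lat D).rch_mem hAE hω hx0A
        (ex_rch_mono hFω (sph_conn hD hN (crn_mem hN).1 (crn_mem hN).2 hz hz'))
    have hFE : ∀ ω, (lat D).tch A ω = E → F ⊆ ω → F ⊆ E := by
      intro ω hω hFω e he
      rw [← hω, Gr.mem_tch]
      refine ⟨hFω he, Or.inl (hsphA ω hω hFω _ ?_ ?_)⟩
      · exact ((mem_edg e).1 (Finset.mem_filter.1 he).1).1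
      · exact (Finset.mem_filter.1 he).2.1
    by_cases hcase : F ⊆ E ∧ Dn (E ∩ tin D N) ∧ Disjoint (SB.box D m) A
    · right
      obtain ⟨hFE', hDE, hdis⟩ := hcase
      have hiff : ∀ ω ⊆ Ed, (lat D).tch A ω = E → F ⊆ ω ∧ B1 ω := by
        intro ω hω hA
        have hEω : E ⊆ ω := by rw [← hA]; exact (lat D).tch_subset A ω
        have hFω : F ⊆ ω := hFE'.trans hEω
        refine ⟨hFω, (hDn A E ω hAE (hsphA ω hA hFω) hω hA).2 hDE, ?_⟩
        rintro ⟨z, hz, y', hy', hr⟩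
        have hy'' : y' ∈ SB.box D N := by
          refine DLS.br_stay (G := lat D) (fun e he => (mem_edg e).1 (hω he)) ?_ hr
          rw [mem_box_co] at hz ⊢
          intro k
          have := hz k
          omega
        exact disjoint_left.1 hdis hz
          ((lat D).rch_mem hAE hA (hsphA ω hA hFω y' hy'' hy') ((lat D).rch_symm hr))
      refine ⟨hdis, ?_, ?_⟩
      · rw [← (lat D).pr_cl q u hq0 hu Ed hAE hEEd]
        exact (lat D).pr_congr q u Ed fun ω hω => ⟨fun h => h.1, fun h => ⟨h, hiff ω hω h⟩⟩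
      · unfold Gr.tp
        rw [← (lat D).pr_cls_and q u hq0 hu Ed hAE hEEd fun ω => (lat D).Rch ω x y]
        refine (lat D).pr_congr q u Ed fun ω hω => ⟨fun h => ⟨h.1, ?_⟩, fun h => ⟨h.1, ?_⟩⟩
        · exact ((lat D).rch_del hAE h.1 (disjoint_left.1 hdis hx) h.2.2.2).1
        · have h1 := hiff ω hω h.1
          exact ⟨h1.1, h1.2, ex_rch_mono ((lat D).del_subset A ω) h.2⟩
    · left
      have hno : ∀ ω ⊆ Ed, ¬ ((lat D).tch A ω = E ∧ (F ⊆ ω ∧ B1 ω)) := by
        rintro ω hω ⟨hA, hFω, hD1, hC1⟩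
        refine hcase ⟨hFE ω hA hFω, (hDn A E ω hAE (hsphA ω hA hFω) hω hA).1 hD1, ?_⟩
        rw [disjoint_left]
        intro z hz hzA
        have h1 : (lat D).Rch ω z x0 := by
          have h2 := hAE.2.2 z hzA x0 hx0A
          exact ex_rch_mono (by rw [← hA]; exact (lat D).tch_subset A ω) h2
        exact hC1 ⟨z, hz, x0, (crn_mem hN).2, h1⟩
      exact ⟨(lat D).pr_false q u Ed _ hno, (lat D).pr_false q u Ed _ fun ω hω h =>
        hno ω hω ⟨h.1, h.2.1, h.2.2.1⟩⟩
  have hcwze : ∀ (A : Finset (Site D)) (E : Finset (Edge D)),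
      0 ≤ Gr.cw q u A E * (lat D).ze q u Ed A := by
    intro A E
    refine mul_nonneg ?_ ((lat D).ze_pos q u hq0 hu Ed A).le
    exact mul_nonneg (prod_nonneg fun e _ => hu e) (pow_nonneg (inv_nonneg.2 hq0.le) _)
  have hlow : (lat D).tp q u (edg (SB.box D m)) x y * (lat D).pr q u Ed (fun ω => F ⊆ ω ∧ B1 ω) ≤
      (lat D).pr q u Ed (fun ω => F ⊆ ω ∧ (B1 ω ∧ (lat D).Rch ω x y)) := by
    rw [(lat D).pr_sum_cls q u Ed x0, (lat D).pr_sum_cls q u Ed x0, mul_sum]
    refine sum_le_sum fun A _ => ?_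
    rw [mul_sum]
    refine sum_le_sum fun E hE => ?_
    rw [mem_powerset] at hE
    split_ifs with hc
    · rcases hkey A E hc.1 hc.2 hE with ⟨h1, h2⟩ | ⟨hdis, h1, h2⟩
      · rw [h1, h2, mul_zero]
      · rw [h1, h2, mul_comm]
        refine mul_le_mul_of_nonneg_left ((lat D).tp_mono_edges q u hq hu ?_ x y) (hcwze A E)
        intro e he
        have h3 := (mem_edg e).1 he
        rw [Gr.mem_del, hEd, mem_edg]
        refine ⟨⟨?_, ?_⟩, disjoint_left.1 hdis h3.1, disjoint_left.1 hdis h3.2⟩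
        · have h4 := (mem_box_co _).1 h3.1
          rw [mem_box_co]
          intro k
          have := h4 k
          omega
        · have h4 := (mem_box_co _).1 h3.2
          rw [mem_box_co]
          intro k
          have := h4 k
          omega
    · rw [mul_zero]
  have hup : (lat D).pr q u Ed (fun ω => F ⊆ ω ∧ (B1 ω ∧ (lat D).Rch ω x y)) ≤
      (lat D).tp q u Ed x y * (lat D).pr q u Ed (fun ω => F ⊆ ω ∧ B1 ω) := by
    rw [(lat D).pr_sum_cls q u Ed x0, (lat D).pr_sum_cls q u Ed x0, mul_sum]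
    refine sum_le_sum fun A _ => ?_
    rw [mul_sum]
    refine sum_le_sum fun E hE => ?_
    rw [mem_powerset] at hE
    split_ifs with hc
    · rcases hkey A E hc.1 hc.2 hE with ⟨h1, h2⟩ | ⟨-, h1, h2⟩
      · rw [h1, h2, mul_zero]
      · rw [h1, h2, mul_comm ((lat D).tp q u Ed x y)]
        exact mul_le_mul_of_nonneg_left
          ((lat D).tp_mono_edges q u hq hu ((lat D).del_subset A Ed) x y) (hcwze A E)
    · rw [mul_zero]
  rw [hS1, hS2, ← mul_div_assoc, div_le_div_iff_of_pos_right hzz] at hlow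
  rw [hS1, hS2, ← mul_div_assoc, div_le_div_iff_of_pos_right hzz] at hup
  exact ⟨hlow, hup⟩

end explore

section assembly

variable {D : ℕ}

/-- A decreasing event and the connection to the boundary. -/
theorem con_dec {q : ℝ} {u : Edge D → ℝ} (hq : 1 ≤ q) (hu : ∀ e, 0 ≤ u e) {N m : ℕ}
    {Dn : Finset (Edge D) → Prop} (hDn : ∀ a b, a ⊆ b → Dn b → Dn a) :
    S D N q u (fun a => Dn a ∧ Con D m N a) * S D N q u (fun _ => True) ≤
      S D N q u Dn * S D N q u (Con D m N) := by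
  have h1 := fkg_dec (R := N) hq hu (A := Dn) (B := fun a => ¬ Con D m N a) hDn
    fun a b hab h h' => h (h'.mono hab)
  have h2 := S_compl (D := D) (R := N) (q := q) (u := u) (Con D m N)
  have h3 : S D N q u (fun a => Dn a ∧ Con D m N a) +
      S D N q u (fun a => Dn a ∧ ¬ Con D m N a) = S D N q u Dn := by
    unfold S
    rw [← DLS.Sm_add]
    refine DLS.Sm_congr fun a _ => ?_
    by_cases hD : Dn a
    · by_cases hC : Con D m N a
      · rw [ind_pos (A := fun a => Dn a ∧ Con D m N a) ⟨hD, hC⟩,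
          ind_neg (A := fun a => Dn a ∧ ¬ Con D m N a) fun h => h.2 hC, ind_pos hD, add_zero]
      · rw [ind_neg (A := fun a => Dn a ∧ Con D m N a) fun h => hC h.2,
          ind_pos (A := fun a => Dn a ∧ ¬ Con D m N a) ⟨hD, hC⟩, ind_pos hD, zero_add]
    · rw [ind_neg (A := fun a => Dn a ∧ Con D m N a) fun h => hD h.1,
        ind_neg (A := fun a => Dn a ∧ ¬ Con D m N a) fun h => hD h.1, ind_neg hD, add_zero]
  have h4 : S D N q u (fun a => Dn a ∧ ¬ Con D m N a) =
      S D N q u Dn - S D N q u (fun a => Dn a ∧ Con D m N a) := by linarith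
  have h5 : S D N q u (fun a => ¬ Con D m N a) =
      S D N q u (fun _ => True) - S D N q u (Con D m N) := by linarith
  rw [h4, h5, mul_sub, sub_mul] at h1
  linarith

theorem S_split {q : ℝ} {u : Edge D → ℝ} {N m : ℕ} (Dn : Finset (Edge D) → Prop) :
    S D N q u (fun a => Dn a ∧ Con D m N a) +
      S D N q u (fun a => Dn a ∧ ¬ Con D m N a) = S D N q u Dn := by
  unfold S
  rw [← DLS.Sm_add]
  refine DLS.Sm_congr fun a _ => ?_
  by_cases hD : Dn a
  · by_cases hC : Con D m N a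
    · rw [ind_pos (A := fun a => Dn a ∧ Con D m N a) ⟨hD, hC⟩,
        ind_neg (A := fun a => Dn a ∧ ¬ Con D m N a) fun h => h.2 hC, ind_pos hD, add_zero]
    · rw [ind_neg (A := fun a => Dn a ∧ Con D m N a) fun h => hC h.2,
        ind_pos (A := fun a => Dn a ∧ ¬ Con D m N a) ⟨hD, hC⟩, ind_pos hD, zero_add]
  · rw [ind_neg (A := fun a => Dn a ∧ Con D m N a) fun h => hD h.1,
      ind_neg (A := fun a => Dn a ∧ ¬ Con D m N a) fun h => hD h.1, ind_neg hD, add_zero]

variable {q : ℕ} [NeZero q] (η : Site D → ZMod q)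

theorem ok_mono {Λ : Finset (Site D)} (a b : Finset (Edge D)) (hab : a ⊆ b) (h : Ok η Λ b) :
    Ok η Λ a := by
  obtain ⟨s, hs⟩ := h
  exact ⟨s, fun e he => hs e (hab he)⟩

theorem ok_loc {L : ℕ} (A : Finset (Site D)) (E ω : Finset (Edge D)) (hAE : (lat D).IsCl A E)
    (hA : ∀ x, x ∈ SB.box D (L + 1) → x ∉ SB.box D (L + 1 - 1) → x ∈ A)
    (hω : ω ⊆ edg (SB.box D (L + 1))) (hE : (lat D).tch A ω = E) :
    Ok η (SB.box D L) (ω ∩ tin D (L + 1)) ↔ Ok η (SB.box D L) (E ∩ tin D (L + 1)) := by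
  classical
  constructor
  · refine ok_mono η _ _ (inter_subset_inter_right ?_)
    rw [← hE]
    exact (lat D).tch_subset A ω
  · rintro ⟨s0, h0⟩
    obtain ⟨s, hs⟩ : ∃ s : {z // z ∈ SB.box D L} → ZMod q,
        ∀ z, s z = if z.1 ∈ A then s0 z else 0 := ⟨_, fun _ => rfl⟩
    have h1 : ∀ z ∈ A, bx η s z = bx η s0 z := by
      intro z hz
      by_cases hzb : z ∈ SB.box D L
      · rw [bx_in η _ hzb, bx_in η _ hzb, hs]
        exact if_pos hz
      · rw [bx_out η _ hzb, bx_out η _ hzb]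
    have h2 : ∀ z ∈ SB.box D (L + 1), z ∉ A → bx η s z = 0 := by
      intro z hz hzA
      have hzb : z ∈ SB.box D L := by
        by_contra hc
        exact hzA (hA z hz hc)
      rw [bx_in η _ hzb, hs]
      exact if_neg hzA
    refine ⟨s, fun e he => ?_⟩
    have heω := (mem_inter.1 he).1
    by_cases heE : e ∈ E
    · have h3 := hAE.2.1 e heE
      rw [h1 _ h3.1, h1 _ h3.2]
      exact h0 e (mem_inter.2 ⟨heE, (mem_inter.1 he).2⟩)
    · have h3 : (lat D).s e ∉ A ∧ (lat D).t e ∉ A := by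
        rw [← hE, Gr.mem_tch] at heE
        push Not at heE
        exact heE heω
      have h4 := (mem_edg e).1 (hω heω)
      exact (h2 _ h4.1 h3.1).trans (h2 _ h4.2 h3.2).symm

/-- Two-sided bound of the probability with boundary condition `η`. -/
theorem sameB_bounds (hq : 2 ≤ q) (hD : 1 ≤ D) {β J : ℝ} (hβ : 0 < β) (hJ : 0 ≤ J) {L m : ℕ}
    (hm : m ≤ L) {δ : ℝ}
    (hW : S D (L + 1) (q : ℝ) (vJ β J) (Con D m (L + 1)) ≤
      δ * S D (L + 1) (q : ℝ) (vJ β J) fun _ => True)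
    {x y : Site D} (hx : x ∈ SB.box D m) :
    1 / q + (1 - 1 / q) * (lat D).tp (q : ℝ) (vJ β J) (edg (SB.box D m)) x y - δ ≤
        sameB D q β J (SB.box D L) η x y ∧
      sameB D q β J (SB.box D L) η x y ≤
        1 / q + (1 - 1 / q) * (lat D).tp (q : ℝ) (vJ β J) (edg (SB.box D (L + 1))) x y + δ := by
  classical
  have hq1 : (1 : ℝ) ≤ q := by exact_mod_cast (by omega : 1 ≤ q)
  have hq0 : (0 : ℝ) < q := by linarith
  have hu : ∀ e : Edge D, 0 ≤ vJ β J e := by
    intro e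
    unfold vJ
    split_ifs
    · have := Real.one_le_exp (mul_nonneg hβ.le hJ)
      linarith
    · have := Real.one_le_exp hβ.le
      linarith
  set N := L + 1 with hN
  set Λ := SB.box D L with hΛ
  set Dn : Finset (Edge D) → Prop := Ok η Λ with hDn
  set κ := kap D q β J N with hκ
  have hκ0 : 0 < κ := kap_pos hβ (by omega)
  set d := S D N (q : ℝ) (vJ β J) Dn with hd
  set k := S D N (q : ℝ) (vJ β J) (fun a => Dn a ∧ ¬ Con D m N a) with hk
  set b := S D N (q : ℝ) (vJ β J) (fun a => Dn a ∧ Con D m N a) with hb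
  set c := S D N (q : ℝ) (vJ β J) (fun a => (Dn a ∧ ¬ Con D m N a) ∧ (lat D).Rch a x y) with hc
  have hbk : b + k = d := S_split Dn
  have hb0 : 0 ≤ b := S_nonneg hq0 hu _
  have hk0 : 0 ≤ k := S_nonneg hq0 hu _
  -- the denominator
  have hZ : ∑ ω ∈ (DLS.teL Λ).powerset, (∏ e ∈ ω, vJ β J e) * (cnt η Λ ω fun _ => True) =
      κ * d := by
    rw [hκ, hd, hN, ← sum_ind hD hβ Dn]
    refine sum_congr rfl fun ω _ => ?_
    rw [cnt_eq]
  have hd0 : 0 < d := by
    have h1 : 0 < κ * d := by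
      rw [← hZ, ← sum_exp]
      refine sum_pos (fun s _ => ?_) ⟨fun _ => 0, mem_univ _⟩
      rw [ind_pos (A := fun _ : Site D → ZMod q => True) trivial, one_mul]
      exact Real.exp_pos _
    exact pos_of_mul_pos_right h1 hκ0.le
  have htot := S_nonneg (R := N) hq0 hu (fun _ : Finset (Edge D) => True)
  have htot0 : 0 < S D N (q : ℝ) (vJ β J) (fun _ : Finset (Edge D) => True) :=
    lt_of_lt_of_le hd0 (S_le hq0 hu fun _ _ _ => trivial)
  -- the connection to the boundary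
  have hbδ : b ≤ δ * d := by
    have h1 := con_dec (N := N) (m := m) hq1 hu (ok_mono (Λ := Λ) η)
    have h2 := mul_le_mul_of_nonneg_left hW hd0.le
    refine le_of_mul_le_mul_right (h1.trans (h2.trans (le_of_eq ?_))) htot0
    ring
  -- the two-point function
  have hexp := explore hD hq1 hu (N := N) (m := m) (by omega) Dn (ok_loc η) (x := x) (y := y) hx
  set tm := (lat D).tp (q : ℝ) (vJ β J) (edg (SB.box D m)) x y with htm
  set tN := (lat D).tp (q : ℝ) (vJ β J) (edg (SB.box D N)) x y with htN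
  have htm1 : tm ≤ 1 := (lat D).tp_le_one _ _ hq0 hu _ _ _
  have htm0 : 0 ≤ tm := (lat D).tp_nonneg _ _ hq0 hu _ _ _
  have htN0 : 0 ≤ tN := (lat D).tp_nonneg _ _ hq0 hu _ _ _
  have hiq : 0 ≤ 1 - 1 / (q : ℝ) := by
    rw [sub_nonneg, div_le_one hq0]
    exact hq1
  -- the pointwise bounds
  have hpt : ∀ ω : Finset (Edge D),
      DLS.nc (lat D) q Λ ω * (1 / q * DLS.ind (fun a => Dn a ∧ ¬ Con D m N a) ω +
        (1 - 1 / q) * DLS.ind (fun a => (Dn a ∧ ¬ Con D m N a) ∧ (lat D).Rch a x y) ω) ≤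
          (cnt η Λ ω fun σ => σ x = σ y) ∧
      (cnt η Λ ω fun σ => σ x = σ y) ≤
        DLS.nc (lat D) q Λ ω * (1 / q * DLS.ind (fun a => Dn a ∧ ¬ Con D m N a) ω +
          (1 - 1 / q) * DLS.ind (fun a => (Dn a ∧ ¬ Con D m N a) ∧ (lat D).Rch a x y) ω +
            DLS.ind (fun a => Dn a ∧ Con D m N a) ω) := by
    intro ω
    have h0 := cnt_nonneg η Λ ω fun σ => σ x = σ y
    have h1 : (cnt η Λ ω fun σ => σ x = σ y) ≤ cnt η Λ ω fun _ => True :=
      cnt_le η Λ ω fun _ _ _ => trivial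
    have h2 := cnt_eq η Λ ω
    by_cases hDω : Dn ω
    · rw [ind_pos hDω, mul_one] at h2
      by_cases hCω : Con D m N ω
      · rw [ind_neg (A := fun a => Dn a ∧ ¬ Con D m N a) fun h => h.2 hCω,
          ind_neg (A := fun a => (Dn a ∧ ¬ Con D m N a) ∧ (lat D).Rch a x y) fun h => h.1.2 hCω,
          ind_pos (A := fun a => Dn a ∧ Con D m N a) ⟨hDω, hCω⟩]
        rw [h2] at h1
        constructor
        · rw [mul_zero, mul_zero, add_zero, mul_zero]
          exact h0
        · rw [mul_zero, mul_zero, add_zero, zero_add, mul_one]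
          exact h1
      · have hxo : ∀ y, y ∉ Λ → ¬ (lat D).Rch ω x y := fun y hy hr =>
          hCω ⟨x, hx, y, hy, hr⟩
        rw [ind_pos (A := fun a => Dn a ∧ ¬ Con D m N a) ⟨hDω, hCω⟩,
          ind_neg (A := fun a => Dn a ∧ Con D m N a) fun h => hCω h.2]
        by_cases hR : (lat D).Rch ω x y
        · rw [ind_pos (A := fun a => (Dn a ∧ ¬ Con D m N a) ∧ (lat D).Rch a x y)
            ⟨⟨hDω, hCω⟩, hR⟩, cnt_rch η hR, h2]
          constructor
          · refine le_of_eq ?_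
            ring
          · refine le_of_eq ?_
            ring
        · rw [ind_neg (A := fun a => (Dn a ∧ ¬ Con D m N a) ∧ (lat D).Rch a x y) fun h => hR h.2]
          have h3 := cnt_not η hxo hR
          rw [h2] at h3
          have h4 : (cnt η Λ ω fun σ => σ x = σ y) = DLS.nc (lat D) q Λ ω / q := by
            rw [← h3, mul_div_cancel_left₀ _ hq0.ne']
          rw [h4]
          constructor
          · refine le_of_eq ?_
            ring
          · refine le_of_eq ?_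
            ring
    · rw [ind_neg hDω, mul_zero] at h2
      have h3 : (cnt η Λ ω fun σ => σ x = σ y) = 0 := le_antisymm (h2 ▸ h1) h0
      rw [ind_neg (A := fun a => Dn a ∧ ¬ Con D m N a) fun h => hDω h.1,
        ind_neg (A := fun a => (Dn a ∧ ¬ Con D m N a) ∧ (lat D).Rch a x y) fun h => hDω h.1.1,
        ind_neg (A := fun a => Dn a ∧ Con D m N a) fun h => hDω h.1, h3]
      constructor
      · refine le_of_eq ?_
        ring
      · refine le_of_eq ?_
        ring
  set num := ∑ ω ∈ (DLS.teL Λ).powerset, (∏ e ∈ ω, vJ β J e) * (cnt η Λ ω fun σ => σ x = σ y)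
    with hnum
  have hv : ∀ ω : Finset (Edge D), 0 ≤ ∏ e ∈ ω, vJ β J e := fun ω => prod_nonneg fun e _ => hu e
  have hsk := sum_ind (q := q) hD (J := J) hβ (L := L) (fun a => Dn a ∧ ¬ Con D m N a)
  have hsc := sum_ind (q := q) hD (J := J) hβ (L := L)
    (fun a => (Dn a ∧ ¬ Con D m N a) ∧ (lat D).Rch a x y)
  have hsb := sum_ind (q := q) hD (J := J) hβ (L := L) (fun a => Dn a ∧ Con D m N a)
  have hlo : κ * (1 / q * k + (1 - 1 / q) * c) ≤ num := by
    have h1 : κ * (1 / q * k + (1 - 1 / q) * c) = 1 / q * (κ * k) + (1 - 1 / q) * (κ * c) := by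
      ring
    rw [h1, hκ, hk, hc, hN, ← hsk, ← hsc, mul_sum, mul_sum, ← sum_add_distrib, hnum]
    refine sum_le_sum fun ω _ => ?_
    refine le_trans (le_of_eq ?_) (mul_le_mul_of_nonneg_left (hpt ω).1 (hv ω))
    ring
  have hhi : num ≤ κ * (1 / q * k + (1 - 1 / q) * c + b) := by
    have h1 : κ * (1 / q * k + (1 - 1 / q) * c + b) =
        1 / q * (κ * k) + (1 - 1 / q) * (κ * c) + κ * b := by
      ring
    rw [h1, hκ, hk, hc, hb, hN, ← hsk, ← hsc, ← hsb, mul_sum, mul_sum, ← sum_add_distrib,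
      ← sum_add_distrib, hnum]
    refine sum_le_sum fun ω _ => ?_
    refine le_trans (mul_le_mul_of_nonneg_left (hpt ω).2 (hv ω)) (le_of_eq ?_)
    ring
  have hval : sameB D q β J Λ η x y = num / (κ * d) := by
    rw [sameB_eq, hZ]
  have hκd : 0 < κ * d := mul_pos hκ0 hd0
  have hkd : k = d - b := by linarith
  have hbd : k ≤ d := by linarith
  have hδ0 : 0 ≤ δ := by
    have h1 : 0 ≤ δ * d := hb0.trans hbδ
    exact nonneg_of_mul_nonneg_left h1 hd0
  rw [hval]
  constructor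
  · rw [le_div_iff₀ hκd]
    refine le_trans ?_ hlo
    have h1 : (1 / (q : ℝ) + (1 - 1 / q) * tm) * k ≤ 1 / q * k + (1 - 1 / q) * c := by
      have := mul_le_mul_of_nonneg_left hexp.1 hiq
      linarith
    have h2 : 1 / (q : ℝ) + (1 - 1 / q) * tm ≤ 1 := by
      have := mul_le_mul_of_nonneg_left htm1 hiq
      linarith
    have h3 : 0 ≤ 1 / (q : ℝ) + (1 - 1 / q) * tm :=
      add_nonneg (div_nonneg zero_le_one hq0.le) (mul_nonneg hiq htm0)
    have h4 : (1 / (q : ℝ) + (1 - 1 / q) * tm - δ) * d ≤ (1 / (q : ℝ) + (1 - 1 / q) * tm) * k := by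
      rw [hkd, mul_sub, sub_mul]
      have h5 := mul_le_mul_of_nonneg_right h2 hb0
      linarith
    calc (1 / (q : ℝ) + (1 - 1 / q) * tm - δ) * (κ * d)
        = κ * ((1 / (q : ℝ) + (1 - 1 / q) * tm - δ) * d) := by ring
      _ ≤ κ * (1 / q * k + (1 - 1 / q) * c) :=
          mul_le_mul_of_nonneg_left (h4.trans h1) hκ0.le
  · rw [div_le_iff₀ hκd]
    refine le_trans hhi ?_
    have h1 : 1 / (q : ℝ) * k + (1 - 1 / q) * c ≤ (1 / q + (1 - 1 / q) * tN) * k := by
      have := mul_le_mul_of_nonneg_left hexp.2 hiq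
      linarith
    have h3 : 0 ≤ 1 / (q : ℝ) + (1 - 1 / q) * tN :=
      add_nonneg (div_nonneg zero_le_one hq0.le) (mul_nonneg hiq htN0)
    have h4 := mul_le_mul_of_nonneg_left hbd h3
    calc κ * (1 / q * k + (1 - 1 / q) * c + b)
        ≤ κ * ((1 / q + (1 - 1 / q) * tN) * d + δ * d) :=
          mul_le_mul_of_nonneg_left (by linarith) hκ0.le
      _ = (1 / q + (1 - 1 / q) * tN + δ) * (κ * d) := by ring

end assembly

end Pool.Agent.DL.Uniq

namespace Pool.Agent.DL

open Filter Topology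

theorem Uniq.mem_box_ev {D : ℕ} (x : Site D) : ∀ᶠ L : ℕ in atTop, x ∈ SB.box D L := by
  refine eventually_atTop.2 ⟨∑ k, (DLS.co x k).natAbs, fun L hL => ?_⟩
  rw [DLS.mem_box_co]
  intro k
  exact (Finset.single_le_sum (f := fun k => (DLS.co x k).natAbs) (fun _ _ => Nat.zero_le _)
    (Finset.mem_univ k)).trans hL

/-- **All boundary conditions give the same limit**, below the critical inverse temperature. -/
theorem uniq {D q : ℕ} [NeZero q] (hq : 2 ≤ q) {β : ℝ} (h : Bas D (q : ℝ) β) {J : ℝ}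
    (hJ : 0 ≤ J) (x y : Site D) {l : ℝ}
    (hl : Tendsto (fun L : ℕ => SB.same D q β J (SB.box D L) x y) atTop (𝓝 l)) :
    ∀ ε : ℝ, 0 < ε → ∃ L0 : ℕ, ∀ L, L0 ≤ L → ∀ η : Site D → ZMod q,
      |sameB D q β J (SB.box D L) η x y - l| < ε := by
  intro ε hε
  have hε2 : 0 < ε / 2 := by linarith
  have h1 := (Metric.tendsto_nhds.1 hl) (ε / 2) hε2
  obtain ⟨m, ⟨⟨hm1, hmx⟩, hmy⟩⟩ := ((h1.and (Uniq.mem_box_ev x)).and (Uniq.mem_box_ev y)).exists
  obtain ⟨N0, hN0⟩ := UniqW.wired_J h hJ m hε2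
  obtain ⟨L1, hL1⟩ := eventually_atTop.1 ((h1.and (Uniq.mem_box_ev x)).and (Uniq.mem_box_ev y))
  refine ⟨max (max N0 m) L1, fun L hL η => ?_⟩
  have hLN : N0 ≤ L := (le_max_left N0 m).trans ((le_max_left _ _).trans hL)
  have hLm : m ≤ L := (le_max_right N0 m).trans ((le_max_left _ _).trans hL)
  have hLL : L1 ≤ L + 1 := ((le_max_right _ _).trans hL).trans (Nat.le_succ L)
  obtain ⟨⟨h2, h2x⟩, h2y⟩ := hL1 (L + 1) hLL
  have hb := Uniq.sameB_bounds η hq h.hD h.hβ hJ hLm (hN0 (L + 1) (hLN.trans (Nat.le_succ L)))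
    (y := y) hmx
  rw [← same_eq_tp hq β J h.hβ.le hJ _ x y hmx hmy, ← same_eq_tp hq β J h.hβ.le hJ _ x y h2x h2y]
    at hb
  rw [Real.dist_eq, abs_lt] at hm1 h2
  rw [abs_lt]
  constructor
  · linarith [hb.1, hm1.1]
  · linarith [hb.2, h2.2]

end Pool.Agent.DL
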