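import Pool.Agent.DL.Wd
import Pool.Agent.DL.FKC

/-!
# The wired boundary condition with a line of other couplings

The probability that the box `[-m, m]^(D+1)` is connected to the boundary of `[-N, N]^(D+1)`, with
wired boundary condition, tends to `0` as `N → ∞`, for every coupling of the line.
-/

set_option autoImplicit false
set_option linter.unusedSectionVars false

namespace Pool.Agent.DL.UniqW

open Finset Filter Topology
open Pool.Agent.DLS (co co_add co_dir mem_box_co sphE crn mem_edg t_eq co_t sph_coord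
  not_box_of_coord crn_mem sph_conn br_mem_te edg_split sph_disj first_exit zero_mem_box br_exit
  br_sum0 latH wsp ex_rch_mono)

variable {D : ℕ}

section basic

/-- The sum of the weights over the event `A` in the wired box. -/
noncomputable def S (D R : ℕ) (q : ℝ) (u : Edge D → ℝ) (A : Finset (Edge D) → Prop) : ℝ :=
  DLS.Sm (tin D R) (fun a => (lat D).wt q u (sphE D R ∪ a)) (DLS.ind A)

theorem ind_pos {α : Type} {A : α → Prop} {a : α} (h : A a) : DLS.ind A a = 1 := if_pos h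

theorem ind_neg {α : Type} {A : α → Prop} {a : α} (h : ¬ A a) : DLS.ind A a = 0 := if_neg h

theorem ind_nonneg {α : Type} (A : α → Prop) (a : α) : 0 ≤ DLS.ind A a := by
  unfold DLS.ind
  split_ifs
  · exact zero_le_one
  · exact le_refl _

theorem ind_le {α : Type} {A B : α → Prop} {a b : α} (h : A a → B b) :
    DLS.ind A a ≤ DLS.ind B b := by
  by_cases ha : A a
  · rw [ind_pos ha, ind_pos (h ha)]
  · rw [ind_neg ha]
    exact ind_nonneg B b

variable {R : ℕ} {q : ℝ} {u : Edge D → ℝ}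

theorem S_le (hq : 0 < q) (hu : ∀ e, 0 ≤ u e) {A B : Finset (Edge D) → Prop}
    (h : ∀ a ⊆ tin D R, A a → B a) : S D R q u A ≤ S D R q u B :=
  DLS.Sm_mono (fun _ => (lat D).wt_nonneg q u hq hu _) fun ω hω => ind_le (h ω hω)

theorem S_congr {A B : Finset (Edge D) → Prop} (h : ∀ a ⊆ tin D R, (A a ↔ B a)) :
    S D R q u A = S D R q u B :=
  DLS.Sm_congr fun ω hω => le_antisymm (ind_le (h ω hω).1) (ind_le (h ω hω).2)

theorem S_nonneg (hq : 0 < q) (hu : ∀ e, 0 ≤ u e) (A : Finset (Edge D) → Prop) :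
    0 ≤ S D R q u A :=
  sum_nonneg fun a _ => mul_nonneg ((lat D).wt_nonneg q u hq hu _) (ind_nonneg A a)

theorem S_compl (A : Finset (Edge D) → Prop) :
    S D R q u A + S D R q u (fun a => ¬ A a) = S D R q u fun _ => True := by
  unfold S
  rw [← DLS.Sm_add]
  refine DLS.Sm_congr fun a _ => ?_
  rw [ind_pos (A := fun _ => True) trivial]
  by_cases hA : A a
  · rw [ind_pos hA, ind_neg (A := fun a => ¬ A a) (not_not.2 hA), add_zero]
  · rw [ind_neg hA, ind_pos (A := fun a => ¬ A a) hA, zero_add]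

theorem S_pos (hq : 0 < q) (hu : ∀ e, 0 < u e) : 0 < S D R q u fun _ => True := by
  unfold S DLS.Sm
  refine sum_pos (fun a _ => ?_) ⟨∅, empty_mem_powerset _⟩
  rw [ind_pos (A := fun _ => True) trivial, mul_one]
  exact mul_pos (prod_pos fun e _ => hu e) (pow_pos (inv_pos.2 hq) _)

theorem mu_le (hq : 1 ≤ q) {u' : Edge D → ℝ} (hu : ∀ e, 0 ≤ u e) (h : ∀ e, u e ≤ u' e)
    (F a b : Finset (Edge D)) : (lat D).wt q u (F ∪ a) * (lat D).wt q u' (F ∪ b) ≤
      (lat D).wt q u (F ∪ (a ∩ b)) * (lat D).wt q u' (F ∪ (a ∪ b)) := by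
  refine ((lat D).wt_mul_le q u u' hq hu h _ _).trans (le_of_eq ?_)
  congr 2
  · ext e
    simp only [mem_union, mem_inter]
    tauto
  · ext e
    simp only [mem_union]
    tauto

/-- Decreasing events are positively correlated. -/
theorem fkg_dec (hq : 1 ≤ q) (hu : ∀ e, 0 ≤ u e) {A B : Finset (Edge D) → Prop}
    (hA : ∀ a b, a ⊆ b → A b → A a) (hB : ∀ a b, a ⊆ b → B b → B a) :
    S D R q u A * S D R q u B ≤ S D R q u (fun a => A a ∧ B a) * S D R q u fun _ => True := by
  have hW := (lat D).wt_nonneg q u (by linarith) hu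
  unfold S DLS.Sm
  refine DLS.four (tin D R) (fun a => mul_nonneg (hW _) (ind_nonneg _ _))
    (fun a => mul_nonneg (hW _) (ind_nonneg _ _)) (fun a => mul_nonneg (hW _) (ind_nonneg _ _))
    (fun a => mul_nonneg (hW _) (ind_nonneg _ _)) fun a _ b _ => ?_
  rw [mul_mul_mul_comm, mul_mul_mul_comm ((lat D).wt q u (sphE D R ∪ a ∩ b))]
  refine mul_le_mul (mu_le hq hu (fun _ => le_rfl) _ _ _) ?_
    (mul_nonneg (ind_nonneg _ _) (ind_nonneg _ _)) (mul_nonneg (hW _) (hW _))
  rw [ind_pos (A := fun _ : Finset (Edge D) => True) trivial, mul_one]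
  by_cases h1 : A a
  · by_cases h2 : B b
    · rw [ind_pos h1, ind_pos h2, mul_one, ind_pos (A := fun a => A a ∧ B a)
        ⟨hA _ _ inter_subset_left h1, hB _ _ inter_subset_right h2⟩]
    · rw [ind_neg h2, mul_zero]
      exact ind_nonneg _ _
  · rw [ind_neg h1, zero_mul]
    exact ind_nonneg _ _

/-- Monotonicity in the weights. -/
theorem S_mono_u (hq : 1 ≤ q) {u' : Edge D → ℝ} (hu : ∀ e, 0 ≤ u e) (h : ∀ e, u e ≤ u' e)
    {A : Finset (Edge D) → Prop} (hA : ∀ a b, a ⊆ b → A a → A b) :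
    S D R q u A * S D R q u' (fun _ => True) ≤ S D R q u (fun _ => True) * S D R q u' A := by
  have hu' : ∀ e, 0 ≤ u' e := fun e => (hu e).trans (h e)
  have h1 : DLS.ind (fun _ : Finset (Edge D) => True) = fun _ => 1 := by
    funext a
    exact ind_pos (A := fun _ : Finset (Edge D) => True) trivial
  unfold S
  rw [h1]
  exact DLS.holley_mul (tin D R) (fun a => (lat D).wt_nonneg q u (by linarith) hu _)
    (fun a => (lat D).wt_nonneg q u' (by linarith) hu' _) (ind_nonneg A)
    (fun a b hab => ind_le (hA a b hab)) fun a _ b _ => mu_le hq hu h _ a b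

/-- The configurations of the box in which the edges of the sphere are open. -/
theorem sm_eq (hR : 1 ≤ R) (A B : Finset (Edge D) → Prop)
    (hAB : ∀ a ⊆ tin D R, (A (sphE D R ∪ a) ↔ B a)) :
    (lat D).sm q u (edg (SB.box D R)) (fun ω => sphE D R ⊆ ω ∧ A ω) = S D R q u B := by
  classical
  have h1 := br_sum0 hR ((lat D).wt q u) A B hAB
  unfold S DLS.Sm Gr.sm
  refine (Eq.trans ?_ h1).trans ?_
  · refine sum_congr ?_ fun _ _ => rfl
    ext ω
    simp only [mem_filter]
  · rw [sum_filter]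
    refine sum_congr rfl fun a _ => ?_
    by_cases hB : B a
    · rw [if_pos hB, ind_pos hB, mul_one]
    · rw [if_neg hB, ind_neg hB, mul_zero]

theorem pr_eq (hR : 1 ≤ R) (A B : Finset (Edge D) → Prop)
    (hAB : ∀ a ⊆ tin D R, (A (sphE D R ∪ a) ↔ B a)) :
    (lat D).pr q u (edg (SB.box D R)) (fun ω => sphE D R ⊆ ω ∧ A ω) =
      S D R q u B / (lat D).zz q u (edg (SB.box D R)) := by
  rw [Gr.pr_eq_sm, sm_eq hR A B hAB]

theorem pr_eq_true (hR : 1 ≤ R) :
    (lat D).pr q u (edg (SB.box D R)) (fun ω => sphE D R ⊆ ω) =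
      S D R q u (fun _ => True) / (lat D).zz q u (edg (SB.box D R)) := by
  rw [← pr_eq hR (fun _ => True) (fun _ => True) fun _ _ => Iff.rfl]
  simp only [and_true]

end basic

section dominate

variable {R : ℕ} {q : ℝ} {u : Edge D → ℝ}

/-- The inequality of weights. -/
theorem wt_gen (hD : 1 ≤ D) (hR : 1 ≤ R) (hq : 1 ≤ q) (hu : ∀ e, 0 ≤ u e)
    {η a b : Finset (Edge D)} (hη : Disjoint η (tin D R)) (ha : a ⊆ tin D R)
    (hb : b ⊆ tin D R) :
    (lat D).wt q u (η ∪ a) * (lat D).wt q u (sphE D R ∪ b) ≤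
      (lat D).wt q u (η ∪ (a ∩ b)) * (lat D).wt q u (sphE D R ∪ (a ∪ b)) := by
  have hdη : ∀ c : Finset (Edge D), c ⊆ tin D R →
      ∏ e ∈ η ∪ c, u e = (∏ e ∈ η, u e) * ∏ e ∈ c, u e := fun c hc =>
    prod_union (disjoint_of_subset_right hc hη)
  have hdF : ∀ c : Finset (Edge D), c ⊆ tin D R →
      ∏ e ∈ sphE D R ∪ c, u e = (∏ e ∈ sphE D R, u e) * ∏ e ∈ c, u e := fun c hc =>
    prod_union (disjoint_of_subset_right hc sph_disj)
  have hab : a ∩ b ⊆ tin D R := inter_subset_left.trans ha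
  have hab' : a ∪ b ⊆ tin D R := union_subset ha hb
  unfold Gr.wt
  rw [hdη a ha, hdF b hb, hdη _ hab, hdF _ hab']
  have h1 : (∏ e ∈ a, u e) * ∏ e ∈ b, u e = (∏ e ∈ a ∩ b, u e) * ∏ e ∈ a ∪ b, u e := by
    rw [mul_comm (∏ e ∈ a ∩ b, u e), prod_union_inter]
  have h2 : (q⁻¹) ^ (lat D).rk (η ∪ a) * (q⁻¹) ^ (lat D).rk (sphE D R ∪ b) ≤
      (q⁻¹) ^ (lat D).rk (η ∪ (a ∩ b)) * (q⁻¹) ^ (lat D).rk (sphE D R ∪ (a ∪ b)) := by
    rw [← pow_add, ← pow_add]
    exact pow_le_pow_of_le_one (inv_nonneg.2 (by linarith)) (inv_le_one_of_one_le₀ hq)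
      (s1_rk hD hR hη ha hb)
  have hp : ∀ c : Finset (Edge D), 0 ≤ ∏ e ∈ c, u e := fun c => prod_nonneg fun e _ => hu e
  calc (∏ e ∈ η, u e) * (∏ e ∈ a, u e) * (q⁻¹) ^ (lat D).rk (η ∪ a) *
        ((∏ e ∈ sphE D R, u e) * (∏ e ∈ b, u e) * (q⁻¹) ^ (lat D).rk (sphE D R ∪ b))
      = ((∏ e ∈ η, u e) * (∏ e ∈ sphE D R, u e)) * ((∏ e ∈ a, u e) * ∏ e ∈ b, u e) *
          ((q⁻¹) ^ (lat D).rk (η ∪ a) * (q⁻¹) ^ (lat D).rk (sphE D R ∪ b)) := by ring
    _ ≤ ((∏ e ∈ η, u e) * (∏ e ∈ sphE D R, u e)) * ((∏ e ∈ a, u e) * ∏ e ∈ b, u e) *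
          ((q⁻¹) ^ (lat D).rk (η ∪ (a ∩ b)) * (q⁻¹) ^ (lat D).rk (sphE D R ∪ (a ∪ b))) :=
        mul_le_mul_of_nonneg_left h2
          (mul_nonneg (mul_nonneg (hp _) (hp _)) (mul_nonneg (hp _) (hp _)))
    _ = _ := by
        rw [h1]
        ring

open Classical in
theorem fiber (hD : 1 ≤ D) (hR : 1 ≤ R) (hq : 1 ≤ q) (hu : ∀ e, 0 ≤ u e) (Ed : Finset (Edge D))
    {η : Finset (Edge D)} (hη : Disjoint η (tin D R)) {A : Finset (Edge D) → Prop}
    (hA : ∀ a b, a ⊆ b → A a → A b) :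
    (∑ a ∈ (Ed ∩ tin D R).powerset, if A a then (lat D).wt q u (η ∪ a) else 0) *
        S D R q u (fun _ => True) ≤
      (∑ a ∈ (Ed ∩ tin D R).powerset, (lat D).wt q u (η ∪ a)) * S D R q u A := by
  have hq0 : 0 < q := by linarith
  have hpow : ∀ f : Finset (Edge D) → ℝ, ∑ a ∈ (Ed ∩ tin D R).powerset, f a =
      ∑ a ∈ (tin D R).powerset, if a ⊆ Ed then f a else 0 := by
    intro f
    rw [← sum_filter]
    refine sum_congr ?_ fun _ _ => rfl
    ext a
    simp only [Finset.mem_filter, Finset.mem_powerset, Finset.subset_inter_iff]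
    tauto
  have hW := (lat D).wt_nonneg q u hq0 hu
  have hS : S D R q u (fun _ => True) =
      ∑ b ∈ (tin D R).powerset, (lat D).wt q u (sphE D R ∪ b) := by
    unfold S DLS.Sm
    refine sum_congr rfl fun b _ => ?_
    rw [ind_pos (A := fun _ : Finset (Edge D) => True) trivial, mul_one]
  have hS' : S D R q u A =
      ∑ b ∈ (tin D R).powerset, if A b then (lat D).wt q u (sphE D R ∪ b) else 0 := by
    unfold S DLS.Sm
    refine sum_congr rfl fun b _ => ?_
    by_cases hb : A b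
    · rw [if_pos hb, ind_pos hb, mul_one]
    · rw [if_neg hb, ind_neg hb, mul_zero]
  rw [hS, hS', hpow, hpow]
  refine DLS.four (tin D R)
    (f₁ := fun a => if a ⊆ Ed then (if A a then (lat D).wt q u (η ∪ a) else 0) else 0)
    (f₂ := fun b => (lat D).wt q u (sphE D R ∪ b))
    (f₃ := fun a => if a ⊆ Ed then (lat D).wt q u (η ∪ a) else 0)
    (f₄ := fun b => if A b then (lat D).wt q u (sphE D R ∪ b) else 0)
    (fun a => by
      split_ifs
      · exact hW _
      · exact le_refl _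
      · exact le_refl _)
    (fun b => hW _)
    (fun a => by
      split_ifs
      · exact hW _
      · exact le_refl _)
    (fun b => by
      split_ifs
      · exact hW _
      · exact le_refl _)
    (fun a ha b hb => ?_)
  have hn3 : 0 ≤ if a ∩ b ⊆ Ed then (lat D).wt q u (η ∪ (a ∩ b)) else 0 := by
    split_ifs
    · exact hW _
    · exact le_refl _
  have hn4 : 0 ≤ if A (a ∪ b) then (lat D).wt q u (sphE D R ∪ (a ∪ b)) else 0 := by
    split_ifs
    · exact hW _
    · exact le_refl _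
  by_cases h1 : a ⊆ Ed
  · by_cases h2 : A a
    · rw [if_pos h1, if_pos h2, if_pos (inter_subset_left.trans h1),
        if_pos (hA _ _ subset_union_left h2)]
      exact wt_gen hD hR hq hu hη ha hb
    · rw [if_pos h1, if_neg h2, zero_mul]
      exact mul_nonneg hn3 hn4
  · rw [if_neg h1, zero_mul]
    exact mul_nonneg hn3 hn4

/-- Given any event which does not depend on the edges touching the box, the probability of an
increasing event in the box is at most the one for the wired boundary condition. -/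
theorem dom (hD : 1 ≤ D) (hR : 1 ≤ R) (hq : 1 ≤ q) (hu : ∀ e, 0 ≤ u e) (Ed : Finset (Edge D))
    {A B : Finset (Edge D) → Prop} (hA : ∀ a b, a ⊆ b → A a → A b)
    (hAl : ∀ ω, A ω → A (ω ∩ tin D R)) (hB : ∀ ω, B ω ↔ B (ω \ tin D R)) :
    (lat D).pr q u Ed (fun ω => A ω ∧ B ω) * S D R q u (fun _ => True) ≤
      (lat D).pr q u Ed B * S D R q u A := by
  classical
  have hq0 : 0 < q := by linarith
  have hz := (lat D).zz_pos q u hq0 hu Ed
  rw [s1_pr_eq, s1_pr_eq, div_mul_eq_mul_div, div_mul_eq_mul_div,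
    div_le_div_iff_of_pos_right hz, s1_split Ed (tin D R), s1_split Ed (tin D R), sum_mul,
    sum_mul]
  refine sum_le_sum fun η hη => ?_
  rw [mem_powerset] at hη
  have hdis : Disjoint η (tin D R) := disjoint_left.2 fun e he => (Finset.mem_sdiff.1 (hη he)).2
  have hsd : ∀ a : Finset (Edge D), a ⊆ Ed ∩ tin D R → (η ∪ a) \ tin D R = η := by
    intro a ha
    ext e
    simp only [Finset.mem_sdiff, Finset.mem_union]
    constructor
    · rintro ⟨h | h, h'⟩
      · exact h
      · exact absurd (mem_inter.1 (ha h)).2 h'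
    · intro h
      exact ⟨Or.inl h, disjoint_left.1 hdis h⟩
  have hBa : ∀ a : Finset (Edge D), a ⊆ Ed ∩ tin D R → (B (η ∪ a) ↔ B η) := by
    intro a ha
    rw [hB (η ∪ a), hsd a ha]
  have hFa : ∀ a : Finset (Edge D), a ⊆ Ed ∩ tin D R → (A (η ∪ a) ↔ A a) := by
    intro a ha
    refine ⟨fun h => hA _ _ ?_ (hAl _ h), fun h => hA _ _ subset_union_right h⟩
    intro e he
    rcases mem_union.1 (mem_inter.1 he).1 with h1 | h1
    · exact absurd (mem_inter.1 he).2 (disjoint_left.1 hdis h1)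
    · exact h1
  by_cases hBη : B η
  · have h1 := fiber hD hR hq hu Ed hdis hA
    have h2 : (∑ a ∈ (Ed ∩ tin D R).powerset,
        if A (η ∪ a) ∧ B (η ∪ a) then (lat D).wt q u (η ∪ a) else 0) =
        ∑ a ∈ (Ed ∩ tin D R).powerset, if A a then (lat D).wt q u (η ∪ a) else 0 := by
      refine sum_congr rfl fun a ha => ?_
      rw [mem_powerset] at ha
      simp only [hBa a ha, hFa a ha, hBη, and_true]
    have h3 : (∑ a ∈ (Ed ∩ tin D R).powerset,
        if B (η ∪ a) then (lat D).wt q u (η ∪ a) else 0) =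
        ∑ a ∈ (Ed ∩ tin D R).powerset, (lat D).wt q u (η ∪ a) := by
      refine sum_congr rfl fun a ha => ?_
      rw [mem_powerset] at ha
      rw [if_pos ((hBa a ha).2 hBη)]
    rw [h2, h3]
    exact h1
  · have h2 : (∑ a ∈ (Ed ∩ tin D R).powerset,
        if A (η ∪ a) ∧ B (η ∪ a) then (lat D).wt q u (η ∪ a) else 0) = 0 := by
      refine sum_eq_zero fun a ha => ?_
      rw [mem_powerset] at ha
      rw [if_neg]
      rintro ⟨-, h⟩
      exact hBη ((hBa a ha).1 h)
    have h3 : (∑ a ∈ (Ed ∩ tin D R).powerset,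
        if B (η ∪ a) then (lat D).wt q u (η ∪ a) else 0) = 0 := by
      refine sum_eq_zero fun a ha => ?_
      rw [mem_powerset] at ha
      rw [if_neg fun h => hBη ((hBa a ha).1 h)]
    rw [h2, h3, zero_mul, zero_mul]

theorem map_sh (x : Site D) (ω : Finset (Edge D)) :
    (ω.map (shE x).toEmbedding).map (shE (-x)).toEmbedding = ω := by
  rw [Finset.map_map, ← shE_symm]
  ext e
  simp

theorem map_sh' (x : Site D) (ω : Finset (Edge D)) :
    (ω.map (shE (-x)).toEmbedding).map (shE x).toEmbedding = ω := by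
  have h := map_sh (-x) ω
  rwa [neg_neg] at h

/-- The same with any centre. -/
theorem dom_at (hD : 1 ≤ D) (hR : 1 ≤ R) (hq : 1 ≤ q) (hu : ∀ e, 0 ≤ u e) (Ed : Finset (Edge D))
    (x : Site D) {A B : Finset (Edge D) → Prop} (hA : ∀ a b, a ⊆ b → A a → A b)
    (hAl : ∀ ω, A ω → A (ω ∩ tin D R)) (hB : ∀ ω, B ω ↔ B (ω \ tinx D R x)) :
    (lat D).pr q u Ed (fun ω => A (ω.map (shE (-x)).toEmbedding) ∧ B ω) *
        S D R q (u ∘ shE x) (fun _ => True) ≤
      (lat D).pr q u Ed B * S D R q (u ∘ shE x) A := by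
  rw [← map_sh' x Ed, s1_pr_map (lat D) (Equiv.addRight x) (shE x) (shE_s x) (shE_t x),
    s1_pr_map (lat D) (Equiv.addRight x) (shE x) (shE_s x) (shE_t x)]
  simp only [map_sh]
  refine dom hD hR hq (fun e => hu _) _ hA hAl fun ω => ?_
  rw [hB, ← tin_map, ← Finset.map_sdiff]

end dominate

section block

variable {q : ℝ} {u : Edge D → ℝ}

/-- The section of the tube. -/
noncomputable def sec (D r : ℕ) : Finset (Site D) := (SB.box D r).filter fun z => z.1 = 0

theorem mem_sec {r : ℕ} (z : Site D) : z ∈ sec D r ↔ z.1 = 0 ∧ ∀ i, (z.2 i).natAbs ≤ r := by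
  unfold sec
  rw [Finset.mem_filter, mem_box_co]
  constructor
  · rintro ⟨h2, h3⟩
    exact ⟨h3, fun i => h2 (some i)⟩
  · rintro ⟨h3, h2⟩
    refine ⟨fun k => ?_, h3⟩
    cases k with
    | none =>
      change (z.1).natAbs ≤ r
      rw [h3]
      simp
    | some i => exact h2 i

theorem card_sec (r : ℕ) : (sec D r).card ≤ (2 * r + 1) ^ D := by
  have h1 : sec D r ⊆ ({0} : Finset ℤ) ×ˢ Finset.Icc (fun _ => -(r : ℤ)) (fun _ => (r : ℤ)) := by
    intro z hz
    rw [mem_sec] at hz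
    rw [mem_product, Finset.mem_singleton, Finset.mem_Icc]
    refine ⟨hz.1, fun i => ?_, fun i => ?_⟩
    · have := hz.2 i
      change -(r : ℤ) ≤ z.2 i
      omega
    · have := hz.2 i
      change z.2 i ≤ (r : ℤ)
      omega
  refine (card_le_card h1).trans (le_of_eq ?_)
  rw [card_product, card_singleton, one_mul, Pi.card_Icc]
  simp only [Int.card_Icc, prod_const, card_univ, Fintype.card_fin]
  congr 1
  omega

theorem sub_co (y x : Site D) (k : Option (Fin D)) : co (y - x) k = co y k - co x k := by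
  cases k <;> rfl

theorem sph_tinx {R M : ℕ} (hR : 1 ≤ R) {z : Site D} (hz : ∀ k, (co z k).natAbs + R ≤ M) :
    Disjoint (sphE D M) (tinx D R z) := by
  rw [disjoint_left]
  intro e h1 h2
  have h3 := (Finset.mem_filter.1 h1).2
  rw [mem_tinx] at h2
  rcases h2 with h | h
  · refine h3.1 ((mem_box_co _).2 fun k => ?_)
    have h4 := (mem_box_co _).1 h k
    rw [sub_co] at h4
    have := hz k
    omega
  · refine h3.2 ((mem_box_co _).2 fun k => ?_)
    have h4 := (mem_box_co _).1 h k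
    rw [sub_co] at h4
    have := hz k
    omega

theorem tinx_sub {R M : ℕ} (hR : 1 ≤ R) {z : Site D} (hz : ∀ k, (co z k).natAbs + R ≤ M) :
    tinx D R z ⊆ tin D M := by
  intro e h2
  rw [mem_tinx] at h2
  rw [mem_tin]
  rcases h2 with h | h
  · refine Or.inl ((mem_box_co _).2 fun k => ?_)
    have h4 := (mem_box_co _).1 h k
    rw [sub_co] at h4
    have := hz k
    omega
  · refine Or.inr ((mem_box_co _).2 fun k => ?_)
    have h4 := (mem_box_co _).1 h k
    rw [sub_co] at h4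
    have := hz k
    omega

theorem tinx_off {R : ℕ} (hR : 1 ≤ R) {z : Site D} (hz : ∃ i, R ≤ (z.2 i).natAbs) {e : Edge D}
    (he : e ∈ tinx D R z) : ¬ OnL e := by
  rintro ⟨h1, h2⟩
  obtain ⟨i, hi⟩ := hz
  have h4 : co e.1 (some i) = 0 := congrFun h2 i
  have h5 : co ((lat D).t e) (some i) = 0 := by
    rw [co_t, h4, h1]
    simp
  have h6 : co z (some i) = z.2 i := rfl
  rw [mem_tinx] at he
  rcases he with h | h
  · have h7 := (mem_box_co _).1 h (some i)
    rw [sub_co, h4, h6] at h7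
    omega
  · have h7 := (mem_box_co _).1 h (some i)
    rw [sub_co, h5, h6] at h7
    omega

/-- The probability of `Far` off the line in the wired box. -/
theorem S_far (hD : 1 ≤ D) {R M : ℕ} (hR : 1 ≤ R) (hM : 1 ≤ M) (hq : 1 ≤ q) {v : ℝ} (hv : 0 < v)
    (hu : ∀ e, 0 ≤ u e) {z : Site D} (hz : ∀ k, (co z k).natAbs + R ≤ M)
    (huv : ∀ e ∈ tinx D R z, u e = v) :
    S D M q u (Far D R z) ≤ wsp D q v R * S D M q u fun _ => True := by
  have hq0 : 0 < q := by linarith
  have hzz := (lat D).zz_pos q u hq0 hu (edg (SB.box D M))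
  have hdis := sph_tinx hR hz
  have h1 := s1_at hD hR hq hv hu z huv (edg (SB.box D M)) (fun ω => sphE D M ⊆ ω) fun ω =>
    ⟨fun h e he => Finset.mem_sdiff.2 ⟨h he, disjoint_left.1 hdis he⟩,
      fun h => h.trans sdiff_subset⟩
  have h2 : (fun ω => Far D R z ω ∧ sphE D M ⊆ ω) = fun ω => sphE D M ⊆ ω ∧ Far D R z ω := by
    funext ω
    exact propext and_comm
  rw [h2, pr_eq hM _ (Far D R z) fun a _ => ⟨fun h => far_locx ?_ h,
    fun h => h.mono subset_union_right⟩, pr_eq_true hM, ← mul_div_assoc,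
    div_le_div_iff_of_pos_right hzz] at h1
  · exact h1
  · intro e he
    rcases mem_union.1 (mem_inter.1 he).1 with h3 | h3
    · exact absurd (mem_inter.1 he).2 (disjoint_left.1 hdis h3)
    · exact h3

/-- The edges at `z`. -/
noncomputable def atE (z : Site D) : Finset (Edge D) :=
  (Finset.univ.image fun k => (z, k)) ∪ Finset.univ.image fun k => (z - SB.dir (k, true), k)

theorem mem_atE {z : Site D} {e : Edge D} (h : e.1 = z ∨ (lat D).t e = z) : e ∈ atE z := by
  unfold atE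
  rw [mem_union, mem_image, mem_image]
  rcases h with h | h
  · exact Or.inl ⟨e.2, mem_univ _, by rw [← h]⟩
  · refine Or.inr ⟨e.2, mem_univ _, Prod.ext ?_ rfl⟩
    change z - SB.dir (e.2, true) = e.1
    rw [← h, t_eq, add_sub_cancel_right]

theorem card_atE (z : Site D) : (atE z).card ≤ 2 * (D + 1) := by
  unfold atE
  refine (card_union_le _ _).trans ?_
  have h1 : (Finset.univ.image fun k : Option (Fin D) => ((z, k) : Edge D)).card ≤ D + 1 := by
    refine card_image_le.trans (le_of_eq ?_)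
    rw [card_univ, Fintype.card_option, Fintype.card_fin]
  have h2 : (Finset.univ.image fun k : Option (Fin D) =>
      ((z - SB.dir (k, true), k) : Edge D)).card ≤ D + 1 := by
    refine card_image_le.trans (le_of_eq ?_)
    rw [card_univ, Fintype.card_option, Fintype.card_fin]
  omega

theorem far_atE {R : ℕ} {z : Site D} {a : Finset (Edge D)} (h : Far D R z a) :
    ¬ Disjoint a (atE z) := by
  obtain ⟨y, hy, hr⟩ := h
  rcases Relation.ReflTransGen.cases_head hr with h1 | ⟨c, h1, -⟩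
  · subst h1
    rw [sub_self] at hy
    exact absurd (zero_mem_box _) hy
  · obtain ⟨e, he, h2⟩ := h1
    intro hd
    refine disjoint_left.1 hd he (mem_atE ?_)
    rcases h2 with h2 | h2
    · exact Or.inl h2.1
    · exact Or.inr h2.2

/-- Closing the edges of `F` costs at most a constant. -/
theorem S_close (hq : 1 ≤ q) {vm : ℝ} (hu : ∀ e, 0 ≤ u e) (hvm : ∀ e, u e ≤ vm) {M : ℕ}
    (F : Finset (Edge D)) :
    S D M q u (fun _ => True) ≤ (1 + vm) ^ F.card * S D M q u fun a => Disjoint a F := by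
  classical
  have hq0 : 0 < q := by linarith
  have hW := (lat D).wt_nonneg q u hq0 hu
  have hvm0 : 0 ≤ vm := (hu ((0 : Site D), none)).trans (hvm _)
  have h1 : S D M q u (fun _ => True) = ∑ a ∈ (tin D M).powerset,
      (lat D).wt q u (sphE D M ∪ a) := by
    unfold S DLS.Sm
    refine sum_congr rfl fun b _ => ?_
    rw [ind_pos (A := fun _ : Finset (Edge D) => True) trivial, mul_one]
  have h2 : ∀ η ∈ (tin D M \ F).powerset, ∑ b ∈ (tin D M ∩ F).powerset,
      (lat D).wt q u (sphE D M ∪ (η ∪ b)) ≤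
        (1 + vm) ^ F.card * (lat D).wt q u (sphE D M ∪ η) := by
    intro η hη
    rw [mem_powerset] at hη
    have h3 : ∀ b ∈ (tin D M ∩ F).powerset, (lat D).wt q u (sphE D M ∪ (η ∪ b)) ≤
        (lat D).wt q u (sphE D M ∪ η) * ∏ e ∈ b, u e := by
      intro b hb
      rw [mem_powerset] at hb
      rw [← union_assoc]
      refine (lat D).wt_union_le q u hq hu _ _ ?_
      rw [disjoint_union_left]
      refine ⟨disjoint_of_subset_right (hb.trans inter_subset_left) sph_disj, ?_⟩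
      rw [disjoint_left]
      intro e he he'
      exact (Finset.mem_sdiff.1 (hη he)).2 (mem_inter.1 (hb he')).2
    refine (sum_le_sum h3).trans ?_
    rw [← mul_sum, mul_comm]
    refine mul_le_mul_of_nonneg_right ?_ (hW _)
    rw [← prod_one_add]
    calc ∏ e ∈ tin D M ∩ F, (1 + u e) ≤ ∏ _e ∈ tin D M ∩ F, (1 + vm) :=
          prod_le_prod (fun e _ => by have := hu e; linarith) fun e _ => by
            have := hvm e
            linarith
      _ = (1 + vm) ^ (tin D M ∩ F).card := prod_const _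
      _ ≤ _ := pow_le_pow_right₀ (by linarith) (card_le_card inter_subset_right)
  rw [h1, s1_split (tin D M) F]
  refine (sum_le_sum h2).trans ?_
  rw [← mul_sum]
  refine mul_le_mul_of_nonneg_left ?_ (by positivity)
  have h4 : ∑ η ∈ (tin D M \ F).powerset, (lat D).wt q u (sphE D M ∪ η) =
      ∑ η ∈ (tin D M \ F).powerset, (lat D).wt q u (sphE D M ∪ η) *
        DLS.ind (fun a => Disjoint a F) η := by
    refine sum_congr rfl fun η hη => ?_
    rw [mem_powerset] at hη
    rw [ind_pos (A := fun a => Disjoint a F), mul_one]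
    exact disjoint_left.2 fun e he => (Finset.mem_sdiff.1 (hη he)).2
  rw [h4]
  exact sum_le_sum_of_subset_of_nonneg (powerset_mono.2 sdiff_subset)
    fun a _ _ => mul_nonneg (hW _) (ind_nonneg _ _)

/-- Product bound for the complements of increasing events. -/
theorem S_prod (hq : 1 ≤ q) (hu : ∀ e, 0 < u e) {M : ℕ} {κ : Type} [DecidableEq κ] (X : Finset κ)
    (P : κ → Finset (Edge D) → Prop) (hP : ∀ z, ∀ a b, a ⊆ b → P z a → P z b) (p : κ → ℝ)
    (hp0 : ∀ z ∈ X, 0 ≤ p z)
    (hp : ∀ z ∈ X, p z * S D M q u (fun _ => True) ≤ S D M q u fun a => ¬ P z a) :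
    (∏ z ∈ X, p z) * S D M q u (fun _ => True) ≤ S D M q u fun a => ∀ z ∈ X, ¬ P z a := by
  have hq0 : 0 < q := by linarith
  have hpos := S_pos (R := M) hq0 hu
  induction X using Finset.induction_on with
  | empty =>
    rw [prod_empty, one_mul]
    exact S_le hq0 (fun e => (hu e).le) fun a _ _ z hz => absurd hz (notMem_empty z)
  | insert z X hz ih =>
    have ih' := ih (fun i hi => hp0 i (mem_insert_of_mem hi))
      fun i hi => hp i (mem_insert_of_mem hi)
    have h1 := fkg_dec (R := M) hq (fun e => (hu e).le) (A := fun a => ¬ P z a)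
      (B := fun a => ∀ z ∈ X, ¬ P z a) (fun a b hab h h' => h (hP z a b hab h'))
      fun a b hab h i hi h' => h i hi (hP i a b hab h')
    have h2 : S D M q u (fun a => ¬ P z a ∧ ∀ z ∈ X, ¬ P z a) =
        S D M q u fun a => ∀ i ∈ insert z X, ¬ P i a := by
      refine S_congr fun a _ => ?_
      rw [forall_mem_insert]
    rw [prod_insert hz]
    rw [h2] at h1
    refine le_of_mul_le_mul_right ?_ hpos
    refine le_trans ?_ h1
    have h3 := mul_le_mul (hp z (mem_insert_self _ _)) ih'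
      (mul_nonneg (prod_nonneg fun i hi => hp0 i (mem_insert_of_mem hi)) hpos.le)
      (S_nonneg hq0 (fun e => (hu e).le) _)
    linarith [mul_mul_mul_comm (p z) (S D M q u fun _ => True) (∏ z ∈ X, p z)
      (S D M q u fun _ => True)]

/-- The tube is crossed at height `0`. -/
def Crs (D r R : ℕ) (a : Finset (Edge D)) : Prop := ∃ z ∈ sec D r, Far D R z a

theorem Crs.mono {r R : ℕ} {a b : Finset (Edge D)} (hab : a ⊆ b) (h : Crs D r R a) :
    Crs D r R b := by
  obtain ⟨z, hz, hF⟩ := h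
  exact ⟨z, hz, hF.mono hab⟩

theorem sec_co {r R M : ℕ} (hM : r + R ≤ M) {z : Site D} (hz : z ∈ sec D r) :
    ∀ k, (co z k).natAbs + R ≤ M := by
  rw [mem_sec] at hz
  intro k
  cases k with
  | none =>
    change (z.1).natAbs + R ≤ M
    rw [hz.1]
    simp only [Int.natAbs_zero]
    omega
  | some i =>
    have := hz.2 i
    change (z.2 i).natAbs + R ≤ M
    omega

theorem crs_loc {r R M : ℕ} (hR : 1 ≤ R) (hM : r + R ≤ M) {ω : Finset (Edge D)}
    (h : Crs D r R ω) : Crs D r R (ω ∩ tin D M) := by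
  obtain ⟨z, hz, hF⟩ := h
  exact ⟨z, hz, far_locx (inter_subset_inter_left (tinx_sub hR (sec_co hM hz))) hF⟩

/-- The tube is blocked with a probability which is not too small. -/
theorem S_block (hD : 1 ≤ D) {r R M : ℕ} (hR : 1 ≤ R) (hM : r + R ≤ M) (hq : 1 ≤ q) {v vm : ℝ}
    (hv : 0 < v) (hu : ∀ e, 0 < u e) (hvm : ∀ e, u e ≤ vm) (huv : ∀ e, ¬ OnL e → u e = v)
    (hw0 : 0 ≤ wsp D q v R) (hw : wsp D q v R ≤ 1) :
    ((((1 + vm) ^ (2 * (D + 1)))⁻¹) ^ ((2 * R + 1) ^ D) *
      (1 - wsp D q v R) ^ ((2 * r + 1) ^ D)) * S D M q u (fun _ => True) ≤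
      S D M q u fun a => ¬ Crs D r R a := by
  classical
  have hq0 : 0 < q := by linarith
  have hu' : ∀ e, 0 ≤ u e := fun e => (hu e).le
  have hvm0 : 0 ≤ vm := (hu' ((0 : Site D), none)).trans (hvm _)
  have hpos := S_pos (R := M) hq0 hu
  set A : ℝ := (1 + vm) ^ (2 * (D + 1)) with hA
  have hA1 : 1 ≤ A := one_le_pow₀ (by linarith)
  have hA0 : 0 < A := by linarith
  set w := wsp D q v R with hwdef
  set p : Site D → ℝ := fun z => if ∀ i, (z.2 i).natAbs < R then A⁻¹ else 1 - w with hp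
  have h1 := S_prod (M := M) hq hu (sec D r) (fun z => Far D R z)
    (fun z a b hab h => h.mono hab) p (fun z _ => by
      simp only [hp]
      split_ifs
      · exact inv_nonneg.2 hA0.le
      · linarith) (fun z hz => by
      simp only [hp]
      split_ifs with hc
      · have h2 := S_close (M := M) hq hu' hvm (atE z)
        have h3 : S D M q u (fun a => Disjoint a (atE z)) ≤ S D M q u fun a => ¬ Far D R z a :=
          S_le hq0 hu' fun a _ h h' => far_atE h' h
        have h4 : (1 + vm) ^ (atE z).card ≤ A :=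
          pow_le_pow_right₀ (by linarith) (card_atE z)
        rw [inv_mul_le_iff₀ hA0]
        refine h2.trans ((mul_le_mul_of_nonneg_right h4 (S_nonneg hq0 hu' _)).trans ?_)
        exact mul_le_mul_of_nonneg_left h3 hA0.le
      · have hoff : ∃ i, R ≤ (z.2 i).natAbs := by
          by_contra hcon
          push Not at hcon
          exact hc hcon
        have h2 := S_far hD hR (by omega : 1 ≤ M) hq hv hu' (sec_co hM hz)
          fun e he => huv e (tinx_off hR hoff he)
        have h3 := S_compl (D := D) (R := M) (q := q) (u := u) (Far D R z)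
        rw [sub_mul, one_mul]
        linarith)
  have h2 : S D M q u (fun a => ¬ Crs D r R a) = S D M q u fun a => ∀ z ∈ sec D r, ¬ Far D R z a := by
    refine S_congr fun a _ => ?_
    unfold Crs
    push Not
    exact Iff.rfl
  rw [h2]
  refine le_trans (mul_le_mul_of_nonneg_right ?_ hpos.le) h1
  simp only [hp]
  rw [prod_ite, prod_const, prod_const]
  refine mul_le_mul ?_ ?_ (pow_nonneg (by linarith) _) (pow_nonneg (inv_nonneg.2 hA0.le) _)
  · refine pow_le_pow_of_le_one (inv_nonneg.2 hA0.le) (inv_le_one_of_one_le₀ hA1) ?_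
    refine (card_le_card ?_).trans (card_sec R)
    intro z hz
    rw [Finset.mem_filter, mem_sec] at hz
    rw [mem_sec]
    exact ⟨hz.1.1, fun i => (hz.2 i).le⟩
  · exact pow_le_pow_of_le_one (by linarith) (by linarith)
      ((card_le_card (filter_subset _ _)).trans (card_sec r))

end block

section line

variable {q : ℝ} {u : Edge D → ℝ}

/-- The site of the line at the height `h`. -/
def pt (D : ℕ) (h : ℤ) : Site D := (h, 0)

theorem far_map_gen {R : ℕ} (x z : Site D) (ω : Finset (Edge D)) :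
    Far D R z (ω.map (shE (-x)).toEmbedding) ↔ Far D R (z + x) ω := by
  constructor
  · rintro ⟨y, hy, hr⟩
    have h1 := s1_rch_map (lat D) (Equiv.addRight x) (shE x) (shE_s x) (shE_t x) hr
    rw [map_sh'] at h1
    refine ⟨y + x, ?_, h1⟩
    rwa [add_sub_add_right_eq_sub]
  · rintro ⟨y, hy, hr⟩
    have h1 := s1_rch_map (lat D) (Equiv.addRight (-x)) (shE (-x)) (shE_s (-x)) (shE_t (-x)) hr
    refine ⟨y - x, ?_, ?_⟩
    · rwa [sub_sub, add_comm x z]
    · have h3 : Equiv.addRight (-x) (z + x) = z := add_neg_cancel_right z x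
      have h4 : Equiv.addRight (-x) y = y - x := (sub_eq_add_neg _ _).symm
      rwa [h3, h4] at h1

theorem tinx_pt_disj {M : ℕ} (hM : 1 ≤ M) {h h' : ℤ} (hh : 2 * M ≤ (h - h').natAbs) :
    Disjoint (tinx D M (pt D h)) (tinx D M (pt D h')) := by
  rw [disjoint_left]
  intro e h1 h2
  obtain ⟨c, hc, hc1, hc2⟩ := near_edge hM h1 none
  obtain ⟨c', hc', hc1', hc2'⟩ := near_edge hM h2 none
  have h3 : co (pt D h) none = h := rfl
  have h4 : co (pt D h') none = h' := rfl
  rw [h3] at hc1 hc2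
  rw [h4] at hc1' hc2'
  omega

theorem tinx_sub_pt {r R M : ℕ} (hR : 1 ≤ R) (hM : r + R ≤ M) {z : Site D} (hz : z ∈ sec D r)
    (h : ℤ) : tinx D R (z + pt D h) ⊆ tinx D M (pt D h) := by
  intro e he
  rw [mem_tinx] at he ⊢
  have hzc := sec_co hM hz
  have hadd : ∀ (y : Site D) k, co (y - (z + pt D h)) k = co (y - pt D h) k - co z k := by
    intro y k
    rw [sub_co, sub_co, co_add]
    ring
  rcases he with he | he
  · refine Or.inl ((mem_box_co _).2 fun k => ?_)
    have h4 := (mem_box_co _).1 he k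
    rw [hadd] at h4
    have := hzc k
    omega
  · refine Or.inr ((mem_box_co _).2 fun k => ?_)
    have h4 := (mem_box_co _).1 he k
    rw [hadd] at h4
    have := hzc k
    omega

/-- Many crossings. -/
theorem cross_iter (hD : 1 ≤ D) {r R M : ℕ} (hR : 1 ≤ R) (hM : r + R ≤ M) (hq : 1 ≤ q)
    (hu : ∀ e, 0 < u e) (hsh : ∀ h : ℤ, u ∘ shE (pt D h) = u) {ρ : ℝ} (hρ0 : 0 ≤ ρ)
    (hρ : S D M q u (Crs D r R) ≤ ρ * S D M q u fun _ => True) (Ed : Finset (Edge D))
    (B : Finset (Edge D) → Prop) (Hs : Finset ℤ)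
    (hfar : ∀ h ∈ Hs, ∀ h' ∈ Hs, h ≠ h' → 2 * M ≤ (h - h').natAbs)
    (hB : ∀ h ∈ Hs, ∀ ω, B ω ↔ B (ω \ tinx D M (pt D h))) :
    (lat D).pr q u Ed (fun ω => (∀ h ∈ Hs, ∃ z ∈ sec D r, Far D R (z + pt D h) ω) ∧ B ω) ≤
      ρ ^ Hs.card * (lat D).pr q u Ed B := by
  classical
  have hq0 : 0 < q := by linarith
  have hu' : ∀ e, 0 ≤ u e := fun e => (hu e).le
  have hpos := S_pos (R := M) hq0 hu
  have hM1 : 1 ≤ M := by omega
  induction Hs using Finset.induction_on with
  | empty =>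
    rw [card_empty, pow_zero, one_mul]
    exact (lat D).pr_le q u hq0 hu' Ed _ _ fun ω _ h => h.2
  | insert h Hs hh ih =>
    have ih' := ih (fun i hi j hj => hfar i (mem_insert_of_mem hi) j (mem_insert_of_mem hj))
      fun i hi => hB i (mem_insert_of_mem hi)
    have h1 := dom_at hD hM1 hq hu' Ed (pt D h) (A := Crs D r R)
      (B := fun ω => (∀ h ∈ Hs, ∃ z ∈ sec D r, Far D R (z + pt D h) ω) ∧ B ω)
      (fun a b hab ha => ha.mono hab) (fun ω hω => crs_loc hR hM hω) fun ω => by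
        refine and_congr ?_ (hB h (mem_insert_self _ _) ω)
        refine forall_congr' fun i => forall_congr' fun hi => ?_
        constructor
        · rintro ⟨z, hz, hF⟩
          refine ⟨z, hz, far_locx ?_ hF⟩
          intro e he
          refine Finset.mem_sdiff.2 ⟨(mem_inter.1 he).1, ?_⟩
          refine disjoint_left.1 (tinx_pt_disj hM1 (hfar i (mem_insert_of_mem hi) h
            (mem_insert_self _ _) ?_)) (tinx_sub_pt hR hM hz i (mem_inter.1 he).2)
          rintro rfl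
          exact hh hi
        · rintro ⟨z, hz, hF⟩
          exact ⟨z, hz, hF.mono sdiff_subset⟩
    rw [hsh] at h1
    have h2 : (fun ω : Finset (Edge D) => Crs D r R (ω.map (shE (-(pt D h))).toEmbedding) ∧
        (∀ h ∈ Hs, ∃ z ∈ sec D r, Far D R (z + pt D h) ω) ∧ B ω) =
        fun ω => (∀ i ∈ insert h Hs, ∃ z ∈ sec D r, Far D R (z + pt D i) ω) ∧ B ω := by
      funext ω
      rw [forall_mem_insert, and_assoc]
      unfold Crs
      simp only [far_map_gen]
    rw [h2] at h1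
    have h3 : (lat D).pr q u Ed
        (fun ω => (∀ i ∈ insert h Hs, ∃ z ∈ sec D r, Far D R (z + pt D i) ω) ∧ B ω) *
          S D M q u (fun _ => True) ≤
        ρ * (lat D).pr q u Ed (fun ω => (∀ h ∈ Hs, ∃ z ∈ sec D r, Far D R (z + pt D h) ω) ∧ B ω) *
          S D M q u (fun _ => True) := by
      refine h1.trans ?_
      have h4 := mul_le_mul_of_nonneg_left hρ ((lat D).pr_nonneg q u hq0 hu' Ed
        fun ω => (∀ h ∈ Hs, ∃ z ∈ sec D r, Far D R (z + pt D h) ω) ∧ B ω)
      linarith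
    have h5 := le_of_mul_le_mul_right h3 hpos
    rw [card_insert_of_notMem hh, pow_succ', mul_assoc]
    exact h5.trans (mul_le_mul_of_nonneg_left ih' hρ0)

theorem step_co {ω : Finset (Edge D)} {y z : Site D} (h : (lat D).Step ω y z)
    (k : Option (Fin D)) : (co z k - co y k).natAbs ≤ 1 := by
  obtain ⟨e, -, ⟨h1, h2⟩ | ⟨h1, h2⟩⟩ := h
  · rw [← h1, ← h2, co_t]
    change (co e.1 k + (if k = e.2 then 1 else 0) - co e.1 k).natAbs ≤ 1
    split_ifs <;> omega
  · rw [← h1, ← h2, co_t]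
    change (co e.1 k - (co e.1 k + if k = e.2 then 1 else 0)).natAbs ≤ 1
    split_ifs <;> omega

/-- A connection from `0` to the outside leaves the tube or crosses it many times. -/
theorem geo {N N' r : ℕ} {ω : Finset (Edge D)} (hN : N' + 1 ≤ N) (hr : r < N')
    (h : Far D N 0 ω) :
    (∃ z ∈ (SB.box D N').filter (fun z => ∃ i, r < (z.2 i).natAbs), (lat D).Rch ω 0 z) ∨
      (∀ h : ℤ, 0 < h → h ≤ N' → ∃ z ∈ sec D r, (lat D).Rch ω 0 (z + pt D h)) ∨
      ∀ h : ℤ, 0 < h → h ≤ N' → ∃ z ∈ sec D r, (lat D).Rch ω 0 (z + pt D (-h)) := by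
  by_contra hcon
  push Not at hcon
  obtain ⟨h1, ⟨a, ha0, haN, ha⟩, b, hb0, hbN, hb⟩ := hcon
  have key : ∀ y, (lat D).Rch ω 0 y → -b < y.1 ∧ y.1 < a ∧ ∀ i, (y.2 i).natAbs ≤ r := by
    intro y hy
    induction hy with
    | refl => exact ⟨by simpa using hb0, by simpa using ha0, fun i => by simp⟩
    | tail hy hs ih =>
      rename_i y z
      obtain ⟨i1, i2, i3⟩ := ih
      have hz : (lat D).Rch ω 0 z := hy.tail hs
      have hn := step_co hs none
      have hn' : (z.1 - y.1).natAbs ≤ 1 := hn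
      have hi : ∀ i, (z.2 i - y.2 i).natAbs ≤ 1 := fun i => step_co hs (some i)
      have h2 : ∀ i, (z.2 i).natAbs ≤ r := by
        by_contra hc
        push Not at hc
        refine h1 z ?_ hz
        rw [Finset.mem_filter, mem_box_co]
        refine ⟨fun k => ?_, hc⟩
        cases k with
        | none =>
          change (z.1).natAbs ≤ N'
          omega
        | some i =>
          change (z.2 i).natAbs ≤ N'
          have := hi i
          have := i3 i
          omega
      have h3 : ∀ c : ℤ, z.1 = c → ∃ s ∈ sec D r, z = s + pt D c := by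
        intro c hc
        refine ⟨(0, z.2), ?_, Prod.ext ?_ ?_⟩
        · rw [mem_sec]
          exact ⟨rfl, h2⟩
        · change z.1 = 0 + c
          rw [hc, zero_add]
        · change z.2 = z.2 + 0
          rw [add_zero]
      refine ⟨?_, ?_, h2⟩
      · by_contra hc
        obtain ⟨s, hs, hzs⟩ := h3 (-b) (by omega)
        exact hb s hs (hzs ▸ hz)
      · by_contra hc
        obtain ⟨s, hs, hzs⟩ := h3 a (by omega)
        exact ha s hs (hzs ▸ hz)
  obtain ⟨y, hy, hr'⟩ := h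
  rw [sub_zero] at hy
  obtain ⟨k1, k2, k3⟩ := key y hr'
  refine hy ((mem_box_co _).2 fun k => ?_)
  cases k with
  | none =>
    change (y.1).natAbs ≤ N - 1
    omega
  | some i =>
    change (y.2 i).natAbs ≤ N - 1
    have := k3 i
    omega

theorem far_tin_iff {N : ℕ} (a : Finset (Edge D)) :
    Far D N 0 (sphE D N ∪ a) ↔ Far D N 0 a := by
  refine ⟨fun h => far_loc ?_ h, fun h => h.mono subset_union_right⟩
  intro e he
  rcases mem_union.1 (mem_inter.1 he).1 with h3 | h3
  · exact absurd (mem_inter.1 he).2 (disjoint_left.1 sph_disj h3)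
  · exact h3

theorem card_box (L : ℕ) : (SB.box D L).card = (2 * L + 1) ^ (D + 1) := by
  unfold SB.box
  rw [card_product, Int.card_Icc, Pi.card_Icc]
  simp only [Int.card_Icc, prod_const, card_univ, Fintype.card_fin]
  rw [pow_succ']
  congr 1
  · omega
  · congr 1
    omega

theorem sph_event {N : ℕ} {T : Finset (Edge D)} (h : Disjoint (sphE D N) T)
    (ω : Finset (Edge D)) : sphE D N ⊆ ω ↔ sphE D N ⊆ ω \ T :=
  ⟨fun h1 _ he => Finset.mem_sdiff.2 ⟨h1 he, disjoint_left.1 h he⟩, fun h1 => h1.trans sdiff_subset⟩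

/-- The bound for the wired box. -/
theorem wired_bound (hD : 1 ≤ D) {r R M n N : ℕ} (hR : 1 ≤ R) (hM : r + R ≤ M)
    (hN : 2 * M * n + M ≤ N) (hn : 1 ≤ n) (hq : 1 ≤ q) {v : ℝ}
    (hv : 0 < v) (hu : ∀ e, 0 < u e) (huv : ∀ e, ¬ OnL e → u e = v)
    (hsh : ∀ h : ℤ, u ∘ shE (pt D h) = u) {ρ : ℝ} (hρ0 : 0 ≤ ρ)
    (hρ : S D M q u (Crs D r R) ≤ ρ * S D M q u fun _ => True) (hw : 0 ≤ wsp D q v (r + 1)) :
    S D N q u (Far D N 0) ≤ ((2 * (N : ℝ) + 1) ^ (D + 1) * wsp D q v (r + 1) + 2 * ρ ^ n) *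
      S D N q u fun _ => True := by
  classical
  have hq0 : 0 < q := by linarith
  have hu' : ∀ e, 0 ≤ u e := fun e => (hu e).le
  have hM1 : 1 ≤ M := by omega
  have hMn : M ≤ M * n := Nat.le_mul_of_pos_right M hn
  have hMn2 : 2 * M * n = 2 * (M * n) := by ring
  have hN1 : 1 ≤ N := by omega
  set Ed := edg (SB.box D N) with hEd
  have hzz := (lat D).zz_pos q u hq0 hu' Ed
  set F := sphE D N with hF
  obtain ⟨N', hN'⟩ : ∃ N', N = N' + 1 + r := ⟨N - 1 - r, by omega⟩
  set X := (SB.box D N').filter (fun z : Site D => ∃ i, r < (z.2 i).natAbs) with hX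
  set Hp : Finset ℤ := (range n).image fun k : ℕ => ((2 * M * (k + 1) : ℕ) : ℤ) with hHp
  set Hm : Finset ℤ := (range n).image fun k : ℕ => -((2 * M * (k + 1) : ℕ) : ℤ) with hHm
  have hinj : ∀ k k' : ℕ, k ≠ k' → 2 * M ≤ (((2 * M * (k + 1) : ℕ) : ℤ) -
      ((2 * M * (k' + 1) : ℕ) : ℤ)).natAbs := by
    intro k k' hkk
    rcases lt_or_gt_of_ne hkk with h | h
    · have h1 : 2 * M * (k + 1 + 1) ≤ 2 * M * (k' + 1) := Nat.mul_le_mul_left _ (by omega)
      have h2 : 2 * M * (k + 1 + 1) = 2 * M * (k + 1) + 2 * M := by ring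
      omega
    · have h1 : 2 * M * (k' + 1 + 1) ≤ 2 * M * (k + 1) := Nat.mul_le_mul_left _ (by omega)
      have h2 : 2 * M * (k' + 1 + 1) = 2 * M * (k' + 1) + 2 * M := by ring
      omega
  have hcp : Hp.card = n := by
    rw [hHp, card_image_of_injective, card_range]
    intro k k' hk
    by_contra hne
    have h1 := hinj k k' hne
    change ((2 * M * (k + 1) : ℕ) : ℤ) = ((2 * M * (k' + 1) : ℕ) : ℤ) at hk
    omega
  have hcm : Hm.card = n := by
    rw [hHm, card_image_of_injective, card_range]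
    intro k k' hk
    by_contra hne
    have h1 := hinj k k' hne
    change -((2 * M * (k + 1) : ℕ) : ℤ) = -((2 * M * (k' + 1) : ℕ) : ℤ) at hk
    omega
  have hrange : ∀ k ∈ range n, 2 * M * (k + 1) ≤ 2 * M * n := fun k hk =>
    Nat.mul_le_mul_left _ (by rw [Finset.mem_range] at hk; omega)
  have hlow : ∀ k : ℕ, 2 * M ≤ 2 * M * (k + 1) := fun k => Nat.le_mul_of_pos_right _ (by omega)
  have hfp : ∀ h ∈ Hp, ∀ h' ∈ Hp, h ≠ h' → 2 * M ≤ (h - h').natAbs := by
    intro h hh h' hh' hne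
    obtain ⟨k, -, rfl⟩ := mem_image.1 hh
    obtain ⟨k', -, rfl⟩ := mem_image.1 hh'
    exact hinj k k' fun hc => hne (by rw [hc])
  have hfm : ∀ h ∈ Hm, ∀ h' ∈ Hm, h ≠ h' → 2 * M ≤ (h - h').natAbs := by
    intro h hh h' hh' hne
    obtain ⟨k, -, rfl⟩ := mem_image.1 hh
    obtain ⟨k', -, rfl⟩ := mem_image.1 hh'
    have := hinj k k' fun hc => hne (by rw [hc])
    omega
  have hptc : ∀ h : ℤ, h.natAbs ≤ 2 * M * n → ∀ k, (co (pt D h) k).natAbs + M ≤ N := by
    intro h hh k
    cases k with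
    | none =>
      change h.natAbs + M ≤ N
      omega
    | some i =>
      change (0 : ℤ).natAbs + M ≤ N
      simp only [Int.natAbs_zero]
      omega
  have hBp : ∀ h ∈ Hp, ∀ ω, F ⊆ ω ↔ F ⊆ ω \ tinx D M (pt D h) := by
    intro h hh ω
    obtain ⟨k, hk, rfl⟩ := mem_image.1 hh
    have := hrange k hk
    exact sph_event (sph_tinx hM1 (hptc _ (by omega))) ω
  have hBm : ∀ h ∈ Hm, ∀ ω, F ⊆ ω ↔ F ⊆ ω \ tinx D M (pt D h) := by
    intro h hh ω
    obtain ⟨k, hk, rfl⟩ := mem_image.1 hh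
    have := hrange k hk
    exact sph_event (sph_tinx hM1 (hptc _ (by omega))) ω
  have hp := cross_iter hD hR hM hq hu hsh hρ0 hρ Ed (fun ω => F ⊆ ω) Hp hfp hBp
  have hm := cross_iter hD hR hM hq hu hsh hρ0 hρ Ed (fun ω => F ⊆ ω) Hm hfm hBm
  rw [hcp] at hp
  rw [hcm] at hm
  -- far from the line
  have hx : ∀ z ∈ X, (lat D).pr q u Ed (fun ω => Far D (r + 1) z ω ∧ F ⊆ ω) ≤
      wsp D q v (r + 1) * (lat D).pr q u Ed fun ω => F ⊆ ω := by
    intro z hz
    rw [hX, Finset.mem_filter, mem_box_co] at hz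
    refine s1_at hD (by omega) hq hv hu' z (fun e he => huv e (tinx_off (by omega) ?_ he)) Ed
      (fun ω => F ⊆ ω) (sph_event (sph_tinx (by omega) fun k => ?_))
    · obtain ⟨i, hi⟩ := hz.2
      exact ⟨i, hi⟩
    · have := hz.1 k
      omega
  have hX' := s1_union (lat D) q hq0 u hu' Ed X (fun z => Far D (r + 1) z) fun ω => F ⊆ ω
  have hmain : (lat D).pr q u Ed (fun ω => F ⊆ ω ∧ Far D N 0 ω) ≤
      (lat D).pr q u Ed (fun ω => (∃ z ∈ X, Far D (r + 1) z ω) ∧ F ⊆ ω) +
      ((lat D).pr q u Ed (fun ω => (∀ h ∈ Hp, ∃ z ∈ sec D r, Far D R (z + pt D h) ω) ∧ F ⊆ ω) +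
      (lat D).pr q u Ed fun ω => (∀ h ∈ Hm, ∃ z ∈ sec D r, Far D R (z + pt D h) ω) ∧ F ⊆ ω) := by
    refine le_trans ?_ (add_le_add_right ((lat D).pr_or_le q u hq0 hu' Ed _ _) _)
    refine le_trans ?_ ((lat D).pr_or_le q u hq0 hu' Ed _ _)
    refine (lat D).pr_le q u hq0 hu' Ed _ _ ?_
    rintro ω - ⟨hFω, hfar⟩
    rcases geo (N' := N') (r := r) (by omega) (by omega) hfar with ⟨z, hz, hr⟩ | h1 | h1
    · left
      refine ⟨⟨z, hz, 0, ?_, (lat D).rch_symm hr⟩, hFω⟩
      rw [Finset.mem_filter] at hz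
      obtain ⟨i, hi⟩ := hz.2
      intro hc
      have h2 := (mem_box_co _).1 hc (some i)
      rw [sub_co] at h2
      change ((0 : ℤ) - z.2 i).natAbs ≤ r + 1 - 1 at h2
      omega
    · right
      left
      refine ⟨fun h hh => ?_, hFω⟩
      obtain ⟨k, hk, rfl⟩ := mem_image.1 hh
      have h3 := hrange k hk
      have h4 := hlow k
      obtain ⟨z, hz, hr⟩ := h1 ((2 * M * (k + 1) : ℕ) : ℤ) (by omega) (by omega)
      refine ⟨z, hz, 0, ?_, (lat D).rch_symm hr⟩
      intro hc
      have h2 := (mem_box_co _).1 hc none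
      rw [sub_co, co_add] at h2
      rw [mem_sec] at hz
      change ((0 : ℤ) - (z.1 + ((2 * M * (k + 1) : ℕ) : ℤ))).natAbs ≤ R - 1 at h2
      rw [hz.1] at h2
      omega
    · right
      right
      refine ⟨fun h hh => ?_, hFω⟩
      obtain ⟨k, hk, rfl⟩ := mem_image.1 hh
      have h3 := hrange k hk
      have h4 := hlow k
      obtain ⟨z, hz, hr⟩ := h1 ((2 * M * (k + 1) : ℕ) : ℤ) (by omega) (by omega)
      refine ⟨z, hz, 0, ?_, (lat D).rch_symm hr⟩
      intro hc
      have h2 := (mem_box_co _).1 hc none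
      rw [sub_co, co_add] at h2
      rw [mem_sec] at hz
      change ((0 : ℤ) - (z.1 + -((2 * M * (k + 1) : ℕ) : ℤ))).natAbs ≤ R - 1 at h2
      rw [hz.1] at h2
      omega
  have hF0 := (lat D).pr_nonneg q u hq0 hu' Ed fun ω => F ⊆ ω
  have hsum : ∑ z ∈ X, (lat D).pr q u Ed (fun ω => Far D (r + 1) z ω ∧ F ⊆ ω) ≤
      (2 * (N : ℝ) + 1) ^ (D + 1) * wsp D q v (r + 1) * (lat D).pr q u Ed fun ω => F ⊆ ω := by
    refine (sum_le_sum hx).trans ?_
    rw [sum_const, nsmul_eq_mul, ← mul_assoc]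
    refine mul_le_mul_of_nonneg_right (mul_le_mul_of_nonneg_right ?_ hw) hF0
    have h1 : X.card ≤ (2 * N + 1) ^ (D + 1) := by
      refine (card_le_card (filter_subset _ _)).trans ?_
      rw [card_box]
      exact Nat.pow_le_pow_left (by omega) _
    calc (X.card : ℝ) ≤ (((2 * N + 1) ^ (D + 1) : ℕ) : ℝ) := by exact_mod_cast h1
      _ = _ := by push_cast; ring
  have hfin : (lat D).pr q u Ed (fun ω => F ⊆ ω ∧ Far D N 0 ω) ≤
      ((2 * (N : ℝ) + 1) ^ (D + 1) * wsp D q v (r + 1) + 2 * ρ ^ n) *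
        (lat D).pr q u Ed fun ω => F ⊆ ω := by
    rw [add_mul]
    linarith
  rw [hF, hEd, pr_eq hN1 (Far D N 0) (Far D N 0) (fun a _ => far_tin_iff a), pr_eq_true hN1,
    ← mul_div_assoc, div_le_div_iff_of_pos_right hzz] at hfin
  exact hfin

end line

section choice

/-- Powers times decaying exponentials. -/
theorem poly_exp (m : ℕ) {c : ℝ} (hc : 0 < c) :
    Tendsto (fun x : ℕ => (x : ℝ) ^ m * Real.exp (-(c * x))) atTop (𝓝 0) := by
  have h := (tendsto_rpow_mul_exp_neg_mul_atTop_nhds_zero (m : ℝ) c hc).comp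
    tendsto_natCast_atTop_atTop
  refine h.congr fun x => ?_
  change (x : ℝ) ^ (m : ℝ) * Real.exp (-c * x) = _
  rw [Real.rpow_natCast, neg_mul]

theorem wsp_nonneg {q v : ℝ} (hq : 0 < q) (hv : 0 < v) {R : ℕ} (hR : 1 ≤ R) :
    0 ≤ wsp D q v R := by
  rw [s1_wsp hR hq hv]
  have hW := s1_wt_nonneg (lat D) hq (u := fun _ => v) fun _ => hv.le
  refine div_nonneg (sum_nonneg fun b _ => ?_) (sum_nonneg fun b _ => hW _)
  split_ifs
  · exact hW _
  · exact le_refl _

variable {q : ℝ} {u : Edge D → ℝ}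

/-- The wired box: small probability for some radius. -/
theorem exists_small (hD : 1 ≤ D) (hq : 1 ≤ q) {v vm : ℝ} (hv : 0 < v) (hu : ∀ e, 0 < u e)
    (hvm : ∀ e, u e ≤ vm) (huv : ∀ e, ¬ OnL e → u e = v)
    (hsh : ∀ h : ℤ, u ∘ shE (pt D h) = u) {C c : ℝ} (hc : 0 < c)
    (hdec : ∀ N : ℕ, 1 ≤ N → wsp D q v N ≤ C * Real.exp (-(c * N))) {δ : ℝ} (hδ : 0 < δ) :
    ∃ N, 1 ≤ N ∧ S D N q u (Far D N 0) ≤ δ * S D N q u fun _ => True := by
  have hq0 : 0 < q := by linarith
  have hvm0 : 0 ≤ vm := ((hu ((0 : Site D), none)).le).trans (hvm _)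
  have hC : 0 ≤ C := by
    have h1 := (wsp_nonneg (D := D) hq0 hv le_rfl).trans (hdec 1 le_rfl)
    exact nonneg_of_mul_nonneg_left h1 (Real.exp_pos _)
  obtain ⟨An, hAn⟩ := exists_nat_ge ((1 + vm) ^ (2 * (D + 1)))
  have hA1 : 1 ≤ (1 + vm) ^ (2 * (D + 1)) := one_le_pow₀ (by linarith)
  have hAn1 : (1 : ℝ) ≤ An := hA1.trans hAn
  have hAn1' : 1 ≤ An := by exact_mod_cast hAn1
  obtain ⟨K, hK⟩ := exists_nat_ge ((((D : ℝ) + 1) * Real.log An + 1) / c)
  rw [div_le_iff₀ hc] at hK
  have hlog : 0 ≤ Real.log An := Real.log_nonneg hAn1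
  have hK1 : 1 ≤ K := by
    rcases Nat.eq_zero_or_pos K with h | h
    · rw [h, Nat.cast_zero, zero_mul] at hK
      have : 0 ≤ ((D : ℝ) + 1) * Real.log An := by positivity
      linarith
    · exact h
  -- the three conditions
  have e1 : Tendsto (fun R : ℕ => (3 * (K : ℝ)) ^ D * C * 3 ^ (D * D) *
      ((R : ℝ) ^ (D * D) * Real.exp (-(c * R)))) atTop (𝓝 0) := by
    have := (poly_exp (D * D) hc).const_mul ((3 * (K : ℝ)) ^ D * C * 3 ^ (D * D))
    rwa [mul_zero] at this
  have hx : Tendsto (fun R : ℕ => (2 * R + 1) ^ D) atTop atTop := by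
    refine tendsto_atTop_mono (fun R => ?_) tendsto_id
    calc id R ≤ 2 * R + 1 := by simp only [id]; omega
      _ = (2 * R + 1) ^ 1 := (pow_one _).symm
      _ ≤ (2 * R + 1) ^ D := Nat.pow_le_pow_right (by omega) hD
  have e2 : Tendsto (fun R : ℕ => (14 * ((K : ℝ) + 1)) ^ (D + 1) * C *
      ((((2 * R + 1) ^ D : ℕ) : ℝ) ^ (2 * (D + 1)) *
        Real.exp (-(1 * (((2 * R + 1) ^ D : ℕ) : ℝ))))) atTop (𝓝 0) := by
    have := ((poly_exp (2 * (D + 1)) one_pos).comp hx).const_mul
      ((14 * ((K : ℝ) + 1)) ^ (D + 1) * C)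
    rw [mul_zero] at this
    exact this
  have e3 : Tendsto (fun R : ℕ => 2 * ((R : ℝ) ^ 0 * Real.exp (-(1 * R)))) atTop (𝓝 0) := by
    have := (poly_exp 0 one_pos).const_mul 2
    rwa [mul_zero] at this
  have hδ2 : 0 < δ / 2 := by linarith
  obtain ⟨R, ⟨⟨h1, h2⟩, h3⟩, hR⟩ := (((e1.eventually_lt_const (by norm_num : (0 : ℝ) < 1 / 2)).and
    (e2.eventually_lt_const hδ2)).and (e3.eventually_lt_const hδ2)).and
      (eventually_ge_atTop 1) |>.exists
  set x : ℕ := (2 * R + 1) ^ D with hxdef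
  have hRx : R ≤ x := by
    calc R ≤ 2 * R + 1 := by omega
      _ = (2 * R + 1) ^ 1 := (pow_one _).symm
      _ ≤ (2 * R + 1) ^ D := Nat.pow_le_pow_right (by omega) hD
  have hx1 : 1 ≤ x := hR.trans hRx
  set r : ℕ := K * x with hr
  set M : ℕ := r + R with hM
  set n : ℕ := 2 * R * An ^ x with hn
  have hAx : 1 ≤ An ^ x := Nat.one_le_pow _ _ hAn1'
  have hn1 : 1 ≤ n := by
    rw [hn]
    exact Nat.one_le_iff_ne_zero.2 (by positivity)
  have hM1 : 1 ≤ M := by omega
  set w := wsp D q v R with hw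
  have hw0 : 0 ≤ w := wsp_nonneg hq0 hv hR
  have hwR : w ≤ C * Real.exp (-(c * R)) := hdec R hR
  have hRr : (1 : ℝ) ≤ R := by exact_mod_cast hR
  have hKr : (1 : ℝ) ≤ K := by exact_mod_cast hK1
  have hxr : (1 : ℝ) ≤ x := by exact_mod_cast hx1
  -- the factor for the sites far from the line
  have hm : (((2 * r + 1) ^ D : ℕ) : ℝ) * w ≤ 1 / 2 := by
    have h4 : (((2 * r + 1) ^ D : ℕ) : ℝ) ≤ (3 * (K : ℝ)) ^ D * 3 ^ (D * D) * (R : ℝ) ^ (D * D) := by
      have h5 : (2 * r + 1 : ℕ) ≤ 3 * K * x := by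
        have : 1 ≤ K * x := Nat.one_le_iff_ne_zero.2 (by positivity)
        rw [hr, mul_assoc]
        omega
      have h6 : (2 * r + 1) ^ D ≤ (3 * K * x) ^ D := Nat.pow_le_pow_left h5 _
      have h7 : x ^ D ≤ (3 * R) ^ (D * D) := by
        rw [hxdef, ← pow_mul]
        exact Nat.pow_le_pow_left (by omega) _
      calc (((2 * r + 1) ^ D : ℕ) : ℝ) ≤ (((3 * K * x) ^ D : ℕ) : ℝ) := by exact_mod_cast h6
        _ = (3 * (K : ℝ)) ^ D * ((x ^ D : ℕ) : ℝ) := by push_cast; ring
        _ ≤ (3 * (K : ℝ)) ^ D * (((3 * R) ^ (D * D) : ℕ) : ℝ) :=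
            mul_le_mul_of_nonneg_left (by exact_mod_cast h7) (by positivity)
        _ = _ := by push_cast; ring
    calc (((2 * r + 1) ^ D : ℕ) : ℝ) * w
        ≤ ((3 * (K : ℝ)) ^ D * 3 ^ (D * D) * (R : ℝ) ^ (D * D)) * (C * Real.exp (-(c * R))) :=
          mul_le_mul h4 hwR hw0 (by positivity)
      _ = (3 * (K : ℝ)) ^ D * C * 3 ^ (D * D) * ((R : ℝ) ^ (D * D) * Real.exp (-(c * R))) := by
          ring
      _ ≤ 1 / 2 := h1.le
  have hmpos : (1 : ℝ) ≤ (((2 * r + 1) ^ D : ℕ) : ℝ) := by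
    exact_mod_cast Nat.one_le_pow _ _ (by omega)
  have hw1 : w ≤ 1 := by
    have h4 := mul_le_mul_of_nonneg_right hmpos hw0
    linarith
  have hbern : 1 / 2 ≤ (1 - w) ^ ((2 * r + 1) ^ D) := by
    have h4 := one_add_mul_le_pow (a := -w) (by linarith) ((2 * r + 1) ^ D)
    have h5 : (1 : ℝ) + -w = 1 - w := by ring
    rw [h5] at h4
    linarith
  have hblock := S_block hD (r := r) (R := R) (M := M) hR le_rfl hq hv hu hvm huv hw0 hw1
  set A : ℝ := (1 + vm) ^ (2 * (D + 1)) with hA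
  have hA0 : 0 < A := by linarith
  have hAnx : (0 : ℝ) < (An : ℝ) ^ x := by positivity
  set p : ℝ := ((An : ℝ) ^ x)⁻¹ / 2 with hp
  have hpS : p ≤ ((A⁻¹) ^ x) * (1 - w) ^ ((2 * r + 1) ^ D) := by
    have h4 : ((An : ℝ) ^ x)⁻¹ ≤ (A⁻¹) ^ x := by
      rw [inv_pow]
      exact inv_anti₀ (pow_pos hA0 _) (pow_le_pow_left₀ hA0.le hAn _)
    calc p = ((An : ℝ) ^ x)⁻¹ * (1 / 2) := by rw [hp]; ring
      _ ≤ _ := mul_le_mul h4 hbern (by norm_num) (pow_nonneg (inv_nonneg.2 hA0.le) _)
  have hp0 : 0 < p := by positivity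
  have hp1 : p ≤ 1 := by
    have h4 : ((An : ℝ) ^ x)⁻¹ ≤ 1 := inv_le_one_of_one_le₀ (one_le_pow₀ hAn1)
    rw [hp]
    linarith
  have hSpos := S_pos (D := D) (R := M) hq0 hu
  have hρ : S D M q u (Crs D r R) ≤ (1 - p) * S D M q u fun _ => True := by
    have h4 := S_compl (D := D) (R := M) (q := q) (u := u) (Crs D r R)
    have h5 := (mul_le_mul_of_nonneg_right hpS hSpos.le).trans hblock
    rw [sub_mul, one_mul]
    linarith
  have hW := wired_bound hD (r := r) (R := R) (M := M) (n := n) (N := 2 * M * n + M) hR le_rfl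
    le_rfl hn1 hq hv hu huv hsh (by linarith) hρ (wsp_nonneg hq0 hv (by omega))
  refine ⟨2 * M * n + M, by omega, hW.trans (mul_le_mul_of_nonneg_right ?_
    (S_pos (R := 2 * M * n + M) hq0 hu).le)⟩
  -- the first term
  have hfirst : (2 * ((2 * M * n + M : ℕ) : ℝ) + 1) ^ (D + 1) * wsp D q v (r + 1) ≤ δ / 2 := by
    have h4 : (2 * ((2 * M * n + M : ℕ) : ℝ) + 1) ≤ 14 * ((K : ℝ) + 1) * (x : ℝ) ^ 2 *
        (An : ℝ) ^ x := by
      have h5 : M ≤ (K + 1) * x := by
        rw [hM, hr, add_mul, one_mul]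
        omega
      have h6 : n ≤ 2 * x * An ^ x := by
        rw [hn]
        exact Nat.mul_le_mul_right _ (Nat.mul_le_mul_left _ hRx)
      have h7 : 2 * (2 * M * n + M) + 1 ≤ 7 * (M * n) := by
        have h8 : M ≤ M * n := Nat.le_mul_of_pos_right M hn1
        have h9 : 1 ≤ M * n := hM1.trans h8
        have h10 : 2 * M * n = 2 * (M * n) := by ring
        omega
      have h8 : 7 * (M * n) ≤ 7 * (((K + 1) * x) * (2 * x * An ^ x)) :=
        Nat.mul_le_mul_left _ (Nat.mul_le_mul h5 h6)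
      calc (2 * ((2 * M * n + M : ℕ) : ℝ) + 1) = ((2 * (2 * M * n + M) + 1 : ℕ) : ℝ) := by
            push_cast
            ring
        _ ≤ ((7 * (((K + 1) * x) * (2 * x * An ^ x)) : ℕ) : ℝ) := by
            exact_mod_cast h7.trans h8
        _ = _ := by
            push_cast
            ring
    have h5 : wsp D q v (r + 1) ≤ C * Real.exp (-(c * r)) := by
      refine (hdec (r + 1) (by omega)).trans (mul_le_mul_of_nonneg_left (Real.exp_le_exp.2 ?_) hC)
      push_cast
      rw [mul_add, mul_one]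
      linarith
    have h6 : (An : ℝ) ^ (x * (D + 1)) * Real.exp (-(c * r)) ≤ Real.exp (-(1 * (x : ℝ))) := by
      have h7 : (An : ℝ) ^ (x * (D + 1)) = Real.exp ((x * (D + 1) : ℕ) * Real.log An) := by
        rw [Real.exp_nat_mul, Real.exp_log (by linarith)]
      rw [h7, ← Real.exp_add, Real.exp_le_exp]
      have h8 : (r : ℝ) = K * x := by rw [hr]; push_cast; ring
      have h9 := mul_le_mul_of_nonneg_left hK (by linarith : (0 : ℝ) ≤ x)
      rw [h8]
      push_cast
      linarith [h9]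
    have h7 : 0 ≤ 14 * ((K : ℝ) + 1) * (x : ℝ) ^ 2 * (An : ℝ) ^ x := by positivity
    calc (2 * ((2 * M * n + M : ℕ) : ℝ) + 1) ^ (D + 1) * wsp D q v (r + 1)
        ≤ (14 * ((K : ℝ) + 1) * (x : ℝ) ^ 2 * (An : ℝ) ^ x) ^ (D + 1) *
            (C * Real.exp (-(c * r))) :=
          mul_le_mul (pow_le_pow_left₀ (by positivity) h4 _) h5
            (wsp_nonneg hq0 hv (by omega)) (by positivity)
      _ = (14 * ((K : ℝ) + 1)) ^ (D + 1) * C * (x : ℝ) ^ (2 * (D + 1)) *
            ((An : ℝ) ^ (x * (D + 1)) * Real.exp (-(c * r))) := by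
          rw [mul_pow, mul_pow, ← pow_mul, ← pow_mul]
          ring
      _ ≤ (14 * ((K : ℝ) + 1)) ^ (D + 1) * C * (x : ℝ) ^ (2 * (D + 1)) *
            Real.exp (-(1 * (x : ℝ))) := mul_le_mul_of_nonneg_left h6 (by positivity)
      _ = (14 * ((K : ℝ) + 1)) ^ (D + 1) * C * ((x : ℝ) ^ (2 * (D + 1)) *
            Real.exp (-(1 * (x : ℝ)))) := by ring
      _ ≤ δ / 2 := h2.le
  -- the second term
  have hsecond : 2 * (1 - p) ^ n ≤ δ / 2 := by
    have h4 : (1 - p) ^ n ≤ Real.exp (-(R : ℝ)) := by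
      have h5 : 1 - p ≤ Real.exp (-p) := by
        have := Real.add_one_le_exp (-p)
        linarith
      calc (1 - p) ^ n ≤ (Real.exp (-p)) ^ n := pow_le_pow_left₀ (by linarith) h5 _
        _ = Real.exp (-(n * p)) := by
            rw [← Real.exp_nat_mul]
            congr 1
            ring
        _ = Real.exp (-(R : ℝ)) := by
            congr 2
            rw [hn, hp]
            push_cast
            field_simp
    have h5 : 2 * ((R : ℝ) ^ 0 * Real.exp (-(1 * R))) = 2 * Real.exp (-(R : ℝ)) := by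
      rw [pow_zero, one_mul, one_mul]
    rw [h5] at h3
    linarith
  linarith

end choice

section final

variable {q : ℝ} {u : Edge D → ℝ}

theorem sph_tin {N N' : ℕ} (h : N ≤ N') : Disjoint (sphE D N') (tin D N) := by
  rw [disjoint_left]
  intro e h1 h2
  have h3 := (Finset.mem_filter.1 h1).2
  rw [mem_tin] at h2
  rcases h2 with h2 | h2
  · refine h3.1 ((mem_box_co _).2 fun k => ?_)
    have h4 := (mem_box_co _).1 h2 k
    omega
  · refine h3.2 ((mem_box_co _).2 fun k => ?_)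
    have h4 := (mem_box_co _).1 h2 k
    omega

/-- The probability decreases with the box. -/
theorem mono_N (hD : 1 ≤ D) (hq : 1 ≤ q) (hu : ∀ e, 0 < u e) {N N' : ℕ} (hN : 1 ≤ N)
    (h : N ≤ N') {δ : ℝ} (hδ : S D N q u (Far D N 0) ≤ δ * S D N q u fun _ => True) :
    S D N' q u (Far D N' 0) ≤ δ * S D N' q u fun _ => True := by
  have hq0 : 0 < q := by linarith
  have hu' : ∀ e, 0 ≤ u e := fun e => (hu e).le
  have hpos := S_pos (D := D) (R := N) hq0 hu
  have hzz := (lat D).zz_pos q u hq0 hu' (edg (SB.box D N'))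
  have h1 := dom hD hN hq hu' (edg (SB.box D N')) (A := Far D N 0)
    (B := fun ω => sphE D N' ⊆ ω) (fun a b hab ha => ha.mono hab)
    (fun ω hω => far_loc (Subset.refl _) hω) (sph_event (sph_tin h))
  have h2 : (lat D).pr q u (edg (SB.box D N')) (fun ω => Far D N 0 ω ∧ sphE D N' ⊆ ω) ≤
      δ * (lat D).pr q u (edg (SB.box D N')) (fun ω => sphE D N' ⊆ ω) := by
    refine le_of_mul_le_mul_right (h1.trans ?_) hpos
    have h3 := mul_le_mul_of_nonneg_left hδ
      ((lat D).pr_nonneg q u hq0 hu' (edg (SB.box D N')) fun ω => sphE D N' ⊆ ω)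
    linarith
  have h4 : (lat D).pr q u (edg (SB.box D N')) (fun ω => sphE D N' ⊆ ω ∧ Far D N' 0 ω) ≤
      (lat D).pr q u (edg (SB.box D N')) (fun ω => Far D N 0 ω ∧ sphE D N' ⊆ ω) := by
    refine (lat D).pr_le q u hq0 hu' _ _ _ ?_
    rintro ω - ⟨h5, y, hy, hr⟩
    refine ⟨⟨y, fun hc => hy ?_, hr⟩, h5⟩
    rw [mem_box_co] at hc ⊢
    intro k
    have := hc k
    omega
  have h5 := h4.trans h2
  rw [pr_eq (hN.trans h) (Far D N' 0) (Far D N' 0) (fun a _ => far_tin_iff a),
    pr_eq_true (hN.trans h), ← mul_div_assoc, div_le_div_iff_of_pos_right hzz] at h5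
  exact h5

/-- Boxes are connected. -/
theorem box_conn (m : ℕ) (n : ℕ) : ∀ z : Site D, ∑ k, (co z k).natAbs = n → z ∈ SB.box D m →
    (lat D).Rch (edg (SB.box D m)) 0 z := by
  induction n using Nat.strong_induction_on with
  | _ n ih =>
    intro z hn hz
    by_cases h0 : ∀ k, co z k = 0
    · have : z = 0 := DLS.co_ext fun k => by rw [h0 k]; cases k <;> rfl
      rw [this]
      exact Relation.ReflTransGen.refl
    · push Not at h0
      obtain ⟨k, hk⟩ := h0
      have hzc := (mem_box_co z).1 hz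
      rcases lt_or_gt_of_ne hk with hneg | hpos
      · -- negative coordinate
        set y : Site D := (lat D).t (z, k) with hy
        have hco : ∀ j, co y j = co z j + if j = k then 1 else 0 := fun j => co_t (z, k) j
        have hyb : y ∈ SB.box D m := by
          rw [mem_box_co]
          intro j
          rw [hco]
          have := hzc j
          by_cases hj : j = k
          · subst hj
            rw [if_pos rfl]
            omega
          · rw [if_neg hj, add_zero]
            exact this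
        have hlt : ∑ j, (co y j).natAbs < n := by
          rw [← hn]
          refine sum_lt_sum (fun j _ => ?_) ⟨k, mem_univ _, ?_⟩
          · rw [hco]
            by_cases hj : j = k
            · subst hj
              rw [if_pos rfl]
              omega
            · rw [if_neg hj, add_zero]
          · rw [hco, if_pos rfl]
            omega
        refine (ih _ hlt y rfl hyb).tail ⟨(z, k), ?_, Or.inr ⟨rfl, rfl⟩⟩
        rw [mem_edg]
        exact ⟨hz, hyb⟩
      · -- positive coordinate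
        set y : Site D := z - SB.dir (k, true) with hy
        have hty : (lat D).t (y, k) = z := by
          rw [t_eq]
          exact sub_add_cancel z _
        have hco : ∀ j, co y j = co z j - if j = k then 1 else 0 := fun j => by
          rw [hy, sub_co, co_dir]
        have hyb : y ∈ SB.box D m := by
          rw [mem_box_co]
          intro j
          rw [hco]
          have := hzc j
          by_cases hj : j = k
          · subst hj
            rw [if_pos rfl]
            omega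
          · rw [if_neg hj, sub_zero]
            exact this
        have hlt : ∑ j, (co y j).natAbs < n := by
          rw [← hn]
          refine sum_lt_sum (fun j _ => ?_) ⟨k, mem_univ _, ?_⟩
          · rw [hco]
            by_cases hj : j = k
            · subst hj
              rw [if_pos rfl]
              omega
            · rw [if_neg hj, sub_zero]
          · rw [hco, if_pos rfl]
            omega
        refine (ih _ hlt y rfl hyb).tail ⟨(y, k), ?_, Or.inl ⟨rfl, hty⟩⟩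
        rw [mem_edg, hty]
        exact ⟨hyb, hz⟩

/-- The box of radius `m` is connected to the boundary of the box of radius `N`. -/
def Con (D m N : ℕ) (a : Finset (Edge D)) : Prop :=
  ∃ z ∈ SB.box D m, ∃ y, y ∉ SB.box D (N - 1) ∧ (lat D).Rch a z y

theorem Con.mono {m N : ℕ} {a b : Finset (Edge D)} (hab : a ⊆ b) (h : Con D m N a) :
    Con D m N b := by
  obtain ⟨z, hz, y, hy, hr⟩ := h
  exact ⟨z, hz, y, hy, ex_rch_mono hab hr⟩

theorem rk_union_le {V ι : Type} [DecidableEq V] [DecidableEq ι] (G : Gr V ι) (a b : Finset ι) :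
    G.rk (a ∪ b) ≤ G.rk a + b.card := by
  induction b using Finset.induction_on with
  | empty => rw [union_empty, card_empty, add_zero]
  | insert e b he ih =>
    rw [union_insert, card_insert_of_notMem he]
    have := G.rk_insert_le (a ∪ b) e
    omega

/-- Opening all edges of the box of radius `m`. -/
theorem con_le (hq : 1 ≤ q) (hu : ∀ e, 0 < u e) (m : ℕ) : ∃ K : ℝ, 0 < K ∧ ∀ N, m < N →
    S D N q u (Con D m N) ≤ K * S D N q u (Far D N 0) := by
  classical
  have hq0 : 0 < q := by linarith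
  have hu' : ∀ e, 0 ≤ u e := fun e => (hu e).le
  set Em : Finset (Edge D) := edg (SB.box D m) with hEm
  have hprod : ∀ b : Finset (Edge D), 0 < ∏ e ∈ b, u e := fun b => prod_pos fun e _ => hu e
  set Kb : Finset (Edge D) → ℝ := fun b => q ^ Em.card * (∏ e ∈ b, u e) / ∏ e ∈ Em, u e with hKb
  have hKb0 : ∀ b, 0 < Kb b := fun b => div_pos (mul_pos (pow_pos hq0 _) (hprod b)) (hprod Em)
  refine ⟨∑ b ∈ Em.powerset, Kb b, sum_pos (fun b _ => hKb0 b) ⟨∅, empty_mem_powerset _⟩, ?_⟩
  intro N hN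
  have hW := (lat D).wt_nonneg q u hq0 hu'
  have hET : Em ⊆ tin D N := by
    intro e he
    rw [hEm, mem_edg] at he
    rw [mem_tin]
    refine Or.inl ((mem_box_co _).2 fun k => ?_)
    have := (mem_box_co _).1 he.1 k
    omega
  have hTE : tin D N ∩ Em = Em := inter_eq_right.2 hET
  unfold S DLS.Sm
  rw [s1_split (tin D N) Em, s1_split (tin D N) Em, hTE, mul_sum]
  refine sum_le_sum fun η hη => ?_
  rw [mem_powerset] at hη
  have hdis : Disjoint η Em := disjoint_left.2 fun e he => (Finset.mem_sdiff.1 (hη he)).2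
  have hηT : η ⊆ tin D N := hη.trans sdiff_subset
  have hFar : ∀ b ⊆ Em, Con D m N (η ∪ b) → Far D N 0 (η ∪ Em) := by
    rintro b hb ⟨z, hz, y, hy, hr⟩
    refine ⟨y, by rwa [sub_zero], ?_⟩
    have h1 := ex_rch_mono (b := η ∪ Em) subset_union_right (box_conn m _ z rfl hz)
    exact h1.trans (ex_rch_mono (union_subset_union_right hb) hr)
  have hwt : ∀ b ⊆ Em, (lat D).wt q u (sphE D N ∪ (η ∪ b)) ≤
      Kb b * (lat D).wt q u (sphE D N ∪ (η ∪ Em)) := by
    intro b hb
    have h1 : ∀ c ⊆ Em, ∏ e ∈ sphE D N ∪ (η ∪ c), u e =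
        (∏ e ∈ sphE D N, u e) * ((∏ e ∈ η, u e) * ∏ e ∈ c, u e) := by
      intro c hc
      rw [prod_union, prod_union (disjoint_of_subset_right hc hdis)]
      rw [disjoint_union_right]
      exact ⟨disjoint_of_subset_right hηT sph_disj,
        disjoint_of_subset_right (hc.trans hET) sph_disj⟩
    have h2 : (lat D).rk (sphE D N ∪ (η ∪ Em)) ≤ (lat D).rk (sphE D N ∪ (η ∪ b)) + Em.card := by
      refine le_trans ((lat D).rk_mono ?_) (rk_union_le (lat D) (sphE D N ∪ (η ∪ b)) Em)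
      intro e
      simp only [Finset.mem_union]
      tauto
    have h3 : (q⁻¹) ^ (lat D).rk (sphE D N ∪ (η ∪ b)) ≤
        q ^ Em.card * (q⁻¹) ^ (lat D).rk (sphE D N ∪ (η ∪ Em)) := by
      have h4 := pow_le_pow_of_le_one (inv_nonneg.2 hq0.le) (inv_le_one_of_one_le₀ hq) h2
      rw [pow_add] at h4
      calc (q⁻¹) ^ (lat D).rk (sphE D N ∪ (η ∪ b))
          = q ^ Em.card * ((q⁻¹) ^ (lat D).rk (sphE D N ∪ (η ∪ b)) * (q⁻¹) ^ Em.card) := by
            rw [mul_comm ((q⁻¹) ^ (lat D).rk (sphE D N ∪ (η ∪ b))), ← mul_assoc, ← mul_pow,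
              mul_inv_cancel₀ hq0.ne', one_pow, one_mul]
        _ ≤ _ := mul_le_mul_of_nonneg_left h4 (pow_nonneg hq0.le _)
    unfold Gr.wt
    rw [h1 b hb, h1 Em (Subset.refl _)]
    have h5 : Kb b * ((∏ e ∈ sphE D N, u e) * ((∏ e ∈ η, u e) * ∏ e ∈ Em, u e) *
        (q⁻¹) ^ (lat D).rk (sphE D N ∪ (η ∪ Em))) =
        (∏ e ∈ sphE D N, u e) * ((∏ e ∈ η, u e) * ∏ e ∈ b, u e) *
          (q ^ Em.card * (q⁻¹) ^ (lat D).rk (sphE D N ∪ (η ∪ Em))) := by
      have := (hprod Em).ne'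
      simp only [hKb]
      field_simp
    rw [h5]
    exact mul_le_mul_of_nonneg_left h3
      (mul_nonneg (hprod _).le (mul_nonneg (hprod _).le (hprod _).le))
  rw [sum_mul]
  refine sum_le_sum fun b hb => ?_
  rw [mem_powerset] at hb
  by_cases hc : Con D m N (η ∪ b)
  · rw [ind_pos hc, mul_one]
    refine (hwt b hb).trans (mul_le_mul_of_nonneg_left ?_ (hKb0 b).le)
    have h1 : (lat D).wt q u (sphE D N ∪ (η ∪ Em)) =
        (lat D).wt q u (sphE D N ∪ (η ∪ Em)) * DLS.ind (Far D N 0) (η ∪ Em) := by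
      rw [ind_pos (hFar b hb hc), mul_one]
    rw [h1]
    exact single_le_sum (f := fun b => (lat D).wt q u (sphE D N ∪ (η ∪ b)) *
      DLS.ind (Far D N 0) (η ∪ b)) (fun c _ => mul_nonneg (hW _) (ind_nonneg _ _))
      (mem_powerset.2 (Subset.refl Em))
  · rw [ind_neg hc, mul_zero]
    exact mul_nonneg (hKb0 b).le (sum_nonneg fun c _ => mul_nonneg (hW _) (ind_nonneg _ _))

/-- The wired box for positive weights. -/
theorem wired_lim (hD : 1 ≤ D) (hq : 1 ≤ q) {v vm : ℝ} (hv : 0 < v) (hu : ∀ e, 0 < u e)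
    (hvm : ∀ e, u e ≤ vm) (huv : ∀ e, ¬ OnL e → u e = v)
    (hsh : ∀ h : ℤ, u ∘ shE (pt D h) = u) {C c : ℝ} (hc : 0 < c)
    (hdec : ∀ N : ℕ, 1 ≤ N → wsp D q v N ≤ C * Real.exp (-(c * N))) (m : ℕ) {δ : ℝ}
    (hδ : 0 < δ) : ∃ N0, ∀ N, N0 ≤ N → S D N q u (Con D m N) ≤ δ * S D N q u fun _ => True := by
  obtain ⟨K, hK, hKc⟩ := con_le (D := D) hq hu m
  obtain ⟨N1, hN1, hS⟩ := exists_small hD hq hv hu hvm huv hsh hc hdec (div_pos hδ hK)
  refine ⟨max N1 (m + 1), fun N hN => ?_⟩
  have h1 := mono_N hD hq hu hN1 ((le_max_left _ _).trans hN) hS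
  refine (hKc N ?_).trans ?_
  · have := (le_max_right N1 (m + 1)).trans hN
    omega
  · have h2 := mul_le_mul_of_nonneg_left h1 hK.le
    calc K * S D N q u (Far D N 0) ≤ K * (δ / K * S D N q u fun _ => True) := h2
      _ = δ * S D N q u fun _ => True := by
        rw [← mul_assoc, mul_div_cancel₀ _ hK.ne']

theorem vJ_pos {β J : ℝ} (hβ : 0 < β) (hJ : 0 < J) (e : Edge D) : 0 < vJ β J e := by
  unfold vJ
  have h1 : 0 < Real.exp (β * J) - 1 := by
    have := Real.add_one_lt_exp (mul_pos hβ hJ).ne'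
    have := mul_pos hβ hJ
    linarith
  have h2 : 0 < Real.exp β - 1 := by
    have := Real.add_one_lt_exp hβ.ne'
    linarith
  split_ifs
  · exact h1
  · exact h2

/-- **The wired boundary condition, for all couplings of the line.** -/
theorem wired_J {q β : ℝ} (h : Bas D q β) {J : ℝ} (hJ : 0 ≤ J) (m : ℕ) {δ : ℝ} (hδ : 0 < δ) :
    ∃ N0, ∀ N, N0 ≤ N → S D N q (vJ β J) (Con D m N) ≤
      δ * S D N q (vJ β J) fun _ => True := by
  have hq0 : 0 < q := by have := h.hq; linarith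
  obtain ⟨C, c, hc, hdec⟩ := (WD_iff hq0 h.hβ).1 h.wd
  set J' := max J 1 with hJ'
  have hJ1 : 1 ≤ J' := le_max_right _ _
  have hJ0 : 0 < J' := by linarith
  have hu : ∀ e : Edge D, 0 < vJ β J' e := vJ_pos h.hβ hJ0
  have hu0 : ∀ e : Edge D, 0 ≤ vJ β J e := by
    intro e
    unfold vJ
    split_ifs
    · have := Real.one_le_exp (mul_nonneg h.hβ.le hJ)
      linarith
    · have := Real.one_le_exp h.hβ.le
      linarith
  have hmono : ∀ e : Edge D, vJ β J e ≤ vJ β J' e := by
    intro e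
    unfold vJ
    split_ifs
    · have := Real.exp_le_exp.2 (mul_le_mul_of_nonneg_left (le_max_left J 1) h.hβ.le)
      linarith
    · exact le_rfl
  have hvm : ∀ e : Edge D, vJ β J' e ≤ Real.exp (β * J') - 1 := by
    intro e
    unfold vJ
    split_ifs
    · exact le_rfl
    · have h1 : β ≤ β * J' := by
        have := mul_le_mul_of_nonneg_left hJ1 h.hβ.le
        linarith
      have := Real.exp_le_exp.2 h1
      linarith
  have hv : 0 < Real.exp β - 1 := by
    have := Real.add_one_lt_exp h.hβ.ne'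
    have := h.hβ
    linarith
  have hsh : ∀ k : ℤ, (vJ β J' : Edge D → ℝ) ∘ shE (pt D k) = vJ β J' := by
    intro k
    funext e
    change vJ β J' (shE (pt D k) e) = vJ β J' e
    have h1 : OnL (shE (pt D k) e) ↔ OnL e := by
      unfold OnL
      have h2 : (shE (pt D k) e).2 = e.2 := rfl
      have h3 : (shE (pt D k) e).1.2 = e.1.2 := by
        change e.1.2 + 0 = e.1.2
        rw [add_zero]
      rw [h2, h3]
    unfold vJ
    by_cases h2 : OnL e
    · rw [if_pos h2, if_pos (h1.2 h2)]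
    · rw [if_neg h2, if_neg fun h3 => h2 (h1.1 h3)]
  obtain ⟨N0, hN0⟩ := wired_lim h.hD h.hq hv hu hvm (fun e he => by unfold vJ; rw [if_neg he]) hsh
    hc hdec m hδ
  refine ⟨N0, fun N hN => ?_⟩
  have h1 := hN0 N hN
  have h2 := S_mono_u (D := D) (R := N) h.hq hu0 hmono (A := Con D m N)
    fun a b hab ha => ha.mono hab
  have h3 := S_pos (D := D) (R := N) hq0 hu
  refine le_of_mul_le_mul_right (h2.trans ?_) h3
  have h4 := mul_le_mul_of_nonneg_left h1 (S_nonneg (D := D) (R := N) hq0 hu0 fun _ => True)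
  linarith

end final

end Pool.Agent.DL.UniqW
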